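import Pool.Agent.Lib.MP_17a322_nt.SL.CM1
import Pool.Agent.Lib.MP_17a322_nt.VJ.A3
import Pool.Agent.Lib.MP_17a322_nt.VJ.A4

/-!
Compound matrices: local estimates.
-/

universe u

namespace Pool.Agent.Lib.MP_17a322_nt.SL

open MvPolynomial Height
open Pool.Agent.Lib.MP_17a322_nt.RO
open Pool.Agent.Lib.MP_17a322_nt.VJ

section loc

variable {K : Type*} [Field K]

theorem cm_le_mx (v : AbsoluteValue K ℝ) {q : ℕ} (M : Matrix (Fin q) (Fin q) K) (i j : Fin q) :
    v (M i j) ≤ mx v M :=
  Finite.le_ciSup_of_le (f := fun p : Fin q × Fin q => v (M p.1 p.2)) (i, j) le_rfl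

theorem cm_mx_nonneg (v : AbsoluteValue K ℝ) {q : ℕ} (M : Matrix (Fin q) (Fin q) K) :
    0 ≤ mx v M :=
  Real.iSup_nonneg fun _ => v.nonneg _

theorem cm_mx_le (v : AbsoluteValue K ℝ) {q : ℕ} (M : Matrix (Fin q) (Fin q) K) {B : ℝ} (hB : 0 ≤ B)
    (h : ∀ i j, v (M i j) ≤ B) : mx v M ≤ B :=
  Real.iSup_le (fun p => h p.1 p.2) hB

theorem cm_mx_pos (v : AbsoluteValue K ℝ) {q : ℕ} (hq : 0 < q) (M : Matrix (Fin q) (Fin q) K)
    (hM : M.det ≠ 0) : 0 < mx v M := by
  by_contra h
  have h0 : M = 0 := by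
    ext i j
    have h1 := cm_le_mx v M i j
    have h2 : v (M i j) = 0 := le_antisymm (h1.trans (not_lt.1 h)) (v.nonneg _)
    exact v.eq_zero.1 h2
  have : Nonempty (Fin q) := ⟨⟨0, hq⟩⟩
  exact hM (by rw [h0]; exact Matrix.det_zero)

/-- The determinant of a matrix with entries of size at most `r i * s k`. -/
theorem det_bd (v : AbsoluteValue K ℝ) {n : ℕ} (Z : Matrix (Fin n) (Fin n) K) (r s : Fin n → ℝ)
    (hr : ∀ i, 0 ≤ r i) (hs : ∀ i, 0 ≤ s i) (h : ∀ i k, v (Z i k) ≤ r i * s k) :
    v Z.det ≤ cst v n.factorial * ((∏ i, r i) * ∏ k, s k) := by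
  rw [Matrix.det_apply]
  have h1 := (SN_self v).sum_le (Finset.univ : Finset (Equiv.Perm (Fin n)))
    (fun π => Equiv.Perm.sign π • ∏ i, Z (π i) i) (B := (∏ i, r i) * ∏ k, s k)
    (mul_nonneg (Finset.prod_nonneg fun i _ => hr i) (Finset.prod_nonneg fun i _ => hs i))
    fun π _ => ?_
  · rw [Finset.card_univ, Fintype.card_perm, Fintype.card_fin] at h1
    exact h1
  · have h2 : v (Equiv.Perm.sign π • ∏ i, Z (π i) i) = ∏ i, v (Z (π i) i) := by
      rcases Int.units_eq_one_or (Equiv.Perm.sign π) with h0 | h0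
      · rw [h0, one_smul, map_prod]
      · rw [h0, Units.neg_smul, one_smul, v.map_neg, map_prod]
    change v (Equiv.Perm.sign π • ∏ i, Z (π i) i) ≤ _
    rw [h2]
    calc ∏ i, v (Z (π i) i) ≤ ∏ i, r (π i) * s i :=
          Finset.prod_le_prod (fun i _ => v.nonneg _) fun i _ => h _ _
      _ = (∏ i, r i) * ∏ k, s k := by
          rw [Finset.prod_mul_distrib, Equiv.prod_comp π r]

theorem det_le_mx (v : AbsoluteValue K ℝ) {q : ℕ} (M : Matrix (Fin q) (Fin q) K) :
    v M.det ≤ cst v q.factorial * mx v M ^ q := by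
  have h1 := det_bd v M (fun _ => mx v M) (fun _ => 1) (fun _ => cm_mx_nonneg v M)
    (fun _ => zero_le_one) fun i k => by rw [mul_one]; exact cm_le_mx v M i k
  rw [Finset.prod_const, Finset.prod_const_one, Finset.card_univ, Fintype.card_fin, mul_one] at h1
  exact h1

variable {q p N : ℕ} (e : Fin N ≃ Set.powersetCard (Fin q) p)

theorem sum_emb (a : Fin N) (g : Fin q → ℝ) :
    ∑ j ∈ (e a : Finset (Fin q)), g j = ∑ i, g (Set.powersetCard.ofFinEmbEquiv.symm (e a) i) := by
  have h1 : Finset.map (Set.powersetCard.ofFinEmbEquiv.symm (e a)).toEmbedding Finset.univ =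
      (e a : Finset (Fin q)) := Finset.map_orderEmbOfFin_univ _ _
  rw [← h1, Finset.sum_map]
  rfl

theorem prod_emb (a : Fin N) (g : Fin q → ℝ) :
    ∏ j ∈ (e a : Finset (Fin q)), g j = ∏ i, g (Set.powersetCard.ofFinEmbEquiv.symm (e a) i) := by
  have h1 : Finset.map (Set.powersetCard.ofFinEmbEquiv.symm (e a)).toEmbedding Finset.univ =
      (e a : Finset (Fin q)) := Finset.map_orderEmbOfFin_univ _ _
  rw [← h1, Finset.prod_map]
  rfl

theorem mx_cmp_le (v : AbsoluteValue K ℝ) (M : Matrix (Fin q) (Fin q) K) :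
    mx v (cmp e M) ≤ cst v p.factorial * mx v M ^ p := by
  refine cm_mx_le v _ (mul_nonneg (cst_nonneg _ _) (pow_nonneg (cm_mx_nonneg _ _) _)) fun a b => ?_
  have h1 := det_bd v (M.submatrix (Set.powersetCard.ofFinEmbEquiv.symm (e a))
    (Set.powersetCard.ofFinEmbEquiv.symm (e b))) (fun _ => mx v M) (fun _ => 1)
    (fun _ => cm_mx_nonneg v M) (fun _ => zero_le_one) fun i k => by
      rw [mul_one]; exact cm_le_mx v M _ _
  rw [Finset.prod_const, Finset.prod_const_one, Finset.card_univ, Fintype.card_fin, mul_one] at h1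
  exact h1

/-- The expansion of larger minors. -/
theorem minor_le (v : AbsoluteValue K ℝ) (M : Matrix (Fin q) (Fin q) K) {n : ℕ} (hpn : p ≤ n)
    (f g : Fin n ↪o Fin q) :
    v (M.submatrix f g).det ≤ cst v (q ^ (n - p)) * (mx v M ^ (n - p) * mx v (cmp e M)) := by
  induction n, hpn using Nat.le_induction with
  | base =>
    rw [Nat.sub_self, pow_zero, pow_zero, cst_one, one_mul, one_mul]
    have h1 := cm_le_mx v (cmp e M) (e.symm (Set.powersetCard.ofFinEmbEquiv f))
      (e.symm (Set.powersetCard.ofFinEmbEquiv g))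
    unfold cmp at h1
    rw [Matrix.of_apply, Equiv.apply_symm_apply, Equiv.apply_symm_apply, Equiv.symm_apply_apply,
      Equiv.symm_apply_apply] at h1
    exact h1
  | succ n hn ih =>
    have hnq : n + 1 ≤ q := by
      have := Fintype.card_le_of_embedding f.toEmbedding
      rwa [Fintype.card_fin, Fintype.card_fin] at this
    rw [Matrix.det_succ_row_zero]
    have hB : 0 ≤ cst v (q ^ (n - p)) * (mx v M ^ (n - p) * mx v (cmp e M)) :=
      mul_nonneg (cst_nonneg _ _) (mul_nonneg (pow_nonneg (cm_mx_nonneg _ _) _) (cm_mx_nonneg _ _))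
    have h1 := (SN_self v).sum_le (Finset.univ : Finset (Fin (n + 1)))
      (fun j => (-1) ^ (j : ℕ) * M.submatrix f g 0 j *
        ((M.submatrix f g).submatrix Fin.succ j.succAbove).det)
      (B := mx v M * (cst v (q ^ (n - p)) * (mx v M ^ (n - p) * mx v (cmp e M))))
      (mul_nonneg (cm_mx_nonneg _ _) hB) fun j _ => ?_
    · rw [Finset.card_univ, Fintype.card_fin] at h1
      refine h1.trans ?_
      have h2 : cst v (n + 1) ≤ cst v q := cst_mono v hnq
      have h3 : n + 1 - p = (n - p) + 1 := by omega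
      rw [h3, pow_succ, pow_succ, cst_mul]
      calc cst v (n + 1) * (mx v M * (cst v (q ^ (n - p)) * (mx v M ^ (n - p) * mx v (cmp e M))))
          ≤ cst v q * (mx v M * (cst v (q ^ (n - p)) * (mx v M ^ (n - p) * mx v (cmp e M)))) :=
            mul_le_mul_of_nonneg_right h2 (mul_nonneg (cm_mx_nonneg _ _) hB)
        _ = _ := by ring
    · rw [map_mul, map_mul, map_pow, v.map_neg, map_one, one_pow, one_mul]
      refine mul_le_mul (cm_le_mx v M _ _) ?_ (v.nonneg _) (cm_mx_nonneg _ _)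
      have h4 := ih ((Fin.succOrderEmb n).trans f) ((Fin.succAboveOrderEmb j).trans g)
      exact h4

/-- The determinant and the compound matrix. -/
theorem det_le_cmp (v : AbsoluteValue K ℝ) (hpq : p ≤ q) (M : Matrix (Fin q) (Fin q) K) :
    v M.det ≤ cst v (q ^ (q - p)) * (mx v M ^ (q - p) * mx v (cmp e M)) := by
  have h1 := minor_le e v M hpq (RelEmbedding.refl _) (RelEmbedding.refl _)
  exact h1

/-- The inverse matrix. -/
theorem mx_inv_le (v : AbsoluteValue K ℝ) (M : Matrix (Fin q) (Fin q) K) :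
    mx v M⁻¹ ≤ cst v q.factorial * mx v M ^ (q - 1) / v M.det := by
  refine cm_mx_le v _ (div_nonneg (mul_nonneg (cst_nonneg _ _) (pow_nonneg (cm_mx_nonneg _ _) _))
    (v.nonneg _)) fun i j => ?_
  rw [Matrix.inv_def, Matrix.smul_apply, Ring.inverse_eq_inv', smul_eq_mul, map_mul, map_inv₀,
    inv_mul_eq_div]
  refine div_le_div_of_nonneg_right ?_ (v.nonneg _)
  rw [Matrix.adjugate_apply]
  have h1 := det_bd v (M.updateRow j (Pi.single i 1)) (fun k => if k = j then 1 else mx v M)
    (fun _ => 1) (fun k => by split_ifs; exacts [zero_le_one, cm_mx_nonneg _ _])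
    (fun _ => zero_le_one) fun k l => ?_
  · rw [Finset.prod_const_one, mul_one] at h1
    have h2 : ∏ k : Fin q, (if k = j then (1 : ℝ) else mx v M) = mx v M ^ (q - 1) := by
      rw [Finset.prod_ite, Finset.prod_const_one, one_mul, Finset.prod_const, Finset.filter_ne',
        Finset.card_erase_of_mem (Finset.mem_univ j), Finset.card_univ, Fintype.card_fin]
    rw [h2] at h1
    exact h1
  · rw [mul_one]
    split_ifs with h
    · rw [h, Matrix.updateRow_self]
      by_cases hl : l = i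
      · rw [hl, Pi.single_eq_same, map_one]
      · rw [Pi.single_eq_of_ne hl, map_zero]
        exact zero_le_one
    · rw [Matrix.updateRow_ne h]
      exact cm_le_mx v M k l

end loc

end Pool.Agent.Lib.MP_17a322_nt.SL
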