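import Pool.Agent.Lib.MP_17a322_nt.SL.ZDefs
import Pool.Agent.Lib.MP_17a322_nt.SL.CM2

/-!
Determinants of block matrices: the kernel of `G` and the minors of `G`.
-/

universe u

namespace Pool.Agent.Lib.MP_17a322_nt.SL

open MvPolynomial Height
open Pool.Agent.Lib.MP_17a322_nt.RO
open Pool.Agent.Lib.MP_17a322_nt.VJ

section

variable {K : Type*} [Field K]

/-- Independent rows have a right inverse. -/
theorem Z_rinv {g n : ℕ} {G : Fin g → Fin n → K} (hG : LinearIndependent K G) :
    ∃ B : Fin g → Fin n → K, ∀ a b, ∑ l, G a l * B b l = if a = b then 1 else 0 := by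
  classical
  obtain ⟨h, hh⟩ := LinearMap.exists_leftInverse_of_injective (Fintype.linearCombination K G)
    (LinearMap.ker_eq_bot.2 (linearIndependent_iff_injective_fintypeLinearCombination.1 hG))
  refine ⟨fun b l => h (Pi.single l 1) b, fun a b => ?_⟩
  have h1 : h (G a) = Pi.single a 1 := by
    have h2 := LinearMap.congr_fun hh (Pi.single a 1)
    rw [LinearMap.comp_apply, LinearMap.id_apply, Fintype.linearCombination_apply_single,
      one_smul] at h2
    exact h2
  have h2 : G a = ∑ l, G a l • Pi.single l (1 : K) := by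
    funext l
    rw [Finset.sum_apply, Finset.sum_eq_single l]
    · rw [Pi.smul_apply, Pi.single_eq_same, smul_eq_mul, mul_one]
    · intro l' _ hl
      rw [Pi.smul_apply, Pi.single_eq_of_ne (Ne.symm hl), smul_zero]
    · intro hl
      exact absurd (Finset.mem_univ l) hl
  have h3 : h (G a) b = ∑ l, G a l * h (Pi.single l 1) b := by
    conv_lhs => rw [h2]
    rw [map_sum, Finset.sum_apply]
    refine Finset.sum_congr rfl fun l _ => ?_
    rw [map_smul, Pi.smul_apply, smul_eq_mul]
  rw [← h3, h1, Pi.single_apply]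
  by_cases hab : a = b
  · rw [if_pos hab, if_pos hab.symm]
  · rw [if_neg hab, if_neg (Ne.symm hab)]

variable {r g : ℕ}

omit [Field K] in
theorem stk_inl (M : Fin r → Fin (r + g) → K) (G : Fin g → Fin (r + g) → K) (b : Fin r)
    (l : Fin (r + g)) : stk M G (finSumFinEquiv (Sum.inl b)) l = M b l := by
  unfold stk
  rw [Matrix.of_apply, finSumFinEquiv_apply_left, Fin.append_left]

omit [Field K] in
theorem stk_inr (M : Fin r → Fin (r + g) → K) (G : Fin g → Fin (r + g) → K) (a : Fin g)
    (l : Fin (r + g)) : stk M G (finSumFinEquiv (Sum.inr a)) l = G a l := by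
  unfold stk
  rw [Matrix.of_apply, finSumFinEquiv_apply_right, Fin.append_right]

/-- The determinants of `M` on the kernel of `G`. -/
theorem Z_lam (G : Fin g → Fin (r + g) → K) (hG : LinearIndependent K G)
    (Y : Fin r → Fin (r + g) → K) (hY : LinearIndependent K Y)
    (hGY : ∀ a b, ∑ l, G a l * Y b l = 0) :
    ∃ t : K, t ≠ 0 ∧ ∀ M : Fin r → Fin (r + g) → K,
      (Matrix.of fun k j : Fin r => ∑ l, M k l * Y j l).det = t * (stk M G).det := by
  classical
  obtain ⟨B, hB⟩ := Z_rinv hG
  obtain ⟨C, hC⟩ := Z_rinv hY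
  obtain ⟨Z, hZ⟩ : ∃ Z : Matrix (Fin (r + g)) (Fin (r + g)) K, Z = (stk Y B).transpose :=
    ⟨_, rfl⟩
  have hmul : ∀ M : Fin r → Fin (r + g) → K,
      (stk M G).det * Z.det = (Matrix.of fun k j : Fin r => ∑ l, M k l * Y j l).det := by
    intro M
    rw [← Matrix.det_mul]
    have h1 : ((stk M G * Z).submatrix finSumFinEquiv finSumFinEquiv) =
        Matrix.fromBlocks (Matrix.of fun k j : Fin r => ∑ l, M k l * Y j l)
          (Matrix.of fun (k : Fin r) (a : Fin g) => ∑ l, M k l * B a l) 0
          (1 : Matrix (Fin g) (Fin g) K) := by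
      ext x y
      rw [Matrix.submatrix_apply, Matrix.mul_apply, hZ]
      rcases x with x | x <;> rcases y with y | y
      · rw [Matrix.fromBlocks_apply₁₁, Matrix.of_apply]
        refine Finset.sum_congr rfl fun l _ => ?_
        rw [stk_inl, Matrix.transpose_apply, stk_inl]
      · rw [Matrix.fromBlocks_apply₁₂, Matrix.of_apply]
        refine Finset.sum_congr rfl fun l _ => ?_
        rw [stk_inl, Matrix.transpose_apply, stk_inr]
      · rw [Matrix.fromBlocks_apply₂₁, Matrix.zero_apply, ← hGY x y]
        refine Finset.sum_congr rfl fun l _ => ?_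
        rw [stk_inr, Matrix.transpose_apply, stk_inl]
      · rw [Matrix.fromBlocks_apply₂₂, Matrix.one_apply, ← hB x y]
        refine Finset.sum_congr rfl fun l _ => ?_
        rw [stk_inr, Matrix.transpose_apply, stk_inr]
    rw [← Matrix.det_submatrix_equiv_self finSumFinEquiv, h1, Matrix.det_fromBlocks_zero₂₁,
      Matrix.det_one, mul_one]
  have h1 : (Matrix.of fun k j : Fin r => ∑ l, C k l * Y j l) = 1 := by
    ext k j
    rw [Matrix.of_apply, Matrix.one_apply]
    have h2 := hC j k
    have h3 : ∑ l, C k l * Y j l = ∑ l, Y j l * C k l :=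
      Finset.sum_congr rfl fun l _ => mul_comm _ _
    rw [h3, h2]
    by_cases hjk : j = k
    · rw [if_pos hjk, if_pos hjk.symm]
    · rw [if_neg hjk, if_neg (Ne.symm hjk)]
  refine ⟨Z.det, fun h0 => ?_, fun M => ?_⟩
  · have h2 := hmul C
    rw [h0, mul_zero, h1, Matrix.det_one] at h2
    exact zero_ne_one h2
  · rw [mul_comm, hmul]

/-- The absolute value of a determinant after permutations. -/
theorem Z_perm (v : AbsoluteValue K ℝ) {ι κ : Type*} [Fintype ι] [DecidableEq ι] [Fintype κ]
    [DecidableEq κ] (e σ : ι ≃ κ) (A : Matrix κ κ K) :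
    v (A.submatrix e σ).det = v A.det := by
  have h1 : A.submatrix e σ = (A.submatrix id (e.symm.trans σ)).submatrix e e := by
    ext x y
    rw [Matrix.submatrix_apply, Matrix.submatrix_apply, Matrix.submatrix_apply]
    show _ = A (e x) (σ (e.symm (e y)))
    rw [Equiv.symm_apply_apply]
  rw [h1, Matrix.det_submatrix_equiv_self, Matrix.det_permute', map_mul]
  rcases Int.units_eq_one_or (Equiv.Perm.sign (e.symm.trans σ)) with h | h
  · rw [h]
    push_cast
    rw [map_one, one_mul]
  · rw [h]
    push_cast
    rw [map_neg_eq_map, map_one, one_mul]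

/-- The minors of `G` and the vectors in the kernel. -/
theorem Z_minor_ker (v : AbsoluteValue K ℝ) (G : Fin g → Fin (r + g) → K)
    (Y : Fin r → Fin (r + g) → K) {t : K}
    (ht : ∀ M : Fin r → Fin (r + g) → K,
      (Matrix.of fun k j : Fin r => ∑ l, M k l * Y j l).det = t * (stk M G).det)
    (c : Fin g → Fin (r + g)) :
    v t * v (Matrix.of fun a b : Fin g => G a (c b)).det ≤
      cst v r.factorial * ∏ j, ⨆ l, v (Y j l) := by
  classical
  have hY0 : ∀ j, 0 ≤ ⨆ l, v (Y j l) := fun j => Real.iSup_nonneg fun l => v.nonneg _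
  by_cases hinj : Function.Injective c
  · -- the complement of the image of `c`
    obtain ⟨S, hS⟩ : ∃ S : Finset (Fin (r + g)), S = (Finset.univ.image c)ᶜ := ⟨_, rfl⟩
    have hcard : S.card = r := by
      rw [hS, Finset.card_compl, Finset.card_image_of_injective _ hinj, Finset.card_univ,
        Fintype.card_fin, Fintype.card_fin, Nat.add_sub_cancel]
    obtain ⟨c', hc'⟩ : ∃ c' : Fin r → Fin (r + g), c' = fun b => (S.orderIsoOfFin hcard b : Fin (r + g)) :=
      ⟨_, rfl⟩
    have hc'S : ∀ b, c' b ∈ S := fun b => by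
      rw [hc']
      exact (S.orderIsoOfFin hcard b).2
    have hc'inj : Function.Injective c' := by
      rw [hc']
      intro b b' h
      exact (S.orderIsoOfFin hcard).injective (Subtype.ext h)
    have hne : ∀ a b, c a ≠ c' b := by
      intro a b h
      have h1 := hc'S b
      rw [hS, Finset.mem_compl, ← h] at h1
      exact h1 (Finset.mem_image_of_mem c (Finset.mem_univ a))
    have hbij : Function.Bijective (Sum.elim c' c) := by
      rw [Fintype.bijective_iff_injective_and_card]
      refine ⟨?_, by
        rw [Fintype.card_sum, Fintype.card_fin, Fintype.card_fin, Fintype.card_fin]⟩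
      rintro (x | x) (y | y) h
      · rw [hc'inj h]
      · exact absurd h.symm (hne y x)
      · exact absurd h (hne x y)
      · rw [hinj h]
    obtain ⟨σ, hσ⟩ : ∃ σ : Fin r ⊕ Fin g ≃ Fin (r + g), ∀ x, σ x = Sum.elim c' c x :=
      ⟨Equiv.ofBijective _ hbij, fun _ => rfl⟩
    -- the unit rows
    obtain ⟨M, hM⟩ : ∃ M : Fin r → Fin (r + g) → K, ∀ b l, M b l = if l = c' b then 1 else 0 :=
      ⟨fun b l => if l = c' b then 1 else 0, fun _ _ => rfl⟩
    have h1 : (stk M G).submatrix finSumFinEquiv σ =
        Matrix.fromBlocks 1 0 (Matrix.of fun (a : Fin g) (b : Fin r) => G a (c' b))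
          (Matrix.of fun a b : Fin g => G a (c b)) := by
      ext x y
      rw [Matrix.submatrix_apply, hσ]
      rcases x with x | x <;> rcases y with y | y
      · rw [Matrix.fromBlocks_apply₁₁, stk_inl, hM, Matrix.one_apply]
        show (if c' y = c' x then (1 : K) else 0) = _
        by_cases hxy : x = y
        · rw [hxy, if_pos rfl, if_pos rfl]
        · rw [if_neg fun h => hxy (hc'inj h).symm, if_neg hxy]
      · rw [Matrix.fromBlocks_apply₁₂, stk_inl, hM, Matrix.zero_apply]
        exact if_neg (hne y x)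
      · rw [Matrix.fromBlocks_apply₂₁, stk_inr]
        rfl
      · rw [Matrix.fromBlocks_apply₂₂, stk_inr]
        rfl
    have h2 : v (stk M G).det = v (Matrix.of fun a b : Fin g => G a (c b)).det := by
      rw [← Z_perm v finSumFinEquiv σ, h1, Matrix.det_fromBlocks_zero₁₂, Matrix.det_one, one_mul]
    have h3 := ht M
    rw [← h2, ← map_mul, ← h3]
    have h4 := det_bd v (Matrix.of fun k j : Fin r => ∑ l, M k l * Y j l) (fun _ => 1)
      (fun j => ⨆ l, v (Y j l)) (fun _ => zero_le_one) hY0 (fun k j => by
        rw [Matrix.of_apply, one_mul]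
        have h5 : ∑ l, M k l * Y j l = Y j (c' k) := by
          rw [Finset.sum_eq_single (c' k)]
          · rw [hM, if_pos rfl, one_mul]
          · intro l _ hl
            rw [hM, if_neg hl, zero_mul]
          · intro h
            exact absurd (Finset.mem_univ _) h
        rw [h5]
        exact le_ciSup (Set.finite_range fun l => v (Y j l)).bddAbove (c' k))
    rwa [Finset.prod_const_one, one_mul] at h4
  · have h1 : (Matrix.of fun a b : Fin g => G a (c b)).det = 0 := by
      unfold Function.Injective at hinj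
      push Not at hinj
      obtain ⟨a, b, hab, hne⟩ := hinj
      exact Matrix.det_zero_of_column_eq hne fun k => by
        rw [Matrix.of_apply, Matrix.of_apply, hab]
    rw [h1, map_zero, mul_zero]
    exact mul_nonneg (cst_nonneg _ _) (Finset.prod_nonneg fun j _ => hY0 j)

end

end Pool.Agent.Lib.MP_17a322_nt.SL
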