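import Pool.Agent.Lib.MP_17a322_nt.SL.ZDefs

/-!
The hyperplane over the field of the Plücker coordinates.
-/

universe u

namespace Pool.Agent.Lib.MP_17a322_nt.SL

/-- Independent vectors have a nonzero minor. -/
theorem Z_minor {F : Type*} [Field F] {n k : ℕ} (y : Fin k → Fin n → F)
    (hy : LinearIndependent F y) :
    ∃ J : Fin k → Fin n, (Matrix.of fun a b => y a (J b)).det ≠ 0 := by
  classical
  obtain ⟨M, hM⟩ : ∃ M : Matrix (Fin k) (Fin n) F, M = Matrix.of y := ⟨_, rfl⟩
  have hrk : M.rank = k := by
    have h1 : LinearIndependent F M.row := by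
      rw [hM]
      exact hy
    rw [h1.rank_matrix, Fintype.card_fin]
  rw [Matrix.rank_eq_finrank_span_cols] at hrk
  obtain ⟨κ, a, ha, hsp, hli⟩ := exists_linearIndependent' F M.col
  have hfin : Finite κ := Finite.of_injective a ha
  obtain ⟨_⟩ := nonempty_fintype κ
  have hcard : Fintype.card κ = k := by
    rw [← finrank_span_eq_card hli, hsp]
    exact hrk
  obtain ⟨e⟩ : Nonempty (Fin k ≃ κ) := ⟨(Fintype.equivFinOfCardEq hcard).symm⟩
  refine ⟨fun b => a (e b), ?_⟩
  have h2 : LinearIndependent F (Matrix.of fun c b => y c (a (e b))).col := by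
    have h3 := hli.comp e e.injective
    have h4 : (Matrix.of fun c b => y c (a (e b))).col = (M.col ∘ a) ∘ e := by
      rw [hM]
      rfl
    rw [h4]
    exact h3
  exact ((Matrix.isUnit_iff_isUnit_det _).1
    (Matrix.linearIndependent_cols_iff_isUnit.1 h2)).ne_zero

/-- Z_phi: a subspace of dimension `k < r` with Plücker coordinates in `K1` lies in a hyperplane
over `K1` which does not contain the space `G = 0`. -/
theorem Z_phi {F : Type*} [Field F] (K1 : Subfield F) {r g k : ℕ} (hk : k < r)
    (G : Fin g → Fin (r + g) → F) (y : Fin k → Fin (r + g) → F) (hy : LinearIndependent F y)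
    (hmin : ∀ I J : Fin k → Fin (r + g), (Matrix.of fun a b => y a (I b)).det /
      (Matrix.of fun a b => y a (J b)).det ∈ K1)
    (X : Fin (r + g) → F) (hX : X ∈ Submodule.span F (Set.range y)) :
    ∃ φ u : Fin (r + g) → F, (∀ l, φ l ∈ K1) ∧ ∑ l, φ l * X l = 0 ∧
      (∀ a, ∑ l, G a l * u l = 0) ∧ ∑ l, φ l * u l ≠ 0 := by
  classical
  obtain ⟨J, hJ⟩ := Z_minor y hy
  obtain ⟨W, hW⟩ : ∃ W : Matrix (Fin k) (Fin k) F, W = Matrix.of fun a b => y a (J b) :=
    ⟨_, rfl⟩
  rw [← hW] at hJ
  -- a vector `u` outside of the span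
  obtain ⟨u, hu, huy⟩ : ∃ u : Fin (r + g) → F, (∀ a, ∑ l, G a l * u l = 0) ∧
      u ∉ Submodule.span F (Set.range y) := by
    by_contra hcon
    push Not at hcon
    have h1 : LinearMap.ker (Matrix.mulVecLin (Matrix.of G)) ≤
        Submodule.span F (Set.range y) := fun u hu => hcon u fun a => congrFun
          (show (Matrix.of G).mulVec u = 0 from hu) a
    have h2 := Submodule.finrank_mono h1
    have h3 := LinearMap.finrank_range_add_finrank_ker (Matrix.mulVecLin (Matrix.of G))
    have h4 : Module.finrank F (LinearMap.range (Matrix.mulVecLin (Matrix.of G))) ≤ g := by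
      refine (Submodule.finrank_le _).trans ?_
      rw [Module.finrank_fintype_fun_eq_card, Fintype.card_fin]
    have h5 : Module.finrank F (Submodule.span F (Set.range y)) ≤ k := by
      have h6 := finrank_range_le_card (R := F) y
      rwa [Fintype.card_fin] at h6
    rw [Module.finrank_fintype_fun_eq_card, Fintype.card_fin] at h3
    omega
  obtain ⟨c, hc⟩ : ∃ c : Fin (r + g) → Fin k → F, ∀ l b, c l b =
      (W.cramer fun a => y a l) b / W.det := ⟨_, fun _ _ => rfl⟩
  have hcK : ∀ l b, c l b ∈ K1 := by
    intro l b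
    have h1 := hmin (Function.update J b l) J
    have h2 : (Matrix.of fun a b' => y a (Function.update J b l b')) =
        W.updateCol b fun a => y a l := by
      ext a b'
      rw [Matrix.of_apply, Matrix.updateCol_apply, hW, Matrix.of_apply, Function.update_apply]
      split_ifs <;> rfl
    rw [h2, ← hW] at h1
    rw [hc, Matrix.cramer_apply]
    exact h1
  have hcy : ∀ a l, ∑ b, c l b * y a (J b) = y a l := by
    intro a l
    have h1 := congrFun (Matrix.mulVec_cramer W fun a => y a l) a
    rw [Matrix.mulVec, dotProduct, Pi.smul_apply, smul_eq_mul] at h1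
    have h2 : ∑ b, c l b * y a (J b) = (∑ b, W a b * W.cramer (fun a => y a l) b) / W.det := by
      rw [Finset.sum_div]
      refine Finset.sum_congr rfl fun b _ => ?_
      rw [hc, hW, Matrix.of_apply]
      ring
    rw [h2, h1, mul_div_cancel_left₀ _ hJ]
  have hφ : ∀ (l : Fin (r + g)) (x : Fin (r + g) → F),
      ∑ i, ((if i = l then 1 else 0) - ∑ b, if i = J b then c l b else 0) * x i =
        x l - ∑ b, c l b * x (J b) := by
    intro l x
    simp only [sub_mul, Finset.sum_sub_distrib, Finset.sum_mul, ite_mul, one_mul, zero_mul]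
    rw [Finset.sum_ite_eq' Finset.univ l fun i => x i, if_pos (Finset.mem_univ _),
      Finset.sum_comm]
    congr 1
    refine Finset.sum_congr rfl fun b _ => ?_
    rw [Finset.sum_ite_eq' Finset.univ (J b) fun i => c l b * x i, if_pos (Finset.mem_univ _)]
  have hspan : ∀ x ∈ Submodule.span F (Set.range y), ∀ l, x l - ∑ b, c l b * x (J b) = 0 := by
    intro x hx
    refine Submodule.span_induction (p := fun x _ => ∀ l, x l - ∑ b, c l b * x (J b) = 0)
      ?_ ?_ ?_ ?_ hx
    · rintro _ ⟨a, rfl⟩ l
      rw [hcy, sub_self]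
    · intro l
      simp
    · intro x x' _ _ h1 h2 l
      have h3 := h1 l
      have h4 := h2 l
      simp only [Pi.add_apply, mul_add, Finset.sum_add_distrib]
      linear_combination h3 + h4
    · intro t x _ h1 l
      have h3 := h1 l
      have h4 : ∑ b, c l b * (t • x) (J b) = t * ∑ b, c l b * x (J b) := by
        rw [Finset.mul_sum]
        refine Finset.sum_congr rfl fun b _ => ?_
        rw [Pi.smul_apply, smul_eq_mul]
        ring
      rw [h4, Pi.smul_apply, smul_eq_mul]
      linear_combination t * h3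
  obtain ⟨l, hl⟩ : ∃ l, u l - ∑ b, c l b * u (J b) ≠ 0 := by
    by_contra hcon
    push Not at hcon
    apply huy
    have h1 : u = ∑ a, (∑ b, W.adjugate b a * u (J b) / W.det) • y a := by
      funext l
      have h2 := hcon l
      rw [sub_eq_zero] at h2
      rw [h2, Finset.sum_apply]
      simp only [Pi.smul_apply, smul_eq_mul, Finset.sum_mul]
      rw [Finset.sum_comm]
      refine Finset.sum_congr rfl fun b _ => ?_
      rw [hc, Matrix.cramer_eq_adjugate_mulVec, Matrix.mulVec, dotProduct, Finset.sum_div,
        Finset.sum_mul]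
      refine Finset.sum_congr rfl fun a _ => ?_
      ring
    rw [h1]
    exact Submodule.sum_mem _ fun a _ => Submodule.smul_mem _ _
      (Submodule.subset_span ⟨a, rfl⟩)
  refine ⟨fun i => (if i = l then 1 else 0) - ∑ b, if i = J b then c l b else 0, u, ?_, ?_, hu,
    ?_⟩
  · intro i
    refine sub_mem ?_ (sum_mem fun b _ => ?_)
    · split_ifs
      · exact one_mem _
      · exact zero_mem _
    · split_ifs
      · exact hcK l b
      · exact zero_mem _
  · rw [hφ]
    exact hspan X hX l
  · rw [hφ]
    exact hl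

end Pool.Agent.Lib.MP_17a322_nt.SL
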