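import Pool.Agent.Lib.MP_17a322_nt.SL.CC
import Pool.Agent.Lib.MP_17a322_nt.VP.CH

/-!
The subspace theorem with moving targets over abelian varieties, part C: matrices of forms, their
adjugates, the height of the matrix of the linear equations, the polynomial with given coefficients.
-/

universe u

namespace Pool.Agent.Lib.MP_17a322_nt.SL

open MvPolynomial Height
open Pool.Agent.Lib.MP_17a322_nt.RO
open Pool.Agent.Lib.MP_17a322_nt.VJ
open Pool.Agent.Lib.MP_17a322_nt.VN
open Pool.Agent.Lib.MP_17a322_nt.VA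
open Pool.Agent.Lib.MP_17a322_nt.VP

/-! ### Sizes of matrices -/

section

variable {L : Type*} [Field L] (v : AbsoluteValue L ℝ) {σ : Type*} {q : ℕ}

theorem CQ_sum_NV {ι : Type*} (s : Finset ι) (f : ι → MvPolynomial σ L) {Q : ℝ} (hQ : 0 ≤ Q)
    (hf : ∀ i ∈ s, NV v (f i) ≤ Q) : NV v (∑ i ∈ s, f i) ≤ cst v s.card * Q := by
  have hS := SN_NV v (σ := σ)
  by_cases hv : IsNonarchimedean v
  · have h7 : cst v s.card = 1 := by
      unfold cst
      rw [if_pos hv]
    rw [h7, one_mul]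
    exact hS.sum_le_max hv _ _ hQ hf
  · have h7 : cst v s.card = s.card := by
      unfold cst
      rw [if_neg hv]
    rw [h7]
    refine (hS.sum_le_sum _ _).trans ((Finset.sum_le_sum hf).trans (le_of_eq ?_))
    rw [Finset.sum_const, nsmul_eq_mul]

theorem CQ_det_NV {k : ℕ} (B : Matrix (Fin k) (Fin k) (MvPolynomial σ L)) {Q : ℝ} (hQ : 0 ≤ Q)
    (hB : ∀ l k, NV v (B l k) ≤ Q) : NV v B.det ≤ cst v k.factorial * Q ^ k := by
  classical
  have hS := SN_NV v (σ := σ)
  rw [Matrix.det_apply]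
  have h1 := CQ_sum_NV v (Finset.univ : Finset (Equiv.Perm (Fin k)))
    (fun τ => Equiv.Perm.sign τ • ∏ i, B (τ i) i) (pow_nonneg hQ k) fun τ _ => ?_
  · rw [Finset.card_univ, Fintype.card_perm, Fintype.card_fin] at h1
    exact h1
  · have h2 : NV v (∏ i, B (τ i) i) ≤ Q ^ k := by
      refine (hS.prod_le Finset.univ _).trans ?_
      refine (Finset.prod_le_prod (fun i _ => hS.nonneg _) fun i _ => hB (τ i) i).trans ?_
      rw [Finset.prod_const, Finset.card_univ, Fintype.card_fin]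
    rcases Int.units_eq_one_or (Equiv.Perm.sign τ) with h3 | h3
    · rw [h3, one_smul]
      exact h2
    · rw [h3, Units.neg_smul, one_smul]
      exact (hS.neg _).le.trans h2

theorem CQ_adj_NV (B : Matrix (Fin (q + 1)) (Fin (q + 1)) (MvPolynomial σ L)) :
    NVM v B.adjugate ≤ cst v q.factorial * NVM v B ^ q := by
  have hS := SN_NV v (σ := σ)
  have h0 : 0 ≤ NVM v B := NVM_nonneg v B
  unfold NVM
  refine Real.iSup_le (fun p => ?_) (mul_nonneg (cst_nonneg v _) (pow_nonneg h0 _))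
  rw [Matrix.adjugate_fin_succ_eq_det_submatrix]
  have h1 := CQ_det_NV v (B.submatrix p.2.succAbove p.1.succAbove) h0 fun l k => le_NVM v B _ _
  have h2 : ∀ k : ℕ, NV v ((-1) ^ k * (B.submatrix p.2.succAbove p.1.succAbove).det) =
      NV v (B.submatrix p.2.succAbove p.1.succAbove).det := by
    intro k
    rcases neg_one_pow_eq_or (MvPolynomial σ L) k with h3 | h3
    · rw [h3, one_mul]
    · rw [h3, neg_one_mul]
      exact hS.neg _
  rw [h2]
  exact h1

theorem CQ_NVM_smul [Nonempty (Fin q)] (c : L) (B : Matrix (Fin q) (Fin q) (MvPolynomial σ L)) :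
    NVM v ((C c : MvPolynomial σ L) • B) = v c * NVM v B := by
  unfold NVM
  rw [Real.mul_iSup_of_nonneg (v.nonneg c)]
  refine congrArg iSup (funext fun p => ?_)
  rw [Matrix.smul_apply, smul_eq_mul, NV_C_mul]

theorem CQ_NVM_pos {B : Matrix (Fin q) (Fin q) (MvPolynomial σ L)} (hB : B ≠ 0) :
    0 < NVM v B := by
  obtain ⟨l, hl⟩ := Function.ne_iff.1 hB
  obtain ⟨k, hk⟩ := Function.ne_iff.1 hl
  exact (NV_pos v hk).trans_le (le_NVM v B l k)

end

section

variable {K : Type*} [Field K] [AdmissibleAbsValues K] {σ : Type*} {q : ℕ}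

theorem CQ_FS_NVM {B : Matrix (Fin q) (Fin q) (MvPolynomial σ K)} (hB : B ≠ 0) :
    FS fun v : AbsoluteValue K ℝ => Real.log (NVM v B) := by
  classical
  obtain ⟨l, hl⟩ := Function.ne_iff.1 hB
  obtain ⟨k, hk⟩ := Function.ne_iff.1 hl
  have hNV0 : ∀ v : AbsoluteValue K ℝ, NV v (0 : MvPolynomial σ K) = 0 := fun v =>
    (SN_NV v (σ := σ)).zero
  have h1 : FS fun v : AbsoluteValue K ℝ => ∑ p : Fin q × Fin q,
      if B p.1 p.2 = 0 then 0 else |Real.log (NV v (B p.1 p.2))| := by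
    refine FS_sum _ fun p _ => ?_
    by_cases hp : B p.1 p.2 = 0
    · simp only [hp, if_true]
      unfold FS
      simp
    · simp only [hp, if_false]
      have h2 : FS fun v : AbsoluteValue K ℝ => Real.log (NV v (B p.1 p.2)) := FS_log_NV hp
      unfold FS at h2 ⊢
      refine h2.subset fun v hv => ?_
      intro h3
      apply hv
      exact abs_eq_zero.2 h3
  unfold FS at h1 ⊢
  refine h1.subset fun v hv => ?_
  intro h2
  apply hv
  have h3 : ∀ p : Fin q × Fin q, B p.1 p.2 ≠ 0 → NV v.val (B p.1 p.2) = 1 := by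
    intro p hp
    have h4 := (Finset.sum_eq_zero_iff_of_nonneg (fun p _ => by
      split_ifs
      · exact le_rfl
      · exact abs_nonneg _)).1 h2 p (Finset.mem_univ p)
    rw [if_neg hp, abs_eq_zero] at h4
    exact Real.eq_one_of_pos_of_log_eq_zero (NV_pos v.val hp) h4
  show Real.log (NVM v.val B) = 0
  have h5 : NVM v.val B = 1 := by
    refine le_antisymm ?_ ?_
    · unfold NVM
      refine Real.iSup_le (fun p => ?_) zero_le_one
      by_cases hp : B p.1 p.2 = 0
      · rw [hp, hNV0]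
        exact zero_le_one
      · exact (h3 p hp).le
    · rw [← h3 (l, k) hk]
      exact le_NVM v.val B l k
  rw [h5, Real.log_one]

theorem CQ_htM_smul [Nonempty (Fin q)] {B : Matrix (Fin q) (Fin q) (MvPolynomial σ K)}
    (hB : B ≠ 0) {c : K} (hc : c ≠ 0) : htM ((C c : MvPolynomial σ K) • B) = htM B := by
  unfold htM
  have h1 : (fun v : AbsoluteValue K ℝ => Real.log (NVM v ((C c : MvPolynomial σ K) • B))) =
      fun v => Real.log (v c) + Real.log (NVM v B) := by
    funext v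
    rw [CQ_NVM_smul, Real.log_mul (v.pos hc).ne' (CQ_NVM_pos v hB).ne']
  rw [h1, gs_add (FS_log_abv hc) (CQ_FS_NVM hB), gs_log_abv hc, zero_add]

theorem CQ_norm {K σ : Type*} [Field K] {q : ℕ} {B : Matrix (Fin q) (Fin q) (MvPolynomial σ K)}
    (hB : B ≠ 0) : ∃ c : K, c ≠ 0 ∧
      ∀ v : AbsoluteValue K ℝ, 1 ≤ NVM v ((C c : MvPolynomial σ K) • B) := by
  obtain ⟨l, hl⟩ := Function.ne_iff.1 hB
  obtain ⟨k, hk⟩ := Function.ne_iff.1 hl
  obtain ⟨m, hm⟩ := MvPolynomial.ne_zero_iff.1 hk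
  refine ⟨(coeff m (B l k))⁻¹, inv_ne_zero hm, fun v => ?_⟩
  refine le_trans ?_ (le_NVM v _ l k)
  rw [Matrix.smul_apply, smul_eq_mul]
  have h1 := coeff_le_NV v (C (coeff m (B l k))⁻¹ * B l k) m
  rw [coeff_C_mul, inv_mul_cancel₀ hm, map_one] at h1
  exact h1

end

/-! ### Degrees of the adjugate -/

theorem CQ_det_homog {K σ : Type*} [CommRing K] {D k : ℕ}
    {B : Matrix (Fin k) (Fin k) (MvPolynomial σ K)} (hB : ∀ l k, (B l k).IsHomogeneous D) :
    B.det.IsHomogeneous (k * D) := by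
  classical
  rw [Matrix.det_apply]
  refine IsHomogeneous.sum _ _ _ fun τ _ => ?_
  have h1 : (∏ i, B (τ i) i).IsHomogeneous (k * D) := by
    have h2 := IsHomogeneous.prod Finset.univ (fun i => B (τ i) i) (fun _ => D)
      fun i _ => hB (τ i) i
    rw [Finset.sum_const, Finset.card_univ, Fintype.card_fin, smul_eq_mul] at h2
    exact h2
  rcases Int.units_eq_one_or (Equiv.Perm.sign τ) with h3 | h3
  · rw [h3, one_smul]
    exact h1
  · rw [h3, Units.neg_smul, one_smul]
    exact h1.neg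

theorem CQ_adj_homog {K σ : Type*} [CommRing K] {D q : ℕ}
    {B : Matrix (Fin (q + 1)) (Fin (q + 1)) (MvPolynomial σ K)}
    (hB : ∀ l k, (B l k).IsHomogeneous D) (l k : Fin (q + 1)) :
    (B.adjugate l k).IsHomogeneous (q * D) := by
  rw [Matrix.adjugate_fin_succ_eq_det_submatrix]
  have h1 := CQ_det_homog (B := B.submatrix k.succAbove l.succAbove) fun _ _ => hB _ _
  rcases neg_one_pow_eq_or (MvPolynomial σ K) ((k : ℕ) + l) with h3 | h3
  · rw [h3, one_mul]
    exact h1
  · rw [h3, neg_one_mul]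
    exact h1.neg

/-! ### Scaling -/

theorem CQ_scale {R τ : Type*} [CommRing R] [Fintype τ] (t : τ → R) (G : MvPolynomial τ R)
    (w : τ →₀ ℕ) :
    coeff w (aeval (fun p => C (t p) * X p : τ → MvPolynomial τ R) G) =
      (∏ p, t p ^ w p) * coeff w G := by
  classical
  induction G using MvPolynomial.induction_on' with
  | add P Q hP hQ =>
    rw [map_add, coeff_add, coeff_add, hP, hQ, mul_add]
  | monomial m c =>
    have h1 : aeval (fun p => C (t p) * X p : τ → MvPolynomial τ R) (monomial m c) =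
        C (∏ p, t p ^ m p) * monomial m c := by
      rw [aeval_monomial, Finsupp.prod_fintype _ _ (fun i => pow_zero _)]
      simp only [mul_pow]
      rw [Finset.prod_mul_distrib, monomial_eq (a := c), Finsupp.prod_fintype _ _
        (fun i => pow_zero _), map_prod]
      simp only [map_pow, algebraMap_eq]
      ring
    rw [h1, coeff_C_mul, coeff_monomial]
    by_cases h2 : m = w
    · rw [if_pos h2, h2]
    · rw [if_neg h2, mul_zero, mul_zero]

theorem CQ_Van_smul {K : Type u} [Field K] {N : ℕ} {A : AV K N} {n e₀ : ℕ} (nd : Noe A n e₀)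
    {m q : ℕ} {j : Fin m → ℕ}
    {Λ : Fin m → Matrix (Fin (q + 1)) (Fin (q + 1)) (MvPolynomial (Fin (N + 1)) K)} {T : ℝ}
    {F : MvPolynomial (VQ m n (q + 1)) K} {c : Fin m → K} (hc : ∀ i, c i ≠ 0)
    (h : VanM nd j (fun i => (C (c i) : MvPolynomial (Fin (N + 1)) K) • Λ i) T F) :
    VanM nd j Λ T F := by
  intro R _ _ _ Y η x c' hY hη hc' hrow hdet w k hw
  obtain ⟨t, ht⟩ : ∃ t : Fin m → R, t = fun i => algebraMap K R (c i) := ⟨_, rfl⟩
  have ht0 : ∀ i, t i ≠ 0 := by
    intro i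
    rw [ht]
    exact (map_ne_zero_iff _ (algebraMap K R).injective).2 (hc i)
  have hmap : ∀ i, (((C (c i) : MvPolynomial (Fin (N + 1)) K) • Λ i).map (aeval (x i))) =
      t i • (Λ i).map (aeval (x i)) := by
    intro i
    ext a b
    rw [Matrix.map_apply, Matrix.smul_apply, Matrix.smul_apply, Matrix.map_apply, smul_eq_mul,
      smul_eq_mul, map_mul, aeval_C, ht]
  have h1 := h R Y η x c' hY hη hc' hrow (fun i => by
    rw [hmap, Matrix.det_smul]
    exact mul_ne_zero (pow_ne_zero _ (ht0 i)) (hdet i)) w k hw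
  have h2 : aeval (vM nd (fun a => (C (Y a) : MvPolynomial (Fin m × Fin (q + 1)) R))
        (fun i a => C (η i a)) fun p => ∑ k', C ((((C (c p.1) : MvPolynomial (Fin (N + 1)) K) •
          Λ p.1).map (aeval (x p.1))).adjugate p.2 k') * X (p.1, k')) F =
      aeval (fun p : Fin m × Fin (q + 1) => C (t p.1 ^ q) * X p :
        Fin m × Fin (q + 1) → MvPolynomial (Fin m × Fin (q + 1)) R)
      (aeval (vM nd (fun a => (C (Y a) : MvPolynomial (Fin m × Fin (q + 1)) R))
        (fun i a => C (η i a)) fun p => ∑ k', C (((Λ p.1).map (aeval (x p.1))).adjugate p.2 k') *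
          X (p.1, k')) F) := by
    obtain ⟨f, hf⟩ : ∃ f : MvPolynomial (Fin m × Fin (q + 1)) R →ₐ[R]
      MvPolynomial (Fin m × Fin (q + 1)) R, f = aeval (fun p : Fin m × Fin (q + 1) =>
        C (t p.1 ^ q) * X p : Fin m × Fin (q + 1) → MvPolynomial (Fin m × Fin (q + 1)) R) :=
      ⟨_, rfl⟩
    rw [← hf]
    have h3 := MvPolynomial.comp_aeval_apply (R := K)
      (vM nd (fun a => (C (Y a) : MvPolynomial (Fin m × Fin (q + 1)) R))
        (fun i a => C (η i a)) fun p => ∑ k', C (((Λ p.1).map (aeval (x p.1))).adjugate p.2 k') *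
          X (p.1, k')) (f.restrictScalars K) F
    refine Eq.trans ?_ h3.symm
    congr 1
    refine congrArg aeval (funext fun y => ?_)
    have hC : ∀ r : R, f (C r) = C r := fun r => by
      rw [← algebraMap_eq]
      exact f.commutes r
    have hlf : ∀ (l : Fin (N + 1) → K) (y : Fin (N + 1) → R),
        lf l (fun a => (C (y a) : MvPolynomial (Fin m × Fin (q + 1)) R)) = C (lf l y) := by
      intro l y
      unfold lf
      rw [map_sum]
      refine Finset.sum_congr rfl fun a _ => ?_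
      rw [map_mul]
      rfl
    have hth : ∀ (y : Fin (N + 1) → R),
        aeval (fun a => (C (y a) : MvPolynomial (Fin m × Fin (q + 1)) R)) nd.θ =
          C (aeval y nd.θ) := by
      intro y
      have h1 := MvPolynomial.comp_aeval_apply y
        ((Algebra.ofId R (MvPolynomial (Fin m × Fin (q + 1)) R)).restrictScalars K) nd.θ
      exact h1.symm
    rcases y with a | i | p | p
    · show lf _ _ = f (lf _ _)
      rw [hlf, hC]
    · show aeval _ _ = f (aeval _ _)
      rw [hth, hC]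
    · show lf _ _ = f (lf _ _)
      rw [hlf, hC]
    · show ∑ k', C ((((C (c p.1) : MvPolynomial (Fin (N + 1)) K) •
          Λ p.1).map (aeval (x p.1))).adjugate p.2 k') * X (p.1, k') =
        f (∑ k', C (((Λ p.1).map (aeval (x p.1))).adjugate p.2 k') * X (p.1, k'))
      rw [map_sum]
      refine Finset.sum_congr rfl fun k' _ => ?_
      have e1 : ∀ r : R, f (C r * X (p.1, k')) = C r * (C (t p.1 ^ q) * X (p.1, k')) := by
        intro r
        rw [map_mul, hC, hf, aeval_X]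
      rw [e1, hmap, Matrix.adjugate_smul, Matrix.smul_apply, smul_eq_mul, map_mul,
        Fintype.card_fin, Nat.add_sub_cancel]
      ring
  rw [h2, CQ_scale] at h1
  refine (mul_eq_zero.1 h1).resolve_left ?_
  exact Finset.prod_ne_zero_iff.2 fun p _ => pow_ne_zero _ (pow_ne_zero _ (ht0 p.1))

/-! ### The polynomial with given coefficients -/

section

variable {K : Type*} [Field K] {m n q : ℕ}

theorem CQ_coeff_F (S : Finset (VQ m n q → ℕ)) (c : (VQ m n q → ℕ) → K) (g : VQ m n q →₀ ℕ) :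
    coeff g (CQ_F S c) = if (fun t => g t) ∈ S then c fun t => g t else 0 := by
  classical
  unfold CQ_F
  rw [coeff_sum]
  have h1 : ∀ d ∈ S,
      coeff g (monomial (Finsupp.equivFunOnFinite.symm d) (c d)) =
        if d = (fun t => g t) then c fun t => g t else 0 := by
    intro d _
    rw [coeff_monomial]
    by_cases h2 : d = fun t => g t
    · have h3 : (Finsupp.equivFunOnFinite.symm d : VQ m n q →₀ ℕ) = g := by
        ext t
        rw [h2]
        rfl
      rw [if_pos h3, if_pos h2, h2]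
    · have h3 : (Finsupp.equivFunOnFinite.symm d : VQ m n q →₀ ℕ) ≠ g := by
        intro h3
        apply h2
        funext t
        rw [← h3]
        rfl
      rw [if_neg h3, if_neg h2]
  rw [Finset.sum_congr rfl h1, Finset.sum_ite_eq']

theorem CQ_mem_S {S : Finset (VQ m n q → ℕ)} {c : (VQ m n q → ℕ) → K} {g : VQ m n q →₀ ℕ}
    (h : g ∈ (CQ_F S c).support) : (fun t => g t) ∈ S := by
  classical
  rw [mem_support_iff, CQ_coeff_F] at h
  by_contra h1
  rw [if_neg h1] at h
  exact h rfl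

theorem CQ_degreeOf_F {S : Finset (VQ m n q → ℕ)} {c : (VQ m n q → ℕ) → K} {t : VQ m n q}
    {b : ℕ} (h : ∀ d ∈ S, d t ≤ b) : (CQ_F S c).degreeOf t ≤ b := by
  classical
  rw [degreeOf_le_iff]
  intro g hg
  exact h _ (CQ_mem_S hg)

theorem CQ_F_ne {S : Finset (VQ m n q → ℕ)} {c : (VQ m n q → ℕ) → K} {d : VQ m n q → ℕ}
    (hd : d ∈ S) (hc : c d ≠ 0) : CQ_F S c ≠ 0 := by
  intro h
  have h1 := CQ_coeff_F S c (Finsupp.equivFunOnFinite.symm d)
  rw [h, coeff_zero] at h1
  have h2 : (fun t => (Finsupp.equivFunOnFinite.symm d : VQ m n q →₀ ℕ) t) = d := rfl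
  rw [h2, if_pos hd] at h1
  exact hc h1.symm

theorem CQ_nh_F [AdmissibleAbsValues K] {S : Finset (VQ m n q → ℕ)} {c : (VQ m n q → ℕ) → K}
    (hF : CQ_F S c ≠ 0) (hc : (fun d : S => c d) ≠ 0) :
    nh (CQ_F S c) ≤ logHeight (fun d : S => c d) + totalWeight K * Real.log S.card := by
  classical
  obtain ⟨d₀, hd₀⟩ := Function.ne_iff.mp hc
  have hcard : 1 ≤ S.card := Finset.card_pos.mpr ⟨d₀.1, d₀.2⟩
  have hpos : ∀ v : AbsoluteValue K ℝ, 0 < ⨆ d : S, v (c d) := fun v =>
    (v.pos hd₀).trans_le (le_ciSup (f := fun d : S => v (c d)) (Set.finite_range _).bddAbove d₀)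
  have hcpos : ∀ v : AbsoluteValue K ℝ, 0 < cst v S.card :=
    fun v => zero_lt_one.trans_le (one_le_cst v hcard)
  have hsup : (CQ_F S c).support.card ≤ S.card := by
    refine Finset.card_le_card_of_injOn (fun g t => g t) (fun g hg => ?_) fun g _ g' _ h => ?_
    · exact CQ_mem_S (Finset.mem_coe.1 hg)
    · exact Finsupp.ext fun t => congrFun h t
  unfold nh
  rw [← gs_log_iSup hc]
  have h1 := gs_log_cst (L := K) hcard
  have h2 : gs (fun v => Real.log (NV v (CQ_F S c))) ≤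
      gs (fun v => Real.log (⨆ d : S, v (c d)) + Real.log (cst v S.card)) := by
    refine gs_le (FS_log_NV hF) (FS_add (FS_log_iSup hc) (FS_log_cst _)) fun v _ => ?_
    rw [← Real.log_mul (hpos v).ne' (hcpos v).ne', mul_comm]
    refine Real.log_le_log (NV_pos v hF) ((NV_le_of_coeff v (CQ_F S c) (hpos v).le
      fun g => ?_).trans (mul_le_mul_of_nonneg_right (cst_mono v hsup) (hpos v).le))
    rw [CQ_coeff_F]
    by_cases hg : (fun t => g t) ∈ S
    · rw [if_pos hg]
      exact le_ciSup (f := fun d : S => v (c d)) (Set.finite_range _).bddAbove ⟨_, hg⟩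
    · rw [if_neg hg, map_zero]
      exact (hpos v).le
  rw [gs_add (FS_log_iSup hc) (FS_log_cst _)] at h2
  linarith

end

/-! ### The height of the matrix -/

theorem CQ_matrix_height {K : Type u} [Field K] [NumberField K] {N : ℕ} {A : AV K N} {n e₀ : ℕ}
    (nd : Noe A n e₀) (q D m r : ℕ) :
    ∃ C : ℝ, 0 ≤ C ∧ ∀ (J : ℕ) (j : Fin m → ℕ)
      (Λ : Fin m → Fin r → Matrix (Fin (q + 1)) (Fin (q + 1)) (MvPolynomial (Fin (N + 1)) K)),
      (∀ i, j i ≤ J) → (∀ i s l k, (Λ i s l k).IsHomogeneous D) →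
      (∀ i s (v : AbsoluteValue K ℝ), 1 ≤ NVM v (Λ i s)) →
      (∀ i s, htM (Λ i s) ≤ 4 ^ j i) → ∀ (ι : Type) [Finite ι] (x : ι → K),
      (∀ p, ∃ (s : Fin r) (w : Fin m → Fin (q + 1) → ℕ) (r' : Fin (e₀ + 1))
        (ρ' : Fin m → Fin (C_d nd + 1)) (q₀ : Fin n → ℕ) (g : Fin m → Fin n → ℕ)
        (d : VQ m n (q + 1) → ℕ),
          (∀ i, ∑ l, d (VQ.u (i, l)) = 4 ^ (J - j i)) ∧ (∀ i, d (VQ.th i) ≤ C_d nd) ∧
          x p = CQ_MC nd j (fun i => (Λ i s).adjugate) w r' ρ' q₀ g d) →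
      logHeight x ≤ C * 4 ^ J := by
  classical
  obtain ⟨E₁, hE₁⟩ := exists_CQ_MC_le nd (q + 1) (q * D)
  obtain ⟨E₂, hE₂⟩ := (Adm_cst.{u, u} (K := K) q.factorial).exists_SC
  obtain ⟨C₁, hC₁0, hC₁⟩ := (E₁.mul E₂).gs_log_le
  set f : ℝ := (Module.finrank ℚ K : ℝ) with hf
  have hf0 : 0 ≤ f := Nat.cast_nonneg _
  refine ⟨m * (C₁ * f) + m * (q * r), by positivity, ?_⟩
  intro J j Λ hj hΛ h1v hht ι _ x hx
  have h4J : (0 : ℝ) ≤ 4 ^ J := by positivity
  by_cases hx0 : x = 0
  · rw [hx0, logHeight_zero]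
    positivity
  have hΛ0 : ∀ i s, Λ i s ≠ 0 := by
    intro i s h
    obtain ⟨v, hv⟩ : ∃ v : AbsoluteValue K ℝ, NVM v (Λ i s) = 0 := by
      refine ⟨AbsoluteValue.trivial, ?_⟩
      rw [h]
      unfold NVM
      have h2 : (fun p : Fin (q + 1) × Fin (q + 1) => NV AbsoluteValue.trivial
          ((0 : Matrix (Fin (q + 1)) (Fin (q + 1)) (MvPolynomial (Fin (N + 1)) K)) p.1 p.2)) =
          fun _ => (0 : ℝ) := funext fun p =>
        (SN_NV (AbsoluteValue.trivial : AbsoluteValue K ℝ) (σ := Fin (N + 1))).zero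
      rw [h2]
      exact ciSup_const
    have h2 := h1v i s v
    rw [hv] at h2
    linarith
  rw [← gs_log_iSup hx0]
  have hbj : ∀ i, 4 ^ (J - j i) * 4 ^ j i = 4 ^ J := by
    intro i
    rw [← pow_add, Nat.sub_add_cancel (hj i)]
  let kf : AbsoluteValue K ℝ → ℝ := fun v => Real.log ((E₁.mul E₂).k v)
  let hf' : Fin m → Fin r → AbsoluteValue K ℝ → ℝ := fun i s v => Real.log (NVM v (Λ i s))
  have hF1 : FS (fun v : AbsoluteValue K ℝ => ((m * 4 ^ J : ℕ) : ℝ) * kf v) :=
    FS_const_mul _ ((E₁.mul E₂).FS_log K)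
  have hF2 : ∀ (i : Fin m) (s : Fin r), FS (hf' i s) := fun i s => CQ_FS_NVM (hΛ0 i s)
  have hF2' : ∀ i : Fin m, FS (fun v : AbsoluteValue K ℝ => ∑ s, hf' i s v) :=
    fun i => FS_sum _ fun s _ => hF2 i s
  have hF2'' : ∀ i : Fin m, FS (fun v : AbsoluteValue K ℝ =>
      ((q * 4 ^ (J - j i) : ℕ) : ℝ) * ∑ s, hf' i s v) := fun i => FS_const_mul _ (hF2' i)
  have hF3 : FS (fun v : AbsoluteValue K ℝ => ∑ i,
      ((q * 4 ^ (J - j i) : ℕ) : ℝ) * ∑ s, hf' i s v) :=
    FS_sum _ fun i _ => hF2'' i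
  refine (gs_le (FS_log_iSup hx0) (FS_add hF1 hF3) fun v _ => ?_).trans ?_
  · obtain ⟨p, hp⟩ := Function.ne_iff.mp hx0
    have : Nonempty ι := ⟨p⟩
    have hk1 : 1 ≤ E₁.k v := E₁.one_le v
    have hk2 : 1 ≤ E₂.k v := E₂.one_le v
    have hk3 : 1 ≤ (E₁.mul E₂).k v := (E₁.mul E₂).one_le v
    obtain ⟨R, hR⟩ : ∃ R : Fin m → ℝ, R = fun i => ∏ s, NVM v (Λ i s) := ⟨_, rfl⟩
    have hR1 : ∀ i, 1 ≤ R i := by
      intro i
      rw [hR]
      exact E1_one_le_prod _ _ fun s => h1v i s v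
    have hRl : ∀ i s, NVM v (Λ i s) ≤ R i := by
      intro i s
      rw [hR]
      show _ ≤ ∏ s, NVM v (Λ i s)
      rw [← Finset.mul_prod_erase Finset.univ _ (Finset.mem_univ s)]
      refine le_mul_of_one_le_right (zero_le_one.trans (h1v i s v)) ?_
      exact Finset.prod_induction _ (fun a : ℝ => 1 ≤ a)
        (fun a b => one_le_mul_of_one_le_of_one_le) le_rfl fun s' _ => h1v i s' v
    have hadj : ∀ i s, max 1 (NVM v (Λ i s).adjugate) ≤ E₂.k v * R i ^ q := by
      intro i s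
      refine max_le (one_le_mul_of_one_le_of_one_le hk2 (one_le_pow₀ (hR1 i))) ?_
      refine (CQ_adj_NV v (Λ i s)).trans ?_
      refine mul_le_mul (hE₂ K v) (pow_le_pow_left₀ (NVM_nonneg v _) (hRl i s) _)
        (pow_nonneg (NVM_nonneg v _) _) (zero_le_one.trans hk2)
    have hpos : 0 < ⨆ i, v (x i) :=
      (v.pos hp).trans_le (le_ciSup (f := fun i => v (x i)) (Set.finite_range _).bddAbove p)
    have hle : ⨆ i, v (x i) ≤ (E₁.mul E₂).k v ^ (m * 4 ^ J) *
        ∏ i, R i ^ (q * 4 ^ (J - j i)) := by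
      refine ciSup_le fun b => ?_
      obtain ⟨s, w, r', ρ', q₀, g, d, hdu, hdt, hxb⟩ := hx b
      rw [hxb]
      refine (hE₁ v j (fun i => 4 ^ (J - j i)) (fun i => (Λ i s).adjugate) w r' ρ' q₀ g d
        (fun i l k => C_homog (CQ_adj_homog (hΛ i s) l k)) hdu hdt
        (fun i => Nat.one_le_pow _ _ (by norm_num))).trans ?_
      have h1 : (E₁.mul E₂).k v ^ (m * 4 ^ J) =
          ∏ i : Fin m, (E₁.mul E₂).k v ^ (4 ^ (J - j i) * 4 ^ j i) := by
        rw [Finset.prod_congr rfl fun i _ => by rw [hbj i], Finset.prod_const, Finset.card_univ,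
          Fintype.card_fin, ← pow_mul, mul_comm]
      rw [h1, ← Finset.prod_mul_distrib]
      refine Finset.prod_le_prod (fun i _ => by positivity) fun i _ => ?_
      have h2 : max 1 (NVM v (Λ i s).adjugate) ^ (4 ^ (J - j i)) ≤
          E₂.k v ^ (4 ^ (J - j i) * 4 ^ j i) * R i ^ (q * 4 ^ (J - j i)) := by
        refine (pow_le_pow_left₀ (by positivity) (hadj i s) _).trans ?_
        rw [mul_pow, ← pow_mul]
        refine mul_le_mul_of_nonneg_right ?_ (pow_nonneg (zero_le_one.trans (hR1 i)) _)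
        refine pow_le_pow_right₀ hk2 ?_
        exact Nat.le_mul_of_pos_right _ (by positivity)
      refine (mul_le_mul_of_nonneg_left h2 (by positivity)).trans ?_
      rw [← mul_assoc, ← mul_pow]
      refine mul_le_mul_of_nonneg_right ?_ (pow_nonneg (zero_le_one.trans (hR1 i)) _)
      exact pow_le_pow_left₀ (by positivity) (SC.mul_le E₁ E₂ v) _
    have h1 := Real.log_le_log hpos hle
    have hRp : ∀ i, 1 ≤ R i ^ (q * 4 ^ (J - j i)) := fun i => one_le_pow₀ (hR1 i)
    rw [Real.log_mul (zero_lt_one.trans_le (one_le_pow₀ hk3)).ne'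
      (zero_lt_one.trans_le (E1_one_le_prod _ _ hRp)).ne',
      Real.log_pow, Real.log_prod (fun i _ => (zero_lt_one.trans_le (hRp i)).ne')] at h1
    refine h1.trans (le_of_eq ?_)
    refine congrArg (fun z => ((m * 4 ^ J : ℕ) : ℝ) * Real.log ((E₁.mul E₂).k v) + z)
      (Finset.sum_congr rfl fun i _ => ?_)
    rw [Real.log_pow, hR]
    show ((q * 4 ^ (J - j i) : ℕ) : ℝ) * Real.log (∏ s, NVM v (Λ i s)) = _
    rw [Real.log_prod fun s _ => (zero_lt_one.trans_le (h1v i s v)).ne']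
  · rw [gs_add hF1 hF3, gs_sum _ (fun i _ => hF2'' i)]
    have h2 : gs (fun v : AbsoluteValue K ℝ => ((m * 4 ^ J : ℕ) : ℝ) * kf v) ≤
        m * (C₁ * f) * 4 ^ J := by
      rw [gs_const_mul]
      refine (mul_le_mul_of_nonneg_left (hC₁ K) (Nat.cast_nonneg _)).trans (le_of_eq ?_)
      push_cast
      ring
    have h3 : ∀ i : Fin m, gs (fun v : AbsoluteValue K ℝ =>
        ((q * 4 ^ (J - j i) : ℕ) : ℝ) * ∑ s, hf' i s v) ≤ (q * r) * 4 ^ J := by
      intro i
      rw [gs_const_mul, gs_sum _ (fun s _ => hF2 i s)]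
      have h4 : ∑ s : Fin r, gs (hf' i s) ≤ r * 4 ^ j i := by
        refine (Finset.sum_le_sum fun s _ => hht i s).trans (le_of_eq ?_)
        rw [Finset.sum_const, Finset.card_univ, Fintype.card_fin, nsmul_eq_mul]
      refine (mul_le_mul_of_nonneg_left h4 (Nat.cast_nonneg _)).trans (le_of_eq ?_)
      have h5 : ((4 ^ (J - j i) : ℕ) : ℝ) * 4 ^ j i = 4 ^ J := by
        have := hbj i
        exact_mod_cast this
      rw [← h5]
      push_cast
      ring
    have h15 := Finset.sum_le_sum fun i (_ : i ∈ Finset.univ) => h3 i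
    rw [Finset.sum_const, Finset.card_univ, Fintype.card_fin, nsmul_eq_mul] at h15
    refine (add_le_add h2 h15).trans (le_of_eq ?_)
    ring

end Pool.Agent.Lib.MP_17a322_nt.SL
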