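import Pool.Agent.Lib.MP_17a322_nt.SL.F4

/-!
Linear independence at germs; values of bihomogeneous polynomials at germs.
-/

universe u

namespace Pool.Agent.Lib.MP_17a322_nt.SL

open MvPolynomial Filter
open Pool.Agent.Lib.MP_17a322_nt.VN hiding lf
open Pool.Agent.Lib.MP_17a322_nt.VA

section

variable {K : Type*} [Field K] {ι : Type*} [Fintype ι] {n : ℕ}

/-- Independence and left inverses. -/
theorem F_li_iff (w : ι → Fin n → K) : LinearIndependent K w ↔
    ∃ B : Fin n → ι → K, ∀ s t, ∑ l, w s l * B l t = open Classical in if s = t then 1 else 0 := by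
  classical
  constructor
  · intro h
    have h1 : LinearMap.ker (Fintype.linearCombination K w) = ⊥ := by
      rw [LinearMap.ker_eq_bot']
      intro c hc
      rw [Fintype.linearCombination_apply] at hc
      exact funext fun i => Fintype.linearIndependent_iff.1 h c hc i
    obtain ⟨f, hf⟩ := LinearMap.exists_leftInverse_of_injective _ h1
    refine ⟨fun l t => f (Pi.single l 1) t, fun s t => ?_⟩
    have h2 : f (w s) = Pi.single s 1 := by
      have h3 := LinearMap.congr_fun hf (Pi.single s 1)
      rw [LinearMap.comp_apply, Fintype.linearCombination_apply_single, one_smul] at h3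
      exact h3
    have h3 : w s = ∑ l, w s l • (Pi.single l 1 : Fin n → K) := by
      funext l
      rw [Finset.sum_apply, Finset.sum_eq_single l]
      · rw [Pi.smul_apply, Pi.single_eq_same, smul_eq_mul, mul_one]
      · intro b _ hb
        rw [Pi.smul_apply, Pi.single_eq_of_ne hb.symm, smul_zero]
      · intro h5
        exact absurd (Finset.mem_univ l) h5
    rw [h3, map_sum] at h2
    have h4 := congrFun h2 t
    rw [Finset.sum_apply, Pi.single_apply] at h4
    have h5 : ∑ l, w s l * f (Pi.single l 1) t = if t = s then 1 else 0 := by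
      rw [← h4]
      exact Finset.sum_congr rfl fun l _ => by rw [map_smul, Pi.smul_apply, smul_eq_mul]
    rw [h5]
    by_cases h6 : s = t
    · rw [if_pos h6, if_pos h6.symm]
    · rw [if_neg h6, if_neg (Ne.symm h6)]
  · rintro ⟨B, hB⟩
    rw [Fintype.linearIndependent_iff]
    intro c hc t
    have h1 : ∑ l, (∑ s, c s • w s) l * B l t = c t := by
      have h2 : ∀ l, (∑ s, c s • w s) l * B l t = ∑ s, c s * (w s l * B l t) := by
        intro l
        rw [Finset.sum_apply, Finset.sum_mul]
        exact Finset.sum_congr rfl fun s _ => by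
          rw [Pi.smul_apply, smul_eq_mul, mul_assoc]
      rw [Finset.sum_congr rfl fun l _ => h2 l, Finset.sum_comm]
      simp_rw [← Finset.mul_sum, hB]
      rw [Finset.sum_eq_single t]
      · rw [if_pos rfl, mul_one]
      · intro b _ hb
        rw [if_neg hb, mul_zero]
      · intro h5
        exact absurd (Finset.mem_univ t) h5
    rw [hc] at h1
    rw [← h1]
    exact (Finset.sum_eq_zero fun l _ => by rw [Pi.zero_apply, zero_mul])

/-- Independence at a germ. -/
theorem F_li_germ {w : ι → Fin n → GK K} (hw : LinearIndependent (GK K) w)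
    (u : ℕ → ι → Fin n → K) {c : GK K} (hc : c ≠ 0) (hu : ∀ s l, gm (fun i => u i s l) = c * w s l) :
    ∀ᶠ i in (hyperfilter ℕ : Filter ℕ), LinearIndependent K (u i) := by
  classical
  obtain ⟨B, hB⟩ := (F_li_iff w).1 hw
  choose b hb using fun l t => exists_gm (c⁻¹ * B l t)
  have h1 : ∀ s t, ∀ᶠ i in (hyperfilter ℕ : Filter ℕ),
      ∑ l, u i s l * b l t i = if s = t then 1 else 0 := by
    intro s t
    rw [← gm_eq_iff, gm_sum]
    have h2 : ∀ l, gm (fun i => u i s l * b l t i) = w s l * B l t := by
      intro l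
      rw [gm_mul, hu, hb]
      field_simp
    rw [Finset.sum_congr rfl fun l _ => h2 l, hB]
    split_ifs
    · rfl
    · rfl
  have h2 : ∀ᶠ i in (hyperfilter ℕ : Filter ℕ), ∀ s t,
      ∑ l, u i s l * b l t i = if s = t then 1 else 0 := by
    rw [eventually_all]
    intro s
    rw [eventually_all]
    intro t
    exact h1 s t
  filter_upwards [h2] with i hi
  exact (F_li_iff (u i)).2 ⟨fun l t => b l t i, hi⟩

end

/-- Multiples of the first set of coordinates. -/
theorem F_Bi_smul {K R : Type*} [CommRing K] [CommRing R] [Algebra K R] {m n a b : ℕ}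
    {F : MvPolynomial (Fin m ⊕ Fin n) K} (hF : F_Bi a b F) (c : R) (y : Fin m → R)
    (z : Fin n → R) : aeval (Sum.elim (fun i => c * y i) z) F = c ^ a * aeval (Sum.elim y z) F := by
  rw [aeval_def, aeval_def, eval₂_eq', eval₂_eq', Finset.mul_sum]
  refine Finset.sum_congr rfl fun w hw => ?_
  obtain ⟨h1, -⟩ := hF w hw
  rw [Fintype.prod_sum_type, Fintype.prod_sum_type]
  simp only [Sum.elim_inl, Sum.elim_inr]
  simp_rw [mul_pow]
  rw [Finset.prod_mul_distrib, Finset.prod_pow_eq_pow_sum, h1]
  ring

end Pool.Agent.Lib.MP_17a322_nt.SL
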