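import Pool.Agent.Lib.MP_17a322_nt.SL.F8

/-!
The subspace theorem with moving targets over abelian varieties.
-/

universe u

namespace Pool.Agent.Lib.MP_17a322_nt.SL

open MvPolynomial Height
open Pool.Agent.Lib.MP_17a322_nt.VA

/-- The subspace theorem with moving targets over abelian varieties, with a vertical divisor `f = 0`. -/
theorem SL_finalV {K : Type u} [Field K] [NumberField K] {N : ℕ} (A : AV K N)
    (Γ : AddSubgroup (A.Pts K)) (hΓ : Γ.FG) {g n r s : ℕ} (hgr : g + r = n) (hr : 0 < r)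
    (D D' e : ℕ) (G : Matrix (Fin g) (Fin n) (MvPolynomial (Fin (N + 1)) K))
    (hG : ∀ i l, (G i l).IsHomogeneous D')
    (Λ : Matrix (Fin s) (Fin n) (MvPolynomial (Fin (N + 1)) K))
    (hΛ : ∀ j l, (Λ j l).IsHomogeneous D) (S : Finset (NumberField.FinitePlace K))
    (Ji : NumberField.InfinitePlace K → Finset (Fin s))
    (Jf : NumberField.FinitePlace K → Finset (Fin s))
    (hJi : ∀ v, ∀ T ⊆ Ji v, T.card ≤ r → Ind A G Λ T)
    (hJf : ∀ v ∈ S, ∀ T ⊆ Jf v, T.card ≤ r → Ind A G Λ T)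
    (f : MvPolynomial (Fin (N + 1)) K) (hf : f.IsHomogeneous e) (hfA : f ∉ A.I)
    (ε : ℝ) (hε : 0 < ε) :
    ∃ (C : ℝ) (F : MvPolynomial (Fin (N + 1) ⊕ Fin n) K), Exc A G F ∧
      ∀ P ∈ Γ, ∀ X : Fin n → K, X ≠ 0 → X ∈ Fib A G P →
        aeval (Sum.elim (A.x P) X) F ≠ 0 →
        (∀ j, (∃ v, j ∈ Ji v) ∨ (∃ v ∈ S, j ∈ Jf v) →
          (∑ l, aeval (A.x P) (Λ j l) * X l) ≠ 0) ∧ aeval (A.x P) f ≠ 0 ∧
        (∑ v : NumberField.InfinitePlace K, (v.mult : ℝ) * ∑ j ∈ Ji v, lam A v.val D (Λ j) P X) +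
          (∑ v ∈ S, ∑ j ∈ Jf v, lam A v.val D (Λ j) P X) +
          ((∑ v : NumberField.InfinitePlace K, (v.mult : ℝ) *
              (e * Real.log (⨆ i, v (A.x P i)) - Real.log (v (aeval (A.x P) f)))) +
            ∑ v ∈ S, (e * Real.log (⨆ i, v (A.x P i)) - Real.log (v (aeval (A.x P) f)))) +
          hE A G P ≤
          r * logHeight X + ε * (logHeight X + logHeight (A.x P)) + C := by
  obtain rfl : n = r + g := by omega
  exact SL_final' A Γ hΓ hr D D' G hG Λ hΛ S Ji Jf hJi hJf e f hf hfA ε hε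

/-- The subspace theorem with moving targets over abelian varieties. -/
theorem SL_final {K : Type u} [Field K] [NumberField K] {N : ℕ} (A : AV K N)
    (Γ : AddSubgroup (A.Pts K)) (hΓ : Γ.FG) {g n r s : ℕ} (hgr : g + r = n) (hr : 0 < r)
    (D D' : ℕ) (G : Matrix (Fin g) (Fin n) (MvPolynomial (Fin (N + 1)) K))
    (hG : ∀ i l, (G i l).IsHomogeneous D')
    (Λ : Matrix (Fin s) (Fin n) (MvPolynomial (Fin (N + 1)) K))
    (hΛ : ∀ j l, (Λ j l).IsHomogeneous D) (S : Finset (NumberField.FinitePlace K))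
    (Ji : NumberField.InfinitePlace K → Finset (Fin s))
    (Jf : NumberField.FinitePlace K → Finset (Fin s))
    (hJi : ∀ v, ∀ T ⊆ Ji v, T.card ≤ r → Ind A G Λ T)
    (hJf : ∀ v ∈ S, ∀ T ⊆ Jf v, T.card ≤ r → Ind A G Λ T) (_hG0 : Ind A G Λ ∅)
    (ε : ℝ) (hε : 0 < ε) :
    ∃ (C : ℝ) (F : MvPolynomial (Fin (N + 1) ⊕ Fin n) K), Exc A G F ∧
      ∀ P ∈ Γ, ∀ X : Fin n → K, X ≠ 0 → X ∈ Fib A G P →
        aeval (Sum.elim (A.x P) X) F ≠ 0 →
        (∀ j, (∃ v, j ∈ Ji v) ∨ (∃ v ∈ S, j ∈ Jf v) →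
          (∑ l, aeval (A.x P) (Λ j l) * X l) ≠ 0) ∧
        (∑ v : NumberField.InfinitePlace K, (v.mult : ℝ) * ∑ j ∈ Ji v, lam A v.val D (Λ j) P X) +
          (∑ v ∈ S, ∑ j ∈ Jf v, lam A v.val D (Λ j) P X) + hE A G P ≤
          r * logHeight X + ε * (logHeight X + logHeight (A.x P)) + C := by
  have h1 : (1 : MvPolynomial (Fin (N + 1)) K) ∉ A.I := fun h =>
    (Z_prime A).ne_top ((Ideal.eq_top_iff_one _).2 h)
  obtain ⟨C, F, hF, h⟩ := SL_finalV A Γ hΓ hgr hr D D' 0 G hG Λ hΛ S Ji Jf hJi hJf 1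
    (isHomogeneous_one _ _) h1 ε hε
  refine ⟨C, F, hF, fun P hP X hX hXE hne => ?_⟩
  obtain ⟨h2, -, h3⟩ := h P hP X hX hXE hne
  refine ⟨h2, ?_⟩
  simp only [map_one, Real.log_one, Nat.cast_zero, zero_mul, sub_zero, mul_zero,
    Finset.sum_const_zero, add_zero] at h3
  exact h3

end Pool.Agent.Lib.MP_17a322_nt.SL
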