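import Pool.Agent.Lib.MP_17a322_nt.SL.Defs
import Pool.Agent.Lib.MP_17a322_nt.VA.ZDefs
import Pool.Agent.Lib.MP_17a322_nt.VA.Z3
import Pool.Agent.Lib.MP_17a322_nt.VA.F2
import Pool.Agent.Lib.MP_17a322_nt.VA.A3b

/-!
The decomposition `p = w' + b`: structures.
-/

universe u

namespace Pool.Agent.Lib.MP_17a322_nt.SL

open MvPolynomial Height Filter
open Pool.Agent.Lib.MP_17a322_nt.RO
open Pool.Agent.Lib.MP_17a322_nt.VJ
open Pool.Agent.Lib.MP_17a322_nt.VN hiding lf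
open Pool.Agent.Lib.MP_17a322_nt.VA
open Pool.Agent.Lib.MP_17a322_nt.VP

/-- The sequence `Q` with the germ `b`, generic over `k0` (with all translates by points over `K`). -/
structure GeoB {K : Type u} [Field K] [NumberField K] {N : ℕ} (B : AV K N) {H : ℕ → ℝ}
    (hH : Tendsto H (hyperfilter ℕ : Filter ℕ) atTop) (Q : ℕ → B.Pts K) (b : B.Pts (GK K))
    (n : ℕ) : Prop where
  germ : IsGerm B Q b
  min : MinSub B b
  dim : B.dimIs n
  pos : 0 < n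
  frm : ∀ p₁ : B.Pts K, FRM B.h H fun i => Q i - p₁
  low : ∀ p₁ : B.Pts K, ∃ c : ℝ, 0 < c ∧ ∀ᶠ i in (hyperfilter ℕ : Filter ℕ),
    c * H i ≤ B.h (Q i - p₁)
  upp : ∀ p₁ : B.Pts K, ∃ C : ℝ, 0 < C ∧ ∀ᶠ i in (hyperfilter ℕ : Filter ℕ),
    B.h (Q i - p₁) ≤ C * H i
  noRat : ∀ p₁ : B.Pts K, NoRat B hH (b - B.img (Algebra.ofId K (GK K)) p₁)
  indep : ∀ (p₁ : B.Pts K) {e : ℕ} (nd : Noe B n e),
    nd.Good (b - B.img (Algebra.ofId K (GK K)) p₁) →
    AlgebraicIndependent (k0 K H hH) (nd.s (b - B.img (Algebra.ofId K (GK K)) p₁))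

/-- The decomposition `p = w' + b` with `w'` over `k0`. -/
structure GeoA {K : Type u} [Field K] [NumberField K] {N : ℕ} {A B : AV K N} (hB : IsSubAV B A)
    {H : ℕ → ℝ} (hH : Tendsto H (hyperfilter ℕ : Filter ℕ) atTop) (P : ℕ → A.Pts K)
    (p : A.Pts (GK K)) (W : ℕ → A.Pts K) (w : A.Pts (k0 K H hH)) (w' : A.Pts (GK K))
    (Q : ℕ → B.Pts K) (b : B.Pts (GK K)) : Prop where
  germP : IsGerm A P p
  img : A.Img (k0 K H hH).val w w'
  germW : IsGerm A W w'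
  rel : p = w' + hB.inc (GK K) b
  relK : ∀ᶠ i in (hyperfilter ℕ : Filter ℕ), P i = W i + hB.inc K (Q i)
  field : IntermediateField.adjoin (k0 K H hH) (Set.range (rt (A.x p))) =
    IntermediateField.adjoin (k0 K H hH) (Set.range (rt (B.x b)))

end Pool.Agent.Lib.MP_17a322_nt.SL
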