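import Pool.Agent.Lib.MP_17a322_nt.SL.H4
import Pool.Agent.Lib.MP_17a322_nt.SL.Geo
import Pool.Agent.Lib.MP_17a322_nt.VP.M7
import Pool.Agent.Lib.MP_17a322_nt.VP.E01

/-!
The geometric data.
-/

universe u

namespace Pool.Agent.Lib.MP_17a322_nt.SL

open MvPolynomial Height Filter
open Pool.Agent.Lib.MP_17a322_nt.RO
open Pool.Agent.Lib.MP_17a322_nt.VJ
open Pool.Agent.Lib.MP_17a322_nt.VN hiding lf
open Pool.Agent.Lib.MP_17a322_nt.VA
open Pool.Agent.Lib.MP_17a322_nt.VP

/-- A homogeneous equation which holds at a point with independent Noether coordinates is an equation of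
the variety. -/
theorem D0_mem_I {K : Type u} [Field K] {N : ℕ} {B : AV K N} {n e : ℕ} (nd : Noe B n e)
    {Ω : Type u} [Field Ω] [Algebra K Ω] (b : B.Pts Ω) (hl : lf (nd.l 0) (B.x b) ≠ 0)
    (hind : AlgebraicIndependent K (nd.s b)) {d : ℕ} {f : MvPolynomial (Fin (N + 1)) K}
    (hf : f.IsHomogeneous d) (hfb : aeval (B.x b) f = 0) : f ∈ B.I := by
  have hy : B.IsPt (nd.y b) := nd.y_isPt b
  have hy1 : lf (nd.l 0) (nd.y b) = 1 := Z_lf_y nd hl
  have hs : (fun t : Fin n => lf (nd.l t.succ) (nd.y b)) = nd.s b := by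
    funext t
    show lf (nd.l t.succ) (fun a => B.x b a / lf (nd.l 0) (B.x b)) = _
    unfold lf Noe.s lf
    rw [Finset.sum_div]
    exact Finset.sum_congr rfl fun a _ => (mul_div_assoc _ _ _).symm
  have hfy : aeval (nd.y b) f = 0 := by
    have h1 : nd.y b = fun a => (lf (nd.l 0) (B.x b))⁻¹ * B.x b a :=
      funext fun a => div_eq_inv_mul _ _
    rw [h1, Z_aeval_smul hf, hfb, mul_zero]
  have hl' : lf (nd.l 0) (ENgp B K) ≠ 0 := EN_l0 nd hy hy1
  have h2 : aeval (ENga B K (nd.l 0)) f = 0 :=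
    EN_gen nd hy hy1 (by rw [hs]; exact hind) hfy (EN_ga_isPt _) (EN_lf_ga hl')
  have h3 : aeval (ENgp B K) f = 0 := by
    rw [EN_gp_eq hl', Z_aeval_smul hf, h2, mul_zero]
  rw [EN_gp_zero_iff] at h3
  have h4 : ENJ B K = B.I := by
    unfold ENJ
    have h5 : (MvPolynomial.map (algebraMap K K) : MvPolynomial (Fin (N + 1)) K →+* _) =
        RingHom.id _ := RingHom.ext fun x => MvPolynomial.map_id x
    rw [h5, Ideal.map_id]
  rwa [h4] at h3

/-- A point with independent Noether coordinates lies in no smaller closed subgroup. -/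
theorem D0_minSub {K : Type u} [Field K] {N : ℕ} {B : AV K N} {n e : ℕ} (nd : Noe B n e)
    {Ω : Type u} [Field Ω] [Algebra K Ω] (b : B.Pts Ω) (hl : lf (nd.l 0) (B.x b) ≠ 0)
    (hind : AlgebraicIndependent K (nd.s b)) : MinSub B b := by
  intro J hJ _ hb f hf
  rw [← sum_homogeneousComponent f]
  refine Ideal.sum_mem _ fun d _ => ?_
  exact D0_mem_I nd b hl hind (homogeneousComponent_isHomogeneous d f) (hb _ (hJ f hf d))

section

variable {K : Type u} [Field K] [NumberField K] {N : ℕ} {A : AV K N} {P : ℕ → A.Pts K}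
    {H : ℕ → ℝ} {hH : Tendsto H (hyperfilter ℕ : Filter ℕ) atTop} {p : A.Pts (GK K)}
    (S : HSet A P hH p)

theorem HSet.exists_chart : ∃ _ : Fin S.s, True := by
  obtain ⟨v₀⟩ : Nonempty (NumberField.InfinitePlace K) := inferInstance
  obtain ⟨c₀, -⟩ := S.cov K v₀.val (0 : S.B.Pts K)
  exact ⟨c₀, trivial⟩

theorem HSet.tdeg_le (p₂ : S.B.Pts K) : (S.n : Cardinal.{u}) ≤
    tdeg (k0 K H hH) (S.B.x (S.b - S.B.img (Algebra.ofId K (GK K)) p₂)) := by
  obtain ⟨c₀, -⟩ := S.exists_chart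
  have h0 : (S.n : Cardinal.{u}) ≤ tdeg (k0 K H hH) (S.B.x S.b) := by
    have h1 := (Z_card_le_tdeg (K := k0 K H hH) (S.B.x S.b) ((S.nd c₀).s S.b) (S.ind c₀)
      (fun k => by
        have h2 : (S.nd c₀).s S.b k ∈
            IntermediateField.adjoin (k0 K H hH) (Set.range (rt (S.B.x S.b))) := by
          obtain ⟨F, hF⟩ : ∃ F : IntermediateField K (GK K), ∀ x, x ∈ F ↔
              x ∈ IntermediateField.adjoin (k0 K H hH) (Set.range (rt (S.B.x S.b))) :=
            ⟨(IntermediateField.adjoin (k0 K H hH) (Set.range (rt (S.B.x S.b)))).restrictScalars K,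
              fun _ => Iff.rfl⟩
          exact (hF _).1 (Z_s_mem (S.nd c₀) F S.b (fun i => (hF _).2
            (IntermediateField.subset_adjoin _ _ ⟨i, rfl⟩)) k)
        exact isAlgebraic_algebraMap (⟨_, h2⟩ :
          IntermediateField.adjoin (k0 K H hH) (Set.range (rt (S.B.x S.b)))))).2
    rwa [Nat.card_fin] at h1
  have h1 := tdeg_shift (k := k0 K H hH) (S.b - S.B.img (Algebra.ofId K (GK K)) p₂) (-p₂)
  have h2 : S.b - S.B.img (Algebra.ofId K (GK K)) p₂ -
      S.B.img (Algebra.ofId K (GK K)) (-p₂) = S.b := by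
    have h3 : S.B.img (Algebra.ofId K (GK K)) (-p₂) = - S.B.img (Algebra.ofId K (GK K)) p₂ :=
      (S.B.imgHom (Algebra.ofId K (GK K))).map_neg p₂
    rw [h3]
    abel
  rw [h2] at h1
  exact h0.trans h1

/-- The dimension is positive. -/
theorem HSet.pos : 0 < S.n := by
  rcases Nat.eq_zero_or_pos S.n with h0 | h0
  · exfalso
    obtain ⟨c₀, -⟩ := S.exists_chart
    have htow : @IsScalarTower K K (GK K) Algebra.toSMul Algebra.toSMul Algebra.toSMul :=
      IsScalarTower.of_algebraMap_eq fun _ => rfl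
    -- the coordinates of `b` are in `K`
    have h1 : ∀ i, rt (S.B.x S.b) i ∈ k0 K H hH := by
      intro i
      have hl := (S.good c₀).1
      have h2 : IsAlgebraic (IntermediateField.adjoin K (Set.range ((S.nd c₀).s S.b)))
          (rt (S.B.x S.b) i) := by
        have h3 : rt (S.B.x S.b) i = (S.nd c₀).y S.b i.1 / (S.nd c₀).y S.b i.2 := by
          unfold rt Noe.y
          rw [div_div_div_cancel_right₀ hl]
        rw [h3, div_eq_mul_inv]
        exact (y_alg (k := K) (S.nd c₀) S.b hl _).mul (y_alg (k := K) (S.nd c₀) S.b hl _).inv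
      have h3 : Set.range ((S.nd c₀).s S.b) = ∅ := by
        rw [Set.range_eq_empty_iff]
        rw [h0]
        infer_instance
      rw [h3, IntermediateField.adjoin_empty] at h2
      have h4 : IsAlgebraic K (rt (S.B.x S.b) i) := by
        have h5 : IsIntegral (⊥ : IntermediateField K (GK K)) (rt (S.B.x S.b) i) := h2.isIntegral
        exact (isIntegral_trans (R := K) (A := (⊥ : IntermediateField K (GK K))) _ h5).isAlgebraic
      obtain ⟨c, hc⟩ := K_closed _ h4
      rw [← hc]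
      exact (k0 K H hH).algebraMap_mem c
    have h2 := Z_oH_of_rt hH S.hQ h1
    obtain ⟨c, hc, h3⟩ := S.low
    obtain ⟨i, h4, h5, h6⟩ := ((h2 (c / 2) (by positivity)).and
      (h3.and (hH.eventually_gt_atTop 0))).exists
    nlinarith
  · exact h0

/-- The data for `B`. -/
theorem HSet.geoB : GeoB S.B hH S.Q S.b S.n := by
  obtain ⟨c₀, -⟩ := S.exists_chart
  exact
    { germ := S.hQ
      min := D0_minSub (S.nd c₀) S.b (S.good c₀).1
        ((S.ind c₀).restrictScalars (algebraMap K (k0 K H hH)).injective)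
      dim := S.dim
      pos := S.pos
      frm := fun p₂ => (S.shift p₂).1
      low := fun p₂ => (S.shift p₂).2.1
      upp := fun p₂ => (S.shift p₂).2.2
      noRat := S.noRat
      indep := fun p₂ _ nd hg => s_indep nd _ hg.1 (S.tdeg_le p₂) }

/-- The data for `A`. -/
theorem HSet.geoA (hPp : IsGerm A P p) : GeoA S.hB hH P p S.W S.w S.w' S.Q S.b where
  germP := hPp
  img := S.hw
  germW := S.hW
  rel := S.rel
  relK := S.relK
  field := by
    apply le_antisymm
    · rw [IntermediateField.adjoin_le_iff]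
      rintro _ ⟨i, rfl⟩
      exact S.rtp i
    · rw [IntermediateField.adjoin_le_iff]
      rintro _ ⟨i, rfl⟩
      exact S.rtb i

end

/-- The geometric data. -/
theorem GEO' {K : Type u} [Field K] [NumberField K] {N : ℕ} (A : AV K N)
    (Γ : AddSubgroup (A.Pts K)) (hΓ : Γ.FG) {H : ℕ → ℝ}
    (hH : Tendsto H (hyperfilter ℕ : Filter ℕ) atTop) (P : ℕ → A.Pts K) (hPΓ : ∀ i, P i ∈ Γ)
    (hlow : ∃ c : ℝ, 0 < c ∧ ∀ᶠ i in (hyperfilter ℕ : Filter ℕ), c * H i ≤ A.h (P i))
    (hupp : ∃ C : ℝ, 0 < C ∧ ∀ᶠ i in (hyperfilter ℕ : Filter ℕ), A.h (P i) ≤ C * H i)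
    {p : A.Pts (GK K)} (hPp : IsGerm A P p) :
    ∃ (B : AV K N) (hB : IsSubAV B A) (W : ℕ → A.Pts K) (w : A.Pts (k0 K H hH))
      (w' : A.Pts (GK K)) (Q : ℕ → B.Pts K) (b : B.Pts (GK K)) (n : ℕ),
      GeoA hB hH P p W w w' Q b ∧ GeoB B hH Q b n := by
  obtain ⟨B, hB, w, w', b, hw, hrel, hmin, hnr⟩ := geom_noRat1 A hH Γ hΓ P hPΓ p hPp
  obtain ⟨S⟩ := exists_HSet A Γ hΓ P hPΓ hH hlow hupp hPp hB hw hrel hmin hnr
  exact ⟨S.B, S.hB, S.W, S.w, S.w', S.Q, S.b, S.n, S.geoA hPp, S.geoB⟩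

end Pool.Agent.Lib.MP_17a322_nt.SL
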