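import Pool.Agent.Lib.MP_17a322_nt.SL.G1a

/-!
Geometry of numbers: Minkowski's first theorem.
-/

universe u

namespace Pool.Agent.Lib.MP_17a322_nt.SL

open MvPolynomial Height NumberField
open Pool.Agent.Lib.MP_17a322_nt.RO
open Pool.Agent.Lib.MP_17a322_nt.VJ

theorem gs_mul_left {K : Type*} [Field K] [AdmissibleAbsValues K]
    (Sg : Finset (AbsoluteValue K ℝ)) (f : AbsoluteValue K ℝ → ℝ) (g : AbsoluteValue K ℝ → ℝ)
    (hf : FS f) (h : ∀ v ∈ Sg, f v ≤ g v) (h' : ∀ v, Pl v → v ∉ Sg → f v ≤ 0) :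
    gs f ≤ ∑ v ∈ Sg, (nv v : ℝ) * g v := by
  classical
  rw [← gs_ite]
  refine gs_le hf (FS_ite Sg g _ FS_zero) fun v hv => ?_
  split_ifs with hS
  · exact h v hS
  · exact h' v hv hS

/-- Minkowski's first theorem. -/
theorem GM1 {K : Type u} [Field K] [NumberField K] {q : ℕ} (hq : 0 < q)
    (Sg : Finset (AbsoluteValue K ℝ)) (hSg : ∀ v ∈ Sg, Pl v)
    (hinf : ∀ v : NumberField.InfinitePlace K, v.val ∈ Sg) :
    ∃ C : ℝ, 0 ≤ C ∧ ∀ (c : AbsoluteValue K ℝ → Fin q → ℝ)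
      (M : AbsoluteValue K ℝ → Matrix (Fin q) (Fin q) K), (∀ v ∈ Sg, (M v).det ≠ 0) →
      ∃ y : Fin q → K, y ≠ 0 ∧ gs (sw Sg c M y) ≤ tw Sg c / q + C := by
  classical
  obtain ⟨C, hC0, hC⟩ := box (K := K) (q := q) Sg hSg hinf hq
  refine ⟨C + 1, by positivity, fun c M hM => ?_⟩
  have hq' : (0 : ℝ) < q := by exact_mod_cast hq
  have hd : (0 : ℝ) < Module.finrank ℚ K := by exact_mod_cast Module.finrank_pos
  obtain ⟨A, hA⟩ : ∃ A : AbsoluteValue K ℝ → ℝ,
    A = fun v => if v ∈ AdmissibleAbsValues.archAbsVal (K := K) then 1 else 0 := ⟨_, rfl⟩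
  have hsum : ∑ v ∈ Sg, (nv v : ℝ) * A v = Module.finrank ℚ K := by
    rw [hA]
    exact nv_sum Sg hinf
  -- the radii at the finite places
  obtain ⟨X, hX⟩ : ∃ X : ℝ, X = ∑ v ∈ Sg, (nv v : ℝ) * ((1 - A v) * ∑ k, |c v k|) := ⟨_, rfl⟩
  obtain ⟨z, hz⟩ : ∃ z : AbsoluteValue K ℝ → ℝ, z = fun v =>
    A v * ((tw Sg c / q + (C + 1) + X) / Module.finrank ℚ K) - (1 - A v) * ∑ k, |c v k| :=
    ⟨_, rfl⟩
  have hzsum : ∑ v ∈ Sg, (nv v : ℝ) * z v = tw Sg c / q + (C + 1) := by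
    have h1 : ∀ v ∈ Sg, (nv v : ℝ) * z v = (nv v * A v) *
        ((tw Sg c / q + (C + 1) + X) / Module.finrank ℚ K) -
        nv v * ((1 - A v) * ∑ k, |c v k|) := by
      intro v _
      rw [hz]
      ring
    rw [Finset.sum_congr rfl h1, Finset.sum_sub_distrib, ← Finset.sum_mul, hsum, ← hX,
      mul_div_cancel₀ _ hd.ne']
    ring
  obtain ⟨y, hy, hy1, hy2⟩ := hC M (fun v k => z v - c v k)
    (fun v hv => mx_pos hq v (hM v hv)) (fun v _ hv k => by
      have h1 : A v = 0 := by rw [hA]; exact if_neg hv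
      have h2 : |c v k| ≤ ∑ k, |c v k| :=
        Finset.single_le_sum (f := fun k => |c v k|) (fun _ _ => abs_nonneg _)
          (Finset.mem_univ k)
      have h3 := neg_abs_le (c v k)
      rw [hz]
      simp only [h1]
      linarith) (by
      have h1 : ∀ v ∈ Sg, (nv v : ℝ) * ∑ k, (z v - c v k) =
          q * (nv v * z v) - nv v * ∑ k, c v k := by
        intro v _
        rw [Finset.sum_sub_distrib, Finset.sum_const, Finset.card_univ, Fintype.card_fin,
          nsmul_eq_mul]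
        ring
      rw [Finset.sum_congr rfl h1, Finset.sum_sub_distrib, ← Finset.mul_sum, hzsum, ← tw_eq]
      have h2 : (q : ℝ) * (tw Sg c / q + (C + 1)) = tw Sg c + q * (C + 1) := by
        field_simp
      rw [h2]
      have h3 : (1 : ℝ) ≤ q := by exact_mod_cast hq
      nlinarith)
  refine ⟨y, hy, ?_⟩
  rw [← hzsum]
  refine gs_mul_left Sg _ _ (FS_sw Sg c M hy) (fun v hv => ?_) fun v hv hvS => ?_
  · rw [sw_mem c M y hv]
    have hm := mx_pos hq v (hM v hv)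
    have h1 : mw v (c v) ((M v).mulVec y) ≤ mx v (M v) * Real.exp (z v) := by
      refine mw_le v _ _ (mul_nonneg hm.le (Real.exp_nonneg _)) fun k => ?_
      refine (mul_le_mul_of_nonneg_right (hy2 v hv k) (Real.exp_nonneg _)).trans ?_
      rw [mul_assoc, ← Real.exp_add, sub_add_cancel]
    have h2 := Real.log_le_log (mw_pos v (c v) (mulVec_ne (hM v hv) hy)) h1
    rw [Real.log_mul hm.ne' (Real.exp_ne_zero _), Real.log_exp] at h2
    linarith
  · rw [sw_notMem c M y hvS]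
    exact Real.log_nonpos (mv_nonneg v y) (mv_le v y zero_le_one fun l => hy1 v hv hvS l)

end Pool.Agent.Lib.MP_17a322_nt.SL
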