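import Pool.Agent.Lib.MP_17a322_nt.SL.Defs
import Pool.Agent.Lib.MP_17a322_nt.VP.CE

/-!
The subspace theorem with moving targets over abelian varieties, part C: coefficients of products of
linear forms.
-/

universe u

namespace Pool.Agent.Lib.MP_17a322_nt.SL

open MvPolynomial Height
open Pool.Agent.Lib.MP_17a322_nt.RO
open Pool.Agent.Lib.MP_17a322_nt.VJ
open Pool.Agent.Lib.MP_17a322_nt.VN
open Pool.Agent.Lib.MP_17a322_nt.VA
open Pool.Agent.Lib.MP_17a322_nt.VP

/-! ### The index type -/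

/-- The four groups of variables. -/
def CQ_eqv (m n q : ℕ) : VQ m n q ≃ Fin n ⊕ Fin m ⊕ (Fin m × Fin n) ⊕ (Fin m × Fin q) where
  toFun
    | VQ.x a => Sum.inl a
    | VQ.th i => Sum.inr (Sum.inl i)
    | VQ.z p => Sum.inr (Sum.inr (Sum.inl p))
    | VQ.u p => Sum.inr (Sum.inr (Sum.inr p))
  invFun
    | Sum.inl a => VQ.x a
    | Sum.inr (Sum.inl i) => VQ.th i
    | Sum.inr (Sum.inr (Sum.inl p)) => VQ.z p
    | Sum.inr (Sum.inr (Sum.inr p)) => VQ.u p
  left_inv := by rintro (a | i | p | p) <;> rfl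
  right_inv := by rintro (a | i | p | p) <;> rfl

theorem CQ_prod {m n q : ℕ} {M : Type*} [CommMonoid M] (g : VQ m n q → M) :
    ∏ t, g t = (∏ a, g (VQ.x a)) *
      ((∏ i, g (VQ.th i)) * ((∏ p, g (VQ.z p)) * ∏ p, g (VQ.u p))) := by
  rw [← (CQ_eqv m n q).symm.prod_comp g, Fintype.prod_sum_type, Fintype.prod_sum_type,
    Fintype.prod_sum_type]
  rfl

/-- Products over all variables, block by block. -/
theorem CQ_prod' {m n q : ℕ} {M : Type*} [CommMonoid M] (g : VQ m n q → M) :
    ∏ t, g t = (∏ a, g (VQ.x a)) *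
      ∏ i, (g (VQ.th i) * ((∏ a, g (VQ.z (i, a))) * ∏ l, g (VQ.u (i, l)))) := by
  rw [CQ_prod, Finset.prod_mul_distrib, Finset.prod_mul_distrib, Fintype.prod_prod_type,
    Fintype.prod_prod_type]

/-! ### Coefficients in several blocks -/

theorem CQ_coeff_prod {R : Type*} [CommRing R] {m q : ℕ} (P : Fin m → MvPolynomial (Fin q) R)
    (w : Fin m × Fin q →₀ ℕ) :
    coeff w (∏ i, rename (fun k => (i, k)) (P i)) =
      ∏ i, coeff (Finsupp.equivFunOnFinite.symm fun k => w (i, k)) (P i) := by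
  classical
  have h1 : ∀ i, rename (fun k => (i, k)) (P i) =
      ∑ s ∈ (P i).support, monomial (Finsupp.mapDomain (fun k => (i, k)) s) (coeff s (P i)) := by
    intro i
    conv_lhs => rw [(P i).as_sum]
    rw [map_sum]
    exact Finset.sum_congr rfl fun s _ => rename_monomial _ _ _
  have h2 : ∀ p : Fin m → Fin q →₀ ℕ,
      ∏ i, (monomial (Finsupp.mapDomain (fun k => (i, k)) (p i)) (coeff (p i) (P i)) :
        MvPolynomial (Fin m × Fin q) R) =
      monomial (∑ i, Finsupp.mapDomain (fun k => (i, k)) (p i)) (∏ i, coeff (p i) (P i)) := by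
    intro p
    induction (Finset.univ : Finset (Fin m)) using Finset.induction_on with
    | empty => rw [Finset.prod_empty, Finset.prod_empty, Finset.sum_empty]; rfl
    | insert i s hi ih =>
      rw [Finset.prod_insert hi, Finset.prod_insert hi, Finset.sum_insert hi, ih, monomial_mul]
  have h3 : ∀ (p : Fin m → Fin q →₀ ℕ) (i : Fin m) (k : Fin q),
      (∑ i, Finsupp.mapDomain (fun k => (i, k)) (p i) : Fin m × Fin q →₀ ℕ) (i, k) = p i k := by
    intro p i k
    rw [Finsupp.finsetSum_apply, Finset.sum_eq_single i]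
    · exact Finsupp.mapDomain_apply (fun a b h => (Prod.ext_iff.1 h).2) _ _
    · intro i' _ hi'
      refine Finsupp.mapDomain_of_notMem_range _ _ ?_
      rintro ⟨k', hk'⟩
      exact hi' (Prod.ext_iff.1 hk').1
    · intro h
      exact absurd (Finset.mem_univ i) h
  rw [Finset.prod_congr rfl fun i _ => h1 i, Finset.prod_univ_sum, coeff_sum]
  have h4 : ∀ p ∈ Fintype.piFinset fun i => (P i).support,
      coeff w (∏ i, (monomial (Finsupp.mapDomain (fun k => (i, k)) (p i)) (coeff (p i) (P i)) :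
        MvPolynomial (Fin m × Fin q) R)) =
      if p = (fun i => Finsupp.equivFunOnFinite.symm fun k => w (i, k)) then
        ∏ i, coeff (Finsupp.equivFunOnFinite.symm fun k => w (i, k)) (P i) else 0 := by
    intro p _
    rw [h2, coeff_monomial]
    by_cases h5 : p = fun i => Finsupp.equivFunOnFinite.symm fun k => w (i, k)
    · have h6 : (∑ i, Finsupp.mapDomain (fun k => (i, k)) (p i) : Fin m × Fin q →₀ ℕ) = w := by
        refine Finsupp.ext fun x => ?_
        obtain ⟨i, k⟩ := x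
        rw [h3, h5]
        rfl
      rw [if_pos h5, if_pos h6, h5]
    · have h6 : (∑ i, Finsupp.mapDomain (fun k => (i, k)) (p i) : Fin m × Fin q →₀ ℕ) ≠ w := by
        intro h6
        apply h5
        funext i
        refine Finsupp.ext fun k => ?_
        rw [← h3 p i k, h6]
        rfl
      rw [if_neg h5, if_neg h6]
  rw [Finset.sum_congr rfl h4, Finset.sum_ite_eq']
  by_cases h7 : (fun i => Finsupp.equivFunOnFinite.symm fun k => w (i, k)) ∈
      Fintype.piFinset fun i => (P i).support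
  · rw [if_pos h7]
  · rw [if_neg h7]
    rw [Fintype.mem_piFinset] at h7
    push Not at h7
    obtain ⟨i, hi⟩ := h7
    symm
    exact Finset.prod_eq_zero (Finset.mem_univ i) (notMem_support_iff.1 hi)

/-! ### Products of linear forms -/

/-- The product of the powers of the linear forms with the coefficients `B l k`. -/
noncomputable def CQ_P {R : Type*} [CommRing R] {q : ℕ} (B : Matrix (Fin q) (Fin q) R)
    (μ : Fin q → ℕ) : MvPolynomial (Fin q) R :=
  ∏ l, (∑ k, C (B l k) * X k) ^ μ l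

theorem CQ_P_map {R S : Type*} [CommRing R] [CommRing S] (f : R →+* S) {q : ℕ}
    (B : Matrix (Fin q) (Fin q) R) (μ : Fin q → ℕ) (w : Fin q →₀ ℕ) :
    f (coeff w (CQ_P B μ)) = coeff w (CQ_P (B.map f) μ) := by
  rw [← coeff_map]
  unfold CQ_P
  rw [map_prod]
  congr 1
  refine Finset.prod_congr rfl fun l _ => ?_
  rw [map_pow, map_sum]
  congr 1
  refine Finset.sum_congr rfl fun k _ => ?_
  rw [map_mul, map_C, map_X, Matrix.map_apply]

theorem CQ_P_smul {R : Type*} [CommRing R] {q : ℕ} (t : R) (B : Matrix (Fin q) (Fin q) R)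
    (μ : Fin q → ℕ) : CQ_P (t • B) μ = C (t ^ ∑ l, μ l) * CQ_P B μ := by
  unfold CQ_P
  rw [← Finset.prod_pow_eq_pow_sum, map_prod, ← Finset.prod_mul_distrib]
  refine Finset.prod_congr rfl fun l _ => ?_
  rw [map_pow, ← mul_pow, Finset.mul_sum]
  congr 1
  refine Finset.sum_congr rfl fun k _ => ?_
  rw [Matrix.smul_apply, smul_eq_mul, map_mul, mul_assoc]

theorem CQ_P_homog {R : Type*} [CommRing R] {q : ℕ} (B : Matrix (Fin q) (Fin q) R)
    (μ : Fin q → ℕ) : (CQ_P B μ).IsHomogeneous (∑ l, μ l) := by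
  unfold CQ_P
  refine IsHomogeneous.prod _ _ _ fun l _ => ?_
  have h1 : (∑ k, C (B l k) * X k : MvPolynomial (Fin q) R).IsHomogeneous 1 := by
    refine IsHomogeneous.sum _ _ _ fun k _ => ?_
    have h2 := (isHomogeneous_C (Fin q) (B l k)).mul (isHomogeneous_X R k)
    rwa [zero_add] at h2
  have h3 := h1.pow (μ l)
  rwa [one_mul] at h3

theorem CQ_P_coeff_zero {R : Type*} [CommRing R] {q : ℕ} (B : Matrix (Fin q) (Fin q) R)
    (μ w : Fin q → ℕ) (h : ∑ l, w l ≠ ∑ l, μ l) :
    coeff (Finsupp.equivFunOnFinite.symm w) (CQ_P B μ) = 0 := by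
  by_contra h1
  apply h
  have h2 := CQ_P_homog B μ h1
  rw [← h2, Finsupp.weight_apply, Finsupp.sum_fintype _ _ fun _ => by simp]
  refine Finset.sum_congr rfl fun l _ => ?_
  simp

/-! ### Coefficients of products: the two degrees -/

theorem CQ_BD_mul {K σ τ : Type*} [Field K] [Fintype σ] [Fintype τ] {q : ℕ}
    {P Q : MvPolynomial (Fin q) (MvPolynomial (σ ⊕ τ) K)} {a b a' b' : ℕ}
    (hP : ∀ w, BD (coeff w P) a b) (hQ : ∀ w, BD (coeff w Q) a' b') (w : Fin q →₀ ℕ) :
    BD (coeff w (P * Q)) (a + a') (b + b') := by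
  classical
  rw [coeff_mul]
  exact BD.sum _ _ fun p _ => (hP p.1).mul (hQ p.2)

theorem CQ_BD_one {K σ τ : Type*} [Field K] [Fintype σ] [Fintype τ] {q : ℕ} (w : Fin q →₀ ℕ) :
    BD (coeff w (1 : MvPolynomial (Fin q) (MvPolynomial (σ ⊕ τ) K))) 0 0 := by
  classical
  rw [coeff_one]
  by_cases h : 0 = w
  · rw [if_pos h, ← C_1]
    exact BD.C _ 0 0
  · rw [if_neg h, ← C_0]
    exact BD.C _ 0 0

theorem CQ_BD_pow {K σ τ : Type*} [Field K] [Fintype σ] [Fintype τ] {q : ℕ}
    {P : MvPolynomial (Fin q) (MvPolynomial (σ ⊕ τ) K)} {a b : ℕ}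
    (hP : ∀ w, BD (coeff w P) a b) (k : ℕ) (w : Fin q →₀ ℕ) :
    BD (coeff w (P ^ k)) (k * a) (k * b) := by
  induction k generalizing w with
  | zero =>
    rw [pow_zero, zero_mul, zero_mul]
    exact CQ_BD_one w
  | succ k ih =>
    rw [pow_succ, Nat.succ_mul, Nat.succ_mul]
    exact CQ_BD_mul ih hP w

theorem CQ_BD_prod {K σ τ ι : Type*} [Field K] [Fintype σ] [Fintype τ] {q : ℕ} (s : Finset ι)
    (P : ι → MvPolynomial (Fin q) (MvPolynomial (σ ⊕ τ) K)) (a b : ι → ℕ)
    (hP : ∀ l ∈ s, ∀ w, BD (coeff w (P l)) (a l) (b l)) (w : Fin q →₀ ℕ) :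
    BD (coeff w (∏ l ∈ s, P l)) (∑ l ∈ s, a l) (∑ l ∈ s, b l) := by
  classical
  induction s using Finset.induction_on generalizing w with
  | empty =>
    rw [Finset.prod_empty, Finset.sum_empty, Finset.sum_empty]
    exact CQ_BD_one w
  | insert i s hi ih =>
    rw [Finset.prod_insert hi, Finset.sum_insert hi, Finset.sum_insert hi]
    exact CQ_BD_mul (hP i (Finset.mem_insert_self i s))
      (fun w => ih (fun l hl => hP l (Finset.mem_insert_of_mem hl)) w) w

theorem CQ_P_BD {K σ τ : Type*} [Field K] [Fintype σ] [Fintype τ] {q : ℕ}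
    (B : Matrix (Fin q) (Fin q) (MvPolynomial (σ ⊕ τ) K)) {a b : ℕ} (hB : ∀ l k, BD (B l k) a b)
    (μ : Fin q → ℕ) (w : Fin q →₀ ℕ) :
    BD (coeff w (CQ_P B μ)) ((∑ l, μ l) * a) ((∑ l, μ l) * b) := by
  classical
  unfold CQ_P
  rw [Finset.sum_mul, Finset.sum_mul]
  refine CQ_BD_prod Finset.univ _ _ _ (fun l _ w => CQ_BD_pow (fun w => ?_) (μ l) w) w
  rw [coeff_sum]
  refine BD.sum _ _ fun k _ => ?_
  rw [coeff_C_mul, coeff_X]
  by_cases h : Finsupp.single k 1 = w
  · rw [if_pos h, mul_one]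
    exact hB l k
  · rw [if_neg h, mul_zero, ← C_0]
    exact BD.C _ a b

/-! ### Coefficients of products: sizes -/

/-- A polynomial in two groups of variables as a polynomial over a polynomial ring. -/
noncomputable def CQ_it {K : Type*} [CommRing K] {σ τ : Type*} :
    MvPolynomial (σ ⊕ τ) K →ₐ[K] MvPolynomial τ (MvPolynomial σ K) :=
  aeval (Sum.elim (fun t => C (X t)) X)

theorem CQ_coeff_it {K : Type*} [CommRing K] {σ τ : Type*} [Fintype σ] [Fintype τ]
    (P : MvPolynomial (σ ⊕ τ) K) (w : τ →₀ ℕ) (s : σ →₀ ℕ) :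
    coeff s (coeff w (CQ_it P)) =
      coeff (Finsupp.equivFunOnFinite.symm (Sum.elim (fun t => s t) fun t => w t)) P := by
  classical
  induction P using MvPolynomial.induction_on' with
  | add P Q hP hQ =>
    rw [map_add, coeff_add, coeff_add, coeff_add, hP, hQ]
  | monomial m c =>
    have h1 : CQ_it (monomial m c) = monomial (Finsupp.equivFunOnFinite.symm fun t => m (Sum.inr t))
        (monomial (Finsupp.equivFunOnFinite.symm fun t => m (Sum.inl t)) c : MvPolynomial σ K) := by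
      unfold CQ_it
      rw [aeval_monomial, Finsupp.prod_fintype _ _ (fun i => pow_zero _), Fintype.prod_sum_type,
        monomial_eq (a := (monomial (Finsupp.equivFunOnFinite.symm fun t => m (Sum.inl t)) c :
          MvPolynomial σ K)), monomial_eq (a := c), Finsupp.prod_fintype _ _ (fun i => pow_zero _),
        Finsupp.prod_fintype _ _ (fun i => pow_zero _)]
      simp only [Sum.elim_inl, Sum.elim_inr, Finsupp.equivFunOnFinite_symm_apply_apply, map_mul,
        map_prod, map_pow]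
      rw [mul_assoc]
      rfl
    rw [h1, coeff_monomial, coeff_monomial]
    by_cases h2 : m = Finsupp.equivFunOnFinite.symm (Sum.elim (fun t => s t) fun t => w t)
    · have h3 : (Finsupp.equivFunOnFinite.symm fun t => m (Sum.inr t)) = w :=
        Finsupp.ext fun t => by rw [h2]; rfl
      have h4 : (Finsupp.equivFunOnFinite.symm fun t => m (Sum.inl t)) = s :=
        Finsupp.ext fun t => by rw [h2]; rfl
      rw [if_pos h2, if_pos h3, coeff_monomial, if_pos h4]
    · rw [if_neg h2]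
      by_cases h3 : (Finsupp.equivFunOnFinite.symm fun t => m (Sum.inr t)) = w
      · rw [if_pos h3, coeff_monomial, if_neg]
        intro h4
        apply h2
        refine Finsupp.ext fun y => ?_
        rcases y with t | t
        · rw [← h4]
          rfl
        · rw [← h3]
          rfl
      · rw [if_neg h3, coeff_zero]

theorem CQ_it_NV {L : Type*} [Field L] (v : AbsoluteValue L ℝ) {σ τ : Type*} [Fintype σ]
    [Fintype τ] (P : MvPolynomial (σ ⊕ τ) L) (w : τ →₀ ℕ) : NV v (coeff w (CQ_it P)) ≤ NV v P := by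
  refine NV_le_of_injOn v P (coeff w (CQ_it P))
    (fun s => Finsupp.equivFunOnFinite.symm (Sum.elim (fun t => s t) fun t => w t))
    (fun q _ q' _ h => ?_) fun q _ => CQ_coeff_it P w q
  refine Finsupp.ext fun t => ?_
  exact DFunLike.congr_fun h (Sum.inl t)

theorem CQ_P_NV {L : Type*} [Field L] (v : AbsoluteValue L ℝ) {σ : Type*} [Fintype σ] {q : ℕ}
    (B : Matrix (Fin q) (Fin q) (MvPolynomial σ L)) {Q : ℝ} (hQ : 0 ≤ Q)
    (hB : ∀ l k, NV v (B l k) ≤ Q) (μ : Fin q → ℕ) (w : Fin q →₀ ℕ) :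
    NV v (coeff w (CQ_P B μ)) ≤ (cst v q * Q) ^ ∑ l, μ l := by
  classical
  have hS := SN_NV v (σ := σ ⊕ Fin q)
  have h1 : CQ_P B μ = CQ_it (∏ l, (∑ k, rename (Sum.inl : σ → σ ⊕ Fin q) (B l k) *
      X (Sum.inr k)) ^ μ l) := by
    unfold CQ_P
    rw [map_prod]
    refine Finset.prod_congr rfl fun l _ => ?_
    rw [map_pow, map_sum]
    congr 1
    refine Finset.sum_congr rfl fun k _ => ?_
    have h2 : CQ_it (rename (Sum.inl : σ → σ ⊕ Fin q) (B l k)) = C (B l k) := by
      unfold CQ_it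
      rw [aeval_rename]
      have h3 : (Sum.elim (fun t => C (X t)) X ∘ Sum.inl :
          σ → MvPolynomial (Fin q) (MvPolynomial σ L)) = fun t => C (X t) := rfl
      rw [h3]
      have h4 := MvPolynomial.comp_aeval_apply (R := L) (X : σ → MvPolynomial σ L)
        (((Algebra.ofId (MvPolynomial σ L) (MvPolynomial (Fin q) (MvPolynomial σ L))).restrictScalars
          L)) (B l k)
      rw [aeval_X_left_apply] at h4
      exact h4.symm
    have h5 : CQ_it (X (Sum.inr k) : MvPolynomial (σ ⊕ Fin q) L) = X k := by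
      unfold CQ_it
      rw [aeval_X]
      rfl
    rw [map_mul, h2, h5]
  rw [h1]
  refine (CQ_it_NV v _ w).trans ?_
  refine (hS.prod_le Finset.univ _).trans ?_
  rw [← Finset.prod_pow_eq_pow_sum]
  refine Finset.prod_le_prod (fun l _ => hS.nonneg _) fun l _ => ?_
  refine (hS.pow_le _ _).trans (pow_le_pow_left₀ (hS.nonneg _) ?_ _)
  have h6 : ∀ k ∈ (Finset.univ : Finset (Fin q)),
      NV v (rename (Sum.inl : σ → σ ⊕ Fin q) (B l k) * X (Sum.inr k)) ≤ Q := by
    intro k _
    refine (hS.mul _ _).trans ?_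
    show NV v (rename (Sum.inl : σ → σ ⊕ Fin q) (B l k)) * NV v (X _) ≤ Q
    rw [NV_X, mul_one, NV_rename v _ Sum.inl Sum.inl_injective]
    exact hB l k
  by_cases hv : IsNonarchimedean v
  · have h7 : cst v q = 1 := by
      unfold cst
      rw [if_pos hv]
    rw [h7, one_mul]
    exact hS.sum_le_max hv _ _ hQ h6
  · have h7 : cst v q = q := by
      unfold cst
      rw [if_neg hv]
    rw [h7]
    refine (hS.sum_le_sum _ _).trans ((Finset.sum_le_sum h6).trans (le_of_eq ?_))
    rw [Finset.sum_const, Finset.card_univ, Fintype.card_fin, nsmul_eq_mul]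

end Pool.Agent.Lib.MP_17a322_nt.SL
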