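import Pool.Agent.Lib.MP_17a322_nt.SL.CA
import Pool.Agent.Lib.MP_17a322_nt.VP.CC
import Pool.Agent.Lib.MP_17a322_nt.VP.CD

/-!
The subspace theorem with moving targets over abelian varieties, part C: the linear conditions for the
auxiliary polynomial.
-/

universe u

namespace Pool.Agent.Lib.MP_17a322_nt.SL

open MvPolynomial Height
open Pool.Agent.Lib.MP_17a322_nt.RO
open Pool.Agent.Lib.MP_17a322_nt.VJ
open Pool.Agent.Lib.MP_17a322_nt.VN
open Pool.Agent.Lib.MP_17a322_nt.VA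
open Pool.Agent.Lib.MP_17a322_nt.VP

section

variable {K : Type u} [Field K] {N : ℕ} {A : AV K N} {n e₀ : ℕ} (nd : Noe A n e₀) {q : ℕ}

variable (A) in
/-- The block polynomial. -/
noncomputable def CQ_BP (j : ℕ) (B : Matrix (Fin q) (Fin q) (MvPolynomial (Fin (N + 1)) K))
    (w μ : Fin q → ℕ) (ρ : ℕ) : MvPolynomial (Fin (N + 1) ⊕ Fin (N + 2)) K :=
  coeff (Finsupp.equivFunOnFinite.symm w) (CQ_P (B.map (aeval (C_V A j))) μ) *
    X (Sum.inr (Fin.last (N + 1))) ^ ρ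

/-- The component `ρ'` of the block polynomial, times a monomial. -/
noncomputable def CQ_H (j : ℕ) (B : Matrix (Fin q) (Fin q) (MvPolynomial (Fin (N + 1)) K))
    (w : Fin q → ℕ) (ρ' : Fin (C_d nd + 1)) (ρ : ℕ) (μ : Fin q → ℕ) (ν : Fin n → ℕ) :
    MvPolynomial (Fin (N + 1) ⊕ Fin n) K :=
  (∏ a, X (Sum.inr a) ^ ν a) * GR (C_T nd) (CQ_BP A j B w μ ρ) ρ'

/-- The coefficients of the linear equations. -/
noncomputable def CQ_MC {m : ℕ} (j : Fin m → ℕ)
    (B : Fin m → Matrix (Fin q) (Fin q) (MvPolynomial (Fin (N + 1)) K))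
    (w : Fin m → Fin q → ℕ) (r' : Fin (e₀ + 1)) (ρ' : Fin m → Fin (C_d nd + 1)) (q₀ : Fin n → ℕ)
    (g : Fin m → Fin n → ℕ) (d : VQ m n q → ℕ) : K :=
  coeff (Finsupp.equivFunOnFinite.symm q₀) ((∏ a, X a ^ d (VQ.x a)) *
    RR nd.Mx (∏ i, cz (CQ_H nd (j i) (B i) (w i) (ρ' i) (d (VQ.th i)) (fun l => d (VQ.u (i, l)))
      fun a => d (VQ.z (i, a))) (g i)) r')

/-- The linear equations. -/
def CQ_CC {m : ℕ} (S : Finset (VQ m n q → ℕ)) (j : Fin m → ℕ)
    (B : Fin m → Matrix (Fin q) (Fin q) (MvPolynomial (Fin (N + 1)) K))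
    (c : (VQ m n q → ℕ) → K) (w : Fin m → Fin q → ℕ) : Prop :=
  ∀ (r' : Fin (e₀ + 1)) (ρ' : Fin m → Fin (C_d nd + 1)) (q₀ : Fin n → ℕ)
    (g : Fin m → Fin n → ℕ), ∑ d ∈ S, c d * CQ_MC nd j B w r' ρ' q₀ g d = 0

end

/-- The polynomial with given coefficients. -/
noncomputable def CQ_F {K : Type*} [CommRing K] {m n q : ℕ} (S : Finset (VQ m n q → ℕ))
    (c : (VQ m n q → ℕ) → K) : MvPolynomial (VQ m n q) K :=
  ∑ d ∈ S, monomial (Finsupp.equivFunOnFinite.symm d) (c d)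

section

variable {K : Type u} [Field K] {N : ℕ} {A : AV K N} {n e₀ : ℕ} (nd : Noe A n e₀) {q : ℕ}

/-- The value of one block in terms of its components. -/
theorem CQ_block {R : Type u} [CommRing R] [Algebra K R] (Y η : Fin (N + 1) → R)
    (hη : A.IsPt η) (hη0 : lf (nd.l 0) η = 1) (j : ℕ)
    (B : Matrix (Fin q) (Fin q) (MvPolynomial (Fin (N + 1)) K)) (w : Fin q → ℕ) (ρ : ℕ)
    (μ : Fin q → ℕ) (ν : Fin n → ℕ) (D₀ : ℕ)
    (hD : ∀ ρ', (CQ_H nd j B w ρ' ρ μ ν).totalDegree ≤ D₀) :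
    (∏ a : Fin n, lf (nd.l a.succ) η ^ ν a) *
      aeval (Sum.elim Y (C_u nd η)) (CQ_BP A j B w μ ρ) =
    ∑ p ∈ Finset.univ ×ˢ box (fun _ : Fin n => D₀ + 1),
      (aeval η nd.θ ^ ((p.1 : Fin (C_d nd + 1)) : ℕ) * ∏ a : Fin n, lf (nd.l a.succ) η ^ p.2 a) *
        aeval Y (cz (CQ_H nd j B w p.1 ρ μ ν) p.2) := by
  rw [GR_eval (C_T nd) (CQ_BP A j B w μ ρ) (fun l : Fin (C_d nd + 1) => aeval η nd.θ ^ (l : ℕ))
    (fun k : Fin n => lf (nd.l k.succ) η) (C_u nd η) (by rw [Fin.val_zero, pow_zero])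
    (fun i m => C_rel nd η hη hη0 i m) Y, Finset.sum_product, Finset.mul_sum]
  refine Finset.sum_congr rfl fun ρ' _ => ?_
  have h1 : aeval (Sum.elim Y fun k : Fin n => lf (nd.l k.succ) η) (CQ_H nd j B w ρ' ρ μ ν) =
      (∏ a : Fin n, lf (nd.l a.succ) η ^ ν a) *
        aeval (Sum.elim Y fun k : Fin n => lf (nd.l k.succ) η)
          (GR (C_T nd) (CQ_BP A j B w μ ρ) ρ') := by
    unfold CQ_H
    rw [map_mul, map_prod]
    congr 1
    refine Finset.prod_congr rfl fun a _ => ?_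
    rw [map_pow, aeval_X, Sum.elim_inr]
  rw [mul_left_comm, ← h1, C_expand _ D₀ (hD ρ'), Finset.mul_sum]
  refine Finset.sum_congr rfl fun g _ => ?_
  rw [mul_assoc]

theorem CQ_sum_zero {m : ℕ} {S : Finset (VQ m n q → ℕ)} {j : Fin m → ℕ}
    {B : Fin m → Matrix (Fin q) (Fin q) (MvPolynomial (Fin (N + 1)) K)} {c : (VQ m n q → ℕ) → K}
    {w : Fin m → Fin q → ℕ} (hc : CQ_CC nd S j B c w) {R : Type u} [CommRing R] [Algebra K R]
    (Y : Fin (N + 1) → R) (η : Fin m → Fin (N + 1) → R) (hY : A.IsPt Y)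
    (hY0 : lf (nd.l 0) Y = 1) (hη : ∀ i, A.IsPt (η i)) (hη0 : ∀ i, lf (nd.l 0) (η i) = 1) :
    ∑ d ∈ S, algebraMap K R (c d) *
      ((∏ a : Fin n, lf (nd.l a.succ) Y ^ d (VQ.x a)) *
        ∏ i, ((∏ a : Fin n, lf (nd.l a.succ) (η i) ^ d (VQ.z (i, a))) *
          aeval (Sum.elim Y (C_u nd (η i)))
            (CQ_BP A (j i) (B i) (w i) (fun l => d (VQ.u (i, l))) (d (VQ.th i))))) = 0 := by
  classical
  obtain ⟨H, hH⟩ : ∃ H : (VQ m n q → ℕ) → Fin m → Fin (C_d nd + 1) →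
      MvPolynomial (Fin (N + 1) ⊕ Fin n) K, H = fun d i ρ' =>
        CQ_H nd (j i) (B i) (w i) ρ' (d (VQ.th i)) (fun l => d (VQ.u (i, l)))
          fun a => d (VQ.z (i, a)) := ⟨_, rfl⟩
  -- a bound for the degrees
  obtain ⟨D₀, hD₀⟩ : ∃ D₀ : ℕ, ∀ d ∈ S, ∀ i ρ', (H d i ρ').totalDegree ≤ D₀ := by
    refine ⟨∑ d ∈ S, ∑ i, ∑ ρ', (H d i ρ').totalDegree, fun d hd i ρ' => ?_⟩
    refine le_trans ?_ (Finset.single_le_sum (f := fun d => ∑ i, ∑ ρ', (H d i ρ').totalDegree)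
      (fun _ _ => Nat.zero_le _) hd)
    refine le_trans ?_ (Finset.single_le_sum (f := fun i => ∑ ρ', (H d i ρ').totalDegree)
      (fun _ _ => Nat.zero_le _) (Finset.mem_univ i))
    exact Finset.single_le_sum (f := fun ρ' => (H d i ρ').totalDegree)
      (fun _ _ => Nat.zero_le _) (Finset.mem_univ ρ')
  -- the reduced polynomials vanish
  have hQ : ∀ (r' : Fin (e₀ + 1)) (ρ' : Fin m → Fin (C_d nd + 1)) (g : Fin m → Fin n → ℕ),
      ∑ d ∈ S, (MvPolynomial.C (c d) : MvPolynomial (Fin n) K) *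
        ((∏ a, X a ^ d (VQ.x a)) * RR nd.Mx (∏ i, cz (H d i (ρ' i)) (g i)) r') = 0 := by
    intro r' ρ' g
    refine MvPolynomial.ext _ _ fun q₀ => ?_
    have h1 := hc r' ρ' (fun t => q₀ t) g
    have hq : Finsupp.equivFunOnFinite.symm (fun t => q₀ t) = q₀ := by
      ext t
      rfl
    rw [coeff_zero, coeff_sum, ← h1]
    refine Finset.sum_congr rfl fun d _ => ?_
    rw [coeff_C_mul, CQ_MC, hq, hH]
  have hwz : aeval Y (nd.w 0) = (1 : R) := by rw [nd.w_zero, map_one]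
  have hr := nd.rel R Y hY hY0
  -- the sums over `d`
  have hin : ∀ (ρ' : Fin m → Fin (C_d nd + 1)) (g : Fin m → Fin n → ℕ),
      ∑ d ∈ S, algebraMap K R (c d) *
        ((∏ a : Fin n, lf (nd.l a.succ) Y ^ d (VQ.x a)) *
          aeval Y (∏ i, cz (H d i (ρ' i)) (g i))) = 0 := by
    intro ρ' g
    have h1 : ∀ d ∈ S, algebraMap K R (c d) *
        ((∏ a : Fin n, lf (nd.l a.succ) Y ^ d (VQ.x a)) *
          aeval Y (∏ i, cz (H d i (ρ' i)) (g i))) =
        ∑ r', aeval Y (nd.w r') * aeval (fun t : Fin n => lf (nd.l t.succ) Y)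
          ((MvPolynomial.C (c d) : MvPolynomial (Fin n) K) *
            ((∏ a, X a ^ d (VQ.x a)) * RR nd.Mx (∏ i, cz (H d i (ρ' i)) (g i)) r')) := by
      intro d _
      rw [RR_eval nd.Mx (∏ i, cz (H d i (ρ' i)) (g i)) (fun r' => aeval Y (nd.w r'))
        (fun t : Fin n => lf (nd.l t.succ) Y) Y hwz hr, Finset.mul_sum, Finset.mul_sum]
      refine Finset.sum_congr rfl fun r' _ => ?_
      rw [map_mul, map_mul, map_prod, aeval_C]
      have h2 : ∏ t, aeval (fun t : Fin n => lf (nd.l t.succ) Y)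
          (X t ^ d (VQ.x t) : MvPolynomial (Fin n) K) =
          ∏ a : Fin n, lf (nd.l a.succ) Y ^ d (VQ.x a) := by
        refine Finset.prod_congr rfl fun t _ => ?_
        rw [map_pow, aeval_X]
      rw [h2]
      ring
    rw [Finset.sum_congr rfl h1, Finset.sum_comm]
    refine Finset.sum_eq_zero fun r' _ => ?_
    rw [← Finset.mul_sum, ← map_sum, hQ, map_zero, mul_zero]
  -- expansion of the blocks
  have hbl : ∀ d ∈ S, algebraMap K R (c d) *
      ((∏ a : Fin n, lf (nd.l a.succ) Y ^ d (VQ.x a)) *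
        ∏ i, ((∏ a : Fin n, lf (nd.l a.succ) (η i) ^ d (VQ.z (i, a))) *
          aeval (Sum.elim Y (C_u nd (η i)))
            (CQ_BP A (j i) (B i) (w i) (fun l => d (VQ.u (i, l))) (d (VQ.th i))))) =
      ∑ π ∈ Fintype.piFinset fun _ : Fin m => Finset.univ ×ˢ box (fun _ : Fin n => D₀ + 1),
        (∏ i, (aeval (η i) nd.θ ^ (((π i).1 : Fin (C_d nd + 1)) : ℕ) *
          ∏ a : Fin n, lf (nd.l a.succ) (η i) ^ (π i).2 a)) *
        (algebraMap K R (c d) * ((∏ a : Fin n, lf (nd.l a.succ) Y ^ d (VQ.x a)) *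
          aeval Y (∏ i, cz (H d i (π i).1) (π i).2))) := by
    intro d hd
    have h1 : ∀ i, (∏ a : Fin n, lf (nd.l a.succ) (η i) ^ d (VQ.z (i, a))) *
          aeval (Sum.elim Y (C_u nd (η i)))
            (CQ_BP A (j i) (B i) (w i) (fun l => d (VQ.u (i, l))) (d (VQ.th i))) =
        ∑ p ∈ Finset.univ ×ˢ box (fun _ : Fin n => D₀ + 1),
          (aeval (η i) nd.θ ^ ((p.1 : Fin (C_d nd + 1)) : ℕ) *
            ∏ a : Fin n, lf (nd.l a.succ) (η i) ^ p.2 a) *
            aeval Y (cz (H d i p.1) p.2) := by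
      intro i
      have h2 := CQ_block nd Y (η i) (hη i) (hη0 i) (j i) (B i) (w i) (d (VQ.th i))
        (fun l => d (VQ.u (i, l))) (fun a => d (VQ.z (i, a))) D₀ (fun ρ' => by
          have h3 := hD₀ d hd i ρ'
          rw [hH] at h3
          exact h3)
      rw [h2, hH]
    rw [Finset.prod_congr rfl fun i _ => h1 i, Finset.prod_univ_sum, Finset.mul_sum,
      Finset.mul_sum]
    refine Finset.sum_congr rfl fun π _ => ?_
    rw [Finset.prod_mul_distrib, map_prod]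
    ring
  rw [Finset.sum_congr rfl hbl, Finset.sum_comm]
  refine Finset.sum_eq_zero fun π _ => ?_
  rw [← Finset.mul_sum, hin (fun i => (π i).1) (fun i => (π i).2), mul_zero]

/-! ### The vanishing of the auxiliary polynomial -/

theorem CQ_BP_eval {R : Type u} [CommRing R] [Algebra K R] (Y η x : Fin (N + 1) → R) (c : R)
    {j D : ℕ} {B : Matrix (Fin q) (Fin q) (MvPolynomial (Fin (N + 1)) K)}
    (hB : ∀ l k, (B l k).IsHomogeneous D) (hrow : ∀ a, A.row A.b₀ η (A.mu j Y) a = c * x a)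
    (w μ : Fin q → ℕ) (ρ : ℕ) :
    aeval (Sum.elim Y (C_u nd η)) (CQ_BP A j B w μ ρ) =
      ((aeval (fun k : Fin n => lf (nd.l k.succ) η) nd.δ ^ 2 * c) ^ D) ^ (∑ l, μ l) *
        coeff (Finsupp.equivFunOnFinite.symm w) (CQ_P (B.map (aeval x)) μ) *
          aeval η nd.θ ^ ρ := by
  have h1 : ∀ g : MvPolynomial (Fin (N + 1)) K, g.IsHomogeneous D →
      aeval (Sum.elim Y (C_u nd η)) (aeval (C_V A j) g) =
        (aeval (fun k : Fin n => lf (nd.l k.succ) η) nd.δ ^ 2 * c) ^ D * aeval x g := by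
    intro g hg
    rw [← AlgHom.comp_apply, MvPolynomial.comp_aeval, ← aeval_mul_homog hg]
    congr 2
    funext a
    rw [C_V_eval, hrow, mul_assoc]
  have h2 : C_u nd η (Fin.last (N + 1)) = aeval η nd.θ := by
    unfold C_u
    rw [Fin.snoc_last]
  have h3 := CQ_P_map (aeval (R := K) (Sum.elim Y (C_u nd η)) : MvPolynomial (Fin (N + 1) ⊕
    Fin (N + 2)) K →ₐ[K] R).toRingHom (B.map (aeval (C_V A j))) μ
    (Finsupp.equivFunOnFinite.symm w)
  have h4 : (B.map (aeval (C_V A j))).map (aeval (R := K) (Sum.elim Y (C_u nd η)) :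
      MvPolynomial (Fin (N + 1) ⊕ Fin (N + 2)) K →ₐ[K] R).toRingHom =
      ((aeval (fun k : Fin n => lf (nd.l k.succ) η) nd.δ ^ 2 * c) ^ D) • B.map (aeval x) := by
    ext l k
    rw [Matrix.map_apply, Matrix.map_apply, Matrix.smul_apply, Matrix.map_apply, smul_eq_mul]
    exact h1 (B l k) (hB l k)
  rw [h4, CQ_P_smul, coeff_C_mul] at h3
  unfold CQ_BP
  rw [map_mul, map_pow, aeval_X, Sum.elim_inr, h2]
  congr 1

theorem CQ_Van {m : ℕ} {S : Finset (VQ m n q → ℕ)} {j κ : Fin m → ℕ} {D : ℕ}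
    {Λ : Fin m → Matrix (Fin q) (Fin q) (MvPolynomial (Fin (N + 1)) K)} {T : ℝ}
    {c : (VQ m n q → ℕ) → K} (hS : ∀ d ∈ S, ∀ i, ∑ l, d (VQ.u (i, l)) = κ i)
    (hΛ : ∀ i l k, ((Λ i).adjugate l k).IsHomogeneous D)
    (hc : ∀ (w : Fin m → Fin q → ℕ) (k : Fin q), (∀ i, ∑ l, w i l = κ i) →
      (∑ i, (4 : ℝ) ^ j i * w i k) < T → CQ_CC nd S j (fun i => (Λ i).adjugate) c w) :
    VanM nd j Λ T (CQ_F S c) := by
  classical
  intro R _ _ _ Y η x c' hY hη hc' hrow hdet w k hw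
  obtain ⟨Bx, hBx⟩ : ∃ Bx : Fin m → Matrix (Fin q) (Fin q) R,
    Bx = fun i => ((Λ i).map (aeval (x i))).adjugate := ⟨_, rfl⟩
  have hBx' : ∀ i, (Λ i).adjugate.map (aeval (x i)) = Bx i := by
    intro i
    rw [hBx]
    exact (aeval (R := K) (x i) : MvPolynomial (Fin (N + 1)) K →ₐ[K] R).toRingHom.map_adjugate (Λ i)
  -- the value of the polynomial
  have hval : ∀ d : VQ m n q → ℕ, aeval (vM nd
      (fun a => (C (Y a) : MvPolynomial (Fin m × Fin q) R))
      (fun i a => C (η i a)) fun p => ∑ k', C (((Λ p.1).map (aeval (x p.1))).adjugate p.2 k') *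
          X (p.1, k'))
      (monomial (Finsupp.equivFunOnFinite.symm d) (c d)) =
      C (algebraMap K R (c d) * ((∏ a : Fin n, lf (nd.l a.succ) Y ^ d (VQ.x a)) *
        ∏ i, (aeval (η i) nd.θ ^ d (VQ.th i) *
          ∏ a : Fin n, lf (nd.l a.succ) (η i) ^ d (VQ.z (i, a))))) *
        ∏ i, rename (fun k => (i, k)) (CQ_P (Bx i) fun l => d (VQ.u (i, l))) := by
    intro d
    have hlf : ∀ (l : Fin (N + 1) → K) (y : Fin (N + 1) → R),
        lf l (fun a => (C (y a) : MvPolynomial (Fin m × Fin q) R)) = C (lf l y) := by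
      intro l y
      unfold lf
      rw [map_sum]
      refine Finset.sum_congr rfl fun a _ => ?_
      rw [map_mul]
      rfl
    have hth : ∀ (y : Fin (N + 1) → R),
        aeval (fun a => (C (y a) : MvPolynomial (Fin m × Fin q) R)) nd.θ = C (aeval y nd.θ) := by
      intro y
      have h1 := MvPolynomial.comp_aeval_apply y
        ((Algebra.ofId R (MvPolynomial (Fin m × Fin q) R)).restrictScalars K) nd.θ
      exact h1.symm
    have hP : ∀ i, rename (fun k => (i, k)) (CQ_P (Bx i) fun l => d (VQ.u (i, l))) =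
        ∏ l, (∑ k', C (((Λ i).map (aeval (x i))).adjugate l k') *
          X (i, k') : MvPolynomial (Fin m × Fin q) R) ^ d (VQ.u (i, l)) := by
      intro i
      unfold CQ_P
      rw [map_prod, hBx]
      refine Finset.prod_congr rfl fun l _ => ?_
      rw [map_pow, map_sum]
      congr 1
      refine Finset.sum_congr rfl fun k' _ => ?_
      rw [map_mul, rename_C, rename_X]
    rw [aeval_monomial, Finsupp.prod_fintype _ _ (fun i => pow_zero _), CQ_prod']
    simp only [Finsupp.equivFunOnFinite_symm_apply_apply]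
    have h1 : ∀ a, vM nd (fun a => (C (Y a) : MvPolynomial (Fin m × Fin q) R))
        (fun i a => C (η i a)) (fun p => ∑ k', C (((Λ p.1).map (aeval (x p.1))).adjugate p.2 k') *
          X (p.1, k')) (VQ.x a) = C (lf (nd.l a.succ) Y) := fun a => hlf _ _
    have h2 : ∀ i, vM nd (fun a => (C (Y a) : MvPolynomial (Fin m × Fin q) R))
        (fun i a => C (η i a)) (fun p => ∑ k', C (((Λ p.1).map (aeval (x p.1))).adjugate p.2 k') *
          X (p.1, k')) (VQ.th i) = C (aeval (η i) nd.θ) := fun i => hth _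
    have h3 : ∀ p : Fin m × Fin n, vM nd (fun a => (C (Y a) : MvPolynomial (Fin m × Fin q) R))
        (fun i a => C (η i a)) (fun p => ∑ k', C (((Λ p.1).map (aeval (x p.1))).adjugate p.2 k') *
          X (p.1, k')) (VQ.z p) = C (lf (nd.l p.2.succ) (η p.1)) := fun p => hlf _ _
    have h4 : ∀ p : Fin m × Fin q, vM nd (fun a => (C (Y a) : MvPolynomial (Fin m × Fin q) R))
        (fun i a => C (η i a)) (fun p => ∑ k', C (((Λ p.1).map (aeval (x p.1))).adjugate p.2 k') *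
          X (p.1, k')) (VQ.u p) = ∑ k', C (((Λ p.1).map (aeval (x p.1))).adjugate p.2 k') *
          X (p.1, k') := fun p => rfl
    simp only [h1, h2, h3, h4, hP]
    have h5 : algebraMap K (MvPolynomial (Fin m × Fin q) R) (c d) = C (algebraMap K R (c d)) := rfl
    rw [h5]
    simp only [← map_pow, ← map_prod, Finset.prod_mul_distrib, map_mul]
    ring
  have hcoeff : ∀ d ∈ S, coeff w (aeval (vM nd
      (fun a => (C (Y a) : MvPolynomial (Fin m × Fin q) R))
      (fun i a => C (η i a)) fun p => ∑ k', C (((Λ p.1).map (aeval (x p.1))).adjugate p.2 k') *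
          X (p.1, k'))
      (monomial (Finsupp.equivFunOnFinite.symm d) (c d))) =
      algebraMap K R (c d) * ((∏ a : Fin n, lf (nd.l a.succ) Y ^ d (VQ.x a)) *
        ∏ i, (aeval (η i) nd.θ ^ d (VQ.th i) *
          ∏ a : Fin n, lf (nd.l a.succ) (η i) ^ d (VQ.z (i, a)))) *
        ∏ i, coeff (Finsupp.equivFunOnFinite.symm fun k => w (i, k))
          (CQ_P (Bx i) fun l => d (VQ.u (i, l))) := by
    intro d _
    rw [hval, coeff_C_mul, CQ_coeff_prod]
  unfold CQ_F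
  rw [map_sum, coeff_sum, Finset.sum_congr rfl hcoeff]
  by_cases hwκ : ∀ i, ∑ l, w (i, l) = κ i
  swap
  · push Not at hwκ
    obtain ⟨i, hi⟩ := hwκ
    refine Finset.sum_eq_zero fun d hd => ?_
    have h2 : ∏ i, coeff (Finsupp.equivFunOnFinite.symm fun k => w (i, k))
          (CQ_P (Bx i) fun l => d (VQ.u (i, l))) = 0 :=
      Finset.prod_eq_zero (Finset.mem_univ i) (CQ_P_coeff_zero _ _ _ (by
        rw [hS d hd i]
        exact hi))
    rw [h2, mul_zero]
  -- the factor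
  obtain ⟨G, hG⟩ : ∃ G : R, G = ∏ i, ((aeval (fun k : Fin n => lf (nd.l k.succ) (η i)) nd.δ ^ 2 *
      c' i) ^ D) ^ κ i := ⟨_, rfl⟩
  have hG0 : G ≠ 0 := by
    rw [hG]
    refine Finset.prod_ne_zero_iff.2 fun i _ => pow_ne_zero _ (pow_ne_zero _
      (mul_ne_zero (pow_ne_zero _ (hη i).2.2) (hc' i)))
  have h0 := CQ_sum_zero nd (hc (fun i l => w (i, l)) k hwκ hw) Y η hY.1 hY.2.1
    (fun i => (hη i).1) (fun i => (hη i).2.1)
  have h1 : G * ∑ d ∈ S,
      algebraMap K R (c d) * ((∏ a : Fin n, lf (nd.l a.succ) Y ^ d (VQ.x a)) *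
        ∏ i, (aeval (η i) nd.θ ^ d (VQ.th i) *
          ∏ a : Fin n, lf (nd.l a.succ) (η i) ^ d (VQ.z (i, a)))) *
        ∏ i, coeff (Finsupp.equivFunOnFinite.symm fun k => w (i, k))
          (CQ_P (Bx i) fun l => d (VQ.u (i, l))) = 0 := by
    rw [← h0, Finset.mul_sum]
    refine Finset.sum_congr rfl fun d hd => ?_
    have h2 : ∀ i, aeval (Sum.elim Y (C_u nd (η i)))
        (CQ_BP A (j i) ((Λ i).adjugate) (fun l => w (i, l)) (fun l => d (VQ.u (i, l)))
          (d (VQ.th i))) =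
        ((aeval (fun k : Fin n => lf (nd.l k.succ) (η i)) nd.δ ^ 2 * c' i) ^ D) ^ κ i *
          coeff (Finsupp.equivFunOnFinite.symm fun k => w (i, k))
            (CQ_P (Bx i) fun l => d (VQ.u (i, l))) * aeval (η i) nd.θ ^ d (VQ.th i) := by
      intro i
      have h3 := CQ_BP_eval nd Y (η i) (x i) (c' i) (hΛ i) (hrow i) (fun l => w (i, l))
        (fun l => d (VQ.u (i, l))) (d (VQ.th i))
      rw [hS d hd i, hBx' i] at h3
      exact h3
    simp only [h2, hG, Finset.prod_mul_distrib]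
    ring
  exact (mul_eq_zero.1 h1).resolve_left hG0

end

end Pool.Agent.Lib.MP_17a322_nt.SL
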