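import Pool.Agent.Lib.MP_17a322_nt.SL.CB
import Pool.Agent.Lib.MP_17a322_nt.VP.CF

/-!
The subspace theorem with moving targets over abelian varieties, part C: degrees and sizes of the block
polynomials, the entries of the matrix of the linear equations.
-/

universe u

namespace Pool.Agent.Lib.MP_17a322_nt.SL

open MvPolynomial Height
open Pool.Agent.Lib.MP_17a322_nt.RO
open Pool.Agent.Lib.MP_17a322_nt.VJ
open Pool.Agent.Lib.MP_17a322_nt.VN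
open Pool.Agent.Lib.MP_17a322_nt.VA
open Pool.Agent.Lib.MP_17a322_nt.VP

section

variable {K : Type u} [Field K] {N : ℕ} {A : AV K N} {n e₀ : ℕ} (nd : Noe A n e₀) {q : ℕ}

/-! ### Degrees -/

theorem CQ_BP_BD {j κ D : ℕ} {B : Matrix (Fin q) (Fin q) (MvPolynomial (Fin (N + 1)) K)}
    (hB : ∀ l k, ∀ s ∈ (B l k).support, ∑ t, s t ≤ D) (w μ : Fin q → ℕ) (ρ : ℕ)
    (hμ : ∑ l, μ l = κ) : BD (CQ_BP A j B w μ ρ) (κ * (D * (2 * 4 ^ j))) (κ * (D * 2) + ρ) := by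
  unfold CQ_BP
  have h1 := CQ_P_BD (B.map (aeval (C_V A j))) (a := D * (2 * 4 ^ j)) (b := D * 2)
    (fun l k => C_BD_aeval (hB l k) (C_V A j) (C_V_BD A j)) μ (Finsupp.equivFunOnFinite.symm w)
  have h3 : BD (X (Sum.inr (Fin.last (N + 1))) ^ ρ :
      MvPolynomial (Fin (N + 1) ⊕ Fin (N + 2)) K) (ρ * 0) (ρ * 1) :=
    (BD.X_inr (Fin.last (N + 1)) 0).pow ρ
  refine (h1.mul h3).mono ?_ ?_
  · rw [hμ, mul_zero, add_zero]
  · rw [hμ, mul_one]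

theorem CQ_GR_BD {j κ D : ℕ} {B : Matrix (Fin q) (Fin q) (MvPolynomial (Fin (N + 1)) K)}
    (hB : ∀ l k, ∀ s ∈ (B l k).support, ∑ t, s t ≤ D) (w μ : Fin q → ℕ) (ρ : ℕ)
    (hμ : ∑ l, μ l = κ) (ρ' : Fin (C_d nd + 1)) :
    BD (GR (C_T nd) (CQ_BP A j B w μ ρ) ρ') (κ * (D * (2 * 4 ^ j)))
      ((κ * (D * 2) + ρ) * C_D nd) :=
  GR_BD (C_T nd) (CQ_BP_BD hB w μ ρ hμ) (le_C_D nd) ρ'

theorem CQ_H_BD {j κ D : ℕ} {B : Matrix (Fin q) (Fin q) (MvPolynomial (Fin (N + 1)) K)}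
    (hB : ∀ l k, ∀ s ∈ (B l k).support, ∑ t, s t ≤ D) (w μ : Fin q → ℕ) (ρ : ℕ)
    (hμ : ∑ l, μ l = κ) (ρ' : Fin (C_d nd + 1)) (ν : Fin n → ℕ) :
    BD (CQ_H nd j B w ρ' ρ μ ν) (κ * (D * (2 * 4 ^ j)))
      (∑ a, ν a + (κ * (D * 2) + ρ) * C_D nd) := by
  unfold CQ_H
  refine ((C_mon_BD ν).mul (CQ_GR_BD nd hB w μ ρ hμ ρ')).mono ?_ le_rfl
  rw [zero_add]

theorem CQ_H_cz {j κ D : ℕ} {B : Matrix (Fin q) (Fin q) (MvPolynomial (Fin (N + 1)) K)}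
    (hB : ∀ l k, ∀ s ∈ (B l k).support, ∑ t, s t ≤ D) {w μ : Fin q → ℕ} {ρ : ℕ}
    (hμ : ∑ l, μ l = κ) {ρ' : Fin (C_d nd + 1)} {ν g : Fin n → ℕ}
    (h : cz (CQ_H nd j B w ρ' ρ μ ν) g ≠ 0) (t : Fin n) :
    g t ≤ ν t + (κ * (D * 2) + ρ) * C_D nd := by
  refine (C_degreeOf_cz h t).trans ?_
  unfold CQ_H
  refine (degreeOf_mul_le _ _ _).trans (Nat.add_le_add (C_degreeOf_mon ν t) ?_)
  exact C_degreeOf_BD (CQ_GR_BD nd hB w μ ρ hμ ρ') t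

/-! ### Sizes -/

theorem NVM_nonneg {L : Type*} [Field L] (v : AbsoluteValue L ℝ) {σ : Type*}
    (B : Matrix (Fin q) (Fin q) (MvPolynomial σ L)) : 0 ≤ NVM v B := by
  unfold NVM
  exact Real.iSup_nonneg fun p => A2_nonneg v _

theorem le_NVM {L : Type*} [Field L] (v : AbsoluteValue L ℝ) {σ : Type*}
    (B : Matrix (Fin q) (Fin q) (MvPolynomial σ L)) (l k : Fin q) : NV v (B l k) ≤ NVM v B :=
  le_ciSup (f := fun p : Fin q × Fin q => NV v (B p.1 p.2)) (Set.finite_range _).bddAbove (l, k)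

theorem exists_CQ_BP_NV (q D : ℕ) : ∃ E : SC K, ∀ (v : AbsoluteValue K ℝ) (j κ : ℕ)
    (B : Matrix (Fin q) (Fin q) (MvPolynomial (Fin (N + 1)) K)) (w μ : Fin q → ℕ) (ρ : ℕ),
    (∀ l k, ∀ s ∈ (B l k).support, ∑ t, s t ≤ D) → ∑ l, μ l = κ →
    NV v (CQ_BP A j B w μ ρ) ≤ E.k v ^ (κ * 4 ^ j) * max 1 (NVM v B) ^ κ := by
  obtain ⟨E₁, hE₁⟩ := exists_C_V_NV A
  obtain ⟨E₂, hE₂⟩ := (Adm_cst.{u, u} (K := K) (q + 1)).exists_SC
  refine ⟨E₂.mul (E₁.pw D), fun v j κ B w μ ρ hB hμ => ?_⟩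
  have hS := SN_NV v (σ := Fin (N + 1) ⊕ Fin (N + 2))
  have hS1 := SN_NV v (σ := Fin (N + 1))
  obtain ⟨R, hR⟩ : ∃ R, R = max 1 (NVM v B) := ⟨_, rfl⟩
  have hR1 : 1 ≤ R := by
    rw [hR]
    exact le_max_left _ _
  have hR0 : 0 ≤ R := zero_le_one.trans hR1
  rw [← hR]
  have e1 := E₁.one_le v
  have e2 := E₂.one_le v
  have hM : 1 ≤ E₁.k v ^ 4 ^ j := one_le_pow₀ e1
  obtain ⟨Q, hQ⟩ : ∃ Q, Q = R * (E₁.k v ^ 4 ^ j) ^ D := ⟨_, rfl⟩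
  have hQ1 : 1 ≤ Q := by
    rw [hQ]
    exact one_le_mul_of_one_le_of_one_le hR1 (one_le_pow₀ hM)
  have hQ0 : 0 ≤ Q := zero_le_one.trans hQ1
  have hval : ∀ l k, NV v ((B.map (aeval (C_V A j))) l k) ≤ Q := by
    intro l k
    rw [Matrix.map_apply]
    refine (SN_aeval_pow hS (B l k) (hB l k) _ hM fun t => hE₁ v j t).trans ?_
    rw [C_map_self, hQ]
    refine mul_le_mul_of_nonneg_right ?_ (pow_nonneg (zero_le_one.trans hM) _)
    rw [hR]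
    exact (le_NVM v B l k).trans (le_max_right _ _)
  have h4 : NV v (X (Sum.inr (Fin.last (N + 1))) ^ ρ :
      MvPolynomial (Fin (N + 1) ⊕ Fin (N + 2)) K) ≤ 1 := by
    refine (hS.pow_le _ _).trans ?_
    show NV v (X _ : MvPolynomial (Fin (N + 1) ⊕ Fin (N + 2)) K) ^ ρ ≤ 1
    rw [NV_X, one_pow]
  have h5 := CQ_P_NV v (B.map (aeval (C_V A j))) hQ0 hval μ (Finsupp.equivFunOnFinite.symm w)
  rw [hμ] at h5
  unfold CQ_BP
  refine (hS.mul _ _).trans ?_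
  refine (mul_le_of_le_one_right (hS.nonneg _) h4).trans ?_
  refine h5.trans ?_
  have hcq : cst v q ≤ E₂.k v := (cst_mono v (Nat.le_succ q)).trans (hE₂ K v)
  have h6 : cst v q ^ κ ≤ (E₂.k v) ^ (κ * 4 ^ j) := by
    refine (pow_le_pow_left₀ (cst_nonneg v q) hcq _).trans (pow_le_pow_right₀ e2 ?_)
    exact Nat.le_mul_of_pos_right κ (by positivity)
  have h7 : Q ^ κ = (E₁.k v ^ D) ^ (κ * 4 ^ j) * R ^ κ := by
    rw [hQ, mul_pow, ← pow_mul, ← pow_mul, ← pow_mul, mul_comm]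
    congr 2
    ring
  rw [mul_pow, h7, ← mul_assoc]
  refine mul_le_mul_of_nonneg_right ?_ (pow_nonneg hR0 _)
  refine (mul_le_mul_of_nonneg_right h6 (by positivity)).trans ?_
  rw [← mul_pow]
  refine pow_le_pow_left₀ (by positivity) ?_ _
  exact (mul_le_mul_of_nonneg_left (E₁.pow_le D v) (zero_le_one.trans e2)).trans
    (E₂.mul_le (E₁.pw D) v)

theorem exists_CQ_H_NV (q D : ℕ) : ∃ E : SC K, ∀ (v : AbsoluteValue K ℝ) (j κ : ℕ)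
    (B : Matrix (Fin q) (Fin q) (MvPolynomial (Fin (N + 1)) K)) (w : Fin q → ℕ)
    (ρ' : Fin (C_d nd + 1)) (ρ : ℕ) (μ : Fin q → ℕ) (ν : Fin n → ℕ),
    (∀ l k, ∀ s ∈ (B l k).support, ∑ t, s t ≤ D) → ∑ l, μ l = κ → ρ ≤ C_d nd → 1 ≤ κ →
    NV v (CQ_H nd j B w ρ' ρ μ ν) ≤ E.k v ^ (κ * 4 ^ j) * max 1 (NVM v B) ^ κ := by
  obtain ⟨E₁, hE₁⟩ := exists_CQ_BP_NV (A := A) q D
  obtain ⟨E₂, hE₂⟩ := C7_fam (fun p : Fin (N + 2) × Fin (C_d nd + 1) × Fin (C_d nd + 1) =>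
    C_T nd p.1 p.2.1 p.2.2)
  obtain ⟨E₃, hE₃⟩ := (Adm_cst.{u, u} (K := K) (C_d nd + 1)).exists_SC
  refine ⟨E₁.mul ((E₃.mul E₂).pw (D * 2 + C_d nd)), fun v j κ B w ρ' ρ μ ν hB hμ hρ hκ => ?_⟩
  have hS := SN_NV v (σ := Fin (N + 1) ⊕ Fin n)
  have e1 := E₁.one_le v
  have e2 := E₂.one_le v
  have e3 := E₃.one_le v
  have hc1 : 1 ≤ cst v (C_d nd + 1) := one_le_cst v (Nat.succ_pos _)
  obtain ⟨R, hR⟩ : ∃ R, R = max 1 (NVM v B) := ⟨_, rfl⟩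
  have hR1 : 1 ≤ R := by
    rw [hR]
    exact le_max_left _ _
  obtain ⟨Q, hQ⟩ : ∃ Q : ℝ, Q = cst v (C_d nd + 1) * E₂.k v := ⟨_, rfl⟩
  have hQ1 : 1 ≤ Q := by
    rw [hQ]
    exact one_le_mul_of_one_le_of_one_le hc1 e2
  have hQE : Q ≤ (E₃.mul E₂).k v := by
    rw [hQ]
    exact (mul_le_mul_of_nonneg_right (hE₃ K v) (zero_le_one.trans e2)).trans (SC.mul_le _ _ v)
  have h1 := hE₁ v j κ B w μ ρ hB hμ
  rw [← hR] at h1 ⊢
  have h2 := GR_NV v (C_T nd) (CQ_BP_BD (A := A) (j := j) hB w μ ρ hμ) e2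
    (fun j' l' m' => by
      have h3 := hE₂ (j', l', m') K v
      rw [C_map_self] at h3
      exact h3) ρ'
  rw [← hQ] at h2
  have h3 : NV v (∏ a, (X (Sum.inr a) : MvPolynomial (Fin (N + 1) ⊕ Fin n) K) ^ ν a) ≤ 1 := by
    refine (hS.prod_le Finset.univ _).trans ?_
    refine Finset.prod_le_one (fun t _ => hS.nonneg _) fun t _ => ?_
    refine (hS.pow_le _ _).trans ?_
    show NV v (X _ : MvPolynomial (Fin (N + 1) ⊕ Fin n) K) ^ _ ≤ 1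
    rw [NV_X, one_pow]
  unfold CQ_H
  refine (hS.mul _ _).trans ?_
  refine (mul_le_of_le_one_left (hS.nonneg _) h3).trans ?_
  refine h2.trans ?_
  have h4 : Q ^ (κ * (D * 2) + ρ) ≤ ((E₃.mul E₂).pw (D * 2 + C_d nd)).k v ^ (κ * 4 ^ j) := by
    have h5 : κ * (D * 2) + ρ ≤ (D * 2 + C_d nd) * (κ * 4 ^ j) := by
      have h6 : 1 ≤ 4 ^ j := Nat.one_le_pow _ _ (by norm_num)
      calc κ * (D * 2) + ρ ≤ κ * (D * 2) + C_d nd * κ :=
            Nat.add_le_add_left (hρ.trans (Nat.le_mul_of_pos_right _ hκ)) _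
        _ = (D * 2 + C_d nd) * κ := by ring
        _ ≤ (D * 2 + C_d nd) * (κ * 4 ^ j) :=
            Nat.mul_le_mul_left _ (Nat.le_mul_of_pos_right κ h6)
    refine (pow_le_pow_right₀ hQ1 h5).trans ?_
    rw [pow_mul]
    refine pow_le_pow_left₀ (by positivity) ?_ _
    exact (pow_le_pow_left₀ (zero_le_one.trans hQ1) hQE _).trans (SC.pow_le _ _ v)
  have hE0 : 0 ≤ E₁.k v ^ (κ * 4 ^ j) * R ^ κ := by positivity
  calc NV v (CQ_BP A j B w μ ρ) * Q ^ (κ * (D * 2) + ρ) ≤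
        (E₁.k v ^ (κ * 4 ^ j) * R ^ κ) *
          ((E₃.mul E₂).pw (D * 2 + C_d nd)).k v ^ (κ * 4 ^ j) :=
        mul_le_mul h1 h4 (by positivity) hE0
    _ = (E₁.k v * ((E₃.mul E₂).pw (D * 2 + C_d nd)).k v) ^ (κ * 4 ^ j) * R ^ κ := by
        rw [mul_pow]
        ring
    _ ≤ _ := by
        refine mul_le_mul_of_nonneg_right ?_ (by positivity)
        exact pow_le_pow_left₀ (mul_nonneg (zero_le_one.trans e1) (SC.pos _ v).le)
          (SC.mul_le _ _ v) _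

end

/-! ### The entries of the matrix -/

/-- The bounds for the degrees. -/
def CQ_Bd {m : ℕ} (n q Nx M₀ g J : ℕ) (j : Fin m → ℕ) : VQ m n q → ℕ
  | VQ.x _ => Nx * 4 ^ J
  | VQ.th _ => g
  | VQ.z p => M₀ * 4 ^ (J - j p.1)
  | VQ.u p => 4 ^ (J - j p.1)

section

variable {K : Type u} [Field K] {N : ℕ} {A : AV K N} {n e₀ : ℕ} (nd : Noe A n e₀) {q : ℕ}

theorem CQ_MC_zero {D Nx M₀ J m : ℕ} {j : Fin m → ℕ} (hj : ∀ i, j i ≤ J)
    {B : Fin m → Matrix (Fin q) (Fin q) (MvPolynomial (Fin (N + 1)) K)}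
    (hB : ∀ i l k, ∀ s ∈ (B i l k).support, ∑ t, s t ≤ D) {w : Fin m → Fin q → ℕ}
    {r' : Fin (e₀ + 1)} {ρ' : Fin m → Fin (C_d nd + 1)} {q₀ : Fin n → ℕ}
    {g : Fin m → Fin n → ℕ} {d : VQ m n q → ℕ}
    (hd : ∀ t, d t ≤ CQ_Bd n q Nx M₀ (C_d nd) J j t)
    (hdu : ∀ i, ∑ l, d (VQ.u (i, l)) = 4 ^ (J - j i))
    (h : CQ_MC nd j B w r' ρ' q₀ g d ≠ 0) :
    q₀ ∈ box (fun _ : Fin n => (Nx + 2 * D * nd.DM * m) * 4 ^ J + 1) ∧
      g ∈ BB (fun i : Fin m => (M₀ + (2 * D + C_d nd) * C_D nd) * 4 ^ (J - j i) + 1) := by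
  classical
  have hdx : ∀ a, d (VQ.x a) ≤ Nx * 4 ^ J := fun a => hd (VQ.x a)
  have hdt : ∀ i, d (VQ.th i) ≤ C_d nd := fun i => hd (VQ.th i)
  have hdz : ∀ i a, d (VQ.z (i, a)) ≤ M₀ * 4 ^ (J - j i) := fun i a => hd (VQ.z (i, a))
  have hbj : ∀ i, 4 ^ (J - j i) * 4 ^ j i = 4 ^ J := by
    intro i
    rw [← pow_add, Nat.sub_add_cancel (hj i)]
  have hBD : ∀ i, BD (CQ_H nd (j i) (B i) (w i) (ρ' i) (d (VQ.th i)) (fun l => d (VQ.u (i, l)))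
      fun a => d (VQ.z (i, a))) (D * (2 * 4 ^ J))
      (∑ a, d (VQ.z (i, a)) + (4 ^ (J - j i) * (D * 2) + d (VQ.th i)) * C_D nd) := by
    intro i
    refine (CQ_H_BD nd (hB i) (w i) (fun l => d (VQ.u (i, l))) (d (VQ.th i)) (hdu i) (ρ' i) _).mono
      ?_ le_rfl
    rw [← hbj i]
    exact le_of_eq (by ring)
  obtain ⟨P, hP⟩ : ∃ P : MvPolynomial (Fin (N + 1)) K,
    P = ∏ i, cz (CQ_H nd (j i) (B i) (w i) (ρ' i) (d (VQ.th i)) (fun l => d (VQ.u (i, l)))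
      fun a => d (VQ.z (i, a))) (g i) := ⟨_, rfl⟩
  unfold CQ_MC at h
  rw [← hP] at h
  have hP0 : P ≠ 0 := by
    intro h0
    rw [h0, VDA.J2_RR_zero, mul_zero, coeff_zero] at h
    exact h rfl
  have hcz : ∀ i, cz (CQ_H nd (j i) (B i) (w i) (ρ' i) (d (VQ.th i)) (fun l => d (VQ.u (i, l)))
      fun a => d (VQ.z (i, a))) (g i) ≠ 0 := by
    intro i
    rw [hP] at hP0
    exact Finset.prod_ne_zero_iff.1 hP0 i (Finset.mem_univ i)
  refine ⟨(mem_box _ _).2 fun t => ?_, (mem_BB _ _).2 fun i t => ?_⟩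
  · have h1 := monomial_le_degreeOf t (mem_support_iff.2 h)
    have h2 : (Finsupp.equivFunOnFinite.symm q₀ : Fin n →₀ ℕ) t = q₀ t := rfl
    rw [h2] at h1
    have h3 : degreeOf t (∏ t, (X t : MvPolynomial (Fin n) K) ^ d (VQ.x t)) ≤ d (VQ.x t) := by
      refine (degreeOf_prod_le _ _ _).trans ?_
      rw [Finset.sum_eq_single t]
      · exact C05_degX _ _ _ _ fun _ => le_rfl
      · intro t' _ ht'
        exact Nat.le_zero.1 (C05_degX _ _ _ _ fun h => absurd h.symm ht')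
      · intro h
        exact absurd (Finset.mem_univ t) h
    have h4 : P.totalDegree ≤ m * (D * (2 * 4 ^ J)) := by
      rw [hP]
      refine (totalDegree_finsetProd _ _).trans ?_
      refine (Finset.sum_le_card_nsmul Finset.univ _ (D * (2 * 4 ^ J))
        fun i _ => VDA.J2_total_le _ (cz_support (hBD i) (g i))).trans (le_of_eq ?_)
      rw [Finset.card_univ, Fintype.card_fin, smul_eq_mul]
    have h5 := RR_total nd.Mx (C7_total P h4) (le_DM nd) r'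
    have h6 : degreeOf t (RR nd.Mx P r') ≤ m * (D * (2 * 4 ^ J)) * nd.DM :=
      (degreeOf_le_totalDegree _ _).trans h5
    have h7 := h1.trans (degreeOf_mul_le _ _ _)
    have h8 := hdx t
    have h9 : (Nx + 2 * D * nd.DM * m) * 4 ^ J = Nx * 4 ^ J + m * (D * (2 * 4 ^ J)) * nd.DM := by
      ring
    rw [h9]
    omega
  · have h1 := CQ_H_cz nd (hB i) (hdu i) (hcz i) t
    have h2 := hdz i t
    have h3 := hdt i
    have h4 : 1 ≤ 4 ^ (J - j i) := Nat.one_le_pow _ _ (by norm_num)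
    have h5 : (4 ^ (J - j i) * (D * 2) + d (VQ.th i)) * C_D nd ≤
        ((2 * D + C_d nd) * C_D nd) * 4 ^ (J - j i) := by
      calc (4 ^ (J - j i) * (D * 2) + d (VQ.th i)) * C_D nd ≤
            (4 ^ (J - j i) * (D * 2) + C_d nd * 4 ^ (J - j i)) * C_D nd :=
            Nat.mul_le_mul_right _ (Nat.add_le_add_left
              (h3.trans (Nat.le_mul_of_pos_right _ h4)) _)
        _ = ((2 * D + C_d nd) * C_D nd) * 4 ^ (J - j i) := by ring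
    have h6 : (M₀ + (2 * D + C_d nd) * C_D nd) * 4 ^ (J - j i) =
        M₀ * 4 ^ (J - j i) + ((2 * D + C_d nd) * C_D nd) * 4 ^ (J - j i) := by ring
    rw [h6]
    have h7 : g i t ≤ d (VQ.z (i, t)) +
      (4 ^ (J - j i) * (D * 2) + d (VQ.th i)) * C_D nd := h1
    omega

theorem exists_CQ_MC_le (q D : ℕ) : ∃ E : SC K, ∀ (v : AbsoluteValue K ℝ) {m : ℕ}
    (j κ : Fin m → ℕ) (B : Fin m → Matrix (Fin q) (Fin q) (MvPolynomial (Fin (N + 1)) K))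
    (w : Fin m → Fin q → ℕ) (r' : Fin (e₀ + 1)) (ρ' : Fin m → Fin (C_d nd + 1)) (q₀ : Fin n → ℕ)
    (g : Fin m → Fin n → ℕ) (d : VQ m n q → ℕ),
    (∀ i l k, ∀ s ∈ (B i l k).support, ∑ t, s t ≤ D) → (∀ i, ∑ l, d (VQ.u (i, l)) = κ i) →
    (∀ i, d (VQ.th i) ≤ C_d nd) → (∀ i, 1 ≤ κ i) →
    v (CQ_MC nd j B w r' ρ' q₀ g d) ≤ ∏ i, (E.k v ^ (κ i * 4 ^ j i) *
      max 1 (NVM v (B i)) ^ κ i) := by
  classical
  obtain ⟨E1, hE1⟩ := exists_CQ_H_NV nd q D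
  obtain ⟨E2, hE2⟩ := C7_fam (fun p : Fin (N + 1) × Fin (e₀ + 1) × Fin (e₀ + 1) =>
    nd.Mx p.1 p.2.1 p.2.2)
  obtain ⟨E3, hE3⟩ := (Adm_cst.{u, u} (K := K) (e₀ + 1)).exists_SC
  refine ⟨E1.mul ((E3.mul E2).pw (D * 2)),
    fun v m j κ B w r' ρ' q₀ g d hB hdu hdt hκ => ?_⟩
  have hS := SN_NV v (σ := Fin n)
  have hS' := SN_NV v (σ := Fin (N + 1))
  have e1 : 1 ≤ E1.k v := E1.one_le v
  have e2 : 1 ≤ E2.k v := E2.one_le v
  have hc1 : 1 ≤ cst v (e₀ + 1) := one_le_cst v (Nat.succ_pos _)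
  obtain ⟨Q, hQ⟩ : ∃ Q : ℝ, Q = cst v (e₀ + 1) * E2.k v := ⟨_, rfl⟩
  have hQ1 : 1 ≤ Q := by
    rw [hQ]
    exact one_le_mul_of_one_le_of_one_le hc1 e2
  have hQ0 : 0 ≤ Q := zero_le_one.trans hQ1
  have hQE : Q ^ (D * 2) ≤ ((E3.mul E2).pw (D * 2)).k v := by
    refine (pow_le_pow_left₀ hQ0 ?_ _).trans (SC.pow_le _ _ v)
    rw [hQ]
    exact (mul_le_mul_of_nonneg_right (hE3 K v) (zero_le_one.trans e2)).trans (SC.mul_le _ _ v)
  have hM : ∀ (j' : Fin (N + 1)) (l' m' : Fin (e₀ + 1)), NV v (nd.Mx j' l' m') ≤ E2.k v := by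
    intro j' l' m'
    have h1 := hE2 (j', l', m') K v
    rw [C_map_self] at h1
    exact h1
  obtain ⟨R, hR⟩ : ∃ R : Fin m → ℝ, R = fun i => max 1 (NVM v (B i)) := ⟨_, rfl⟩
  have hR1 : ∀ i, 1 ≤ R i := by
    intro i
    rw [hR]
    exact le_max_left _ _
  have hRi : ∀ i, max 1 (NVM v (B i)) = R i := by
    intro i
    rw [hR]
  simp only [hRi]
  obtain ⟨P, hP⟩ : ∃ P : MvPolynomial (Fin (N + 1)) K,
    P = ∏ i, cz (CQ_H nd (j i) (B i) (w i) (ρ' i) (d (VQ.th i)) (fun l => d (VQ.u (i, l)))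
      fun a => d (VQ.z (i, a))) (g i) := ⟨_, rfl⟩
  unfold CQ_MC
  rw [← hP]
  refine (coeff_le_NV v _ _).trans ?_
  have h5 : NV v (∏ t, (X t : MvPolynomial (Fin n) K) ^ d (VQ.x t)) ≤ 1 := by
    refine (hS.prod_le Finset.univ _).trans ?_
    refine Finset.prod_le_one (fun t _ => hS.nonneg _) fun t _ => ?_
    refine (hS.pow_le _ _).trans ?_
    show NV v (X t : MvPolynomial (Fin n) K) ^ _ ≤ 1
    rw [NV_X, one_pow]
  have h4 : P.totalDegree ≤ ∑ i, κ i * (D * (2 * 4 ^ j i)) := by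
    rw [hP]
    refine (totalDegree_finsetProd _ _).trans (Finset.sum_le_sum fun i _ => ?_)
    exact VDA.J2_total_le _ (cz_support (CQ_H_BD nd (hB i) (w i) (fun l => d (VQ.u (i, l)))
      (d (VQ.th i)) (hdu i) (ρ' i) _) (g i))
  have h6 := RR_NV v nd.Mx (C7_total P h4) e2 hM r'
  have h7 : NV v P ≤ ∏ i, (E1.k v ^ (κ i * 4 ^ j i) * R i ^ κ i) := by
    rw [hP]
    refine (hS'.prod_le Finset.univ _).trans ?_
    refine Finset.prod_le_prod (fun i _ => hS'.nonneg _) fun i _ => ?_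
    refine (cz_NV v _ _).trans ?_
    have h8 := hE1 v (j i) (κ i) (B i) (w i) (ρ' i) (d (VQ.th i)) (fun l => d (VQ.u (i, l)))
      (fun a => d (VQ.z (i, a))) (hB i) (hdu i) (hdt i) (hκ i)
    rw [hRi] at h8
    exact h8
  calc NV v ((∏ t, X t ^ d (VQ.x t)) * RR nd.Mx P r')
      ≤ NV v (∏ t, (X t : MvPolynomial (Fin n) K) ^ d (VQ.x t)) * NV v (RR nd.Mx P r') :=
        hS.mul _ _
    _ ≤ 1 * NV v (RR nd.Mx P r') := mul_le_mul_of_nonneg_right h5 (hS.nonneg _)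
    _ = NV v (RR nd.Mx P r') := one_mul _
    _ ≤ NV v P * Q ^ (∑ i, κ i * (D * (2 * 4 ^ j i))) := by rw [hQ]; exact h6
    _ ≤ (∏ i, (E1.k v ^ (κ i * 4 ^ j i) * R i ^ κ i)) *
          ∏ i, Q ^ (κ i * (D * (2 * 4 ^ j i))) := by
        rw [Finset.prod_pow_eq_pow_sum]
        exact mul_le_mul_of_nonneg_right h7 (pow_nonneg hQ0 _)
    _ = ∏ i, ((E1.k v ^ (κ i * 4 ^ j i) * R i ^ κ i) * Q ^ (κ i * (D * (2 * 4 ^ j i)))) :=
        Finset.prod_mul_distrib.symm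
    _ ≤ ∏ i, ((E1.mul ((E3.mul E2).pw (D * 2))).k v ^ (κ i * 4 ^ j i) * R i ^ κ i) := by
        refine Finset.prod_le_prod (fun i _ => ?_) fun i _ => ?_
        · have h8 : 0 ≤ R i := zero_le_one.trans (hR1 i)
          positivity
        · have h8 : 0 ≤ R i ^ κ i := pow_nonneg (zero_le_one.trans (hR1 i)) _
          rw [mul_right_comm]
          refine mul_le_mul_of_nonneg_right ?_ h8
          have h9 : Q ^ (κ i * (D * (2 * 4 ^ j i))) = (Q ^ (D * 2)) ^ (κ i * 4 ^ j i) := by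
            rw [← pow_mul]
            congr 1
            ring
          rw [h9, ← mul_pow]
          refine pow_le_pow_left₀ (by positivity) ?_ _
          exact (mul_le_mul_of_nonneg_left hQE (zero_le_one.trans e1)).trans (SC.mul_le _ _ v)

end

end Pool.Agent.Lib.MP_17a322_nt.SL
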