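import Pool.Agent.Lib.MP_17a322_nt.VP.CG

/-!
The subspace theorem with moving targets over abelian varieties, part C: counting the linear equations.
-/

universe u

namespace Pool.Agent.Lib.MP_17a322_nt.SL

open Pool.Agent.Lib.MP_17a322_nt.VP

/-- The exponents of the monomials of degree `κ`. -/
abbrev CQ_W (q κ : ℕ) : Finset (Fin (q + 1) → ℕ) :=
  (Finset.univ : Finset (Fin (q + 1))).piAntidiag κ

theorem mem_CQ_W {q κ : ℕ} {w : Fin (q + 1) → ℕ} : w ∈ CQ_W q κ ↔ ∑ l, w l = κ := by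
  unfold CQ_W
  rw [Finset.mem_piAntidiag]
  exact ⟨fun h => h.1, fun h => ⟨h, fun i _ => Finset.mem_univ i⟩⟩

theorem CQ_W_le {q κ : ℕ} {w : Fin (q + 1) → ℕ} (hw : w ∈ CQ_W q κ) (k : Fin (q + 1)) :
    w k ≤ κ := by
  rw [← mem_CQ_W.1 hw]
  exact Finset.single_le_sum (f := fun l => w l) (fun _ _ => Nat.zero_le _) (Finset.mem_univ k)

theorem CQ_W_sum_eq (q κ : ℕ) (k k' : Fin (q + 1)) :
    ∑ w ∈ CQ_W q κ, (w k : ℝ) = ∑ w ∈ CQ_W q κ, (w k' : ℝ) := by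
  refine Finset.sum_nbij' (fun w => w ∘ Equiv.swap k k') (fun w => w ∘ Equiv.swap k k')
    (fun w hw => ?_) (fun w hw => ?_) (fun w _ => ?_) (fun w _ => ?_) fun w _ => ?_
  · rw [mem_CQ_W] at hw ⊢
    rw [← hw]
    exact Equiv.sum_comp (Equiv.swap k k') w
  · rw [mem_CQ_W] at hw ⊢
    rw [← hw]
    exact Equiv.sum_comp (Equiv.swap k k') w
  · funext l
    show w (Equiv.swap k k' (Equiv.swap k k' l)) = w l
    rw [Equiv.swap_apply_self]
  · funext l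
    show w (Equiv.swap k k' (Equiv.swap k k' l)) = w l
    rw [Equiv.swap_apply_self]
  · show (w k : ℝ) = (w (Equiv.swap k k' k') : ℝ)
    rw [Equiv.swap_apply_right]

theorem CQ_W_sum (q κ : ℕ) (k : Fin (q + 1)) :
    ∑ w ∈ CQ_W q κ, (w k : ℝ) = (CQ_W q κ).card * κ / (q + 1) := by
  have h1 : ∑ l : Fin (q + 1), ∑ w ∈ CQ_W q κ, (w l : ℝ) = (CQ_W q κ).card * κ := by
    rw [Finset.sum_comm]
    have h2 : ∀ w ∈ CQ_W q κ, ∑ l : Fin (q + 1), (w l : ℝ) = κ := by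
      intro w hw
      exact_mod_cast congrArg (fun x : ℕ => (x : ℝ)) (mem_CQ_W.1 hw)
    rw [Finset.sum_congr rfl h2, Finset.sum_const, nsmul_eq_mul]
  rw [Finset.sum_congr rfl fun l _ => CQ_W_sum_eq q κ l k, Finset.sum_const, Finset.card_univ,
    Fintype.card_fin, nsmul_eq_mul] at h1
  rw [eq_div_iff (by positivity), ← h1]
  push_cast
  ring

theorem CQ_exp_sum (q κ : ℕ) (hκ : 1 ≤ κ) (k : Fin (q + 1)) {t : ℝ} (ht0 : 0 ≤ t) (ht : t ≤ 1) :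
    ∑ w ∈ CQ_W q κ, Real.exp (t * (1 / (q + 1) - (w k : ℝ) / κ)) ≤
      (CQ_W q κ).card * Real.exp (t ^ 2) := by
  have hκ0 : (0 : ℝ) < κ := by exact_mod_cast hκ
  have hq0 : (0 : ℝ) < q + 1 := by positivity
  have h1 : ∀ w ∈ CQ_W q κ, Real.exp (t * (1 / (q + 1) - (w k : ℝ) / κ)) ≤
      1 + t * (1 / (q + 1) - (w k : ℝ) / κ) + t ^ 2 := by
    intro w hw
    have h2 : (w k : ℝ) ≤ κ := by exact_mod_cast CQ_W_le hw k
    have h3 : (w k : ℝ) / κ ≤ 1 := (div_le_one hκ0).2 h2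
    have h4 : 0 ≤ (w k : ℝ) / κ := by positivity
    have h5 : 1 / ((q : ℝ) + 1) ≤ 1 := by
      rw [div_le_one hq0]
      have : (0 : ℝ) ≤ q := Nat.cast_nonneg q
      linarith
    have h6 : 0 ≤ 1 / ((q : ℝ) + 1) := by positivity
    have h7 : |1 / ((q : ℝ) + 1) - (w k : ℝ) / κ| ≤ 1 := by
      rw [abs_le]
      constructor <;> linarith
    have h8 : |t * (1 / ((q : ℝ) + 1) - (w k : ℝ) / κ)| ≤ t := by
      rw [abs_mul, abs_of_nonneg ht0]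
      exact mul_le_of_le_one_right ht0 h7
    have h9 := Real.abs_exp_sub_one_sub_id_le (h8.trans ht)
    have h10 : (t * (1 / ((q : ℝ) + 1) - (w k : ℝ) / κ)) ^ 2 ≤ t ^ 2 := by
      rw [← sq_abs (t * (1 / ((q : ℝ) + 1) - (w k : ℝ) / κ))]
      exact pow_le_pow_left₀ (abs_nonneg _) h8 2
    have h11 := (abs_le.1 h9).2
    linarith
  refine (Finset.sum_le_sum h1).trans ?_
  have h2 : ∑ w ∈ CQ_W q κ, (1 + t * (1 / (q + 1) - (w k : ℝ) / κ) + t ^ 2) =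
      (CQ_W q κ).card * (1 + t ^ 2) := by
    have h3 : ∑ w ∈ CQ_W q κ, t * (1 / (q + 1) - (w k : ℝ) / κ) = 0 := by
      rw [← Finset.mul_sum, Finset.sum_sub_distrib, Finset.sum_const, nsmul_eq_mul,
        ← Finset.sum_div, CQ_W_sum]
      field_simp
      ring
    rw [Finset.sum_add_distrib, Finset.sum_add_distrib, h3, Finset.sum_const, Finset.sum_const,
      nsmul_eq_mul, nsmul_eq_mul]
    ring
  rw [h2]
  refine mul_le_mul_of_nonneg_left ?_ (Nat.cast_nonneg _)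
  have := Real.add_one_le_exp (t ^ 2)
  linarith

theorem CQ_hoeffding_one {m q : ℕ} (κ : Fin m → ℕ) (hκ : ∀ i, 1 ≤ κ i) (δ : ℝ) (hδ : 0 ≤ δ)
    (hδ1 : δ ≤ 1) (k : Fin (q + 1)) (S : Finset (Fin m → Fin (q + 1) → ℕ))
    (hS : ∀ w ∈ S, (∀ i, w i ∈ CQ_W q (κ i)) ∧
      (∑ i, (w i k : ℝ) / κ i) ≤ (1 / (q + 1) - δ) * m) :
    (S.card : ℝ) ≤ Real.exp (-(δ ^ 2 / 4 * m)) * ∏ i, ((CQ_W q (κ i)).card : ℝ) := by
  classical
  obtain ⟨t, ht⟩ : ∃ t, t = δ / 2 := ⟨_, rfl⟩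
  have ht0 : 0 ≤ t := by rw [ht]; positivity
  have ht1 : t ≤ 1 := by rw [ht]; linarith
  have h1 : ∀ w ∈ S, (1 : ℝ) ≤ Real.exp (-(t * δ * m)) *
      ∏ i, Real.exp (t * (1 / (q + 1) - (w i k : ℝ) / κ i)) := by
    intro w hw
    rw [← Real.exp_sum, ← Real.exp_add]
    refine Real.one_le_exp ?_
    rw [← Finset.mul_sum, Finset.sum_sub_distrib, Finset.sum_const, Finset.card_univ,
      Fintype.card_fin, nsmul_eq_mul]
    have h2 := mul_le_mul_of_nonneg_left (hS w hw).2 ht0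
    have h3 : t * ((m : ℝ) * (1 / (q + 1)) - ∑ i, (w i k : ℝ) / κ i) =
      t * ((m : ℝ) * (1 / (q + 1))) - t * ∑ i, (w i k : ℝ) / κ i := by ring
    have h4 : t * ((1 / ((q : ℝ) + 1) - δ) * m) = t * ((m : ℝ) * (1 / (q + 1))) - t * δ * m := by
      ring
    rw [h3]
    rw [h4] at h2
    linarith
  have h2 : (S.card : ℝ) ≤ ∑ w ∈ S, Real.exp (-(t * δ * m)) *
      ∏ i, Real.exp (t * (1 / (q + 1) - (w i k : ℝ) / κ i)) := by
    have := Finset.sum_le_sum h1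
    rw [Finset.sum_const, nsmul_eq_mul, mul_one] at this
    exact this
  have h3 : ∑ w ∈ S, Real.exp (-(t * δ * m)) *
      ∏ i, Real.exp (t * (1 / (q + 1) - (w i k : ℝ) / κ i)) ≤
      ∑ w ∈ Fintype.piFinset fun i => CQ_W q (κ i), Real.exp (-(t * δ * m)) *
      ∏ i, Real.exp (t * (1 / (q + 1) - (w i k : ℝ) / κ i)) := by
    refine Finset.sum_le_sum_of_subset_of_nonneg (fun w hw => ?_) fun w _ _ => by positivity
    rw [Fintype.mem_piFinset]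
    exact (hS w hw).1
  have h4 := Finset.prod_univ_sum (fun i : Fin m => CQ_W q (κ i))
    (fun i w => Real.exp (t * (1 / (q + 1) - (w k : ℝ) / κ i)))
  rw [← Finset.mul_sum (Fintype.piFinset fun i => CQ_W q (κ i)), ← h4] at h3
  refine h2.trans (h3.trans ?_)
  have h5 : ∏ i, ∑ w ∈ CQ_W q (κ i), Real.exp (t * (1 / (q + 1) - (w k : ℝ) / κ i)) ≤
      ∏ i, (((CQ_W q (κ i)).card : ℝ) * Real.exp (t ^ 2)) :=
    Finset.prod_le_prod (fun i _ => Finset.sum_nonneg fun k _ => (Real.exp_pos _).le)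
      fun i _ => CQ_exp_sum q (κ i) (hκ i) k ht0 ht1
  rw [Finset.prod_mul_distrib, Finset.prod_const, Finset.card_univ, Fintype.card_fin,
    ← Real.exp_nat_mul] at h5
  refine (mul_le_mul_of_nonneg_left h5 (Real.exp_pos _).le).trans (le_of_eq ?_)
  rw [mul_left_comm, ← Real.exp_add, mul_comm, ht]
  congr 2
  ring

theorem CQ_hoeffding {m q : ℕ} (κ : Fin m → ℕ) (hκ : ∀ i, 1 ≤ κ i) (δ : ℝ) (hδ : 0 ≤ δ)
    (hδ1 : δ ≤ 1) (S : Finset (Fin m → Fin (q + 1) → ℕ))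
    (hS : ∀ w ∈ S, (∀ i, w i ∈ CQ_W q (κ i)) ∧
      ∃ k, (∑ i, (w i k : ℝ) / κ i) ≤ (1 / (q + 1) - δ) * m) :
    (S.card : ℝ) ≤ (q + 1) * (Real.exp (-(δ ^ 2 / 4 * m)) *
      ∏ i, ((CQ_W q (κ i)).card : ℝ)) := by
  classical
  have h1 : S ⊆ Finset.univ.biUnion fun k : Fin (q + 1) =>
      S.filter fun w => (∑ i, (w i k : ℝ) / κ i) ≤ (1 / (q + 1) - δ) * m := by
    intro w hw
    rw [Finset.mem_biUnion]
    obtain ⟨k, hk⟩ := (hS w hw).2
    exact ⟨k, Finset.mem_univ k, Finset.mem_filter.2 ⟨hw, hk⟩⟩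
  have h2 := (Finset.card_le_card h1).trans Finset.card_biUnion_le
  have h3 : (S.card : ℝ) ≤ ∑ k : Fin (q + 1),
      ((S.filter fun w => (∑ i, (w i k : ℝ) / κ i) ≤ (1 / (q + 1) - δ) * m).card : ℝ) := by
    exact_mod_cast h2
  refine h3.trans ((Finset.sum_le_sum fun k _ => CQ_hoeffding_one κ hκ δ hδ hδ1 k _
    fun w hw => ?_).trans (le_of_eq ?_))
  · rw [Finset.mem_filter] at hw
    exact ⟨(hS w hw.1).1, hw.2⟩
  · rw [Finset.sum_const, Finset.card_univ, Fintype.card_fin, nsmul_eq_mul]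
    push_cast
    ring

theorem CQ_count (r g e n c c' q : ℕ) (δ ε : ℝ) (hδ : 0 < δ) (hε : 0 < ε) :
    ∃ m₀ : ℕ, ∀ m : ℕ, m₀ ≤ m → 0 < m → ∀ Nx : ℕ, ε * m / 2 ≤ Nx → ∀ (J : ℕ) (j : Fin m → ℕ)
      (L W U : ℕ), (L : ℝ) ≤ (q + 1) * (Real.exp (-(δ ^ 2 / 4 * m)) * W) → W ≤ 2 * U →
      2 * (r * (e * (g ^ m * (((Nx + c' * m) * 4 ^ J + 1) ^ n *
        ((∏ i, (((c * n * m + 1) + c) * 4 ^ (J - j i) + 1) ^ n) * L))))) ≤
      (Nx * 4 ^ J + 1) ^ n * (g ^ m * ((∏ i, ((c * n * m + 1) * 4 ^ (J - j i) + 1) ^ n) * U)) := by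
  obtain ⟨ρ, hρ⟩ : ∃ ρ : ℝ, ρ = 1 + 2 * c' / ε := ⟨_, rfl⟩
  have hρ1 : 1 ≤ ρ := by
    rw [hρ]
    have : 0 ≤ 2 * (c' : ℝ) / ε := by positivity
    linarith
  have hρ0 : 0 < ρ := by linarith
  obtain ⟨G, hG⟩ : ∃ G : ℝ, G = 4 * r * e * ρ ^ n * Real.exp 1 * (q + 1) := ⟨_, rfl⟩
  have hG0 : 0 ≤ G := by
    rw [hG]
    positivity
  obtain ⟨m₀, hm₀⟩ := exists_nat_gt (G / (δ ^ 2 / 4))
  refine ⟨m₀, fun m hm hm0 Nx hNx J j L W U hL hWU => ?_⟩
  have hm0' : (0 : ℝ) < m := by exact_mod_cast hm0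
  have hNx0 : (0 : ℝ) < Nx := lt_of_lt_of_le (by positivity) hNx
  have hGm : G * Real.exp (-(δ ^ 2 / 4 * m)) ≤ 1 := by
    have h1 : G ≤ δ ^ 2 / 4 * m := by
      have h2 : G / (δ ^ 2 / 4) ≤ m := hm₀.le.trans (by exact_mod_cast hm)
      rwa [div_le_iff₀ (by positivity), mul_comm] at h2
    have h3 : G ≤ Real.exp (δ ^ 2 / 4 * m) := by
      have := Real.add_one_le_exp (δ ^ 2 / 4 * (m : ℝ))
      linarith
    rw [Real.exp_neg, ← div_eq_mul_inv, div_le_one (Real.exp_pos _)]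
    exact h3
  have ha : (((Nx : ℝ) + c' * m) * 4 ^ J + 1) ^ n ≤ ρ ^ n * (Nx * 4 ^ J + 1) ^ n := by
    rw [← mul_pow]
    refine pow_le_pow_left₀ (by positivity) ?_ _
    refine (C_row hNx0 (c := (c' : ℝ) * m) (by positivity) ((4 : ℝ) ^ J)).trans ?_
    refine mul_le_mul_of_nonneg_right ?_ (by positivity)
    rw [hρ]
    have h1 : (c' : ℝ) * m / Nx ≤ 2 * c' / ε := by
      rw [div_le_div_iff₀ hNx0 hε]
      have h2 := mul_le_mul_of_nonneg_left hNx (show (0 : ℝ) ≤ 2 * c' by positivity)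
      calc (c' : ℝ) * m * ε = 2 * c' * (ε * m / 2) := by ring
        _ ≤ 2 * c' * Nx := h2
    linarith
  have hb : ∏ i, ((((c : ℝ) * n * m + 1) + c) * 4 ^ (J - j i) + 1) ^ n ≤
      Real.exp 1 * ∏ i, (((c : ℝ) * n * m + 1) * 4 ^ (J - j i) + 1) ^ n := by
    have hM : (0 : ℝ) < (c : ℝ) * n * m + 1 := by positivity
    have h1 : ∀ i, ((((c : ℝ) * n * m + 1) + c) * 4 ^ (J - j i) + 1) ^ n ≤
        (1 + c / ((c : ℝ) * n * m + 1)) ^ n *
          (((c : ℝ) * n * m + 1) * 4 ^ (J - j i) + 1) ^ n := by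
      intro i
      rw [← mul_pow]
      refine pow_le_pow_left₀ (by positivity) ?_ _
      exact C_row hM (Nat.cast_nonneg c) _
    refine (Finset.prod_le_prod (fun i _ => by positivity) fun i _ => h1 i).trans ?_
    rw [Finset.prod_mul_distrib, Finset.prod_const, Finset.card_univ, Fintype.card_fin]
    refine mul_le_mul_of_nonneg_right ?_ (Finset.prod_nonneg fun i _ => by positivity)
    rw [← pow_mul]
    have h2 : 1 + c / ((c : ℝ) * n * m + 1) ≤ Real.exp (c / ((c : ℝ) * n * m + 1)) := by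
      have := Real.add_one_le_exp (c / ((c : ℝ) * n * m + 1))
      linarith
    refine (pow_le_pow_left₀ (by positivity) h2 _).trans ?_
    rw [← Real.exp_nat_mul]
    refine Real.exp_le_exp.2 ?_
    push_cast
    rw [mul_div_assoc', div_le_one hM]
    have : (n : ℝ) * m * c = c * n * m := by ring
    linarith
  have hWU' : (W : ℝ) ≤ 2 * U := by exact_mod_cast hWU
  have hL' : (L : ℝ) ≤ (q + 1) * (Real.exp (-(δ ^ 2 / 4 * m)) * (2 * U)) := by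
    refine hL.trans ?_
    refine mul_le_mul_of_nonneg_left ?_ (by positivity)
    exact mul_le_mul_of_nonneg_left hWU' (Real.exp_pos _).le
  have hmain : (2 : ℝ) * (r * (e * (g ^ m * ((((Nx : ℝ) + c' * m) * 4 ^ J + 1) ^ n *
        ((∏ i, ((((c : ℝ) * n * m + 1) + c) * 4 ^ (J - j i) + 1) ^ n) * L))))) ≤
      (Nx * 4 ^ J + 1) ^ n * (g ^ m * ((∏ i, (((c : ℝ) * n * m + 1) * 4 ^ (J - j i) + 1) ^ n) *
        U)) := by
    have hP0 : 0 ≤ ∏ i, (((c : ℝ) * n * m + 1) * 4 ^ (J - j i) + 1) ^ n :=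
      Finset.prod_nonneg fun i _ => by positivity
    have hP1 : 0 ≤ ∏ i, ((((c : ℝ) * n * m + 1) + c) * 4 ^ (J - j i) + 1) ^ n :=
      Finset.prod_nonneg fun i _ => by positivity
    have h1 : (((Nx : ℝ) + c' * m) * 4 ^ J + 1) ^ n *
        ((∏ i, ((((c : ℝ) * n * m + 1) + c) * 4 ^ (J - j i) + 1) ^ n) * L) ≤
        (ρ ^ n * (Nx * 4 ^ J + 1) ^ n) *
          ((Real.exp 1 * ∏ i, (((c : ℝ) * n * m + 1) * 4 ^ (J - j i) + 1) ^ n) *
            ((q + 1) * (Real.exp (-(δ ^ 2 / 4 * m)) * (2 * U)))) := by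
      refine mul_le_mul ha (mul_le_mul hb hL' (Nat.cast_nonneg _) (by positivity))
        (mul_nonneg hP1 (Nat.cast_nonneg _)) (by positivity)
    have h2 : (0 : ℝ) ≤ 2 * (r * (e * g ^ m)) := by positivity
    calc _ = 2 * (r * (e * (g : ℝ) ^ m)) * ((((Nx : ℝ) + c' * m) * 4 ^ J + 1) ^ n *
        ((∏ i, ((((c : ℝ) * n * m + 1) + c) * 4 ^ (J - j i) + 1) ^ n) * L)) := by ring
      _ ≤ 2 * (r * (e * (g : ℝ) ^ m)) * ((ρ ^ n * (Nx * 4 ^ J + 1) ^ n) *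
          ((Real.exp 1 * ∏ i, (((c : ℝ) * n * m + 1) * 4 ^ (J - j i) + 1) ^ n) *
            ((q + 1) * (Real.exp (-(δ ^ 2 / 4 * m)) * (2 * U))))) :=
          mul_le_mul_of_nonneg_left h1 h2
      _ = (G * Real.exp (-(δ ^ 2 / 4 * m))) * ((Nx * 4 ^ J + 1) ^ n * (g ^ m *
          ((∏ i, (((c : ℝ) * n * m + 1) * 4 ^ (J - j i) + 1) ^ n) * U))) := by
          rw [hG]
          ring
      _ ≤ 1 * ((Nx * 4 ^ J + 1) ^ n * (g ^ m *
          ((∏ i, (((c : ℝ) * n * m + 1) * 4 ^ (J - j i) + 1) ^ n) * U))) := by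
          refine mul_le_mul_of_nonneg_right hGm ?_
          positivity
      _ = _ := one_mul _
  have h3 : ((2 * (r * (e * (g ^ m * (((Nx + c' * m) * 4 ^ J + 1) ^ n *
        ((∏ i, (((c * n * m + 1) + c) * 4 ^ (J - j i) + 1) ^ n) * L))))) : ℕ) : ℝ) ≤
      (((Nx * 4 ^ J + 1) ^ n * (g ^ m * ((∏ i, ((c * n * m + 1) * 4 ^ (J - j i) + 1) ^ n) *
        U)) : ℕ) : ℝ) := by
    push_cast
    exact hmain
  exact_mod_cast h3

end Pool.Agent.Lib.MP_17a322_nt.SL
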