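import Pool.Agent.Lib.MP_17a322_nt.SL.CD
import Pool.Agent.Lib.MP_17a322_nt.SL.CE
import Pool.Agent.Lib.MP_17a322_nt.VJ.F3

/-!
The subspace theorem with moving targets over abelian varieties, part C: the auxiliary polynomial
(Siegel's lemma).
-/

universe u

namespace Pool.Agent.Lib.MP_17a322_nt.SL

open MvPolynomial Height
open Pool.Agent.Lib.MP_17a322_nt.RO
open Pool.Agent.Lib.MP_17a322_nt.VJ
open Pool.Agent.Lib.MP_17a322_nt.VN
open Pool.Agent.Lib.MP_17a322_nt.VA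
open Pool.Agent.Lib.MP_17a322_nt.VP

theorem card_mons {m q : ℕ} (k : Fin m → ℕ) :
    (mons (q := q) k).card = ∏ i, (CQ_W q (k i)).card := by
  unfold mons
  rw [Fintype.card_piFinset]

theorem mem_mons {m q : ℕ} {k : Fin m → ℕ} {w : Fin m → Fin (q + 1) → ℕ} :
    w ∈ mons k ↔ ∀ i, ∑ l, w i l = k i := by
  unfold mons
  rw [Fintype.mem_piFinset]
  exact forall_congr' fun i => mem_CQ_W

/-- The exponents of the unknown polynomial. -/
noncomputable def CQ_S {m : ℕ} (n q Nx M₀ g J : ℕ) (j : Fin m → ℕ)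
    (I : Finset (Fin m → Fin (q + 1) → ℕ)) : Finset (VQ m n (q + 1) → ℕ) :=
  open Classical in
  (box fun t => CQ_Bd n (q + 1) Nx M₀ g J j t + 1).filter fun d =>
    (∀ i, ∑ l, d (VQ.u (i, l)) = 4 ^ (J - j i)) ∧ (fun i l => d (VQ.u (i, l))) ∉ I

theorem mem_CQ_S {m n q Nx M₀ g J : ℕ} {j : Fin m → ℕ} {I : Finset (Fin m → Fin (q + 1) → ℕ)}
    {d : VQ m n (q + 1) → ℕ} : d ∈ CQ_S n q Nx M₀ g J j I ↔
      (∀ t, d t ≤ CQ_Bd n (q + 1) Nx M₀ g J j t) ∧
        (∀ i, ∑ l, d (VQ.u (i, l)) = 4 ^ (J - j i)) ∧ (fun i l => d (VQ.u (i, l))) ∉ I := by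
  classical
  unfold CQ_S
  rw [Finset.mem_filter, mem_box]
  exact and_congr (forall_congr' fun t => Nat.lt_succ_iff) Iff.rfl

theorem CQ_S_card_le {m n q Nx M₀ g J : ℕ} {j : Fin m → ℕ}
    {I : Finset (Fin m → Fin (q + 1) → ℕ)} :
    (CQ_S n q Nx M₀ g J j I).card ≤
      (box fun t => CQ_Bd n (q + 1) Nx M₀ g J j t + 1).card := by
  classical
  unfold CQ_S
  exact Finset.card_filter_le _ _

theorem CQ_le_S_card {m n q : ℕ} (Nx M₀ g J : ℕ) (j : Fin m → ℕ)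
    (I : Finset (Fin m → Fin (q + 1) → ℕ)) :
    (Nx * 4 ^ J + 1) ^ n * ((g + 1) ^ m * ((∏ i, (M₀ * 4 ^ (J - j i) + 1) ^ n) *
      ((mons (q := q) fun i => 4 ^ (J - j i)) \ I).card)) ≤ (CQ_S n q Nx M₀ g J j I).card := by
  classical
  have h1 : (Nx * 4 ^ J + 1) ^ n * ((g + 1) ^ m * ((∏ i, (M₀ * 4 ^ (J - j i) + 1) ^ n) *
      ((mons (q := q) fun i => 4 ^ (J - j i)) \ I).card)) =
      ((box fun _ : Fin n => Nx * 4 ^ J + 1) ×ˢ ((box fun _ : Fin m => g + 1) ×ˢ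
        ((box fun p : Fin m × Fin n => M₀ * 4 ^ (J - j p.1) + 1) ×ˢ
          ((mons (q := q) fun i => 4 ^ (J - j i)) \ I)))).card := by
    rw [Finset.card_product, Finset.card_product, Finset.card_product, card_box, card_box,
      card_box, Finset.prod_const, Finset.prod_const, Finset.card_univ, Finset.card_univ,
      Fintype.card_fin, Fintype.card_fin, Fintype.prod_prod_type]
    simp only [Finset.prod_const, Finset.card_univ, Fintype.card_fin]
  rw [h1]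
  refine Finset.card_le_card_of_injOn
    (fun p t => vq p.1 p.2.1 p.2.2.1 (fun s => p.2.2.2 s.1 s.2) t) (fun p hp => ?_)
    fun p _ p' _ h => ?_
  · obtain ⟨a, b, c, d⟩ := p
    have hp' := Finset.mem_coe.1 hp
    rw [Finset.mem_product, Finset.mem_product, Finset.mem_product, mem_box, mem_box, mem_box,
      Finset.mem_sdiff, mem_mons] at hp'
    obtain ⟨ha, hb, hc, hd, hI⟩ := hp'
    refine Finset.mem_coe.2 (mem_CQ_S.2 ⟨?_, hd, hI⟩)
    rintro (x | x | x | x)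
    · exact Nat.lt_succ_iff.1 (ha x)
    · exact Nat.lt_succ_iff.1 (hb x)
    · exact Nat.lt_succ_iff.1 (hc x)
    · show d x.1 x.2 ≤ 4 ^ (J - j x.1)
      rw [← hd x.1]
      exact Finset.single_le_sum (f := fun l => d x.1 l) (fun _ _ => Nat.zero_le _)
        (Finset.mem_univ x.2)
  · obtain ⟨a, b, c, d⟩ := p
    obtain ⟨a', b', c', d'⟩ := p'
    have e1 : a = a' := funext fun x => congrFun h (VQ.x x)
    have e2 : b = b' := funext fun x => congrFun h (VQ.th x)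
    have e3 : c = c' := funext fun x => congrFun h (VQ.z x)
    have e4 : d = d' := funext fun i => funext fun l => congrFun h (VQ.u (i, l))
    rw [e1, e2, e3, e4]

theorem CQ_log_card {m n q : ℕ} (Nx M₀ g J : ℕ) (j : Fin m → ℕ) :
    Real.log ((box (fun t => CQ_Bd n (q + 1) Nx M₀ g J j t + 1)).card) ≤
      Fintype.card (VQ m n (q + 1)) * (Nx + M₀ + g + 1) * 4 ^ J := by
  have h1 : ∀ t : VQ m n (q + 1), CQ_Bd n (q + 1) Nx M₀ g J j t ≤ (Nx + M₀ + g + 1) * 4 ^ J := by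
    have h4 : 1 ≤ 4 ^ J := Nat.one_le_pow _ _ (by norm_num)
    have h5 : ∀ i, 4 ^ (J - j i) ≤ 4 ^ J := fun i =>
      Nat.pow_le_pow_right (by norm_num) (Nat.sub_le _ _)
    rintro (a | i | p | p)
    · show Nx * 4 ^ J ≤ _
      exact Nat.mul_le_mul_right _ (by omega)
    · show g ≤ _
      calc g ≤ g * 4 ^ J := Nat.le_mul_of_pos_right _ h4
        _ ≤ _ := Nat.mul_le_mul_right _ (by omega)
    · show M₀ * 4 ^ (J - j p.1) ≤ _
      exact Nat.mul_le_mul (by omega) (h5 p.1)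
    · show 4 ^ (J - j p.1) ≤ _
      calc 4 ^ (J - j p.1) ≤ 1 * 4 ^ J := by rw [one_mul]; exact h5 p.1
        _ ≤ _ := Nat.mul_le_mul_right _ (by omega)
  rw [card_box, Nat.cast_prod, Real.log_prod fun t _ => by positivity]
  have h2 : ∀ t ∈ (Finset.univ : Finset (VQ m n (q + 1))),
      Real.log ((CQ_Bd n (q + 1) Nx M₀ g J j t + 1 : ℕ) : ℝ) ≤ (Nx + M₀ + g + 1) * 4 ^ J := by
    intro t _
    have h3 := Real.log_le_sub_one_of_pos (x := ((CQ_Bd n (q + 1) Nx M₀ g J j t + 1 : ℕ) : ℝ))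
      (by positivity)
    have h4 : ((CQ_Bd n (q + 1) Nx M₀ g J j t : ℕ) : ℝ) ≤ (Nx + M₀ + g + 1) * 4 ^ J := by
      exact_mod_cast h1 t
    push_cast at h3 ⊢
    linarith
  refine (Finset.sum_le_sum h2).trans (le_of_eq ?_)
  rw [Finset.sum_const, Finset.card_univ, nsmul_eq_mul]
  ring

/-- C part: the auxiliary polynomial; the monomials in `I` (at most half of all monomials) in the
variables `u` do not occur. -/
theorem exists_auxM {K : Type u} [Field K] [NumberField K] {N : ℕ} {A : AV K N} {n e : ℕ}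
    (nd : Noe A n e) (q r D : ℕ) (δ ε' : ℝ) (hδ : 0 < δ) (hδ2 : δ < 1 / (q + 1))
    (hε' : 0 < ε') :
    ∃ m₀ : ℕ, ∀ m : ℕ, m₀ ≤ m → 0 < m → ∃ (M₀ : ℕ) (C : ℝ), 0 ≤ C ∧
      ∀ (J : ℕ) (j : Fin m → ℕ)
        (Λ : Fin m → Fin r → Matrix (Fin (q + 1)) (Fin (q + 1)) (MvPolynomial (Fin (N + 1)) K))
        (I : Finset (Fin m → Fin (q + 1) → ℕ)),
      (∀ i, j i ≤ J) →
      (∀ i s, (∀ k l, (Λ i s k l).IsHomogeneous D) ∧ (Λ i s).det ∉ A.I ∧
        htM (Λ i s) ≤ 4 ^ j i) →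
      2 * I.card ≤ (mons (q := q) fun i => 4 ^ (J - j i)).card →
      ∃ F : MvPolynomial (VQ m n (q + 1)) K, F ≠ 0 ∧
        (∀ i, F.degreeOf (VQ.th i) < nd.Φ.natDegree) ∧
        (∀ a, (F.degreeOf (VQ.x a) : ℝ) ≤ ε' * m * 4 ^ J) ∧
        (∀ p, F.degreeOf (VQ.z p) ≤ M₀ * 4 ^ (J - j p.1)) ∧
        (∀ w ∈ F.support, ∀ i, ∑ l, w (VQ.u (i, l)) = 4 ^ (J - j i)) ∧
        (∀ w ∈ F.support, (fun i l => w (VQ.u (i, l))) ∉ I) ∧
        nh F ≤ C * 4 ^ J ∧
        ∀ s, VanM nd j (fun i => Λ i s) ((1 / (q + 1) - δ) * m * 4 ^ J) F := by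
  classical
  obtain ⟨D', hD'⟩ : ∃ D', D' = q * D := ⟨_, rfl⟩
  obtain ⟨c, hcd⟩ : ∃ c, c = (2 * D' + C_d nd) * C_D nd := ⟨_, rfl⟩
  obtain ⟨c', hcd'⟩ : ∃ c', c' = 2 * D' * nd.DM := ⟨_, rfl⟩
  obtain ⟨m₁, hm₁⟩ := CQ_count r (C_d nd + 1) (e + 1) n c c' q δ ε' hδ hε'
  obtain ⟨m₂, hm₂⟩ := exists_nat_gt (1 / ε')
  obtain ⟨C1, hC1, h1⟩ := siegel K
  have hδ1 : δ ≤ 1 := by
    refine hδ2.le.trans ?_
    rw [div_le_one (by positivity)]
    have : (0 : ℝ) ≤ q := Nat.cast_nonneg q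
    linarith
  refine ⟨max m₁ m₂, fun m hm hm0 => ?_⟩
  obtain ⟨C2, hC2, h2⟩ := CQ_matrix_height nd q D m r
  have hm0' : (0 : ℝ) < m := by exact_mod_cast hm0
  obtain ⟨Nx, hNxd⟩ : ∃ Nx, Nx = ⌊ε' * m⌋₊ := ⟨_, rfl⟩
  have hεm : 1 ≤ ε' * m := by
    have h3 : 1 / ε' ≤ m := hm₂.le.trans (by exact_mod_cast (le_max_right _ _).trans hm)
    rwa [div_le_iff₀ hε', mul_comm] at h3
  have hNx1 : (Nx : ℝ) ≤ ε' * m := by
    rw [hNxd]
    exact Nat.floor_le (by linarith)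
  have hNx2 : ε' * m / 2 ≤ Nx := by
    have h3 : ε' * m < Nx + 1 := by
      rw [hNxd]
      exact Nat.lt_floor_add_one _
    have h4 : (1 : ℝ) ≤ Nx := by
      have h5 : 1 ≤ Nx := by
        rw [hNxd]
        exact Nat.le_floor (by exact_mod_cast hεm)
      exact_mod_cast h5
    linarith
  obtain ⟨M₀, hM₀⟩ : ∃ M₀, M₀ = c * n * m + 1 := ⟨_, rfl⟩
  obtain ⟨lc, hlc⟩ : ∃ lc : ℝ, lc = Fintype.card (VQ m n (q + 1)) * (Nx + M₀ + C_d nd + 1) :=
    ⟨_, rfl⟩
  have hlc0 : 0 ≤ lc := by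
    rw [hlc]
    positivity
  refine ⟨M₀, C1 + (C2 + C1 + C1 * lc) + totalWeight K * lc, by positivity,
    fun J j Λ₀ I hj hΛ₀ hI => ?_⟩
  have hbj : ∀ i, 4 ^ (J - j i) * 4 ^ j i = 4 ^ J := by
    intro i
    rw [← pow_add, Nat.sub_add_cancel (hj i)]
  -- normalisation of the matrices
  have hΛ₀0 : ∀ i s, Λ₀ i s ≠ 0 := by
    intro i s h
    apply (hΛ₀ i s).2.1
    rw [h, Matrix.det_zero]
    exact A.I.zero_mem
  choose cc hcc0 hcc1 using fun i s => CQ_norm (hΛ₀0 i s)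
  obtain ⟨Λ, hΛ⟩ : ∃ Λ : Fin m → Fin r →
      Matrix (Fin (q + 1)) (Fin (q + 1)) (MvPolynomial (Fin (N + 1)) K),
    Λ = fun i s => (C (cc i s) : MvPolynomial (Fin (N + 1)) K) • Λ₀ i s := ⟨_, rfl⟩
  have hΛh : ∀ i s l k, (Λ i s l k).IsHomogeneous D := by
    intro i s l k
    have h3 := (isHomogeneous_C (Fin (N + 1)) (cc i s)).mul ((hΛ₀ i s).1 l k)
    rw [zero_add] at h3
    rw [hΛ]
    exact h3
  have h1v : ∀ i s (v : AbsoluteValue K ℝ), 1 ≤ NVM v (Λ i s) := by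
    intro i s v
    rw [hΛ]
    exact hcc1 i s v
  have hht : ∀ i s, htM (Λ i s) ≤ 4 ^ j i := by
    intro i s
    rw [hΛ]
    show htM ((C (cc i s) : MvPolynomial (Fin (N + 1)) K) • Λ₀ i s) ≤ _
    rw [CQ_htM_smul (hΛ₀0 i s) (hcc0 i s)]
    exact (hΛ₀ i s).2.2
  have hadj : ∀ i s l k, ((Λ i s).adjugate l k).IsHomogeneous D' := by
    intro i s l k
    rw [hD']
    exact CQ_adj_homog (hΛh i s) l k
  obtain ⟨T, hT⟩ : ∃ T : ℝ, T = (1 / (q + 1) - δ) * m * 4 ^ J := ⟨_, rfl⟩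
  -- the index sets
  obtain ⟨W, hW⟩ : ∃ W : Finset (Fin m → Fin (q + 1) → ℕ),
    W = (mons fun i => 4 ^ (J - j i)).filter
      (fun w => ∃ k, (∑ i, (4 : ℝ) ^ j i * w i k) < T) := ⟨_, rfl⟩
  have hWcard : (W.card : ℝ) ≤ (q + 1) * (Real.exp (-(δ ^ 2 / 4 * m)) *
      ((mons (q := q) fun i => 4 ^ (J - j i)).card : ℝ)) := by
    rw [card_mons, Nat.cast_prod]
    refine CQ_hoeffding (fun i => 4 ^ (J - j i)) (fun i => Nat.one_le_pow _ _ (by norm_num)) δ
      hδ.le hδ1 W fun w hw => ?_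
    rw [hW, Finset.mem_filter, mem_mons] at hw
    refine ⟨fun i => mem_CQ_W.2 (hw.1 i), ?_⟩
    obtain ⟨k, hk⟩ := hw.2
    refine ⟨k, ?_⟩
    have h4J : (0 : ℝ) < 4 ^ J := by positivity
    have h3 : ∑ i, (w i k : ℝ) / ((4 ^ (J - j i) : ℕ) : ℝ) =
        (∑ i, (4 : ℝ) ^ j i * w i k) / 4 ^ J := by
      rw [Finset.sum_div]
      refine Finset.sum_congr rfl fun i _ => ?_
      have h4 : ((4 ^ (J - j i) : ℕ) : ℝ) * 4 ^ j i = 4 ^ J := by exact_mod_cast hbj i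
      rw [div_eq_div_iff (by positivity) h4J.ne', ← h4]
      ring
    rw [h3, div_le_iff₀ h4J]
    have h4 := hk.le
    rw [hT] at h4
    exact h4
  have hU : (mons (q := q) fun i => 4 ^ (J - j i)).card ≤
      2 * ((mons (q := q) fun i => 4 ^ (J - j i)) \ I).card := by
    have h3 := Finset.le_card_sdiff I (mons (q := q) fun i => 4 ^ (J - j i))
    omega
  have hcount := hm₁ m ((le_max_left _ _).trans hm) hm0 Nx hNx2 J j W.card _ _ hWcard hU
  have hlog := CQ_log_card (m := m) (n := n) (q := q) Nx M₀ (C_d nd) J j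
  obtain ⟨S, hS⟩ : ∃ S : Finset (VQ m n (q + 1) → ℕ), S = CQ_S n q Nx M₀ (C_d nd) J j I :=
    ⟨_, rfl⟩
  have hSm : ∀ d ∈ S, (∀ t, d t ≤ CQ_Bd n (q + 1) Nx M₀ (C_d nd) J j t) ∧
        (∀ i, ∑ l, d (VQ.u (i, l)) = 4 ^ (J - j i)) ∧ (fun i l => d (VQ.u (i, l))) ∉ I := by
    intro d hd
    rw [hS] at hd
    exact mem_CQ_S.1 hd
  let rowT := Fin r × Fin (e + 1) × (Fin m → Fin (C_d nd + 1)) ×
    (box fun _ : Fin n => (Nx + c' * m) * 4 ^ J + 1) ×
    (BB (fun i : Fin m => (M₀ + c) * 4 ^ (J - j i) + 1) : Finset (Fin m → Fin n → ℕ)) × W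
  let colT := (S : Finset (VQ m n (q + 1) → ℕ))
  have hrow : Fintype.card rowT = r * ((e + 1) * ((C_d nd + 1) ^ m *
      (((Nx + c' * m) * 4 ^ J + 1) ^ n * ((∏ i, ((M₀ + c) * 4 ^ (J - j i) + 1) ^ n) *
        W.card)))) := by
    rw [Fintype.card_prod, Fintype.card_prod, Fintype.card_prod, Fintype.card_prod,
      Fintype.card_prod, Fintype.card_coe, Fintype.card_coe, Fintype.card_coe, card_box,
      card_BB, Fintype.card_fun, Fintype.card_fin, Fintype.card_fin, Fintype.card_fin,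
      Fintype.card_fin, Finset.prod_const, Finset.card_univ, Fintype.card_fin]
  have hcol : (Nx * 4 ^ J + 1) ^ n * ((C_d nd + 1) ^ m *
      ((∏ i, (M₀ * 4 ^ (J - j i) + 1) ^ n) *
        ((mons (q := q) fun i => 4 ^ (J - j i)) \ I).card)) ≤ Fintype.card colT := by
    rw [Fintype.card_coe]
    show _ ≤ S.card
    rw [hS]
    exact CQ_le_S_card Nx M₀ (C_d nd) J j I
  have h2row : 2 * Fintype.card rowT ≤ Fintype.card colT := by
    refine le_trans ?_ hcol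
    rw [hrow, hM₀]
    exact hcount
  have hcolpos : 0 < Fintype.card colT := by
    refine lt_of_lt_of_le ?_ hcol
    have h3 : 0 < (mons (q := q) fun i => 4 ^ (J - j i)).card := by
      refine Finset.card_pos.2 ⟨fun i l => if l = 0 then 4 ^ (J - j i) else 0, mem_mons.2
        fun i => ?_⟩
      rw [Finset.sum_ite_eq' Finset.univ (0 : Fin (q + 1)), if_pos (Finset.mem_univ _)]
    have h4 : 0 < ((mons (q := q) fun i => 4 ^ (J - j i)) \ I).card := by omega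
    positivity
  have hlt : Fintype.card rowT < Fintype.card colT := by omega
  obtain ⟨M, hM⟩ : ∃ M : Matrix rowT colT K, M = fun (a : rowT) (b : colT) =>
      CQ_MC nd j (fun i => (Λ i a.1).adjugate)
        (a.2.2.2.2.2 : Fin m → Fin (q + 1) → ℕ) a.2.1 a.2.2.1 (a.2.2.2.1 : Fin n → ℕ)
        (a.2.2.2.2.1 : Fin m → Fin n → ℕ) (b : VQ m n (q + 1) → ℕ) := ⟨_, rfl⟩
  obtain ⟨x, hx0, hAx, hx⟩ := h1 rowT colT M hlt
  have hmat := h2 J j Λ hj hΛh h1v hht (rowT × colT) (fun p : rowT × colT => M p.1 p.2) (by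
    intro p
    have hp := hSm _ p.2.2
    refine ⟨p.1.1, p.1.2.2.2.2.2, p.1.2.1, p.1.2.2.1, p.1.2.2.2.1, p.1.2.2.2.2.1, p.2,
      hp.2.1, fun i => hp.1 (VQ.th i), ?_⟩
    rw [hM])
  obtain ⟨cf, hcf⟩ : ∃ cf : (VQ m n (q + 1) → ℕ) → K, cf = fun d =>
      if h : d ∈ S then x ⟨d, h⟩ else 0 := ⟨_, rfl⟩
  have hcfp : ∀ p : colT, cf p = x p := by
    rintro ⟨d, hd⟩
    rw [hcf]
    exact dif_pos hd
  have hcfx : (fun d : S => cf d) = x := funext hcfp
  obtain ⟨p₀, hp₀⟩ := Function.ne_iff.mp hx0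
  have hF0 : CQ_F S cf ≠ 0 := CQ_F_ne p₀.2 (by rw [hcfp]; exact hp₀)
  refine ⟨CQ_F S cf, hF0, fun i => ?_, fun a => ?_, fun p => ?_, fun w hw => ?_,
    fun w hw => ?_, ?_, fun s => ?_⟩
  · rw [C_natDegree]
    exact Nat.lt_succ_iff.2 (CQ_degreeOf_F fun d hd => (hSm d hd).1 (VQ.th i))
  · have h3 : ((CQ_F S cf).degreeOf (VQ.x a) : ℝ) ≤ ((Nx * 4 ^ J : ℕ) : ℝ) := by
      have h4 : (CQ_F S cf).degreeOf (VQ.x a) ≤ Nx * 4 ^ J :=
        CQ_degreeOf_F fun d hd => (hSm d hd).1 (VQ.x a)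
      exact_mod_cast h4
    refine h3.trans ?_
    push_cast
    exact mul_le_mul_of_nonneg_right hNx1 (by positivity)
  · exact CQ_degreeOf_F fun d hd => (hSm d hd).1 (VQ.z p)
  · exact (hSm _ (CQ_mem_S hw)).2.1
  · exact (hSm _ (CQ_mem_S hw)).2.2
  · -- the height
    have hnh := CQ_nh_F hF0 (by rw [hcfx]; exact hx0)
    rw [hcfx] at hnh
    have hfrac0 : 0 ≤ (Fintype.card rowT : ℝ) / (Fintype.card colT - Fintype.card rowT : ℝ) := by
      have : (Fintype.card rowT : ℝ) < Fintype.card colT := by exact_mod_cast hlt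
      exact div_nonneg (Nat.cast_nonneg _) (by linarith)
    have hfrac1 : (Fintype.card rowT : ℝ) / (Fintype.card colT - Fintype.card rowT : ℝ) ≤ 1 := by
      have h5 : (Fintype.card rowT : ℝ) < Fintype.card colT := by exact_mod_cast hlt
      have h6 : (2 : ℝ) * Fintype.card rowT ≤ Fintype.card colT := by exact_mod_cast h2row
      rw [div_le_one (by linarith)]
      linarith
    have h4J : (1 : ℝ) ≤ 4 ^ J := one_le_pow₀ (by norm_num)
    have hSpos : (0 : ℝ) < S.card := by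
      have h5 : 0 < S.card := by
        rw [Fintype.card_coe] at hcolpos
        exact hcolpos
      exact_mod_cast h5
    have hlogc : Real.log S.card ≤ lc * 4 ^ J := by
      rw [hlc]
      refine le_trans (Real.log_le_log hSpos ?_) hlog
      rw [hS]
      exact_mod_cast CQ_S_card_le
    have hlog' : Real.log (Fintype.card colT) ≤ lc * 4 ^ J := by
      rw [Fintype.card_coe]
      exact hlogc
    have hin : logHeight (fun p : rowT × colT => M p.1 p.2) + C1 +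
        C1 * Real.log (Fintype.card colT) ≤ (C2 + C1 + C1 * lc) * 4 ^ J := by
      have h7 := mul_le_mul_of_nonneg_left hlog' hC1
      have h8 : C1 ≤ C1 * 4 ^ J := le_mul_of_one_le_right hC1 h4J
      calc _ ≤ C2 * 4 ^ J + C1 * 4 ^ J + C1 * (lc * 4 ^ J) := by linarith
        _ = _ := by ring
    have hin' : (Fintype.card rowT : ℝ) / (Fintype.card colT - Fintype.card rowT : ℝ) *
        (logHeight (fun p : rowT × colT => M p.1 p.2) + C1 +
          C1 * Real.log (Fintype.card colT)) ≤ (C2 + C1 + C1 * lc) * 4 ^ J := by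
      refine (mul_le_mul_of_nonneg_left hin hfrac0).trans ?_
      exact mul_le_of_le_one_left (by positivity) hfrac1
    have h9 : C1 ≤ C1 * 4 ^ J := le_mul_of_one_le_right hC1 h4J
    have htw : (0 : ℝ) ≤ totalWeight K := Nat.cast_nonneg _
    have h10 := mul_le_mul_of_nonneg_left hlogc htw
    calc _ ≤ C1 * 4 ^ J + (C2 + C1 + C1 * lc) * 4 ^ J + totalWeight K * (lc * 4 ^ J) := by
          linarith
      _ = _ := by ring
  · -- the conditions
    refine CQ_Van_smul nd (c := fun i => cc i s) (fun i => hcc0 i s) ?_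
    have h3 : VanM nd j (fun i => Λ i s) T (CQ_F S cf) := by
      refine CQ_Van nd (fun d hd => (hSm d hd).2.1) (fun i l k => hadj i s l k)
        fun w k hwκ hw r' ρ' q₀ g => ?_
      by_cases hq : q₀ ∈ box (fun _ : Fin n => (Nx + c' * m) * 4 ^ J + 1) ∧
        g ∈ BB (fun i : Fin m => (M₀ + c) * 4 ^ (J - j i) + 1)
      swap
      · refine Finset.sum_eq_zero fun d hd => ?_
        have h3 : CQ_MC nd j (fun i => (Λ i s).adjugate) w r' ρ' q₀ g d = 0 := by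
          by_contra h4
          apply hq
          rw [hcd, hcd']
          exact CQ_MC_zero nd hj (fun i l k => C_homog (hadj i s l k)) (hSm d hd).1
            (hSm d hd).2.1 h4
        rw [h3, mul_zero]
      have hwW : w ∈ W := by
        rw [hW, Finset.mem_filter, mem_mons]
        exact ⟨hwκ, k, hw⟩
      have h3 := congrFun hAx (⟨s, r', ρ', ⟨q₀, hq.1⟩, ⟨g, hq.2⟩, ⟨w, hwW⟩⟩ : rowT)
      rw [Pi.zero_apply, Matrix.mulVec, dotProduct] at h3
      refine Eq.trans ?_ h3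
      rw [← Finset.sum_coe_sort S]
      refine Finset.sum_congr rfl fun d _ => ?_
      have h5 := hcfp d
      rw [hM]
      show _ = CQ_MC nd j (fun i => (Λ i s).adjugate) w r' ρ' q₀ g
        (d : VQ m n (q + 1) → ℕ) * x d
      rw [← h5]
      exact mul_comm _ _
    rw [hT] at h3
    rw [hΛ] at h3
    exact h3

end Pool.Agent.Lib.MP_17a322_nt.SL
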