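import Pool.Agent.Lib.MP_17a322_nt.SL.GDefs

/-!
Compound matrices: algebra.
-/

universe u

namespace Pool.Agent.Lib.MP_17a322_nt.SL

open MvPolynomial Height
open Pool.Agent.Lib.MP_17a322_nt.RO
open Pool.Agent.Lib.MP_17a322_nt.VJ

section alg

variable {R : Type*} [CommRing R] {q p N : ℕ}

/-- The basis of the exterior power. -/
noncomputable def cmB (R : Type*) [CommRing R] {q p N : ℕ} (e : Fin N ≃ Set.powersetCard (Fin q) p) :
    Module.Basis (Fin N) R (⋀[R]^p (Fin q → R)) :=
  ((Pi.basisFun R (Fin q)).exteriorPower p).reindex e.symm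

theorem cmp_eq (e : Fin N ≃ Set.powersetCard (Fin q) p) (A : Matrix (Fin q) (Fin q) R) :
    cmp e A = (LinearMap.toMatrix (cmB R e) (cmB R e)
      (exteriorPower.map p A.vecMulLinear)).transpose := by
  ext a b
  rw [Matrix.transpose_apply, LinearMap.toMatrix_apply, cmB, Module.Basis.repr_reindex_apply,
    Module.Basis.reindex_apply, Equiv.symm_symm, exteriorPower.basis_apply,
    exteriorPower.map_apply_ιMulti_family, exteriorPower.basis_repr_apply,
    exteriorPower.ιMulti_family, exteriorPower.ιMultiDual_apply_ιMulti]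
  unfold cmp
  rw [Matrix.of_apply]
  congr 1
  ext i j
  simp

theorem cmp_one (e : Fin N ≃ Set.powersetCard (Fin q) p) :
    cmp e (1 : Matrix (Fin q) (Fin q) R) = 1 := by
  have h1 : (1 : Matrix (Fin q) (Fin q) R).vecMulLinear = LinearMap.id := by
    ext v
    simp
  rw [cmp_eq, h1, exteriorPower.map_id, LinearMap.toMatrix_id, Matrix.transpose_one]

theorem cmp_mul (e : Fin N ≃ Set.powersetCard (Fin q) p)
    (A B : Matrix (Fin q) (Fin q) R) : cmp e (A * B) = cmp e A * cmp e B := by
  have h1 : (A * B).vecMulLinear = B.vecMulLinear ∘ₗ A.vecMulLinear := by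
    refine LinearMap.ext fun v => ?_
    change Matrix.vecMul v (A * B) = Matrix.vecMul (Matrix.vecMul v A) B
    rw [Matrix.vecMul_vecMul]
  rw [cmp_eq, cmp_eq, cmp_eq, h1, exteriorPower.map_comp,
    LinearMap.toMatrix_comp (cmB R e) (cmB R e) (cmB R e), Matrix.transpose_mul]

theorem cmp_transpose (e : Fin N ≃ Set.powersetCard (Fin q) p) (A : Matrix (Fin q) (Fin q) R) :
    cmp e A.transpose = (cmp e A).transpose := by
  ext a b
  rw [Matrix.transpose_apply]
  unfold cmp
  rw [Matrix.of_apply, Matrix.of_apply, ← Matrix.det_transpose]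
  rfl

theorem cmp_map {R S : Type*} [CommRing R] [CommRing S] {q p N : ℕ}
    (e : Fin N ≃ Set.powersetCard (Fin q) p) (f : R →+* S) (A : Matrix (Fin q) (Fin q) R) :
    (cmp e A).map f = cmp e (A.map f) := by
  ext a b
  rw [Matrix.map_apply]
  unfold cmp
  rw [Matrix.of_apply, Matrix.of_apply, RingHom.map_det]
  rfl

theorem cmp_hom {R σ : Type*} [CommRing R] {q p N : ℕ}
    (e : Fin N ≃ Set.powersetCard (Fin q) p) {D : ℕ}
    (A : Matrix (Fin q) (Fin q) (MvPolynomial σ R)) (hA : ∀ k l, (A k l).IsHomogeneous D)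
    (a b : Fin N) : (cmp e A a b).IsHomogeneous (p * D) := by
  unfold cmp
  rw [Matrix.of_apply, Matrix.det_apply]
  refine IsHomogeneous.sum _ _ _ fun π _ => ?_
  have h1 : (∏ i, (A.submatrix (Set.powersetCard.ofFinEmbEquiv.symm (e a))
      (Set.powersetCard.ofFinEmbEquiv.symm (e b))) (π i) i).IsHomogeneous (p * D) := by
    have h2 := IsHomogeneous.prod Finset.univ
      (fun i => (A.submatrix (Set.powersetCard.ofFinEmbEquiv.symm (e a))
      (Set.powersetCard.ofFinEmbEquiv.symm (e b))) (π i) i) (fun _ => D) fun i _ => hA _ _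
    rw [Finset.sum_const, Finset.card_univ, Fintype.card_fin, smul_eq_mul] at h2
    exact h2
  rcases Int.units_eq_one_or (Equiv.Perm.sign π) with h | h
  · rw [h, one_smul]
    exact h1
  · rw [h, Units.neg_smul, one_smul]
    exact (homogeneousSubmodule σ R (p * D)).neg_mem h1

theorem cmp_det_ne {K : Type*} [Field K] {q p N : ℕ} (e : Fin N ≃ Set.powersetCard (Fin q) p)
    (A : Matrix (Fin q) (Fin q) K) (hA : A.det ≠ 0) : (cmp e A).det ≠ 0 := by
  have h1 : (cmp e A).det * (cmp e A⁻¹).det = 1 := by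
    rw [← Matrix.det_mul, ← cmp_mul, Matrix.mul_nonsing_inv A (Ne.isUnit hA), cmp_one,
      Matrix.det_one]
  intro h0
  rw [h0, zero_mul] at h1
  exact zero_ne_one h1

theorem cmp_li {K : Type*} [Field K] {q p N : ℕ} (e : Fin N ≃ Set.powersetCard (Fin q) p)
    {y : Fin q → Fin q → K} (hy : LinearIndependent K y) :
    LinearIndependent K fun a => cmp e (Matrix.of y) a := by
  have h1 : (Matrix.of y).det ≠ 0 := by
    have h2 : LinearIndependent K (Matrix.of y).row := hy
    rw [Matrix.linearIndependent_rows_iff_isUnit, Matrix.isUnit_iff_isUnit_det] at h2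
    exact h2.ne_zero
  have h3 := cmp_det_ne e _ h1
  have h4 : IsUnit (cmp e (Matrix.of y)) := (Matrix.isUnit_iff_isUnit_det _).2 (Ne.isUnit h3)
  exact Matrix.linearIndependent_rows_iff_isUnit.2 h4

end alg

/-- The number of the subsets which contain `j`. -/
theorem card_mem {q p : ℕ} (hp : 0 < p) (j : Fin q) :
    ((Finset.powersetCard p (Finset.univ : Finset (Fin q))).filter fun s => j ∈ s).card =
      (q - 1).choose (p - 1) := by
  obtain ⟨n, rfl⟩ : ∃ n, p = n + 1 := ⟨p - 1, by omega⟩
  have h1 : (Finset.univ : Finset (Fin q)) = insert j (Finset.univ.erase j) :=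
    (Finset.insert_erase (Finset.mem_univ j)).symm
  have hj : j ∉ (Finset.univ.erase j : Finset (Fin q)) := Finset.notMem_erase _ _
  have h2 : (Finset.powersetCard (n + 1) (Finset.univ : Finset (Fin q))).filter (fun s => j ∈ s) =
      (Finset.powersetCard n (Finset.univ.erase j : Finset (Fin q))).image (insert j) := by
    conv_lhs => rw [h1, Finset.powersetCard_succ_insert hj]
    rw [Finset.filter_union]
    have h3 : (Finset.powersetCard (n + 1) (Finset.univ.erase j : Finset (Fin q))).filter
        (fun s => j ∈ s) = ∅ := by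
      rw [Finset.filter_eq_empty_iff]
      intro s hs hjs
      exact hj ((Finset.mem_powersetCard.1 hs).1 hjs)
    rw [h3, Finset.empty_union, Finset.filter_eq_self]
    intro s hs
    obtain ⟨t, _, rfl⟩ := Finset.mem_image.1 hs
    exact Finset.mem_insert_self _ _
  rw [h2, Finset.card_image_of_injOn, Finset.card_powersetCard, Finset.card_erase_of_mem
    (Finset.mem_univ j), Finset.card_univ, Fintype.card_fin, Nat.add_sub_cancel]
  intro s hs t ht hst
  have hs' : j ∉ s := fun h => hj ((Finset.mem_powersetCard.1 (Finset.mem_coe.1 hs)).1 h)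
  have ht' : j ∉ t := fun h => hj ((Finset.mem_powersetCard.1 (Finset.mem_coe.1 ht)).1 h)
  have h3 := congrArg (fun u => Finset.erase u j) hst
  simpa [Finset.erase_insert hs', Finset.erase_insert ht'] using h3

/-- The sum of the sums over the subsets. -/
theorem cmp_sum {q p N : ℕ} (e : Fin N ≃ Set.powersetCard (Fin q) p) (hp : 0 < p)
    (s : Fin q → ℝ) :
    ∑ a, ∑ j ∈ (e a : Finset (Fin q)), s j = ((q - 1).choose (p - 1) : ℝ) * ∑ j, s j := by
  classical
  have h1 : ∑ a, ∑ j ∈ (e a : Finset (Fin q)), s j =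
      ∑ t ∈ Finset.powersetCard p (Finset.univ : Finset (Fin q)), ∑ j ∈ t, s j := by
    refine Finset.sum_bij (fun a _ => (e a : Finset (Fin q))) (fun a _ => ?_) (fun a _ b _ h => ?_)
      (fun t ht => ?_) fun a _ => rfl
    · exact Finset.mem_powersetCard.2 ⟨Finset.subset_univ _, (e a).2⟩
    · exact e.injective (Subtype.ext h)
    · refine ⟨e.symm ⟨t, (Finset.mem_powersetCard.1 ht).2⟩, Finset.mem_univ _, ?_⟩
      rw [Equiv.apply_symm_apply]
  have h2 : ∀ t : Finset (Fin q), ∑ j ∈ t, s j = ∑ j, if j ∈ t then s j else 0 := fun t => by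
    rw [← Finset.sum_filter]
    exact Finset.sum_congr (by ext j; simp) fun _ _ => rfl
  rw [h1, Finset.sum_congr rfl fun t _ => h2 t, Finset.sum_comm, Finset.mul_sum]
  refine Finset.sum_congr rfl fun j _ => ?_
  rw [← Finset.sum_filter, Finset.sum_const, nsmul_eq_mul, card_mem hp]

end Pool.Agent.Lib.MP_17a322_nt.SL
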