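import Pool.Agent.Lib.MP_17a322_nt.SL.CM2

/-!
Compound matrices: sizes, defect, weights.
-/

universe u

namespace Pool.Agent.Lib.MP_17a322_nt.SL

open MvPolynomial Height
open Pool.Agent.Lib.MP_17a322_nt.RO
open Pool.Agent.Lib.MP_17a322_nt.VJ

section FS

variable {K : Type*} [Field K] [AdmissibleAbsValues K]

open Classical in
theorem cm_FS_ite (Sg : Finset (AbsoluteValue K ℝ)) (f : AbsoluteValue K ℝ → ℝ)
    {g : AbsoluteValue K ℝ → ℝ} (hg : FS g) : FS fun v => if v ∈ Sg then f v else g v := by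
  have h1 : {v : AdmissibleAbsValues.nonarchAbsVal (K := K) | v.val ∈ Sg}.Finite :=
    (Finset.finite_toSet Sg).preimage Subtype.val_injective.injOn
  refine (h1.union hg).subset fun v hv => ?_
  by_cases h : v.val ∈ Sg
  · exact Or.inl h
  · refine Or.inr fun h0 => hv ?_
    simp only [if_neg h]
    exact h0

theorem cm_FS_zero : FS (fun _ : AbsoluteValue K ℝ => (0 : ℝ)) := by simp [FS]

theorem cm_FS_sw {q : ℕ} (Sg : Finset (AbsoluteValue K ℝ)) (c : AbsoluteValue K ℝ → Fin q → ℝ)
    (M : AbsoluteValue K ℝ → Matrix (Fin q) (Fin q) K) {y : Fin q → K} (hy : y ≠ 0) :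
    FS (sw Sg c M y) := cm_FS_ite Sg _ (FS_log_iSup hy)

end FS

theorem cmp_tw {K : Type u} [Field K] [NumberField K] {q p N : ℕ}
    (e : Fin N ≃ Set.powersetCard (Fin q) p) (hp : 0 < p)
    (Sg : Finset (AbsoluteValue K ℝ)) (c : AbsoluteValue K ℝ → Fin q → ℝ) :
    tw Sg (cL e c) = ((q - 1).choose (p - 1) : ℝ) * tw Sg c := by
  classical
  unfold tw
  rw [← gs_const_mul]
  congr 1
  funext v
  split_ifs
  · exact cmp_sum e hp (c v)
  · rw [mul_zero]

theorem cmp_df {K : Type u} [Field K] [NumberField K] {q p N : ℕ}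
    (e : Fin N ≃ Set.powersetCard (Fin q) p) (hp : 0 < p) (hpq : p ≤ q)
    (Sg : Finset (AbsoluteValue K ℝ)) (hSg : ∀ v ∈ Sg, Pl v) :
    ∃ C : ℝ, 0 ≤ C ∧ ∀ M : AbsoluteValue K ℝ → Matrix (Fin q) (Fin q) K,
      (∀ v ∈ Sg, (M v).det ≠ 0) →
        df Sg (fun v => cmp e (M v)) ≤ N * p * df Sg M + C := by
  classical
  have hN : 0 < N := by
    by_contra h
    obtain ⟨s, _, hs⟩ := Finset.exists_subset_card_eq
      (s := (Finset.univ : Finset (Fin q))) (n := p) (by rwa [Finset.card_univ, Fintype.card_fin])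
    have h1 : (e.symm ⟨s, hs⟩ : ℕ) < N := (e.symm ⟨s, hs⟩).2
    omega
  let k : ℕ := p.factorial ^ (2 * N) * N.factorial * q.factorial ^ (N * p)
  have hk : 1 ≤ k := Nat.one_le_iff_ne_zero.2 (mul_ne_zero (mul_ne_zero
    (pow_ne_zero _ (Nat.factorial_ne_zero _)) (Nat.factorial_ne_zero _))
    (pow_ne_zero _ (Nat.factorial_ne_zero _)))
  refine ⟨totalWeight K * Real.log k, mul_nonneg (Nat.cast_nonneg _)
    (Real.log_nonneg (by exact_mod_cast hk)), fun M hM => ?_⟩
  refine le_trans ?_ (add_le_add_right (gs_log_cst (L := K) hk) _)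
  unfold df
  rw [← gs_const_mul, ← gs_add]
  · refine gs_le (cm_FS_ite Sg _ cm_FS_zero)
      (FS_add (FS_const_mul _ (cm_FS_ite Sg _ cm_FS_zero)) (FS_log_cst k)) fun v _ => ?_
    by_cases hv : v ∈ Sg
    · simp only [if_pos hv]
      have hd := hM v hv
      have hd1 := cmp_det_ne e (M v) hd
      have hm : 0 < mx v (M v) := cm_mx_pos v (by omega) _ hd
      have hm1 : 0 < mx v (cmp e (M v)) := cm_mx_pos v hN _ hd1
      have hdi : ((M v)⁻¹).det ≠ 0 := by
        rw [Matrix.det_nonsing_inv, Ring.inverse_eq_inv']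
        exact inv_ne_zero hd
      have hm2 : 0 < mx v (M v)⁻¹ := cm_mx_pos v (by omega) _ hdi
      have hd2 := cmp_det_ne e _ hdi
      have hm3 : 0 < mx v (cmp e (M v)⁻¹) := cm_mx_pos v hN _ hd2
      have hc : ∀ n : ℕ, 0 < cst v n.factorial := fun n =>
        lt_of_lt_of_le one_pos (one_le_cst v (Nat.one_le_iff_ne_zero.2 (Nat.factorial_ne_zero n)))
      have hvd : 0 < v (M v).det := v.pos hd
      have a1 : Real.log (mx v (cmp e (M v))) ≤
          Real.log (cst v p.factorial) + p * Real.log (mx v (M v)) := by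
        have h1 := Real.log_le_log hm1 (mx_cmp_le e v (M v))
        rwa [Real.log_mul (hc p).ne' (pow_pos hm _).ne', Real.log_pow] at h1
      have a2 : Real.log (mx v (cmp e (M v)⁻¹)) ≤
          Real.log (cst v p.factorial) + p * Real.log (mx v (M v)⁻¹) := by
        have h1 := Real.log_le_log hm3 (mx_cmp_le e v (M v)⁻¹)
        rwa [Real.log_mul (hc p).ne' (pow_pos hm2 _).ne', Real.log_pow] at h1
      have a3 : Real.log (mx v (M v)⁻¹) ≤
          Real.log (cst v q.factorial) + (q - 1) * Real.log (mx v (M v)) -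
            Real.log (v (M v).det) := by
        have h1 := Real.log_le_log hm2 (mx_inv_le v (M v))
        rw [Real.log_div (mul_pos (hc q) (pow_pos hm _)).ne' hvd.ne',
          Real.log_mul (hc q).ne' (pow_pos hm _).ne', Real.log_pow,
          Nat.cast_sub (by omega : 1 ≤ q), Nat.cast_one] at h1
        exact h1
      have a4 : - Real.log (v (cmp e (M v)).det) ≤
          Real.log (cst v N.factorial) + N * Real.log (mx v (cmp e (M v)⁻¹)) := by
        have h1 : v (cmp e (M v)).det * v (cmp e (M v)⁻¹).det = 1 := by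
          rw [← map_mul, ← Matrix.det_mul, ← cmp_mul, Matrix.mul_nonsing_inv _ (Ne.isUnit hd),
            cmp_one, Matrix.det_one, map_one]
        have h2 := congrArg Real.log h1
        rw [Real.log_one, Real.log_mul (v.pos hd1).ne' (v.pos hd2).ne'] at h2
        have h3 := Real.log_le_log (v.pos hd2) (det_le_mx v (cmp e (M v)⁻¹))
        rw [Real.log_mul (hc N).ne' (pow_pos hm3 _).ne', Real.log_pow] at h3
        linarith
      have a5 : Real.log (cst v k) = 2 * N * Real.log (cst v p.factorial) +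
          Real.log (cst v N.factorial) + N * p * Real.log (cst v q.factorial) := by
        change Real.log (cst v (p.factorial ^ (2 * N) * N.factorial * q.factorial ^ (N * p))) = _
        rw [cst_mul, cst_mul, cst_pow, cst_pow, Real.log_mul (mul_pos (pow_pos (hc p) _)
          (hc N)).ne' (pow_pos (hc q) _).ne', Real.log_mul (pow_pos (hc p) _).ne' (hc N).ne',
          Real.log_pow, Real.log_pow]
        push_cast
        ring
      have hN0 : (0 : ℝ) ≤ N := Nat.cast_nonneg _
      have hNp0 : (0 : ℝ) ≤ N * p := mul_nonneg (Nat.cast_nonneg _) (Nat.cast_nonneg _)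
      have b1 := mul_le_mul_of_nonneg_left a1 hN0
      have b2 := mul_le_mul_of_nonneg_left a2 hN0
      have b3 := mul_le_mul_of_nonneg_left a3 hNp0
      rw [a5]
      nlinarith [b1, b2, b3, a4]
    · simp only [if_neg hv, mul_zero, zero_add]
      exact Real.log_nonneg (one_le_cst v hk)
  · exact FS_const_mul _ (cm_FS_ite Sg _ cm_FS_zero)
  · exact FS_log_cst k

/-- The value of the compound forms. -/
theorem cmp_mulVec {K : Type*} [Field K] {q p N : ℕ} (e : Fin N ≃ Set.powersetCard (Fin q) p)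
    (M Y : Matrix (Fin q) (Fin q) K) (a b : Fin N) :
    (cmp e M).mulVec (cmp e Y a) b = ((Y * M.transpose).submatrix
      (Set.powersetCard.ofFinEmbEquiv.symm (e a))
      (Set.powersetCard.ofFinEmbEquiv.symm (e b))).det := by
  have h1 : (cmp e M).mulVec (cmp e Y a) b = (cmp e Y * (cmp e M).transpose) a b := by
    rw [Matrix.mul_apply]
    unfold Matrix.mulVec dotProduct
    exact Finset.sum_congr rfl fun d _ => mul_comm _ _
  rw [h1, ← cmp_transpose, ← cmp_mul]
  rfl

theorem cmp_size {K : Type u} [Field K] [NumberField K] {q p N : ℕ}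
    (e : Fin N ≃ Set.powersetCard (Fin q) p) (hp : 0 < p) (hpq : p ≤ q)
    (Sg : Finset (AbsoluteValue K ℝ)) (hSg : ∀ v ∈ Sg, Pl v) :
    ∃ C : ℝ, 0 ≤ C ∧ ∀ (c : AbsoluteValue K ℝ → Fin q → ℝ)
      (M : AbsoluteValue K ℝ → Matrix (Fin q) (Fin q) K), (∀ v ∈ Sg, (M v).det ≠ 0) →
      ∀ (y : Fin q → Fin q → K), LinearIndependent K y → ∀ a : Fin N,
        gs (sw Sg (cL e c) (fun v => cmp e (M v)) (cmp e (Matrix.of y) a)) ≤
          ∑ j ∈ (e a : Finset (Fin q)), gs (sw Sg c M (y j)) + df Sg M + C := by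
  classical
  let k : ℕ := p.factorial * q ^ (q - p)
  have hq : 0 < q := by omega
  have hk : 1 ≤ k := Nat.one_le_iff_ne_zero.2 (mul_ne_zero (Nat.factorial_ne_zero _)
    (pow_ne_zero _ hq.ne'))
  refine ⟨totalWeight K * Real.log k, mul_nonneg (Nat.cast_nonneg _)
    (Real.log_nonneg (by exact_mod_cast hk)), fun c M hM y hy a => ?_⟩
  have hN : 0 < N := a.pos
  have hyne : ∀ j, y j ≠ 0 := fun j => hy.ne_zero j
  have hcy : cmp e (Matrix.of y) a ≠ 0 := (cmp_li e hy).ne_zero a
  have : Nonempty (Fin q) := ⟨⟨0, hq⟩⟩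
  have : Nonempty (Fin N) := ⟨a⟩
  refine le_trans ?_ (add_le_add_right (gs_log_cst (L := K) hk) _)
  have hF1 : FS (fun v => ∑ j ∈ (e a : Finset (Fin q)), sw Sg c M (y j) v) :=
    FS_sum _ fun j _ => cm_FS_sw Sg c M (hyne j)
  have hF2 : FS (fun v => if v ∈ Sg then q * Real.log (mx v (M v)) -
      Real.log (v (M v).det) else 0) := cm_FS_ite Sg _ cm_FS_zero
  rw [← gs_sum _ fun j _ => cm_FS_sw Sg c M (hyne j)]
  unfold df
  rw [← gs_add hF1 hF2, ← gs_add (FS_add hF1 hF2) (FS_log_cst k)]
  refine gs_le (cm_FS_sw _ _ _ hcy) (FS_add (FS_add hF1 hF2) (FS_log_cst k)) fun v _ => ?_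
  have hcf : ∀ n : ℕ, 1 ≤ cst v n.factorial := fun n =>
    one_le_cst v (Nat.one_le_iff_ne_zero.2 (Nat.factorial_ne_zero n))
  have hck : Real.log (cst v k) = Real.log (cst v p.factorial) +
      Real.log (cst v (q ^ (q - p))) := by
    change Real.log (cst v (p.factorial * q ^ (q - p))) = _
    rw [cst_mul, Real.log_mul (lt_of_lt_of_le one_pos (hcf p)).ne' (lt_of_lt_of_le one_pos
      (one_le_cst v (Nat.one_le_iff_ne_zero.2 (pow_ne_zero _ hq.ne')))).ne']
  have hcq : 1 ≤ cst v (q ^ (q - p)) :=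
    one_le_cst v (Nat.one_le_iff_ne_zero.2 (pow_ne_zero _ hq.ne'))
  by_cases hv : v ∈ Sg
  · have hd := hM v hv
    have hm : 0 < mx v (M v) := cm_mx_pos v hq _ hd
    have hd1 := cmp_det_ne e (M v) hd
    have hm1 : 0 < mx v (cmp e (M v)) := cm_mx_pos v hN _ hd1
    -- the sizes of the vectors
    let ty : Fin q → ℝ := fun j => ⨆ k, v ((M v).mulVec (y j) k) * Real.exp (c v k)
    have hty : ∀ j k, v ((M v).mulVec (y j) k) * Real.exp (c v k) ≤ ty j := fun j k =>
      Finite.le_ciSup_of_le (f := fun k => v ((M v).mulVec (y j) k) * Real.exp (c v k)) k le_rfl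
    have hinj : ∀ {n : ℕ} {X : Matrix (Fin n) (Fin n) K}, X.det ≠ 0 → ∀ z, z ≠ 0 →
        ∃ k, X.mulVec z k ≠ 0 := by
      intro n X hX z hz
      by_contra h
      push Not at h
      exact hz ((Matrix.mulVec_injective_iff_isUnit.2
        ((Matrix.isUnit_iff_isUnit_det _).2 (Ne.isUnit hX)))
        ((funext h).trans (Matrix.mulVec_zero X).symm))
    have hty0 : ∀ j, 0 < ty j := by
      intro j
      obtain ⟨k, hk⟩ := hinj hd (y j) (hyne j)
      exact (mul_pos (v.pos hk) (Real.exp_pos _)).trans_le (hty j k)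
    let T : ℝ := ⨆ b, v ((cmp e (M v)).mulVec (cmp e (Matrix.of y) a) b) *
      Real.exp (cL e c v b)
    have hT0 : 0 < T := by
      obtain ⟨b, hb⟩ := hinj hd1 _ hcy
      exact (mul_pos (v.pos hb) (Real.exp_pos _)).trans_le (Finite.le_ciSup_of_le
        (f := fun b => v ((cmp e (M v)).mulVec (cmp e (Matrix.of y) a) b) *
          Real.exp (cL e c v b)) b le_rfl)
    have hT : T ≤ cst v p.factorial * ∏ j ∈ (e a : Finset (Fin q)), ty j := by
      refine ciSup_le fun b => ?_
      rw [cmp_mulVec]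
      have h1 := det_bd v ((Matrix.of y * (M v).transpose).submatrix
        (Set.powersetCard.ofFinEmbEquiv.symm (e a)) (Set.powersetCard.ofFinEmbEquiv.symm (e b)))
        (fun i => ty (Set.powersetCard.ofFinEmbEquiv.symm (e a) i))
        (fun i => Real.exp (- c v (Set.powersetCard.ofFinEmbEquiv.symm (e b) i)))
        (fun i => (hty0 _).le) (fun i => (Real.exp_pos _).le) fun i k => ?_
      · rw [← prod_emb e a ty, ← Real.exp_sum,
          ← sum_emb e b (fun k => - c v k), Finset.sum_neg_distrib] at h1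
        have h2 : cL e c v b = ∑ k ∈ (e b : Finset (Fin q)), c v k := rfl
        rw [h2]
        calc _ ≤ cst v p.factorial * ((∏ j ∈ (e a : Finset (Fin q)), ty j) *
              Real.exp (- ∑ k ∈ (e b : Finset (Fin q)), c v k)) *
                Real.exp (∑ k ∈ (e b : Finset (Fin q)), c v k) :=
              mul_le_mul_of_nonneg_right h1 (Real.exp_pos _).le
          _ = cst v p.factorial * (∏ j ∈ (e a : Finset (Fin q)), ty j) *
              (Real.exp (- ∑ k ∈ (e b : Finset (Fin q)), c v k) *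
                Real.exp (∑ k ∈ (e b : Finset (Fin q)), c v k)) := by ring
          _ = _ := by rw [← Real.exp_add, neg_add_cancel, Real.exp_zero, mul_one]
      · have h3 : (Matrix.of y * (M v).transpose).submatrix
            (Set.powersetCard.ofFinEmbEquiv.symm (e a))
            (Set.powersetCard.ofFinEmbEquiv.symm (e b)) i k =
            (M v).mulVec (y (Set.powersetCard.ofFinEmbEquiv.symm (e a) i))
              (Set.powersetCard.ofFinEmbEquiv.symm (e b) k) := by
          rw [Matrix.submatrix_apply, Matrix.mul_apply]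
          unfold Matrix.mulVec dotProduct
          exact Finset.sum_congr rfl fun d _ => mul_comm _ _
        rw [h3]
        have h4 := hty (Set.powersetCard.ofFinEmbEquiv.symm (e a) i)
          (Set.powersetCard.ofFinEmbEquiv.symm (e b) k)
        rw [Real.exp_neg, ← div_eq_mul_inv, le_div_iff₀ (Real.exp_pos _)]
        exact h4
    have e1 : Real.log T ≤ Real.log (cst v p.factorial) +
        ∑ j ∈ (e a : Finset (Fin q)), Real.log (ty j) := by
      have h1 := Real.log_le_log hT0 hT
      rwa [Real.log_mul (lt_of_lt_of_le one_pos (hcf p)).ne'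
        (Finset.prod_pos fun j _ => hty0 j).ne', Real.log_prod fun j _ => (hty0 j).ne'] at h1
    have e2 : Real.log (v (M v).det) ≤ Real.log (cst v (q ^ (q - p))) +
        ((q - p) * Real.log (mx v (M v)) + Real.log (mx v (cmp e (M v)))) := by
      have h1 := Real.log_le_log (v.pos hd) (det_le_cmp e v hpq (M v))
      rwa [Real.log_mul (lt_of_lt_of_le one_pos hcq).ne' (mul_pos (pow_pos hm _) hm1).ne',
        Real.log_mul (pow_pos hm _).ne' hm1.ne', Real.log_pow, Nat.cast_sub hpq] at h1
    have e3 : ∑ j ∈ (e a : Finset (Fin q)), sw Sg c M (y j) v =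
        ∑ j ∈ (e a : Finset (Fin q)), Real.log (ty j) - p * Real.log (mx v (M v)) := by
      have h1 : ∀ j, sw Sg c M (y j) v = Real.log (ty j) - Real.log (mx v (M v)) := fun j => by
        unfold sw
        rw [if_pos hv]
      have h2 : (e a : Finset (Fin q)).card = p := (e a).2
      rw [Finset.sum_congr rfl fun j _ => h1 j, Finset.sum_sub_distrib, Finset.sum_const, h2,
        nsmul_eq_mul]
    have e4 : sw Sg (cL e c) (fun v => cmp e (M v)) (cmp e (Matrix.of y) a) v =
        Real.log T - Real.log (mx v (cmp e (M v))) := by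
      unfold sw
      rw [if_pos hv]
    rw [e4, e3, if_pos hv, hck]
    linarith
  · let ty : Fin q → ℝ := fun j => ⨆ k, v (y j k)
    have hty : ∀ j k, v (y j k) ≤ ty j := fun j k =>
      Finite.le_ciSup_of_le (f := fun k => v (y j k)) k le_rfl
    have hty0 : ∀ j, 0 < ty j := by
      intro j
      obtain ⟨k, hk⟩ := Function.ne_iff.mp (hyne j)
      exact (v.pos hk).trans_le (hty j k)
    have hT0 : 0 < ⨆ l, v (cmp e (Matrix.of y) a l) := by
      obtain ⟨b, hb⟩ := Function.ne_iff.mp hcy
      exact (v.pos hb).trans_le (Finite.le_ciSup_of_le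
        (f := fun l => v (cmp e (Matrix.of y) a l)) b le_rfl)
    have hT : ⨆ l, v (cmp e (Matrix.of y) a l) ≤
        cst v p.factorial * ∏ j ∈ (e a : Finset (Fin q)), ty j := by
      refine ciSup_le fun b => ?_
      have h1 := det_bd v ((Matrix.of y).submatrix
        (Set.powersetCard.ofFinEmbEquiv.symm (e a)) (Set.powersetCard.ofFinEmbEquiv.symm (e b)))
        (fun i => ty (Set.powersetCard.ofFinEmbEquiv.symm (e a) i)) (fun _ => 1)
        (fun i => (hty0 _).le) (fun i => zero_le_one) fun i k => by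
          rw [mul_one]
          exact hty _ _
      rw [← prod_emb e a ty, Finset.prod_const_one, mul_one] at h1
      exact h1
    have e1 := Real.log_le_log hT0 hT
    rw [Real.log_mul (lt_of_lt_of_le one_pos (hcf p)).ne'
      (Finset.prod_pos fun j _ => hty0 j).ne', Real.log_prod fun j _ => (hty0 j).ne'] at e1
    have e3 : ∑ j ∈ (e a : Finset (Fin q)), sw Sg c M (y j) v =
        ∑ j ∈ (e a : Finset (Fin q)), Real.log (ty j) := by
      refine Finset.sum_congr rfl fun j _ => ?_
      unfold sw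
      rw [if_neg hv]
    have e4 : sw Sg (cL e c) (fun v => cmp e (M v)) (cmp e (Matrix.of y) a) v =
        Real.log (⨆ l, v (cmp e (Matrix.of y) a l)) := by
      unfold sw
      rw [if_neg hv]
    have e5 : 0 ≤ Real.log (cst v (q ^ (q - p))) := Real.log_nonneg hcq
    rw [e4, e3, if_neg hv, hck]
    linarith

end Pool.Agent.Lib.MP_17a322_nt.SL
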