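import Pool.Agent.Lib.MP_17a322_nt.SL.Geo
import Pool.Agent.Lib.MP_17a322_nt.VA.A1

/-!
The germs of sequences which are bounded, up to `o(H)`, on sets of places.
-/

universe u

namespace Pool.Agent.Lib.MP_17a322_nt.SL

open MvPolynomial Height Filter
open Pool.Agent.Lib.MP_17a322_nt.RO
open Pool.Agent.Lib.MP_17a322_nt.VJ
open Pool.Agent.Lib.MP_17a322_nt.VN hiding lf
open Pool.Agent.Lib.MP_17a322_nt.VA
open Pool.Agent.Lib.MP_17a322_nt.VP

theorem D1_add {K : Type*} [Field K] (v : AbsoluteValue K ℝ) (x y : K) :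
    max 1 (v (x + y)) ≤ cst v 2 * (max 1 (v x) * max 1 (v y)) := by
  have h1 : (1 : ℝ) ≤ max 1 (v x) := le_max_left _ _
  have h2 : (1 : ℝ) ≤ max 1 (v y) := le_max_left _ _
  have h3 : (1 : ℝ) ≤ max 1 (v x) * max 1 (v y) := one_le_mul_of_one_le_of_one_le h1 h2
  have h4 : v x ≤ max 1 (v x) * max 1 (v y) :=
    (le_max_right 1 _).trans (le_mul_of_one_le_right (zero_le_one.trans h1) h2)
  have h5 : v y ≤ max 1 (v x) * max 1 (v y) :=
    (le_max_right 1 _).trans (le_mul_of_one_le_left (zero_le_one.trans h2) h1)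
  refine max_le (one_le_mul_of_one_le_of_one_le (one_le_cst v (by norm_num)) h3) ?_
  unfold cst
  split_ifs with h
  · rw [one_mul]
    exact (h x y).trans (max_le h4 h5)
  · refine (v.add_le x y).trans ?_
    push_cast
    linarith

section

variable {K : Type u} [Field K]

open Classical in
/-- The size of `x` at the places `v` with `S v`. -/
noncomputable def szS (S : AbsoluteValue K ℝ → Prop) (x : K) (v : AbsoluteValue K ℝ) : ℝ :=
  if S v then Real.log (max 1 (v x)) else 0

theorem szS_nonneg (S : AbsoluteValue K ℝ → Prop) (x : K) (v : AbsoluteValue K ℝ) :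
    0 ≤ szS S x v := by
  unfold szS
  split_ifs
  · exact Real.log_nonneg (le_max_left _ _)
  · exact le_rfl

theorem szS_le (S : AbsoluteValue K ℝ → Prop) (x : K) (v : AbsoluteValue K ℝ) :
    szS S x v ≤ Real.log (max 1 (v x)) := by
  unfold szS
  split_ifs
  · exact le_rfl
  · exact Real.log_nonneg (le_max_left _ _)

theorem FS_szS [NumberField K] (S : AbsoluteValue K ℝ → Prop) (x : K) : FS (szS S x) := by
  refine (FS_log_max x).subset fun v hv h0 => hv ?_
  exact le_antisymm ((szS_le S x v.val).trans h0.le) (szS_nonneg S x v.val)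

theorem szS_add (S : AbsoluteValue K ℝ → Prop) (x y : K) (v : AbsoluteValue K ℝ) :
    szS S (x + y) v ≤ Real.log (cst v 2) + (szS S x v + szS S y v) := by
  unfold szS
  split_ifs
  · have h0 : (0 : ℝ) < cst v 2 := one_pos.trans_le (one_le_cst v (by norm_num))
    have h1 : (0 : ℝ) < max 1 (v x) := lt_max_of_lt_left one_pos
    have h2 : (0 : ℝ) < max 1 (v y) := lt_max_of_lt_left one_pos
    rw [← Real.log_mul h1.ne' h2.ne', ← Real.log_mul h0.ne' (mul_pos h1 h2).ne']
    exact Real.log_le_log (lt_max_of_lt_left one_pos) (D1_add v x y)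
  · rw [add_zero, add_zero]
    exact Real.log_nonneg (one_le_cst v (by norm_num))

theorem szS_mul (S : AbsoluteValue K ℝ → Prop) (x y : K) (v : AbsoluteValue K ℝ) :
    szS S (x * y) v ≤ szS S x v + szS S y v := by
  unfold szS
  split_ifs
  · have h1 : (1 : ℝ) ≤ max 1 (v x) := le_max_left _ _
    have h2 : (1 : ℝ) ≤ max 1 (v y) := le_max_left _ _
    rw [← Real.log_mul (one_pos.trans_le h1).ne' (one_pos.trans_le h2).ne']
    refine Real.log_le_log (lt_max_of_lt_left one_pos)
      (max_le (one_le_mul_of_one_le_of_one_le h1 h2) ?_)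
    rw [map_mul]
    exact mul_le_mul (le_max_right _ _) (le_max_right _ _) (v.nonneg _) (zero_le_one.trans h1)
  · rw [add_zero]

theorem szS_neg (S : AbsoluteValue K ℝ → Prop) (x : K) : szS S (-x) = szS S x := by
  funext v
  unfold szS
  rw [map_neg_eq_map]

variable [NumberField K]

/-- The ring of the germs which are bounded up to `o(H)` on the sets `S i` of places. -/
noncomputable def RS (H : ℕ → ℝ) (hH : Tendsto H (hyperfilter ℕ : Filter ℕ) atTop)
    (S : ℕ → AbsoluteValue K ℝ → Prop) : Subring (GK K) where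
  carrier := {f | ∃ x : ℕ → K, gm x = f ∧ oH H fun i => gs (szS (S i) (x i))}
  mul_mem' := by
    rintro _ _ ⟨x, rfl, hx⟩ ⟨y, rfl, hy⟩
    refine ⟨fun i => x i * y i, gm_mul x y, (hx.add hy).mono (Eventually.of_forall fun i => ?_)⟩
    rw [← gs_add (FS_szS _ _) (FS_szS _ _)]
    exact gs_le (FS_szS _ _) (FS_add (FS_szS _ _) (FS_szS _ _)) fun v _ => szS_mul _ _ _ _
  one_mem' := by
    refine ⟨fun _ => 1, gm_one, (oH_const hH 0).mono (Eventually.of_forall fun i => ?_)⟩
    refine le_of_eq ?_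
    have h1 : szS (S i) (1 : K) = fun _ => 0 := by
      funext v
      unfold szS
      rw [map_one, max_self, Real.log_one, ite_self]
    rw [h1]
    unfold gs
    simp
  add_mem' := by
    rintro _ _ ⟨x, rfl, hx⟩ ⟨y, rfl, hy⟩
    refine ⟨fun i => x i + y i, gm_add x y, ((oH_const hH (gs fun v : AbsoluteValue K ℝ =>
      Real.log (cst v 2))).add (hx.add hy)).mono (Eventually.of_forall fun i => ?_)⟩
    rw [← gs_add (FS_szS _ _) (FS_szS _ _), ← gs_add (FS_log_cst 2)
      (FS_add (FS_szS _ _) (FS_szS _ _))]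
    exact gs_le (FS_szS _ _) (FS_add (FS_log_cst 2) (FS_add (FS_szS _ _) (FS_szS _ _)))
      fun v _ => szS_add _ _ _ _
  zero_mem' := by
    refine ⟨fun _ => 0, gm_zero, (oH_const hH 0).mono (Eventually.of_forall fun i => ?_)⟩
    refine le_of_eq ?_
    have h1 : szS (S i) (0 : K) = fun _ => 0 := by
      funext v
      unfold szS
      rw [map_zero, max_eq_left zero_le_one, Real.log_one, ite_self]
    rw [h1]
    unfold gs
    simp
  neg_mem' := by
    rintro _ ⟨x, rfl, hx⟩
    refine ⟨fun i => - x i, gm_neg x, hx.mono (Eventually.of_forall fun i => ?_)⟩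
    rw [szS_neg]

variable {H : ℕ → ℝ} {hH : Tendsto H (hyperfilter ℕ : Filter ℕ) atTop}
  {S : ℕ → AbsoluteValue K ℝ → Prop}

theorem mem_RS {x : ℕ → K} : gm x ∈ RS H hH S ↔ oH H fun i => gs (szS (S i) (x i)) := by
  constructor
  · rintro ⟨y, hy, h1⟩
    rw [gm_eq_iff] at hy
    refine h1.mono ?_
    filter_upwards [hy] with i hi
    rw [hi]
  · intro h
    exact ⟨x, rfl, h⟩

/-- Germs over `k0`. -/
theorem RS_k0 {f : GK K} (hf : f ∈ k0 K H hH) : f ∈ RS H hH S := by
  obtain ⟨x, rfl⟩ := exists_gm f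
  rw [mem_k0] at hf
  rw [mem_RS]
  refine hf.mono (Eventually.of_forall fun i => ?_)
  rw [← gs_log_max]
  exact gs_le (FS_szS _ _) (FS_log_max _) fun v _ => szS_le _ _ _

/-- Germs which are bounded by a size constant. -/
theorem RS_of_le (E : SC K) {x : ℕ → K}
    (hx : ∀ᶠ i in (hyperfilter ℕ : Filter ℕ), ∀ v, Pl v → S i v → v (x i) ≤ E.k v) :
    gm x ∈ RS H hH S := by
  rw [mem_RS]
  refine (oH_const hH (gs fun v : AbsoluteValue K ℝ => Real.log (E.k v))).mono ?_
  filter_upwards [hx] with i hi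
  refine gs_le (FS_szS _ _) (E.FS_log K) fun v hv => ?_
  unfold szS
  split_ifs with h
  · exact Real.log_le_log (lt_max_of_lt_left one_pos) (max_le (E.one_le v) (hi v hv h))
  · exact Real.log_nonneg (E.one_le v)

/-- Germs on empty sets of places. -/
theorem RS_of_empty (hS : ∀ᶠ i in (hyperfilter ℕ : Filter ℕ), ∀ v, ¬ S i v) (f : GK K) :
    f ∈ RS H hH S := by
  obtain ⟨x, rfl⟩ := exists_gm f
  refine RS_of_le ⟨∅, 0⟩ ?_
  filter_upwards [hS] with i hi v _ h
  exact absurd h (hi v)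

/-- Values of polynomials over `k0` and their derivatives. -/
theorem RS_aeval {σ : Type*} (D : Derivation K (GK K) (GK K))
    (hD0 : ∀ x ∈ k0 K H hH, D x ∈ k0 K H hH) (y : σ → GK K)
    (hy : ∀ s, y s ∈ RS H hH S ∧ D (y s) ∈ RS H hH S) (G : MvPolynomial σ (k0 K H hH)) :
    aeval y G ∈ RS H hH S ∧ D (aeval y G) ∈ RS H hH S := by
  induction G using MvPolynomial.induction_on with
  | C a =>
    rw [aeval_C]
    exact ⟨RS_k0 a.2, RS_k0 (hD0 _ a.2)⟩
  | add p q hp hq =>
    rw [map_add, map_add]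
    exact ⟨add_mem hp.1 hq.1, add_mem hp.2 hq.2⟩
  | mul_X p t hp =>
    rw [map_mul, aeval_X, Derivation.leibniz, smul_eq_mul, smul_eq_mul]
    exact ⟨mul_mem hp.1 (hy t).1, add_mem (mul_mem hp.1 (hy t).2) (mul_mem (hy t).1 hp.2)⟩

/-- Values of polynomials over `K` and their derivatives. -/
theorem RS_aevalK {σ : Type*} (D : Derivation K (GK K) (GK K)) (y : σ → GK K)
    (hy : ∀ s, y s ∈ RS H hH S ∧ D (y s) ∈ RS H hH S) (G : MvPolynomial σ K) :
    aeval y G ∈ RS H hH S ∧ D (aeval y G) ∈ RS H hH S := by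
  induction G using MvPolynomial.induction_on with
  | C a =>
    rw [aeval_C, Derivation.map_algebraMap]
    exact ⟨RS_k0 ((k0 K H hH).algebraMap_mem a), zero_mem _⟩
  | add p q hp hq =>
    rw [map_add, map_add]
    exact ⟨add_mem hp.1 hq.1, add_mem hp.2 hq.2⟩
  | mul_X p t hp =>
    rw [map_mul, aeval_X, Derivation.leibniz, smul_eq_mul, smul_eq_mul]
    exact ⟨mul_mem hp.1 (hy t).1, add_mem (mul_mem hp.1 (hy t).2) (mul_mem (hy t).1 hp.2)⟩

end

end Pool.Agent.Lib.MP_17a322_nt.SL
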