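import Pool.Agent.Lib.MP_17a322_nt.SL.D1
import Pool.Agent.Lib.MP_17a322_nt.VP.S8

/-!
The derivatives of the affine coordinates of the points of `B` are bounded.
-/

universe u

namespace Pool.Agent.Lib.MP_17a322_nt.SL

open MvPolynomial Height Filter
open Pool.Agent.Lib.MP_17a322_nt.RO
open Pool.Agent.Lib.MP_17a322_nt.VJ
open Pool.Agent.Lib.MP_17a322_nt.VN hiding lf
open Pool.Agent.Lib.MP_17a322_nt.VA
open Pool.Agent.Lib.MP_17a322_nt.VP

/-- The places: `R` is in the chart, the coordinate `a₁` of `P` is maximal, the column `a` is large. -/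
def S1 {K : Type u} [Field K] {N : ℕ} {A B : AV K N} {n e : ℕ} (nd : Noe B n e) (κ κS : SC K)
    (a₁ a : Fin (N + 1)) (P W : A.Pts K) (R : B.Pts K) (v : AbsoluteValue K ℝ) : Prop :=
  nd.In κ v R ∧ (∀ k, v (A.x P k) ≤ v (A.x P a₁)) ∧
    ∃ c, vm v (A.x P) ^ 2 * vm v (A.x W) ^ 2 ≤
      κS.k v * v (aeval (Sum.elim (A.x P) (A.x W)) (A.S a c))

theorem D2_elim {K : Type u} [Field K] {N : ℕ} {L : Type u} [Field L] (u u' : Fin (N + 1) → L)
    (x y : L) : (Sum.elim (fun k => u k / x) fun k => u' k / y) =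
      (Sum.elim (fun k => x⁻¹ * u k) fun k => y⁻¹ * u' k : Fin (N + 1) ⊕ Fin (N + 1) → L) := by
  funext t
  rcases t with t | t
  · exact div_eq_inv_mul _ _
  · exact div_eq_inv_mul _ _

/-- The normalised column. -/
noncomputable def D2b {K : Type u} [Field K] {N : ℕ} (A : AV K N) {L : Type u} [Field L]
    [Algebra K L] (P W : A.Pts L) (a₁ a₂ a c : Fin (N + 1)) : L :=
  aeval (Sum.elim (fun k => A.x P k / A.x P a₁) fun k => A.x W k / A.x W a₂) (A.S a c)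

theorem D2b_eq {K : Type u} [Field K] {N : ℕ} (A : AV K N) {L : Type u} [Field L]
    [Algebra K L] (P W : A.Pts L) (a₁ a₂ a c : Fin (N + 1)) :
    D2b A P W a₁ a₂ a c = (A.x P a₁)⁻¹ ^ 2 * (A.x W a₂)⁻¹ ^ 2 *
      aeval (Sum.elim (A.x P) (A.x W)) (A.S a c) := by
  unfold D2b
  rw [D2_elim (K := K), A.S_smul]

theorem D2b_rel {K : Type u} [Field K] {N : ℕ} {A B : AV K N} (hB : IsSubAV B A) {L : Type u}
    [Field L] [Algebra K L] {P W : A.Pts L} {R : B.Pts L} (h : P - W = hB.inc L R)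
    (a₁ a₂ a : Fin (N + 1)) : ∃ ρ : L, ∀ c, D2b A P W a₁ a₂ a c = ρ * B.x R c := by
  obtain ⟨c₀, hc₀, hsp⟩ := A.spec L P W
  refine ⟨(A.x P a₁)⁻¹ ^ 2 * (A.x W a₂)⁻¹ ^ 2 * (c₀ * A.x (P + W) a), fun c => ?_⟩
  have h2 : aeval (Sum.elim (A.x P) (A.x W)) (A.S a c) =
      c₀ * (A.x (P + W) a * A.x (P - W) c) := hsp a c
  rw [D2b_eq, h2, h, hB.x_inc]
  ring

/-- The lower bound for the linear form. -/
theorem D2_inv {K : Type u} [Field K] {N : ℕ} {A B : AV K N} (hB : IsSubAV B A) {n e : ℕ}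
    (nd : Noe B n e) (κ κS : SC K) (a₁ a₂ a : Fin (N + 1)) {P W : A.Pts K} {R : B.Pts K}
    (h : P - W = hB.inc K R) (hpa : A.x P a₁ ≠ 0) (hwa : A.x W a₂ ≠ 0) {v : AbsoluteValue K ℝ}
    (hS : S1 nd κ κS a₁ a P W R v) :
    v (lf (nd.l 0) (D2b A P W a₁ a₂ a))⁻¹ ≤ (κ.mul κS).k v := by
  obtain ⟨h1, h2, c, hc⟩ := hS
  obtain ⟨ρ, hρ⟩ := D2b_rel hB h a₁ a₂ a
  have h8 : 0 < v (A.x P a₁) := v.pos hpa
  have h9 : 0 < v (A.x W a₂) := v.pos hwa
  have h3 : 1 ≤ κS.k v * v (D2b A P W a₁ a₂ a c) := by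
    have h6 : vm v (A.x P) = v (A.x P a₁) := le_antisymm (ciSup_le h2) (le_vm v _ a₁)
    have h7 : v (A.x W a₂) ≤ vm v (A.x W) := le_vm v _ a₂
    rw [h6] at hc
    have h10 : v (A.x P a₁) ^ 2 * v (A.x W a₂) ^ 2 ≤
        κS.k v * v (aeval (Sum.elim (A.x P) (A.x W)) (A.S a c)) :=
      (mul_le_mul_of_nonneg_left (pow_le_pow_left₀ h9.le h7 2) (by positivity)).trans hc
    rw [D2b_eq, map_mul, map_mul, map_pow, map_pow, map_inv₀, map_inv₀]
    have h11 : κS.k v * ((v (A.x P a₁))⁻¹ ^ 2 * (v (A.x W a₂))⁻¹ ^ 2 *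
        v (aeval (Sum.elim (A.x P) (A.x W)) (A.S a c))) =
        (κS.k v * v (aeval (Sum.elim (A.x P) (A.x W)) (A.S a c))) /
          (v (A.x P a₁) ^ 2 * v (A.x W a₂) ^ 2) := by
      field_simp
    rw [h11, one_le_div (by positivity)]
    exact h10
  have h4 : v (D2b A P W a₁ a₂ a c) ≤ κ.k v * v (lf (nd.l 0) (D2b A P W a₁ a₂ a)) := by
    rw [show D2b A P W a₁ a₂ a = fun c => ρ * B.x R c from funext hρ, lf_smul, map_mul, map_mul]
    have h5 := mul_le_mul_of_nonneg_left (h1 c) (v.nonneg ρ)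
    refine h5.trans (le_of_eq ?_)
    ring
  have h5 : 1 ≤ (κ.mul κS).k v * v (lf (nd.l 0) (D2b A P W a₁ a₂ a)) := by
    have h6 := mul_le_mul_of_nonneg_left h4 (κS.pos v).le
    have h7 : κS.k v * (κ.k v * v (lf (nd.l 0) (D2b A P W a₁ a₂ a))) ≤
        (κ.mul κS).k v * v (lf (nd.l 0) (D2b A P W a₁ a₂ a)) := by
      rw [← mul_assoc, mul_comm (κS.k v)]
      exact mul_le_mul_of_nonneg_right (κ.mul_le κS v) (v.nonneg _)
    linarith
  have h6 : 0 < v (lf (nd.l 0) (D2b A P W a₁ a₂ a)) := by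
    rcases (v.nonneg (lf (nd.l 0) (D2b A P W a₁ a₂ a))).eq_or_lt with h7 | h7
    · rw [← h7, mul_zero] at h5
      linarith
    · exact h7
  rw [map_inv₀, inv_eq_one_div, div_le_iff₀ h6]
  exact h5

theorem D2_gm {K : Type u} [Field K] {N : ℕ} {A : AV K N} {P W : ℕ → A.Pts K}
    {p w : A.Pts (GK K)} (hP : IsGerm A P p) (hW : IsGerm A W w) (a₁ a₂ a c : Fin (N + 1)) :
    gm (fun i => D2b A (P i) (W i) a₁ a₂ a c) = D2b A p w a₁ a₂ a c := by
  have h1 := Z_aeval_gm (fun (t : Fin (N + 1) ⊕ Fin (N + 1)) i =>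
    Sum.elim (fun k => A.x (P i) k / A.x (P i) a₁) (fun k => A.x (W i) k / A.x (W i) a₂) t)
    (A.S a c)
  refine h1.symm.trans ?_
  unfold D2b
  congr 2
  funext t
  rcases t with t | t
  · exact (hP.rt (t, a₁)).symm
  · exact (hW.rt (t, a₂)).symm

/-- The places do not exist if the coordinate `a₁` or the column vanishes. -/
theorem D2_empty {K : Type u} [Field K] {N : ℕ} {A B : AV K N} {P W : ℕ → A.Pts K}
    {R : ℕ → B.Pts K} {n e : ℕ} (nd : Noe B n e) (κ κS : SC K) (a₁ a₂ a : Fin (N + 1))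
    (h : ∀ᶠ i in (hyperfilter ℕ : Filter ℕ), A.x (P i) a₁ = 0 ∨ A.x (W i) a₂ ≠ 0 ∧
      A.x (P i) a₁ ≠ 0 ∧ ∀ c, D2b A (P i) (W i) a₁ a₂ a c = 0) :
    ∀ᶠ i in (hyperfilter ℕ : Filter ℕ), ∀ v, ¬ S1 nd κ κS a₁ a (P i) (W i) (R i) v := by
  filter_upwards [h] with i hi v hv
  obtain ⟨-, h3, c, hc⟩ := hv
  rcases hi with hi | ⟨hw, hp, hi⟩
  · refine Z_x_ne A (P i) (funext fun k => ?_)
    have h4 := h3 k
    rw [hi, map_zero] at h4
    exact (v.eq_zero).1 (le_antisymm h4 (v.nonneg _))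
  · have h4 := hi c
    rw [D2b_eq] at h4
    have h5 := (mul_eq_zero.1 h4).resolve_left (mul_ne_zero (pow_ne_zero _ (inv_ne_zero hp))
      (pow_ne_zero _ (inv_ne_zero hw)))
    rw [h5, map_zero, mul_zero] at hc
    have h6 : 0 < vm v (A.x (P i)) ^ 2 * vm v (A.x (W i)) ^ 2 :=
      mul_pos (pow_pos (vm_pos v (Z_x_ne A _)) 2) (pow_pos (vm_pos v (Z_x_ne A _)) 2)
    linarith

/-- The coordinates and their derivatives. -/
theorem D2_core {K : Type u} [Field K] [NumberField K] {N : ℕ} {A B : AV K N}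
    (hB : IsSubAV B A) {H : ℕ → ℝ} (hH : Tendsto H (hyperfilter ℕ : Filter ℕ) atTop)
    {P W : ℕ → A.Pts K} {R : ℕ → B.Pts K} {p w : A.Pts (GK K)} {b : B.Pts (GK K)}
    (hP : IsGerm A P p) (hW : IsGerm A W w)
    (hw : ∀ i, rt (A.x w) i ∈ k0 K H hH) (hrel : p - w = hB.inc (GK K) b)
    (hrelK : ∀ᶠ i in (hyperfilter ℕ : Filter ℕ), P i - W i = hB.inc K (R i))
    (D : Derivation K (GK K) (GK K))
    (hD0 : ∀ x ∈ k0 K H hH, D x ∈ k0 K H hH) (hDp : ∀ i, D (rt (A.x p) i) = 0)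
    {n e : ℕ} (nd : Noe B n e) (hl : lf (nd.l 0) (B.x b) ≠ 0) (κ κS : SC K)
    (a₁ a : Fin (N + 1)) (c : Fin (N + 1)) :
    nd.y b c ∈ RS H hH (fun i => S1 nd κ κS a₁ a (P i) (W i) (R i)) ∧
      D (nd.y b c) ∈ RS H hH (fun i => S1 nd κ κS a₁ a (P i) (W i) (R i)) := by
  classical
  -- a coordinate of `w`
  obtain ⟨a₂, ha₂⟩ : ∃ a₂, A.x w a₂ ≠ 0 := by
    by_contra h
    push Not at h
    exact Z_x_ne A w (funext h)
  have hw1 : ∀ᶠ i in (hyperfilter ℕ : Filter ℕ), A.x (W i) a₂ ≠ 0 := (hW.ne_iff a₂).1 ha₂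
  -- the coordinate `a₁`
  by_cases hp0 : A.x p a₁ = 0
  · have h1 : ∀ᶠ i in (hyperfilter ℕ : Filter ℕ), A.x (P i) a₁ = 0 := by
      by_contra hcon
      rw [not_eventually_iff] at hcon
      exact (hP.ne_iff a₁).2 hcon hp0
    have h2 := D2_empty (R := R) nd κ κS a₁ a₂ a (P := P) (W := W)
      (h1.mono fun i hi => Or.inl hi)
    exact ⟨RS_of_empty h2 _, RS_of_empty h2 _⟩
  have hp1 : ∀ᶠ i in (hyperfilter ℕ : Filter ℕ), A.x (P i) a₁ ≠ 0 := (hP.ne_iff a₁).1 hp0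
  obtain ⟨bt, hbt⟩ : ∃ bt : Fin (N + 1) → GK K, bt = D2b A p w a₁ a₂ a := ⟨_, rfl⟩
  have hbg : ∀ c, gm (fun i => D2b A (P i) (W i) a₁ a₂ a c) = bt c := by
    intro c
    rw [hbt]
    exact D2_gm hP hW a₁ a₂ a c
  have hbR : ∀ c, bt c ∈ RS H hH (fun i => S1 nd κ κS a₁ a (P i) (W i) (R i)) ∧
      D (bt c) ∈ RS H hH (fun i => S1 nd κ κS a₁ a (P i) (W i) (R i)) := by
    intro c
    rw [hbt]
    unfold D2b
    refine RS_aevalK D _ (fun t => ?_) _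
    rcases t with t | t
    · constructor
      · show A.x p t / A.x p a₁ ∈ _
        have h3 : A.x p t / A.x p a₁ = gm fun i => A.x (P i) t / A.x (P i) a₁ := hP.rt (t, a₁)
        rw [h3]
        refine RS_of_le (⟨∅, 0⟩ : SC K) ?_
        filter_upwards [hp1] with i hi v _ hv
        obtain ⟨-, h3, -⟩ := hv
        rw [map_div₀]
        exact ((div_le_one (v.pos hi)).2 (h3 t)).trans (SC.one_le _ v)
      · show D (A.x p t / A.x p a₁) ∈ _
        have h1 : D (A.x p t / A.x p a₁) = 0 := hDp (t, a₁)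
        rw [h1]
        exact zero_mem _
    · have h1 : A.x w t / A.x w a₂ ∈ k0 K H hH := hw (t, a₂)
      exact ⟨RS_k0 h1, RS_k0 (hD0 _ h1)⟩
  obtain ⟨ρ, hρ⟩ := D2b_rel hB hrel a₁ a₂ a
  rw [← hbt] at hρ
  by_cases hρ0 : ρ = 0
  · -- the column vanishes
    have h1 : ∀ᶠ i in (hyperfilter ℕ : Filter ℕ), ∀ c, D2b A (P i) (W i) a₁ a₂ a c = 0 := by
      rw [eventually_all]
      intro c
      have h2 := hbg c
      rw [hρ, hρ0, zero_mul, ← gm_zero, gm_eq_iff] at h2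
      exact h2
    have h2 := D2_empty (R := R) nd κ κS a₁ a₂ a (P := P) (W := W)
      (((h1.and hw1).and hp1).mono fun i hi => Or.inr ⟨hi.1.2, hi.2, hi.1.1⟩)
    exact ⟨RS_of_empty h2 _, RS_of_empty h2 _⟩
  have hl' : lf (nd.l 0) bt = ρ * lf (nd.l 0) (B.x b) := by
    rw [funext hρ, lf_smul]
  have hl0 : lf (nd.l 0) bt ≠ 0 := by
    rw [hl']
    exact mul_ne_zero hρ0 hl
  have hy : ∀ c, nd.y b c = bt c * (lf (nd.l 0) bt)⁻¹ := by
    intro c
    rw [hl', hρ c]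
    show B.x b c / lf (nd.l 0) (B.x b) = _
    field_simp
  have hDlf : D (lf (nd.l 0) bt) = lf (nd.l 0) fun c => D (bt c) := by
    unfold lf
    rw [map_sum]
    refine Finset.sum_congr rfl fun c _ => ?_
    rw [Derivation.leibniz, Derivation.map_algebraMap, smul_zero, add_zero, smul_eq_mul]
  have hlfg : gm (fun i => lf (nd.l 0) (D2b A (P i) (W i) a₁ a₂ a)) = lf (nd.l 0) bt := by
    unfold lf
    rw [gm_sum]
    refine Finset.sum_congr rfl fun c _ => ?_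
    rw [gm_mul, hbg]
    rfl
  -- the inverse of the linear form
  have hinv : (lf (nd.l 0) bt)⁻¹ ∈
      RS H hH (fun i => S1 nd κ κS a₁ a (P i) (W i) (R i)) := by
    rw [← hlfg, ← gm_inv]
    refine RS_of_le (κ.mul κS) ?_
    filter_upwards [hp1, hw1, hrelK] with i hpa hwa hr v _ hv
    exact D2_inv hB nd κ κS a₁ a₂ a hr hpa hwa hv
  have hlfR : lf (nd.l 0) (fun c => D (bt c)) ∈
      RS H hH (fun i => S1 nd κ κS a₁ a (P i) (W i) (R i)) := by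
    unfold lf
    exact sum_mem fun c _ => mul_mem (RS_k0 ((k0 K H hH).algebraMap_mem _)) (hbR c).2
  rw [hy c]
  refine ⟨mul_mem (hbR c).1 hinv, ?_⟩
  rw [Derivation.leibniz, Derivation.leibniz_inv, hDlf, smul_eq_mul, smul_eq_mul, smul_eq_mul]
  refine add_mem (mul_mem (hbR c).1 (mul_mem ?_ hlfR)) (mul_mem hinv (hbR c).2)
  exact neg_mem (pow_mem hinv 2)

end Pool.Agent.Lib.MP_17a322_nt.SL
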