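import Pool.Agent.Lib.MP_17a322_nt.SL.D2
import Pool.Agent.Lib.MP_17a322_nt.VP.S6

/-!
The derivatives of functions which are regular in a chart are bounded at the places at which the point is
in the chart.
-/

universe u

namespace Pool.Agent.Lib.MP_17a322_nt.SL

open MvPolynomial Height Filter
open Pool.Agent.Lib.MP_17a322_nt.RO
open Pool.Agent.Lib.MP_17a322_nt.VJ
open Pool.Agent.Lib.MP_17a322_nt.VN hiding lf
open Pool.Agent.Lib.MP_17a322_nt.VA
open Pool.Agent.Lib.MP_17a322_nt.VP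

open Classical in
/-- The derivatives of functions which are regular in a chart. -/
theorem DB {K : Type u} [Field K] [NumberField K] {N : ℕ} {A B : AV K N} (hB : IsSubAV B A)
    {H : ℕ → ℝ} (hH : Tendsto H (hyperfilter ℕ : Filter ℕ) atTop) (P : ℕ → A.Pts K)
    (p : A.Pts (GK K)) (W : ℕ → A.Pts K) (w : A.Pts (k0 K H hH)) (w' : A.Pts (GK K))
    (Q : ℕ → B.Pts K) (b : B.Pts (GK K)) {n : ℕ} (hA : GeoA hB hH P p W w w' Q b)
    (D : Derivation K (GK K) (GK K))
    (hD0 : ∀ x ∈ k0 K H hH, D x ∈ k0 K H hH) (hDp : ∀ a, D (rt (A.x p) a) = 0) (κ : SC K)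
    (β : B.Pts K) {e : ℕ} (nd : Noe B n e) (hgood : nd.Good (b - B.img (Algebra.ofId K (GK K)) β))
    (G : MvPolynomial (Fin (N + 1)) (k0 K H hH)) (z z' : ℕ → K)
    (hz : gm z = aeval (nd.y (b - B.img (Algebra.ofId K (GK K)) β)) G) (hz' : gm z' = D (gm z))
    (ε : ℝ) (hε : 0 < ε) :
    ∀ᶠ i in (hyperfilter ℕ : Filter ℕ),
      gs (fun v : AbsoluteValue K ℝ => if nd.In κ v (Q i - β) then
        Real.log (max 1 (v (z' i))) else 0) ≤ ε * H i := by
  obtain ⟨κS, hκS⟩ := A.S_lower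
  obtain ⟨q₁, hq₁⟩ : ∃ q₁, q₁ = B.img (Algebra.ofId K (GK K)) β := ⟨_, rfl⟩
  rw [← hq₁] at hz hgood
  have hβ : B.Img (Algebra.ofId K (GK K)) β q₁ := by
    rw [hq₁]
    exact Z_img_img _ _
  -- the translation
  have hW₂ : IsGerm A (fun ν => W ν + hB.inc K β) (w' + hB.inc (GK K) q₁) :=
    (hA.germW.add_sub (IsGerm.inc hB (IsGerm.const β hβ))).1
  have hw₁ : A.Img (k0 K H hH).val
      (A.img (Algebra.ofId K (k0 K H hH)) (hB.inc K β)) (hB.inc (GK K) q₁) := by
    obtain ⟨y, hy⟩ := Z_exists_img A (k0 K H hH).val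
      (A.img (Algebra.ofId K (k0 K H hH)) (hB.inc K β))
    have h1 := Z_img_trans A (Z_img_img (Algebra.ofId K (k0 K H hH)) (hB.inc K β)) hy
    have h2 : (k0 K H hH).val.comp (Algebra.ofId K (k0 K H hH)) = Algebra.ofId K (GK K) :=
      Subsingleton.elim _ _
    rw [h2] at h1
    rw [← Z_img_unique A h1 (Z_inc_img hB hβ)]
    exact hy
  have hw₂ := Z_img_add A hA.img hw₁
  have hwk : ∀ i, rt (A.x (w' + hB.inc (GK K) q₁)) i ∈ k0 K H hH := fun i => Z_rt_mem A hw₂ i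
  have hrel : p - (w' + hB.inc (GK K) q₁) = hB.inc (GK K) (b - q₁) := by
    rw [map_sub, hA.rel]
    abel
  have hrelK : ∀ᶠ i in (hyperfilter ℕ : Filter ℕ),
      P i - (W i + hB.inc K β) = hB.inc K (Q i - β) := by
    filter_upwards [hA.relK] with i hi
    rw [map_sub, hi]
    abel
  -- the sets of places
  have hRS : ∀ a : Fin (N + 1) × Fin (N + 1), oH H fun i => gs (szS
      (S1 nd κ κS a.1 a.2 (P i) (W i + hB.inc K β) (Q i - β)) (z' i)) := by
    intro a
    rw [← mem_RS (hH := hH) (S := fun i => S1 nd κ κS a.1 a.2 (P i) (W i + hB.inc K β) (Q i - β)),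
      hz', hz]
    exact (RS_aeval D hD0 _ (fun c => D2_core hB hH hA.germP hW₂ hwk hrel hrelK D hD0 hDp nd
      hgood.1 κ κS a.1 a.2 c) G).2
  have hsum := oH.sum hH (Finset.univ : Finset (Fin (N + 1) × Fin (N + 1))) _ fun a _ => hRS a
  filter_upwards [hsum ε hε] with i hi
  refine le_trans ?_ hi
  rw [← gs_sum _ fun a _ => FS_szS _ _]
  have hFS : FS fun v : AbsoluteValue K ℝ => if nd.In κ v (Q i - β) then
      Real.log (max 1 (v (z' i))) else 0 := FS_szS (fun v => nd.In κ v (Q i - β)) (z' i)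
  refine gs_le hFS (FS_sum _ fun a _ => FS_szS _ _) fun v _ => ?_
  split_ifs with hIn
  · obtain ⟨a₁, ha₁⟩ := Finite.exists_max fun k => v (A.x (P i) k)
    obtain ⟨a, c, hac⟩ := hκS K v (A.x (P i)) (A.x (W i + hB.inc K β)) (Z_x_isPt A _)
      (Z_x_isPt A _)
    have h1 : S1 nd κ κS a₁ a (P i) (W i + hB.inc K β) (Q i - β) v := ⟨hIn, ha₁, c, hac⟩
    have h2 : szS (S1 nd κ κS a₁ a (P i) (W i + hB.inc K β) (Q i - β)) (z' i) v =
        Real.log (max 1 (v (z' i))) := by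
      unfold szS
      rw [if_pos h1]
    rw [← h2]
    exact Finset.single_le_sum (f := fun a : Fin (N + 1) × Fin (N + 1) =>
      szS (S1 nd κ κS a.1 a.2 (P i) (W i + hB.inc K β) (Q i - β)) (z' i) v)
      (fun a _ => szS_nonneg _ _ _) (Finset.mem_univ (a₁, a))
  · exact Finset.sum_nonneg fun a _ => szS_nonneg _ _ _

end Pool.Agent.Lib.MP_17a322_nt.SL
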