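import Pool.Agent.Lib.MP_17a322_nt.VA.Z17

/-!
Finitely many translates by points of `B(K)` cover all points and all places by the étale locus of one
Noether normalisation.
-/

universe u

namespace Pool.Agent.Lib.MP_17a322_nt.SL

open MvPolynomial Height
open Pool.Agent.Lib.MP_17a322_nt.RO
open Pool.Agent.Lib.MP_17a322_nt.VJ
open Pool.Agent.Lib.MP_17a322_nt.VN hiding lf
open Pool.Agent.Lib.MP_17a322_nt.VA

section

variable {K : Type u} [Field K] {N : ℕ} {B : AV K N} {n e : ℕ} (nd : Noe B n e)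

/-- Some translate of a point by a point of `B(K)` is good. -/
theorem P3_shift (hle : B.vI ≤ B.I) (L : Type u) [Field L] [Algebra K L] (P : B.Pts L) :
    ∃ p : B.Pts K, nd.Good (P - B.img (Algebra.ofId K L) p) := by
  classical
  by_contra hcon
  push Not at hcon
  have hGv : nd.gf ∉ B.vI := fun h => nd.gf_notMem (hle h)
  rw [AV.mem_vI] at hGv
  push Not at hGv
  obtain ⟨v, ⟨c, p₀, hv⟩, hGv⟩ := hGv
  have hc : c ≠ 0 := by
    rintro rfl
    apply hGv
    have h1 : v = fun _ => 0 := by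
      rw [hv]
      funext i
      exact zero_mul _
    rw [h1]
    exact nd.gf_zero
  have hrep : B.Rep p₀ v := ⟨c, hc, fun i => congrFun hv i⟩
  have hrep' : B.Rep (B.img (Algebra.ofId K L) p₀) fun i => Algebra.ofId K L (v i) := hrep.img _
  have hgood : nd.Good (B.img (Algebra.ofId K L) p₀) := by
    rw [← nd.gf_ne_iff hrep', ← comp_aeval_apply]
    exact (map_ne_zero _).2 hGv
  have h1 : ∀ a, ∀ w ∈ B.cone, eval (fun i => algebraMap K L (w i)) (aeval (R := K)
      (fun b' => aeval (R := K) (Sum.elim (fun i => (C (B.x P i) :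
        MvPolynomial (Fin (N + 1)) L)) X) (B.S a b')) nd.gf) = 0 := by
    intro a w hw
    rw [AV.eval_right]
    obtain ⟨c', p, hw⟩ := hw
    by_contra h2
    by_cases hc' : c' = 0
    · apply h2
      have h3 : (fun b' => aeval (Sum.elim (B.x P) fun i => algebraMap K L (w i))
          (B.S a b')) = fun _ => 0 := by
        funext b'
        have h4 : (fun i => algebraMap K L (w i)) = fun _ => 0 := by
          funext i
          rw [hw, hc']
          show algebraMap K L (0 * B.x p i) = 0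
          rw [zero_mul, map_zero]
        rw [h4]
        exact AV.s2_zero_right (A := B) (B.x P) a b'
      rw [h3, nd.gf_zero]
    · have hr : B.Rep (B.img (Algebra.ofId K L) p) fun i => algebraMap K L (w i) :=
        (show B.Rep p w from ⟨c', hc', fun i => congrFun hw i⟩).img _
      obtain ⟨k, hk, h3⟩ := (AV.Rep.self P).spec hr
      by_cases h4 : B.x (P + B.img (Algebra.ofId K L) p) a = 0
      · apply h2
        have h5 : (fun b' => aeval (Sum.elim (B.x P) fun i => algebraMap K L (w i))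
            (B.S a b')) = fun _ => 0 := by
          funext b'
          rw [h3, h4, zero_mul, mul_zero]
        rw [h5, nd.gf_zero]
      · have h6 : B.Rep (P - B.img (Algebra.ofId K L) p) fun b' =>
            aeval (Sum.elim (B.x P) fun i => algebraMap K L (w i)) (B.S a b') :=
          (AV.Rep.self P).sub hr h4
        exact hcon p ((nd.gf_ne_iff h6).1 h2)
  let P₁ : B.Pts L := P - B.img (Algebra.ofId K L) p₀
  obtain ⟨a, ha⟩ := B.exists_x_ne (P + P₁)
  have h2 := ZS_ext B.cone (B.x P₁) (fun f hf => B.x_isPt P₁ f (hle (AV.mem_vI.2 hf))) _ (h1 a)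
  rw [AV.eval_right] at h2
  have h3 : B.Rep (P - P₁) fun b' => aeval (Sum.elim (B.x P) (B.x P₁)) (B.S a b') :=
    (AV.Rep.self P).sub (AV.Rep.self P₁) ha
  have h4 : P - P₁ = B.img (Algebra.ofId K L) p₀ := sub_sub_cancel _ _
  rw [h4] at h3
  exact (nd.gf_ne_iff h3).2 hgood h2

/-- The coordinates of the translate by `- p`. -/
noncomputable def tY (p : B.Pts K) (a b' : Fin (N + 1)) : MvPolynomial (Fin (N + 1)) K :=
  aeval (R := K) (Sum.elim X fun i => C (B.x p i)) (B.S a b')

theorem aeval_tY (p : B.Pts K) (a b' : Fin (N + 1)) {L : Type u} [Field L] [Algebra K L]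
    (y : Fin (N + 1) → L) : aeval y (tY p a b') =
      aeval (Sum.elim y fun i => algebraMap K L (B.x p i)) (B.S a b') := by
  unfold tY
  rw [comp_aeval_apply]
  congr 2
  funext s
  cases s with
  | inl i => exact aeval_X _ _
  | inr i => exact (aeval_C _ _)

theorem tY_rep (p : B.Pts K) {L : Type u} [Field L] [Algebra K L] {P : B.Pts L}
    {y : Fin (N + 1) → L} (h : B.Rep P y) (a : Fin (N + 1))
    (hne : (fun b' => aeval y (tY p a b')) ≠ 0) :
    B.Rep (P - B.img (Algebra.ofId K L) p) fun b' => aeval y (tY p a b') := by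
  have hr : B.Rep (B.img (Algebra.ofId K L) p) fun i => algebraMap K L (B.x p i) :=
    (AV.Rep.self p).img _
  have h0 : (fun b' => aeval y (tY p a b')) = fun b' =>
      aeval (Sum.elim y fun i => algebraMap K L (B.x p i)) (B.S a b') :=
    funext fun b' => aeval_tY p a b' y
  obtain ⟨k, hk, h3⟩ := h.spec hr
  have h4 : B.x (P + B.img (Algebra.ofId K L) p) a ≠ 0 := by
    intro h4
    apply hne
    rw [h0]
    funext b'
    rw [h3, h4, zero_mul, mul_zero]
    rfl
  rw [h0]
  exact h.sub hr h4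

/-- The value of `gf` at the translate. -/
noncomputable def tG (p : B.Pts K) (a : Fin (N + 1)) : MvPolynomial (Fin (N + 1)) K :=
  aeval (R := K) (tY p a) nd.gf

theorem aeval_tG (p : B.Pts K) (a : Fin (N + 1)) {L : Type u} [Field L] [Algebra K L]
    (y : Fin (N + 1) → L) : aeval y (tG nd p a) = aeval (fun b' => aeval y (tY p a b')) nd.gf := by
  unfold tG
  rw [comp_aeval_apply]

/-- Finitely many translates suffice. -/
theorem P3_finite (hle : B.vI ≤ B.I) : ∃ T : Finset (B.Pts K × Fin (N + 1)),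
    ∀ (L : Type u) [Field L] [Algebra K L] (x : Fin (N + 1) → L), B.IsPt x →
      (∀ t ∈ T, aeval x (tG nd t.1 t.2) = 0) → ∀ i, aeval x (X i : MvPolynomial (Fin (N + 1)) K) = 0 := by
  classical
  have h1 : ∀ i : Fin (N + 1), (X i : MvPolynomial (Fin (N + 1)) K) ∈
      (Ideal.span ((B.I : Set (MvPolynomial (Fin (N + 1)) K)) ∪
        Set.range fun t : B.Pts K × Fin (N + 1) => tG nd t.1 t.2)).radical := by
    intro i
    refine nullst.{u} _ _ fun L _ _ x hx => ?_
    rw [aeval_X]
    by_contra hxi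
    have hx0 : x ≠ 0 := fun h0 => hxi (congrFun h0 i)
    have hpt : B.IsPt x := fun f hf => hx f (Or.inl hf)
    obtain ⟨P, hP⟩ := AV.exists_rep (A := B) hx0 hpt
    obtain ⟨p, hp⟩ := P3_shift nd hle L P
    have hr : B.Rep (B.img (Algebra.ofId K L) p) fun i => algebraMap K L (B.x p i) :=
      (AV.Rep.self p).img _
    obtain ⟨a, b', hab⟩ := hP.exists_S_ne hr
    have hne : (fun b' => aeval x (tY p a b')) ≠ 0 := by
      intro h0
      apply hab
      rw [← aeval_tY]
      exact congrFun h0 b'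
    have h2 := tY_rep p hP a hne
    have h3 := hx _ (Or.inr ⟨(p, a), rfl⟩)
    rw [aeval_tG] at h3
    exact (nd.gf_ne_iff h2).2 hp h3
  choose M hM using h1
  choose T hT hTm using fun i => Submodule.mem_span_finite_of_mem_span (hM i)
  let T' : Finset (MvPolynomial (Fin (N + 1)) K) := Finset.univ.biUnion T
  have h2 : ∀ g ∈ T', g ∈ B.I ∨ ∃ t : B.Pts K × Fin (N + 1), tG nd t.1 t.2 = g := by
    intro g hg
    obtain ⟨i, -, hi⟩ := Finset.mem_biUnion.1 hg
    rcases hT i hi with h3 | h3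
    · exact Or.inl h3
    · exact Or.inr h3
  let sel : MvPolynomial (Fin (N + 1)) K → B.Pts K × Fin (N + 1) := fun g =>
    if h : ∃ t : B.Pts K × Fin (N + 1), tG nd t.1 t.2 = g then h.choose else (0, 0)
  refine ⟨T'.image sel, fun L _ _ x hx hz i => ?_⟩
  have h3 : ∀ g ∈ T', aeval x g = 0 := by
    intro g hg
    rcases h2 g hg with h4 | h4
    · exact hx g h4
    · have h5 := hz (sel g) (Finset.mem_image_of_mem _ hg)
      have h6 : tG nd (sel g).1 (sel g).2 = g := by
        show tG nd (if h : ∃ t : B.Pts K × Fin (N + 1), tG nd t.1 t.2 = g then h.choose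
          else (0, 0)).1 (if h : ∃ t : B.Pts K × Fin (N + 1), tG nd t.1 t.2 = g then h.choose
          else (0, 0)).2 = g
        rw [dif_pos h4]
        exact h4.choose_spec
      rwa [h6] at h5
  have h4 : aeval x ((X i : MvPolynomial (Fin (N + 1)) K) ^ M i) = 0 :=
    aeval_span (E := ((T i : Finset (MvPolynomial (Fin (N + 1)) K)) :
      Set (MvPolynomial (Fin (N + 1)) K))) (fun g hg => h3 g (Finset.mem_biUnion.2
        ⟨i, Finset.mem_univ _, hg⟩)) (hTm i)
  rw [map_pow] at h4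
  exact (pow_eq_zero_iff (n := M i) fun h0 => by
    rw [h0, pow_zero] at h4
    exact one_ne_zero h4).1 h4

/-- Finitely many translates cover all points and all places. -/
theorem P3_cover (hle : B.vI ≤ B.I) : ∃ (r : ℕ) (p : Fin r → B.Pts K) (κ : SC K),
    ∀ (L : Type u) [Field L] [Algebra K L] (v : AbsoluteValue L ℝ) (P : B.Pts L), ∃ c,
      nd.In κ v (P - B.img (Algebra.ofId K L) (p c)) ∧
        1 ≤ κ.k v * v (aeval (nd.s (P - B.img (Algebra.ofId K L) (p c))) nd.δ) := by
  classical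
  obtain ⟨T, hT⟩ := P3_finite nd hle
  have h1 : ∀ i : Fin (N + 1), ∃ κ : SC K, ∀ (L : Type u) [Field L] [Algebra K L]
      (v : AbsoluteValue L ℝ) (x : Fin (N + 1) → L), B.IsPt x → (∀ t, v (x t) ≤ 1) → x i = 1 →
        ∃ t : T, 1 ≤ κ.k v * v (aeval x (tG nd t.1.1 t.1.2)) := by
    intro i
    obtain ⟨κ, hκ⟩ := lower_bound.{u, u} (B.I : Set (MvPolynomial (Fin (N + 1)) K))
      (fun t : T => tG nd t.1.1 t.1.2) (X i) (fun L _ _ x hx hz =>
        hT L x hx (fun t ht => hz ⟨t, ht⟩) i)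
    exact ⟨κ, fun L _ _ v x hx hx1 hxi => hκ L v x hx hx1 (by rw [aeval_X, hxi])⟩
  choose κ hκ using h1
  obtain ⟨m, S, k, hm, h2⟩ := Adm.family
    (fun (i : Fin (N + 1)) (L : Type u) _ _ v => (κ i).k v) fun i => (κ i).adm
  obtain ⟨κU, hU⟩ := upper_bound.{u, u} (K := K) (σ := Fin (N + 1))
    (fun t : (T × Fin (N + 1)) ⊕ (T ⊕ T) => Sum.elim (fun t => tY t.1.1.1 t.1.1.2 t.2)
      (Sum.elim (fun t => aeval (R := K) (tY t.1.1 t.1.2) (lp (nd.l 0)))
        fun t => aeval (R := K) (tY t.1.1 t.1.2)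
          (hzl (nd.l 0) (fun k => nd.l k.succ) nd.δ)) t)
  let d := nd.δ.totalDegree
  let κ₁ : SC K := (scOf m S k).mul (κU.pw (d + 2))
  refine ⟨Fintype.card T, fun c => ((Fintype.equivFin T).symm c).1.1, κ₁, fun L _ _ v P => ?_⟩
  obtain ⟨i, c, z, hc, hcv, hz, hzi, hz1, -, hzz⟩ := exists_normal v (AV.Rep.self P).ne_zero
  have hzrep : B.Rep P z := by
    rw [funext hzz]
    exact (AV.Rep.self P).smul (inv_ne_zero hc)
  obtain ⟨t, ht⟩ := hκ i L v z hzrep.isPt hz1 hzi
  refine ⟨Fintype.equivFin T t, ?_⟩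
  dsimp only
  rw [Equiv.symm_apply_apply]
  have hE : 1 ≤ (scOf m S k).k v * v (aeval z (tG nd t.1.1 t.1.2)) :=
    ht.trans (mul_le_mul_of_nonneg_right ((h2 i L v).trans (le_scOf hm S k v)) (v.nonneg _))
  set y : Fin (N + 1) → L := fun b' => aeval z (tY t.1.1 t.1.2 b') with hy
  have hG : aeval z (tG nd t.1.1 t.1.2) = lf (nd.l 0) y *
      aeval y (hzl (nd.l 0) (fun k => nd.l k.succ) nd.δ) := by
    rw [aeval_tG, Noe.gf, map_mul, aeval_lp]
  have hUy : ∀ b', v (y b') ≤ κU.k v := fun b' => hU L v z hz1 (Sum.inl (t, b'))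
  have hU0 : v (lf (nd.l 0) y) ≤ κU.k v := by
    have h3 := hU L v z hz1 (Sum.inr (Sum.inl t))
    have h4 : aeval z (aeval (R := K) (tY t.1.1 t.1.2) (lp (nd.l 0))) = lf (nd.l 0) y := by
      rw [comp_aeval_apply, aeval_lp]
    rw [← h4]
    exact h3
  have hU1 : v (aeval y (hzl (nd.l 0) (fun k => nd.l k.succ) nd.δ)) ≤ κU.k v := by
    have h3 := hU L v z hz1 (Sum.inr (Sum.inr t))
    have h4 : aeval z (aeval (R := K) (tY t.1.1 t.1.2)
        (hzl (nd.l 0) (fun k => nd.l k.succ) nd.δ)) =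
        aeval y (hzl (nd.l 0) (fun k => nd.l k.succ) nd.δ) := by
      rw [comp_aeval_apply]
    rw [← h4]
    exact h3
  rw [hG, map_mul] at hE
  have hS0 := (scOf m S k).pos v
  have hU0' := κU.pos v
  have hU1' := κU.one_le v
  have hne0 : lf (nd.l 0) y ≠ 0 := by
    intro h0
    rw [h0, map_zero, zero_mul, mul_zero] at hE
    linarith
  have hyne : y ≠ 0 := by
    intro h0
    apply hne0
    rw [h0]
    unfold lf
    exact Finset.sum_eq_zero fun _ _ => mul_zero _
  have hyrep : B.Rep (P - B.img (Algebra.ofId K L) t.1.1) y := tY_rep t.1.1 hzrep t.1.2 hyne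
  have hgf := nd.gf_eq hyrep
  rw [Noe.gf, map_mul, aeval_lp] at hgf
  have hhz : aeval y (hzl (nd.l 0) (fun k => nd.l k.succ) nd.δ) = lf (nd.l 0) y ^ d *
      aeval (nd.s (P - B.img (Algebra.ofId K L) t.1.1)) nd.δ := mul_left_cancel₀ hne0 hgf
  have hκ1 : (scOf m S k).k v * κU.k v ^ (d + 2) ≤ κ₁.k v :=
    (mul_le_mul_of_nonneg_left (κU.pow_le _ v) hS0.le).trans (SC.mul_le _ _ v)
  constructor
  · -- the chart
    obtain ⟨c', hc', hyc⟩ := hyrep
    have hcv' : 0 < v c' := v.pos hc'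
    have h5 : lf (nd.l 0) y = c' * lf (nd.l 0) (B.x (P - B.img (Algebra.ofId K L) t.1.1)) := by
      rw [funext hyc, lf_smul]
    intro j
    have h6 : v (y j) ≤ κ₁.k v * v (lf (nd.l 0) y) := by
      have h7 : 1 ≤ (scOf m S k).k v * κU.k v * v (lf (nd.l 0) y) := by
        refine hE.trans ?_
        have h8 : v (lf (nd.l 0) y) * v (aeval y (hzl (nd.l 0) (fun k => nd.l k.succ) nd.δ)) ≤
            v (lf (nd.l 0) y) * κU.k v := mul_le_mul_of_nonneg_left hU1 (v.nonneg _)
        calc (scOf m S k).k v * (v (lf (nd.l 0) y) *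
              v (aeval y (hzl (nd.l 0) (fun k => nd.l k.succ) nd.δ))) ≤
              (scOf m S k).k v * (v (lf (nd.l 0) y) * κU.k v) :=
              mul_le_mul_of_nonneg_left h8 hS0.le
          _ = _ := by ring
      have h9 : κU.k v ≤ κU.k v ^ 2 * (scOf m S k).k v * v (lf (nd.l 0) y) := by
        have h10 := mul_le_mul_of_nonneg_left h7 hU0'.le
        calc κU.k v = κU.k v * 1 := (mul_one _).symm
          _ ≤ κU.k v * ((scOf m S k).k v * κU.k v * v (lf (nd.l 0) y)) := h10
          _ = _ := by ring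
      refine (hUy j).trans (h9.trans (mul_le_mul_of_nonneg_right ?_ (v.nonneg _)))
      refine le_trans ?_ hκ1
      rw [mul_comm]
      exact mul_le_mul_of_nonneg_left (pow_le_pow_right₀ hU1' (by omega)) hS0.le
    rw [hyc j, h5, map_mul, map_mul] at h6
    have h7 : v c' * v (B.x (P - B.img (Algebra.ofId K L) t.1.1) j) ≤
        v c' * (κ₁.k v * v (lf (nd.l 0) (B.x (P - B.img (Algebra.ofId K L) t.1.1)))) := by
      calc _ ≤ _ := h6
        _ = _ := by ring
    exact le_of_mul_le_mul_left h7 hcv'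
  · -- the value of `δ`
    have h5 : v (lf (nd.l 0) y) * v (aeval y (hzl (nd.l 0) (fun k => nd.l k.succ) nd.δ)) ≤
        κU.k v ^ (d + 1) * v (aeval (nd.s (P - B.img (Algebra.ofId K L) t.1.1)) nd.δ) := by
      rw [hhz, map_mul, map_pow, ← mul_assoc, ← pow_succ']
      exact mul_le_mul_of_nonneg_right (pow_le_pow_left₀ (v.nonneg _) hU0 _) (v.nonneg _)
    refine hE.trans ?_
    calc _ ≤ (scOf m S k).k v * (κU.k v ^ (d + 1) *
          v (aeval (nd.s (P - B.img (Algebra.ofId K L) t.1.1)) nd.δ)) :=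
          mul_le_mul_of_nonneg_left h5 hS0.le
      _ = (scOf m S k).k v * κU.k v ^ (d + 1) *
          v (aeval (nd.s (P - B.img (Algebra.ofId K L) t.1.1)) nd.δ) := by ring
      _ ≤ _ := mul_le_mul_of_nonneg_right (le_trans (mul_le_mul_of_nonneg_left
          (pow_le_pow_right₀ hU1' (by omega)) hS0.le) hκ1) (v.nonneg _)

end

end Pool.Agent.Lib.MP_17a322_nt.SL
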