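import Pool.Agent.Lib.MP_17a322_nt.SL.P5

/-!
The local inequality at a place and values of polynomials over `k0` at the members of a sequence.
-/

universe u

namespace Pool.Agent.Lib.MP_17a322_nt.SL

open MvPolynomial Height Filter
open Pool.Agent.Lib.MP_17a322_nt.RO
open Pool.Agent.Lib.MP_17a322_nt.VJ
open Pool.Agent.Lib.MP_17a322_nt.VN hiding lf
open Pool.Agent.Lib.MP_17a322_nt.VA
open Pool.Agent.Lib.MP_17a322_nt.VP

theorem P6_local {K : Type u} [Field K] (v : AbsoluteValue K ℝ) {M : ℕ}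
    (G : Option (Fin M) → Fin M → K) (S : Finset (Fin M)) (d : ℕ) (D a a' : K) (κ : ℝ)
    (hκ : 1 ≤ κ) (h1 : 1 ≤ κ * v D) (h2 : ∃ l, G none l = a)
    (h3 : ∑ l ∈ S, G (some l) l = D ^ d * a') (ha : a ≠ 0) :
    ∃ t, - Real.log (min 1 (⨆ l, v (G t l))) ≤ - Real.log (min 1 (max (v a) (v a'))) +
      (Real.log (cst v (M + 1)) + d * Real.log κ) := by
  obtain ⟨t, ht⟩ := Finite.exists_max fun t => ⨆ l, v (G t l)
  refine ⟨t, ?_⟩
  obtain ⟨g, hg⟩ : ∃ g, g = ⨆ l, v (G t l) := ⟨_, rfl⟩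
  rw [← hg]
  have hle : ∀ t' l, v (G t' l) ≤ g := fun t' l => by
    rw [hg]
    exact (le_ciSup (Set.finite_range fun l => v (G t' l)).bddAbove l).trans (ht t')
  have hag : v a ≤ g := by
    obtain ⟨l, hl⟩ := h2
    rw [← hl]
    exact hle _ _
  have g0 : 0 < g := (v.pos ha).trans_le hag
  have hc1 : 1 ≤ cst v (M + 1) := one_le_cst v (Nat.le_add_left _ _)
  have h4 : v (D ^ d * a') ≤ cst v (M + 1) * g := by
    rw [← h3]
    refine ((SN_self v).sum_le S _ g0.le (fun l _ => hle _ _)).trans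
      (mul_le_mul_of_nonneg_right (cst_mono v ?_) g0.le)
    exact (Finset.card_le_univ S).trans (by rw [Fintype.card_fin]; omega)
  have h5 : v a' ≤ κ ^ d * (cst v (M + 1) * g) := by
    have h6 : 1 * v a' ≤ (κ * v D) ^ d * v a' :=
      mul_le_mul_of_nonneg_right (one_le_pow₀ h1) (v.nonneg _)
    rw [one_mul] at h6
    refine h6.trans ?_
    rw [map_mul, map_pow] at h4
    calc (κ * v D) ^ d * v a' = κ ^ d * (v D ^ d * v a') := by ring
      _ ≤ _ := mul_le_mul_of_nonneg_left h4 (by positivity)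
  have hκd : 1 ≤ κ ^ d := one_le_pow₀ hκ
  have hE1 : 1 ≤ cst v (M + 1) * κ ^ d := one_le_mul_of_one_le_of_one_le hc1 hκd
  have hmax : max (v a) (v a') ≤ cst v (M + 1) * κ ^ d * g := by
    refine max_le ?_ ?_
    · calc v a ≤ 1 * g := by rw [one_mul]; exact hag
        _ ≤ _ := mul_le_mul_of_nonneg_right hE1 g0.le
    · calc v a' ≤ κ ^ d * (cst v (M + 1) * g) := h5
        _ = _ := by ring
  have hmin : min 1 (max (v a) (v a')) ≤ cst v (M + 1) * κ ^ d * min 1 g := by
    rcases le_total g 1 with h6 | h6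
    · rw [min_eq_right h6]
      exact (min_le_right _ _).trans hmax
    · rw [min_eq_left h6, mul_one]
      exact (min_le_left _ _).trans hE1
  have hpos : 0 < min 1 (max (v a) (v a')) := lt_min one_pos (lt_max_of_lt_left (v.pos ha))
  have hpos' : 0 < min 1 g := lt_min one_pos g0
  have h7 := Real.log_le_log hpos hmin
  rw [Real.log_mul (by positivity) hpos'.ne', Real.log_mul (by positivity) (by positivity),
    Real.log_pow] at h7
  linarith

section

variable {K : Type u} [Field K] [NumberField K] {N : ℕ} {A : AV K N} {n e : ℕ} (nd : Noe A n e)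
  {Q : ℕ → A.Pts K} {b : A.Pts (GK K)} (hb : IsGerm A Q b)

include hb

theorem P6_y_germ (a : Fin (N + 1)) : nd.y b a = gm fun i => nd.y (Q i) a := by
  obtain ⟨c, hc0, hc⟩ := hb
  have h1 : gm (fun i => nd.y (Q i) a) =
      gm (fun i => A.x (Q i) a) / gm (fun i => lf (nd.l 0) (A.x (Q i))) := gm_div _ _
  rw [h1, FA5_lf hc, hc, mul_div_mul_left _ _ hc0]
  rfl

theorem P6_gm_y {H : ℕ → ℝ} {hH : Tendsto H (hyperfilter ℕ : Filter ℕ) atTop}
    (G : MvPolynomial (Fin (N + 1)) (k0 K H hH)) :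
    gm (fun i => eval (nd.y (Q i)) (pr G i)) = aeval (nd.y b) G := by
  rw [gm_eval_pr G fun i => nd.y (Q i)]
  congr 2
  exact funext fun a => (P6_y_germ nd hb a).symm

theorem P6_gm_s {H : ℕ → ℝ} {hH : Tendsto H (hyperfilter ℕ : Filter ℕ) atTop}
    (G : MvPolynomial (Fin n) (k0 K H hH)) :
    gm (fun i => eval (nd.s (Q i)) (pr G i)) = aeval (nd.s b) G := by
  rw [gm_eval_pr G fun i => nd.s (Q i)]
  congr 2
  exact funext fun a => (s_germ nd hb a).symm

theorem P6_gm_s' (G : MvPolynomial (Fin n) K) :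
    gm (fun i => aeval (nd.s (Q i)) G) = aeval (nd.s b) G := by
  rw [gm_aeval]
  congr 2
  exact funext fun a => (s_germ nd hb a).symm

end

end Pool.Agent.Lib.MP_17a322_nt.SL
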