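import Pool.Agent.Lib.MP_17a322_nt.SL.Geo
import Pool.Agent.Lib.MP_17a322_nt.SL.P3
import Pool.Agent.Lib.MP_17a322_nt.SL.P6
import Pool.Agent.Lib.MP_17a322_nt.VP.I1

/-!
Vectors over `k0(b)` have finitely many multiples with values which are primitive up to `o(H)`.
-/

universe u

namespace Pool.Agent.Lib.MP_17a322_nt.SL

open MvPolynomial Height Filter
open Pool.Agent.Lib.MP_17a322_nt.RO
open Pool.Agent.Lib.MP_17a322_nt.VJ
open Pool.Agent.Lib.MP_17a322_nt.VN hiding lf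
open Pool.Agent.Lib.MP_17a322_nt.VA
open Pool.Agent.Lib.MP_17a322_nt.VP

theorem P7_FS {L : Type*} [Field L] [AdmissibleAbsValues L] {f g : AbsoluteValue L ℝ → ℝ}
    (hg : FS g) (h0 : ∀ v, 0 ≤ f v) (h : ∀ v, f v ≤ g v) : FS f := by
  refine hg.subset fun v hv => ?_
  intro h1
  exact hv (le_antisymm ((h v.val).trans h1.le) (h0 v.val))

theorem P7_nonneg {t : ℝ} (ht : 0 ≤ t) : 0 ≤ - Real.log (min 1 t) :=
  neg_nonneg.2 (Real.log_nonpos (le_min zero_le_one ht) (min_le_left _ _))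

/-- The coordinates of a translate by a point over `K`. -/
theorem P7_rt {K : Type u} [Field K] {k L : Type u} [Field k] [Algebra K k] [Field L]
    [Algebra k L] [Algebra K L] [IsScalarTower K k L] {N : ℕ} {B : AV K N} (b : B.Pts L)
    (p : B.Pts K) (i : Fin (N + 1) × Fin (N + 1)) :
    rt (B.x (b - B.img (Algebra.ofId K L) p)) i ∈
      IntermediateField.adjoin k (Set.range (rt (B.x b))) := by
  obtain ⟨E, hE⟩ : ∃ E, E = (IntermediateField.adjoin k (Set.range (rt (B.x b)))).restrictScalars K :=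
    ⟨_, rfl⟩
  have hEr : ∀ i, rt (B.x b) i ∈ E := fun i => by
    rw [hE]
    exact rt_self_mem k (B.x b) i
  obtain ⟨b₀, hb₀⟩ := Z_descend B E b hEr
  have h1 : B.Img E.val (B.img (Algebra.ofId K E) p) (B.img (Algebra.ofId K L) p) := by
    obtain ⟨y, hy⟩ := Z_exists_img B E.val (B.img (Algebra.ofId K E) p)
    have h1 := Z_img_trans B (Z_img_img (Algebra.ofId K E) p) hy
    have h2 : E.val.comp (Algebra.ofId K E) = Algebra.ofId K L := Subsingleton.elim _ _
    rw [h2] at h1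
    rw [← Z_img_unique B h1 (Z_img_img (Algebra.ofId K L) p)]
    exact hy
  have h3 := Z_rt_mem B (Z_img_sub B hb₀ h1) i
  rw [hE] at h3
  exact h3

theorem P7_mem {K : Type u} [Field K] {k L : Type u} [Field k] [Algebra K k] [Field L]
    [Algebra k L] [Algebra K L] [IsScalarTower K k L] {N : ℕ} {B : AV K N} (b : B.Pts L)
    (p : B.Pts K) {x : L} (hx : x ∈ IntermediateField.adjoin k (Set.range (rt (B.x b)))) :
    x ∈ IntermediateField.adjoin k
      (Set.range (rt (B.x (b - B.img (Algebra.ofId K L) p)))) := by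
  have h1 : IntermediateField.adjoin k (Set.range (rt (B.x b))) ≤ IntermediateField.adjoin k
      (Set.range (rt (B.x (b - B.img (Algebra.ofId K L) p)))) := by
    rw [IntermediateField.adjoin_le_iff]
    rintro _ ⟨i, rfl⟩
    have h2 := P7_rt (k := k) (b - B.img (Algebra.ofId K L) p) (-p) i
    have h3 : b - B.img (Algebra.ofId K L) p - B.img (Algebra.ofId K L) (-p) = b := by
      rw [AV.img_neg]
      abel
    rw [h3] at h2
    exact h2
  exact h1 hx

variable {K : Type u} [Field K] [NumberField K] {N : ℕ} {B : AV K N} {H : ℕ → ℝ}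
  {hH : Tendsto H (hyperfilter ℕ : Filter ℕ) atTop} {Q : ℕ → B.Pts K} {b : B.Pts (GK K)} {n : ℕ}

/-- One translate. -/
theorem P7_one (hG : GeoB B hH Q b n) {e : ℕ} (nd : Noe B n e) (κ : SC K) (p : B.Pts K)
    (hgood : nd.Good (b - B.img (Algebra.ofId K (GK K)) p)) {M : ℕ} (x : Fin M → GK K)
    (hx : ∃ l, x l ≠ 0)
    (hxm : ∀ l, x l ∈ IntermediateField.adjoin (k0 K H hH) (Set.range (rt (B.x b)))) :
    ∃ (f : Option (Fin M) → GK K)
      (G : Option (Fin M) → Fin M → MvPolynomial (Fin (N + 1)) (k0 K H hH))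
      (T : ℕ → AbsoluteValue K ℝ → ℝ), (∀ t, f t ≠ 0) ∧
      (∀ t l, f t * x l = aeval (nd.y (b - B.img (Algebra.ofId K (GK K)) p)) (G t l)) ∧
      (∀ i, FS (T i)) ∧ (∀ i v, 0 ≤ T i v) ∧
      (∀ ε : ℝ, 0 < ε → ∀ᶠ i in (hyperfilter ℕ : Filter ℕ), gs (T i) ≤ ε * H i) ∧
      ∀ a : Option (Fin M) → Fin M → ℕ → K, (∀ t l, gm (a t l) = f t * x l) →
        ∀ᶠ i in (hyperfilter ℕ : Filter ℕ), ∀ v : AbsoluteValue K ℝ, nd.In κ v (Q i - p) →
          1 ≤ κ.k v * v (aeval (nd.s (Q i - p)) nd.δ) →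
          ∃ t, - Real.log (min 1 (⨆ l, v (a t l i))) ≤ T i v := by
  classical
  have hb' : IsGerm B (fun i => Q i - p) (b - B.img (Algebra.ofId K (GK K)) p) :=
    (hG.germ.add_sub (IsGerm.const p (Z_img_img _ _))).2
  obtain ⟨z₀, z₁, d, f, G, S, hrel, hz₀, hf, hfG, ⟨l₀, hl₀⟩, hs⟩ :=
    P5_data nd (b - B.img (Algebra.ofId K (GK K)) p) hgood (hG.indep p nd hgood) x hx
      fun l => P7_mem b p (hxm l)
  obtain ⟨a₀, ha₀⟩ := exists_gm (aeval (nd.s (b - B.img (Algebra.ofId K (GK K)) p)) z₀)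
  obtain ⟨a₁, ha₁⟩ := exists_gm (aeval (nd.s (b - B.img (Algebra.ofId K (GK K)) p)) z₁)
  have hgain := P4_gain B hH (fun i => Q i - p) (hG.frm p) (hG.low p) (hG.upp p)
    (b - B.img (Algebra.ofId K (GK K)) p) hb' hG.dim nd κ hgood (hG.noRat p) z₀ z₁ hrel
    (Or.inl hz₀) a₀ a₁ ha₀ ha₁
  have hFS1 : ∀ i, FS fun v : AbsoluteValue K ℝ => if nd.In κ v (Q i - p) then
      - Real.log (min 1 (max (v (a₀ i)) (v (a₁ i)))) else 0 := fun i =>
    gnA_FS nd κ (Q i - p) (a₀ i) (a₁ i)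
  have hFS2 : FS fun v : AbsoluteValue K ℝ => Real.log (cst v (M + 1)) +
      (d : ℝ) * Real.log (κ.k v) :=
    FS_add (FS_log_cst _) (FS_const_mul _ (κ.FS_log K))
  refine ⟨f, G, fun i v => (if nd.In κ v (Q i - p) then
      - Real.log (min 1 (max (v (a₀ i)) (v (a₁ i)))) else 0) +
      (Real.log (cst v (M + 1)) + (d : ℝ) * Real.log (κ.k v)), hf, hfG,
    fun i => FS_add (hFS1 i) hFS2, fun i v => ?_, fun ε hε => ?_, fun a ha => ?_⟩
  · refine add_nonneg ?_ (add_nonneg (Real.log_nonneg (one_le_cst v (Nat.le_add_left _ _)))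
      (mul_nonneg (Nat.cast_nonneg _) (Real.log_nonneg (κ.one_le v))))
    split_ifs
    · exact P7_nonneg (le_max_of_le_left (v.nonneg _))
    · exact le_rfl
  · filter_upwards [hgain (ε / 2) (by positivity),
      oH_const hH (gs fun v : AbsoluteValue K ℝ => Real.log (cst v (M + 1)) +
        (d : ℝ) * Real.log (κ.k v)) (ε / 2) (by positivity)] with i h1 h2
    rw [gs_add (hFS1 i) hFS2]
    have h3 : gs (fun v : AbsoluteValue K ℝ => if nd.In κ v (Q i - p) then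
        - Real.log (min 1 (max (v (a₀ i)) (v (a₁ i)))) else 0) =
        nd.gn κ (Q i - p) (a₀ i) (a₁ i) := rfl
    rw [h3]
    linarith
  · have e1 : ∀ᶠ i in (hyperfilter ℕ : Filter ℕ), a none l₀ i = a₀ i := by
      rw [← gm_eq_iff]
      show gm (a none l₀) = gm a₀
      rw [ha, hfG, hl₀, ha₀]
    have e2 : ∀ᶠ i in (hyperfilter ℕ : Filter ℕ), ∑ l ∈ S, a (some l) l i =
        aeval (nd.s (Q i - p)) nd.δ ^ d * a₁ i := by
      rw [← gm_eq_iff, gm_sum, gm_mul]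
      have h1 : gm (fun i => aeval (nd.s (Q i - p)) nd.δ ^ d) =
          aeval (nd.s (b - B.img (Algebra.ofId K (GK K)) p)) nd.δ ^ d := by
        rw [← P6_gm_s' nd hb' nd.δ]
        rfl
      rw [h1]
      have h2 : gm (fun i => a₁ i) = gm a₁ := rfl
      rw [h2, ha₁, ← hs]
      exact Finset.sum_congr rfl fun l _ => (ha (some l) l).trans (hfG _ _)
    have e3 : ∀ᶠ i in (hyperfilter ℕ : Filter ℕ), a₀ i ≠ 0 := by
      rw [← gm_ne_zero_iff]
      show gm a₀ ≠ 0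
      rw [ha₀]
      exact hz₀
    filter_upwards [e1, e2, e3] with i h1 h2 h3 v hv hv'
    obtain ⟨t, ht⟩ := P6_local v (fun t l => a t l i) S d (aeval (nd.s (Q i - p)) nd.δ) (a₀ i)
      (a₁ i) (κ.k v) (κ.one_le v) hv' ⟨l₀, h1⟩ h2 h3
    refine ⟨t, ?_⟩
    show _ ≤ (if nd.In κ v (Q i - p) then _ else 0) + _
    rw [if_pos hv]
    exact ht

omit [NumberField K] in
theorem P7_img_self (p : B.Pts K) : B.img (Algebra.ofId K K) p = p := by
  have h1 : Algebra.ofId K K = AlgHom.id K K := Subsingleton.elim _ _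
  rw [h1]
  exact AV.img_id p

/-- The version with one Noether normalisation, with finite supports. -/
theorem PRIM_nd (hG : GeoB B hH Q b n) {e : ℕ} (nd : Noe B n e) {M : ℕ} (x : Fin M → GK K)
    (hx : ∃ l, x l ≠ 0)
    (hxm : ∀ l, x l ∈ IntermediateField.adjoin (k0 K H hH) (Set.range (rt (B.x b)))) :
    ∃ (κ : SC K) (s : ℕ) (β : Fin s → B.Pts K) (f : Fin s → GK K)
      (G : Fin s → Fin M → MvPolynomial (Fin (N + 1)) (k0 K H hH)),
      (∀ t, nd.Good (b - B.img (Algebra.ofId K (GK K)) (β t))) ∧ (∀ t, f t ≠ 0) ∧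
      (∀ t l, f t * x l = aeval (nd.y (b - B.img (Algebra.ofId K (GK K)) (β t))) (G t l)) ∧
      ∀ a : Fin s → Fin M → ℕ → K, (∀ t l, gm (a t l) = f t * x l) →
        ∃ τ : ℕ → AbsoluteValue K ℝ → Fin s,
          (∀ᶠ i in (hyperfilter ℕ : Filter ℕ), (∀ v, nd.In κ v (Q i - β (τ i v))) ∧
            FS fun v => - Real.log (min 1 (⨆ l, v (a (τ i v) l i)))) ∧
          ∀ ε : ℝ, 0 < ε → ∀ᶠ i in (hyperfilter ℕ : Filter ℕ),
            gs (fun v => - Real.log (min 1 (⨆ l, v (a (τ i v) l i)))) ≤ ε * H i := by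
  classical
  have hle : B.vI ≤ B.I := AV.vI_le hG.germ hG.min
  obtain ⟨r, p, κ, hcov⟩ := P3_cover nd hle
  let C := {c : Fin r // nd.Good (b - B.img (Algebra.ofId K (GK K)) (p c))}
  have hdata := fun c : C => P7_one hG nd κ (p c.1) c.2 x hx hxm
  choose f G T hf hfG hTF hT0 hTg hTl using hdata
  let E := Fintype.equivFin (C × Option (Fin M))
  refine ⟨κ, Fintype.card (C × Option (Fin M)), fun j => p (E.symm j).1.1,
    fun j => f (E.symm j).1 (E.symm j).2, fun j => G (E.symm j).1 (E.symm j).2,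
    fun j => (E.symm j).1.2, fun j => hf _ _, fun j l => hfG _ _ l, fun a ha => ?_⟩
  -- the places
  have hbad : ∀ᶠ i in (hyperfilter ℕ : Filter ℕ), ∀ c : Fin r, nd.Good (Q i - p c) →
      nd.Good (b - B.img (Algebra.ofId K (GK K)) (p c)) := by
    rw [eventually_all]
    intro c
    by_cases hc : nd.Good (b - B.img (Algebra.ofId K (GK K)) (p c))
    · exact Eventually.of_forall fun i _ => hc
    · have hb' : IsGerm B (fun i => Q i - p c) (b - B.img (Algebra.ofId K (GK K)) (p c)) :=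
        (hG.germ.add_sub (IsGerm.const (p c) (Z_img_img _ _))).2
      have h1 : ∀ᶠ i in (hyperfilter ℕ : Filter ℕ), ¬ nd.Good (Q i - p c) := by
        rw [← not_eventually_iff]
        intro h2
        exact hc ((good_germ nd hb').2 h2)
      filter_upwards [h1] with i h2 h3
      exact absurd h3 h2
  have hloc : ∀ᶠ i in (hyperfilter ℕ : Filter ℕ), ∀ c : C, ∀ v : AbsoluteValue K ℝ,
      nd.In κ v (Q i - p c.1) → 1 ≤ κ.k v * v (aeval (nd.s (Q i - p c.1)) nd.δ) →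
        ∃ t, - Real.log (min 1 (⨆ l, v (a (E (c, t)) l i))) ≤ T c i v := by
    rw [eventually_all]
    intro c
    refine hTl c (fun t l => a (E (c, t)) l) fun t l => ?_
    have h1 := ha (E (c, t)) l
    dsimp only at h1
    rw [Equiv.symm_apply_apply] at h1
    exact h1
  have hall : ∀ᶠ i in (hyperfilter ℕ : Filter ℕ), ∀ v : AbsoluteValue K ℝ,
      ∃ j, nd.In κ v (Q i - p (E.symm j).1.1) ∧
        - Real.log (min 1 (⨆ l, v (a j l i))) ≤ ∑ c, T c i v := by
    filter_upwards [hbad, hloc] with i h1 h2 v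
    obtain ⟨c, hc1, hc2⟩ := hcov K v (Q i)
    rw [P7_img_self] at hc1 hc2
    have hgood : nd.Good (Q i - p c) := by
      constructor
      · intro h0
        refine Z_x_ne B (Q i - p c) (funext fun j => ?_)
        have h3 := hc1 j
        rw [h0, map_zero, mul_zero] at h3
        exact (v.eq_zero).1 (le_antisymm h3 (v.nonneg _))
      · intro h0
        rw [h0, map_zero, mul_zero] at hc2
        linarith
    obtain ⟨t, ht⟩ := h2 ⟨c, h1 c hgood⟩ v hc1 hc2
    refine ⟨E (⟨c, h1 c hgood⟩, t), ?_, ?_⟩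
    · rw [Equiv.symm_apply_apply]
      exact hc1
    · exact ht.trans (Finset.single_le_sum (f := fun c => T c i v) (fun c _ => hT0 c i v)
        (Finset.mem_univ _))
  obtain ⟨j₀⟩ : Nonempty (Fin (Fintype.card (C × Option (Fin M)))) := by
    obtain ⟨i, hi⟩ := hall.exists
    obtain ⟨j, -⟩ := hi AbsoluteValue.trivial
    exact ⟨j⟩
  let τ : ℕ → AbsoluteValue K ℝ → Fin (Fintype.card (C × Option (Fin M))) := fun i v =>
    if h : ∃ j, nd.In κ v (Q i - p (E.symm j).1.1) ∧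
      - Real.log (min 1 (⨆ l, v (a j l i))) ≤ ∑ c, T c i v then h.choose else j₀
  have hτ : ∀ᶠ i in (hyperfilter ℕ : Filter ℕ), ∀ v : AbsoluteValue K ℝ,
      nd.In κ v (Q i - p (E.symm (τ i v)).1.1) ∧
        - Real.log (min 1 (⨆ l, v (a (τ i v) l i))) ≤ ∑ c, T c i v := by
    filter_upwards [hall] with i hi v
    have h1 : τ i v = (hi v).choose := dif_pos (hi v)
    rw [h1]
    exact (hi v).choose_spec
  have h0 : ∀ (i : ℕ) (v : AbsoluteValue K ℝ), 0 ≤ - Real.log (min 1 (⨆ l, v (a (τ i v) l i))) :=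
    fun i v => P7_nonneg (Real.iSup_nonneg fun l => v.nonneg _)
  have hFT : ∀ i, FS fun v => ∑ c, T c i v := fun i => FS_sum _ fun c _ => hTF c i
  refine ⟨τ, ?_, fun ε hε => ?_⟩
  · filter_upwards [hτ] with i hi
    exact ⟨fun v => (hi v).1, P7_FS (hFT i) (h0 i) fun v => (hi v).2⟩
  · have h1 : ∀ᶠ i in (hyperfilter ℕ : Filter ℕ), ∀ c : C,
        gs (T c i) ≤ ε / ((Fintype.card C : ℝ) + 1) * H i := by
      rw [eventually_all]
      exact fun c => hTg c _ (by positivity)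
    filter_upwards [hτ, h1, hH.eventually_gt_atTop 0] with i h2 h3 h4
    have h5 : gs (fun v => - Real.log (min 1 (⨆ l, v (a (τ i v) l i)))) ≤
        gs fun v => ∑ c, T c i v :=
      gs_le (P7_FS (hFT i) (h0 i) fun v => (h2 v).2) (hFT i) fun v _ => (h2 v).2
    rw [gs_sum _ fun c _ => hTF c i] at h5
    refine h5.trans ((Finset.sum_le_sum fun c _ => h3 c).trans ?_)
    rw [Finset.sum_const, Finset.card_univ, nsmul_eq_mul]
    have h6 : 0 < (Fintype.card C : ℝ) + 1 := by positivity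
    calc (Fintype.card C : ℝ) * (ε / ((Fintype.card C : ℝ) + 1) * H i)
        ≤ ((Fintype.card C : ℝ) + 1) * (ε / ((Fintype.card C : ℝ) + 1) * H i) :=
          mul_le_mul_of_nonneg_right (by linarith) (by positivity)
      _ = ε * H i := by field_simp

/-- PRIM: vectors over `k0(b)` have finitely many multiples with values which are primitive up to
`o(H)` at the points `Q i`; with finite supports. -/
theorem PRIM' {K : Type u} [Field K] [NumberField K] {N : ℕ} (B : AV K N) {H : ℕ → ℝ}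
    (hH : Tendsto H (hyperfilter ℕ : Filter ℕ) atTop) (Q : ℕ → B.Pts K) (b : B.Pts (GK K))
    {n : ℕ} (hG : GeoB B hH Q b n) {q : ℕ} (μ : Fin (q + 1) → GK K) (l₀ : Fin (q + 1))
    (hμ0 : μ l₀ = 1)
    (hμ : ∀ l, μ l ∈ IntermediateField.adjoin (k0 K H hH) (Set.range (rt (B.x b)))) :
    ∃ (κ : SC K) (s : ℕ) (β : Fin s → B.Pts K) (e : Fin s → ℕ) (nd : ∀ t, Noe B n (e t))
      (f : Fin s → GK K) (G : Fin s → Fin (q + 1) → MvPolynomial (Fin (N + 1)) (k0 K H hH)),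
      (∀ t, (nd t).Good (b - B.img (Algebra.ofId K (GK K)) (β t))) ∧ (∀ t, f t ≠ 0) ∧
      (∀ t l, f t * μ l = aeval ((nd t).y (b - B.img (Algebra.ofId K (GK K)) (β t))) (G t l)) ∧
      ∀ (a : Fin s → Fin (q + 1) → ℕ → K), (∀ t l, gm (a t l) = f t * μ l) → ∀ ε : ℝ, 0 < ε →
        ∀ᶠ i in (hyperfilter ℕ : Filter ℕ), ∃ τ : AbsoluteValue K ℝ → Fin s,
          (∀ v, (nd (τ v)).In κ v (Q i - β (τ v))) ∧
          (FS fun v => - Real.log (min 1 (⨆ l, v (a (τ v) l i)))) ∧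
          gs (fun v => - Real.log (min 1 (⨆ l, v (a (τ v) l i)))) ≤ ε * H i := by
  classical
  obtain ⟨r, e, nd, κ₀, hcov⟩ := exists_cover B hG.dim
  obtain ⟨c, -⟩ := hcov K AbsoluteValue.trivial (Q 0)
  obtain ⟨κ, s, β, f, G, h1, h2, h3, h4⟩ := PRIM_nd hG (nd c) μ
    ⟨l₀, by rw [hμ0]; exact one_ne_zero⟩ hμ
  refine ⟨κ, s, β, fun _ => e c, fun _ => nd c, f, G, h1, h2, h3, fun a ha ε hε => ?_⟩
  obtain ⟨τ, h5, h6⟩ := h4 a ha
  filter_upwards [h5, h6 ε hε] with i h7 h8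
  exact ⟨τ i, h7.1, h7.2, h8⟩

theorem PRIM {K : Type u} [Field K] [NumberField K] {N : ℕ} (B : AV K N) {H : ℕ → ℝ}
    (hH : Tendsto H (hyperfilter ℕ : Filter ℕ) atTop) (Q : ℕ → B.Pts K) (b : B.Pts (GK K))
    {n : ℕ} (hG : GeoB B hH Q b n) {q : ℕ} (μ : Fin (q + 1) → GK K) (l₀ : Fin (q + 1))
    (hμ0 : μ l₀ = 1)
    (hμ : ∀ l, μ l ∈ IntermediateField.adjoin (k0 K H hH) (Set.range (rt (B.x b)))) :
    ∃ (κ : SC K) (s : ℕ) (β : Fin s → B.Pts K) (e : Fin s → ℕ) (nd : ∀ t, Noe B n (e t))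
      (f : Fin s → GK K) (G : Fin s → Fin (q + 1) → MvPolynomial (Fin (N + 1)) (k0 K H hH)),
      (∀ t, (nd t).Good (b - B.img (Algebra.ofId K (GK K)) (β t))) ∧ (∀ t, f t ≠ 0) ∧
      (∀ t l, f t * μ l = aeval ((nd t).y (b - B.img (Algebra.ofId K (GK K)) (β t))) (G t l)) ∧
      ∀ (a : Fin s → Fin (q + 1) → ℕ → K), (∀ t l, gm (a t l) = f t * μ l) → ∀ ε : ℝ, 0 < ε →
        ∀ᶠ i in (hyperfilter ℕ : Filter ℕ), ∃ τ : AbsoluteValue K ℝ → Fin s,
          (∀ v, Pl v → (nd (τ v)).In κ v (Q i - β (τ v))) ∧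
          gs (fun v => - Real.log (min 1 (⨆ l, v (a (τ v) l i)))) ≤ ε * H i := by
  obtain ⟨κ, s, β, e, nd, f, G, h1, h2, h3, h4⟩ := PRIM' B hH Q b hG μ l₀ hμ0 hμ
  refine ⟨κ, s, β, e, nd, f, G, h1, h2, h3, fun a ha ε hε => ?_⟩
  filter_upwards [h4 a ha ε hε] with i hi
  obtain ⟨τ, h5, -, h6⟩ := hi
  exact ⟨τ, fun v _ => h5 v, h6⟩

end Pool.Agent.Lib.MP_17a322_nt.SL
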