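import Pool.Agent.Lib.MP_17a322_nt.SL.D0
import Pool.Agent.Lib.MP_17a322_nt.SL.D3
import Pool.Agent.Lib.MP_17a322_nt.SL.P7

/-!
A vector over `k0(p)` has finitely many multiples whose derivatives are not larger than the vectors.
-/

universe u

namespace Pool.Agent.Lib.MP_17a322_nt.SL

open MvPolynomial Height Filter
open Pool.Agent.Lib.MP_17a322_nt.RO
open Pool.Agent.Lib.MP_17a322_nt.VJ
open Pool.Agent.Lib.MP_17a322_nt.VN hiding lf
open Pool.Agent.Lib.MP_17a322_nt.VA
open Pool.Agent.Lib.MP_17a322_nt.VP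

theorem D4_log_sup {K : Type*} [Field K] {ι : Type*} [Fintype ι] [Nonempty ι]
    (v : AbsoluteValue K ℝ) (x : ι → K) :
    Real.log (⨆ l, v (x l)) ≤ ∑ l, Real.log (max 1 (v (x l))) := by
  have hnn : ∀ l, 0 ≤ Real.log (max 1 (v (x l))) := fun l => Real.log_nonneg (le_max_left _ _)
  obtain ⟨l₁, hl₁⟩ := Finite.exists_max fun l => v (x l)
  have h1 : (⨆ l, v (x l)) = v (x l₁) :=
    le_antisymm (ciSup_le hl₁) (le_ciSup (Set.finite_range fun l => v (x l)).bddAbove l₁)
  rw [h1]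
  refine le_trans ?_ (Finset.single_le_sum (f := fun l => Real.log (max 1 (v (x l))))
    (fun l _ => hnn l) (Finset.mem_univ l₁))
  rcases (v.nonneg (x l₁)).eq_or_lt with h2 | h2
  · rw [← h2, Real.log_zero]
    exact Real.log_nonneg (le_max_left _ _)
  · exact Real.log_le_log h2 (le_max_right _ _)

theorem D4_FS {K : Type*} [Field K] [AdmissibleAbsValues K] {s : ℕ}
    (F : Fin s → AbsoluteValue K ℝ → ℝ) (hF : ∀ t, FS (F t)) (τ : AbsoluteValue K ℝ → Fin s) :
    FS fun v => F (τ v) v := by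
  refine (Set.finite_iUnion fun t => hF t).subset fun v hv => ?_
  exact Set.mem_iUnion.2 ⟨τ v.val, hv⟩

theorem D4_FS_ite {K : Type*} [Field K] [AdmissibleAbsValues K] (S : AbsoluteValue K ℝ → Prop)
    [DecidablePred S] {f : AbsoluteValue K ℝ → ℝ} (hf : FS f) :
    FS fun v => if S v then 0 else f v := by
  refine hf.subset fun v hv h0 => hv ?_
  show (if S v.val then 0 else f v.val) = 0
  rw [h0, ite_self]

theorem D4_FS_sup {K : Type*} [Field K] [AdmissibleAbsValues K] {ι : Type*} [Finite ι]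
    [Nonempty ι] (x : ι → K) : FS fun v : AbsoluteValue K ℝ => Real.log (⨆ i, v (x i)) := by
  by_cases hx : x = 0
  · subst hx
    simp [FS]
  · exact FS_log_iSup hx

theorem D4_FS_min {K : Type*} [Field K] [AdmissibleAbsValues K] {f : AbsoluteValue K ℝ → ℝ}
    (hf : FS fun v => Real.log (f v)) : FS fun v => - Real.log (min 1 (f v)) := by
  refine hf.subset fun v hv h0 => hv ?_
  have h1 : Real.log (f v.val) = 0 := h0
  show - Real.log (min 1 (f v.val)) = 0
  rw [Real.log_eq_zero] at h1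
  rcases h1 with h1 | h1 | h1
  · rw [h1]
    norm_num
  · rw [h1]
    norm_num
  · rw [h1]
    norm_num

open Classical in
/-- The comparison at one index. -/
theorem D4_core {K : Type*} [Field K] [NumberField K] {s : ℕ} {ι : Type*} [Fintype ι] [Nonempty ι]
    (z a : Fin s → ι → K) (ha : ∀ t, a t ≠ 0) (S : Fin s → AbsoluteValue K ℝ → Prop)
    (τ : AbsoluteValue K ℝ → Fin s) (hτ : ∀ v, Pl v → S (τ v) v)
    (Sg : Finset (AbsoluteValue K ℝ)) :
    gs (fun v => if v ∈ Sg then 0 else Real.log (⨆ l, v (z (τ v) l)) -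
      Real.log (⨆ l, v (a (τ v) l))) ≤
      ∑ t, ∑ l, gs (szS (S t) (z t l)) + gs (fun v => - Real.log (min 1 (⨆ l, v (a (τ v) l)))) := by
  have f1 : ∀ t, FS fun v => ∑ l, szS (S t) (z t l) v := fun t => FS_sum _ fun l _ => FS_szS _ _
  have f2 : FS fun v => ∑ t, ∑ l, szS (S t) (z t l) v := FS_sum _ fun t _ => f1 t
  have f3 : FS fun v : AbsoluteValue K ℝ => - Real.log (min 1 (⨆ l, v (a (τ v) l))) :=
    D4_FS (fun t v => - Real.log (min 1 (⨆ l, v (a t l)))) (fun t => D4_FS_min (D4_FS_sup _)) τ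
  have f4 : FS fun v : AbsoluteValue K ℝ => Real.log (⨆ l, v (z (τ v) l)) -
      Real.log (⨆ l, v (a (τ v) l)) :=
    FS_sub (D4_FS (fun t v => Real.log (⨆ l, v (z t l))) (fun t => D4_FS_sup _) τ)
      (D4_FS (fun t v => Real.log (⨆ l, v (a t l))) (fun t => D4_FS_sup _) τ)
  have h1 : gs (fun v => ∑ t, ∑ l, szS (S t) (z t l) v +
      - Real.log (min 1 (⨆ l, v (a (τ v) l)))) =
      ∑ t, ∑ l, gs (szS (S t) (z t l)) + gs (fun v => - Real.log (min 1 (⨆ l, v (a (τ v) l)))) := by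
    rw [gs_add f2 f3, gs_sum _ fun t _ => f1 t]
    congr 1
    exact Finset.sum_congr rfl fun t _ => gs_sum _ fun l _ => FS_szS _ _
  rw [← h1]
  refine gs_le (D4_FS_ite (fun v => v ∈ Sg) f4) (FS_add f2 f3) fun v hv => ?_
  have hnn : 0 ≤ ∑ t, ∑ l, szS (S t) (z t l) v :=
    Finset.sum_nonneg fun t _ => Finset.sum_nonneg fun l _ => szS_nonneg _ _ _
  have hpos : 0 < ⨆ l, v (a (τ v) l) := by
    obtain ⟨l, hl⟩ := Function.ne_iff.mp (ha (τ v))
    exact (v.pos hl).trans_le (le_ciSup (Set.finite_range fun l => v (a (τ v) l)).bddAbove l)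
  have hmin : 0 ≤ - Real.log (min 1 (⨆ l, v (a (τ v) l))) :=
    neg_nonneg.2 (Real.log_nonpos (le_min zero_le_one hpos.le) (min_le_left _ _))
  split_ifs with h
  · exact add_nonneg hnn hmin
  · rw [sub_eq_add_neg]
    refine add_le_add ?_ ?_
    · refine (D4_log_sup v _).trans ?_
      have h2 : ∀ l, Real.log (max 1 (v (z (τ v) l))) = szS (S (τ v)) (z (τ v) l) v := by
        intro l
        unfold szS
        rw [if_pos (hτ v hv)]
      rw [Finset.sum_congr rfl fun l _ => h2 l]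
      exact Finset.single_le_sum (f := fun t => ∑ l, szS (S t) (z t l) v)
        (fun t _ => Finset.sum_nonneg fun l _ => szS_nonneg _ _ _) (Finset.mem_univ (τ v))
    · exact neg_le_neg (Real.log_le_log (lt_min one_pos hpos) (min_le_right _ _))

/-- A vector over `k0(p)` has finitely many multiples whose derivatives are not larger than the vectors,
up to `o(H)`. -/
theorem KEY {K : Type u} [Field K] [NumberField K] {N : ℕ} (A : AV K N)
    (Γ : AddSubgroup (A.Pts K)) (hΓ : Γ.FG) {H : ℕ → ℝ}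
    (hH : Tendsto H (hyperfilter ℕ : Filter ℕ) atTop) (P : ℕ → A.Pts K) (hPΓ : ∀ i, P i ∈ Γ)
    (hupp : ∃ C : ℝ, 0 < C ∧ ∀ᶠ i in (hyperfilter ℕ : Filter ℕ), A.h (P i) ≤ C * H i)
    {p : A.Pts (GK K)} (hPp : IsGerm A P p) (D : Derivation K (GK K) (GK K))
    (hD0 : ∀ x ∈ k0 K H hH, D x ∈ k0 K H hH) (hDp : ∀ a, D (rt (A.x p) a) = 0)
    {q : ℕ} (μ μ' : ℕ → Fin (q + 1) → K) (l₀ : Fin (q + 1)) (hμ0 : gm (fun i => μ i l₀) = 1)
    (hμ : ∀ l, gm (fun i => μ i l) ∈
      IntermediateField.adjoin (k0 K H hH) (Set.range (rt (A.x p))))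
    (hμ' : ∀ l, gm (fun i => μ' i l) = D (gm fun i => μ i l)) :
    ∃ (s : ℕ) (f f' : Fin s → ℕ → K), (∀ t, gm (f t) ≠ 0) ∧ (∀ t, gm (f' t) = D (gm (f t))) ∧
      ∀ ε : ℝ, 0 < ε → ∀ᶠ i in (hyperfilter ℕ : Filter ℕ), ∃ τ : AbsoluteValue K ℝ → Fin s,
        ∀ Sg : Finset (AbsoluteValue K ℝ), open Classical in
          gs (fun v => if v ∈ Sg then 0 else
            Real.log (⨆ l, v (f' (τ v) i * μ i l + f (τ v) i * μ' i l)) -
              Real.log (⨆ l, v (f (τ v) i * μ i l))) ≤ ε * H i := by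
  classical
  by_cases ho : oH H fun i => A.h (P i)
  · -- everything is over `k0`
    have hadj : IntermediateField.adjoin (k0 K H hH) (Set.range (rt (A.x p))) = ⊥ := by
      rw [eq_bot_iff, IntermediateField.adjoin_le_iff]
      rintro _ ⟨a, rfl⟩
      exact (IntermediateField.mem_bot).2 ⟨⟨_, S_rt_mem hH hPp ho a⟩, rfl⟩
    have hμk : ∀ l, gm (fun i => μ' i l) ∈ k0 K H hH := by
      intro l
      have h1 := hμ l
      rw [hadj, IntermediateField.mem_bot] at h1
      obtain ⟨x, hx⟩ := h1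
      rw [hμ' l, ← hx]
      exact hD0 _ x.2
    refine ⟨1, fun _ _ => 1, fun _ _ => 0, fun t => ?_, fun t => ?_, fun ε hε => ?_⟩
    · rw [gm_one]
      exact one_ne_zero
    · rw [gm_zero, gm_one]
      exact (Derivation.map_one_eq_zero D).symm
    · have h1 : ∀ l, oH H fun i => gs (szS (fun _ => True) (μ' i l)) := by
        intro l
        exact (mem_RS (hH := hH) (S := fun _ _ => True)).1 (RS_k0 (hμk l))
      have h2 := oH.sum hH (Finset.univ : Finset (Fin (q + 1))) _ fun l _ => h1 l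
      have h3 := hμ0
      rw [← gm_one, gm_eq_iff] at h3
      filter_upwards [h2 ε hε, h3] with i hi h0
      refine ⟨fun _ => 0, fun Sg => ?_⟩
      have h4 : ∀ t : Fin 1, (fun l => (1 : K) * μ i l) ≠ 0 := by
        intro t h5
        have h6 := congrFun h5 l₀
        have h7 : (1 : K) * μ i l₀ = 0 := h6
        rw [h0, mul_one] at h7
        exact one_ne_zero h7
      have h5 := D4_core (fun (_ : Fin 1) l => (0 : K) * μ i l + 1 * μ' i l)
        (fun (_ : Fin 1) l => (1 : K) * μ i l) h4 (fun _ _ => True) (fun _ => 0)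
        (fun _ _ => trivial) Sg
      refine h5.trans ?_
      have h6 : gs (fun v : AbsoluteValue K ℝ => - Real.log (min 1 (⨆ l, v ((1 : K) * μ i l)))) ≤ 0 := by
        have h7 : gs (fun v : AbsoluteValue K ℝ => (0 : ℝ)) = 0 := by
          unfold gs
          simp
        rw [← h7]
        refine gs_le (D4_FS_min (D4_FS_sup _)) (by simp [FS]) fun v _ => ?_
        have h8 : (1 : ℝ) ≤ ⨆ l, v ((1 : K) * μ i l) := by
          refine le_trans ?_ (le_ciSup (Set.finite_range fun l => v ((1 : K) * μ i l)).bddAbove l₀)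
          rw [h0, mul_one, map_one]
        rw [min_eq_left h8, Real.log_one, neg_zero]
      have h7 : ∑ _t : Fin 1, ∑ l, gs (szS (fun _ => True) ((0 : K) * μ i l + 1 * μ' i l)) =
          ∑ l, gs (szS (fun _ => True) (μ' i l)) := by
        rw [Fin.sum_univ_one]
        refine Finset.sum_congr rfl fun l _ => ?_
        rw [zero_mul, zero_add, one_mul]
      rw [h7]
      linarith
  · have hlow : ∃ c : ℝ, 0 < c ∧ ∀ᶠ i in (hyperfilter ℕ : Filter ℕ), c * H i ≤ A.h (P i) := by
      unfold oH at ho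
      push Not at ho
      obtain ⟨δ, hδ, h1⟩ := ho
      exact ⟨δ, hδ, h1.mono fun i hi => hi.le⟩
    obtain ⟨B, hB, W, w, w', Q, b, n, hA, hG⟩ := GEO' A Γ hΓ hH P hPΓ hlow hupp hPp
    obtain ⟨κ, s, β, e, nd, fs, G, hgood, hf0, hfG, hprim⟩ := PRIM B hH Q b hG
      (fun l => gm fun i => μ i l) l₀ hμ0 (fun l => by
        rw [← hA.field]
        exact hμ l)
    have hex : ∀ x : GK K, ∃ y : ℕ → K, gm y = x := fun x => exists_gm x
    choose f hf using fun t => hex (fs t)
    choose f' hf' using fun t => hex (D (fs t))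
    refine ⟨s, f, f', fun t => by rw [hf]; exact hf0 t, fun t => by rw [hf, hf'], fun ε hε => ?_⟩
    obtain ⟨ε₁, hε₁⟩ : ∃ ε₁ : ℝ, ε₁ = ε / 2 := ⟨_, rfl⟩
    have hε₁0 : 0 < ε₁ := by
      rw [hε₁]
      positivity
    have ha : ∀ t l, gm (fun i => f t i * μ i l) = fs t * gm fun i => μ i l := by
      intro t l
      rw [gm_mul, hf]
    have hz : ∀ t l, gm (fun i => f' t i * μ i l + f t i * μ' i l) =
        D (gm fun i => f t i * μ i l) := by
      intro t l
      rw [gm_add, gm_mul, gm_mul, gm_mul, hf, hf', hμ', Derivation.leibniz, smul_eq_mul,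
        smul_eq_mul]
      ring
    have hDB : ∀ t l, oH H fun i => gs (szS ((nd t).In κ · (Q i - β t))
        (f' t i * μ i l + f t i * μ' i l)) := by
      intro t l ε' hε'
      exact DB hB hH P p W w w' Q b hA D hD0 hDp κ (β t) (nd t) (hgood t) (G t l)
        (fun i => f t i * μ i l) _ ((ha t l).trans (hfG t l)) (hz t l) ε' hε'
    have hsum := oH.sum hH (Finset.univ : Finset (Fin s)) _ fun t _ =>
      oH.sum hH (Finset.univ : Finset (Fin (q + 1))) _ fun l _ => hDB t l
    have hne : ∀ᶠ i in (hyperfilter ℕ : Filter ℕ), ∀ t : Fin s, f t i ≠ 0 := by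
      rw [eventually_all]
      intro t
      have h1 : gm (f t) ≠ 0 := by
        rw [hf]
        exact hf0 t
      exact gm_ne_zero_iff.1 h1
    have h3 := hμ0
    rw [← gm_one, gm_eq_iff] at h3
    filter_upwards [hsum ε₁ hε₁0, hprim (fun t l i => f t i * μ i l) ha ε₁ hε₁0, hne, h3]
      with i h4 h5 h6 h7
    obtain ⟨τ, hτ, h8⟩ := h5
    refine ⟨τ, fun Sg => ?_⟩
    have h9 : ∀ t, (fun l => f t i * μ i l) ≠ 0 := by
      intro t h0
      have h10 : f t i * μ i l₀ = 0 := congrFun h0 l₀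
      rw [h7, mul_one] at h10
      exact h6 t h10
    refine (D4_core (fun t l => f' t i * μ i l + f t i * μ' i l) (fun t l => f t i * μ i l) h9
      (fun t => ((nd t).In κ · (Q i - β t))) τ hτ Sg).trans ?_
    refine (add_le_add h4 h8).trans (le_of_eq ?_)
    rw [hε₁]
    ring

end Pool.Agent.Lib.MP_17a322_nt.SL
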