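import Pool.Agent.Lib.MP_17a322_nt.SL.D1
import Pool.Agent.Lib.MP_17a322_nt.VP.S10

/-!
The values of the forms at the derivative of a vector over `k0(p)`.
-/

universe u

namespace Pool.Agent.Lib.MP_17a322_nt.SL

open MvPolynomial Height Filter
open Pool.Agent.Lib.MP_17a322_nt.RO
open Pool.Agent.Lib.MP_17a322_nt.VJ
open Pool.Agent.Lib.MP_17a322_nt.VN hiding lf
open Pool.Agent.Lib.MP_17a322_nt.VA
open Pool.Agent.Lib.MP_17a322_nt.VP

/-- A derivation which preserves `k` and kills the generators preserves the field. -/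
theorem D5_pres {K F : Type*} [Field K] [Field F] [Algebra K F] (k : IntermediateField K F)
    (D : Derivation K F F) (hD0 : ∀ x ∈ k, D x ∈ k) (S : Set F) (hS : ∀ x ∈ S, D x = 0) {x : F}
    (hx : x ∈ IntermediateField.adjoin k S) : D x ∈ IntermediateField.adjoin k S := by
  induction hx using IntermediateField.adjoin_induction with
  | mem x hx =>
    rw [hS x hx]
    exact zero_mem _
  | algebraMap x =>
    exact (IntermediateField.adjoin k S).algebraMap_mem (⟨_, hD0 _ x.2⟩ : k)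
  | add x y hx hy h1 h2 =>
    rw [map_add]
    exact add_mem h1 h2
  | inv x hx h1 =>
    rw [Derivation.leibniz_inv]
    exact mul_mem (neg_mem (pow_mem (inv_mem hx) 2)) h1
  | mul x y hx hy h1 h2 =>
    rw [Derivation.leibniz]
    exact add_mem (mul_mem hx h2) (mul_mem hy h1)

/-- A derivation which kills the values kills the values of polynomials. -/
theorem D5_aeval {K F : Type*} [Field K] [Field F] [Algebra K F] (D : Derivation K F F)
    {σ : Type*} (y : σ → F) (hy : ∀ s, D (y s) = 0) (f : MvPolynomial σ K) :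
    D (aeval y f) = 0 := by
  induction f using MvPolynomial.induction_on with
  | C a =>
    rw [aeval_C, Derivation.map_algebraMap]
  | add p q hp hq =>
    rw [map_add, map_add, hp, hq, add_zero]
  | mul_X p t hp =>
    rw [map_mul, aeval_X, Derivation.leibniz, hp, hy, smul_zero, smul_zero, add_zero]

/-- The values of the forms at the derivative of a vector over `k0(p)`. -/
theorem SGP {K : Type u} [Field K] [NumberField K] {N : ℕ} (A : AV K N)
    (Γ : AddSubgroup (A.Pts K)) (hΓ : Γ.FG) {H : ℕ → ℝ}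
    (hH : Tendsto H (hyperfilter ℕ : Filter ℕ) atTop) (P : ℕ → A.Pts K) (hPΓ : ∀ i, P i ∈ Γ)
    (hupp : ∃ C : ℝ, 0 < C ∧ ∀ᶠ i in (hyperfilter ℕ : Filter ℕ), A.h (P i) ≤ C * H i)
    {p : A.Pts (GK K)} (hPp : IsGerm A P p) (D₁ : Derivation K (GK K) (GK K))
    (hD0 : ∀ x ∈ k0 K H hH, D₁ x ∈ k0 K H hH) (hDp : ∀ a, D₁ (rt (A.x p) a) = 0)
    {v : AbsoluteValue K ℝ} (hv : Pl v) {q : ℕ} (D : ℕ)
    (Λ : Matrix (Fin (q + 1)) (Fin (q + 1)) (MvPolynomial (Fin (N + 1)) K))
    (hΛ : ∀ k l, (Λ k l).IsHomogeneous D)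
    (μ μ' : ℕ → Fin (q + 1) → K)
    (hμ : ∀ l, gm (fun i => μ i l) ∈
      IntermediateField.adjoin (k0 K H hH) (Set.range (rt (A.x p))))
    (hμ' : ∀ l, gm (fun i => μ' i l) = D₁ (gm fun i => μ i l)) (ε : ℝ) (hε : 0 < ε) :
    ∀ᶠ i in (hyperfilter ℕ : Filter ℕ), ∀ k,
      v ((Λ.map (aeval (A.x (P i)))).mulVec (μ' i) k) ≤
        Real.exp (ε * H i) * v ((Λ.map (aeval (A.x (P i)))).mulVec (μ i) k) := by
  obtain ⟨a, ha⟩ : ∃ a, A.x p a ≠ 0 := by
    by_contra h
    push Not at h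
    exact Z_x_ne A p (funext h)
  rw [eventually_all]
  intro k
  -- the value as a germ
  have hval : ∀ ν : ℕ → Fin (q + 1) → K,
      gm (fun i => (Λ.map (aeval (A.x (P i)))).mulVec (ν i) k / A.x (P i) a ^ D) =
        ∑ l, aeval (fun c => A.x p c / A.x p a) (Λ k l) * gm fun i => ν i l := by
    intro ν
    have h1 : ∀ l, aeval (fun c => A.x p c / A.x p a) (Λ k l) * (gm fun i => ν i l) =
        gm fun i => aeval (A.x (P i)) (Λ k l) / A.x (P i) a ^ D * ν i l := by
      intro l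
      rw [gm_mul, S_gm_form A P hPp (hΛ k l) a ha]
    rw [Finset.sum_congr rfl fun l _ => h1 l, ← gm_sum]
    congr 1
    funext i
    show (∑ l, aeval (A.x (P i)) (Λ k l) * ν i l) / A.x (P i) a ^ D = _
    rw [Finset.sum_div]
    exact Finset.sum_congr rfl fun l _ => by ring
  obtain ⟨u, hu⟩ : ∃ u : GK K, u = ∑ l, aeval (fun c => A.x p c / A.x p a) (Λ k l) *
    gm fun i => μ i l := ⟨_, rfl⟩
  have huF : u ∈ IntermediateField.adjoin (k0 K H hH) (Set.range (rt (A.x p))) := by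
    rw [hu]
    exact sum_mem fun l _ => mul_mem (S_form_mem A hH (Λ k l) a) (hμ l)
  have hDu : D₁ u = ∑ l, aeval (fun c => A.x p c / A.x p a) (Λ k l) *
      gm fun i => μ' i l := by
    rw [hu, map_sum]
    refine Finset.sum_congr rfl fun l _ => ?_
    have h3 : D₁ (aeval (fun c => A.x p c / A.x p a) (Λ k l)) = 0 :=
      D5_aeval D₁ (fun c => A.x p c / A.x p a) (fun c => hDp (c, a)) (Λ k l)
    rw [Derivation.leibniz, h3, smul_zero, add_zero, hμ', smul_eq_mul]
  have hDuF : D₁ u ∈ IntermediateField.adjoin (k0 K H hH) (Set.range (rt (A.x p))) :=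
    D5_pres (k0 K H hH) D₁ hD0 (Set.range (rt (A.x p))) (by
      rintro _ ⟨c, rfl⟩
      exact hDp c) huF
  have h1 := hval μ
  have h2 := hval μ'
  rw [← hu] at h1
  rw [← hDu] at h2
  have hxa := (hPp.ne_iff a).1 ha
  by_cases hu0 : u = 0
  · rw [hu0, map_zero, ← gm_zero, gm_eq_iff] at h2
    filter_upwards [h2, hxa] with i g1 g2
    have g3 : (Λ.map (aeval (A.x (P i)))).mulVec (μ' i) k = 0 := by
      rcases div_eq_zero_iff.1 g1 with g4 | g4
      · exact g4
      · exact absurd g4 (pow_ne_zero _ g2)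
    rw [g3, map_zero]
    exact mul_nonneg (Real.exp_pos _).le (v.nonneg _)
  · have h3 : D₁ u / u ∈ Ov hH v :=
      Ov_all A Γ hΓ P hPΓ hH hupp hPp hv (isAlgebraic_algebraMap (⟨_, div_mem hDuF huF⟩ :
        IntermediateField.adjoin (k0 K H hH) (Set.range (rt (A.x p)))))
    rw [← h2, ← h1, ← gm_div, mem_Ov] at h3
    have h4 : gm (fun i => (Λ.map (aeval (A.x (P i)))).mulVec (μ i) k / A.x (P i) a ^ D) ≠ 0 := by
      rw [h1]
      exact hu0
    filter_upwards [h3 ε hε, hxa, gm_ne_zero_iff.1 h4] with i g1 g2 g3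
    have g4 : (Λ.map (aeval (A.x (P i)))).mulVec (μ i) k ≠ 0 := by
      intro h0
      rw [h0, zero_div] at g3
      exact g3 rfl
    have g5 : (Λ.map (aeval (A.x (P i)))).mulVec (μ' i) k / A.x (P i) a ^ D /
        ((Λ.map (aeval (A.x (P i)))).mulVec (μ i) k / A.x (P i) a ^ D) =
        (Λ.map (aeval (A.x (P i)))).mulVec (μ' i) k /
          (Λ.map (aeval (A.x (P i)))).mulVec (μ i) k :=
      div_div_div_cancel_right₀ (pow_ne_zero _ g2) _ _
    rw [g5, map_div₀, div_le_iff₀ (v.pos g4)] at g1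
    exact g1

end Pool.Agent.Lib.MP_17a322_nt.SL
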