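import Pool.Agent.Lib.MP_17a322_nt.SL.DC4
import Pool.Agent.Lib.MP_17a322_nt.VA.Z5

/-!
The transcendence degree of the field of the coordinates over its intersection with `k₀`.
-/

universe u

namespace Pool.Agent.Lib.MP_17a322_nt.SL

open MvPolynomial
open Pool.Agent.Lib.MP_17a322_nt.VN Pool.Agent.Lib.MP_17a322_nt.VA

/-- A generic embedding: a transcendence basis becomes independent over `Ω`. -/
theorem DC_embed (k E Ω : Type u) [Field k] [Field E] [Field Ω] [Algebra k E] [Algebra k Ω] :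
    ∃ (Ω' : Type u) (_ : Field Ω') (_ : Algebra k Ω') (_ : Algebra Ω Ω')
      (_ : IsScalarTower k Ω Ω') (σ : E →ₐ[k] Ω') (T : Set E),
      IsTranscendenceBasis k ((↑) : T → E) ∧ AlgebraicIndependent Ω fun t : T => σ t := by
  obtain ⟨T, hT⟩ := exists_isTranscendenceBasis k E
  obtain ⟨Ω', i1, i2, i3, x, hx⟩ := Z_closed_ext Ω T
  let _ : Algebra k Ω' := ((algebraMap Ω Ω').comp (algebraMap k Ω)).toAlgebra
  have i4 : IsScalarTower k Ω Ω' := IsScalarTower.of_algebraMap_eq fun _ => rfl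
  let u : T → E := fun t => t
  have hu : IsTranscendenceBasis k u := hT
  have hx' : AlgebraicIndependent k x := hx.restrictScalars (algebraMap k Ω).injective
  let _ : Algebra (MvPolynomial T k) E := (aeval u : MvPolynomial T k →ₐ[k] E).toRingHom.toAlgebra
  let _ : Algebra (MvPolynomial T k) Ω' := (aeval x : MvPolynomial T k →ₐ[k] Ω').toRingHom.toAlgebra
  have i5 : FaithfulSMul (MvPolynomial T k) E :=
    (faithfulSMul_iff_algebraMap_injective _ _).2 hu.1
  have i6 : FaithfulSMul (MvPolynomial T k) Ω' :=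
    (faithfulSMul_iff_algebraMap_injective _ _).2 hx'
  have i7 : Algebra.IsAlgebraic (MvPolynomial T k) E := by
    have h1 := hu.isAlgebraic
    refine Algebra.IsAlgebraic.of_ringHom_of_comp_eq
      (hu.1.aevalEquiv : MvPolynomial T k ≃ₐ[k] Algebra.adjoin k (Set.range u)).toRingHom
      (RingHom.id E) (hu.1.aevalEquiv).surjective (fun _ _ h => h) ?_
    refine RingHom.ext fun p => ?_
    show ((hu.1.aevalEquiv p : Algebra.adjoin k (Set.range u)) : E) = aeval u p
    exact hu.1.algebraMap_aevalEquiv p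
  let σ : E →ₐ[MvPolynomial T k] Ω' := IsAlgClosed.lift
  have i8 : IsScalarTower k (MvPolynomial T k) E := IsScalarTower.of_algebraMap_eq fun a => by
    show algebraMap k E a = aeval u (C a)
    rw [aeval_C]
  have i9 : IsScalarTower k (MvPolynomial T k) Ω' := IsScalarTower.of_algebraMap_eq fun a => by
    show algebraMap k Ω' a = aeval x (C a)
    rw [aeval_C]
  refine ⟨Ω', i1, inferInstance, i3, i4, σ.restrictScalars k, T, hT, ?_⟩
  have h1 : (fun t : T => (σ.restrictScalars k) t) = x := by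
    funext t
    have h2 : (t : E) = algebraMap (MvPolynomial T k) E (X t) := by
      show (t : E) = aeval u (X t)
      rw [aeval_X]
    have h3 := σ.commutes (X t)
    rw [← h2] at h3
    refine h3.trans ?_
    show aeval x (X t) = x t
    rw [aeval_X]
  rw [h1]
  exact hx

section

variable {K : Type u} [Field K] [Infinite K] {N : ℕ} {A B : AV K N} {F : Type u} [Field F]
  [Algebra K F]

omit [Infinite K] in
theorem tdeg_le_of_tower {L k : Type u} [Field L] [Algebra K L] [Field k] [Algebra K k]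
    [Algebra k L] [IsScalarTower K k L] {n : ℕ} (hn : B.dimIs n) (b : B.Pts L) :
    tdeg k (B.x b) ≤ (n : Cardinal.{u}) := by
  obtain ⟨T, hT, -, hcard⟩ := Z_exists_basis (K := k) (B.x b)
  have h1 : AlgebraicIndependent K fun t : T => rt (B.x b) t :=
    hT.restrictScalars (algebraMap K k).injective
  have h2 := (Z_card_le_tdeg (K := K) (B.x b) _ h1 fun t => isAlgebraic_algebraMap
      (⟨rt (B.x b) t, IntermediateField.subset_adjoin K _ ⟨_, rfl⟩⟩ :
        IntermediateField.adjoin K (Set.range (rt (B.x b))))).2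
  rw [hcard]
  exact h2.trans (hn.1 L b)

theorem DC_bound (hB : IsSubAV B A) (hle : B.vI ≤ B.I) {n : ℕ} (hn : B.dimIs n)
    (k₀ E K₂ : IntermediateField K F) (h2k : K₂ ≤ k₀) (h2E : K₂ ≤ E)
    (hK₂ : ∀ a, a ∈ k₀ → a ∈ E → a ∈ K₂) (w : A.Pts k₀) (p₀ : A.Pts E) (b : B.Pts F)
    (hp : A.img E.val p₀ = A.img k₀.val w + hB.inc F b)
    (hE : E ≤ IntermediateField.adjoin K (Set.range (rt (A.x (A.img E.val p₀))))) :
    ∃ (κ : Type) (_ : Finite κ) (t : κ → F), (∀ i, t i ∈ E) ∧
      (∀ x ∈ E, IsAlgebraic (IntermediateField.adjoin K₂ (Set.range t)) x) ∧ Nat.card κ ≤ n := by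
  let iE : Algebra K₂ E := (IntermediateField.inclusion h2E).toRingHom.toAlgebra
  let ik : Algebra K₂ k₀ := (IntermediateField.inclusion h2k).toRingHom.toAlgebra
  obtain ⟨Ω', i1, i2, i3, i4, σ₂, T, hT, hind⟩ := DC_embed K₂ E k₀
  let iK : Algebra K Ω' := ((algebraMap K₂ Ω').comp (algebraMap K K₂)).toAlgebra
  let σ : E →ₐ[K] Ω' :=
    { σ₂.toRingHom with
      commutes' := fun c => σ₂.commutes (algebraMap K K₂ c) }
  let τ : k₀ →ₐ[K] Ω' :=
    { algebraMap k₀ Ω' with
      commutes' := fun c => (IsScalarTower.algebraMap_apply K₂ k₀ Ω' (algebraMap K K₂ c)).symm }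
  have hστ : ∀ a (ha : a ∈ K₂), σ ⟨a, h2E ha⟩ = τ ⟨a, h2k ha⟩ := by
    intro a ha
    have h1 : σ ⟨a, h2E ha⟩ = algebraMap K₂ Ω' ⟨a, ha⟩ := σ₂.commutes ⟨a, ha⟩
    have h2 : τ ⟨a, h2k ha⟩ = algebraMap K₂ Ω' ⟨a, ha⟩ :=
      (IsScalarTower.algebraMap_apply K₂ k₀ Ω' ⟨a, ha⟩).symm
    rw [h1, h2]
  have i5 : IsScalarTower K k₀ Ω' := IsScalarTower.of_algebraMap_eq fun c => (τ.commutes c).symm
  obtain ⟨b', hb'⟩ := DC_core hB hle k₀ E K₂ h2k h2E hK₂ w p₀ b hp σ τ hστ
  obtain ⟨M, hM⟩ : ∃ M : IntermediateField K Ω', M =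
    (IntermediateField.adjoin k₀ (Set.range (rt (B.x b')))).restrictScalars K := ⟨_, rfl⟩
  -- the ratios of the conjugate are in `M`
  have h1 : ∀ i, rt (A.x (A.img σ p₀)) i ∈ M := by
    intro i
    obtain ⟨q, hq⟩ := Z_descend A M (hB.inc Ω' b') fun i => by
      rw [hM, hB.x_inc]
      exact IntermediateField.subset_adjoin k₀ (Set.range (rt (B.x b'))) ⟨i, rfl⟩
    obtain ⟨q', hq'⟩ := Z_descend A M (A.img τ w) fun i => by
      have h2 : A.Img τ w (A.img τ w) := (AV.img_eq_iff τ).1 rfl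
      rw [Z_img_rt A h2, hM]
      exact (IntermediateField.adjoin k₀ (Set.range (rt (B.x b')))).algebraMap_mem (rt (A.x w) i)
    have h3 := Z_img_add A hq hq'
    rw [← hb', sub_add_cancel] at h3
    exact Z_rt_mem A h3 i
  have h2 : ∀ e : E, σ e ∈ M := by
    have h3 : IntermediateField.adjoin K (Set.range (rt (A.x p₀))) ≤ M.comap σ := by
      rw [IntermediateField.adjoin_le_iff]
      rintro _ ⟨i, rfl⟩
      have h4 : A.Img σ p₀ (A.img σ p₀) := (AV.img_eq_iff σ).1 rfl
      have h5 := h1 i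
      rw [Z_img_rt A h4] at h5
      exact h5
    intro e
    refine h3 ?_
    have h4 : (e : F) ∈ IntermediateField.adjoin K (Set.range (rt (A.x (A.img E.val p₀)))) :=
      hE e.2
    have h5 : Set.range (rt (A.x (A.img E.val p₀))) = E.val '' Set.range (rt (A.x p₀)) := by
      have h6 : A.Img E.val p₀ (A.img E.val p₀) := (AV.img_eq_iff E.val).1 rfl
      rw [← Set.range_comp]
      congr 1
      funext i
      exact Z_img_rt A h6 i
    rw [h5, ← IntermediateField.adjoin_map] at h4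
    obtain ⟨e', he', h6⟩ := h4
    have h7 : e' = e := Subtype.ext h6
    rwa [h7] at he'
  obtain ⟨hfin, hcard⟩ := Z_card_le_tdeg (K := k₀) (B.x b') (fun t : T => σ₂ t) hind fun t => by
    have h3 : σ₂ t ∈ M := h2 t
    rw [hM] at h3
    exact isAlgebraic_algebraMap
      (⟨_, h3⟩ : IntermediateField.adjoin k₀ (Set.range (rt (B.x b'))))
  have h3 : Nat.card T ≤ n := by
    have h4 := hcard.trans (tdeg_le_of_tower (k := k₀) hn b')
    exact_mod_cast h4
  let φ : E →ₐ[K₂] F :=
    { E.val.toRingHom with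
      commutes' := fun _ => rfl }
  refine ⟨Fin (Nat.card T), inferInstance, fun i => φ ((Finite.equivFin T).symm i),
    fun i => ((Finite.equivFin T).symm i : E).2, fun x hx => ?_, ?_⟩
  · have h4 := hT.isAlgebraic_field
    have h5 := Z_alg_map φ (h4.isAlgebraic (⟨x, hx⟩ : E))
    have h6 : φ '' Set.range ((↑) : T → E) =
        Set.range fun i => φ ((Finite.equivFin T).symm i) := by
      rw [← Set.range_comp]
      exact ((Finite.equivFin T).symm.surjective.range_comp fun t : T => φ t).symm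
    rw [← h6]
    exact h5
  · rw [Nat.card_fin]
    exact h3

end

end Pool.Agent.Lib.MP_17a322_nt.SL
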