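import Pool.Agent.Lib.MP_17a322_nt.SL.DB
import Pool.Agent.Lib.MP_17a322_nt.SL.DC5
import Pool.Agent.Lib.MP_17a322_nt.VA.Z11

/-!
Derivations that kill the coordinates of `p` and preserve the small field.
-/

universe u

namespace Pool.Agent.Lib.MP_17a322_nt.SL

open MvPolynomial Filter
open Pool.Agent.Lib.MP_17a322_nt.VN Pool.Agent.Lib.MP_17a322_nt.VA

section

variable {K : Type u} [Field K] [CharZero K] {N : ℕ} {A B : AV K N} {F : Type u} [Field F]
  [Algebra K F]

omit [CharZero K] in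
/-- The field generated by the ratios of coordinates of `p` contains the Noether coordinates of the
component in `B`. -/
theorem s_mem_adjoin (hB : IsSubAV B A) (k₀ : IntermediateField K F) {w : A.Pts k₀}
    {w' p : A.Pts F} {b : B.Pts F} (hw : A.Img k₀.val w w') (hp : p = w' + hB.inc F b) {n e : ℕ}
    (nd : Noe B n e) (j : Fin n) :
    nd.s b j ∈ IntermediateField.adjoin k₀ (Set.range (rt (A.x p))) := by
  let M : IntermediateField K F :=
    (IntermediateField.adjoin k₀ (Set.range (rt (A.x p)))).restrictScalars K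
  refine Z_s_mem nd M b (fun i => ?_) j
  obtain ⟨q, hq⟩ := Z_descend A M p fun i =>
    IntermediateField.subset_adjoin k₀ (Set.range (rt (A.x p))) ⟨i, rfl⟩
  obtain ⟨q', hq'⟩ := Z_descend A M w' fun i => by
    rw [Z_img_rt A hw]
    exact (IntermediateField.adjoin k₀ (Set.range (rt (A.x p)))).algebraMap_mem (rt (A.x w) i)
  have h3 := Z_img_sub A hq hq'
  rw [hp, add_sub_cancel_left] at h3
  have h4 := Z_rt_mem A h3 i
  rwa [hB.x_inc] at h4

/-- Derivations that kill the ratios of coordinates of `p = w + b`, preserve `k₀` and do not kill a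
given function that is not algebraic over `K (p)`. -/
theorem exists_der_gen (hB : IsSubAV B A) (hle : B.vI ≤ B.I) {n : ℕ} (hn : B.dimIs n)
    (k₀ : IntermediateField K F) {w : A.Pts k₀} {w' p : A.Pts F} {b : B.Pts F}
    (hw : A.Img k₀.val w w') (hp : p = w' + hB.inc F b) {e : ℕ} (nd : Noe B n e)
    (hs : AlgebraicIndependent k₀ (nd.s b)) (f : F)
    (hf : IsAlgebraic (IntermediateField.adjoin k₀ (Set.range (rt (A.x p)))) f)
    (hfE : ¬ IsAlgebraic (IntermediateField.adjoin K (Set.range (rt (A.x p)))) f) :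
    ∃ D : Derivation ℤ F F, (∀ a ∈ IntermediateField.adjoin K (Set.range (rt (A.x p))), D a = 0) ∧
      (∀ a ∈ k₀, D a ∈ k₀) ∧ D f ≠ 0 := by
  have hinf : Infinite K := Infinite.of_injective _ (Nat.cast_injective (R := K))
  obtain ⟨E, hEd⟩ : ∃ E, E = IntermediateField.adjoin K (Set.range (rt (A.x p))) := ⟨_, rfl⟩
  have hEr : ∀ i, rt (A.x p) i ∈ E := fun i => by
    rw [hEd]
    exact IntermediateField.subset_adjoin _ _ ⟨i, rfl⟩
  obtain ⟨p₀, hp₀⟩ := Z_descend A E p hEr
  have hp₀' : A.img E.val p₀ = p := (AV.img_eq_iff E.val).2 hp₀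
  have hw' : A.img k₀.val w = w' := (AV.img_eq_iff k₀.val).2 hw
  obtain ⟨κ, hκ, t, ht, htE, hcard⟩ := DC_bound hB hle hn k₀ E (k₀ ⊓ E) inf_le_left inf_le_right
    (fun a h1 h2 => ⟨h1, h2⟩) w p₀ b (by rw [hp₀', hw', hp]) (by rw [hp₀', hEd])
  -- elements of `k₀ (p)`
  have hup : ∀ x ∈ IntermediateField.adjoin k₀ (Set.range (rt (A.x p))),
      x ∈ IntermediateField.adjoin k₀ (E : Set F) := by
    intro x hx
    refine IntermediateField.adjoin.mono k₀ _ _ ?_ hx
    rintro _ ⟨i, rfl⟩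
    exact hEr i
  have hup' : ∀ x ∈ IntermediateField.adjoin k₀ (Set.range (rt (A.x p))),
      x ∈ IntermediateField.adjoin E (k₀ : Set F) := by
    intro x hx
    induction hx using IntermediateField.adjoin_induction with
    | mem x hx =>
      obtain ⟨i, rfl⟩ := hx
      exact (IntermediateField.adjoin E (k₀ : Set F)).algebraMap_mem ⟨_, hEr i⟩
    | algebraMap x => exact IntermediateField.subset_adjoin _ _ x.2
    | add x y hx hy h1 h2 => exact add_mem h1 h2
    | inv x hx h1 => exact inv_mem h1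
    | mul x y hx hy h1 h2 => exact mul_mem h1 h2
  have hfree := DB_main (k₀ ⊓ E) E k₀ inf_le_right inf_le_left t ht htE hcard (nd.s b) hs
    fun j => isAlgebraic_algebraMap
      (⟨_, hup _ (s_mem_adjoin hB k₀ hw hp nd j)⟩ : IntermediateField.adjoin k₀ (E : Set F))
  rw [← hEd] at hfE ⊢
  exact DA_main (k₀ ⊓ E) E k₀ inf_le_right inf_le_left hfree f
    (DA_up (A := k₀.toSubfield) (B := E.toSubfield) _ (IntermediateField.adjoin E (k₀ : Set F))
      hup' f hf) hfE

end

/-- The statement for germs. -/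
theorem exists_der {K : Type u} [Field K] [NumberField K] {N : ℕ} {A B : AV K N} {H : ℕ → ℝ}
    (hH : Tendsto H (hyperfilter ℕ : Filter ℕ) atTop) (hB : IsSubAV B A) {Q : ℕ → B.Pts K}
    {b : B.Pts (GK K)} (hb : IsGerm B Q b) (hmin : MinSub B b) {n e : ℕ} (hn : B.dimIs n)
    {w : A.Pts (k0 K H hH)} {w' p : A.Pts (GK K)} (hw : A.Img (k0 K H hH).val w w')
    (hp : p = w' + hB.inc (GK K) b) (nd : Noe B n e)
    (hs : AlgebraicIndependent (k0 K H hH) (nd.s b)) (f : GK K)
    (hf : IsAlgebraic (IntermediateField.adjoin (k0 K H hH) (Set.range (rt (A.x p)))) f)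
    (hfE : ¬ IsAlgebraic (IntermediateField.adjoin K (Set.range (rt (A.x p)))) f) :
    ∃ D : Derivation ℤ (GK K) (GK K), (∀ i, D (rt (A.x p) i) = 0) ∧
      (∀ c : K, D (algebraMap K (GK K) c) = 0) ∧ (∀ a ∈ k0 K H hH, D a ∈ k0 K H hH) ∧ D f ≠ 0 := by
  obtain ⟨D, h1, h2, h3⟩ := exists_der_gen hB (AV.vI_le hb hmin) hn (k0 K H hH) hw hp nd hs f hf hfE
  exact ⟨D, fun i => h1 _ (IntermediateField.subset_adjoin _ _ ⟨i, rfl⟩),
    fun c => h1 _ (IntermediateField.algebraMap_mem _ c), h2, h3⟩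

end Pool.Agent.Lib.MP_17a322_nt.SL
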