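import Pool.Agent.Lib.MP_17a322_nt.SL.H2

/-!
Cramer's rule with the sizes: `CRAM`.
-/

universe u

namespace Pool.Agent.Lib.MP_17a322_nt.SL

open MvPolynomial Height Filter
open Pool.Agent.Lib.MP_17a322_nt.RO
open Pool.Agent.Lib.MP_17a322_nt.VJ
open Pool.Agent.Lib.MP_17a322_nt.VN hiding lf
open Pool.Agent.Lib.MP_17a322_nt.VA
open Pool.Agent.Lib.MP_17a322_nt.VP

section

variable {K : Type*} [Field K] {q : ℕ}

/-- The determinant bound with weights. -/
theorem DK_det (v : AbsoluteValue K ℝ) (B : Matrix (Fin (q + 1)) (Fin (q + 1)) K)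
    (w : Fin (q + 1) → ℝ) :
    v B.det * Real.exp (∑ k, w k) ≤
      cst v (q + 1).factorial * ∏ s, ⨆ k, v (B s k) * Real.exp (w k) := by
  classical
  have hS := SN_self v
  have h0 : ∀ s k, v (B s k) * Real.exp (w k) ≤ ⨆ k, v (B s k) * Real.exp (w k) := fun s k =>
    le_ciSup (Set.finite_range fun k => v (B s k) * Real.exp (w k)).bddAbove k
  have hnn : ∀ s, 0 ≤ ⨆ k, v (B s k) * Real.exp (w k) := fun s =>
    (mul_nonneg (v.nonneg (B s 0)) (Real.exp_pos (w 0)).le).trans (h0 s 0)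
  have hE : 0 < Real.exp (∑ k, w k) := Real.exp_pos _
  rw [← Matrix.det_transpose, Matrix.det_apply]
  have h1 := hS.sum_le (Finset.univ : Finset (Equiv.Perm (Fin (q + 1))))
    (fun τ => Equiv.Perm.sign τ • ∏ i, B.transpose (τ i) i)
    (B := (∏ s, ⨆ k, v (B s k) * Real.exp (w k)) / Real.exp (∑ k, w k))
    (div_nonneg (Finset.prod_nonneg fun s _ => hnn s) hE.le) fun τ _ => ?_
  · rw [Finset.card_univ, Fintype.card_perm, Fintype.card_fin, ← mul_div_assoc,
      le_div_iff₀ hE] at h1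
    exact h1
  · have h2 : v (∏ i, B.transpose (τ i) i) ≤
        (∏ s, ⨆ k, v (B s k) * Real.exp (w k)) / Real.exp (∑ k, w k) := by
      rw [le_div_iff₀ hE, map_prod, ← Equiv.sum_comp τ w, Real.exp_sum,
        ← Finset.prod_mul_distrib]
      exact Finset.prod_le_prod (fun i _ => mul_nonneg (v.nonneg _) (Real.exp_pos _).le)
        fun i _ => h0 i (τ i)
    rcases Int.units_eq_one_or (Equiv.Perm.sign τ) with h3 | h3
    · show v (Equiv.Perm.sign τ • ∏ i, B.transpose (τ i) i) ≤ _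
      rw [h3, one_smul]
      exact h2
    · show v (Equiv.Perm.sign τ • ∏ i, B.transpose (τ i) i) ≤ _
      rw [h3, Units.neg_smul, one_smul, map_neg_eq_map]
      exact h2

/-- The bound at one place. -/
theorem DK_loc (Sg : Finset (AbsoluteValue K ℝ)) (c : AbsoluteValue K ℝ → Fin (q + 1) → ℝ) (h : ℝ)
    (M : AbsoluteValue K ℝ → Matrix (Fin (q + 1)) (Fin (q + 1)) K)
    (hM : ∀ v ∈ Sg, (M v).det ≠ 0) (Y : Matrix (Fin (q + 1)) (Fin (q + 1)) K) (hY : Y.det ≠ 0)
    (v : AbsoluteValue K ℝ) :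
    Real.log (v Y.det) ≤ Real.log (cst v (q + 1).factorial) + ∑ s, sz Sg c h M (Y s) v -
      h * (open Classical in if v ∈ Sg then ∑ k, c v k else 0) +
      (open Classical in if v ∈ Sg then
        Real.log ((⨆ p : Fin (q + 1) × Fin (q + 1), v (M v p.1 p.2)) ^ (q + 1) / v (M v).det)
        else 0) := by
  classical
  have hYs : ∀ s, Y s ≠ 0 := fun s h0 => hY (Matrix.det_eq_zero_of_row_eq_zero s fun j => by
    rw [h0]; rfl)
  have hc1 : (0 : ℝ) < cst v (q + 1).factorial :=
    zero_lt_one.trans_le (one_le_cst v (Nat.succ_le_of_lt (Nat.factorial_pos _)))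
  by_cases hv : v ∈ Sg
  · rw [if_pos hv, if_pos hv]
    have hs : ∀ s, 0 < ⨆ k, v ((M v).mulVec (Y s) k) * Real.exp (c v k * h) := fun s =>
      H_sup_pos v (hM v hv) (hYs s) (c v) h
    have hm : 0 < ⨆ p : Fin (q + 1) × Fin (q + 1), v (M v p.1 p.2) :=
      H_ent_pos v (hM v hv) (hYs 0)
    have hd : 0 < v (M v).det := v.pos (hM v hv)
    have h1 := DK_det v (Y * (M v).transpose) (fun k => c v k * h)
    have h2 : ∀ s k, (Y * (M v).transpose) s k = (M v).mulVec (Y s) k := by
      intro s k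
      rw [Matrix.mul_apply]
      show _ = ∑ l, M v k l * Y s l
      exact Finset.sum_congr rfl fun l _ => by rw [Matrix.transpose_apply, mul_comm]
    simp only [h2] at h1
    rw [Matrix.det_mul, Matrix.det_transpose, map_mul] at h1
    have h3 := Real.log_le_log (mul_pos (mul_pos (v.pos hY) hd) (Real.exp_pos _)) h1
    rw [Real.log_mul (mul_pos (v.pos hY) hd).ne' (Real.exp_pos _).ne',
      Real.log_mul (v.pos hY).ne' hd.ne', Real.log_exp, ← Finset.sum_mul,
      Real.log_mul hc1.ne' (Finset.prod_pos fun s _ => hs s).ne',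
      Real.log_prod fun s _ => (hs s).ne'] at h3
    have h4 : ∑ s, sz Sg c h M (Y s) v =
        ∑ s, Real.log (⨆ k, v ((M v).mulVec (Y s) k) * Real.exp (c v k * h)) -
          (q + 1 : ℕ) * Real.log (⨆ p : Fin (q + 1) × Fin (q + 1), v (M v p.1 p.2)) := by
      unfold sz
      simp only [if_pos hv]
      rw [Finset.sum_sub_distrib, Finset.sum_const, Finset.card_univ, Fintype.card_fin,
        nsmul_eq_mul]
    rw [h4, Real.log_div (pow_pos hm _).ne' hd.ne', Real.log_pow]
    linarith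
  · rw [if_neg hv, if_neg hv]
    have hs : ∀ s, 0 < ⨆ k, v (Y s k) := fun s => by
      obtain ⟨l, hl⟩ := Function.ne_iff.1 (hYs s)
      exact (v.pos hl).trans_le (le_ciSup (Set.finite_range fun l => v (Y s l)).bddAbove l)
    have h1 := DK_det v Y (fun _ => 0)
    simp only [Finset.sum_const_zero, Real.exp_zero, mul_one] at h1
    have h3 := Real.log_le_log (v.pos hY) h1
    rw [Real.log_mul hc1.ne' (Finset.prod_pos fun s _ => hs s).ne',
      Real.log_prod fun s _ => (hs s).ne'] at h3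
    have h4 : ∑ s, sz Sg c h M (Y s) v = ∑ s, Real.log (⨆ k, v (Y s k)) := by
      unfold sz
      simp only [if_neg hv]
    rw [h4]
    linarith

/-- Multiples. -/
theorem DK_sz_smul (Sg : Finset (AbsoluteValue K ℝ)) (c : AbsoluteValue K ℝ → Fin q → ℝ) (h : ℝ)
    {M : AbsoluteValue K ℝ → Matrix (Fin q) (Fin q) K} {y : Fin q → K} (hy : y ≠ 0)
    (hM : ∀ v ∈ Sg, (M v).det ≠ 0) {a : K} (ha : a ≠ 0) (v : AbsoluteValue K ℝ) :
    sz Sg c h M (a • y) v = Real.log (v a) + sz Sg c h M y v := by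
  have hav := v.pos ha
  unfold sz
  by_cases hv : v ∈ Sg
  · rw [if_pos hv, if_pos hv]
    have h2 := H_sup_pos v (hM v hv) hy (c v) h
    have h4 : (⨆ k, v ((M v).mulVec (a • y) k) * Real.exp (c v k * h)) =
        v a * ⨆ k, v ((M v).mulVec y k) * Real.exp (c v k * h) := by
      rw [Real.mul_iSup_of_nonneg (v.nonneg a)]
      refine congrArg iSup (funext fun k => ?_)
      rw [Matrix.mulVec_smul, Pi.smul_apply, smul_eq_mul, map_mul]
      ring
    rw [h4, Real.log_mul hav.ne' h2.ne']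
    ring
  · rw [if_neg hv, if_neg hv]
    obtain ⟨l, hl⟩ := Function.ne_iff.1 hy
    have h2 : 0 < ⨆ l, v (y l) :=
      (v.pos hl).trans_le (le_ciSup (Set.finite_range fun l => v (y l)).bddAbove l)
    have h4 : (⨆ l, v ((a • y) l)) = v a * ⨆ l, v (y l) := by
      rw [Real.mul_iSup_of_nonneg (v.nonneg a)]
      refine congrArg iSup (funext fun k => ?_)
      rw [Pi.smul_apply, smul_eq_mul, map_mul]
    rw [h4, Real.log_mul hav.ne' h2.ne']

end

section

variable {K : Type*} [Field K] [AdmissibleAbsValues K]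

/-- Finitely many functions, chosen at each place. -/
theorem DK_FS {ι : Type*} {g : AbsoluteValue K ℝ → ι} (hg : (Set.range g).Finite)
    (F : ι → AbsoluteValue K ℝ → ℝ) (hF : ∀ v, FS (F (g v))) : FS fun v => F (g v) v := by
  have h1 : (⋃ i ∈ Set.range g,
      {v : AdmissibleAbsValues.nonarchAbsVal (K := K) | F i v.val ≠ 0}).Finite := by
    refine Set.Finite.biUnion hg fun i hi => ?_
    obtain ⟨v, rfl⟩ := hi
    exact hF v
  refine h1.subset fun v hv => ?_
  rw [Set.mem_iUnion₂]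
  exact ⟨g v.val, Set.mem_range_self _, hv⟩

end

/-- CRAM: Cramer's rule with the sizes; `x 0` and a vector `z` independent of it. -/
theorem CRAM (K : Type u) [Field K] [NumberField K] (q : ℕ) :
    ∃ C : ℝ, 0 ≤ C ∧ ∀ (Sg : Finset (AbsoluteValue K ℝ)), (∀ v ∈ Sg, Pl v) →
      ∀ (c : AbsoluteValue K ℝ → Fin (q + 1) → ℝ) (h ε δ loss : ℝ)
        (M : AbsoluteValue K ℝ → Matrix (Fin (q + 1)) (Fin (q + 1)) K)
        (x : Fin (q + 1) → Fin (q + 1) → K) (z : Fin (q + 1) → K)
        (f f' : AbsoluteValue K ℝ → K),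
      (∀ v ∈ Sg, (M v).det ≠ 0) → LinearIndependent K x →
      (∀ a a' : K, a • x 0 + a' • z = 0 → a' = 0) → (Set.range f).Finite → (Set.range f').Finite →
      (∀ v, f v ≠ 0) →
      gs (fun v => sz Sg c h M (f' v • x 0 + f v • z) v - sz Sg c h M (f v • x 0) v) ≤ ε →
      gs (open Classical in fun v : AbsoluteValue K ℝ => if v ∈ Sg then
        Real.log ((⨆ p : Fin (q + 1) × Fin (q + 1), v (M v p.1 p.2)) ^ (q + 1) / v (M v).det)
        else 0) ≤ loss →
      ∑ s, gs (sz Sg c h M (x s)) ≤ tw Sg c * h + δ →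
      ∃ s, s ≠ 0 ∧ gs (sz Sg c h M (x s)) ≤ gs (sz Sg c h M (x 0)) + ε + δ + loss + C := by
  classical
  refine ⟨gs fun v : AbsoluteValue K ℝ => Real.log (cst v (q + 1).factorial),
    gs_nonneg fun v _ => Real.log_nonneg (one_le_cst v (Nat.succ_le_of_lt (Nat.factorial_pos _))),
    ?_⟩
  intro Sg _ c h ε δ loss M x z f f' hM hx hz hf hf' hf0 hε hloss hsum
  have hx0 : ∀ s, x s ≠ 0 := fun s => hx.ne_zero s
  -- the coordinates of `z`
  have hX : (Matrix.of x).det ≠ 0 := by
    intro h0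
    have h1 := Matrix.linearIndependent_rows_iff_isUnit.1 hx
    rw [Matrix.isUnit_iff_isUnit_det] at h1
    exact h1.ne_zero h0
  obtain ⟨α, hα⟩ : ∃ α : Fin (q + 1) → K, z = ∑ s, α s • x s := by
    refine ⟨Matrix.vecMul z (Matrix.of x)⁻¹, ?_⟩
    have h1 : Matrix.vecMul (Matrix.vecMul z (Matrix.of x)⁻¹) (Matrix.of x) = z := by
      rw [Matrix.vecMul_vecMul, Matrix.nonsing_inv_mul, Matrix.vecMul_one]
      exact isUnit_iff_ne_zero.2 hX
    rw [Matrix.vecMul_eq_sum] at h1
    exact h1.symm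
  -- a coordinate which is not zero
  obtain ⟨s, hs0, hs⟩ : ∃ s, s ≠ 0 ∧ α s ≠ 0 := by
    by_contra hcon
    push Not at hcon
    have h1 : z = α 0 • x 0 := by
      rw [hα]
      exact Finset.sum_eq_single 0 (fun s _ hs => by rw [hcon s hs, zero_smul])
        fun h => absurd (Finset.mem_univ _) h
    have h2 := hz (- α 0) 1 (by rw [h1, one_smul, neg_smul, neg_add_cancel])
    exact one_ne_zero h2
  refine ⟨s, hs0, ?_⟩
  -- the matrix at the place `v`
  set Y : AbsoluteValue K ℝ → Matrix (Fin (q + 1)) (Fin (q + 1)) K := fun v =>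
    Function.update (Function.update x 0 (f v • x 0)) s (f' v • x 0 + f v • z) with hY
  have hdet : ∀ v, (Y v).det = f v * (f v * (α s * (Matrix.of x).det)) := by
    intro v
    have h1 : Y v = Matrix.updateRow (Matrix.updateRow (Matrix.of x) s (f' v • x 0 + f v • z)) 0
        (f v • x 0) := Function.update_comm hs0.symm _ _ _
    have h2 : Matrix.updateRow (Matrix.updateRow (Matrix.of x) s (f' v • x 0 + f v • z)) 0
        (x 0) = Matrix.updateRow (Matrix.of x) s (f' v • x 0 + f v • z) := by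
      have h3 : x 0 = Matrix.updateRow (Matrix.of x) s (f' v • x 0 + f v • z) 0 :=
        (Function.update_of_ne hs0.symm _ x).symm
      exact Function.update_eq_self_iff.2 h3
    have h3 : (Matrix.updateRow (Matrix.of x) s (x 0)).det = 0 :=
      Matrix.det_updateRow_eq_zero (M := Matrix.of x) hs0.symm
    have h4 : (Matrix.updateRow (Matrix.of x) s z).det = α s • (Matrix.of x).det := by
      rw [hα]
      exact Matrix.det_updateRow_sum (Matrix.of x) s α
    rw [h1, Matrix.det_updateRow_smul, h2, Matrix.det_updateRow_add, Matrix.det_updateRow_smul,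
      Matrix.det_updateRow_smul, h3, h4, mul_zero, zero_add, smul_eq_mul]
  have hdet0 : ∀ v, (Y v).det ≠ 0 := fun v => by
    rw [hdet]
    exact mul_ne_zero (hf0 v) (mul_ne_zero (hf0 v) (mul_ne_zero hs hX))
  have hYs : ∀ v, Y v s = f' v • x 0 + f v • z := fun v => by
    rw [hY]
    exact Function.update_self _ _ _
  have hY0 : ∀ v, Y v 0 = f v • x 0 := fun v => by
    rw [hY]
    show Function.update (Function.update x 0 (f v • x 0)) s (f' v • x 0 + f v • z) 0 = _
    rw [Function.update_of_ne hs0.symm, Function.update_self]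
  have hYt : ∀ v t, t ≠ 0 → t ≠ s → Y v t = x t := fun v t ht0 hts => by
    rw [hY]
    show Function.update (Function.update x 0 (f v • x 0)) s (f' v • x 0 + f v • z) t = _
    rw [Function.update_of_ne hts, Function.update_of_ne ht0]
  have hfz : ∀ v, f' v • x 0 + f v • z ≠ 0 := fun v h0 => hf0 v (hz _ _ h0)
  -- finite supports
  have hF1 : FS fun v => sz Sg c h M (f v • x 0) v :=
    DK_FS hf (fun a => sz Sg c h M (a • x 0)) fun v =>
      FS_sz Sg c h M (smul_ne_zero (hf0 v) (hx0 0))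
  have hF2 : FS fun v => sz Sg c h M (f' v • x 0 + f v • z) v :=
    DK_FS (g := fun v => (f' v, f v)) ((hf'.prod hf).subset (by
      rintro _ ⟨v, rfl⟩
      exact ⟨Set.mem_range_self v, Set.mem_range_self v⟩))
      (fun a => sz Sg c h M (a.1 • x 0 + a.2 • z)) fun v =>
      FS_sz Sg c h M (hfz v)
  have hF3 : FS fun v => Real.log (v (f v)) :=
    DK_FS hf (fun a v => Real.log (v a)) fun v => FS_log_abv (hf0 v)
  have hF4 : ∀ t, FS (sz Sg c h M (x t)) := fun t => FS_sz Sg c h M (hx0 t)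
  have hF5 : FS fun v : AbsoluteValue K ℝ => Real.log (cst v (q + 1).factorial) := FS_log_cst _
  have hF6 : FS fun v : AbsoluteValue K ℝ => (if v ∈ Sg then ∑ k, c v k else 0 : ℝ) :=
    S_FS_ite Sg _
  have hF7 : FS fun v : AbsoluteValue K ℝ => (if v ∈ Sg then
      Real.log ((⨆ p : Fin (q + 1) × Fin (q + 1), v (M v p.1 p.2)) ^ (q + 1) / v (M v).det)
      else 0 : ℝ) := S_FS_ite Sg _
  have hF8 : FS fun v : AbsoluteValue K ℝ => Real.log (v (α s * (Matrix.of x).det)) :=
    FS_log_abv (mul_ne_zero hs hX)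
  -- the sizes
  set T : Finset (Fin (q + 1)) := (Finset.univ.erase s).erase 0 with hT
  have hTs : ∀ g : Fin (q + 1) → ℝ, ∑ t, g t = g s + (g 0 + ∑ t ∈ T, g t) := by
    intro g
    rw [hT, Finset.add_sum_erase _ g (Finset.mem_erase.2 ⟨hs0.symm, Finset.mem_univ _⟩),
      Finset.add_sum_erase _ g (Finset.mem_univ s)]
  have hTt : ∀ t ∈ T, t ≠ 0 ∧ t ≠ s := by
    intro t ht
    rw [hT, Finset.mem_erase, Finset.mem_erase] at ht
    exact ⟨ht.1, ht.2.1⟩
  have hloc : ∀ v, Real.log (v (f v)) + Real.log (v (f v)) +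
      Real.log (v (α s * (Matrix.of x).det)) ≤
      Real.log (cst v (q + 1).factorial) + (sz Sg c h M (f' v • x 0 + f v • z) v +
        (sz Sg c h M (f v • x 0) v + ∑ t ∈ T, sz Sg c h M (x t) v)) -
      h * (if v ∈ Sg then ∑ k, c v k else 0) +
      (if v ∈ Sg then
        Real.log ((⨆ p : Fin (q + 1) × Fin (q + 1), v (M v p.1 p.2)) ^ (q + 1) / v (M v).det)
        else 0) := by
    intro v
    have h1 := DK_loc Sg c h M hM (Y v) (hdet0 v) v
    rw [hTs fun t => sz Sg c h M (Y v t) v, hYs, hY0,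
      Finset.sum_congr rfl fun t ht => by rw [hYt v t (hTt t ht).1 (hTt t ht).2], hdet, map_mul,
      map_mul, Real.log_mul (v.pos (hf0 v)).ne'
        (mul_pos (v.pos (hf0 v)) (v.pos (mul_ne_zero hs hX))).ne',
      Real.log_mul (v.pos (hf0 v)).ne' (v.pos (mul_ne_zero hs hX)).ne'] at h1
    linarith
  have hT1 := FS_sum T (f := fun t => sz Sg c h M (x t)) fun t _ => hF4 t
  have hgs := gs_le (FS_add (FS_add hF3 hF3) hF8)
    (FS_add (FS_sub (FS_add hF5 (FS_add hF2 (FS_add hF1 hT1))) (FS_const_mul h hF6)) hF7)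
    fun v _ => hloc v
  rw [gs_add (FS_add hF3 hF3) hF8, gs_add hF3 hF3, gs_log_abv (mul_ne_zero hs hX),
    gs_add (FS_sub (FS_add hF5 (FS_add hF2 (FS_add hF1 hT1))) (FS_const_mul h hF6)) hF7,
    gs_sub (FS_add hF5 (FS_add hF2 (FS_add hF1 hT1))) (FS_const_mul h hF6),
    gs_add hF5 (FS_add hF2 (FS_add hF1 hT1)), gs_add hF2 (FS_add hF1 hT1), gs_add hF1 hT1,
    gs_const_mul, gs_sum T fun t _ => hF4 t] at hgs
  rw [gs_sub hF2 hF1] at hε
  rw [hTs fun t => gs (sz Sg c h M (x t))] at hsum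
  have hmul : gs (fun v => sz Sg c h M (f v • x 0) v) =
      gs (fun v => Real.log (v (f v))) + gs (sz Sg c h M (x 0)) := by
    rw [← gs_add hF3 (hF4 0)]
    refine congrArg gs (funext fun v => ?_)
    exact DK_sz_smul Sg c h (hx0 0) hM (hf0 v) v
  have htw : tw Sg c = gs fun v : AbsoluteValue K ℝ => (if v ∈ Sg then ∑ k, c v k else 0 : ℝ) :=
    rfl
  rw [htw] at hsum
  linarith

end Pool.Agent.Lib.MP_17a322_nt.SL
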