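import Pool.Agent.Lib.MP_17a322_nt.SL.Defs
import Pool.Agent.Lib.MP_17a322_nt.VP.S1

/-!
Comparison of the sizes.
-/

universe u

namespace Pool.Agent.Lib.MP_17a322_nt.SL

open MvPolynomial Height Filter
open Pool.Agent.Lib.MP_17a322_nt.RO
open Pool.Agent.Lib.MP_17a322_nt.VJ
open Pool.Agent.Lib.MP_17a322_nt.VN hiding lf
open Pool.Agent.Lib.MP_17a322_nt.VA
open Pool.Agent.Lib.MP_17a322_nt.VP

section

variable {K : Type*} [Field K] {q : ℕ}

/-- The values of independent forms are not all zero. -/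
theorem H_sup_pos (v : AbsoluteValue K ℝ) {M : Matrix (Fin q) (Fin q) K} (hM : M.det ≠ 0)
    {y : Fin q → K} (hy : y ≠ 0) (c : Fin q → ℝ) (h : ℝ) :
    0 < ⨆ k, v (M.mulVec y k) * Real.exp (c k * h) := by
  obtain ⟨k, hk⟩ : ∃ k, M.mulVec y k ≠ 0 := by
    by_contra hcon
    push Not at hcon
    exact hy (Matrix.eq_zero_of_mulVec_eq_zero hM (funext hcon))
  exact (mul_pos (v.pos hk) (Real.exp_pos _)).trans_le
    (le_ciSup (Set.finite_range fun k => v (M.mulVec y k) * Real.exp (c k * h)).bddAbove k)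

/-- The entries of a matrix are not all zero. -/
theorem H_ent_pos (v : AbsoluteValue K ℝ) {M : Matrix (Fin q) (Fin q) K} (hM : M.det ≠ 0)
    {y : Fin q → K} (hy : y ≠ 0) : 0 < ⨆ p : Fin q × Fin q, v (M p.1 p.2) := by
  obtain ⟨k, hk⟩ : ∃ k, M.mulVec y k ≠ 0 := by
    by_contra hcon
    push Not at hcon
    exact hy (Matrix.eq_zero_of_mulVec_eq_zero hM (funext hcon))
  obtain ⟨l, hl⟩ : ∃ l, M k l ≠ 0 := by
    by_contra hcon
    push Not at hcon
    apply hk
    show ∑ l, M k l * y l = 0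
    exact Finset.sum_eq_zero fun l _ => by rw [hcon l, zero_mul]
  exact (v.pos hl).trans_le
    (le_ciSup (Set.finite_range fun p : Fin q × Fin q => v (M p.1 p.2)).bddAbove (k, l))

open Classical in
/-- Change of the weights. -/
theorem H_sz_le (Sg : Finset (AbsoluteValue K ℝ)) {c c' : AbsoluteValue K ℝ → Fin q → ℝ}
    {h h' : ℝ} {M : AbsoluteValue K ℝ → Matrix (Fin q) (Fin q) K} {y : Fin q → K} (hy : y ≠ 0)
    (hM : ∀ v ∈ Sg, (M v).det ≠ 0) {a : AbsoluteValue K ℝ → ℝ}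
    (ha : ∀ v ∈ Sg, ∀ k, c' v k * h' ≤ c v k * h + a v) (v : AbsoluteValue K ℝ) :
    sz Sg c' h' M y v ≤ sz Sg c h M y v + if v ∈ Sg then a v else 0 := by
  unfold sz
  by_cases hv : v ∈ Sg
  · rw [if_pos hv, if_pos hv, if_pos hv]
    have h1 := H_sup_pos v (hM v hv) hy (c v) h
    have h2 := H_sup_pos v (hM v hv) hy (c' v) h'
    have : Nonempty (Fin q) := by
      by_contra hcon
      rw [not_nonempty_iff] at hcon
      exact hy (funext fun k => (hcon.false k).elim)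
    have h3 : (⨆ k, v ((M v).mulVec y k) * Real.exp (c' v k * h')) ≤
        (⨆ k, v ((M v).mulVec y k) * Real.exp (c v k * h)) * Real.exp (a v) := by
      refine ciSup_le fun k => ?_
      have h4 := le_ciSup (Set.finite_range fun k =>
        v ((M v).mulVec y k) * Real.exp (c v k * h)).bddAbove k
      refine le_trans ?_ (mul_le_mul_of_nonneg_right h4 (Real.exp_pos _).le)
      show _ ≤ v ((M v).mulVec y k) * Real.exp (c v k * h) * Real.exp (a v)
      rw [mul_assoc, ← Real.exp_add]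
      exact mul_le_mul_of_nonneg_left (Real.exp_le_exp.2 (ha v hv k)) (v.nonneg _)
    have h4 := Real.log_le_log h2 h3
    rw [Real.log_mul h1.ne' (Real.exp_pos _).ne', Real.log_exp] at h4
    linarith
  · rw [if_neg hv, if_neg hv, if_neg hv, add_zero]

/-- Forms differing by a constant. -/
theorem H_sz_congr (Sg : Finset (AbsoluteValue K ℝ)) (c : AbsoluteValue K ℝ → Fin q → ℝ)
    (h : ℝ) {M M' : AbsoluteValue K ℝ → Matrix (Fin q) (Fin q) K} {y : Fin q → K} (hy : y ≠ 0)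
    (hM : ∀ v ∈ Sg, (M v).det ≠ 0) (hMM : ∀ v ∈ Sg, ∃ a : K, a ≠ 0 ∧ M' v = a • M v) :
    sz Sg c h M' y = sz Sg c h M y := by
  funext v
  unfold sz
  by_cases hv : v ∈ Sg
  · rw [if_pos hv, if_pos hv]
    obtain ⟨a, ha, h1⟩ := hMM v hv
    have h2 := H_sup_pos v (hM v hv) hy (c v) h
    have h3 := H_ent_pos v (hM v hv) hy
    have h4 : (⨆ k, v ((M' v).mulVec y k) * Real.exp (c v k * h)) =
        v a * ⨆ k, v ((M v).mulVec y k) * Real.exp (c v k * h) := by
      rw [Real.mul_iSup_of_nonneg (v.nonneg a)]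
      congr 1
      funext k
      rw [h1, Matrix.smul_mulVec, Pi.smul_apply, smul_eq_mul, map_mul]
      ring
    have h5 : (⨆ p : Fin q × Fin q, v (M' v p.1 p.2)) =
        v a * ⨆ p : Fin q × Fin q, v (M v p.1 p.2) := by
      rw [Real.mul_iSup_of_nonneg (v.nonneg a)]
      congr 1
      funext p
      rw [h1, Matrix.smul_apply, smul_eq_mul, map_mul]
    have ha' := v.pos ha
    rw [h4, h5, Real.log_mul ha'.ne' h2.ne', Real.log_mul ha'.ne' h3.ne']
    ring
  · rw [if_neg hv, if_neg hv]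

end

section

variable {K : Type*} [Field K] [AdmissibleAbsValues K] {q : ℕ}

/-- Finite support. -/
theorem FS_sz (Sg : Finset (AbsoluteValue K ℝ)) (c : AbsoluteValue K ℝ → Fin q → ℝ)
    (h : ℝ) (M : AbsoluteValue K ℝ → Matrix (Fin q) (Fin q) K) {y : Fin q → K} (hy : y ≠ 0) :
    FS (sz Sg c h M y) := by
  classical
  refine ((FS_log_iSup hy).union (S_FS_ite Sg fun _ => (1 : ℝ))).subset fun v hv => ?_
  by_contra hcon
  rw [Set.mem_union, not_or] at hcon
  obtain ⟨h1, h2⟩ := hcon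
  have h3 : v.val ∉ Sg := by
    intro h4
    apply h2
    show (if v.val ∈ Sg then (1 : ℝ) else 0) ≠ 0
    rw [if_pos h4]
    exact one_ne_zero
  apply hv
  show sz Sg c h M y v.val = 0
  unfold sz
  rw [if_neg h3]
  by_contra h4
  exact h1 h4

open Classical in
/-- Change of the weights, total size. -/
theorem H_gs_sz_le (Sg : Finset (AbsoluteValue K ℝ)) {c c' : AbsoluteValue K ℝ → Fin q → ℝ}
    {h h' : ℝ} {M : AbsoluteValue K ℝ → Matrix (Fin q) (Fin q) K} {y : Fin q → K} (hy : y ≠ 0)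
    (hM : ∀ v ∈ Sg, (M v).det ≠ 0) {a : AbsoluteValue K ℝ → ℝ} {t : ℝ}
    (ha : ∀ v ∈ Sg, ∀ k, c' v k * h' ≤ c v k * h + t * a v) :
    gs (sz Sg c' h' M y) ≤ gs (sz Sg c h M y) +
      t * gs fun v : AbsoluteValue K ℝ => if v ∈ Sg then a v else 0 := by
  rw [← gs_const_mul, ← gs_add (FS_sz Sg c h M hy) (FS_const_mul t (S_FS_ite Sg a))]
  refine gs_le (FS_sz Sg c' h' M hy) (FS_add (FS_sz Sg c h M hy)
    (FS_const_mul t (S_FS_ite Sg a))) fun v _ => ?_
  refine (H_sz_le Sg hy hM (a := fun v => t * a v) ha v).trans (le_of_eq ?_)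
  by_cases hv : v ∈ Sg
  · rw [if_pos hv, if_pos hv]
  · rw [if_neg hv, if_neg hv, mul_zero]

end

end Pool.Agent.Lib.MP_17a322_nt.SL
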