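import Pool.Agent.Lib.MP_17a322_nt.SL.H2
import Pool.Agent.Lib.MP_17a322_nt.VA.FA8
import Pool.Agent.Lib.MP_17a322_nt.VG.Z7a

/-!
The data of the numerical theorem along a sequence.
-/

universe u

namespace Pool.Agent.Lib.MP_17a322_nt.SL

open MvPolynomial Height Filter
open Pool.Agent.Lib.MP_17a322_nt.RO
open Pool.Agent.Lib.MP_17a322_nt.VJ
open Pool.Agent.Lib.MP_17a322_nt.VN hiding lf
open Pool.Agent.Lib.MP_17a322_nt.VA
open Pool.Agent.Lib.MP_17a322_nt.VP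

/-- The numerical inequality. -/
theorem H3_num {sg M ρ c κ' ν T Hi G ω Z η : ℝ} (hρ : 0 < ρ) (hc : 0 < c) (hκ' : 0 < κ')
    (hT : 0 ≤ T) (hsg : |sg| ≤ M) (hω : ω = ν + 2 * κ' / c)
    (hZ : Z = (M + G) / ρ + 1) (hZη : ω * Z ≤ η) (hHi : Hi ≤ 2 / c * T) (hν : 0 ≤ ν)
    (hTH : |T - ρ * Hi| ≤ ω * T) {X : ℝ} (hX : X ≤ (sg + κ') * Hi) :
    X + ω * T / ρ * G ≤ (sg / ρ + η) * T := by
  have hω0 : 0 ≤ ω := by
    rw [hω]
    positivity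
  have h1 : sg * Hi ≤ sg / ρ * T + M / ρ * (ω * T) := by
    have h2 : sg * Hi = sg / ρ * T - sg / ρ * (T - ρ * Hi) := by
      field_simp
      ring
    have h3 : - (sg / ρ * (T - ρ * Hi)) ≤ M / ρ * (ω * T) := by
      refine (neg_le_abs _).trans ?_
      rw [abs_mul, abs_div, abs_of_pos hρ]
      exact mul_le_mul (div_le_div_of_nonneg_right hsg hρ.le) hTH (abs_nonneg _)
        (div_nonneg ((abs_nonneg _).trans hsg) hρ.le)
    rw [h2]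
    linarith
  have h4 : κ' * Hi ≤ 2 * κ' / c * T := by
    have h5 := mul_le_mul_of_nonneg_left hHi hκ'.le
    refine h5.trans (le_of_eq ?_)
    ring
  have h6 : 2 * κ' / c * T ≤ ω * T := by
    refine mul_le_mul_of_nonneg_right ?_ hT
    rw [hω]
    linarith
  have h7 : M / ρ * (ω * T) + ω * T + ω * T / ρ * G = ω * Z * T := by
    rw [hZ]
    field_simp
    ring
  have h8 : ω * Z * T ≤ η * T := mul_le_mul_of_nonneg_right hZη hT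
  have h9 : (sg / ρ + η) * T = sg / ρ * T + η * T := by ring
  rw [h9]
  have h10 : (sg + κ') * Hi = sg * Hi + κ' * Hi := by ring
  linarith

open Classical in
/-- The machine along a sequence. -/
theorem H_mach {K : Type u} [Field K] [NumberField K] {N : ℕ} (B : AV K N) {H : ℕ → ℝ}
    (hH : Tendsto H (hyperfilter ℕ : Filter ℕ) atTop) (Q : ℕ → B.Pts K) (hQ : FRM B.h H Q)
    (hc : ∃ c : ℝ, 0 < c ∧ ∀ᶠ i in (hyperfilter ℕ : Filter ℕ), c * H i ≤ B.h (Q i))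
    (hC : ∃ C : ℝ, 0 < C ∧ ∀ᶠ i in (hyperfilter ℕ : Filter ℕ), B.h (Q i) ≤ C * H i)
    {n e : ℕ} (nd : Noe B n e)
    (hgood : ∀ᶠ i in (hyperfilter ℕ : Filter ℕ), nd.Good (Q i))
    (Sg : Finset (AbsoluteValue K ℝ)) {q q' : ℕ} (D : ℕ)
    (c : AbsoluteValue K ℝ → Fin (q + 1) → ℝ) (sig : Fin q' → ℝ)
    (Λ : ℕ → AbsoluteValue K ℝ →
      Matrix (Fin (q + 1)) (Fin (q + 1)) (MvPolynomial (Fin (N + 1)) K))
    (y : ℕ → Fin q' → Fin (q + 1) → K)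
    (hhom : ∀ᶠ i in (hyperfilter ℕ : Filter ℕ), ∀ v ∈ Sg, ∀ k l, (Λ i v k l).IsHomogeneous D)
    (hdet : ∀ᶠ i in (hyperfilter ℕ : Filter ℕ), ∀ v ∈ Sg, aeval (B.x (Q i)) (Λ i v).det ≠ 0)
    (hht : ∀ v ∈ Sg, oH H fun i => htM (Λ i v))
    (hloss : ∀ E : SC K, ∀ v ∈ Sg, oH H fun i => lossM nd E v (Q i) (Λ i v))
    (hy : ∀ᶠ i in (hyperfilter ℕ : Filter ℕ), ∀ s, y i s ≠ 0)
    (hsz : ∀ η : ℝ, 0 < η → ∀ᶠ i in (hyperfilter ℕ : Filter ℕ), ∀ s,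
      gs (sz Sg c (H i) (fun v => (Λ i v).map (aeval (B.x (Q i)))) (y i s)) ≤
        (sig s + η) * H i) :
    ∃ ρ : ℝ, 0 < ρ ∧ ∀ (E : SC K) (S : ℕ → Prop), (∀ᶠ i in (hyperfilter ℕ : Filter ℕ), S i) →
      ∀ (h₁ : ℕ → ℝ), oH H h₁ → ∀ (m R₀ : ℕ) (C₀ η : ℝ), 0 < η →
      ∃ (a₀ : ℕ) (b₀ : Fin m → ℕ) (j : Fin m → ℕ), S a₀ ∧ (∀ i, S (b₀ i)) ∧
        (∀ i, h₁ (b₀ i) ≤ 4 ^ j i) ∧ (∀ i, R₀ ≤ 4 ^ j i) ∧ (∀ i i', i < i' → R₀ * 4 ^ j i ≤ 4 ^ j i') ∧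
        (∀ i, 4 ^ j i * B.h (Q a₀) ≤ 2 * B.h (Q (b₀ i))) ∧
        DatM nd Sg D (fun v k => c v k / ρ) (fun s => sig s / ρ) E C₀ η (Q a₀)
          (fun i => Q (b₀ i)) j (fun i v => Λ (b₀ i) v) (fun i s => y (b₀ i) s) := by
  obtain ⟨c₁, hc0, hci⟩ := hc
  obtain ⟨C₁, hC0, hCi⟩ := hC
  have hHpos : ∀ᶠ i in (hyperfilter ℕ : Filter ℕ), 0 < H i := hH.eventually_gt_atTop 0
  obtain ⟨ρ, hρc, -, hρ⟩ := S_lim (fun i => B.h (Q i) / H i) (A := c₁) (B := C₁) (by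
    filter_upwards [hHpos, hci, hCi] with i h1 h2 h3
    exact ⟨by rwa [le_div_iff₀ h1], by rwa [div_le_iff₀ h1]⟩)
  have hρ0 : 0 < ρ := hc0.trans_le hρc
  refine ⟨ρ, hρ0, fun E S hSe h₁ hh₁ m R₀ C₀ η hη => ?_⟩
  -- the constants
  obtain ⟨M, hM⟩ : ∃ M : ℝ, M = ∑ s, |sig s| := ⟨_, rfl⟩
  obtain ⟨G, hG⟩ : ∃ G : ℝ, G = gs fun v : AbsoluteValue K ℝ =>
      if v ∈ Sg then ∑ k, |c v k| else 0 := ⟨_, rfl⟩
  have hM0 : 0 ≤ M := by
    rw [hM]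
    exact Finset.sum_nonneg fun s _ => abs_nonneg _
  have hG0 : 0 ≤ G := by
    rw [hG]
    refine gs_nonneg fun v _ => ?_
    split_ifs
    · exact Finset.sum_nonneg fun s _ => abs_nonneg _
    · exact le_rfl
  obtain ⟨Z, hZ⟩ : ∃ Z : ℝ, Z = (M + G) / ρ + 1 := ⟨_, rfl⟩
  have hZ1 : 1 ≤ Z := by
    rw [hZ]
    have : 0 ≤ (M + G) / ρ := by positivity
    linarith
  have hZ0 : 0 < Z := by linarith
  obtain ⟨ν, hν⟩ : ∃ ν : ℝ, ν = min 1 (η / (4 * Z)) := ⟨_, rfl⟩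
  have hν0 : 0 < ν := by
    rw [hν]
    positivity
  have hν1 : ν ≤ 1 := by
    rw [hν]
    exact min_le_left _ _
  have hνη : ν * Z ≤ η / 4 := by
    have h1 : ν ≤ η / (4 * Z) := by
      rw [hν]
      exact min_le_right _ _
    rw [le_div_iff₀ (by positivity)] at h1
    linarith
  have hνη' : ν ≤ η := by
    have h1 : ν * 1 ≤ ν * Z := mul_le_mul_of_nonneg_left hZ1 hν0.le
    linarith
  obtain ⟨κ', hκ'⟩ : ∃ κ' : ℝ, κ' = c₁ * η / (8 * Z) := ⟨_, rfl⟩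
  have hκ'0 : 0 < κ' := by
    rw [hκ']
    positivity
  obtain ⟨ω, hω⟩ : ∃ ω : ℝ, ω = ν + 2 * κ' / c₁ := ⟨_, rfl⟩
  have hωZ : ω * Z ≤ η := by
    have h1 : 2 * κ' / c₁ * Z = η / 4 := by
      rw [hκ']
      field_simp
      ring
    rw [hω, add_mul, h1]
    linarith
  -- the heights
  obtain ⟨hh, hhd⟩ : ∃ hh : ℕ → ℝ, ∀ i, hh i = max 0 (h₁ i) + ∑ v ∈ Sg, max 0 (htM (Λ i v)) :=
    ⟨_, fun _ => rfl⟩
  have hhoH : oH H hh := by
    rw [show hh = fun i => max 0 (h₁ i) + ∑ v ∈ Sg, max 0 (htM (Λ i v)) from funext hhd]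
    exact (FA8_oH_max (oH_const hH 0) hh₁).add
      (oH.sum hH Sg _ fun v hv => FA8_oH_max (oH_const hH 0) (hht v hv))
  have hloss' : ∀ᶠ i in (hyperfilter ℕ : Filter ℕ), ∀ v ∈ Sg,
      lossM nd E v (Q i) (Λ i v) ≤ c₁ * η / 2 * H i :=
    (eventually_all_finset Sg).2 fun v hv => hloss E v hv _ (by positivity)
  obtain ⟨a₀, b₀, j, hSa, hSb, hCa, hpa, hR1, hR2, hhj, h4j, hpt, hcone⟩ := hQ hh hhoH
    (fun i => S i ∧ 0 < H i ∧ c₁ * H i ≤ B.h (Q i) ∧ |B.h (Q i) / H i - ρ| ≤ κ' ∧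
      nd.Good (Q i) ∧ (∀ v ∈ Sg, ∀ k l, (Λ i v k l).IsHomogeneous D) ∧
      (∀ v ∈ Sg, aeval (B.x (Q i)) (Λ i v).det ≠ 0) ∧
      (∀ v ∈ Sg, lossM nd E v (Q i) (Λ i v) ≤ c₁ * η / 2 * H i) ∧ (∀ s, y i s ≠ 0) ∧
      ∀ s, gs (sz Sg c (H i) (fun v => (Λ i v).map (aeval (B.x (Q i)))) (y i s)) ≤
        (sig s + κ') * H i)
    (hSe.and (hHpos.and (hci.and ((hρ κ' hκ'0).and (hgood.and (hhom.and (hdet.and
      (hloss'.and (hy.and (hsz κ' hκ'0))))))))))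
    m R₀ C₀ ν hν0
  have hsum0 : ∀ i, 0 ≤ ∑ v ∈ Sg, max 0 (htM (Λ (b₀ i) v)) := fun i =>
    Finset.sum_nonneg fun v _ => le_max_left _ _
  refine ⟨a₀, b₀, j, hSa.1, fun i => (hSb i).1, fun i => ?_, hR1, hR2, h4j, ?_⟩
  · refine le_trans ?_ (hhj i)
    rw [hhd]
    have h1 := le_max_right 0 (h₁ (b₀ i))
    linarith [hsum0 i]
  have hT : ∀ i, 0 ≤ 4 ^ j i * B.h (Q a₀) := fun i => mul_nonneg (by positivity) hpa.le
  have hHi : ∀ i, H (b₀ i) ≤ 2 / c₁ * (4 ^ j i * B.h (Q a₀)) := by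
    intro i
    obtain ⟨-, -, h3, -⟩ := hSb i
    have h4 := (abs_le.1 (hcone i)).2
    have h5 : ν * (4 ^ j i * B.h (Q a₀)) ≤ 1 * (4 ^ j i * B.h (Q a₀)) :=
      mul_le_mul_of_nonneg_right hν1 (hT i)
    have h6 : c₁ * H (b₀ i) ≤ 2 * (4 ^ j i * B.h (Q a₀)) := by linarith
    rw [div_mul_eq_mul_div, le_div_iff₀ hc0]
    linarith
  have hTH : ∀ i, |4 ^ j i * B.h (Q a₀) - ρ * H (b₀ i)| ≤ ω * (4 ^ j i * B.h (Q a₀)) := by
    intro i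
    obtain ⟨-, h2, -, h4, -⟩ := hSb i
    have h5 : |B.h (Q (b₀ i)) - ρ * H (b₀ i)| ≤ κ' * H (b₀ i) := by
      have h6 : B.h (Q (b₀ i)) - ρ * H (b₀ i) = (B.h (Q (b₀ i)) / H (b₀ i) - ρ) * H (b₀ i) := by
        field_simp
      rw [h6, abs_mul, abs_of_pos h2]
      exact mul_le_mul_of_nonneg_right h4 h2.le
    have h6 := hcone i
    have h7 := mul_le_mul_of_nonneg_left (hHi i) hκ'0.le
    have h8 : |4 ^ j i * B.h (Q a₀) - ρ * H (b₀ i)| ≤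
        |B.h (Q (b₀ i)) - 4 ^ j i * B.h (Q a₀)| + |B.h (Q (b₀ i)) - ρ * H (b₀ i)| := by
      have h9 := abs_sub_le (4 ^ j i * B.h (Q a₀)) (B.h (Q (b₀ i))) (ρ * H (b₀ i))
      rwa [abs_sub_comm (4 ^ j i * B.h (Q a₀)) (B.h (Q (b₀ i)))] at h9
    have h9 : ω * (4 ^ j i * B.h (Q a₀)) = ν * (4 ^ j i * B.h (Q a₀)) +
        κ' * (2 / c₁ * (4 ^ j i * B.h (Q a₀))) := by
      rw [hω]
      ring
    rw [h9]
    linarith
  refine
    { good := fun i => (hSb i).2.2.2.2.1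
      hom := fun i => (hSb i).2.2.2.2.2.1
      det := fun i => (hSb i).2.2.2.2.2.2.1
      ht := fun i v hv => ?_
      ne := fun i => (hSb i).2.2.2.2.2.2.2.2.1
      h₀ := hCa
      near := fun i => (hpt i).trans (mul_le_mul_of_nonneg_right hνη' (hT i))
      hP := fun i => (hcone i).trans (mul_le_mul_of_nonneg_right hνη' (hT i))
      loss := fun i v hv => ?_
      size := fun i s => ?_ }
  · refine le_trans ?_ (hhj i)
    rw [hhd]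
    have h1 := (le_max_right 0 (htM (Λ (b₀ i) v))).trans (Finset.single_le_sum
      (f := fun v => max 0 (htM (Λ (b₀ i) v))) (fun v _ => le_max_left _ _) hv)
    have h2 := le_max_left 0 (h₁ (b₀ i))
    linarith
  · refine ((hSb i).2.2.2.2.2.2.2.1 v hv).trans ?_
    have h1 := mul_le_mul_of_nonneg_left (hHi i) (show 0 ≤ c₁ * η / 2 by positivity)
    refine h1.trans (le_of_eq ?_)
    field_simp
  · have h1 := (hSb i).2.2.2.2.2.2.2.2.2 s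
    have hdet' : ∀ v ∈ Sg, ((Λ (b₀ i) v).map (aeval (B.x (Q (b₀ i))))).det ≠ 0 := by
      intro v hv
      have h2 := (hSb i).2.2.2.2.2.2.1 v hv
      rw [AlgHom.map_det] at h2
      exact h2
    have h2 := H_gs_sz_le Sg (c := c) (c' := fun v k => c v k / ρ) (h := H (b₀ i))
      (h' := 4 ^ j i * B.h (Q a₀)) (M := fun v => (Λ (b₀ i) v).map (aeval (B.x (Q (b₀ i)))))
      (y := y (b₀ i) s) ((hSb i).2.2.2.2.2.2.2.2.1 s) hdet'
      (a := fun v => ∑ k, |c v k|) (t := ω * (4 ^ j i * B.h (Q a₀)) / ρ) (by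
        intro v _ k
        obtain ⟨T, hTd⟩ : ∃ T : ℝ, T = 4 ^ j i * B.h (Q a₀) := ⟨_, rfl⟩
        have h3 := hTH i
        rw [← hTd] at h3 ⊢
        have h4 : c v k / ρ * T = c v k * H (b₀ i) + c v k / ρ * (T - ρ * H (b₀ i)) := by
          field_simp
          ring
        have h5 : c v k / ρ * (T - ρ * H (b₀ i)) ≤ |c v k| / ρ * (ω * T) := by
          refine (le_abs_self _).trans ?_
          rw [abs_mul, abs_div, abs_of_pos hρ0]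
          exact mul_le_mul_of_nonneg_left h3 (by positivity)
        have h6 : |c v k| ≤ ∑ k, |c v k| :=
          Finset.single_le_sum (f := fun k => |c v k|) (fun k _ => abs_nonneg _)
            (Finset.mem_univ k)
        have h7 : 0 ≤ ω * T / ρ := div_nonneg ((abs_nonneg _).trans h3) hρ0.le
        have h8 := mul_le_mul_of_nonneg_left h6 h7
        have h9 : |c v k| / ρ * (ω * T) = ω * T / ρ * |c v k| := by ring
        rw [h4]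
        linarith)
    refine h2.trans ?_
    rw [← hG]
    refine H3_num (M := M) (κ' := κ') (ν := ν) (c := c₁) (ω := ω) (Z := Z) hρ0 hc0 hκ'0 (hT i)
      ?_ hω hZ hωZ (hHi i) hν0.le (hTH i) h1
    rw [hM]
    exact Finset.single_le_sum (f := fun s => |sig s|) (fun s _ => abs_nonneg _)
      (Finset.mem_univ s)

end Pool.Agent.Lib.MP_17a322_nt.SL
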