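import Pool.Agent.Lib.MP_17a322_nt.VP.I2
import Pool.Agent.Lib.MP_17a322_nt.VP.S6
import Pool.Agent.Lib.MP_17a322_nt.VP.S8

/-!
The setting for the sequences of large height: the smallest coset `w + B` over `k0` containing `p`.
-/

universe u

namespace Pool.Agent.Lib.MP_17a322_nt.SL

open MvPolynomial Height Filter
open Pool.Agent.Lib.MP_17a322_nt.RO
open Pool.Agent.Lib.MP_17a322_nt.VJ
open Pool.Agent.Lib.MP_17a322_nt.VN hiding lf
open Pool.Agent.Lib.MP_17a322_nt.VA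
open Pool.Agent.Lib.MP_17a322_nt.VP

/-- The points `P i = W i + Q i`: `W` has height `o(H)`, `Q` is a sequence in `B` whose germ `b` is generic
over `k0`; `nd` is a family of Noether normalisations covering `B`. -/
structure HSet {K : Type u} [Field K] [NumberField K] {N : ℕ} (A : AV K N) (P : ℕ → A.Pts K)
    {H : ℕ → ℝ} (hH : Tendsto H (hyperfilter ℕ : Filter ℕ) atTop) (p : A.Pts (GK K)) where
  B : AV K N
  hB : IsSubAV B A
  w : A.Pts (k0 K H hH)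
  w' : A.Pts (GK K)
  W : ℕ → A.Pts K
  Q : ℕ → B.Pts K
  b : B.Pts (GK K)
  b0 : B.Pts (GK K)
  p₁ : B.Pts K
  n : ℕ
  s : ℕ
  e : Fin s → ℕ
  nd : ∀ c, Noe B n (e c)
  κ : SC K
  κS : SC K
  b₁ : AbsoluteValue K ℝ → Fin (N + 1)
  hw : A.Img (k0 K H hH).val w w'
  hW : IsGerm A W w'
  hQ : IsGerm B Q b
  rel : p = w' + hB.inc (GK K) b
  relK : ∀ᶠ i in (hyperfilter ℕ : Filter ℕ), P i = W i + hB.inc K (Q i)
  frm : FRM B.h H Q
  low : ∃ c : ℝ, 0 < c ∧ ∀ᶠ i in (hyperfilter ℕ : Filter ℕ), c * H i ≤ B.h (Q i)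
  upp : ∃ C : ℝ, 0 < C ∧ ∀ᶠ i in (hyperfilter ℕ : Filter ℕ), B.h (Q i) ≤ C * H i
  shift : ∀ p₂ : B.Pts K, FRM B.h H (fun i => Q i - p₂) ∧
    (∃ c : ℝ, 0 < c ∧ ∀ᶠ i in (hyperfilter ℕ : Filter ℕ), c * H i ≤ B.h (Q i - p₂)) ∧
    ∃ C : ℝ, 0 < C ∧ ∀ᶠ i in (hyperfilter ℕ : Filter ℕ), B.h (Q i - p₂) ≤ C * H i
  dim : B.dimIs n
  cov : ∀ (L : Type u) [Field L] [Algebra K L] (v : AbsoluteValue L ℝ) (P : B.Pts L),
    ∃ c, (nd c).In κ v P
  good : ∀ c, (nd c).Good b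
  hb : b = b0 - B.img (Algebra.ofId K (GK K)) p₁
  min0 : MinSub B b0
  noRat : ∀ p₂ : B.Pts K, NoRat B hH (b - B.img (Algebra.ofId K (GK K)) p₂)
  ind : ∀ c, AlgebraicIndependent (k0 K H hH) ((nd c).s b)
  rtb : ∀ i, rt (B.x b) i ∈ IntermediateField.adjoin (k0 K H hH) (Set.range (rt (A.x p)))
  rtp : ∀ i, rt (A.x p) i ∈ IntermediateField.adjoin (k0 K H hH) (Set.range (rt (B.x b)))
  hκS : ∀ (L : Type u) [Field L] [Algebra K L] (v : AbsoluteValue L ℝ)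
    (y y' : Fin (N + 1) → L), A.IsPt y → A.IsPt y' →
      ∃ a b, vm v y ^ 2 * vm v y' ^ 2 ≤ κS.k v * v (aeval (Sum.elim y y') (A.S a b))
  hb₁ : ∀ v : AbsoluteValue K ℝ, ∀ᶠ i in (hyperfilter ℕ : Filter ℕ),
    ∀ b, v (A.x (W i - hB.inc K (Q i)) b) ≤ v (A.x (W i - hB.inc K (Q i)) (b₁ v))

/-- `B.img` is additive. -/
theorem H_img_add {K : Type u} [Field K] {N : ℕ} (B : AV K N) {L : Type u} [Field L]
    [Algebra K L] (p q : B.Pts K) : B.img (Algebra.ofId K L) (p + q) =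
      B.img (Algebra.ofId K L) p + B.img (Algebra.ofId K L) q :=
  (B.imgHom (Algebra.ofId K L)).map_add p q

/-- The setting exists. -/
theorem exists_HSet {K : Type u} [Field K] [NumberField K] {N : ℕ} (A : AV K N)
    (Γ : AddSubgroup (A.Pts K)) (hΓ : Γ.FG) (P : ℕ → A.Pts K) (hP : ∀ i, P i ∈ Γ) {H : ℕ → ℝ}
    (hH : Tendsto H (hyperfilter ℕ : Filter ℕ) atTop)
    (hlow : ∃ c : ℝ, 0 < c ∧ ∀ᶠ i in (hyperfilter ℕ : Filter ℕ), c * H i ≤ A.h (P i))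
    (hupp : ∃ C : ℝ, 0 < C ∧ ∀ᶠ i in (hyperfilter ℕ : Filter ℕ), A.h (P i) ≤ C * H i)
    {p : A.Pts (GK K)} (hPp : IsGerm A P p)
    {B : AV K N} (hB : IsSubAV B A) {w : A.Pts (k0 K H hH)} {w' : A.Pts (GK K)}
    (hw : A.Img (k0 K H hH).val w w') {b : B.Pts (GK K)} (hrel : p = w' + hB.inc (GK K) b)
    (hmin : MinSub B b) (hnr : ∀ p₁ : B.Pts K, NoRat B hH (b - B.img (Algebra.ofId K (GK K)) p₁)) :
    Nonempty (HSet A P hH p) := by
  classical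
  have hrel1 : 1 • p = w' + hB.inc (GK K) b := by
    rw [one_smul]
    exact hrel
  obtain ⟨W, hW⟩ := Z_germ_seq A w'
  obtain ⟨Q₀, hQ₀⟩ := Z_germ_seq B b
  obtain ⟨n, hn⟩ := Z_exists_dim B
  obtain ⟨s, e, nd, κ, hcov⟩ := exists_cover B hn
  obtain ⟨p₁, hgood⟩ := exists_shift B Q₀ b hQ₀ hmin e nd
  obtain ⟨q₁, hq₁⟩ : ∃ q₁, q₁ = B.img (Algebra.ofId K (GK K)) p₁ := ⟨_, rfl⟩
  obtain ⟨hQb, hW₂, ⟨w₁, hw₁⟩, hrel₂, hfrm, hlow', hupp'⟩ := S_shift A B hB Γ hΓ P hP hH hlow hupp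
    hPp one_pos hw hrel1 hW hQ₀ p₁ hq₁
  rw [one_smul] at hrel₂
  -- independence
  have hdeg : (n : Cardinal.{u}) ≤ tdeg (k0 K H hH) (B.x b) :=
    independent B hH Q₀ b hQ₀ hmin hnr (fun q => (S_shift A B hB Γ hΓ P hP hH hlow hupp
      hPp one_pos hw hrel1 hW hQ₀ q rfl).2.2.2.2) hn
  have hdeg₂ : (n : Cardinal.{u}) ≤ tdeg (k0 K H hH) (B.x (b - q₁)) := by
    have h1 := tdeg_shift (k := k0 K H hH) (b - q₁) (-p₁)
    have h2 : b - q₁ - B.img (Algebra.ofId K (GK K)) (-p₁) = b := by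
      have h3 : B.img (Algebra.ofId K (GK K)) (-p₁) = - q₁ := by
        rw [hq₁]
        exact (B.imgHom (Algebra.ofId K (GK K))).map_neg p₁
      rw [h3]
      abel
    rw [h2] at h1
    exact hdeg.trans h1
  have hind : ∀ c, AlgebraicIndependent (k0 K H hH) ((nd c).s (b - q₁)) := fun c =>
    s_indep (nd c) (b - q₁) (by rw [hq₁]; exact (hgood c).1) hdeg₂
  -- the coordinates of `b` are in the field of the coordinates of `p`
  obtain ⟨E, hE⟩ : ∃ E : IntermediateField K (GK K), ∀ x, x ∈ E ↔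
      x ∈ IntermediateField.adjoin (k0 K H hH) (Set.range (rt (A.x p))) :=
    ⟨(IntermediateField.adjoin (k0 K H hH) (Set.range (rt (A.x p)))).restrictScalars K,
      fun _ => Iff.rfl⟩
  have hEp : ∀ i, rt (A.x p) i ∈ E := fun i => (hE _).2 (IntermediateField.subset_adjoin _ _ ⟨i, rfl⟩)
  have hEw : ∀ i, rt (A.x (w' + hB.inc (GK K) q₁)) i ∈ E := fun i => by
    rw [hE]
    exact (IntermediateField.adjoin (k0 K H hH) (Set.range (rt (A.x p)))).algebraMap_mem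
      (⟨_, Z_rt_mem A hw₁ i⟩ : k0 K H hH)
  obtain ⟨pE, hpE⟩ := Z_descend A E p hEp
  obtain ⟨wE, hwE⟩ := Z_descend A E _ hEw
  have hdiff := Z_img_sub A hpE hwE
  have hbE : ∀ i, rt (B.x (b - q₁)) i ∈
      IntermediateField.adjoin (k0 K H hH) (Set.range (rt (A.x p))) := by
    intro i
    have h1 := Z_rt_mem A hdiff i
    have h2 : p - (w' + hB.inc (GK K) q₁) = hB.inc (GK K) (b - q₁) := by
      rw [hrel₂]
      abel
    rw [h2] at h1
    exact (hE _).1 h1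
  -- and conversely
  obtain ⟨F, hF⟩ : ∃ F : IntermediateField K (GK K), ∀ x, x ∈ F ↔
      x ∈ IntermediateField.adjoin (k0 K H hH) (Set.range (rt (B.x (b - q₁)))) :=
    ⟨(IntermediateField.adjoin (k0 K H hH) (Set.range (rt (B.x (b - q₁))))).restrictScalars K,
      fun _ => Iff.rfl⟩
  have hFb : ∀ i, rt (A.x (hB.inc (GK K) (b - q₁))) i ∈ F := fun i =>
    (hF _).2 (IntermediateField.subset_adjoin _ _ ⟨i, rfl⟩)
  have hFw : ∀ i, rt (A.x (w' + hB.inc (GK K) q₁)) i ∈ F := fun i => by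
    rw [hF]
    exact (IntermediateField.adjoin (k0 K H hH) (Set.range (rt (B.x (b - q₁))))).algebraMap_mem
      (⟨_, Z_rt_mem A hw₁ i⟩ : k0 K H hH)
  obtain ⟨bF, hbF⟩ := Z_descend A F _ hFb
  obtain ⟨wF, hwF⟩ := Z_descend A F _ hFw
  have hsum := Z_img_add A hwF hbF
  have hpF : ∀ i, rt (A.x p) i ∈
      IntermediateField.adjoin (k0 K H hH) (Set.range (rt (B.x (b - q₁)))) := by
    intro i
    have h1 := Z_rt_mem A hsum i
    rw [← hrel₂] at h1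
    exact (hF _).1 h1
  have hrelK : ∀ᶠ i in (hyperfilter ℕ : Filter ℕ),
      P i = (W i + hB.inc K p₁) + hB.inc K (Q₀ i - p₁) := by
    have h1 := hPp
    rw [hrel₂] at h1
    exact h1.ev_eq (hW₂.add_sub (hQb.inc hB)).1
  obtain ⟨κS, hκS⟩ := A.S_lower
  -- the column at each place
  have hcol : ∀ v : AbsoluteValue K ℝ, ∃ b₁ : Fin (N + 1),
      ∀ᶠ i in (hyperfilter ℕ : Filter ℕ),
        ∀ b, v (A.x ((W i + hB.inc K p₁) - hB.inc K (Q₀ i - p₁)) b) ≤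
          v (A.x ((W i + hB.inc K p₁) - hB.inc K (Q₀ i - p₁)) b₁) := by
    intro v
    refine eventually_exists_fintype _ _ (Eventually.of_forall fun i => ?_)
    exact Finite.exists_max fun b => v (A.x ((W i + hB.inc K p₁) - hB.inc K (Q₀ i - p₁)) b)
  choose b₁ hb₁ using hcol
  have hadd : ∀ p₂ : B.Pts K, b - q₁ - B.img (Algebra.ofId K (GK K)) p₂ =
      b - B.img (Algebra.ofId K (GK K)) (p₁ + p₂) := by
    intro p₂
    rw [H_img_add, hq₁]
    abel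
  have hadd' : ∀ (p₂ : B.Pts K) (i : ℕ), Q₀ i - p₁ - p₂ = Q₀ i - (p₁ + p₂) := fun p₂ i => by
    abel
  exact ⟨
    { B := B, hB := hB, w := w₁, w' := w' + hB.inc (GK K) q₁, W := fun i => W i + hB.inc K p₁,
      Q := fun i => Q₀ i - p₁, b := b - q₁, b0 := b, p₁ := p₁, n := n, s := s, e := e, nd := nd,
      κ := κ, κS := κS, b₁ := b₁, hw := hw₁, hW := hW₂, hQ := hQb, rel := hrel₂, relK := hrelK,
      frm := hfrm, low := hlow', upp := hupp'
      shift := fun p₂ => by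
        have h1 := (S_shift A B hB Γ hΓ P hP hH hlow hupp hPp one_pos hw hrel1 hW hQ₀
          (p₁ + p₂) rfl).2.2.2.2
        simp only [hadd']
        exact h1
      dim := hn, cov := hcov
      good := fun c => by
        rw [hq₁]
        exact hgood c
      hb := by rw [hq₁]
      min0 := hmin
      noRat := fun p₂ => by
        rw [hadd]
        exact hnr _
      ind := hind, rtb := hbE, rtp := hpF, hκS := hκS, hb₁ := hb₁ }⟩

section

variable {K : Type u} [Field K] [NumberField K] {N : ℕ} {A : AV K N} {P : ℕ → A.Pts K}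
    {H : ℕ → ℝ} {hH : Tendsto H (hyperfilter ℕ : Filter ℕ) atTop} {p : A.Pts (GK K)}
    (S : HSet A P hH p)

/-- `NoRat` for `b`. -/
theorem HSet.noRat' : NoRat S.B hH S.b := by
  have h1 := S.noRat 0
  have h2 : S.B.img (Algebra.ofId K (GK K)) 0 = 0 :=
    (S.B.imgHom (Algebra.ofId K (GK K))).map_zero
  rw [h2, sub_zero] at h1
  exact h1

theorem HSet.goodQ (c : Fin S.s) : ∀ᶠ i in (hyperfilter ℕ : Filter ℕ), (S.nd c).Good (S.Q i) :=
  (good_germ (S.nd c) S.hQ).mp (S.good c)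

/-- The heights of `W`. -/
theorem HSet.oH_W : oH H fun i => A.h (S.W i) := Z_oH_of_img hH S.hW S.hw

/-- The lower bound at a place for everything that is algebraic over `k0(s(b))`. -/
theorem HSet.np {v : AbsoluteValue K ℝ} (hv : Pl v) {c : Fin S.s}
    (hc : ∀ᶠ i in (hyperfilter ℕ : Filter ℕ), (S.nd c).In S.κ v (S.Q i)) (y : ℕ → K)
    (hy : gm y ≠ 0) (hyb : P_vb H v y)
    (hya : IsAlgebraic (Algebra.adjoin (k0 K H hH) (Set.range ((S.nd c).s S.b))) (gm y))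
    (ε : ℝ) (hε : 0 < ε) :
    ∀ᶠ i in (hyperfilter ℕ : Filter ℕ), - Real.log (v (y i)) ≤ ε * H i :=
  P_prox S.B hH S.Q S.frm S.low S.upp S.b S.hQ S.dim (S.nd c) S.κ (S.good c) S.noRat' hv hc y hy
    hyb hya ε hε

/-- A chart at `v`. -/
theorem HSet.exists_In (v : AbsoluteValue K ℝ) : ∃ c : Fin S.s,
    ∀ᶠ i in (hyperfilter ℕ : Filter ℕ), (S.nd c).In S.κ v (S.Q i) :=
  eventually_exists_fintype _ _ (Eventually.of_forall fun i => S.cov K v (S.Q i))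

/-- Lower bounds for the values of polynomials over `k0` at the Noether coordinates. -/
theorem HSet.prox (c₀ : Fin S.s) {v : AbsoluteValue K ℝ} (hv : Pl v)
    (z : MvPolynomial (Fin S.n) (k0 K H hH)) (hz : aeval ((S.nd c₀).s S.b) z ≠ 0)
    (a : ℕ → K) (ha : gm a = aeval ((S.nd c₀).s S.b) z) (δ : ℝ) (hδ : 0 < δ) :
    ∀ᶠ i in (hyperfilter ℕ : Filter ℕ), Real.exp (- δ * H i) ≤ v (a i) := by
  obtain ⟨c, hc⟩ := S.exists_In v
  have hnp := fun (y : ℕ → K) (hy : gm y ≠ 0) (hyb : P_vb H v y)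
    (hya : IsAlgebraic (Algebra.adjoin (k0 K H hH) (Set.range ((S.nd c).s S.b))) (gm y))
    (ε : ℝ) (hε : 0 < ε) => S.np hv hc y hy hyb hya ε hε
  exact P_hprox S.B hH S.Q S.b S.hQ (S.nd c) (S.good c).1 hv hnp (S.nd c₀)
    (P_vb_y' S.B hH S.Q S.b S.hQ (S.nd c) S.κ (S.good c).1 hv hc hnp (S.nd c₀) (S.good c₀).1)
    z hz a ha δ hδ

/-- The affine coordinates are `exp (o(H))`. -/
theorem HSet.chart (c₀ : Fin S.s) {v : AbsoluteValue K ℝ} (hv : Pl v) (δ : ℝ) (hδ : 0 < δ) :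
    ∀ᶠ i in (hyperfilter ℕ : Filter ℕ), mq v ((S.nd c₀).y (S.Q i)) ≤ Real.exp (δ * H i) := by
  obtain ⟨c, hc⟩ := S.exists_In v
  have hnp := fun (y : ℕ → K) (hy : gm y ≠ 0) (hyb : P_vb H v y)
    (hya : IsAlgebraic (Algebra.adjoin (k0 K H hH) (Set.range ((S.nd c).s S.b))) (gm y))
    (ε : ℝ) (hε : 0 < ε) => S.np hv hc y hy hyb hya ε hε
  exact P_hchart (S.nd c₀) hH
    (P_vb_y' S.B hH S.Q S.b S.hQ (S.nd c) S.κ (S.good c).1 hv hc hnp (S.nd c₀) (S.good c₀).1) δ hδ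

/-- The values of the twisted forms. -/
theorem HSet.val (v : AbsoluteValue K ℝ) : ∀ᶠ i in (hyperfilter ℕ : Filter ℕ), ∃ c : K, c ≠ 0 ∧
    ∀ (D : ℕ) (f : MvPolynomial (Fin (N + 1)) K), f.IsHomogeneous D →
      aeval (S.B.x (S.Q i)) (S_tw A (A.x (S.W i)) (S.b₁ v) f) = c ^ D * aeval (A.x (P i)) f := by
  filter_upwards [S.hb₁ v, S.relK] with i g1 g2
  obtain ⟨c, hc, h1, -⟩ := S_pt S.hB S.hκS (S.W i) (S.Q i) v (S.b₁ v) g1
  rw [← g2] at h1
  exact ⟨c, hc, h1⟩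

end

end Pool.Agent.Lib.MP_17a322_nt.SL
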