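import Pool.Agent.Lib.MP_17a322_nt.SL.H5
import Pool.Agent.Lib.MP_17a322_nt.VP.S8

/-!
The matrices of the twisted forms.
-/

universe u

namespace Pool.Agent.Lib.MP_17a322_nt.SL

open MvPolynomial Height Filter
open Pool.Agent.Lib.MP_17a322_nt.RO
open Pool.Agent.Lib.MP_17a322_nt.VJ
open Pool.Agent.Lib.MP_17a322_nt.VN hiding lf
open Pool.Agent.Lib.MP_17a322_nt.VA
open Pool.Agent.Lib.MP_17a322_nt.VP

/-- The matrix of the twisted forms. -/
noncomputable def twM {K : Type u} [Field K] {N : ℕ} (A : AV K N) {q : ℕ} (y : Fin (N + 1) → K)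
    (b₁ : Fin (N + 1)) (Λ : Matrix (Fin q) (Fin q) (MvPolynomial (Fin (N + 1)) K)) :
    Matrix (Fin q) (Fin q) (MvPolynomial (Fin (N + 1)) K) :=
  Λ.map (S_tw A y b₁)

/-- The determinant of the twisted forms. -/
theorem twM_det {K : Type u} [Field K] {N : ℕ} (A : AV K N) {q : ℕ} (y : Fin (N + 1) → K)
    (b₁ : Fin (N + 1)) (Λ : Matrix (Fin q) (Fin q) (MvPolynomial (Fin (N + 1)) K)) :
    (twM A y b₁ Λ).det = S_tw A y b₁ Λ.det := by
  have h1 : ∀ α, S_tw A y b₁ α = (aeval (fun a => aeval (R := K) (Sum.elim (fun i => C (y i)) X :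
      Fin (N + 1) ⊕ Fin (N + 1) → MvPolynomial (Fin (N + 1)) K) (A.S a b₁)) :
      MvPolynomial (Fin (N + 1)) K →ₐ[K] MvPolynomial (Fin (N + 1)) K) α := S_tw_eq A y b₁
  rw [h1 Λ.det, AlgHom.map_det]
  congr 1
  ext1 k l
  exact h1 (Λ k l)

theorem S_le_NVM {L : Type*} [Field L] {σ : Type*} {q : ℕ} (v : AbsoluteValue L ℝ)
    (Λ : Matrix (Fin q) (Fin q) (MvPolynomial σ L)) (k l : Fin q) : NV v (Λ k l) ≤ NVM v Λ :=
  le_ciSup (Set.finite_range fun p : Fin q × Fin q => NV v (Λ p.1 p.2)).bddAbove (k, l)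

/-- The product of the norms of the entries. -/
noncomputable def S_pM {K : Type*} [Field K] {N : ℕ} (A : AV K N) (v : AbsoluteValue K ℝ)
    (b₁ : Fin (N + 1)) {q : ℕ} (Λ : Matrix (Fin q) (Fin q) (MvPolynomial (Fin (N + 1)) K)) : ℝ :=
  ∏ p : Fin q × Fin q, max 1 (NV v (S_big A b₁ (Λ p.1 p.2)))

theorem S_one_le_pM {K : Type*} [Field K] {N : ℕ} (A : AV K N) (v : AbsoluteValue K ℝ)
    (b₁ : Fin (N + 1)) {q : ℕ} (Λ : Matrix (Fin q) (Fin q) (MvPolynomial (Fin (N + 1)) K)) :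
    1 ≤ S_pM A v b₁ Λ :=
  one_le_prod_max _ _ fun _ _ => le_max_left _ _

/-- The norms of the entries of the twisted matrix. -/
theorem twM_NV {K : Type u} [Field K] {N : ℕ} (A : AV K N) (v : AbsoluteValue K ℝ)
    (y : Fin (N + 1) → K) (hy : y ≠ 0) (b₁ : Fin (N + 1)) {q D : ℕ}
    {Λ : Matrix (Fin q) (Fin q) (MvPolynomial (Fin (N + 1)) K)}
    (hΛ : ∀ k l, (Λ k l).IsHomogeneous D) (k l : Fin q) :
    NV v (twM A y b₁ Λ k l) ≤ vm v y ^ (2 * D) * S_pM A v b₁ Λ := by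
  have h1 : NV v (twM A y b₁ Λ k l) ≤ vm v y ^ (2 * D) * NV v (S_big A b₁ (Λ k l)) :=
    S_tw_NV A v y hy b₁ (hΛ k l)
  refine h1.trans ?_
  refine mul_le_mul_of_nonneg_left ?_ (pow_nonneg (vm_nonneg v y) _)
  obtain ⟨f, hf⟩ : ∃ f : Fin q × Fin q → ℝ, ∀ p, f p = max 1 (NV v (S_big A b₁ (Λ p.1 p.2))) :=
    ⟨_, fun _ => rfl⟩
  have h2 : S_pM A v b₁ Λ = ∏ p, f p := by
    unfold S_pM
    exact Finset.prod_congr rfl fun p _ => (hf p).symm
  have h3 : f (k, l) ≤ ∏ p, f p := le_prod_max Finset.univ f (fun p _ => by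
    rw [hf]
    exact le_max_left _ _) (Finset.mem_univ (k, l))
  have h4 : NV v (S_big A b₁ (Λ k l)) ≤ f (k, l) := by
    rw [hf]
    exact le_max_right _ _
  rw [h2]
  exact h4.trans h3

theorem twM_NVM {K : Type u} [Field K] {N : ℕ} (A : AV K N) (v : AbsoluteValue K ℝ)
    (y : Fin (N + 1) → K) (hy : y ≠ 0) (b₁ : Fin (N + 1)) {q D : ℕ}
    {Λ : Matrix (Fin (q + 1)) (Fin (q + 1)) (MvPolynomial (Fin (N + 1)) K)}
    (hΛ : ∀ k l, (Λ k l).IsHomogeneous D) :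
    NVM v (twM A y b₁ Λ) ≤ vm v y ^ (2 * D) * S_pM A v b₁ Λ :=
  ciSup_le fun p => twM_NV A v y hy b₁ hΛ p.1 p.2

/-- Finite support of the local heights of a matrix of polynomials. -/
theorem S_FS_NVM {K : Type*} [Field K] [AdmissibleAbsValues K] {σ : Type*} {q : ℕ}
    (Λ : Matrix (Fin q) (Fin q) (MvPolynomial σ K)) (k l : Fin q) (h : Λ k l ≠ 0) :
    FS fun v => Real.log (NVM v Λ) := by
  classical
  have h1 : FS fun v : AbsoluteValue K ℝ => ∑ p : Fin q × Fin q,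
      |(if Λ p.1 p.2 = 0 then 0 else Real.log (NV v (Λ p.1 p.2)))| := by
    refine FS_sum _ fun p _ => ?_
    by_cases hp : Λ p.1 p.2 = 0
    · simp only [if_pos hp, abs_zero]
      exact Set.finite_empty.subset fun v hv => hv rfl
    · simp only [if_neg hp]
      exact (FS_log_NV hp).subset fun v hv h0 => hv (by simp only [h0, abs_zero])
  refine h1.subset fun v hv h0 => hv ?_
  have h2 : ∀ p : Fin q × Fin q,
      |(if Λ p.1 p.2 = 0 then 0 else Real.log (NV v.val (Λ p.1 p.2)))| = 0 := fun p =>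
    (Finset.sum_eq_zero_iff_of_nonneg fun _ _ => abs_nonneg _).1 h0 p (Finset.mem_univ p)
  have h3 : ∀ p : Fin q × Fin q, Λ p.1 p.2 ≠ 0 → NV v.val (Λ p.1 p.2) = 1 := by
    intro p hp
    have h4 := abs_eq_zero.1 (h2 p)
    rw [if_neg hp] at h4
    exact Real.eq_one_of_pos_of_log_eq_zero (NV_pos v.val hp) h4
  have h5 : NVM v.val Λ = 1 := by
    have : Nonempty (Fin q × Fin q) := ⟨(k, l)⟩
    refine le_antisymm (ciSup_le fun p => ?_) ?_
    · by_cases hp : Λ p.1 p.2 = 0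
      · rw [hp, A2_zero]
        exact zero_le_one
      · exact (h3 p hp).le
    · exact (h3 (k, l) h).symm.le.trans (S_le_NVM v.val Λ k l)
  show Real.log (NVM v.val Λ) = 0
  rw [h5, Real.log_one]

/-- The height of the twisted forms. -/
theorem twM_ht {K : Type u} [Field K] [NumberField K] {N : ℕ} (A : AV K N)
    (b₁ : Fin (N + 1)) {q : ℕ} {D : ℕ} {Λ : Matrix (Fin q) (Fin q) (MvPolynomial (Fin (N + 1)) K)}
    (hΛ : ∀ k l, (Λ k l).IsHomogeneous D) :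
    ∃ C : ℝ, 0 ≤ C ∧ ∀ W : A.Pts K, (twM A (A.x W) b₁ Λ).det ≠ 0 →
      htM (twM A (A.x W) b₁ Λ) ≤ 2 * D * A.h W + C := by
  have hC : ∀ p : Fin q × Fin q, 0 ≤ nh1 (S_big A b₁ (Λ p.1 p.2)) := fun p =>
    gs_nonneg fun v _ => Real.log_nonneg (le_max_left _ _)
  refine ⟨∑ p : Fin q × Fin q, nh1 (S_big A b₁ (Λ p.1 p.2)), Finset.sum_nonneg fun p _ => hC p,
    fun W h0 => ?_⟩
  have hW : A.x W ≠ 0 := Z_x_ne A W
  have hS : FS fun v : AbsoluteValue K ℝ => ∑ p : Fin q × Fin q,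
      Real.log (max 1 (NV v (S_big A b₁ (Λ p.1 p.2)))) := FS_sum _ fun p _ => FS_nh1 _
  have h1 : gs (fun v : AbsoluteValue K ℝ => (2 * D : ℝ) * Real.log (⨆ i, v (A.x W i)) +
      ∑ p : Fin q × Fin q, Real.log (max 1 (NV v (S_big A b₁ (Λ p.1 p.2))))) =
      2 * D * A.h W + ∑ p : Fin q × Fin q, nh1 (S_big A b₁ (Λ p.1 p.2)) := by
    rw [gs_add (FS_const_mul _ (FS_log_iSup hW)) hS, gs_const_mul,
      gs_log_iSup hW, gs_sum _ fun p _ => FS_nh1 _]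
    rfl
  rw [← h1]
  unfold htM
  rcases isEmpty_or_nonempty (Fin q) with hq | hq
  · have h2 : ∀ v : AbsoluteValue K ℝ, NVM v (twM A (A.x W) b₁ Λ) = 0 := fun v =>
      Real.iSup_of_isEmpty _
    simp only [h2, Real.log_zero]
    have h3 : gs (fun _ : AbsoluteValue K ℝ => (0 : ℝ)) = 0 := by simp [gs]
    rw [h3, h1]
    exact add_nonneg (mul_nonneg (by positivity) (AV.h_nonneg W))
      (Finset.sum_nonneg fun p _ => hC p)
  · obtain ⟨k, l, hkl⟩ : ∃ k l, twM A (A.x W) b₁ Λ k l ≠ 0 := by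
      by_contra hc
      push Not at hc
      apply h0
      have h2 : twM A (A.x W) b₁ Λ = 0 := by
        ext1 k l
        exact hc k l
      rw [h2]
      exact Matrix.det_zero
    refine gs_le (S_FS_NVM _ k l hkl) (FS_add (FS_const_mul _ (FS_log_iSup hW)) hS) fun v _ => ?_
    have hv : 0 < vm v (A.x W) := vm_pos v hW
    have h4 : NVM v (twM A (A.x W) b₁ Λ) ≤ vm v (A.x W) ^ (2 * D) * S_pM A v b₁ Λ :=
      have : Nonempty (Fin q × Fin q) := ⟨(k, l)⟩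
      ciSup_le fun p => twM_NV A v _ hW b₁ hΛ p.1 p.2
    have h5 : 0 < NVM v (twM A (A.x W) b₁ Λ) := (NV_pos v hkl).trans_le (S_le_NVM v _ k l)
    have h6 := Real.log_le_log h5 h4
    rw [Real.log_mul (pow_pos hv _).ne' (one_pos.trans_le (S_one_le_pM A v b₁ Λ)).ne',
      Real.log_pow] at h6
    unfold S_pM at h6
    rw [Real.log_prod fun p _ => (lt_max_of_lt_left one_pos).ne'] at h6
    have h7 : vm v (A.x W) = ⨆ i, v (A.x W i) := rfl
    rw [← h7]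
    push_cast at h6
    exact h6

/-- The lower bound for the determinant of the twisted forms. -/
theorem twM_low {K : Type u} [Field K] [NumberField K] {N : ℕ} {A B : AV K N}
    (hB : IsSubAV B A) {H : ℕ → ℝ} (hH : Tendsto H (hyperfilter ℕ : Filter ℕ) atTop)
    {κ : SC K} (hκ : ∀ (L : Type u) [Field L] [Algebra K L] (v : AbsoluteValue L ℝ)
    (y y' : Fin (N + 1) → L), A.IsPt y → A.IsPt y' →
      ∃ a b, vm v y ^ 2 * vm v y' ^ 2 ≤ κ.k v * v (aeval (Sum.elim y y') (A.S a b)))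
    (W : ℕ → A.Pts K) (Q : ℕ → B.Pts K) (v : AbsoluteValue K ℝ) (b₁ : Fin (N + 1))
    (hb₁ : ∀ᶠ i in (hyperfilter ℕ : Filter ℕ),
      ∀ b, v (A.x (W i - hB.inc K (Q i)) b) ≤ v (A.x (W i - hB.inc K (Q i)) b₁))
    {q D : ℕ} {Λ : Matrix (Fin (q + 1)) (Fin (q + 1)) (MvPolynomial (Fin (N + 1)) K)}
    (hΛ : ∀ k l, (Λ k l).IsHomogeneous D)
    (hlow : ∀ δ : ℝ, 0 < δ → ∀ᶠ i in (hyperfilter ℕ : Filter ℕ),
      (⨆ a, v (A.x (W i + hB.inc K (Q i)) a)) ^ ((q + 1) * D) * Real.exp (- δ * H i) ≤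
        v (aeval (A.x (W i + hB.inc K (Q i))) Λ.det)) (δ : ℝ) (hδ : 0 < δ) :
    ∀ᶠ i in (hyperfilter ℕ : Filter ℕ),
      (⨆ a, v (B.x (Q i) a)) ^ ((q + 1) * (2 * D)) * NVM v (twM A (A.x (W i)) b₁ Λ) ^ (q + 1) *
        Real.exp (- δ * H i) ≤ v (aeval (B.x (Q i)) (twM A (A.x (W i)) b₁ Λ).det) := by
  obtain ⟨D', hD'⟩ : ∃ D' : ℕ, D' = (q + 1) * D := ⟨_, rfl⟩
  have hdh : (Λ.det).IsHomogeneous D' := by
    rw [hD']
    exact S_det_hom _ hΛ
  obtain ⟨E, hE⟩ : ∃ E : ℝ, E = S_pM A v b₁ Λ ^ (q + 1) := ⟨_, rfl⟩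
  have hp1 : 1 ≤ S_pM A v b₁ Λ := S_one_le_pM A v b₁ Λ
  have hE0 : 1 ≤ E := by
    rw [hE]
    exact one_le_pow₀ hp1
  have hκ0 := κ.pos v
  filter_upwards [hlow (δ / 2) (by positivity), hb₁,
    oH_const hH (Real.log (E * κ.k v ^ D')) (δ / 2) (by positivity)] with i g1 g2 g3
  obtain ⟨c, hc, hval, hle⟩ := S_pt hB hκ (W i) (Q i) v b₁ g2
  have hW : A.x (W i) ≠ 0 := Z_x_ne A _
  have h1 : NVM v (twM A (A.x (W i)) b₁ Λ) ^ (q + 1) ≤ vm v (A.x (W i)) ^ (2 * D') * E := by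
    have h2 := pow_le_pow_left₀ (S_NVM_nonneg v _) (twM_NVM A v _ hW b₁ hΛ) (q + 1)
    refine h2.trans (le_of_eq ?_)
    rw [hE, mul_pow, ← pow_mul, hD']
    congr 2
    ring
  have h2 : E * κ.k v ^ D' ≤ Real.exp (δ / 2 * H i) := by
    have h3 : 0 < E * κ.k v ^ D' := mul_pos (one_pos.trans_le hE0) (pow_pos hκ0 _)
    rw [← Real.log_le_iff_le_exp h3]
    exact g3
  have h3 := pow_le_pow_left₀ (mul_nonneg (pow_nonneg (vm_nonneg v (A.x (W i))) 2)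
    (pow_nonneg (vm_nonneg v (B.x (Q i))) 2)) hle D'
  have h4 : Real.exp (δ / 2 * H i) * Real.exp (- δ * H i) = Real.exp (- (δ / 2) * H i) := by
    rw [← Real.exp_add]
    congr 1
    ring
  rw [twM_det, hval D' _ hdh, map_mul, map_pow]
  rw [← hD'] at g1
  have hQd : (⨆ a, v (B.x (Q i) a)) = vm v (B.x (Q i)) := rfl
  have hPd : (⨆ a, v (A.x (W i + hB.inc K (Q i)) a)) =
    vm v (A.x (W i + hB.inc K (Q i))) := rfl
  have hexp : (q + 1) * (2 * D) = 2 * D' := by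
    rw [hD']
    ring
  rw [hQd, hexp]
  rw [hPd] at g1
  have hcD : 0 ≤ v c ^ D' := pow_nonneg (v.nonneg c) D'
  calc vm v (B.x (Q i)) ^ (2 * D') * NVM v (twM A (A.x (W i)) b₁ Λ) ^ (q + 1) *
        Real.exp (- δ * H i)
      ≤ vm v (B.x (Q i)) ^ (2 * D') * (vm v (A.x (W i)) ^ (2 * D') * E) * Real.exp (- δ * H i) :=
        mul_le_mul_of_nonneg_right (mul_le_mul_of_nonneg_left h1
          (pow_nonneg (vm_nonneg v _) _)) (Real.exp_pos _).le
    _ = (vm v (A.x (W i)) ^ 2 * vm v (B.x (Q i)) ^ 2) ^ D' * (E * Real.exp (- δ * H i)) := by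
        rw [mul_pow, ← pow_mul, ← pow_mul]
        ring
    _ ≤ (κ.k v * (v c * vm v (A.x (W i + hB.inc K (Q i))))) ^ D' *
          (E * Real.exp (- δ * H i)) :=
        mul_le_mul_of_nonneg_right h3 (mul_nonneg (zero_le_one.trans hE0) (Real.exp_pos _).le)
    _ = v c ^ D' * (vm v (A.x (W i + hB.inc K (Q i))) ^ D' * ((E * κ.k v ^ D') *
          Real.exp (- δ * H i))) := by
        rw [mul_pow, mul_pow]
        ring
    _ ≤ v c ^ D' * (vm v (A.x (W i + hB.inc K (Q i))) ^ D' * (Real.exp (δ / 2 * H i) *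
          Real.exp (- δ * H i))) :=
        mul_le_mul_of_nonneg_left (mul_le_mul_of_nonneg_left
          (mul_le_mul_of_nonneg_right h2 (Real.exp_pos _).le)
          (pow_nonneg (vm_nonneg v _) _)) hcD
    _ = v c ^ D' * (vm v (A.x (W i + hB.inc K (Q i))) ^ D' * Real.exp (- (δ / 2) * H i)) := by
        rw [h4]
    _ ≤ _ := mul_le_mul_of_nonneg_left g1 hcD

end Pool.Agent.Lib.MP_17a322_nt.SL
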