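import Pool.Agent.Lib.MP_17a322_nt.SL.R9
import Pool.Agent.Lib.MP_17a322_nt.VP.P2

/-!
The case in which the height of `P` is small.
-/

universe u

namespace Pool.Agent.Lib.MP_17a322_nt.SL

open MvPolynomial Height Filter
open Pool.Agent.Lib.MP_17a322_nt.RO
open Pool.Agent.Lib.MP_17a322_nt.VJ
open Pool.Agent.Lib.MP_17a322_nt.VN hiding lf
open Pool.Agent.Lib.MP_17a322_nt.VA
open Pool.Agent.Lib.MP_17a322_nt.VP

/-- The height of a family of values of forms. -/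
theorem H7_height {K : Type*} [Field K] [NumberField K] {N D : ℕ} {ι : Type*} [Fintype ι]
    (f : ι → MvPolynomial (Fin (N + 1)) K) (hf : ∀ j, (f j).IsHomogeneous D)
    (x : Fin (N + 1) → K) (hx : x ≠ 0) (h0 : (fun j => aeval x (f j)) ≠ 0) :
    logHeight (fun j => aeval x (f j)) ≤ D * logHeight x + ∑ j, nh1 (f j) := by
  have f1 : FS fun v : AbsoluteValue K ℝ => D * Real.log (⨆ i, v (x i)) :=
    FS_const_mul _ (FS_log_iSup hx)
  have f2 : FS fun v : AbsoluteValue K ℝ => ∑ j, Real.log (max 1 (NV v (f j))) :=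
    FS_sum _ fun j _ => FS_nh1 _
  have hgs : gs (fun v : AbsoluteValue K ℝ => D * Real.log (⨆ i, v (x i)) +
      ∑ j, Real.log (max 1 (NV v (f j)))) = D * logHeight x + ∑ j, nh1 (f j) := by
    rw [gs_add f1 f2, gs_const_mul, gs_log_iSup hx, gs_sum _ fun j _ => FS_nh1 _]
    rfl
  rw [← hgs, ← gs_log_iSup h0]
  refine gs_le (FS_log_iSup h0) (FS_add f1 f2) fun v _ => ?_
  obtain ⟨j₀, hj₀⟩ := Function.ne_iff.mp h0
  have hne : Nonempty ι := ⟨j₀⟩
  have hM0 : 0 < ⨆ i, v (x i) := P_sup_pos hx v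
  obtain ⟨g, hg⟩ : ∃ g : ι → ℝ, ∀ j, g j = max 1 (NV v (f j)) := ⟨_, fun _ => rfl⟩
  have hg1 : ∀ j, 1 ≤ g j := fun j => by
    rw [hg]
    exact le_max_left _ _
  have hpr : 1 ≤ ∏ j, g j := one_le_prod_max _ _ fun j _ => hg1 j
  have h1 : (⨆ j, v (aeval x (f j))) ≤ (⨆ i, v (x i)) ^ D * ∏ j, g j := by
    refine ciSup_le fun j => ?_
    refine (P_form_le (hf j) hx v).trans ?_
    rw [mul_comm, ← hg]
    exact mul_le_mul_of_nonneg_left (le_prod_max Finset.univ g (fun j _ => hg1 j)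
      (Finset.mem_univ j)) (pow_nonneg hM0.le D)
  have h2 : 0 < ⨆ j, v (aeval x (f j)) :=
    (v.pos hj₀).trans_le (le_ciSup (Set.finite_range fun j => v (aeval x (f j))).bddAbove j₀)
  have h3 := Real.log_le_log h2 h1
  rw [Real.log_mul (pow_pos hM0 D).ne' (one_pos.trans_le hpr).ne', Real.log_pow,
    Real.log_prod fun j _ => (one_pos.trans_le (hg1 j)).ne'] at h3
  simp only [hg] at h3
  exact h3

/-- The case in which the height of `P` is small. -/
theorem HT_small {K : Type u} [Field K] [NumberField K] {N : ℕ} (A : AV K N)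
    {H : ℕ → ℝ}
    (hH : Tendsto H (hyperfilter ℕ : Filter ℕ) atTop) (P : ℕ → A.Pts K)
    (ho : oH H fun i => A.h (P i))
    (Sg : Finset (AbsoluteValue K ℝ)) (hSg : ∀ v ∈ Sg, Pl v) {q : ℕ} (D : ℕ)
    (Λ : AbsoluteValue K ℝ → Matrix (Fin (q + 1)) (Fin (q + 1)) (MvPolynomial (Fin (N + 1)) K))
    (hΛ : ∀ v ∈ Sg, ∀ k l, (Λ v k l).IsHomogeneous D)
    (hdet : ∀ v ∈ Sg, ∀ᶠ i in (hyperfilter ℕ : Filter ℕ), aeval (A.x (P i)) (Λ v).det ≠ 0)
    (c : AbsoluteValue K ℝ → Fin (q + 1) → ℝ) (hc : 0 ≤ tw Sg c)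
    (y : ℕ → Fin (q + 1) → Fin (q + 1) → K) (hy : ∀ᶠ i in (hyperfilter ℕ : Filter ℕ),
      LinearIndependent K (y i)) (μ : ℕ → Fin (q + 1) → K)
    (hμ : ∀ᶠ i in (hyperfilter ℕ : Filter ℕ), ∀ s, s ≠ Fin.last q → ∑ l, μ i l * y i s l = 0)
    (l₀ : Fin (q + 1)) (hμ0 : ∀ᶠ i in (hyperfilter ℕ : Filter ℕ), μ i l₀ = 1)
    (κ : ℝ) (hκ : 0 < κ)
    (hsz : ∀ η : ℝ, 0 < η → ∀ᶠ i in (hyperfilter ℕ : Filter ℕ), ∀ s,
      gs (sz Sg c (H i) (fun v => (Λ v).map (aeval (A.x (P i)))) (y i s)) ≤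
        ((if s = Fin.last q then q * κ else - κ) + η) * H i)
    (l : Fin (q + 1)) : gm (fun i => μ i l) ∈ k0 K H hH := by
  rw [mem_k0]
  have hmd : ∀ v i, ((Λ v).map (aeval (A.x (P i)))).det = aeval (A.x (P i)) (Λ v).det := by
    intro v i
    exact (AlgHom.map_det (aeval (A.x (P i)) : MvPolynomial (Fin (N + 1)) K →ₐ[K] K) (Λ v)).symm
  refine R0M hH Sg hSg (fun v i => (Λ v).map (aeval (A.x (P i)))) ?_ ?_ c hc
    (fun i s => y i (Fin.castSucc s)) ?_ μ ?_ l₀ hμ0 (κ / 2) (half_pos hκ) ?_ l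
  · intro v hv
    refine ((ho.const_mul hH (c := D) (Nat.cast_nonneg _)).add (oH_const hH
      (∑ p : Fin (q + 1) × Fin (q + 1), nh1 (Λ v p.1 p.2)))).mono ?_
    filter_upwards [hdet v hv] with i hi
    refine H7_height (fun p : Fin (q + 1) × Fin (q + 1) => Λ v p.1 p.2)
      (fun p => hΛ v hv p.1 p.2) (A.x (P i)) (Z_x_ne A _) fun h0 => hi ?_
    rw [← hmd]
    have h1 : (Λ v).map (aeval (A.x (P i))) = 0 := by
      ext1 k l
      exact congrFun h0 (k, l)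
    rw [h1]
    exact Matrix.det_zero
  · intro v hv
    filter_upwards [hdet v hv] with i hi
    rw [hmd]
    exact hi
  · filter_upwards [hy] with i hi
    exact hi.comp Fin.castSucc (Fin.castSucc_injective q)
  · filter_upwards [hμ] with i hi
    exact fun s => hi _ (Fin.castSucc_lt_last s).ne
  · filter_upwards [hsz (κ / 2) (half_pos hκ)] with i hi
    intro s
    have h1 := hi (Fin.castSucc s)
    rw [if_neg (Fin.castSucc_lt_last s).ne] at h1
    have h2 : (-κ + κ / 2) * H i = -(κ / 2) * H i := by ring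
    rw [h2] at h1
    exact h1

end Pool.Agent.Lib.MP_17a322_nt.SL
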