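import Pool.Agent.Lib.MP_17a322_nt.SL.CE
import Pool.Agent.Lib.MP_17a322_nt.SL.H3
import Pool.Agent.Lib.MP_17a322_nt.SL.H4
import Pool.Agent.Lib.MP_17a322_nt.SL.H6
import Pool.Agent.Lib.MP_17a322_nt.SL.H7
import Pool.Agent.Lib.MP_17a322_nt.VP.S10

/-!
The machine for forms on `A`.
-/

universe u

namespace Pool.Agent.Lib.MP_17a322_nt.SL

open MvPolynomial Height Filter
open Pool.Agent.Lib.MP_17a322_nt.RO
open Pool.Agent.Lib.MP_17a322_nt.VJ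
open Pool.Agent.Lib.MP_17a322_nt.VN hiding lf
open Pool.Agent.Lib.MP_17a322_nt.VA
open Pool.Agent.Lib.MP_17a322_nt.VP

/-- A form vanishes at the germ if and only if it vanishes at almost all points. -/
theorem H_form_ne {K : Type u} [Field K] {N : ℕ} {A : AV K N} {P : ℕ → A.Pts K}
    {p : A.Pts (GK K)} (hPp : IsGerm A P p) {D : ℕ} {f : MvPolynomial (Fin (N + 1)) K}
    (hf : f.IsHomogeneous D) :
    aeval (A.x p) f ≠ 0 ↔ ∀ᶠ i in (hyperfilter ℕ : Filter ℕ), aeval (A.x (P i)) f ≠ 0 := by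
  obtain ⟨a, ha⟩ : ∃ a, A.x p a ≠ 0 := by
    by_contra h
    push Not at h
    exact Z_x_ne A p (funext h)
  have h1 := S_gm_form A P hPp hf a ha
  rw [← S_form_div hf _ a ha] at h1
  have h2 : aeval (A.x p) f ≠ 0 ↔ gm (fun i => aeval (A.x (P i)) f / A.x (P i) a ^ D) ≠ 0 := by
    rw [h1]
    constructor
    · intro h3
      exact div_ne_zero h3 (pow_ne_zero _ ha)
    · intro h3 h4
      rw [h4, zero_div] at h3
      exact h3 rfl
  rw [h2, gm_ne_zero_iff]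
  constructor
  · intro h3
    filter_upwards [h3] with i hi h4
    rw [h4, zero_div] at hi
    exact hi rfl
  · intro h3
    filter_upwards [h3, (hPp.ne_iff a).1 ha] with i hi h4
    exact div_ne_zero hi (pow_ne_zero _ h4)

/-- The lower bound for the determinant of the forms. -/
theorem H_det_low {K : Type u} [Field K] [NumberField K] {N : ℕ} (A : AV K N)
    (Γ : AddSubgroup (A.Pts K)) (hΓ : Γ.FG) (P : ℕ → A.Pts K) (hP : ∀ i, P i ∈ Γ) {H : ℕ → ℝ}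
    (hH : Tendsto H (hyperfilter ℕ : Filter ℕ) atTop)
    (hupp : ∃ C : ℝ, 0 < C ∧ ∀ᶠ i in (hyperfilter ℕ : Filter ℕ), A.h (P i) ≤ C * H i)
    {p : A.Pts (GK K)} (hPp : IsGerm A P p) {v : AbsoluteValue K ℝ} (hv : Pl v) {q D : ℕ}
    {Λ : Matrix (Fin q) (Fin q) (MvPolynomial (Fin (N + 1)) K)}
    (hΛ : ∀ k l, (Λ k l).IsHomogeneous D)
    (hdet : ∀ᶠ i in (hyperfilter ℕ : Filter ℕ), aeval (A.x (P i)) Λ.det ≠ 0)
    (δ : ℝ) (hδ : 0 < δ) : ∀ᶠ i in (hyperfilter ℕ : Filter ℕ),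
      (⨆ a, v (A.x (P i) a)) ^ (q * D) * Real.exp (- δ * H i) ≤
        v (aeval (A.x (P i)) Λ.det) :=
  Ov_form A Γ hΓ P hP hH hupp hPp hv (CQ_det_homog hΛ)
    ((H_form_ne hPp (CQ_det_homog hΛ)).2 hdet) δ hδ

open Classical in
/-- The machine for forms on `A`. -/
theorem HSet.mach {K : Type u} [Field K] [NumberField K] {N : ℕ} {A : AV K N} {P : ℕ → A.Pts K}
    {H : ℕ → ℝ} {hH : Tendsto H (hyperfilter ℕ : Filter ℕ) atTop} {p : A.Pts (GK K)}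
    (S : HSet A P hH p) (c₀ : Fin S.s) (Sg : Finset (AbsoluteValue K ℝ)) (hSg : ∀ v ∈ Sg, Pl v)
    {q q' : ℕ} (D : ℕ)
    (Λ : AbsoluteValue K ℝ → Matrix (Fin (q + 1)) (Fin (q + 1)) (MvPolynomial (Fin (N + 1)) K))
    (hΛ : ∀ v ∈ Sg, ∀ k l, (Λ v k l).IsHomogeneous D)
    (hlow : ∀ v ∈ Sg, ∀ δ : ℝ, 0 < δ → ∀ᶠ i in (hyperfilter ℕ : Filter ℕ),
      (⨆ a, v (A.x (P i) a)) ^ ((q + 1) * D) * Real.exp (- δ * H i) ≤
        v (aeval (A.x (P i)) (Λ v).det))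
    (c : AbsoluteValue K ℝ → Fin (q + 1) → ℝ) (sig : Fin q' → ℝ)
    (y : ℕ → Fin q' → Fin (q + 1) → K)
    (hy : ∀ᶠ i in (hyperfilter ℕ : Filter ℕ), ∀ s, y i s ≠ 0)
    (hsz : ∀ η : ℝ, 0 < η → ∀ᶠ i in (hyperfilter ℕ : Filter ℕ), ∀ s,
      gs (sz Sg c (H i) (fun v => (Λ v).map (aeval (A.x (P i)))) (y i s)) ≤
        (sig s + η) * H i) :
    ∃ ρ : ℝ, 0 < ρ ∧ ∀ (E : SC K) (U : ℕ → Prop), (∀ᶠ i in (hyperfilter ℕ : Filter ℕ), U i) →
      ∀ (h₁ : ℕ → ℝ), oH H h₁ → ∀ (m R₀ : ℕ) (C₀ η : ℝ), 0 < η →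
      ∃ (a₀ : ℕ) (b₀ : Fin m → ℕ) (j : Fin m → ℕ), U a₀ ∧ (∀ i, U (b₀ i)) ∧
        (∀ i, h₁ (b₀ i) ≤ 4 ^ j i) ∧ (∀ i, R₀ ≤ 4 ^ j i) ∧ (∀ i i', i < i' → R₀ * 4 ^ j i ≤ 4 ^ j i') ∧
        (∀ i, 4 ^ j i * S.B.h (S.Q a₀) ≤ 2 * S.B.h (S.Q (b₀ i))) ∧
        DatM (S.nd c₀) Sg (2 * D) (fun v k => c v k / ρ) (fun s => sig s / ρ) E C₀ η (S.Q a₀)
          (fun i => S.Q (b₀ i)) j
          (fun i v => twM A (A.x (S.W (b₀ i))) (S.b₁ v) (Λ v)) (fun i s => y (b₀ i) s) := by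
  -- the values of the forms
  have hPdet : ∀ v ∈ Sg, ∀ᶠ i in (hyperfilter ℕ : Filter ℕ), aeval (A.x (P i)) (Λ v).det ≠ 0 := by
    intro v hv
    filter_upwards [hlow v hv 1 one_pos] with i h1 h0
    rw [h0, map_zero] at h1
    have h2 : 0 < ⨆ a, v (A.x (P i) a) := vm_pos v (Z_x_ne A (P i))
    have h3 : 0 < (⨆ a, v (A.x (P i) a)) ^ ((q + 1) * D) * Real.exp (-1 * H i) :=
      mul_pos (pow_pos h2 _) (Real.exp_pos _)
    linarith
  have hQdet : ∀ v ∈ Sg, ∀ᶠ i in (hyperfilter ℕ : Filter ℕ),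
      aeval (S.B.x (S.Q i)) (twM A (A.x (S.W i)) (S.b₁ v) (Λ v)).det ≠ 0 := by
    intro v hv
    filter_upwards [hPdet v hv, S.val v] with i g1 g2
    obtain ⟨c, hc, h1⟩ := g2
    rw [twM_det, h1 _ _ (CQ_det_homog (hΛ v hv))]
    exact mul_ne_zero (pow_ne_zero _ hc) g1
  -- the sizes
  have hMM : ∀ᶠ i in (hyperfilter ℕ : Filter ℕ), ∀ v ∈ Sg, ∃ a : K, a ≠ 0 ∧
      (twM A (A.x (S.W i)) (S.b₁ v) (Λ v)).map (aeval (S.B.x (S.Q i))) =
        a • (Λ v).map (aeval (A.x (P i))) := by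
    refine (eventually_all_finset Sg).2 fun v hv => ?_
    filter_upwards [S.val v] with i g2
    obtain ⟨c, hc, h1⟩ := g2
    refine ⟨c ^ D, pow_ne_zero _ hc, ?_⟩
    ext k l
    exact h1 D _ (hΛ v hv k l)
  refine H_mach S.B hH S.Q S.frm S.low S.upp (S.nd c₀) (S.goodQ c₀) Sg (2 * D) c sig
    (fun i v => twM A (A.x (S.W i)) (S.b₁ v) (Λ v)) y ?_ ((eventually_all_finset Sg).2 hQdet) ?_ ?_
    hy ?_
  · refine Eventually.of_forall fun i v hv k l => ?_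
    exact S_tw_hom A _ _ (hΛ v hv k l)
  · intro v hv
    obtain ⟨C, -, hC⟩ := twM_ht A (S.b₁ v) (hΛ v hv)
    have h1 : oH H fun i => (2 * D : ℝ) * A.h (S.W i) + C :=
      (S.oH_W.const_mul hH (by positivity)).add (oH_const hH _)
    refine h1.mono ?_
    filter_upwards [hQdet v hv] with i g1
    refine hC _ fun h0 => ?_
    rw [h0, map_zero] at g1
    exact g1 rfl
  · intro E v hv
    refine S_lossM hH S.hQ (S.nd c₀) (S.good c₀) v (2 * D) _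
      (Eventually.of_forall fun i k l => S_tw_hom A _ _ (hΛ v hv k l)) ?_
      (fun z hz a ha δ hδ => S.prox c₀ (hSg v hv) z hz a ha δ hδ)
      (fun δ hδ => S.chart c₀ (hSg v hv) δ hδ) E
    intro δ hδ
    refine twM_low S.hB hH S.hκS S.W S.Q v (S.b₁ v) (S.hb₁ v) (hΛ v hv) ?_ δ hδ
    intro δ' hδ'
    filter_upwards [hlow v hv δ' hδ', S.relK] with i g1 g2
    rw [← g2]
    exact g1
  · intro η hη
    filter_upwards [hsz η hη, hMM, hy, (eventually_all_finset Sg).2 hPdet] with i g1 g2 g3 g4 s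
    refine le_trans (le_of_eq ?_) (g1 s)
    congr 1
    refine H_sz_congr Sg c (H i) (g3 s) (fun v hv => ?_) g2
    have h1 := g4 v hv
    rw [AlgHom.map_det] at h1
    exact h1

end Pool.Agent.Lib.MP_17a322_nt.SL
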