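import Pool.Agent.Lib.MP_17a322_nt.SL.D4
import Pool.Agent.Lib.MP_17a322_nt.SL.D5
import Pool.Agent.Lib.MP_17a322_nt.SL.DC6
import Pool.Agent.Lib.MP_17a322_nt.SL.DK
import Pool.Agent.Lib.MP_17a322_nt.SL.H2
import Pool.Agent.Lib.MP_17a322_nt.SL.H8

/-!
An isolated vector over `k0(p)` is algebraic over `K(p)`.
-/

universe u

namespace Pool.Agent.Lib.MP_17a322_nt.SL

open MvPolynomial Height Filter
open Pool.Agent.Lib.MP_17a322_nt.RO
open Pool.Agent.Lib.MP_17a322_nt.VJ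
open Pool.Agent.Lib.MP_17a322_nt.VN hiding lf
open Pool.Agent.Lib.MP_17a322_nt.VA
open Pool.Agent.Lib.MP_17a322_nt.VP

/-- A derivation which kills the constants is linear. -/
theorem D6_toK {K F : Type*} [Field K] [Field F] [Algebra K F] (D : Derivation ℤ F F)
    (hD : ∀ c : K, D (algebraMap K F c) = 0) : ∃ D' : Derivation K F F, ∀ x, D' x = D x := by
  have h1 : ∀ (c : K) (x : F), D (c • x) = c • D x := by
    intro c x
    rw [Algebra.smul_def, D.leibniz, hD, smul_zero, add_zero, smul_eq_mul, Algebra.smul_def]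
  refine ⟨{ toFun := fun x => D x
            map_add' := fun x y => map_add D x y
            map_smul' := fun c x => h1 c x
            map_one_eq_zero' := D.map_one_eq_zero
            leibniz' := fun x y => D.leibniz x y }, fun _ => rfl⟩

theorem D6_toK1 {K F : Type*} [Field K] [Field F] [Algebra K F] (k : IntermediateField K F)
    {ι : Type*} (s : ι → F) (f : F) (D : Derivation ℤ F F) (h1 : ∀ a, D (s a) = 0)
    (h2 : ∀ c : K, D (algebraMap K F c) = 0) (h3 : ∀ x ∈ k, D x ∈ k) (h4 : D f ≠ 0) :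
    ∃ D' : Derivation K F F, (∀ x ∈ k, D' x ∈ k) ∧ (∀ a, D' (s a) = 0) ∧ D' f ≠ 0 := by
  obtain ⟨D', hD'⟩ := D6_toK D h2
  refine ⟨D', fun x hx => ?_, fun a => ?_, ?_⟩
  · rw [hD']
    exact h3 x hx
  · rw [hD']
    exact h1 a
  · rw [hD']
    exact h4

/-- A derivation which kills the coordinates of `p` and preserves `k0`. -/
theorem D6_der {K : Type u} [Field K] [NumberField K] {N : ℕ} (A : AV K N)
    (Γ : AddSubgroup (A.Pts K)) (hΓ : Γ.FG) {H : ℕ → ℝ}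
    (hH : Tendsto H (hyperfilter ℕ : Filter ℕ) atTop) (P : ℕ → A.Pts K) (hPΓ : ∀ i, P i ∈ Γ)
    (hupp : ∃ C : ℝ, 0 < C ∧ ∀ᶠ i in (hyperfilter ℕ : Filter ℕ), A.h (P i) ≤ C * H i)
    {p : A.Pts (GK K)} (hPp : IsGerm A P p) (f : GK K)
    (hf : f ∈ IntermediateField.adjoin (k0 K H hH) (Set.range (rt (A.x p))))
    (hfa : ¬ IsAlgebraic (IntermediateField.adjoin K (Set.range (rt (A.x p)))) f) :
    ∃ D : Derivation K (GK K) (GK K), (∀ x ∈ k0 K H hH, D x ∈ k0 K H hH) ∧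
      (∀ a, D (rt (A.x p) a) = 0) ∧ D f ≠ 0 := by
  classical
  obtain ⟨D, h1, h2, h3, h4⟩ : ∃ D : Derivation ℤ (GK K) (GK K),
      (∀ i, D (rt (A.x p) i) = 0) ∧ (∀ c : K, D (algebraMap K (GK K) c) = 0) ∧
      (∀ a ∈ k0 K H hH, D a ∈ k0 K H hH) ∧ D f ≠ 0 := by
    by_cases ho : oH H fun i => A.h (P i)
    · obtain ⟨E, hE⟩ : ∃ E, E = IntermediateField.adjoin K (Set.range (rt (A.x p))) := ⟨_, rfl⟩
      have hEk : E ≤ k0 K H hH := by
        rw [hE, IntermediateField.adjoin_le_iff]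
        rintro _ ⟨a, rfl⟩
        exact S_rt_mem hH hPp ho a
      have hadj : IntermediateField.adjoin (k0 K H hH) (Set.range (rt (A.x p))) = ⊥ := by
        rw [eq_bot_iff, IntermediateField.adjoin_le_iff]
        rintro _ ⟨a, rfl⟩
        exact (IntermediateField.mem_bot).2 ⟨⟨_, S_rt_mem hH hPp ho a⟩, rfl⟩
      have hfk : f ∈ k0 K H hH := by
        rw [hadj, IntermediateField.mem_bot] at hf
        obtain ⟨x, hx⟩ := hf
        rw [← hx]
        exact x.2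
      rw [← hE] at hfa
      obtain ⟨D, h1, h2, h3⟩ := DA_main E E (k0 K H hH) le_rfl hEk (fun I _ h => h) f
        (isAlgebraic_algebraMap (⟨f, IntermediateField.subset_adjoin E _ hfk⟩ :
          IntermediateField.adjoin E (k0 K H hH : Set (GK K)))) hfa
      refine ⟨D, fun i => h1 _ ?_, fun c => h1 _ (E.algebraMap_mem c), h2, h3⟩
      rw [hE]
      exact IntermediateField.subset_adjoin _ _ ⟨i, rfl⟩
    · have hlow : ∃ c : ℝ, 0 < c ∧ ∀ᶠ i in (hyperfilter ℕ : Filter ℕ), c * H i ≤ A.h (P i) := by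
        unfold oH at ho
        push Not at ho
        obtain ⟨δ, hδ, h1⟩ := ho
        exact ⟨δ, hδ, h1.mono fun i hi => hi.le⟩
      obtain ⟨B, hB, w, w', b, hw, hrel, hmin, hnr⟩ := geom_noRat1 A hH Γ hΓ P hPΓ p hPp
      obtain ⟨S⟩ := exists_HSet A Γ hΓ P hPΓ hH hlow hupp hPp hB hw hrel hmin hnr
      obtain ⟨c₀, -⟩ := S.exists_chart
      exact exists_der hH S.hB S.hQ S.geoB.min S.dim S.hw S.rel (S.nd c₀) (S.ind c₀) f
        (isAlgebraic_algebraMap (⟨f, hf⟩ :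
          IntermediateField.adjoin (k0 K H hH) (Set.range (rt (A.x p))))) hfa
  exact D6_toK1 (k0 K H hH) (rt (A.x p)) f D h1 h2 h3 h4

open Classical in
/-- The size at the places in `Sg`. -/
theorem D6_sz {K : Type*} [Field K] {q : ℕ} {Sg : Finset (AbsoluteValue K ℝ)}
    {c : AbsoluteValue K ℝ → Fin q → ℝ} {h t : ℝ}
    {M : AbsoluteValue K ℝ → Matrix (Fin q) (Fin q) K} {x z : Fin q → K} (hx : x ≠ 0) (hz : z ≠ 0)
    {v : AbsoluteValue K ℝ} (hv : v ∈ Sg) (hM : (M v).det ≠ 0)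
    (hxz : ∀ k, v ((M v).mulVec z k) ≤ Real.exp t * v ((M v).mulVec x k)) :
    sz Sg c h M z v - sz Sg c h M x v ≤ t := by
  unfold sz
  rw [if_pos hv, if_pos hv]
  have h1 := H_sup_pos v hM hx (c v) h
  have h2 := H_sup_pos v hM hz (c v) h
  have : Nonempty (Fin q) := by
    by_contra hcon
    rw [not_nonempty_iff] at hcon
    exact hx (funext fun k => (hcon.false k).elim)
  have h3 : (⨆ k, v ((M v).mulVec z k) * Real.exp (c v k * h)) ≤
      Real.exp t * ⨆ k, v ((M v).mulVec x k) * Real.exp (c v k * h) := by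
    refine ciSup_le fun k => ?_
    have h4 := le_ciSup (Set.finite_range fun k =>
      v ((M v).mulVec x k) * Real.exp (c v k * h)).bddAbove k
    refine le_trans ?_ (mul_le_mul_of_nonneg_left h4 (Real.exp_pos _).le)
    show _ ≤ Real.exp t * (v ((M v).mulVec x k) * Real.exp (c v k * h))
    rw [← mul_assoc]
    exact mul_le_mul_of_nonneg_right (hxz k) (Real.exp_pos _).le
  have h4 := Real.log_le_log h2 h3
  rw [Real.log_mul (Real.exp_pos _).ne' h1.ne', Real.log_exp] at h4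
  linarith

/-- The loss at one place. -/
theorem D6_loss {K : Type*} [Field K] {N q D : ℕ}
    (Λ : Matrix (Fin (q + 1)) (Fin (q + 1)) (MvPolynomial (Fin (N + 1)) K))
    (hΛ : ∀ k l, (Λ k l).IsHomogeneous D) {x : Fin (N + 1) → K} (hx : x ≠ 0)
    (v : AbsoluteValue K ℝ) (hdet : (Λ.map (aeval x)).det ≠ 0) {t : ℝ}
    (hlow : (⨆ a, v (x a)) ^ ((q + 1) * D) * Real.exp (- t) ≤ v (Λ.map (aeval x)).det) :
    Real.log ((⨆ p : Fin (q + 1) × Fin (q + 1), v (Λ.map (aeval x) p.1 p.2)) ^ (q + 1) /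
      v (Λ.map (aeval x)).det) ≤
      (q + 1 : ℕ) * Real.log (∏ p : Fin (q + 1) × Fin (q + 1), max 1 (NV v (Λ p.1 p.2))) + t := by
  have hX : 0 < ⨆ a, v (x a) := P_sup_pos hx v
  obtain ⟨B, hB⟩ : ∃ B : ℝ, B = ∏ p : Fin (q + 1) × Fin (q + 1), max 1 (NV v (Λ p.1 p.2)) :=
    ⟨_, rfl⟩
  have hB1 : 1 ≤ B := by
    rw [hB]
    exact one_le_prod_max _ _ fun p _ => le_max_left _ _
  have hB0 : 0 < B := one_pos.trans_le hB1
  have h1 : ∀ p : Fin (q + 1) × Fin (q + 1), v (Λ.map (aeval x) p.1 p.2) ≤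
      B * (⨆ a, v (x a)) ^ D := by
    intro p
    refine (P_form_le (hΛ p.1 p.2) hx v).trans
      (mul_le_mul_of_nonneg_right ?_ (pow_nonneg hX.le D))
    rw [hB]
    exact le_prod_max Finset.univ (fun p : Fin (q + 1) × Fin (q + 1) => max 1 (NV v (Λ p.1 p.2)))
      (fun p _ => le_max_left _ _) (Finset.mem_univ p)
  have h2 : (⨆ p : Fin (q + 1) × Fin (q + 1), v (Λ.map (aeval x) p.1 p.2)) ≤
      B * (⨆ a, v (x a)) ^ D := ciSup_le h1
  have h3 : 0 < ⨆ p : Fin (q + 1) × Fin (q + 1), v (Λ.map (aeval x) p.1 p.2) :=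
    H_ent_pos v hdet (y := fun _ => 1) fun h0 => one_ne_zero (congrFun h0 0)
  have h4 : 0 < v (Λ.map (aeval x)).det := v.pos hdet
  have h5 : (⨆ p : Fin (q + 1) × Fin (q + 1), v (Λ.map (aeval x) p.1 p.2)) ^ (q + 1) /
      v (Λ.map (aeval x)).det ≤ B ^ (q + 1) * Real.exp t := by
    rw [div_le_iff₀ h4]
    refine (pow_le_pow_left₀ h3.le h2 (q + 1)).trans ?_
    rw [mul_pow, ← pow_mul]
    have h6 := mul_le_mul_of_nonneg_left hlow
      (mul_pos (pow_pos hB0 (q + 1)) (Real.exp_pos t)).le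
    refine le_trans (le_of_eq ?_) h6
    rw [Real.exp_neg, mul_comm D (q + 1)]
    field_simp
  have h6 := Real.log_le_log (div_pos (pow_pos h3 _) h4) h5
  rw [Real.log_mul (pow_pos hB0 _).ne' (Real.exp_pos _).ne', Real.log_pow, Real.log_exp] at h6
  rw [← hB]
  exact h6

open Classical in
/-- DESC: an isolated vector over `k0(p)` is algebraic over `K(p)`. -/
theorem DESC {K : Type u} [Field K] [NumberField K] {N : ℕ} (A : AV K N)
    (Γ : AddSubgroup (A.Pts K)) (hΓ : Γ.FG) {H : ℕ → ℝ}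
    (hH : Tendsto H (hyperfilter ℕ : Filter ℕ) atTop) (P : ℕ → A.Pts K) (hPΓ : ∀ i, P i ∈ Γ)
    (hupp : ∃ C : ℝ, 0 < C ∧ ∀ᶠ i in (hyperfilter ℕ : Filter ℕ), A.h (P i) ≤ C * H i)
    {p : A.Pts (GK K)} (hPp : IsGerm A P p)
    (Sg : Finset (AbsoluteValue K ℝ)) (hSg : ∀ v ∈ Sg, Pl v) {q : ℕ} (D : ℕ)
    (Λ : AbsoluteValue K ℝ → Matrix (Fin (q + 1)) (Fin (q + 1)) (MvPolynomial (Fin (N + 1)) K))
    (hΛ : ∀ v ∈ Sg, ∀ k l, (Λ v k l).IsHomogeneous D)
    (hdet : ∀ v ∈ Sg, ∀ᶠ i in (hyperfilter ℕ : Filter ℕ), aeval (A.x (P i)) (Λ v).det ≠ 0)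
    (c : AbsoluteValue K ℝ → Fin (q + 1) → ℝ)
    (x : ℕ → Fin (q + 1) → Fin (q + 1) → K)
    (hx : ∀ᶠ i in (hyperfilter ℕ : Filter ℕ), LinearIndependent K (x i)) (l₀ : Fin (q + 1))
    (hx0 : ∀ᶠ i in (hyperfilter ℕ : Filter ℕ), x i 0 l₀ = 1)
    (g : ℝ) (hg : 0 < g)
    (hgap : ∀ᶠ i in (hyperfilter ℕ : Filter ℕ), ∀ s, s ≠ 0 →
      gs (sz Sg c (H i) (fun v => (Λ v).map (aeval (A.x (P i)))) (x i 0)) + g * H i ≤
        gs (sz Sg c (H i) (fun v => (Λ v).map (aeval (A.x (P i)))) (x i s)))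
    (hsum : ∀ δ : ℝ, 0 < δ → ∀ᶠ i in (hyperfilter ℕ : Filter ℕ),
      ∑ s, gs (sz Sg c (H i) (fun v => (Λ v).map (aeval (A.x (P i)))) (x i s)) ≤
        (tw Sg c + δ) * H i)
    (hrat : ∀ l, gm (fun i => x i 0 l) ∈
      IntermediateField.adjoin (k0 K H hH) (Set.range (rt (A.x p)))) (l : Fin (q + 1)) :
    IsAlgebraic (IntermediateField.adjoin K (Set.range (rt (A.x p)))) (gm fun i => x i 0 l) := by
  by_contra hna
  obtain ⟨D₁, hD0, hDp, hDf⟩ := D6_der A Γ hΓ hH P hPΓ hupp hPp _ (hrat l) hna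
  have hex : ∀ y : GK K, ∃ z : ℕ → K, gm z = y := fun y => exists_gm y
  choose ν hν using fun l => hex (D₁ (gm fun i => x i 0 l))
  have hμ0 : gm (fun i => x i 0 l₀) = 1 := by
    rw [← gm_one, gm_eq_iff]
    exact hx0
  obtain ⟨s, f, f', hf, hf', hkey⟩ := KEY A Γ hΓ hH P hPΓ hupp hPp D₁ hD0 hDp
    (fun i => x i 0) (fun i l => ν l i) l₀ hμ0 hrat hν
  obtain ⟨C, hC, hcram⟩ := CRAM K q
  -- the constants
  obtain ⟨cS, hcS⟩ : ∃ cS : ℝ, cS = gs (fun v : AbsoluteValue K ℝ => if v ∈ Sg then 1 else 0) :=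
    ⟨_, rfl⟩
  have hcS0 : 0 ≤ cS := by
    rw [hcS]
    refine gs_nonneg fun v _ => ?_
    split_ifs
    · exact zero_le_one
    · exact le_rfl
  have hcSt : ∀ t : ℝ, gs (fun v : AbsoluteValue K ℝ => if v ∈ Sg then t else 0) = t * cS := by
    intro t
    rw [hcS, ← gs_const_mul]
    congr 1
    funext v
    rw [mul_ite, mul_one, mul_zero]
  obtain ⟨L0, hL0⟩ : ∃ L0 : ℝ, L0 = gs (fun v : AbsoluteValue K ℝ => if v ∈ Sg then
      (q + 1 : ℕ) * Real.log (∏ p : Fin (q + 1) × Fin (q + 1), max 1 (NV v (Λ v p.1 p.2)))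
      else 0) := ⟨_, rfl⟩
  obtain ⟨ε, hε⟩ : ∃ ε : ℝ, ε = g / (4 * (cS + 1)) := ⟨_, rfl⟩
  have hε0 : 0 < ε := by
    rw [hε]
    positivity
  have hεg : 2 * (cS + 1) * ε = g / 2 := by
    rw [hε]
    field_simp
    ring
  -- the events
  have e1 := hkey ε hε0
  have e2 : ∀ᶠ i in (hyperfilter ℕ : Filter ℕ), ∀ v ∈ Sg, ∀ k,
      v (((Λ v).map (aeval (A.x (P i)))).mulVec (fun l => ν l i) k) ≤
        Real.exp (ε * H i) * v (((Λ v).map (aeval (A.x (P i)))).mulVec (x i 0) k) :=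
    (eventually_all_finset Sg).2 fun v hv => SGP A Γ hΓ hH P hPΓ hupp hPp D₁ hD0 hDp
      (hSg v hv) D (Λ v) (hΛ v hv) (fun i => x i 0) (fun i l => ν l i) hrat hν ε hε0
  have e3 : ∀ᶠ i in (hyperfilter ℕ : Filter ℕ), ∀ v ∈ Sg,
      (⨆ a, v (A.x (P i) a)) ^ ((q + 1) * D) * Real.exp (- ε * H i) ≤
        v (aeval (A.x (P i)) (Λ v).det) :=
    (eventually_all_finset Sg).2 fun v hv => H_det_low A Γ hΓ P hPΓ hH hupp hPp (hSg v hv)
      (hΛ v hv) (hdet v hv) ε hε0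
  have e4 : ∀ᶠ i in (hyperfilter ℕ : Filter ℕ), ∀ v ∈ Sg, aeval (A.x (P i)) (Λ v).det ≠ 0 :=
    (eventually_all_finset Sg).2 hdet
  have e5 : ∀ᶠ i in (hyperfilter ℕ : Filter ℕ), ν l i ≠ 0 := by
    rw [← gm_ne_zero_iff, hν]
    exact hDf
  have e6 : ∀ᶠ i in (hyperfilter ℕ : Filter ℕ), ν l₀ i = 0 := by
    have h1 : gm (ν l₀) = gm (fun _ => (0 : K)) := by
      rw [hν, hμ0, gm_zero]
      exact Derivation.map_one_eq_zero D₁
    exact (gm_eq_iff.1 h1)
  have e7 : ∀ᶠ i in (hyperfilter ℕ : Filter ℕ), ∀ t : Fin s, f t i ≠ 0 := by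
    rw [eventually_all]
    intro t
    exact gm_ne_zero_iff.1 (hf t)
  have e8 := hH.eventually_gt_atTop (2 * (L0 + C) / g)
  have e9 := hsum ε hε0
  obtain ⟨i, g1, g2, g3, g4, g5, g6, g7, g8, g9, g10, g11, g12⟩ := (e1.and (e2.and (e3.and (e4.and
    (e5.and (e6.and (e7.and (e8.and (e9.and (hx.and (hx0.and hgap))))))))))).exists
  obtain ⟨τ, hτ⟩ := g1
  have hdetM : ∀ v, ((Λ v).map (aeval (A.x (P i)))).det = aeval (A.x (P i)) (Λ v).det := by
    intro v
    exact (AlgHom.map_det (aeval (A.x (P i)) : MvPolynomial (Fin (N + 1)) K →ₐ[K] K) (Λ v)).symm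
  obtain ⟨M, hM⟩ : ∃ M : AbsoluteValue K ℝ → Matrix (Fin (q + 1)) (Fin (q + 1)) K,
      M = fun v => (Λ v).map (aeval (A.x (P i))) := ⟨_, rfl⟩
  have hMv : ∀ v, M v = (Λ v).map (aeval (A.x (P i))) := fun v => by rw [hM]
  have hMdet : ∀ v ∈ Sg, (M v).det ≠ 0 := by
    intro v hv
    rw [hMv, hdetM]
    exact g4 v hv
  rw [← hM] at g9 g12
  obtain ⟨z, hz⟩ : ∃ z : Fin (q + 1) → K, z = fun l => ν l i := ⟨_, rfl⟩
  have hzl : ∀ l, z l = ν l i := fun l => by rw [hz]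
  have hx00 : x i 0 ≠ 0 := g10.ne_zero 0
  have hz0 : z ≠ 0 := by
    intro h0
    apply g5
    rw [← hzl, h0]
    rfl
  have hsizes : gs (fun v => sz Sg c (H i) M ((if v ∈ Sg then (0 : K) else f' (τ v) i) • x i 0 +
      (if v ∈ Sg then (1 : K) else f (τ v) i) • z) v -
      sz Sg c (H i) M ((if v ∈ Sg then (1 : K) else f (τ v) i) • x i 0) v) ≤
      ε * H i * cS + ε * H i := by
    have f3 : FS fun v : AbsoluteValue K ℝ =>
        Real.log (⨆ l, v (f' (τ v) i * x i 0 l + f (τ v) i * ν l i)) -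
          Real.log (⨆ l, v (f (τ v) i * x i 0 l)) :=
      FS_sub (D4_FS (fun t v => Real.log (⨆ l, v (f' t i * x i 0 l + f t i * ν l i)))
        (fun t => D4_FS_sup _) τ)
        (D4_FS (fun t v => Real.log (⨆ l, v (f t i * x i 0 l))) (fun t => D4_FS_sup _) τ)
    have f4 := D4_FS_ite (fun v => v ∈ Sg) f3
    have h2 := hτ Sg
    have h3 : (fun v => sz Sg c (H i) M ((if v ∈ Sg then (0 : K) else f' (τ v) i) • x i 0 +
        (if v ∈ Sg then (1 : K) else f (τ v) i) • z) v -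
          sz Sg c (H i) M ((if v ∈ Sg then (1 : K) else f (τ v) i) • x i 0) v) =
        fun v => (if v ∈ Sg then sz Sg c (H i) M z v - sz Sg c (H i) M (x i 0) v else 0) +
          (if v ∈ Sg then 0 else
            Real.log (⨆ l, v (f' (τ v) i * x i 0 l + f (τ v) i * ν l i)) -
              Real.log (⨆ l, v (f (τ v) i * x i 0 l))) := by
      funext v
      by_cases hv : v ∈ Sg
      · rw [if_pos hv, if_pos hv, if_pos hv, if_pos hv, zero_smul, zero_add, one_smul, one_smul,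
          add_zero]
      · rw [if_neg hv, if_neg hv, if_neg hv, if_neg hv, zero_add]
        unfold sz
        rw [if_neg hv, if_neg hv, hz]
        rfl
    rw [h3, gs_add (S_FS_ite Sg _) f4]
    refine add_le_add ?_ h2
    rw [← hcSt]
    refine gs_le (S_FS_ite Sg _) (S_FS_ite Sg _) fun v _ => ?_
    by_cases hv : v ∈ Sg
    · rw [if_pos hv, if_pos hv]
      refine D6_sz hx00 hz0 hv (hMdet v hv) fun k => ?_
      rw [hMv, hz]
      exact g2 v hv k
    · rw [if_neg hv, if_neg hv]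
  have hlosses : gs (fun v : AbsoluteValue K ℝ => if v ∈ Sg then
      Real.log ((⨆ p : Fin (q + 1) × Fin (q + 1), v (M v p.1 p.2)) ^ (q + 1) / v (M v).det)
      else 0) ≤ L0 + ε * H i * cS := by
    rw [← hcSt, hL0, ← gs_add (S_FS_ite Sg _) (S_FS_ite Sg _)]
    refine gs_le (S_FS_ite Sg _) (FS_add (S_FS_ite Sg _) (S_FS_ite Sg _)) fun v _ => ?_
    by_cases hv : v ∈ Sg
    · rw [if_pos hv, if_pos hv, if_pos hv, hMv]
      refine D6_loss (Λ v) (hΛ v hv) (Z_x_ne A (P i)) v ?_ ?_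
      · rw [hdetM]
        exact g4 v hv
      · rw [hdetM, ← neg_mul]
        exact g3 v hv
    · rw [if_neg hv, if_neg hv, if_neg hv, add_zero]
  obtain ⟨j, hj, h1⟩ := hcram Sg hSg c (H i) (ε * H i * cS + ε * H i) (ε * H i)
    (L0 + ε * H i * cS) M (x i) z (fun v => if v ∈ Sg then 1 else f (τ v) i)
    (fun v => if v ∈ Sg then 0 else f' (τ v) i) hMdet g10 (by
      intro a a' h0
      have h2 := congrFun h0 l₀
      have h3 : a * x i 0 l₀ + a' * z l₀ = 0 := h2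
      rw [g11, hzl, g6, mul_one, mul_zero, add_zero] at h3
      rw [h3, zero_smul, zero_add, smul_eq_zero] at h0
      exact h0.resolve_right hz0) (by
      refine ((Set.finite_range fun t => f t i).union (Set.finite_singleton (1 : K))).subset ?_
      rintro _ ⟨v, rfl⟩
      show (if v ∈ Sg then (1 : K) else f (τ v) i) ∈ _
      split_ifs
      · exact Or.inr rfl
      · exact Or.inl ⟨τ v, rfl⟩) (by
      refine ((Set.finite_range fun t => f' t i).union (Set.finite_singleton (0 : K))).subset ?_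
      rintro _ ⟨v, rfl⟩
      show (if v ∈ Sg then (0 : K) else f' (τ v) i) ∈ _
      split_ifs
      · exact Or.inr rfl
      · exact Or.inl ⟨τ v, rfl⟩) (by
      intro v
      show (if v ∈ Sg then (1 : K) else f (τ v) i) ≠ 0
      split_ifs
      · exact one_ne_zero
      · exact g7 (τ v)) hsizes hlosses (by linarith)
  have h2 := g12 j hj
  rw [div_lt_iff₀ hg] at g8
  have h3 : ε * H i * cS + ε * H i + ε * H i + (L0 + ε * H i * cS) + C < g * H i := by
    have h4 : ε * H i * cS + ε * H i + ε * H i + ε * H i * cS = g / 2 * H i := by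
      rw [← hεg]
      ring
    linarith
  linarith

end Pool.Agent.Lib.MP_17a322_nt.SL
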