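import Pool.Agent.Lib.MP_17a322_nt.VN.E5

/-!
Derivations that kill a field `E`, preserve a field `k₀` and do not kill a given element.
-/

universe u

namespace Pool.Agent.Lib.MP_17a322_nt.SL

open Pool.Agent.Lib.MP_17a322_nt.VN

section

variable {K F : Type u} [Field K] [Field F] [Algebra K F]

private theorem DA_step (D : Derivation ℤ F F) (k₀ M : IntermediateField K F)
    (hD : ∀ a ∈ M, D a ∈ k₀) (x : F) (hx : x ∈ k₀) (q : Polynomial M) :
    ∃ s ∈ k₀, D (Polynomial.aeval x q) = s + Polynomial.aeval x (Polynomial.derivative q) * D x := by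
  induction q using Polynomial.induction_on' with
  | add p q hp hq =>
    obtain ⟨s, hs, h1⟩ := hp
    obtain ⟨t, ht, h2⟩ := hq
    refine ⟨s + t, add_mem hs ht, ?_⟩
    rw [map_add, map_add, h1, h2, Polynomial.derivative_add, map_add]
    ring
  | monomial n a =>
    refine ⟨D (a : F) * x ^ n, mul_mem (hD a a.2) (pow_mem hx n), ?_⟩
    rw [Polynomial.aeval_monomial, Derivation.leibniz, Derivation.leibniz_pow,
      Polynomial.derivative_monomial, Polynomial.aeval_monomial]
    simp only [smul_eq_mul, nsmul_eq_mul, map_mul, map_natCast]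
    have h1 : algebraMap M F a = (a : F) := rfl
    rw [h1]
    ring

/-- A derivation that maps `M` to `k₀` maps the elements of `k₀` algebraic over `M` to `k₀`. -/
theorem DA_mem [CharZero K] (D : Derivation ℤ F F) (k₀ M : IntermediateField K F) (hM : M ≤ k₀)
    (hD : ∀ a ∈ M, D a ∈ k₀) (x : F) (hx : x ∈ k₀) (hxa : IsAlgebraic M x) : D x ∈ k₀ := by
  have : CharZero F := charZero_of_injective_algebraMap (algebraMap K F).injective
  have : CharZero M := charZero_of_injective_algebraMap (algebraMap K M).injective
  obtain ⟨s, hs, h1⟩ := DA_step D k₀ M hD x hx (minpoly M x)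
  rw [minpoly.aeval, map_zero] at h1
  have h2 : Polynomial.aeval x (Polynomial.derivative (minpoly M x)) ≠ 0 :=
    (minpoly.irreducible hxa.isIntegral).separable.aeval_derivative_ne_zero (minpoly.aeval M x)
  have h3 : ∀ q : Polynomial M, Polynomial.aeval x q ∈ k₀ := by
    intro q
    induction q using Polynomial.induction_on' with
    | add p q hp hq =>
      rw [map_add]
      exact add_mem hp hq
    | monomial n a =>
      rw [Polynomial.aeval_monomial]
      exact mul_mem (hM a.2) (pow_mem hx n)
  have h4 : D x = - s / Polynomial.aeval x (Polynomial.derivative (minpoly M x)) := by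
    rw [eq_div_iff h2]
    linear_combination -h1
  rw [h4]
  exact div_mem (neg_mem hs) (h3 _)

/-- A basis of a subset. -/
theorem DA_basis (K₂ : IntermediateField K F) (X : Set F) : ∃ I : Set F, I ⊆ X ∧
    AlgebraicIndependent K₂ ((↑) : I → F) ∧
    ∀ x ∈ X, IsAlgebraic (IntermediateField.adjoin K₂ I) x := by
  obtain ⟨I, hI⟩ := (AlgebraicIndependent.matroid K₂ F).exists_isBasis X
    (by rw [AlgebraicIndependent.matroid_e]; exact Set.subset_univ X)
  refine ⟨I, hI.subset, AlgebraicIndependent.matroid_indep_iff.1 hI.indep, fun x hx => ?_⟩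
  have h1 := hI.subset_closure hx
  rw [AlgebraicIndependent.matroid_closure_eq] at h1
  exact IntermediateField.isAlgebraic_adjoin_iff.2 h1

/-- Algebraic over a field generated by a set: a finite subset is enough. -/
theorem DA_finite (E : IntermediateField K F) (X : Set F) (f : F)
    (hf : IsAlgebraic (IntermediateField.adjoin E X) f) :
    ∃ S : Set F, S ⊆ X ∧ S.Finite ∧ IsAlgebraic (IntermediateField.adjoin E S) f := by
  have h1 : f ∈ (AlgebraicIndependent.matroid E F).closure X := by
    rw [AlgebraicIndependent.matroid_closure_eq]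
    exact IntermediateField.isAlgebraic_adjoin_iff.1 hf
  obtain ⟨I, hI, hfin, -, h2⟩ := Matroid.exists_mem_finite_closure_of_mem_closure h1
  refine ⟨I, hI, hfin, ?_⟩
  rw [AlgebraicIndependent.matroid_closure_eq] at h2
  exact IntermediateField.isAlgebraic_adjoin_iff.2 h2

/-- Algebraic over a subfield: algebraic over a larger one (with different base fields). -/
theorem DA_up {F : Type*} [Field F] {A B : Subfield F} (M : IntermediateField A F)
    (N : IntermediateField B F) (h : ∀ a ∈ M, a ∈ N) (x : F) (hx : IsAlgebraic M x) :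
    IsAlgebraic N x := by
  obtain ⟨p, hp, h1⟩ := hx
  let j : M →+* N :=
    { toFun := fun a => ⟨a, h a a.2⟩
      map_one' := rfl
      map_mul' := fun _ _ => rfl
      map_zero' := rfl
      map_add' := fun _ _ => rfl }
  refine ⟨p.map j, (Polynomial.map_ne_zero_iff j.injective).2 hp, ?_⟩
  rw [Polynomial.aeval_def, Polynomial.eval₂_map]
  rw [Polynomial.aeval_def] at h1
  exact h1

private theorem DA_adjoin (K₂ : IntermediateField K F) (I : Set F) (D : Derivation ℤ F F)
    (hD1 : ∀ a ∈ K₂, D a = 0) (hD2 : ∀ a ∈ I, D a ∈ IntermediateField.adjoin K₂ I) :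
    ∀ a ∈ IntermediateField.adjoin K₂ I, D a ∈ IntermediateField.adjoin K₂ I := by
  intro a ha
  induction ha using IntermediateField.adjoin_induction with
  | mem x hx => exact hD2 x hx
  | algebraMap x =>
    have : D (algebraMap K₂ F x) = 0 := hD1 _ x.2
    rw [this]
    exact zero_mem _
  | add x y hx hy h1 h2 =>
    rw [map_add]
    exact add_mem h1 h2
  | inv x hx h1 =>
    rw [Derivation.leibniz_inv]
    exact mul_mem (neg_mem (pow_mem (inv_mem hx) 2)) h1
  | mul x y hx hy h1 h2 =>
    rw [Derivation.leibniz]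
    exact add_mem (mul_mem hx h2) (mul_mem hy h1)

/-- `k₀` and `E` are free over `K₂`; `f` algebraic over `E k₀` but not over `E`. Then there is a derivation
that kills `E`, preserves `k₀` and does not kill `f`. -/
theorem DA_main [CharZero K] (K₂ E k₀ : IntermediateField K F) (h2E : K₂ ≤ E) (h2k : K₂ ≤ k₀)
    (hfree : ∀ I : Set F, I ⊆ k₀ → AlgebraicIndependent K₂ ((↑) : I → F) →
      AlgebraicIndependent E ((↑) : I → F))
    (f : F) (hf : IsAlgebraic (IntermediateField.adjoin E (k₀ : Set F)) f)
    (hfE : ¬ IsAlgebraic E f) :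
    ∃ D : Derivation ℤ F F, (∀ a ∈ E, D a = 0) ∧ (∀ a ∈ k₀, D a ∈ k₀) ∧ D f ≠ 0 := by
  classical
  have : CharZero F := charZero_of_injective_algebraMap (algebraMap K F).injective
  have : CharZero E := charZero_of_injective_algebraMap (algebraMap K E).injective
  obtain ⟨I, hIk, hI, hIa⟩ := DA_basis K₂ (k₀ : Set F)
  have hIE := hfree I hIk hI
  obtain ⟨T, hIT, hT⟩ := exists_isTranscendenceBasis_superset (s := I) hIE
  -- the derivations
  have hD : ∀ l : T, ∃ D : Derivation ℤ F F, (∀ a : E, D (algebraMap E F a) = 0) ∧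
      ∀ i : T, D (i : F) = if i = l then 1 else 0 := fun l =>
    let ⟨D, h1, h2⟩ := exists_derivation ((↑) : T → F) hT.1 hT.isAlgebraic_field
      (0 : Derivation ℤ E F) (fun i => if i = l then 1 else 0)
    ⟨D, h1, h2⟩
  choose D hD1 hD2 using hD
  have hDk : ∀ l : T, ∀ a ∈ k₀, D l a ∈ k₀ := by
    intro l
    let M : IntermediateField K F := (IntermediateField.adjoin K₂ I).restrictScalars K
    have hM : M ≤ k₀ := by
      intro a ha
      have ha' : a ∈ IntermediateField.adjoin K₂ I := ha
      clear ha
      induction ha' using IntermediateField.adjoin_induction with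
      | mem x hx => exact hIk hx
      | algebraMap x => exact h2k x.2
      | add x y hx hy h1 h2 => exact add_mem h1 h2
      | inv x hx h1 => exact inv_mem h1
      | mul x y hx hy h1 h2 => exact mul_mem h1 h2
    have hDM : ∀ a ∈ M, D l a ∈ k₀ := by
      intro a ha
      refine hM (DA_adjoin K₂ I (D l) (fun b hb => hD1 l ⟨b, h2E hb⟩) (fun b hb => ?_) a ha)
      have h1 := hD2 l ⟨b, hIT hb⟩
      have h2 : D l b = if (⟨b, hIT hb⟩ : T) = l then 1 else 0 := h1
      rw [h2]
      split_ifs
      · exact one_mem _
      · exact zero_mem _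
    intro a ha
    exact DA_mem (D l) k₀ M hM hDM a ha (hIa a ha)
  by_contra hcon
  push Not at hcon
  have h0 : ∀ l : T, D l f = 0 := fun l =>
    hcon (D l) (fun a ha => hD1 l ⟨a, ha⟩) (hDk l)
  refine hfE (isAlgebraic_of_derivation f fun Δ hΔ => ?_)
  -- `f` is algebraic over `E (I)`
  have hfI : IsAlgebraic (IntermediateField.adjoin E I) f := by
    have h1 : f ∈ (AlgebraicIndependent.matroid E F).closure (k₀ : Set F) := by
      rw [AlgebraicIndependent.matroid_closure_eq]
      exact IntermediateField.isAlgebraic_adjoin_iff.1 hf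
    have h2 : (k₀ : Set F) ⊆ (AlgebraicIndependent.matroid E F).closure I := by
      intro a ha
      rw [AlgebraicIndependent.matroid_closure_eq]
      refine IntermediateField.isAlgebraic_adjoin_iff.1 ?_
      have h3 : ∀ b ∈ IntermediateField.adjoin K₂ I, b ∈ IntermediateField.adjoin E I := by
        intro b hb
        induction hb using IntermediateField.adjoin_induction with
        | mem x hx => exact IntermediateField.subset_adjoin _ _ hx
        | algebraMap x =>
          exact (IntermediateField.adjoin E I).algebraMap_mem ⟨x, h2E x.2⟩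
        | add x y hx hy h1 h2 => exact add_mem h1 h2
        | inv x hx h1 => exact inv_mem h1
        | mul x y hx hy h1 h2 => exact mul_mem h1 h2
      exact DA_up (A := K₂.toSubfield) (B := E.toSubfield) (IntermediateField.adjoin K₂ I)
        (IntermediateField.adjoin E I) h3 a (hIa a ha)
    have h3 := (Matroid.closure_subset_closure_of_subset_closure h2) h1
    rw [AlgebraicIndependent.matroid_closure_eq] at h3
    exact IntermediateField.isAlgebraic_adjoin_iff.2 h3
  obtain ⟨S, hSI, hSf, hfS⟩ := DA_finite E I f hfI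
  -- correction of `Δ`
  have hST : S ⊆ T := hSI.trans hIT
  let S' : Finset T := (hSf.preimage (Subtype.val_injective.injOn (s := _))).toFinset
  have hS' : ∀ i : T, i ∈ S' ↔ (i : F) ∈ S := fun i => by
    simp only [S', Set.Finite.mem_toFinset, Set.mem_preimage]
  have hsum : ∀ (s : Finset T) (g : F), (∑ l ∈ s, Δ (l : F) • D l) g =
      ∑ l ∈ s, Δ (l : F) * D l g := by
    intro s g
    induction s using Finset.induction_on with
    | empty => rfl
    | insert a s ha ih =>
      rw [Finset.sum_insert ha, Finset.sum_insert ha, ← ih]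
      rfl
  let Δ' : Derivation ℤ F F := Δ - ∑ l ∈ S', Δ (l : F) • D l
  have hΔ' : ∀ g, Δ' g = Δ g - ∑ l ∈ S', Δ (l : F) * D l g := by
    intro g
    rw [← hsum]
    rfl
  have hE' : ∀ a ∈ E, Δ' a = 0 := by
    intro a ha
    rw [hΔ', show Δ a = 0 from hΔ ⟨a, ha⟩, zero_sub, neg_eq_zero]
    exact Finset.sum_eq_zero fun l _ => by
      rw [show D l a = 0 from hD1 l ⟨a, ha⟩, mul_zero]
  have hS0 : ∀ a ∈ S, Δ' a = 0 := by
    intro a ha
    rw [hΔ', Finset.sum_eq_single_of_mem (⟨a, hST ha⟩ : T) ((hS' _).2 ha)]
    · have h1 : D ⟨a, hST ha⟩ a = 1 := by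
        have := hD2 ⟨a, hST ha⟩ ⟨a, hST ha⟩
        rw [if_pos rfl] at this
        exact this
      rw [h1, mul_one, sub_self]
    · intro b hb hne
      have h1 : D b a = 0 := by
        have := hD2 b ⟨a, hST ha⟩
        rw [if_neg (Ne.symm hne)] at this
        exact this
      rw [h1, mul_zero]
  have hadj : ∀ a ∈ IntermediateField.adjoin E S, Δ' a = 0 := by
    intro a ha
    induction ha using IntermediateField.adjoin_induction with
    | mem x hx => exact hS0 x hx
    | algebraMap x => exact hE' _ x.2
    | add x y hx hy h1 h2 => rw [map_add, h1, h2, add_zero]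
    | inv x hx h1 => rw [Derivation.leibniz_inv, h1, smul_zero]
    | mul x y hx hy h1 h2 => rw [Derivation.leibniz, h1, h2, smul_zero, smul_zero, add_zero]
  have : CharZero (IntermediateField.adjoin E S) :=
    charZero_of_injective_algebraMap (algebraMap E (IntermediateField.adjoin E S)).injective
  have h5 : Δ' f = 0 := derivation_algebraic (k := IntermediateField.adjoin E S) Δ'
    (fun a => hadj a a.2) f hfS
  rw [hΔ'] at h5
  have h6 : ∑ l ∈ S', Δ (l : F) * D l f = 0 :=
    Finset.sum_eq_zero fun l _ => by rw [h0 l, mul_zero]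
  rw [h6, sub_zero] at h5
  exact h5

end

end Pool.Agent.Lib.MP_17a322_nt.SL
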