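import Pool.Agent.Lib.MP_17a322_nt.SL.DA
import Pool.Agent.Lib.MP_17a322_nt.VA.E01

/-!
Freeness of two fields from a transcendence basis.
-/

universe u

namespace Pool.Agent.Lib.MP_17a322_nt.SL

open Pool.Agent.Lib.MP_17a322_nt.VN Pool.Agent.Lib.MP_17a322_nt.VA

section

variable {K F : Type u} [Field K] [Field F] [Algebra K F]

/-- If a transcendence basis of `E` over `K₂` is independent over `k₀` then `k₀` and `E` are free over
`K₂`. -/
theorem DB_free (K₂ E k₀ : IntermediateField K F) (h2E : K₂ ≤ E) (h2k : K₂ ≤ k₀) {κ : Type*}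
    (t : κ → F) (ht : ∀ i, t i ∈ E)
    (hE : ∀ x ∈ E, IsAlgebraic (IntermediateField.adjoin K₂ (Set.range t)) x)
    (hind : AlgebraicIndependent k₀ t) (I : Set F) (hIk : I ⊆ k₀)
    (hI : AlgebraicIndependent K₂ ((↑) : I → F)) : AlgebraicIndependent E ((↑) : I → F) := by
  -- `t` is independent over `K₂ [I]`
  have h1 : ∀ a ∈ Algebra.adjoin K₂ (Set.range ((↑) : I → F)), a ∈ k₀ := by
    intro a ha
    induction ha using Algebra.adjoin_induction with
    | mem x hx =>
      obtain ⟨i, rfl⟩ := hx
      exact hIk i.2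
    | algebraMap x => exact h2k x.2
    | add x y _ _ hx hy => exact add_mem hx hy
    | mul x y _ _ hx hy => exact mul_mem hx hy
  let φ : Algebra.adjoin K₂ (Set.range ((↑) : I → F)) →+* k₀ :=
    { toFun := fun a => ⟨a, h1 a a.2⟩
      map_one' := rfl
      map_mul' := fun _ _ => rfl
      map_zero' := rfl
      map_add' := fun _ _ => rfl }
  have hφ : Function.Injective φ := fun a b h => Subtype.ext (congrArg (fun x : k₀ => (x : F)) h)
  have h2 : AlgebraicIndependent (Algebra.adjoin K₂ (Set.range ((↑) : I → F))) t :=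
    AlgebraicIndependent.of_ringHom_of_comp_eq φ (RingHom.id F) hind hφ (RingHom.ext fun _ => rfl)
  have h3 : AlgebraicIndependent K₂ (Sum.elim t ((↑) : I → F)) :=
    AlgebraicIndependent.sumElim_iff.2 ⟨hI, h2⟩
  have h4 : AlgebraicIndependent K₂ (Sum.elim ((↑) : I → F) t) := by
    have h5 := h3.comp Sum.swap (Equiv.sumComm I κ).injective
    have h6 : Sum.elim t ((↑) : I → F) ∘ Sum.swap = Sum.elim ((↑) : I → F) t := by
      funext i
      rcases i with i | i <;> rfl
    rw [h6] at h5
    exact h5
  have h5 := (AlgebraicIndependent.sumElim_iff.1 h4).2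
  -- `E` is algebraic over `K₂ [t]`
  have h6 : ∀ a ∈ Algebra.adjoin K₂ (Set.range t), a ∈ E := by
    intro a ha
    induction ha using Algebra.adjoin_induction with
    | mem x hx =>
      obtain ⟨i, rfl⟩ := hx
      exact ht i
    | algebraMap x => exact h2E x.2
    | add x y _ _ hx hy => exact add_mem hx hy
    | mul x y _ _ hx hy => exact mul_mem hx hy
  let ψ : Algebra.adjoin K₂ (Set.range t) →+* E :=
    { toFun := fun a => ⟨a, h6 a a.2⟩
      map_one' := rfl
      map_mul' := fun _ _ => rfl
      map_zero' := rfl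
      map_add' := fun _ _ => rfl }
  let _ : Algebra (Algebra.adjoin K₂ (Set.range t)) E := ψ.toAlgebra
  have i1 : IsScalarTower (Algebra.adjoin K₂ (Set.range t)) E F :=
    IsScalarTower.of_algebraMap_eq fun _ => rfl
  have i2 : Algebra.IsAlgebraic (Algebra.adjoin K₂ (Set.range t)) E := by
    refine ⟨fun x => ?_⟩
    have h7 := IntermediateField.isAlgebraic_adjoin_iff.1 (hE x x.2)
    exact (isAlgebraic_algHom_iff (IsScalarTower.toAlgHom (Algebra.adjoin K₂ (Set.range t)) E F)
      Subtype.val_injective).1 h7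
  exact h5.extendScalars E

/-- The count. -/
theorem DB_main (K₂ E k₀ : IntermediateField K F) (h2E : K₂ ≤ E) (h2k : K₂ ≤ k₀) {κ : Type}
    [Finite κ] (t : κ → F) (ht : ∀ i, t i ∈ E)
    (hE : ∀ x ∈ E, IsAlgebraic (IntermediateField.adjoin K₂ (Set.range t)) x)
    {n : ℕ} (hn : Nat.card κ ≤ n) (s : Fin n → F) (hs : AlgebraicIndependent k₀ s)
    (hsa : ∀ j, IsAlgebraic (IntermediateField.adjoin k₀ (E : Set F)) (s j)) (I : Set F)
    (hIk : I ⊆ k₀) (hI : AlgebraicIndependent K₂ ((↑) : I → F)) :
    AlgebraicIndependent E ((↑) : I → F) := by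
  refine DB_free K₂ E k₀ h2E h2k t ht hE ?_ I hIk hI
  refine card_indep (by rwa [Nat.card_fin]) s t hs fun j => ?_
  have h1 : s j ∈ (AlgebraicIndependent.matroid k₀ F).closure (E : Set F) := by
    rw [AlgebraicIndependent.matroid_closure_eq]
    exact IntermediateField.isAlgebraic_adjoin_iff.1 (hsa j)
  have h2 : (E : Set F) ⊆ (AlgebraicIndependent.matroid k₀ F).closure (Set.range t) := by
    intro a ha
    rw [AlgebraicIndependent.matroid_closure_eq]
    refine IntermediateField.isAlgebraic_adjoin_iff.1 ?_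
    have h3 : ∀ b ∈ IntermediateField.adjoin K₂ (Set.range t),
        b ∈ IntermediateField.adjoin k₀ (Set.range t) := by
      intro b hb
      induction hb using IntermediateField.adjoin_induction with
      | mem x hx => exact IntermediateField.subset_adjoin _ _ hx
      | algebraMap x =>
        exact (IntermediateField.adjoin k₀ (Set.range t)).algebraMap_mem ⟨x, h2k x.2⟩
      | add x y hx hy h1 h2 => exact add_mem h1 h2
      | inv x hx h1 => exact inv_mem h1
      | mul x y hx hy h1 h2 => exact mul_mem h1 h2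
    exact DA_up (A := K₂.toSubfield) (B := k₀.toSubfield) (IntermediateField.adjoin K₂ (Set.range t))
      (IntermediateField.adjoin k₀ (Set.range t)) h3 a (hE a ha)
  have h3 := (Matroid.closure_subset_closure_of_subset_closure h2) h1
  rw [AlgebraicIndependent.matroid_closure_eq] at h3
  exact IntermediateField.isAlgebraic_adjoin_iff.2 h3

end

end Pool.Agent.Lib.MP_17a322_nt.SL
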