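import Pool.Agent.Lib.MP_17a322_nt.Mb

/-!
Linear algebra: a space of solutions of linear equations over `k` that is also the space of solutions of
linear equations over `E` has a basis over `k ∩ E`.
-/

namespace Pool.Agent.Lib.MP_17a322_nt.SL

section

variable {k F : Type*} [Field k] [Field F] [Algebra k F] {ι : Type*} [Fintype ι]

/-- A linear form over `k` that vanishes at the solutions over `k` vanishes at the solutions over
`F`. -/
theorem DC_sys (C : Set (ι → k)) (f : ι → k)
    (hf : ∀ v : ι → k, (∀ c ∈ C, ∑ i, c i * v i = 0) → ∑ i, f i * v i = 0) (u : ι → F)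
    (hu : ∀ c ∈ C, ∑ i, algebraMap k F (c i) * u i = 0) : ∑ i, algebraMap k F (f i) * u i = 0 := by
  classical
  let B := Module.Basis.ofVectorSpace k F
  have key : ∀ (c : ι → k) (s), B.repr (∑ i, algebraMap k F (c i) * u i) s =
      ∑ i, c i * B.repr (u i) s := by
    intro c s
    rw [map_sum, Finsupp.finsetSum_apply]
    refine Finset.sum_congr rfl fun i _ => ?_
    rw [← Algebra.smul_def, map_smul, Finsupp.smul_apply, smul_eq_mul]
  refine B.repr.injective (Finsupp.ext fun s => ?_)
  rw [key, map_zero, Finsupp.zero_apply]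
  refine hf _ fun c hc => ?_
  rw [← key, hu c hc, map_zero, Finsupp.zero_apply]

/-- A solution with prescribed values in `k` at a determining set of coordinates has all coordinates
in `k`. -/
theorem DC_rat (C : Set (ι → k)) (J : Finset ι)
    (hJ : ∀ u : ι → F, (∀ c ∈ C, ∑ i, algebraMap k F (c i) * u i = 0) → (∀ j ∈ J, u j = 0) → u = 0)
    (j₀ : ι) (hj₀ : j₀ ∈ J) (u : ι → F) (hu : ∀ c ∈ C, ∑ i, algebraMap k F (c i) * u i = 0)
    (hu0 : ∀ j ∈ J, j ≠ j₀ → u j = 0) (hu1 : u j₀ = 1) : ∀ i, u i ∈ (algebraMap k F).range := by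
  classical
  let W : Submodule k (J → k) :=
    { carrier := {w | ∃ v : ι → k, (∀ c ∈ C, ∑ i, c i * v i = 0) ∧ ∀ j : J, w j = v j}
      zero_mem' := ⟨fun _ => 0, fun c _ => Finset.sum_eq_zero fun i _ => mul_zero _, fun _ => rfl⟩
      add_mem' := by
        rintro w w' ⟨v, h1, h2⟩ ⟨v', h1', h2'⟩
        refine ⟨fun i => v i + v' i, fun c hc => ?_, fun j => ?_⟩
        · simp_rw [mul_add]
          rw [Finset.sum_add_distrib, h1 c hc, h1' c hc, add_zero]
        · rw [Pi.add_apply, h2, h2']
      smul_mem' := by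
        rintro a w ⟨v, h1, h2⟩
        refine ⟨fun i => a * v i, fun c hc => ?_, fun j => ?_⟩
        · have h3 : ∀ i, c i * (a * v i) = a * (c i * v i) := fun i => by ring
          simp_rw [h3]
          rw [← Finset.mul_sum, h1 c hc, mul_zero]
        · rw [Pi.smul_apply, h2, smul_eq_mul] }
  have hW : (Pi.single (⟨j₀, hj₀⟩ : J) (1 : k)) ∈ W := by
    by_contra hcon
    obtain ⟨f, hf1, hf2⟩ := Submodule.exists_le_ker_of_notMem hcon
    apply hf1
    have h1 := DC_sys (F := F) C (fun i => if h : i ∈ J then f (Pi.single (⟨i, h⟩ : J) (1 : k)) else 0)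
      (fun v hv => ?_) u hu
    · have h2 : ∑ i, algebraMap k F (if h : i ∈ J then f (Pi.single (⟨i, h⟩ : J) (1 : k)) else 0) *
          u i = algebraMap k F (f (Pi.single (⟨j₀, hj₀⟩ : J) (1 : k))) := by
        rw [Finset.sum_eq_single j₀]
        · rw [dif_pos hj₀, hu1, mul_one]
        · intro i _ hi
          by_cases hiJ : i ∈ J
          · rw [hu0 i hiJ hi, mul_zero]
          · rw [dif_neg hiJ, map_zero, zero_mul]
        · intro h
          exact absurd (Finset.mem_univ _) h
      rw [h2] at h1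
      exact (map_eq_zero _).1 h1
    · have h2 : (fun j : J => v j) ∈ W := ⟨v, hv, fun _ => rfl⟩
      have h3 : f (fun j : J => v j) = 0 := LinearMap.mem_ker.1 (hf2 h2)
      have h4 : (fun j : J => v j) = ∑ j : J, v j • Pi.single j (1 : k) := by
        funext j
        rw [Finset.sum_apply, Finset.sum_eq_single j]
        · rw [Pi.smul_apply, Pi.single_eq_same, smul_eq_mul, mul_one]
        · intro j' _ hj'
          rw [Pi.smul_apply, Pi.single_eq_of_ne (Ne.symm hj'), smul_zero]
        · intro h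
          exact absurd (Finset.mem_univ _) h
      rw [h4, map_sum] at h3
      simp_rw [map_smul] at h3
      refine Eq.trans ?_ h3
      have h5 := Finset.sum_subset (f := fun i => (if h : i ∈ J then
        f (Pi.single (⟨i, h⟩ : J) (1 : k)) else 0) * v i) (Finset.subset_univ J)
        (fun i _ hi => by rw [dif_neg hi, zero_mul])
      rw [← h5, ← Finset.sum_coe_sort J]
      refine Finset.sum_congr rfl fun j _ => ?_
      rw [dif_pos j.2, mul_comm, smul_eq_mul]
  obtain ⟨v, h1, h2⟩ := hW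
  have h3 : (fun i => u i - algebraMap k F (v i)) = 0 := by
    refine hJ _ (fun c hc => ?_) fun j hj => ?_
    · simp_rw [mul_sub]
      rw [Finset.sum_sub_distrib, hu c hc, zero_sub, neg_eq_zero]
      have h4 := congrArg (algebraMap k F) (h1 c hc)
      rw [map_sum, map_zero] at h4
      simp_rw [map_mul] at h4
      exact h4
    · by_cases hjj : j = j₀
      · subst hjj
        have h4 := h2 ⟨j, hj⟩
        rw [Pi.single_eq_same] at h4
        show u j - algebraMap k F (v j) = 0
        rw [hu1, ← h4, map_one, sub_self]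
      · have h4 := h2 ⟨j, hj⟩
        rw [Pi.single_eq_of_ne (fun h => hjj (congrArg Subtype.val h))] at h4
        show u j - algebraMap k F (v j) = 0
        rw [hu0 j hj hjj, ← h4, map_zero, sub_self]
  intro i
  exact ⟨v i, (sub_eq_zero.1 (congrFun h3 i)).symm⟩

end

/-- A space of solutions over `k` and over `E` has a basis over `k ∩ E`; the coordinates are the
coefficients. -/
theorem DC_lin {k E F : Type*} [Field k] [Field E] [Field F] [Algebra k F] [Algebra E F]
    {ι : Type*} [Fintype ι] (Ck : Set (ι → k)) (CE : Set (ι → E))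
    (h : ∀ u : ι → F, (∀ c ∈ Ck, ∑ i, algebraMap k F (c i) * u i = 0) ↔
      ∀ c ∈ CE, ∑ i, algebraMap E F (c i) * u i = 0) :
    ∃ (J : Finset ι) (v : ι → ι → F),
      (∀ j ∈ J, ∀ c ∈ Ck, ∑ i, algebraMap k F (c i) * v j i = 0) ∧
      (∀ j ∈ J, ∀ i, v j i ∈ (algebraMap k F).range ∧ v j i ∈ (algebraMap E F).range) ∧
      ∀ u : ι → F, (∀ c ∈ Ck, ∑ i, algebraMap k F (c i) * u i = 0) →
        ∀ i, u i = ∑ j ∈ J, u j * v j i := by
  classical
  obtain ⟨J, hJ, hJmin⟩ := exists_minimal_of_wellFoundedLT (fun J : Finset ι => ∀ u : ι → F,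
    (∀ c ∈ Ck, ∑ i, algebraMap k F (c i) * u i = 0) → (∀ j ∈ J, u j = 0) → u = 0)
    ⟨Finset.univ, fun u _ hu => funext fun i => hu i (Finset.mem_univ i)⟩
  have hsub : ∀ (c : ι → k) (a : F) (u : ι → F), ∑ i, algebraMap k F (c i) * (a * u i) =
      a * ∑ i, algebraMap k F (c i) * u i := by
    intro c a u
    rw [Finset.mul_sum]
    refine Finset.sum_congr rfl fun i _ => ?_
    ring
  have hex : ∀ j, ∃ u : ι → F, j ∈ J → (∀ c ∈ Ck, ∑ i, algebraMap k F (c i) * u i = 0) ∧
      (∀ j' ∈ J, j' ≠ j → u j' = 0) ∧ u j = 1 := by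
    intro j
    by_cases hj : j ∈ J
    · have h1 : ¬ ∀ u : ι → F, (∀ c ∈ Ck, ∑ i, algebraMap k F (c i) * u i = 0) →
          (∀ j' ∈ J.erase j, u j' = 0) → u = 0 := by
        intro h1
        exact absurd (hJmin h1 (Finset.erase_subset j J) hj) (Finset.notMem_erase j J)
      push Not at h1
      obtain ⟨u, hu, hu0, hune⟩ := h1
      have huj : u j ≠ 0 := by
        intro huj
        refine hune (hJ u hu fun j' hj' => ?_)
        by_cases hjj : j' = j
        · rw [hjj, huj]
        · exact hu0 j' (Finset.mem_erase.2 ⟨hjj, hj'⟩)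
      refine ⟨fun i => (u j)⁻¹ * u i, fun _ => ⟨fun c hc => ?_, fun j' hj' hjj => ?_, ?_⟩⟩
      · rw [hsub, hu c hc, mul_zero]
      · show (u j)⁻¹ * u j' = 0
        rw [hu0 j' (Finset.mem_erase.2 ⟨hjj, hj'⟩), mul_zero]
      · exact inv_mul_cancel₀ huj
    · exact ⟨0, fun h => absurd h hj⟩
  choose v hv using hex
  refine ⟨J, v, fun j hj => (hv j hj).1, fun j hj i => ⟨?_, ?_⟩, fun u hu i => ?_⟩
  · exact DC_rat Ck J hJ j hj (v j) (hv j hj).1 (hv j hj).2.1 (hv j hj).2.2 i
  · exact DC_rat CE J (fun u hu => hJ u ((h u).2 hu)) j hj (v j) ((h _).1 (hv j hj).1)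
      (hv j hj).2.1 (hv j hj).2.2 i
  · have h1 : (fun i => u i - ∑ j ∈ J, u j * v j i) = 0 := by
      refine hJ _ (fun c hc => ?_) fun j' hj' => ?_
      · simp_rw [mul_sub, Finset.mul_sum]
        rw [Finset.sum_sub_distrib, hu c hc, zero_sub, neg_eq_zero, Finset.sum_comm]
        refine Finset.sum_eq_zero fun j hj => ?_
        rw [hsub, (hv j hj).1 c hc, mul_zero]
      · show u j' - ∑ j ∈ J, u j * v j j' = 0
        rw [Finset.sum_eq_single_of_mem j' hj', (hv j' hj').2.2, mul_one, sub_self]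
        intro j hj hjj
        rw [(hv j hj).2.1 j' hj' (Ne.symm hjj), mul_zero]
    exact sub_eq_zero.1 (congrFun h1 i)

end Pool.Agent.Lib.MP_17a322_nt.SL
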