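import Pool.Agent.Lib.MP_17a322_nt.VA.Z17

/-!
A form that vanishes at the translates of a point by the points of `B(K)` vanishes at all translates by
points of `B`.
-/

universe u

namespace Pool.Agent.Lib.MP_17a322_nt.SL

open MvPolynomial
open Pool.Agent.Lib.MP_17a322_nt.VN Pool.Agent.Lib.MP_17a322_nt.VA

section

variable {K : Type u} [Field K] {N : ℕ} {A B : AV K N}

theorem inc_img (hB : IsSubAV B A) {L L' : Type u} [Field L] [Algebra K L] [Field L'] [Algebra K L']
    (φ : L →ₐ[K] L') (P : B.Pts L) : A.img φ (hB.inc L P) = hB.inc L' (B.img φ P) := by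
  have h1 : A.Rep (A.img φ (hB.inc L P)) fun i => φ (B.x P i) := A.img_rep φ (hB.inc L P)
  have h2 : A.Rep (hB.inc L' (B.img φ P)) fun i => φ (B.x P i) := B.img_rep φ P
  exact h1.unique h2

variable {F : Type u} [Field F] [Algebra K F]

theorem DC_ev (x y : Fin (N + 1) → F) (S : MvPolynomial (Fin (N + 1) ⊕ Fin (N + 1)) K) :
    eval y (aeval (R := K) (Sum.elim (fun i => (C (x i) : MvPolynomial (Fin (N + 1)) F)) X) S) =
      aeval (Sum.elim x y) S := by
  let φ : MvPolynomial (Fin (N + 1)) F →ₐ[K] F := (aeval (R := F) y).restrictScalars K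
  have h0 : ∀ g : MvPolynomial (Fin (N + 1)) F, φ g = eval y g := fun g => by
    show aeval y g = _
    rw [aeval_eq_eval]
  rw [← h0, comp_aeval_apply]
  congr 2
  funext s
  cases s with
  | inl i => exact (h0 _).trans (eval_C _)
  | inr i => exact (h0 _).trans (eval_X _)

theorem eval_mul_homog {G : MvPolynomial (Fin (N + 1)) F} {d : ℕ} (hG : G.IsHomogeneous d) (c : F)
    (y : Fin (N + 1) → F) : eval (fun i => c * y i) G = c ^ d * eval y G := by
  have h1 := aeval_mul_homog hG c y
  rw [aeval_eq_eval, aeval_eq_eval] at h1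
  exact h1

/-- The value of a form at two vectors of coordinates of a point. -/
theorem eval_rep {G : MvPolynomial (Fin (N + 1)) F} {d : ℕ} (hG : G.IsHomogeneous d) {P : A.Pts F}
    {y : Fin (N + 1) → F} (h : A.Rep P y) : eval y G = 0 ↔ eval (A.x P) G = 0 := by
  obtain ⟨c, hc, h1⟩ := h
  rw [funext h1, eval_mul_homog hG]
  constructor
  · intro h2
    exact (mul_eq_zero.1 h2).resolve_left (pow_ne_zero _ hc)
  · intro h2
    rw [h2, mul_zero]

theorem DC_dense [Infinite K] (hB : IsSubAV B A) (hle : B.vI ≤ B.I) (P : A.Pts F) {d : ℕ}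
    {G : MvPolynomial (Fin (N + 1)) F} (hG : G.IsHomogeneous d)
    (h : ∀ β : B.Pts K, eval (A.x (P + hB.inc F (B.img (Algebra.ofId K F) β))) G = 0)
    (β : B.Pts F) : eval (A.x (P + hB.inc F β)) G = 0 := by
  obtain ⟨b, hb⟩ := A.exists_x_ne (P - hB.inc F β)
  let f : Fin (N + 1) → MvPolynomial (Fin (N + 1)) F := fun a =>
    aeval (R := K) (Sum.elim (fun i => (C (A.x P i) : MvPolynomial (Fin (N + 1)) F)) X) (A.S a b)
  have hf : ∀ y : Fin (N + 1) → F, eval y (bind₁ f G) =
      eval (fun a => aeval (Sum.elim (A.x P) y) (A.S a b)) G := by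
    intro y
    have h1 := aeval_bind₁ (R := F) y f G
    rw [aeval_eq_eval, aeval_eq_eval] at h1
    rw [h1]
    congr 2
    funext a
    exact DC_ev _ _ _
  have h1 : ∀ v ∈ B.cone, eval (fun i => algebraMap K F (v i)) (bind₁ f G) = 0 := by
    rintro _ ⟨c, p, rfl⟩
    rw [hf]
    have hr : A.Rep (hB.inc F (B.img (Algebra.ofId K F) p)) fun i => algebraMap K F (B.x p i) :=
      B.img_rep (Algebra.ofId K F) p
    obtain ⟨k, hk, h2⟩ := (AV.Rep.self P).spec hr
    have h3 : (fun a => aeval (Sum.elim (A.x P) fun i => algebraMap K F (c * B.x p i)) (A.S a b)) =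
        fun a => (algebraMap K F c ^ 2 * (k * A.x (P - hB.inc F (B.img (Algebra.ofId K F) p)) b)) *
          A.x (P + hB.inc F (B.img (Algebra.ofId K F) p)) a := by
      funext a
      have h4 : (Sum.elim (A.x P) fun i => algebraMap K F (c * B.x p i) :
          Fin (N + 1) ⊕ Fin (N + 1) → F) = Sum.elim (fun i => 1 * A.x P i)
            fun i => algebraMap K F c * algebraMap K F (B.x p i) := by
        funext s
        cases s with
        | inl i => exact (one_mul _).symm
        | inr i => exact map_mul _ _ _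
      rw [h4, A.S_smul, h2]
      ring
    rw [h3, eval_mul_homog hG, h p, mul_zero]
  have h2 := ZS_ext B.cone (B.x β) (fun f hf => B.x_isPt β f (hle (AV.mem_vI.2 hf))) _ h1
  rw [hf] at h2
  have hr : A.Rep (hB.inc F β) (B.x β) := AV.Rep.self (A := A) (hB.inc F β)
  have h3 := (AV.Rep.self P).add hr hb
  exact (eval_rep hG h3).1 h2

/-- The forms that vanish at the translates by the points of `B(K)` are the same for two points that
differ by a point of `B`. -/
theorem DC_shift [Infinite K] (hB : IsSubAV B A) (hle : B.vI ≤ B.I) {P Q : A.Pts F} (b : B.Pts F)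
    (hPQ : P = Q + hB.inc F b) {d : ℕ} {G : MvPolynomial (Fin (N + 1)) F} (hG : G.IsHomogeneous d) :
    (∀ β : B.Pts K, eval (A.x (P + hB.inc F (B.img (Algebra.ofId K F) β))) G = 0) ↔
      ∀ β : B.Pts K, eval (A.x (Q + hB.inc F (B.img (Algebra.ofId K F) β))) G = 0 := by
  constructor
  · intro h β
    have h1 := DC_dense hB hle P hG h (B.img (Algebra.ofId K F) β - b)
    rw [map_sub, hPQ] at h1
    have h2 : Q + hB.inc F b + (hB.inc F (B.img (Algebra.ofId K F) β) - hB.inc F b) =
        Q + hB.inc F (B.img (Algebra.ofId K F) β) := by abel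
    rwa [h2] at h1
  · intro h β
    have h1 := DC_dense hB hle Q hG h (b + B.img (Algebra.ofId K F) β)
    rw [map_add, ← add_assoc] at h1
    rwa [hPQ]

end

end Pool.Agent.Lib.MP_17a322_nt.SL
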