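import Pool.Agent.Lib.MP_17a322_nt.SL.DC1
import Pool.Agent.Lib.MP_17a322_nt.SL.DC2

/-!
Conjugates over `k₀ ∩ E` of a point over `E` of the coset `w + B`, `w` over `k₀`, are in the coset.
-/

universe u

namespace Pool.Agent.Lib.MP_17a322_nt.SL

open MvPolynomial
open Pool.Agent.Lib.MP_17a322_nt.VN Pool.Agent.Lib.MP_17a322_nt.VA

section

/-- The monomials of degree `D`. -/
def dmons (N D : ℕ) : Finset (Fin (N + 1) →₀ ℕ) := Finset.finsuppAntidiag Finset.univ D

theorem mem_dmons {N D : ℕ} {m : Fin (N + 1) →₀ ℕ} : m ∈ dmons N D ↔ m.degree = D := by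
  unfold dmons
  rw [Finset.mem_finsuppAntidiag]
  constructor
  · rintro ⟨h, -⟩
    rw [Finsupp.degree_eq_sum]
    exact h
  · intro h
    refine ⟨?_, Finset.subset_univ _⟩
    rw [Finsupp.degree_eq_sum] at h
    exact h

theorem support_subset_mons {F : Type*} [Field F] {N D : ℕ} {G : MvPolynomial (Fin (N + 1)) F}
    (hG : G.IsHomogeneous D) : G.support ⊆ dmons N D := fun m hm => by
  rw [mem_dmons]
  by_contra hcon
  exact (mem_support_iff.1 hm) (hG.coeff_eq_zero hcon)

theorem aevalTower_mons {K k R : Type*} [Field K] [Field k] [CommRing R] [Algebra K k] [Algebra K R]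
    {N D : ℕ} {G : MvPolynomial (Fin (N + 1)) k} (hG : G.IsHomogeneous D) (τ : k →ₐ[K] R)
    (y : Fin (N + 1) → R) :
    aevalTower τ y G = ∑ m : dmons N D, τ (coeff m.1 G) * ∏ i, y i ^ m.1 i := by
  have h1 : aevalTower τ y G = eval₂ (τ : k →+* R) y G := rfl
  rw [h1, eval₂_eq', Finset.sum_coe_sort (dmons N D) fun m => τ (coeff m G) * ∏ i, y i ^ m i]
  refine Finset.sum_subset (support_subset_mons hG) fun m _ hm => ?_
  rw [notMem_support_iff.1 hm, map_zero, zero_mul]

/-- The form with given coefficients. -/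
noncomputable def pl {F : Type*} [Field F] {N D : ℕ} (u : dmons N D → F) :
    MvPolynomial (Fin (N + 1)) F :=
  ∑ m : dmons N D, monomial m.1 (u m)

theorem pl_homog {F : Type*} [Field F] {N D : ℕ} (u : dmons N D → F) : (pl u).IsHomogeneous D :=
  IsHomogeneous.sum _ _ _ fun m _ => isHomogeneous_monomial _ (mem_dmons.1 m.2)

theorem eval_pl {F : Type*} [Field F] {N D : ℕ} (u : dmons N D → F) (y : Fin (N + 1) → F) :
    eval y (pl u) = ∑ m : dmons N D, (∏ i, y i ^ m.1 i) * u m := by
  unfold pl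
  rw [map_sum]
  refine Finset.sum_congr rfl fun m _ => ?_
  rw [eval_monomial, mul_comm, Finsupp.prod_fintype _ _ fun _ => pow_zero _]

variable {K : Type u} [Field K] {N : ℕ} {A B : AV K N} {F : Type u} [Field F] [Algebra K F]

/-- The form `G` vanishes at the image of `P`. -/
theorem sol_iff (L : IntermediateField K F) (P : A.Pts L) {D : ℕ} (u : dmons N D → F) :
    ∑ m : dmons N D, algebraMap L F (∏ i, A.x P i ^ m.1 i) * u m = 0 ↔
      eval (A.x (A.img L.val P)) (pl u) = 0 := by
  rw [← eval_rep (pl_homog u) (A.img_rep L.val P), eval_pl]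
  have h1 : ∀ m : dmons N D, algebraMap L F (∏ i, A.x P i ^ m.1 i) =
      ∏ i, (L.val (A.x P i)) ^ m.1 i := by
    intro m
    rw [map_prod]
    refine Finset.prod_congr rfl fun i _ => ?_
    rw [map_pow]
    rfl
  simp_rw [h1]

theorem img_shift (hB : IsSubAV B A) (L : IntermediateField K F) (P : A.Pts L) (β : B.Pts K) :
    A.img L.val (P + hB.inc L (B.img (Algebra.ofId K L) β)) =
      A.img L.val P + hB.inc F (B.img (Algebra.ofId K F) β) := by
  rw [AV.img_add, inc_img, ← AV.img_comp]
  have h1 : L.val.comp (Algebra.ofId K L) = Algebra.ofId K F := Subsingleton.elim _ _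
  rw [h1]

/-- The forms `S a c (X, y)` are of degree `2`. -/
theorem left_homog {k : Type u} [Field k] [Algebra K k] (y : Fin (N + 1) → k) (a c : Fin (N + 1)) :
    (aeval (R := K) (Sum.elim X (fun i => (C (y i) : MvPolynomial (Fin (N + 1)) k)))
      (A.S a c)).IsHomogeneous 2 := by
  rw [aeval_def, eval₂_eq']
  refine IsHomogeneous.sum _ _ _ fun m hm => ?_
  obtain ⟨h1, -⟩ := A.bihomog a c m hm
  rw [Fintype.prod_sum_type]
  have h2 : (∏ i, (Sum.elim X (fun i => (C (y i) : MvPolynomial (Fin (N + 1)) k)) (Sum.inl i)) ^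
      m (Sum.inl i)).IsHomogeneous 2 := by
    rw [← h1]
    refine IsHomogeneous.prod _ _ _ fun i _ => ?_
    exact isHomogeneous_X_pow i _
  have h3 : (∏ i, (Sum.elim X (fun i => (C (y i) : MvPolynomial (Fin (N + 1)) k)) (Sum.inr i)) ^
      m (Sum.inr i)).IsHomogeneous 0 := by
    have h4 : (∏ i, (Sum.elim X (fun i => (C (y i) : MvPolynomial (Fin (N + 1)) k)) (Sum.inr i)) ^
      m (Sum.inr i)) = C (∏ i, y i ^ m (Sum.inr i)) := by
      rw [map_prod]
      refine Finset.prod_congr rfl fun i _ => ?_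
      rw [map_pow]
      rfl
    rw [h4]
    exact isHomogeneous_C _ _
  have h5 := (isHomogeneous_C (Fin (N + 1)) (algebraMap K k (coeff m (A.S a c)))).mul (h2.mul h3)
  rw [zero_add, add_zero] at h5
  exact h5

theorem left_homog' {k : Type u} [Field k] [Algebra K k] (y : Fin (N + 1) → k) (a : Fin (N + 1))
    {f : MvPolynomial (Fin (N + 1)) K} {d : ℕ} (hf : f.IsHomogeneous d) :
    (aeval (R := K) (fun c => aeval (R := K) (Sum.elim X
      (fun i => (C (y i) : MvPolynomial (Fin (N + 1)) k))) (A.S a c)) f).IsHomogeneous (2 * d) := by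
  rw [aeval_def]
  refine hf.eval₂ _ _ (fun r => ?_) fun c => left_homog y a c
  exact isHomogeneous_C _ _

/-- Values of the substituted form. -/
theorem tower_left {k L : Type u} [Field k] [Algebra K k] [Field L] [Algebra K L] (τ : k →ₐ[K] L)
    (y : Fin (N + 1) → k) (y₁ : Fin (N + 1) → L) (a : Fin (N + 1))
    (f : MvPolynomial (Fin (N + 1)) K) :
    aevalTower τ y₁ (aeval (R := K) (fun c => aeval (R := K) (Sum.elim X
      (fun i => (C (y i) : MvPolynomial (Fin (N + 1)) k))) (A.S a c)) f) =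
      aeval (fun c => aeval (Sum.elim y₁ fun i => τ (y i)) (A.S a c)) f := by
  rw [comp_aeval_apply]
  congr 2
  funext c
  rw [comp_aeval_apply]
  congr 2
  funext s
  cases s with
  | inl i => exact aevalTower_X _ _ _
  | inr i => exact aevalTower_C _ _ _

end

end Pool.Agent.Lib.MP_17a322_nt.SL
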