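import Pool.Agent.Lib.MP_17a322_nt.SL.DC3

/-!
Conjugates over `k₀ ∩ E` of a point over `E` of the coset `w + B`, `w` over `k₀`, are in the coset.
-/

universe u

namespace Pool.Agent.Lib.MP_17a322_nt.SL

open MvPolynomial
open Pool.Agent.Lib.MP_17a322_nt.VN Pool.Agent.Lib.MP_17a322_nt.VA

section

variable {K : Type u} [Field K] [Infinite K] {N : ℕ} {A B : AV K N} {F : Type u} [Field F]
  [Algebra K F] (hB : IsSubAV B A) (hle : B.vI ≤ B.I) (k₀ E K₂ : IntermediateField K F)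
  (h2k : K₂ ≤ k₀) (h2E : K₂ ≤ E) (hK₂ : ∀ a, a ∈ k₀ → a ∈ E → a ∈ K₂) (w : A.Pts k₀) (p₀ : A.Pts E)
  (b : B.Pts F) (hp : A.img E.val p₀ = A.img k₀.val w + hB.inc F b) {Ω' : Type u} [Field Ω']
  [Algebra K Ω'] (σ : E →ₐ[K] Ω') (τ : k₀ →ₐ[K] Ω')
  (hστ : ∀ a (ha : a ∈ K₂), σ ⟨a, h2E ha⟩ = τ ⟨a, h2k ha⟩)

include hB hle hK₂ hp hστ in
/-- The transfer of the equations. -/
theorem DC_transfer {D : ℕ} (G : MvPolynomial (Fin (N + 1)) k₀) (hG : G.IsHomogeneous D)
    (hG0 : ∀ β : B.Pts K, eval (A.x (w + hB.inc k₀ (B.img (Algebra.ofId K k₀) β))) G = 0) :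
    aevalTower τ (fun i => σ (A.x p₀ i)) G = 0 := by
  classical
  let Ck : Set (dmons N D → k₀) := {c | ∃ β : B.Pts K,
    c = fun m => ∏ i, A.x (w + hB.inc k₀ (B.img (Algebra.ofId K k₀) β)) i ^ m.1 i}
  let CE : Set (dmons N D → E) := {c | ∃ β : B.Pts K,
    c = fun m => ∏ i, A.x (p₀ + hB.inc E (B.img (Algebra.ofId K E) β)) i ^ m.1 i}
  have hk : ∀ u : dmons N D → F, (∀ c ∈ Ck, ∑ m, algebraMap k₀ F (c m) * u m = 0) ↔
      ∀ β : B.Pts K, eval (A.x (A.img k₀.val w + hB.inc F (B.img (Algebra.ofId K F) β)))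
        (pl u) = 0 := by
    intro u
    constructor
    · intro h β
      have h1 := (sol_iff k₀ _ u).1 (h _ ⟨β, rfl⟩)
      rwa [img_shift hB] at h1
    · rintro h _ ⟨β, rfl⟩
      refine (sol_iff k₀ _ u).2 ?_
      rw [img_shift hB]
      exact h β
  have hE : ∀ u : dmons N D → F, (∀ c ∈ CE, ∑ m, algebraMap E F (c m) * u m = 0) ↔
      ∀ β : B.Pts K, eval (A.x (A.img E.val p₀ + hB.inc F (B.img (Algebra.ofId K F) β)))
        (pl u) = 0 := by
    intro u
    constructor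
    · intro h β
      have h1 := (sol_iff E _ u).1 (h _ ⟨β, rfl⟩)
      rwa [img_shift hB] at h1
    · rintro h _ ⟨β, rfl⟩
      refine (sol_iff E _ u).2 ?_
      rw [img_shift hB]
      exact h β
  obtain ⟨J, v, hv1, hv2, hv3⟩ := DC_lin (F := F) Ck CE fun u => by
    rw [hk, hE]
    exact (DC_shift hB hle b hp (pl_homog u)).symm
  have hv4 : ∀ j m, ∃ κ : K₂, j ∈ J → (κ : F) = v j m := by
    intro j m
    by_cases hj : j ∈ J
    · obtain ⟨⟨x, hx⟩, ⟨y, hy⟩⟩ := hv2 j hj m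
      have h1 : v j m ∈ k₀ := by
        rw [← hx]
        exact x.2
      have h2 : v j m ∈ E := by
        rw [← hy]
        exact y.2
      exact ⟨⟨_, hK₂ _ h1 h2⟩, fun _ => rfl⟩
    · exact ⟨0, fun h => absurd h hj⟩
  choose κ hκ using hv4
  -- the coefficients of `G`
  have hu : ∀ c ∈ Ck, ∑ m : dmons N D, algebraMap k₀ F (c m) * algebraMap k₀ F (coeff m.1 G) = 0 := by
    rintro _ ⟨β, rfl⟩
    have h1 := aevalTower_mons hG (AlgHom.id K k₀)
      (A.x (w + hB.inc k₀ (B.img (Algebra.ofId K k₀) β)))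
    have h2 : aevalTower (AlgHom.id K k₀)
      (A.x (w + hB.inc k₀ (B.img (Algebra.ofId K k₀) β))) G =
        eval (A.x (w + hB.inc k₀ (B.img (Algebra.ofId K k₀) β))) G := rfl
    rw [h2, hG0 β] at h1
    have h3 := congrArg (algebraMap k₀ F) h1.symm
    rw [map_sum, map_zero] at h3
    rw [← h3]
    refine Finset.sum_congr rfl fun m _ => ?_
    rw [map_mul, mul_comm]
    rfl
  have hc : ∀ m : dmons N D, coeff m.1 G = ∑ j ∈ J, coeff j.1 G * ⟨κ j m, h2k (κ j m).2⟩ := by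
    intro m
    have h1 := hv3 (fun m => algebraMap k₀ F (coeff m.1 G)) hu m
    refine (algebraMap k₀ F).injective ?_
    rw [h1, map_sum]
    refine Finset.sum_congr rfl fun j hj => ?_
    rw [map_mul]
    congr 1
    exact (hκ j m hj).symm
  have h0 : ∀ j ∈ J, ∑ m : dmons N D, (⟨κ j m, h2E (κ j m).2⟩ : E) * ∏ i, A.x p₀ i ^ m.1 i = 0 := by
    intro j hj
    have h1 := (hE (v j)).2 ((DC_shift hB hle b hp (pl_homog (v j))).2 ((hk (v j)).1 (hv1 j hj))) _
      ⟨0, rfl⟩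
    rw [AV.img_zero, map_zero, add_zero] at h1
    refine (algebraMap E F).injective ?_
    rw [map_zero, map_sum, ← h1]
    refine Finset.sum_congr rfl fun m _ => ?_
    rw [map_mul, mul_comm]
    congr 1
    exact hκ j m hj
  rw [aevalTower_mons hG]
  have h1 : ∀ m : dmons N D, τ (coeff m.1 G) * ∏ i, σ (A.x p₀ i) ^ m.1 i =
      ∑ j ∈ J, τ (coeff j.1 G) * σ ((⟨κ j m, h2E (κ j m).2⟩ : E) * ∏ i, A.x p₀ i ^ m.1 i) := by
    intro m
    have h2 := congrArg τ (hc m)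
    rw [map_sum] at h2
    rw [h2, Finset.sum_mul]
    refine Finset.sum_congr rfl fun j _ => ?_
    rw [map_mul, map_mul, map_prod, hστ _ (κ j m).2]
    simp_rw [map_pow]
    ring
  simp_rw [h1]
  rw [Finset.sum_comm]
  refine Finset.sum_eq_zero fun j hj => ?_
  rw [← Finset.mul_sum, ← map_sum, h0 j hj, map_zero, mul_zero]

include hle hK₂ hp hστ in
/-- The conjugate is in the coset. -/
theorem DC_core : ∃ b' : B.Pts Ω', A.img σ p₀ - A.img τ w = hB.inc Ω' b' := by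
  have h1 : ∀ f ∈ B.I, ∀ d : ℕ, f.IsHomogeneous d →
      aeval (A.x (A.img σ p₀ - A.img τ w)) f = 0 := by
    intro f hf d hfd
    obtain ⟨a, ha⟩ := A.exists_x_ne (A.img σ p₀ + A.img τ w)
    have h2 := (A.img_rep σ p₀).sub (A.img_rep τ w) ha
    have h3 := DC_transfer hB hle k₀ E K₂ h2k h2E hK₂ w p₀ b hp σ τ hστ _
      (left_homog' (A := A) (A.x w) a hfd) (fun β => by
        rw [AV.eval_left]
        obtain ⟨c, hc, h4⟩ := (AV.Rep.self (w + hB.inc k₀ (B.img (Algebra.ofId K k₀) β))).spec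
          (AV.Rep.self w)
        have h5 : w + hB.inc k₀ (B.img (Algebra.ofId K k₀) β) - w =
            hB.inc k₀ (B.img (Algebra.ofId K k₀) β) := by abel
        rw [h5] at h4
        have h6 : (fun c' => aeval (Sum.elim (A.x (w + hB.inc k₀ (B.img (Algebra.ofId K k₀) β)))
            (A.x w)) (A.S a c')) = fun c' => (c * A.x (w +
              hB.inc k₀ (B.img (Algebra.ofId K k₀) β) + w) a) *
              B.x (B.img (Algebra.ofId K k₀) β) c' := by
          funext c'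
          rw [h4, ← hB.x_inc]
          ring
        rw [h6, aeval_mul_homog hfd, B.x_isPt _ f hf, mul_zero])
    rw [tower_left] at h3
    obtain ⟨c, hc, h4⟩ := h2
    rw [funext h4, aeval_mul_homog hfd] at h3
    exact (mul_eq_zero.1 h3).resolve_left (pow_ne_zero _ hc)
  have h2 : ∀ f ∈ B.I, aeval (A.x (A.img σ p₀ - A.img τ w)) f = 0 := by
    intro f hf
    rw [← sum_homogeneousComponent f, map_sum]
    exact Finset.sum_eq_zero fun d _ => h1 _ (B.homog f hf d) d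
      (homogeneousComponent_isHomogeneous d f)
  exact ⟨⟨(A.img σ p₀ - A.img τ w).1, h2⟩, rfl⟩

end

end Pool.Agent.Lib.MP_17a322_nt.SL
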