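import Pool.Agent.Lib.MP_17a322_nt.VP.DefsB

/-!
The subspace theorem with moving targets over abelian varieties: definitions.
-/

universe u

namespace Pool.Agent.Lib.MP_17a322_nt.SL

open MvPolynomial Height
open Pool.Agent.Lib.MP_17a322_nt.RO
open Pool.Agent.Lib.MP_17a322_nt.VJ
open Pool.Agent.Lib.MP_17a322_nt.VN
open Pool.Agent.Lib.MP_17a322_nt.VA
open Pool.Agent.Lib.MP_17a322_nt.VP

/-- The variables of the auxiliary polynomial: `x a` Noether coordinates of `Q`, `th i` the primitive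
element of `P i - 2 ^ j i Q`, `z (i, a)` its Noether coordinates, `u (i, l)` the homogeneous coordinates of
the `i`-th point of the projective space. -/
inductive VQ (m n q : ℕ) : Type
  | x : Fin n → VQ m n q
  | th : Fin m → VQ m n q
  | z : Fin m × Fin n → VQ m n q
  | u : Fin m × Fin q → VQ m n q
  deriving DecidableEq, Fintype

/-- Values of the variables. -/
def vq {m n q : ℕ} {R : Type*} (x : Fin n → R) (th : Fin m → R) (z : Fin m × Fin n → R)
    (u : Fin m × Fin q → R) : VQ m n q → R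
  | VQ.x a => x a
  | VQ.th i => th i
  | VQ.z p => z p
  | VQ.u p => u p

section

variable {K : Type u} [Field K] {N : ℕ} {A : AV K N} {n e : ℕ} (nd : Noe A n e)

/-- The values at the vectors `Y` (for `Q`), `η i` (for `P i - 2 ^ j i Q`), `U`. -/
noncomputable def vM {m q : ℕ} {R : Type*} [CommRing R] [Algebra K R] (Y : Fin (N + 1) → R)
    (η : Fin m → Fin (N + 1) → R) (U : Fin m × Fin q → R) : VQ m n q → R :=
  vq (fun a => lf (nd.l a.succ) Y) (fun i => aeval (η i) nd.θ)
    (fun p => lf (nd.l p.2.succ) (η p.1)) U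

/-- `F` has index at least `T` with respect to each of the `q` linear forms `Λ i k` (functions of
`P i`): at all points over all domains the coefficients of the monomials in the values `X (i, k)` of these
forms whose weight in some `k` is less than `T` vanish (the coordinates are `adj(Λ) X`). -/
def VanM {m q : ℕ} (j : Fin m → ℕ)
    (Λ : Fin m → Matrix (Fin q) (Fin q) (MvPolynomial (Fin (N + 1)) K)) (T : ℝ)
    (F : MvPolynomial (VQ m n q) K) : Prop :=
  ∀ (R : Type u) [CommRing R] [IsDomain R] [Algebra K R] (Y : Fin (N + 1) → R)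
    (η x : Fin m → Fin (N + 1) → R) (c : Fin m → R),
    Ch nd Y → (∀ i, Ch nd (η i)) → (∀ i, c i ≠ 0) →
    (∀ i a, A.row A.b₀ (η i) (A.mu (j i) Y) a = c i * x i a) →
    (∀ i, ((Λ i).map (aeval (x i))).det ≠ 0) →
    ∀ (w : Fin m × Fin q →₀ ℕ) (k : Fin q), (∑ i, (4 : ℝ) ^ j i * w (i, k)) < T →
      coeff w (aeval (vM nd (fun a => (C (Y a) : MvPolynomial (Fin m × Fin q) R))
        (fun i a => C (η i a)) fun p => ∑ k', C (((Λ p.1).map (aeval (x p.1))).adjugate p.2 k') *
          X (p.1, k')) F) = 0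

/-- The local norm of a matrix of polynomials. -/
noncomputable def NVM {L : Type*} [Field L] {σ : Type*} {q : ℕ} (v : AbsoluteValue L ℝ)
    (Λ : Matrix (Fin q) (Fin q) (MvPolynomial σ L)) : ℝ :=
  ⨆ p : Fin q × Fin q, NV v (Λ p.1 p.2)

/-- The (projective) height of a matrix of polynomials. -/
noncomputable def htM {K : Type*} [Field K] [AdmissibleAbsValues K] {σ : Type*} {q : ℕ}
    (Λ : Matrix (Fin q) (Fin q) (MvPolynomial σ K)) : ℝ :=
  gs fun v => Real.log (NVM v Λ)

/-- The size of the denominators at the point `P` and of the matrix of forms `Λ`. -/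
noncomputable def lossM {q : ℕ} (E : SC K) {L : Type u} [Field L] [Algebra K L]
    (v : AbsoluteValue L ℝ) (P : A.Pts K)
    (Λ : Matrix (Fin q) (Fin q) (MvPolynomial (Fin (N + 1)) K)) : ℝ :=
  Real.log (E.k v) + Real.log (mq v fun b => algebraMap K L (nd.y P b)) -
    Real.log (min 1 (v (algebraMap K L (eval (nd.s P) nd.δ)))) +
    max 0 (Real.log (NVM v (Λ.map (MvPolynomial.map (algebraMap K L))) ^ q /
      v (algebraMap K L (eval (nd.y P) Λ.det))))

/-- The value of the auxiliary polynomial on the paths: the points of `A` move on the paths `η`, the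
points of the projective space are `∑ s, X (i, s) y i s`. -/
noncomputable def vlN {q q' : ℕ} {L : Type u} [Field L] [Algebra K L] {m : ℕ}
    (y : Fin m → Fin q' → Fin (q + 1) → K) (Y : Fin (N + 1) → L)
    (η : Fin m → Fin (N + 1) → PowerSeries L) (F : MvPolynomial (VQ m n (q + 1)) K) :
    MvPolynomial (Fin m × Fin q') (PowerSeries L) :=
  aeval (vM nd (fun a => (C (PowerSeries.C (Y a)) :
    MvPolynomial (Fin m × Fin q') (PowerSeries L))) (fun i a => C (η i a))
    fun p => ∑ s, C (PowerSeries.C (algebraMap K L (y p.1 s p.2))) * X (p.1, s)) F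

/-- The bounds for the auxiliary polynomial: `k i` is its degree in the block `u (i, ·)`, `b` bounds the
weighted degrees, `I` is a set of monomials in the variables `u` that do not occur in it. -/
structure BdF {q : ℕ} {m : ℕ} (j : Fin m → ℕ) (k : Fin m → ℕ) (B b : ℝ)
    (I : Finset (Fin m → Fin (q + 1) → ℕ)) [AdmissibleAbsValues K]
    (F : MvPolynomial (VQ m n (q + 1)) K) : Prop where
  ne : F ≠ 0
  th : ∀ i, F.degreeOf (VQ.th i) < nd.Φ.natDegree
  x : ∀ a, (F.degreeOf (VQ.x a) : ℝ) ≤ b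
  z : ∀ p : Fin m × Fin n, (4 : ℝ) ^ j p.1 * F.degreeOf (VQ.z p) ≤ b
  u : ∀ w ∈ F.support, ∀ i, ∑ l, w (VQ.u (i, l)) = k i
  nh : nh F ≤ B * b
  nI : ∀ w ∈ F.support, (fun i l => w (VQ.u (i, l))) ∉ I

/-- The path through the points `P i` with the differences `P i - 2 ^ j i Q`, `Y` the coordinates
of `Q`. -/
structure PthM {m : ℕ} (P : Fin m → A.Pts K) (j : Fin m → ℕ) {L : Type u} [Field L] [Algebra K L]
    (Y : Fin (N + 1) → L) (ζ : Fin m × Option (Fin n) → L)
    (x η : Fin m → Fin (N + 1) → PowerSeries L) : Prop where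
  isPt : A.IsPt Y
  lf0 : lf (nd.l 0) Y = 1
  blk : ∀ i, BlkP nd (P i) (4 ^ j i) (fun k => ζ (i, some k)) (A.mu (j i) Y) (x i) (η i)

end

/-- The local size of a vector `y`: with respect to the weighted linear forms `M v` at the places in
`Sg` (normalised by the largest coefficient), the usual norm at the other places. -/
noncomputable def sz {K : Type*} [Field K] {q : ℕ} (Sg : Finset (AbsoluteValue K ℝ))
    (c : AbsoluteValue K ℝ → Fin q → ℝ) (h : ℝ) (M : AbsoluteValue K ℝ → Matrix (Fin q) (Fin q) K)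
    (y : Fin q → K) (v : AbsoluteValue K ℝ) : ℝ :=
  open Classical in
  if v ∈ Sg then Real.log (⨆ k, v ((M v).mulVec y k) * Real.exp (c v k * h)) -
    Real.log (⨆ p : Fin q × Fin q, v (M v p.1 p.2)) else Real.log (⨆ l, v (y l))

/-- The total weight. -/
noncomputable def tw {K : Type*} [Field K] [AdmissibleAbsValues K] {q : ℕ}
    (Sg : Finset (AbsoluteValue K ℝ)) (c : AbsoluteValue K ℝ → Fin q → ℝ) : ℝ :=
  open Classical in
  gs fun v : AbsoluteValue K ℝ => if v ∈ Sg then ∑ k, c v k else 0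

/-- All monomials whose degrees in the blocks are `k i`. -/
def mons {m q : ℕ} (k : Fin m → ℕ) : Finset (Fin m → Fin (q + 1) → ℕ) :=
  Fintype.piFinset fun i => (Finset.univ : Finset (Fin (q + 1))).piAntidiag (k i)

/-- The data of the numerical theorem: points `P i` near `2 ^ j i P₀`, forms `Λ i v` at the places in `Sg`
with weights `c v`, vectors `y i s` of size at most `sig s` (relative to `h (P i)`). -/
structure DatM {K : Type u} [Field K] [NumberField K] {N : ℕ} {A : AV K N} {n e : ℕ}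
    (nd : Noe A n e) (Sg : Finset (AbsoluteValue K ℝ)) {q q' : ℕ} (D : ℕ)
    (c : AbsoluteValue K ℝ → Fin (q + 1) → ℝ) (sig : Fin q' → ℝ) (E : SC K) (C₀ η : ℝ) {m : ℕ}
    (P₀ : A.Pts K) (P : Fin m → A.Pts K) (j : Fin m → ℕ)
    (Λ : Fin m → AbsoluteValue K ℝ →
      Matrix (Fin (q + 1)) (Fin (q + 1)) (MvPolynomial (Fin (N + 1)) K))
    (y : Fin m → Fin q' → Fin (q + 1) → K) : Prop where
  good : ∀ i, nd.Good (P i)
  hom : ∀ i, ∀ v ∈ Sg, ∀ k l, (Λ i v k l).IsHomogeneous D
  det : ∀ i, ∀ v ∈ Sg, aeval (A.x (P i)) (Λ i v).det ≠ 0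
  ht : ∀ i, ∀ v ∈ Sg, htM (Λ i v) ≤ 4 ^ j i
  ne : ∀ i s, y i s ≠ 0
  h₀ : C₀ ≤ A.h P₀
  near : ∀ i, A.h (P i - 2 ^ j i • P₀) ≤ η * (4 ^ j i * A.h P₀)
  hP : ∀ i, |A.h (P i) - 4 ^ j i * A.h P₀| ≤ η * (4 ^ j i * A.h P₀)
  loss : ∀ i, ∀ v ∈ Sg, lossM nd E v (P i) (Λ i v) ≤ η * (4 ^ j i * A.h P₀)
  size : ∀ i s, gs (sz Sg c (4 ^ j i * A.h P₀) (fun v => (Λ i v).map (aeval (A.x (P i))))
    (y i s)) ≤ (sig s + η) * (4 ^ j i * A.h P₀)

end Pool.Agent.Lib.MP_17a322_nt.SL
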