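import Pool.Agent.Lib.MP_17a322_nt.Mb

/-!
SL, part E: stripping a polynomial of variables (pure algebra).
-/

universe u

namespace Pool.Agent.Lib.MP_17a322_nt.SL

open MvPolynomial

/-- Setting the variables in `S` equal to zero. -/
noncomputable def E1_kill {ι : Type*} [DecidableEq ι] (R : Type*) [CommRing R] (S : Finset ι) :
    MvPolynomial ι R →ₐ[R] MvPolynomial ι R :=
  aeval fun j => if j ∈ S then 0 else X j

theorem E1_kill_mem {ι : Type*} [DecidableEq ι] {R : Type*} [CommRing R] {S : Finset ι} {j : ι}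
    (h : j ∈ S) : E1_kill R S (X j) = 0 := by
  unfold E1_kill
  rw [aeval_X, if_pos h]

theorem E1_kill_notMem {ι : Type*} [DecidableEq ι] {R : Type*} [CommRing R] {S : Finset ι} {j : ι}
    (h : j ∉ S) : E1_kill R S (X j) = X j := by
  unfold E1_kill
  rw [aeval_X, if_neg h]

theorem E1_kill_C {ι : Type*} [DecidableEq ι] {R : Type*} [CommRing R] {S : Finset ι} (c : R) :
    E1_kill R S (C c) = C c := by
  unfold E1_kill
  rw [aeval_C]
  rfl

theorem E1_kill_empty {ι : Type*} [DecidableEq ι] {R : Type*} [CommRing R] (x : MvPolynomial ι R) :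
    E1_kill R ∅ x = x := by
  have h : E1_kill (ι := ι) R ∅ = AlgHom.id R _ := by
    refine MvPolynomial.algHom_ext fun j => ?_
    rw [E1_kill_notMem (Finset.notMem_empty j)]
    rfl
  rw [h]
  rfl

theorem E1_kill_insert {ι : Type*} [DecidableEq ι] {R : Type*} [CommRing R] (S : Finset ι) (p : ι)
    (x : MvPolynomial ι R) : E1_kill R (insert p S) x = E1_kill R {p} (E1_kill R S x) := by
  have h : E1_kill (ι := ι) R (insert p S) = (E1_kill R {p}).comp (E1_kill R S) := by
    refine MvPolynomial.algHom_ext fun j => ?_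
    rw [AlgHom.comp_apply]
    by_cases hj : j ∈ S
    · rw [E1_kill_mem hj, map_zero, E1_kill_mem (Finset.mem_insert_of_mem hj)]
    · rw [E1_kill_notMem hj]
      by_cases hp : j = p
      · subst hp
        rw [E1_kill_mem (Finset.mem_insert_self j S), E1_kill_mem (Finset.mem_singleton_self j)]
      · rw [E1_kill_notMem, E1_kill_notMem]
        · rw [Finset.mem_singleton]
          exact hp
        · rw [Finset.mem_insert, not_or]
          exact ⟨hp, hj⟩
  rw [h]
  rfl

/-- Divisibility by a constant. -/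
theorem E1_dvd_of_mul {ι : Type*} [DecidableEq ι] {R : Type*} [CommRing R] (c : R) (j : ι) (e : ℕ)
    (G : MvPolynomial ι R) (h : C c ∣ X j ^ e * G) : C c ∣ G := by
  rw [MvPolynomial.C_dvd_iff_dvd_coeff] at h ⊢
  intro w
  have h1 := h (Finsupp.single j e + w)
  rw [X_pow_eq_monomial, coeff_monomial_mul, one_mul] at h1
  exact h1

/-- The part of a polynomial without the variable `x`. -/
noncomputable def E1_part {σ K : Type*} [Field K] (x : σ) (G : MvPolynomial σ K) :
    MvPolynomial σ K :=
  open Classical in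
  ∑ w ∈ G.support with w x = 0, monomial w (coeff w G)

theorem E1_coeff_part {σ K : Type*} [Field K] (x : σ) (G : MvPolynomial σ K) (w : σ →₀ ℕ) :
    coeff w (E1_part x G) = if w x = 0 then coeff w G else 0 := by
  classical
  unfold E1_part
  rw [coeff_sum]
  simp only [coeff_monomial]
  rw [Finset.sum_ite_eq' _ w]
  by_cases h : w x = 0
  · rw [if_pos h]
    by_cases hw : w ∈ G.support
    · rw [if_pos (Finset.mem_filter.mpr ⟨hw, h⟩)]
    · rw [if_neg (fun h' => hw (Finset.mem_filter.mp h').1)]
      exact (notMem_support_iff.mp hw).symm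
  · rw [if_neg h]
    exact if_neg fun h' : w ∈ G.support.filter (fun w => w x = 0) => h (Finset.mem_filter.mp h').2

theorem E1_aeval_part {σ K : Type*} [Field K] (x : σ) (G : MvPolynomial σ K) {R : Type*}
    [CommRing R] [Algebra K R] (ρ : σ → R) (hρ : ρ x = 0) :
    aeval ρ (E1_part x G) = aeval ρ G := by
  classical
  conv_rhs => rw [G.as_sum]
  unfold E1_part
  rw [map_sum, map_sum, Finset.sum_filter]
  refine Finset.sum_congr rfl fun w _ => ?_
  by_cases h : w x = 0
  · rw [if_pos h]
  · rw [if_neg h, aeval_monomial, Finsupp.prod, Finset.prod_eq_zero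
      (Finsupp.mem_support_iff.mpr h), mul_zero]
    rw [hρ, zero_pow h]

/-- One step. -/
theorem E1_step {σ K ι : Type*} [Field K] [DecidableEq ι] (x : σ) (G : MvPolynomial σ K)
    (hG : G ≠ 0) :
    ∃ (e : ℕ) (G₁ : MvPolynomial σ K), G₁ ≠ 0 ∧
      (∀ w : σ →₀ ℕ, coeff w G₁ = if w x = 0 then coeff (w + Finsupp.single x e) G else 0) ∧
      ∀ (R : Type*) [CommRing R] [Algebra K R] (c : R) (ρ : σ → MvPolynomial ι R) (j : ι),
        ρ x = X j → C c ∣ aeval ρ G → C c ∣ aeval (fun y => E1_kill R {j} (ρ y)) G₁ := by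
  classical
  obtain ⟨w₀, hw₀, hmin⟩ := Finset.exists_min_image G.support (fun w : σ →₀ ℕ => w x)
    (support_nonempty.mpr hG)
  have hG₀ : monomial (Finsupp.single x (w₀ x)) 1 * G.divMonomial (Finsupp.single x (w₀ x)) = G := by
    refine MvPolynomial.ext _ _ fun w => ?_
    rw [coeff_monomial_mul', one_mul]
    by_cases h : Finsupp.single x (w₀ x) ≤ w
    · rw [if_pos h, coeff_divMonomial, add_tsub_cancel_of_le h]
    · rw [if_neg h]
      by_contra hc
      have h1 := hmin w (mem_support_iff.mpr fun h' => hc h'.symm)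
      exact h (Finsupp.single_le_iff.mpr h1)
  refine ⟨w₀ x, E1_part x (G.divMonomial (Finsupp.single x (w₀ x))), ?_, ?_, ?_⟩
  · intro h
    have h1 := congrArg (coeff (w₀ - Finsupp.single x (w₀ x))) h
    rw [E1_coeff_part, coeff_zero, if_pos, coeff_divMonomial,
      add_tsub_cancel_of_le (Finsupp.single_le_iff.mpr le_rfl)] at h1
    · exact mem_support_iff.mp hw₀ h1
    · rw [Finsupp.tsub_apply, Finsupp.single_eq_same, Nat.sub_self]
  · intro w
    rw [E1_coeff_part, coeff_divMonomial, add_comm]
  · intro R _ _ c ρ j hρ hd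
    have h1 : aeval ρ G = X j ^ (w₀ x) * aeval ρ (G.divMonomial (Finsupp.single x (w₀ x))) := by
      conv_lhs => rw [← hG₀]
      rw [map_mul, aeval_monomial, map_one, one_mul,
        Finsupp.prod_single_index (h := fun i k => ρ i ^ k) (pow_zero _), hρ]
    rw [h1] at hd
    have h2 := E1_dvd_of_mul c j _ _ hd
    rw [E1_aeval_part]
    · have h3 : aeval (fun y => E1_kill R {j} (ρ y)) (G.divMonomial (Finsupp.single x (w₀ x))) =
          ((E1_kill R {j}).restrictScalars K) (aeval ρ
            (G.divMonomial (Finsupp.single x (w₀ x)))) := by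
        rw [← AlgHom.comp_apply, comp_aeval]
        rfl
      rw [h3]
      have h4 := map_dvd ((E1_kill R {j}).restrictScalars K) h2
      have h5 : ((E1_kill R {j}).restrictScalars K) (C c) = C c := E1_kill_C c
      rw [h5] at h4
      exact h4
    · rw [hρ, E1_kill_mem (Finset.mem_singleton_self j)]

/-- The variables `t p`, `p ∈ S`, are stripped off. -/
theorem E1_strip {σ K ι : Type*} [Field K] [DecidableEq ι] (t : ι → σ) (F : MvPolynomial σ K) (hF : F ≠ 0) (S : Finset ι) :
    ∃ (e : σ →₀ ℕ) (F₁ : MvPolynomial σ K), F₁ ≠ 0 ∧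
      (∀ w : σ →₀ ℕ, coeff w F₁ ≠ 0 → ∀ p ∈ S, w (t p) = 0) ∧
      (∀ w : σ →₀ ℕ, coeff w F₁ ≠ 0 → coeff w F₁ = coeff (w + e) F) ∧
      ∀ (R : Type*) [CommRing R] [Algebra K R] (c : R) (ρ : σ → MvPolynomial ι R),
        (∀ p ∈ S, ρ (t p) = X p) → C c ∣ aeval ρ F →
          C c ∣ aeval (fun y => E1_kill R S (ρ y)) F₁ := by
  classical
  induction S using Finset.induction_on with
  | empty =>
    refine ⟨0, F, hF, fun w _ p hp => absurd hp (Finset.notMem_empty p), fun w _ => ?_, ?_⟩
    · rw [add_zero]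
    · intro R _ _ c ρ _ hd
      simp only [E1_kill_empty]
      exact hd
  | insert p S hp ih =>
    obtain ⟨e, F₁, hF₁, h1, h2, h3⟩ := ih
    obtain ⟨e', F₂, hF₂, h4, h5⟩ := E1_step (ι := ι) (t p) F₁ hF₁
    refine ⟨Finsupp.single (t p) e' + e, F₂, hF₂, ?_, ?_, ?_⟩
    · intro w hw p' hp'
      have hw' : w (t p) = 0 := by
        by_contra hc
        apply hw
        rw [h4, if_neg hc]
      rw [Finset.mem_insert] at hp'
      rcases hp' with rfl | hp'
      · exact hw'
      · rw [h4, if_pos hw'] at hw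
        have h6 := h1 _ hw p' hp'
        rw [Finsupp.add_apply] at h6
        omega
    · intro w hw
      have hw' : w (t p) = 0 := by
        by_contra hc
        apply hw
        rw [h4, if_neg hc]
      rw [h4, if_pos hw'] at hw ⊢
      rw [h2 _ hw, add_assoc]
    · intro R _ _ c ρ hρ hd
      have h6 := h3 R c ρ (fun p' hp' => hρ p' (Finset.mem_insert_of_mem hp')) hd
      have h7 := h5 R c (fun y => E1_kill R S (ρ y)) p (by
        rw [hρ p (Finset.mem_insert_self p S), E1_kill_notMem hp]) h6
      have h8 : (fun y => E1_kill R {p} (E1_kill R S (ρ y))) =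
          fun y => E1_kill R (insert p S) (ρ y) := by
        funext y
        rw [E1_kill_insert]
      rw [h8] at h7
      exact h7

end Pool.Agent.Lib.MP_17a322_nt.SL
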