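import Pool.Agent.Lib.MP_17a322_nt.SL.Defs
import Pool.Agent.Lib.MP_17a322_nt.SL.CA
import Pool.Agent.Lib.MP_17a322_nt.SL.E1
import Pool.Agent.Lib.MP_17a322_nt.VP.E06c

/-!
SL, part E: dehomogenisation of the stripped polynomial.
-/

universe u

namespace Pool.Agent.Lib.MP_17a322_nt.SL

open MvPolynomial Height
open Pool.Agent.Lib.MP_17a322_nt.RO
open Pool.Agent.Lib.MP_17a322_nt.VJ
open Pool.Agent.Lib.MP_17a322_nt.VN
open Pool.Agent.Lib.MP_17a322_nt.VA
open Pool.Agent.Lib.MP_17a322_nt.VP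

/-- The coefficients of `G` are coefficients of `F`. -/
theorem E2_NV {K : Type*} [Field K] {σ τ : Type*} (v : AbsoluteValue K ℝ)
    (G : MvPolynomial τ K) (F : MvPolynomial σ K) (f : (τ →₀ ℕ) → (σ →₀ ℕ))
    (hf : Set.InjOn f G.support) (h : ∀ w ∈ G.support, coeff w G = coeff (f w) F) :
    NV v G ≤ NV v F := by
  classical
  by_cases hna : IsNonarchimedean v
  · have h1 := NV_le_of_coeff v G (SN_NV v |>.nonneg F) (fun w => by
      by_cases hw : w ∈ G.support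
      · rw [h w hw]
        exact coeff_le_NV v F _
      · rw [notMem_support_iff.mp hw, map_zero]
        exact (SN_NV v).nonneg F)
    rw [cst, if_pos hna, one_mul] at h1
    exact h1
  · unfold NV
    rw [if_neg hna, if_neg hna]
    have h1 : ∑ w ∈ G.support, v (coeff w G) = ∑ w ∈ G.support.image f, v (coeff w F) := by
      rw [Finset.sum_image hf]
      exact Finset.sum_congr rfl fun w hw => by rw [h w hw]
    rw [h1]
    refine Finset.sum_le_sum_of_subset_of_nonneg ?_ fun w _ _ => v.nonneg _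
    intro w hw
    rw [Finset.mem_image] at hw
    obtain ⟨w', hw', rfl⟩ := hw
    rw [mem_support_iff, ← h w' hw']
    exact mem_support_iff.mp hw'

theorem E2_nh {K : Type*} [Field K] [AdmissibleAbsValues K] {σ τ : Type*}
    (G : MvPolynomial τ K) (F : MvPolynomial σ K) (hG : G ≠ 0) (hF : F ≠ 0)
    (f : (τ →₀ ℕ) → (σ →₀ ℕ))
    (hf : Set.InjOn f G.support) (h : ∀ w ∈ G.support, coeff w G = coeff (f w) F) :
    nh G ≤ nh F := by
  unfold nh
  exact gs_le (FS_log_NV hG) (FS_log_NV hF) fun v _ =>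
    Real.log_le_log (NV_pos v hG) (E2_NV v G F f hf h)

/-- Dehomogenisation. -/
noncomputable def E2_chi (K : Type*) [Field K] {m n q : ℕ} (l₀ l₁ : Fin (q + 1)) :
    VQ m n (q + 1) → MvPolynomial (VF m n) K :=
  vq (fun a => X (VF.x a)) (fun i => X (VF.th i)) (fun p => X (VF.z p))
    fun p => if p.2 = l₀ then X (VF.u p.1) else if p.2 = l₁ then 1 else 0

/-- The exponents after dehomogenisation. -/
noncomputable def E2_pi {m n q : ℕ} (l₀ : Fin (q + 1)) (w : VQ m n (q + 1) →₀ ℕ) : VF m n →₀ ℕ :=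
  Finsupp.equivFunOnFinite.symm (vf (fun a => w (VQ.x a)) (fun i => w (VQ.th i))
    (fun p => w (VQ.z p)) fun i => w (VQ.u (i, l₀)))

theorem E2_mon {K : Type*} [Field K] {m n q : ℕ} (l₀ l₁ : Fin (q + 1))
    (w : VQ m n (q + 1) →₀ ℕ)
    (hw : ∀ p : Fin m × Fin (q + 1), p.2 ≠ l₀ → p.2 ≠ l₁ → w (VQ.u p) = 0) (c : K) :
    aeval (E2_chi K l₀ l₁) (monomial w c) = monomial (E2_pi l₀ w) c := by
  have h1 : (monomial (E2_pi l₀ w) c : MvPolynomial (VF m n) K) =
      C c * ∏ y, X y ^ E2_pi l₀ w y := by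
    rw [monomial_eq, Finsupp.prod_fintype _ _ fun _ => pow_zero _]
  rw [aeval_monomial, Finsupp.prod_fintype _ _ fun _ => pow_zero _, h1, CQ_prod, C_prodVF]
  have h2 : ∏ p : Fin m × Fin (q + 1), E2_chi K (n := n) l₀ l₁ (VQ.u p) ^ w (VQ.u p) =
      ∏ i, X (VF.u i) ^ w (VQ.u (i, l₀)) := by
    rw [Fintype.prod_prod_type]
    refine Finset.prod_congr rfl fun i _ => ?_
    rw [Finset.prod_eq_single l₀]
    · show (if l₀ = l₀ then X (VF.u i) else if l₀ = l₁ then 1 else 0 : MvPolynomial (VF m n) K) ^ _ =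
        _
      rw [if_pos rfl]
    · intro l _ hl
      by_cases hl1 : l = l₁
      · show (if l = l₀ then X (VF.u i) else if l = l₁ then 1 else 0 :
          MvPolynomial (VF m n) K) ^ _ = _
        rw [if_neg hl, if_pos hl1, one_pow]
      · rw [hw (i, l) hl hl1, pow_zero]
    · intro h
      exact absurd (Finset.mem_univ _) h
  rw [h2]
  rfl

/-- `E2_pi` is injective on the monomials of given degrees in the blocks. -/
theorem E2_pi_inj {m n q : ℕ} {l₀ l₁ : Fin (q + 1)} (hl : l₀ ≠ l₁) (k : Fin m → ℕ)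
    {w w' : VQ m n (q + 1) →₀ ℕ}
    (hw : ∀ p : Fin m × Fin (q + 1), p.2 ≠ l₀ → p.2 ≠ l₁ → w (VQ.u p) = 0)
    (hw' : ∀ p : Fin m × Fin (q + 1), p.2 ≠ l₀ → p.2 ≠ l₁ → w' (VQ.u p) = 0)
    (hk : ∀ i, ∑ l, w (VQ.u (i, l)) = k i) (hk' : ∀ i, ∑ l, w' (VQ.u (i, l)) = k i)
    (h : E2_pi l₀ w = E2_pi l₀ w') : w = w' := by
  have hs : ∀ w : VQ m n (q + 1) →₀ ℕ,
      (∀ p : Fin m × Fin (q + 1), p.2 ≠ l₀ → p.2 ≠ l₁ → w (VQ.u p) = 0) →
      ∀ i, ∑ l, w (VQ.u (i, l)) = w (VQ.u (i, l₀)) + w (VQ.u (i, l₁)) := by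
    intro w hw i
    exact Fintype.sum_eq_add l₀ l₁ hl fun l hl' => hw (i, l) hl'.1 hl'.2
  ext t
  rcases t with a | i | p | p
  · exact DFunLike.congr_fun h (VF.x a)
  · exact DFunLike.congr_fun h (VF.th i)
  · exact DFunLike.congr_fun h (VF.z p)
  · obtain ⟨i, l⟩ := p
    have h0 : w (VQ.u (i, l₀)) = w' (VQ.u (i, l₀)) := DFunLike.congr_fun h (VF.u i)
    by_cases hl0 : l = l₀
    · rw [hl0]
      exact h0
    · by_cases hl1 : l = l₁
      · subst hl1
        have h1 := hk i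
        have h2 := hk' i
        rw [hs w hw] at h1
        rw [hs w' hw'] at h2
        omega
      · rw [hw (i, l) hl0 hl1, hw' (i, l) hl0 hl1]

/-- The dehomogenised polynomial. -/
theorem E2_deh {K : Type*} [Field K] {m n q : ℕ} {l₀ l₁ : Fin (q + 1)} (hl : l₀ ≠ l₁)
    (k : Fin m → ℕ) (F₁ : MvPolynomial (VQ m n (q + 1)) K)
    (hw : ∀ w ∈ F₁.support, ∀ p : Fin m × Fin (q + 1), p.2 ≠ l₀ → p.2 ≠ l₁ → w (VQ.u p) = 0)
    (hk : ∀ w ∈ F₁.support, ∀ i, ∑ l, w (VQ.u (i, l)) = k i) :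
    (∀ w ∈ F₁.support, coeff (E2_pi l₀ w) (aeval (E2_chi K l₀ l₁) F₁) = coeff w F₁) ∧
      ∀ v ∈ (aeval (E2_chi K l₀ l₁) F₁).support, ∃ w ∈ F₁.support, E2_pi l₀ w = v := by
  classical
  have h1 : aeval (E2_chi K l₀ l₁) F₁ =
      ∑ w ∈ F₁.support, monomial (E2_pi l₀ w) (coeff w F₁) := by
    conv_lhs => rw [F₁.as_sum]
    rw [map_sum]
    exact Finset.sum_congr rfl fun w hw' => E2_mon l₀ l₁ w (hw w hw') _
  refine ⟨fun w hw' => ?_, fun v hv => ?_⟩
  · rw [h1, coeff_sum, Finset.sum_eq_single w]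
    · rw [coeff_monomial, if_pos rfl]
    · intro w₂ hw₂ hne
      rw [coeff_monomial, if_neg]
      intro h
      exact hne (E2_pi_inj hl k (hw _ hw₂) (hw _ hw') (hk _ hw₂) (hk _ hw') h)
    · intro h
      exact absurd hw' h
  · by_contra hcon
    push Not at hcon
    rw [mem_support_iff, h1, coeff_sum] at hv
    apply hv
    refine Finset.sum_eq_zero fun w hw' => ?_
    rw [coeff_monomial, if_neg (hcon w hw')]

end Pool.Agent.Lib.MP_17a322_nt.SL
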