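import Pool.Agent.Lib.MP_17a322_nt.SL.E2

/-!
SL, part E: the zero estimate.
-/

universe u

namespace Pool.Agent.Lib.MP_17a322_nt.SL

open MvPolynomial Height
open Pool.Agent.Lib.MP_17a322_nt.RO
open Pool.Agent.Lib.MP_17a322_nt.VJ
open Pool.Agent.Lib.MP_17a322_nt.VN
open Pool.Agent.Lib.MP_17a322_nt.VA
open Pool.Agent.Lib.MP_17a322_nt.VP

/-- Divisibility after the substitution. -/
theorem E3_dvd {L ι : Type*} [Field L] {m q : ℕ} (j : Fin m → ℕ)
    (Φ : MvPolynomial (Fin m × Fin (q + 1)) (PowerSeries L)) (T : ℕ)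
    (W : Fin m × Fin (q + 1) → MvPolynomial ι (PowerSeries L))
    (hW : ∀ i, C (PowerSeries.X ^ (4 ^ j i)) ∣ W (i, Fin.last q))
    (h : ∀ (a : ℕ) (w : Fin m × Fin (q + 1) →₀ ℕ), a + ∑ i, 4 ^ j i * w (i, Fin.last q) < T →
      PowerSeries.coeff a (coeff w Φ) = 0) :
    C (PowerSeries.X ^ T) ∣ aeval W Φ := by
  classical
  conv_rhs => rw [Φ.as_sum]
  rw [map_sum]
  refine Finset.dvd_sum fun w _ => ?_
  rw [aeval_monomial, Finsupp.prod_fintype _ _ fun _ => pow_zero _]
  have h1 : PowerSeries.X ^ (T - ∑ i, 4 ^ j i * w (i, Fin.last q)) ∣ coeff w Φ := by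
    rw [PowerSeries.X_pow_dvd_iff]
    intro a ha
    exact h a w (by omega)
  have h2 : C (PowerSeries.X ^ (∑ i, 4 ^ j i * w (i, Fin.last q))) ∣
      ∏ p : Fin m × Fin (q + 1), W p ^ w p := by
    rw [Fintype.prod_prod_type, ← Finset.prod_pow_eq_pow_sum, map_prod]
    refine Finset.prod_dvd_prod_of_dvd _ _ fun i _ => ?_
    rw [pow_mul, map_pow]
    refine (pow_dvd_pow_of_dvd (hW i) _).trans ?_
    exact Finset.dvd_prod_of_mem (fun s => W (i, s) ^ w (i, s)) (Finset.mem_univ (Fin.last q))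
  have h3 : (C (PowerSeries.X ^ T) : MvPolynomial ι (PowerSeries L)) ∣
      C (PowerSeries.X ^ (T - ∑ i, 4 ^ j i * w (i, Fin.last q))) *
        C (PowerSeries.X ^ (∑ i, 4 ^ j i * w (i, Fin.last q))) := by
    rw [← C_mul, ← pow_add]
    exact map_dvd C (pow_dvd_pow _ (by omega))
  refine h3.trans (mul_dvd_mul ?_ h2)
  exact map_dvd C h1

/-- The inverse matrix and the hyperplane. -/
theorem E3_inv {K : Type*} [Field K] {q : ℕ} (y : Fin (q + 1) → Fin (q + 1) → K)
    (hy : LinearIndependent K y) (μ : Fin (q + 1) → K) (l₀ : Fin (q + 1)) (hμ : μ l₀ = 1)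
    (hz : ∀ s, s ≠ Fin.last q → ∑ l, μ l * y s l = 0) :
    ∃ (z : Fin (q + 1) → Fin (q + 1) → K) (ν : K),
      (∀ l l', ∑ s, y s l * z l' s = if l = l' then 1 else 0) ∧
      ∀ l, z l (Fin.last q) = ν * μ l := by
  classical
  obtain ⟨Y, hY⟩ : ∃ Y : Matrix (Fin (q + 1)) (Fin (q + 1)) K, Y = Matrix.of y := ⟨_, rfl⟩
  have hu : IsUnit Y := by
    rw [← Matrix.linearIndependent_rows_iff_isUnit, hY]
    exact hy
  have hdet : IsUnit Y.det := (Matrix.isUnit_iff_isUnit_det Y).mp hu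
  have h1 : Y⁻¹ * Y = 1 := Matrix.nonsing_inv_mul Y hdet
  refine ⟨fun l s => Y⁻¹ l s, (∑ l, μ l * y (Fin.last q) l)⁻¹, ?_, ?_⟩
  · intro l l'
    have h2 := congrFun (congrFun h1 l') l
    rw [Matrix.mul_apply, Matrix.one_apply] at h2
    rw [show (if l = l' then (1 : K) else 0) = if l' = l then 1 else 0 by simp only [eq_comm], ← h2]
    refine Finset.sum_congr rfl fun s _ => ?_
    rw [hY, Matrix.of_apply, mul_comm]
  · intro l
    have h3 : Y.mulVec μ = fun s => if s = Fin.last q then ∑ l, μ l * y (Fin.last q) l else 0 := by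
      funext s
      by_cases hs : s = Fin.last q
      · rw [if_pos hs, Matrix.mulVec, dotProduct, hs]
        refine Finset.sum_congr rfl fun l _ => ?_
        rw [hY, Matrix.of_apply, mul_comm]
      · rw [if_neg hs, ← hz s hs, Matrix.mulVec, dotProduct]
        refine Finset.sum_congr rfl fun l _ => ?_
        rw [hY, Matrix.of_apply, mul_comm]
    have h4 : μ = Y⁻¹.mulVec (Y.mulVec μ) := by
      rw [Matrix.mulVec_mulVec, h1, Matrix.one_mulVec]
    have h5 : ∀ l, μ l = Y⁻¹ l (Fin.last q) * ∑ l, μ l * y (Fin.last q) l := by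
      intro l
      conv_lhs => rw [h4, h3]
      rw [Matrix.mulVec, dotProduct, Finset.sum_eq_single (Fin.last q)]
      · rw [if_pos rfl]
      · intro s _ hs
        rw [if_neg hs, mul_zero]
      · intro h
        exact absurd (Finset.mem_univ _) h
    have h6 : ∑ l, μ l * y (Fin.last q) l ≠ 0 := by
      intro h
      have h7 := h5 l₀
      rw [h, mul_zero, hμ] at h7
      exact one_ne_zero h7
    rw [h5 l, mul_comm, mul_assoc, mul_inv_cancel₀ h6, mul_one]

end Pool.Agent.Lib.MP_17a322_nt.SL
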