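import Pool.Agent.Lib.MP_17a322_nt.SL.E3

/-!
SL, part E: the zero estimate.
-/

universe u

namespace Pool.Agent.Lib.MP_17a322_nt.SL

open MvPolynomial Height
open Pool.Agent.Lib.MP_17a322_nt.RO
open Pool.Agent.Lib.MP_17a322_nt.VJ
open Pool.Agent.Lib.MP_17a322_nt.VN
open Pool.Agent.Lib.MP_17a322_nt.VA
open Pool.Agent.Lib.MP_17a322_nt.VP

/-- The homogeneous coordinates on the moved hyperplane. -/
noncomputable def E4_U {K L : Type*} [Field K] [Field L] [Algebra K L] {m q : ℕ}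
    (μ : Fin m → Fin (q + 1) → K) (z : Fin m → PowerSeries L) (l₀ l₁ : Fin (q + 1))
    (p : Fin m × Fin (q + 1)) : MvPolynomial (Fin m × Fin (q + 1)) (PowerSeries L) :=
  X p + if p.2 = l₀ then (C (z p.1) * X (p.1, l₁) -
    ∑ l, C (PowerSeries.C (algebraMap K L (μ p.1 l))) * X (p.1, l)) else 0

theorem E4_mu {K L : Type*} [Field K] [Field L] [Algebra K L] {m q : ℕ}
    (μ : Fin m → Fin (q + 1) → K) (z : Fin m → PowerSeries L) (l₀ l₁ : Fin (q + 1)) (i : Fin m)
    (hμ : μ i l₀ = 1) :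
    ∑ l, C (PowerSeries.C (algebraMap K L (μ i l))) * E4_U μ z l₀ l₁ (i, l) =
      C (z i) * X (i, l₁) := by
  unfold E4_U
  simp only [mul_add, Finset.sum_add_distrib, mul_ite, mul_zero]
  rw [Finset.sum_ite_eq' Finset.univ l₀, if_pos (Finset.mem_univ _), hμ]
  simp only [map_one, one_mul]
  ring

/-- Strip and dehomogenise. -/
noncomputable def E4_ev {K L : Type*} [Field K] [Field L] [Algebra K L] {m q : ℕ}
    (S : Finset (Fin m × Fin (q + 1))) :
    MvPolynomial (Fin m × Fin (q + 1)) (PowerSeries L) →ₐ[K] PowerSeries L :=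
  ((aeval fun _ => (1 : PowerSeries L)).restrictScalars K).comp
    ((E1_kill (PowerSeries L) S).restrictScalars K)

theorem E4_ev_C {K L : Type*} [Field K] [Field L] [Algebra K L] {m q : ℕ}
    (S : Finset (Fin m × Fin (q + 1))) (c : PowerSeries L) :
    E4_ev (K := K) S (C c) = c := by
  unfold E4_ev
  rw [AlgHom.comp_apply]
  show aeval (fun _ => (1 : PowerSeries L)) (E1_kill (PowerSeries L) S (C c)) = c
  rw [E1_kill_C, aeval_C]
  rfl

theorem E4_ev_X {K L : Type*} [Field K] [Field L] [Algebra K L] {m q : ℕ}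
    (S : Finset (Fin m × Fin (q + 1))) (p : Fin m × Fin (q + 1)) :
    E4_ev (K := K) (L := L) S (X p) = if p ∈ S then 0 else 1 := by
  unfold E4_ev
  rw [AlgHom.comp_apply]
  show aeval (fun _ => (1 : PowerSeries L)) (E1_kill (PowerSeries L) S (X p)) = _
  by_cases hp : p ∈ S
  · rw [E1_kill_mem hp, map_zero, if_pos hp]
  · rw [E1_kill_notMem hp, aeval_X, if_neg hp]

/-- The values. -/
theorem E4_ev_U {K L : Type*} [Field K] [Field L] [Algebra K L] {m q : ℕ}
    (μ : Fin m → Fin (q + 1) → K) (z : Fin m → PowerSeries L) {l₀ l₁ : Fin (q + 1)}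
    (hl : l₀ ≠ l₁) (hμ : ∀ i, μ i l₀ = 1) (S : Finset (Fin m × Fin (q + 1)))
    (hS : ∀ p, p ∈ S ↔ p.2 ≠ l₀ ∧ p.2 ≠ l₁) (p : Fin m × Fin (q + 1)) :
    E4_ev (K := K) S (E4_U μ z l₀ l₁ p) = if p.2 = l₀ then
      PowerSeries.C (algebraMap K L (- μ p.1 l₁)) + z p.1 else if p.2 = l₁ then 1 else 0 := by
  obtain ⟨i, l⟩ := p
  unfold E4_U
  rw [map_add, E4_ev_X]
  by_cases h0 : l = l₀
  · have h1 : ((i, l) : Fin m × Fin (q + 1)) ∉ S := by
      rw [hS]
      exact fun h => h.1 h0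
    have h2 : ((i, l₁) : Fin m × Fin (q + 1)) ∉ S := by
      rw [hS]
      exact fun h => h.2 rfl
    rw [if_neg h1]
    show 1 + E4_ev (K := K) S (if l = l₀ then _ else 0) = if l = l₀ then _ else _
    rw [if_pos h0, if_pos h0, map_sub, map_mul, E4_ev_C, E4_ev_X]
    show 1 + (z i * (if ((i, l₁) : Fin m × Fin (q + 1)) ∈ S then 0 else 1) - _) = _
    rw [if_neg h2, mul_one, map_sum]
    have h3 : ∀ l', E4_ev (K := K) (L := L) S (C (PowerSeries.C (algebraMap K L (μ i l'))) *
        X (i, l')) = PowerSeries.C (algebraMap K L (μ i l')) *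
          if l' ≠ l₀ ∧ l' ≠ l₁ then 0 else 1 := by
      intro l'
      rw [map_mul, E4_ev_C, E4_ev_X]
      congr 1
      by_cases hS' : ((i, l') : Fin m × Fin (q + 1)) ∈ S
      · rw [if_pos hS', if_pos ((hS _).mp hS')]
      · rw [if_neg hS', if_neg fun h => hS' ((hS _).mpr h)]
    rw [Finset.sum_congr rfl fun l' _ => h3 l', Fintype.sum_eq_add l₀ l₁ hl]
    · rw [if_neg (fun h => h.1 rfl), if_neg (fun h => h.2 rfl), mul_one, mul_one, hμ, map_one,
        map_one, map_neg, map_neg]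
      show 1 + (z i - _) = _ + z i
      ring
    · intro l' hl'
      rw [if_pos hl', mul_zero]
  · show (if ((i, l) : Fin m × Fin (q + 1)) ∈ S then 0 else 1) + E4_ev (K := K) S
      (if l = l₀ then _ else 0) = if l = l₀ then _ else if l = l₁ then 1 else 0
    rw [if_neg h0, if_neg h0, map_zero, add_zero]
    by_cases h1 : l = l₁
    · rw [if_pos h1, if_neg]
      rw [hS]
      exact fun h => h.2 h1
    · rw [if_neg h1, if_pos]
      rw [hS]
      exact ⟨h0, h1⟩

theorem E4_vM {K : Type u} [Field K] {N : ℕ} {A : AV K N} {n e : ℕ} (nd : Noe A n e) {m q : ℕ}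
    {R R' : Type*} [CommRing R] [Algebra K R] [CommRing R'] [Algebra K R'] (g : R →ₐ[K] R')
    (Y : Fin (N + 1) → R) (η : Fin m → Fin (N + 1) → R) (U : Fin m × Fin q → R) (t : VQ m n q) :
    g (vM nd Y η U t) = vM nd (fun a => g (Y a)) (fun i a => g (η i a)) (fun p => g (U p)) t := by
  rcases t with a | i | p | p
  · exact lf_map g _ _
  · show g (aeval (η i) nd.θ) = aeval (fun a => g (η i a)) nd.θ
    rw [← AlgHom.comp_apply, comp_aeval]
  · exact lf_map g _ _
  · rfl

/-- E part: the zero estimate. The last vector of `y i` is transversal to the hyperplane with coordinates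
`μ i`, the other vectors span the hyperplane. -/
theorem EPN {K : Type u} [Field K] [NumberField K] {N : ℕ} (A : AV K N) {n e : ℕ} (nd : Noe A n e)
    (m : ℕ) (hm : 0 < m) (q : ℕ) (s B : ℝ) (hs : 0 < s) (hB : 0 ≤ B) :
    ∃ (D' R₀ : ℕ) (B' : ℝ), 0 ≤ B' ∧ ∀ (P : Fin m → A.Pts K) (j : Fin m → ℕ)
      (l₀ l₁ : Fin (q + 1)) (y : Fin m → Fin (q + 1) → Fin (q + 1) → K)
      (μ : Fin m → Fin (q + 1) → K) (F : MvPolynomial (VQ m n (q + 1)) K) (k : Fin m → ℕ)
      (b : ℝ) (I : Finset (Fin m → Fin (q + 1) → ℕ)), l₀ ≠ l₁ →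
      (∀ i, LinearIndependent K (y i)) → (∀ i, μ i l₀ = 1) →
      (∀ i s, s ≠ Fin.last q → ∑ l, μ i l * y i s l = 0) →
      (∀ i i', i < i' → R₀ * 4 ^ j i ≤ 4 ^ j i') →
      (∀ i, nd.Good (P i)) → BdF nd j k B b I F →
      (∀ i, (4 : ℝ) ^ j i * k i ≤ b) → (∀ i, (4 : ℝ) ^ j i ≤ b) →
      (∃ (i : Fin m) (G : MvPolynomial (Option (Fin n)) K), G ≠ 0 ∧ (∀ y, G.degreeOf y ≤ D') ∧
        nh G ≤ B' * 4 ^ j i ∧
        eval (fun y : Option (Fin n) => y.elim (- μ i l₁) (nd.s (P i))) G = 0) ∨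
      ∃ g : MvPolynomial (Fin n ⊕ Fin m × Option (Fin n)) K, g ≠ 0 ∧
        ∀ (L : Type u) [Field L] [NumberField L] [Algebra K L] (Y : Fin (N + 1) → L)
          (ζ : Fin m × Option (Fin n) → L) (x η : Fin m → Fin (N + 1) → PowerSeries L),
          PthM nd P j Y ζ x η →
          aeval (Sum.elim (fun k => lf (nd.l k.succ) Y) ζ) g ≠ 0 →
          ∃ (a : ℕ) (w : Fin m × Fin (q + 1) →₀ ℕ),
            (a : ℝ) + ∑ i, (4 : ℝ) ^ j i * (w (i, Fin.last q) : ℝ) < s * b ∧
            PowerSeries.coeff a (coeff w (vlN nd y Y η F)) ≠ 0 := by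
  classical
  obtain ⟨D', R₀, B', hB', hEP⟩ := EP A nd m hm s B hs hB
  refine ⟨D', R₀, B', hB', ?_⟩
  intro P j l₀ l₁ y μ F k b I hl hy hμ hz hj hP hF hkb hjb
  -- the stripped polynomial
  obtain ⟨S, hS⟩ : ∃ S : Finset (Fin m × Fin (q + 1)), ∀ p, p ∈ S ↔ p.2 ≠ l₀ ∧ p.2 ≠ l₁ :=
    ⟨Finset.univ.filter fun p => p.2 ≠ l₀ ∧ p.2 ≠ l₁, fun p => by
      rw [Finset.mem_filter]
      exact ⟨fun h => h.2, fun h => ⟨Finset.mem_univ _, h⟩⟩⟩
  obtain ⟨e', F₁, hF₁, h1, h2, h3⟩ := E1_strip (VQ.u : Fin m × Fin (q + 1) → VQ m n (q + 1)) F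
    hF.ne S
  have hsupp : ∀ w ∈ F₁.support, w + e' ∈ F.support := fun w hw => by
    rw [mem_support_iff] at hw ⊢
    rw [← h2 w hw]
    exact hw
  have hw0 : ∀ w ∈ F₁.support, ∀ p : Fin m × Fin (q + 1), p.2 ≠ l₀ → p.2 ≠ l₁ →
      w (VQ.u p) = 0 := fun w hw p hp0 hp1 =>
    h1 w (mem_support_iff.mp hw) p ((hS p).mpr ⟨hp0, hp1⟩)
  have hk1 : ∀ w ∈ F₁.support, ∀ i, ∑ l, w (VQ.u (i, l)) = k i - ∑ l, e' (VQ.u (i, l)) := by
    intro w hw i
    have h4 := hF.u (w + e') (hsupp w hw) i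
    simp only [Finsupp.add_apply, Finset.sum_add_distrib] at h4
    omega
  obtain ⟨h5, h6⟩ := E2_deh hl _ F₁ hw0 hk1
  obtain ⟨F', hF'⟩ : ∃ F', F' = aeval (E2_chi K (n := n) l₀ l₁) F₁ := ⟨_, rfl⟩
  rw [← hF'] at h5 h6
  have hF'0 : F' ≠ 0 := by
    obtain ⟨w, hw⟩ := support_nonempty.mpr hF₁
    intro h
    have h7 := h5 w hw
    rw [h, coeff_zero] at h7
    exact mem_support_iff.mp hw h7.symm
  have hnh : nh F' ≤ nh F := by
    refine (?_ : nh F' ≤ nh F₁).trans ?_
    · choose! f hf1 hf2 using h6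
      refine E2_nh F' F₁ hF'0 hF₁ f ?_ ?_
      · intro v hv v' hv' h
        rw [← hf2 v hv, ← hf2 v' hv', h]
      · intro v hv
        conv_lhs => rw [← hf2 v hv]
        exact h5 _ (hf1 v hv)
    · exact E2_nh F₁ F hF₁ hF.ne (fun w => w + e') (fun w _ w' _ h => add_right_cancel h)
        fun w hw => h2 w (mem_support_iff.mp hw)
  -- degrees
  have hdeg : ∀ (t : VF m n) (t' : VQ m n (q + 1)), (∀ w, E2_pi l₀ w t = w t') →
      F'.degreeOf t ≤ F.degreeOf t' := by
    intro t t' htt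
    rw [degreeOf_le_iff]
    intro v hv
    obtain ⟨w, hw, rfl⟩ := h6 v hv
    rw [htt]
    have h8 := (degreeOf_le_iff.mp (le_refl (F.degreeOf t'))) _ (hsupp w hw)
    rw [Finsupp.add_apply] at h8
    omega
  have hu : ∀ i, F'.degreeOf (VF.u i) ≤ k i := by
    intro i
    rw [degreeOf_le_iff]
    intro v hv
    obtain ⟨w, hw, rfl⟩ := h6 v hv
    have h8 := hk1 w hw i
    have h9 : w (VQ.u (i, l₀)) ≤ ∑ l, w (VQ.u (i, l)) :=
      Finset.single_le_sum (f := fun l => w (VQ.u (i, l))) (fun _ _ => Nat.zero_le _)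
        (Finset.mem_univ l₀)
    show w (VQ.u (i, l₀)) ≤ k i
    omega
  have hEP' := hEP P j (fun i => - μ i l₁) F' b hj hP hF'0
    (fun i => (hdeg (VF.th i) (VQ.th i) fun _ => rfl).trans_lt (hF.th i))
    (fun a => (Nat.cast_le.mpr (hdeg (VF.x a) (VQ.x a) fun _ => rfl)).trans (hF.x a))
    (fun p => (mul_le_mul_of_nonneg_left (Nat.cast_le.mpr (hdeg (VF.z p) (VQ.z p) fun _ => rfl))
      (by positivity)).trans (hF.z p))
    (fun i => (mul_le_mul_of_nonneg_left (Nat.cast_le.mpr (hu i)) (by positivity)).trans (hkb i))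
    hjb (hnh.trans hF.nh)
  rcases hEP' with h | ⟨g, hg, hval⟩
  · exact Or.inl h
  · right
    refine ⟨g, hg, ?_⟩
    intro L _ _ _ Y ζ x η hpth hgY
    by_contra hcon
    push Not at hcon
    obtain ⟨a, ha, hane⟩ := hval L Y ζ x η hpth.isPt hpth.lf0 hgY hpth.blk
    apply hane
    obtain ⟨T, hT⟩ : ∃ T : ℕ, T = ⌈s * b⌉₊ := ⟨_, rfl⟩
    have haT : a < T := by
      rw [hT]
      exact Nat.lt_ceil.mpr ha
    suffices hdv : PowerSeries.X ^ T ∣ vl nd j (fun i => - μ i l₁) Y ζ η F' from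
      PowerSeries.X_pow_dvd_iff.mp hdv a haT
    choose z ν hz1 hz2 using fun i => E3_inv (y i) (hy i) (μ i) l₀ (hμ i) (hz i)
    obtain ⟨zz, hzz⟩ : ∃ zz : Fin m → PowerSeries L,
      zz = fun i => PowerSeries.C (ζ (i, none)) * PowerSeries.X ^ 4 ^ j i := ⟨_, rfl⟩
    obtain ⟨U, hU⟩ : ∃ U : Fin m × Fin (q + 1) → MvPolynomial (Fin m × Fin (q + 1))
      (PowerSeries L), U = E4_U μ zz l₀ l₁ := ⟨_, rfl⟩
    obtain ⟨W, hW⟩ : ∃ W : Fin m × Fin (q + 1) → MvPolynomial (Fin m × Fin (q + 1))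
      (PowerSeries L), W = fun p => ∑ l, C (PowerSeries.C (algebraMap K L (z p.1 l p.2))) *
        U (p.1, l) := ⟨_, rfl⟩
    have hWlast : ∀ i, C (PowerSeries.X ^ (4 ^ j i)) ∣ W (i, Fin.last q) := by
      intro i
      have h8 : W (i, Fin.last q) = C (PowerSeries.C (algebraMap K L (ν i))) *
          (C (zz i) * X (i, l₁)) := by
        rw [← E4_mu μ zz l₀ l₁ i (hμ i), hW, Finset.mul_sum]
        refine Finset.sum_congr rfl fun l _ => ?_
        show C (PowerSeries.C (algebraMap K L (z i l (Fin.last q)))) * U (i, l) = _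
        rw [hz2, map_mul, map_mul, map_mul, hU]
        ring
      rw [h8, hzz]
      refine Dvd.dvd.mul_left ?_ _
      refine Dvd.dvd.mul_right ?_ _
      exact map_dvd C (Dvd.intro_left _ rfl)
    have hdv1 := E3_dvd j (vlN nd y Y η F) T W hWlast (by
      intro a' w' h8
      apply hcon
      have h9 : ((a' + ∑ i, 4 ^ j i * w' (i, Fin.last q) : ℕ) : ℝ) < s * b := by
        rw [hT] at h8
        exact Nat.lt_ceil.mp h8
      push_cast at h9
      exact h9)
    have hval1 : aeval W (vlN nd y Y η F) = aeval (vM nd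
        (fun a => (C (PowerSeries.C (Y a)) : MvPolynomial (Fin m × Fin (q + 1)) (PowerSeries L)))
        (fun i a => C (η i a)) U) F := by
      have h8 : aeval W (vlN nd y Y η F) = ((aeval W).restrictScalars K) (vlN nd y Y η F) := rfl
      rw [h8, vlN, ← AlgHom.comp_apply, comp_aeval]
      congr 2
      funext t
      rw [E4_vM]
      have h9 : ∀ c : PowerSeries L, ((aeval W).restrictScalars K) (C c) = C c := fun c =>
        aeval_C W c
      simp only [h9]
      congr 1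
      funext p
      rw [map_sum]
      have h10 : ∀ s, ((aeval W).restrictScalars K)
          (C (PowerSeries.C (algebraMap K L (y p.1 s p.2))) * X (p.1, s)) =
          ∑ l, C (PowerSeries.C (algebraMap K L (y p.1 s p.2 * z p.1 l s))) * U (p.1, l) := by
        intro s
        rw [map_mul, h9]
        have h11 : ((aeval (R := PowerSeries L) W).restrictScalars K)
            (X (p.1, s) : MvPolynomial (Fin m × Fin (q + 1)) (PowerSeries L)) = W (p.1, s) :=
          aeval_X W _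
        rw [h11, hW, Finset.mul_sum]
        refine Finset.sum_congr rfl fun l _ => ?_
        rw [map_mul, map_mul, map_mul]
        ring
      rw [Finset.sum_congr rfl fun s _ => h10 s, Finset.sum_comm]
      have h12 : ∀ l, ∑ s, C (PowerSeries.C (algebraMap K L (y p.1 s p.2 * z p.1 l s))) *
          U (p.1, l) = if p.2 = l then U (p.1, l) else 0 := by
        intro l
        rw [← Finset.sum_mul, ← map_sum, ← map_sum, ← map_sum, hz1]
        by_cases hpl : p.2 = l
        · rw [if_pos hpl, if_pos hpl, map_one, map_one, map_one, one_mul]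
        · rw [if_neg hpl, if_neg hpl, map_zero, map_zero, map_zero, zero_mul]
      rw [Finset.sum_congr rfl fun l _ => h12 l, Finset.sum_ite_eq Finset.univ p.2,
        if_pos (Finset.mem_univ _)]
    rw [hval1] at hdv1
    have hdv2 := h3 (PowerSeries L) (PowerSeries.X ^ T) _ (by
      intro p hp
      show U p = X p
      rw [hU, E4_U, if_neg ((hS p).mp hp).1, add_zero]) hdv1
    have hdv3 := map_dvd (aeval (fun _ : Fin m × Fin (q + 1) => (1 : PowerSeries L))) hdv2
    rw [aeval_C] at hdv3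
    refine (dvd_of_eq ?_).trans (hdv3.trans (dvd_of_eq ?_))
    · rfl
    · have h8 : aeval (fun _ : Fin m × Fin (q + 1) => (1 : PowerSeries L))
          (aeval (fun t => E1_kill (PowerSeries L) S (vM nd
            (fun a => (C (PowerSeries.C (Y a)) :
              MvPolynomial (Fin m × Fin (q + 1)) (PowerSeries L)))
            (fun i a => C (η i a)) U t)) F₁) =
          aeval (fun t => E4_ev (K := K) S (vM nd
            (fun a => (C (PowerSeries.C (Y a)) :
              MvPolynomial (Fin m × Fin (q + 1)) (PowerSeries L)))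
            (fun i a => C (η i a)) U t)) F₁ := by
        have h9 : ∀ x : MvPolynomial (Fin m × Fin (q + 1)) (PowerSeries L),
            aeval (fun _ : Fin m × Fin (q + 1) => (1 : PowerSeries L)) x =
              ((aeval fun _ : Fin m × Fin (q + 1) => (1 : PowerSeries L)).restrictScalars K) x :=
          fun _ => rfl
        rw [h9, ← AlgHom.comp_apply, comp_aeval]
        rfl
      rw [h8, vl, hF', ← AlgHom.comp_apply, comp_aeval]
      congr 2
      funext t
      rw [E4_vM]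
      simp only [E4_ev_C]
      rcases t with a | i | p | p
      · show _ = aeval _ (X (VF.x a))
        rw [aeval_X]
        rfl
      · show _ = aeval _ (X (VF.th i))
        rw [aeval_X]
        rfl
      · show _ = aeval _ (X (VF.z p))
        rw [aeval_X]
        rfl
      · show E4_ev (K := K) S (U p) = aeval _ (if p.2 = l₀ then X (VF.u p.1) else
          if p.2 = l₁ then 1 else 0)
        rw [hU, E4_ev_U μ zz hl hμ S hS p]
        by_cases h0 : p.2 = l₀
        · rw [if_pos h0, if_pos h0, aeval_X, hzz]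
          rfl
        · rw [if_neg h0, if_neg h0]
          by_cases h1' : p.2 = l₁
          · rw [if_pos h1', if_pos h1', map_one]
          · rw [if_neg h1', if_neg h1', map_zero]

end Pool.Agent.Lib.MP_17a322_nt.SL
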