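import Pool.Agent.Lib.MP_17a322_nt.Mb

/-!
The norm of a linear form: algebra.
-/

namespace Pool.Agent.Lib.MP_17a322_nt.SL

open MvPolynomial

section

variable {k M : Type*} [Field k] [Field M] [Algebra k M] [FiniteDimensional k M] {n : ℕ}

/-- The norm of the linear form `∑ l, φ l X l`. -/
noncomputable def F_nrm (k : Type*) {M : Type*} [Field k] [Field M] [Algebra k M]
    [FiniteDimensional k M] {n : ℕ} (φ : Fin n → M) : MvPolynomial (Fin n) k :=
  (Matrix.of fun i j => ∑ l,
    C (Algebra.leftMulMatrix (Module.finBasis k M) (φ l) i j) * X l).det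

theorem F_nrm_homog (φ : Fin n → M) : (F_nrm k φ).IsHomogeneous (Module.finrank k M) := by
  classical
  unfold F_nrm
  rw [Matrix.det_apply]
  refine IsHomogeneous.sum _ _ _ fun τ _ => ?_
  have h1 : (∏ i, (Matrix.of fun i j => ∑ l,
      C (Algebra.leftMulMatrix (Module.finBasis k M) (φ l) i j) * X l :
      Matrix _ _ (MvPolynomial (Fin n) k)) (τ i) i).IsHomogeneous
      (∑ _i : Fin (Module.finrank k M), 1) := by
    refine IsHomogeneous.prod _ _ _ fun i _ => ?_
    rw [Matrix.of_apply]
    refine IsHomogeneous.sum _ _ _ fun l _ => ?_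
    have h2 := (isHomogeneous_C (Fin n)
      (Algebra.leftMulMatrix (Module.finBasis k M) (φ l) (τ i) i)).mul (isHomogeneous_X k l)
    rwa [zero_add] at h2
  rw [Finset.sum_const, Finset.card_univ, Fintype.card_fin, smul_eq_mul, mul_one] at h1
  rcases Int.units_eq_one_or (Equiv.Perm.sign τ) with h3 | h3
  · rw [h3, one_smul]
    exact h1
  · rw [h3, Units.neg_smul, one_smul]
    exact h1.neg

theorem F_nrm_eval (φ : Fin n → M) (a : Fin n → k) :
    eval a (F_nrm k φ) = Algebra.norm k (∑ l, a l • φ l) := by
  classical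
  rw [Algebra.norm_eq_matrix_det (Module.finBasis k M), F_nrm, RingHom.map_det]
  refine congrArg Matrix.det ?_
  rw [map_sum]
  ext i j
  rw [RingHom.mapMatrix_apply, Matrix.map_apply, Matrix.of_apply, map_sum, Matrix.sum_apply]
  refine Finset.sum_congr rfl fun l _ => ?_
  rw [map_mul, eval_X, eval_C, map_smul, Matrix.smul_apply, smul_eq_mul, mul_comm]

theorem F_nrm_ne (φ : Fin n → M) {F : Type*} [Field F] [Algebra k F] [Algebra M F]
    [IsScalarTower k M F] (z : Fin n → F) (h : ∑ l, algebraMap M F (φ l) * z l = 0) :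
    aeval z (F_nrm k φ) = 0 := by
  classical
  rw [F_nrm, AlgHom.map_det]
  rw [← Matrix.exists_vecMul_eq_zero_iff]
  have hd : 0 < Module.finrank k M := Module.finrank_pos
  refine ⟨fun i => algebraMap M F (Module.finBasis k M i), ?_, ?_⟩
  · intro h0
    have h1 := congrFun h0 ⟨0, hd⟩
    rw [Pi.zero_apply, map_eq_zero] at h1
    exact (Module.finBasis k M).ne_zero _ h1
  · funext j
    rw [Pi.zero_apply]
    show ∑ i, algebraMap M F (Module.finBasis k M i) *
      aeval z (∑ l, C (Algebra.leftMulMatrix (Module.finBasis k M) (φ l) i j) * X l) = 0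
    have h1 : ∀ l, ∑ i, algebraMap M F (Module.finBasis k M i) *
        (algebraMap k F (Algebra.leftMulMatrix (Module.finBasis k M) (φ l) i j) * z l) =
        algebraMap M F (φ l) * z l * algebraMap M F (Module.finBasis k M j) := by
      intro l
      have h2 := (Module.finBasis k M).sum_repr (φ l * Module.finBasis k M j)
      have h3 := congrArg (algebraMap M F) h2
      rw [mul_right_comm, ← RingHom.map_mul, ← h3, map_sum, Finset.sum_mul]
      refine Finset.sum_congr rfl fun i _ => ?_
      rw [Algebra.leftMulMatrix_eq_repr_mul, Algebra.smul_def, RingHom.map_mul,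
        ← IsScalarTower.algebraMap_apply]
      ring
    simp_rw [map_sum, Finset.mul_sum]
    rw [Finset.sum_comm]
    have h2 : ∀ l, ∑ i, algebraMap M F (Module.finBasis k M i) *
        aeval z (C (Algebra.leftMulMatrix (Module.finBasis k M) (φ l) i j) * X l) =
        algebraMap M F (φ l) * z l * algebraMap M F (Module.finBasis k M j) := by
      intro l
      rw [← h1]
      refine Finset.sum_congr rfl fun i _ => ?_
      rw [map_mul, aeval_X, aeval_C]
    rw [Finset.sum_congr rfl fun l _ => h2 l, ← Finset.sum_mul, h, zero_mul]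

/-- The splitting. -/
theorem F_nrm_split [CharZero k] (φ : Fin n → M) {L : Type*} [Field L] [IsAlgClosed L]
    [Algebra k L] : map (algebraMap k L) (F_nrm k φ) =
      ∏ σ : M →ₐ[k] L, ∑ l, C (σ (φ l)) * X l := by
  classical
  refine funext_set (fun _ => Set.range (algebraMap k L))
    (fun _ => Set.infinite_range_of_injective (algebraMap k L).injective) fun x hx => ?_
  have h1 : ∀ l, ∃ a : k, algebraMap k L a = x l := fun l => hx l (Set.mem_univ l)
  choose a ha using h1
  have h2 : x = fun l => algebraMap k L (a l) := funext fun l => (ha l).symm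
  have h3 : eval x (map (algebraMap k L) (F_nrm k φ)) =
      algebraMap k L (eval a (F_nrm k φ)) := by
    rw [eval_map, h2, eval, coe_eval₂Hom, eval₂_comp_left]
    rfl
  rw [h3, F_nrm_eval, Algebra.norm_eq_prod_embeddings k L, map_prod]
  refine Finset.prod_congr rfl fun σ _ => ?_
  rw [map_sum, map_sum]
  refine Finset.sum_congr rfl fun l _ => ?_
  rw [map_smul, map_mul, eval_C, eval_X, h2, Algebra.smul_def, mul_comm]

end

end Pool.Agent.Lib.MP_17a322_nt.SL
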