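import Pool.Agent.Lib.MP_17a322_nt.SL.FDefs
import Pool.Agent.Lib.MP_17a322_nt.SL.F1
import Pool.Agent.Lib.MP_17a322_nt.VA.Z7

/-!
Transfer between generic points; the forms of `Exc` given by linear forms over the algebraic closure.
-/

universe u

namespace Pool.Agent.Lib.MP_17a322_nt.SL

open MvPolynomial
open Pool.Agent.Lib.MP_17a322_nt.VA

section

variable {K : Type u} [Field K] {N : ℕ} {A : AV K N}

/-- The elements of `K(p)` are quotients of forms. -/
theorem F_rep {F : Type u} [Field F] [Algebra K F] (p : A.Pts F) {a : F}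
    (ha : a ∈ IntermediateField.adjoin K (Set.range (rt (A.x p)))) :
    ∃ (D : ℕ) (h f : MvPolynomial (Fin (N + 1)) K), h.IsHomogeneous D ∧ f.IsHomogeneous D ∧
      aeval (A.x p) f ≠ 0 ∧ a * aeval (A.x p) f = aeval (A.x p) h := by
  induction ha using IntermediateField.adjoin_induction with
  | mem x hx =>
    obtain ⟨⟨i, j⟩, rfl⟩ := hx
    by_cases h0 : A.x p j = 0
    · refine ⟨0, 0, 1, isHomogeneous_zero _ _ _, isHomogeneous_one _ _, ?_, ?_⟩
      · rw [map_one]
        exact one_ne_zero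
      · rw [map_zero]
        show A.x p i / A.x p j * _ = 0
        rw [h0, div_zero, zero_mul]
    · refine ⟨1, X i, X j, isHomogeneous_X _ _, isHomogeneous_X _ _, ?_, ?_⟩
      · rwa [aeval_X]
      · rw [aeval_X, aeval_X]
        exact div_mul_cancel₀ _ h0
  | algebraMap x =>
    refine ⟨0, C x, 1, isHomogeneous_C _ _, isHomogeneous_one _ _, ?_, ?_⟩
    · rw [map_one]
      exact one_ne_zero
    · rw [map_one, mul_one, aeval_C]
  | add x y hx hy h1 h2 =>
    obtain ⟨D, h, f, a1, a2, a3, a4⟩ := h1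
    obtain ⟨D', h', f', b1, b2, b3, b4⟩ := h2
    refine ⟨D + D', h * f' + f * h', f * f', (a1.mul b2).add (a2.mul b1), a2.mul b2, ?_, ?_⟩
    · rw [map_mul]
      exact mul_ne_zero a3 b3
    · rw [map_mul, map_add, map_mul, map_mul, ← a4, ← b4]
      ring
  | inv x hx h1 =>
    obtain ⟨D, h, f, a1, a2, a3, a4⟩ := h1
    by_cases h0 : x = 0
    · refine ⟨D, 0, f, isHomogeneous_zero _ _ _, a2, a3, ?_⟩
      rw [h0, inv_zero, zero_mul, map_zero]
    · refine ⟨D, f, h, a2, a1, ?_, ?_⟩
      · rw [← a4]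
        exact mul_ne_zero h0 a3
      · rw [← a4, inv_mul_cancel_left₀ h0]
  | mul x y hx hy h1 h2 =>
    obtain ⟨D, h, f, a1, a2, a3, a4⟩ := h1
    obtain ⟨D', h', f', b1, b2, b3, b4⟩ := h2
    refine ⟨D + D', h * h', f * f', a1.mul b1, a2.mul b2, ?_, ?_⟩
    · rw [map_mul]
      exact mul_ne_zero a3 b3
    · rw [map_mul, map_mul, ← a4, ← b4]
      ring

/-- A form of degree `D` divided by the power of a coordinate is in `K(p)`. -/
theorem F_div_mem {F : Type u} [Field F] [Algebra K F] (p : A.Pts F) {D : ℕ}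
    {h : MvPolynomial (Fin (N + 1)) K} (hh : h.IsHomogeneous D) (a : Fin (N + 1)) :
    aeval (A.x p) h / A.x p a ^ D ∈ IntermediateField.adjoin K (Set.range (rt (A.x p))) := by
  have h1 : ∀ i, rt (A.x p) (i, a) ∈ IntermediateField.adjoin K (Set.range (rt (A.x p))) :=
    fun i => IntermediateField.subset_adjoin K _ ⟨_, rfl⟩
  have h2 : aeval (A.x p) h / A.x p a ^ D = aeval (fun i => rt (A.x p) (i, a)) h := by
    have h3 := Z_aeval_smul hh (A.x p a)⁻¹ (A.x p)
    have h4 : (fun i => (A.x p a)⁻¹ * A.x p i) = fun i => rt (A.x p) (i, a) := by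
      funext i
      show _ = A.x p i / A.x p a
      rw [div_eq_mul_inv, mul_comm]
    rw [← h4, h3, inv_pow, div_eq_mul_inv, mul_comm]
  rw [h2]
  have h3 : aeval (fun i => rt (A.x p) (i, a)) h =
      ((aeval (fun i => (⟨rt (A.x p) (i, a), h1 i⟩ :
        IntermediateField.adjoin K (Set.range (rt (A.x p))))) h :
        IntermediateField.adjoin K (Set.range (rt (A.x p)))) : F) := by
    have h4 := aeval_algebraMap_apply (B := F) (fun i => (⟨rt (A.x p) (i, a), h1 i⟩ :
        IntermediateField.adjoin K (Set.range (rt (A.x p))))) h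
    exact h4
  rw [h3]
  exact Subtype.property _

variable {F L : Type u} [Field F] [Algebra K F] [Field L] [Algebra K L]

/-- The field of rational functions maps to the field of every generic point. -/
theorem F_hom {p : A.Pts F} (hp : Gen A p) {P : A.Pts L} (hP : Gen A P) :
    ∃ ψ : IntermediateField.adjoin K (Set.range (rt (A.x p))) →ₐ[K] L,
      ∀ (a : IntermediateField.adjoin K (Set.range (rt (A.x p)))) (D : ℕ)
        (h f : MvPolynomial (Fin (N + 1)) K), h.IsHomogeneous D → f.IsHomogeneous D →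
        aeval (A.x p) f ≠ 0 → (a : F) * aeval (A.x p) f = aeval (A.x p) h →
          ψ a * aeval (A.x P) f = aeval (A.x P) h := by
  classical
  choose D h f h1 h2 h3 h4 using fun a : IntermediateField.adjoin K (Set.range (rt (A.x p))) =>
    F_rep p a.2
  have hne : ∀ (f : MvPolynomial (Fin (N + 1)) K) (D : ℕ), f.IsHomogeneous D →
      aeval (A.x p) f ≠ 0 → aeval (A.x P) f ≠ 0 := by
    intro f D hf h0 h5
    exact h0 (Z_x_isPt A p f (hP f D hf h5))
  have hz : ∀ (f : MvPolynomial (Fin (N + 1)) K) (D : ℕ), f.IsHomogeneous D →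
      aeval (A.x p) f = 0 → aeval (A.x P) f = 0 := by
    intro f D hf h0
    exact Z_x_isPt A P f (hp f D hf h0)
  obtain ⟨ψ, hψ⟩ : ∃ ψ : IntermediateField.adjoin K (Set.range (rt (A.x p))) → L,
      ∀ a, ψ a = aeval (A.x P) (h a) / aeval (A.x P) (f a) := ⟨_, fun _ => rfl⟩
  have key : ∀ (a : IntermediateField.adjoin K (Set.range (rt (A.x p)))) (D : ℕ)
      (h f : MvPolynomial (Fin (N + 1)) K), h.IsHomogeneous D → f.IsHomogeneous D →
      aeval (A.x p) f ≠ 0 → (a : F) * aeval (A.x p) f = aeval (A.x p) h →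
        ψ a * aeval (A.x P) f = aeval (A.x P) h := by
    intro a D' h' f' g1 g2 g3 g4
    have h5 := hz (h a * f' - f a * h') (D a + D')
      (((h1 a).mul g2).sub ((h2 a).mul g1)) (by
        rw [map_sub, map_mul, map_mul, ← h4, ← g4]
        ring)
    rw [map_sub, map_mul, map_mul, sub_eq_zero] at h5
    have h6 := hne _ _ (h2 a) (h3 a)
    rw [hψ, div_mul_eq_mul_div, h5, mul_div_cancel_left₀ _ h6]
  have h0 : aeval (A.x p) (1 : MvPolynomial (Fin (N + 1)) K) ≠ 0 := by
    rw [map_one]
    exact one_ne_zero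
  refine ⟨{ toFun := ψ, map_one' := ?_, map_mul' := ?_, map_zero' := ?_, map_add' := ?_,
            commutes' := ?_ }, key⟩
  · have h5 := key 1 0 1 1 (isHomogeneous_one _ _) (isHomogeneous_one _ _) h0 (by
      rw [map_one, mul_one]
      rfl)
    rwa [map_one, mul_one] at h5
  · intro a b
    have h5 := key (a * b) (D a + D b) (h a * h b) (f a * f b) ((h1 a).mul (h1 b))
      ((h2 a).mul (h2 b)) (by
        rw [map_mul]
        exact mul_ne_zero (h3 a) (h3 b)) (by
        rw [map_mul, map_mul, ← h4 a, ← h4 b]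
        show (a : F) * (b : F) * _ = _
        ring)
    have ha := hne _ _ (h2 a) (h3 a)
    have hb := hne _ _ (h2 b) (h3 b)
    have ka := key a (D a) (h a) (f a) (h1 a) (h2 a) (h3 a) (h4 a)
    have kb := key b (D b) (h b) (f b) (h1 b) (h2 b) (h3 b) (h4 b)
    rw [map_mul, map_mul, ← ka, ← kb] at h5
    refine mul_right_cancel₀ (mul_ne_zero ha hb) (h5.trans ?_)
    ring
  · have h5 := key 0 0 0 1 (isHomogeneous_zero _ _ _) (isHomogeneous_one _ _) h0 (by
      rw [map_zero]
      show (0 : F) * _ = 0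
      rw [zero_mul])
    rwa [map_one, mul_one, map_zero] at h5
  · intro a b
    have h5 := key (a + b) (D a + D b) (h a * f b + f a * h b) (f a * f b)
      (((h1 a).mul (h2 b)).add ((h2 a).mul (h1 b))) ((h2 a).mul (h2 b)) (by
        rw [map_mul]
        exact mul_ne_zero (h3 a) (h3 b)) (by
        rw [map_mul, map_add, map_mul, map_mul, ← h4 a, ← h4 b]
        show ((a : F) + (b : F)) * _ = _
        ring)
    have ha := hne _ _ (h2 a) (h3 a)
    have hb := hne _ _ (h2 b) (h3 b)
    have ka := key a (D a) (h a) (f a) (h1 a) (h2 a) (h3 a) (h4 a)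
    have kb := key b (D b) (h b) (f b) (h1 b) (h2 b) (h3 b) (h4 b)
    rw [map_mul, map_add, map_mul, map_mul, ← ka, ← kb] at h5
    refine mul_right_cancel₀ (mul_ne_zero ha hb) (h5.trans ?_)
    ring
  · intro c
    have h5 := key (algebraMap K _ c) 0 (C c) 1 (isHomogeneous_C _ _) (isHomogeneous_one _ _) h0 (by
      rw [map_one, mul_one, aeval_C]
      rfl)
    rwa [map_one, mul_one, aeval_C] at h5

end

/-- Separation. -/
theorem F_sep {M : Type*} [Field M] {g n : ℕ} (R : Fin g → Fin n → M) {φ : Fin n → M}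
    (h : φ ∉ Submodule.span M (Set.range R)) :
    ∃ z : Fin n → M, (∀ i, ∑ l, R i l * z l = 0) ∧ ∑ l, φ l * z l ≠ 0 := by
  obtain ⟨f, h1, h2⟩ := Submodule.exists_le_ker_of_notMem h
  have h3 : ∀ y : Fin n → M, f y = ∑ l, y l * f (Pi.single l 1) := by
    intro y
    have h4 : y = ∑ l, y l • (Pi.single l 1 : Fin n → M) := by
      funext l
      rw [Finset.sum_apply, Finset.sum_eq_single l]
      · rw [Pi.smul_apply, Pi.single_eq_same, smul_eq_mul, mul_one]
      · intro b _ hb
        rw [Pi.smul_apply, Pi.single_eq_of_ne hb.symm, smul_zero]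
      · intro h5
        exact absurd (Finset.mem_univ l) h5
    conv_lhs => rw [h4]
    rw [map_sum]
    exact Finset.sum_congr rfl fun l _ => by rw [map_smul, smul_eq_mul]
  refine ⟨fun l => f (Pi.single l 1), fun i => ?_, ?_⟩
  · rw [← h3]
    exact h2 (Submodule.subset_span ⟨i, rfl⟩)
  · rw [← h3]
    exact h1

end Pool.Agent.Lib.MP_17a322_nt.SL
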