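import Pool.Agent.Lib.MP_17a322_nt.SL.F2

/-!
The forms of `Exc` given by linear forms over the algebraic closure of `K(p)`.
-/

universe u

namespace Pool.Agent.Lib.MP_17a322_nt.SL

open MvPolynomial
open Pool.Agent.Lib.MP_17a322_nt.VA

section

variable {K : Type*} [CommRing K] {m n : ℕ}

/-- Bihomogeneous polynomials. -/
def F_Bi (a b : ℕ) (F : MvPolynomial (Fin m ⊕ Fin n) K) : Prop :=
  ∀ w ∈ F.support, ∑ i, w (Sum.inl i) = a ∧ ∑ l, w (Sum.inr l) = b

theorem F_Bi.mul {a b a' b' : ℕ} {F F' : MvPolynomial (Fin m ⊕ Fin n) K} (h : F_Bi a b F)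
    (h' : F_Bi a' b' F') : F_Bi (a + a') (b + b') (F * F') := by
  classical
  intro w hw
  obtain ⟨w₁, h1, w₂, h2, rfl⟩ := Finset.mem_add.1 (support_mul _ _ hw)
  obtain ⟨g1, g2⟩ := h _ h1
  obtain ⟨g3, g4⟩ := h' _ h2
  simp only [Finsupp.add_apply, Finset.sum_add_distrib]
  rw [g1, g2, g3, g4]
  exact ⟨rfl, rfl⟩

theorem F_Bi.sum {ι : Type*} (s : Finset ι) {a b : ℕ} (F : ι → MvPolynomial (Fin m ⊕ Fin n) K)
    (h : ∀ i ∈ s, F_Bi a b (F i)) : F_Bi a b (∑ i ∈ s, F i) := by
  classical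
  intro w hw
  have h1 := support_sum hw
  rw [Finset.mem_biUnion] at h1
  obtain ⟨i, hi, h2⟩ := h1
  exact h i hi w h2

theorem F_Bi_inl {D : ℕ} {h : MvPolynomial (Fin m) K} (hh : h.IsHomogeneous D) :
    F_Bi D 0 (rename Sum.inl h : MvPolynomial (Fin m ⊕ Fin n) K) := by
  classical
  intro w hw
  obtain ⟨u, hu, rfl⟩ : ∃ u ∈ h.support, u.mapDomain Sum.inl = w := by
    have h1 := support_rename_of_injective (p := h) (Sum.inl_injective (α := Fin m) (β := Fin n))
    rw [h1, Finset.mem_image] at hw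
    exact hw
  constructor
  · have h2 : ∀ i, (u.mapDomain Sum.inl : Fin m ⊕ Fin n →₀ ℕ) (Sum.inl i) = u i := fun i =>
      Finsupp.mapDomain_apply Sum.inl_injective u i
    simp only [h2]
    have h5 := hh (mem_support_iff.1 hu)
    rw [← h5, Finsupp.weight_apply, Finsupp.sum_fintype]
    · simp
    · intro i
      simp
  · refine Finset.sum_eq_zero fun l _ => ?_
    refine Finsupp.mapDomain_of_notMem_range _ _ ?_
    rintro ⟨i, hi⟩
    exact absurd hi Sum.inl_ne_inr

theorem F_Bi_inr {D : ℕ} {h : MvPolynomial (Fin n) K} (hh : h.IsHomogeneous D) :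
    F_Bi 0 D (rename Sum.inr h : MvPolynomial (Fin m ⊕ Fin n) K) := by
  classical
  intro w hw
  obtain ⟨u, hu, rfl⟩ : ∃ u ∈ h.support, u.mapDomain Sum.inr = w := by
    have h1 := support_rename_of_injective (p := h) (Sum.inr_injective (α := Fin m) (β := Fin n))
    rw [h1, Finset.mem_image] at hw
    exact hw
  constructor
  · refine Finset.sum_eq_zero fun l _ => ?_
    refine Finsupp.mapDomain_of_notMem_range _ _ ?_
    rintro ⟨i, hi⟩
    exact absurd hi.symm Sum.inl_ne_inr
  · have h2 : ∀ i, (u.mapDomain Sum.inr : Fin m ⊕ Fin n →₀ ℕ) (Sum.inr i) = u i := fun i =>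
      Finsupp.mapDomain_apply Sum.inr_injective u i
    simp only [h2]
    have h5 := hh (mem_support_iff.1 hu)
    rw [← h5, Finsupp.weight_apply, Finsupp.sum_fintype]
    · simp
    · intro i
      simp

end

section

variable {K : Type u} [Field K] [CharZero K] {N : ℕ} {A : AV K N}
  {F : Type u} [Field F] [Algebra K F]

/-- The norm of a linear form over the algebraic closure of `K(p)`. -/
theorem F_exc {p : A.Pts F} (hp : Gen A p) {g n D' : ℕ}
    (G : Matrix (Fin g) (Fin n) (MvPolynomial (Fin (N + 1)) K))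
    (hG : ∀ i l, (G i l).IsHomogeneous D') (φ : Fin n → F)
    (halg : ∀ l, IsAlgebraic (IntermediateField.adjoin K (Set.range (rt (A.x p)))) (φ l))
    (hφ : φ ∉ Submodule.span F (Set.range fun i l => aeval (A.x p) (G i l))) :
    ∃ F0 : MvPolynomial (Fin (N + 1) ⊕ Fin n) K, Exc A G F0 ∧
      ∀ z : Fin n → F, ∑ l, φ l * z l = 0 → aeval (Sum.elim (A.x p) z) F0 = 0 := by
  classical
  obtain ⟨k, hk⟩ : ∃ k, k = IntermediateField.adjoin K (Set.range (rt (A.x p))) := ⟨_, rfl⟩
  -- the field generated by the coefficients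
  obtain ⟨M, hM⟩ : ∃ M : IntermediateField k F, M = IntermediateField.adjoin k (Set.range φ) :=
    ⟨_, rfl⟩
  have hfin : FiniteDimensional k M := by
    rw [hM]
    refine IntermediateField.finiteDimensional_adjoin fun x hx => ?_
    obtain ⟨l, rfl⟩ := hx
    have h1 := halg l
    rw [← hk] at h1
    exact h1.isIntegral
  have hφM : ∀ l, φ l ∈ M := fun l => by
    rw [hM]
    exact IntermediateField.subset_adjoin _ _ ⟨l, rfl⟩
  obtain ⟨φ', hφ'⟩ : ∃ φ' : Fin n → M, ∀ l, (φ' l : F) = φ l := ⟨fun l => ⟨φ l, hφM l⟩, fun _ => rfl⟩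
  have hchar : CharZero k := charZero_of_injective_algebraMap (algebraMap K k).injective
  have hrep : ∀ a ∈ k, ∃ (D : ℕ) (h f : MvPolynomial (Fin (N + 1)) K), h.IsHomogeneous D ∧
      f.IsHomogeneous D ∧ aeval (A.x p) f ≠ 0 ∧ a * aeval (A.x p) f = aeval (A.x p) h := by
    intro a ha
    rw [hk] at ha
    exact F_rep p ha
  have hhom : ∀ (L : Type u) [Field L] [Algebra K L] (P : A.Pts L), Gen A P →
      ∃ ψ : k →ₐ[K] L, ∀ (a : k) (D : ℕ) (h f : MvPolynomial (Fin (N + 1)) K),
        h.IsHomogeneous D → f.IsHomogeneous D → aeval (A.x p) f ≠ 0 →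
        (a : F) * aeval (A.x p) f = aeval (A.x p) h →
          ψ a * aeval (A.x P) f = aeval (A.x P) h := by
    subst hk
    intro L _ _ P hP
    exact F_hom hp hP
  obtain ⟨a, ha⟩ : ∃ a, A.x p a ≠ 0 := Function.ne_iff.1 (Z_x_ne A p)
  obtain ⟨gk, hgk⟩ : ∃ gk : Fin g → Fin n → k,
      ∀ i l, (gk i l : F) * A.x p a ^ D' = aeval (A.x p) (G i l) := by
    refine ⟨fun i l => ⟨aeval (A.x p) (G i l) / A.x p a ^ D', ?_⟩, fun i l => ?_⟩
    · rw [hk]
      exact F_div_mem p (hG i l) a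
    · exact div_mul_cancel₀ _ (pow_ne_zero _ ha)
  clear hk
  -- a vector of the fibre over `M`
  obtain ⟨z', hz1, hz2⟩ : ∃ z' : Fin n → M, (∀ i, ∑ l, algebraMap k M (gk i l) * z' l = 0) ∧
      ∑ l, φ' l * z' l ≠ 0 := by
    refine F_sep (fun i l => algebraMap k M (gk i l)) fun h1 => hφ ?_
    obtain ⟨c, hc⟩ := (Submodule.mem_span_range_iff_exists_fun M).1 h1
    rw [Submodule.mem_span_range_iff_exists_fun]
    refine ⟨fun i => (c i : F) * (A.x p a ^ D')⁻¹, ?_⟩
    funext l
    have h2 := congrFun hc l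
    rw [Finset.sum_apply] at h2 ⊢
    have h3 := congrArg (algebraMap M F) h2
    rw [map_sum] at h3
    rw [← hφ' l]
    refine Eq.trans (Finset.sum_congr rfl fun i _ => ?_) h3
    show (c i : F) * (A.x p a ^ D')⁻¹ * aeval (A.x p) (G i l) = (c i : F) * (gk i l : F)
    rw [← hgk, mul_assoc]
    congr 1
    rw [mul_comm, mul_assoc, mul_inv_cancel₀ (pow_ne_zero _ ha), mul_one]
  -- clear the denominators
  obtain ⟨Nm, hNm⟩ : ∃ Nm, Nm = F_nrm k φ' := ⟨_, rfl⟩
  choose D h f h1 h2 h3 h4 using fun w => hrep (coeff w Nm : k) (coeff w Nm).2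
  obtain ⟨D0, hD0⟩ : ∃ D0, D0 = ∑ w ∈ Nm.support, D w := ⟨_, rfl⟩
  obtain ⟨f0, hf0⟩ : ∃ f0, f0 = ∏ w ∈ Nm.support, f w := ⟨_, rfl⟩
  obtain ⟨h0, hh0⟩ : ∃ h0 : (Fin n →₀ ℕ) → MvPolynomial (Fin (N + 1)) K,
      ∀ w, h0 w = h w * ∏ w' ∈ Nm.support.erase w, f w' := ⟨_, fun _ => rfl⟩
  have hf0h : f0.IsHomogeneous D0 := by
    rw [hf0, hD0]
    exact IsHomogeneous.prod _ _ _ fun w _ => h2 w
  have hf0n : aeval (A.x p) f0 ≠ 0 := by
    rw [hf0, map_prod]
    exact Finset.prod_ne_zero_iff.2 fun w _ => h3 w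
  have hh0h : ∀ w ∈ Nm.support, (h0 w).IsHomogeneous D0 := by
    intro w hw
    rw [hh0, hD0, ← Finset.add_sum_erase _ _ hw]
    exact (h1 w).mul (IsHomogeneous.prod _ _ _ fun w _ => h2 w)
  have hh0e : ∀ w ∈ Nm.support,
      ((coeff w Nm : k) : F) * aeval (A.x p) f0 = aeval (A.x p) (h0 w) := by
    intro w hw
    rw [hh0, hf0, ← Finset.mul_prod_erase _ _ hw, map_mul, map_mul, ← h4, mul_assoc]
  refine ⟨∑ w ∈ Nm.support, rename Sum.inl (h0 w) * rename Sum.inr (monomial w 1), ⟨?_, ?_⟩, ?_⟩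
  · refine ⟨D0, Module.finrank k M, ?_⟩
    refine F_Bi.sum _ _ fun w hw => ?_
    have g1 : ∑ l, w l = Module.finrank k M := by
      have g2 := F_nrm_homog (k := k) φ'
      rw [← hNm] at g2
      have g3 := g2 (mem_support_iff.1 hw)
      rw [← g3, Finsupp.weight_apply, Finsupp.sum_fintype]
      · simp
      · intro i
        simp
    have g2 : (monomial w (1 : K)).IsHomogeneous (Module.finrank k M) := by
      refine isHomogeneous_monomial _ ?_
      rw [← g1, Finsupp.degree_eq_sum]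
    have g3 := (F_Bi_inl (m := N + 1) (n := n) (hh0h w hw)).mul (F_Bi_inr (m := N + 1) g2)
    rw [add_zero, zero_add] at g3
    exact g3
  · intro L _ _ _ P hP
    obtain ⟨ψ, hψ⟩ := hhom L P hP
    let _ : Algebra k L := ψ.toRingHom.toAlgebra
    have hsplit := F_nrm_split (k := k) φ' (L := L)
    rw [← hNm] at hsplit
    obtain ⟨e⟩ : Nonempty (Fin (Fintype.card (M →ₐ[k] L)) ≃ (M →ₐ[k] L)) :=
      ⟨(Fintype.equivFin _).symm⟩
    refine ⟨aeval (A.x P) f0, Fintype.card (M →ₐ[k] L), fun t l => e t (φ' l), ?_, ?_, ?_⟩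
    · intro h5
      exact hf0n (Z_x_isPt A p f0 (hP f0 D0 hf0h h5))
    · intro t
      refine ⟨fun l => e t (z' l), ?_, ?_⟩
      · intro i
        have h5 : ∀ l, aeval (A.x P) (G i l) = ψ (gk i l) * A.x P a ^ D' := by
          intro l
          have h6 := hψ (gk i l) D' (G i l) (X a ^ D') (hG i l) (by
            have h7 := (isHomogeneous_X K a).pow D'
            rwa [one_mul] at h7) (by
            rw [map_pow, aeval_X]
            exact pow_ne_zero _ ha) (by
            rw [map_pow, aeval_X]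
            exact hgk i l)
          rw [← h6, map_pow, aeval_X]
        have h6 : ∑ l, aeval (A.x P) (G i l) * e t (z' l) =
            A.x P a ^ D' * e t (∑ l, algebraMap k M (gk i l) * z' l) := by
          rw [map_sum, Finset.mul_sum]
          refine Finset.sum_congr rfl fun l _ => ?_
          rw [h5, map_mul, (e t).commutes]
          show _ = A.x P a ^ D' * (ψ (gk i l) * e t (z' l))
          ring
        show ∑ l, aeval (A.x P) (G i l) * e t (z' l) = 0
        rw [h6, hz1, map_zero, mul_zero]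
      · have h6 : ∑ l, e t (φ' l) * e t (z' l) = e t (∑ l, φ' l * z' l) := by
          rw [map_sum]
          exact Finset.sum_congr rfl fun l _ => (map_mul _ _ _).symm
        show ∑ l, e t (φ' l) * e t (z' l) ≠ 0
        rw [h6]
        exact (map_ne_zero_iff _ (e t).toRingHom.injective).2 hz2
    · have h5 : (C (aeval (A.x P) f0) : MvPolynomial (Fin n) L) *
          ∏ t, ∑ l, C (e t (φ' l)) * X l = C (aeval (A.x P) f0) * map (algebraMap k L) Nm := by
        rw [hsplit]
        congr 1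
        exact e.prod_comp fun σ : M →ₐ[k] L => ∑ l, C (σ (φ' l)) * X l
      rw [h5, map_sum]
      conv_rhs => rw [Nm.as_sum]
      rw [map_sum, Finset.mul_sum]
      refine Finset.sum_congr rfl fun w hw => ?_
      rw [map_mul, aeval_rename, aeval_rename, Sum.elim_comp_inl, Sum.elim_comp_inr, map_monomial,
        C_mul_monomial, aeval_monomial, map_one, one_mul]
      have h6 : aeval (fun i => (C (A.x P i) : MvPolynomial (Fin n) L)) (h0 w) =
          C (aeval (A.x P) (h0 w)) := by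
        have h7 := aeval_algebraMap_apply (B := MvPolynomial (Fin n) L) (A.x P) (h0 w)
        rw [algebraMap_eq] at h7
        exact h7
      rw [h6, ← hψ (coeff w Nm) D0 (h0 w) f0 (hh0h w hw) hf0h hf0n (hh0e w hw), monomial_eq,
        mul_comm (aeval (A.x P) f0)]
      rfl
  · intro z hz
    have h5 := F_nrm_ne (k := k) φ' z (by
      refine Eq.trans (Finset.sum_congr rfl fun l _ => ?_) hz
      rw [← hφ']
      rfl)
    rw [← hNm, aeval_def, eval₂_eq] at h5
    rw [map_sum]
    have h6 : aeval (A.x p) f0 * ∑ d ∈ Nm.support, algebraMap k F (coeff d Nm) *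
        ∏ i ∈ d.support, z i ^ d i = 0 := by
      rw [h5, mul_zero]
    refine Eq.trans ?_ h6
    rw [Finset.mul_sum]
    refine Finset.sum_congr rfl fun w hw => ?_
    rw [map_mul, aeval_rename, aeval_rename, Sum.elim_comp_inl, Sum.elim_comp_inr,
      aeval_monomial, map_one, one_mul, ← hh0e w hw, mul_comm ((coeff w Nm : k) : F), mul_assoc]
    rfl

end

end Pool.Agent.Lib.MP_17a322_nt.SL
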