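import Pool.Agent.Lib.MP_17a322_nt.SL.F3

/-!
The forms of `Exc`: products, examples; generic sequences of points of `ℙ(E)`.
-/

universe u

namespace Pool.Agent.Lib.MP_17a322_nt.SL

open MvPolynomial Filter
open Pool.Agent.Lib.MP_17a322_nt.VN hiding lf
open Pool.Agent.Lib.MP_17a322_nt.VA

section

variable {K : Type u} [Field K] {N : ℕ} {A : AV K N} {g n s : ℕ}
  {G : Matrix (Fin g) (Fin n) (MvPolynomial (Fin (N + 1)) K)}

theorem F_Exc_mul {F F' : MvPolynomial (Fin (N + 1) ⊕ Fin n) K} (h : Exc A G F)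
    (h' : Exc A G F') : Exc A G (F * F') := by
  obtain ⟨⟨a, b, h1⟩, h2⟩ := h
  obtain ⟨⟨a', b', h1'⟩, h2'⟩ := h'
  refine ⟨⟨a + a', b + b', F_Bi.mul (a := a) (b := b) h1 h1'⟩, fun L _ _ _ P hP => ?_⟩
  obtain ⟨c, m, y, g1, g2, g3⟩ := h2 L P hP
  obtain ⟨c', m', y', g1', g2', g3'⟩ := h2' L P hP
  refine ⟨c * c', m + m', Fin.append y y', mul_ne_zero g1 g1', fun k => ?_, ?_⟩
  · refine Fin.addCases (fun i => ?_) (fun i => ?_) k
    · rw [Fin.append_left]
      exact g2 i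
    · rw [Fin.append_right]
      exact g2' i
  · rw [map_mul, g3, g3', Fin.prod_univ_add, map_mul]
    simp only [Fin.append_left, Fin.append_right]
    ring

theorem F_Exc_base {f : MvPolynomial (Fin (N + 1)) K} {d : ℕ} (hf : f.IsHomogeneous d)
    (hI : f ∉ A.I) : Exc A G (rename Sum.inl f) := by
  refine ⟨⟨d, 0, F_Bi_inl hf⟩, fun L _ _ _ P hP => ?_⟩
  refine ⟨aeval (A.x P) f, 0, fun k => k.elim0, fun h0 => hI (hP f d hf h0), fun k => k.elim0, ?_⟩
  rw [Finset.univ_eq_empty, Finset.prod_empty, mul_one, aeval_rename, Sum.elim_comp_inl]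
  have h7 := aeval_algebraMap_apply (B := MvPolynomial (Fin n) L) (A.x P) f
  rw [algebraMap_eq] at h7
  exact h7

theorem F_Exc_one : Exc A G 1 := by
  have h1 := F_Exc_base (G := G) (isHomogeneous_one (Fin (N + 1)) K)
    (fun h : (1 : MvPolynomial (Fin (N + 1)) K) ∈ A.I =>
      (Z_prime A).ne_top ((Ideal.eq_top_iff_one _).2 h))
  rwa [map_one] at h1

theorem F_Exc_prod {ι : Type*} (T : Finset ι) (F : ι → MvPolynomial (Fin (N + 1) ⊕ Fin n) K)
    (h : ∀ i ∈ T, Exc A G (F i)) : Exc A G (∏ i ∈ T, F i) := by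
  classical
  induction T using Finset.induction_on with
  | empty =>
    rw [Finset.prod_empty]
    exact F_Exc_one
  | insert a T ha ih =>
    rw [Finset.prod_insert ha]
    exact F_Exc_mul (h a (Finset.mem_insert_self a T))
      (ih fun i hi => h i (Finset.mem_insert_of_mem hi))

theorem F_Exc_form {Λ : Matrix (Fin s) (Fin n) (MvPolynomial (Fin (N + 1)) K)} {D : ℕ}
    (hΛ : ∀ j l, (Λ j l).IsHomogeneous D) {j : Fin s} (h : Ind A G Λ {j}) :
    Exc A G (∑ l, rename Sum.inl (Λ j l) * X (Sum.inr l)) := by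
  classical
  refine ⟨⟨D, 1, F_Bi.sum _ _ fun l _ => ?_⟩, fun L _ _ _ P hP => ?_⟩
  · have h1 := (F_Bi_inl (n := n) (hΛ j l)).mul (F_Bi_inr (m := N + 1) (isHomogeneous_X K l))
    rw [add_zero, zero_add, rename_X] at h1
    exact h1
  · refine ⟨1, 1, fun _ l => aeval (A.x P) (Λ j l), one_ne_zero, fun _ => ?_, ?_⟩
    · have h1 := h L P hP
      rw [linearIndependent_sum] at h1
      obtain ⟨-, h2, h3⟩ := h1
      have hj : j ∈ ({j} : Finset (Fin s)) := Finset.mem_singleton_self j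
      have h4 : (fun l => aeval (A.x P) (Λ j l)) ∉ Submodule.span L
          (Set.range fun i l => aeval (A.x P) (G i l)) := by
        intro h5
        have h6 : (fun l => aeval (A.x P) (Λ j l)) ≠ 0 :=
          h2.ne_zero (⟨j, hj⟩ : {x // x ∈ ({j} : Finset (Fin s))})
        refine h6 ((Submodule.disjoint_def.1 h3) _ h5 ?_)
        exact Submodule.subset_span ⟨⟨j, hj⟩, rfl⟩
      obtain ⟨z, hz1, hz2⟩ := F_sep _ h4
      exact ⟨z, hz1, hz2⟩
    · rw [Fin.prod_univ_one, C_1, one_mul, map_sum]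
      refine Finset.sum_congr rfl fun l _ => ?_
      rw [map_mul, aeval_X, aeval_rename, Sum.elim_comp_inl, Sum.elim_inr]
      have h7 := aeval_algebraMap_apply (B := MvPolynomial (Fin n) L) (A.x P) (Λ j l)
      rw [algebraMap_eq] at h7
      rw [← h7]
      rfl

end

/-- Generic sequences. -/
theorem F_seq {K : Type u} [Field K] [NumberField K] {N : ℕ} {A : AV K N} {g n : ℕ}
    {G : Matrix (Fin g) (Fin n) (MvPolynomial (Fin (N + 1)) K)}
    (bad : ℕ → Set (A.Pts K × (Fin n → K)))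
    (h : ∀ F, Exc A G F → ∀ ν, ∃ q ∈ bad ν, aeval (Sum.elim (A.x q.1) q.2) F ≠ 0) :
    ∃ q : ℕ → A.Pts K × (Fin n → K), (∀ ν, q ν ∈ bad ν) ∧
      ∀ F, Exc A G F → ∀ᶠ ν in atTop, aeval (Sum.elim (A.x (q ν).1) (q ν).2) F ≠ 0 := by
  classical
  have hc : Countable {F : MvPolynomial (Fin (N + 1) ⊕ Fin n) K // Exc A G F} := by
    have h1 : Countable (MvPolynomial (Fin (N + 1) ⊕ Fin n) K) := by
      have := countable_numberField K
      rw [← Cardinal.mk_le_aleph0_iff]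
      refine (MvPolynomial.cardinalMk_le_max_lift (σ := Fin (N + 1) ⊕ Fin n) (R := K)).trans ?_
      refine max_le (max_le ?_ ?_) le_rfl
      · rw [Cardinal.lift_le_aleph0]
        exact Cardinal.mk_le_aleph0
      · rw [Cardinal.lift_le_aleph0]
        exact Cardinal.mk_le_aleph0
    infer_instance
  have hne : Nonempty {F : MvPolynomial (Fin (N + 1) ⊕ Fin n) K // Exc A G F} :=
    ⟨⟨1, F_Exc_one⟩⟩
  obtain ⟨E, hE⟩ := exists_surjective_nat
    {F : MvPolynomial (Fin (N + 1) ⊕ Fin n) K // Exc A G F}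
  choose q hq hqF using fun ν => h (∏ i ∈ Finset.range (ν + 1), (E i).1)
    (F_Exc_prod _ _ fun i _ => (E i).2) ν
  refine ⟨q, hq, fun F hF => ?_⟩
  obtain ⟨i, hi⟩ := hE ⟨F, hF⟩
  refine eventually_atTop.2 ⟨i, fun ν hν => ?_⟩
  have h1 := hqF ν
  rw [map_prod] at h1
  have h2 := Finset.prod_ne_zero_iff.1 h1 i (Finset.mem_range.2 (by omega))
  rw [hi] at h2
  exact h2

end Pool.Agent.Lib.MP_17a322_nt.SL
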