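import Pool.Agent.Lib.MP_17a322_nt.SL.GN1
import Pool.Agent.Lib.MP_17a322_nt.VN.F3

/-!
Geometry of numbers: cells at infinite places, and at all places.
-/

universe u

namespace Pool.Agent.Lib.MP_17a322_nt.SL

open NumberField

theorem GN_fin {α β : Type*} (s : Finset β) (hs : s.Nonempty) (c : α → β) :
    ∃ (n : ℕ) (c' : α → Fin (n + 1)), n + 1 = s.card ∧
      ∀ y y', c y ∈ s → c y' ∈ s → c' y = c' y' → c y = c y' := by
  classical
  obtain ⟨n, hn⟩ : ∃ n, s.card = n + 1 := ⟨s.card - 1, by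
    have := hs.card_pos
    omega⟩
  have e : s ≃ Fin (n + 1) := s.equivFinOfCardEq hn
  refine ⟨n, fun y => if h : c y ∈ s then e ⟨c y, h⟩ else 0, hn.symm, fun y y' hy hy' h => ?_⟩
  simp only [hy, hy', dif_pos] at h
  exact congrArg Subtype.val (e.injective h)

/-- Cells of the real line. -/
theorem GN_floor {R ρ x x' : ℝ} (hρ : 0 < ρ) (h : ⌊x * 2 / ρ⌋ = ⌊x' * 2 / ρ⌋) :
    |x - x'| ≤ ρ / 2 := by
  have h1 := Int.abs_sub_lt_one_of_floor_eq_floor h
  have h2 : x * 2 / ρ - x' * 2 / ρ = (x - x') * (2 / ρ) := by ring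
  rw [h2, abs_mul, abs_of_pos (by positivity : (0 : ℝ) < 2 / ρ)] at h1
  have h3 : |x - x'| < ρ / 2 := by
    rw [lt_div_iff₀ (by norm_num)]
    have h4 := mul_lt_mul_of_pos_right h1 hρ
    have h5 : |x - x'| * (2 / ρ) * ρ = |x - x'| * 2 := by
      field_simp
    linarith
  exact h3.le

theorem GN_floor_mem {R ρ x : ℝ} (hρ : 0 < ρ) (hx : |x| ≤ R) :
    ⌊x * 2 / ρ⌋ ∈ Finset.Icc (-(⌈R * 2 / ρ⌉ + 1)) (⌈R * 2 / ρ⌉) := by
  rw [abs_le] at hx
  rw [Finset.mem_Icc]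
  have h1 := Int.le_ceil (R * 2 / ρ)
  have h0 : 0 < 2 / ρ := by positivity
  have h2 : x * 2 / ρ ≤ R * 2 / ρ := by
    rw [mul_div_assoc, mul_div_assoc]
    exact mul_le_mul_of_nonneg_right hx.2 h0.le
  have h3 : -(R * 2 / ρ) ≤ x * 2 / ρ := by
    rw [mul_div_assoc, mul_div_assoc, ← neg_mul]
    exact mul_le_mul_of_nonneg_right hx.1 h0.le
  constructor
  · rw [Int.le_floor]
    push_cast
    linarith
  · have h4 := Int.floor_le (x * 2 / ρ)
    have h5 : (⌊x * 2 / ρ⌋ : ℝ) ≤ (⌈R * 2 / ρ⌉ : ℤ) := by linarith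
    exact_mod_cast h5

theorem GN_floor_card {R ρ : ℝ} (hρ : 0 < ρ) (hR : ρ ≤ R) :
    ((Finset.Icc (-(⌈R * 2 / ρ⌉ + 1)) (⌈R * 2 / ρ⌉)).card : ℝ) ≤ 8 * (R / ρ) := by
  have h0 : 1 ≤ R / ρ := by rwa [one_le_div hρ]
  rw [Int.card_Icc]
  have h1 : 0 ≤ ⌈R * 2 / ρ⌉ := by
    apply Int.ceil_nonneg
    have : 0 ≤ R := hρ.le.trans hR
    positivity
  have h2 : ((⌈R * 2 / ρ⌉ + 1 - -(⌈R * 2 / ρ⌉ + 1)).toNat : ℤ) = 2 * ⌈R * 2 / ρ⌉ + 2 := by
    rw [Int.toNat_of_nonneg (by omega)]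
    ring
  have h3 : (((⌈R * 2 / ρ⌉ + 1 - -(⌈R * 2 / ρ⌉ + 1)).toNat : ℤ) : ℝ) = 2 * ⌈R * 2 / ρ⌉ + 2 := by
    rw [h2]
    push_cast
    ring
  rw [Int.cast_natCast] at h3
  rw [h3]
  have h4 := Int.ceil_lt_add_one (R * 2 / ρ)
  have h5 : R * 2 / ρ = 2 * (R / ρ) := by ring
  rw [h5] at h4 ⊢
  linarith

/-- Cells at an infinite place. -/
theorem GN_cell_inf {K : Type*} [Field K] [NumberField K] (v : InfinitePlace K) (R ρ : ℝ)
    (hρ : 0 < ρ) (hR : ρ ≤ R) : ∃ (n : ℕ) (c : K → Fin (n + 1)),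
      ((n + 1 : ℕ) : ℝ) ≤ (8 * (R / ρ)) ^ v.mult ∧
      ∀ y y', v y ≤ R → v y' ≤ R → c y = c y' → v (y - y') ≤ ρ := by
  classical
  obtain ⟨s, hs⟩ : ∃ s : Finset ℤ, s = Finset.Icc (-(⌈R * 2 / ρ⌉ + 1)) (⌈R * 2 / ρ⌉) := ⟨_, rfl⟩
  have hcard : (s.card : ℝ) ≤ 8 * (R / ρ) := hs ▸ GN_floor_card hρ hR
  have hR0 : 0 < R := hρ.trans_le hR
  have hmem : ∀ x : ℝ, |x| ≤ R → ⌊x * 2 / ρ⌋ ∈ s := fun x hx => hs ▸ GN_floor_mem hρ hx
  have hsne : s.Nonempty := ⟨_, hmem 0 (by rw [abs_zero]; exact hR0.le)⟩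
  have hv : ∀ y, v y = ‖v.embedding y‖ := fun y => (InfinitePlace.norm_embedding_eq v y).symm
  rcases v.isReal_or_isComplex with hr | hc
  · obtain ⟨n, c, hn, hc⟩ := GN_fin s hsne fun y : K => ⌊(v.embedding y).re * 2 / ρ⌋
    have hm : v.mult = 1 := by
      rw [InfinitePlace.mult, if_pos hr]
    refine ⟨n, c, ?_, fun y y' hy hy' h => ?_⟩
    · rw [hm, pow_one, hn]
      exact hcard
    · have h1 := hc y y' (hmem _ ((Complex.abs_re_le_norm _).trans (by rw [← hv]; exact hy)))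
        (hmem _ ((Complex.abs_re_le_norm _).trans (by rw [← hv]; exact hy'))) h
      have h2 := GN_floor (R := R) hρ h1
      have h3 : ∀ y : K, (v.embedding y).im = 0 := fun y => by
        have h4 := InfinitePlace.isReal_iff.1 hr
        have h5 : (starRingEnd ℂ) (v.embedding y) = v.embedding y := by
          have h6 := RingHom.congr_fun (ComplexEmbedding.isReal_iff.1 h4) y
          exact h6
        exact Complex.conj_eq_iff_im.1 h5
      rw [hv, map_sub]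
      have h4 : v.embedding y - v.embedding y' =
          (((v.embedding y).re - (v.embedding y').re : ℝ) : ℂ) := by
        apply Complex.ext
        · simp
        · simp [h3]
      rw [h4, Complex.norm_real, Real.norm_eq_abs]
      linarith
  · obtain ⟨n, c, hn, hc'⟩ := GN_fin (s ×ˢ s) (hsne.product hsne)
      fun y : K => (⌊(v.embedding y).re * 2 / ρ⌋, ⌊(v.embedding y).im * 2 / ρ⌋)
    have hm : v.mult = 2 := by
      rw [InfinitePlace.mult, if_neg (InfinitePlace.not_isReal_iff_isComplex.2 hc)]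
    have hin : ∀ y, v y ≤ R → (⌊(v.embedding y).re * 2 / ρ⌋, ⌊(v.embedding y).im * 2 / ρ⌋) ∈
        s ×ˢ s := fun y hy => Finset.mem_product.2
      ⟨hmem _ ((Complex.abs_re_le_norm _).trans (by rw [← hv]; exact hy)),
        hmem _ ((Complex.abs_im_le_norm _).trans (by rw [← hv]; exact hy))⟩
    refine ⟨n, c, ?_, fun y y' hy hy' h => ?_⟩
    · rw [hm, hn, Finset.card_product]
      push_cast
      rw [pow_two]
      exact mul_le_mul hcard hcard (Nat.cast_nonneg _) (by positivity)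
    · have h1 := hc' y y' (hin y hy) (hin y' hy') h
      have h2 := GN_floor (R := R) hρ (Prod.ext_iff.1 h1).1
      have h3 := GN_floor (R := R) hρ (Prod.ext_iff.1 h1).2
      rw [hv, map_sub]
      refine (Complex.norm_le_abs_re_add_abs_im _).trans ?_
      rw [Complex.sub_re, Complex.sub_im]
      linarith

end Pool.Agent.Lib.MP_17a322_nt.SL
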