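import Pool.Agent.Lib.MP_17a322_nt.SL.GDefs
import Pool.Agent.Lib.MP_17a322_nt.SL.GN2

/-!
Geometry of numbers: multiplicities of places, cells at all places.
-/

universe u

namespace Pool.Agent.Lib.MP_17a322_nt.SL

open MvPolynomial Height
open Pool.Agent.Lib.MP_17a322_nt.RO
open Pool.Agent.Lib.MP_17a322_nt.VJ

section

variable {K : Type*} [Field K] [AdmissibleAbsValues K]

theorem FS_ite (Sg : Finset (AbsoluteValue K ℝ)) (g f : AbsoluteValue K ℝ → ℝ) (hf : FS f)
    [∀ v, Decidable (v ∈ Sg)] : FS fun v => if v ∈ Sg then g v else f v := by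
  classical
  have h1 : {v : AdmissibleAbsValues.nonarchAbsVal (K := K) | v.val ∈ Sg}.Finite := by
    refine Set.Finite.preimage Subtype.val_injective.injOn (Finset.finite_toSet Sg)
  refine (h1.union hf).subset fun v hv => ?_
  by_cases h : v.val ∈ Sg
  · exact Or.inl h
  · refine Or.inr ?_
    have h2 : (if v.val ∈ Sg then g v.val else f v.val) ≠ 0 := hv
    rw [if_neg h] at h2
    exact h2

theorem FS_zero : FS fun _ : AbsoluteValue K ℝ => (0 : ℝ) := by
  simp [FS]

theorem gs_ite (Sg : Finset (AbsoluteValue K ℝ)) (g : AbsoluteValue K ℝ → ℝ)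
    [∀ v, Decidable (v ∈ Sg)] :
    gs (fun v => if v ∈ Sg then g v else 0) = ∑ v ∈ Sg, (nv v : ℝ) * g v := by
  classical
  unfold gs nv
  have h1 : (AdmissibleAbsValues.archAbsVal.map fun v : AbsoluteValue K ℝ =>
      if v ∈ Sg then g v else 0).sum =
      ∑ v ∈ Sg, (AdmissibleAbsValues.archAbsVal.count v : ℝ) * g v := by
    rw [Finset.sum_multiset_map_count]
    have h2 : ∀ v ∈ (AdmissibleAbsValues.archAbsVal (K := K)).toFinset,
        AdmissibleAbsValues.archAbsVal.count v • (if v ∈ Sg then g v else 0) =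
          if v ∈ Sg then (AdmissibleAbsValues.archAbsVal.count v : ℝ) * g v else 0 := by
      intro v _
      split_ifs
      · rw [nsmul_eq_mul]
      · rw [smul_zero]
    rw [Finset.sum_congr rfl h2, ← Finset.sum_filter]
    refine Finset.sum_subset_zero_on_sdiff ?_ ?_ fun _ _ => rfl
    · intro v hv
      exact (Finset.mem_filter.1 hv).2
    · intro v hv
      rw [Finset.mem_sdiff, Finset.mem_filter, not_and_or] at hv
      have h3 : v ∉ AdmissibleAbsValues.archAbsVal (K := K) := by
        intro h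
        rcases hv.2 with h4 | h4
        · exact h4 (Multiset.mem_toFinset.2 h)
        · exact h4 hv.1
      rw [Multiset.count_eq_zero_of_notMem h3, Nat.cast_zero, zero_mul]
  have h2 : (∑ᶠ v : AdmissibleAbsValues.nonarchAbsVal (K := K),
      if v.val ∈ Sg then g v.val else 0) =
      ∑ v ∈ Sg, (if v ∈ AdmissibleAbsValues.nonarchAbsVal (K := K) then g v else 0) := by
    rw [finsum_set_coe_eq_finsum_mem (s := AdmissibleAbsValues.nonarchAbsVal (K := K))
      (f := fun v => if v ∈ Sg then g v else 0), finsum_mem_def,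
      finsum_eq_sum_of_support_subset (s := Sg)]
    · refine Finset.sum_congr rfl fun v hv => ?_
      by_cases h : v ∈ AdmissibleAbsValues.nonarchAbsVal (K := K)
      · rw [Set.indicator_of_mem h, if_pos h, if_pos hv]
      · rw [Set.indicator_of_notMem h, if_neg h]
    · intro v hv
      rw [Function.mem_support] at hv
      by_contra h
      refine hv ?_
      have h5 : v ∉ Sg := h
      rw [Set.indicator_apply, if_neg h5]
      split_ifs <;> rfl
  rw [h1, h2, ← Finset.sum_add_distrib]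
  refine Finset.sum_congr rfl fun v _ => ?_
  split_ifs <;> push_cast <;> ring

theorem nv_pos {v : AbsoluteValue K ℝ} (hv : Pl v) : 0 < nv v := by
  classical
  unfold nv
  rcases hv with h | h
  · have := Multiset.count_pos.2 h
    omega
  · rw [if_pos h]
    omega

theorem tw_eq {q : ℕ} (Sg : Finset (AbsoluteValue K ℝ)) (c : AbsoluteValue K ℝ → Fin q → ℝ) :
    tw Sg c = ∑ v ∈ Sg, (nv v : ℝ) * ∑ k, c v k := by
  unfold tw
  rw [gs_ite]

theorem df_eq {q : ℕ} (Sg : Finset (AbsoluteValue K ℝ))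
    (M : AbsoluteValue K ℝ → Matrix (Fin q) (Fin q) K) :
    df Sg M = ∑ v ∈ Sg, (nv v : ℝ) * (q * Real.log (mx v (M v)) - Real.log (v (M v).det)) := by
  unfold df
  rw [gs_ite]

end

section

variable {K : Type*} [Field K] [NumberField K]

theorem not_nonarch_inf (v : NumberField.InfinitePlace K) :
    v.val ∉ AdmissibleAbsValues.nonarchAbsVal (K := K) := by
  intro h
  have h1 := AdmissibleAbsValues.isNonarchimedean v.val h
  have h2 := h1 1 1
  have h3 : v.val ((1 : K) + 1) = 2 := by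
    have h4 : v.val ((1 : K) + 1) = ‖v.embedding ((1 : K) + 1)‖ :=
      (NumberField.InfinitePlace.norm_embedding_eq v _).symm
    rw [h4, map_add, map_one]
    norm_num
  rw [h3, map_one, max_self] at h2
  norm_num at h2

theorem nv_inf (v : NumberField.InfinitePlace K) : nv v.val = v.mult := by
  classical
  unfold nv
  rw [if_neg (not_nonarch_inf v), add_zero]
  exact NumberField.count_multisetInfinitePlace_eq_mult v

theorem nv_fin (v : NumberField.FinitePlace K) : 1 ≤ nv v.val := by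
  classical
  unfold nv
  rw [if_pos (show v.val ∈ AdmissibleAbsValues.nonarchAbsVal (K := K) from v.isFinitePlace)]
  omega

/-- Cells at all places. -/
theorem GN_cell (v : AbsoluteValue K ℝ) (hv : Pl v) :
    ∃ C : ℝ, 1 ≤ C ∧ ∀ R ρ : ℝ, 0 < ρ → ρ ≤ R → ∃ (n : ℕ) (c : K → Fin (n + 1)),
      ((n + 1 : ℕ) : ℝ) ≤ (C * (R / ρ)) ^ nv v ∧
      ∀ y y', v y ≤ R → v y' ≤ R → c y = c y' → v (y - y') ≤ ρ := by
  rcases hv with h | h
  · obtain ⟨w, rfl⟩ : ∃ w : NumberField.InfinitePlace K, w.val = v :=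
      ⟨⟨v, NumberField.mem_multisetInfinitePlace.1 h⟩, rfl⟩
    refine ⟨8, by norm_num, fun R ρ hρ hR => ?_⟩
    obtain ⟨n, c, h1, h2⟩ := GN_cell_inf w R ρ hρ hR
    refine ⟨n, c, ?_, h2⟩
    rw [nv_inf]
    exact h1
  · obtain ⟨w, rfl⟩ : ∃ w : NumberField.FinitePlace K, w.val = v := ⟨⟨v, h⟩, rfl⟩
    obtain ⟨C, hC, h3⟩ := GN_cell_fin w
    refine ⟨C, hC, fun R ρ hρ hR => ?_⟩
    obtain ⟨n, c, h1, h2⟩ := h3 R ρ hρ hR
    refine ⟨n, c, h1.trans ?_, h2⟩
    have h4 : 1 ≤ C * (R / ρ) := one_le_mul_of_one_le_of_one_le hC ((one_le_div hρ).2 hR)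
    exact le_self_pow₀ h4 (by have := nv_fin w; omega)

end

end Pool.Agent.Lib.MP_17a322_nt.SL
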