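import Pool.Agent.Lib.MP_17a322_nt.SL.F5
import Pool.Agent.Lib.MP_17a322_nt.SL.G0
import Pool.Agent.Lib.MP_17a322_nt.VP.P2

/-!
Liouville's inequality, sums over the places, change of the degrees.
-/

universe u

namespace Pool.Agent.Lib.MP_17a322_nt.SL

open MvPolynomial Height Filter
open Pool.Agent.Lib.MP_17a322_nt.RO
open Pool.Agent.Lib.MP_17a322_nt.VJ
open Pool.Agent.Lib.MP_17a322_nt.VN hiding lf
open Pool.Agent.Lib.MP_17a322_nt.VA
open Pool.Agent.Lib.MP_17a322_nt.VP

/-- Liouville's inequality. -/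
theorem F_liouville {K : Type u} [Field K] [NumberField K] {N n D : ℕ} (A : AV K N)
    {L : Fin n → MvPolynomial (Fin (N + 1)) K} (hL : ∀ l, (L l).IsHomogeneous D) (P : A.Pts K)
    (X : Fin n → K) (hX : X ≠ 0) (h0 : ∑ l, aeval (A.x P) (L l) * X l ≠ 0)
    {v₀ : AbsoluteValue K ℝ} (hv : Pl v₀) :
    lam A v₀ D L P X ≤ logHeight X + D * logHeight (A.x P) + ∑ l, nh1 (L l) +
      gs (fun v : AbsoluteValue K ℝ => Real.log (cst v n)) := by
  classical
  have hx := Z_x_ne A P
  obtain ⟨l₀, hl₀⟩ := Function.ne_iff.1 hX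
  have hn : 1 ≤ n := by
    have := l₀.pos
    omega
  have f0 : FS fun v : AbsoluteValue K ℝ => Real.log (⨆ l, v (X l)) := FS_log_iSup hX
  have f1 : FS fun v : AbsoluteValue K ℝ => D * Real.log (⨆ i, v (A.x P i)) :=
    FS_const_mul _ (FS_log_iSup hx)
  have f2 := FS_add f0 f1
  have fN : FS fun v : AbsoluteValue K ℝ => ∑ l, Real.log (max 1 (NV v (L l))) :=
    FS_sum Finset.univ (f := fun l (v : AbsoluteValue K ℝ) => Real.log (max 1 (NV v (L l))))
      fun l _ => FS_nh1 (L l)
  have f3 := FS_add f2 fN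
  have fc : FS fun v : AbsoluteValue K ℝ => Real.log (cst v n) := FS_log_cst n
  have f4 := FS_add f3 fc
  obtain ⟨φ, hφ⟩ : ∃ φ : AbsoluteValue K ℝ → ℝ, ∀ v, φ v = Real.log (⨆ l, v (X l)) +
      D * Real.log (⨆ i, v (A.x P i)) + ∑ l, Real.log (max 1 (NV v (L l))) +
      Real.log (cst v n) - Real.log (v (∑ l, aeval (A.x P) (L l) * X l)) := ⟨_, fun _ => rfl⟩
  have hφ' : φ = fun v => Real.log (⨆ l, v (X l)) +
      D * Real.log (⨆ i, v (A.x P i)) + ∑ l, Real.log (max 1 (NV v (L l))) +
      Real.log (cst v n) - Real.log (v (∑ l, aeval (A.x P) (L l) * X l)) := funext hφ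
  have f5 : FS φ := by
    rw [hφ']
    exact FS_sub f4 (FS_log_abv h0)
  have hgs : gs φ = logHeight X + D * logHeight (A.x P) + ∑ l, nh1 (L l) +
      gs (fun v : AbsoluteValue K ℝ => Real.log (cst v n)) := by
    rw [hφ', gs_sub f4 (FS_log_abv h0), gs_add f3 fc, gs_add f2 fN, gs_add f0 f1, gs_const_mul,
      gs_log_iSup hx, gs_log_iSup hX, gs_log_abv h0, sub_zero,
      gs_sum Finset.univ (f := fun l (v : AbsoluteValue K ℝ) => Real.log (max 1 (NV v (L l))))
        fun l _ => FS_nh1 (L l)]
    rfl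
  have hnn : ∀ v, 0 ≤ φ v := by
    intro v
    obtain ⟨M, hM⟩ : ∃ M : ℝ, M = ⨆ i, v (A.x P i) := ⟨_, rfl⟩
    obtain ⟨T, hT⟩ : ∃ T : ℝ, T = ⨆ l, v (X l) := ⟨_, rfl⟩
    have hM0 : 0 < M := hM ▸ P_sup_pos hx v
    have hTl : ∀ l, v (X l) ≤ T := fun l =>
      hT ▸ le_ciSup (Set.finite_range fun l => v (X l)).bddAbove l
    have hT0 : 0 < T := (v.pos hl₀).trans_le (hTl l₀)
    obtain ⟨B, hB⟩ : ∃ B : ℝ, B = ∏ l, max 1 (NV v (L l)) := ⟨_, rfl⟩
    have hB1 : ∀ l, max 1 (NV v (L l)) ≤ B := by
      intro l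
      rw [hB, ← Finset.mul_prod_erase _ _ (Finset.mem_univ l)]
      refine le_mul_of_one_le_right (zero_le_one.trans (le_max_left _ _)) ?_
      have h2 := Finset.prod_le_prod (s := Finset.univ.erase l) (f := fun _ => (1 : ℝ))
        (g := fun l => max 1 (NV v (L l))) (fun i _ => zero_le_one) fun i _ => le_max_left _ _
      rwa [Finset.prod_const_one] at h2
    have hB0 : 0 < B := by
      rw [hB]
      exact Finset.prod_pos fun l _ => lt_max_of_lt_left one_pos
    have hc1 : 1 ≤ cst v n := one_le_cst v hn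
    have h1 := (SN_self v).sum_le Finset.univ (fun l => aeval (A.x P) (L l) * X l)
      (B := B * M ^ D * T) (by positivity) fun l _ => by
        show v (aeval (A.x P) (L l) * X l) ≤ B * M ^ D * T
        rw [map_mul]
        have h2 := P_form_le (hL l) hx v
        rw [← hM] at h2
        exact mul_le_mul (h2.trans (mul_le_mul_of_nonneg_right (hB1 l) (by positivity))) (hTl l)
          (v.nonneg _) (by positivity)
    rw [Finset.card_univ, Fintype.card_fin] at h1
    have h2 := Real.log_le_log (v.pos h0) h1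
    rw [Real.log_mul (by positivity) (by positivity), Real.log_mul (by positivity) (by positivity),
      Real.log_mul (by positivity) (by positivity), Real.log_pow, hB,
      Real.log_prod fun l _ => (lt_max_of_lt_left one_pos).ne', hM, hT] at h2
    rw [hφ]
    linarith
  rw [← hgs]
  refine le_trans ?_ (VD.gs_single f5 (fun v _ => hnn v) hv)
  rw [hφ]
  have h6 : 0 ≤ ∑ l, Real.log (max 1 (NV v₀ (L l))) :=
    Finset.sum_nonneg fun l _ => Real.log_nonneg (le_max_left _ _)
  have h8 : 0 ≤ Real.log (cst v₀ n) := Real.log_nonneg (one_le_cst v₀ hn)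
  unfold lam
  linarith

section

variable {K : Type u} [Field K] [NumberField K]

/-- The set of all infinite places and the places in `S`. -/
noncomputable def F_Sg (S : Finset (NumberField.FinitePlace K)) : Finset (AbsoluteValue K ℝ) :=
  open Classical in
  (Finset.univ.image fun v : NumberField.InfinitePlace K => v.val) ∪
    S.image fun v : NumberField.FinitePlace K => v.val

theorem F_mem_Sg {S : Finset (NumberField.FinitePlace K)} {v : AbsoluteValue K ℝ} :
    v ∈ F_Sg S ↔ (∃ w : NumberField.InfinitePlace K, w.val = v) ∨ ∃ w ∈ S, w.val = v := by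
  classical
  unfold F_Sg
  rw [Finset.mem_union, Finset.mem_image, Finset.mem_image]
  simp only [Finset.mem_univ, true_and]

theorem F_ne (v : NumberField.InfinitePlace K) (w : NumberField.FinitePlace K) :
    v.val ≠ w.val := by
  intro h
  refine not_nonarch_inf v ?_
  rw [h]
  exact w.isFinitePlace

theorem F_nv_fin (w : NumberField.FinitePlace K) : nv w.val = 1 := by
  classical
  unfold nv
  rw [if_pos (show w.val ∈ AdmissibleAbsValues.nonarchAbsVal (K := K) from w.isFinitePlace),
    Multiset.count_eq_zero_of_notMem, zero_add]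
  intro h
  exact F_ne ⟨w.val, NumberField.mem_multisetInfinitePlace.1 h⟩ w rfl

/-- The sum over the places of `F_Sg S`. -/
theorem F_gs (S : Finset (NumberField.FinitePlace K)) (f : AbsoluteValue K ℝ → ℝ) :
    gs (open Classical in fun v => if v ∈ F_Sg S then f v else 0) =
      (∑ v : NumberField.InfinitePlace K, (v.mult : ℝ) * f v.val) + ∑ v ∈ S, f v.val := by
  classical
  rw [gs_ite]
  have h1 : Disjoint (Finset.univ.image fun v : NumberField.InfinitePlace K => v.val)
      (S.image fun v : NumberField.FinitePlace K => v.val) := by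
    rw [Finset.disjoint_left]
    intro v hv hv'
    rw [Finset.mem_image] at hv hv'
    obtain ⟨w, -, rfl⟩ := hv
    obtain ⟨w', -, h2⟩ := hv'
    exact F_ne w w' h2.symm
  have h2 : F_Sg S = (Finset.univ.image fun v : NumberField.InfinitePlace K => v.val) ∪
      S.image fun v : NumberField.FinitePlace K => v.val := by
    ext v
    rw [F_mem_Sg, Finset.mem_union, Finset.mem_image, Finset.mem_image]
    simp only [Finset.mem_univ, true_and]
  have h3 : ∑ x ∈ Finset.univ.image fun v : NumberField.InfinitePlace K => v.val,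
      (nv x : ℝ) * f x = ∑ v : NumberField.InfinitePlace K, (nv v.val : ℝ) * f v.val :=
    Finset.sum_image fun v _ w _ h => Subtype.ext h
  have h4 : ∑ x ∈ S.image fun v : NumberField.FinitePlace K => v.val,
      (nv x : ℝ) * f x = ∑ v ∈ S, (nv v.val : ℝ) * f v.val :=
    Finset.sum_image fun v _ w _ h => Subtype.ext h
  rw [h2, Finset.sum_union h1, h3, h4]
  congr 1
  · exact Finset.sum_congr rfl fun v _ => by rw [nv_inf]
  · exact Finset.sum_congr rfl fun v _ => by rw [F_nv_fin, Nat.cast_one, one_mul]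

/-- The index sets as a function of the absolute value. -/
noncomputable def F_J {s : ℕ} (Ji : NumberField.InfinitePlace K → Finset (Fin s))
    (Jf : NumberField.FinitePlace K → Finset (Fin s)) (v : AbsoluteValue K ℝ) : Finset (Fin s) :=
  open Classical in
  if h : ∃ w : NumberField.InfinitePlace K, w.val = v then Ji h.choose else
    if h : ∃ w : NumberField.FinitePlace K, w.val = v then Jf h.choose else ∅

theorem F_J_inf {s : ℕ} (Ji : NumberField.InfinitePlace K → Finset (Fin s))
    (Jf : NumberField.FinitePlace K → Finset (Fin s)) (w : NumberField.InfinitePlace K) :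
    F_J Ji Jf w.val = Ji w := by
  have h : ∃ w' : NumberField.InfinitePlace K, w'.val = w.val := ⟨w, rfl⟩
  unfold F_J
  rw [dif_pos h]
  congr 1
  exact Subtype.ext h.choose_spec

theorem F_J_fin {s : ℕ} (Ji : NumberField.InfinitePlace K → Finset (Fin s))
    (Jf : NumberField.FinitePlace K → Finset (Fin s)) (w : NumberField.FinitePlace K) :
    F_J Ji Jf w.val = Jf w := by
  have h0 : ¬ ∃ w' : NumberField.InfinitePlace K, w'.val = w.val := by
    rintro ⟨w', h⟩
    exact F_ne w' w h
  have h : ∃ w' : NumberField.FinitePlace K, w'.val = w.val := ⟨w, rfl⟩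
  unfold F_J
  rw [dif_neg h0, dif_pos h]
  congr 1
  exact Subtype.ext h.choose_spec

end

end Pool.Agent.Lib.MP_17a322_nt.SL
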