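import Pool.Agent.Lib.MP_17a322_nt.SL.GDefs
import Pool.Agent.Lib.MP_17a322_nt.VA.ZDefs
import Pool.Agent.Lib.MP_17a322_nt.VA.Z3

/-!
Definitions of the end of the proof.
-/

universe u

namespace Pool.Agent.Lib.MP_17a322_nt.SL

open MvPolynomial Height

/-- The matrix with the rows of `L` and then the rows of `G`. -/
def stk {R : Type*} {r s : ℕ} (L : Fin r → Fin (r + s) → R) (G : Fin s → Fin (r + s) → R) :
    Matrix (Fin (r + s)) (Fin (r + s)) R :=
  Matrix.of (Fin.append L G)

/-- The local height of `(P, X)` with respect to the moving linear form `L` (coefficients of degree `D`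
in the coordinates `x` of `P`). -/
noncomputable def lamL {K : Type*} [Field K] {N n : ℕ} (D : ℕ)
    (L : Fin n → MvPolynomial (Fin (N + 1)) K) (x : Fin (N + 1) → K) (X : Fin n → K)
    (v : AbsoluteValue K ℝ) : ℝ :=
  Real.log (⨆ l, v (X l)) + D * Real.log (⨆ a, v (x a)) -
    Real.log (v (∑ l, aeval x (L l) * X l))

end Pool.Agent.Lib.MP_17a322_nt.SL
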