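import Pool.Agent.Lib.MP_17a322_nt.SL.F6
import Pool.Agent.Lib.MP_17a322_nt.SL.ZDefs

/-!
Change of the degrees, heights of minors, bound of the total local height.
-/

universe u

namespace Pool.Agent.Lib.MP_17a322_nt.SL

open MvPolynomial Height Filter
open Pool.Agent.Lib.MP_17a322_nt.RO
open Pool.Agent.Lib.MP_17a322_nt.VJ
open Pool.Agent.Lib.MP_17a322_nt.VN hiding lf
open Pool.Agent.Lib.MP_17a322_nt.VA
open Pool.Agent.Lib.MP_17a322_nt.VP

theorem F_det_homog {R σ : Type*} [CommRing R] {D k : ℕ}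
    (B : Matrix (Fin k) (Fin k) (MvPolynomial σ R)) (hB : ∀ a b, (B a b).IsHomogeneous D) :
    B.det.IsHomogeneous (k * D) := by
  classical
  rw [Matrix.det_apply]
  refine IsHomogeneous.sum _ _ _ fun τ _ => ?_
  have h1 : (∏ i, B (τ i) i).IsHomogeneous (∑ _i : Fin k, D) :=
    IsHomogeneous.prod _ _ _ fun i _ => hB _ _
  rw [Finset.sum_const, Finset.card_univ, Fintype.card_fin, smul_eq_mul] at h1
  rcases Int.units_eq_one_or (Equiv.Perm.sign τ) with h3 | h3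
  · rw [h3, one_smul]
    exact h1
  · rw [h3, Units.neg_smul, one_smul]
    exact h1.neg

section

variable {K : Type u} [Field K] [NumberField K] {N : ℕ} (A : AV K N) {g n : ℕ}

/-- The height of `E_P` is at most linear in the height of `P`. -/
theorem F_hE_le {D' : ℕ} (G : Matrix (Fin g) (Fin n) (MvPolynomial (Fin (N + 1)) K))
    (hG : ∀ i l, (G i l).IsHomogeneous D') :
    ∃ C : ℝ, ∀ P : A.Pts K, hE A G P ≤ C + (g * D' : ℕ) * logHeight (A.x P) := by
  obtain ⟨C, hC⟩ := logHeight_eval_le' (K := K)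
    (p := fun e : Fin g ↪o Fin n => (Matrix.of fun a b => G a (e b)).det)
    fun e => F_det_homog (Matrix.of fun a b => G a (e b)) fun a b => hG a (e b)
  refine ⟨C, fun P => ?_⟩
  refine le_trans (le_of_eq ?_) (hC (A.x P))
  unfold hE
  refine congrArg logHeight (funext fun e => ?_)
  rw [RingHom.map_det]
  rfl

/-- All minors. -/
theorem F_hE_le_min (G : Matrix (Fin g) (Fin n) (MvPolynomial (Fin (N + 1)) K)) (D : ℕ)
    (a₀ : Fin (N + 1)) (P : A.Pts K) (h0 : A.x P a₀ ≠ 0) :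
    hE A G P ≤ logHeight (fun f : Fin g → Fin n =>
      (Matrix.of fun a b => aeval (A.x P) (X a₀ ^ D * G a (f b))).det) := by
  have h1 : (fun f : Fin g → Fin n =>
      (Matrix.of fun a b => aeval (A.x P) (X a₀ ^ D * G a (f b))).det) =
      ((A.x P a₀ ^ D) ^ g) • fun f : Fin g → Fin n =>
      (Matrix.of fun a b => aeval (A.x P) (G a (f b))).det := by
    funext f
    rw [Pi.smul_apply, smul_eq_mul]
    have h2 : (Matrix.of fun a b => aeval (A.x P) (X a₀ ^ D * G a (f b)) :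
        Matrix (Fin g) (Fin g) K) =
        (A.x P a₀ ^ D) • Matrix.of fun a b => aeval (A.x P) (G a (f b)) := by
      ext a b
      rw [Matrix.smul_apply, Matrix.of_apply, Matrix.of_apply, map_mul, map_pow, aeval_X,
        smul_eq_mul]
    rw [h2, Matrix.det_smul, Fintype.card_fin]
  rw [h1, logHeight_smul_eq_logHeight _ (pow_ne_zero _ (pow_ne_zero _ h0))]
  exact logHeight_comp_le (fun e : Fin g ↪o Fin n => (e : Fin g → Fin n))
    fun f : Fin g → Fin n => (Matrix.of fun a b => aeval (A.x P) (G a (f b))).det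

omit [NumberField K] in
/-- Multiplication of a form by the power of a coordinate does not decrease its local height. -/
theorem F_lam_le {D D' E : ℕ} (hE : E = D + D') (L : Fin n → MvPolynomial (Fin (N + 1)) K)
    (a₀ : Fin (N + 1)) (P : A.Pts K) (h0 : A.x P a₀ ≠ 0) (X₁ : Fin n → K)
    (h1 : ∑ l, aeval (A.x P) (L l) * X₁ l ≠ 0) (v : AbsoluteValue K ℝ) :
    lam A v D L P X₁ ≤ lamL E (fun l => X a₀ ^ D' * L l) (A.x P) X₁ v := by
  unfold lam lamL
  have h2 : ∑ l, aeval (A.x P) (X a₀ ^ D' * L l) * X₁ l =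
      A.x P a₀ ^ D' * ∑ l, aeval (A.x P) (L l) * X₁ l := by
    rw [Finset.mul_sum]
    refine Finset.sum_congr rfl fun l _ => ?_
    rw [map_mul, map_pow, aeval_X, mul_assoc]
  have h3 : 0 < v (A.x P a₀) := v.pos h0
  have h4 : v (A.x P a₀) ≤ ⨆ a, v (A.x P a) :=
    le_ciSup (Set.finite_range fun a => v (A.x P a)).bddAbove a₀
  have h5 := Real.log_le_log h3 h4
  have h6 : (0 : ℝ) ≤ D' := Nat.cast_nonneg _
  have h7 := mul_le_mul_of_nonneg_left h5 h6
  rw [h2, map_mul, map_pow, Real.log_mul (pow_ne_zero _ h3.ne') (v.pos h1).ne', Real.log_pow, hE]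
  push_cast
  linarith

/-- The total local height. -/
noncomputable def F_tot {s : ℕ} (D : ℕ) (Λ : Matrix (Fin s) (Fin n) (MvPolynomial (Fin (N + 1)) K))
    (S : Finset (NumberField.FinitePlace K)) (Ji : NumberField.InfinitePlace K → Finset (Fin s))
    (Jf : NumberField.FinitePlace K → Finset (Fin s)) (P : A.Pts K) (X₁ : Fin n → K) : ℝ :=
  (∑ v : NumberField.InfinitePlace K, (v.mult : ℝ) * ∑ j ∈ Ji v, lam A v.val D (Λ j) P X₁) +
    ∑ v ∈ S, ∑ j ∈ Jf v, lam A v.val D (Λ j) P X₁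

theorem F_tot_le {s : ℕ} {D : ℕ} {Λ : Matrix (Fin s) (Fin n) (MvPolynomial (Fin (N + 1)) K)}
    (hΛ : ∀ j l, (Λ j l).IsHomogeneous D)
    (S : Finset (NumberField.FinitePlace K)) (Ji : NumberField.InfinitePlace K → Finset (Fin s))
    (Jf : NumberField.FinitePlace K → Finset (Fin s)) :
    ∃ M C : ℝ, 0 ≤ M ∧ ∀ (P : A.Pts K) (X₁ : Fin n → K), X₁ ≠ 0 →
      (∀ j, (∃ v, j ∈ Ji v) ∨ (∃ v ∈ S, j ∈ Jf v) → ∑ l, aeval (A.x P) (Λ j l) * X₁ l ≠ 0) →
      F_tot A D Λ S Ji Jf P X₁ ≤ M * (logHeight X₁ + logHeight (A.x P)) + C := by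
  classical
  obtain ⟨C₁, hC₁0, hC₁⟩ : ∃ C₁ : ℝ, 0 ≤ C₁ ∧ ∀ j, ∑ l, nh1 (Λ j l) +
      gs (fun v : AbsoluteValue K ℝ => Real.log (cst v n)) ≤ C₁ := by
    obtain ⟨C₁, hC₁⟩ := (Set.finite_range fun j => ∑ l, nh1 (Λ j l) +
      gs (fun v : AbsoluteValue K ℝ => Real.log (cst v n))).bddAbove
    exact ⟨max 0 C₁, le_max_left _ _, fun j => (hC₁ ⟨j, rfl⟩).trans (le_max_right _ _)⟩
  obtain ⟨M, hM⟩ : ∃ M : ℝ, M = (∑ v : NumberField.InfinitePlace K, (v.mult : ℝ)) + S.card :=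
    ⟨_, rfl⟩
  have hM0 : 0 ≤ M := by
    rw [hM]
    have h1 : 0 ≤ ∑ v : NumberField.InfinitePlace K, (v.mult : ℝ) :=
      Finset.sum_nonneg fun i _ => Nat.cast_nonneg _
    have h2 : (0 : ℝ) ≤ S.card := Nat.cast_nonneg _
    linarith
  refine ⟨M * (s * (D + 1)), M * (s * C₁), by positivity, fun P X₁ hX hne => ?_⟩
  obtain ⟨B, hB⟩ : ∃ B : ℝ, B = (D + 1) * (logHeight X₁ + logHeight (A.x P)) + C₁ := ⟨_, rfl⟩
  have hX0 : 0 ≤ logHeight X₁ := logHeight_nonneg _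
  have hx0 : 0 ≤ logHeight (A.x P) := logHeight_nonneg _
  have hD0 : (0 : ℝ) ≤ D := Nat.cast_nonneg _
  have hB0 : 0 ≤ B := by
    rw [hB]
    positivity
  have h1 : ∀ v : AbsoluteValue K ℝ, Pl v → ∀ J : Finset (Fin s),
      (∀ j ∈ J, ∑ l, aeval (A.x P) (Λ j l) * X₁ l ≠ 0) →
      ∑ j ∈ J, lam A v D (Λ j) P X₁ ≤ s * B := by
    intro v hv J hJ
    have h2 : ∀ j ∈ J, lam A v D (Λ j) P X₁ ≤ B := by
      intro j hj
      have h3 := F_liouville A (hΛ j) P X₁ hX (hJ j hj) hv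
      have h4 := hC₁ j
      have h5 := mul_nonneg hD0 hX0
      rw [hB]
      linarith
    refine (Finset.sum_le_sum h2).trans ?_
    rw [Finset.sum_const, nsmul_eq_mul]
    refine mul_le_mul_of_nonneg_right ?_ hB0
    exact_mod_cast (Finset.card_le_univ J).trans (le_of_eq (Fintype.card_fin s))
  have h2 : F_tot A D Λ S Ji Jf P X₁ ≤
      (∑ v : NumberField.InfinitePlace K, (v.mult : ℝ) * (s * B)) + ∑ _v ∈ S, s * B := by
    unfold F_tot
    refine add_le_add (Finset.sum_le_sum fun v _ => mul_le_mul_of_nonneg_left ?_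
      (Nat.cast_nonneg _)) (Finset.sum_le_sum fun v hv => ?_)
    · exact h1 v.val (Or.inl (NumberField.mem_multisetInfinitePlace.2 v.2)) _ fun j hj =>
        hne j (Or.inl ⟨v, hj⟩)
    · exact h1 v.val (Or.inr v.isFinitePlace) _ fun j hj => hne j (Or.inr ⟨v, hv, hj⟩)
  refine h2.trans (le_of_eq ?_)
  rw [Finset.sum_const, nsmul_eq_mul, ← Finset.sum_mul, ← add_mul, ← hM, hB]
  ring

end

end Pool.Agent.Lib.MP_17a322_nt.SL
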