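import Pool.Agent.Lib.MP_17a322_nt.SL.F7
import Pool.Agent.Lib.MP_17a322_nt.VP.P1

/-!
Vertical divisors.
-/

universe u

namespace Pool.Agent.Lib.MP_17a322_nt.SL

open MvPolynomial Height Filter
open Pool.Agent.Lib.MP_17a322_nt.RO
open Pool.Agent.Lib.MP_17a322_nt.VJ
open Pool.Agent.Lib.MP_17a322_nt.VN hiding lf
open Pool.Agent.Lib.MP_17a322_nt.VA
open Pool.Agent.Lib.MP_17a322_nt.VP

section

variable {K : Type u} [Field K] [NumberField K] {N : ℕ} (A : AV K N)

/-- The sum of the local heights with respect to the vertical divisor `f = 0`. -/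
noncomputable def F_ver (e : ℕ) (f : MvPolynomial (Fin (N + 1)) K)
    (S : Finset (NumberField.FinitePlace K)) (P : A.Pts K) : ℝ :=
  (∑ v : NumberField.InfinitePlace K, (v.mult : ℝ) *
    (e * Real.log (⨆ i, v (A.x P i)) - Real.log (v (aeval (A.x P) f)))) +
    ∑ v ∈ S, (e * Real.log (⨆ i, v (A.x P i)) - Real.log (v (aeval (A.x P) f)))

omit [NumberField K] in
theorem F_lam_ver (v : AbsoluteValue K ℝ) (e : ℕ) (f : MvPolynomial (Fin (N + 1)) K)
    (P : A.Pts K) : lam A v e (fun _ : Fin 1 => f) P (fun _ => 1) =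
      e * Real.log (⨆ i, v (A.x P i)) - Real.log (v (aeval (A.x P) f)) := by
  unfold lam
  have h1 : (⨆ _l : Fin 1, v (1 : K)) = 1 := by
    rw [map_one, ciSup_const]
  rw [h1, Real.log_one, zero_add, Fin.sum_univ_one, mul_one]

theorem F_ver_eq (e : ℕ) (f : MvPolynomial (Fin (N + 1)) K)
    (S : Finset (NumberField.FinitePlace K)) (P : A.Pts K) :
    F_ver A e f S P = F_tot A e (fun _ _ => f : Matrix (Fin 1) (Fin 1) _) S
      (fun _ => Finset.univ) (fun _ => Finset.univ) P (fun _ => 1) := by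
  unfold F_ver F_tot
  refine congrArg₂ (· + ·) (Finset.sum_congr rfl fun v _ => ?_) (Finset.sum_congr rfl fun v _ => ?_)
  · rw [Fin.sum_univ_one]
    exact congrArg _ (F_lam_ver A v.val e f P).symm
  · rw [Fin.sum_univ_one]
    exact (F_lam_ver A v.val e f P).symm

theorem F_ver_le {e : ℕ} {f : MvPolynomial (Fin (N + 1)) K} (hf : f.IsHomogeneous e)
    (S : Finset (NumberField.FinitePlace K)) :
    ∃ M C : ℝ, 0 ≤ M ∧ ∀ P : A.Pts K, aeval (A.x P) f ≠ 0 →
      F_ver A e f S P ≤ M * logHeight (A.x P) + C := by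
  obtain ⟨M, C, hM, h⟩ := F_tot_le A (n := 1) (s := 1) (D := e) (Λ := fun _ _ => f)
    (fun _ _ => hf) S (fun _ => Finset.univ) (fun _ => Finset.univ)
  refine ⟨M, C, hM, fun P hP => ?_⟩
  have h1 := h P (fun _ => 1) (fun h0 => one_ne_zero (congrFun h0 0)) fun j _ => by
    rw [Fin.sum_univ_one, mul_one]
    exact hP
  rw [F_ver_eq]
  have h2 : logHeight (fun _ : Fin 1 => (1 : K)) = 0 := by
    rw [logHeight_eq_zero_of_subsingleton]
  rwa [h2, zero_add] at h1

end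

/-- The vertical contribution is small on germs. -/
theorem F_ver_small {K : Type u} [Field K] [NumberField K] {N : ℕ} {A : AV K N}
    {Γ : AddSubgroup (A.Pts K)} (hΓ : Γ.FG) {H : ℕ → ℝ}
    (hH : Tendsto H (hyperfilter ℕ : Filter ℕ) atTop) {P : ℕ → A.Pts K} (hPΓ : ∀ i, P i ∈ Γ)
    (hupp : ∃ C : ℝ, 0 < C ∧ ∀ᶠ i in (hyperfilter ℕ : Filter ℕ), A.h (P i) ≤ C * H i)
    {p : A.Pts (GK K)} (hPp : IsGerm A P p) {e : ℕ}
    {f : MvPolynomial (Fin (N + 1)) K} (hf : f.IsHomogeneous e)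
    (hf0 : ∀ᶠ i in (hyperfilter ℕ : Filter ℕ), aeval (A.x (P i)) f ≠ 0)
    (S : Finset (NumberField.FinitePlace K)) {δ : ℝ} (hδ : 0 < δ) :
    ∀ᶠ i in (hyperfilter ℕ : Filter ℕ), F_ver A e f S (P i) ≤ δ * H i := by
  classical
  obtain ⟨M, hM, h1⟩ := P_gs_ite_le (K := K) (F_Sg S)
  have h2 : ∀ v ∈ F_Sg S, ∀ᶠ i in (hyperfilter ℕ : Filter ℕ),
      e * Real.log (⨆ a, v (A.x (P i) a)) - Real.log (v (aeval (A.x (P i)) f)) ≤
        δ / M * H i := by
    intro v hv
    have hPl : Pl v := by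
      rcases F_mem_Sg.1 hv with ⟨w, rfl⟩ | ⟨w, -, rfl⟩
      · exact Or.inl (NumberField.mem_multisetInfinitePlace.2 w.2)
      · exact Or.inr w.isFinitePlace
    filter_upwards [P_lower_form Γ hΓ hPΓ hH hupp hPp hPl hf hf0 (δ / M) (by positivity), hf0]
      with i hi hi0
    have h3 : 0 < ⨆ a, v (A.x (P i) a) := P_sup_pos (Z_x_ne A (P i)) v
    have h4 := Real.log_le_log (by positivity) hi
    rw [Real.log_mul (pow_pos h3 _).ne' (Real.exp_pos _).ne', Real.log_pow, Real.log_exp] at h4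
    linarith
  have h3 : ∀ᶠ i in (hyperfilter ℕ : Filter ℕ), ∀ v ∈ F_Sg S,
      e * Real.log (⨆ a, v (A.x (P i) a)) - Real.log (v (aeval (A.x (P i)) f)) ≤
        δ / M * H i := (Filter.eventually_all_finset _).2 h2
  filter_upwards [h3, hH.eventually_ge_atTop 0] with i hi hHi
  have h4 := h1 (fun v => e * Real.log (⨆ a, v (A.x (P i) a)) -
    Real.log (v (aeval (A.x (P i)) f))) (δ / M * H i) (by positivity) hi
  rw [F_gs S] at h4
  refine le_trans (le_of_eq ?_) (h4.trans (le_of_eq ?_))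
  · rfl
  · field_simp

end Pool.Agent.Lib.MP_17a322_nt.SL
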