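import Pool.Agent.Lib.MP_17a322_nt.SL.Z3b

/-!
The choice of the linear forms at one place.
-/

universe u

namespace Pool.Agent.Lib.MP_17a322_nt.SL

open MvPolynomial Height Filter
open Pool.Agent.Lib.MP_17a322_nt.RO
open Pool.Agent.Lib.MP_17a322_nt.VJ
open Pool.Agent.Lib.MP_17a322_nt.VN hiding lf
open Pool.Agent.Lib.MP_17a322_nt.VA
open Pool.Agent.Lib.MP_17a322_nt.VP

/-- Z_choice (helper33): the choice of `r` moving linear forms and of the weights at one place. -/
theorem Z_choice {K : Type u} [Field K] [NumberField K] {N : ℕ} (A : AV K N)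
    (Γ : AddSubgroup (A.Pts K)) (hΓ : Γ.FG) {H : ℕ → ℝ}
    (hH : Tendsto H (hyperfilter ℕ : Filter ℕ) atTop) (P : ℕ → A.Pts K) (hPΓ : ∀ i, P i ∈ Γ)
    (hupp : ∃ C : ℝ, 0 < C ∧ ∀ᶠ i in (hyperfilter ℕ : Filter ℕ), A.h (P i) ≤ C * H i)
    {p : A.Pts (GK K)} (hPp : IsGerm A P p) {v : AbsoluteValue K ℝ} (hv : Pl v)
    {r g s : ℕ} (D : ℕ)
    (G : Fin g → Fin (r + g) → MvPolynomial (Fin (N + 1)) K)
    (hG : ∀ a l, (G a l).IsHomogeneous D)
    (L : Fin s → Fin (r + g) → MvPolynomial (Fin (N + 1)) K)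
    (hL : ∀ j l, (L j l).IsHomogeneous D)
    (X : ℕ → Fin (r + g) → K) (hX0 : ∀ᶠ i in (hyperfilter ℕ : Filter ℕ), X i ≠ 0)
    (hXh : ∃ C : ℝ, ∀ᶠ i in (hyperfilter ℕ : Filter ℕ), logHeight (X i) ≤ C * H i)
    (hGX : ∀ᶠ i in (hyperfilter ℕ : Filter ℕ), ∀ a, ∑ l, aeval (A.x (P i)) (G a l) * X i l = 0)
    (J : Finset (Fin s))
    (hJ : ∀ J' ⊆ J, J'.card ≤ r → ∀ᶠ i in (hyperfilter ℕ : Filter ℕ),
      LinearIndependent K (Sum.elim (fun a l => aeval (A.x (P i)) (G a l))
        fun (j : J') l => aeval (A.x (P i)) (L j l)))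
    (hLX : ∀ j ∈ J, ∀ᶠ i in (hyperfilter ℕ : Filter ℕ),
      ∑ l, aeval (A.x (P i)) (L j l) * X i l ≠ 0) :
    ∃ (M : Fin r → Fin (r + g) → MvPolynomial (Fin (N + 1)) K) (c : Fin r → ℝ),
      (∀ k l, (M k l).IsHomogeneous D) ∧
      (∀ᶠ i in (hyperfilter ℕ : Filter ℕ), aeval (A.x (P i)) (stk M G).det ≠ 0) ∧
      (∀ k, 0 ≤ c k) ∧
      (∀ δ : ℝ, 0 < δ → ∀ᶠ i in (hyperfilter ℕ : Filter ℕ), ∀ k,
        v (∑ l, aeval (A.x (P i)) (M k l) * X i l) * Real.exp (c k * H i) ≤
          (⨆ l, v (X i l)) * (⨆ a, v (A.x (P i) a)) ^ D * Real.exp (δ * H i)) ∧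
      ∀ δ : ℝ, 0 < δ → ∀ᶠ i in (hyperfilter ℕ : Filter ℕ),
        ∑ j ∈ J, lamL D (L j) (A.x (P i)) (X i) v ≤ (∑ k, c k + δ) * H i := by
  classical
  -- the limits
  have hlim : ∀ j, ∃ l : ℝ, j ∈ J → 0 ≤ l ∧ ∀ κ : ℝ, 0 < κ →
      ∀ᶠ i in (hyperfilter ℕ : Filter ℕ),
        (l - κ) * H i ≤ lamL D (L j) (A.x (P i)) (X i) v ∧
          lamL D (L j) (A.x (P i)) (X i) v ≤ (l + κ) * H i := by
    intro j
    by_cases hj : j ∈ J
    · obtain ⟨l, hl⟩ := ZC_lim A hH P hupp hv D (L j) (hL j) X hX0 hXh (hLX j hj)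
      exact ⟨l, fun _ => hl⟩
    · exact ⟨0, fun h => absurd h hj⟩
  choose lam hlam using hlim
  -- a nonzero coordinate
  obtain ⟨a₀, ha₀⟩ : ∃ a, A.x p a ≠ 0 := by
    by_contra h
    push Not at h
    exact Z_x_ne A p (funext h)
  have hxa : ∀ᶠ i in (hyperfilter ℕ : Filter ℕ), A.x (P i) a₀ ≠ 0 := (hPp.ne_iff a₀).1 ha₀
  obtain ⟨U, hU⟩ : ∃ U : Fin (r + g) → Fin (r + g) → MvPolynomial (Fin (N + 1)) K,
      ∀ l m, U l m = if l = m then MvPolynomial.X a₀ ^ D else 0 :=
    ⟨fun l m => if l = m then MvPolynomial.X a₀ ^ D else 0, fun _ _ => rfl⟩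
  have hUh : ∀ l m, (U l m).IsHomogeneous D := by
    intro l m
    rw [hU]
    split_ifs
    · have h1 := (isHomogeneous_X K a₀).pow D
      rwa [one_mul] at h1
    · exact isHomogeneous_zero _ _ _
  -- the completion for a subset
  have hcomp : ∀ J' ⊆ J, J'.card ≤ r → ∃ (θ : Fin r → Fin s ⊕ Fin (r + g)),
      Function.Injective θ ∧ (∀ j ∈ J', ∃ k, θ k = Sum.inl j) ∧
      (∀ k j, θ k = Sum.inl j → j ∈ J') ∧
      ∀ᶠ i in (hyperfilter ℕ : Filter ℕ),
        aeval (A.x (P i)) (stk (fun k => Sum.elim L U (θ k)) G).det ≠ 0 := by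
    intro J' hJ' hcard
    have h1 : ∀ᶠ i in (hyperfilter ℕ : Filter ℕ), ∃ θ : Fin r → Fin s ⊕ Fin (r + g),
        Function.Injective θ ∧ (∀ j ∈ J', ∃ k, θ k = Sum.inl j) ∧
        (∀ k j, θ k = Sum.inl j → j ∈ J') ∧
        aeval (A.x (P i)) (stk (fun k => Sum.elim L U (θ k)) G).det ≠ 0 := by
      filter_upwards [hJ J' hJ' hcard, hxa] with i h2 h3
      obtain ⟨θ, ht1, ht2, ht3, ht4⟩ := ZC_ext (fun a l => aeval (A.x (P i)) (G a l))
        (fun j l => aeval (A.x (P i)) (L j l)) (fun l m => aeval (A.x (P i)) (U l m))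
        (fun z => by
          have h4 : z = ∑ l, (z l / A.x (P i) a₀ ^ D) • fun m => aeval (A.x (P i)) (U l m) := by
            funext m
            rw [Finset.sum_apply, Finset.sum_eq_single m]
            · rw [Pi.smul_apply, hU, if_pos rfl, map_pow, aeval_X, smul_eq_mul,
                div_mul_cancel₀ _ (pow_ne_zero _ h3)]
            · intro l _ hl
              rw [Pi.smul_apply, hU, if_neg hl, map_zero, smul_zero]
            · intro h
              exact absurd (Finset.mem_univ _) h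
          rw [h4]
          exact Submodule.sum_mem _ fun l _ => Submodule.smul_mem _ _
            (Submodule.subset_span ⟨l, rfl⟩)) J' h2
      refine ⟨θ, ht1, ht2, ht3, ?_⟩
      rw [← Z_det_map]
      have h5 : (fun k l => aeval (A.x (P i)) (Sum.elim L U (θ k) l)) =
          fun k => Sum.elim (fun j l => aeval (A.x (P i)) (L j l))
            (fun l m => aeval (A.x (P i)) (U l m)) (θ k) := by
        funext k l
        rcases θ k with j | m <;> rfl
      rw [h5]
      exact ht4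
    rw [Ultrafilter.eventually_exists_iff] at h1
    obtain ⟨θ, hθ⟩ := h1
    obtain ⟨i, hi⟩ := hθ.exists
    exact ⟨θ, hi.1, hi.2.1, hi.2.2.1, hθ.mono fun i hi => hi.2.2.2⟩
  -- the conclusion for a subset such that the other limits vanish
  have hfinal : ∀ J' ⊆ J, ∀ θ : Fin r → Fin s ⊕ Fin (r + g), Function.Injective θ →
      (∀ j ∈ J', ∃ k, θ k = Sum.inl j) → (∀ k j, θ k = Sum.inl j → j ∈ J') →
      (∀ k, 0 ≤ Sum.elim lam (fun _ => (0 : ℝ)) (θ k)) ∧
      (∀ δ : ℝ, 0 < δ → ∀ᶠ i in (hyperfilter ℕ : Filter ℕ), ∀ k,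
        v (∑ l, aeval (A.x (P i)) (Sum.elim L U (θ k) l) * X i l) *
          Real.exp (Sum.elim lam (fun _ => (0 : ℝ)) (θ k) * H i) ≤
          (⨆ l, v (X i l)) * (⨆ a, v (A.x (P i) a)) ^ D * Real.exp (δ * H i)) ∧
      ((∀ j ∈ J, j ∉ J' → lam j ≤ 0) → ∀ δ : ℝ, 0 < δ →
        ∀ᶠ i in (hyperfilter ℕ : Filter ℕ),
        ∑ j ∈ J, lamL D (L j) (A.x (P i)) (X i) v ≤
          (∑ k, Sum.elim lam (fun _ => (0 : ℝ)) (θ k) + δ) * H i) := by
    intro J' hJ' θ hθi hθ1 hθ2
    refine ⟨fun k => ?_, fun δ hδ => ?_, fun h0 δ hδ => ?_⟩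
    · rcases hk : θ k with j | l
      · exact (hlam j (hJ' (hθ2 k j hk))).1
      · exact le_rfl
    · refine eventually_all.2 fun k => ?_
      rcases hk : θ k with j | l
      · have hj := hJ' (hθ2 k j hk)
        filter_upwards [(hlam j hj).2 δ hδ, hX0, hLX j hj] with i h1 h2 h3
        have hs0 : 0 < ⨆ a, v (A.x (P i) a) := P_sup_pos (Z_x_ne A _) v
        have hXs : 0 < ⨆ l, v (X i l) := vm_pos v h2
        show v (∑ l, aeval (A.x (P i)) (L j l) * X i l) * Real.exp (lam j * H i) ≤ _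
        have h4 := v.pos h3
        rw [← Real.log_le_log_iff (by positivity) (by positivity),
          Real.log_mul h4.ne' (Real.exp_pos _).ne', Real.log_exp,
          Real.log_mul (by positivity) (Real.exp_pos _).ne', Real.log_exp,
          Real.log_mul hXs.ne' (by positivity), Real.log_pow]
        have h5 := h1.1
        unfold lamL at h5
        have h6 : (lam j - δ) * H i = lam j * H i - δ * H i := by ring
        rw [h6] at h5
        linarith
      · filter_upwards [hX0, hH.eventually (eventually_ge_atTop 0)] with i h2 h3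
        have hs0 : 0 < ⨆ a, v (A.x (P i) a) := P_sup_pos (Z_x_ne A _) v
        have hXs : 0 < ⨆ l, v (X i l) := vm_pos v h2
        show v (∑ m, aeval (A.x (P i)) (U l m) * X i m) * Real.exp (0 * H i) ≤ _
        have h4 : ∑ m, aeval (A.x (P i)) (U l m) * X i m = A.x (P i) a₀ ^ D * X i l := by
          rw [Finset.sum_eq_single l]
          · rw [hU, if_pos rfl, map_pow, aeval_X]
          · intro m _ hm
            rw [hU, if_neg (Ne.symm hm), map_zero, zero_mul]
          · intro h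
            exact absurd (Finset.mem_univ _) h
        rw [h4, zero_mul, Real.exp_zero, mul_one, map_mul, map_pow]
        have h5 : v (A.x (P i) a₀) ^ D ≤ (⨆ a, v (A.x (P i) a)) ^ D :=
          pow_le_pow_left₀ (v.nonneg _)
            (le_ciSup (Set.finite_range fun a => v (A.x (P i) a)).bddAbove a₀) D
        have h6 : v (X i l) ≤ ⨆ l, v (X i l) :=
          le_ciSup (Set.finite_range fun l => v (X i l)).bddAbove l
        have h7 : (1 : ℝ) ≤ Real.exp (δ * H i) := Real.one_le_exp (mul_nonneg hδ.le h3)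
        calc v (A.x (P i) a₀) ^ D * v (X i l) ≤
            (⨆ a, v (A.x (P i) a)) ^ D * ⨆ l, v (X i l) :=
              mul_le_mul h5 h6 (v.nonneg _) (by positivity)
          _ = (⨆ l, v (X i l)) * (⨆ a, v (A.x (P i) a)) ^ D * 1 := by ring
          _ ≤ _ := mul_le_mul_of_nonneg_left h7 (by positivity)
    · have hδ' : 0 < δ / (J.card + 1) := by positivity
      have h1 : ∀ᶠ i in (hyperfilter ℕ : Filter ℕ), ∀ j ∈ J,
          lamL D (L j) (A.x (P i)) (X i) v ≤ (lam j + δ / (J.card + 1)) * H i :=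
        (eventually_all_finset J).2 fun j hj => ((hlam j hj).2 _ hδ').mono fun i hi => hi.2
      have h2 : ∑ j ∈ J, lam j ≤ ∑ k, Sum.elim lam (fun _ => (0 : ℝ)) (θ k) := by
        have h3 : ∑ j ∈ J, lam j ≤ ∑ j ∈ J', lam j := by
          rw [← Finset.sum_sdiff hJ']
          have h4 : ∑ j ∈ J \ J', lam j ≤ 0 := Finset.sum_nonpos fun j hj => by
            rw [Finset.mem_sdiff] at hj
            exact h0 j hj.1 hj.2
          linarith
        refine h3.trans ?_
        have hch : ∀ j : J', ∃ k, θ k = Sum.inl j.1 := fun j => hθ1 j j.2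
        choose κ hκ using hch
        have hκi : Function.Injective κ := fun j j' h => by
          have h5 := hκ j
          rw [h, hκ j'] at h5
          exact Subtype.ext (Sum.inl_injective h5).symm
        have h5 : ∑ j ∈ J', lam j = ∑ j : J', Sum.elim lam (fun _ => (0 : ℝ)) (θ (κ j)) := by
          rw [← Finset.sum_coe_sort J' lam]
          refine Finset.sum_congr rfl fun j _ => ?_
          rw [hκ]
          rfl
        rw [h5, ← Finset.sum_image (f := fun k => Sum.elim lam (fun _ => (0 : ℝ)) (θ k))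
          (fun j _ j' _ h => hκi h)]
        refine Finset.sum_le_sum_of_subset_of_nonneg (Finset.subset_univ _) fun k _ _ => ?_
        rcases hk : θ k with j | l
        · exact (hlam j (hJ' (hθ2 k j hk))).1
        · exact le_rfl
      filter_upwards [h1, hH.eventually (eventually_ge_atTop 0)] with i h3 h4
      have h5 : ∑ j ∈ J, lamL D (L j) (A.x (P i)) (X i) v ≤
          ∑ j ∈ J, (lam j + δ / (J.card + 1)) * H i := Finset.sum_le_sum fun j hj => h3 j hj
      refine h5.trans ?_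
      rw [← Finset.sum_mul, Finset.sum_add_distrib, Finset.sum_const, nsmul_eq_mul]
      refine mul_le_mul_of_nonneg_right ?_ h4
      have h6 : (J.card : ℝ) * (δ / (J.card + 1)) ≤ δ := by
        have h7 : (0 : ℝ) < J.card + 1 := by positivity
        rw [mul_div_assoc', div_le_iff₀ h7]
        have h8 : (0 : ℝ) ≤ J.card := Nat.cast_nonneg _
        nlinarith
      linarith
  -- the two cases
  rcases le_or_gt J.card r with hcard | hcard
  · obtain ⟨θ, hθi, hθ1, hθ2, hθd⟩ := hcomp J (Finset.Subset.refl J) hcard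
    obtain ⟨h1, h2, h3⟩ := hfinal J (Finset.Subset.refl J) θ hθi hθ1 hθ2
    refine ⟨fun k => Sum.elim L U (θ k), fun k => Sum.elim lam (fun _ => (0 : ℝ)) (θ k),
      fun k l => ?_, hθd, h1, h2, h3 fun j hj hj' => absurd hj hj'⟩
    show (Sum.elim L U (θ k) l).IsHomogeneous D
    rcases θ k with j | m
    · exact hL j l
    · exact hUh m l
  · obtain ⟨J', hJ', hJc, hJt⟩ := ZC_top J lam r hcard.le
    obtain ⟨θ, hθi, hθ1, hθ2, hθd⟩ := hcomp J' hJ' hJc.le
    obtain ⟨h1, h2, h3⟩ := hfinal J' hJ' θ hθi hθ1 hθ2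
    have hMh : ∀ k l, (Sum.elim L U (θ k) l).IsHomogeneous D := by
      intro k l
      rcases θ k with j | m
      · exact hL j l
      · exact hUh m l
    refine ⟨fun k => Sum.elim L U (θ k), fun k => Sum.elim lam (fun _ => (0 : ℝ)) (θ k),
      hMh, hθd, h1, h2, h3 ?_⟩
    obtain ⟨k, hk⟩ := ZC_min A Γ hΓ hH P hPΓ hupp hPp hv D G hG _ hMh hθd X hX0 hGX
      (fun k => Sum.elim lam (fun _ => (0 : ℝ)) (θ k)) h2
    -- all elements of the range of `θ` come from `J'`
    have hsurj : ∃ j ∈ J', θ k = Sum.inl j := by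
      have hch : ∀ j : J', ∃ k, θ k = Sum.inl j.1 := fun j => hθ1 j j.2
      choose κ hκ using hch
      have hκi : Function.Injective κ := fun j j' h => by
        have h5 := hκ j
        rw [h, hκ j'] at h5
        exact Subtype.ext (Sum.inl_injective h5).symm
      have hκb : Function.Bijective κ := by
        rw [Fintype.bijective_iff_injective_and_card]
        exact ⟨hκi, by rw [Fintype.card_coe, hJc, Fintype.card_fin]⟩
      obtain ⟨j, hj⟩ := hκb.2 k
      exact ⟨j.1, j.2, by rw [← hj, hκ]⟩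
    obtain ⟨j', hj', hkj⟩ := hsurj
    have hk' : lam j' ≤ 0 := by
      have h4 : Sum.elim lam (fun _ => (0 : ℝ)) (θ k) = lam j' := by
        rw [hkj]
        rfl
      rw [← h4]
      exact hk
    intro j hj hjn
    exact (hJt j hj hjn j' hj').trans hk'

end Pool.Agent.Lib.MP_17a322_nt.SL
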