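import Pool.Agent.Lib.MP_17a322_nt.SL.Z9
import Pool.Agent.Lib.MP_17a322_nt.SL.Z3

/-!
The germ form of the main theorem.
-/

universe u

namespace Pool.Agent.Lib.MP_17a322_nt.SL

open MvPolynomial Height Filter
open Pool.Agent.Lib.MP_17a322_nt.RO
open Pool.Agent.Lib.MP_17a322_nt.VJ
open Pool.Agent.Lib.MP_17a322_nt.VN hiding lf
open Pool.Agent.Lib.MP_17a322_nt.VA
open Pool.Agent.Lib.MP_17a322_nt.VP

/-- The germ form of the main theorem (from CORE and Z_choice). -/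
theorem SL_germ1 {K : Type u} [Field K] [NumberField K] {N : ℕ} (A : AV K N)
    (Γ : AddSubgroup (A.Pts K)) (hΓ : Γ.FG) {H : ℕ → ℝ}
    (hH : Tendsto H (hyperfilter ℕ : Filter ℕ) atTop) (P : ℕ → A.Pts K) (hPΓ : ∀ i, P i ∈ Γ)
    (hupp : ∃ C : ℝ, 0 < C ∧ ∀ᶠ i in (hyperfilter ℕ : Filter ℕ), A.h (P i) ≤ C * H i)
    {p : A.Pts (GK K)} (hPp : IsGerm A P p)
    (Sg : Finset (AbsoluteValue K ℝ)) (hSg : ∀ v ∈ Sg, Pl v)
    (hinf : ∀ v : NumberField.InfinitePlace K, v.val ∈ Sg) {r g s : ℕ} (D : ℕ)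
    (G : Fin g → Fin (r + g) → MvPolynomial (Fin (N + 1)) K)
    (hG : ∀ a l, (G a l).IsHomogeneous D)
    (L : Fin s → Fin (r + g) → MvPolynomial (Fin (N + 1)) K)
    (hL : ∀ j l, (L j l).IsHomogeneous D)
    (X : ℕ → Fin (r + g) → K) (hX0 : ∀ᶠ i in (hyperfilter ℕ : Filter ℕ), X i ≠ 0)
    (hXh : ∃ C : ℝ, ∀ᶠ i in (hyperfilter ℕ : Filter ℕ), logHeight (X i) ≤ C * H i)
    (hGX : ∀ᶠ i in (hyperfilter ℕ : Filter ℕ), ∀ a, ∑ l, aeval (A.x (P i)) (G a l) * X i l = 0)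
    (J : AbsoluteValue K ℝ → Finset (Fin s))
    (hJ : ∀ v ∈ Sg, ∀ J' ⊆ J v, J'.card ≤ r → ∀ᶠ i in (hyperfilter ℕ : Filter ℕ),
      LinearIndependent K (Sum.elim (fun a l => aeval (A.x (P i)) (G a l))
        fun (j : J') l => aeval (A.x (P i)) (L j l)))
    (hLX : ∀ v ∈ Sg, ∀ j ∈ J v, ∀ᶠ i in (hyperfilter ℕ : Filter ℕ),
      ∑ l, aeval (A.x (P i)) (L j l) * X i l ≠ 0)
    (ε : ℝ) (hε : 0 < ε)
    (hviol : ∀ᶠ i in (hyperfilter ℕ : Filter ℕ),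
      r * logHeight (X i) - logHeight (fun f : Fin g → Fin (r + g) =>
        (Matrix.of fun a b => aeval (A.x (P i)) (G a (f b))).det) + ε * H i ≤
        gs (open Classical in fun v => if v ∈ Sg then ∑ j ∈ J v, lamL D (L j) (A.x (P i)) (X i) v
          else 0)) :
    ∃ (y : Fin (r + g) → GK K) (u : ℕ → Fin (r + g) → K),
      (∀ l, IsAlgebraic (IntermediateField.adjoin K (Set.range (rt (A.x p)))) (y l)) ∧
      (∑ l, y l * gm (fun i => X i l) = 0) ∧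
      (∀ᶠ i in (hyperfilter ℕ : Filter ℕ), ∀ a,
        ∑ l, aeval (A.x (P i)) (G a l) * u i l = 0) ∧
      ∑ l, y l * gm (fun i => u i l) ≠ 0 := by
  classical
  -- the choice at each place
  have hch : ∀ v, ∃ (M : Fin r → Fin (r + g) → MvPolynomial (Fin (N + 1)) K) (c : Fin r → ℝ),
      v ∈ Sg → (∀ k l, (M k l).IsHomogeneous D) ∧
      (∀ᶠ i in (hyperfilter ℕ : Filter ℕ), aeval (A.x (P i)) (stk M G).det ≠ 0) ∧
      (∀ k, 0 ≤ c k) ∧
      (∀ δ : ℝ, 0 < δ → ∀ᶠ i in (hyperfilter ℕ : Filter ℕ), ∀ k,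
        v (∑ l, aeval (A.x (P i)) (M k l) * X i l) * Real.exp (c k * H i) ≤
          (⨆ l, v (X i l)) * (⨆ a, v (A.x (P i) a)) ^ D * Real.exp (δ * H i)) ∧
      ∀ δ : ℝ, 0 < δ → ∀ᶠ i in (hyperfilter ℕ : Filter ℕ),
        ∑ j ∈ J v, lamL D (L j) (A.x (P i)) (X i) v ≤ (∑ k, c k + δ) * H i := by
    intro v
    by_cases hv : v ∈ Sg
    · obtain ⟨M, c, h1⟩ := Z_choice A Γ hΓ hH P hPΓ hupp hPp (hSg v hv) D G hG L hL X hX0 hXh hGX
        (J v) (hJ v hv) (hLX v hv)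
      exact ⟨M, c, fun _ => h1⟩
    · exact ⟨0, 0, fun h => absurd h hv⟩
  choose M c hMc using hch
  obtain ⟨κ, hκ, hκt⟩ := Z_kap (K := K) Sg
  have hδ : 0 < ε / (2 * κ) := by positivity
  have hlam : ∀ᶠ i in (hyperfilter ℕ : Filter ℕ), ∀ v ∈ Sg,
      ∑ j ∈ J v, lamL D (L j) (A.x (P i)) (X i) v ≤ (∑ k, c v k + ε / (2 * κ)) * H i :=
    (eventually_all_finset Sg).2 fun v hv => (hMc v hv).2.2.2.2 _ hδ
  refine CORE A Γ hΓ hH P hPΓ hupp hPp Sg hSg hinf D M G (fun v hv => (hMc v hv).1) hG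
    (fun v hv => (hMc v hv).2.1) X hX0 ?_ hGX c (fun v hv => (hMc v hv).2.2.1)
    (fun v hv => (hMc v hv).2.2.2.1) (ε / 2) (half_pos hε) ?_
  · obtain ⟨C, hC⟩ := hXh
    refine ⟨|C| + 1, by positivity, ?_⟩
    filter_upwards [hC, hH.eventually (eventually_ge_atTop 0)] with i h1 h2
    refine h1.trans (mul_le_mul_of_nonneg_right ?_ h2)
    have := le_abs_self C
    linarith
  · filter_upwards [hviol, hlam, hH.eventually (eventually_ge_atTop 0)] with i h1 h2 h3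
    have h4 : gs (fun v => if v ∈ Sg then ∑ j ∈ J v, lamL D (L j) (A.x (P i)) (X i) v else 0) ≤
        gs (fun v => H i * (if v ∈ Sg then ∑ k, c v k else 0) +
          if v ∈ Sg then ε / (2 * κ) * H i else 0) := by
      refine gs_le (S_FS_ite Sg _) (FS_add (FS_const_mul _ (S_FS_ite Sg _)) (S_FS_ite Sg _))
        fun v _ => ?_
      by_cases hv : v ∈ Sg
      · rw [if_pos hv, if_pos hv, if_pos hv]
        have h5 := h2 v hv
        linarith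
      · rw [if_neg hv, if_neg hv, if_neg hv, mul_zero, add_zero]
    rw [gs_add (FS_const_mul _ (S_FS_ite Sg _)) (S_FS_ite Sg _), gs_const_mul] at h4
    have h5 := hκt (ε / (2 * κ) * H i) (by positivity)
    have h6 : κ * (ε / (2 * κ) * H i) = ε / 2 * H i := by
      field_simp
    rw [h6] at h5
    linarith

end Pool.Agent.Lib.MP_17a322_nt.SL
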