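import Pool.Agent.Lib.MP_17a322_nt.SL.F7b
import Pool.Agent.Lib.MP_17a322_nt.SL.Z10

/-!
The final theorem.
-/

universe u

namespace Pool.Agent.Lib.MP_17a322_nt.SL

open MvPolynomial Height Filter
open Pool.Agent.Lib.MP_17a322_nt.RO
open Pool.Agent.Lib.MP_17a322_nt.VJ
open Pool.Agent.Lib.MP_17a322_nt.VN hiding lf
open Pool.Agent.Lib.MP_17a322_nt.VA
open Pool.Agent.Lib.MP_17a322_nt.VP

section

variable {K : Type u} [Field K] {N : ℕ} {A : AV K N}

theorem F_gm_aeval {P : ℕ → A.Pts K} {p : A.Pts (GK K)} {c : GK K}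
    (hc : ∀ a, gm (fun i => A.x (P i) a) = c * A.x p a) {D : ℕ}
    {f : MvPolynomial (Fin (N + 1)) K} (hf : f.IsHomogeneous D) :
    gm (fun i => aeval (A.x (P i)) f) = c ^ D * aeval (A.x p) f := by
  rw [← Z_aeval_smul hf c (A.x p)]
  have h1 : (fun i => c * A.x p i) = fun i => gm fun ν => A.x (P ν) i := by
    funext i
    exact (hc i).symm
  rw [h1, Z_aeval_gm (fun a i => A.x (P i) a) f]

/-- Independence at almost all indices. -/
theorem F_Ind_ev {g n s D D' : ℕ} {G : Matrix (Fin g) (Fin n) (MvPolynomial (Fin (N + 1)) K)}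
    (hG : ∀ i l, (G i l).IsHomogeneous D')
    {Λ : Matrix (Fin s) (Fin n) (MvPolynomial (Fin (N + 1)) K)}
    (hΛ : ∀ j l, (Λ j l).IsHomogeneous D) {T : Finset (Fin s)} (hI : Ind A G Λ T)
    {P : ℕ → A.Pts K} {p : A.Pts (GK K)} (hPp : IsGerm A P p) (hp : Gen A p) {a₀ : Fin (N + 1)}
    (ha₀ : A.x p a₀ ≠ 0) :
    ∀ᶠ i in (hyperfilter ℕ : Filter ℕ),
      LinearIndependent K (Sum.elim (fun a l => aeval (A.x (P i)) (X a₀ ^ D * G a l))
        fun (j : T) l => aeval (A.x (P i)) (X a₀ ^ D' * Λ j l)) := by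
  obtain ⟨c, hc0, hc⟩ := hPp
  have h1 := hI (GK K) p hp
  have h2 := h1.units_smul (Sum.elim (fun _ => (Units.mk0 (A.x p a₀) ha₀) ^ D)
    fun _ => (Units.mk0 (A.x p a₀) ha₀) ^ D')
  refine F_li_germ h2 (fun i => Sum.elim (fun a l => aeval (A.x (P i)) (X a₀ ^ D * G a l))
        fun (j : T) l => aeval (A.x (P i)) (X a₀ ^ D' * Λ j l)) (c := c ^ (D + D'))
    (pow_ne_zero _ hc0) ?_
  intro t l
  rcases t with a | j
  · have h3 : (X a₀ ^ D * G a l).IsHomogeneous (D + D') := by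
      have h4 := ((isHomogeneous_X K a₀).pow D).mul (hG a l)
      rwa [one_mul] at h4
    refine (F_gm_aeval hc h3).trans ?_
    rw [map_mul, map_pow, aeval_X]
    rfl
  · have h3 : (X a₀ ^ D' * Λ j l).IsHomogeneous (D + D') := by
      have h4 := ((isHomogeneous_X K a₀).pow D').mul (hΛ j l)
      rwa [one_mul, Nat.add_comm D' D] at h4
    refine (F_gm_aeval hc h3).trans ?_
    rw [map_mul, map_pow, aeval_X]
    rfl

end

/-- The final theorem, with `F_tot`. The form `f` gives a vertical divisor. -/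
theorem SL_final' {K : Type u} [Field K] [NumberField K] {N : ℕ} (A : AV K N)
    (Γ : AddSubgroup (A.Pts K)) (hΓ : Γ.FG) {g r s : ℕ} (hr : 0 < r) (D D' : ℕ)
    (G : Matrix (Fin g) (Fin (r + g)) (MvPolynomial (Fin (N + 1)) K))
    (hG : ∀ i l, (G i l).IsHomogeneous D')
    (Λ : Matrix (Fin s) (Fin (r + g)) (MvPolynomial (Fin (N + 1)) K))
    (hΛ : ∀ j l, (Λ j l).IsHomogeneous D) (S : Finset (NumberField.FinitePlace K))
    (Ji : NumberField.InfinitePlace K → Finset (Fin s))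
    (Jf : NumberField.FinitePlace K → Finset (Fin s))
    (hJi : ∀ v, ∀ T ⊆ Ji v, T.card ≤ r → Ind A G Λ T)
    (hJf : ∀ v ∈ S, ∀ T ⊆ Jf v, T.card ≤ r → Ind A G Λ T) (e : ℕ)
    (f : MvPolynomial (Fin (N + 1)) K) (hf : f.IsHomogeneous e) (hfA : f ∉ A.I)
    (ε : ℝ) (hε : 0 < ε) :
    ∃ (C : ℝ) (F : MvPolynomial (Fin (N + 1) ⊕ Fin (r + g)) K), Exc A G F ∧
      ∀ P ∈ Γ, ∀ X₁ : Fin (r + g) → K, X₁ ≠ 0 → X₁ ∈ Fib A G P →
        aeval (Sum.elim (A.x P) X₁) F ≠ 0 →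
        (∀ j, (∃ v, j ∈ Ji v) ∨ (∃ v ∈ S, j ∈ Jf v) →
          (∑ l, aeval (A.x P) (Λ j l) * X₁ l) ≠ 0) ∧ aeval (A.x P) f ≠ 0 ∧
        F_tot A D Λ S Ji Jf P X₁ + F_ver A e f S P + hE A G P ≤
          r * logHeight X₁ + ε * (logHeight X₁ + logHeight (A.x P)) + C := by
  classical
  by_contra hcon
  push Not at hcon
  obtain ⟨Js, hJs⟩ : ∃ Js : Finset (Fin s), ∀ j, j ∈ Js ↔ (∃ v, j ∈ Ji v) ∨ (∃ v ∈ S, j ∈ Jf v) :=
    ⟨Finset.univ.filter fun j => (∃ v, j ∈ Ji v) ∨ (∃ v ∈ S, j ∈ Jf v), fun j => by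
      rw [Finset.mem_filter]
      exact ⟨fun h => h.2, fun h => ⟨Finset.mem_univ j, h⟩⟩⟩
  obtain ⟨bad, hbad⟩ : ∃ bad : ℕ → Set (A.Pts K × (Fin (r + g) → K)), ∀ ν q, q ∈ bad ν ↔
      q.1 ∈ Γ ∧ q.2 ≠ 0 ∧ q.2 ∈ Fib A G q.1 ∧
      (∀ j, (∃ v, j ∈ Ji v) ∨ (∃ v ∈ S, j ∈ Jf v) →
          (∑ l, aeval (A.x q.1) (Λ j l) * q.2 l) ≠ 0) ∧ aeval (A.x q.1) f ≠ 0 ∧
      r * logHeight q.2 + ε * (logHeight q.2 + logHeight (A.x q.1)) + ν <
        F_tot A D Λ S Ji Jf q.1 q.2 + F_ver A e f S q.1 + hE A G q.1 :=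
    ⟨fun ν => {q | q.1 ∈ Γ ∧ q.2 ≠ 0 ∧ q.2 ∈ Fib A G q.1 ∧
      (∀ j, (∃ v, j ∈ Ji v) ∨ (∃ v ∈ S, j ∈ Jf v) →
          (∑ l, aeval (A.x q.1) (Λ j l) * q.2 l) ≠ 0) ∧ aeval (A.x q.1) f ≠ 0 ∧
      r * logHeight q.2 + ε * (logHeight q.2 + logHeight (A.x q.1)) + ν <
        F_tot A D Λ S Ji Jf q.1 q.2 + F_ver A e f S q.1 + hE A G q.1}, fun ν q => Iff.rfl⟩
  obtain ⟨q, hq, hqF⟩ := F_seq (A := A) (G := G) bad (fun F hF ν => by
    have h1 : Exc A G (∏ j ∈ Js, ∑ l, rename Sum.inl (Λ j l) * X (Sum.inr l)) := by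
      refine F_Exc_prod _ _ fun j hj => F_Exc_form hΛ ?_
      rcases (hJs j).1 hj with ⟨v, hv⟩ | ⟨v, hvS, hv⟩
      · exact hJi v _ (Finset.singleton_subset_iff.2 hv) (by rw [Finset.card_singleton]; omega)
      · exact hJf v hvS _ (Finset.singleton_subset_iff.2 hv) (by
          rw [Finset.card_singleton]; omega)
    obtain ⟨P, hP, X₁, hX0, hX, hev0, h2⟩ := hcon ν _
      (F_Exc_mul (F_Exc_mul hF h1) (F_Exc_base (G := G) hf hfA))
    rw [map_mul, aeval_rename, Sum.elim_comp_inl] at hev0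
    have hfP := right_ne_zero_of_mul hev0
    have hev := left_ne_zero_of_mul hev0
    rw [map_mul, map_prod] at hev
    have h3 : ∀ j, (∃ v, j ∈ Ji v) ∨ (∃ v ∈ S, j ∈ Jf v) →
        (∑ l, aeval (A.x P) (Λ j l) * X₁ l) ≠ 0 := by
      intro j hj
      have h4 := Finset.prod_ne_zero_iff.1 (right_ne_zero_of_mul hev) j ((hJs j).2 hj)
      have h5 : aeval (Sum.elim (A.x P) X₁) (∑ l, rename Sum.inl (Λ j l) * X (Sum.inr l)) =
          ∑ l, aeval (A.x P) (Λ j l) * X₁ l := by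
        rw [map_sum]
        refine Finset.sum_congr rfl fun l _ => ?_
        rw [map_mul, aeval_X, aeval_rename, Sum.elim_comp_inl, Sum.elim_inr]
      rwa [h5] at h4
    exact ⟨(P, X₁), (hbad ν (P, X₁)).2 ⟨hP, hX0, hX, h3, hfP, h2 h3 hfP⟩,
      left_ne_zero_of_mul hev⟩)
  obtain ⟨P, hP⟩ : ∃ P : ℕ → A.Pts K, ∀ i, P i = (q i).1 := ⟨_, fun _ => rfl⟩
  obtain ⟨Z, hZ⟩ : ∃ Z : ℕ → Fin (r + g) → K, ∀ i, Z i = (q i).2 := ⟨_, fun _ => rfl⟩
  have hall : ∀ i : ℕ, P i ∈ Γ ∧ Z i ≠ 0 ∧ Z i ∈ Fib A G (P i) ∧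
      (∀ j, (∃ v, j ∈ Ji v) ∨ (∃ v ∈ S, j ∈ Jf v) →
          (∑ l, aeval (A.x (P i)) (Λ j l) * Z i l) ≠ 0) ∧ aeval (A.x (P i)) f ≠ 0 ∧
      r * logHeight (Z i) + ε * (logHeight (Z i) + logHeight (A.x (P i))) + i <
        F_tot A D Λ S Ji Jf (P i) (Z i) + F_ver A e f S (P i) + hE A G (P i) := by
    intro i
    rw [hP, hZ]
    exact (hbad i (q i)).1 (hq i)
  have hgenF : ∀ F, Exc A G F → ∀ᶠ i in (hyperfilter ℕ : Filter ℕ),
      aeval (Sum.elim (A.x (P i)) (Z i)) F ≠ 0 := by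
    intro F hF
    refine ((hqF F hF).filter_mono Nat.hyperfilter_le_atTop).mono fun i hi => ?_
    rw [hP, hZ]
    exact hi
  clear hqF hq hP hZ
  -- the germ
  obtain ⟨p, hPp⟩ := Z_exists_germ A P
  have hgen : Gen A p := by
    intro f d hf h0
    by_contra hI
    refine Z_germ_generic hPp (fun G' D'' hG' hGI => ?_) f d hf hI h0
    refine (hgenF _ (F_Exc_base (G := G) hG' hGI)).mono fun i hi => ?_
    rwa [aeval_rename, Sum.elim_comp_inl] at hi
  obtain ⟨H, hHd⟩ : ∃ H : ℕ → ℝ, ∀ i, H i = logHeight (Z i) + logHeight (A.x (P i)) :=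
    ⟨_, fun i => rfl⟩
  have hZh : ∀ i, 0 ≤ logHeight (Z i) := fun i => logHeight_nonneg _
  have hPh : ∀ i, 0 ≤ logHeight (A.x (P i)) := fun i => logHeight_nonneg _
  have hH0 : ∀ i, 0 ≤ H i := fun i => by
    rw [hHd]
    exact add_nonneg (hZh i) (hPh i)
  -- the heights tend to infinity
  have hH : Tendsto H (hyperfilter ℕ : Filter ℕ) atTop := by
    obtain ⟨M, C₁, hM, hC₁⟩ := F_tot_le A hΛ S Ji Jf
    obtain ⟨C₂, hC₂⟩ := F_hE_le A G hG
    obtain ⟨M', C₃, hM', hC₃⟩ := F_ver_le A hf S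
    obtain ⟨a, ha⟩ : ∃ a : ℝ, a = M + M' + (g * D' : ℕ) := ⟨_, rfl⟩
    have ha0 : 0 ≤ a := by
      rw [ha]
      positivity
    refine tendsto_atTop.2 fun R => ?_
    obtain ⟨m, hm⟩ := exists_nat_ge (a * R + C₁ + C₂ + C₃)
    filter_upwards [eventually_ge_hyper m] with i hi
    obtain ⟨-, h1, -, h2, hfi, h3⟩ := hall i
    have h4 := hC₁ (P i) (Z i) h1 h2
    have h5 := hC₂ (P i)
    have h5' := hC₃ (P i) hfi
    have h5'' : M' * logHeight (A.x (P i)) ≤ M' * H i := by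
      refine mul_le_mul_of_nonneg_left ?_ hM'
      have h10 := hHd i
      have h11 := hZh i
      linarith
    rw [← hHd i] at h3 h4
    have h6 := mul_nonneg hε.le (hH0 i)
    have h7 : (m : ℝ) ≤ i := by exact_mod_cast hi
    have h8 : (0 : ℝ) ≤ r * logHeight (Z i) := mul_nonneg (Nat.cast_nonneg _) (hZh i)
    have h9 : ((g * D' : ℕ) : ℝ) * logHeight (A.x (P i)) ≤ (g * D' : ℕ) * H i := by
      refine mul_le_mul_of_nonneg_left ?_ (Nat.cast_nonneg _)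
      have h10 := hHd i
      have h11 := hZh i
      linarith
    have h10 : a * R < a * H i := by
      rw [ha, add_mul, add_mul, add_mul, add_mul]
      rw [ha, add_mul, add_mul] at hm
      linarith
    exact (lt_of_mul_lt_mul_left h10 ha0).le
  have hupp : ∃ C : ℝ, 0 < C ∧ ∀ᶠ i in (hyperfilter ℕ : Filter ℕ), A.h (P i) ≤ C * H i :=
    ⟨1, one_pos, Eventually.of_forall fun i => by
      have h1 := hHd i
      have h2 := hZh i
      have h3 : A.h (P i) = logHeight (A.x (P i)) := rfl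
      linarith⟩
  obtain ⟨a₀, ha₀⟩ : ∃ a, A.x p a ≠ 0 := Function.ne_iff.1 (Z_x_ne A p)
  have ha₀' : ∀ᶠ i in (hyperfilter ℕ : Filter ℕ), A.x (P i) a₀ ≠ 0 := by
    obtain ⟨c, hc, h1⟩ := hPp
    rw [← gm_ne_zero_iff, h1]
    exact mul_ne_zero hc ha₀
  have hGE : ∀ a l, (X a₀ ^ D * G a l).IsHomogeneous (D + D') := fun a l => by
    have h4 := ((isHomogeneous_X K a₀).pow D).mul (hG a l)
    rwa [one_mul] at h4
  have hLE : ∀ j l, (X a₀ ^ D' * Λ j l).IsHomogeneous (D + D') := fun j l => by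
    have h4 := ((isHomogeneous_X K a₀).pow D').mul (hΛ j l)
    rwa [one_mul, Nat.add_comm D' D] at h4
  have hSg : ∀ v ∈ F_Sg S, Pl v := by
    intro v hv
    rcases F_mem_Sg.1 hv with ⟨w, rfl⟩ | ⟨w, -, rfl⟩
    · exact Or.inl (NumberField.mem_multisetInfinitePlace.2 w.2)
    · exact Or.inr w.isFinitePlace
  have hJmem : ∀ v ∈ F_Sg S, (∀ T ⊆ F_J Ji Jf v, T.card ≤ r → Ind A G Λ T) ∧
      ∀ j ∈ F_J Ji Jf v, (∃ v, j ∈ Ji v) ∨ (∃ v ∈ S, j ∈ Jf v) := by
    intro v hv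
    rcases F_mem_Sg.1 hv with ⟨w, rfl⟩ | ⟨w, hw, rfl⟩
    · rw [F_J_inf]
      exact ⟨hJi w, fun j hj => Or.inl ⟨w, hj⟩⟩
    · rw [F_J_fin]
      exact ⟨hJf w hw, fun j hj => Or.inr ⟨w, hw, hj⟩⟩
  obtain ⟨y, u, hy1, hy2, hu1, hu2⟩ := SL_germ1 A Γ hΓ hH P (fun i => (hall i).1) hupp hPp
    (F_Sg S) hSg (fun v => F_mem_Sg.2 (Or.inl ⟨v, rfl⟩)) (D + D') (fun a l => X a₀ ^ D * G a l) hGE
    (fun j l => X a₀ ^ D' * Λ j l) hLE Z (Eventually.of_forall fun i => (hall i).2.1)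
    ⟨1, Eventually.of_forall fun i => by
      have h1 := hHd i
      have h2 := hPh i
      linarith⟩
    (Eventually.of_forall fun i a => by
      have h1 : ∑ l, aeval (A.x (P i)) (G a l) * Z i l = 0 := (hall i).2.2.1 a
      have h2 : ∑ l, aeval (A.x (P i)) (X a₀ ^ D * G a l) * Z i l =
          A.x (P i) a₀ ^ D * ∑ l, aeval (A.x (P i)) (G a l) * Z i l := by
        rw [Finset.mul_sum]
        refine Finset.sum_congr rfl fun l _ => ?_
        rw [map_mul, map_pow, aeval_X, mul_assoc]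
      rw [h2, h1, mul_zero])
    (F_J Ji Jf) (fun v hv T hT hTc => F_Ind_ev hG hΛ ((hJmem v hv).1 T hT hTc) hPp hgen ha₀)
    (fun v hv j hj => by
      filter_upwards [ha₀'] with i hi
      have h1 := (hall i).2.2.2.1 j ((hJmem v hv).2 j hj)
      have h2 : ∑ l, aeval (A.x (P i)) (X a₀ ^ D' * Λ j l) * Z i l =
          A.x (P i) a₀ ^ D' * ∑ l, aeval (A.x (P i)) (Λ j l) * Z i l := by
        rw [Finset.mul_sum]
        refine Finset.sum_congr rfl fun l _ => ?_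
        rw [map_mul, map_pow, aeval_X, mul_assoc]
      rw [h2]
      exact mul_ne_zero (pow_ne_zero _ hi) h1)
    (ε / 2) (half_pos hε) (by
      filter_upwards [ha₀', F_ver_small hΓ hH (fun i => (hall i).1) hupp hPp hf
        (Eventually.of_forall fun i => (hall i).2.2.2.2.1) S (half_pos hε)] with i hi hver
      obtain ⟨-, h1, -, h2, -, h3⟩ := hall i
      have h4 := F_hE_le_min A G D a₀ (P i) hi
      have h5 := F_gs S fun v => ∑ j ∈ F_J Ji Jf v,
        lamL (D + D') (fun l => X a₀ ^ D' * Λ j l) (A.x (P i)) (Z i) v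
      have h6 : F_tot A D Λ S Ji Jf (P i) (Z i) ≤
          (∑ v : NumberField.InfinitePlace K, (v.mult : ℝ) * ∑ j ∈ F_J Ji Jf v.val,
            lamL (D + D') (fun l => X a₀ ^ D' * Λ j l) (A.x (P i)) (Z i) v.val) +
          ∑ v ∈ S, ∑ j ∈ F_J Ji Jf v.val,
            lamL (D + D') (fun l => X a₀ ^ D' * Λ j l) (A.x (P i)) (Z i) v.val := by
        unfold F_tot
        refine add_le_add (Finset.sum_le_sum fun v _ => mul_le_mul_of_nonneg_left ?_
          (Nat.cast_nonneg _)) (Finset.sum_le_sum fun v hv => ?_)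
        · rw [F_J_inf]
          exact Finset.sum_le_sum fun j hj => F_lam_le A rfl (Λ j) a₀ (P i) hi (Z i)
            (h2 j (Or.inl ⟨v, hj⟩)) v.val
        · rw [F_J_fin]
          exact Finset.sum_le_sum fun j hj => F_lam_le A rfl (Λ j) a₀ (P i) hi (Z i)
            (h2 j (Or.inr ⟨v, hv, hj⟩)) v.val
      rw [← h5] at h6
      rw [← hHd i] at h3
      have h7 : (0 : ℝ) ≤ i := Nat.cast_nonneg i
      have h8 : r * logHeight (Z i) + ε / 2 * H i ≤
          gs (fun v => if v ∈ F_Sg S then ∑ j ∈ F_J Ji Jf v,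
            lamL (D + D') (fun l => X a₀ ^ D' * Λ j l) (A.x (P i)) (Z i) v else 0) +
          logHeight (fun f : Fin g → Fin (r + g) =>
            (Matrix.of fun a b => aeval (A.x (P i)) (X a₀ ^ D * G a (f b))).det) := by
        linarith
      linarith)
  obtain ⟨c, hc0, hc⟩ := hPp
  -- the relation does not hold on `E`
  have hy3 : y ∉ Submodule.span (GK K) (Set.range fun a l => aeval (A.x p) (G a l)) := by
    intro h1
    obtain ⟨b, hb⟩ := (Submodule.mem_span_range_iff_exists_fun (GK K)).1 h1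
    refine hu2 ?_
    have h2 : ∀ a, ∑ l, aeval (A.x p) (G a l) * gm (fun i => u i l) = 0 := by
      intro a
      have h3 : gm (fun i => ∑ l, aeval (A.x (P i)) (X a₀ ^ D * G a l) * u i l) = 0 := by
        rw [gm_eq_zero_iff]
        exact hu1.mono fun i hi => hi a
      rw [gm_sum] at h3
      have h4 : ∀ l, gm (fun i => aeval (A.x (P i)) (X a₀ ^ D * G a l) * u i l) =
          (c ^ (D + D') * A.x p a₀ ^ D) * (aeval (A.x p) (G a l) * gm (fun i => u i l)) := by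
        intro l
        rw [gm_mul, F_gm_aeval hc (hGE a l), map_mul, map_pow, aeval_X]
        ring
      rw [Finset.sum_congr rfl fun l _ => h4 l, ← Finset.mul_sum] at h3
      exact (mul_eq_zero.1 h3).resolve_left (mul_ne_zero (pow_ne_zero _ hc0)
        (pow_ne_zero _ ha₀))
    have h3 : ∀ l, y l = ∑ a, b a * aeval (A.x p) (G a l) := by
      intro l
      rw [← hb, Finset.sum_apply]
      rfl
    have h4 : ∑ l, y l * gm (fun i => u i l) =
        ∑ a, b a * ∑ l, aeval (A.x p) (G a l) * gm (fun i => u i l) := by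
      simp_rw [h3, Finset.sum_mul, Finset.mul_sum]
      rw [Finset.sum_comm]
      exact Finset.sum_congr rfl fun a _ => Finset.sum_congr rfl fun l _ => by ring
    rw [h4]
    exact Finset.sum_eq_zero fun a _ => by rw [h2, mul_zero]
  obtain ⟨F0, hF0, hF0z⟩ := F_exc hgen G hG y hy1 hy3
  have h1 := hF0z (fun l => gm (fun i => Z i l)) hy2
  have hF0' := hF0
  obtain ⟨⟨a, b, hab⟩, -⟩ := hF0
  have h2 := F_Bi_smul (a := a) (b := b) hab c (A.x p) fun l => gm (fun i => Z i l)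
  rw [h1, mul_zero] at h2
  have h3 : Sum.elim (fun i => c * A.x p i) (fun l => gm (fun i => Z i l)) =
      fun t => gm (Sum.elim (fun k i => A.x (P i) k) (fun l i => Z i l) t) := by
    funext t
    rcases t with k | l
    · exact (hc k).symm
    · rfl
  rw [h3, Z_aeval_gm, gm_eq_zero_iff] at h2
  obtain ⟨i, h4, h5⟩ := (h2.and (hgenF F0 hF0')).exists
  apply h5
  rw [← h4]
  refine congrArg (fun f => aeval f F0) (funext fun t => ?_)
  rcases t with k | l <;> rfl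

end Pool.Agent.Lib.MP_17a322_nt.SL
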