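import Pool.Agent.Lib.MP_17a322_nt.VA.AV

/-!
The subspace theorem with moving targets over abelian varieties: definitions of the final statement.
-/

universe u

namespace Pool.Agent.Lib.MP_17a322_nt.SL

open MvPolynomial Height
open Pool.Agent.Lib.MP_17a322_nt.VA

section

variable {K : Type u} [Field K] {N : ℕ} (A : AV K N) {g n s : ℕ}

/-- `P` is a generic point of `A`: it satisfies no equations over `K` except those of `A`. -/
def Gen {L : Type u} [Field L] [Algebra K L] (P : A.Pts L) : Prop :=
  ∀ (f : MvPolynomial (Fin (N + 1)) K) (d : ℕ), f.IsHomogeneous d → aeval (A.x P) f = 0 → f ∈ A.I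

/-- The fibre at `P` of the bundle `E` given by the equations `∑ l, G i l X l = 0`. -/
def Fib (G : Matrix (Fin g) (Fin n) (MvPolynomial (Fin (N + 1)) K)) {L : Type u} [Field L]
    [Algebra K L] (P : A.Pts L) : Set (Fin n → L) :=
  {X | ∀ i, ∑ l, aeval (A.x P) (G i l) * X l = 0}

/-- The rows of `G` and the linear forms `Λ j`, `j ∈ T`, are linearly independent over the function
field of `A`. -/
def Ind (G : Matrix (Fin g) (Fin n) (MvPolynomial (Fin (N + 1)) K))
    (Λ : Matrix (Fin s) (Fin n) (MvPolynomial (Fin (N + 1)) K)) (T : Finset (Fin s)) : Prop :=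
  ∀ (L : Type u) [Field L] [Algebra K L] (P : A.Pts L), Gen A P →
    LinearIndependent L (Sum.elim (fun (i : Fin g) (l : Fin n) => aeval (A.x P) (G i l))
      fun (j : T) (l : Fin n) => aeval (A.x P) (Λ j l))

/-- The forms `F` of some bidegree in the coordinates of `A` and `X_1, ..., X_n` that are products of
linear forms in `X_1, ..., X_n` over the algebraic closure of the function field of `A`, none of which
vanishes on `E`. -/
def Exc (G : Matrix (Fin g) (Fin n) (MvPolynomial (Fin (N + 1)) K))
    (F : MvPolynomial (Fin (N + 1) ⊕ Fin n) K) : Prop :=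
  (∃ a b : ℕ, ∀ m ∈ F.support, ∑ i, m (Sum.inl i) = a ∧ ∑ l, m (Sum.inr l) = b) ∧
  ∀ (L : Type u) [Field L] [IsAlgClosed L] [Algebra K L] (P : A.Pts L), Gen A P →
    ∃ (c : L) (m : ℕ) (y : Fin m → Fin n → L), c ≠ 0 ∧
      (∀ k, ∃ z ∈ Fib A G P, ∑ l, y k l * z l ≠ 0) ∧
      aeval (Sum.elim (fun i => (C (A.x P i) : MvPolynomial (Fin n) L)) X) F =
        C c * ∏ k, ∑ l, C (y k l) * X l

/-- The local height of the point `(P, X)` with respect to the relative hyperplane `Λ = 0`, `Λ` a linear
form whose coefficients are forms of degree `D`. -/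
noncomputable def lam {L : Type u} [Field L] [Algebra K L] (v : AbsoluteValue L ℝ) (D : ℕ)
    (Λ : Fin n → MvPolynomial (Fin (N + 1)) K) (P : A.Pts L) (X : Fin n → L) : ℝ :=
  Real.log (⨆ l, v (X l)) + D * Real.log (⨆ i, v (A.x P i)) -
    Real.log (v (∑ l, aeval (A.x P) (Λ l) * X l))

/-- The height of the space `E_P`: the height of the vector of the maximal minors of `G(P)`. -/
noncomputable def hE [NumberField K] (G : Matrix (Fin g) (Fin n) (MvPolynomial (Fin (N + 1)) K))
    (P : A.Pts K) : ℝ :=
  logHeight fun e : Fin g ↪o Fin n => (Matrix.of fun a b => aeval (A.x P) (G a (e b))).det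

end

end Pool.Agent.Lib.MP_17a322_nt.SL
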