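import Pool.Agent.Lib.MP_17a322_nt.SL.G0
import Pool.Agent.Lib.MP_17a322_nt.VJ.A3

/-!
Geometry of numbers: local estimates.
-/

universe u

namespace Pool.Agent.Lib.MP_17a322_nt.SL

open MvPolynomial Height NumberField
open Pool.Agent.Lib.MP_17a322_nt.RO
open Pool.Agent.Lib.MP_17a322_nt.VJ

section

variable {K : Type*} [Field K] {q : ℕ}

theorem le_mx (v : AbsoluteValue K ℝ) (M : Matrix (Fin q) (Fin q) K) (i j : Fin q) :
    v (M i j) ≤ mx v M :=
  le_ciSup (f := fun p : Fin q × Fin q => v (M p.1 p.2)) (Set.finite_range _).bddAbove (i, j)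

theorem mx_nonneg (v : AbsoluteValue K ℝ) (M : Matrix (Fin q) (Fin q) K) : 0 ≤ mx v M :=
  Real.iSup_nonneg fun _ => v.nonneg _

theorem mx_le (v : AbsoluteValue K ℝ) (M : Matrix (Fin q) (Fin q) K) {B : ℝ} (hB : 0 ≤ B)
    (h : ∀ i j, v (M i j) ≤ B) : mx v M ≤ B :=
  Real.iSup_le (fun p => h p.1 p.2) hB

theorem mx_pos (hq : 0 < q) (v : AbsoluteValue K ℝ) {M : Matrix (Fin q) (Fin q) K}
    (hM : M.det ≠ 0) : 0 < mx v M := by
  have : Nonempty (Fin q) := ⟨⟨0, hq⟩⟩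
  have h1 : M ≠ 0 := by
    rintro rfl
    rw [Matrix.det_zero] at hM
    exact hM rfl
  obtain ⟨i, j, hij⟩ : ∃ i j, M i j ≠ 0 := by
    by_contra h
    push Not at h
    exact h1 (Matrix.ext h)
  exact (v.pos hij).trans_le (le_mx v M i j)

/-- The largest coordinate. -/
noncomputable def mv (v : AbsoluteValue K ℝ) (y : Fin q → K) : ℝ := ⨆ l, v (y l)

theorem le_mv (v : AbsoluteValue K ℝ) (y : Fin q → K) (l : Fin q) : v (y l) ≤ mv v y :=
  le_ciSup (f := fun l => v (y l)) (Set.finite_range _).bddAbove l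

theorem mv_nonneg (v : AbsoluteValue K ℝ) (y : Fin q → K) : 0 ≤ mv v y :=
  Real.iSup_nonneg fun _ => v.nonneg _

theorem mv_le (v : AbsoluteValue K ℝ) (y : Fin q → K) {B : ℝ} (hB : 0 ≤ B)
    (h : ∀ l, v (y l) ≤ B) : mv v y ≤ B := Real.iSup_le h hB

theorem mv_pos (v : AbsoluteValue K ℝ) {y : Fin q → K} (hy : y ≠ 0) : 0 < mv v y := by
  obtain ⟨l, hl⟩ : ∃ l, y l ≠ 0 := by
    by_contra h
    push Not at h
    exact hy (funext h)
  exact (v.pos hl).trans_le (le_mv v y l)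

theorem mulVec_le (v : AbsoluteValue K ℝ) (M : Matrix (Fin q) (Fin q) K) (y : Fin q → K)
    (k : Fin q) : v (M.mulVec y k) ≤ cst v q * (mx v M * mv v y) := by
  have h1 := (SN_self v).sum_le Finset.univ (fun l => M k l * y l)
    (mul_nonneg (mx_nonneg v M) (mv_nonneg v y)) (fun l _ => by
      rw [map_mul]
      exact mul_le_mul (le_mx v M k l) (le_mv v y l) (v.nonneg _) (mx_nonneg v M))
  rw [Finset.card_univ, Fintype.card_fin] at h1
  exact h1

/-- The largest weighted coordinate. -/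
noncomputable def mw (v : AbsoluteValue K ℝ) (c : Fin q → ℝ) (x : Fin q → K) : ℝ :=
  ⨆ k, v (x k) * Real.exp (c k)

theorem le_mw (v : AbsoluteValue K ℝ) (c : Fin q → ℝ) (x : Fin q → K) (k : Fin q) :
    v (x k) * Real.exp (c k) ≤ mw v c x :=
  le_ciSup (f := fun k => v (x k) * Real.exp (c k)) (Set.finite_range _).bddAbove k

theorem mw_nonneg (v : AbsoluteValue K ℝ) (c : Fin q → ℝ) (x : Fin q → K) : 0 ≤ mw v c x :=
  Real.iSup_nonneg fun _ => mul_nonneg (v.nonneg _) (Real.exp_nonneg _)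

theorem mw_le (v : AbsoluteValue K ℝ) (c : Fin q → ℝ) (x : Fin q → K) {B : ℝ} (hB : 0 ≤ B)
    (h : ∀ k, v (x k) * Real.exp (c k) ≤ B) : mw v c x ≤ B := Real.iSup_le h hB

theorem mw_pos (v : AbsoluteValue K ℝ) (c : Fin q → ℝ) {x : Fin q → K} (hx : x ≠ 0) :
    0 < mw v c x := by
  obtain ⟨l, hl⟩ : ∃ l, x l ≠ 0 := by
    by_contra h
    push Not at h
    exact hx (funext h)
  exact (mul_pos (v.pos hl) (Real.exp_pos _)).trans_le (le_mw v c x l)

theorem mulVec_ne {M : Matrix (Fin q) (Fin q) K} (hM : M.det ≠ 0) {y : Fin q → K}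
    (hy : y ≠ 0) : M.mulVec y ≠ 0 := by
  intro h
  exact hy (Matrix.eq_zero_of_mulVec_eq_zero hM h)

theorem sw_mem {Sg : Finset (AbsoluteValue K ℝ)} (c : AbsoluteValue K ℝ → Fin q → ℝ)
    (M : AbsoluteValue K ℝ → Matrix (Fin q) (Fin q) K) (y : Fin q → K) {v : AbsoluteValue K ℝ}
    (hv : v ∈ Sg) :
    sw Sg c M y v = Real.log (mw v (c v) ((M v).mulVec y)) - Real.log (mx v (M v)) := by
  unfold sw
  rw [if_pos hv]
  rfl

theorem sw_notMem {Sg : Finset (AbsoluteValue K ℝ)} (c : AbsoluteValue K ℝ → Fin q → ℝ)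
    (M : AbsoluteValue K ℝ → Matrix (Fin q) (Fin q) K) (y : Fin q → K) {v : AbsoluteValue K ℝ}
    (hv : v ∉ Sg) : sw Sg c M y v = Real.log (mv v y) := by
  unfold sw
  rw [if_neg hv]
  rfl

/-- The norm is bounded by the size. -/
theorem mv_le_mulVec (v : AbsoluteValue K ℝ) {M : Matrix (Fin q) (Fin q) K} (hM : M.det ≠ 0)
    (y : Fin q → K) : mv v y ≤ cst v q * (mx v M⁻¹ * mv v (M.mulVec y)) := by
  refine mv_le v y (mul_nonneg (cst_nonneg v q)
    (mul_nonneg (mx_nonneg v _) (mv_nonneg v _))) fun l => ?_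
  have h1 : M⁻¹.mulVec (M.mulVec y) = y := by
    rw [Matrix.mulVec_mulVec, Matrix.nonsing_inv_mul _ (isUnit_iff_ne_zero.2 hM),
      Matrix.one_mulVec]
  have h2 := mulVec_le v M⁻¹ (M.mulVec y) l
  rw [h1] at h2
  exact h2

end

section

variable {K : Type*} [Field K] [AdmissibleAbsValues K] {q : ℕ}

theorem FS_sw (Sg : Finset (AbsoluteValue K ℝ)) (c : AbsoluteValue K ℝ → Fin q → ℝ)
    (M : AbsoluteValue K ℝ → Matrix (Fin q) (Fin q) K) {y : Fin q → K} (hy : y ≠ 0) :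
    FS (sw Sg c M y) := by
  classical
  have h1 : FS fun v : AbsoluteValue K ℝ => Real.log (⨆ l, v (y l)) := FS_log_iSup hy
  exact FS_ite Sg _ _ h1

theorem nonarch_of_Pl {v : AbsoluteValue K ℝ} (hv : Pl v)
    (h : v ∉ AdmissibleAbsValues.archAbsVal (K := K)) :
    v ∈ AdmissibleAbsValues.nonarchAbsVal (K := K) := hv.resolve_left h

end

end Pool.Agent.Lib.MP_17a322_nt.SL
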