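import Pool.Agent.Lib.MP_17a322_nt.SL.G0b

/-!
Geometry of numbers: the box principle.
-/

universe u

namespace Pool.Agent.Lib.MP_17a322_nt.SL

open MvPolynomial Height NumberField
open Pool.Agent.Lib.MP_17a322_nt.RO
open Pool.Agent.Lib.MP_17a322_nt.VJ

section

variable {K : Type*} [Field K] [NumberField K]

theorem nv_sum (Sg : Finset (AbsoluteValue K ℝ))
    (hinf : ∀ v : NumberField.InfinitePlace K, v.val ∈ Sg)
    [∀ v, Decidable (v ∈ AdmissibleAbsValues.archAbsVal (K := K))] :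
    ∑ v ∈ Sg, (nv v : ℝ) * (if v ∈ AdmissibleAbsValues.archAbsVal (K := K) then 1 else 0) =
      Module.finrank ℚ K := by
  classical
  have h1 : ∑ v ∈ Sg, (nv v : ℝ) *
      (if v ∈ AdmissibleAbsValues.archAbsVal (K := K) then 1 else 0) =
      ∑ v ∈ (Finset.univ : Finset (InfinitePlace K)).image (fun v => v.val), (nv v : ℝ) := by
    refine (Finset.sum_subset_zero_on_sdiff ?_ ?_ ?_).symm
    · intro v hv
      obtain ⟨w, _, rfl⟩ := Finset.mem_image.1 hv
      exact hinf w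
    · intro v hv
      rw [Finset.mem_sdiff, Finset.mem_image] at hv
      have h2 : v ∉ AdmissibleAbsValues.archAbsVal (K := K) := by
        intro h
        exact hv.2 ⟨⟨v, mem_multisetInfinitePlace.1 h⟩, Finset.mem_univ _, rfl⟩
      rw [if_neg h2, mul_zero]
    · intro v hv
      obtain ⟨w, _, rfl⟩ := Finset.mem_image.1 hv
      have h2 : w.val ∈ AdmissibleAbsValues.archAbsVal (K := K) :=
        mem_multisetInfinitePlace.2 w.isInfinitePlace
      rw [if_pos h2, mul_one]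
  have h4 : ∑ v ∈ (Finset.univ : Finset (InfinitePlace K)).image (fun v => v.val),
      (nv v : ℝ) = ∑ v : InfinitePlace K, (nv v.val : ℝ) :=
    Finset.sum_image (f := fun v : AbsoluteValue K ℝ => (nv v : ℝ))
      (g := fun v : InfinitePlace K => v.val) fun v _ w _ h => Subtype.ext h
  have h3 : ∀ v : InfinitePlace K, (nv v.val : ℝ) = v.mult := fun v => by rw [nv_inf]
  rw [h1, h4, Finset.sum_congr rfl fun v _ => h3 v]
  rw [← Nat.cast_sum, InfinitePlace.sum_mult_eq]

/-- The bound for integral vectors. -/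
theorem Pl_int {v : AbsoluteValue K ℝ} (hv : v ∈ AdmissibleAbsValues.nonarchAbsVal (K := K))
    (x : 𝓞 K) : v (x : K) ≤ 1 := by
  rcases eq_or_ne x 0 with rfl | hx
  · have h1 : ((0 : 𝓞 K) : K) = 0 := map_zero (algebraMap (𝓞 K) K)
    rw [h1, map_zero]
    exact zero_le_one
  · obtain ⟨w, rfl⟩ : ∃ w : FinitePlace K, w.val = v := ⟨⟨v, hv⟩, rfl⟩
    obtain ⟨m, h1, -⟩ := GN_val w hx
    have h2 : w.val (x : K) = w (x : K) := rfl
    rw [h2, h1]
    exact inv_le_one_of_one_le₀ (one_le_pow₀ (GN_one_lt _).le)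

/-- The box principle. -/
theorem box {q : ℕ} (Sg : Finset (AbsoluteValue K ℝ)) (hSg : ∀ v ∈ Sg, Pl v)
    (hinf : ∀ v : NumberField.InfinitePlace K, v.val ∈ Sg) (hq : 0 < q) :
    ∃ C : ℝ, 0 ≤ C ∧ ∀ (M : AbsoluteValue K ℝ → Matrix (Fin q) (Fin q) K)
      (ρ : AbsoluteValue K ℝ → Fin q → ℝ),
      (∀ v ∈ Sg, 0 < mx v (M v)) →
      (∀ v ∈ Sg, v ∉ AdmissibleAbsValues.archAbsVal (K := K) → ∀ k, ρ v k ≤ 0) →
      C < ∑ v ∈ Sg, (nv v : ℝ) * ∑ k, ρ v k →
      ∃ y : Fin q → K, y ≠ 0 ∧ (∀ v, Pl v → v ∉ Sg → ∀ k, v (y k) ≤ 1) ∧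
        ∀ v ∈ Sg, ∀ k, v ((M v).mulVec y k) ≤ mx v (M v) * Real.exp (ρ v k) := by
  classical
  -- the constants of the cells
  have hcell : ∀ v : AbsoluteValue K ℝ, ∃ C : ℝ, 1 ≤ C ∧ (v ∈ Sg → ∀ R ρ : ℝ, 0 < ρ → ρ ≤ R →
      ∃ (n : ℕ) (c : K → Fin (n + 1)), ((n + 1 : ℕ) : ℝ) ≤ (C * (R / ρ)) ^ nv v ∧
      ∀ y y', v y ≤ R → v y' ≤ R → c y = c y' → v (y - y') ≤ ρ) := by
    intro v
    by_cases hv : v ∈ Sg
    · obtain ⟨C, h1, h2⟩ := GN_cell v (hSg v hv)
      exact ⟨C, h1, fun _ => h2⟩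
    · exact ⟨1, le_rfl, fun h => absurd h hv⟩
  choose Cc hCc1 hCc using hcell
  obtain ⟨b, hb⟩ : ∃ b : Module.Basis (Module.Free.ChooseBasisIndex ℤ (𝓞 K)) ℤ (𝓞 K),
    b = RingOfIntegers.basis K := ⟨_, rfl⟩
  obtain ⟨B, hB⟩ : ∃ B : ℝ, B = 1 + q * ∑ v : InfinitePlace K, ∑ l, v.val ((b l : 𝓞 K) : K) :=
    ⟨_, rfl⟩
  have hB1 : 1 ≤ B := by
    rw [hB]
    have : 0 ≤ ∑ v : InfinitePlace K, ∑ l, v.val ((b l : 𝓞 K) : K) :=
      Finset.sum_nonneg fun v _ => Finset.sum_nonneg fun l _ => v.val.nonneg _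
    have h2 : 0 ≤ (q : ℝ) * ∑ v : InfinitePlace K, ∑ l, v.val ((b l : 𝓞 K) : K) :=
      mul_nonneg (Nat.cast_nonneg _) this
    linarith
  have hlB : 0 ≤ Real.log B := Real.log_nonneg hB1
  have hlC : ∀ v, 0 ≤ Real.log (Cc v) := fun v => Real.log_nonneg (hCc1 v)
  refine ⟨q * ∑ v ∈ Sg, (nv v : ℝ) * Real.log (Cc v) + q * Module.finrank ℚ K * Real.log B,
    by
      have h1 : 0 ≤ ∑ v ∈ Sg, (nv v : ℝ) * Real.log (Cc v) :=
        Finset.sum_nonneg fun v _ => mul_nonneg (Nat.cast_nonneg _) (hlC v)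
      positivity, fun M ρ hM hρ hC => ?_⟩
  -- the size of the box
  obtain ⟨T, hT⟩ := exists_nat_ge (Real.exp (∑ v ∈ Sg, ∑ k, |ρ v k|))
  have hT0 : (0 : ℝ) < T := (Real.exp_pos _).trans_le hT
  have hTn : 0 < T := by exact_mod_cast hT0
  have hρT : ∀ v ∈ Sg, ∀ k, ρ v k ≤ Real.log T := by
    intro v hv k
    rw [Real.le_log_iff_exp_le hT0]
    refine (Real.exp_le_exp.2 ?_).trans hT
    have h1 : |ρ v k| ≤ ∑ k, |ρ v k| :=
      Finset.single_le_sum (f := fun k => |ρ v k|) (fun _ _ => abs_nonneg _) (Finset.mem_univ k)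
    have h2 : ∑ k, |ρ v k| ≤ ∑ v ∈ Sg, ∑ k, |ρ v k| :=
      Finset.single_le_sum (f := fun v => ∑ k, |ρ v k|)
        (fun _ _ => Finset.sum_nonneg fun _ _ => abs_nonneg _) hv
    exact (le_abs_self _).trans (h1.trans h2)
  obtain ⟨A, hA⟩ : ∃ A : AbsoluteValue K ℝ → ℝ,
    A = fun v => if v ∈ AdmissibleAbsValues.archAbsVal (K := K) then 1 else 0 := ⟨_, rfl⟩
  have hρR : ∀ v ∈ Sg, ∀ k, ρ v k ≤ A v * (Real.log B + Real.log T) := by
    intro v hv k
    rw [hA]
    by_cases h : v ∈ AdmissibleAbsValues.archAbsVal (K := K)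
    · simp only [if_pos h]
      have := hρT v hv k
      linarith
    · simp only [if_neg h]
      have := hρ v hv h k
      linarith
  -- the cells
  have hcells : ∀ (v : Sg) (k : Fin q), ∃ (n : ℕ) (c : K → Fin (n + 1)),
      ((n + 1 : ℕ) : ℝ) ≤ Real.exp ((nv v.val : ℝ) * (Real.log (Cc v) +
        A v * (Real.log B + Real.log T) - ρ v k)) ∧
      ∀ y y', v.val y ≤ mx v.val (M v) * Real.exp (A v * (Real.log B + Real.log T)) →
        v.val y' ≤ mx v.val (M v) * Real.exp (A v * (Real.log B + Real.log T)) → c y = c y' →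
        v.val (y - y') ≤ mx v.val (M v) * Real.exp (ρ v k) := by
    intro v k
    have hm := hM v v.2
    obtain ⟨n, c, h1, h2⟩ := hCc v v.2
      (mx v.val (M v) * Real.exp (A v * (Real.log B + Real.log T)))
      (mx v.val (M v) * Real.exp (ρ v k)) (mul_pos hm (Real.exp_pos _))
      (mul_le_mul_of_nonneg_left (Real.exp_le_exp.2 (hρR v v.2 k)) hm.le)
    refine ⟨n, c, h1.trans (le_of_eq ?_), h2⟩
    rw [mul_div_mul_left _ _ hm.ne', ← Real.exp_sub, Real.exp_nat_mul]
    congr 1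
    rw [add_sub_assoc, Real.exp_add, Real.exp_log (one_pos.trans_le (hCc1 v))]
  choose n cl hn hcl using hcells
  -- the vectors of the box
  obtain ⟨Y, hY⟩ : ∃ Y : (Fin q → Module.Free.ChooseBasisIndex ℤ (𝓞 K) → Fin T) → Fin q → 𝓞 K,
    Y = fun a j => ∑ l, ((a j l : ℕ) : ℤ) • b l := ⟨_, rfl⟩
  have hYinj : Function.Injective Y := by
    intro a a' h
    funext j l
    have h1 := congrFun h j
    rw [hY] at h1
    have h2 := b.linearIndependent
    have h3 : ∀ l, ((a j l : ℕ) : ℤ) = ((a' j l : ℕ) : ℤ) := by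
      have h4 : ∑ l, (((a j l : ℕ) : ℤ) - ((a' j l : ℕ) : ℤ)) • b l = 0 := by
        simp only [sub_smul, Finset.sum_sub_distrib]
        exact sub_eq_zero.2 h1
      intro l
      exact sub_eq_zero.1 (Fintype.linearIndependent_iff.1 h2 _ h4 l)
    exact Fin.ext (by exact_mod_cast h3 l)
  have hYb : ∀ a, ∀ v ∈ Sg, ∀ k, v ((M v).mulVec (fun j => ((Y a j : 𝓞 K) : K)) k) ≤
      mx v (M v) * Real.exp (A v * (Real.log B + Real.log T)) := by
    intro a v hv k
    have hm := hM v hv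
    have h1 : (M v).mulVec (fun j => ((Y a j : 𝓞 K) : K)) k =
      ∑ j, M v k j * ((Y a j : 𝓞 K) : K) := rfl
    rw [h1]
    by_cases h : v ∈ AdmissibleAbsValues.archAbsVal (K := K)
    · have hAv : A v = 1 := by rw [hA]; exact if_pos h
      rw [hAv, one_mul, Real.exp_add, Real.exp_log hT0, Real.exp_log (by linarith)]
      have h2 : ∀ j, v ((Y a j : 𝓞 K) : K) ≤ T * ∑ l, v ((b l : 𝓞 K) : K) := by
        intro j
        have h3 : ((Y a j : 𝓞 K) : K) = ∑ l, ((a j l : ℕ) : K) * ((b l : 𝓞 K) : K) := by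
          rw [hY]
          have h4 : algebraMap (𝓞 K) K (∑ l, ((a j l : ℕ) : ℤ) • b l) =
              ∑ l, ((a j l : ℕ) : K) * algebraMap (𝓞 K) K (b l) := by
            rw [map_sum]
            refine Finset.sum_congr rfl fun l _ => ?_
            rw [zsmul_eq_mul, map_mul]
            simp
          exact h4
        rw [h3, Finset.mul_sum]
        refine ((SN_self v).sum_le_sum _ _).trans (Finset.sum_le_sum fun l _ => ?_)
        rw [map_mul]
        refine mul_le_mul_of_nonneg_right ?_ (v.nonneg _)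
        have h5 : v ((a j l : ℕ) : K) ≤ ((a j l : ℕ) : ℝ) := by
          have h6 := (SN_self v).sum_le_sum (Finset.range (a j l : ℕ)) (fun _ => (1 : K))
          simpa using h6
        exact h5.trans (by exact_mod_cast (a j l).2.le)
      have h3 : (∑ l, v ((b l : 𝓞 K) : K)) ≤
          ∑ v : InfinitePlace K, ∑ l, v.val ((b l : 𝓞 K) : K) := by
        obtain ⟨w, rfl⟩ : ∃ w : InfinitePlace K, w.val = v :=
          ⟨⟨v, mem_multisetInfinitePlace.1 h⟩, rfl⟩
        exact Finset.single_le_sum (f := fun v : InfinitePlace K =>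
          ∑ l, v.val ((b l : 𝓞 K) : K))
          (fun v _ => Finset.sum_nonneg fun l _ => v.val.nonneg _) (Finset.mem_univ w)
      refine ((SN_self v).sum_le_sum _ _).trans ?_
      have h4 : ∀ j ∈ (Finset.univ : Finset (Fin q)), v (M v k j * ((Y a j : 𝓞 K) : K)) ≤
          mx v (M v) * (T * ∑ v : InfinitePlace K, ∑ l, v.val ((b l : 𝓞 K) : K)) := by
        intro j _
        rw [map_mul]
        refine mul_le_mul (le_mx v (M v) k j) ((h2 j).trans ?_) (v.nonneg _) hm.le
        exact mul_le_mul_of_nonneg_left h3 hT0.le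
      refine (Finset.sum_le_sum h4).trans ?_
      rw [Finset.sum_const, Finset.card_univ, Fintype.card_fin, nsmul_eq_mul, hB]
      nlinarith [mul_pos hm hT0]
    · have hAv : A v = 0 := by rw [hA]; exact if_neg h
      rw [hAv, zero_mul, Real.exp_zero, mul_one]
      have hv' := nonarch_of_Pl (hSg v hv) h
      refine (SN_self v).sum_le_max (AdmissibleAbsValues.isNonarchimedean v hv') _ _ hm.le
        fun j _ => ?_
      rw [map_mul]
      refine (mul_le_mul (le_mx v (M v) k j) (Pl_int hv' (Y a j)) (v.nonneg _) hm.le).trans ?_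
      rw [mul_one]
  -- the number of cells
  have hcard : Fintype.card ((v : Sg) → (k : Fin q) → Fin (n v k + 1)) <
      Fintype.card (Fin q → Module.Free.ChooseBasisIndex ℤ (𝓞 K) → Fin T) := by
    have h1 : Fintype.card ((v : Sg) → (k : Fin q) → Fin (n v k + 1)) =
        ∏ v : Sg, ∏ k : Fin q, (n v k + 1) := by
      rw [Fintype.card_pi]
      refine Finset.prod_congr rfl fun v _ => ?_
      rw [Fintype.card_pi]
      exact Finset.prod_congr rfl fun k _ => Fintype.card_fin _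
    have h2 : Fintype.card (Fin q → Module.Free.ChooseBasisIndex ℤ (𝓞 K) → Fin T) =
        (T ^ Module.finrank ℚ K) ^ q := by
      rw [Fintype.card_fun, Fintype.card_fun, Fintype.card_fin, Fintype.card_fin,
        ← Module.finrank_eq_card_chooseBasisIndex, RingOfIntegers.rank]
    rw [h1, h2]
    have h3 : ((∏ v : Sg, ∏ k : Fin q, (n v k + 1) : ℕ) : ℝ) <
        (((T ^ Module.finrank ℚ K) ^ q : ℕ) : ℝ) := by
      push_cast
      have h4 : ∏ v : Sg, ∏ k : Fin q, ((n v k : ℝ) + 1) ≤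
          ∏ v : Sg, ∏ k : Fin q, Real.exp ((nv v.val : ℝ) * (Real.log (Cc v) +
            A v * (Real.log B + Real.log T) - ρ v k)) := by
        refine Finset.prod_le_prod (fun v _ => Finset.prod_nonneg fun k _ => by positivity)
          fun v _ => Finset.prod_le_prod (fun k _ => by positivity) fun k _ => ?_
        have h5 := hn v k
        push_cast at h5
        exact h5
      refine h4.trans_lt ?_
      have h6 : ((T : ℝ) ^ Module.finrank ℚ K) ^ q =
          Real.exp (q * (Module.finrank ℚ K * Real.log T)) := by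
        rw [Real.exp_nat_mul, Real.exp_nat_mul, Real.exp_log hT0]
      rw [h6]
      simp only [← Real.exp_sum]
      rw [Real.exp_lt_exp]
      have h7 : ∑ v : Sg, ∑ k : Fin q, (nv v.val : ℝ) * (Real.log (Cc v) +
          A v * (Real.log B + Real.log T) - ρ v k) =
          ∑ v ∈ Sg, ∑ k : Fin q, (nv v : ℝ) * (Real.log (Cc v) +
          A v * (Real.log B + Real.log T) - ρ v k) :=
        Finset.sum_coe_sort Sg fun v => ∑ k : Fin q, (nv v : ℝ) * (Real.log (Cc v) +
          A v * (Real.log B + Real.log T) - ρ v k)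
      have h8 : ∀ v ∈ Sg, ∑ k : Fin q, (nv v : ℝ) * (Real.log (Cc v) +
          A v * (Real.log B + Real.log T) - ρ v k) =
          q * ((nv v : ℝ) * Real.log (Cc v)) + (nv v * A v) * (q * (Real.log B + Real.log T)) -
            nv v * ∑ k, ρ v k := by
        intro v _
        rw [← Finset.mul_sum, Finset.sum_sub_distrib, Finset.sum_const, Finset.card_univ,
          Fintype.card_fin, nsmul_eq_mul]
        ring
      rw [h7, Finset.sum_congr rfl h8, Finset.sum_sub_distrib, Finset.sum_add_distrib,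
        ← Finset.mul_sum, ← Finset.sum_mul]
      have h9 : ∑ v ∈ Sg, (nv v : ℝ) * A v = Module.finrank ℚ K := by
        rw [hA]
        exact nv_sum Sg hinf
      rw [h9]
      linarith
    exact_mod_cast h3
  obtain ⟨a, a', haa, hF⟩ := Fintype.exists_ne_map_eq_of_card_lt
    (fun (a : Fin q → Module.Free.ChooseBasisIndex ℤ (𝓞 K) → Fin T) (v : Sg) (k : Fin q) =>
      cl v k ((M v).mulVec (fun j => ((Y a j : 𝓞 K) : K)) k)) hcard
  refine ⟨fun j => ((Y a j - Y a' j : 𝓞 K) : K), ?_, ?_, ?_⟩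
  · intro h
    refine haa (hYinj (funext fun j => ?_))
    have h1 := congrFun h j
    have h2 : Y a j - Y a' j = 0 := by
      have h3 : algebraMap (𝓞 K) K (Y a j - Y a' j) = 0 := h1
      exact (map_eq_zero_iff _ RingOfIntegers.coe_injective).1 h3
    exact sub_eq_zero.1 h2
  · intro v hv hvS k
    have h1 : v ∉ AdmissibleAbsValues.archAbsVal (K := K) := by
      intro h
      exact hvS (hinf ⟨v, mem_multisetInfinitePlace.1 h⟩)
    exact Pl_int (nonarch_of_Pl hv h1) _
  · intro v hv k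
    have h1 := hcl ⟨v, hv⟩ k _ _ (hYb a v hv k) (hYb a' v hv k)
      (congrFun (congrFun hF ⟨v, hv⟩) k)
    have h2 : (M v).mulVec (fun j => ((Y a j - Y a' j : 𝓞 K) : K)) k =
        (M v).mulVec (fun j => ((Y a j : 𝓞 K) : K)) k -
          (M v).mulVec (fun j => ((Y a' j : 𝓞 K) : K)) k := by
      have h3 : (fun j => ((Y a j - Y a' j : 𝓞 K) : K)) =
          (fun j => ((Y a j : 𝓞 K) : K)) - fun j => ((Y a' j : 𝓞 K) : K) := by
        funext j
        exact map_sub (algebraMap (𝓞 K) K) _ _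
      rw [h3, Matrix.mulVec_sub, Pi.sub_apply]
    rw [h2]
    exact h1

end

end Pool.Agent.Lib.MP_17a322_nt.SL
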