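import Pool.Agent.Lib.MP_17a322_nt.SL.G0b

/-!
Geometry of numbers: Davenport's permutation.
-/

universe u

namespace Pool.Agent.Lib.MP_17a322_nt.SL

open MvPolynomial Height NumberField
open Pool.Agent.Lib.MP_17a322_nt.RO
open Pool.Agent.Lib.MP_17a322_nt.VJ

/-- On a space of dimension less than the number of forms one of the forms is small. -/
theorem dav_step {K V ι : Type*} [Field K] [AddCommGroup V] [Module K V] [FiniteDimensional K V]
    [DecidableEq ι]
    (v : AbsoluteValue K ℝ) (L : ι → V →ₗ[K] K) (c : ι → ℝ) (I : Finset ι)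
    (W : Submodule K V) (hW : Module.finrank K W < I.card) :
    ∃ k₀ ∈ I, ∀ y ∈ W, v (L k₀ y) * Real.exp (c k₀) ≤
      ∑ k ∈ I.erase k₀, v (L k y) * Real.exp (c k) := by
  classical
  have h1 : ¬ LinearIndependent K (fun k : I => (L k).comp W.subtype) := by
    intro h
    have h2 := h.fintype_card_le_finrank
    rw [Fintype.card_coe, Subspace.dual_finrank_eq] at h2
    omega
  obtain ⟨g, hg, i₁, hi₁⟩ := Fintype.not_linearIndependent_iff.1 h1
  have : Nonempty I := ⟨i₁⟩
  obtain ⟨k₀, hk₀⟩ := Finite.exists_max fun k : I => v (g k) * Real.exp (- c k)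
  have hgk : g k₀ ≠ 0 := by
    intro h
    have h2 := hk₀ i₁
    simp only [h, map_zero, zero_mul] at h2
    have h3 : 0 < v (g i₁) * Real.exp (- c i₁) := mul_pos (v.pos hi₁) (Real.exp_pos _)
    linarith
  refine ⟨k₀, k₀.2, fun y hy => ?_⟩
  have h2 : ∑ k : I, g k * L k y = 0 := by
    have h3 := LinearMap.congr_fun hg ⟨y, hy⟩
    simpa [LinearMap.sum_apply] using h3
  have h4 : g k₀ * L k₀ y = - ∑ k ∈ (Finset.univ : Finset I).erase k₀, g k * L k y := by
    rw [← Finset.add_sum_erase _ _ (Finset.mem_univ k₀)] at h2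
    exact eq_neg_of_add_eq_zero_left h2
  have h5 : v (g k₀) * v (L k₀ y) ≤
      ∑ k ∈ (Finset.univ : Finset I).erase k₀, v (g k) * v (L k y) := by
    rw [← map_mul, h4, map_neg_eq_map]
    refine ((SN_self v).sum_le_sum _ _).trans (le_of_eq ?_)
    exact Finset.sum_congr rfl fun k _ => map_mul v _ _
  have hv0 : 0 < v (g k₀) := v.pos hgk
  have h6 : v (g k₀) * (v (L k₀ y) * Real.exp (c k₀)) ≤
      v (g k₀) * ∑ k ∈ I.erase k₀, v (L k y) * Real.exp (c k) := by
    have h7 : ∑ k ∈ I.erase k₀, v (L k y) * Real.exp (c k) =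
        ∑ k ∈ (Finset.univ : Finset I).erase k₀, v (L k y) * Real.exp (c k) := by
      refine (Finset.sum_bij (fun (k : I) _ => (k : ι)) ?_ ?_ ?_ ?_).symm
      · intro k hk
        exact Finset.mem_erase.2 ⟨fun h => (Finset.mem_erase.1 hk).1 (Subtype.ext h), k.2⟩
      · intro k _ k' _ h
        exact Subtype.ext h
      · intro k hk
        obtain ⟨h8, h9⟩ := Finset.mem_erase.1 hk
        exact ⟨⟨k, h9⟩, Finset.mem_erase.2
          ⟨fun h => h8 (congrArg Subtype.val h), Finset.mem_univ _⟩, rfl⟩
      · intro k _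
        rfl
    rw [h7, Finset.mul_sum, ← mul_assoc]
    refine (mul_le_mul_of_nonneg_right h5 (Real.exp_nonneg _)).trans ?_
    rw [Finset.sum_mul]
    refine Finset.sum_le_sum fun k _ => ?_
    have h8 := hk₀ k
    have h9 : v (g k) * Real.exp (c k₀) ≤ v (g k₀) * Real.exp (c k) := by
      have h10 := mul_le_mul_of_nonneg_right h8
        (mul_pos (Real.exp_pos (c k₀)) (Real.exp_pos (c k))).le
      have e1 : v (g k) * Real.exp (- c k) * (Real.exp (c k₀) * Real.exp (c k)) =
          v (g k) * Real.exp (c k₀) := by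
        rw [Real.exp_neg]
        field_simp
      have e2 : v (g k₀) * Real.exp (- c k₀) * (Real.exp (c k₀) * Real.exp (c k)) =
          v (g k₀) * Real.exp (c k) := by
        rw [Real.exp_neg]
        field_simp
      rw [e1, e2] at h10
      exact h10
    have h10 := mul_le_mul_of_nonneg_right h9 (v.nonneg (L k y))
    linarith
  exact le_of_mul_le_mul_left h6 hv0

/-- Davenport's permutation for a flag. -/
theorem dav {K V ι : Type*} [Field K] [AddCommGroup V] [Module K V] [FiniteDimensional K V]
    [DecidableEq ι] (v : AbsoluteValue K ℝ) (L : ι → V →ₗ[K] K) (c : ι → ℝ)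
    (W : ℕ → Submodule K V) (hW : ∀ j, Module.finrank K (W j) ≤ j) (hmono : Monotone W)
    (n : ℕ) : ∀ I : Finset ι, I.card = n → ∃ π : Fin n → ι, Function.Injective π ∧
      (∀ i, π i ∈ I) ∧ ∀ j, j ≤ n → ∀ y ∈ W j, ∑ k ∈ I, v (L k y) * Real.exp (c k) ≤
        2 ^ n * ∑ i : Fin n with i.val < j, v (L (π i) y) * Real.exp (c (π i)) := by
  classical
  induction n with
  | zero =>
    intro I hI
    rw [Finset.card_eq_zero] at hI
    subst hI
    exact ⟨Fin.elim0, fun i => i.elim0, fun i => i.elim0, fun j _ y _ => by simp⟩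
  | succ n ih =>
    intro I hI
    obtain ⟨k₀, hk₀, h1⟩ := dav_step v L c I (W n) (by have := hW n; omega)
    obtain ⟨π, hπ, hπI, h2⟩ := ih (I.erase k₀) (by rw [Finset.card_erase_of_mem hk₀, hI]; rfl)
    have hpos : ∀ k y, 0 ≤ v (L k y) * Real.exp (c k) :=
      fun k y => mul_nonneg (v.nonneg _) (Real.exp_nonneg _)
    refine ⟨Fin.snoc π k₀, ?_, ?_, fun j hj y hy => ?_⟩
    · rw [Fin.snoc_injective_iff]
      refine ⟨hπ, ?_⟩
      rintro ⟨i, hi⟩
      exact (Finset.mem_erase.1 (hπI i)).1 hi
    · intro i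
      refine Fin.lastCases ?_ (fun i => ?_) i
      · rw [Fin.snoc_last]
        exact hk₀
      · rw [Fin.snoc_castSucc]
        exact (Finset.mem_erase.1 (hπI i)).2
    · rw [Finset.sum_filter, Fin.sum_univ_castSucc]
      simp only [Fin.snoc_castSucc, Fin.snoc_last, Fin.val_castSucc, Fin.val_last]
      rw [← Finset.sum_filter]
      rcases Nat.lt_or_ge n j with h | h
      · obtain rfl : j = n + 1 := by omega
        rw [if_pos (Nat.lt_succ_self n)]
        have h3 : ∑ i : Fin n with i.val < n + 1, v (L (π i) y) * Real.exp (c (π i)) =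
            ∑ k ∈ I.erase k₀, v (L k y) * Real.exp (c k) := by
          rw [Finset.filter_true_of_mem fun i _ => by omega]
          refine Finset.sum_bij (fun i _ => π i) (fun i _ => hπI i) (fun i _ i' _ h => hπ h)
            (fun k hk => ?_) fun i _ => rfl
          have h4 : (Finset.univ.image π) = I.erase k₀ := by
            refine Finset.eq_of_subset_of_card_le (fun k hk => ?_) ?_
            · obtain ⟨i, _, rfl⟩ := Finset.mem_image.1 hk
              exact hπI i
            · rw [Finset.card_image_of_injective _ hπ, Finset.card_univ, Fintype.card_fin,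
                Finset.card_erase_of_mem hk₀, hI]
              rfl
          rw [← h4] at hk
          obtain ⟨i, _, rfl⟩ := Finset.mem_image.1 hk
          exact ⟨i, Finset.mem_univ _, rfl⟩
        rw [h3, Finset.sum_erase_add _ _ hk₀]
        refine le_mul_of_one_le_left (Finset.sum_nonneg fun k _ => hpos k y) ?_
        exact one_le_pow₀ (by norm_num)
      · rw [if_neg (by omega), add_zero]
        have h3 := h2 j h y hy
        have h4 := h1 y (hmono h hy)
        rw [← Finset.add_sum_erase _ _ hk₀, pow_succ]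
        have h5 : 2 ^ n * 2 * ∑ i : Fin n with i.val < j, v (L (π i) y) * Real.exp (c (π i)) =
            2 * (2 ^ n * ∑ i : Fin n with i.val < j, v (L (π i) y) * Real.exp (c (π i))) := by
          ring
        rw [h5]
        linarith

end Pool.Agent.Lib.MP_17a322_nt.SL
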