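import Pool.Agent.Lib.MP_17a322_nt.SL.G2

/-!
Geometry of numbers: twists at one place.
-/

universe u

namespace Pool.Agent.Lib.MP_17a322_nt.SL

open MvPolynomial Height NumberField
open Pool.Agent.Lib.MP_17a322_nt.RO
open Pool.Agent.Lib.MP_17a322_nt.VJ

theorem finrank_flag {K : Type*} [Field K] {q : ℕ} (y : Fin q → Fin q → K) (j : ℕ) :
    Module.finrank K (Submodule.span K (y '' {i | i.val < j})) ≤ j := by
  classical
  have h1 : (y '' {i | i.val < j}) =
      (((Finset.univ.filter fun i : Fin q => i.val < j).image y : Finset (Fin q → K)) :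
        Set (Fin q → K)) := by
    simp
  rw [h1]
  refine (finrank_span_finset_le_card _).trans (Finset.card_image_le.trans ?_)
  have h2 : (Finset.univ.filter fun i : Fin q => i.val < j).card ≤ (Finset.range j).card := by
    refine Finset.card_le_card_of_injOn (fun i => i.val) (fun i hi => ?_)
      fun i _ i' _ h => Fin.ext h
    have h3 := (Finset.mem_filter.1 (Finset.mem_coe.1 hi)).2
    exact Finset.mem_coe.2 (Finset.mem_range.2 h3)
  rwa [Finset.card_range] at h2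

/-- Davenport's permutation. -/
theorem GTW {K : Type u} [Field K] [NumberField K] {q : ℕ}
    (Sg : Finset (AbsoluteValue K ℝ)) (hSg : ∀ v ∈ Sg, Pl v) {v₀ : AbsoluteValue K ℝ}
    (hv₀ : v₀ ∈ Sg) :
    ∃ C : ℝ, 0 ≤ C ∧ ∀ (c : AbsoluteValue K ℝ → Fin q → ℝ)
      (M : AbsoluteValue K ℝ → Matrix (Fin q) (Fin q) K), (∀ v ∈ Sg, (M v).det ≠ 0) →
      ∀ (y : Fin q → Fin q → K), LinearIndependent K y → ∃ π : Equiv.Perm (Fin q),
      ∀ ρ : Fin q → ℝ, Antitone ρ → ∀ j, ∀ z ∈ Submodule.span K (y '' {i | i ≤ j}), z ≠ 0 →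
        gs (sw Sg c M z) + ρ j ≤ gs (sw Sg (twc v₀ π ρ c) M z) + C := by
  classical
  have hnv : (0 : ℝ) < nv v₀ := by exact_mod_cast nv_pos (hSg v₀ hv₀)
  rcases Nat.eq_zero_or_pos q with rfl | hq
  · exact ⟨0, le_rfl, fun c M _ y _ => ⟨1, fun ρ _ j => j.elim0⟩⟩
  have hq1 : (1 : ℝ) ≤ q := by exact_mod_cast hq
  have hC1 : (1 : ℝ) ≤ 2 ^ q * q :=
    one_le_mul_of_one_le_of_one_le (one_le_pow₀ (by norm_num)) hq1
  refine ⟨nv v₀ * Real.log (2 ^ q * q), mul_nonneg hnv.le (Real.log_nonneg hC1),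
    fun c M hM y _ => ?_⟩
  obtain ⟨π, hπ, -, h1⟩ := dav (K := K) v₀
    (fun k : Fin q => (LinearMap.proj k).comp (Matrix.mulVecLin (M v₀))) (c v₀)
    (fun j => Submodule.span K (y '' {i | i.val < j})) (finrank_flag y)
    (fun j j' h => Submodule.span_mono (Set.image_mono fun i hi => lt_of_lt_of_le hi h)) q
    Finset.univ (by rw [Finset.card_univ, Fintype.card_fin])
  refine ⟨Equiv.ofBijective π (Finite.injective_iff_bijective.1 hπ), fun ρ hρ j z hz hz0 => ?_⟩
  obtain ⟨π', hπ'⟩ : ∃ π' : Equiv.Perm (Fin q),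
    π' = Equiv.ofBijective π (Finite.injective_iff_bijective.1 hπ) := ⟨_, rfl⟩
  rw [← hπ']
  have hπi : ∀ i, π'.symm (π i) = i := by
    intro i
    rw [Equiv.symm_apply_eq, hπ']
    rfl
  have h2 := h1 (j.val + 1) (by omega) z (by
    refine Submodule.span_mono (Set.image_mono fun i hi => ?_) hz
    have h3 : i ≤ j := hi
    exact Nat.lt_succ_of_le h3)
  have hMz := mulVec_ne (hM v₀ hv₀) hz0
  -- the local inequality at `v₀`
  have h3 : mw v₀ (c v₀) ((M v₀).mulVec z) * Real.exp (ρ j / nv v₀) ≤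
      2 ^ q * q * mw v₀ (twc v₀ π' ρ c v₀) ((M v₀).mulVec z) := by
    have h4 : mw v₀ (c v₀) ((M v₀).mulVec z) ≤
        ∑ k, v₀ ((M v₀).mulVec z k) * Real.exp (c v₀ k) := by
      refine mw_le _ _ _ (Finset.sum_nonneg fun k _ =>
        mul_nonneg (v₀.nonneg _) (Real.exp_nonneg _)) fun k => ?_
      exact Finset.single_le_sum (f := fun k => v₀ ((M v₀).mulVec z k) * Real.exp (c v₀ k))
        (fun k _ => mul_nonneg (v₀.nonneg _) (Real.exp_nonneg _)) (Finset.mem_univ k)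
    have h5 : (∑ i : Fin q with i.val < j.val + 1,
        v₀ ((M v₀).mulVec z (π i)) * Real.exp (c v₀ (π i))) * Real.exp (ρ j / nv v₀) ≤
        q * mw v₀ (twc v₀ π' ρ c v₀) ((M v₀).mulVec z) := by
      rw [Finset.sum_mul]
      have h6 : ∀ i ∈ Finset.univ.filter (fun i : Fin q => i.val < j.val + 1),
          v₀ ((M v₀).mulVec z (π i)) * Real.exp (c v₀ (π i)) * Real.exp (ρ j / nv v₀) ≤
          mw v₀ (twc v₀ π' ρ c v₀) ((M v₀).mulVec z) := by
        intro i hi
        have h7 : i ≤ j := Nat.lt_succ_iff.1 (Finset.mem_filter.1 hi).2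
        refine le_trans ?_ (le_mw v₀ (twc v₀ π' ρ c v₀) ((M v₀).mulVec z) (π i))
        rw [mul_assoc, ← Real.exp_add]
        refine mul_le_mul_of_nonneg_left (Real.exp_le_exp.2 ?_) (v₀.nonneg _)
        unfold twc
        rw [if_pos rfl, hπi]
        have h8 := div_le_div_of_nonneg_right (hρ h7) hnv.le
        linarith
      refine (Finset.sum_le_card_nsmul _ _ _ h6).trans ?_
      rw [nsmul_eq_mul]
      refine mul_le_mul_of_nonneg_right ?_ (mw_nonneg _ _ _)
      have h9 := Finset.card_le_univ (Finset.univ.filter (fun i : Fin q => i.val < j.val + 1))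
      rw [Fintype.card_fin] at h9
      exact_mod_cast h9
    have h6 := h4.trans h2
    have h7 := mul_le_mul_of_nonneg_right h6 (Real.exp_nonneg (ρ j / nv v₀))
    refine h7.trans ?_
    rw [mul_assoc, mul_assoc]
    exact mul_le_mul_of_nonneg_left h5 (by positivity)
  have h4 : sw Sg c M z v₀ + ρ j / nv v₀ ≤ sw Sg (twc v₀ π' ρ c) M z v₀ +
      Real.log (2 ^ q * q) := by
    rw [sw_mem _ _ _ hv₀, sw_mem _ _ _ hv₀]
    have h5 := Real.log_le_log (mul_pos (mw_pos v₀ (c v₀) hMz) (Real.exp_pos _)) h3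
    rw [Real.log_mul (mw_pos v₀ (c v₀) hMz).ne' (Real.exp_ne_zero _), Real.log_exp,
      Real.log_mul (by linarith) (mw_pos v₀ _ hMz).ne'] at h5
    linarith
  -- the other places
  have h5 : ∀ v, v ≠ v₀ → sw Sg (twc v₀ π' ρ c) M z v = sw Sg c M z v := by
    intro v hv
    have h6 : twc v₀ π' ρ c v = c v := by
      funext k
      unfold twc
      rw [if_neg hv]
    unfold sw
    rw [h6]
  have f1 := FS_sw Sg c M hz0
  have f2 := FS_sw Sg (twc v₀ π' ρ c) M hz0
  have f3 : ∀ a : ℝ, FS fun v => if v ∈ ({v₀} : Finset (AbsoluteValue K ℝ)) then a else 0 :=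
    fun a => FS_ite _ (fun _ => a) _ FS_zero
  have g1 : ∀ a : ℝ, gs (fun v => if v ∈ ({v₀} : Finset (AbsoluteValue K ℝ)) then a else 0) =
      nv v₀ * a := by
    intro a
    rw [gs_ite ({v₀} : Finset (AbsoluteValue K ℝ)) (fun _ => a), Finset.sum_singleton]
  have h6 := gs_le (FS_add f1 (f3 (ρ j / nv v₀))) (FS_add f2 (f3 (Real.log (2 ^ q * q))))
    fun v _ => by
      rcases eq_or_ne v v₀ with rfl | hv
      · simp only [Finset.mem_singleton, if_true]
        exact h4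
      · simp only [Finset.mem_singleton, hv, if_false, add_zero]
        exact (h5 v hv).ge
  rw [gs_add f1 (f3 _), gs_add f2 (f3 _), g1, g1, mul_div_cancel₀ _ hnv.ne'] at h6
  exact h6

theorem tw_twc {K : Type u} [Field K] [NumberField K] {q : ℕ}
    (Sg : Finset (AbsoluteValue K ℝ)) (hSg : ∀ v ∈ Sg, Pl v) {v₀ : AbsoluteValue K ℝ}
    (hv₀ : v₀ ∈ Sg) (π : Equiv.Perm (Fin q)) (ρ : Fin q → ℝ)
    (c : AbsoluteValue K ℝ → Fin q → ℝ) :
    tw Sg (twc v₀ π ρ c) = tw Sg c + ∑ j, ρ j := by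
  classical
  have hnv : (0 : ℝ) < nv v₀ := by exact_mod_cast nv_pos (hSg v₀ hv₀)
  rw [tw_eq, tw_eq, ← Finset.add_sum_erase _ _ hv₀, ← Finset.add_sum_erase _ _ hv₀]
  have h1 : ∑ x ∈ Sg.erase v₀, (nv x : ℝ) * ∑ k, twc v₀ π ρ c x k =
      ∑ x ∈ Sg.erase v₀, (nv x : ℝ) * ∑ k, c x k := by
    refine Finset.sum_congr rfl fun v hv => ?_
    have h3 : ∀ k, twc v₀ π ρ c v k = c v k := fun k => by
      unfold twc
      rw [if_neg (Finset.mem_erase.1 hv).1]
    rw [Finset.sum_congr rfl fun k _ => h3 k]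
  have h2 : ∑ k, twc v₀ π ρ c v₀ k = ∑ k, c v₀ k + (∑ j, ρ j) / nv v₀ := by
    have h3 : ∀ k, twc v₀ π ρ c v₀ k = c v₀ k + ρ (π.symm k) / nv v₀ := fun k => by
      unfold twc
      rw [if_pos rfl]
    rw [Finset.sum_congr rfl fun k _ => h3 k, Finset.sum_add_distrib, ← Finset.sum_div]
    congr 2
    exact Equiv.sum_comp π.symm ρ
  rw [h1, h2, mul_add, mul_div_cancel₀ _ hnv.ne']
  ring

end Pool.Agent.Lib.MP_17a322_nt.SL
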