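import Pool.Agent.Lib.MP_17a322_nt.SL.G3a

/-!
Geometry of numbers: existence of successive minima.
-/

universe u

namespace Pool.Agent.Lib.MP_17a322_nt.SL

open MvPolynomial Height NumberField
open Pool.Agent.Lib.MP_17a322_nt.RO
open Pool.Agent.Lib.MP_17a322_nt.VJ

/-- The local size is bounded below by the norm. -/
theorem sw_loc {K : Type*} [Field K] {q : ℕ} (hq : 0 < q) (v : AbsoluteValue K ℝ)
    (c : Fin q → ℝ) {M : Matrix (Fin q) (Fin q) K} (hM : M.det ≠ 0) {y : Fin q → K}
    (hy : y ≠ 0) :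
    Real.log (mv v y) ≤ Real.log (mw v c (M.mulVec y)) +
      (Real.log (cst v q) + Real.log (mx v M⁻¹) + ∑ k, |c k|) := by
  have hq' : 1 ≤ q := hq
  have hMi : M⁻¹.det ≠ 0 := by
    rw [Matrix.det_nonsing_inv]
    exact (isUnit_iff_ne_zero.2 hM).ringInverse.ne_zero
  have h0 := mulVec_ne hM hy
  have h1 := mv_le_mulVec v hM y
  have h2 : mv v (M.mulVec y) ≤ mw v c (M.mulVec y) * Real.exp (∑ k, |c k|) := by
    refine mv_le v _ (mul_nonneg (mw_nonneg _ _ _) (Real.exp_nonneg _)) fun k => ?_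
    have h3 : v (M.mulVec y k) = v (M.mulVec y k) * Real.exp (c k) * Real.exp (- c k) := by
      rw [mul_assoc, ← Real.exp_add, add_neg_cancel, Real.exp_zero, mul_one]
    rw [h3]
    refine mul_le_mul (le_mw v c _ k) (Real.exp_le_exp.2 ?_) (Real.exp_nonneg _)
      (mw_nonneg _ _ _)
    have h4 : |c k| ≤ ∑ k, |c k| :=
      Finset.single_le_sum (f := fun k => |c k|) (fun _ _ => abs_nonneg _) (Finset.mem_univ k)
    exact (neg_le_abs (c k)).trans h4
  have h3 : mv v y ≤ cst v q * mx v M⁻¹ * (mw v c (M.mulVec y) * Real.exp (∑ k, |c k|)) := by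
    rw [mul_assoc]
    exact h1.trans (mul_le_mul_of_nonneg_left
      (mul_le_mul_of_nonneg_left h2 (mx_nonneg _ _)) (cst_nonneg _ _))
  have h4 := Real.log_le_log (mv_pos v hy) h3
  have h5 := mw_pos v c h0
  rw [Real.log_mul (mul_pos (cst_pos v hq') (mx_pos hq v hMi)).ne'
    (mul_pos h5 (Real.exp_pos _)).ne', Real.log_mul (cst_pos v hq').ne' (mx_pos hq v hMi).ne',
    Real.log_mul h5.ne' (Real.exp_ne_zero _), Real.log_exp] at h4
  linarith

theorem logHeight_nonneg' {K : Type u} [Field K] [NumberField K] {q : ℕ} {y : Fin q → K}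
    (hy : y ≠ 0) : 0 ≤ gs fun v : AbsoluteValue K ℝ => Real.log (mv v y) := by
  obtain ⟨l, hl⟩ : ∃ l, y l ≠ 0 := by
    by_contra h
    push Not at h
    exact hy (funext h)
  have h1 := gs_le (FS_log_abv hl) (FS_log_iSup hy) fun v _ =>
    Real.log_le_log (v.pos hl) (le_mv v y l)
  rw [gs_log_abv hl] at h1
  exact h1

/-- The sizes are bounded below. -/
theorem sw_bdd {K : Type u} [Field K] [NumberField K] {q : ℕ} (hq : 0 < q)
    (Sg : Finset (AbsoluteValue K ℝ))
    (c : AbsoluteValue K ℝ → Fin q → ℝ)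
    (M : AbsoluteValue K ℝ → Matrix (Fin q) (Fin q) K) (hM : ∀ v ∈ Sg, (M v).det ≠ 0) :
    ∃ B : ℝ, ∀ y : Fin q → K, y ≠ 0 → B ≤ gs (sw Sg c M y) := by
  classical
  refine ⟨- ∑ v ∈ Sg, (nv v : ℝ) * (Real.log (cst v q) + Real.log (mx v (M v)⁻¹) +
    ∑ k, |c v k| + Real.log (mx v (M v))), fun y hy => ?_⟩
  have f1 : FS fun v : AbsoluteValue K ℝ => Real.log (mv v y) := FS_log_iSup hy
  have f2 := FS_sw Sg c M hy
  have f3 : FS fun v => if v ∈ Sg then (Real.log (cst v q) + Real.log (mx v (M v)⁻¹) +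
      ∑ k, |c v k| + Real.log (mx v (M v))) else 0 := FS_ite Sg _ _ FS_zero
  have h1 := gs_le f1 (FS_add f2 f3) fun v _ => by
    by_cases hv : v ∈ Sg
    · have h2 := sw_loc hq v (c v) (hM v hv) hy
      simp only [if_pos hv, sw_mem c M y hv]
      linarith
    · simp only [if_neg hv, sw_notMem c M y hv, add_zero, le_refl]
  rw [gs_add f2 f3, gs_ite] at h1
  have h2 := logHeight_nonneg' hy
  linarith

/-- Successive minima. -/
theorem exists_Mn {K : Type u} [Field K] [NumberField K] {q : ℕ} (hq : 0 < q)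
    (Sg : Finset (AbsoluteValue K ℝ))
    (c : AbsoluteValue K ℝ → Fin q → ℝ)
    (M : AbsoluteValue K ℝ → Matrix (Fin q) (Fin q) K) (hM : ∀ v ∈ Sg, (M v).det ≠ 0) :
    ∃ (y : Fin q → Fin q → K) (s : Fin q → ℝ), Mn Sg c M 1 y s := by
  classical
  obtain ⟨B, hB⟩ := sw_bdd hq Sg c M hM
  obtain ⟨S, hS⟩ : ∃ S : Submodule K (Fin q → K) → Set ℝ,
    S = fun W => {r | ∃ z, z ∉ W ∧ gs (sw Sg c M z) = r} := ⟨_, rfl⟩
  have hbdd : ∀ W, BddBelow (S W) := by
    intro W
    refine ⟨B, ?_⟩
    rw [hS]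
    rintro r ⟨z, hz, rfl⟩
    refine hB z ?_
    rintro rfl
    exact hz W.zero_mem
  have key : ∀ n, n ≤ q → ∃ y : Fin n → Fin q → K, LinearIndependent K y ∧
      ∀ j, gs (sw Sg c M (y j)) ≤ sInf (S (Submodule.span K (y '' {i | i < j}))) + 1 := by
    intro n
    induction n with
    | zero => exact fun _ => ⟨fun i => i.elim0, linearIndependent_empty_type, fun j => j.elim0⟩
    | succ n ih =>
      intro hn
      obtain ⟨y, hy, h1⟩ := ih (by omega)
      have hne : (S (Submodule.span K (Set.range y))).Nonempty := by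
        have h2 : Submodule.span K (Set.range y) ≠ ⊤ := by
          intro h
          have h3 := finrank_span_eq_card hy
          rw [h, finrank_top, Module.finrank_fin_fun, Fintype.card_fin] at h3
          omega
        obtain ⟨z, hz⟩ : ∃ z, z ∉ Submodule.span K (Set.range y) := by
          by_contra h
          push Not at h
          exact h2 (Submodule.eq_top_iff'.2 h)
        rw [hS]
        exact ⟨_, z, hz, rfl⟩
      obtain ⟨r, hr, hr'⟩ := exists_lt_of_csInf_lt hne
        (lt_add_one (sInf (S (Submodule.span K (Set.range y)))))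
      rw [hS] at hr
      obtain ⟨z, hz, hzr⟩ := hr
      refine ⟨Fin.snoc y z, linearIndependent_finSnoc.2 ⟨hy, hz⟩, fun j => ?_⟩
      refine Fin.lastCases ?_ (fun i => ?_) j
      · have h2 : (Fin.snoc y z : Fin (n + 1) → Fin q → K) '' {i | i < Fin.last n} =
            Set.range y := by
          ext x
          constructor
          · rintro ⟨i, hi, rfl⟩
            exact ⟨⟨i.val, hi⟩,
              (Fin.snoc_castSucc (α := fun _ => Fin q → K) z y ⟨i.val, hi⟩).symm⟩
          · rintro ⟨i, rfl⟩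
            exact ⟨i.castSucc, Fin.castSucc_lt_last i, Fin.snoc_castSucc ..⟩
        rw [h2, Fin.snoc_last, hzr]
        exact hr'.le
      · have h2 : (Fin.snoc y z : Fin (n + 1) → Fin q → K) '' {i' | i' < i.castSucc} =
            y '' {i' | i' < i} := by
          ext x
          constructor
          · rintro ⟨i', hi, rfl⟩
            have h4 : i'.val < i.val := hi
            have h5 : i'.val < n := h4.trans i.2
            exact ⟨⟨i'.val, h5⟩, h4,
              (Fin.snoc_castSucc (α := fun _ => Fin q → K) z y ⟨i'.val, h5⟩).symm⟩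
          · rintro ⟨i', hi, rfl⟩
            exact ⟨i'.castSucc, Fin.castSucc_lt_castSucc_iff.2 hi, Fin.snoc_castSucc ..⟩
        rw [h2, Fin.snoc_castSucc]
        exact h1 i
  obtain ⟨y, hy, h1⟩ := key q le_rfl
  refine ⟨y, fun j => sInf (S (Submodule.span K (y '' {i | i < j}))), hy, ?_, h1, ?_⟩
  · intro j j' hjj
    refine csInf_le_csInf (hbdd _) ?_ ?_
    · rw [hS]
      refine ⟨_, y j', ?_, rfl⟩
      intro h
      have h2 := hy.notMem_span_image (s := {i | i < j'}) (x := j') (by simp)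
      exact h2 h
    · rw [hS]
      rintro r ⟨z, hz, rfl⟩
      exact ⟨z, fun h => hz (Submodule.span_mono
        (Set.image_mono fun i hi => lt_of_lt_of_le hi hjj) h), rfl⟩
  · intro j z hz
    have h2 : gs (sw Sg c M z) ∈ S (Submodule.span K (y '' {i | i < j})) := by
      rw [hS]
      exact ⟨z, hz, rfl⟩
    have h3 := csInf_le (hbdd _) h2
    linarith

end Pool.Agent.Lib.MP_17a322_nt.SL
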