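import Pool.Agent.Lib.MP_17a322_nt.SL.G1
import Pool.Agent.Lib.MP_17a322_nt.SL.G2b
import Pool.Agent.Lib.MP_17a322_nt.SL.G3b

/-!
Geometry of numbers: Minkowski's second theorem.
-/

universe u

namespace Pool.Agent.Lib.MP_17a322_nt.SL

open MvPolynomial Height NumberField
open Pool.Agent.Lib.MP_17a322_nt.RO
open Pool.Agent.Lib.MP_17a322_nt.VJ

/-- The position of a vector in a flag. -/
theorem flag_pos {K : Type*} [Field K] {q : ℕ} {y : Fin q → Fin q → K}
    (hy : LinearIndependent K y) {z : Fin q → K} (hz : z ≠ 0) :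
    ∃ j, z ∈ Submodule.span K (y '' {i | i ≤ j}) ∧ z ∉ Submodule.span K (y '' {i | i < j}) := by
  classical
  have hq : 0 < q := by
    rcases Nat.eq_zero_or_pos q with rfl | h
    · exact absurd (Subsingleton.elim z 0) hz
    · exact h
  have hex : ∃ n : ℕ, ∃ h : n < q, z ∈ Submodule.span K (y '' {i | i ≤ ⟨n, h⟩}) := by
    refine ⟨q - 1, by omega, ?_⟩
    have h1 : {i : Fin q | i ≤ ⟨q - 1, by omega⟩} = Set.univ := by
      ext i
      simp only [Set.mem_ofPred_eq, Set.mem_univ, iff_true]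
      exact Fin.le_def.2 (by have := i.2; simp only; omega)
    rw [h1, Set.image_univ, hy.span_eq_top_of_card_eq_finrank' (by
      rw [Fintype.card_fin, Module.finrank_fin_fun])]
    exact Submodule.mem_top
  obtain ⟨hn, h1⟩ := Nat.find_spec hex
  refine ⟨⟨Nat.find hex, hn⟩, h1, fun h2 => ?_⟩
  rcases Nat.eq_zero_or_pos (Nat.find hex) with h0 | h0
  · have h3 : {i : Fin q | i < ⟨Nat.find hex, hn⟩} = ∅ := by
      ext i
      simp only [Set.mem_ofPred_eq, Set.mem_empty_iff_false, iff_false, Fin.lt_def, h0]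
      exact Nat.not_lt_zero _
    rw [h3, Set.image_empty, Submodule.span_empty, Submodule.mem_bot] at h2
    exact hz h2
  · refine Nat.find_min hex (m := Nat.find hex - 1) (by omega) ⟨by omega, ?_⟩
    refine Submodule.span_mono (Set.image_mono fun i hi => ?_) h2
    have h3 : i.val < Nat.find hex := hi
    exact Fin.le_def.2 (by simp only; omega)

/-- Minkowski's second theorem. -/
theorem GM2 {K : Type u} [Field K] [NumberField K] {q : ℕ} (hq : 0 < q)
    (Sg : Finset (AbsoluteValue K ℝ)) (hSg : ∀ v ∈ Sg, Pl v)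
    (hinf : ∀ v : NumberField.InfinitePlace K, v.val ∈ Sg) :
    ∃ C : ℝ, 0 ≤ C ∧ ∀ (c : AbsoluteValue K ℝ → Fin q → ℝ)
      (M : AbsoluteValue K ℝ → Matrix (Fin q) (Fin q) K), (∀ v ∈ Sg, (M v).det ≠ 0) →
      ∀ (θ : ℝ) (y : Fin q → Fin q → K) (s : Fin q → ℝ), Mn Sg c M θ y s →
        ∑ j, s j ≤ tw Sg c + q * θ + C := by
  classical
  obtain ⟨w₀⟩ : Nonempty (InfinitePlace K) := inferInstance
  obtain ⟨C₁, hC₁, h1⟩ := GM1 (K := K) hq Sg hSg hinf
  obtain ⟨C₂, hC₂, h2⟩ := GTW (K := K) (q := q) Sg hSg (hinf w₀)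
  have hq' : (0 : ℝ) < q := by exact_mod_cast hq
  refine ⟨q * (C₁ + C₂), by positivity, fun c M hM θ y s hs => ?_⟩
  obtain ⟨π, hπ⟩ := h2 c M hM y hs.li
  obtain ⟨ρ, hρ⟩ : ∃ ρ : Fin q → ℝ, ρ = fun j => (∑ i, s i) / q - s j := ⟨_, rfl⟩
  have hρa : Antitone ρ := by
    intro i j hij
    rw [hρ]
    have := hs.mono hij
    simp only
    linarith
  have hρs : ∑ j, ρ j = 0 := by
    rw [hρ, Finset.sum_sub_distrib, Finset.sum_const, Finset.card_univ, Fintype.card_fin,
      nsmul_eq_mul]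
    field_simp
    ring
  obtain ⟨z, hz, h3⟩ := h1 (twc w₀.val π ρ c) M hM
  rw [tw_twc Sg hSg (hinf w₀), hρs, add_zero] at h3
  obtain ⟨j, hj, hj'⟩ := flag_pos hs.li hz
  have h4 := hπ ρ hρa j z hj hz
  have h5 := hs.low j z hj'
  have h6 : (∑ i, s i) / q ≤ tw Sg c / q + C₁ + C₂ + θ := by
    have h7 : ρ j = (∑ i, s i) / q - s j := by rw [hρ]
    rw [h7] at h4
    linarith
  have h7 := mul_le_mul_of_nonneg_left h6 hq'.le
  rw [mul_div_cancel₀ _ hq'.ne'] at h7
  have h8 : (q : ℝ) * (tw Sg c / q + C₁ + C₂ + θ) = tw Sg c + q * θ + q * (C₁ + C₂) := by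
    field_simp
    ring
  rw [h8] at h7
  exact h7

theorem li_update {K V ι : Type*} [Field K] [AddCommGroup V] [Module K V] [Fintype ι]
    [DecidableEq ι] {y : ι → V} (hy : LinearIndependent K y) (a : ι → K) (i : ι) (hi : a i ≠ 0) :
    LinearIndependent K (Function.update y i (∑ l, a l • y l)) := by
  rw [Fintype.linearIndependent_iff] at hy ⊢
  intro g hg
  rw [← Finset.add_sum_erase _ _ (Finset.mem_univ i), Function.update_self] at hg
  have h1 : ∑ l ∈ Finset.univ.erase i, g l • Function.update y i (∑ l, a l • y l) l =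
      ∑ l ∈ Finset.univ.erase i, g l • y l :=
    Finset.sum_congr rfl fun l hl => by
      rw [Function.update_of_ne (Finset.mem_erase.1 hl).1]
  rw [h1] at hg
  have h2 : ∑ l, (g i * a l + if l = i then 0 else g l) • y l = 0 := by
    rw [← hg]
    have h3 : ∀ l, (g i * a l + if l = i then 0 else g l) • y l =
        g i • (a l • y l) + (if l = i then 0 else g l) • y l := fun l => by
      rw [add_smul, mul_smul]
    rw [Finset.sum_congr rfl fun l _ => h3 l, Finset.sum_add_distrib, ← Finset.smul_sum]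
    congr 1
    rw [← Finset.add_sum_erase _ _ (Finset.mem_univ i), if_pos rfl, zero_smul, zero_add]
    exact Finset.sum_congr rfl fun l hl => by rw [if_neg (Finset.mem_erase.1 hl).1]
  have h3 := hy _ h2
  have h4 : g i = 0 := by
    have h5 := h3 i
    rw [if_pos rfl, add_zero] at h5
    exact (mul_eq_zero.1 h5).resolve_right hi
  intro l
  rcases eq_or_ne l i with rfl | h
  · exact h4
  · have h5 := h3 l
    rwa [h4, zero_mul, zero_add, if_neg h] at h5

/-- Vectors of the right sizes are successive minima. -/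
theorem GM4 {K : Type u} [Field K] [NumberField K] {q : ℕ} (hq : 0 < q)
    (Sg : Finset (AbsoluteValue K ℝ)) (hSg : ∀ v ∈ Sg, Pl v) :
    ∃ C : ℝ, 0 ≤ C ∧ ∀ (c : AbsoluteValue K ℝ → Fin q → ℝ)
      (M : AbsoluteValue K ℝ → Matrix (Fin q) (Fin q) K), (∀ v ∈ Sg, (M v).det ≠ 0) →
      ∀ (θ θ' : ℝ) (y : Fin q → Fin q → K) (s : Fin q → ℝ), 0 ≤ θ → 0 ≤ θ' →
        LinearIndependent K y → Monotone s → (∀ j, gs (sw Sg c M (y j)) ≤ s j + θ) →
        ∑ j, s j ≤ tw Sg c + θ' → Mn Sg c M (q * θ + θ' + df Sg M + C) y s := by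
  classical
  obtain ⟨C₁, hC₁, h1⟩ := GLOW (K := K) hq Sg hSg
  obtain ⟨C₂, hC₂, h2⟩ := df_nonneg (K := K) hq Sg hSg
  have hq' : (1 : ℝ) ≤ q := by exact_mod_cast hq
  refine ⟨C₁ + C₂, by positivity, fun c M hM θ θ' y s hθ hθ' hy hs hup hsum => ?_⟩
  have hdf := h2 M hM
  refine ⟨hy, hs, fun j => (hup j).trans ?_, fun j z hz => ?_⟩
  · nlinarith
  · have hspan : z ∈ Submodule.span K (Set.range y) := by
      rw [hy.span_eq_top_of_card_eq_finrank' (by
        rw [Fintype.card_fin, Module.finrank_fin_fun])]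
      exact Submodule.mem_top
    obtain ⟨a, ha⟩ := (Submodule.mem_span_range_iff_exists_fun K).1 hspan
    obtain ⟨i, hji, hi⟩ : ∃ i, j ≤ i ∧ a i ≠ 0 := by
      by_contra h
      push Not at h
      refine hz ?_
      rw [← ha]
      refine Submodule.sum_mem _ fun l _ => ?_
      by_cases hl : j ≤ l
      · rw [h l hl, zero_smul]
        exact Submodule.zero_mem _
      · exact Submodule.smul_mem _ _ (Submodule.subset_span ⟨l, not_le.1 hl, rfl⟩)
    have hy' := li_update hy a i hi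
    rw [ha] at hy'
    have h3 := h1 c M hM _ hy'
    rw [← Finset.add_sum_erase _ _ (Finset.mem_univ i), Function.update_self] at h3
    have h4 : ∑ l ∈ Finset.univ.erase i, gs (sw Sg c M (Function.update y i z l)) ≤
        ∑ l ∈ Finset.univ.erase i, (s l + θ) := by
      refine Finset.sum_le_sum fun l hl => ?_
      rw [Function.update_of_ne (Finset.mem_erase.1 hl).1]
      exact hup l
    have h5 : ∑ l ∈ Finset.univ.erase i, (s l + θ) = ∑ l, s l - s i + (q - 1) * θ := by
      have h6 := Finset.add_sum_erase Finset.univ (fun l => s l + θ) (Finset.mem_univ i)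
      have h7 : ∑ l, (s l + θ) = ∑ l, s l + q * θ := by
        rw [Finset.sum_add_distrib, Finset.sum_const, Finset.card_univ, Fintype.card_fin,
          nsmul_eq_mul]
      linarith
    have h6 := hs hji
    nlinarith

end Pool.Agent.Lib.MP_17a322_nt.SL
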