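import Pool.Agent.Lib.MP_17a322_nt.SL.G0b

/-!
Geometry of numbers: the determinant inequality.
-/

universe u

namespace Pool.Agent.Lib.MP_17a322_nt.SL

open MvPolynomial Height NumberField
open Pool.Agent.Lib.MP_17a322_nt.RO
open Pool.Agent.Lib.MP_17a322_nt.VJ

/-- The determinant of a matrix with weighted rows. -/
theorem det_le_w {K : Type*} [Field K] {n : Type*} [Fintype n] [DecidableEq n]
    (v : AbsoluteValue K ℝ) (c : n → ℝ) (N : Matrix n n K) (b : n → ℝ)
    (hb : ∀ k j, v (N k j) * Real.exp (c k) ≤ b j) :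
    v N.det * Real.exp (∑ k, c k) ≤ cst v (Fintype.card n).factorial * ∏ j, b j := by
  classical
  have hb0 : ∀ j, 0 ≤ b j := fun j => le_trans
    (mul_nonneg (v.nonneg _) (Real.exp_nonneg _)) (hb j j)
  have h1 := (SN_self v).sum_le (Finset.univ : Finset (Equiv.Perm n))
    (fun σ => Equiv.Perm.sign σ • ∏ i, N (σ i) i)
    (B := (∏ j, b j) * Real.exp (- ∑ k, c k))
    (mul_nonneg (Finset.prod_nonneg fun j _ => hb0 j) (Real.exp_nonneg _)) (fun σ _ => by
      have h2 : v (Equiv.Perm.sign σ • ∏ i, N (σ i) i) = ∏ i, v (N (σ i) i) := by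
        rw [← map_prod]
        rcases Int.units_eq_one_or (Equiv.Perm.sign σ) with h | h
        · rw [h, one_smul]
        · rw [h, Units.neg_smul, one_smul, map_neg_eq_map]
      have h3 : (∏ i, v (N (σ i) i)) * Real.exp (∑ k, c k) ≤ ∏ j, b j := by
        rw [← Equiv.sum_comp σ c, Real.exp_sum, ← Finset.prod_mul_distrib]
        exact Finset.prod_le_prod
          (fun i _ => mul_nonneg (v.nonneg _) (Real.exp_nonneg _)) fun i _ => hb (σ i) i
      show v (Equiv.Perm.sign σ • ∏ i, N (σ i) i) ≤ (∏ j, b j) * Real.exp (- ∑ k, c k)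
      rw [h2, Real.exp_neg, ← div_eq_mul_inv, le_div_iff₀ (Real.exp_pos _)]
      exact h3)
  rw [← Matrix.det_apply, Finset.card_univ, Fintype.card_perm] at h1
  have h2 := mul_le_mul_of_nonneg_right h1 (Real.exp_nonneg (∑ k, c k))
  refine h2.trans (le_of_eq ?_)
  rw [Real.exp_neg]
  field_simp

theorem cst_pos {K : Type*} [Field K] (v : AbsoluteValue K ℝ) {n : ℕ} (hn : 1 ≤ n) :
    0 < cst v n := one_pos.trans_le (one_le_cst v hn)

/-- The determinant inequality. -/
theorem GLOW {K : Type u} [Field K] [NumberField K] {q : ℕ} (hq : 0 < q)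
    (Sg : Finset (AbsoluteValue K ℝ)) (hSg : ∀ v ∈ Sg, Pl v) :
    ∃ C : ℝ, 0 ≤ C ∧ ∀ (c : AbsoluteValue K ℝ → Fin q → ℝ)
      (M : AbsoluteValue K ℝ → Matrix (Fin q) (Fin q) K), (∀ v ∈ Sg, (M v).det ≠ 0) →
      ∀ (y : Fin q → Fin q → K), LinearIndependent K y →
        tw Sg c ≤ ∑ j, gs (sw Sg c M (y j)) + df Sg M + C := by
  classical
  have hfac : 1 ≤ q.factorial := Nat.factorial_pos q
  refine ⟨totalWeight K * Real.log q.factorial, mul_nonneg (Nat.cast_nonneg _)
    (Real.log_nonneg (by exact_mod_cast hfac)), fun c M hM y hy => ?_⟩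
  have hy0 : ∀ j, y j ≠ 0 := fun j => hy.ne_zero j
  obtain ⟨Y, hY⟩ : ∃ Y : Matrix (Fin q) (Fin q) K, Y = (Matrix.of y).transpose := ⟨_, rfl⟩
  have hYdet : Y.det ≠ 0 := by
    rw [hY, Matrix.det_transpose]
    have h1 : LinearIndependent K (Matrix.of y).row := hy
    exact ((Matrix.isUnit_iff_isUnit_det _).1
      (Matrix.linearIndependent_rows_iff_isUnit.1 h1)).ne_zero
  have hloc : ∀ v, Pl v → Real.log (v Y.det) ≤ (Real.log (cst v q.factorial) +
      ∑ j, sw Sg c M (y j) v) + (if v ∈ Sg then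
        (q * Real.log (mx v (M v)) - Real.log (v (M v).det)) - ∑ k, c v k else 0) := by
    intro v _
    have hcst := cst_pos v hfac
    by_cases hv : v ∈ Sg
    · rw [if_pos hv]
      have hm := mx_pos hq v (hM v hv)
      have h1 := det_le_w v (c v) (M v * Y) (fun j => mw v (c v) ((M v).mulVec (y j)))
        (fun k j => by
          have h2 : (M v * Y) k j = (M v).mulVec (y j) k := by
            rw [hY]
            rfl
          rw [h2]
          exact le_mw v (c v) _ k)
      rw [Matrix.det_mul, map_mul, Fintype.card_fin] at h1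
      have hd1 : 0 < v (M v).det := v.pos (hM v hv)
      have hd2 : 0 < v Y.det := v.pos hYdet
      have hmw : ∀ j, 0 < mw v (c v) ((M v).mulVec (y j)) :=
        fun j => mw_pos v (c v) (mulVec_ne (hM v hv) (hy0 j))
      have h2 := Real.log_le_log (mul_pos (mul_pos hd1 hd2) (Real.exp_pos _)) h1
      rw [Real.log_mul (mul_pos hd1 hd2).ne' (Real.exp_ne_zero _), Real.log_mul hd1.ne' hd2.ne',
        Real.log_exp, Real.log_mul hcst.ne' (Finset.prod_pos fun j _ => hmw j).ne',
        Real.log_prod fun j _ => (hmw j).ne'] at h2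
      have h3 : ∑ j, sw Sg c M (y j) v = ∑ j, Real.log (mw v (c v) ((M v).mulVec (y j))) -
          q * Real.log (mx v (M v)) := by
        simp only [sw_mem c M _ hv]
        rw [Finset.sum_sub_distrib, Finset.sum_const, Finset.card_univ, Fintype.card_fin,
          nsmul_eq_mul]
      rw [h3]
      linarith
    · rw [if_neg hv, add_zero]
      have h1 := det_le_w v (fun _ => 0) Y (fun j => mv v (y j)) (fun k j => by
        rw [Real.exp_zero, mul_one, hY]
        exact le_mv v (y j) k)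
      rw [Finset.sum_const_zero, Real.exp_zero, mul_one, Fintype.card_fin] at h1
      have hmv : ∀ j, 0 < mv v (y j) := fun j => mv_pos v (hy0 j)
      have h2 := Real.log_le_log (v.pos hYdet) h1
      rw [Real.log_mul hcst.ne' (Finset.prod_pos fun j _ => hmv j).ne',
        Real.log_prod fun j _ => (hmv j).ne'] at h2
      simp only [sw_notMem c M _ hv]
      exact h2
  have f1 : FS fun v : AbsoluteValue K ℝ => Real.log (cst v q.factorial) := FS_log_cst _
  have f2 : FS fun v => ∑ j, sw Sg c M (y j) v := FS_sum _ fun j _ => FS_sw Sg c M (hy0 j)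
  have f3 : FS fun v => if v ∈ Sg then
        (q * Real.log (mx v (M v)) - Real.log (v (M v).det)) - ∑ k, c v k else 0 :=
    FS_ite Sg _ _ FS_zero
  have h1 := gs_le (FS_log_abv hYdet) (FS_add (FS_add f1 f2) f3) hloc
  rw [gs_log_abv hYdet, gs_add (FS_add f1 f2) f3, gs_add f1 f2,
    gs_sum _ fun j _ => FS_sw Sg c M (hy0 j), gs_ite] at h1
  have h2 := gs_log_cst (L := K) hfac
  rw [tw_eq, df_eq]
  have h3 : ∑ v ∈ Sg, (nv v : ℝ) * ((q * Real.log (mx v (M v)) - Real.log (v (M v).det)) -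
      ∑ k, c v k) = ∑ v ∈ Sg, (nv v : ℝ) * (q * Real.log (mx v (M v)) -
        Real.log (v (M v).det)) - ∑ v ∈ Sg, (nv v : ℝ) * ∑ k, c v k := by
    rw [← Finset.sum_sub_distrib]
    exact Finset.sum_congr rfl fun v _ => by ring
  rw [h3] at h1
  linarith

theorem df_loc {K : Type u} [Field K] {q : ℕ} (hq : 0 < q) (v : AbsoluteValue K ℝ)
    {M : Matrix (Fin q) (Fin q) K} (hM : M.det ≠ 0) :
    - Real.log (cst v q.factorial) ≤ q * Real.log (mx v M) - Real.log (v M.det) := by
  have hfac : 1 ≤ q.factorial := Nat.factorial_pos q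
  have hm := mx_pos hq v hM
  have h1 := det_le_w v (fun _ => 0) M (fun j => mx v M) (fun k j => by
    rw [Real.exp_zero, mul_one]
    exact le_mx v M k j)
  rw [Finset.sum_const_zero, Real.exp_zero, mul_one, Fintype.card_fin, Finset.prod_const,
    Finset.card_univ, Fintype.card_fin] at h1
  have h2 := Real.log_le_log (v.pos hM) h1
  rw [Real.log_mul (cst_pos v hfac).ne' (pow_pos hm q).ne', Real.log_pow] at h2
  linarith

theorem df_nonneg {K : Type u} [Field K] [NumberField K] {q : ℕ} (hq : 0 < q)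
    (Sg : Finset (AbsoluteValue K ℝ)) (hSg : ∀ v ∈ Sg, Pl v) :
    ∃ C : ℝ, 0 ≤ C ∧ ∀ M : AbsoluteValue K ℝ → Matrix (Fin q) (Fin q) K,
      (∀ v ∈ Sg, (M v).det ≠ 0) → - C ≤ df Sg M := by
  have hfac : 1 ≤ q.factorial := Nat.factorial_pos q
  refine ⟨∑ v ∈ Sg, (nv v : ℝ) * Real.log (cst v q.factorial), Finset.sum_nonneg fun v _ =>
    mul_nonneg (Nat.cast_nonneg _) (Real.log_nonneg (one_le_cst v hfac)), fun M hM => ?_⟩
  rw [df_eq, ← Finset.sum_neg_distrib]
  refine Finset.sum_le_sum fun v hv => ?_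
  rw [← mul_neg]
  exact mul_le_mul_of_nonneg_left (df_loc hq v (hM v hv)) (Nat.cast_nonneg _)

end Pool.Agent.Lib.MP_17a322_nt.SL
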