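import Pool.Agent.Lib.MP_17a322_nt.SL.G3

/-!
Geometry of numbers: a hyperplane spanned by small vectors after a twist at one place.
-/

universe u

namespace Pool.Agent.Lib.MP_17a322_nt.SL

open MvPolynomial Height NumberField
open Pool.Agent.Lib.MP_17a322_nt.RO
open Pool.Agent.Lib.MP_17a322_nt.VJ

/-- The numbers to be added to the weights. -/
noncomputable def rh {q : ℕ} (l : Fin q) (η : ℝ) (s : Fin q → ℝ) (j : Fin q) : ℝ :=
  if j = l then (q - 1) * η - s l else - η - s j

theorem rh_sum {q : ℕ} (l : Fin q) (η : ℝ) (s : Fin q → ℝ) : ∑ j, rh l η s j = - ∑ j, s j := by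
  have h1 : ∀ j, rh l η s j = (if j = l then q * η else 0) - η - s j := by
    intro j
    unfold rh
    split_ifs with h
    · rw [h]
      ring
    · ring
  rw [Finset.sum_congr rfl fun j _ => h1 j, Finset.sum_sub_distrib, Finset.sum_sub_distrib,
    Finset.sum_ite_eq' Finset.univ l, if_pos (Finset.mem_univ l), Finset.sum_const,
    Finset.card_univ, Fintype.card_fin, nsmul_eq_mul]
  ring

theorem rh_anti {q : ℕ} (l : Fin q) (hl : ∀ j, j ≤ l) (η : ℝ) (s : Fin q → ℝ) (hs : Monotone s)
    (hgap : ∀ j, j ≠ l → s j + q * η ≤ s l) : Antitone (rh l η s) := by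
  intro i j hij
  unfold rh
  split_ifs with h1 h2 h2
  · exact le_rfl
  · have := hgap i h2
    linarith
  · exact absurd (le_antisymm (hl j) (h2 ▸ hij)) h1
  · have := hs hij
    linarith

/-- The hyperplane spanned by all minimal vectors but the last one is spanned by small vectors after a
twist at one place. -/
theorem G5a {K : Type u} [Field K] [NumberField K] {q : ℕ} (hq : 1 < q)
    (Sg : Finset (AbsoluteValue K ℝ)) (hSg : ∀ v ∈ Sg, Pl v)
    (hinf : ∀ v : NumberField.InfinitePlace K, v.val ∈ Sg) {v₀ : AbsoluteValue K ℝ}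
    (hv₀ : v₀ ∈ Sg) (l : Fin q) (hl : ∀ j, j ≤ l) :
    ∃ C : ℝ, 0 ≤ C ∧ ∀ (c : AbsoluteValue K ℝ → Fin q → ℝ)
      (M : AbsoluteValue K ℝ → Matrix (Fin q) (Fin q) K), (∀ v ∈ Sg, (M v).det ≠ 0) →
      ∀ y : Fin q → Fin q → K, LinearIndependent K y →
      ∃ π : Equiv.Perm (Fin q), ∀ (s' : Fin q → ℝ) (η : ℝ),
        ∃ z : Fin q → Fin q → K, LinearIndependent K z ∧
        ∀ (θ : ℝ) (s : Fin q → ℝ), 0 ≤ θ → 0 ≤ η → Monotone s' → Mn Sg c M θ y s →
        (∀ j, s' j - s j ≤ θ) → (∀ j, j ≠ l → s' j + q * η ≤ s' l) →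
          (∀ j, gs (sw Sg (twc v₀ π (rh l η s') c) M (z j)) ≤
            (if j = l then (q - 1) * η else - η) + (tw Sg c - ∑ j, s' j + 2 * q * θ + C)) ∧
          (tw Sg c - ∑ j, s' j + 2 * q * θ + 2 * θ + 2 * C < q * η → ∀ j, j ≠ l →
            z j ∈ Submodule.span K (y '' {i | i < l})) := by
  classical
  have hq0 : 0 < q := by omega
  obtain ⟨C₂, hC₂, h2⟩ := GTW (K := K) (q := q) Sg hSg hv₀
  obtain ⟨C₃, hC₃, h3⟩ := GM2 (K := K) hq0 Sg hSg hinf
  have hq' : (2 : ℝ) ≤ q := by exact_mod_cast hq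
  refine ⟨q * (C₂ + 1) + q + C₃ + 1, by positivity, fun c M hM y hyli => ?_⟩
  obtain ⟨π, hπ⟩ := h2 c M hM y hyli
  refine ⟨π, fun s' η => ?_⟩
  obtain ⟨c', hc'⟩ : ∃ c', c' = twc v₀ π (rh l η s') c := ⟨_, rfl⟩
  rw [← hc']
  obtain ⟨z, t, hz⟩ := exists_Mn hq0 Sg c' M hM
  refine ⟨z, hz.li, fun θ s hθ hη hs' hy hss hgap => ?_⟩
  have hρ := rh_anti l hl η s' hs' hgap
  have htw := tw_twc Sg hSg hv₀ π (rh l η s') c
  rw [rh_sum] at htw
  rw [← hc'] at htw
  have h4 := h3 c' M hM 1 z t hz
  -- lower bounds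
  have hlow : ∀ x : Fin q → K, x ≠ 0 → ∃ j, x ∉ Submodule.span K (y '' {i | i < j}) ∧
      x ∈ Submodule.span K (y '' {i | i ≤ j}) ∧
      (if j = l then (q - 1) * η else - η) - 2 * θ - C₂ ≤ gs (sw Sg c' M x) := by
    intro x hx
    obtain ⟨j, hj, hj'⟩ := flag_pos hy.li hx
    refine ⟨j, hj', hj, ?_⟩
    have g1 := hπ _ hρ j x hj hx
    have g2 := hy.low j x hj'
    have g3 := hss j
    rw [← hc'] at g1
    have g4 : s' j + rh l η s' j = if j = l then (q - 1) * η else - η := by
      unfold rh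
      split_ifs with h
      · rw [h]
        ring
      · ring
    rw [← g4]
    linarith
  have hlow1 : ∀ x : Fin q → K, x ≠ 0 → - η - 2 * θ - C₂ ≤ gs (sw Sg c' M x) := by
    intro x hx
    obtain ⟨j, -, -, h⟩ := hlow x hx
    refine le_trans ?_ h
    split_ifs
    · nlinarith
    · exact le_rfl
  have hlow2 : ∀ x : Fin q → K, x ∉ Submodule.span K (y '' {i | i < l}) →
      (q - 1) * η - 2 * θ - C₂ ≤ gs (sw Sg c' M x) := by
    intro x hx
    have hx0 : x ≠ 0 := by
      rintro rfl
      exact hx (Submodule.zero_mem _)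
    obtain ⟨j, h5, h6, h⟩ := hlow x hx0
    have h7 : j = l := by
      by_contra hne
      refine hx (Submodule.span_mono (Set.image_mono fun i hi => ?_) h6)
      exact lt_of_le_of_lt hi (lt_of_le_of_ne (hl j) hne)
    rw [if_pos h7] at h
    exact h
  -- the minima
  have ht1 : ∀ j, - η - 2 * θ - C₂ - 1 ≤ t j := by
    intro j
    have g1 := hlow1 (z j) (hz.li.ne_zero j)
    have g2 := hz.up j
    linarith
  have ht2 : (q - 1) * η - 2 * θ - C₂ - 1 ≤ t l := by
    obtain ⟨j, hj⟩ : ∃ j, z j ∉ Submodule.span K (y '' {i | i < l}) := by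
      by_contra h
      push Not at h
      have g1 : Submodule.span K (Set.range z) ≤ Submodule.span K (y '' {i | i < l}) := by
        rw [Submodule.span_le]
        rintro _ ⟨j, rfl⟩
        exact h j
      have g2 := Submodule.finrank_mono g1
      rw [finrank_span_eq_card hz.li, Fintype.card_fin] at g2
      have g3 := finrank_flag y l.val
      have g4 := l.2
      have g5 : Module.finrank K (Submodule.span K (y '' {i | i < l})) =
        Module.finrank K (Submodule.span K (y '' {i | i.val < l.val})) := rfl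
      omega
    have g1 := hlow2 _ hj
    have g2 := hz.up j
    have g3 := hz.mono (hl j)
    linarith
  have hcard : ∀ j, j ≠ l → ((Finset.univ.erase j).erase l).card = q - 2 := by
    intro j hj
    rw [Finset.card_erase_of_mem (Finset.mem_erase.2 ⟨Ne.symm hj, Finset.mem_univ _⟩),
      Finset.card_erase_of_mem (Finset.mem_univ _), Finset.card_univ, Fintype.card_fin]
    omega
  have ht3 : ∀ j, t j ≤ (if j = l then (q - 1) * η else - η) +
      (tw Sg c' + 2 * q * θ + (q * (C₂ + 1) + q + C₃)) := by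
    intro j
    split_ifs with h
    · have g1 := Finset.add_sum_erase Finset.univ t (Finset.mem_univ j)
      have g2 : (q - 1) * (- η - 2 * θ - C₂ - 1) ≤ ∑ i ∈ Finset.univ.erase j, t i := by
        have g3 := Finset.card_nsmul_le_sum (Finset.univ.erase j) t (- η - 2 * θ - C₂ - 1)
          fun i _ => ht1 i
        rw [Finset.card_erase_of_mem (Finset.mem_univ _), Finset.card_univ, Fintype.card_fin,
          nsmul_eq_mul, Nat.cast_sub (by omega), Nat.cast_one] at g3
        exact g3
      nlinarith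
    · have g1 := Finset.add_sum_erase Finset.univ t (Finset.mem_univ j)
      have g0 := Finset.add_sum_erase (Finset.univ.erase j) t
        (Finset.mem_erase.2 ⟨Ne.symm h, Finset.mem_univ l⟩)
      have g2 : (q - 2) * (- η - 2 * θ - C₂ - 1) ≤
          ∑ i ∈ (Finset.univ.erase j).erase l, t i := by
        have g3 := Finset.card_nsmul_le_sum ((Finset.univ.erase j).erase l) t
          (- η - 2 * θ - C₂ - 1) fun i _ => ht1 i
        rw [hcard j h, nsmul_eq_mul, Nat.cast_sub (by omega), Nat.cast_ofNat] at g3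
        exact g3
      nlinarith
  have htw' : tw Sg c' = tw Sg c - ∑ j, s' j := by
    rw [htw]
    ring
  have hup : ∀ j, gs (sw Sg c' M (z j)) ≤ (if j = l then (q - 1) * η else - η) +
      (tw Sg c - ∑ j, s' j + 2 * q * θ + (q * (C₂ + 1) + q + C₃ + 1)) := by
    intro j
    have g1 := ht3 j
    have g2 := hz.up j
    rw [htw'] at g1
    linarith
  refine ⟨hup, fun hlt j hj => ?_⟩
  by_contra hzj
  have g1 := hlow2 _ hzj
  have g2 := hup j
  rw [if_neg hj] at g2
  nlinarith

end Pool.Agent.Lib.MP_17a322_nt.SL
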