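import Pool.Agent.Lib.MP_17a322_nt.SL.G3

/-!
Geometry of numbers: uniform lower bounds, scaling.
-/

universe u

namespace Pool.Agent.Lib.MP_17a322_nt.SL

open MvPolynomial Height NumberField
open Pool.Agent.Lib.MP_17a322_nt.RO
open Pool.Agent.Lib.MP_17a322_nt.VJ

theorem tw_smul {K : Type*} [Field K] [AdmissibleAbsValues K] {q : ℕ}
    (Sg : Finset (AbsoluteValue K ℝ)) (c : AbsoluteValue K ℝ → Fin q → ℝ) (h : ℝ) :
    tw Sg (fun v k => c v k * h) = tw Sg c * h := by
  rw [tw_eq, tw_eq, Finset.sum_mul]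
  refine Finset.sum_congr rfl fun v _ => ?_
  rw [← Finset.sum_mul]
  ring

/-- The entries of the inverse matrix. -/
theorem mx_inv {K : Type*} [Field K] {q : ℕ} (hq : 0 < q) (v : AbsoluteValue K ℝ)
    {M : Matrix (Fin q) (Fin q) K} (hM : M.det ≠ 0) :
    Real.log (mx v M⁻¹) ≤ Real.log (cst v q.factorial) + (q - 1) * Real.log (mx v M) -
      Real.log (v M.det) := by
  have hfac : 1 ≤ q.factorial := Nat.factorial_pos q
  have hm := mx_pos hq v hM
  have hd := v.pos hM
  have hMi : M⁻¹.det ≠ 0 := by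
    rw [Matrix.det_nonsing_inv]
    exact (isUnit_iff_ne_zero.2 hM).ringInverse.ne_zero
  have hadj : ∀ i j, v (M.adjugate i j) ≤ cst v q.factorial * mx v M ^ (q - 1) := by
    intro i j
    rw [Matrix.adjugate_apply, ← Matrix.det_transpose]
    have h1 := det_le_w v (fun _ => 0) (M.updateRow j (Pi.single i 1)).transpose
      (fun l => if l = j then 1 else mx v M) (fun k l => by
        rw [Real.exp_zero, mul_one, Matrix.transpose_apply]
        split_ifs with h
        · rw [h, Matrix.updateRow_self]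
          rcases eq_or_ne k i with rfl | hk
          · rw [Pi.single_eq_same, map_one]
          · rw [Pi.single_eq_of_ne hk, map_zero]
            exact zero_le_one
        · rw [Matrix.updateRow_ne h]
          exact le_mx v M l k)
    rw [Finset.sum_const_zero, Real.exp_zero, mul_one, Fintype.card_fin,
      ← Finset.mul_prod_erase _ _ (Finset.mem_univ j), if_pos rfl, one_mul] at h1
    have h2 : ∏ l ∈ Finset.univ.erase j, (if l = j then 1 else mx v M) = mx v M ^ (q - 1) := by
      rw [Finset.prod_congr rfl fun l hl => if_neg (Finset.mem_erase.1 hl).1, Finset.prod_const,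
        Finset.card_erase_of_mem (Finset.mem_univ _), Finset.card_univ, Fintype.card_fin]
    rw [h2] at h1
    exact h1
  have h1 : mx v M⁻¹ ≤ cst v q.factorial * mx v M ^ (q - 1) / v M.det := by
    refine mx_le v _ (by have := cst_nonneg v q.factorial; positivity) fun i j => ?_
    rw [Matrix.inv_def, Matrix.smul_apply, smul_eq_mul, map_mul, Ring.inverse_eq_inv', map_inv₀,
      inv_mul_eq_div]
    exact div_le_div_of_nonneg_right (hadj i j) hd.le
  have h2 := Real.log_le_log (mx_pos hq v hMi) h1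
  rw [Real.log_div (mul_pos (cst_pos v hfac) (pow_pos hm _)).ne' hd.ne',
    Real.log_mul (cst_pos v hfac).ne' (pow_pos hm _).ne', Real.log_pow, Nat.cast_sub (by omega),
    Nat.cast_one] at h2
  exact h2

/-- The height is bounded by the size. -/
theorem sw_low {K : Type u} [Field K] [NumberField K] {q : ℕ} (hq : 0 < q)
    (Sg : Finset (AbsoluteValue K ℝ)) :
    ∃ C : ℝ, 0 ≤ C ∧ ∀ (c : AbsoluteValue K ℝ → Fin q → ℝ)
      (M : AbsoluteValue K ℝ → Matrix (Fin q) (Fin q) K), (∀ v ∈ Sg, (M v).det ≠ 0) →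
      ∀ y : Fin q → K, y ≠ 0 →
        logHeight y ≤ gs (sw Sg c M y) + ∑ v ∈ Sg, (nv v : ℝ) * ∑ k, |c v k| + df Sg M + C := by
  classical
  have hfac : 1 ≤ q.factorial := Nat.factorial_pos q
  refine ⟨∑ v ∈ Sg, (nv v : ℝ) * (Real.log (cst v q) + Real.log (cst v q.factorial)),
    Finset.sum_nonneg fun v _ => mul_nonneg (Nat.cast_nonneg _) (add_nonneg
      (Real.log_nonneg (one_le_cst v hq)) (Real.log_nonneg (one_le_cst v hfac))),
    fun c M hM y hy => ?_⟩
  have f1 : FS fun v : AbsoluteValue K ℝ => Real.log (⨆ l, v (y l)) := FS_log_iSup hy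
  have f2 := FS_sw Sg c M hy
  have f3 : FS fun v => if v ∈ Sg then ((∑ k, |c v k| + (q * Real.log (mx v (M v)) -
      Real.log (v (M v).det))) + (Real.log (cst v q) + Real.log (cst v q.factorial))) else 0 :=
    FS_ite Sg _ _ FS_zero
  have h1 := gs_le f1 (FS_add f2 f3) fun v _ => by
    by_cases hv : v ∈ Sg
    · have h2 := sw_loc hq v (c v) (hM v hv) hy
      have h3 := mx_inv hq v (hM v hv)
      simp only [if_pos hv, sw_mem c M y hv]
      have h4 : Real.log (⨆ l, v (y l)) = Real.log (mv v y) := rfl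
      rw [h4]
      linarith
    · simp only [if_neg hv, sw_notMem c M y hv, add_zero]
      exact le_rfl
  rw [gs_log_iSup hy, gs_add f2 f3, gs_ite] at h1
  rw [df_eq]
  have h2 : ∑ v ∈ Sg, (nv v : ℝ) * ((∑ k, |c v k| + (q * Real.log (mx v (M v)) -
      Real.log (v (M v).det))) + (Real.log (cst v q) + Real.log (cst v q.factorial))) =
      ∑ v ∈ Sg, (nv v : ℝ) * ∑ k, |c v k| + ∑ v ∈ Sg, (nv v : ℝ) * (q * Real.log (mx v (M v)) -
        Real.log (v (M v).det)) +
      ∑ v ∈ Sg, (nv v : ℝ) * (Real.log (cst v q) + Real.log (cst v q.factorial)) := by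
    rw [← Finset.sum_add_distrib, ← Finset.sum_add_distrib]
    exact Finset.sum_congr rfl fun v _ => by ring
  rw [h2] at h1
  linarith

theorem mw_smul {K : Type*} [Field K] {q : ℕ} (v : AbsoluteValue K ℝ) (c : Fin q → ℝ)
    (x : Fin q → K) (a : K) : mw v c (a • x) = v a * mw v c x := by
  unfold mw
  rw [Real.mul_iSup_of_nonneg (v.nonneg a)]
  congr 1
  funext k
  rw [Pi.smul_apply, smul_eq_mul, map_mul, mul_assoc]

theorem mv_smul {K : Type*} [Field K] {q : ℕ} (v : AbsoluteValue K ℝ)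
    (x : Fin q → K) (a : K) : mv v (a • x) = v a * mv v x := by
  unfold mv
  rw [Real.mul_iSup_of_nonneg (v.nonneg a)]
  congr 1
  funext k
  rw [Pi.smul_apply, smul_eq_mul, map_mul]

/-- The size does not depend on scaling. -/
theorem gs_sw_smul {K : Type u} [Field K] [NumberField K] {q : ℕ}
    (Sg : Finset (AbsoluteValue K ℝ)) (c : AbsoluteValue K ℝ → Fin q → ℝ)
    (M : AbsoluteValue K ℝ → Matrix (Fin q) (Fin q) K) (hM : ∀ v ∈ Sg, (M v).det ≠ 0)
    {y : Fin q → K} (hy : y ≠ 0) {a : K} (ha : a ≠ 0) :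
    gs (sw Sg c M (a • y)) = gs (sw Sg c M y) := by
  have h1 : sw Sg c M (a • y) = fun v => Real.log (v a) + sw Sg c M y v := by
    funext v
    by_cases hv : v ∈ Sg
    · rw [sw_mem c M _ hv, sw_mem c M _ hv, Matrix.mulVec_smul, mw_smul,
        Real.log_mul (v.pos ha).ne' (mw_pos v _ (mulVec_ne (hM v hv) hy)).ne']
      ring
    · rw [sw_notMem c M _ hv, sw_notMem c M _ hv, mv_smul,
        Real.log_mul (v.pos ha).ne' (mv_pos v hy).ne']
  rw [h1, gs_add (FS_log_abv ha) (FS_sw Sg c M hy), gs_log_abv ha, zero_add]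

end Pool.Agent.Lib.MP_17a322_nt.SL
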