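import Pool.Agent.Lib.MP_17a322_nt.SL.G6a
import Pool.Agent.Lib.MP_17a322_nt.VP.S1

/-!
Geometry of numbers: limits of successive minima.
-/

universe u

namespace Pool.Agent.Lib.MP_17a322_nt.SL

open MvPolynomial Height NumberField Filter
open Pool.Agent.Lib.MP_17a322_nt.RO
open Pool.Agent.Lib.MP_17a322_nt.VJ
open Pool.Agent.Lib.MP_17a322_nt.VN
open Pool.Agent.Lib.MP_17a322_nt.VP

theorem ev_pos {H : ℕ → ℝ} (hH : Tendsto H (hyperfilter ℕ : Filter ℕ) atTop) :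
    ∀ᶠ i in (hyperfilter ℕ : Filter ℕ), 0 < H i := hH.eventually_gt_atTop 0

theorem ev_le {H : ℕ → ℝ} (hH : Tendsto H (hyperfilter ℕ : Filter ℕ) atTop) (C : ℝ) {δ : ℝ}
    (hδ : 0 < δ) : ∀ᶠ i in (hyperfilter ℕ : Filter ℕ), C ≤ δ * H i := oH_const hH C δ hδ

/-- Limits of inequalities. -/
theorem lim_le {H : ℕ → ℝ} (hH : Tendsto H (hyperfilter ℕ : Filter ℕ) atTop) {a b : ℝ}
    (h : ∀ ε : ℝ, 0 < ε → ∀ᶠ i in (hyperfilter ℕ : Filter ℕ), a * H i ≤ (b + ε) * H i) :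
    a ≤ b := by
  refine le_of_forall_pos_le_add fun ε hε => ?_
  obtain ⟨i, h1, h2⟩ := ((h ε hε).and (ev_pos hH)).exists
  exact le_of_mul_le_mul_right h1 h2

/-- Limits of the successive minima. -/
theorem lim_MS {K : Type u} [Field K] [NumberField K] {q : ℕ} (hq : 0 < q)
    (Sg : Finset (AbsoluteValue K ℝ)) (hSg : ∀ v ∈ Sg, Pl v)
    (hinf : ∀ v : NumberField.InfinitePlace K, v.val ∈ Sg) {H : ℕ → ℝ}
    (hH : Tendsto H (hyperfilter ℕ : Filter ℕ) atTop) (c : AbsoluteValue K ℝ → Fin q → ℝ)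
    (M : ℕ → AbsoluteValue K ℝ → Matrix (Fin q) (Fin q) K)
    (hM : ∀ᶠ i in (hyperfilter ℕ : Filter ℕ), ∀ v ∈ Sg, (M i v).det ≠ 0)
    (hdf : oH H fun i => df Sg (M i)) (y : ℕ → Fin q → Fin q → K) (s : ℕ → Fin q → ℝ)
    (hys : ∀ᶠ i in (hyperfilter ℕ : Filter ℕ),
      Mn Sg (fun v k => c v k * H i) (M i) 1 (y i) (s i)) :
    ∃ σ : Fin q → ℝ, Monotone σ ∧ ∑ j, σ j = tw Sg c ∧
      (∀ ε : ℝ, 0 < ε → ∀ᶠ i in (hyperfilter ℕ : Filter ℕ), ∀ j,
        |s i j - σ j * H i| ≤ ε * H i) ∧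
      ∀ ε : ℝ, 0 < ε → ∀ᶠ i in (hyperfilter ℕ : Filter ℕ),
        Mn Sg (fun v k => c v k * H i) (M i) (ε * H i) (y i) (fun j => σ j * H i) := by
  classical
  obtain ⟨C₁, hC₁, h1⟩ := sw_low (K := K) hq Sg
  obtain ⟨C₂, hC₂, h2⟩ := GM2 (K := K) hq Sg hSg hinf
  obtain ⟨C₃, hC₃, h3⟩ := GLOW (K := K) hq Sg hSg
  obtain ⟨B, hB⟩ : ∃ B : ℝ, B = ∑ v ∈ Sg, (nv v : ℝ) * ∑ k, |c v k| := ⟨_, rfl⟩
  have hB0 : 0 ≤ B := by
    rw [hB]
    exact Finset.sum_nonneg fun v _ => mul_nonneg (Nat.cast_nonneg _)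
      (Finset.sum_nonneg fun _ _ => abs_nonneg _)
  have htw : ∀ i, tw Sg (fun v k => c v k * H i) = tw Sg c * H i := fun i => tw_smul Sg c (H i)
  -- the lower bound
  have hlow : ∀ᶠ i in (hyperfilter ℕ : Filter ℕ), ∀ j, - (B + 1) * H i ≤ s i j := by
    filter_upwards [hM, hdf (1 / 2) (by norm_num), ev_le hH (C₁ + 1) (by norm_num : (0:ℝ) < 1 / 2),
      ev_pos hH, hys] with i g1 g2 g3 g4 g5 j
    have g6 := h1 (fun v k => c v k * H i) (M i) g1 (y i j) (g5.li.ne_zero j)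
    have g7 := g5.up j
    have g8 : ∑ v ∈ Sg, (nv v : ℝ) * ∑ k, |c v k * H i| = B * H i := by
      rw [hB, Finset.sum_mul]
      refine Finset.sum_congr rfl fun v _ => ?_
      rw [mul_assoc, Finset.sum_mul]
      congr 1
      exact Finset.sum_congr rfl fun k _ => by rw [abs_mul, abs_of_pos g4]
    rw [g8] at g6
    have g9 : 0 ≤ logHeight (y i j) := logHeight_nonneg _
    nlinarith
  have hupp : ∀ᶠ i in (hyperfilter ℕ : Filter ℕ), ∀ j,
      s i j ≤ (tw Sg c + 1 + q * (B + 1)) * H i := by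
    filter_upwards [hM, hlow, ev_le hH (q + C₂) (one_pos), ev_pos hH, hys] with i g1 g2 g3 g4 g0 j
    have g5 := h2 _ (M i) g1 1 (y i) (s i) g0
    rw [htw] at g5
    have g6 : ∑ l ∈ Finset.univ.erase j, (- (B + 1) * H i) ≤ ∑ l ∈ Finset.univ.erase j, s i l :=
      Finset.sum_le_sum fun l _ => g2 l
    have g7 := Finset.add_sum_erase Finset.univ (s i) (Finset.mem_univ j)
    rw [Finset.sum_const, Finset.card_erase_of_mem (Finset.mem_univ _), Finset.card_univ,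
      Fintype.card_fin, nsmul_eq_mul, Nat.cast_sub (by omega), Nat.cast_one] at g6
    have g8 : 0 ≤ (B + 1) * H i := by positivity
    nlinarith
  have hlim : ∀ j, ∃ l : ℝ, ∀ κ : ℝ, 0 < κ →
      ∀ᶠ i in (hyperfilter ℕ : Filter ℕ), |s i j / H i - l| ≤ κ := by
    intro j
    obtain ⟨l, -, -, h4⟩ := S_lim (fun i => s i j / H i) (A := - (B + 1))
      (B := tw Sg c + 1 + q * (B + 1)) (by
        filter_upwards [hlow, hupp, ev_pos hH] with i g1 g2 g3
        exact ⟨(le_div_iff₀ g3).2 (g1 j), (div_le_iff₀ g3).2 (g2 j)⟩)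
    exact ⟨l, h4⟩
  choose σ hσ using hlim
  have hσ' : ∀ ε : ℝ, 0 < ε → ∀ᶠ i in (hyperfilter ℕ : Filter ℕ), ∀ j,
      |s i j - σ j * H i| ≤ ε * H i := by
    intro ε hε
    rw [eventually_all]
    intro j
    filter_upwards [hσ j ε hε, ev_pos hH] with i g1 g2
    have g3 : s i j - σ j * H i = (s i j / H i - σ j) * H i := by
      field_simp
    rw [g3, abs_mul, abs_of_pos g2]
    exact mul_le_mul_of_nonneg_right g1 g2.le
  have hmono : Monotone σ := by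
    intro j j' hjj
    refine lim_le hH fun ε hε => ?_
    filter_upwards [hσ' (ε / 2) (by positivity), hys] with i g1 g2
    have g3 := g2.mono hjj
    have g4 := abs_le.1 (g1 j)
    have g5 := abs_le.1 (g1 j')
    nlinarith
  have hMn : ∀ ε : ℝ, 0 < ε → ∀ᶠ i in (hyperfilter ℕ : Filter ℕ),
      Mn Sg (fun v k => c v k * H i) (M i) (ε * H i) (y i) (fun j => σ j * H i) := by
    intro ε hε
    filter_upwards [hσ' (ε / 2) (by positivity), hys, ev_le hH 1 (by positivity : 0 < ε / 2),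
      ev_pos hH] with i g1 g5 g3 g4
    refine ⟨g5.li, fun j j' hjj => mul_le_mul_of_nonneg_right (hmono hjj) g4.le, fun j => ?_,
      fun j z hz => ?_⟩
    · have g6 := g5.up j
      have g7 := abs_le.1 (g1 j)
      linarith
    · have g6 := g5.low j z hz
      have g7 := abs_le.1 (g1 j)
      linarith
  refine ⟨σ, hmono, ?_, hσ', hMn⟩
  refine le_antisymm (lim_le hH fun ε hε => ?_) (lim_le hH fun ε hε => ?_)
  · filter_upwards [hMn (ε / (2 * (q + 1))) (by positivity), hM,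
      ev_le hH C₂ (by positivity : 0 < ε / 2), ev_pos hH] with i g1 g2 g3 g4
    have g5 := h2 _ (M i) g2 _ (y i) _ g1
    rw [htw, ← Finset.sum_mul] at g5
    have g6 : (q : ℝ) * (ε / (2 * (q + 1)) * H i) ≤ ε / 2 * H i := by
      rw [← mul_assoc]
      refine mul_le_mul_of_nonneg_right ?_ g4.le
      rw [mul_div_assoc', div_le_div_iff₀ (by positivity) (by positivity)]
      nlinarith
    linarith
  · filter_upwards [hMn (ε / (4 * (q + 1))) (by positivity), hM,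
      ev_le hH C₃ (by positivity : 0 < ε / 4), ev_pos hH, hdf (ε / 4) (by positivity)]
      with i g1 g2 g3 g4 g7
    have g5 := h3 (fun v k => c v k * H i) (M i) g2 (y i) g1.li
    rw [htw] at g5
    have g6 : ∑ j, gs (sw Sg (fun v k => c v k * H i) (M i) (y i j)) ≤
        ∑ j, (σ j * H i + ε / (4 * (q + 1)) * H i) := Finset.sum_le_sum fun j _ => g1.up j
    rw [Finset.sum_add_distrib, ← Finset.sum_mul, Finset.sum_const, Finset.card_univ,
      Fintype.card_fin, nsmul_eq_mul] at g6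
    have g8 : (q : ℝ) * (ε / (4 * (q + 1)) * H i) ≤ ε / 4 * H i := by
      rw [← mul_assoc]
      refine mul_le_mul_of_nonneg_right ?_ g4.le
      rw [mul_div_assoc', div_le_div_iff₀ (by positivity) (by positivity)]
      nlinarith
    have g9 : 0 ≤ ε / 4 * H i := by positivity
    linarith

/-- Existence of sequences of minimal vectors. -/
theorem exists_MS {K : Type u} [Field K] [NumberField K] {q : ℕ} (hq : 0 < q)
    (Sg : Finset (AbsoluteValue K ℝ)) (hSg : ∀ v ∈ Sg, Pl v)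
    (hinf : ∀ v : NumberField.InfinitePlace K, v.val ∈ Sg) {H : ℕ → ℝ}
    (hH : Tendsto H (hyperfilter ℕ : Filter ℕ) atTop) (c : AbsoluteValue K ℝ → Fin q → ℝ)
    (M : ℕ → AbsoluteValue K ℝ → Matrix (Fin q) (Fin q) K)
    (hM : ∀ᶠ i in (hyperfilter ℕ : Filter ℕ), ∀ v ∈ Sg, (M i v).det ≠ 0)
    (hdf : oH H fun i => df Sg (M i)) :
    ∃ (y : ℕ → Fin q → Fin q → K) (s : ℕ → Fin q → ℝ) (σ : Fin q → ℝ),
      (∀ᶠ i in (hyperfilter ℕ : Filter ℕ),
        Mn Sg (fun v k => c v k * H i) (M i) 1 (y i) (s i)) ∧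
      Monotone σ ∧ ∑ j, σ j = tw Sg c ∧
      (∀ ε : ℝ, 0 < ε → ∀ᶠ i in (hyperfilter ℕ : Filter ℕ), ∀ j,
        |s i j - σ j * H i| ≤ ε * H i) ∧
      ∀ ε : ℝ, 0 < ε → ∀ᶠ i in (hyperfilter ℕ : Filter ℕ),
        Mn Sg (fun v k => c v k * H i) (M i) (ε * H i) (y i) (fun j => σ j * H i) := by
  classical
  have hex : ∀ i, ∃ (y : Fin q → Fin q → K) (s : Fin q → ℝ), (∀ v ∈ Sg, (M i v).det ≠ 0) →
      Mn Sg (fun v k => c v k * H i) (M i) 1 y s := by
    intro i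
    by_cases h : ∀ v ∈ Sg, (M i v).det ≠ 0
    · obtain ⟨y, s, h1⟩ := exists_Mn hq Sg (fun v k => c v k * H i) (M i) h
      exact ⟨y, s, fun _ => h1⟩
    · exact ⟨0, 0, fun h' => absurd h' h⟩
  choose y s hys using hex
  have hys' : ∀ᶠ i in (hyperfilter ℕ : Filter ℕ),
      Mn Sg (fun v k => c v k * H i) (M i) 1 (y i) (s i) := by
    filter_upwards [hM] with i hi
    exact hys i hi
  obtain ⟨σ, h1, h2, h3, h4⟩ := lim_MS hq Sg hSg hinf hH c M hM hdf y s hys'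
  exact ⟨y, s, σ, hys', h1, h2, h3, h4⟩

end Pool.Agent.Lib.MP_17a322_nt.SL
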