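import Pool.Agent.Lib.MP_17a322_nt.SL.GDefs

/-!
The sorted enumeration of the subsets.
-/

universe u

namespace Pool.Agent.Lib.MP_17a322_nt.SL

/-- The last `p` elements of `Fin (k + p)`. -/
theorem top_card (k p : ℕ) :
    (Finset.univ.filter fun j : Fin (k + p) => k ≤ j.val).card = p := by
  have h1 : (Finset.univ.filter fun j : Fin (k + p) => k ≤ j.val) =
      Finset.univ.map (Fin.natAddEmb k) := by
    ext j
    simp only [Finset.mem_filter, Finset.mem_univ, true_and, Finset.mem_map, Fin.natAddEmb_apply]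
    constructor
    · intro h
      exact ⟨⟨j.val - k, by have := j.2; omega⟩, Fin.ext (by simp only [Fin.val_natAdd]; omega)⟩
    · rintro ⟨i, rfl⟩
      simp only [Fin.val_natAdd]
      omega
  rw [h1, Finset.card_map, Finset.card_univ, Fintype.card_fin]

/-- The set of the last `p` elements. -/
def topS (k p : ℕ) : Set.powersetCard (Fin (k + p)) p :=
  ⟨Finset.univ.filter fun j : Fin (k + p) => k ≤ j.val, top_card k p⟩

theorem mem_topS {k p : ℕ} (j : Fin (k + p)) :
    j ∈ (topS k p : Finset (Fin (k + p))) ↔ k ≤ j.val := by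
  show j ∈ Finset.univ.filter (fun j : Fin (k + p) => k ≤ j.val) ↔ k ≤ j.val
  simp

/-- Sums over the other subsets are smaller. -/
theorem sum_lt_top {k p : ℕ} (σ : Fin (k + p) → ℝ) {α β : ℝ} (hαβ : α ≤ β)
    (hα : ∀ j, j.val < k → σ j ≤ α) (hβ : ∀ j, k ≤ j.val → β ≤ σ j)
    (I : Set.powersetCard (Fin (k + p)) p) (hI : I ≠ topS k p) :
    ∑ j ∈ (I : Finset (Fin (k + p))), σ j + (β - α) ≤
      ∑ j ∈ (topS k p : Finset (Fin (k + p))), σ j := by
  classical
  obtain ⟨S, hS⟩ := I
  obtain ⟨T, hT⟩ : ∃ T : Finset (Fin (k + p)), T = (topS k p : Finset (Fin (k + p))) := ⟨_, rfl⟩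
  have hTm : ∀ j, j ∈ T ↔ k ≤ j.val := fun j => by rw [hT]; exact mem_topS j
  have hTc : T.card = p := by rw [hT]; exact (topS k p).2
  have hSc : S.card = p := hS
  show ∑ j ∈ S, σ j + (β - α) ≤ _
  rw [← hT]
  have hne : S ≠ T := by
    rintro rfl
    exact hI (Subtype.ext hT)
  have h1 : ∑ j ∈ S, σ j = ∑ j ∈ S ∩ T, σ j + ∑ j ∈ S \ T, σ j :=
    (Finset.sum_inter_add_sum_sdiff S T σ).symm
  have h2 : ∑ j ∈ T, σ j = ∑ j ∈ T ∩ S, σ j + ∑ j ∈ T \ S, σ j :=
    (Finset.sum_inter_add_sum_sdiff T S σ).symm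
  have h3 : ∑ j ∈ S \ T, σ j ≤ (S \ T).card * α := by
    rw [← nsmul_eq_mul]
    refine Finset.sum_le_card_nsmul _ _ _ fun j hj => hα j ?_
    have h4 := (Finset.mem_sdiff.1 hj).2
    rw [hTm] at h4
    omega
  have h4 : ((T \ S).card : ℝ) * β ≤ ∑ j ∈ T \ S, σ j := by
    rw [← nsmul_eq_mul]
    refine Finset.card_nsmul_le_sum _ _ _ fun j hj => hβ j ?_
    exact (hTm j).1 (Finset.mem_sdiff.1 hj).1
  have h5 : (S \ T).card = (T \ S).card := by
    have g1 := Finset.card_sdiff_add_card_inter S T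
    have g2 := Finset.card_sdiff_add_card_inter T S
    rw [Finset.inter_comm T S] at g2
    omega
  have h6 : 1 ≤ (T \ S).card := by
    rw [Finset.one_le_card, Finset.sdiff_nonempty]
    intro h
    exact hne (Finset.eq_of_subset_of_card_le h (by omega)).symm
  have h7 : (1 : ℝ) ≤ (T \ S).card := by exact_mod_cast h6
  rw [h1, h2, Finset.inter_comm T S]
  rw [h5] at h3
  nlinarith

theorem card_powersetCard (q p : ℕ) : Nat.card (Set.powersetCard (Fin q) p) = q.choose p := by
  rw [Set.powersetCard.card, Nat.card_eq_fintype_card, Fintype.card_fin]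

/-- The enumeration of the subsets by increasing sums; the last one is the set of the last `p`
elements. -/
theorem exists_enum {k p : ℕ} (hk : 0 < k) (hp : 0 < p) (σ : Fin (k + p) → ℝ) {α β : ℝ}
    (hαβ : α < β) (hα : ∀ j, j.val < k → σ j ≤ α) (hβ : ∀ j, k ≤ j.val → β ≤ σ j) :
    ∃ (N : ℕ) (e : Fin (N + 1) ≃ Set.powersetCard (Fin (k + p)) p), 0 < N ∧
      Monotone (fun a => ∑ j ∈ (e a : Finset (Fin (k + p))), σ j) ∧
      e (Fin.last N) = topS k p ∧
      ∀ a, a ≠ Fin.last N → ∑ j ∈ (e a : Finset (Fin (k + p))), σ j + (β - α) ≤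
        ∑ j ∈ (topS k p : Finset (Fin (k + p))), σ j := by
  classical
  have hcard : 1 < (k + p).choose p := by
    have h1 : 2 ≤ k + p := by omega
    rcases Nat.lt_or_ge p 2 with h | h
    · have hp1 : p = 1 := by omega
      rw [hp1, Nat.choose_one_right]
      omega
    · have h2 : (k + p).choose p = (k + p).choose k := by
        rw [Nat.choose_symm_add]
      rw [h2]
      have h3 : (1 + p).choose 1 ≤ (k + p).choose k := by
        have h4 : (1 + p).choose 1 = (1 + p).choose p := by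
          rw [Nat.choose_symm_add]
        rw [h4, ← h2]
        exact Nat.choose_le_choose p (by omega)
      rw [Nat.choose_one_right] at h3
      omega
  obtain ⟨N, hN⟩ : ∃ N, (k + p).choose p = N + 1 := ⟨(k + p).choose p - 1, by omega⟩
  have e₀ : Set.powersetCard (Fin (k + p)) p ≃ Fin (N + 1) :=
    Finite.equivFinOfCardEq (by rw [card_powersetCard, hN])
  obtain ⟨f, hf⟩ : ∃ f : Set.powersetCard (Fin (k + p)) p → ℝ,
    f = fun I => ∑ j ∈ (I.val : Finset (Fin (k + p))), σ j := ⟨_, rfl⟩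
  obtain ⟨e, he⟩ : ∃ e : Fin (N + 1) ≃ Set.powersetCard (Fin (k + p)) p,
    e = (Tuple.sort (f ∘ e₀.symm)).trans e₀.symm := ⟨_, rfl⟩
  have hmono : Monotone (f ∘ e) := by
    rw [he]
    exact Tuple.monotone_sort (f ∘ e₀.symm)
  have hlast : e (Fin.last N) = topS k p := by
    by_contra h
    have h1 := sum_lt_top σ hαβ.le hα hβ _ h
    obtain ⟨a, ha⟩ := e.surjective (topS k p)
    have h2 := hmono (Fin.le_last a)
    simp only [Function.comp, hf, ha] at h2
    linarith
  refine ⟨N, e, by omega, ?_, hlast, fun a ha => ?_⟩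
  · intro a b hab
    have := hmono hab
    simpa only [Function.comp, hf] using this
  · refine sum_lt_top σ hαβ.le hα hβ _ fun h => ha ?_
    rw [← hlast] at h
    exact e.injective h

end Pool.Agent.Lib.MP_17a322_nt.SL
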