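import Pool.Agent.Lib.MP_17a322_nt.SL.G5
import Pool.Agent.Lib.MP_17a322_nt.SL.G6b
import Pool.Agent.Lib.MP_17a322_nt.SL.G7a
import Pool.Agent.Lib.MP_17a322_nt.SL.CM3

/-!
Geometry of numbers: the small hyperplane in the exterior power.
-/

universe u

namespace Pool.Agent.Lib.MP_17a322_nt.SL

open MvPolynomial Height NumberField Filter
open Pool.Agent.Lib.MP_17a322_nt.RO
open Pool.Agent.Lib.MP_17a322_nt.VJ
open Pool.Agent.Lib.MP_17a322_nt.VN
open Pool.Agent.Lib.MP_17a322_nt.VP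

theorem Mn.mono_th {K : Type*} [Field K] [AdmissibleAbsValues K] {q : ℕ}
    {Sg : Finset (AbsoluteValue K ℝ)} {c : AbsoluteValue K ℝ → Fin q → ℝ}
    {M : AbsoluteValue K ℝ → Matrix (Fin q) (Fin q) K} {θ θ' : ℝ} {y : Fin q → Fin q → K}
    {s : Fin q → ℝ} (h : Mn Sg c M θ y s) (hθ : θ ≤ θ') : Mn Sg c M θ' y s :=
  ⟨h.li, h.mono, fun j => (h.up j).trans (by linarith), fun j z hz =>
    (h.low j z hz).trans (by linarith)⟩

theorem cL_smul {K : Type*} [Field K] {q p N : ℕ} (e : Fin N ≃ Set.powersetCard (Fin q) p)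
    (c : AbsoluteValue K ℝ → Fin q → ℝ) (h : ℝ) :
    cL e (fun v k => c v k * h) = fun v a => cL e c v a * h := by
  funext v a
  unfold cL
  rw [Finset.sum_mul]

theorem rh_smul {q : ℕ} (l : Fin q) (η : ℝ) (s : Fin q → ℝ) (h : ℝ) (j : Fin q) :
    rh l (η * h) (fun j => s j * h) j = rh l η s j * h := by
  unfold rh
  split_ifs <;> ring

theorem twc_smul {K : Type*} [Field K] [AdmissibleAbsValues K] {q : ℕ}
    (v₀ : AbsoluteValue K ℝ) (π : Equiv.Perm (Fin q)) (l : Fin q) (η : ℝ) (s : Fin q → ℝ)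
    (c : AbsoluteValue K ℝ → Fin q → ℝ) (h : ℝ) :
    twc v₀ π (rh l (η * h) fun j => s j * h) (fun v k => c v k * h) =
      fun v k => twc v₀ π (rh l η s) c v k * h := by
  funext v k
  unfold twc
  rw [rh_smul]
  split_ifs <;> ring

/-- Minimal vectors of the exterior power. -/
theorem MS_cmp {K : Type u} [Field K] [NumberField K] {q p N : ℕ} (hp : 0 < p) (hpq : p ≤ q)
    (e : Fin (N + 1) ≃ Set.powersetCard (Fin q) p)
    (Sg : Finset (AbsoluteValue K ℝ)) (hSg : ∀ v ∈ Sg, Pl v) {H : ℕ → ℝ}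
    (hH : Tendsto H (hyperfilter ℕ : Filter ℕ) atTop) (c : AbsoluteValue K ℝ → Fin q → ℝ)
    (M : ℕ → AbsoluteValue K ℝ → Matrix (Fin q) (Fin q) K)
    (hM : ∀ᶠ i in (hyperfilter ℕ : Filter ℕ), ∀ v ∈ Sg, (M i v).det ≠ 0)
    (hdf : oH H fun i => df Sg (M i)) (y : ℕ → Fin q → Fin q → K) (σ : Fin q → ℝ)
    (hσ : ∑ j, σ j = tw Sg c)
    (hMn : ∀ ε : ℝ, 0 < ε → ∀ᶠ i in (hyperfilter ℕ : Filter ℕ),
      Mn Sg (fun v k => c v k * H i) (M i) (ε * H i) (y i) (fun j => σ j * H i))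
    (hmono : Monotone fun a => ∑ j ∈ (e a : Finset (Fin q)), σ j) (ε : ℝ) (hε : 0 < ε) :
    ∀ᶠ i in (hyperfilter ℕ : Filter ℕ),
      Mn Sg (fun v a => cL e c v a * H i) (fun v => cmp e (M i v)) (ε * H i)
        (fun a => cmp e (Matrix.of (y i)) a)
        (fun a => (∑ j ∈ (e a : Finset (Fin q)), σ j) * H i) := by
  classical
  obtain ⟨C₁, hC₁, h1⟩ := cmp_size (K := K) e hp hpq Sg hSg
  obtain ⟨C₂, hC₂, h2⟩ := cmp_df (K := K) e hp hpq Sg hSg
  obtain ⟨C₃, hC₃, h3⟩ := GM4 (K := K) (q := N + 1) (Nat.succ_pos N) Sg hSg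
  obtain ⟨m, hm⟩ : ∃ m : ℝ, m = (N + 1) * (q + 2) + ((N + 1 : ℕ) : ℝ) * p + 3 := ⟨_, rfl⟩
  have hm0 : 0 < m := by
    rw [hm]
    positivity
  have hε' : 0 < ε / m := by positivity
  filter_upwards [hM, hMn (ε / m) hε', hdf (ε / m) hε', ev_le hH C₁ hε', ev_le hH C₂ hε',
    ev_le hH C₃ hε', ev_pos hH] with i g1 g2 g3 g4 g5 g6 g7
  have hcM : ∀ v ∈ Sg, (cmp e (M i v)).det ≠ 0 := fun v hv => cmp_det_ne e _ (g1 v hv)
  obtain ⟨t, ht⟩ : ∃ t : ℝ, t = ε / m * H i := ⟨_, rfl⟩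
  rw [← ht] at g2 g3 g4 g5 g6
  have ht0 : 0 ≤ t := by
    rw [ht]
    positivity
  have k1 : ∀ a, gs (sw Sg (fun v a => cL e c v a * H i) (fun v => cmp e (M i v))
      (cmp e (Matrix.of (y i)) a)) ≤ (∑ j ∈ (e a : Finset (Fin q)), σ j) * H i +
        (q + 2) * t := by
    intro a
    have k2 := h1 (fun v k => c v k * H i) (M i) g1 (y i) g2.li a
    rw [cL_smul] at k2
    have k3 : ∑ j ∈ (e a : Finset (Fin q)), gs (sw Sg (fun v k => c v k * H i) (M i) (y i j)) ≤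
        ∑ j ∈ (e a : Finset (Fin q)), (σ j * H i + t) := Finset.sum_le_sum fun j _ => g2.up j
    rw [Finset.sum_add_distrib, ← Finset.sum_mul, Finset.sum_const, nsmul_eq_mul] at k3
    have k4 : ((e a : Finset (Fin q)).card : ℝ) ≤ q := by
      have k5 := Finset.card_le_univ (e a : Finset (Fin q))
      rw [Fintype.card_fin] at k5
      exact_mod_cast k5
    have k5 := mul_le_mul_of_nonneg_right k4 ht0
    linarith
  have k2 := h2 (M i) g1
  have k3 : ∑ a, (∑ j ∈ (e a : Finset (Fin q)), σ j) * H i ≤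
      tw Sg (fun v a => cL e c v a * H i) + 0 := by
    rw [tw_smul, cmp_tw e hp Sg c, ← Finset.sum_mul, cmp_sum e hp σ, hσ, add_zero]
  have k4 := h3 (fun v a => cL e c v a * H i) (fun v => cmp e (M i v)) hcM ((q + 2) * t) 0
    (fun a => cmp e (Matrix.of (y i)) a) (fun a => (∑ j ∈ (e a : Finset (Fin q)), σ j) * H i)
    (by positivity) le_rfl (cmp_li e g2.li)
    (fun a b hab => mul_le_mul_of_nonneg_right (hmono hab) g7.le) k1 k3
  refine k4.mono_th ?_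
  have k5 : ((N + 1 : ℕ) : ℝ) * p * df Sg (M i) ≤ ((N + 1 : ℕ) : ℝ) * p * t :=
    mul_le_mul_of_nonneg_left g3 (by positivity)
  have k6 : ε * H i = m * t := by
    rw [ht]
    field_simp
  rw [k6, hm]
  push_cast at k2 k5 ⊢
  nlinarith

/-- The hyperplane of the exterior power spanned by small vectors. -/
theorem G7 {K : Type u} [Field K] [NumberField K] {k p : ℕ} (hk : 0 < k) (hp : 0 < p)
    (Sg : Finset (AbsoluteValue K ℝ)) (hSg : ∀ v ∈ Sg, Pl v)
    (hinf : ∀ v : NumberField.InfinitePlace K, v.val ∈ Sg) {H : ℕ → ℝ}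
    (hH : Tendsto H (hyperfilter ℕ : Filter ℕ) atTop)
    (c : AbsoluteValue K ℝ → Fin (k + p) → ℝ)
    (M : ℕ → AbsoluteValue K ℝ → Matrix (Fin (k + p)) (Fin (k + p)) K)
    (hM : ∀ᶠ i in (hyperfilter ℕ : Filter ℕ), ∀ v ∈ Sg, (M i v).det ≠ 0)
    (hdf : oH H fun i => df Sg (M i)) (y : ℕ → Fin (k + p) → Fin (k + p) → K)
    (σ : Fin (k + p) → ℝ) (hσ : ∑ j, σ j = tw Sg c)
    (hMn : ∀ ε : ℝ, 0 < ε → ∀ᶠ i in (hyperfilter ℕ : Filter ℕ),
      Mn Sg (fun v k => c v k * H i) (M i) (ε * H i) (y i) (fun j => σ j * H i))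
    {α β : ℝ} (hαβ : α < β) (hα : ∀ j : Fin (k + p), j.val < k → σ j ≤ α)
    (hβ : ∀ j : Fin (k + p), k ≤ j.val → β ≤ σ j) :
    ∃ (N : ℕ) (e : Fin (N + 1) ≃ Set.powersetCard (Fin (k + p)) p)
      (c' : AbsoluteValue K ℝ → Fin (N + 1) → ℝ) (η : ℝ)
      (z : ℕ → Fin (N + 1) → Fin (N + 1) → K),
      0 < N ∧ e (Fin.last N) = topS k p ∧ tw Sg c' = 0 ∧ 0 < η ∧
      (∀ᶠ i in (hyperfilter ℕ : Filter ℕ), LinearIndependent K (z i)) ∧
      (∀ ε : ℝ, 0 < ε → ∀ᶠ i in (hyperfilter ℕ : Filter ℕ), ∀ j,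
        gs (sw Sg (fun v a => c' v a * H i) (fun v => cmp e (M i v)) (z i j)) ≤
          ((if j = Fin.last N then N * η else - η) + ε) * H i) ∧
      ∀ᶠ i in (hyperfilter ℕ : Filter ℕ), ∀ j, j ≠ Fin.last N →
        z i j ∈ Submodule.span K ((fun a => cmp e (Matrix.of (y i)) a) ''
          {a | a < Fin.last N}) := by
  classical
  obtain ⟨N, e, hN, hmono, hlast, hgap⟩ := exists_enum hk hp σ hαβ hα hβ
  obtain ⟨w₀⟩ : Nonempty (InfinitePlace K) := inferInstance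
  obtain ⟨τ, hτ⟩ : ∃ τ : Fin (N + 1) → ℝ,
    τ = fun a => ∑ j ∈ (e a : Finset (Fin (k + p))), σ j := ⟨_, rfl⟩
  obtain ⟨η, hη⟩ : ∃ η : ℝ, η = (β - α) / (N + 1) := ⟨_, rfl⟩
  have hη0 : 0 < η := by
    rw [hη]
    have : 0 < β - α := by linarith
    positivity
  have hgap' : ∀ a, a ≠ Fin.last N → τ a + ((N + 1 : ℕ) : ℝ) * η ≤ τ (Fin.last N) := by
    intro a ha
    have h1 := hgap a ha
    have h2 : ((N + 1 : ℕ) : ℝ) * η = β - α := by
      rw [hη]
      push_cast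
      field_simp
    rw [hτ, h2]
    simp only [hlast]
    exact h1
  obtain ⟨C, hC, h5⟩ := G5a (K := K) (q := N + 1) (by omega) Sg hSg hinf (hinf w₀)
    (Fin.last N) (fun j => Fin.le_last j)
  have hLam : ∀ ε : ℝ, 0 < ε → ∀ᶠ i in (hyperfilter ℕ : Filter ℕ),
      Mn Sg (fun v a => cL e c v a * H i) (fun v => cmp e (M i v)) (ε * H i)
        (fun a => cmp e (Matrix.of (y i)) a) (fun a => τ a * H i) := by
    rw [hτ]
    exact MS_cmp hp (Nat.le_add_left p k) e Sg hSg hH c M hM hdf y σ hσ hMn hmono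
  -- the choices for every index
  have hex : ∀ i, ∃ (π : Equiv.Perm (Fin (N + 1))) (z : Fin (N + 1) → Fin (N + 1) → K),
      (∀ v ∈ Sg, (M i v).det ≠ 0) → LinearIndependent K (y i) → LinearIndependent K z ∧
        ∀ (θ : ℝ), 0 ≤ θ → 0 ≤ H i →
          Mn Sg (fun v a => cL e c v a * H i) (fun v => cmp e (M i v)) θ
            (fun a => cmp e (Matrix.of (y i)) a) (fun a => τ a * H i) →
          (∀ j, gs (sw Sg (fun v a => twc w₀.val π (rh (Fin.last N) η τ) (cL e c) v a * H i)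
            (fun v => cmp e (M i v)) (z j)) ≤
            (if j = Fin.last N then (((N + 1 : ℕ) : ℝ) - 1) * (η * H i) else - (η * H i)) +
              (2 * ((N + 1 : ℕ) : ℝ) * θ + C)) ∧
          (2 * ((N + 1 : ℕ) : ℝ) * θ + 2 * θ + 2 * C < ((N + 1 : ℕ) : ℝ) * (η * H i) →
            ∀ j, j ≠ Fin.last N → z j ∈ Submodule.span K
              ((fun a => cmp e (Matrix.of (y i)) a) '' {a | a < Fin.last N})) := by
    intro i
    by_cases h : (∀ v ∈ Sg, (M i v).det ≠ 0) ∧ LinearIndependent K (y i)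
    · obtain ⟨π, hπ⟩ := h5 (fun v a => cL e c v a * H i) (fun v => cmp e (M i v))
        (fun v hv => cmp_det_ne e _ (h.1 v hv)) (fun a => cmp e (Matrix.of (y i)) a)
        (cmp_li e h.2)
      obtain ⟨z, hz, hz'⟩ := hπ (fun a => τ a * H i) (η * H i)
      refine ⟨π, z, fun _ _ => ⟨hz, fun θ hθ hHi hMnθ => ?_⟩⟩
      have h6 := hz' θ (fun a => τ a * H i) hθ (by positivity) hMnθ.mono hMnθ
        (fun j => by rw [sub_self]; exact hθ) (fun j hj => by
          have h7 := mul_le_mul_of_nonneg_right (hgap' j hj) hHi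
          nlinarith)
      rw [twc_smul] at h6
      have h7 : tw Sg (fun v a => cL e c v a * H i) - ∑ j, τ j * H i = 0 := by
        rw [tw_smul, cmp_tw e hp Sg c, ← Finset.sum_mul, hτ, cmp_sum e hp σ, hσ, sub_self]
      rw [h7] at h6
      simp only [zero_add] at h6
      exact h6
    · exact ⟨1, 0, fun h' h'' => absurd ⟨h', h''⟩ h⟩
  choose π z hz using hex
  obtain ⟨π₀, hπ₀⟩ := exists_const π
  have hli : ∀ᶠ i in (hyperfilter ℕ : Filter ℕ), LinearIndependent K (y i) := by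
    filter_upwards [hMn 1 one_pos] with i g1
    exact g1.li
  refine ⟨N, e, twc w₀.val π₀ (rh (Fin.last N) η τ) (cL e c), η, z, hN, hlast, ?_, hη0, ?_, ?_, ?_⟩
  · rw [tw_twc Sg hSg (hinf w₀), rh_sum, cmp_tw e hp Sg c, hτ, cmp_sum e hp σ, hσ]
    ring
  · filter_upwards [hM, hli] with i g1 g2
    exact (hz i g1 g2).1
  · intro ε hε
    have hε' : 0 < ε / (2 * (N + 1) + 1) := by positivity
    filter_upwards [hM, hli, hπ₀, hLam (ε / (2 * (N + 1) + 1)) hε', ev_le hH C hε', ev_pos hH]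
      with i g1 g2 g3 g4 g5 g6 j
    have g7 := ((hz i g1 g2).2 _ (by positivity) g6.le g4).1 j
    rw [g3] at g7
    refine g7.trans ?_
    obtain ⟨t, ht⟩ : ∃ t : ℝ, t = ε / (2 * (N + 1) + 1) * H i := ⟨_, rfl⟩
    have k6 : ε * H i = (2 * (N + 1) + 1) * t := by
      rw [ht]
      field_simp
    rw [← ht] at g5 ⊢
    push_cast
    rw [add_mul, k6]
    split_ifs <;> nlinarith
  · have hε' : 0 < η / (8 : ℝ) := by positivity
    filter_upwards [hM, hli, hLam (η / 8) hε', ev_le hH C hε', ev_pos hH] with i g1 g2 g4 g5 g6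
    have hN1 : (1 : ℝ) ≤ N := by exact_mod_cast hN
    refine ((hz i g1 g2).2 _ (by positivity) g6.le g4).2 ?_
    push_cast
    have h8 : 0 < η * H i := by positivity
    nlinarith

end Pool.Agent.Lib.MP_17a322_nt.SL
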