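import Pool.Agent.Lib.MP_17a322_nt.SL.G3a

/-!
Geometry of numbers: the dual basis and the dual forms.
-/

universe u

namespace Pool.Agent.Lib.MP_17a322_nt.SL

open MvPolynomial Height NumberField
open Pool.Agent.Lib.MP_17a322_nt.RO
open Pool.Agent.Lib.MP_17a322_nt.VJ

section

variable {K : Type*} [Field K] {q : ℕ}

/-- The size of an entry of the adjugate; `b l` is the weighted size of the column `l`. -/
theorem gd_adj (v : AbsoluteValue K ℝ) (c : Fin q → ℝ) (N : Matrix (Fin q) (Fin q) K)
    (b : Fin q → ℝ) (hb0 : ∀ l, 0 < b l) (hb : ∀ k l, v (N k l) * Real.exp (c k) ≤ b l)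
    (j k : Fin q) :
    v (N.adjugate j k) * Real.exp (- c k) * Real.exp (∑ k, c k) ≤
      cst v q.factorial * ∏ l ∈ Finset.univ.erase j, b l := by
  classical
  have h1 := det_le_w v (Function.update c k (Real.log (b j)))
    (N.updateRow k (Pi.single j 1)) b (fun k' l => by
      rw [Matrix.updateRow_apply]
      by_cases hk : k' = k
      · rw [if_pos hk, hk, Function.update_self, Real.exp_log (hb0 j)]
        by_cases hl : l = j
        · rw [hl, Pi.single_eq_same, map_one, one_mul]
        · rw [Pi.single_eq_of_ne hl, map_zero, zero_mul]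
          exact (hb0 l).le
      · rw [if_neg hk, Function.update_of_ne hk]
        exact hb k' l)
  rw [← Matrix.adjugate_apply, Fintype.card_fin] at h1
  have h2 : ∑ k', Function.update c k (Real.log (b j)) k' =
      Real.log (b j) + (- c k + ∑ k', c k') := by
    rw [Finset.sum_update_of_mem (Finset.mem_univ _), ← Finset.erase_eq,
      ← Finset.add_sum_erase Finset.univ c (Finset.mem_univ k)]
    ring
  have h3 : ∏ l, b l = b j * ∏ l ∈ Finset.univ.erase j, b l :=
    (Finset.mul_prod_erase Finset.univ b (Finset.mem_univ j)).symm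
  rw [h2, h3, Real.exp_add, Real.exp_log (hb0 j), Real.exp_add] at h1
  have h4 : b j * (v (N.adjugate j k) * Real.exp (- c k) * Real.exp (∑ k, c k)) ≤
      b j * (cst v q.factorial * ∏ l ∈ Finset.univ.erase j, b l) := by
    calc _ = v (N.adjugate j k) * (b j * (Real.exp (- c k) * Real.exp (∑ k, c k))) := by ring
      _ ≤ cst v q.factorial * (b j * ∏ l ∈ Finset.univ.erase j, b l) := h1
      _ = _ := by ring
  exact le_of_mul_le_mul_left h4 (hb0 j)

/-- The largest entry of the adjugate is large. -/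
theorem gd_mx_adj (hq : 0 < q) (v : AbsoluteValue K ℝ) {M : Matrix (Fin q) (Fin q) K}
    (hM : M.det ≠ 0) :
    Real.log (v M.det) ≤ Real.log (cst v q) + Real.log (mx v M) +
      Real.log (mx v M.adjugate.transpose) := by
  classical
  have hadj : M.adjugate.transpose.det ≠ 0 := by
    rw [Matrix.det_transpose, Matrix.det_adjugate]
    exact pow_ne_zero _ hM
  have hm := mx_pos hq v hM
  have hm' := mx_pos hq v hadj
  have h1 : M.det = ∑ l, M ⟨0, hq⟩ l * M.adjugate l ⟨0, hq⟩ := by
    have h2 := congrFun (congrFun (Matrix.mul_adjugate M) ⟨0, hq⟩) ⟨0, hq⟩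
    rw [Matrix.mul_apply, Matrix.smul_apply, Matrix.one_apply_eq, smul_eq_mul, mul_one] at h2
    exact h2.symm
  have h2 := (SN_self v).sum_le Finset.univ (fun l => M ⟨0, hq⟩ l * M.adjugate l ⟨0, hq⟩)
    (B := mx v M * mx v M.adjugate.transpose)
    (mul_nonneg hm.le hm'.le) (fun l _ => by
      rw [map_mul]
      exact mul_le_mul (le_mx v M _ l) (le_mx v M.adjugate.transpose ⟨0, hq⟩ l) (v.nonneg _)
        hm.le)
  rw [Finset.card_univ, Fintype.card_fin, ← h1] at h2
  have h3 := Real.log_le_log (v.pos hM) h2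
  rw [Real.log_mul (cst_pos v hq).ne' (mul_pos hm hm').ne', Real.log_mul hm.ne' hm'.ne'] at h3
  linarith

/-- The largest entry of the adjugate. -/
theorem gd_mx_adj_le (hq : 0 < q) (v : AbsoluteValue K ℝ) {M : Matrix (Fin q) (Fin q) K}
    (hM : M.det ≠ 0) :
    Real.log (mx v M.adjugate.transpose) ≤ Real.log (cst v q.factorial) +
      ((q : ℝ) - 1) * Real.log (mx v M) := by
  classical
  have hadj : M.adjugate.transpose.det ≠ 0 := by
    rw [Matrix.det_transpose, Matrix.det_adjugate]
    exact pow_ne_zero _ hM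
  have hm := mx_pos hq v hM
  have hm' := mx_pos hq v hadj
  have h1 : mx v M.adjugate.transpose ≤ cst v q.factorial * mx v M ^ (q - 1) := by
    refine mx_le v _ (mul_nonneg (cst_nonneg v _) (pow_nonneg hm.le _)) fun k j => ?_
    have h2 := gd_adj v (fun _ => 0) M (fun _ => mx v M) (fun _ => hm) (fun k l => by
      rw [Real.exp_zero, mul_one]
      exact le_mx v M k l) j k
    rw [neg_zero, Real.exp_zero, mul_one, Finset.sum_const_zero, Real.exp_zero, mul_one,
      Finset.prod_const, Finset.card_erase_of_mem (Finset.mem_univ _), Finset.card_univ,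
      Fintype.card_fin] at h2
    exact h2
  have h3 := Real.log_le_log hm' h1
  rw [Real.log_mul (cst_pos v (Nat.factorial_pos q)).ne' (pow_pos hm _).ne', Real.log_pow,
    Nat.cast_sub hq, Nat.cast_one] at h3
  exact h3

/-- The size of the dual basis at a place in `Sg`. -/
theorem gd_loc (hq : 0 < q) (v : AbsoluteValue K ℝ) (c : Fin q → ℝ)
    {M : Matrix (Fin q) (Fin q) K} (hM : M.det ≠ 0) {z : Fin q → Fin q → K}
    (hz : (Matrix.of z).det ≠ 0) (j : Fin q) :
    Real.log (mw v (fun k => - c k)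
      (M.adjugate.transpose.mulVec fun l => (Matrix.of z)⁻¹ l j)) ≤
      Real.log (cst v q.factorial) + ∑ l ∈ Finset.univ.erase j, Real.log (mw v c (M.mulVec (z l))) -
        ∑ k, c k - Real.log (v (Matrix.of z).det) := by
  classical
  obtain ⟨Z, hZ⟩ : ∃ Z : Matrix (Fin q) (Fin q) K, Z = Matrix.of z := ⟨_, rfl⟩
  rw [← hZ] at hz ⊢
  obtain ⟨N, hN⟩ : ∃ N, N = M * Z.transpose := ⟨_, rfl⟩
  have hNe : ∀ k l, N k l = M.mulVec (z l) k := by
    intro k l
    rw [hN, hZ]
    rfl
  have hz0 : ∀ l, z l ≠ 0 := by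
    intro l hl
    apply hz
    refine Matrix.det_eq_zero_of_row_eq_zero l fun k => ?_
    rw [hZ, Matrix.of_apply, hl]
    rfl
  have hmw : ∀ l, 0 < mw v c (M.mulVec (z l)) := fun l => mw_pos v c (mulVec_ne hM (hz0 l))
  have hadj : ∀ k, (M.adjugate.transpose.mulVec fun l => Z⁻¹ l j) k =
      N.adjugate j k / Z.det := by
    intro k
    rw [hN, Matrix.adjugate_mul_distrib, ← Matrix.adjugate_transpose, Matrix.mul_apply,
      Matrix.mulVec, dotProduct, Finset.sum_div]
    refine Finset.sum_congr rfl fun l _ => ?_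
    rw [Matrix.inv_def, Matrix.smul_apply, Matrix.transpose_apply, Matrix.transpose_apply,
      Ring.inverse_eq_inv, smul_eq_mul]
    ring
  have hZi : (fun l => Z⁻¹ l j) ≠ 0 := by
    intro h0
    have h1 := congrFun (congrFun (Matrix.mul_nonsing_inv Z (isUnit_iff_ne_zero.2 hz)) j) j
    rw [Matrix.mul_apply, Matrix.one_apply_eq] at h1
    have h2 : ∀ l, Z⁻¹ l j = 0 := fun l => congrFun h0 l
    simp only [h2, mul_zero, Finset.sum_const_zero] at h1
    exact zero_ne_one h1
  have hMa : M.adjugate.transpose.det ≠ 0 := by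
    rw [Matrix.det_transpose, Matrix.det_adjugate]
    exact pow_ne_zero _ hM
  have hpos := mw_pos v (fun k => - c k) (mulVec_ne hMa hZi)
  have hvz : 0 < v Z.det := v.pos hz
  have hP : 0 < ∏ l ∈ Finset.univ.erase j, mw v c (M.mulVec (z l)) :=
    Finset.prod_pos fun l _ => hmw l
  have hcst := cst_pos v (Nat.factorial_pos q)
  have hA := mul_pos hcst hP
  have hB := div_pos hA (Real.exp_pos (∑ k, c k))
  have h1 : mw v (fun k => - c k) (M.adjugate.transpose.mulVec fun l => Z⁻¹ l j) ≤
      cst v q.factorial * (∏ l ∈ Finset.univ.erase j, mw v c (M.mulVec (z l))) /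
        Real.exp (∑ k, c k) / v Z.det := by
    refine mw_le v _ _ (div_pos hB hvz).le fun k => ?_
    have h2 := gd_adj v c N (fun l => mw v c (M.mulVec (z l))) hmw (fun k l => by
      rw [hNe]
      exact le_mw v c _ k) j k
    rw [hadj, map_div₀, le_div_iff₀ hvz, le_div_iff₀ (Real.exp_pos _)]
    refine le_trans (le_of_eq ?_) h2
    field_simp
  have h2 := Real.log_le_log hpos h1
  rw [Real.log_div hB.ne' hvz.ne', Real.log_div hA.ne' (Real.exp_ne_zero _),
    Real.log_exp, Real.log_mul hcst.ne' hP.ne', Real.log_prod fun l _ => (hmw l).ne'] at h2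
  exact h2

end

/-- GDUAL: the sizes of the dual basis with respect to the dual forms; the dual basis is the columns of
the inverse matrix. -/
theorem GDUAL {K : Type u} [Field K] [NumberField K] {q : ℕ} (hq : 0 < q)
    (Sg : Finset (AbsoluteValue K ℝ)) (hSg : ∀ v ∈ Sg, Pl v) :
    ∃ C : ℝ, 0 ≤ C ∧ ∀ (c : AbsoluteValue K ℝ → Fin q → ℝ)
      (M : AbsoluteValue K ℝ → Matrix (Fin q) (Fin q) K), (∀ v ∈ Sg, (M v).det ≠ 0) →
      ∀ (z : Fin q → Fin q → K), LinearIndependent K z → ∀ j,
        gs (sw Sg (fun v k => - c v k) (fun v => (M v).adjugate.transpose)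
          (fun l => (Matrix.of z)⁻¹ l j)) ≤
          ∑ l ∈ Finset.univ.erase j, gs (sw Sg c M (z l)) - tw Sg c + df Sg M + C := by
  classical
  have hfac : 1 ≤ q.factorial := Nat.factorial_pos q
  refine ⟨totalWeight K * Real.log q.factorial + totalWeight K * Real.log q,
    add_nonneg (mul_nonneg (Nat.cast_nonneg _) (Real.log_nonneg (by exact_mod_cast hfac)))
      (mul_nonneg (Nat.cast_nonneg _) (Real.log_nonneg (by exact_mod_cast hq))),
    fun c M hM z hzi j => ?_⟩
  have hz0 : ∀ l, z l ≠ 0 := fun l => hzi.ne_zero l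
  have hz : (Matrix.of z).det ≠ 0 := by
    have h1 : LinearIndependent K (Matrix.of z).row := hzi
    exact ((Matrix.isUnit_iff_isUnit_det _).1
      (Matrix.linearIndependent_rows_iff_isUnit.1 h1)).ne_zero
  have hZi : (fun l => (Matrix.of z)⁻¹ l j) ≠ 0 := by
    intro h0
    have h1 := congrFun (congrFun (Matrix.mul_nonsing_inv (Matrix.of z)
      (isUnit_iff_ne_zero.2 hz)) j) j
    rw [Matrix.mul_apply, Matrix.one_apply_eq] at h1
    have h2 : ∀ l, (Matrix.of z)⁻¹ l j = 0 := fun l => congrFun h0 l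
    simp only [h2, mul_zero, Finset.sum_const_zero] at h1
    exact zero_ne_one h1
  have hloc : ∀ v, Pl v → sw Sg (fun v k => - c v k) (fun v => (M v).adjugate.transpose)
      (fun l => (Matrix.of z)⁻¹ l j) v + Real.log (v (Matrix.of z).det) ≤
      ((Real.log (cst v q.factorial) + Real.log (cst v q)) +
        ∑ l ∈ Finset.univ.erase j, sw Sg c M (z l) v) + (if v ∈ Sg then
        (q * Real.log (mx v (M v)) - Real.log (v (M v).det)) - ∑ k, c v k else 0) := by
    intro v _
    by_cases hv : v ∈ Sg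
    · rw [if_pos hv, sw_mem _ _ _ hv]
      have h1 := gd_loc hq v (c v) (hM v hv) hz j
      have h2 := gd_mx_adj hq v (hM v hv)
      have h3 : ∑ l ∈ Finset.univ.erase j, sw Sg c M (z l) v =
          ∑ l ∈ Finset.univ.erase j, Real.log (mw v (c v) ((M v).mulVec (z l))) -
            ((q : ℝ) - 1) * Real.log (mx v (M v)) := by
        simp only [sw_mem c M _ hv]
        rw [Finset.sum_sub_distrib, Finset.sum_const,
          Finset.card_erase_of_mem (Finset.mem_univ _), Finset.card_univ, Fintype.card_fin,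
          nsmul_eq_mul, Nat.cast_sub hq, Nat.cast_one]
      rw [h3]
      linarith
    · rw [if_neg hv, add_zero, sw_notMem _ _ _ hv]
      have h0 : (1 : Matrix (Fin q) (Fin q) K).det ≠ 0 := by
        rw [Matrix.det_one]
        exact one_ne_zero
      have h1 := gd_loc hq v (fun _ => 0) h0 hz j
      have h2 : ∀ x : Fin q → K, mw v (fun _ => 0) x = mv v x := by
        intro x
        unfold mw mv
        simp only [Real.exp_zero, mul_one]
      simp only [neg_zero, Matrix.adjugate_one, Matrix.transpose_one, Matrix.one_mulVec, h2,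
        Finset.sum_const_zero, sub_zero] at h1
      simp only [sw_notMem c M _ hv]
      have h3 : 0 ≤ Real.log (cst v q) := Real.log_nonneg (one_le_cst v hq)
      linarith
  have f1 : FS fun v : AbsoluteValue K ℝ => Real.log (cst v q.factorial) := FS_log_cst _
  have f1' : FS fun v : AbsoluteValue K ℝ => Real.log (cst v q) := FS_log_cst _
  have f2 : FS fun v => ∑ l ∈ Finset.univ.erase j, sw Sg c M (z l) v :=
    FS_sum _ fun l _ => FS_sw Sg c M (hz0 l)
  have f3 : FS fun v => if v ∈ Sg then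
        (q * Real.log (mx v (M v)) - Real.log (v (M v).det)) - ∑ k, c v k else 0 :=
    FS_ite Sg _ _ FS_zero
  have f4 : FS (sw Sg (fun v k => - c v k) (fun v => (M v).adjugate.transpose)
      (fun l => (Matrix.of z)⁻¹ l j)) := FS_sw Sg _ _ hZi
  have h1 := gs_le (FS_add f4 (FS_log_abv hz)) (FS_add (FS_add (FS_add f1 f1') f2) f3) hloc
  rw [gs_add f4 (FS_log_abv hz), gs_log_abv hz, gs_add (FS_add (FS_add f1 f1') f2) f3,
    gs_add (FS_add f1 f1') f2, gs_add f1 f1', gs_sum _ fun l _ => FS_sw Sg c M (hz0 l),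
    gs_ite] at h1
  have h2 := gs_log_cst (L := K) hfac
  have h2' := gs_log_cst (L := K) hq
  rw [tw_eq, df_eq]
  have h3 : ∑ v ∈ Sg, (nv v : ℝ) * ((q * Real.log (mx v (M v)) - Real.log (v (M v).det)) -
      ∑ k, c v k) = ∑ v ∈ Sg, (nv v : ℝ) * (q * Real.log (mx v (M v)) -
        Real.log (v (M v).det)) - ∑ v ∈ Sg, (nv v : ℝ) * ∑ k, c v k := by
    rw [← Finset.sum_sub_distrib]
    exact Finset.sum_congr rfl fun v _ => by ring
  rw [h3] at h1
  linarith

theorem df_adj {K : Type u} [Field K] [NumberField K] {q : ℕ} (hq : 0 < q)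
    (Sg : Finset (AbsoluteValue K ℝ)) (hSg : ∀ v ∈ Sg, Pl v) :
    ∃ C : ℝ, 0 ≤ C ∧ ∀ M : AbsoluteValue K ℝ → Matrix (Fin q) (Fin q) K,
      (∀ v ∈ Sg, (M v).det ≠ 0) →
        df Sg (fun v => (M v).adjugate.transpose) ≤ q * df Sg M + C := by
  classical
  obtain ⟨C, hC⟩ : ∃ C : ℝ, C = ∑ v ∈ Sg, (nv v : ℝ) * (((q : ℝ) + 1) *
    Real.log (cst v q.factorial)) := ⟨_, rfl⟩
  have hfac : 1 ≤ q.factorial := Nat.factorial_pos q
  have hl : ∀ v : AbsoluteValue K ℝ, 0 ≤ Real.log (cst v q.factorial) := fun v =>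
    Real.log_nonneg (one_le_cst v hfac)
  refine ⟨C, ?_, fun M hM => ?_⟩
  · rw [hC]
    exact Finset.sum_nonneg fun v _ => mul_nonneg (Nat.cast_nonneg _)
      (mul_nonneg (by positivity) (hl v))
  rw [df_eq, df_eq, hC, Finset.mul_sum, ← Finset.sum_add_distrib]
  refine Finset.sum_le_sum fun v hv => ?_
  have h1 := gd_mx_adj_le hq v (hM v hv)
  have h2 := df_loc hq v (hM v hv)
  have h3 : Real.log (v (M v).adjugate.transpose.det) =
      ((q : ℝ) - 1) * Real.log (v (M v).det) := by
    rw [Matrix.det_transpose, Matrix.det_adjugate, map_pow, Real.log_pow, Fintype.card_fin,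
      Nat.cast_sub hq, Nat.cast_one]
  have hq0 : (0 : ℝ) ≤ q := Nat.cast_nonneg _
  have h4 := mul_le_mul_of_nonneg_left h1 hq0
  have h5 : (q : ℝ) * Real.log (mx v (M v).adjugate.transpose) -
      Real.log (v (M v).adjugate.transpose.det) ≤
      q * (q * Real.log (mx v (M v)) - Real.log (v (M v).det)) +
        ((q : ℝ) + 1) * Real.log (cst v q.factorial) := by
    rw [h3]
    linarith
  refine (mul_le_mul_of_nonneg_left h5 (Nat.cast_nonneg (nv v))).trans (le_of_eq ?_)
  ring

end Pool.Agent.Lib.MP_17a322_nt.SL
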