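import Pool.Agent.Lib.MP_17a322_nt.SL.CE
import Pool.Agent.Lib.MP_17a322_nt.SL.CM1
import Pool.Agent.Lib.MP_17a322_nt.SL.G7
import Pool.Agent.Lib.MP_17a322_nt.SL.GD1

/-!
The Plücker coordinates of the gap subspace are algebraic over `K(p)`.
-/

universe u

namespace Pool.Agent.Lib.MP_17a322_nt.SL

open MvPolynomial Height NumberField Filter
open Pool.Agent.Lib.MP_17a322_nt.RO
open Pool.Agent.Lib.MP_17a322_nt.VJ
open Pool.Agent.Lib.MP_17a322_nt.VN hiding lf
open Pool.Agent.Lib.MP_17a322_nt.VA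
open Pool.Agent.Lib.MP_17a322_nt.VP

theorem cmp_map_aeval {K R : Type*} [Field K] [CommRing R] [Algebra K R] {σ : Type*} {q p N : ℕ}
    (e : Fin N ≃ Set.powersetCard (Fin q) p) (x : σ → R)
    (Λ : Matrix (Fin q) (Fin q) (MvPolynomial σ K)) :
    (cmp e Λ).map (aeval x) = cmp e (Λ.map (aeval x)) :=
  cmp_map e ((aeval x : MvPolynomial σ K →ₐ[K] R) : MvPolynomial σ K →+* R) Λ

theorem adj_map_aeval {K R : Type*} [Field K] [CommRing R] [Algebra K R] {σ : Type*} {q : ℕ}
    (x : σ → R) (Λ : Matrix (Fin q) (Fin q) (MvPolynomial σ K)) :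
    Λ.adjugate.transpose.map (aeval x) = (Λ.map (aeval x)).adjugate.transpose := by
  have h1 := AlgHom.map_adjugate (aeval x : MvPolynomial σ K →ₐ[K] R) Λ
  have h2 : Λ.adjugate.map (aeval x) = (Λ.map (aeval x)).adjugate := h1
  rw [← h2]
  rfl

theorem det_of_li {K : Type*} [Field K] {q : ℕ} {y : Fin q → Fin q → K}
    (hy : LinearIndependent K y) : (Matrix.of y).det ≠ 0 := by
  have h1 : LinearIndependent K (Matrix.of y).row := hy
  exact ((Matrix.isUnit_iff_isUnit_det _).1
    (Matrix.linearIndependent_rows_iff_isUnit.1 h1)).ne_zero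

theorem inv_det_ne {K : Type*} [Field K] {q : ℕ} {M : Matrix (Fin q) (Fin q) K}
    (hM : M.det ≠ 0) : M⁻¹.det ≠ 0 := by
  rw [Matrix.det_nonsing_inv]
  exact (isUnit_iff_ne_zero.2 hM).ringInverse.ne_zero

/-- The coordinates of the hyperplane of the exterior power annihilate the wedges. -/
theorem cmp_inv_apply {K : Type*} [Field K] {q p N : ℕ} (e : Fin N ≃ Set.powersetCard (Fin q) p)
    {M : Matrix (Fin q) (Fin q) K} (hM : M.det ≠ 0) (a b : Fin N) :
    ∑ l, cmp e M⁻¹ l b * cmp e M a l = if a = b then 1 else 0 := by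
  have h1 : cmp e M * cmp e M⁻¹ = 1 := by
    rw [← cmp_mul, Matrix.mul_nonsing_inv _ (isUnit_iff_ne_zero.2 hM), cmp_one]
  have h2 := congrFun (congrFun h1 a) b
  rw [Matrix.mul_apply, Matrix.one_apply] at h2
  rw [← h2]
  exact Finset.sum_congr rfl fun l _ => mul_comm _ _

/-- The dual basis, the last vector replaced by a multiple and moved to the first place. -/
noncomputable def dz {K : Type*} [Field K] {N : ℕ} (z : Fin (N + 1) → Fin (N + 1) → K)
    (μ : Fin (N + 1) → K) (s : Fin (N + 1)) : Fin (N + 1) → K :=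
  if s = 0 then μ else fun l => (Matrix.of z)⁻¹ l (Equiv.swap 0 (Fin.last N) s)

theorem dz_eq {K : Type*} [Field K] {N : ℕ} {z : Fin (N + 1) → Fin (N + 1) → K}
    (hz : LinearIndependent K z) {μ : Fin (N + 1) → K} (hμ : μ ≠ 0)
    (h : ∀ j, j ≠ Fin.last N → ∑ l, μ l * z j l = 0) :
    ∃ t : Fin (N + 1) → K, (∀ s, t s ≠ 0) ∧ ∀ s, dz z μ s =
      t s • fun l => (Matrix.of z)⁻¹ l (Equiv.swap 0 (Fin.last N) s) := by
  classical
  have hd := det_of_li hz
  obtain ⟨t, ht⟩ : ∃ t, t = ∑ l, μ l * z (Fin.last N) l := ⟨_, rfl⟩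
  have h1 : μ = t • fun l => (Matrix.of z)⁻¹ l (Fin.last N) := by
    have h2 : (Matrix.of z).mulVec μ = Pi.single (Fin.last N) t := by
      funext j
      have h3 : (Matrix.of z).mulVec μ j = ∑ l, μ l * z j l := by
        show ∑ l, z j l * μ l = ∑ l, μ l * z j l
        exact Finset.sum_congr rfl fun l _ => mul_comm _ _
      rw [h3]
      rcases eq_or_ne j (Fin.last N) with rfl | hj
      · rw [Pi.single_eq_same, ht]
      · rw [Pi.single_eq_of_ne hj, h j hj]
    have h3 := congrArg ((Matrix.of z)⁻¹.mulVec) h2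
    rw [Matrix.mulVec_mulVec, Matrix.nonsing_inv_mul _ (isUnit_iff_ne_zero.2 hd),
      Matrix.one_mulVec] at h3
    rw [h3]
    funext l
    rw [Matrix.mulVec_single]
    simp [mul_comm]
  have ht0 : t ≠ 0 := by
    rintro rfl
    exact hμ (by rw [h1, zero_smul])
  refine ⟨fun s => if s = 0 then t else 1, fun s => ?_, fun s => ?_⟩
  · dsimp only
    split_ifs
    · exact ht0
    · exact one_ne_zero
  · by_cases hs : s = 0
    · show dz z μ s = (if s = 0 then t else 1) • _
      rw [if_pos hs, hs, Equiv.swap_apply_left, ← h1]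
      unfold dz
      rw [if_pos rfl]
    · show dz z μ s = (if s = 0 then t else 1) • _
      rw [if_neg hs, one_smul]
      unfold dz
      rw [if_neg hs]

theorem dz_li {K : Type*} [Field K] {N : ℕ} {z : Fin (N + 1) → Fin (N + 1) → K}
    (hz : LinearIndependent K z) {μ : Fin (N + 1) → K} (hμ : μ ≠ 0)
    (h : ∀ j, j ≠ Fin.last N → ∑ l, μ l * z j l = 0) : LinearIndependent K (dz z μ) := by
  classical
  obtain ⟨t, ht, h1⟩ := dz_eq hz hμ h
  have h2 : LinearIndependent K (Matrix.of z)⁻¹.col :=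
    Matrix.linearIndependent_cols_iff_isUnit.2
      ((Matrix.isUnit_iff_isUnit_det _).2 (isUnit_iff_ne_zero.2 (inv_det_ne (det_of_li hz))))
  have h3 : LinearIndependent K fun s : Fin (N + 1) =>
      (Matrix.of z)⁻¹.col (Equiv.swap 0 (Fin.last N) s) :=
    h2.comp _ (Equiv.injective _)
  have h4 := h3.units_smul fun s => Units.mk0 (t s) (ht s)
  have h5 : dz z μ = (fun s => Units.mk0 (t s) (ht s)) • fun s : Fin (N + 1) =>
      (Matrix.of z)⁻¹.col (Equiv.swap 0 (Fin.last N) s) := by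
    funext s
    rw [h1 s]
    rfl
  rw [h5]
  exact h4

end Pool.Agent.Lib.MP_17a322_nt.SL
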