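import Pool.Agent.Lib.MP_17a322_nt.SL.G0b
import Pool.Agent.Lib.MP_17a322_nt.VP.P1
import Pool.Agent.Lib.MP_17a322_nt.VP.P2

/-!
The defect of moving forms at the points of the sequence is `o(H)`.
-/

universe u

namespace Pool.Agent.Lib.MP_17a322_nt.SL

open MvPolynomial Height NumberField Filter
open Pool.Agent.Lib.MP_17a322_nt.RO
open Pool.Agent.Lib.MP_17a322_nt.VJ
open Pool.Agent.Lib.MP_17a322_nt.VN hiding lf
open Pool.Agent.Lib.MP_17a322_nt.VA
open Pool.Agent.Lib.MP_17a322_nt.VP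

theorem det_map_aeval {K R : Type*} [Field K] [CommRing R] [Algebra K R] {σ : Type*} {q : ℕ}
    (x : σ → R) (Λ : Matrix (Fin q) (Fin q) (MvPolynomial σ K)) :
    (Λ.map (aeval x)).det = aeval x Λ.det :=
  (AlgHom.map_det (aeval x) Λ).symm

theorem hom_det {K : Type*} [Field K] {σ : Type*} {q D : ℕ}
    {Λ : Matrix (Fin q) (Fin q) (MvPolynomial σ K)} (hΛ : ∀ k l, (Λ k l).IsHomogeneous D) :
    Λ.det.IsHomogeneous (q * D) := by
  rw [Matrix.det_apply]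
  refine IsHomogeneous.sum _ _ _ fun τ _ => ?_
  have h1 : (∏ i, Λ (τ i) i).IsHomogeneous (∑ _i : Fin q, D) :=
    IsHomogeneous.prod _ _ _ fun i _ => hΛ _ _
  rw [Finset.sum_const, Finset.card_univ, Fintype.card_fin, smul_eq_mul] at h1
  rcases Int.units_eq_one_or (Equiv.Perm.sign τ) with h | h
  · rw [h, one_smul]
    exact h1
  · rw [h, Units.neg_smul, one_smul]
    exact h1.neg

/-- The defect is `o(H)`. -/
theorem df_oH {K : Type u} [Field K] [NumberField K] {N : ℕ} {A : AV K N}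
    (Γ : AddSubgroup (A.Pts K)) (hΓ : Γ.FG) {H : ℕ → ℝ}
    (hH : Tendsto H (hyperfilter ℕ : Filter ℕ) atTop) {P : ℕ → A.Pts K} (hPΓ : ∀ i, P i ∈ Γ)
    (hupp : ∃ C : ℝ, 0 < C ∧ ∀ᶠ i in (hyperfilter ℕ : Filter ℕ), A.h (P i) ≤ C * H i)
    {p : A.Pts (GK K)} (hPp : IsGerm A P p)
    (Sg : Finset (AbsoluteValue K ℝ)) (hSg : ∀ v ∈ Sg, Pl v) {q : ℕ} (hq : 0 < q) (D : ℕ)
    (Λ : AbsoluteValue K ℝ → Matrix (Fin q) (Fin q) (MvPolynomial (Fin (N + 1)) K))
    (hΛ : ∀ v ∈ Sg, ∀ k l, (Λ v k l).IsHomogeneous D)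
    (hdet : ∀ v ∈ Sg, ∀ᶠ i in (hyperfilter ℕ : Filter ℕ), aeval (A.x (P i)) (Λ v).det ≠ 0) :
    oH H fun i => df Sg fun v => (Λ v).map (aeval (A.x (P i))) := by
  classical
  simp only [df_eq]
  refine oH.sum hH Sg _ fun v hv => oH.const_mul hH ?_ (Nat.cast_nonneg _)
  obtain ⟨C, hC⟩ : ∃ C : ℝ, C = ∑ k, ∑ l, max 1 (NV v (Λ v k l)) := ⟨_, rfl⟩
  have hCkl : ∀ k l, max 1 (NV v (Λ v k l)) ≤ C := by
    intro k l
    have h1 : ∀ k l, (0 : ℝ) ≤ max 1 (NV v (Λ v k l)) :=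
      fun k l => zero_le_one.trans (le_max_left _ _)
    have h2 : max 1 (NV v (Λ v k l)) ≤ ∑ l, max 1 (NV v (Λ v k l)) :=
      Finset.single_le_sum (f := fun l => max 1 (NV v (Λ v k l))) (fun l _ => h1 k l)
        (Finset.mem_univ l)
    have h3 : ∑ l, max 1 (NV v (Λ v k l)) ≤ ∑ k, ∑ l, max 1 (NV v (Λ v k l)) :=
      Finset.single_le_sum (f := fun k => ∑ l, max 1 (NV v (Λ v k l)))
        (fun k _ => Finset.sum_nonneg fun l _ => h1 k l) (Finset.mem_univ k)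
    rw [hC]
    exact h2.trans h3
  have hC1 : 1 ≤ C := (le_max_left _ _).trans (hCkl ⟨0, hq⟩ ⟨0, hq⟩)
  intro δ hδ
  filter_upwards [P_lower_form Γ hΓ hPΓ hH hupp hPp (hSg v hv) (hom_det (hΛ v hv)) (hdet v hv)
    (δ / 2) (by positivity), hdet v hv, oH_const hH (q * Real.log C) (δ / 2) (by positivity)]
    with i g1 g2 g3
  obtain ⟨s, hs⟩ : ∃ s : ℝ, s = ⨆ a, v (A.x (P i) a) := ⟨_, rfl⟩
  have hs0 : 0 < s := hs ▸ P_sup_pos (Z_x_ne A (P i)) v
  rw [← hs] at g1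
  have hdt : ((Λ v).map (aeval (A.x (P i)))).det ≠ 0 := by
    rw [det_map_aeval]
    exact g2
  have hmx := mx_pos hq v hdt
  have g4 : mx v ((Λ v).map (aeval (A.x (P i)))) ≤ C * s ^ D := by
    refine mx_le v _ (by positivity) fun k l => ?_
    rw [Matrix.map_apply]
    refine (P_form_le (hΛ v hv k l) (Z_x_ne A (P i)) v).trans ?_
    rw [← hs]
    exact mul_le_mul_of_nonneg_right (hCkl k l) (by positivity)
  have g5 := Real.log_le_log hmx g4
  rw [Real.log_mul (by positivity) (by positivity), Real.log_pow] at g5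
  have g6 := Real.log_le_log (by positivity) g1
  rw [Real.log_mul (by positivity) (Real.exp_ne_zero _), Real.log_pow, Real.log_exp,
    ← det_map_aeval] at g6
  push_cast at g6
  have g7 := mul_le_mul_of_nonneg_left g5 (Nat.cast_nonneg (α := ℝ) q)
  nlinarith

end Pool.Agent.Lib.MP_17a322_nt.SL
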