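import Pool.Agent.Lib.MP_17a322_nt.SL.G6b
import Pool.Agent.Lib.MP_17a322_nt.SL.G8
import Pool.Agent.Lib.MP_17a322_nt.SL.GD1

/-!
The sizes of the dual vectors.
-/

universe u

namespace Pool.Agent.Lib.MP_17a322_nt.SL

open MvPolynomial Height NumberField Filter
open Pool.Agent.Lib.MP_17a322_nt.RO
open Pool.Agent.Lib.MP_17a322_nt.VJ
open Pool.Agent.Lib.MP_17a322_nt.VN hiding lf
open Pool.Agent.Lib.MP_17a322_nt.VA
open Pool.Agent.Lib.MP_17a322_nt.VP

theorem adj_det_ne {K : Type*} [Field K] {q : ℕ} {M : Matrix (Fin q) (Fin q) K}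
    (hM : M.det ≠ 0) : M.adjugate.transpose.det ≠ 0 := by
  rw [Matrix.det_transpose, Matrix.det_adjugate]
  exact pow_ne_zero _ hM

theorem dual_sizes {K : Type u} [Field K] [NumberField K] {N : ℕ} (hN : 0 < N)
    (Sg : Finset (AbsoluteValue K ℝ)) (hSg : ∀ v ∈ Sg, Pl v) {H : ℕ → ℝ}
    (hH : Tendsto H (hyperfilter ℕ : Filter ℕ) atTop)
    (M : ℕ → AbsoluteValue K ℝ → Matrix (Fin (N + 1)) (Fin (N + 1)) K)
    (hM : ∀ᶠ i in (hyperfilter ℕ : Filter ℕ), ∀ v ∈ Sg, (M i v).det ≠ 0)
    (hdf : oH H fun i => df Sg (M i)) (c : AbsoluteValue K ℝ → Fin (N + 1) → ℝ)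
    (hc : tw Sg c = 0) {η : ℝ} (z : ℕ → Fin (N + 1) → Fin (N + 1) → K)
    (hz : ∀ᶠ i in (hyperfilter ℕ : Filter ℕ), LinearIndependent K (z i))
    (hsz : ∀ ε : ℝ, 0 < ε → ∀ᶠ i in (hyperfilter ℕ : Filter ℕ), ∀ j,
      gs (sw Sg (fun v a => c v a * H i) (M i) (z i j)) ≤
        ((if j = Fin.last N then N * η else - η) + ε) * H i)
    (μ : ℕ → Fin (N + 1) → K) (hμ0 : ∀ᶠ i in (hyperfilter ℕ : Filter ℕ), μ i ≠ 0)
    (hμ : ∀ᶠ i in (hyperfilter ℕ : Filter ℕ), ∀ j, j ≠ Fin.last N → ∑ l, μ i l * z i j l = 0)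
    (ε : ℝ) (hε : 0 < ε) :
    ∀ᶠ i in (hyperfilter ℕ : Filter ℕ),
      gs (sw Sg (fun v a => - c v a * H i) (fun v => (M i v).adjugate.transpose)
        (dz (z i) (μ i) 0)) ≤ (- (N * η) + ε) * H i ∧
      (∀ s, s ≠ 0 → gs (sw Sg (fun v a => - c v a * H i) (fun v => (M i v).adjugate.transpose)
        (dz (z i) (μ i) s)) ≤ (η + ε) * H i) ∧
      ∀ s, s ≠ 0 → (η - ε) * H i ≤ gs (sw Sg (fun v a => - c v a * H i)
        (fun v => (M i v).adjugate.transpose) (dz (z i) (μ i) s)) := by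
  classical
  obtain ⟨C₁, hC₁, h1⟩ := GDUAL (K := K) (q := N + 1) (Nat.succ_pos N) Sg hSg
  obtain ⟨C₂, hC₂, h2⟩ := GLOW (K := K) (q := N + 1) (Nat.succ_pos N) Sg hSg
  obtain ⟨C₃, hC₃, h3⟩ := df_adj (K := K) (q := N + 1) (Nat.succ_pos N) Sg hSg
  obtain ⟨m, hm⟩ : ∃ m : ℝ, m = (N + 2) * (N + 4) + 3 := ⟨_, rfl⟩
  have hm0 : 0 < m := by
    rw [hm]
    positivity
  have hε' : 0 < ε / m := by positivity
  filter_upwards [hM, hdf (ε / m) hε', hz, hsz (ε / m) hε', hμ0, hμ, ev_le hH C₁ hε',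
    ev_le hH C₂ hε', ev_le hH C₃ hε', ev_pos hH] with i g1 g2 g3 g4 g5 g6 g7 g8 g9 g10
  obtain ⟨t, ht⟩ : ∃ t : ℝ, t = ε / m * H i := ⟨_, rfl⟩
  have ht0 : 0 ≤ t := by
    rw [ht]
    positivity
  have hεt : ε * H i = m * t := by
    rw [ht]
    field_simp
  rw [← ht] at g2 g7 g8 g9
  have g4' : ∀ j, gs (sw Sg (fun v a => c v a * H i) (M i) (z i j)) ≤
      (if j = Fin.last N then N * η else - η) * H i + t := by
    intro j
    have := g4 j
    rw [add_mul, ← ht] at this
    exact this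
  have htw : tw Sg (fun v a => c v a * H i) = 0 := by
    rw [tw_smul, hc, zero_mul]
  have hneg : (fun v a => - (c v a * H i) : AbsoluteValue K ℝ → Fin (N + 1) → ℝ) =
      fun v a => - c v a * H i := by
    funext v a
    ring
  have hadj : ∀ v ∈ Sg, ((M i v).adjugate.transpose).det ≠ 0 := fun v hv => adj_det_ne (g1 v hv)
  -- upper bounds for the dual basis
  have hup : ∀ j, gs (sw Sg (fun v a => - c v a * H i) (fun v => (M i v).adjugate.transpose)
      (fun l => (Matrix.of (z i))⁻¹ l j)) ≤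
        (if j = Fin.last N then - (N * η) else η) * H i + (N + 3) * t := by
    intro j
    have k1 := h1 (fun v a => c v a * H i) (M i) g1 (z i) g3 j
    rw [htw, hneg] at k1
    have k2 : ∑ l ∈ Finset.univ.erase j, gs (sw Sg (fun v a => c v a * H i) (M i) (z i l)) ≤
        ∑ l ∈ Finset.univ.erase j, ((if l = Fin.last N then N * η else - η) * H i + t) :=
      Finset.sum_le_sum fun l _ => g4' l
    have k3 : ∑ l : Fin (N + 1), ((if l = Fin.last N then N * η else - η) * H i + t) =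
        (N + 1) * t := by
      have k4 : ∀ l : Fin (N + 1), (if l = Fin.last N then N * η else - η) * H i + t =
          (if l = Fin.last N then (N + 1) * η * H i else 0) + (- (η * H i) + t) := by
        intro l
        split_ifs <;> ring
      rw [Finset.sum_congr rfl fun l _ => k4 l, Finset.sum_add_distrib, Finset.sum_ite_eq',
        if_pos (Finset.mem_univ _), Finset.sum_const, Finset.card_univ, Fintype.card_fin,
        nsmul_eq_mul]
      push_cast
      ring
    have k4 := Finset.add_sum_erase Finset.univ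
      (fun l => (if l = Fin.last N then N * η else - η) * H i + t) (Finset.mem_univ j)
    rw [k3] at k4
    have k5 : (if j = Fin.last N then - (N * η) else η) * H i =
        - ((if j = Fin.last N then N * η else - η) * H i) := by
      split_ifs <;> ring
    rw [k5]
    linarith
  -- transfer to the vectors `dz`
  obtain ⟨τ, hτ, hdz⟩ := dz_eq g3 g5 g6
  have hcol : ∀ j, (fun l => (Matrix.of (z i))⁻¹ l j) ≠ (0 : Fin (N + 1) → K) := by
    intro j h
    have k1 : LinearIndependent K (Matrix.of (z i))⁻¹.col :=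
      Matrix.linearIndependent_cols_iff_isUnit.2
        ((Matrix.isUnit_iff_isUnit_det _).2
          (isUnit_iff_ne_zero.2 (inv_det_ne (det_of_li g3))))
    exact k1.ne_zero j h
  have hdsz : ∀ s, gs (sw Sg (fun v a => - c v a * H i) (fun v => (M i v).adjugate.transpose)
      (dz (z i) (μ i) s)) = gs (sw Sg (fun v a => - c v a * H i)
        (fun v => (M i v).adjugate.transpose)
        (fun l => (Matrix.of (z i))⁻¹ l (Equiv.swap 0 (Fin.last N) s))) := by
    intro s
    rw [hdz s]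
    exact gs_sw_smul Sg _ _ hadj (hcol _) (hτ s)
  have hswap : ∀ s : Fin (N + 1), s ≠ 0 → Equiv.swap 0 (Fin.last N) s ≠ Fin.last N := by
    intro s hs h
    have k1 : Equiv.swap 0 (Fin.last N) 0 = Fin.last N := Equiv.swap_apply_left _ _
    exact hs ((Equiv.swap 0 (Fin.last N)).injective (h.trans k1.symm))
  have hu0 : gs (sw Sg (fun v a => - c v a * H i) (fun v => (M i v).adjugate.transpose)
      (dz (z i) (μ i) 0)) ≤ - (N * η) * H i + (N + 3) * t := by
    rw [hdsz 0, Equiv.swap_apply_left]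
    have := hup (Fin.last N)
    rw [if_pos rfl] at this
    exact this
  have hus : ∀ s, s ≠ 0 → gs (sw Sg (fun v a => - c v a * H i)
      (fun v => (M i v).adjugate.transpose) (dz (z i) (μ i) s)) ≤ η * H i + (N + 3) * t := by
    intro s hs
    rw [hdsz s]
    have := hup (Equiv.swap 0 (Fin.last N) s)
    rw [if_neg (hswap s hs)] at this
    exact this
  have hls : ∀ s, s ≠ 0 → η * H i - m * t ≤ gs (sw Sg (fun v a => - c v a * H i)
      (fun v => (M i v).adjugate.transpose) (dz (z i) (μ i) s)) := by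
    intro s hs
    have k1 := h2 (fun v a => - c v a * H i) (fun v => (M i v).adjugate.transpose) hadj
      (dz (z i) (μ i)) (dz_li g3 g5 g6)
    have k2 : tw Sg (fun v a => - c v a * H i) = 0 := by
      have k3 : tw Sg (fun v a => - c v a * H i) = tw Sg (fun v a => c v a * (- H i)) := by
        congr 1
        funext v a
        ring
      rw [k3, tw_smul, hc, zero_mul]
    rw [k2] at k1
    have k3 := h3 (M i) g1
    have k4 : ((N + 1 : ℕ) : ℝ) * df Sg (M i) ≤ ((N + 1 : ℕ) : ℝ) * t :=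
      mul_le_mul_of_nonneg_left g2 (Nat.cast_nonneg _)
    have k5 := Finset.add_sum_erase Finset.univ (fun s => gs (sw Sg (fun v a => - c v a * H i)
      (fun v => (M i v).adjugate.transpose) (dz (z i) (μ i) s))) (Finset.mem_univ s)
    have k6 := Finset.add_sum_erase (Finset.univ.erase s) (fun s => gs (sw Sg
      (fun v a => - c v a * H i)
      (fun v => (M i v).adjugate.transpose) (dz (z i) (μ i) s)))
      (Finset.mem_erase.2 ⟨Ne.symm hs, Finset.mem_univ 0⟩)
    have k7 : ∑ s' ∈ (Finset.univ.erase s).erase 0, gs (sw Sg (fun v a => - c v a * H i)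
        (fun v => (M i v).adjugate.transpose) (dz (z i) (μ i) s')) ≤
        ((N : ℝ) - 1) * (η * H i + (N + 3) * t) := by
      have k8 := Finset.sum_le_card_nsmul ((Finset.univ.erase s).erase 0)
        (fun s' => gs (sw Sg (fun v a => - c v a * H i)
        (fun v => (M i v).adjugate.transpose) (dz (z i) (μ i) s'))) (η * H i + (N + 3) * t)
        fun s' hs' => hus s' (Finset.mem_erase.1 hs').1
      rw [Finset.card_erase_of_mem (Finset.mem_erase.2 ⟨Ne.symm hs, Finset.mem_univ 0⟩),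
        Finset.card_erase_of_mem (Finset.mem_univ s), Finset.card_univ, Fintype.card_fin,
        nsmul_eq_mul] at k8
      have k9 : ((N + 1 - 1 - 1 : ℕ) : ℝ) = (N : ℝ) - 1 := by
        rw [Nat.add_sub_cancel, Nat.cast_sub (by omega), Nat.cast_one]
      rw [k9] at k8
      exact k8
    push_cast at k3 k4
    rw [hm]
    nlinarith
  have hmN : (N : ℝ) + 3 ≤ m := by
    rw [hm]
    nlinarith [(Nat.cast_nonneg N : (0 : ℝ) ≤ N)]
  have hmt : ((N : ℝ) + 3) * t ≤ m * t := mul_le_mul_of_nonneg_right hmN ht0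
  refine ⟨?_, fun s hs => ?_, fun s hs => ?_⟩
  · rw [add_mul, hεt]
    linarith
  · have := hus s hs
    rw [add_mul, hεt]
    linarith
  · have := hls s hs
    rw [sub_mul, hεt]
    exact this

end Pool.Agent.Lib.MP_17a322_nt.SL
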