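import Pool.Agent.Lib.MP_17a322_nt.SL.H1
import Pool.Agent.Lib.MP_17a322_nt.SL.H8
import Pool.Agent.Lib.MP_17a322_nt.VP.M7

/-!
The hyperplane spanned by small vectors is algebraic over `k0(p)`.
-/

universe u

namespace Pool.Agent.Lib.MP_17a322_nt.SL

open MvPolynomial Height Filter
open Pool.Agent.Lib.MP_17a322_nt.RO
open Pool.Agent.Lib.MP_17a322_nt.VJ
open Pool.Agent.Lib.MP_17a322_nt.VN hiding lf
open Pool.Agent.Lib.MP_17a322_nt.VA
open Pool.Agent.Lib.MP_17a322_nt.VP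

/-- The total weight after division. -/
theorem H_tw_div {K : Type*} [Field K] [AdmissibleAbsValues K] {q : ℕ}
    (Sg : Finset (AbsoluteValue K ℝ)) (c : AbsoluteValue K ℝ → Fin q → ℝ) (ρ : ℝ) :
    tw Sg (fun v k => c v k / ρ) = tw Sg c / ρ := by
  unfold tw
  rw [div_eq_inv_mul, ← gs_const_mul]
  congr 1
  funext v
  by_cases hv : v ∈ Sg
  · rw [if_pos hv, if_pos hv, Finset.mul_sum]
    exact Finset.sum_congr rfl fun k _ => div_eq_inv_mul _ _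
  · rw [if_neg hv, if_neg hv, mul_zero]

/-- The case of large height. -/
theorem HSet.alg {K : Type u} [Field K] [NumberField K] {N : ℕ} {A : AV K N} {P : ℕ → A.Pts K}
    {H : ℕ → ℝ} {hH : Tendsto H (hyperfilter ℕ : Filter ℕ) atTop} {p : A.Pts (GK K)}
    (S : HSet A P hH p) (Sg : Finset (AbsoluteValue K ℝ)) (hSg : ∀ v ∈ Sg, Pl v)
    {q : ℕ} (D : ℕ)
    (Λ : AbsoluteValue K ℝ → Matrix (Fin (q + 1)) (Fin (q + 1)) (MvPolynomial (Fin (N + 1)) K))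
    (hΛ : ∀ v ∈ Sg, ∀ k l, (Λ v k l).IsHomogeneous D)
    (hlow : ∀ v ∈ Sg, ∀ δ : ℝ, 0 < δ → ∀ᶠ i in (hyperfilter ℕ : Filter ℕ),
      (⨆ a, v (A.x (P i) a)) ^ ((q + 1) * D) * Real.exp (- δ * H i) ≤
        v (aeval (A.x (P i)) (Λ v).det))
    (c : AbsoluteValue K ℝ → Fin (q + 1) → ℝ) (hc : 0 ≤ tw Sg c)
    (y : ℕ → Fin (q + 1) → Fin (q + 1) → K) (hy : ∀ᶠ i in (hyperfilter ℕ : Filter ℕ),
      LinearIndependent K (y i)) (μ : ℕ → Fin (q + 1) → K)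
    (hμ : ∀ᶠ i in (hyperfilter ℕ : Filter ℕ), ∀ s, s ≠ Fin.last q → ∑ l, μ i l * y i s l = 0)
    (l₀ : Fin (q + 1)) (hμ0 : ∀ᶠ i in (hyperfilter ℕ : Filter ℕ), μ i l₀ = 1)
    (κ : ℝ) (hκ : 0 < κ)
    (hsz : ∀ η : ℝ, 0 < η → ∀ᶠ i in (hyperfilter ℕ : Filter ℕ), ∀ s,
      gs (sz Sg c (H i) (fun v => (Λ v).map (aeval (A.x (P i)))) (y i s)) ≤
        ((if s = Fin.last q then q * κ else - κ) + η) * H i)
    (l : Fin (q + 1)) :
    IsAlgebraic (IntermediateField.adjoin (k0 K H hH) (Set.range (rt (A.x p))))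
      (gm fun i => μ i l) := by
  classical
  by_contra hta
  -- one chart
  obtain ⟨v₀⟩ : Nonempty (NumberField.InfinitePlace K) := inferInstance
  obtain ⟨c₀, -⟩ := S.cov K v₀.val (0 : S.B.Pts K)
  have hl : l₀ ≠ l := by
    intro h
    apply hta
    have h1 : gm (fun i => μ i l) = algebraMap
        (IntermediateField.adjoin (k0 K H hH) (Set.range (rt (A.x p)))) (GK K) 1 := by
      rw [map_one, ← gm_one, gm_eq_iff]
      filter_upwards [hμ0] with i hi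
      rw [← h, hi]
    rw [h1]
    exact isAlgebraic_algebraMap _
  -- the machine
  obtain ⟨ρ, hρ, hmach⟩ := S.mach c₀ Sg hSg D Λ hΛ hlow c
    (fun s : Fin (q + 1) => if s = Fin.last q then q * κ else - κ) y
    (by filter_upwards [hy] with i hi s using hi.ne_zero s) hsz
  obtain ⟨E, m, D', R₀, C₀, η, hm, hC₀, hη, hSR⟩ := SRM' S.B (S.nd c₀) Sg hSg q (2 * D)
    (fun v k => c v k / ρ) (by
      rw [H_tw_div]
      exact div_nonneg hc hρ.le) (κ / ρ) (div_pos hκ hρ)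
  -- independence
  have htc : ¬ IsAlgebraic (Algebra.adjoin (k0 K H hH) (Set.range ((S.nd c₀).s S.b)))
      (gm fun i => - μ i l) := by
    intro h0
    apply hta
    rw [← IntermediateField.isAlgebraic_adjoin_iff] at h0
    have h1 : gm (fun i => - μ i l) = - gm fun i => μ i l := gm_neg _
    replace h0 := h0.neg
    rw [h1, neg_neg] at h0
    refine S_alg_trans _ _ (fun x hx => ?_) h0
    obtain ⟨F, hF⟩ : ∃ F : IntermediateField K (GK K), ∀ x, x ∈ F ↔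
        x ∈ IntermediateField.adjoin (k0 K H hH) (Set.range (rt (A.x p))) :=
      ⟨(IntermediateField.adjoin (k0 K H hH) (Set.range (rt (A.x p)))).restrictScalars K,
        fun _ => Iff.rfl⟩
    have h1 : IntermediateField.adjoin (k0 K H hH) (Set.range ((S.nd c₀).s S.b)) ≤
        IntermediateField.adjoin (k0 K H hH) (Set.range (rt (A.x p))) := by
      rw [IntermediateField.adjoin_le_iff]
      rintro _ ⟨k, rfl⟩
      exact (hF _).1 (Z_s_mem (S.nd c₀) F S.b (fun i => (hF _).2 (S.rtb i)) k)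
    exact isAlgebraic_algebraMap (⟨x, h1 hx⟩ :
      IntermediateField.adjoin (k0 K H hH) (Set.range (rt (A.x p))))
  have hind : AlgebraicIndependent (k0 K H hH)
      (fun y : Option (Fin S.n) => y.elim (gm fun i => - μ i l) ((S.nd c₀).s S.b)) := by
    rw [AlgebraicIndependent.option_iff_transcendental (S.ind c₀)]
    exact htc
  have hsg : (fun y : Option (Fin S.n) => gm fun i => y.elim (- μ i l) ((S.nd c₀).s (S.Q i))) =
      fun y : Option (Fin S.n) => y.elim (gm fun i => - μ i l) ((S.nd c₀).s S.b) := by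
    funext y
    rcases y with _ | k
    · rfl
    · exact Z_gm_s (S.nd c₀) S.hQ k
  obtain ⟨δ, hδ, hSI⟩ := SI (H := H) (hH := hH)
    (fun i (y : Option (Fin S.n)) => y.elim (- μ i l) ((S.nd c₀).s (S.Q i)))
    (fun y : Option (Fin S.n) => y) Function.injective_id
    (by rw [hsg]; exact hind) D'
  obtain ⟨C, hC0, hC⟩ := S.upp
  obtain ⟨a₀, b₀, j, -, hU, -, hR1, hR2, h4j, hdat⟩ := hmach E
    (fun i => LinearIndependent K (y i) ∧ μ i l₀ = 1 ∧
      (∀ s, s ≠ Fin.last q → ∑ l, μ i l * y i s l = 0) ∧ S.B.h (S.Q i) ≤ C * H i ∧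
      ∀ G : MvPolynomial (Option (Fin S.n)) K, G ≠ 0 →
        (∀ y, y ∉ Set.range (fun y : Option (Fin S.n) => y) → G.degreeOf y = 0) →
        (∀ y, G.degreeOf y ≤ D') → nh G ≤ δ * H i →
        eval (fun y : Option (Fin S.n) => y.elim (- μ i l) ((S.nd c₀).s (S.Q i))) G ≠ 0)
    (hy.and (hμ0.and (hμ.and (hC.and hSI)))) (fun _ => 0) (oH_const hH 0) m R₀ (max C₀ (2 * C * C₀ / δ)) η hη
  have hsig : (fun s : Fin (q + 1) => (if s = Fin.last q then (q : ℝ) * κ else - κ) / ρ) =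
      fun s => if s = Fin.last q then q * (κ / ρ) else - (κ / ρ) := by
    funext s
    by_cases h : s = Fin.last q
    · rw [if_pos h, if_pos h, mul_div_assoc]
    · rw [if_neg h, if_neg h, neg_div]
  rw [hsig] at hdat
  obtain ⟨i, G, hG0, hGd, hGn, hGe⟩ := hSR (S.Q a₀) (fun i => S.Q (b₀ i)) j _ _
    (fun i => μ (b₀ i)) l₀ l hl hR2
    { hdat with h₀ := (le_max_left _ _).trans hdat.h₀ }
    (fun i => (hU i).1) (fun i => (hU i).2.1) (fun i => (hU i).2.2.1)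
  refine (hU i).2.2.2.2 G hG0 (fun y hy => absurd ⟨y, rfl⟩ hy) hGd ?_ hGe
  refine hGn.trans ?_
  have h1 : 2 * C * C₀ / δ ≤ S.B.h (S.Q a₀) := (le_max_right _ _).trans hdat.h₀
  rw [div_le_iff₀ hδ] at h1
  have h2 : (4 : ℝ) ^ j i * S.B.h (S.Q a₀) ≤ 2 * (C * H (b₀ i)) :=
    (h4j i).trans (mul_le_mul_of_nonneg_left (hU i).2.2.2.1 (by norm_num))
  have h3 : (0 : ℝ) < 4 ^ j i := by positivity
  have h4 := mul_le_mul_of_nonneg_left h1 h3.le
  have h5 := mul_le_mul_of_nonneg_left h2 hδ.le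
  have h6 : C * (C₀ * 4 ^ j i) ≤ C * (δ * H (b₀ i)) := by nlinarith
  exact le_of_mul_le_mul_left h6 hC0

/-- H part: the hyperplane spanned by small vectors is algebraic over `k0(p)`. -/
theorem HT' {K : Type u} [Field K] [NumberField K] {N : ℕ} (A : AV K N)
    (Γ : AddSubgroup (A.Pts K)) (hΓ : Γ.FG) {H : ℕ → ℝ}
    (hH : Tendsto H (hyperfilter ℕ : Filter ℕ) atTop) (P : ℕ → A.Pts K) (hPΓ : ∀ i, P i ∈ Γ)
    (hupp : ∃ C : ℝ, 0 < C ∧ ∀ᶠ i in (hyperfilter ℕ : Filter ℕ), A.h (P i) ≤ C * H i)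
    {p : A.Pts (GK K)} (hPp : IsGerm A P p)
    (Sg : Finset (AbsoluteValue K ℝ)) (hSg : ∀ v ∈ Sg, Pl v) {q : ℕ} (D : ℕ)
    (Λ : AbsoluteValue K ℝ → Matrix (Fin (q + 1)) (Fin (q + 1)) (MvPolynomial (Fin (N + 1)) K))
    (hΛ : ∀ v ∈ Sg, ∀ k l, (Λ v k l).IsHomogeneous D)
    (hdet : ∀ v ∈ Sg, ∀ᶠ i in (hyperfilter ℕ : Filter ℕ), aeval (A.x (P i)) (Λ v).det ≠ 0)
    (c : AbsoluteValue K ℝ → Fin (q + 1) → ℝ) (hc : 0 ≤ tw Sg c)
    (y : ℕ → Fin (q + 1) → Fin (q + 1) → K) (hy : ∀ᶠ i in (hyperfilter ℕ : Filter ℕ),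
      LinearIndependent K (y i)) (μ : ℕ → Fin (q + 1) → K)
    (hμ : ∀ᶠ i in (hyperfilter ℕ : Filter ℕ), ∀ s, s ≠ Fin.last q → ∑ l, μ i l * y i s l = 0)
    (l₀ : Fin (q + 1)) (hμ0 : ∀ᶠ i in (hyperfilter ℕ : Filter ℕ), μ i l₀ = 1)
    (κ : ℝ) (hκ : 0 < κ)
    (hsz : ∀ η : ℝ, 0 < η → ∀ᶠ i in (hyperfilter ℕ : Filter ℕ), ∀ s,
      gs (sz Sg c (H i) (fun v => (Λ v).map (aeval (A.x (P i)))) (y i s)) ≤
        ((if s = Fin.last q then q * κ else - κ) + η) * H i)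
    (l : Fin (q + 1)) :
    IsAlgebraic (IntermediateField.adjoin (k0 K H hH) (Set.range (rt (A.x p))))
      (gm fun i => μ i l) := by
  by_cases ho : oH H fun i => A.h (P i)
  · have h1 := HT_small A hH P ho Sg hSg D Λ hΛ hdet c hc y hy μ hμ l₀ hμ0 κ hκ hsz l
    have h2 : gm (fun i => μ i l) ∈
        IntermediateField.adjoin (k0 K H hH) (Set.range (rt (A.x p))) :=
      (IntermediateField.adjoin (k0 K H hH) (Set.range (rt (A.x p)))).algebraMap_mem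
        (⟨_, h1⟩ : k0 K H hH)
    exact isAlgebraic_algebraMap (⟨_, h2⟩ :
      IntermediateField.adjoin (k0 K H hH) (Set.range (rt (A.x p))))
  · have hlow : ∃ c : ℝ, 0 < c ∧ ∀ᶠ i in (hyperfilter ℕ : Filter ℕ), c * H i ≤ A.h (P i) := by
      unfold oH at ho
      push Not at ho
      obtain ⟨δ, hδ, h1⟩ := ho
      exact ⟨δ, hδ, h1.mono fun i hi => hi.le⟩
    obtain ⟨B, hB, w, w', b, hw, hrel, hmin, hnr⟩ := geom_noRat1 A hH Γ hΓ P hPΓ p hPp
    obtain ⟨S⟩ := exists_HSet A Γ hΓ P hPΓ hH hlow hupp hPp hB hw hrel hmin hnr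
    exact S.alg Sg hSg D Λ hΛ (fun v hv => H_det_low A Γ hΓ P hPΓ hH hupp hPp (hSg v hv)
      (hΛ v hv) (hdet v hv)) c hc y hy μ hμ l₀ hμ0 κ hκ hsz l

end Pool.Agent.Lib.MP_17a322_nt.SL
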