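import Pool.Agent.Lib.MP_17a322_nt.SL.IA3

/-!
Identities between polynomials over `k0` at almost all indices.
-/

universe u

namespace Pool.Agent.Lib.MP_17a322_nt.SL

open MvPolynomial Height Filter
open Pool.Agent.Lib.MP_17a322_nt.RO
open Pool.Agent.Lib.MP_17a322_nt.VJ
open Pool.Agent.Lib.MP_17a322_nt.VN

section

variable {K : Type u} [Field K] [NumberField K] {H : ℕ → ℝ}
  {hH : Tendsto H (hyperfilter ℕ : Filter ℕ) atTop} {σ τ : Type*}

theorem IA5_pr_add (p q : MvPolynomial σ (k0 K H hH)) :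
    ∀ᶠ i in (hyperfilter ℕ : Filter ℕ), pr (p + q) i = pr p i + pr q i := by
  have h := pr_congr (p := p + q) (P := lf (map (algebraMap (k0 K H hH) (GK K)) p) +
    lf (map (algebraMap (k0 K H hH) (GK K)) q)) (by rw [map_add, map_add, map_lf, map_lf])
  filter_upwards [h] with i hi
  rw [hi, map_add]
  rfl

theorem IA5_pr_sub (p q : MvPolynomial σ (k0 K H hH)) :
    ∀ᶠ i in (hyperfilter ℕ : Filter ℕ), pr (p - q) i = pr p i - pr q i := by
  have h := pr_congr (p := p - q) (P := lf (map (algebraMap (k0 K H hH) (GK K)) p) -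
    lf (map (algebraMap (k0 K H hH) (GK K)) q)) (by rw [map_sub, map_sub, map_lf, map_lf])
  filter_upwards [h] with i hi
  rw [hi, map_sub]
  rfl

theorem IA5_pr_mul (p q : MvPolynomial σ (k0 K H hH)) :
    ∀ᶠ i in (hyperfilter ℕ : Filter ℕ), pr (p * q) i = pr p i * pr q i := by
  have h := pr_congr (p := p * q) (P := lf (map (algebraMap (k0 K H hH) (GK K)) p) *
    lf (map (algebraMap (k0 K H hH) (GK K)) q)) (by rw [map_mul, map_mul, map_lf, map_lf])
  filter_upwards [h] with i hi
  rw [hi, map_mul]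
  rfl

theorem IA5_pr_pow (p : MvPolynomial σ (k0 K H hH)) (d : ℕ) :
    ∀ᶠ i in (hyperfilter ℕ : Filter ℕ), pr (p ^ d) i = pr p i ^ d := by
  have h := pr_congr (p := p ^ d) (P := lf (map (algebraMap (k0 K H hH) (GK K)) p) ^ d)
    (by rw [map_pow, map_pow, map_lf])
  filter_upwards [h] with i hi
  rw [hi, map_pow]
  rfl

theorem IA5_pr_sum {ι : Type*} (S : Finset ι) (p : ι → MvPolynomial σ (k0 K H hH)) :
    ∀ᶠ i in (hyperfilter ℕ : Filter ℕ), pr (∑ j ∈ S, p j) i = ∑ j ∈ S, pr (p j) i := by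
  have h := pr_congr (p := ∑ j ∈ S, p j)
    (P := ∑ j ∈ S, lf (map (algebraMap (k0 K H hH) (GK K)) (p j)))
    (by rw [map_sum, map_sum]; exact Finset.sum_congr rfl fun j _ => map_lf _)
  filter_upwards [h] with i hi
  rw [hi, map_sum]
  rfl

theorem IA5_pr_X (j : σ) : ∀ᶠ i in (hyperfilter ℕ : Filter ℕ),
    pr (X j : MvPolynomial σ (k0 K H hH)) i = X j := by
  have h := pr_congr (p := (X j : MvPolynomial σ (k0 K H hH))) (P := X j)
    (by rw [map_X, map_X])
  filter_upwards [h] with i hi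
  rw [hi]
  unfold ev
  rw [map_X]

theorem IA5_pr_rename (f : σ → τ) (p : MvPolynomial σ (k0 K H hH)) :
    ∀ᶠ i in (hyperfilter ℕ : Filter ℕ), pr (rename f p) i = rename f (pr p i) := by
  have h := pr_congr (p := rename f p)
    (P := rename f (lf (map (algebraMap (k0 K H hH) (GK K)) p)))
    (by rw [map_rename, map_lf, map_rename])
  filter_upwards [h] with i hi
  rw [hi]
  unfold ev
  rw [map_rename]
  rfl

theorem IA5_pr_bind (W : σ → MvPolynomial τ (k0 K H hH)) (p : MvPolynomial σ (k0 K H hH)) :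
    ∀ᶠ i in (hyperfilter ℕ : Filter ℕ), pr (bind₁ W p) i =
      bind₁ (fun j => pr (W j) i) (pr p i) := by
  have h := pr_congr (p := bind₁ W p)
    (P := bind₁ (fun j => lf (map (algebraMap (k0 K H hH) (GK K)) (W j)))
      (lf (map (algebraMap (k0 K H hH) (GK K)) p)))
    (by simp only [map_bind₁, map_lf])
  filter_upwards [h] with i hi
  rw [hi]
  unfold ev
  rw [map_bind₁]
  rfl

theorem IA5_pr_map (p : MvPolynomial σ K) :
    ∀ᶠ i in (hyperfilter ℕ : Filter ℕ), pr (map (algebraMap K (k0 K H hH)) p) i = p := by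
  have h := pr_congr (p := map (algebraMap K (k0 K H hH)) p)
    (P := map (algebraMap K (ℕ → K)) p) (by
      rw [MvPolynomial.map_map, MvPolynomial.map_map]
      rfl)
  filter_upwards [h] with i hi
  rw [hi]
  unfold ev
  rw [MvPolynomial.map_map]
  exact MvPolynomial.map_id p

theorem IA5_pr_degreeOf (p : MvPolynomial σ (k0 K H hH)) (t : σ) {d : ℕ}
    (hd : d < p.degreeOf t) :
    ∀ᶠ i in (hyperfilter ℕ : Filter ℕ), d < (pr p i).degreeOf t := by
  classical
  rw [degreeOf_eq_sup] at hd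
  obtain ⟨w, hw, hdw⟩ := (Finset.lt_sup_iff).1 hd
  have h1 : ∀ᶠ i in (hyperfilter ℕ : Filter ℕ), coeff w (pr p i) ≠ 0 := by
    rw [← gm_ne_zero_iff, IA3_gm_coeff]
    exact (map_ne_zero _).2 (mem_support_iff.1 hw)
  filter_upwards [h1] with i hi
  exact lt_of_lt_of_le hdw (monomial_le_degreeOf t (mem_support_iff.2 hi))

end

/-- The root of an irreducible equation is simple. -/
theorem IA5_pderiv {k : Type*} [Field k] {n : ℕ} (Ψ : MvPolynomial (Option (Fin n)) k) :
    optionEquivLeft k (Fin n) (pderiv none Ψ) =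
      Polynomial.derivative (optionEquivLeft k (Fin n) Ψ) := by
  induction Ψ using MvPolynomial.induction_on with
  | C a => rw [pderiv_C, map_zero, optionEquivLeft_C, Polynomial.derivative_C]
  | add p q hp hq => rw [map_add, map_add, map_add, Polynomial.derivative_add, hp, hq]
  | mul_X p i hp =>
    rw [pderiv_mul, map_add, map_mul, map_mul, map_mul, Polynomial.derivative_mul, hp]
    congr 2
    cases i with
    | none =>
      rw [pderiv_X_self, map_one, optionEquivLeft_X_none, Polynomial.derivative_X]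
    | some t =>
      rw [pderiv_X_of_ne (by exact Option.some_ne_none t), map_zero, optionEquivLeft_X_some,
        Polynomial.derivative_C]

theorem IA5_dvd {k : Type*} [Field k] [CharZero k] {n : ℕ} (Ψ : MvPolynomial (Option (Fin n)) k)
    (hd : Ψ.degreeOf none ≠ 0) : ¬ Ψ ∣ pderiv none Ψ := by
  intro h
  have h1 := map_dvd (optionEquivLeft k (Fin n)) h
  rw [IA5_pderiv] at h1
  have h2 : (optionEquivLeft k (Fin n) Ψ).natDegree ≠ 0 := by
    rw [natDegree_optionEquivLeft]
    exact hd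
  have h3 := Polynomial.eq_zero_of_dvd_of_natDegree_lt h1 (Polynomial.natDegree_derivative_lt h2)
  exact h2 (Polynomial.derivative_eq_zero.1 h3)

end Pool.Agent.Lib.MP_17a322_nt.SL
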