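import Pool.Agent.Lib.MP_17a322_nt.SL.IA4
import Pool.Agent.Lib.MP_17a322_nt.SL.IA5c
import Pool.Agent.Lib.MP_17a322_nt.VA.E11

/-!
An irreducible polynomial with a simple rational zero is prime over all extension fields.
-/

universe u

namespace Pool.Agent.Lib.MP_17a322_nt.SL

open MvPolynomial Height Filter
open Pool.Agent.Lib.MP_17a322_nt.RO
open Pool.Agent.Lib.MP_17a322_nt.VJ
open Pool.Agent.Lib.MP_17a322_nt.VN hiding lf
open Pool.Agent.Lib.MP_17a322_nt.VA
open Pool.Agent.Lib.MP_17a322_nt.VP

/-- The coordinates of the generic line through the point `s`. -/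
noncomputable def IA1s {K : Type*} [Field K] {n : ℕ} (s : Fin n → K) (j : Fin n) :
    PowerSeries (MvPolynomial (Fin n) K) :=
  PowerSeries.C (C (s j)) + PowerSeries.C (X j) * PowerSeries.X

theorem IA1_inj {K : Type*} [Field K] {n : ℕ} (s : Fin n → K) :
    Function.Injective (aeval (IA1s s) : MvPolynomial (Fin n) K →ₐ[K]
      PowerSeries (MvPolynomial (Fin n) K)) := by
  obtain ⟨φ, hφ⟩ : ∃ φ : MvPolynomial (Fin n) K →ₐ[K] Polynomial (MvPolynomial (Fin n) K),
      φ = aeval fun j => Polynomial.C (C (s j)) + Polynomial.C (X j) * Polynomial.X := ⟨_, rfl⟩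
  have h1 : ∀ F, aeval (IA1s s) F = ((φ F : Polynomial (MvPolynomial (Fin n) K)) :
      PowerSeries (MvPolynomial (Fin n) K)) := by
    intro F
    induction F using MvPolynomial.induction_on with
    | C a =>
      rw [algHom_C, algHom_C]
      rw [IsScalarTower.algebraMap_apply K (MvPolynomial (Fin n) K)
        (Polynomial (MvPolynomial (Fin n) K)), Polynomial.algebraMap_eq, Polynomial.coe_C]
      exact PowerSeries.algebraMap_apply
    | add p q hp hq => rw [map_add, map_add, Polynomial.coe_add, hp, hq]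
    | mul_X p i hp =>
      rw [map_mul, map_mul, Polynomial.coe_mul, hp, aeval_X, hφ, aeval_X, Polynomial.coe_add,
        Polynomial.coe_mul, Polynomial.coe_C, Polynomial.coe_C, Polynomial.coe_X]
      rfl
  have h2 : ∀ F, aeval (fun j => X j - C (s j)) (Polynomial.eval 1 (φ F)) = F := by
    intro F
    induction F using MvPolynomial.induction_on with
    | C a =>
      rw [algHom_C, IsScalarTower.algebraMap_apply K (MvPolynomial (Fin n) K)
        (Polynomial (MvPolynomial (Fin n) K)), Polynomial.algebraMap_eq, Polynomial.eval_C,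
        MvPolynomial.algebraMap_eq, algHom_C]
      rfl
    | add p q hp hq => rw [map_add, Polynomial.eval_add, map_add, hp, hq]
    | mul_X p i hp =>
      rw [map_mul, Polynomial.eval_mul, map_mul, hp, hφ, aeval_X, Polynomial.eval_add,
        Polynomial.eval_mul, Polynomial.eval_C, Polynomial.eval_C, Polynomial.eval_X, mul_one,
        map_add, algHom_C, aeval_X, MvPolynomial.algebraMap_eq]
      ring
  intro F G h
  rw [h1, h1] at h
  rw [← h2 F, ← h2 G, Polynomial.coe_injective _ h]

/-- The root over the ring of power series. -/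
theorem IA1_root {K : Type*} [Field K] {n : ℕ} (Ψ : MvPolynomial (Option (Fin n)) K)
    (s : Fin n → K) (t : K) (h0 : aeval (ot t s) Ψ = 0)
    (h1 : aeval (ot t s) (pderiv none Ψ) ≠ 0) :
    ∃ ρ : PowerSeries (MvPolynomial (Fin n) K), aeval (ot ρ (IA1s s)) Ψ = 0 := by
  obtain ⟨φ, hφ⟩ : ∃ φ : MvPolynomial (Fin n) K →+* PowerSeries (MvPolynomial (Fin n) K),
      φ = (aeval (R := K) (IA1s s)).toRingHom := ⟨_, rfl⟩
  have hc : ∀ F, PowerSeries.constantCoeff (φ F) = C (aeval s F) := by
    intro F
    have h2 : (PowerSeries.constantCoeff (R := MvPolynomial (Fin n) K)).comp φ =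
        (C : K →+* MvPolynomial (Fin n) K).comp (aeval (R := K) s).toRingHom := by
      refine MvPolynomial.ringHom_ext (fun c => ?_) fun j => ?_
      · rw [RingHom.comp_apply, RingHom.comp_apply, hφ]
        show PowerSeries.constantCoeff (aeval (IA1s s) (C c)) = C (aeval s (C c))
        rw [algHom_C, algHom_C]
        rfl
      · rw [RingHom.comp_apply, RingHom.comp_apply, hφ]
        show PowerSeries.constantCoeff (aeval (IA1s s) (X j)) = C (aeval s (X j))
        rw [aeval_X, aeval_X]
        unfold IA1s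
        rw [map_add, map_mul, PowerSeries.constantCoeff_C, PowerSeries.constantCoeff_X, mul_zero,
          add_zero]
    exact congrArg (fun f => f F) h2
  obtain ⟨P, hP⟩ : ∃ P : Polynomial (MvPolynomial (Fin n) K), P = optionEquivLeft K (Fin n) Ψ :=
    ⟨_, rfl⟩
  have hu : unp P = Ψ := by
    rw [hP]
    exact AlgEquiv.symm_apply_apply _ Ψ
  have hu' : unp (Polynomial.derivative P) = pderiv none Ψ := by
    rw [hP, ← IA5_pderiv]
    exact AlgEquiv.symm_apply_apply _ _
  have hev : ∀ Q : Polynomial (MvPolynomial (Fin n) K), PowerSeries.constantCoeff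
      ((Q.map φ).eval (PowerSeries.C (C t))) = C (aeval (ot t s) (unp Q)) := by
    intro Q
    rw [aeval_unp, Polynomial.eval_map, ← RingHom.coe_coe, Polynomial.hom_eval₂]
    show _ = C (Q.eval₂ (aeval (R := K) s).toRingHom t)
    rw [Polynomial.hom_eval₂]
    congr 1
    exact RingHom.ext hc
  obtain ⟨U, -, hU⟩ := hensel_unit (Polynomial.taylor (PowerSeries.C (C t)) (P.map φ))
    (by rw [Polynomial.taylor_coeff_zero, hev, hu, h0, map_zero])
    (by
      rw [Polynomial.taylor_coeff_one, Polynomial.derivative_map, hev, hu']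
      exact (isUnit_iff_ne_zero.2 h1).map C)
  refine ⟨U + PowerSeries.C (C t), ?_⟩
  rw [← hu, aeval_unp]
  rw [Polynomial.taylor_eval, Polynomial.eval_map, hφ] at hU
  exact hU

/-- A polynomial over an extension field as a combination of polynomials over the ground field. -/
theorem IA1_decomp {K L : Type*} [Field K] [Field L] [Algebra K L] {ι σ : Type*}
    (b : Module.Basis ι K L) (f : MvPolynomial σ L) :
    ∃ (J : Finset ι) (g : ι → MvPolynomial σ K),
      f = ∑ j ∈ J, C (b j) * MvPolynomial.map (algebraMap K L) (g j) := by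
  classical
  refine ⟨f.support.biUnion fun w => (b.repr (coeff w f)).support,
    fun j => ∑ w ∈ f.support, monomial w (b.repr (coeff w f) j), ?_⟩
  ext w
  rw [coeff_sum]
  have h1 : ∀ j, coeff w (C (b j) * MvPolynomial.map (algebraMap K L)
      (∑ w ∈ f.support, monomial w (b.repr (coeff w f) j))) = b.repr (coeff w f) j • b j := by
    intro j
    rw [coeff_C_mul, coeff_map, coeff_sum]
    simp only [coeff_monomial]
    rw [Finset.sum_ite_eq']
    split_ifs with h
    · rw [Algebra.smul_def, mul_comm]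
    · rw [notMem_support_iff.1 h, map_zero, map_zero, Finsupp.coe_zero, Pi.zero_apply, zero_smul,
        mul_zero]
  rw [Finset.sum_congr rfl fun j _ => h1 j]
  by_cases hw : w ∈ f.support
  · have h2 := b.linearCombination_repr (coeff w f)
    rw [Finsupp.linearCombination_apply, Finsupp.sum] at h2
    rw [← Finset.sum_subset (Finset.subset_biUnion_of_mem
      (fun w => (b.repr (coeff w f)).support) hw) fun j _ hj => ?_]
    · exact h2.symm
    · rw [Finsupp.notMem_support_iff.1 hj, zero_smul]
  · rw [notMem_support_iff.1 hw, map_zero]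
    exact (Finset.sum_eq_zero fun j _ => by rw [Finsupp.coe_zero, Pi.zero_apply, zero_smul]).symm

theorem IA1_indep {K L : Type*} [Field K] [Field L] [Algebra K L] {ι : Type*} {b : ι → L}
    (hb : LinearIndependent K b) {n : ℕ} (J : Finset ι)
    (u : ι → PowerSeries (MvPolynomial (Fin n) K))
    (h : ∑ j ∈ J, PowerSeries.C (C (b j)) *
      PowerSeries.map (MvPolynomial.map (algebraMap K L)) (u j) = 0) (j : ι) (hj : j ∈ J) :
    u j = 0 := by
  ext k w
  have h1 := congrArg (fun f => coeff w (PowerSeries.coeff k f)) h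
  simp only [map_sum, PowerSeries.coeff_C_mul, PowerSeries.coeff_map, coeff_sum, coeff_C_mul,
    coeff_map, map_zero, coeff_zero] at h1
  have h2 : ∑ j ∈ J, coeff w (PowerSeries.coeff k (u j)) • b j = 0 := by
    rw [← h1]
    exact Finset.sum_congr rfl fun j _ => by rw [Algebra.smul_def, mul_comm]
  rw [linearIndependent_iff'.1 hb J _ h2 j hj, map_zero, coeff_zero]

/-- IA1: an irreducible polynomial with a simple zero over `K` is prime over all extension fields. -/
theorem prime_of_simple {K : Type u} [Field K] {n : ℕ} (Ψ : MvPolynomial (Option (Fin n)) K)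
    (hΨ : Irreducible Ψ) (s : Fin n → K) (t : K) (h0 : aeval (ot t s) Ψ = 0)
    (h1 : aeval (ot t s) (pderiv none Ψ) ≠ 0) (L : Type u) [Field L] [Algebra K L] :
    Prime (MvPolynomial.map (algebraMap K L) Ψ) := by
  classical
  obtain ⟨ρ, hρ⟩ := IA1_root Ψ s t h0 h1
  -- the kernel over `K`
  have hker : ∀ f : MvPolynomial (Option (Fin n)) K, aeval (ot ρ (IA1s s)) f = 0 → Ψ ∣ f := by
    intro f hf
    obtain ⟨F', _, _, F, hFi⟩ : ∃ (F' : Type u) (_ : Field F') (_ : Algebra K F')
        (F : PowerSeries (MvPolynomial (Fin n) K) →ₐ[K] F'), Function.Injective F :=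
      ⟨FractionRing (PowerSeries (MvPolynomial (Fin n) K)), inferInstance, inferInstance,
        IsScalarTower.toAlgHom K _ _,
        IsFractionRing.injective (PowerSeries (MvPolynomial (Fin n) K)) _⟩
    let _ : Algebra (MvPolynomial (Fin n) K) F' :=
      (F.comp (aeval (R := K) (IA1s s))).toRingHom.toAlgebra
    have hfs : FaithfulSMul (MvPolynomial (Fin n) K) F' :=
      (faithfulSMul_iff_algebraMap_injective _ _).2 (hFi.comp (IA1_inj s))
    have hval : ∀ Q : MvPolynomial (Option (Fin n)) K, Polynomial.aeval (F ρ)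
        (optionEquivLeft K (Fin n) Q) = F (aeval (ot ρ (IA1s s)) Q) := by
      intro Q
      obtain ⟨P, rfl⟩ : ∃ P, Q = unp P :=
        ⟨optionEquivLeft K (Fin n) Q, (AlgEquiv.symm_apply_apply _ Q).symm⟩
      have h2 : optionEquivLeft K (Fin n) (unp P) = P := AlgEquiv.apply_symm_apply _ P
      rw [h2, aeval_unp, Polynomial.aeval_def]
      have h3 := Polynomial.hom_eval₂ P (aeval (R := K) (IA1s s)).toRingHom F.toRingHom ρ
      exact h3.symm
    have hΨ' : Prime (optionEquivLeft K (Fin n) Ψ) :=
      (MulEquiv.prime_iff (optionEquivLeft K (Fin n))).2 hΨ.prime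
    have h2 : Polynomial.aeval (F ρ) (optionEquivLeft K (Fin n) Ψ) = 0 := by
      rw [hval, hρ, map_zero]
    have h3 := IA4_prime (F ρ) ⟨_, hΨ'.ne_zero, h2⟩ _ hΨ' h2 (optionEquivLeft K (Fin n) f)
      (by rw [hval, hf, map_zero])
    have h4 := map_dvd (optionEquivLeft K (Fin n)).symm h3
    rwa [AlgEquiv.symm_apply_apply, AlgEquiv.symm_apply_apply] at h4
  -- the evaluation over `L`
  obtain ⟨ι, hι⟩ : ∃ ι : PowerSeries (MvPolynomial (Fin n) K) →+*
      PowerSeries (MvPolynomial (Fin n) L),
      ι = PowerSeries.map (MvPolynomial.map (algebraMap K L)) := ⟨_, rfl⟩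
  obtain ⟨E, hE⟩ : ∃ E : MvPolynomial (Option (Fin n)) L →ₐ[L]
      PowerSeries (MvPolynomial (Fin n) L),
      E = aeval (fun o => ι (ot ρ (IA1s s) o)) := ⟨_, rfl⟩
  have hEC : ∀ a : L, E (C a) = PowerSeries.C (C a) := by
    intro a
    rw [algHom_C]
    exact PowerSeries.algebraMap_apply
  have hEm : ∀ f, E (MvPolynomial.map (algebraMap K L) f) = ι (aeval (ot ρ (IA1s s)) f) := by
    intro f
    induction f using MvPolynomial.induction_on with
    | C a =>
      rw [map_C, hEC, algHom_C, hι, PowerSeries.algebraMap_apply, PowerSeries.map_C,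
        MvPolynomial.algebraMap_eq, map_C]
    | add p q hp hq => rw [map_add, map_add, map_add, map_add, hp, hq]
    | mul_X p i hp =>
      rw [map_mul, map_mul, map_mul, map_mul, hp, map_X, hE, aeval_X, aeval_X]
  have hdvd : ∀ f, E f = 0 → MvPolynomial.map (algebraMap K L) Ψ ∣ f := by
    intro f hf
    obtain ⟨J, g, hg⟩ := IA1_decomp (Module.Basis.ofVectorSpace K L) f
    have h2 : ∑ j ∈ J, PowerSeries.C (C (Module.Basis.ofVectorSpace K L j)) *
        PowerSeries.map (MvPolynomial.map (algebraMap K L)) (aeval (ot ρ (IA1s s)) (g j)) = 0 := by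
      rw [← hf, hg, map_sum]
      refine Finset.sum_congr rfl fun j _ => ?_
      rw [map_mul, hEC, hEm, hι]
    have h3 := IA1_indep (Module.Basis.ofVectorSpace K L).linearIndependent J _ h2
    rw [hg]
    refine Finset.dvd_sum fun j hj => Dvd.dvd.mul_left (map_dvd _ ?_) _
    exact hker _ (h3 j hj)
  have hE0 : E (MvPolynomial.map (algebraMap K L) Ψ) = 0 := by
    rw [hEm, hρ, map_zero]
  refine ⟨?_, ?_, ?_⟩
  · intro h2
    exact hΨ.ne_zero (map_injective _ (algebraMap K L).injective (by rw [h2, map_zero]))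
  · intro h2
    have h3 := h2.map E
    rw [hE0] at h3
    exact not_isUnit_zero h3
  · rintro a b ⟨c, hc⟩
    have h2 : E a * E b = 0 := by
      rw [← map_mul, hc, map_mul, hE0, zero_mul]
    rcases mul_eq_zero.1 h2 with h3 | h3
    · exact Or.inl (hdvd a h3)
    · exact Or.inr (hdvd b h3)

end Pool.Agent.Lib.MP_17a322_nt.SL
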