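import Pool.Agent.Lib.MP_17a322_nt.SL.IA5e
import Pool.Agent.Lib.MP_17a322_nt.SL.IA1

/-!
The cover at almost all indices.
-/

universe u

namespace Pool.Agent.Lib.MP_17a322_nt.SL

open MvPolynomial Height Filter
open Pool.Agent.Lib.MP_17a322_nt.RO
open Pool.Agent.Lib.MP_17a322_nt.VJ
open Pool.Agent.Lib.MP_17a322_nt.VN hiding lf
open Pool.Agent.Lib.MP_17a322_nt.VA
open Pool.Agent.Lib.MP_17a322_nt.VP

/-- IA5: the cover at the index `i`. -/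
theorem exists_cov {K : Type u} [Field K] [NumberField K] {N : ℕ} {B : AV K N} {H : ℕ → ℝ}
    (hH : Tendsto H (hyperfilter ℕ : Filter ℕ) atTop) (Q : ℕ → B.Pts K) (b : B.Pts (GK K))
    (hb : IsGerm B Q b) {n e : ℕ} (nd : Noe B n e) (hgood : nd.Good b)
    (hind : AlgebraicIndependent (k0 K H hH) (nd.s b)) {q : ℕ} (μ : ℕ → Fin (q + 1) → K)
    (l₀ : Fin (q + 1)) (hμ0 : ∀ᶠ i in (hyperfilter ℕ : Filter ℕ), μ i l₀ = 1)
    (halg : ∀ l, IsAlgebraic (IntermediateField.adjoin (k0 K H hH) (Set.range (rt (B.x b))))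
      (gm fun i => μ i l)) (l₁ : Fin (q + 1))
    (hnot : gm (fun i => μ i l₁) ∉
      IntermediateField.adjoin (k0 K H hH) (Set.range (rt (B.x b)))) :
    ∃ (Dc : ℕ) (a : ℕ → ℝ), oH H a ∧ ∀ᶠ i in (hyperfilter ℕ : Filter ℕ),
      ∃ (Ψ Θ : MvPolynomial (Option (Fin n)) K)
        (M : Fin (q + 1) → MvPolynomial (Option (Fin n)) K) (t : K),
        Cov nd l₀ Dc Ψ Θ M ∧ CovAt nd l₀ Ψ Θ M (Q i) (μ i) t (a i) :=
  IA5_main hH Q b hb nd hgood hind μ l₀ hμ0 halg l₁ hnot fun Ψ hΨ s t h0 h1 L _ _ =>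
    prime_of_simple Ψ hΨ s t h0 h1 L

end Pool.Agent.Lib.MP_17a322_nt.SL
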