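import Pool.Agent.Lib.MP_17a322_nt.SL.IM1
import Pool.Agent.Lib.MP_17a322_nt.SL.H9
import Pool.Agent.Lib.MP_17a322_nt.SL.IA5

/-!
The hyperplane spanned by small vectors is rational over `k0(p)`.
-/

universe u

namespace Pool.Agent.Lib.MP_17a322_nt.SL

open MvPolynomial Height Filter
open Pool.Agent.Lib.MP_17a322_nt.RO
open Pool.Agent.Lib.MP_17a322_nt.VJ
open Pool.Agent.Lib.MP_17a322_nt.VN hiding lf
open Pool.Agent.Lib.MP_17a322_nt.VA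
open Pool.Agent.Lib.MP_17a322_nt.VP

theorem CovAt.mono {K : Type u} [Field K] [NumberField K] {N : ℕ} {B : AV K N} {n e : ℕ}
    {nd : Noe B n e} {q : ℕ} {l₀ : Fin (q + 1)} {Ψ Θ : MvPolynomial (Option (Fin n)) K}
    {M : Fin (q + 1) → MvPolynomial (Option (Fin n)) K} {P : B.Pts K} {μ : Fin (q + 1) → K}
    {t : K} {h h' : ℝ} (hA : CovAt nd l₀ Ψ Θ M P μ t h) (hh : h ≤ h') :
    CovAt nd l₀ Ψ Θ M P μ t h' :=
  { hA with
    hPsi := hA.hPsi.trans hh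
    hTh := hA.hTh.trans hh
    hM := fun l => (hA.hM l).trans hh }

/-- The case of large height. -/
theorem HSet.rat {K : Type u} [Field K] [NumberField K] {N : ℕ} {A : AV K N} {P : ℕ → A.Pts K}
    {H : ℕ → ℝ} {hH : Tendsto H (hyperfilter ℕ : Filter ℕ) atTop} {p : A.Pts (GK K)}
    (S : HSet A P hH p) (Sg : Finset (AbsoluteValue K ℝ)) (hSg : ∀ v ∈ Sg, Pl v)
    {q : ℕ} (D : ℕ)
    (Λ : AbsoluteValue K ℝ → Matrix (Fin (q + 1)) (Fin (q + 1)) (MvPolynomial (Fin (N + 1)) K))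
    (hΛ : ∀ v ∈ Sg, ∀ k l, (Λ v k l).IsHomogeneous D)
    (hlow : ∀ v ∈ Sg, ∀ δ : ℝ, 0 < δ → ∀ᶠ i in (hyperfilter ℕ : Filter ℕ),
      (⨆ a, v (A.x (P i) a)) ^ ((q + 1) * D) * Real.exp (- δ * H i) ≤
        v (aeval (A.x (P i)) (Λ v).det))
    (c : AbsoluteValue K ℝ → Fin (q + 1) → ℝ) (hc : 0 ≤ tw Sg c)
    (y : ℕ → Fin (q + 1) → Fin (q + 1) → K) (hy : ∀ᶠ i in (hyperfilter ℕ : Filter ℕ),
      LinearIndependent K (y i)) (μ : ℕ → Fin (q + 1) → K)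
    (hμ : ∀ᶠ i in (hyperfilter ℕ : Filter ℕ), ∀ s, s ≠ Fin.last q → ∑ l, μ i l * y i s l = 0)
    (l₀ : Fin (q + 1)) (hμ0 : ∀ᶠ i in (hyperfilter ℕ : Filter ℕ), μ i l₀ = 1)
    (κ : ℝ) (hκ : 0 < κ)
    (hsz : ∀ η : ℝ, 0 < η → ∀ᶠ i in (hyperfilter ℕ : Filter ℕ), ∀ s,
      gs (sz Sg c (H i) (fun v => (Λ v).map (aeval (A.x (P i)))) (y i s)) ≤
        ((if s = Fin.last q then q * κ else - κ) + η) * H i)
    (halg : ∀ l, IsAlgebraic (IntermediateField.adjoin (k0 K H hH) (Set.range (rt (A.x p))))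
      (gm fun i => μ i l)) (l : Fin (q + 1)) :
    gm (fun i => μ i l) ∈ IntermediateField.adjoin (k0 K H hH) (Set.range (rt (A.x p))) := by
  classical
  by_contra hnot
  -- one chart
  obtain ⟨v₀⟩ : Nonempty (NumberField.InfinitePlace K) := inferInstance
  obtain ⟨c₀, -⟩ := S.cov K v₀.val (0 : S.B.Pts K)
  have hfld : IntermediateField.adjoin (k0 K H hH) (Set.range (rt (A.x p))) =
      IntermediateField.adjoin (k0 K H hH) (Set.range (rt (S.B.x S.b))) := by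
    apply le_antisymm
    · rw [IntermediateField.adjoin_le_iff]
      rintro _ ⟨k, rfl⟩
      exact S.rtp k
    · rw [IntermediateField.adjoin_le_iff]
      rintro _ ⟨k, rfl⟩
      exact S.rtb k
  have hl : l₀ ≠ l := by
    intro h
    apply hnot
    have h1 : gm (fun i => μ i l) = 1 := by
      rw [← gm_one, gm_eq_iff]
      filter_upwards [hμ0] with i hi
      rw [← h, hi]
    rw [h1]
    exact one_mem _
  have hq : 0 < q := by
    rcases Nat.eq_zero_or_pos q with h0 | h0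
    · subst h0
      have g1 := l.2
      have g2 := l₀.2
      exact absurd (Fin.ext (by omega)) hl
    · exact h0
  rw [hfld] at hnot halg
  -- the covers
  obtain ⟨Dc, a, ha, hcov⟩ := exists_cov hH S.Q S.b S.hQ (S.nd c₀) (S.good c₀) (S.ind c₀) μ l₀
    hμ0 halg l hnot
  -- the machine
  obtain ⟨ρ, hρ, hmach⟩ := S.mach c₀ Sg hSg D Λ hΛ hlow c
    (fun s : Fin (q + 1) => if s = Fin.last q then q * κ else - κ) y
    (by filter_upwards [hy] with i hi s using hi.ne_zero s) hsz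
  obtain ⟨E, m, D', R₀, C₀, η, hm, hC₀, hη, hIR⟩ := IRM' S.B (S.nd c₀) Sg hSg q (2 * D) Dc hq
    (fun v k => c v k / ρ) (by
      rw [H_tw_div]
      exact div_nonneg hc hρ.le) (κ / ρ) (div_pos hκ hρ)
  -- independence
  have hsg : (fun y : Fin S.n => gm fun i => (S.nd c₀).s (S.Q i) y) =
      (S.nd c₀).s S.b := by
    funext k
    exact Z_gm_s (S.nd c₀) S.hQ k
  obtain ⟨δ, hδ, hSI⟩ := SI (H := H) (hH := hH)
    (fun i (y : Fin S.n) => (S.nd c₀).s (S.Q i) y)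
    (fun y : Fin S.n => y) Function.injective_id
    (by rw [hsg]; exact S.ind c₀) D'
  obtain ⟨C, hC0, hC⟩ := S.upp
  obtain ⟨a₀, b₀, j, -, hU, hR0, -, hR2, h4j, hdat⟩ := hmach E
    (fun i => LinearIndependent K (y i) ∧ μ i l₀ = 1 ∧
      (∀ s, s ≠ Fin.last q → ∑ l, μ i l * y i s l = 0) ∧ S.B.h (S.Q i) ≤ C * H i ∧
      (∃ (Ψ Θ : MvPolynomial (Option (Fin S.n)) K)
        (M : Fin (q + 1) → MvPolynomial (Option (Fin S.n)) K) (t : K),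
        Cov (S.nd c₀) l₀ Dc Ψ Θ M ∧ CovAt (S.nd c₀) l₀ Ψ Θ M (S.Q i) (μ i) t (a i)) ∧
      ∀ G : MvPolynomial (Fin S.n) K, G ≠ 0 →
        (∀ y, y ∉ Set.range (fun y : Fin S.n => y) → G.degreeOf y = 0) →
        (∀ y, G.degreeOf y ≤ D') → nh G ≤ δ * H i →
        eval (fun y : Fin S.n => (S.nd c₀).s (S.Q i) y) G ≠ 0)
    (hy.and (hμ0.and (hμ.and (hC.and (hcov.and hSI))))) a ha m R₀ (max C₀ (2 * C * C₀ / δ)) η hη
  have hsig : (fun s : Fin (q + 1) => (if s = Fin.last q then (q : ℝ) * κ else - κ) / ρ) =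
      fun s => if s = Fin.last q then q * (κ / ρ) else - (κ / ρ) := by
    funext s
    by_cases h : s = Fin.last q
    · rw [if_pos h, if_pos h, mul_div_assoc]
    · rw [if_neg h, if_neg h, neg_div]
  rw [hsig] at hdat
  obtain ⟨i, G, hG0, hGd, hGn, hGe⟩ := hIR (S.Q a₀) (fun i => S.Q (b₀ i)) j _ _
    (fun i => μ (b₀ i)) l₀ hR2
    { hdat with h₀ := (le_max_left _ _).trans hdat.h₀ }
    (fun i => (hU i).1) (fun i => (hU i).2.1) (fun i => (hU i).2.2.1) (fun i => by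
      obtain ⟨Ψ, Θ, M, t, h1, h2⟩ := (hU i).2.2.2.2.1
      exact ⟨Ψ, Θ, M, t, h1, h2.mono (hR0 i)⟩)
  refine (hU i).2.2.2.2.2 G hG0 (fun y hy => absurd ⟨y, rfl⟩ hy) hGd ?_ hGe
  refine hGn.trans ?_
  have h1 : 2 * C * C₀ / δ ≤ S.B.h (S.Q a₀) := (le_max_right _ _).trans hdat.h₀
  rw [div_le_iff₀ hδ] at h1
  have h2 : (4 : ℝ) ^ j i * S.B.h (S.Q a₀) ≤ 2 * (C * H (b₀ i)) :=
    (h4j i).trans (mul_le_mul_of_nonneg_left (hU i).2.2.2.1 (by norm_num))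
  have h3 : (0 : ℝ) < 4 ^ j i := by positivity
  have h4 := mul_le_mul_of_nonneg_left h1 h3.le
  have h5 := mul_le_mul_of_nonneg_left h2 hδ.le
  have h6 : C * (C₀ * 4 ^ j i) ≤ C * (δ * H (b₀ i)) := by nlinarith
  exact le_of_mul_le_mul_left h6 hC0

/-- IRR part: the hyperplane spanned by small vectors is rational over `k0(p)`. -/
theorem HQ' {K : Type u} [Field K] [NumberField K] {N : ℕ} (A : AV K N)
    (Γ : AddSubgroup (A.Pts K)) (hΓ : Γ.FG) {H : ℕ → ℝ}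
    (hH : Tendsto H (hyperfilter ℕ : Filter ℕ) atTop) (P : ℕ → A.Pts K) (hPΓ : ∀ i, P i ∈ Γ)
    (hupp : ∃ C : ℝ, 0 < C ∧ ∀ᶠ i in (hyperfilter ℕ : Filter ℕ), A.h (P i) ≤ C * H i)
    {p : A.Pts (GK K)} (hPp : IsGerm A P p)
    (Sg : Finset (AbsoluteValue K ℝ)) (hSg : ∀ v ∈ Sg, Pl v) {q : ℕ} (D : ℕ)
    (Λ : AbsoluteValue K ℝ → Matrix (Fin (q + 1)) (Fin (q + 1)) (MvPolynomial (Fin (N + 1)) K))
    (hΛ : ∀ v ∈ Sg, ∀ k l, (Λ v k l).IsHomogeneous D)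
    (hdet : ∀ v ∈ Sg, ∀ᶠ i in (hyperfilter ℕ : Filter ℕ), aeval (A.x (P i)) (Λ v).det ≠ 0)
    (c : AbsoluteValue K ℝ → Fin (q + 1) → ℝ) (hc : 0 ≤ tw Sg c)
    (y : ℕ → Fin (q + 1) → Fin (q + 1) → K) (hy : ∀ᶠ i in (hyperfilter ℕ : Filter ℕ),
      LinearIndependent K (y i)) (μ : ℕ → Fin (q + 1) → K)
    (hμ : ∀ᶠ i in (hyperfilter ℕ : Filter ℕ), ∀ s, s ≠ Fin.last q → ∑ l, μ i l * y i s l = 0)
    (l₀ : Fin (q + 1)) (hμ0 : ∀ᶠ i in (hyperfilter ℕ : Filter ℕ), μ i l₀ = 1)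
    (κ : ℝ) (hκ : 0 < κ)
    (hsz : ∀ η : ℝ, 0 < η → ∀ᶠ i in (hyperfilter ℕ : Filter ℕ), ∀ s,
      gs (sz Sg c (H i) (fun v => (Λ v).map (aeval (A.x (P i)))) (y i s)) ≤
        ((if s = Fin.last q then q * κ else - κ) + η) * H i)
    (l : Fin (q + 1)) :
    gm (fun i => μ i l) ∈ IntermediateField.adjoin (k0 K H hH) (Set.range (rt (A.x p))) := by
  by_cases ho : oH H fun i => A.h (P i)
  · have h1 := HT_small A hH P ho Sg hSg D Λ hΛ hdet c hc y hy μ hμ l₀ hμ0 κ hκ hsz l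
    exact (IntermediateField.adjoin (k0 K H hH) (Set.range (rt (A.x p)))).algebraMap_mem
        (⟨_, h1⟩ : k0 K H hH)
  · have hlow : ∃ c : ℝ, 0 < c ∧ ∀ᶠ i in (hyperfilter ℕ : Filter ℕ), c * H i ≤ A.h (P i) := by
      unfold oH at ho
      push Not at ho
      obtain ⟨δ, hδ, h1⟩ := ho
      exact ⟨δ, hδ, h1.mono fun i hi => hi.le⟩
    obtain ⟨B, hB, w, w', b, hw, hrel, hmin, hnr⟩ := geom_noRat1 A hH Γ hΓ P hPΓ p hPp
    obtain ⟨S⟩ := exists_HSet A Γ hΓ P hPΓ hH hlow hupp hPp hB hw hrel hmin hnr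
    have hl := fun v (hv : v ∈ Sg) => H_det_low A Γ hΓ P hPΓ hH hupp hPp (hSg v hv)
      (hΛ v hv) (hdet v hv)
    exact S.rat Sg hSg D Λ hΛ hl c hc y hy μ hμ l₀ hμ0 κ hκ hsz
      (fun l => S.alg Sg hSg D Λ hΛ hl c hc y hy μ hμ l₀ hμ0 κ hκ hsz l) l

end Pool.Agent.Lib.MP_17a322_nt.SL
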