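import Pool.Agent.Lib.MP_17a322_nt.SL.D6
import Pool.Agent.Lib.MP_17a322_nt.SL.G7
import Pool.Agent.Lib.MP_17a322_nt.SL.G8a
import Pool.Agent.Lib.MP_17a322_nt.SL.G8b
import Pool.Agent.Lib.MP_17a322_nt.SL.IM2

/-!
The Plücker coordinates of the gap subspace are algebraic over `K(p)`.
-/

universe u

namespace Pool.Agent.Lib.MP_17a322_nt.SL

open MvPolynomial Height NumberField Filter
open Pool.Agent.Lib.MP_17a322_nt.RO
open Pool.Agent.Lib.MP_17a322_nt.VJ
open Pool.Agent.Lib.MP_17a322_nt.VN hiding lf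
open Pool.Agent.Lib.MP_17a322_nt.VA
open Pool.Agent.Lib.MP_17a322_nt.VP

/-- The coordinates of the gap hyperplane are algebraic over `K(p)`. -/
theorem GT1 {K : Type u} [Field K] [NumberField K] {N₀ : ℕ} (A : AV K N₀)
    (Γ : AddSubgroup (A.Pts K)) (hΓ : Γ.FG) {H : ℕ → ℝ}
    (hH : Tendsto H (hyperfilter ℕ : Filter ℕ) atTop) (P : ℕ → A.Pts K) (hPΓ : ∀ i, P i ∈ Γ)
    (hupp : ∃ C : ℝ, 0 < C ∧ ∀ᶠ i in (hyperfilter ℕ : Filter ℕ), A.h (P i) ≤ C * H i)
    {pt : A.Pts (GK K)} (hPp : IsGerm A P pt)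
    (Sg : Finset (AbsoluteValue K ℝ)) (hSg : ∀ v ∈ Sg, Pl v)
    (hinf : ∀ v : NumberField.InfinitePlace K, v.val ∈ Sg) {k p : ℕ} (hk : 0 < k) (hp : 0 < p)
    (D : ℕ)
    (Λ : AbsoluteValue K ℝ → Matrix (Fin (k + p)) (Fin (k + p)) (MvPolynomial (Fin (N₀ + 1)) K))
    (hΛ : ∀ v ∈ Sg, ∀ k l, (Λ v k l).IsHomogeneous D)
    (hdet : ∀ v ∈ Sg, ∀ᶠ i in (hyperfilter ℕ : Filter ℕ), aeval (A.x (P i)) (Λ v).det ≠ 0)
    (c : AbsoluteValue K ℝ → Fin (k + p) → ℝ) (y : ℕ → Fin (k + p) → Fin (k + p) → K)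
    (σ : Fin (k + p) → ℝ) (hσ : ∑ j, σ j = tw Sg c)
    (hMn : ∀ ε : ℝ, 0 < ε → ∀ᶠ i in (hyperfilter ℕ : Filter ℕ),
      Mn Sg (fun v k => c v k * H i) (fun v => (Λ v).map (aeval (A.x (P i)))) (ε * H i) (y i)
        (fun j => σ j * H i))
    {α β : ℝ} (hαβ : α < β) (hα : ∀ j : Fin (k + p), j.val < k → σ j ≤ α)
    (hβ : ∀ j : Fin (k + p), k ≤ j.val → β ≤ σ j) :
    ∃ (N : ℕ) (e : Fin (N + 1) ≃ Set.powersetCard (Fin (k + p)) p) (l₀ : Fin (N + 1)),
      e (Fin.last N) = topS k p ∧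
      (∀ᶠ i in (hyperfilter ℕ : Filter ℕ), cmp e (Matrix.of (y i))⁻¹ l₀ (Fin.last N) ≠ 0) ∧
      ∀ b, IsAlgebraic (IntermediateField.adjoin K (Set.range (rt (A.x pt))))
        (gm fun i => cmp e (Matrix.of (y i))⁻¹ b (Fin.last N) /
          cmp e (Matrix.of (y i))⁻¹ l₀ (Fin.last N)) := by
  classical
  obtain ⟨M, hMdef⟩ : ∃ M : ℕ → AbsoluteValue K ℝ → Matrix (Fin (k + p)) (Fin (k + p)) K,
    M = fun i v => (Λ v).map (aeval (A.x (P i))) := ⟨_, rfl⟩
  have hM : ∀ᶠ i in (hyperfilter ℕ : Filter ℕ), ∀ v ∈ Sg, (M i v).det ≠ 0 := by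
    rw [eventually_all_finset]
    intro v hv
    filter_upwards [hdet v hv] with i hi
    rw [hMdef]
    show ((Λ v).map (aeval (A.x (P i)))).det ≠ 0
    rw [det_map_aeval]
    exact hi
  have hdf : oH H fun i => df Sg (M i) := by
    rw [hMdef]
    exact df_oH Γ hΓ hH hPΓ hupp hPp Sg hSg (by omega) D Λ hΛ hdet
  have hMn' : ∀ ε : ℝ, 0 < ε → ∀ᶠ i in (hyperfilter ℕ : Filter ℕ),
      Mn Sg (fun v k => c v k * H i) (M i) (ε * H i) (y i) (fun j => σ j * H i) := by
    rw [hMdef]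
    exact hMn
  obtain ⟨N, e, c', η, z, hN, hlast, htw, hη, hz, hzs, hzm⟩ := G7 hk hp Sg hSg hinf hH c M hM hdf
    y σ hσ hMn' hαβ hα hβ
  have hli : ∀ᶠ i in (hyperfilter ℕ : Filter ℕ), LinearIndependent K (y i) := by
    filter_upwards [hMn 1 one_pos] with i g1
    exact g1.li
  -- the nonzero coordinate
  have hex : ∀ᶠ i in (hyperfilter ℕ : Filter ℕ), ∃ l,
      cmp e (Matrix.of (y i))⁻¹ l (Fin.last N) ≠ 0 := by
    filter_upwards [hli] with i g1
    by_contra h
    push Not at h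
    have h1 := cmp_inv_apply e (det_of_li g1) (Fin.last N) (Fin.last N)
    simp only [h, zero_mul, Finset.sum_const_zero, if_true] at h1
    exact zero_ne_one h1
  obtain ⟨l₀, hl₀⟩ : ∃ l, ∀ᶠ i in (hyperfilter ℕ : Filter ℕ),
      cmp e (Matrix.of (y i))⁻¹ l (Fin.last N) ≠ 0 := Ultrafilter.eventually_exists_iff.mp hex
  refine ⟨N, e, l₀, hlast, hl₀, ?_⟩
  obtain ⟨μ, hμdef⟩ : ∃ μ : ℕ → Fin (N + 1) → K,
    μ = fun i b => cmp e (Matrix.of (y i))⁻¹ b (Fin.last N) /
      cmp e (Matrix.of (y i))⁻¹ l₀ (Fin.last N) := ⟨_, rfl⟩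
  have hμl : ∀ᶠ i in (hyperfilter ℕ : Filter ℕ), μ i l₀ = 1 := by
    filter_upwards [hl₀] with i hi
    rw [hμdef]
    exact div_self hi
  have hμ0 : ∀ᶠ i in (hyperfilter ℕ : Filter ℕ), μ i ≠ 0 := by
    filter_upwards [hμl] with i hi h
    rw [h] at hi
    exact zero_ne_one hi
  have hμz : ∀ᶠ i in (hyperfilter ℕ : Filter ℕ), ∀ j, j ≠ Fin.last N →
      ∑ l, μ i l * z i j l = 0 := by
    filter_upwards [hli, hzm] with i g1 g2 j hj
    have h1 : ∀ w ∈ Submodule.span K ((fun a => cmp e (Matrix.of (y i)) a) ''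
        {a | a < Fin.last N}), ∑ l, μ i l * w l = 0 := by
      intro w hw
      induction hw using Submodule.span_induction with
      | mem w hw =>
        obtain ⟨a, ha, rfl⟩ := hw
        have h2 := cmp_inv_apply e (det_of_li g1) a (Fin.last N)
        rw [if_neg (ne_of_lt ha)] at h2
        rw [hμdef]
        simp only [div_mul_eq_mul_div]
        rw [← Finset.sum_div, h2, zero_div]
      | zero => simp
      | add w w' _ _ h h' =>
        simp only [Pi.add_apply, mul_add, Finset.sum_add_distrib, h, h', add_zero]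
      | smul a w _ h =>
        have h2 : ∀ l, μ i l * (a • w) l = a * (μ i l * w l) := fun l => by
          rw [Pi.smul_apply, smul_eq_mul]
          ring
        rw [Finset.sum_congr rfl fun l _ => h2 l, ← Finset.mul_sum, h, mul_zero]
    exact h1 _ (g2 j hj)
  -- the forms
  have hcm : ∀ i v, (cmp e (Λ v)).map (aeval (A.x (P i))) = cmp e (M i v) := by
    intro i v
    rw [hMdef]
    exact cmp_map_aeval e _ _
  have hcdet : ∀ v ∈ Sg, ∀ᶠ i in (hyperfilter ℕ : Filter ℕ),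
      aeval (A.x (P i)) (cmp e (Λ v)).det ≠ 0 := by
    intro v hv
    filter_upwards [hM] with i hi
    rw [← det_map_aeval, hcm]
    exact cmp_det_ne e _ (hi v hv)
  have hrat : ∀ b, gm (fun i => μ i b) ∈
      IntermediateField.adjoin (k0 K H hH) (Set.range (rt (A.x pt))) := by
    intro b
    refine HQ' A Γ hΓ hH P hPΓ hupp hPp Sg hSg (p * D) (fun v => cmp e (Λ v))
      (fun v hv a b => cmp_hom e (Λ v) (hΛ v hv) a b) hcdet c' htw.ge z hz μ ?_ l₀ hμl η hη ?_ b
    · filter_upwards [hμz] with i g1 j hj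
      exact g1 j hj
    · intro ε hε
      filter_upwards [hzs ε hε] with i g1 j
      have h1 := g1 j
      rw [sz_eq_sw]
      simp only [hcm]
      exact h1
  -- the descent
  have hMc : ∀ᶠ i in (hyperfilter ℕ : Filter ℕ), ∀ v ∈ Sg, (cmp e (M i v)).det ≠ 0 := by
    filter_upwards [hM] with i hi v hv
    exact cmp_det_ne e _ (hi v hv)
  have hdfc : oH H fun i => df Sg fun v => cmp e (M i v) := by
    obtain ⟨C, hC, h1⟩ := cmp_df (K := K) e hp (Nat.le_add_left p k) Sg hSg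
    have h2 : oH H fun i => ((N + 1 : ℕ) : ℝ) * p * df Sg (M i) + C :=
      (oH.const_mul hH hdf (by positivity)).add (oH_const hH C)
    refine h2.mono ?_
    filter_upwards [hM] with i hi
    exact h1 (M i) hi
  have hds := dual_sizes hN Sg hSg hH (fun i v => cmp e (M i v)) hMc hdfc c' htw (η := η) z hz
    hzs μ hμ0 hμz
  have hadjm : ∀ i v, ((cmp e (Λ v)).adjugate.transpose).map (aeval (A.x (P i))) =
      (cmp e (M i v)).adjugate.transpose := by
    intro i v
    rw [adj_map_aeval, hcm]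
  have hN1 : (0 : ℝ) < N + 1 := by positivity
  have hg : 0 < ((N : ℝ) + 1) * η / 2 := by positivity
  have hfin := fun b => DESC A Γ hΓ hH P hPΓ hupp hPp Sg hSg (N * (p * D))
    (fun v => (cmp e (Λ v)).adjugate.transpose)
    (fun v hv a b => CQ_adj_homog (fun a b => cmp_hom e (Λ v) (hΛ v hv) a b) b a)
    (fun v hv => by
      filter_upwards [hMc] with i hi
      rw [← det_map_aeval, hadjm]
      exact adj_det_ne (hi v hv))
    (fun v a => - c' v a) (fun i => dz (z i) (μ i))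
    (by
      filter_upwards [hz, hμ0, hμz] with i g1 g2 g3
      exact dz_li g1 g2 g3) l₀
    (by
      filter_upwards [hμl] with i g1
      have h1 : dz (z i) (μ i) 0 = μ i := by
        unfold dz
        rw [if_pos rfl]
      rw [h1]
      exact g1)
    (((N : ℝ) + 1) * η / 2) hg
    (by
      filter_upwards [hds (((N : ℝ) + 1) * η / 4) (by positivity), ev_pos hH] with i g1 g2 s hs
      have h1 := g1.1
      have h2 := g1.2.2 s hs
      rw [sz_eq_sw, sz_eq_sw]
      simp only [hadjm]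
      nlinarith)
    (by
      intro δ hδ
      filter_upwards [hds (δ / (N + 1)) (by positivity), ev_pos hH] with i g1 g2
      simp only [sz_eq_sw, hadjm]
      have h2 : tw Sg (fun v a => - c' v a) = 0 := by
        have h3 : tw Sg (fun v a => - c' v a) = tw Sg (fun v a => c' v a * (- 1)) := by
          congr 1
          funext v a
          ring
        rw [h3, tw_smul, htw, zero_mul]
      rw [h2, zero_add, ← Finset.add_sum_erase _ _ (Finset.mem_univ 0)]
      have h3 := Finset.sum_le_card_nsmul (Finset.univ.erase (0 : Fin (N + 1)))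
        (fun s => gs (sw Sg (fun v a => - c' v a * H i)
          (fun v => (cmp e (M i v)).adjugate.transpose) (dz (z i) (μ i) s)))
        ((η + δ / (N + 1)) * H i) fun s hs => g1.2.1 s (Finset.mem_erase.1 hs).1
      rw [Finset.card_erase_of_mem (Finset.mem_univ _), Finset.card_univ, Fintype.card_fin,
        nsmul_eq_mul, Nat.add_sub_cancel] at h3
      have h4 := g1.1
      have h5 : (- (N * η) + δ / (N + 1)) * H i + N * ((η + δ / (N + 1)) * H i) = δ * H i := by
        field_simp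
        ring
      linarith)
    (fun b => by
      have h1 : ∀ i, dz (z i) (μ i) 0 = μ i := fun i => by
        unfold dz
        rw [if_pos rfl]
      simp only [h1]
      exact hrat b) b
  intro b
  have h1 : ∀ i, dz (z i) (μ i) 0 = μ i := fun i => by
    unfold dz
    rw [if_pos rfl]
  have h2 := hfin b
  simp only [hμdef] at h2
  exact h2

end Pool.Agent.Lib.MP_17a322_nt.SL
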