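import Pool.Agent.Lib.MP_17a322_nt.SL.G7a
import Pool.Agent.Lib.MP_17a322_nt.SL.CM1

/-!
Jacobi's complementary minors.
-/

universe u

namespace Pool.Agent.Lib.MP_17a322_nt.SL

open Matrix

/-- Jacobi's complementary minor in block form. -/
theorem jacobi {R m n : Type*} [CommRing R] [Fintype m] [DecidableEq m] [Fintype n]
    [DecidableEq n] (B C : Matrix (m ⊕ n) (m ⊕ n) R) (h : B * C = 1) :
    B.toBlocks₁₁.det = B.det * C.toBlocks₂₂.det := by
  have h1 : B * fromBlocks 1 C.toBlocks₁₂ 0 C.toBlocks₂₂ =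
      fromBlocks B.toBlocks₁₁ 0 B.toBlocks₂₁ 1 := by
    have h2 : fromBlocks B.toBlocks₁₁ B.toBlocks₁₂ B.toBlocks₂₁ B.toBlocks₂₂ *
        fromBlocks C.toBlocks₁₁ C.toBlocks₁₂ C.toBlocks₂₁ C.toBlocks₂₂ = fromBlocks 1 0 0 1 := by
      rw [fromBlocks_toBlocks, fromBlocks_toBlocks, h, fromBlocks_one]
    rw [fromBlocks_multiply] at h2
    have h3 := fromBlocks_inj.1 h2
    conv_lhs => rw [← fromBlocks_toBlocks B]
    rw [fromBlocks_multiply]
    simp only [Matrix.mul_one, Matrix.mul_zero, add_zero]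
    rw [h3.2.1, h3.2.2.2]
  have h2 := congrArg Matrix.det h1
  rw [det_mul, det_fromBlocks_zero₂₁, det_fromBlocks_zero₁₂, det_one, one_mul, det_one,
    mul_one] at h2
  exact h2.symm

/-- The minors of the first rows and the minors of the last columns of the inverse matrix. -/
theorem jacobi_minor {K : Type*} [Field K] {k p : ℕ} (I : Fin k → Fin (k + p))
    (f : Fin p → Fin (k + p)) (hI : Function.Bijective (Sum.elim I f)) :
    ∃ u : K, ∀ Y : Matrix (Fin (k + p)) (Fin (k + p)) K, Y.det ≠ 0 →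
      (Y.submatrix (Fin.castAdd p) I).det = u * (Y.det * (Y⁻¹.submatrix f (Fin.natAdd k)).det) := by
  classical
  obtain ⟨ρ, hρ⟩ : ∃ ρ : Fin k ⊕ Fin p ≃ Fin (k + p), ρ = Equiv.ofBijective _ hI := ⟨_, rfl⟩
  refine ⟨((Equiv.Perm.sign (finSumFinEquiv.symm.trans ρ : Equiv.Perm (Fin (k + p))) : ℤ) : K),
    fun Y hY => ?_⟩
  have hinv : Y * Y⁻¹ = 1 := mul_nonsing_inv _ (isUnit_iff_ne_zero.2 hY)
  have h1 : Y.submatrix finSumFinEquiv ρ * Y⁻¹.submatrix ρ finSumFinEquiv = 1 := by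
    rw [submatrix_mul_equiv, hinv, submatrix_one_equiv]
  have h2 := jacobi _ _ h1
  have h3 : (Y.submatrix finSumFinEquiv ρ).toBlocks₁₁ = Y.submatrix (Fin.castAdd p) I := by
    ext a b
    show Y (finSumFinEquiv (Sum.inl a)) (ρ (Sum.inl b)) = Y (Fin.castAdd p a) (I b)
    rw [hρ, finSumFinEquiv_apply_left]
    rfl
  have h4 : (Y⁻¹.submatrix ρ finSumFinEquiv).toBlocks₂₂ =
      Y⁻¹.submatrix f (Fin.natAdd k) := by
    ext a b
    show Y⁻¹ (ρ (Sum.inr a)) (finSumFinEquiv (Sum.inr b)) = Y⁻¹ (f a) (Fin.natAdd k b)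
    rw [hρ, finSumFinEquiv_apply_right]
    rfl
  rw [h3, h4] at h2
  have h5 : (Y.submatrix finSumFinEquiv ρ).det =
      ((Equiv.Perm.sign (finSumFinEquiv.symm.trans ρ : Equiv.Perm (Fin (k + p))) : ℤ) : K) *
        Y.det := by
    have h6 : Y.submatrix finSumFinEquiv ρ =
        (Y.submatrix id (finSumFinEquiv.symm.trans ρ)).submatrix finSumFinEquiv
          finSumFinEquiv := by
      ext a b
      simp
    rw [h6, det_submatrix_equiv_self, det_permute']
  rw [h2, h5, mul_assoc]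

/-- The set of the last elements, enumerated. -/
theorem idx_top (k p : ℕ) :
    Set.powersetCard.ofFinEmbEquiv.symm (topS k p) = Fin.natAddOrderEmb k := by
  rw [Equiv.symm_apply_eq]
  refine Subtype.ext (Finset.ext fun j => ?_)
  have h1 : j ∈ (topS k p : Finset (Fin (k + p))) ↔ k ≤ j.val := mem_topS j
  have h2 : j ∈ (Set.powersetCard.ofFinEmbEquiv (Fin.natAddOrderEmb (m := p) k)) ↔
      j ∈ Set.range (Fin.natAddOrderEmb (m := p) k) :=
    Set.powersetCard.mem_ofFinEmbEquiv_iff_mem_range _ _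
  refine h1.trans (Iff.trans ?_ h2.symm)
  constructor
  · intro h
    exact ⟨⟨j.val - k, by have := j.2; omega⟩, Fin.ext (by simp; omega)⟩
  · rintro ⟨i, rfl⟩
    simp

/-- The complementary subset. -/
theorem exists_compl {k p : ℕ} (I : Fin k → Fin (k + p)) (hI : Function.Injective I) :
    ∃ T : Set.powersetCard (Fin (k + p)) p,
      Function.Bijective (Sum.elim I (Set.powersetCard.ofFinEmbEquiv.symm T)) := by
  classical
  obtain ⟨T, hT⟩ : ∃ T : Finset (Fin (k + p)), T = (Finset.univ.image I)ᶜ := ⟨_, rfl⟩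
  have hc : T.card = p := by
    rw [hT, Finset.card_compl, Fintype.card_fin, Finset.card_image_of_injective _ hI,
      Finset.card_univ, Fintype.card_fin, Nat.add_sub_cancel_left]
  obtain ⟨T', hT'⟩ : ∃ T' : Set.powersetCard (Fin (k + p)) p, T' = ⟨T, hc⟩ := ⟨_, rfl⟩
  have hmem : ∀ j, j ∈ Set.range (Set.powersetCard.ofFinEmbEquiv.symm T') ↔
      j ∉ Set.range I := by
    intro j
    rw [Set.powersetCard.mem_range_ofFinEmbEquiv_symm_iff_mem, hT']
    show j ∈ T ↔ _
    rw [hT]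
    simp
  refine ⟨T', ?_⟩
  rw [Fintype.bijective_iff_injective_and_card]
  refine ⟨?_, by simp⟩
  rw [Function.Injective.eq_1]
  rintro (a | a) (b | b) hab
  · exact congrArg Sum.inl (hI hab)
  · exact absurd ⟨a, hab⟩ ((hmem _).1 ⟨b, rfl⟩)
  · exact absurd ⟨b, hab.symm⟩ ((hmem _).1 ⟨a, rfl⟩)
  · exact congrArg Sum.inr ((Set.powersetCard.ofFinEmbEquiv.symm T').injective hab)

/-- The minors of the first rows are the last coordinates of the inverse of the compound
matrix. -/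
theorem minor_cmp {K : Type*} [Field K] {k p N : ℕ}
    (e : Fin (N + 1) ≃ Set.powersetCard (Fin (k + p)) p) (he : e (Fin.last N) = topS k p)
    (I : Fin k → Fin (k + p)) :
    ∃ (b : Fin (N + 1)) (u : K), ∀ Y : Matrix (Fin (k + p)) (Fin (k + p)) K, Y.det ≠ 0 →
      (Y.submatrix (Fin.castAdd p) I).det = u * (Y.det * cmp e Y⁻¹ b (Fin.last N)) := by
  classical
  by_cases hI : Function.Injective I
  · obtain ⟨T, hT⟩ := exists_compl I hI
    obtain ⟨u, hu⟩ := jacobi_minor (K := K) I _ hT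
    refine ⟨e.symm T, u, fun Y hY => ?_⟩
    rw [hu Y hY]
    unfold cmp
    rw [Matrix.of_apply, Equiv.apply_symm_apply, he, idx_top]
    rfl
  · refine ⟨Fin.last N, 0, fun Y _ => ?_⟩
    rw [Function.Injective] at hI
    push Not at hI
    obtain ⟨a, b, hab, hne⟩ := hI
    rw [zero_mul]
    exact Matrix.det_zero_of_column_eq hne fun l => by simp [hab]

end Pool.Agent.Lib.MP_17a322_nt.SL
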