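import Pool.Agent.Lib.MP_17a322_nt.SL.G8c
import Pool.Agent.Lib.MP_17a322_nt.SL.G9a

/-!
A subspace which belongs to a gap of the successive minima is algebraic over `K(p)`.
-/

universe u

namespace Pool.Agent.Lib.MP_17a322_nt.SL

open MvPolynomial Height NumberField Filter
open Pool.Agent.Lib.MP_17a322_nt.RO
open Pool.Agent.Lib.MP_17a322_nt.VJ
open Pool.Agent.Lib.MP_17a322_nt.VN hiding lf
open Pool.Agent.Lib.MP_17a322_nt.VA
open Pool.Agent.Lib.MP_17a322_nt.VP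

/-- GT: a subspace which belongs to a gap of the successive minima is algebraic over `K(p)`. -/
theorem GT {K : Type u} [Field K] [NumberField K] {N : ℕ} (A : AV K N)
    (Γ : AddSubgroup (A.Pts K)) (hΓ : Γ.FG) {H : ℕ → ℝ}
    (hH : Tendsto H (hyperfilter ℕ : Filter ℕ) atTop) (P : ℕ → A.Pts K) (hPΓ : ∀ i, P i ∈ Γ)
    (hupp : ∃ C : ℝ, 0 < C ∧ ∀ᶠ i in (hyperfilter ℕ : Filter ℕ), A.h (P i) ≤ C * H i)
    {p : A.Pts (GK K)} (hPp : IsGerm A P p)
    (Sg : Finset (AbsoluteValue K ℝ)) (hSg : ∀ v ∈ Sg, Pl v)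
    (hinf : ∀ v : NumberField.InfinitePlace K, v.val ∈ Sg) {q : ℕ} (D : ℕ)
    (Λ : AbsoluteValue K ℝ → Matrix (Fin q) (Fin q) (MvPolynomial (Fin (N + 1)) K))
    (hΛ : ∀ v ∈ Sg, ∀ k l, (Λ v k l).IsHomogeneous D)
    (hdet : ∀ v ∈ Sg, ∀ᶠ i in (hyperfilter ℕ : Filter ℕ), aeval (A.x (P i)) (Λ v).det ≠ 0)
    (c : AbsoluteValue K ℝ → Fin q → ℝ) (y : ℕ → Fin q → Fin q → K) (s : ℕ → Fin q → ℝ)
    (hMn : ∀ᶠ i in (hyperfilter ℕ : Filter ℕ), Mn Sg (fun v k => c v k * H i)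
      (fun v => (Λ v).map (aeval (A.x (P i)))) 1 (y i) (s i))
    {k : ℕ} (hk0 : 0 < k) (hkq : k < q) (α β : ℝ) (hαβ : α < β)
    (hα : ∀ᶠ i in (hyperfilter ℕ : Filter ℕ), ∀ j : Fin q, (j : ℕ) < k → s i j ≤ α * H i)
    (hβ : ∀ᶠ i in (hyperfilter ℕ : Filter ℕ), ∀ j : Fin q, k ≤ (j : ℕ) → β * H i ≤ s i j)
    (I J : Fin k → Fin q) :
    IsAlgebraic (IntermediateField.adjoin K (Set.range (rt (A.x p))))
      (gm fun i => (Matrix.of fun a b : Fin k => y i (Fin.castLE hkq.le a) (I b)).det /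
        (Matrix.of fun a b : Fin k => y i (Fin.castLE hkq.le a) (J b)).det) := by
  classical
  obtain ⟨r, rfl⟩ : ∃ r, q = k + r := ⟨q - k, by omega⟩
  have hr : 0 < r := by omega
  have hM : ∀ᶠ i in (hyperfilter ℕ : Filter ℕ), ∀ v ∈ Sg,
      ((Λ v).map (aeval (A.x (P i)))).det ≠ 0 := by
    rw [eventually_all_finset]
    intro v hv
    filter_upwards [hdet v hv] with i hi
    rw [det_map_aeval]
    exact hi
  have hdf := df_oH Γ hΓ hH hPΓ hupp hPp Sg hSg (by omega) D Λ hΛ hdet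
  obtain ⟨σ, hmono, hσ, hlim, hMσ⟩ := lim_MS (by omega) Sg hSg hinf hH c
    (fun i v => (Λ v).map (aeval (A.x (P i)))) hM hdf y s hMn
  have hσα : ∀ j : Fin (k + r), j.val < k → σ j ≤ α := by
    intro j hj
    refine lim_le hH fun ε hε => ?_
    filter_upwards [hlim ε hε, hα] with i g1 g2
    have g3 := abs_le.1 (g1 j)
    have g4 := g2 j hj
    linarith
  have hσβ : ∀ j : Fin (k + r), k ≤ j.val → β ≤ σ j := by
    intro j hj
    refine lim_le hH fun ε hε => ?_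
    filter_upwards [hlim ε hε, hβ] with i g1 g2
    have g3 := abs_le.1 (g1 j)
    have g4 := g2 j hj
    linarith
  obtain ⟨N', e, l₀, he, hl₀, halg⟩ := GT1 A Γ hΓ hH P hPΓ hupp hPp Sg hSg hinf hk0 hr D Λ hΛ
    hdet c y σ hσ hMσ hαβ hσα hσβ
  obtain ⟨a, u, hu⟩ := minor_cmp (K := K) e he I
  obtain ⟨b, w, hw⟩ := minor_cmp (K := K) e he J
  have hgm : (gm fun i => (Matrix.of fun a b : Fin k => y i (Fin.castLE hkq.le a) (I b)).det /
        (Matrix.of fun a b : Fin k => y i (Fin.castLE hkq.le a) (J b)).det) =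
      gm fun i => (u * (cmp e (Matrix.of (y i))⁻¹ a (Fin.last N') /
          cmp e (Matrix.of (y i))⁻¹ l₀ (Fin.last N'))) /
        (w * (cmp e (Matrix.of (y i))⁻¹ b (Fin.last N') /
          cmp e (Matrix.of (y i))⁻¹ l₀ (Fin.last N'))) := by
    rw [gm_eq_iff]
    filter_upwards [hMn, hl₀] with i g1 g2
    have hd := det_of_li g1.li
    have h1 : (Matrix.of fun a b : Fin k => y i (Fin.castLE hkq.le a) (I b)).det =
        u * ((Matrix.of (y i)).det * cmp e (Matrix.of (y i))⁻¹ a (Fin.last N')) := hu _ hd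
    have h2 : (Matrix.of fun a b : Fin k => y i (Fin.castLE hkq.le a) (J b)).det =
        w * ((Matrix.of (y i)).det * cmp e (Matrix.of (y i))⁻¹ b (Fin.last N')) := hw _ hd
    rw [h1, h2]
    have h3 : ∀ (x z : K), x * ((Matrix.of (y i)).det * z) =
        ((Matrix.of (y i)).det * cmp e (Matrix.of (y i))⁻¹ l₀ (Fin.last N')) *
          (x * (z / cmp e (Matrix.of (y i))⁻¹ l₀ (Fin.last N'))) := by
      intro x z
      field_simp
    rw [h3 u, h3 w, mul_div_mul_left _ _ (mul_ne_zero hd g2)]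
  rw [hgm, gm_div]
  have hc : ∀ (z : K) (d : Fin (N' + 1)),
      IsAlgebraic (IntermediateField.adjoin K (Set.range (rt (A.x p))))
        (gm fun i => z * (cmp e (Matrix.of (y i))⁻¹ d (Fin.last N') /
          cmp e (Matrix.of (y i))⁻¹ l₀ (Fin.last N'))) := by
    intro z d
    rw [gm_mul, gm_const]
    refine IsAlgebraic.mul ?_ (halg d)
    rw [IsScalarTower.algebraMap_apply K
      (IntermediateField.adjoin K (Set.range (rt (A.x p)))) (GK K)]
    exact isAlgebraic_algebraMap _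
  rw [div_eq_mul_inv]
  exact (hc u a).mul (hc w b).inv

end Pool.Agent.Lib.MP_17a322_nt.SL
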