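import Pool.Agent.Lib.MP_17a322_nt.SL.Defs

/-!
Geometry of numbers up to bounded factors over a number field: definitions.
-/

universe u

namespace Pool.Agent.Lib.MP_17a322_nt.SL

open MvPolynomial Height
open Pool.Agent.Lib.MP_17a322_nt.RO
open Pool.Agent.Lib.MP_17a322_nt.VJ

/-- The multiplicity of a place in `gs`. -/
noncomputable def nv {K : Type*} [Field K] [AdmissibleAbsValues K] (v : AbsoluteValue K ℝ) : ℕ :=
  open Classical in
  AdmissibleAbsValues.archAbsVal.count v +
    if v ∈ AdmissibleAbsValues.nonarchAbsVal (K := K) then 1 else 0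

/-- The largest absolute value of the entries. -/
noncomputable def mx {K : Type*} [Field K] {q : ℕ} (v : AbsoluteValue K ℝ)
    (M : Matrix (Fin q) (Fin q) K) : ℝ :=
  ⨆ p : Fin q × Fin q, v (M p.1 p.2)

/-- The local size with weights `c` (`sz` with `h` absorbed into the weights). -/
noncomputable def sw {K : Type*} [Field K] {q : ℕ} (Sg : Finset (AbsoluteValue K ℝ))
    (c : AbsoluteValue K ℝ → Fin q → ℝ) (M : AbsoluteValue K ℝ → Matrix (Fin q) (Fin q) K)
    (y : Fin q → K) (v : AbsoluteValue K ℝ) : ℝ :=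
  open Classical in
  if v ∈ Sg then Real.log (⨆ k, v ((M v).mulVec y k) * Real.exp (c v k)) -
    Real.log (mx v (M v)) else Real.log (⨆ l, v (y l))

theorem sz_eq_sw {K : Type*} [Field K] {q : ℕ} (Sg : Finset (AbsoluteValue K ℝ))
    (c : AbsoluteValue K ℝ → Fin q → ℝ) (h : ℝ)
    (M : AbsoluteValue K ℝ → Matrix (Fin q) (Fin q) K) (y : Fin q → K) :
    sz Sg c h M y = sw Sg (fun v k => c v k * h) M y := rfl

/-- The defect of the forms at the places in `Sg`. -/
noncomputable def df {K : Type*} [Field K] [AdmissibleAbsValues K] {q : ℕ}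
    (Sg : Finset (AbsoluteValue K ℝ)) (M : AbsoluteValue K ℝ → Matrix (Fin q) (Fin q) K) : ℝ :=
  open Classical in
  gs fun v => if v ∈ Sg then q * Real.log (mx v (M v)) - Real.log (v (M v).det) else 0

/-- The vectors `y j` are successive minima up to `θ`: `s j` is the size of `y j` and a lower bound for the
size of the vectors outside the span of `y i`, `i < j`. -/
structure Mn {K : Type*} [Field K] [AdmissibleAbsValues K] {q : ℕ}
    (Sg : Finset (AbsoluteValue K ℝ)) (c : AbsoluteValue K ℝ → Fin q → ℝ)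
    (M : AbsoluteValue K ℝ → Matrix (Fin q) (Fin q) K) (θ : ℝ) (y : Fin q → Fin q → K)
    (s : Fin q → ℝ) : Prop where
  li : LinearIndependent K y
  mono : Monotone s
  up : ∀ j, gs (sw Sg c M (y j)) ≤ s j + θ
  low : ∀ j (z : Fin q → K), z ∉ Submodule.span K (y '' {i | i < j}) →
    s j ≤ gs (sw Sg c M z) + θ

/-- The weights `c` with `ρ (π⁻¹ k)` added to the weight of the `k`-th form at `v₀` (divided by the
multiplicity of the place). -/
noncomputable def twc {K : Type*} [Field K] [AdmissibleAbsValues K] {q : ℕ}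
    (v₀ : AbsoluteValue K ℝ) (π : Equiv.Perm (Fin q)) (ρ : Fin q → ℝ)
    (c : AbsoluteValue K ℝ → Fin q → ℝ) : AbsoluteValue K ℝ → Fin q → ℝ :=
  open Classical in
  fun v k => if v = v₀ then c v k + ρ (π.symm k) / nv v₀ else c v k

/-- The compound matrix: the minors of order `p`. The index set is `Fin N` through `e`. -/
noncomputable def cmp {R : Type*} [CommRing R] {q p N : ℕ}
    (e : Fin N ≃ Set.powersetCard (Fin q) p) (M : Matrix (Fin q) (Fin q) R) :
    Matrix (Fin N) (Fin N) R :=
  Matrix.of fun a b => (M.submatrix (Set.powersetCard.ofFinEmbEquiv.symm (e a))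
    (Set.powersetCard.ofFinEmbEquiv.symm (e b))).det

/-- The weights of the compound forms. -/
noncomputable def cL {K : Type*} [Field K] {q p N : ℕ} (e : Fin N ≃ Set.powersetCard (Fin q) p)
    (c : AbsoluteValue K ℝ → Fin q → ℝ) : AbsoluteValue K ℝ → Fin N → ℝ :=
  fun v a => ∑ k ∈ (e a : Finset (Fin q)), c v k

end Pool.Agent.Lib.MP_17a322_nt.SL
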