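import Pool.Agent.Lib.MP_17a322_nt.Mb

/-!
Geometry of numbers: cells at one place of a number field.
-/

universe u

namespace Pool.Agent.Lib.MP_17a322_nt.SL

open NumberField IsDedekindDomain

section

variable {K : Type*} [Field K] [NumberField K]

theorem GN_one_lt (v : FinitePlace K) : 1 < (Ideal.absNorm v.maximalIdeal.asIdeal : ℝ) := by
  exact_mod_cast NumberField.HeightOneSpectrum.one_lt_absNorm v.maximalIdeal

/-- The absolute value of an integer and the powers of the prime. -/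
theorem GN_val (v : FinitePlace K) {x : 𝓞 K} (hx : x ≠ 0) :
    ∃ m : ℕ, v (x : K) = ((Ideal.absNorm v.maximalIdeal.asIdeal : ℝ) ^ m)⁻¹ ∧
      ∀ n, x ∈ v.maximalIdeal.asIdeal ^ n ↔ n ≤ m := by
  have h1 := FinitePlace.apply_mul_absNorm_pow_eq_one v hx
  have hfin : FiniteMultiplicity v.maximalIdeal.asIdeal (Ideal.span {x}) :=
    FiniteMultiplicity.of_prime_left
      (Ideal.prime_of_isPrime v.maximalIdeal.ne_bot v.maximalIdeal.isPrime)
      (mt Submodule.span_singleton_eq_bot.mp hx)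
  refine ⟨_, eq_inv_of_mul_eq_one_left h1, fun n => ?_⟩
  rw [← hfin.pow_dvd_iff_le_multiplicity, Ideal.dvd_iff_le, Ideal.span_singleton_le_iff_mem]

/-- Powers of the prime and the absolute value. -/
theorem GN_mem_pow (v : FinitePlace K) (x : 𝓞 K) (n : ℕ) :
    x ∈ v.maximalIdeal.asIdeal ^ n ↔
      v (x : K) ≤ ((Ideal.absNorm v.maximalIdeal.asIdeal : ℝ) ^ n)⁻¹ := by
  have hN := GN_one_lt v
  rcases eq_or_ne x 0 with rfl | hx
  · simp only [zero_mem, map_zero, true_iff]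
    positivity
  · obtain ⟨m, h1, h2⟩ := GN_val v hx
    rw [h1, h2, inv_le_inv₀ (by positivity) (by positivity), pow_le_pow_iff_right₀ hN]

/-- Approximation of a quotient by an integer. -/
theorem GN_approx (v : FinitePlace K) {a b : 𝓞 K} (hb : b ≠ 0) (hab : v (a : K) ≤ v (b : K))
    (n : ℕ) : ∃ z : 𝓞 K, v ((a : K) - b * z) ≤
      v (b : K) * ((Ideal.absNorm v.maximalIdeal.asIdeal : ℝ) ^ n)⁻¹ := by
  have hN := GN_one_lt v
  have := v.maximalIdeal.isPrime
  obtain ⟨m, hm, hm'⟩ := GN_val v hb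
  have key : ∃ z : 𝓞 K, a - b * z ∈ v.maximalIdeal.asIdeal ^ (m + n) := by
    induction n with
    | zero =>
      refine ⟨0, ?_⟩
      rw [mul_zero, sub_zero, add_zero, GN_mem_pow, ← hm]
      exact hab
    | succ n ih =>
      obtain ⟨z, hz⟩ := ih
      obtain ⟨π, h1, h2⟩ := Ideal.exists_mem_pow_notMem_pow_succ v.maximalIdeal.asIdeal
        v.maximalIdeal.ne_bot (Ideal.IsPrime.ne_top') n
      have h3 : b * π ∈ v.maximalIdeal.asIdeal ^ (m + n) := by
        rw [pow_add]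
        exact Ideal.mul_mem_mul ((hm' m).2 le_rfl) h1
      have h4 : b * π ∉ v.maximalIdeal.asIdeal ^ (m + n + 1) := by
        rw [GN_mem_pow, not_le] at h2 ⊢
        have h5 : v ((b * π : 𝓞 K) : K) = v (b : K) * v (π : K) := by
          have h6 : ((b * π : 𝓞 K) : K) = (b : K) * π := map_mul (algebraMap (𝓞 K) K) _ _
          rw [h6, map_mul]
        rw [h5, hm, add_assoc, pow_add, mul_inv]
        exact mul_lt_mul_of_pos_left h2 (by positivity)
      obtain ⟨d, e, he, hde⟩ := Ideal.exists_mul_add_mem_pow_succ v.maximalIdeal.ne_bot (b * π)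
        (a - b * z) h3 h4 hz
      refine ⟨z + π * d, ?_⟩
      have h5 : a - b * (z + π * d) = e := by
        linear_combination - hde
      rw [h5]
      exact he
  obtain ⟨z, hz⟩ := key
  refine ⟨z, ?_⟩
  rw [GN_mem_pow, pow_add, mul_inv, ← hm] at hz
  exact hz

/-- The number of residue classes. -/
theorem GN_card (v : FinitePlace K) (n : ℕ) :
    Nat.card (𝓞 K ⧸ v.maximalIdeal.asIdeal ^ n) = Ideal.absNorm v.maximalIdeal.asIdeal ^ n := by
  rw [← map_pow]
  rfl

/-- Cells at a finite place. -/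
theorem GN_cell_fin (v : FinitePlace K) :
    ∃ C : ℝ, 1 ≤ C ∧ ∀ R ρ : ℝ, 0 < ρ → ρ ≤ R → ∃ (n : ℕ) (c : K → Fin (n + 1)),
      ((n + 1 : ℕ) : ℝ) ≤ C * (R / ρ) ∧
      ∀ y y', v y ≤ R → v y' ≤ R → c y = c y' → v (y - y') ≤ ρ := by
  classical
  obtain ⟨N, hN⟩ : ∃ N : ℕ, N = Ideal.absNorm v.maximalIdeal.asIdeal := ⟨_, rfl⟩
  have hN1 : 1 < (N : ℝ) := by
    rw [hN]
    exact GN_one_lt v
  have hN0 : 0 < (N : ℝ) := by linarith
  refine ⟨(N : ℝ) ^ 2, one_le_pow₀ hN1.le, fun R ρ hρ hR => ?_⟩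
  have hR0 : 0 < R := hρ.trans_le hR
  -- an element of absolute value about `R`
  have hun : ∃ π : K, v π = (N : ℝ)⁻¹ := by
    obtain ⟨π, h1, h2⟩ := Ideal.exists_mem_pow_notMem_pow_succ v.maximalIdeal.asIdeal
      v.maximalIdeal.ne_bot (Ideal.IsPrime.ne_top') 1
    have h0 : π ≠ 0 := by
      rintro rfl
      exact h2 (zero_mem _)
    obtain ⟨m, h3, h4⟩ := GN_val v h0
    have h5 := (h4 1).1 h1
    have h6 : ¬ 2 ≤ m := fun h => h2 ((h4 2).2 h)
    have h7 : m = 1 := by omega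
    exact ⟨π, by rw [h3, h7, pow_one, hN]⟩
  obtain ⟨π, hπ⟩ := hun
  obtain ⟨e, he, he'⟩ := exists_mem_Ioc_zpow hR0 hN1
  have hc : v (π ^ (-(e + 1))) = (N : ℝ) ^ (e + 1) := by
    rw [map_zpow₀, hπ, zpow_neg, inv_zpow, inv_inv]
  obtain ⟨c, hc0⟩ : ∃ c : K, c = π ^ (-(e + 1)) := ⟨_, rfl⟩
  rw [← hc0] at hc
  have hcpos : 0 < v c := by
    rw [hc]
    positivity
  have hcne : c ≠ 0 := FinitePlace.pos_iff.1 hcpos
  have hcR : v c ≤ N * R := by
    rw [hc, zpow_add₀ hN0.ne', zpow_one, mul_comm]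
    exact mul_le_mul_of_nonneg_left he.le hN0.le
  have hcR' : R ≤ v c := by
    rw [hc]
    exact he'
  -- the exponent
  obtain ⟨n, hn, hn'⟩ : ∃ n : ℕ, v c / ρ ≤ (N : ℝ) ^ n ∧ (N : ℝ) ^ n ≤ N * (v c / ρ) := by
    have h1 : 1 ≤ v c / ρ := by
      rw [one_le_div hρ]
      linarith
    obtain ⟨k, h2, h3⟩ := exists_nat_pow_near h1 hN1
    refine ⟨k + 1, h3.le, ?_⟩
    rw [pow_succ, mul_comm]
    exact mul_le_mul_of_nonneg_left h2 hN0.le
  have hcard := GN_card v n
  rw [← hN] at hcard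
  have hfin : Finite (𝓞 K ⧸ v.maximalIdeal.asIdeal ^ n) :=
    Nat.finite_of_card_ne_zero (by
      rw [hcard]
      exact pow_ne_zero _ (fun h => by
        rw [h] at hN0
        simp at hN0))
  obtain ⟨k, hk⟩ : ∃ k : ℕ, N ^ n = k + 1 :=
    ⟨N ^ n - 1, (Nat.sub_add_cancel (Nat.one_le_pow _ _ (by exact_mod_cast hN0))).symm⟩
  have eqv : (𝓞 K ⧸ v.maximalIdeal.asIdeal ^ n) ≃ Fin (k + 1) :=
    Finite.equivFinOfCardEq (by rw [hcard, hk])
  -- approximations
  have happ : ∀ y : K, ∃ z : 𝓞 K, v y ≤ R → v (y / c - z) ≤ ((N : ℝ) ^ n)⁻¹ := by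
    intro y
    by_cases hy : v y ≤ R
    · obtain ⟨a, b, hb, hab⟩ := IsFractionRing.div_surjective (A := 𝓞 K) (y / c)
      have hb0 : b ≠ 0 := nonZeroDivisors.ne_zero hb
      have hbK : (b : K) ≠ 0 := by exact_mod_cast hb0
      have hbv : 0 < v (b : K) := FinitePlace.pos_iff.2 hbK
      have hab' : (a : K) = b * (y / c) := by
        rw [← hab]
        field_simp
      have h1 : v (a : K) ≤ v (b : K) := by
        rw [hab', map_mul, map_div₀]
        have h2 : v y / v c ≤ 1 := by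
          rw [div_le_one hcpos]
          linarith
        exact mul_le_of_le_one_right hbv.le h2
      obtain ⟨z, hz⟩ := GN_approx v hb0 h1 n
      refine ⟨z, fun _ => ?_⟩
      rw [← hN, hab', ← mul_sub, map_mul] at hz
      exact le_of_mul_le_mul_left hz hbv
    · exact ⟨0, fun h => absurd h hy⟩
  choose z hz using happ
  refine ⟨k, fun y => eqv (Ideal.Quotient.mk _ (z y)), ?_, fun y y' hy hy' hyy => ?_⟩
  · rw [← hk]
    push_cast
    refine hn'.trans ?_
    rw [pow_two, mul_assoc]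
    refine mul_le_mul_of_nonneg_left ?_ hN0.le
    rw [mul_div_assoc', div_le_div_iff_of_pos_right hρ]
    exact hcR
  · have h1 : z y - z y' ∈ v.maximalIdeal.asIdeal ^ n := by
      rw [← Ideal.Quotient.eq]
      exact eqv.injective hyy
    rw [GN_mem_pow, ← hN] at h1
    have h2 : ((z y - z y' : 𝓞 K) : K) = (z y : K) - z y' := map_sub _ _ _
    rw [h2] at h1
    have hna : ∀ a b : K, v (a + b) ≤ max (v a) (v b) := fun a b => FinitePlace.add_le v a b
    have h3 : (y - y') / c = ((y / c - z y) + (z y - z y')) + -(y' / c - z y') := by ring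
    have h4 : v ((y - y') / c) ≤ ((N : ℝ) ^ n)⁻¹ := by
      rw [h3]
      refine (hna _ _).trans (max_le ((hna _ _).trans (max_le (hz y hy) h1)) ?_)
      have h5 : v (-(y' / c - z y')) = v (y' / c - z y') := v.val.map_neg _
      rw [h5]
      exact hz y' hy'
    rw [map_div₀, div_le_iff₀ hcpos] at h4
    refine h4.trans ?_
    rw [inv_mul_le_iff₀ (by positivity)]
    rwa [div_le_iff₀ hρ] at hn

end

end Pool.Agent.Lib.MP_17a322_nt.SL
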