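import Pool.Agent.Lib.MP_17a322_nt.SL.Defs

/-!
Block homogeneity of the values of the auxiliary polynomial.
-/

universe u

namespace Pool.Agent.Lib.MP_17a322_nt.SL

open MvPolynomial Height
open Pool.Agent.Lib.MP_17a322_nt.RO
open Pool.Agent.Lib.MP_17a322_nt.VJ
open Pool.Agent.Lib.MP_17a322_nt.VN
open Pool.Agent.Lib.MP_17a322_nt.VA
open Pool.Agent.Lib.MP_17a322_nt.VP

section

variable {K : Type u} [Field K] {N : ℕ} {A : AV K N} {n e : ℕ} (nd : Noe A n e)

/-- If `F` has degree `k i` in the block `u (i, ·)`, then its value at linear forms in the variables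
`X (i, ·)` has degree `k i` in this block. -/
theorem hom_block {m q : ℕ} {τ : Type*} [Fintype τ] {R : Type*} [CommRing R] [Algebra K R]
    (Y : Fin (N + 1) → R) (η : Fin m → Fin (N + 1) → R) (a : Fin m × Fin q → τ → R)
    {F : MvPolynomial (VQ m n q) K} {k : Fin m → ℕ}
    (hF : ∀ w ∈ F.support, ∀ i, ∑ l, w (VQ.u (i, l)) = k i) (w : Fin m × τ →₀ ℕ)
    (hw : coeff w (aeval (vM nd (fun b => (C (Y b) : MvPolynomial (Fin m × τ) R))
      (fun i b => C (η i b)) fun p => ∑ s, C (a p s) * X (p.1, s)) F) ≠ 0) (i : Fin m) :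
    ∑ s, w (i, s) = k i := by
  classical
  obtain ⟨wt, hwt⟩ : ∃ wt : Fin m × τ → ℕ, wt = fun p => if p.1 = i then 1 else 0 := ⟨_, rfl⟩
  obtain ⟨g, hg⟩ : ∃ g : VQ m n q → MvPolynomial (Fin m × τ) R, g =
    vM nd (fun b => (C (Y b) : MvPolynomial (Fin m × τ) R))
      (fun i b => C (η i b)) fun p => ∑ s, C (a p s) * X (p.1, s) := ⟨_, rfl⟩
  rw [← hg] at hw
  -- the weights of the variables
  obtain ⟨d, hd⟩ : ∃ d : VQ m n q → ℕ, d = fun
    | VQ.x _ => 0
    | VQ.th _ => 0
    | VQ.z _ => 0
    | VQ.u p => if p.1 = i then 1 else 0 := ⟨_, rfl⟩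
  have h1 : ∀ t, IsWeightedHomogeneous wt (g t) (d t) := by
    have hC : ∀ r : R, IsWeightedHomogeneous wt (C r : MvPolynomial (Fin m × τ) R) 0 := fun r =>
      isWeightedHomogeneous_C wt r
    have hex : ∀ (P : MvPolynomial (Fin (N + 1)) K) (y : Fin (N + 1) → R),
        aeval (fun b => (C (y b) : MvPolynomial (Fin m × τ) R)) P = C (aeval y P) := by
      intro P y
      have h2 := comp_aeval_apply y (Algebra.ofId R (MvPolynomial (Fin m × τ) R) |>.restrictScalars K) P
      exact h2.symm
    have hlf : ∀ (c : Fin (N + 1) → K) (y : Fin (N + 1) → R),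
        lf c (fun b => (C (y b) : MvPolynomial (Fin m × τ) R)) = C (lf c y) := by
      intro c y
      unfold lf
      rw [map_sum]
      refine Finset.sum_congr rfl fun b _ => ?_
      rw [C_mul]
      rfl
    intro t
    rw [hg, hd]
    rcases t with t | t | t | t
    · show IsWeightedHomogeneous wt (lf (nd.l t.succ) fun b => C (Y b)) 0
      rw [hlf]
      exact hC _
    · show IsWeightedHomogeneous wt (aeval (fun b => (C (η t b) : MvPolynomial (Fin m × τ) R)) nd.θ) 0
      rw [hex]
      exact hC _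
    · show IsWeightedHomogeneous wt (lf (nd.l t.2.succ) fun b => C (η t.1 b)) 0
      rw [hlf]
      exact hC _
    · show IsWeightedHomogeneous wt (∑ s, C (a t s) * X (t.1, s)) (if t.1 = i then 1 else 0)
      refine IsWeightedHomogeneous.sum _ _ _ fun s _ => ?_
      have h3 := (hC (a t s)).mul (isWeightedHomogeneous_X R wt (t.1, s))
      rw [zero_add] at h3
      rw [hwt] at h3 ⊢
      exact h3
  have h2 : IsWeightedHomogeneous wt (aeval g F) (k i) := by
    rw [aeval_def, eval₂_eq']
    refine IsWeightedHomogeneous.sum _ _ _ fun μ hμ => ?_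
    have h3 : IsWeightedHomogeneous wt (∏ t, g t ^ μ t) (∑ t, μ t * d t) := by
      refine IsWeightedHomogeneous.prod _ _ _ fun t _ => ?_
      have h4 := (h1 t).pow (μ t)
      rwa [smul_eq_mul] at h4
    have h4 : ∑ t, μ t * d t = k i := by
      rw [← hF μ hμ i]
      have h5 : ∀ t, t ∉ Finset.univ.image (fun l : Fin q => (VQ.u (i, l) : VQ m n q)) →
          μ t * d t = 0 := by
        intro t ht
        rcases t with t | t | t | t
        · rw [hd]
          exact mul_zero _
        · rw [hd]
          exact mul_zero _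
        · rw [hd]
          exact mul_zero _
        · rw [hd]
          show μ (VQ.u t) * (if t.1 = i then 1 else 0) = 0
          rw [if_neg, mul_zero]
          intro h6
          apply ht
          rw [Finset.mem_image]
          exact ⟨t.2, Finset.mem_univ _, by rw [← h6]⟩
      rw [← Finset.sum_subset (Finset.subset_univ _) fun t _ ht => h5 t ht,
        Finset.sum_image]
      · refine Finset.sum_congr rfl fun l _ => ?_
        rw [hd]
        show μ (VQ.u (i, l)) * (if i = i then 1 else 0) = _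
        rw [if_pos rfl, mul_one]
      · intro l _ l' _ h
        exact (Prod.ext_iff.1 (VQ.u.inj h)).2
    have h5 : algebraMap K (MvPolynomial (Fin m × τ) R) (coeff μ F) =
        C (algebraMap K R (coeff μ F)) := rfl
    rw [h5]
    have h6 := (isWeightedHomogeneous_C (R := R) wt (algebraMap K R (coeff μ F))).mul h3
    rwa [zero_add, h4] at h6
  have h3 := h2 hw
  rw [← h3, Finsupp.weight_apply, Finsupp.sum_fintype _ _ fun _ => by rw [zero_smul],
    Fintype.sum_prod_type]
  have h4 : ∀ i', ∑ s, w (i', s) • wt (i', s) = if i' = i then ∑ s, w (i', s) else 0 := by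
    intro i'
    rw [hwt]
    by_cases h : i' = i
    · rw [if_pos h]
      refine Finset.sum_congr rfl fun s _ => ?_
      show w (i', s) • (if i' = i then 1 else 0) = _
      rw [if_pos h, smul_eq_mul, mul_one]
    · rw [if_neg h]
      refine Finset.sum_eq_zero fun s _ => ?_
      show w (i', s) • (if i' = i then 1 else 0) = _
      rw [if_neg h, smul_zero]
  rw [Finset.sum_congr rfl fun i' _ => h4 i', Finset.sum_ite_eq' Finset.univ i, if_pos (Finset.mem_univ i)]

/-- The case of `vlN`. -/
theorem vlN_hom {m q q' : ℕ} {L : Type u} [Field L] [Algebra K L]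
    (y : Fin m → Fin q' → Fin (q + 1) → K) (Y : Fin (N + 1) → L)
    (η : Fin m → Fin (N + 1) → PowerSeries L) {F : MvPolynomial (VQ m n (q + 1)) K}
    {k : Fin m → ℕ} (hF : ∀ w ∈ F.support, ∀ i, ∑ l, w (VQ.u (i, l)) = k i)
    (w : Fin m × Fin q' →₀ ℕ) (hw : coeff w (vlN nd y Y η F) ≠ 0) (i : Fin m) :
    ∑ s, w (i, s) = k i :=
  hom_block nd (fun b => PowerSeries.C (Y b)) η
    (fun p s => PowerSeries.C (algebraMap K L (y p.1 s p.2))) hF w hw i

end

end Pool.Agent.Lib.MP_17a322_nt.SL
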