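import Pool.Agent.Lib.MP_17a322_nt.Mb

/-!
SL, numerical theorem: real numbers.
-/

namespace Pool.Agent.Lib.MP_17a322_nt.SL

theorem N13_t7 {C₁ CL eta c4 c6 Csg d p h₀ dK Ck C1 NL kk mm Lo C₂ : ℝ}
    (hd0 : 0 ≤ d) (hp : 0 ≤ p) (hh : 0 ≤ h₀) (hC₁ : 0 ≤ C₁) (hC₂ : 0 ≤ C₂) (hCsg : 0 ≤ Csg)
    (hc6 : c6 = C₁ * CL + 2 + C₂ * Csg) (hc4 : c4 = C₁ * CL + (dK * Ck + C1))
    (g4 : NL ≤ CL * (p + (1 + eta) * (p * h₀))) (g6 : Lo ≤ eta * (p * h₀) * Csg)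
    (e2 : kk ≤ d * (dK * Ck * p)) (e3 : mm ≤ d * (2 * (eta * (p * h₀)) + C1 * p)) :
    C₁ * (d * NL) + (kk + mm) + C₂ * (d * Lo) ≤ p * (d * (c4 + c6 * (1 + eta) * h₀)) := by
  have g5 := mul_le_mul_of_nonneg_left (mul_le_mul_of_nonneg_left g4 hd0) hC₁
  have g7 := mul_le_mul_of_nonneg_left (mul_le_mul_of_nonneg_left g6 hd0) hC₂
  have k3 : 0 ≤ d * (p * h₀) * (2 + C₂ * Csg) :=
    mul_nonneg (mul_nonneg hd0 (mul_nonneg hp hh))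
      (add_nonneg zero_le_two (mul_nonneg hC₂ hCsg))
  have e6 : p * (d * (c4 + c6 * (1 + eta) * h₀)) =
      C₁ * (d * (CL * (p + (1 + eta) * (p * h₀)))) + (d * (dK * Ck * p) +
        d * (2 * (eta * (p * h₀)) + C1 * p)) + C₂ * (d * (eta * (p * h₀) * Csg)) +
        d * (p * h₀) * (2 + C₂ * Csg) := by
    rw [hc6, hc4]
    ring
  rw [e6]
  linarith

theorem N13_t7b {h₀ d Cab m eta c4 c5 c6 S : ℝ} (hm : 1 ≤ m) (hh : 0 ≤ h₀) (hd0 : 0 ≤ d)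
    (hC : 0 ≤ Cab) (heta : 0 ≤ eta) (h8 : c5 = c6 + 2 * Cab)
    (h : S ≤ d * (m * (c4 + c6 * (1 + eta) * h₀))) :
    2 * h₀ * (d * Cab) + S ≤ d * (m * (c4 + c5 * (1 + eta) * h₀)) := by
  have h7 : 2 * h₀ * (d * Cab) ≤ d * (m * (2 * Cab * (1 + eta) * h₀)) := by
    have e6 : 2 * h₀ * (d * Cab) = d * (1 * (2 * Cab * 1 * h₀)) := by ring
    rw [e6]
    refine mul_le_mul_of_nonneg_left (mul_le_mul hm ?_ (by positivity) (zero_le_one.trans hm)) hd0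
    refine mul_le_mul_of_nonneg_right (mul_le_mul_of_nonneg_left ?_ (by positivity)) hh
    linarith
  rw [h8]
  have e7 : d * (m * (c4 + (c6 + 2 * Cab) * (1 + eta) * h₀)) =
      d * (m * (c4 + c6 * (1 + eta) * h₀)) + d * (m * (2 * Cab * (1 + eta) * h₀)) := by ring
  rw [e7]
  linarith

theorem N13_fin {d nh T1 T2 T3 T4 T5 T7 q δ X J h₀ Cab a X1 Y X4 X5 X7 m g n M T6 : ℝ}
    (ha0 : 0 ≤ a) (t1 : T1 ≤ d * X1) (t2 : T2 ≤ d * (m * g * Y * J))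
    (t3 : T3 ≤ d * (m * (n * M) * Y * J)) (t4 : T4 ≤ d * X4)
    (t5 : T5 ≤ d * X5) (t7 : T7 ≤ d * X7) (t6 : 0 ≤ T6)
    (h : 0 ≤ (d * nh + (T1 + T2 + T3) + T4 + T5 + (q * (δ * X) * (h₀ * (d * Cab)) - T6)) +
      a * T7) :
    0 ≤ d * (nh + X1 + m * (g + n * M) * Y * J + X4 + X5 + q * (δ * X) * (h₀ * Cab) + a * X7) := by
  have h5 := mul_le_mul_of_nonneg_left t7 ha0
  have h6 : d * (nh + X1 + m * (g + n * M) * Y * J + X4 + X5 + q * (δ * X) * (h₀ * Cab) + a * X7) =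
    d * nh + (d * X1 + d * (m * g * Y * J) + d * (m * (n * M) * Y * J)) + d * X4 + d * X5 +
      q * (δ * X) * (h₀ * (d * Cab)) + a * (d * X7) := by ring
  rw [h6]
  linarith

theorem N13_k {m n g M a NX J h₀ a₁ eta C1 c2 c3 c4 c5 C nh S Z : ℝ} (hm0 : 0 ≤ m) (hn0 : 0 ≤ n)
    (hg0 : 0 ≤ g) (hM0 : 0 ≤ M) (ha0 : 0 ≤ a) (hNX : 0 ≤ NX) (hJ0 : 0 ≤ J) (hh : 0 ≤ h₀)
    (heta : 0 ≤ eta)
    (hc10 : 0 ≤ C1) (hc20 : 0 ≤ c2) (hc30 : 0 ≤ c3) (hc40 : 0 ≤ c4) (hc50 : 0 ≤ c5)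
    (hC : C = C1 + c2 + c3 + c4 + c5)
    (h : 0 ≤ nh + n * NX * (C1 + 2 * h₀) + m * (g + n * M) * (c2 + 2 * a₁ * eta * h₀) * J +
      m * (c3 + c3 * eta * h₀) * J + S + Z + a * (m * (c4 + c5 * (1 + eta) * h₀))) :
    0 ≤ nh + n * NX * (C + 2 * h₀) + m * (g + n * M) * (C + 2 * a₁ * eta * h₀) * J +
      m * (C + C * eta * h₀) * J + S + Z + a * (m * (C + C * (1 + eta) * h₀)) := by
  have k1 : n * NX * (C1 + 2 * h₀) ≤ n * NX * (C + 2 * h₀) :=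
    mul_le_mul_of_nonneg_left (by linarith) (mul_nonneg hn0 hNX)
  have k2 : m * (g + n * M) * (c2 + 2 * a₁ * eta * h₀) * J ≤
      m * (g + n * M) * (C + 2 * a₁ * eta * h₀) * J :=
    mul_le_mul_of_nonneg_right (mul_le_mul_of_nonneg_left (by linarith)
      (mul_nonneg hm0 (add_nonneg hg0 (mul_nonneg hn0 hM0)))) hJ0
  have k3 : m * (c3 + c3 * eta * h₀) * J ≤ m * (C + C * eta * h₀) * J := by
    refine mul_le_mul_of_nonneg_right (mul_le_mul_of_nonneg_left ?_ hm0) hJ0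
    have k6 : c3 * eta * h₀ ≤ C * eta * h₀ :=
      mul_le_mul_of_nonneg_right (mul_le_mul_of_nonneg_right (by linarith) heta) hh
    linarith
  have k4 : a * (m * (c4 + c5 * (1 + eta) * h₀)) ≤ a * (m * (C + C * (1 + eta) * h₀)) := by
    refine mul_le_mul_of_nonneg_left (mul_le_mul_of_nonneg_left ?_ hm0) ha0
    have k6 : c5 * (1 + eta) * h₀ ≤ C * (1 + eta) * h₀ :=
      mul_le_mul_of_nonneg_right (mul_le_mul_of_nonneg_right (by linarith) (by linarith)) hh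
    linarith
  linarith

theorem N15_a {q δ Cab κ : ℝ} (hq : 0 ≤ q) (hC : 0 ≤ Cab) (hδ0 : 0 ≤ δ)
    (h1 : δ ≤ κ / (16 * (q * Cab + 1))) : q * δ * Cab ≤ κ / 16 := by
  have h2 : 0 ≤ q * Cab := mul_nonneg hq hC
  rw [le_div_iff₀ (by positivity)] at h1
  linarith

theorem N15_b {n ε' κ : ℝ} (hn : 0 ≤ n) (hε : 0 ≤ ε') (h : ε' = κ / (32 * (n + 1))) :
    2 * n * ε' ≤ κ / 16 := by
  have h1 : ε' * (32 * (n + 1)) = κ := by
    rw [h]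
    exact div_mul_cancel₀ κ (by positivity)
  linarith

theorem N15_c {C σ κ : ℝ} (hC : 0 ≤ C) (hσ0 : 0 ≤ σ) (h : σ = κ / (16 * (2 * C + 1))) :
    σ * (C * 2) ≤ κ / 16 := by
  have h1 : σ * (16 * (2 * C + 1)) = κ := by
    rw [h]
    exact div_mul_cancel₀ κ (by positivity)
  linarith

theorem N15_d {t C η κ : ℝ} (ht : 0 ≤ t) (hC : 0 ≤ C) (hκ : 0 < κ)
    (h : η = κ / (16 * (t + C + 1 + κ))) : 0 < η ∧ η ≤ 1 ∧
      ∀ z : ℝ, 0 ≤ z → z ≤ t + C + 1 + κ → z * η ≤ κ / 16 := by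
  have hW : 0 < t + C + 1 + κ := by positivity
  have hη0 : 0 < η := by rw [h]; positivity
  have h1 : η * (16 * (t + C + 1 + κ)) = κ := by
    rw [h]
    exact div_mul_cancel₀ κ (by positivity)
  refine ⟨hη0, ?_, fun z _ hz' => ?_⟩
  · rw [h, div_le_one (by positivity)]
    linarith
  · have h2 := mul_le_mul_of_nonneg_right hz' hη0.le
    linarith

theorem N15_Z {CF n ε' m C g M σ : ℝ} (hCF : 0 ≤ CF) (hn : 0 ≤ n) (hε : 0 ≤ ε') (hm : 0 ≤ m)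
    (hC : 0 ≤ C) (hg : 0 ≤ g) (hM : 0 ≤ M) (hσ : 0 ≤ σ) :
    0 ≤ CF + n * ε' * m * C + m * (g + n * M) * C + m * C + σ * (m * C) := by
  positivity

end Pool.Agent.Lib.MP_17a322_nt.SL
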