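import Pool.Agent.Lib.MP_17a322_nt.SL.N12
import Pool.Agent.Lib.MP_17a322_nt.VP.N11
import Pool.Agent.Lib.MP_17a322_nt.SL.N13n

/-!
SL, numerical theorem: the inequality over `K`.
-/

universe u

namespace Pool.Agent.Lib.MP_17a322_nt.SL

open MvPolynomial Height NumberField
open Pool.Agent.Lib.MP_17a322_nt.RO
open Pool.Agent.Lib.MP_17a322_nt.VJ
open Pool.Agent.Lib.MP_17a322_nt.VN
open Pool.Agent.Lib.MP_17a322_nt.VA
open Pool.Agent.Lib.MP_17a322_nt.VP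

section

variable {K : Type u} [Field K] [NumberField K]

theorem N_gs_sg_le (Sg : Finset (AbsoluteValue K ℝ)) (f : AbsoluteValue K ℝ → ℝ) {B : ℝ}
    (hf : ∀ v ∈ Sg, f v ≤ B) : gs (N_sg Sg f) ≤ B * gs (N_sg Sg fun _ => 1) := by
  rw [← gs_const_mul]
  refine gs_le (N_FS_sg Sg _) (FS_const_mul _ (N_FS_sg Sg _)) fun v _ => ?_
  by_cases hv : v ∈ Sg
  · rw [N_sg_pos _ hv, N_sg_pos _ hv, mul_one]
    exact hf v hv
  · rw [N_sg_neg _ hv, N_sg_neg _ hv, mul_zero]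

omit [NumberField K] in
/-- The terms of the first sum. -/
theorem N13_T {m n k g M₀ J : ℕ} {j : Fin m → ℕ} {NX d h₀ C1 Y : ℝ}
    (F : MvPolynomial (VQ m n k) K) (H1 : Fin n → ℝ) (H2 : Fin m → ℝ)
    (hh₀0 : 0 ≤ h₀) (hd0 : 0 < d) (hJ : ∀ i, j i ≤ J)
    (hdx : ∀ a, (F.degreeOf (VQ.x a) : ℝ) ≤ NX) (hdth : ∀ i, F.degreeOf (VQ.th i) ≤ g)
    (hdz : ∀ p, F.degreeOf (VQ.z p) ≤ M₀ * 4 ^ (J - j p.1))
    (hGx : ∀ b, H1 b ≤ d * (C1 + 2 * h₀)) (hGq : ∀ i, H2 i ≤ d * (Y * 4 ^ j i))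
    (hC10 : 0 ≤ C1) (hY0 : 0 ≤ Y) :
    ∑ b, (F.degreeOf (VQ.x b) : ℝ) * H1 b ≤ d * (n * NX * (C1 + 2 * h₀)) ∧
    ∑ i, (F.degreeOf (VQ.th i) : ℝ) * H2 i ≤ d * (m * g * Y * 4 ^ J) ∧
    ∑ p : Fin m × Fin n, (F.degreeOf (VQ.z p) : ℝ) * H2 p.1 ≤
      d * (m * (n * M₀) * Y * 4 ^ J) := by
  obtain ⟨X, hX⟩ : ∃ X, X = C1 + 2 * h₀ := ⟨_, rfl⟩
  have hX0 : 0 ≤ X := by rw [hX]; positivity
  rw [← hX]
  simp only [← hX] at hGx
  clear hX hC10 hh₀0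
  have h4J : ∀ i, (4 : ℝ) ^ j i * 4 ^ (J - j i) = 4 ^ J := by
    intro i
    rw [← pow_add, Nat.add_sub_cancel' (hJ i)]
  refine ⟨?_, ?_, ?_⟩
  · have hb : ∀ b ∈ (Finset.univ : Finset (Fin n)),
        (F.degreeOf (VQ.x b) : ℝ) * H1 b ≤ NX * (d * X) :=
      fun b _ => (mul_le_mul_of_nonneg_left (hGx b) (Nat.cast_nonneg _)).trans
        (mul_le_mul_of_nonneg_right (hdx b) (mul_nonneg hd0.le hX0))
    refine (Finset.sum_le_sum hb).trans (le_of_eq ?_)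
    rw [Finset.sum_const, Finset.card_univ, Fintype.card_fin, nsmul_eq_mul]
    ring
  · have hb : ∀ i ∈ (Finset.univ : Finset (Fin m)),
        (F.degreeOf (VQ.th i) : ℝ) * H2 i ≤ g * (d * (Y * 4 ^ J)) := by
      intro i _
      refine (mul_le_mul_of_nonneg_left (hGq i) (Nat.cast_nonneg _)).trans ?_
      refine mul_le_mul (by exact_mod_cast hdth i) ?_
        (mul_nonneg hd0.le (mul_nonneg hY0 (pow_nonneg (by norm_num) _))) (Nat.cast_nonneg _)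
      refine mul_le_mul_of_nonneg_left (mul_le_mul_of_nonneg_left ?_ hY0) hd0.le
      exact pow_le_pow_right₀ (by norm_num) (hJ i)
    refine (Finset.sum_le_sum hb).trans (le_of_eq ?_)
    rw [Finset.sum_const, Finset.card_univ, Fintype.card_fin, nsmul_eq_mul]
    ring
  · have hb : ∀ p ∈ (Finset.univ : Finset (Fin m × Fin n)),
        (F.degreeOf (VQ.z p) : ℝ) * H2 p.1 ≤ M₀ * (d * (Y * 4 ^ J)) := by
      intro p _
      refine (mul_le_mul_of_nonneg_left (hGq p.1) (Nat.cast_nonneg _)).trans ?_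
      have h5 : (F.degreeOf (VQ.z p) : ℝ) ≤ M₀ * 4 ^ (J - j p.1) := by exact_mod_cast hdz p
      refine (mul_le_mul_of_nonneg_right h5
        (mul_nonneg hd0.le (mul_nonneg hY0 (pow_nonneg (by norm_num) _)))).trans (le_of_eq ?_)
      rw [← h4J p.1]
      ring
    refine (Finset.sum_le_sum hb).trans (le_of_eq ?_)
    rw [Finset.sum_const, Finset.card_univ, Fintype.card_prod, Fintype.card_fin,
      Fintype.card_fin, nsmul_eq_mul]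
    push_cast
    ring

/-- The terms of the second sum. -/
theorem N13_t4 {m J : ℕ} {j : Fin m → ℕ} {d h₀ eta kk C₂ Csg dK Ck c3 : ℝ} {Lo : Fin m → ℝ}
    (hd0 : 0 ≤ d) (hh₀0 : 0 ≤ h₀) (heta : 0 ≤ eta) (hC₂0 : 0 ≤ C₂) (hCsg0 : 0 ≤ Csg)
    (hdC : 0 ≤ dK * Ck) (hc3 : c3 = dK * Ck + C₂ * Csg)
    (h4J : ∀ i, (4 : ℝ) ^ j i * 4 ^ (J - j i) = 4 ^ J)
    (hLo : ∀ i, Lo i ≤ eta * (4 ^ j i * h₀) * Csg) (hkk4 : ∀ i, kk ≤ d * (dK * Ck * 4 ^ j i)) :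
    ∑ i, (((4 ^ (J - j i) : ℕ)) : ℝ) * (kk + C₂ * (d * Lo i)) ≤
      d * (m * (c3 + c3 * eta * h₀) * 4 ^ J) := by
  have h6 : dK * Ck ≤ c3 := by
    rw [hc3]
    linarith [mul_nonneg hC₂0 hCsg0]
  have h7 : C₂ * Csg ≤ c3 := by
    rw [hc3]
    linarith
  have hb : ∀ i ∈ (Finset.univ : Finset (Fin m)),
      (((4 ^ (J - j i) : ℕ)) : ℝ) * (kk + C₂ * (d * Lo i)) ≤
        d * ((c3 + c3 * eta * h₀) * 4 ^ J) := by
    intro i _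
    have hp : (0 : ℝ) ≤ 4 ^ j i := pow_nonneg (by norm_num) _
    have h5 : C₂ * (d * Lo i) ≤ C₂ * (d * (eta * (4 ^ j i * h₀) * Csg)) :=
      mul_le_mul_of_nonneg_left (mul_le_mul_of_nonneg_left (hLo i) hd0) hC₂0
    have h8 : kk + C₂ * (d * Lo i) ≤ d * ((c3 + c3 * eta * h₀) * 4 ^ j i) := by
      have e1 : d * (dK * Ck * 4 ^ j i) ≤ d * (c3 * 4 ^ j i) :=
        mul_le_mul_of_nonneg_left (mul_le_mul_of_nonneg_right h6 hp) hd0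
      have e2 : C₂ * (d * (eta * (4 ^ j i * h₀) * Csg)) ≤ d * (c3 * eta * h₀ * 4 ^ j i) := by
        have e3 : C₂ * (d * (eta * (4 ^ j i * h₀) * Csg)) =
          (C₂ * Csg) * (d * (eta * h₀ * 4 ^ j i)) := by ring
        rw [e3]
        refine (mul_le_mul_of_nonneg_right h7 (by positivity)).trans (le_of_eq ?_)
        ring
      have e4 := hkk4 i
      calc _ ≤ d * (c3 * 4 ^ j i) + d * (c3 * eta * h₀ * 4 ^ j i) := by linarith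
        _ = _ := by ring
    refine (mul_le_mul_of_nonneg_left h8 (Nat.cast_nonneg _)).trans (le_of_eq ?_)
    push_cast
    rw [← h4J i]
    ring
  refine (Finset.sum_le_sum hb).trans (le_of_eq ?_)
  rw [Finset.sum_const, Finset.card_univ, Fintype.card_fin, nsmul_eq_mul]
  ring

variable {N : ℕ} {A : AV K N} {n e : ℕ} (nd : Noe A n e)

theorem N_gsl0 (E : SC K) : ∃ C : ℝ, 0 ≤ C ∧ ∀ (P : A.Pts K), nd.Good P →
    gs (fun v : AbsoluteValue K ℝ => N_l0 nd E v P 0) ≤ C * (1 + A.h P) := by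
  obtain ⟨C, hC, h⟩ := N_gsL nd E 0 0
  refine ⟨C, hC, fun P hP => ?_⟩
  have h1 := h P hP 0 (fun l => l.elim0) (fun l => l.elim0) (fun l => l.elim0)
    (fun l => l.elim0) (fun l => l.elim0)
  unfold N_L at h1
  simp only [Finset.univ_eq_empty, Finset.sum_empty, add_zero, logHeight₁_zero] at h1
  exact h1

/-- The inequality over `K`. -/
theorem N_ineqM (Sg : Finset (AbsoluteValue K ℝ)) (E₀ E : SC K) (c₀ a₁ : ℕ) (D q q' : ℕ)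
    (C₁ : ℝ) (hC₁ : 0 ≤ C₁) (Cw : ℝ) (hCw : 0 ≤ Cw) (c : AbsoluteValue K ℝ → Fin (q + 1) → ℝ)
    (hc : 0 ≤ tw Sg c) (sg : Fin q' → ℝ) :
    ∃ C : ℝ, 0 ≤ C ∧ ∀ (m g M₀ J : ℕ) (NX δ eta : ℝ) (P₀ : A.Pts K) (P : Fin m → A.Pts K)
      (j : Fin m → ℕ) (Λ : Fin m → AbsoluteValue K ℝ →
        Matrix (Fin (q + 1)) (Fin (q + 1)) (MvPolynomial (Fin (N + 1)) K))
      (y : Fin m → Fin q' → Fin (q + 1) → K) (F : MvPolynomial (VQ m n (q + 1)) K),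
      0 < m → 0 ≤ NX → 0 ≤ δ → 0 ≤ eta → (∀ i, j i ≤ J) →
      (∀ i, F.degreeOf (VQ.th i) ≤ g) → (∀ a, (F.degreeOf (VQ.x a) : ℝ) ≤ NX) →
      (∀ p, F.degreeOf (VQ.z p) ≤ M₀ * 4 ^ (J - j p.1)) →
      (∀ i, A.h (P i - 2 ^ j i • P₀) ≤ eta * (4 ^ j i * A.h P₀)) →
      (∀ i, A.h (P i) ≤ (1 + eta) * (4 ^ j i * A.h P₀)) →
      (∀ i, ∀ v ∈ Sg, lossM nd E v (P i) (Λ i v) ≤ eta * (4 ^ j i * A.h P₀)) →
      (∀ i s, gs (sz Sg c (4 ^ j i * A.h P₀) (fun v => (Λ i v).map (aeval (A.x (P i))))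
        (y i s)) ≤ (sg s + eta) * (4 ^ j i * A.h P₀)) →
      ∀ (L : Type u) [Field L] [NumberField L] [Algebra K L] (w : A.Pts L)
        (ζ : Fin m × Option (Fin n) → L) (x η : Fin m → Fin (N + 1) → PowerSeries L) (a : ℕ)
        (e' : Fin m × Fin q' →₀ ℕ),
      A.h w ≤ Cw * Module.finrank ℚ L →
      N_cx nd Sg E₀ E c₀ a₁ D C₁ P j Λ y F (fun i => 4 ^ (J - j i))
        ((1 / ((q : ℝ) + 1) - δ) * (m * 4 ^ J)) (A.img (Algebra.ofId K L) P₀ + w) ζ x η →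
      PowerSeries.coeff a (coeff e'
        (vlN nd y (nd.y (A.img (Algebra.ofId K L) P₀ + w)) η F)) ≠ 0 →
      0 ≤ nh F + n * NX * (C + 2 * A.h P₀) +
        m * (g + n * M₀) * (C + 2 * a₁ * eta * A.h P₀) * 4 ^ J +
        m * (C + C * eta * A.h P₀) * 4 ^ J +
        A.h P₀ * (∑ i, ∑ s, (4 : ℝ) ^ j i * (sg s * (e' (i, s) : ℝ)) + eta * (m * 4 ^ J)) +
        q * (δ * (m * 4 ^ J)) * (A.h P₀ * gs (N_sg Sg fun v => ∑ k, |c v k|)) +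
        a * (m * (C + C * (1 + eta) * A.h P₀)) := by
  classical
  obtain ⟨Cq, hCq, hqv⟩ := N_qv nd
  obtain ⟨Ch, hCh, hheights⟩ := A.exists_heights
  obtain ⟨Ck, hCk, hgk⟩ := E.gs_log_le
  obtain ⟨CL, hCL, hgL⟩ := N_gsl0 nd E
  obtain ⟨dK, hdK⟩ : ∃ dK : ℝ, dK = Module.finrank ℚ K := ⟨_, rfl⟩
  have hdK0 : 0 ≤ dK := by rw [hdK]; exact Nat.cast_nonneg _
  obtain ⟨Csg, hCsg⟩ : ∃ Csg : ℝ, Csg = gs (N_sg Sg fun _ => 1) := ⟨_, rfl⟩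
  have hCsg0 : 0 ≤ Csg := by
    rw [hCsg]
    exact gs_nonneg fun v _ => N_sg_nonneg Sg (fun _ => zero_le_one) v
  obtain ⟨Cab, hCab⟩ : ∃ Cab : ℝ, Cab = gs (N_sg Sg fun v => ∑ k, |c v k|) := ⟨_, rfl⟩
  have hCab0 : 0 ≤ Cab := by
    rw [hCab]
    exact gs_nonneg fun v _ => N_sg_nonneg Sg
      (fun v => Finset.sum_nonneg fun k _ => abs_nonneg _) v
  obtain ⟨C₂, hC₂⟩ : ∃ C₂ : ℝ, C₂ = 1 + ((q + 1) * ((N + 1) * D) : ℕ) := ⟨_, rfl⟩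
  have hC₂0 : 0 ≤ C₂ := by
    rw [hC₂]
    positivity
  obtain ⟨C1, hC1⟩ : ∃ C1 : ℝ, C1 = dK * (2 * Cw + 3 * Ch) + Cq * dK := ⟨_, rfl⟩
  have hC10 : 0 ≤ C1 := by rw [hC1]; positivity
  obtain ⟨c2, hc2⟩ : ∃ c2 : ℝ, c2 = dK * Ck + a₁ * (dK * Ck + C1) := ⟨_, rfl⟩
  obtain ⟨c3, hc3⟩ : ∃ c3 : ℝ, c3 = dK * Ck + C₂ * Csg := ⟨_, rfl⟩
  obtain ⟨c4, hc4⟩ : ∃ c4 : ℝ, c4 = C₁ * CL + (dK * Ck + C1) := ⟨_, rfl⟩
  obtain ⟨c5, hc5⟩ : ∃ c5 : ℝ, c5 = C₁ * CL + 2 + C₂ * Csg + 2 * Cab := ⟨_, rfl⟩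
  have hc20 : 0 ≤ c2 := by rw [hc2]; positivity
  have hc30 : 0 ≤ c3 := by rw [hc3]; positivity
  have hc40 : 0 ≤ c4 := by rw [hc4]; positivity
  have hc50 : 0 ≤ c5 := by rw [hc5]; positivity
  refine ⟨C1 + c2 + c3 + c4 + c5, add_nonneg (add_nonneg (add_nonneg (add_nonneg hC10 hc20) hc30)
    hc40) hc50, ?_⟩
  intro m g M₀ J NX δ eta P₀ P j Λ y F hm hNX hδ heta hJ hdth hdx hdz hhd hhP hloss hsize
    L _ _ _ w ζ x η a e' hw hcx ha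
  obtain ⟨Q, hQdef⟩ : ∃ Q : A.Pts L, Q = A.img (Algebra.ofId K L) P₀ + w := ⟨_, rfl⟩
  rw [← hQdef] at hcx ha
  obtain ⟨d, hd⟩ : ∃ d : ℝ, d = Module.finrank K L := ⟨_, rfl⟩
  have hd0 : 0 < d := by
    rw [hd]
    exact_mod_cast Module.finrank_pos
  have hdL : (Module.finrank ℚ L : ℝ) = d * dK := by
    rw [hd, hdK, ← Module.finrank_mul_finrank ℚ K L]
    push_cast
    ring
  obtain ⟨h₀, hh₀⟩ : ∃ h₀ : ℝ, h₀ = A.h P₀ := ⟨_, rfl⟩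
  have hh₀0 : 0 ≤ h₀ := by rw [hh₀]; exact AV.h_nonneg P₀
  rw [← hh₀] at hhd hhP hloss hsize ⊢
  have h4J0 : (0 : ℝ) < 4 ^ J := by positivity
  have hm0 : (0 : ℝ) ≤ m := Nat.cast_nonneg _
  have h4J : ∀ i, (4 : ℝ) ^ j i * 4 ^ (J - j i) = 4 ^ J := by
    intro i
    rw [← pow_add, Nat.add_sub_cancel' (hJ i)]
  have hXs : ∑ i, (4 : ℝ) ^ j i * ((4 ^ (J - j i) : ℕ) : ℝ) = m * 4 ^ J := by
    have h1 : ∀ i ∈ (Finset.univ : Finset (Fin m)),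
        (4 : ℝ) ^ j i * ((4 ^ (J - j i) : ℕ) : ℝ) = 4 ^ J := fun i _ => by
      push_cast
      exact h4J i
    rw [Finset.sum_congr rfl h1, Finset.sum_const, Finset.card_univ, Fintype.card_fin,
      nsmul_eq_mul]
  obtain ⟨kk, hkkd⟩ : ∃ kk, kk = gs (fun w : AbsoluteValue L ℝ => Real.log (E.k w)) := ⟨_, rfl⟩
  obtain ⟨mm, hmmd⟩ : ∃ mm : Fin m → ℝ, ∀ i, mm i = gs (fun w : AbsoluteValue L ℝ =>
    Real.log (mq w (nd.s (A.img (Algebra.ofId K L) (P i) - 2 ^ j i • Q)))) :=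
    ⟨_, fun _ => rfl⟩
  obtain ⟨he', hprod⟩ := N_prodM nd hh₀0 hC₂ c hXs (mul_nonneg hδ (mul_nonneg hm0 h4J0.le)) hcx
    e' a ha d kk hd hkkd mm hmmd
  rw [← hCab] at hprod ⊢
  have h4 : ∀ i, (1 : ℝ) ≤ 4 ^ j i := fun i => one_le_pow₀ (by norm_num)
  -- the sizes
  have hhts := hheights Cw hCw L w hw P₀
  rw [← hQdef, ← hdK, ← hd, ← hh₀] at hhts
  have hkk : kk ≤ d * (dK * Ck) := by
    rw [hkkd]
    refine (hgk L).trans (le_of_eq ?_)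
    rw [hdL]
    ring
  have hkk0 : 0 ≤ kk := by
    rw [hkkd]
    exact gs_nonneg fun v _ => Real.log_nonneg (E.one_le v)
  have hkk4 : ∀ i, kk ≤ d * (dK * Ck * 4 ^ j i) := fun i =>
    hkk.trans (mul_le_mul_of_nonneg_left (le_mul_of_one_le_right (by positivity) (h4 i)) hd0.le)
  have hmq : ∀ i, mm i ≤ d * (2 * (eta * (4 ^ j i * h₀)) + C1 * 4 ^ j i) := by
    intro i
    have h1 := (hqv L (A.img (Algebra.ofId K L) (P i) - 2 ^ j i • Q) (hcx.gd i).1).1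
    rw [← hmmd, hdL] at h1
    have h2 := hhts.2 (P i) (j i)
    have h5 : Cq * (d * dK) ≤ Cq * (d * dK) * 4 ^ j i :=
      le_mul_of_one_le_right (by positivity) (h4 i)
    have h6 := hhd i
    have h7 : d * (2 * A.h (P i - 2 ^ j i • P₀)) ≤ d * (2 * (eta * (4 ^ j i * h₀))) :=
      mul_le_mul_of_nonneg_left (by linarith) hd0.le
    rw [hC1]
    calc _ ≤ A.h (A.img (Algebra.ofId K L) (P i) - 2 ^ j i • Q) + Cq * (d * dK) := h1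
      _ ≤ d * (2 * A.h (P i - 2 ^ j i • P₀) + dK * (2 * Cw + 3 * Ch) * 4 ^ j i) +
          Cq * (d * dK) * 4 ^ j i := add_le_add h2 h5
      _ = d * (2 * A.h (P i - 2 ^ j i • P₀)) + d * ((dK * (2 * Cw + 3 * Ch) + Cq * dK) *
          4 ^ j i) := by ring
      _ ≤ d * (2 * (eta * (4 ^ j i * h₀))) + d * ((dK * (2 * Cw + 3 * Ch) + Cq * dK) *
          4 ^ j i) := add_le_add_left h7 _
      _ = _ := by ring
  have hxQ : ∀ b, logHeight₁ (nd.s Q b) ≤ d * (C1 + 2 * h₀) := by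
    intro b
    have h1 := (hqv L Q hcx.gQ.1).2 b
    rw [hdL] at h1
    have h6 : 0 ≤ d * (dK * (2 * Ch)) := by positivity
    rw [hC1]
    calc _ ≤ A.h Q + Cq * (d * dK) := h1
      _ ≤ d * (2 * h₀ + dK * (2 * Cw + Ch)) + Cq * (d * dK) + d * (dK * (2 * Ch)) := by
          linarith [hhts.1]
      _ = _ := by ring
  have hLo : ∀ i, gs (N_sg Sg fun v => lossM nd E v (P i) (Λ i v)) ≤
      eta * (4 ^ j i * h₀) * Csg := fun i => by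
    rw [hCsg]
    exact N_gs_sg_le Sg _ (hloss i)
  have hl0 : ∀ i, gs (fun v : AbsoluteValue K ℝ => N_l0 nd E v (P i) 0) ≤
      CL * (4 ^ j i + (1 + eta) * (4 ^ j i * h₀)) := fun i =>
    (hgL (P i) (hcx.good i)).trans (mul_le_mul_of_nonneg_left (add_le_add (h4 i) (hhP i)) hCL)
  -- the terms
  have hGq : ∀ i, kk + a₁ * (kk + mm i) ≤ d * ((c2 + 2 * a₁ * eta * h₀) * 4 ^ j i) := by
    intro i
    have ha1 : (0 : ℝ) ≤ a₁ := Nat.cast_nonneg _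
    have e4 := mul_le_mul_of_nonneg_left (add_le_add (hkk4 i) (hmq i)) ha1
    rw [hc2]
    calc _ ≤ d * (dK * Ck * 4 ^ j i) + a₁ * (d * (dK * Ck * 4 ^ j i) +
            d * (2 * (eta * (4 ^ j i * h₀)) + C1 * 4 ^ j i)) := by linarith [hkk4 i]
      _ = _ := by ring
  obtain ⟨t1, t2, t3⟩ := N13_T F (fun b => logHeight₁ (nd.s Q b)) (fun i => kk + a₁ * (kk + mm i))
    hh₀0 hd0 hJ hdx hdth hdz hxQ hGq hC10 (add_nonneg hc20
      (mul_nonneg (mul_nonneg (mul_nonneg zero_le_two (Nat.cast_nonneg a₁)) heta) hh₀0))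
  have t4 : ∑ i, (((4 ^ (J - j i) : ℕ)) : ℝ) * (kk + C₂ * (d * gs (N_sg Sg fun v =>
      lossM nd E v (P i) (Λ i v)))) ≤ d * (m * (c3 + c3 * eta * h₀) * 4 ^ J) := by
    exact N13_t4 hd0.le hh₀0 heta hC₂0 hCsg0 (mul_nonneg hdK0 hCk) hc3 h4J hLo hkk4
  have t5 : ∑ p : Fin m × Fin q', (e' p : ℝ) * (d * gs (sz Sg c (4 ^ j p.1 * h₀)
      (fun v => (Λ p.1 v).map (aeval (A.x (P p.1)))) (y p.1 p.2))) ≤
      d * (h₀ * (∑ i, ∑ s, (4 : ℝ) ^ j i * (sg s * (e' (i, s) : ℝ)) + eta * (m * 4 ^ J))) := by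
    have hb : ∀ p ∈ (Finset.univ : Finset (Fin m × Fin q')),
        (e' p : ℝ) * (d * gs (sz Sg c (4 ^ j p.1 * h₀)
        (fun v => (Λ p.1 v).map (aeval (A.x (P p.1)))) (y p.1 p.2))) ≤
        d * h₀ * ((4 : ℝ) ^ j p.1 * (sg p.2 * (e' p : ℝ)) +
          eta * ((4 : ℝ) ^ j p.1 * (e' p : ℝ))) := by
      intro p _
      refine (mul_le_mul_of_nonneg_left (mul_le_mul_of_nonneg_left (hsize p.1 p.2) hd0.le)
        (Nat.cast_nonneg _)).trans (le_of_eq ?_)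
      ring
    refine (Finset.sum_le_sum hb).trans (le_of_eq ?_)
    rw [← Finset.mul_sum, Finset.sum_add_distrib, ← Finset.mul_sum, Fintype.sum_prod_type,
      Fintype.sum_prod_type]
    have h5 : ∑ i, ∑ s, (4 : ℝ) ^ j i * (e' (i, s) : ℝ) = m * 4 ^ J := by
      rw [← hXs]
      refine Finset.sum_congr rfl fun i _ => ?_
      rw [← Finset.mul_sum, ← he' i]
      push_cast
      rfl
    simp only [h5]
    ring
  have t6 : 0 ≤ m * (4 : ℝ) ^ J / ((q : ℝ) + 1) * (h₀ * (d * tw Sg c)) :=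
    mul_nonneg (div_nonneg (mul_nonneg hm0 h4J0.le) (add_nonneg (Nat.cast_nonneg q) zero_le_one))
      (mul_nonneg hh₀0 (mul_nonneg hd0.le hc))
  have t7 : 2 * h₀ * (d * Cab) +
        ∑ i, ((4 : ℝ) ^ j i)⁻¹ * (C₁ * (d * gs (fun v : AbsoluteValue K ℝ =>
          N_l0 nd E v (P i) 0)) + (kk + mm i) +
          C₂ * (d * gs (N_sg Sg fun v => lossM nd E v (P i) (Λ i v)))) ≤
      d * (m * (c4 + c5 * (1 + eta) * h₀)) := by
    obtain ⟨c6, hc6⟩ : ∃ c6 : ℝ, c6 = C₁ * CL + 2 + C₂ * Csg := ⟨_, rfl⟩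
    have hc60 : 0 ≤ c6 := by rw [hc6]; positivity
    have hb : ∀ i ∈ (Finset.univ : Finset (Fin m)),
        ((4 : ℝ) ^ j i)⁻¹ * (C₁ * (d * gs (fun v : AbsoluteValue K ℝ =>
          N_l0 nd E v (P i) 0)) + (kk + mm i) +
          C₂ * (d * gs (N_sg Sg fun v => lossM nd E v (P i) (Λ i v)))) ≤
        d * (c4 + c6 * (1 + eta) * h₀) := by
      intro i _
      have hp4 : (0 : ℝ) < 4 ^ j i := by positivity
      rw [inv_mul_le_iff₀ hp4]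
      exact N13_t7 hd0.le hp4.le hh₀0 hC₁ hC₂0 hCsg0 hc6 hc4 (hl0 i) (hLo i) (hkk4 i) (hmq i)
    have h5 : ∑ i : Fin m, d * (c4 + c6 * (1 + eta) * h₀) = d * (m * (c4 + c6 * (1 + eta) * h₀)) := by
      rw [Finset.sum_const, Finset.card_univ, Fintype.card_fin, nsmul_eq_mul]
      ring
    have h6 := (Finset.sum_le_sum hb).trans h5.le
    exact N13_t7b (by exact_mod_cast hm) hh₀0 hd0.le hCab0 heta (by rw [hc5, hc6]) h6
  -- conclusion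
  have ha0 : (0 : ℝ) ≤ a := Nat.cast_nonneg _
  have hfin : 0 ≤ d * (nh F + n * NX * (C1 + 2 * h₀) +
      m * (g + n * M₀) * (c2 + 2 * a₁ * eta * h₀) * 4 ^ J +
      m * (c3 + c3 * eta * h₀) * 4 ^ J +
      h₀ * (∑ i, ∑ s, (4 : ℝ) ^ j i * (sg s * (e' (i, s) : ℝ)) + eta * (m * 4 ^ J)) +
      q * (δ * (m * 4 ^ J)) * (h₀ * Cab) +
      a * (m * (c4 + c5 * (1 + eta) * h₀))) :=
    N13_fin ha0 t1 t2 t3 t4 t5 t7 t6 hprod
  exact N13_k (Nat.cast_nonneg m) (Nat.cast_nonneg n) (Nat.cast_nonneg g) (Nat.cast_nonneg M₀)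
    ha0 hNX h4J0.le hh₀0 heta hC10 hc20 hc30 hc40 hc50 rfl
    (nonneg_of_mul_nonneg_right hfin hd0)

end

end Pool.Agent.Lib.MP_17a322_nt.SL
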