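import Pool.Agent.Lib.MP_17a322_nt.SL.Defs

/-!
SL, numerical theorem: the numbers.
-/

namespace Pool.Agent.Lib.MP_17a322_nt.SL

theorem N_numM {n g M₀ m a₁ q : ℕ} (hm : 0 < m)
    {C CF kap del eps' sig eta h S Cab X a nF : ℝ} (hC : 0 ≤ C) (hkap : 0 < kap)
    (hsig : 0 ≤ sig) (heta : 0 ≤ eta) (heta1 : eta ≤ 1) (hh : 0 ≤ h) (hX : 0 < X)
    (haX : a ≤ sig * X) (hnF : nF ≤ CF * X) (hS : S ≤ - kap * m * X)
    (h1 : q * del * Cab ≤ kap / 16)
    (h3 : 2 * n * eps' ≤ kap / 16) (h4 : 2 * a₁ * (g + n * M₀) * eta ≤ kap / 16)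
    (h5 : C * eta ≤ kap / 16) (h6 : eta ≤ kap / 16) (h8 : sig * (C * 2) ≤ kap / 16)
    (h9 : CF + n * eps' * m * C + m * (g + n * M₀) * C + m * C + sig * (m * C) <
      kap / 2 * (m * h))
    (hineq : 0 ≤ nF + n * (eps' * m * X) * (C + 2 * h) +
      m * (g + n * M₀) * (C + 2 * a₁ * eta * h) * X + m * (C + C * eta * h) * X +
      h * (S + eta * (m * X)) + q * (del * (m * X)) * (h * Cab) +
      a * (m * (C + C * (1 + eta) * h))) : False := by
  have hm1 : (1 : ℝ) ≤ m := by exact_mod_cast hm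
  have hm0 : (0 : ℝ) ≤ m := zero_le_one.trans hm1
  have hn0 : (0 : ℝ) ≤ n := Nat.cast_nonneg _
  have hg0 : (0 : ℝ) ≤ g := Nat.cast_nonneg _
  have hM0 : (0 : ℝ) ≤ M₀ := Nat.cast_nonneg _
  have ha0 : (0 : ℝ) ≤ a₁ := Nat.cast_nonneg _
  have hY : 0 ≤ m * (C + C * (1 + eta) * h) := by positivity
  have e1 := mul_le_mul_of_nonneg_right haX hY
  have e0 := mul_le_mul_of_nonneg_left hS hh
  have e2 : 0 ≤ X * (CF + n * (eps' * m) * (C + 2 * h) +
      m * (g + n * M₀) * (C + 2 * a₁ * eta * h) + m * (C + C * eta * h) +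
      h * (- kap * m + eta * m) + q * (del * m) * (h * Cab) +
      sig * (m * (C + C * (1 + eta) * h))) := by
    have e3 : X * (CF + n * (eps' * m) * (C + 2 * h) +
      m * (g + n * M₀) * (C + 2 * a₁ * eta * h) + m * (C + C * eta * h) +
      h * (- kap * m + eta * m) + q * (del * m) * (h * Cab) +
      sig * (m * (C + C * (1 + eta) * h))) =
      CF * X + n * (eps' * m * X) * (C + 2 * h) +
      m * (g + n * M₀) * (C + 2 * a₁ * eta * h) * X + m * (C + C * eta * h) * X +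
      (h * (- kap * m * X) + h * (eta * (m * X))) + q * (del * (m * X)) * (h * Cab) +
      sig * X * (m * (C + C * (1 + eta) * h)) := by ring
    rw [e3]
    linarith
  have e4 := nonneg_of_mul_nonneg_right e2 hX
  have hmh : 0 ≤ m * h := mul_nonneg hm0 hh
  have f3 : q * del * Cab * (m * h) ≤ kap / 16 * (m * h) := mul_le_mul_of_nonneg_right h1 hmh
  have f5 : 2 * n * eps' * (m * h) ≤ kap / 16 * (m * h) := mul_le_mul_of_nonneg_right h3 hmh
  have f6 : 2 * a₁ * (g + n * M₀) * eta * (m * h) ≤ kap / 16 * (m * h) :=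
    mul_le_mul_of_nonneg_right h4 hmh
  have f7 : C * eta * (m * h) ≤ kap / 16 * (m * h) := mul_le_mul_of_nonneg_right h5 hmh
  have f9 : eta * (m * h) ≤ kap / 16 * (m * h) := mul_le_mul_of_nonneg_right h6 hmh
  have f8 : sig * (C * (1 + eta)) * (m * h) ≤ kap / 16 * (m * h) := by
    refine mul_le_mul_of_nonneg_right (le_trans ?_ h8) hmh
    refine mul_le_mul_of_nonneg_left (mul_le_mul_of_nonneg_left ?_ hC) hsig
    linarith
  have e5 : CF + n * (eps' * m) * (C + 2 * h) +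
      m * (g + n * M₀) * (C + 2 * a₁ * eta * h) + m * (C + C * eta * h) +
      h * (- kap * m + eta * m) + q * (del * m) * (h * Cab) +
      sig * (m * (C + C * (1 + eta) * h)) =
      (CF + n * eps' * m * C + m * (g + n * M₀) * C + m * C + sig * (m * C)) +
      (2 * n * eps' * (m * h) + 2 * a₁ * (g + n * M₀) * eta * (m * h) + C * eta * (m * h) +
      eta * (m * h) + q * del * Cab * (m * h) + sig * (C * (1 + eta)) * (m * h)) -
      kap * (m * h) := by ring
  rw [e5] at e4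
  have hk : 0 ≤ kap * (m * h) := by positivity
  linarith

end Pool.Agent.Lib.MP_17a322_nt.SL
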