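import Pool.Agent.Lib.MP_17a322_nt.SL.CF
import Pool.Agent.Lib.MP_17a322_nt.SL.N13
import Pool.Agent.Lib.MP_17a322_nt.SL.N14
import Pool.Agent.Lib.MP_17a322_nt.VP.B2
import Pool.Agent.Lib.MP_17a322_nt.VP.CP3
import Pool.Agent.Lib.MP_17a322_nt.VA.LB9
import Pool.Agent.Lib.MP_17a322_nt.VA.LB10

/-!
SL, numerical theorem: the auxiliary polynomial vanishes on a path through the points.
-/

universe u

namespace Pool.Agent.Lib.MP_17a322_nt.SL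

open MvPolynomial Height
open Pool.Agent.Lib.MP_17a322_nt.RO
open Pool.Agent.Lib.MP_17a322_nt.VJ
open Pool.Agent.Lib.MP_17a322_nt.VN hiding lf
open Pool.Agent.Lib.MP_17a322_nt.VA
open Pool.Agent.Lib.MP_17a322_nt.VP

/-- The size constants. -/
theorem N_exists_OKM {K : Type u} [Field K] {N : ℕ} {A : AV K N} {n e : ℕ} (nd : Noe A n e)
    (E₀ : SC K) (nq : ℕ) : ∃ (E : SC K) (a₁ : ℕ), N_OK nd E₀ E a₁ ∧
      ∀ (L : Type u) [Field L] [Algebra K L] (w : AbsoluteValue L ℝ), cst w nq ≤ E.k w := by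
  obtain ⟨E1, a₁, h1⟩ := N_exists_OK nd E₀
  obtain ⟨E2, h2⟩ := (Adm_cst.{u, u} (K := K) nq).exists_SC
  refine ⟨E1.mul E2, a₁, ?_, fun L _ _ w => (h2 L w).trans (E1.le_mul_right _ w)⟩
  intro L _ _ v
  have h3 := h1 L v
  have h4 : E1.k v ≤ (E1.mul E2).k v := E1.le_mul_left _ v
  refine ⟨h3.1.trans h4, h3.2.1.trans h4, ?_⟩
  intro R _ _ _ _ ν hν η Y hY hη
  have h5 := h3.2.2 R ν hν η Y hY hη
  have h6 : 0 ≤ Y ^ a₁ := pow_nonneg (zero_le_one.trans hY) _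
  exact ⟨h5.1.trans (mul_le_mul_of_nonneg_right h4 h6),
    fun k => (h5.2 k).trans (mul_le_mul_of_nonneg_right h4 h6)⟩

/-- N part: the vanishing of the auxiliary polynomial on a path through the points; `sig s` is the size of
the vectors `y i s`. -/
theorem VNM {K : Type u} [Field K] [NumberField K] {N : ℕ} (A : AV K N) {n e : ℕ} (nd : Noe A n e)
    (Sg : Finset (AbsoluteValue K ℝ)) (hSg : ∀ v ∈ Sg, Pl v) (q q' D : ℕ)
    (c : AbsoluteValue K ℝ → Fin (q + 1) → ℝ) (hc : 0 ≤ tw Sg c) (sig : Fin q' → ℝ)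
    (κ : ℝ) (hκ : 0 < κ) :
    ∃ (E : SC K) (m₀ : ℕ), ∀ m : ℕ, m₀ ≤ m → 0 < m → ∃ (C₀ η B s : ℝ),
      0 ≤ C₀ ∧ 0 < η ∧ 1 ≤ B ∧ 0 < s ∧
      ∀ (P₀ : A.Pts K) (P : Fin m → A.Pts K) (j : Fin m → ℕ)
        (Λ : Fin m → AbsoluteValue K ℝ →
          Matrix (Fin (q + 1)) (Fin (q + 1)) (MvPolynomial (Fin (N + 1)) K))
        (y : Fin m → Fin q' → Fin (q + 1) → K) (J : ℕ)
        (I : Finset (Fin m → Fin (q + 1) → ℕ)),
      DatM nd Sg D c sig E C₀ η P₀ P j Λ y → (∀ i, j i ≤ J) →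
      2 * I.card ≤ (mons (q := q) fun i => 4 ^ (J - j i)).card →
      ∃ F : MvPolynomial (VQ m n (q + 1)) K,
        BdF nd j (fun i => 4 ^ (J - j i)) B (B * 4 ^ J) I F ∧
        ∀ g : MvPolynomial (Fin n ⊕ Fin m × Option (Fin n)) K, g ≠ 0 →
          ∃ (L : Type u) (_ : Field L) (_ : NumberField L) (_ : Algebra K L) (Y : Fin (N + 1) → L)
            (ζ : Fin m × Option (Fin n) → L) (x η : Fin m → Fin (N + 1) → PowerSeries L),
            PthM nd P j Y ζ x η ∧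
            aeval (Sum.elim (fun k => lf (nd.l k.succ) Y) ζ) g ≠ 0 ∧
            ∀ (a : ℕ) (w : Fin m × Fin q' →₀ ℕ), (a : ℝ) < s * 4 ^ J →
              ∑ i, ∑ s, (4 : ℝ) ^ j i * (sig s * (w (i, s) : ℝ)) ≤ - κ * m * 4 ^ J →
              PowerSeries.coeff a (coeff w (vlN nd y Y η F)) = 0 := by
  classical
  obtain ⟨E₀, c₀, hblock⟩ := exists_blockP A nd
  obtain ⟨E, a₁, hOK, hcst⟩ := N_exists_OKM nd E₀ (N_nq q q')
  obtain ⟨C₁, hC₁⟩ : ∃ C₁, C₁ = N_C1 N D c₀ := ⟨_, rfl⟩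
  have hC₁0 : 0 ≤ C₁ := by rw [hC₁]; exact N_C1_nonneg N D c₀
  obtain ⟨Cw, hCw, hw⟩ := exists_hw nd
  obtain ⟨C, hC, hineq⟩ := N_ineqM nd Sg E₀ E c₀ a₁ D q q' C₁ hC₁0 Cw hCw c hc sig
  -- the first constants
  obtain ⟨Cab, hCab⟩ : ∃ Cab : ℝ, Cab = gs (N_sg Sg fun v => ∑ k, |c v k|) := ⟨_, rfl⟩
  have hCab0 : 0 ≤ Cab := by
    rw [hCab]
    exact gs_nonneg fun v _ => N_sg_nonneg Sg
      (fun v => Finset.sum_nonneg fun k _ => abs_nonneg _) v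
  have hq0 : (0 : ℝ) ≤ q := Nat.cast_nonneg _
  have hn0 : (0 : ℝ) ≤ n := Nat.cast_nonneg _
  obtain ⟨δ, hδ⟩ : ∃ δ : ℝ, δ = min (1 / (2 * ((q : ℝ) + 1))) (κ / (16 * (q * Cab + 1))) :=
    ⟨_, rfl⟩
  obtain ⟨ε', hε'⟩ : ∃ ε' : ℝ, ε' = κ / (32 * (n + 1)) := ⟨_, rfl⟩
  have hδ0 : 0 < δ := by
    rw [hδ]
    exact lt_min (by positivity) (by positivity)
  have hε'0 : 0 < ε' := by rw [hε']; positivity
  have hδ1 : δ < 1 / ((q : ℝ) + 1) := by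
    rw [hδ]
    refine (min_le_left _ _).trans_lt ?_
    rw [div_lt_div_iff₀ (by positivity) (by positivity)]
    linarith
  have hδ2 : q * δ * Cab ≤ κ / 16 :=
    N15_a hq0 hCab0 hδ0.le (hδ.le.trans (min_le_right _ _))
  have hε2 : 2 * n * ε' ≤ κ / 16 := N15_b hn0 hε'0.le hε'
  obtain ⟨m₀, haux⟩ := exists_auxM nd q Sg.card D δ ε' hδ0 hδ1 hε'0
  refine ⟨E, m₀, fun m hm₀ hm => ?_⟩
  have hm1 : (1 : ℝ) ≤ m := by exact_mod_cast hm
  obtain ⟨M₀, CF, hCF, hauxm⟩ := haux m hm₀ hm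
  obtain ⟨B, hB⟩ : ∃ B : ℝ, B = ε' * m + M₀ + 1 + CF := ⟨_, rfl⟩
  have hM0 : (0 : ℝ) ≤ M₀ := Nat.cast_nonneg _
  have hεm : 0 ≤ ε' * m := by positivity
  have hB1 : 1 ≤ B := by
    rw [hB]
    linarith
  have hB0 : 0 < B := zero_lt_one.trans_le hB1
  obtain ⟨σ, hσ⟩ : ∃ σ : ℝ, σ = κ / (16 * (2 * C + 1)) := ⟨_, rfl⟩
  have hσ0 : 0 < σ := by rw [hσ]; positivity
  have hσ1 : σ * (C * 2) ≤ κ / 16 := N15_c hC hσ0.le hσ
  obtain ⟨g, hg⟩ : ∃ g : ℕ, g = nd.Φ.natDegree := ⟨_, rfl⟩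
  have hg0 : (0 : ℝ) ≤ g := Nat.cast_nonneg _
  have ha10 : (0 : ℝ) ≤ a₁ := Nat.cast_nonneg _
  obtain ⟨t, ht⟩ : ∃ t : ℝ, t = 2 * a₁ * (g + n * M₀) := ⟨_, rfl⟩
  have ht0 : 0 ≤ t := by
    rw [ht]
    exact mul_nonneg (mul_nonneg zero_le_two ha10) (add_nonneg hg0 (mul_nonneg hn0 hM0))
  obtain ⟨η, hη⟩ : ∃ η : ℝ, η = κ / (16 * (t + C + 1 + κ)) := ⟨_, rfl⟩
  obtain ⟨hη0, hη1, hηa⟩ := N15_d ht0 hC hκ hη
  obtain ⟨Z, hZ⟩ : ∃ Z : ℝ, Z = CF + n * ε' * m * C + m * (g + n * M₀) * C + m * C +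
    σ * (m * C) := ⟨_, rfl⟩
  have hZ0 : 0 ≤ Z := by
    rw [hZ]
    exact N15_Z hCF hn0 hε'0.le (Nat.cast_nonneg m) hC hg0 hM0 hσ0.le
  obtain ⟨C₀, hC₀⟩ : ∃ C₀ : ℝ, C₀ = 2 * (Z + 1) / κ := ⟨_, rfl⟩
  have hC₀0 : 0 ≤ C₀ := by rw [hC₀]; positivity
  refine ⟨C₀, η, B, σ, hC₀0, hη0, hB1, hσ0, ?_⟩
  intro P₀ P j Λ y J I hdat hJ hI
  have h4J : ∀ i, (4 : ℝ) ^ (J - j i) * 4 ^ j i = 4 ^ J := by
    intro i
    rw [← pow_add, Nat.sub_add_cancel (hJ i)]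
  have h4J0 : (0 : ℝ) < 4 ^ J := by positivity
  have hdetI : ∀ i, ∀ v ∈ Sg, (Λ i v).det ∉ A.I := fun i v hv h1 =>
    hdat.det i v hv (A.x_isPt (P i) _ h1)
  obtain ⟨F, hF0, hFth, hFx, hFz, hFu, hFI, hFnh, hFvan⟩ := hauxm J j
    (fun i s => Λ i (Sg.equivFin.symm s : AbsoluteValue K ℝ)) I hJ (fun i s =>
      ⟨hdat.hom i _ (Sg.equivFin.symm s).2, hdetI i _ (Sg.equivFin.symm s).2,
        hdat.ht i _ (Sg.equivFin.symm s).2⟩) hI
  have hvan : ∀ v ∈ Sg, VanM nd j (fun i => Λ i v)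
      ((1 / ((q : ℝ) + 1) - δ) * (m * 4 ^ J)) F := by
    intro v hv
    have h1 := hFvan (Sg.equivFin ⟨v, hv⟩)
    simp only [Equiv.symm_apply_apply] at h1
    rw [mul_assoc] at h1
    exact h1
  refine ⟨F, ?_, ?_⟩
  · refine ⟨hF0, hFth, fun a => ?_, fun p => ?_, hFu, ?_, hFI⟩
    · refine (hFx a).trans (mul_le_mul_of_nonneg_right ?_ h4J0.le)
      rw [hB]
      linarith
    · have h1 : (F.degreeOf (VQ.z p) : ℝ) ≤ M₀ * 4 ^ (J - j p.1) := by exact_mod_cast hFz p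
      calc (4 : ℝ) ^ j p.1 * F.degreeOf (VQ.z p) ≤ 4 ^ j p.1 * (M₀ * 4 ^ (J - j p.1)) :=
            mul_le_mul_of_nonneg_left h1 (by positivity)
        _ = M₀ * (4 ^ (J - j p.1) * 4 ^ j p.1) := by ring
        _ = M₀ * 4 ^ J := by rw [h4J]
        _ ≤ B * 4 ^ J := by
            refine mul_le_mul_of_nonneg_right ?_ h4J0.le
            rw [hB]
            linarith
    · have h1 : CF * 4 ^ J ≤ B * 4 ^ J := by
        refine mul_le_mul_of_nonneg_right ?_ h4J0.le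
        rw [hB]
        linarith
      have h2 : B * 4 ^ J ≤ B * (B * 4 ^ J) :=
        mul_le_mul_of_nonneg_left (le_mul_of_one_le_left h4J0.le hB1) hB0.le
      exact hFnh.trans (h1.trans h2)
  intro gp hgp
  obtain ⟨L, iF, iN, iA, w, ζ, hw0, hws, hζ, hQgood, hgQ, hsub⟩ := choose_LP A nd gp hgp P₀ P j
  obtain ⟨Q, hQ⟩ : ∃ Q : A.Pts L, Q = A.img (Algebra.ofId K L) P₀ + w := ⟨_, rfl⟩
  rw [← hQ] at hQgood hgQ hsub
  have hrepQ : A.Rep Q (nd.y Q) := nd.rep_y Q hQgood.1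
  have hMi : ∀ i, A.Rep (2 ^ j i • Q) (A.mu (j i) (nd.y Q)) := fun i => hrepQ.mu (j i)
  have hPi : ∀ i, A.Rep (A.img (Algebra.ofId K L) (P i))
      (fun b => algebraMap K L (nd.y (P i) b)) := fun i =>
    (nd.rep_y (P i) (hdat.good i).1).img (Algebra.ofId K L)
  have hblk := fun i => hblock (P i) (hdat.good i) L (4 ^ j i) (fun k => ζ (i, some k))
    (A.mu (j i) (nd.y Q)) (nd.s (A.img (Algebra.ofId K L) (P i) - 2 ^ j i • Q))
    (pow_pos four_pos _) (fun k => hζ (i, some k)) (hMi i).isPt (hMi i).ne_zero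
    (block_hyp nd _ _ (hPi i) (hMi i) (hsub i).1.1).1
    (block_hyp nd _ _ (hPi i) (hMi i) (hsub i).1.1).2
  choose x ηs hy using hblk
  have hBl : ∀ i, N_B nd E₀ c₀ (P i) (4 ^ j i) (fun k => ζ (i, some k))
      (A.mu (j i) (nd.y Q)) (nd.s (A.img (Algebra.ofId K L) (P i) - 2 ^ j i • Q))
      (x i) (ηs i) := fun i =>
    { blk := (hy i).1
      hq := (hy i).2.1
      form := (hy i).2.2.1
      rad := fun v => ((hy i).2.2.2 v).1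
      sy := fun v => ((hy i).2.2.2 v).2.1
      seta := fun v => ((hy i).2.2.2 v).2.2 }
  have hsQ : (fun k : Fin n => lf (nd.l k.succ) (nd.y Q)) = nd.s Q :=
    funext fun k => nd.lf_y_succ Q k
  refine ⟨L, iF, iN, iA, nd.y Q, ζ, x, ηs, ⟨nd.y_isPt Q, nd.lf_y_zero Q hQgood.1,
    fun i => (hBl i).blk⟩, by rw [hsQ]; exact hgQ, ?_⟩
  intro a e' ha he'
  by_contra hne
  have hcx : N_cx nd Sg E₀ E c₀ a₁ D C₁ P j Λ y F (fun i => 4 ^ (J - j i))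
      ((1 / ((q : ℝ) + 1) - δ) * (m * 4 ^ J)) Q ζ x ηs :=
    { ok := hOK
      cst := fun w => hcst L w
      c1 := hC₁.ge
      good := hdat.good
      hom := hdat.hom
      det := fun i v hv => by
        rw [N_eval_hom nd (P i) (CQ_det_homog (hdat.hom i v hv))]
        exact mul_ne_zero (pow_ne_zero _ (inv_ne_zero (hdat.good i).1)) (hdat.det i v hv)
      van := hvan
      ne := hF0
      u := hFu
      y0 := hdat.ne
      gQ := hQgood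
      blk := hBl
      gd := fun i => (hsub i).1
      row := fun i => (hsub i).2 }
  have hI := hineq m g M₀ J (ε' * m * 4 ^ J) δ η P₀ P j Λ y F hm (by positivity) hδ0.le hη0.le hJ
    (fun i => by rw [hg]; exact (hFth i).le) hFx hFz hdat.near (fun i => by
      have h1 := (abs_le.1 (hdat.hP i)).2
      linarith) hdat.loss hdat.size L w ζ x ηs a e' (hw L w hw0 hws) (by rw [← hQ]; exact hcx)
    (by rw [← hQ]; exact hne)
  have hh00 : 0 ≤ A.h P₀ := AV.h_nonneg P₀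
  have hZh : Z < κ / 2 * (m * A.h P₀) := by
    have h1 : 2 * (Z + 1) / κ ≤ A.h P₀ := by
      rw [← hC₀]
      exact hdat.h₀
    rw [div_le_iff₀ hκ] at h1
    have h2 : A.h P₀ ≤ m * A.h P₀ := le_mul_of_one_le_left hh00 hm1
    have h3 : A.h P₀ * κ ≤ m * A.h P₀ * κ := mul_le_mul_of_nonneg_right h2 hκ.le
    linarith
  rw [hZ] at hZh
  rw [← hCab] at hI
  exact N_numM hm hC hκ hσ0.le hη0.le hη1 hh00 h4J0 ha.le hFnh he' hδ2 hε2
    (by rw [← ht]; exact hηa t ht0 (by linarith)) (hηa C hC (by linarith))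
    (by have h1 := hηa 1 zero_le_one (by linarith); rwa [one_mul] at h1) hσ1 hZh hI

end Pool.Agent.Lib.MP_17a322_nt.SL
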