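import Pool.Agent.Lib.MP_17a322_nt.SL.E4
import Pool.Agent.Lib.MP_17a322_nt.SL.N15
import Pool.Agent.Lib.MP_17a322_nt.SL.H0

/-!
The equation of bounded degree and height of the hyperplanes spanned by small vectors.
-/

universe u

namespace Pool.Agent.Lib.MP_17a322_nt.SL

open MvPolynomial Height
open Pool.Agent.Lib.MP_17a322_nt.RO
open Pool.Agent.Lib.MP_17a322_nt.VJ
open Pool.Agent.Lib.MP_17a322_nt.VN hiding lf
open Pool.Agent.Lib.MP_17a322_nt.VA
open Pool.Agent.Lib.MP_17a322_nt.VP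

/-- The weighted sum of the sizes. -/
theorem H_sig {m q : ℕ} (κ : ℝ) (j k : Fin m → ℕ) (X : ℝ) (w : Fin m × Fin (q + 1) →₀ ℕ)
    (hk : ∀ i, (4 : ℝ) ^ j i * k i = X) (hw : ∀ i, ∑ s, w (i, s) = k i) :
    ∑ i, ∑ s, (4 : ℝ) ^ j i * ((if s = Fin.last q then q * κ else - κ) * (w (i, s) : ℝ)) =
      - κ * m * X + (q + 1) * κ * ∑ i, (4 : ℝ) ^ j i * (w (i, Fin.last q) : ℝ) := by
  have h1 : ∀ i, ∑ s, (4 : ℝ) ^ j i * ((if s = Fin.last q then q * κ else - κ) *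
      (w (i, s) : ℝ)) = - κ * X + (q + 1) * κ * ((4 : ℝ) ^ j i * (w (i, Fin.last q) : ℝ)) := by
    intro i
    have h2 : ∀ s : Fin (q + 1), (4 : ℝ) ^ j i * ((if s = Fin.last q then q * κ else - κ) *
        (w (i, s) : ℝ)) = - κ * (4 : ℝ) ^ j i * (w (i, s) : ℝ) +
          if s = Fin.last q then (q + 1) * κ * ((4 : ℝ) ^ j i * (w (i, s) : ℝ)) else 0 := by
      intro s
      by_cases h : s = Fin.last q
      · rw [if_pos h, if_pos h]
        ring
      · rw [if_neg h, if_neg h]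
        ring
    rw [Finset.sum_congr rfl fun s _ => h2 s, Finset.sum_add_distrib, ← Finset.mul_sum,
      Finset.sum_ite_eq' Finset.univ (Fin.last q), if_pos (Finset.mem_univ _)]
    have h3 : ∑ s, (w (i, s) : ℝ) = k i := by
      rw [← hw i]
      push_cast
      rfl
    rw [h3, mul_assoc, hk]
  rw [Finset.sum_congr rfl fun i _ => h1 i, Finset.sum_add_distrib, ← Finset.mul_sum,
    Finset.sum_const, Finset.card_univ, Fintype.card_fin, nsmul_eq_mul]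
  congr 1
  · ring
  · rw [Finset.mul_sum]

/-- T: the hyperplanes spanned by the small vectors satisfy an equation of bounded degree and
height. -/
theorem SRM' {K : Type u} [Field K] [NumberField K] {N : ℕ} (A : AV K N) {n e : ℕ} (nd : Noe A n e)
    (Sg : Finset (AbsoluteValue K ℝ)) (hSg : ∀ v ∈ Sg, Pl v) (q D : ℕ)
    (c : AbsoluteValue K ℝ → Fin (q + 1) → ℝ) (hc : 0 ≤ tw Sg c) (κ : ℝ) (hκ : 0 < κ) :
    ∃ (E : SC K) (m D' R₀ : ℕ) (C₀ η : ℝ), 0 < m ∧ 0 ≤ C₀ ∧ 0 < η ∧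
      ∀ (P₀ : A.Pts K) (P : Fin m → A.Pts K) (j : Fin m → ℕ)
        (Λ : Fin m → AbsoluteValue K ℝ →
          Matrix (Fin (q + 1)) (Fin (q + 1)) (MvPolynomial (Fin (N + 1)) K))
        (y : Fin m → Fin (q + 1) → Fin (q + 1) → K) (μ : Fin m → Fin (q + 1) → K)
        (l₀ l₁ : Fin (q + 1)), l₀ ≠ l₁ →
      (∀ i i', i < i' → R₀ * 4 ^ j i ≤ 4 ^ j i') →
      DatM nd Sg D c (fun s => if s = Fin.last q then q * κ else - κ) E C₀ η P₀ P j Λ y →
      (∀ i, LinearIndependent K (y i)) → (∀ i, μ i l₀ = 1) →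
      (∀ i s, s ≠ Fin.last q → ∑ l, μ i l * y i s l = 0) →
      ∃ (i : Fin m) (G : MvPolynomial (Option (Fin n)) K), G ≠ 0 ∧ (∀ y, G.degreeOf y ≤ D') ∧
        nh G ≤ C₀ * 4 ^ j i ∧
        eval (fun y : Option (Fin n) => y.elim (- μ i l₁) (nd.s (P i))) G = 0 := by
  classical
  obtain ⟨E, m₀, hV⟩ := VNM A nd Sg hSg q (q + 1) D c hc
    (fun s => if s = Fin.last q then q * κ else - κ) (κ / 2) (by positivity)
  obtain ⟨m, hmdef⟩ : ∃ m : ℕ, m = m₀ + 1 := ⟨_, rfl⟩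
  have hm : 0 < m := by omega
  obtain ⟨C₁, η, B, s, hC₁, hη, hB, hs, hVm⟩ := hV m (by omega) hm
  have hB0 : 0 < B := one_pos.trans_le hB
  have hm0 : (0 : ℝ) < m := by exact_mod_cast hm
  obtain ⟨s', hs'⟩ : ∃ s' : ℝ, s' = min s (m / (2 * (q + 1))) := ⟨_, rfl⟩
  have hs'0 : 0 < s' := by
    rw [hs']
    positivity
  obtain ⟨D', R₀, B', hB', hE⟩ := EPN A nd m hm q (s' / B) B (by positivity) hB0.le
  refine ⟨E, m, D', R₀, max C₁ B', η, hm, hC₁.trans (le_max_left _ _), hη, ?_⟩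
  intro P₀ P j Λ y μ l₀ l₁ hl hgap hdat hy hμ hμy
  obtain ⟨J, hJdef⟩ : ∃ J : ℕ, J = Finset.univ.sup j := ⟨_, rfl⟩
  have hJ : ∀ i, j i ≤ J := fun i => by
    rw [hJdef]
    exact Finset.le_sup (Finset.mem_univ i)
  have h4J : ∀ i, (4 : ℝ) ^ j i * ((4 ^ (J - j i) : ℕ) : ℝ) = 4 ^ J := by
    intro i
    push_cast
    rw [← pow_add, Nat.add_sub_cancel' (hJ i)]
  have h40 : (0 : ℝ) < 4 ^ J := by positivity
  have hdat' : DatM nd Sg D c (fun s => if s = Fin.last q then q * κ else - κ) E C₁ η P₀ P j Λ y :=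
    { hdat with h₀ := (le_max_left _ _).trans hdat.h₀ }
  obtain ⟨F, hF, hpath⟩ := hVm P₀ P j Λ y J ∅ hdat' hJ (by
    rw [Finset.card_empty]
    omega)
  rcases hE P j l₀ l₁ y μ F (fun i => 4 ^ (J - j i)) (B * 4 ^ J) ∅ hl hy hμ hμy hgap hdat.good hF
    (fun i => by
      rw [h4J i]
      exact le_mul_of_one_le_left h40.le hB)
    (fun i => (pow_le_pow_right₀ (by norm_num) (hJ i)).trans (le_mul_of_one_le_left h40.le hB))
    with ⟨i, G, hG0, hGd, hGh, hGe⟩ | ⟨g, hg, hmain⟩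
  · exact ⟨i, G, hG0, hGd, hGh.trans (mul_le_mul_of_nonneg_right (le_max_right _ _)
      (by positivity)), hGe⟩
  · exfalso
    obtain ⟨L, _, _, _, Y, ζ, x, η', hP, hg0, hvan⟩ := hpath g hg
    obtain ⟨a, w, haw, hne⟩ := hmain L Y ζ x η' hP hg0
    have h1 : s' / B * (B * 4 ^ J) = s' * 4 ^ J := by
      rw [← mul_assoc, div_mul_cancel₀ _ hB0.ne']
    rw [h1] at haw
    have h2 : 0 ≤ ∑ i, (4 : ℝ) ^ j i * (w (i, Fin.last q) : ℝ) :=
      Finset.sum_nonneg fun i _ => by positivity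
    have h3 : (0 : ℝ) ≤ a := Nat.cast_nonneg _
    have h4 : s' * 4 ^ J ≤ s * 4 ^ J := by
      refine mul_le_mul_of_nonneg_right ?_ h40.le
      rw [hs']
      exact min_le_left _ _
    have h5 : s' * 4 ^ J ≤ m / (2 * (q + 1)) * 4 ^ J := by
      refine mul_le_mul_of_nonneg_right ?_ h40.le
      rw [hs']
      exact min_le_right _ _
    apply hne
    refine hvan a w (by linarith) ?_
    have hw : ∀ i, ∑ s, w (i, s) = 4 ^ (J - j i) := by
      refine vlN_hom nd y Y η' hF.u w fun h0 => ?_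
      rw [h0] at hne
      exact hne (map_zero _)
    rw [H_sig κ j (fun i => 4 ^ (J - j i)) (4 ^ J) w h4J hw]
    have h6 : ∑ i, (4 : ℝ) ^ j i * (w (i, Fin.last q) : ℝ) ≤ m / (2 * (q + 1)) * 4 ^ J := by
      linarith
    have hq : (0 : ℝ) < q + 1 := by positivity
    have h7 : (q + 1 : ℝ) * κ * ∑ i, (4 : ℝ) ^ j i * (w (i, Fin.last q) : ℝ) ≤
        (q + 1) * κ * (m / (2 * (q + 1)) * 4 ^ J) :=
      mul_le_mul_of_nonneg_left h6 (by positivity)
    have h8 : (q + 1 : ℝ) * κ * (m / (2 * (q + 1)) * 4 ^ J) = κ / 2 * m * 4 ^ J := by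
      field_simp
    rw [h8] at h7
    linarith

end Pool.Agent.Lib.MP_17a322_nt.SL
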