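import Pool.Agent.Lib.MP_17a322_nt.SL.Defs
import Pool.Agent.Lib.MP_17a322_nt.VP.S2

/-!
The loss for matrices of forms is small.
-/

universe u

namespace Pool.Agent.Lib.MP_17a322_nt.SL

open MvPolynomial Height Filter
open Pool.Agent.Lib.MP_17a322_nt.RO
open Pool.Agent.Lib.MP_17a322_nt.VJ
open Pool.Agent.Lib.MP_17a322_nt.VN hiding lf
open Pool.Agent.Lib.MP_17a322_nt.VA
open Pool.Agent.Lib.MP_17a322_nt.VP

/-- The determinant of a matrix of forms. -/
theorem S_det_hom {R : Type*} [CommRing R] {σ : Type*} {q D : ℕ}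
    (Λ : Matrix (Fin q) (Fin q) (MvPolynomial σ R)) (h : ∀ k l, (Λ k l).IsHomogeneous D) :
    Λ.det.IsHomogeneous (q * D) := by
  rw [Matrix.det_apply]
  refine IsHomogeneous.sum _ _ _ fun τ _ => ?_
  have h1 := IsHomogeneous.prod Finset.univ (fun i => Λ (τ i) i) (fun _ => D)
    fun i _ => h (τ i) i
  rw [Finset.sum_const, Finset.card_univ, Fintype.card_fin, smul_eq_mul] at h1
  rcases Int.units_eq_one_or (Equiv.Perm.sign τ) with h2 | h2
  · rw [h2, one_smul]
    exact h1
  · rw [h2, Units.neg_smul, one_smul]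
    exact h1.neg

theorem S_NVM_nonneg {L : Type*} [Field L] {σ : Type*} {q : ℕ} (v : AbsoluteValue L ℝ)
    (Λ : Matrix (Fin q) (Fin q) (MvPolynomial σ L)) : 0 ≤ NVM v Λ :=
  Real.iSup_nonneg fun _ => S_NV_nonneg v _

/-- The loss is `o(H)`. -/
theorem S_lossM {K : Type u} [Field K] [NumberField K] {N : ℕ} {B : AV K N} {H : ℕ → ℝ}
    (hH : Tendsto H (hyperfilter ℕ : Filter ℕ) atTop) {Q : ℕ → B.Pts K}
    {b : B.Pts (GK K)} (hb : IsGerm B Q b) {n e : ℕ} (nd : Noe B n e) (hgood : nd.Good b)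
    (v : AbsoluteValue K ℝ) {q : ℕ} (D : ℕ)
    (Λ : ℕ → Matrix (Fin (q + 1)) (Fin (q + 1)) (MvPolynomial (Fin (N + 1)) K))
    (hhom : ∀ᶠ i in (hyperfilter ℕ : Filter ℕ), ∀ k l, (Λ i k l).IsHomogeneous D)
    (hdet : ∀ δ : ℝ, 0 < δ → ∀ᶠ i in (hyperfilter ℕ : Filter ℕ),
      (⨆ a, v (B.x (Q i) a)) ^ ((q + 1) * D) * NVM v (Λ i) ^ (q + 1) * Real.exp (- δ * H i) ≤
        v (aeval (B.x (Q i)) (Λ i).det))
    (hprox : ∀ z : MvPolynomial (Fin n) (k0 K H hH), aeval (nd.s b) z ≠ 0 →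
      ∀ a : ℕ → K, gm a = aeval (nd.s b) z → ∀ δ : ℝ, 0 < δ →
      ∀ᶠ i in (hyperfilter ℕ : Filter ℕ), Real.exp (- δ * H i) ≤ v (a i))
    (hchart : ∀ δ : ℝ, 0 < δ → ∀ᶠ i in (hyperfilter ℕ : Filter ℕ),
      mq v (nd.y (Q i)) ≤ Real.exp (δ * H i)) (E : SC K) :
    oH H fun i => lossM nd E v (Q i) (Λ i) := by
  have hgoodQ : ∀ᶠ i in (hyperfilter ℕ : Filter ℕ), nd.Good (Q i) := (good_germ nd hb).mp hgood
  -- the size of the affine coordinates
  have h1 : oH H fun i => Real.log (mq v (nd.y (Q i))) := by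
    intro δ hδ
    filter_upwards [hchart δ hδ] with i hi
    have h2 := Real.log_le_log (mq_pos v _) hi
    rwa [Real.log_exp] at h2
  -- the discriminant
  have h3 : oH H fun i => - Real.log (min 1 (v (eval (nd.s (Q i)) nd.δ))) := by
    have g1 : aeval (nd.s b) (map (algebraMap K (k0 K H hH)) nd.δ) = aeval (nd.s b) nd.δ :=
      aeval_map_algebraMap _ _ _
    have g2 : gm (fun i => eval (nd.s (Q i)) nd.δ) = aeval (nd.s b) nd.δ := by
      have g3 := Z_aeval_gm (fun k i => nd.s (Q i) k) nd.δ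
      rw [show (fun k => gm fun i => nd.s (Q i) k) = nd.s b from
        funext fun k => Z_gm_s nd hb k] at g3
      rw [g3]
      rfl
    intro δ hδ
    filter_upwards [hprox (map (algebraMap K (k0 K H hH)) nd.δ) (by rw [g1]; exact hgood.2)
      (fun i => eval (nd.s (Q i)) nd.δ) (by rw [g1, g2]) δ hδ, hH.eventually_ge_atTop 0]
      with i hi hi0
    have g3 : Real.exp (- δ * H i) ≤ 1 := by
      rw [Real.exp_le_one_iff]
      have := mul_nonneg hδ.le hi0
      linarith
    have g4 := Real.log_le_log (Real.exp_pos _) (le_min g3 hi)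
    rw [Real.log_exp] at g4
    linarith
  -- the determinant
  obtain ⟨c, hc1, hc⟩ := S_lf_le v (nd.l 0)
  obtain ⟨D', hD'⟩ : ∃ D' : ℕ, D' = (q + 1) * D := ⟨_, rfl⟩
  rw [← hD'] at hdet
  have h4 : oH H fun i => max 0 (Real.log (NVM v (Λ i) ^ (q + 1) /
      v (eval (nd.y (Q i)) (Λ i).det))) := by
    have hDc : 0 ≤ (D' : ℝ) * Real.log c := mul_nonneg (Nat.cast_nonneg _) (Real.log_nonneg hc1)
    intro δ hδ
    filter_upwards [hdet (δ / 2) (by positivity), hgoodQ, hhom,
      oH_const hH (D' * Real.log c) (δ / 2) (by positivity), hH.eventually_ge_atTop 0]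
      with i g1 g2 g3 g4 g5
    refine max_le (mul_nonneg hδ.le g5) ?_
    obtain ⟨X, hX⟩ : ∃ X : ℝ, X = ⨆ a, v (B.x (Q i) a) := ⟨_, rfl⟩
    obtain ⟨M, hM⟩ : ∃ M : ℝ, M = NVM v (Λ i) ^ (q + 1) := ⟨_, rfl⟩
    rw [← hX, ← hM] at g1
    rw [← hM]
    have hM0 : 0 ≤ M := by
      rw [hM]
      exact pow_nonneg (S_NVM_nonneg v _) _
    have g3' : ((Λ i).det).IsHomogeneous D' := by
      rw [hD']
      exact S_det_hom _ g3
    have g6 := S_eval_y nd (Q i) g2.1 g3'
    have g7 : v (lf (nd.l 0) (B.x (Q i))) ≤ c * X := by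
      rw [hX]
      exact hc _
    have g8 : 0 < v (lf (nd.l 0) (B.x (Q i))) := v.pos g2.1
    have hcX : 0 < c * X := g8.trans_le g7
    have hc0 : 0 < c := one_pos.trans_le hc1
    have hX0 : 0 < X := pos_of_mul_pos_right hcX hc0.le
    have g9 : M / v (eval (nd.y (Q i)) (Λ i).det) ≤ c ^ D' * Real.exp (δ / 2 * H i) := by
      rcases (v.nonneg (eval (nd.y (Q i)) (Λ i).det)).eq_or_lt with h0 | h0
      · rw [← h0, div_zero]
        positivity
      · rw [div_le_iff₀ h0]
        have g10 : X ^ D' * M * Real.exp (-(δ / 2) * H i) ≤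
            (c * X) ^ D' * v (eval (nd.y (Q i)) (Λ i).det) := by
          refine g1.trans ?_
          rw [← g6, map_mul, map_pow]
          exact mul_le_mul_of_nonneg_right (pow_le_pow_left₀ g8.le g7 D') h0.le
        have g11 : Real.exp (-(δ / 2) * H i) * Real.exp (δ / 2 * H i) = 1 := by
          rw [← Real.exp_add]
          have : -(δ / 2) * H i + δ / 2 * H i = 0 := by ring
          rw [this, Real.exp_zero]
        have g12 := mul_le_mul_of_nonneg_right g10 (Real.exp_pos (δ / 2 * H i)).le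
        have g13 : X ^ D' * M * Real.exp (-(δ / 2) * H i) * Real.exp (δ / 2 * H i) =
            X ^ D' * M := by
          rw [mul_assoc, g11, mul_one]
        rw [g13, mul_pow] at g12
        have g14 : X ^ D' * M ≤ X ^ D' * (c ^ D' * Real.exp (δ / 2 * H i) *
            v (eval (nd.y (Q i)) (Λ i).det)) := by
          refine g12.trans (le_of_eq ?_)
          ring
        exact le_of_mul_le_mul_left g14 (pow_pos hX0 D')
    rcases (div_nonneg hM0 (v.nonneg (eval (nd.y (Q i)) (Λ i).det))).eq_or_lt with h0 | h0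
    · rw [← h0, Real.log_zero]
      exact mul_nonneg hδ.le g5
    · have g10 := Real.log_le_log h0 g9
      rw [Real.log_mul (pow_pos hc0 D').ne' (Real.exp_pos _).ne', Real.log_pow,
        Real.log_exp] at g10
      linarith
  have h5 := (((oH_const hH (Real.log (E.k v))).add h1).add h3).add h4
  refine h5.mono (Eventually.of_forall fun i => le_of_eq ?_)
  unfold lossM
  have e1 : (Λ i).map (MvPolynomial.map (algebraMap K K)) = Λ i := by
    ext1 k l
    rw [Matrix.map_apply, Algebra.algebraMap_self, MvPolynomial.map_id]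
  rw [e1]
  simp only [Algebra.algebraMap_self, RingHom.id_apply]
  ring

end Pool.Agent.Lib.MP_17a322_nt.SL
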