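import Pool.Agent.Lib.MP_17a322_nt.SL.IA4

/-!
The points of a cover over independent coordinates satisfy the same equations.
-/

universe u

namespace Pool.Agent.Lib.MP_17a322_nt.SL

open MvPolynomial Height Filter
open Pool.Agent.Lib.MP_17a322_nt.RO
open Pool.Agent.Lib.MP_17a322_nt.VJ
open Pool.Agent.Lib.MP_17a322_nt.VN hiding lf
open Pool.Agent.Lib.MP_17a322_nt.VA
open Pool.Agent.Lib.MP_17a322_nt.VP

/-- A prime equation which vanishes at a point with independent coordinates generates the kernel of the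
evaluation. -/
theorem IA2_dvd {k F : Type u} [Field k] [Field F] [Algebra k F] {n : ℕ} (s : Fin n → F)
    (hs : AlgebraicIndependent k s) (t : F) (Ψ : MvPolynomial (Option (Fin n)) k) (hΨ : Prime Ψ)
    (h0 : aeval (ot t s) Ψ = 0) (f : MvPolynomial (Option (Fin n)) k)
    (hf : aeval (ot t s) f = 0) : Ψ ∣ f := by
  let _ : Algebra (MvPolynomial (Fin n) k) F := (aeval (R := k) s).toRingHom.toAlgebra
  have hfs : FaithfulSMul (MvPolynomial (Fin n) k) F :=
    (faithfulSMul_iff_algebraMap_injective _ F).2 hs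
  obtain ⟨e, he⟩ : ∃ e : MvPolynomial (Option (Fin n)) k ≃ₐ[k]
      Polynomial (MvPolynomial (Fin n) k), ∀ f, unp (e f) = f :=
    ⟨optionEquivLeft k (Fin n), fun f => AlgEquiv.symm_apply_apply _ f⟩
  have hev : ∀ f : MvPolynomial (Option (Fin n)) k, aeval (ot t s) f =
      Polynomial.aeval t (e f) := fun f => by
    have h1 : aeval (ot t s) (unp (e f)) = Polynomial.aeval t (e f) := IA4_unp s t (e f)
    rwa [he] at h1
  have hp : Prime (e Ψ) := (MulEquiv.prime_iff e).2 hΨ
  rw [hev] at h0 hf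
  have h2 := map_dvd e.symm (IA4_prime t ⟨e Ψ, hp.ne_zero, h0⟩ (e Ψ) hp h0 (e f) hf)
  rwa [AlgEquiv.symm_apply_apply, AlgEquiv.symm_apply_apply] at h2

/-- IA2: a polynomial over a field `L` which vanishes at one point of the cover with coordinates
independent over `L` vanishes at the other points over these coordinates. -/
theorem cov_swap {K : Type u} [Field K] {n : ℕ} {Ψ : MvPolynomial (Option (Fin n)) K}
    (hΨ : ∀ (L : Type u) [Field L] [Algebra K L], Prime (MvPolynomial.map (algebraMap K L) Ψ))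
    (_ : Ψ.degreeOf none ≠ 0) {L Ω : Type u} [Field L] [Field Ω] [Algebra K L] [Algebra K Ω]
    [Algebra L Ω] [IsScalarTower K L Ω] (s : Fin n → Ω) (hs : AlgebraicIndependent L s)
    (t t' : Ω) (ht : aeval (ot t s) Ψ = 0) (ht' : aeval (ot t' s) Ψ = 0)
    (f : MvPolynomial (Option (Fin n)) L) (hf : aeval (ot t s) f = 0) :
    aeval (ot t' s) f = 0 := by
  have h1 : ∀ r : Ω, aeval (ot r s) (MvPolynomial.map (algebraMap K L) Ψ) = aeval (ot r s) Ψ :=
    fun r => aeval_map_algebraMap L (ot r s) Ψ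
  obtain ⟨g, rfl⟩ := IA2_dvd s hs t _ (hΨ L) ((h1 t).trans ht) f hf
  rw [map_mul, h1, ht', zero_mul]

end Pool.Agent.Lib.MP_17a322_nt.SL
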