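import Pool.Agent.Lib.MP_17a322_nt.VN.F3
import Pool.Agent.Lib.MP_17a322_nt.VJ.B4

/-!
Irreducible polynomials over `k0` stay irreducible at almost all indices.
-/

universe u

namespace Pool.Agent.Lib.MP_17a322_nt.SL

open MvPolynomial Height Filter
open Pool.Agent.Lib.MP_17a322_nt.RO
open Pool.Agent.Lib.MP_17a322_nt.VJ
open Pool.Agent.Lib.MP_17a322_nt.VN

theorem IA3_ht {K : Type u} [Field K] [NumberField K] {σ : Type*} {F : MvPolynomial σ K}
    {w₀ : σ →₀ ℕ} (h : coeff w₀ F = 1) (w : σ →₀ ℕ) : logHeight₁ (coeff w F) ≤ nh F := by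
  have hF : F ≠ 0 := by
    rintro rfl
    rw [coeff_zero] at h
    exact zero_ne_one h
  rw [← gs_log_max]
  unfold nh
  refine gs_le (FS_log_max _) (FS_log_NV hF) fun v _ =>
    Real.log_le_log (lt_max_of_lt_left one_pos) (max_le ?_ (coeff_le_NV v F w))
  have h1 := coeff_le_NV v F w₀
  rw [h, map_one] at h1
  exact h1

section

variable {K : Type u} [Field K] [NumberField K] {H : ℕ → ℝ}
  {hH : Tendsto H (hyperfilter ℕ : Filter ℕ) atTop} {σ : Type*}

omit [NumberField K] in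
theorem IA3_map_eq {P Q : MvPolynomial σ (ℕ → K)}
    (h : ∀ᶠ i in (hyperfilter ℕ : Filter ℕ), ev i P = ev i Q) :
    map (gR K) P = map (gR K) Q := by
  ext w
  rw [coeff_map, coeff_map, gR_apply, gR_apply, gm_eq_iff]
  filter_upwards [h] with i hi
  rw [← coeff_ev, ← coeff_ev, hi]

theorem IA3_gm_coeff (p : MvPolynomial σ (k0 K H hH)) (w : σ →₀ ℕ) :
    gm (fun i => coeff w (pr p i)) = algebraMap (k0 K H hH) (GK K) (coeff w p) := by
  have h3 : (fun i => coeff w (pr p i)) =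
      rp (coeff w (map (algebraMap (k0 K H hH) (GK K)) p)) := by
    funext i
    unfold pr
    rw [coeff_ev, coeff_lf]
  rw [h3, gm_rp, coeff_map]

/-- A sequence of polynomials with bounded supports and heights `o(H)`. -/
theorem IA3_seq {g : ℕ → MvPolynomial σ K} {W : Finset (σ →₀ ℕ)}
    (hW : ∀ᶠ i in (hyperfilter ℕ : Filter ℕ), (g i).support ⊆ W) {w₀ : σ →₀ ℕ}
    (h1 : ∀ᶠ i in (hyperfilter ℕ : Filter ℕ), coeff w₀ (g i) = 1)
    (hh : oH H fun i => nh (g i)) :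
    ∃ (G : MvPolynomial σ (k0 K H hH)) (P : MvPolynomial σ (ℕ → K)),
      map (gR K) P = map (algebraMap (k0 K H hH) (GK K)) G ∧
      (∀ᶠ i in (hyperfilter ℕ : Filter ℕ), ev i P = g i) ∧ coeff w₀ G = 1 := by
  classical
  have hk : ∀ w, gm (fun i => coeff w (g i)) ∈ k0 K H hH := fun w =>
    mem_k0.2 (hh.mono (h1.mono fun i hi => IA3_ht hi w))
  have hP : ∀ w, coeff w (∑ w ∈ W, monomial w (fun i => coeff w (g i)) :
      MvPolynomial σ (ℕ → K)) = if w ∈ W then (fun i => coeff w (g i)) else 0 := by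
    intro w
    rw [coeff_sum]
    simp only [coeff_monomial]
    rw [Finset.sum_ite_eq']
  have hG : ∀ w, coeff w (∑ w ∈ W, monomial w ⟨_, hk w⟩ : MvPolynomial σ (k0 K H hH)) =
      if w ∈ W then ⟨_, hk w⟩ else 0 := by
    intro w
    rw [coeff_sum]
    simp only [coeff_monomial]
    rw [Finset.sum_ite_eq']
  refine ⟨∑ w ∈ W, monomial w ⟨_, hk w⟩, ∑ w ∈ W, monomial w (fun i => coeff w (g i)), ?_, ?_, ?_⟩
  · ext w
    rw [coeff_map, coeff_map, hP, hG]
    split_ifs with h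
    · rfl
    · rw [map_zero, map_zero]
  · filter_upwards [hW] with i hi
    ext w
    rw [coeff_ev, hP]
    split_ifs with h
    · rfl
    · have h2 : w ∉ (g i).support := fun h3 => h (hi h3)
      rw [notMem_support_iff.1 h2]
      rfl
  · obtain ⟨i, h2, h3⟩ := (hW.and h1).exists
    have h4 : w₀ ∈ W := h2 (mem_support_iff.2 (by rw [h3]; exact one_ne_zero))
    rw [hG, if_pos h4]
    refine Subtype.ext ?_
    show gm (fun i => coeff w₀ (g i)) = 1
    have h5 : (1 : GK K) = gm fun _ => 1 := rfl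
    rw [h5, gm_eq_iff]
    exact h1

theorem IA3_not_unit {R : Type*} [Field R] {F : MvPolynomial σ R} {w : σ →₀ ℕ} (hw : w ≠ 0)
    (h : coeff w F ≠ 0) : ¬ IsUnit F := by
  intro hu
  rw [isUnit_iff_eq_C_of_isReduced] at hu
  obtain ⟨r, -, rfl⟩ := hu
  classical
  rw [coeff_C, if_neg (Ne.symm hw)] at h
  exact h rfl

theorem IA3_exists {R : Type*} [Field R] {F : MvPolynomial σ R} (hF : F ≠ 0) (h : ¬ IsUnit F) :
    ∃ w, w ≠ 0 ∧ coeff w F ≠ 0 := by
  by_contra hcon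
  push Not at hcon
  apply h
  have h1 : F = C (coeff 0 F) := by
    classical
    ext w
    rw [coeff_C]
    split_ifs with h2
    · rw [h2]
    · exact hcon w (Ne.symm h2)
  rw [h1]
  refine IsUnit.map C (isUnit_iff_ne_zero.2 ?_)
  intro h2
  apply hF
  rw [h1, h2, map_zero]

end

/-- IA3: irreducible polynomials over `k0` stay irreducible at almost all indices. -/
theorem irr_pr {K : Type u} [Field K] [NumberField K] {H : ℕ → ℝ}
    {hH : Tendsto H (hyperfilter ℕ : Filter ℕ) atTop} {σ : Type} [Finite σ]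
    (Ψ : MvPolynomial σ (k0 K H hH)) (hΨ : Irreducible Ψ) :
    ∀ᶠ i in (hyperfilter ℕ : Filter ℕ), Irreducible (pr Ψ i) := by
  classical
  have := Fintype.ofFinite σ
  by_contra hcon
  rw [not_eventually_iff] at hcon
  obtain ⟨W, hW⟩ : ∃ W : Finset (σ →₀ ℕ), ∀ w, w ∈ W ↔ w.degree ≤ Ψ.totalDegree :=
    ⟨(Finsupp.finite_of_degree_le (σ := σ) Ψ.totalDegree).toFinset, fun w => by
      rw [Set.Finite.mem_toFinset]
      rfl⟩
  obtain ⟨w₁, hw₁, hw₁'⟩ := IA3_exists hΨ.ne_zero hΨ.not_isUnit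
  have hne : ∀ᶠ i in (hyperfilter ℕ : Filter ℕ), coeff w₁ (pr Ψ i) ≠ 0 := by
    rw [← gm_ne_zero_iff, IA3_gm_coeff]
    exact (map_ne_zero _).2 hw₁'
  -- the factors
  have hfac : ∀ᶠ i in (hyperfilter ℕ : Filter ℕ),
      ∃ x : (MvPolynomial σ K × MvPolynomial σ K) × (W × W),
        pr Ψ i = x.1.1 * x.1.2 ∧ (x.2.1 : σ →₀ ℕ) ≠ 0 ∧ (x.2.2 : σ →₀ ℕ) ≠ 0 ∧
        coeff (x.2.1 : σ →₀ ℕ) x.1.1 ≠ 0 ∧ coeff (x.2.2 : σ →₀ ℕ) x.1.2 ≠ 0 := by
    filter_upwards [hcon, hne] with i h1 h2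
    have h3 : pr Ψ i ≠ 0 := by
      intro h0
      rw [h0, coeff_zero] at h2
      exact h2 rfl
    rw [irreducible_iff] at h1
    push Not at h1
    obtain ⟨a, b, hab, ha, hb⟩ := h1 (IA3_not_unit hw₁ h2)
    have ha0 : a ≠ 0 := by
      rintro rfl
      rw [zero_mul] at hab
      exact h3 hab
    have hb0 : b ≠ 0 := by
      rintro rfl
      rw [mul_zero] at hab
      exact h3 hab
    have hdeg : a.totalDegree + b.totalDegree ≤ Ψ.totalDegree := by
      rw [← totalDegree_mul_of_isDomain ha0 hb0, ← hab]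
      exact totalDegree_pr Ψ i
    obtain ⟨w, hw, hw'⟩ := IA3_exists ha0 ha
    obtain ⟨z, hz, hz'⟩ := IA3_exists hb0 hb
    have hwW : w ∈ W := (hW w).2 (by
      have := le_totalDegree (mem_support_iff.2 hw')
      rw [Finsupp.degree_eq_sum, Finsupp.sum_fintype _ _ (fun _ => rfl)] at *
      omega)
    have hzW : z ∈ W := (hW z).2 (by
      have := le_totalDegree (mem_support_iff.2 hz')
      rw [Finsupp.degree_eq_sum, Finsupp.sum_fintype _ _ (fun _ => rfl)] at *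
      omega)
    exact ⟨((a, b), (⟨w, hwW⟩, ⟨z, hzW⟩)), hab, hw, hz, hw', hz'⟩
  have hWne : Nonempty W := by
    obtain ⟨i, x, -⟩ := hfac.exists
    exact ⟨x.2.1⟩
  obtain ⟨x, hx⟩ := exists_seq hfac
  obtain ⟨⟨w, z⟩, hwz⟩ := exists_const fun i => (x i).2
  obtain ⟨a, ha⟩ : ∃ a : ℕ → MvPolynomial σ K, ∀ i, a i = (x i).1.1 := ⟨_, fun _ => rfl⟩
  obtain ⟨b, hb⟩ : ∃ b : ℕ → MvPolynomial σ K, ∀ i, b i = (x i).1.2 := ⟨_, fun _ => rfl⟩
  have hev : ∀ᶠ i in (hyperfilter ℕ : Filter ℕ), pr Ψ i = a i * b i ∧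
      (w : σ →₀ ℕ) ≠ 0 ∧ (z : σ →₀ ℕ) ≠ 0 ∧ coeff (w : σ →₀ ℕ) (a i) ≠ 0 ∧
      coeff (z : σ →₀ ℕ) (b i) ≠ 0 := by
    filter_upwards [hx, hwz] with i h1 h2
    rw [ha, hb]
    rw [h2] at h1
    exact h1
  have hw0 : (w : σ →₀ ℕ) ≠ 0 := (hev.exists.choose_spec).2.1
  have hz0 : (z : σ →₀ ℕ) ≠ 0 := (hev.exists.choose_spec).2.2.1
  -- normalisation
  have hsm : oH H fun i => nh1 (pr Ψ i) +
      3 * Module.finrank ℚ K * ∑ t, (degreeOf t Ψ : ℝ) :=
    (oH_nh1_pr Ψ).add (oH_const hH _)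
  have hht : ∀ᶠ i in (hyperfilter ℕ : Filter ℕ),
      nh (C (coeff (w : σ →₀ ℕ) (a i))⁻¹ * a i) + nh (C (coeff (z : σ →₀ ℕ) (b i))⁻¹ * b i) ≤
        nh1 (pr Ψ i) + 3 * Module.finrank ℚ K * ∑ t, (degreeOf t Ψ : ℝ) := by
    filter_upwards [hev] with i hi
    obtain ⟨h1, -, -, h4, h5⟩ := hi
    have ha0 : a i ≠ 0 := by
      intro h0
      rw [h0, coeff_zero] at h4
      exact h4 rfl
    have hb0 : b i ≠ 0 := by
      intro h0
      rw [h0, coeff_zero] at h5
      exact h5 rfl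
    rw [nh_C_mul ha0 (inv_ne_zero h4), nh_C_mul hb0 (inv_ne_zero h5)]
    have h6 := sum_nh_le K (Finset.univ : Finset (Fin 2)) ![a i, b i] (fun j _ => by
      fin_cases j
      · exact ha0
      · exact hb0)
    rw [Fin.sum_univ_two, Fin.prod_univ_two] at h6
    simp only [Matrix.cons_val_zero, Matrix.cons_val_one] at h6
    rw [← h1] at h6
    refine h6.trans (add_le_add (nh_le_nh1 _) ?_)
    refine mul_le_mul_of_nonneg_left (Finset.sum_le_sum fun t _ => ?_) (by positivity)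
    exact_mod_cast degreeOf_pr Ψ i t
  have hsup : ∀ᶠ i in (hyperfilter ℕ : Filter ℕ), (a i).support ⊆ W ∧ (b i).support ⊆ W := by
    filter_upwards [hev] with i hi
    obtain ⟨h1, -, -, h4, h5⟩ := hi
    have ha0 : a i ≠ 0 := by
      intro h0
      rw [h0, coeff_zero] at h4
      exact h4 rfl
    have hb0 : b i ≠ 0 := by
      intro h0
      rw [h0, coeff_zero] at h5
      exact h5 rfl
    have hdeg : (a i).totalDegree + (b i).totalDegree ≤ Ψ.totalDegree := by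
      rw [← totalDegree_mul_of_isDomain ha0 hb0, ← h1]
      exact totalDegree_pr Ψ i
    constructor
    · intro y hy
      refine (hW y).2 ?_
      have := le_totalDegree hy
      rw [Finsupp.degree_eq_sum, Finsupp.sum_fintype _ _ (fun _ => rfl)] at *
      omega
    · intro y hy
      refine (hW y).2 ?_
      have := le_totalDegree hy
      rw [Finsupp.degree_eq_sum, Finsupp.sum_fintype _ _ (fun _ => rfl)] at *
      omega
  have hnn : ∀ᶠ i in (hyperfilter ℕ : Filter ℕ),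
      0 ≤ nh (C (coeff (w : σ →₀ ℕ) (a i))⁻¹ * a i) ∧
      0 ≤ nh (C (coeff (z : σ →₀ ℕ) (b i))⁻¹ * b i) := by
    filter_upwards [hev] with i hi
    obtain ⟨-, -, -, h4, h5⟩ := hi
    constructor
    · refine nh_nonneg (mul_ne_zero (C_ne_zero.2 (inv_ne_zero h4)) ?_)
      intro h0
      rw [h0, coeff_zero] at h4
      exact h4 rfl
    · refine nh_nonneg (mul_ne_zero (C_ne_zero.2 (inv_ne_zero h5)) ?_)
      intro h0
      rw [h0, coeff_zero] at h5
      exact h5 rfl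
  have hsC : ∀ (c : K) (F : MvPolynomial σ K), F.support ⊆ W → (C c * F).support ⊆ W := by
    intro c F hF y hy
    refine hF (mem_support_iff.2 fun h0 => ?_)
    rw [mem_support_iff, coeff_C_mul, h0, mul_zero] at hy
    exact hy rfl
  obtain ⟨Ga, Pa, hGa, hPa, hGa1⟩ := IA3_seq (H := H) (hH := hH)
    (g := fun i => C (coeff (w : σ →₀ ℕ) (a i))⁻¹ * a i) (W := W) (w₀ := w)
    (hsup.mono fun i hi => hsC _ _ hi.1)
    (hev.mono fun i hi => by rw [coeff_C_mul, inv_mul_cancel₀ hi.2.2.2.1])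
    (hsm.mono (by
      filter_upwards [hht, hnn] with i h1 h2
      linarith [h2.2]))
  obtain ⟨Gb, Pb, hGb, hPb, hGb1⟩ := IA3_seq (H := H) (hH := hH)
    (g := fun i => C (coeff (z : σ →₀ ℕ) (b i))⁻¹ * b i) (W := W) (w₀ := z)
    (hsup.mono fun i hi => hsC _ _ hi.2)
    (hev.mono fun i hi => by rw [coeff_C_mul, inv_mul_cancel₀ hi.2.2.2.2])
    (hsm.mono (by
      filter_upwards [hht, hnn] with i h1 h2
      linarith [h2.1]))
  obtain ⟨c, hc⟩ : ∃ c : ℕ → K, ∀ i, c i = coeff (w : σ →₀ ℕ) (a i) * coeff (z : σ →₀ ℕ) (b i) :=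
    ⟨_, fun _ => rfl⟩
  have hprod : C (gm c) * (map (algebraMap (k0 K H hH) (GK K)) Ga *
      map (algebraMap (k0 K H hH) (GK K)) Gb) = map (algebraMap (k0 K H hH) (GK K)) Ψ := by
    have h1 : map (gR K) (C c * (Pa * Pb)) =
        map (gR K) (lf (map (algebraMap (k0 K H hH) (GK K)) Ψ)) := by
      refine IA3_map_eq ?_
      filter_upwards [hPa, hPb, hev] with i h1 h2 h3
      obtain ⟨h3, -, -, h4, h5⟩ := h3
      have h6 : ev i (lf (map (algebraMap (k0 K H hH) (GK K)) Ψ)) = pr Ψ i := rfl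
      have h7 : ev i (C c : MvPolynomial σ (ℕ → K)) = C (c i) := by
        unfold ev
        rw [map_C]
        rfl
      rw [h6, map_mul, map_mul, h1, h2, h7, h3, hc, map_mul]
      have h8 : C (coeff (w : σ →₀ ℕ) (a i)) * C (coeff (w : σ →₀ ℕ) (a i))⁻¹ =
          (1 : MvPolynomial σ K) := by
        rw [← map_mul, mul_inv_cancel₀ h4, map_one]
      have h9 : C (coeff (z : σ →₀ ℕ) (b i)) * C (coeff (z : σ →₀ ℕ) (b i))⁻¹ =
          (1 : MvPolynomial σ K) := by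
        rw [← map_mul, mul_inv_cancel₀ h5, map_one]
      calc _ = (C (coeff (w : σ →₀ ℕ) (a i)) * C (coeff (w : σ →₀ ℕ) (a i))⁻¹) *
          (C (coeff (z : σ →₀ ℕ) (b i)) * C (coeff (z : σ →₀ ℕ) (b i))⁻¹) * (a i * b i) := by ring
        _ = _ := by rw [h8, h9, one_mul, one_mul]
    rw [map_lf, map_mul, map_mul, map_C, hGa, hGb, gR_apply] at h1
    exact h1
  have hGG : Ga * Gb ≠ 0 := by
    refine mul_ne_zero ?_ ?_
    · rintro rfl
      rw [coeff_zero] at hGa1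
      exact zero_ne_one hGa1
    · rintro rfl
      rw [coeff_zero] at hGb1
      exact zero_ne_one hGb1
  obtain ⟨y, hy⟩ := ne_zero_iff.1 hGG
  have hcy : gm c = algebraMap (k0 K H hH) (GK K) (coeff y Ψ / coeff y (Ga * Gb)) := by
    have h1 := congrArg (coeff y) hprod
    rw [← map_mul, coeff_C_mul, coeff_map, coeff_map] at h1
    have h2 : algebraMap (k0 K H hH) (GK K) (coeff y (Ga * Gb)) ≠ 0 := (map_ne_zero _).2 hy
    rw [map_div₀, ← h1, mul_div_assoc, div_self h2, mul_one]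
  have hΨ' : Ψ = (C (coeff y Ψ / coeff y (Ga * Gb)) * Ga) * Gb := by
    refine map_injective _ (algebraMap (k0 K H hH) (GK K)).injective ?_
    rw [← hprod, hcy, map_mul, map_mul, map_C, mul_assoc]
  rcases hΨ.isUnit_or_isUnit hΨ' with hu | hu
  · exact IA3_not_unit hw0 (by rw [hGa1]; exact one_ne_zero) (isUnit_of_mul_isUnit_right hu)
  · exact IA3_not_unit hz0 (by rw [hGb1]; exact one_ne_zero) hu

end Pool.Agent.Lib.MP_17a322_nt.SL
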