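import Pool.Agent.Lib.MP_17a322_nt.SL.IDefs

/-!
The kernel of the evaluation at an algebraic element.
-/

universe u

namespace Pool.Agent.Lib.MP_17a322_nt.SL

section

open Polynomial

variable {R L : Type*} [CommRing R] [IsDomain R] [Field L] [Algebra R L] [FaithfulSMul R L]

/-- The minimal polynomial with denominators cleared. -/
theorem IA4_div (t : L) (ht : IsAlgebraic R t) :
    ∃ M' : R[X], M'.natDegree ≠ 0 ∧ ∀ f : R[X], aeval t f = 0 →
      ∃ (c : R) (q : R[X]), c ≠ 0 ∧ C c * f = M' * q := by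
  let K₀ := FractionRing R
  let _ : Algebra K₀ L := FractionRing.liftAlgebra R L
  have htow : IsScalarTower R K₀ L := inferInstance
  have hinj : Function.Injective (algebraMap R K₀) := IsFractionRing.injective R K₀
  have htK : IsIntegral K₀ t := (ht.extendScalars hinj).isIntegral
  obtain ⟨b, hb, hbm⟩ := IsLocalization.integerNormalization_spec (nonZeroDivisors R)
    (minpoly K₀ t)
  refine ⟨IsLocalization.integerNormalization (nonZeroDivisors R) (minpoly K₀ t), ?_,
    fun f hf => ?_⟩
  · have h1 : (IsLocalization.integerNormalization (nonZeroDivisors R) (minpoly K₀ t)).natDegree =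
        (minpoly K₀ t).natDegree := by
      rw [← natDegree_map_eq_of_injective hinj, hbm,
        ← IsScalarTower.algebraMap_smul K₀ b (minpoly K₀ t), smul_eq_C_mul, natDegree_C_mul]
      exact (map_ne_zero_iff _ hinj).2 (nonZeroDivisors.ne_zero hb)
    rw [h1]
    exact (minpoly.natDegree_pos htK).ne'
  · have h1 : aeval t (f.map (algebraMap R K₀)) = 0 := by
      rw [aeval_map_algebraMap, hf]
    obtain ⟨q₀, hq₀⟩ := minpoly.dvd K₀ t h1
    obtain ⟨c, hc, hcq⟩ := IsLocalization.integerNormalization_spec (nonZeroDivisors R) q₀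
    refine ⟨b * c, IsLocalization.integerNormalization (nonZeroDivisors R) q₀,
      mul_ne_zero (nonZeroDivisors.ne_zero hb) (nonZeroDivisors.ne_zero hc), ?_⟩
    apply map_injective _ hinj
    rw [Polynomial.map_mul, Polynomial.map_mul, hbm, hcq, map_C, hq₀, smul_mul_smul_comm,
      Algebra.smul_def]
    rfl

theorem IA4_prime (t : L) (ht : IsAlgebraic R t) (Ψ : R[X]) (hΨ : Prime Ψ)
    (h0 : aeval t Ψ = 0) (f : R[X]) (hf : aeval t f = 0) : Ψ ∣ f := by
  obtain ⟨M', hM', hdiv⟩ := IA4_div t ht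
  have hM0 : M' ≠ 0 := by
    rintro rfl
    exact hM' natDegree_zero
  have h1 : Ψ ∣ M' := by
    obtain ⟨c, q, hc, hcq⟩ := hdiv Ψ h0
    rcases hΨ.dvd_or_dvd (⟨C c, by rw [← hcq, mul_comm]⟩ : Ψ ∣ M' * q) with h | ⟨q₂, h⟩
    · exact h
    · exfalso
      have h2 : C c = M' * q₂ := by
        have h3 : Ψ * C c = Ψ * (M' * q₂) := by
          rw [mul_comm, hcq, h]
          ring
        exact mul_left_cancel₀ hΨ.ne_zero h3
      have hq₂ : q₂ ≠ 0 := by
        rintro rfl
        rw [mul_zero] at h2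
        exact hc (C_eq_zero.1 h2)
      have h3 := congrArg natDegree h2
      rw [natDegree_C, natDegree_mul hM0 hq₂] at h3
      omega
  obtain ⟨c, q, hc, hcq⟩ := hdiv f hf
  rcases hΨ.dvd_or_dvd (hcq ▸ h1.mul_right q : Ψ ∣ C c * f) with h | h
  · exfalso
    have h2 : Ψ.natDegree ≤ 0 := by
      have h3 := natDegree_le_of_dvd h (C_ne_zero.2 hc)
      rwa [natDegree_C] at h3
    have h3 := eq_C_of_natDegree_le_zero h2
    rw [h3, aeval_C] at h0
    have h4 : Ψ.coeff 0 = 0 := (map_eq_zero_iff _ (FaithfulSMul.algebraMap_injective R L)).1 h0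
    rw [h4, map_zero] at h3
    exact hΨ.ne_zero h3
  · exact h

/-- The elements of the field generated by `θ` are polynomials in `θ` up to a denominator. -/
theorem IA4_field (θ : L) (hθ : IsAlgebraic R θ) :
    ∃ E : Subfield L, (∀ r, algebraMap R L r ∈ E) ∧ θ ∈ E ∧
      ∀ z ∈ E, ∃ (P : R[X]) (h : R), h ≠ 0 ∧ algebraMap R L h * z = aeval θ P := by
  let K₀ := FractionRing R
  let _ : Algebra K₀ L := FractionRing.liftAlgebra R L
  have htow : IsScalarTower R K₀ L := inferInstance
  have hθK : IsIntegral K₀ θ := (hθ.extendScalars (IsFractionRing.injective R K₀)).isIntegral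
  let E := IntermediateField.adjoin K₀ ({θ} : Set L)
  refine ⟨E.toSubfield, fun r => ?_, IntermediateField.mem_adjoin_simple_self K₀ θ,
    fun z hz => ?_⟩
  · rw [IsScalarTower.algebraMap_apply R K₀ L]
    exact E.algebraMap_mem _
  · have h1 : z ∈ Algebra.adjoin K₀ {θ} := by
      have h2 := IntermediateField.adjoin_simple_toSubalgebra_of_isAlgebraic hθK.isAlgebraic
      rw [← h2]
      exact hz
    rw [Algebra.adjoin_singleton_eq_range_aeval] at h1
    obtain ⟨Q, hQ⟩ := h1
    obtain ⟨b, hb, hbQ⟩ := IsLocalization.integerNormalization_spec (nonZeroDivisors R) Q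
    refine ⟨IsLocalization.integerNormalization (nonZeroDivisors R) Q, b,
      nonZeroDivisors.ne_zero hb, ?_⟩
    have h2 : aeval θ ((IsLocalization.integerNormalization (nonZeroDivisors R) Q).map
        (algebraMap R K₀)) = aeval θ (IsLocalization.integerNormalization (nonZeroDivisors R) Q) :=
      aeval_map_algebraMap K₀ θ _
    rw [← h2, hbQ, ← IsScalarTower.algebraMap_smul K₀ b Q, map_smul, Algebra.smul_def,
      ← IsScalarTower.algebraMap_apply R K₀ L]
    congr 1
    exact hQ.symm

end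

open MvPolynomial Height Filter
open Pool.Agent.Lib.MP_17a322_nt.RO
open Pool.Agent.Lib.MP_17a322_nt.VJ
open Pool.Agent.Lib.MP_17a322_nt.VN hiding lf
open Pool.Agent.Lib.MP_17a322_nt.VA
open Pool.Agent.Lib.MP_17a322_nt.VP

theorem IA4_unp {k F : Type*} [Field k] [Field F] [Algebra k F] {n : ℕ} (s : Fin n → F) (t : F)
    (P : Polynomial (MvPolynomial (Fin n) k)) :
    aeval (ot t s) (unp P) = P.eval₂ (aeval (R := k) s).toRingHom t :=
  aeval_unp P (ot t s)

/-- IA4: the cover over the field `k0`: the kernel of the evaluation at an algebraic element. -/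
theorem exists_ker {k F : Type u} [Field k] [Field F] [Algebra k F] {n : ℕ} (s : Fin n → F)
    (hs : AlgebraicIndependent k s) (t : F)
    (ht : IsAlgebraic (IntermediateField.adjoin k (Set.range s)) t) :
    ∃ Ψ : MvPolynomial (Option (Fin n)) k, Irreducible Ψ ∧ Ψ.degreeOf none ≠ 0 ∧
      (∀ f, aeval (ot t s) f = 0 ↔ Ψ ∣ f) ∧
      (∀ g : MvPolynomial (Fin n) k, g ≠ 0 → aeval (ot t s) (rename some g) ≠ 0) ∧
      ∀ x ∈ IntermediateField.adjoin k (Set.range s ∪ {t}),
        ∃ (Y : MvPolynomial (Option (Fin n)) k) (r : MvPolynomial (Fin n) k), r ≠ 0 ∧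
          aeval s r * x = aeval (ot t s) Y := by
  classical
  let _ : Algebra (MvPolynomial (Fin n) k) F := (aeval (R := k) s).toRingHom.toAlgebra
  have hψ : ∀ r : MvPolynomial (Fin n) k, algebraMap (MvPolynomial (Fin n) k) F r = aeval s r :=
    fun _ => rfl
  have hfs : FaithfulSMul (MvPolynomial (Fin n) k) F :=
    (faithfulSMul_iff_algebraMap_injective _ F).2 hs
  have htR : IsAlgebraic (MvPolynomial (Fin n) k) t := by
    rw [IntermediateField.isAlgebraic_adjoin_iff] at ht
    refine ht.ringHom_of_comp_eq (S := MvPolynomial (Fin n) k)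
      (hs.aevalEquiv.symm : Algebra.adjoin k (Set.range s) →+* MvPolynomial (Fin n) k)
      (RingHom.id F) hs.aevalEquiv.symm.injective (RingHom.ext fun c => ?_)
    show aeval s (hs.aevalEquiv.symm c) = (c : F)
    obtain ⟨r, rfl⟩ := hs.aevalEquiv.surjective c
    rw [AlgEquiv.symm_apply_apply]
    exact (hs.algebraMap_aevalEquiv r).symm
  have hev : ∀ P : Polynomial (MvPolynomial (Fin n) k), aeval (ot t s) (unp P) =
      Polynomial.aeval t P := fun P => IA4_unp s t P
  obtain ⟨e, he⟩ : ∃ e : MvPolynomial (Option (Fin n)) k ≃ₐ[k]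
      Polynomial (MvPolynomial (Fin n) k), ∀ f, unp (e f) = f :=
    ⟨optionEquivLeft k (Fin n), fun f => AlgEquiv.symm_apply_apply _ f⟩
  have hev' : ∀ f : MvPolynomial (Option (Fin n)) k, aeval (ot t s) f =
      Polynomial.aeval t (e f) := fun f => by rw [← hev, he]
  let I : Ideal (Polynomial (MvPolynomial (Fin n) k)) :=
    RingHom.ker (Polynomial.aeval (R := MvPolynomial (Fin n) k) t).toRingHom
  have hI : I.IsPrime := RingHom.ker_isPrime _
  have hI0 : I ≠ ⊥ := by
    obtain ⟨p, hp, hp0⟩ := htR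
    intro h0
    have h1 : p ∈ I := hp0
    rw [h0] at h1
    exact hp h1
  obtain ⟨Ψ₀, hΨ₀, hprime⟩ := Ideal.IsPrime.exists_mem_prime_of_ne_bot hI hI0
  have hΨ0 : Polynomial.aeval t Ψ₀ = 0 := hΨ₀
  have heu : ∀ P, e (unp P) = P := by
    intro P
    obtain ⟨f, rfl⟩ := e.surjective P
    rw [he]
  refine ⟨unp Ψ₀, ?_, ?_, ?_, ?_, ?_⟩
  · have h1 : Prime (unp Ψ₀) := by
      rw [← MulEquiv.prime_iff e, heu]
      exact hprime
    exact h1.irreducible
  · rw [degreeOf_none_unp]
    intro h0
    have h3 := Polynomial.eq_C_of_natDegree_le_zero h0.le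
    rw [h3, Polynomial.aeval_C] at hΨ0
    have h4 : Ψ₀.coeff 0 = 0 := (map_eq_zero_iff _ (FaithfulSMul.algebraMap_injective _ F)).1 hΨ0
    rw [h4, map_zero] at h3
    exact hprime.ne_zero h3
  · intro f
    rw [hev']
    constructor
    · intro h
      have h1 := IA4_prime t htR Ψ₀ hprime hΨ0 (e f) h
      have h2 := map_dvd e.symm h1
      rw [AlgEquiv.symm_apply_apply] at h2
      have h3 : e.symm Ψ₀ = unp Ψ₀ := by
        apply e.injective
        rw [AlgEquiv.apply_symm_apply, heu]
      rwa [h3] at h2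
    · rintro ⟨g, rfl⟩
      rw [map_mul, map_mul, heu, hΨ0, zero_mul]
  · intro g hg
    rw [aeval_rename]
    have h1 : ot t s ∘ some = s := rfl
    rw [h1]
    exact (map_ne_zero_iff _ hs).2 hg
  · intro x hx
    obtain ⟨E, hE1, hE2, hE3⟩ := IA4_field t htR
    have hkE : ∀ c : k, algebraMap k F c ∈ E := by
      intro c
      have h1 := hE1 (C c)
      rw [hψ, algHom_C] at h1
      exact h1
    have h1 : IntermediateField.adjoin k (Set.range s ∪ {t}) ≤ E.toIntermediateField hkE := by
      rw [IntermediateField.adjoin_le_iff]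
      rintro _ (⟨j, rfl⟩ | rfl)
      · have h2 := hE1 (X j)
        rw [hψ, aeval_X] at h2
        exact h2
      · exact hE2
    obtain ⟨P, h, hh, hP⟩ := hE3 x (h1 hx)
    exact ⟨unp P, h, hh, by rw [hev]; exact hP⟩

end Pool.Agent.Lib.MP_17a322_nt.SL
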