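import Pool.Agent.Lib.MP_17a322_nt.SL.IA4

/-!
The cover over the field `k0`: field theory.
-/

universe u

namespace Pool.Agent.Lib.MP_17a322_nt.SL

open MvPolynomial Height Filter
open Pool.Agent.Lib.MP_17a322_nt.RO
open Pool.Agent.Lib.MP_17a322_nt.VJ
open Pool.Agent.Lib.MP_17a322_nt.VN hiding lf
open Pool.Agent.Lib.MP_17a322_nt.VA
open Pool.Agent.Lib.MP_17a322_nt.VP

section

variable {k L : Type u} [Field k] [Field L] [Algebra k L] {n : ℕ} (s : Fin n → L)

theorem IA5_frac {c : L} (hc : c ∈ IntermediateField.adjoin k (Set.range s)) :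
    ∃ a b : MvPolynomial (Fin n) k, aeval s b ≠ 0 ∧ aeval s b * c = aeval s a := by
  rw [IntermediateField.mem_adjoin_range_iff] at hc
  obtain ⟨a, b, rfl⟩ := hc
  by_cases hb : aeval s b = 0
  · exact ⟨0, 1, by rw [map_one]; exact one_ne_zero, by rw [hb, div_zero, mul_zero, map_zero]⟩
  · exact ⟨a, b, hb, mul_div_cancel₀ _ hb⟩

/-- Common denominators. -/
theorem IA5_common {S : Type*} [CommRing S] (F : S →+* L) (D : MvPolynomial (Fin n) k →+* S)
    (hFD : ∀ r, F (D r) = aeval s r) {ι : Type*} [Fintype ι] (c : ι → L)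
    (hc : ∀ j, ∃ (Y : S) (r : MvPolynomial (Fin n) k), aeval s r ≠ 0 ∧
      aeval s r * c j = F Y) :
    ∃ (d : MvPolynomial (Fin n) k) (Y : ι → S), aeval s d ≠ 0 ∧
      ∀ j, aeval s d * c j = F (Y j) := by
  classical
  choose Y r hr hY using hc
  refine ⟨∏ j, r j, fun j => D (∏ j' ∈ Finset.univ.erase j, r j') * Y j, ?_, fun j => ?_⟩
  · rw [map_prod]
    exact Finset.prod_ne_zero_iff.2 fun j _ => hr j
  · rw [map_mul, hFD, ← hY, ← Finset.mul_prod_erase Finset.univ r (Finset.mem_univ j), map_mul]
    ring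

theorem IA5_alg {ι : Type*} (w : ι → L) {z : L}
    (hz : z ∈ Algebra.adjoin (IntermediateField.adjoin k (Set.range s)) (Set.range w)) :
    ∃ (r : MvPolynomial (Fin n) k) (R : MvPolynomial (Fin n ⊕ ι) k), aeval s r ≠ 0 ∧
      aeval s r * z = aeval (Sum.elim s w) R := by
  have hin : ∀ a : MvPolynomial (Fin n) k,
      aeval (Sum.elim s w) (rename Sum.inl a : MvPolynomial (Fin n ⊕ ι) k) = aeval s a := by
    intro a
    rw [aeval_rename, Sum.elim_comp_inl]
  induction hz using Algebra.adjoin_induction with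
  | mem x hx =>
    obtain ⟨j, rfl⟩ := hx
    refine ⟨1, X (Sum.inr j), ?_, ?_⟩
    · rw [map_one]
      exact one_ne_zero
    · rw [map_one, one_mul, aeval_X]
      rfl
  | algebraMap c =>
    obtain ⟨a, b, hb, hab⟩ := IA5_frac s c.2
    refine ⟨b, rename Sum.inl a, hb, ?_⟩
    rw [hin, ← hab]
    rfl
  | add x y _ _ hx hy =>
    obtain ⟨r, R, hr, hR⟩ := hx
    obtain ⟨r', R', hr', hR'⟩ := hy
    refine ⟨r * r', rename Sum.inl r' * R + rename Sum.inl r * R', ?_, ?_⟩
    · rw [map_mul]
      exact mul_ne_zero hr hr'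
    · rw [map_add, map_mul, map_mul, map_mul, hin, hin, ← hR, ← hR']
      ring
  | mul x y _ _ hx hy =>
    obtain ⟨r, R, hr, hR⟩ := hx
    obtain ⟨r', R', hr', hR'⟩ := hy
    refine ⟨r * r', R * R', ?_, ?_⟩
    · rw [map_mul]
      exact mul_ne_zero hr hr'
    · rw [map_mul, map_mul, ← hR, ← hR']
      ring

/-- The degree of the minimal polynomial is at most the degree of an equation. -/
theorem IA5_le (hs : AlgebraicIndependent k s) (t : L) (Ψ : MvPolynomial (Option (Fin n)) k)
    (hΨ : Ψ ≠ 0) (h0 : aeval (ot t s) Ψ = 0) :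
    (minpoly (IntermediateField.adjoin k (Set.range s)) t).natDegree ≤ Ψ.degreeOf none := by
  obtain ⟨φ, hφ⟩ : ∃ φ : MvPolynomial (Fin n) k →ₐ[k] IntermediateField.adjoin k (Set.range s),
      φ = aeval (fun j => (⟨s j, IntermediateField.subset_adjoin k _ ⟨j, rfl⟩⟩ :
        IntermediateField.adjoin k (Set.range s))) := ⟨_, rfl⟩
  have hφs : ∀ r, ((φ r : IntermediateField.adjoin k (Set.range s)) : L) = aeval s r := by
    intro r
    have h1 : (IntermediateField.adjoin k (Set.range s)).val.comp φ = aeval s := by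
      apply MvPolynomial.algHom_ext
      intro j
      rw [AlgHom.comp_apply, hφ, aeval_X, aeval_X]
      rfl
    exact congrArg (fun f => f r) h1
  have hinj : Function.Injective φ := by
    intro a b h
    have h1 := congrArg (fun x : IntermediateField.adjoin k (Set.range s) => (x : L)) h
    simp only [hφs] at h1
    exact hs h1
  obtain ⟨P, hP⟩ : ∃ P : Polynomial (MvPolynomial (Fin n) k), Ψ = unp P :=
    ⟨optionEquivLeft k (Fin n) Ψ, (AlgEquiv.symm_apply_apply _ Ψ).symm⟩
  have hP0 : P ≠ 0 := by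
    rintro rfl
    apply hΨ
    rw [hP]
    exact map_zero _
  have h1 : P.map φ.toRingHom ≠ 0 := (Polynomial.map_ne_zero_iff hinj).2 hP0
  have h2 : Polynomial.aeval t (P.map φ.toRingHom) = 0 := by
    rw [Polynomial.aeval_def, Polynomial.eval₂_map, ← h0, hP, IA4_unp]
    congr 1
    refine RingHom.ext fun r => ?_
    exact hφs r
  have h3 := Polynomial.natDegree_le_natDegree
    (minpoly.degree_le_of_ne_zero (IntermediateField.adjoin k (Set.range s)) t h1 h2)
  rw [hP, degreeOf_none_unp]
  exact h3.trans Polynomial.natDegree_map_le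

/-- A lower bound of the degree of the minimal polynomial. -/
theorem IA5_ge (θ : L) (hθ : IsAlgebraic (IntermediateField.adjoin k (Set.range s)) θ) (g : ℕ)
    (hg : ∀ f : Polynomial (MvPolynomial (Fin n) k), f.natDegree < g →
      f.eval₂ (aeval (R := k) s).toRingHom θ = 0 → f = 0) :
    g ≤ (minpoly (IntermediateField.adjoin k (Set.range s)) θ).natDegree := by
  by_contra hlt
  push Not at hlt
  obtain ⟨m, hm⟩ : ∃ m, m = minpoly (IntermediateField.adjoin k (Set.range s)) θ := ⟨_, rfl⟩
  rw [← hm] at hlt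
  have hmm : m.Monic := by
    rw [hm]
    exact minpoly.monic hθ.isIntegral
  have hm0 : Polynomial.aeval θ m = 0 := by
    rw [hm]
    exact minpoly.aeval _ _
  obtain ⟨d, Y, hd, hY⟩ := IA5_common s (aeval (R := k) s).toRingHom (RingHom.id _)
    (fun _ => rfl) (fun j : Fin (m.natDegree + 1) => ((m.coeff j : _) : L)) fun j => by
      obtain ⟨a, b, hb, hab⟩ := IA5_frac s (m.coeff j).2
      exact ⟨a, b, hb, hab⟩
  have hf0 := hg (∑ j : Fin (m.natDegree + 1), Polynomial.C (Y j) * Polynomial.X ^ (j : ℕ)) ?_ ?_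
  · have h1 := congrArg (fun f => Polynomial.coeff f m.natDegree) hf0
    simp only [Polynomial.finsetSum_coeff, Polynomial.coeff_C_mul, Polynomial.coeff_X_pow,
      Polynomial.coeff_zero] at h1
    rw [Finset.sum_eq_single (Fin.last m.natDegree)] at h1
    · rw [Fin.val_last, if_pos rfl, mul_one] at h1
      have h2 := hY (Fin.last m.natDegree)
      rw [h1, map_zero, Fin.val_last] at h2
      have h3 : m.coeff m.natDegree = 1 := hmm
      rw [h3] at h2
      apply hd
      have h4 : ((1 : IntermediateField.adjoin k (Set.range s)) : L) = 1 := rfl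
      rw [h4, mul_one] at h2
      exact h2
    · intro j _ hj
      rw [if_neg, mul_zero]
      intro h
      exact hj (Fin.ext h.symm)
    · intro h
      exact absurd (Finset.mem_univ _) h
  · refine lt_of_le_of_lt ?_ hlt
    refine Polynomial.natDegree_sum_le_of_forall_le _ _ fun j _ => ?_
    exact (Polynomial.natDegree_C_mul_X_pow_le _ _).trans (Nat.lt_succ_iff.1 j.2)
  · rw [Polynomial.eval₂_finsetSum]
    have h1 : ∀ j : Fin (m.natDegree + 1), (Polynomial.C (Y j) * Polynomial.X ^ (j : ℕ)).eval₂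
        (aeval (R := k) s).toRingHom θ = aeval s d * (((m.coeff j : _) : L) * θ ^ (j : ℕ)) := by
      intro j
      rw [Polynomial.eval₂_mul, Polynomial.eval₂_C, Polynomial.eval₂_pow, Polynomial.eval₂_X,
        ← mul_assoc, hY]
    rw [Finset.sum_congr rfl fun j _ => h1 j, ← Finset.mul_sum]
    rw [Polynomial.aeval_eq_sum_range, ← Fin.sum_univ_eq_sum_range
      (fun j => m.coeff j • θ ^ j)] at hm0
    have h2 : ∑ j : Fin (m.natDegree + 1), ((m.coeff j : _) : L) * θ ^ (j : ℕ) = 0 := hm0
    rw [h2, mul_zero]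

/-- A primitive element which generates a larger field. -/
theorem IA5_prim {F E : Type*} [Field F] [CharZero F] [Field E] [Algebra F E] {ι : Type*}
    [Finite ι] (w : ι → E) (hw : ∀ j, IsAlgebraic F (w j)) (j₀ j₁ : ι)
    (hne : w j₁ ∉ IntermediateField.adjoin F {w j₀}) (g : ℕ)
    (hg : g ≤ (minpoly F (w j₀)).natDegree) :
    ∃ t : E, IsAlgebraic F t ∧ IntermediateField.adjoin F {t} =
      IntermediateField.adjoin F (Set.range w) ∧ g < (minpoly F t).natDegree := by
  have hfin : FiniteDimensional F (IntermediateField.adjoin F (Set.range w)) := by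
    refine IntermediateField.finiteDimensional_adjoin ?_
    rintro _ ⟨j, rfl⟩
    exact (hw j).isIntegral
  obtain ⟨α, hα⟩ := Field.exists_primitive_element F (IntermediateField.adjoin F (Set.range w))
  have h1 : IntermediateField.adjoin F {(α : E)} = IntermediateField.adjoin F (Set.range w) := by
    have h2 := congrArg IntermediateField.lift hα
    rw [IntermediateField.lift_adjoin_simple, IntermediateField.lift_top] at h2
    exact h2
  have hαi : IsIntegral F (α : E) := by
    have h2 : IsIntegral F α := IsIntegral.of_finite F α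
    exact h2.map (IntermediateField.adjoin F (Set.range w)).val
  refine ⟨α, hαi.isAlgebraic, h1, ?_⟩
  by_contra hlt
  push Not at hlt
  have h2 : IntermediateField.adjoin F {w j₀} ≤ IntermediateField.adjoin F (Set.range w) :=
    IntermediateField.adjoin.mono _ _ _ (Set.singleton_subset_iff.2 ⟨j₀, rfl⟩)
  have h3 : IntermediateField.adjoin F {w j₀} = IntermediateField.adjoin F (Set.range w) := by
    refine IntermediateField.eq_of_le_of_finrank_le h2 ?_
    rw [IntermediateField.adjoin.finrank (hw j₀).isIntegral, ← h1,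
      IntermediateField.adjoin.finrank hαi]
    exact hlt.trans hg
  apply hne
  rw [h3]
  exact IntermediateField.subset_adjoin _ _ ⟨j₁, rfl⟩

/-- The cover over the field `k`. -/
theorem IA5_field [CharZero k] (hs : AlgebraicIndependent k s) {q : ℕ} (θ : L)
    (μ : Fin (q + 1) → L) (l₀ : Fin (q + 1)) (hμ0 : μ l₀ = 1)
    (hθ : IsAlgebraic (IntermediateField.adjoin k (Set.range s)) θ)
    (hμ : ∀ l, IsAlgebraic (IntermediateField.adjoin k (Set.range s)) (μ l)) (l₁ : Fin (q + 1))
    (hne : μ l₁ ∉ IntermediateField.adjoin (IntermediateField.adjoin k (Set.range s)) {θ})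
    (g : ℕ) (hg : ∀ f : Polynomial (MvPolynomial (Fin n) k), f.natDegree < g →
      f.eval₂ (aeval (R := k) s).toRingHom θ = 0 → f = 0) :
    ∃ (t : L) (Ψ Θ : MvPolynomial (Option (Fin n)) k)
      (M : Fin (q + 1) → MvPolynomial (Option (Fin n)) k) (d : MvPolynomial (Fin n) k),
      Irreducible Ψ ∧ g < Ψ.degreeOf none ∧ (∀ f, aeval (ot t s) f = 0 ↔ Ψ ∣ f) ∧
      aeval s d ≠ 0 ∧ M l₀ = rename some d ∧ aeval (ot t s) Θ = aeval s d * θ ∧
      (∀ l, aeval (ot t s) (M l) = aeval s d * μ l) ∧
      ∃ (r : MvPolynomial (Fin n) k) (R : MvPolynomial (Fin n ⊕ Option (Fin (q + 1))) k),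
        aeval s r ≠ 0 ∧ aeval s r * t = aeval (Sum.elim s fun o : Option (Fin (q + 1)) =>
          o.elim (aeval s d * θ) fun l => aeval s d * μ l) R := by
  classical
  obtain ⟨w, hw⟩ : ∃ w : Option (Fin (q + 1)) → L, w = fun o => o.elim θ μ := ⟨_, rfl⟩
  have hwn : w none = θ := by
    rw [hw]
    rfl
  have hws : ∀ l, w (some l) = μ l := fun l => by
    rw [hw]
    rfl
  have hwa : ∀ j, IsAlgebraic (IntermediateField.adjoin k (Set.range s)) (w j) := by
    intro j
    cases j with
    | none => rw [hwn]; exact hθ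
    | some l => rw [hws]; exact hμ l
  have hc : CharZero (IntermediateField.adjoin k (Set.range s)) := inferInstance
  obtain ⟨t, ht, htw, hgt⟩ := IA5_prim w hwa none (some l₁) (by rw [hws, hwn]; exact hne) g
    (by rw [hwn]; exact IA5_ge s θ hθ g hg)
  obtain ⟨Ψ, hirr, hdeg, hker, hind, hfr⟩ := exists_ker s hs t ht
  have hrs : ∀ r : MvPolynomial (Fin n) k, aeval (ot t s) (rename some r) = aeval s r := by
    intro r
    rw [aeval_rename]
    rfl
  obtain ⟨d, Y, hd, hY⟩ := IA5_common s (aeval (R := k) (ot t s)).toRingHom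
    (rename (R := k) some).toRingHom (fun r => hrs r) w fun j => by
      have h1 : w j ∈ IntermediateField.adjoin k (Set.range s ∪ {t}) := by
        rw [← IntermediateField.adjoin_adjoin_left]
        show w j ∈ IntermediateField.adjoin (IntermediateField.adjoin k (Set.range s)) {t}
        rw [htw]
        exact IntermediateField.subset_adjoin _ _ ⟨j, rfl⟩
      obtain ⟨Y, r, hr, hrY⟩ := hfr _ h1
      exact ⟨Y, r, (map_ne_zero_iff _ hs).2 hr, hrY⟩
  have hΨ0 : aeval (ot t s) Ψ = 0 := (hker Ψ).2 dvd_rfl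
  obtain ⟨w', hw'⟩ : ∃ w' : Option (Fin (q + 1)) → L, w' = fun o => o.elim (aeval s d * θ)
      fun l => aeval s d * μ l := ⟨_, rfl⟩
  have hw'w : ∀ j, w' j = aeval s d * w j := by
    intro j
    rw [hw', hw]
    cases j <;> rfl
  have hds : aeval s d ∈ IntermediateField.adjoin k (Set.range s) := by
    rw [IntermediateField.mem_adjoin_range_iff]
    exact ⟨d, 1, by rw [map_one, div_one]⟩
  obtain ⟨r, R, hr, hR⟩ := IA5_alg s w' (z := t) (by
    have h1 : t ∈ IntermediateField.adjoin (IntermediateField.adjoin k (Set.range s))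
        (Set.range w') := by
      have h2 : t ∈ IntermediateField.adjoin (IntermediateField.adjoin k (Set.range s)) {t} :=
        IntermediateField.mem_adjoin_simple_self _ t
      rw [htw] at h2
      refine (IntermediateField.adjoin_le_iff.2 ?_) h2
      rintro _ ⟨j, rfl⟩
      have h3 : w j = (aeval s d)⁻¹ * w' j := by
        rw [hw'w, inv_mul_cancel_left₀ hd]
      rw [h3]
      refine mul_mem (inv_mem ?_) (IntermediateField.subset_adjoin _ _ ⟨j, rfl⟩)
      exact (IntermediateField.adjoin (IntermediateField.adjoin k (Set.range s))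
        (Set.range w')).algebraMap_mem ⟨_, hds⟩
    have h2 := IntermediateField.adjoin_toSubalgebra_of_isAlgebraic
      (F := IntermediateField.adjoin k (Set.range s)) (S := Set.range w') (by
        rintro _ ⟨j, rfl⟩
        rw [hw'w]
        exact (isAlgebraic_algebraMap (⟨_, hds⟩ :
          IntermediateField.adjoin k (Set.range s))).mul (hwa j))
    rw [← h2]
    exact h1)
  refine ⟨t, Ψ, Y none, fun l => if l = l₀ then rename some d else Y (some l), d, hirr,
    hgt.trans_le (IA5_le s hs t Ψ hirr.ne_zero hΨ0), hker, hd, if_pos rfl, ?_, fun l => ?_,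
    r, R, hr, ?_⟩
  · rw [← hwn]
    exact (hY none).symm
  · show aeval (ot t s) (if l = l₀ then rename some d else Y (some l)) = _
    split_ifs with h
    · rw [h, hμ0, mul_one, hrs]
    · rw [← hws]
      exact (hY (some l)).symm
  · rw [hR, hw']

end

end Pool.Agent.Lib.MP_17a322_nt.SL
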