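import Pool.Agent.Lib.MP_17a322_nt.SL.IA5a
import Pool.Agent.Lib.MP_17a322_nt.SL.P6
import Pool.Agent.Lib.MP_17a322_nt.VP.EN3

/-!
The cover over the field `k0`: the functions of the point.
-/

universe u

namespace Pool.Agent.Lib.MP_17a322_nt.SL

open MvPolynomial Height Filter
open Pool.Agent.Lib.MP_17a322_nt.RO
open Pool.Agent.Lib.MP_17a322_nt.VJ
open Pool.Agent.Lib.MP_17a322_nt.VN hiding lf
open Pool.Agent.Lib.MP_17a322_nt.VA
open Pool.Agent.Lib.MP_17a322_nt.VP

section

variable {K k L : Type u} [Field K] [Field k] [Field L] [Algebra K k] [Algebra k L]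
  [Algebra K L] [IsScalarTower K k L]

theorem IA5_mem {σ : Type*} (E : IntermediateField k L) (v : σ → L) (hv : ∀ j, v j ∈ E)
    (f : MvPolynomial σ K) : aeval v f ∈ E := by
  induction f using MvPolynomial.induction_on with
  | C a =>
    rw [algHom_C, IsScalarTower.algebraMap_apply K k L]
    exact E.algebraMap_mem _
  | add p q hp hq =>
    rw [map_add]
    exact add_mem hp hq
  | mul_X p i hp =>
    rw [map_mul, aeval_X]
    exact mul_mem hp (hv i)

theorem IA5_lf_mem {N : ℕ} (E : IntermediateField k L) (l : Fin (N + 1) → K)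
    (v : Fin (N + 1) → L) (hv : ∀ j, v j ∈ E) : lf l v ∈ E := by
  unfold lf
  refine sum_mem fun a _ => mul_mem ?_ (hv a)
  rw [IsScalarTower.algebraMap_apply K k L]
  exact E.algebraMap_mem _

end

section

variable {K : Type u} [Field K] {k : Type u} [Field k] [Algebra K k] {N n e : ℕ} {B : AV K N}
  (nd : Noe B n e)

theorem IA5_T {S : Type u} [CommRing S] [Algebra K S] [Algebra k S] [IsScalarTower K k S]
    (y : Fin (N + 1) → S) (Q : Polynomial (MvPolynomial (Fin n) k)) :
    aeval y (P5_T nd k Q) =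
      Q.eval₂ (aeval (R := k) fun j : Fin n => lf (nd.l j.succ) y).toRingHom
        (aeval y nd.θ) := by
  unfold P5_T
  have h1 := Polynomial.hom_eval₂ Q (aeval (R := k) fun j : Fin n => MvPolynomial.map
    (algebraMap K k) (lp (nd.l j.succ))).toRingHom (aeval (R := k) y).toRingHom
    (MvPolynomial.map (algebraMap K k) nd.θ)
  have h2 : (aeval (R := k) y).toRingHom.comp (aeval (R := k) fun j : Fin n =>
      MvPolynomial.map (algebraMap K k) (lp (nd.l j.succ))).toRingHom =
      (aeval (R := k) fun j : Fin n => lf (nd.l j.succ) y).toRingHom := by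
    refine MvPolynomial.ringHom_ext (fun c => ?_) fun j => ?_
    · show aeval y (aeval _ (C c)) = aeval _ (C c)
      rw [algHom_C, algHom_C, MvPolynomial.algebraMap_eq, algHom_C]
    · show aeval y (aeval _ (X j)) = aeval _ (X j)
      rw [aeval_X, aeval_X, aeval_map_algebraMap, aeval_lp]
  rw [h2] at h1
  have h3 : (aeval (R := k) y).toRingHom (MvPolynomial.map (algebraMap K k) nd.θ) =
      aeval y nd.θ := aeval_map_algebraMap k y nd.θ
  rw [h3] at h1
  exact h1

variable {L : Type u} [Field L] [Algebra k L] [Algebra K L] [IsScalarTower K k L] (b : B.Pts L)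

/-- The primitive element has degree `deg Φ` over the field of the Noether coordinates. -/
theorem IA5_EN (hgood : nd.Good b) (hind : AlgebraicIndependent k (nd.s b))
    (f : Polynomial (MvPolynomial (Fin n) k)) (hf : f.natDegree < nd.Φ.natDegree)
    (h0 : f.eval₂ (aeval (R := k) (nd.s b)).toRingHom (aeval (nd.y b) nd.θ) = 0) : f = 0 := by
  have hy1 := Z_lf_y nd hgood.1
  have hyp := nd.y_isPt b
  have hls : (fun j : Fin n => lf (nd.l j.succ) (nd.y b)) = nd.s b :=
    funext fun j => Z_lf_s nd b j
  obtain ⟨s', hs'⟩ : ∃ s' : Fin n → AlgebraicClosure L,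
      s' = fun j => algebraMap L (AlgebraicClosure L) (nd.s b j) := ⟨_, rfl⟩
  have hind' : AlgebraicIndependent k s' := by
    have h1 := hind.map' (f := IsScalarTower.toAlgHom k L (AlgebraicClosure L))
      (algebraMap L (AlgebraicClosure L)).injective
    rw [hs']
    exact h1
  have hδ : aeval s' nd.δ ≠ 0 := by
    have h1 : aeval s' nd.δ = algebraMap L (AlgebraicClosure L) (aeval (nd.s b) nd.δ) := by
      rw [hs']
      exact aeval_algebraMap_apply _ _ _
    rw [h1]
    exact (map_ne_zero _).2 hgood.2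
  obtain ⟨S, hS, hSr⟩ := EN_roots nd s' hδ
  have h1 : f.map (aeval (R := k) s').toRingHom = 0 := by
    refine Polynomial.eq_zero_of_natDegree_lt_card_of_eval_eq_zero' _ S (fun r hr => ?_) ?_
    · obtain ⟨y', hy', hy'1, hy's, hy'θ⟩ := nd.back (AlgebraicClosure L) s' r ((hSr r).1 hr)
        (isUnit_iff_ne_zero.2 hδ)
      have h2 := EN_gen nd (k := k) hyp hy1 (by rw [hls]; exact hind) (P := P5_T nd k f)
        (by rw [IA5_T, hls]; exact h0) hy' hy'1
      rw [IA5_T, hy'θ] at h2
      have h3 : (fun j : Fin n => lf (nd.l j.succ) y') = s' := funext hy's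
      rw [h3] at h2
      rw [Polynomial.eval_map]
      exact h2
    · rw [hS]
      exact lt_of_le_of_lt Polynomial.natDegree_map_le hf
  exact (Polynomial.map_eq_zero_iff (f := (aeval (R := k) s').toRingHom) hind').1 h1

/-- The field of the point is generated by the Noether coordinates and the primitive element. -/
theorem IA5_adj (hgood : nd.Good b) :
    IntermediateField.adjoin k (Set.range (rt (B.x b))) =
      IntermediateField.adjoin k (Set.range (nd.s b) ∪ {aeval (nd.y b) nd.θ}) := by
  have hy1 := Z_lf_y nd hgood.1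
  have hyp := nd.y_isPt b
  have hls : (fun j : Fin n => lf (nd.l j.succ) (nd.y b)) = nd.s b :=
    funext fun j => Z_lf_s nd b j
  apply le_antisymm
  · obtain ⟨E, hE⟩ : ∃ E : IntermediateField k L,
      E = IntermediateField.adjoin k (Set.range (nd.s b) ∪ {aeval (nd.y b) nd.θ}) := ⟨_, rfl⟩
    have hsE : ∀ j, nd.s b j ∈ E := fun j => by
      rw [hE]
      exact IntermediateField.subset_adjoin _ _ (Or.inl ⟨j, rfl⟩)
    have hθE : aeval (nd.y b) nd.θ ∈ E := by
      rw [hE]
      exact IntermediateField.subset_adjoin _ _ (Or.inr rfl)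
    rw [← hE]
    have hyE : ∀ j, nd.y b j ∈ E := by
      intro j
      have h1 := nd.p_eq L _ hyp hy1 j
      rw [hls] at h1
      have h2 : nd.y b j = (aeval (nd.s b) nd.δ)⁻¹ *
          (nd.p j).eval₂ (aeval (R := K) (nd.s b)).toRingHom (aeval (nd.y b) nd.θ) := by
        rw [← h1, inv_mul_cancel_left₀ hgood.2]
      rw [h2]
      refine mul_mem (inv_mem (IA5_mem E _ hsE _)) ?_
      rw [Polynomial.eval₂_eq_sum_range]
      exact sum_mem fun i _ => mul_mem (IA5_mem E _ hsE _) (pow_mem hθE _)
    rw [IntermediateField.adjoin_le_iff]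
    rintro _ ⟨i, rfl⟩
    have h2 : rt (B.x b) i = nd.y b i.1 / nd.y b i.2 := by
      unfold rt Noe.y
      rw [div_div_div_cancel_right₀ hgood.1]
    rw [h2]
    exact div_mem (hyE _) (hyE _)
  · obtain ⟨E, hE⟩ : ∃ E : IntermediateField k L,
      E = IntermediateField.adjoin k (Set.range (rt (B.x b))) := ⟨_, rfl⟩
    have hrE : ∀ p, rt (B.x b) p ∈ E := fun p => by
      rw [hE]
      exact IntermediateField.subset_adjoin _ _ ⟨p, rfl⟩
    rw [← hE]
    obtain ⟨i₀, hi₀⟩ : ∃ i₀, B.x b i₀ ≠ 0 := by
      by_contra hcon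
      push Not at hcon
      apply hgood.1
      unfold lf
      exact Finset.sum_eq_zero fun a _ => by rw [hcon, mul_zero]
    have hyE : ∀ j, nd.y b j ∈ E := by
      intro j
      have h1 : lf (nd.l 0) (B.x b) = B.x b i₀ * lf (nd.l 0) fun a => rt (B.x b) (a, i₀) := by
        have h2 : B.x b = fun a => B.x b i₀ * rt (B.x b) (a, i₀) := by
          funext a
          unfold rt
          exact (mul_div_cancel₀ _ hi₀).symm
        rw [← Z_lf_smul, ← h2]
      have h2 : nd.y b j = rt (B.x b) (j, i₀) / lf (nd.l 0) fun a => rt (B.x b) (a, i₀) := by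
        have h3 : nd.y b j = B.x b j / lf (nd.l 0) (B.x b) := rfl
        rw [h3, h1, ← div_div]
        rfl
      rw [h2]
      exact div_mem (hrE _) (IA5_lf_mem E _ _ fun a => hrE _)
    rw [IntermediateField.adjoin_le_iff]
    rintro _ (⟨j, rfl⟩ | h)
    · rw [← Z_lf_s nd b j]
      exact IA5_lf_mem E _ _ hyE
    · rw [h]
      exact IA5_mem E _ hyE _

theorem IA5_int (hgood : nd.Good b) :
    IsIntegral (IntermediateField.adjoin k (Set.range (nd.s b))) (aeval (nd.y b) nd.θ) := by
  have hy1 := Z_lf_y nd hgood.1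
  have hyp := nd.y_isPt b
  have hls : (fun j : Fin n => lf (nd.l j.succ) (nd.y b)) = nd.s b :=
    funext fun j => Z_lf_s nd b j
  obtain ⟨φ, hφ⟩ : ∃ φ : MvPolynomial (Fin n) K →ₐ[K]
      IntermediateField.adjoin k (Set.range (nd.s b)),
      φ = aeval (fun j => (⟨nd.s b j, IntermediateField.subset_adjoin k _ ⟨j, rfl⟩⟩ :
        IntermediateField.adjoin k (Set.range (nd.s b)))) := ⟨_, rfl⟩
  have hφs : ∀ r, ((φ r : IntermediateField.adjoin k (Set.range (nd.s b))) : L) =
      aeval (nd.s b) r := by
    intro r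
    have htow : IsScalarTower K (IntermediateField.adjoin k (Set.range (nd.s b))) L :=
      IsScalarTower.of_algebraMap_eq fun _ => rfl
    have h1 : (IsScalarTower.toAlgHom K (IntermediateField.adjoin k (Set.range (nd.s b)))
        L).comp φ = aeval (nd.s b) := by
      apply MvPolynomial.algHom_ext
      intro j
      rw [AlgHom.comp_apply, hφ, aeval_X, aeval_X]
      rfl
    exact congrArg (fun f => f r) h1
  refine ⟨nd.Φ.map φ.toRingHom, nd.Φ_monic.map _, ?_⟩
  rw [Polynomial.eval₂_map]
  have h1 := nd.Φ_zero L _ hyp hy1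
  rw [hls] at h1
  rw [← h1]
  congr 1
  exact RingHom.ext fun r => hφs r

theorem IA5_trans (hgood : nd.Good b) {x : L}
    (hx : IsAlgebraic (IntermediateField.adjoin k (Set.range (rt (B.x b)))) x) :
    IsAlgebraic (IntermediateField.adjoin k (Set.range (nd.s b))) x := by
  rw [IA5_adj nd b hgood, ← IntermediateField.adjoin_adjoin_left] at hx
  have h1 : IsAlgebraic (IntermediateField.adjoin
    (IntermediateField.adjoin k (Set.range (nd.s b))) {aeval (nd.y b) nd.θ}) x := hx
  have h2 : Algebra.IsAlgebraic (IntermediateField.adjoin k (Set.range (nd.s b)))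
    (IntermediateField.adjoin
    (IntermediateField.adjoin k (Set.range (nd.s b))) {aeval (nd.y b) nd.θ}) :=
    IntermediateField.isAlgebraic_adjoin_simple (IA5_int nd b hgood)
  exact h1.restrictScalars _

theorem IA5_not (hgood : nd.Good b) {x : L}
    (hx : x ∉ IntermediateField.adjoin k (Set.range (rt (B.x b)))) :
    x ∉ IntermediateField.adjoin (IntermediateField.adjoin k (Set.range (nd.s b)))
      {aeval (nd.y b) nd.θ} := by
  rw [IA5_adj nd b hgood, ← IntermediateField.adjoin_adjoin_left] at hx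
  exact hx

end

end Pool.Agent.Lib.MP_17a322_nt.SL
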