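import Pool.Agent.Lib.MP_17a322_nt.SL.IA5b
import Pool.Agent.Lib.MP_17a322_nt.SL.IA5c

/-!
The cover at almost all indices.
-/

universe u

namespace Pool.Agent.Lib.MP_17a322_nt.SL

open MvPolynomial Height Filter
open Pool.Agent.Lib.MP_17a322_nt.RO
open Pool.Agent.Lib.MP_17a322_nt.VJ
open Pool.Agent.Lib.MP_17a322_nt.VN hiding lf
open Pool.Agent.Lib.MP_17a322_nt.VA
open Pool.Agent.Lib.MP_17a322_nt.VP

/-- The coordinates, the primitive element and the coordinates of the hyperplane. -/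
noncomputable def IA5W {k : Type*} [CommRing k] {n q : ℕ} (Θ : MvPolynomial (Option (Fin n)) k)
    (M : Fin (q + 1) → MvPolynomial (Option (Fin n)) k) :
    Fin n ⊕ Option (Fin (q + 1)) → MvPolynomial (Option (Fin n)) k :=
  Sum.elim (fun j => X (some j)) fun o => o.elim Θ M

section

variable {K : Type u} [Field K] {k : Type u} [Field k] [Algebra K k] {N n e : ℕ} {B : AV K N}
  (nd : Noe B n e) {L : Type u} [Field L] [Algebra k L] [Algebra K L] [IsScalarTower K k L]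
  (b : B.Pts L)

/-- The cover over the field `k`. -/
theorem IA5_data [CharZero k] (hgood : nd.Good b) (hind : AlgebraicIndependent k (nd.s b))
    {q : ℕ} (μ : Fin (q + 1) → L) (l₀ : Fin (q + 1)) (hμ0 : μ l₀ = 1)
    (halg : ∀ l, IsAlgebraic (IntermediateField.adjoin k (Set.range (rt (B.x b)))) (μ l))
    (l₁ : Fin (q + 1)) (hnot : μ l₁ ∉ IntermediateField.adjoin k (Set.range (rt (B.x b)))) :
    ∃ (t : L) (Ψ Θ h h' : MvPolynomial (Option (Fin n)) k)
      (M : Fin (q + 1) → MvPolynomial (Option (Fin n)) k) (d r : MvPolynomial (Fin n) k)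
      (R : MvPolynomial (Fin n ⊕ Option (Fin (q + 1))) k),
      Irreducible Ψ ∧ nd.Φ.natDegree < Ψ.degreeOf none ∧ aeval (ot t (nd.s b)) Ψ = 0 ∧
      aeval (ot t (nd.s b)) (pderiv none Ψ) ≠ 0 ∧ aeval (nd.s b) d ≠ 0 ∧
      M l₀ = rename some d ∧ aeval (ot t (nd.s b)) Θ = aeval (nd.s b) d * aeval (nd.y b) nd.θ ∧
      (∀ l, aeval (ot t (nd.s b)) (M l) = aeval (nd.s b) d * μ l) ∧
      ∑ i ∈ Finset.range (nd.Φ.natDegree + 1),
        rename some (MvPolynomial.map (algebraMap K k) (nd.Φ.coeff i)) * Θ ^ i *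
          M l₀ ^ (nd.Φ.natDegree - i) = Ψ * h ∧
      r ≠ 0 ∧ rename some r * X none - bind₁ (IA5W Θ M) R = Ψ * h' := by
  have hy1 := Z_lf_y nd hgood.1
  have hyp := nd.y_isPt b
  have hls : (fun j : Fin n => lf (nd.l j.succ) (nd.y b)) = nd.s b :=
    funext fun j => Z_lf_s nd b j
  obtain ⟨t, Ψ, Θ, M, d, hirr, hdeg, hker, hd, hM₀, hΘ, hM, r, R, hr, hR⟩ :=
    IA5_field (nd.s b) hind (aeval (nd.y b) nd.θ) μ l₀ hμ0 (IA5_int nd b hgood).isAlgebraic
      (fun l => IA5_trans nd b hgood (halg l)) l₁ (IA5_not nd b hgood hnot) nd.Φ.natDegree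
      fun f hf h0 => IA5_EN nd b hgood hind f hf h0
  have hrs : ∀ r : MvPolynomial (Fin n) k, aeval (ot t (nd.s b)) (rename some r) =
      aeval (nd.s b) r := by
    intro r
    rw [aeval_rename]
    rfl
  obtain ⟨h, hh⟩ : Ψ ∣ ∑ i ∈ Finset.range (nd.Φ.natDegree + 1),
      rename some (MvPolynomial.map (algebraMap K k) (nd.Φ.coeff i)) * Θ ^ i *
        M l₀ ^ (nd.Φ.natDegree - i) := by
    rw [← hker, map_sum]
    have h1 := nd.Φ_zero L _ hyp hy1
    rw [hls, Polynomial.eval₂_eq_sum_range] at h1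
    have h2 : ∀ i ∈ Finset.range (nd.Φ.natDegree + 1), aeval (ot t (nd.s b))
        (rename some (MvPolynomial.map (algebraMap K k) (nd.Φ.coeff i)) * Θ ^ i *
          M l₀ ^ (nd.Φ.natDegree - i)) = aeval (nd.s b) d ^ nd.Φ.natDegree *
        ((aeval (R := K) (nd.s b)).toRingHom (nd.Φ.coeff i) * aeval (nd.y b) nd.θ ^ i) := by
      intro i hi
      rw [map_mul, map_mul, map_pow, map_pow, hrs, aeval_map_algebraMap, hΘ, hM₀, hrs]
      have h3 : aeval (nd.s b) d ^ nd.Φ.natDegree = aeval (nd.s b) d ^ i *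
          aeval (nd.s b) d ^ (nd.Φ.natDegree - i) := by
        rw [← pow_add, Nat.add_sub_cancel' (Nat.lt_succ_iff.1 (Finset.mem_range.1 hi))]
      rw [h3]
      show aeval (nd.s b) (nd.Φ.coeff i) * _ * _ = _ * (aeval (nd.s b) (nd.Φ.coeff i) * _)
      ring
    rw [Finset.sum_congr rfl h2, ← Finset.mul_sum, h1, mul_zero]
  obtain ⟨h', hh'⟩ : Ψ ∣ rename some r * X none - bind₁ (IA5W Θ M) R := by
    rw [← hker, map_sub, map_mul, hrs, aeval_X, aeval_bind₁]
    have h1 : (fun i => aeval (ot t (nd.s b)) (IA5W Θ M i)) =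
        Sum.elim (nd.s b) fun o : Option (Fin (q + 1)) =>
          o.elim (aeval (nd.s b) d * aeval (nd.y b) nd.θ) fun l => aeval (nd.s b) d * μ l := by
      funext i
      rcases i with j | (_ | l)
      · exact aeval_X _ _
      · exact hΘ
      · exact hM l
    rw [h1, ← hR]
    exact sub_self _
  refine ⟨t, Ψ, Θ, h, h', M, d, r, R, hirr, hdeg, (hker Ψ).2 dvd_rfl, ?_, hd, hM₀, hΘ, hM, hh,
    ?_, hh'⟩
  · intro h0
    exact IA5_dvd Ψ (by omega) ((hker _).1 h0)
  · rintro rfl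
    exact hr (map_zero _)

end

end Pool.Agent.Lib.MP_17a322_nt.SL
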