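import Pool.Agent.Lib.MP_17a322_nt.SL.IA5d

/-!
The cover at almost all indices.
-/

universe u

namespace Pool.Agent.Lib.MP_17a322_nt.SL

open MvPolynomial Height Filter
open Pool.Agent.Lib.MP_17a322_nt.RO
open Pool.Agent.Lib.MP_17a322_nt.VJ
open Pool.Agent.Lib.MP_17a322_nt.VN hiding lf
open Pool.Agent.Lib.MP_17a322_nt.VA
open Pool.Agent.Lib.MP_17a322_nt.VP

theorem IA5_aeval_W {k : Type*} [CommRing k] {n q : ℕ} (Θ : MvPolynomial (Option (Fin n)) k)
    (M : Fin (q + 1) → MvPolynomial (Option (Fin n)) k) {R : Type*} [CommRing R] [Algebra k R]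
    (s : Fin n → R) (t : R) (P : MvPolynomial (Fin n ⊕ Option (Fin (q + 1))) k) :
    aeval (ot t s) (bind₁ (IA5W Θ M) P) = aeval (Sum.elim s fun o : Option (Fin (q + 1)) =>
      o.elim (aeval (ot t s) Θ) fun l => aeval (ot t s) (M l)) P := by
  rw [aeval_bind₁]
  congr 2
  funext i
  rcases i with j | (_ | l)
  · exact aeval_X _ _
  · rfl
  · rfl

theorem IA5_some {k : Type*} [CommRing k] {n : ℕ} {R : Type*} [CommRing R] [Algebra k R]
    (s : Fin n → R) (t : R) (P : MvPolynomial (Fin n) k) :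
    aeval (ot t s) (rename some P) = aeval s P := by
  rw [aeval_rename]
  rfl

theorem IA5_deg_some {k : Type*} [CommRing k] {n : ℕ} (P : MvPolynomial (Fin n) k) :
    (rename some P : MvPolynomial (Option (Fin n)) k).degreeOf none = 0 := by
  classical
  rw [degreeOf_eq_sup]
  refine Nat.le_zero.1 (Finset.sup_le fun w hw => ?_)
  by_contra h
  have h1 : none ∈ (rename some P : MvPolynomial (Option (Fin n)) k).vars := by
    rw [mem_vars_iff_mem_support]
    exact ⟨w, hw, Finsupp.mem_support_iff.2 fun h0 => h (by rw [h0])⟩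
  have h2 := vars_rename some P h1
  rw [Finset.mem_image] at h2
  obtain ⟨j, -, hj⟩ := h2
  exact Option.some_ne_none j hj

section

variable {K : Type u} [Field K] [NumberField K] {H : ℕ → ℝ}
  {hH : Tendsto H (hyperfilter ℕ : Filter ℕ) atTop} {n : ℕ}

theorem IA5_rel_pr (Φ : Polynomial (MvPolynomial (Fin n) K))
    (Ψ Θ M h : MvPolynomial (Option (Fin n)) (k0 K H hH))
    (hh : ∑ i ∈ Finset.range (Φ.natDegree + 1),
        rename some (MvPolynomial.map (algebraMap K (k0 K H hH)) (Φ.coeff i)) * Θ ^ i *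
          M ^ (Φ.natDegree - i) = Ψ * h) :
    ∀ᶠ i in (hyperfilter ℕ : Filter ℕ), ∑ j ∈ Finset.range (Φ.natDegree + 1),
        rename some (Φ.coeff j) * pr Θ i ^ j * pr M i ^ (Φ.natDegree - j) =
          pr Ψ i * pr h i := by
  have h1 : ∀ j ∈ Finset.range (Φ.natDegree + 1), ∀ᶠ i in (hyperfilter ℕ : Filter ℕ),
      pr (rename some (MvPolynomial.map (algebraMap K (k0 K H hH)) (Φ.coeff j)) * Θ ^ j *
          M ^ (Φ.natDegree - j)) i =
        rename some (Φ.coeff j) * pr Θ i ^ j * pr M i ^ (Φ.natDegree - j) := by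
    intro j _
    filter_upwards [IA5_pr_mul (rename some (MvPolynomial.map (algebraMap K (k0 K H hH))
        (Φ.coeff j)) * Θ ^ j) (M ^ (Φ.natDegree - j)),
      IA5_pr_mul (rename some (MvPolynomial.map (algebraMap K (k0 K H hH)) (Φ.coeff j))) (Θ ^ j),
      IA5_pr_pow Θ j, IA5_pr_pow M (Φ.natDegree - j),
      IA5_pr_rename some (MvPolynomial.map (algebraMap K (k0 K H hH)) (Φ.coeff j)),
      IA5_pr_map (H := H) (hH := hH) (Φ.coeff j)] with i g1 g2 g3 g4 g5 g6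
    rw [g1, g2, g3, g4, g5, g6]
  rw [← eventually_all_finset] at h1
  filter_upwards [h1, IA5_pr_sum (Finset.range (Φ.natDegree + 1)) fun j =>
    rename some (MvPolynomial.map (algebraMap K (k0 K H hH)) (Φ.coeff j)) * Θ ^ j *
      M ^ (Φ.natDegree - j), IA5_pr_mul Ψ h] with i g1 g2 g3
  rw [← g3, ← hh, g2]
  exact Finset.sum_congr rfl fun j hj => (g1 j hj).symm

theorem IA5_inj_pr {q : ℕ} (Ψ Θ h : MvPolynomial (Option (Fin n)) (k0 K H hH))
    (M : Fin (q + 1) → MvPolynomial (Option (Fin n)) (k0 K H hH))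
    (r : MvPolynomial (Fin n) (k0 K H hH))
    (R : MvPolynomial (Fin n ⊕ Option (Fin (q + 1))) (k0 K H hH))
    (hh : rename some r * X none - bind₁ (IA5W Θ M) R = Ψ * h) :
    ∀ᶠ i in (hyperfilter ℕ : Filter ℕ),
      rename some (pr r i) * X none - bind₁ (IA5W (pr Θ i) fun l => pr (M l) i) (pr R i) =
        pr Ψ i * pr h i := by
  have h1 : ∀ j, ∀ᶠ i in (hyperfilter ℕ : Filter ℕ),
      pr (IA5W Θ M j) i = IA5W (pr Θ i) (fun l => pr (M l) i) j := by
    rintro (j | (_ | l))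
    · exact IA5_pr_X (some j)
    · exact Eventually.of_forall fun i => rfl
    · exact Eventually.of_forall fun i => rfl
  rw [← eventually_all] at h1
  filter_upwards [h1, IA5_pr_sub (rename some r * X none) (bind₁ (IA5W Θ M) R),
    IA5_pr_mul (rename some r) (X none : MvPolynomial (Option (Fin n)) (k0 K H hH)),
    IA5_pr_rename some r, IA5_pr_X (K := K) (H := H) (hH := hH) (none : Option (Fin n)),
    IA5_pr_bind (IA5W Θ M) R, IA5_pr_mul Ψ h] with i g1 g2 g3 g4 g5 g6 g7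
  have g8 : (fun j => pr (IA5W Θ M j) i) = IA5W (pr Θ i) (fun l => pr (M l) i) := funext g1
  rw [← g7, ← hh, g2, g3, g4, g5, g6, g8]

end

/-- IA5: the cover at the index `i`. -/
theorem IA5_main {K : Type u} [Field K] [NumberField K] {N : ℕ} {B : AV K N} {H : ℕ → ℝ}
    (hH : Tendsto H (hyperfilter ℕ : Filter ℕ) atTop) (Q : ℕ → B.Pts K) (b : B.Pts (GK K))
    (hb : IsGerm B Q b) {n e : ℕ} (nd : Noe B n e) (hgood : nd.Good b)
    (hind : AlgebraicIndependent (k0 K H hH) (nd.s b)) {q : ℕ} (μ : ℕ → Fin (q + 1) → K)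
    (l₀ : Fin (q + 1)) (hμ0 : ∀ᶠ i in (hyperfilter ℕ : Filter ℕ), μ i l₀ = 1)
    (halg : ∀ l, IsAlgebraic (IntermediateField.adjoin (k0 K H hH) (Set.range (rt (B.x b))))
      (gm fun i => μ i l)) (l₁ : Fin (q + 1))
    (hnot : gm (fun i => μ i l₁) ∉
      IntermediateField.adjoin (k0 K H hH) (Set.range (rt (B.x b))))
    (hprime : ∀ Ψ : MvPolynomial (Option (Fin n)) K, Irreducible Ψ → ∀ (s : Fin n → K) (t : K),
      aeval (ot t s) Ψ = 0 → aeval (ot t s) (pderiv none Ψ) ≠ 0 → ∀ (L : Type u) [Field L]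
      [Algebra K L], Prime (MvPolynomial.map (algebraMap K L) Ψ)) :
    ∃ (Dc : ℕ) (a : ℕ → ℝ), oH H a ∧ ∀ᶠ i in (hyperfilter ℕ : Filter ℕ),
      ∃ (Ψ Θ : MvPolynomial (Option (Fin n)) K)
        (M : Fin (q + 1) → MvPolynomial (Option (Fin n)) K) (t : K),
        Cov nd l₀ Dc Ψ Θ M ∧ CovAt nd l₀ Ψ Θ M (Q i) (μ i) t (a i) := by
  have hμ1 : gm (fun i => μ i l₀) = 1 := by
    rw [← gm_one, gm_eq_iff]
    exact hμ0
  obtain ⟨t, Ψ, Θ, h, h', M, d, r, R, hirr, hdeg, hΨ0, hΨ1, hd, hM₀, hΘ, hM, hh, hr, hh'⟩ :=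
    IA5_data nd b hgood hind (fun l => gm fun i => μ i l) l₀ hμ1 halg l₁ hnot
  obtain ⟨τ, hτ⟩ := exists_gm t
  have hval : ∀ p : MvPolynomial (Option (Fin n)) (k0 K H hH),
      gm (fun i => aeval (ot (τ i) (nd.s (Q i))) (pr p i)) = aeval (ot t (nd.s b)) p := by
    intro p
    have h1 := gm_eval_pr p fun i => ot (τ i) (nd.s (Q i))
    have h2 : (fun o => gm fun i => ot (τ i) (nd.s (Q i)) o) = ot t (nd.s b) := by
      funext o
      cases o with
      | none => exact hτ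
      | some j => exact (s_germ nd hb j).symm
    rw [h2] at h1
    exact h1
  have hθ : gm (fun i => aeval (nd.y (Q i)) nd.θ) = aeval (nd.y b) nd.θ := by
    rw [gm_aeval]
    congr 2
    exact funext fun a => (P6_y_germ nd hb a).symm
  have hM₀' : aeval (ot t (nd.s b)) (M l₀) = aeval (nd.s b) d := by
    rw [hM, hμ1, mul_one]
  have e3 : ∀ᶠ i in (hyperfilter ℕ : Filter ℕ),
      aeval (ot (τ i) (nd.s (Q i))) (pr Ψ i) = 0 := by
    rw [← gm_eq_zero_iff, hval, hΨ0]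
  have e4 : ∀ᶠ i in (hyperfilter ℕ : Filter ℕ),
      aeval (ot (τ i) (nd.s (Q i))) (pr (pderiv none Ψ) i) ≠ 0 := by
    rw [← gm_ne_zero_iff, hval]
    exact hΨ1
  have e5 : ∀ᶠ i in (hyperfilter ℕ : Filter ℕ),
      aeval (ot (τ i) (nd.s (Q i))) (pr (M l₀) i) ≠ 0 := by
    rw [← gm_ne_zero_iff, hval, hM₀']
    exact hd
  have e6 : ∀ᶠ i in (hyperfilter ℕ : Filter ℕ), aeval (ot (τ i) (nd.s (Q i))) (pr Θ i) =
      aeval (ot (τ i) (nd.s (Q i))) (pr (M l₀) i) * aeval (nd.y (Q i)) nd.θ := by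
    rw [← gm_eq_iff, gm_mul, hval, hval, hθ, hM₀', hΘ]
  have e7 : ∀ᶠ i in (hyperfilter ℕ : Filter ℕ), ∀ l,
      aeval (ot (τ i) (nd.s (Q i))) (pr (M l) i) =
      aeval (ot (τ i) (nd.s (Q i))) (pr (M l₀) i) * μ i l := by
    rw [eventually_all]
    intro l
    rw [← gm_eq_iff, gm_mul, hval, hval, hM₀', hM]
  have hsum : ∀ l, (M l).totalDegree ≤ ∑ l, (M l).totalDegree := fun l =>
    Finset.single_le_sum (f := fun l => (M l).totalDegree) (fun _ _ => Nat.zero_le _)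
      (Finset.mem_univ l)
  have hsum' : ∀ i l, nh1 (pr (M l) i) ≤ ∑ l, nh1 (pr (M l) i) := fun i l =>
    Finset.single_le_sum (f := fun l => nh1 (pr (M l) i)) (fun _ _ => nh1_nonneg _)
      (Finset.mem_univ l)
  have hdg : ∀ (p : MvPolynomial (Option (Fin n)) (k0 K H hH)) i y,
      (pr p i).degreeOf y ≤ p.totalDegree := fun p i y =>
    (degreeOf_pr p i y).trans (degreeOf_le_totalDegree p y)
  refine ⟨Ψ.totalDegree + Θ.totalDegree + ∑ l, (M l).totalDegree,
    fun i => nh1 (pr Ψ i) + nh1 (pr Θ i) + ∑ l, nh1 (pr (M l) i),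
    ((oH_nh1_pr Ψ).add (oH_nh1_pr Θ)).add (oH.sum hH _ _ fun l _ => oH_nh1_pr (M l)), ?_⟩
  filter_upwards [irr_pr Ψ hirr, IA5_pr_degreeOf Ψ none hdeg, e3, e4, e5, e6, e7,
    pr_pderiv Ψ none, IA5_rel_pr nd.Φ Ψ Θ (M l₀) h hh, IA5_inj_pr Ψ Θ h' M r R hh',
    pr_ne_zero hr] with i e1 e2 e3 e4 e5 e6 e7 e8 e9 e10 e11
  rw [e8] at e4
  refine ⟨pr Ψ i, pr Θ i, fun l => pr (M l) i, τ i, ?_, ?_⟩
  · refine ⟨fun L _ _ => hprime _ e1 _ _ e3 e4 L, e2, ?_, ?_, ?_, ?_, ?_, ?_, ?_⟩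
    · refine Nat.le_zero.1 ((degreeOf_pr _ _ _).trans ?_)
      rw [hM₀, IA5_deg_some]
    · intro h0
      have h1 : pr (M l₀) i = 0 := h0
      rw [h1, map_zero] at e5
      exact e5 rfl
    · intro S _ _ s t h0
      have h1 := congrArg (aeval (ot t s)) e9
      rw [map_mul, h0, zero_mul, map_sum] at h1
      rw [← h1]
      refine Finset.sum_congr rfl fun j _ => ?_
      rw [map_mul, map_mul, map_pow, map_pow, IA5_some]
    · intro Ω _ _ s t t' hs h0 h0' hT hM'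
      have h1 := congrArg (aeval (ot t s)) e10
      have h2 := congrArg (aeval (ot t' s)) e10
      rw [map_mul, h0, zero_mul, map_sub, map_mul, IA5_some, aeval_X, IA5_aeval_W] at h1
      rw [map_mul, h0', zero_mul, map_sub, map_mul, IA5_some, aeval_X, IA5_aeval_W] at h2
      have h3 : (fun l => aeval (ot t s) (pr (M l) i)) =
          fun l => aeval (ot t' s) (pr (M l) i) := funext hM'
      rw [hT, h3] at h1
      have h4 : aeval s (pr r i) ≠ 0 := (map_ne_zero_iff _ hs).2 e11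
      have h5 : aeval s (pr r i) * ot t s none = aeval s (pr r i) * ot t' s none := by
        rw [sub_eq_zero.1 h1, sub_eq_zero.1 h2]
      exact mul_left_cancel₀ h4 h5
    · intro y
      exact (hdg _ _ _).trans (by omega)
    · intro y
      exact (hdg _ _ _).trans (by omega)
    · intro l y
      exact (hdg _ _ _).trans ((hsum l).trans (by omega))
  · have g1 := nh1_nonneg (pr Ψ i)
    have g2 := nh1_nonneg (pr Θ i)
    have g3 : 0 ≤ ∑ l, nh1 (pr (M l) i) := Finset.sum_nonneg fun l _ => nh1_nonneg _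
    refine ⟨e3, e4, e5, e6, e7, ?_, ?_, fun l => ?_⟩
    · show nh1 (pr Ψ i) ≤ nh1 (pr Ψ i) + nh1 (pr Θ i) + ∑ l, nh1 (pr (M l) i)
      linarith
    · show nh1 (pr Θ i) ≤ nh1 (pr Ψ i) + nh1 (pr Θ i) + ∑ l, nh1 (pr (M l) i)
      linarith
    · show nh1 (pr (M l) i) ≤ nh1 (pr Ψ i) + nh1 (pr Θ i) + ∑ l, nh1 (pr (M l) i)
      have g4 := hsum' i l
      linarith

end Pool.Agent.Lib.MP_17a322_nt.SL
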