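import Pool.Agent.Lib.MP_17a322_nt.SL.IA4

/-!
Two points of the cover over one point.
-/

universe u

namespace Pool.Agent.Lib.MP_17a322_nt.SL

section

open Polynomial

variable {R L : Type*} [CommRing R] [IsDomain R] [CharZero R] [Field L] [Algebra R L]
  [FaithfulSMul R L]

/-- The roots of a prime polynomial are simple. -/
theorem IA6_simple (p : R[X]) (hp : Prime p) (hd : p.natDegree ≠ 0) (t : L)
    (ht : aeval t p = 0) : aeval t (derivative p) ≠ 0 := by
  intro h
  have h1 : IsAlgebraic R t := ⟨p, hp.ne_zero, ht⟩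
  have h2 := IA4_prime t h1 p hp ht (derivative p) h
  have h3 : derivative p ≠ 0 := fun h4 => hd (derivative_eq_zero.mp h4)
  have h4 := natDegree_le_of_dvd h2 h3
  have h5 := natDegree_derivative_lt hd
  omega

/-- A prime polynomial of degree `d` has `d` roots. -/
theorem IA6_roots [IsAlgClosed L] (p : R[X]) (hp : Prime p) (hd : p.natDegree ≠ 0) :
    ∃ S : Finset L, S.card = p.natDegree ∧ ∀ t ∈ S, aeval t p = 0 := by
  classical
  have hinj : Function.Injective (algebraMap R L) := FaithfulSMul.algebraMap_injective R L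
  have hne : p.map (algebraMap R L) ≠ 0 := (Polynomial.map_ne_zero_iff hinj).mpr hp.ne_zero
  have hroot : ∀ t, t ∈ (p.map (algebraMap R L)).roots → aeval t p = 0 := by
    intro t ht
    have h1 := isRoot_of_mem_roots ht
    rw [IsRoot.def, eval_map_algebraMap] at h1
    exact h1
  have hnd : (p.map (algebraMap R L)).roots.Nodup := by
    rw [Multiset.nodup_iff_count_le_one]
    intro t
    rw [count_roots]
    by_contra hcon
    push Not at hcon
    rw [one_lt_rootMultiplicity_iff_isRoot hne] at hcon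
    obtain ⟨h1, h2⟩ := hcon
    rw [derivative_map, IsRoot.def, eval_map_algebraMap] at h2
    rw [IsRoot.def, eval_map_algebraMap] at h1
    exact IA6_simple p hp hd t h1 h2
  refine ⟨(p.map (algebraMap R L)).roots.toFinset, ?_, fun t ht => hroot t ?_⟩
  · rw [Multiset.toFinset_card_of_nodup hnd,
      ← natDegree_map_eq_of_injective hinj (p := p)]
    exact (splits_iff_card_roots.mp (IsAlgClosed.splits _))
  · rwa [Multiset.mem_toFinset] at ht

end

open MvPolynomial Height Filter
open Pool.Agent.Lib.MP_17a322_nt.RO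
open Pool.Agent.Lib.MP_17a322_nt.VJ
open Pool.Agent.Lib.MP_17a322_nt.VN hiding lf
open Pool.Agent.Lib.MP_17a322_nt.VA
open Pool.Agent.Lib.MP_17a322_nt.VP

/-- IA6: two points of the cover over one point of `B`. -/
theorem exists_two {K : Type u} [Field K] {N : ℕ} {B : AV K N} {n e : ℕ} (nd : Noe B n e)
    {q : ℕ} {l₀ : Fin (q + 1)} {Dc : ℕ} {Ψ Θ : MvPolynomial (Option (Fin n)) K}
    {M : Fin (q + 1) → MvPolynomial (Option (Fin n)) K} (hC : Cov nd l₀ Dc Ψ Θ M)
    {Ω : Type u} [Field Ω] [IsAlgClosed Ω] [CharZero Ω] [Algebra K Ω] (s : Fin n → Ω)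
    (hs : AlgebraicIndependent K s) :
    ∃ T : Fin 2 → Ω, (∀ c, aeval (ot (T c) s) Ψ = 0) ∧
      aeval (ot (T 0) s) Θ = aeval (ot (T 1) s) Θ ∧
      ∃ l, aeval (ot (T 0) s) (M l) ≠ aeval (ot (T 1) s) (M l) := by
  classical
  have hK : CharZero K := ((algebraMap K Ω).charZero_iff (algebraMap K Ω).injective).mpr inferInstance
  let _ : Algebra (MvPolynomial (Fin n) K) Ω := (aeval (R := K) s).toRingHom.toAlgebra
  have hfs : FaithfulSMul (MvPolynomial (Fin n) K) Ω :=
    (faithfulSMul_iff_algebraMap_injective _ Ω).2 hs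
  have hev : ∀ (t : Ω) (P : Polynomial (MvPolynomial (Fin n) K)), aeval (ot t s) (unp P) =
      Polynomial.aeval t P := fun t P => IA4_unp s t P
  obtain ⟨e, he⟩ : ∃ e : MvPolynomial (Option (Fin n)) K ≃ₐ[K]
      Polynomial (MvPolynomial (Fin n) K), ∀ f, unp (e f) = f :=
    ⟨optionEquivLeft K (Fin n), fun f => AlgEquiv.symm_apply_apply _ f⟩
  have hev' : ∀ (t : Ω) (f : MvPolynomial (Option (Fin n)) K), aeval (ot t s) f =
      Polynomial.aeval t (e f) := fun t f => by rw [← hev, he]
  have hdeg : ∀ f : MvPolynomial (Option (Fin n)) K, (e f).natDegree = f.degreeOf none := by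
    intro f
    conv_rhs => rw [← he f]
    rw [degreeOf_none_unp]
  have hprime : Prime (e Ψ) := by
    have h1 := hC.prime K
    rw [show algebraMap K K = RingHom.id K from rfl, MvPolynomial.map_id] at h1
    exact (MulEquiv.prime_iff e).mpr h1
  have hd : (e Ψ).natDegree ≠ 0 := by
    rw [hdeg]
    have := hC.deg
    omega
  obtain ⟨S, hScard, hSroot⟩ := IA6_roots (L := Ω) (e Ψ) hprime hd
  -- the denominator
  obtain ⟨r, hr⟩ : ∃ r : MvPolynomial (Fin n) K, e (M l₀) = Polynomial.C r :=
    ⟨_, Polynomial.eq_C_of_natDegree_eq_zero (by rw [hdeg]; exact hC.den)⟩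
  have hr0 : r ≠ 0 := by
    rintro rfl
    rw [map_zero] at hr
    exact hC.den_ne ((map_eq_zero_iff e e.injective).mp hr)
  have hden : ∀ t : Ω, aeval (ot t s) (M l₀) = aeval s r := by
    intro t
    rw [hev', hr, Polynomial.aeval_C]
    rfl
  have hden0 : aeval s r ≠ 0 := fun h => hr0 (hs (by rw [h, map_zero]))
  -- the values
  obtain ⟨φ, hφ⟩ : ∃ φ : MvPolynomial (Fin n) K →+* Ω, φ = (aeval s).toRingHom := ⟨_, rfl⟩
  have hΦ0 : nd.Φ.map φ ≠ 0 := (nd.Φ_monic.map φ).ne_zero
  have hval : ∀ t ∈ S, aeval (ot t s) Θ / aeval s r ∈ (nd.Φ.map φ).roots.toFinset := by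
    intro t ht
    rw [Multiset.mem_toFinset, Polynomial.mem_roots hΦ0, Polynomial.IsRoot.def,
      Polynomial.eval_map, Polynomial.eval₂_eq_sum_range]
    have h1 := hC.rel Ω s t (by rw [hev']; exact hSroot t ht)
    rw [hden] at h1
    have h2 : (∑ k ∈ Finset.range (nd.Φ.natDegree + 1),
        φ (nd.Φ.coeff k) * (aeval (ot t s) Θ / aeval s r) ^ k) * aeval s r ^ nd.Φ.natDegree = 0 := by
      rw [Finset.sum_mul, ← h1]
      refine Finset.sum_congr rfl fun k hk => ?_
      rw [Finset.mem_range] at hk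
      have h3 : aeval s r ^ nd.Φ.natDegree = aeval s r ^ k * aeval s r ^ (nd.Φ.natDegree - k) := by
        rw [← pow_add]
        congr 1
        omega
      rw [h3, div_pow, hφ]
      have h4 : aeval s r ^ k ≠ 0 := pow_ne_zero k hden0
      show aeval s (nd.Φ.coeff k) * (_ / _) * _ = _
      field_simp
    exact (mul_eq_zero.mp h2).resolve_right (pow_ne_zero _ hden0)
  have hcard : ((nd.Φ.map φ).roots.toFinset).card < S.card := by
    rw [hScard, hdeg]
    refine lt_of_le_of_lt ?_ hC.deg
    refine (Multiset.toFinset_card_le _).trans ((Polynomial.card_roots' _).trans ?_)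
    exact Polynomial.natDegree_map_le
  obtain ⟨t, ht, t', ht', hne, hvv⟩ := Finset.exists_ne_map_eq_of_card_lt_of_maps_to hcard hval
  have hΘ : aeval (ot t s) Θ = aeval (ot t' s) Θ := by
    have h1 := (div_left_inj' hden0).mp hvv
    exact h1
  have hz : ∀ t ∈ S, aeval (ot t s) Ψ = 0 := fun t ht => by rw [hev']; exact hSroot t ht
  refine ⟨![t, t'], ?_, hΘ, ?_⟩
  · intro c
    fin_cases c
    · exact hz t ht
    · exact hz t' ht'
  · by_contra hcon
    push Not at hcon
    exact hne (hC.inj Ω s t t' hs (hz t ht) (hz t' ht') hΘ hcon)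

end Pool.Agent.Lib.MP_17a322_nt.SL
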