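import Pool.Agent.Lib.MP_17a322_nt.SL.IA6
import Pool.Agent.Lib.MP_17a322_nt.VP.EN3
import Pool.Agent.Lib.MP_17a322_nt.VA.E22
import Pool.Agent.Lib.MP_17a322_nt.VA.Z3

/-!
A generic configuration with two points in each cover.
-/

universe u

namespace Pool.Agent.Lib.MP_17a322_nt.SL

open MvPolynomial Height
open Pool.Agent.Lib.MP_17a322_nt.RO
open Pool.Agent.Lib.MP_17a322_nt.VJ
open Pool.Agent.Lib.MP_17a322_nt.VN hiding lf
open Pool.Agent.Lib.MP_17a322_nt.VA
open Pool.Agent.Lib.MP_17a322_nt.VP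

section

/-- A polynomial that does not contain the variable `none`. -/
theorem ot_den {K : Type*} [Field K] {n : ℕ} {g : MvPolynomial (Option (Fin n)) K}
    (hg : g.degreeOf none = 0) : ∃ g' : MvPolynomial (Fin n) K, rename some g' = g := by
  classical
  refine exists_rename_eq_of_vars_subset_range g some (Option.some_injective _) fun o ho => ?_
  rcases o with _ | t
  · exact absurd hg (mem_vars_iff_degreeOf_ne_zero.1 ho)
  · exact ⟨t, rfl⟩

theorem aeval_ot_rename {K : Type*} [Field K] {n : ℕ} {R : Type*} [CommRing R] [Algebra K R] (t : R)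
    (s : Fin n → R) (g : MvPolynomial (Fin n) K) : aeval (ot t s) (rename some g) = aeval s g := by
  rw [aeval_rename]
  rfl

variable {K : Type u} [Field K] {N : ℕ} {B : AV K N} {n e : ℕ} (nd : Noe B n e)
  {Ω : Type u} [Field Ω] [Algebra K Ω]

theorem ia7_ne {y : Fin (N + 1) → Ω} (h : lf (nd.l 0) y = 1) : y ≠ 0 := by
  rintro rfl
  rw [show lf (nd.l 0) (0 : Fin (N + 1) → Ω) = 0 by simp [lf]] at h
  exact zero_ne_one h

/-- The difference of `y` and the multiple of `Y`. -/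
theorem ia7_eta (j : ℕ) {Y y : Fin (N + 1) → Ω} (hY : B.IsPt Y) (hY1 : lf (nd.l 0) Y = 1)
    (hy : B.IsPt y) (hy1 : lf (nd.l 0) y = 1)
    (hab : AlgebraicIndependent K (Sum.elim (fun t : Fin n => lf (nd.l t.succ) Y)
      (fun t : Fin n => lf (nd.l t.succ) y) : Fin n ⊕ Fin n → Ω)) :
    ∃ η : Fin (N + 1) → Ω, B.IsPt η ∧ lf (nd.l 0) η = 1 ∧
      (∀ a b, B.col a y (B.mu j Y) b = η b * lf (nd.l 0) (B.col a y (B.mu j Y))) ∧
      ∀ t : Fin n, lf (nd.l t.succ) y ∈ acl K (Set.range (fun t : Fin n => lf (nd.l t.succ) Y) ∪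
        Set.range fun t : Fin n => lf (nd.l t.succ) η) := by
  obtain ⟨Q, hQ⟩ := AV.exists_rep (ia7_ne nd hY1) hY
  obtain ⟨P, hP⟩ := AV.exists_rep (ia7_ne nd hy1) hy
  obtain ⟨c, hc, hspec⟩ := hP.spec (hQ.mu j)
  obtain ⟨G, hG⟩ : ∃ G : Set Ω, G = Set.range (fun t : Fin n => lf (nd.l t.succ) Y) := ⟨_, rfl⟩
  have hYG : ∀ k : Fin n, lf (nd.l k.succ) Y ∈ G := fun k => by
    rw [hG]
    exact ⟨k, rfl⟩
  obtain ⟨R, hR⟩ : ∃ R, R = P - 2 ^ j • Q := ⟨_, rfl⟩
  have hPR : P = R + 2 ^ j • Q ∨ P = R - 2 ^ j • Q := Or.inl (by rw [hR, sub_add_cancel])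
  have hR0 : lf (nd.l 0) (B.x R) ≠ 0 := by
    intro h0
    obtain ⟨k, hk⟩ := nd.nz Ω R
    have hk0 : k ≠ 0 := by
      rintro rfl
      exact hk h0
    obtain ⟨k, rfl⟩ := Fin.exists_succ_eq.2 hk0
    have h1 : ∀ t, nd.pO y (some t) ∈ acl K (G ∪
        Set.range fun i : Fin n => lf (nd.l i.succ) (B.x R) / lf (nd.l k.succ) (B.x R)) := by
      have h2 := nd.gen_aux hy1 hP hQ (G ∪ Set.range fun i : Fin n =>
        lf (nd.l i.succ) (B.x R) / lf (nd.l k.succ) (B.x R)) j hPR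
        (fun i => nd.coord_mem hY hY1 (fun k => subset_acl (Or.inl (hYG k))) i) k.succ hk (by
          refine Fin.cases ?_ (fun i => subset_acl (Or.inr ⟨i, rfl⟩))
          rw [h0, zero_div]
          exact zero_mem _)
      intro t
      show lf (nd.l t.succ) y ∈ _
      unfold lf
      exact sum_mem fun i _ => mul_mem (algebraMap_mem _ _) (h2 i)
    rw [hG] at h1
    have h3 := gen_indep (nd.pO Y) (nd.pO y) hab _ h1
    have h4 : Transcendental K
        ((Sum.elim (fun t : Fin n => nd.pO Y (some t)) (fun i : Fin n =>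
          lf (nd.l i.succ) (B.x R) / lf (nd.l k.succ) (B.x R)) : Fin n ⊕ Fin n → Ω)
            (Sum.inr k)) := h3.transcendental _
    apply h4
    rw [Sum.elim_inr, div_self hk]
    exact isAlgebraic_one
  have hη : (fun a => B.x R a / lf (nd.l 0) (B.x R)) =
      fun a => (lf (nd.l 0) (B.x R))⁻¹ * B.x R a := by
    funext a
    rw [div_eq_inv_mul]
  have hs : ∀ t, lf (nd.l t) (fun a => B.x R a / lf (nd.l 0) (B.x R)) =
      lf (nd.l t) (B.x R) / lf (nd.l 0) (B.x R) := by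
    intro t
    rw [hη, lf_smulE, div_eq_inv_mul]
  refine ⟨fun a => B.x R a / lf (nd.l 0) (B.x R), ?_, ?_, fun a b => ?_, fun t => ?_⟩
  · rw [hη]
    exact (B.x_isPt R).smul _
  · rw [hs, div_self hR0]
  · have h1 : B.col a y (B.mu j Y) = fun b => (c * B.x (P + 2 ^ j • Q) a) * B.x R b := by
      funext b
      show aeval (Sum.elim y (B.mu j Y)) (B.S a b) = _
      rw [hspec, hR, mul_assoc]
    rw [h1, lf_smulE]
    field_simp
  · unfold lf
    refine sum_mem fun i _ => mul_mem (algebraMap_mem _ _) ?_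
    refine nd.gen_aux hy1 hP hQ _ j hPR
      (fun i => nd.coord_mem hY hY1 (fun k => subset_acl (Or.inl ⟨k, rfl⟩)) i) 0 hR0 ?_ i
    refine Fin.cases ?_ (fun i => subset_acl (Or.inr ⟨i, ?_⟩))
    · rw [div_self hR0]
      exact one_mem _
    · exact hs i.succ

/-- A point over independent Noether coordinates. -/
theorem ia7_pt [IsAlgClosed Ω] {s : Fin n → Ω} (hs : AlgebraicIndependent K s) :
    ∃ y : Fin (N + 1) → Ω, B.IsPt y ∧ lf (nd.l 0) y = 1 ∧ ∀ k : Fin n, lf (nd.l k.succ) y = s k := by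
  have hδ : aeval s nd.δ ≠ 0 := fun h =>
    nd.δ_ne ((injective_iff_map_eq_zero _).1 hs _ h)
  obtain ⟨S, hS, hS'⟩ := EN_roots nd s hδ
  have hd : nd.Φ.natDegree ≠ 0 := by
    intro h0
    have h1 : nd.Φ = 1 := nd.Φ_monic.natDegree_eq_zero.1 h0
    obtain ⟨L, _, _, P, hP, -⟩ := nd.indep
    have h2 : B.IsPt (nd.y P) := by
      have h3 : nd.y P = fun a => (lf (nd.l 0) (B.x P))⁻¹ * B.x P a := by
        funext a
        unfold Noe.y
        rw [div_eq_inv_mul]
      rw [h3]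
      exact (B.x_isPt P).smul _
    have h3 : lf (nd.l 0) (nd.y P) = 1 := by
      have h4 : nd.y P = fun a => (lf (nd.l 0) (B.x P))⁻¹ * B.x P a := by
        funext a
        unfold Noe.y
        rw [div_eq_inv_mul]
      rw [h4, lf_smulE, inv_mul_cancel₀ hP]
    have h4 := nd.Φ_zero L (nd.y P) h2 h3
    rw [h1, Polynomial.eval₂_one] at h4
    exact one_ne_zero h4
  obtain ⟨r, hr⟩ : S.Nonempty := by
    rw [← Finset.card_pos, hS]
    exact Nat.pos_of_ne_zero hd
  obtain ⟨y, h1, h2, h3, -⟩ := nd.back Ω s r ((hS' r).1 hr) hδ.isUnit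
  exact ⟨y, h1, h2, h3⟩

/-- The point of `B` below a point of the cover. -/
theorem ia7_cov {q : ℕ} {l₀ : Fin (q + 1)} {Dc : ℕ} {Ψ Θ : MvPolynomial (Option (Fin n)) K}
    {M : Fin (q + 1) → MvPolynomial (Option (Fin n)) K} (hC : Cov nd l₀ Dc Ψ Θ M)
    {s : Fin n → Ω} (hs : AlgebraicIndependent K s) (t : Ω) (ht : aeval (ot t s) Ψ = 0) :
    ∃ y : Fin (N + 1) → Ω, B.IsPt y ∧ lf (nd.l 0) y = 1 ∧ (∀ k : Fin n, lf (nd.l k.succ) y = s k) ∧
      aeval (ot t s) Θ = aeval (ot t s) (M l₀) * aeval y nd.θ := by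
  have hδ : aeval s nd.δ ≠ 0 := fun h =>
    nd.δ_ne ((injective_iff_map_eq_zero _).1 hs _ h)
  obtain ⟨g, hg⟩ := ot_den hC.den
  have hM : aeval (ot t s) (M l₀) ≠ 0 := by
    rw [← hg, aeval_ot_rename]
    intro h
    have h1 := (injective_iff_map_eq_zero _).1 hs _ h
    rw [h1, map_zero] at hg
    exact hC.den_ne hg.symm
  obtain ⟨d, hd⟩ : ∃ d, d = aeval (ot t s) (M l₀) := ⟨_, rfl⟩
  obtain ⟨θ, hθ⟩ : ∃ θ, θ = aeval (ot t s) Θ := ⟨_, rfl⟩
  have h1 := hC.rel Ω s t ht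
  rw [← hd, ← hθ] at h1
  rw [← hd] at hM
  have h2 : nd.Φ.eval₂ (aeval (R := K) s).toRingHom (θ / d) = 0 := by
    rw [Polynomial.eval₂_eq_sum_range]
    have h3 : d ^ nd.Φ.natDegree * ∑ k ∈ Finset.range (nd.Φ.natDegree + 1),
        (aeval (R := K) s).toRingHom (nd.Φ.coeff k) * (θ / d) ^ k = 0 := by
      rw [← h1, Finset.mul_sum]
      refine Finset.sum_congr rfl fun k hk => ?_
      have h4 : k ≤ nd.Φ.natDegree := Nat.lt_succ_iff.1 (Finset.mem_range.1 hk)
      have h5 : d ^ nd.Φ.natDegree = d ^ k * d ^ (nd.Φ.natDegree - k) := by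
        rw [← pow_add, Nat.add_sub_cancel' h4]
      rw [h5, div_pow]
      have h6 : (aeval (R := K) s).toRingHom (nd.Φ.coeff k) = aeval s (nd.Φ.coeff k) := rfl
      rw [h6]
      field_simp
    exact (mul_eq_zero.1 h3).resolve_left (pow_ne_zero _ hM)
  obtain ⟨y, h3, h4, h5, h6⟩ := nd.back Ω s _ h2 hδ.isUnit
  refine ⟨y, h3, h4, h5, ?_⟩
  rw [h6, ← hθ, ← hd, mul_div_cancel₀ _ hM]

end

/-- IA7: a generic configuration with two points in each cover. -/
theorem exists_cfg' {K : Type u} [Field K] [NumberField K] {N : ℕ} {B : AV K N} {n e : ℕ}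
    (nd : Noe B n e) {m q : ℕ} {l₀ : Fin (q + 1)} {Dc : ℕ}
    {Ψ Θ : Fin m → MvPolynomial (Option (Fin n)) K}
    {M : Fin m → Fin (q + 1) → MvPolynomial (Option (Fin n)) K}
    (hC : ∀ i, Cov nd l₀ Dc (Ψ i) (Θ i) (M i)) (j : Fin m → ℕ) :
    ∃ (Ω : Type u) (_ : Field Ω) (_ : IsAlgClosed Ω) (_ : Algebra K Ω) (Y : Fin (N + 1) → Ω)
      (y η : Fin m → Fin (N + 1) → Ω) (T : Fin 2 → Fin m → Ω),
      (∀ σ : Fin m → Fin 2, Cfg nd l₀ Ψ Θ M j Y y η fun i => T (σ i) i) ∧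
      AlgebraicIndependent K (Sum.elim (fun k : Fin n => lf (nd.l k.succ) Y)
        fun p : Fin m × Fin n => lf (nd.l p.2.succ) (y p.1)) ∧
      AlgebraicIndependent K (Sum.elim (fun k : Fin n => lf (nd.l k.succ) Y)
        fun p : Fin m × Fin n => lf (nd.l p.2.succ) (η p.1)) ∧
      ∀ i, ∃ l, aeval (ot (T 0 i) fun k : Fin n => lf (nd.l k.succ) (y i)) (M i l) ≠
        aeval (ot (T 1 i) fun k : Fin n => lf (nd.l k.succ) (y i)) (M i l) := by
  classical
  obtain ⟨Ω, i1, i2, i3, u, hu⟩ := Z_closed_ext K (ULift.{u} (Fin n ⊕ Fin m × Fin n))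
  have hu' : AlgebraicIndependent K (fun x : Fin n ⊕ Fin m × Fin n => u ⟨x⟩) :=
    hu.comp ULift.up ULift.up_injective
  have hchar : CharZero Ω := charZero_of_injective_algebraMap (algebraMap K Ω).injective
  have hs : ∀ i, AlgebraicIndependent K fun k : Fin n => u ⟨Sum.inr (i, k)⟩ := fun i =>
    hu'.comp (fun k : Fin n => Sum.inr (i, k)) (fun a b h => by
      have h1 := Sum.inr_injective h
      exact congrArg Prod.snd h1)
  have hx : AlgebraicIndependent K fun k : Fin n => u ⟨Sum.inl k⟩ :=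
    hu'.comp Sum.inl Sum.inl_injective
  obtain ⟨Y, hY, hY1, hYs⟩ := ia7_pt nd hx
  choose T hT1 hT2 hT3 using fun i => exists_two nd (hC i) _ (hs i)
  choose y hy hy1 hys hyθ using fun i => ia7_cov nd (hC i) (hs i) (T i 0) (hT1 i 0)
  have hind : AlgebraicIndependent K (Sum.elim (fun k : Fin n => lf (nd.l k.succ) Y)
        fun p : Fin m × Fin n => lf (nd.l p.2.succ) (y p.1)) := by
    have h1 : (Sum.elim (fun k : Fin n => lf (nd.l k.succ) Y)
        fun p : Fin m × Fin n => lf (nd.l p.2.succ) (y p.1)) =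
        fun x : Fin n ⊕ Fin m × Fin n => u ⟨x⟩ := by
      funext x
      rcases x with k | p
      · exact hYs k
      · exact hys p.1 p.2
    rw [h1]
    exact hu'
  choose η hη hη1 hcol hacl using fun i => ia7_eta nd (j i) hY hY1 (hy i) (hy1 i) (by
    have h1 := hind.comp (fun x : Fin n ⊕ Fin n => (Sum.map id (fun k => (i, k)) x :
      Fin n ⊕ Fin m × Fin n)) (Sum.map_injective.2 ⟨Function.injective_id, fun a b h =>
        congrArg Prod.snd h⟩)
    have h2 : (Sum.elim (fun k : Fin n => lf (nd.l k.succ) Y)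
        fun p : Fin m × Fin n => lf (nd.l p.2.succ) (y p.1)) ∘
        (fun x : Fin n ⊕ Fin n => (Sum.map id (fun k => (i, k)) x : Fin n ⊕ Fin m × Fin n)) =
        Sum.elim (fun t : Fin n => lf (nd.l t.succ) Y) (fun t : Fin n => lf (nd.l t.succ) (y i)) := by
      funext x
      rcases x with k | k <;> rfl
    rw [h2] at h1
    exact h1)
  have hsy : ∀ i, (fun k : Fin n => lf (nd.l k.succ) (y i)) = fun k => u ⟨Sum.inr (i, k)⟩ :=
    fun i => funext fun k => hys i k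
  refine ⟨Ω, i1, i2, i3, Y, y, η, fun c i => T i c, fun σ => ?_, hind, ?_, fun i => ?_⟩
  · refine ⟨hY, hY1, hy, hy1, hη, hη1, hcol, fun i => ?_, fun i => ?_⟩
    · rw [hsy]
      exact hT1 i (σ i)
    · rw [hsy]
      obtain ⟨g, hg⟩ := ot_den (hC i).den
      have h1 : ∀ t : Ω, aeval (ot t fun k : Fin n => u ⟨Sum.inr (i, k)⟩) (M i l₀) =
          aeval (fun k : Fin n => u ⟨Sum.inr (i, k)⟩) g := fun t => by
        rw [← hg, aeval_ot_rename]
      have h2 := hyθ i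
      rw [h1] at h2 ⊢
      obtain ⟨c, hc⟩ : ∃ c, c = σ i := ⟨_, rfl⟩
      rw [← hc]
      fin_cases c
      · exact h2
      · exact (hT2 i).symm.trans h2
  · refine card_indep le_rfl _ _ hind fun x => ?_
    rw [← mem_acl, Set.Sum.elim_range]
    rcases x with k | p
    · exact subset_acl (Or.inl ⟨k, rfl⟩)
    · refine acl_mono ?_ (hacl p.1 p.2)
      refine Set.union_subset_union_right _ ?_
      rintro _ ⟨k, rfl⟩
      exact ⟨(p.1, k), rfl⟩
  · rw [hsy]
    exact hT3 i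

end Pool.Agent.Lib.MP_17a322_nt.SL
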