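import Pool.Agent.Lib.MP_17a322_nt.SL.Defs
import Pool.Agent.Lib.MP_17a322_nt.VP.EN3
import Pool.Agent.Lib.MP_17a322_nt.VA.Z3

/-!
The auxiliary polynomial does not vanish at a generic configuration.
-/

universe u

namespace Pool.Agent.Lib.MP_17a322_nt.SL

open MvPolynomial Height
open Pool.Agent.Lib.MP_17a322_nt.RO
open Pool.Agent.Lib.MP_17a322_nt.VJ
open Pool.Agent.Lib.MP_17a322_nt.VN
open Pool.Agent.Lib.MP_17a322_nt.VA
open Pool.Agent.Lib.MP_17a322_nt.VP

section

variable {K : Type*} [Field K] {τ σ : Type*}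

/-- The coefficients have degree at most `k` in the variable `i`. -/
def IDg (i : σ) (k : ℕ) (P : MvPolynomial τ (MvPolynomial σ K)) : Prop :=
  ∀ w, degreeOf i (coeff w P) ≤ k

theorem IDg.mono {i : σ} {k l : ℕ} {P : MvPolynomial τ (MvPolynomial σ K)} (h : IDg i k P)
    (hkl : k ≤ l) : IDg i l P := fun w => (h w).trans hkl

theorem IDg_C (i : σ) (c : MvPolynomial σ K) : IDg i (degreeOf i c) (C c : MvPolynomial τ _) := by
  classical
  intro w
  rw [coeff_C]
  split_ifs
  · exact le_rfl
  · rw [degreeOf_zero]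
    exact Nat.zero_le _

theorem IDg_X (i : σ) (p : τ) : IDg i 0 (X p : MvPolynomial τ (MvPolynomial σ K)) := by
  classical
  intro w
  rw [coeff_X]
  split_ifs
  · rw [← C_1, degreeOf_C]
  · rw [degreeOf_zero]

theorem IDg.mul {i : σ} {k l : ℕ} {P Q : MvPolynomial τ (MvPolynomial σ K)} (hP : IDg i k P)
    (hQ : IDg i l Q) : IDg i (k + l) (P * Q) := by
  classical
  intro w
  rw [coeff_mul]
  refine (degreeOf_sum_le _ _ _).trans (Finset.sup_le fun x _ => ?_)
  exact (degreeOf_mul_le _ _ _).trans (add_le_add (hP _) (hQ _))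

theorem IDg_one (i : σ) : IDg i 0 (1 : MvPolynomial τ (MvPolynomial σ K)) := by
  have h := IDg_C (K := K) (τ := τ) i (1 : MvPolynomial σ K)
  rw [← C_1, degreeOf_C] at h
  exact h

theorem IDg.pow {i : σ} {k : ℕ} {P : MvPolynomial τ (MvPolynomial σ K)} (hP : IDg i k P) (a : ℕ) :
    IDg i (a * k) (P ^ a) := by
  induction a with
  | zero =>
    rw [pow_zero, zero_mul]
    exact IDg_one i
  | succ a ih =>
    rw [pow_succ, add_mul, one_mul]
    exact ih.mul hP

theorem IDg_prod {ι : Type*} (s : Finset ι) (i : σ) (k : ι → ℕ)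
    (P : ι → MvPolynomial τ (MvPolynomial σ K)) (h : ∀ v ∈ s, IDg i (k v) (P v)) :
    IDg i (∑ v ∈ s, k v) (∏ v ∈ s, P v) := by
  classical
  induction s using Finset.induction_on with
  | empty => exact IDg_one i
  | insert a s ha ih =>
    rw [Finset.sum_insert ha, Finset.prod_insert ha]
    exact (h a (Finset.mem_insert_self a s)).mul
      (ih fun v hv => h v (Finset.mem_insert_of_mem hv))

theorem IDg_sum {ι : Type*} (s : Finset ι) (i : σ) (k : ℕ)
    (P : ι → MvPolynomial τ (MvPolynomial σ K)) (h : ∀ v ∈ s, IDg i k (P v)) :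
    IDg i k (∑ v ∈ s, P v) := by
  classical
  intro w
  rw [coeff_sum]
  exact (degreeOf_sum_le _ _ _).trans (Finset.sup_le fun v hv => h v hv w)

end

section

variable {K : Type u} [Field K] {m n q : ℕ}

/-- Separation of the variables `u`. -/
noncomputable def isep (K : Type u) [Field K] (m n q : ℕ) :
    VQ m n q → MvPolynomial (Fin m × Fin q) (MvPolynomial (VF m n) K) :=
  vq (fun a => C (X (VF.x a))) (fun i => C (X (VF.th i))) (fun p => C (X (VF.z p))) X

theorem isep_deg (F : MvPolynomial (VQ m n q) K) (i : Fin m) :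
    IDg (VF.th i) (F.degreeOf (VQ.th i)) (aeval (isep K m n q) F) := by
  classical
  rw [aeval_def, eval₂_eq']
  refine IDg_sum _ _ _ _ fun d hd => ?_
  have h1 : IDg (VF.th i) 0 (algebraMap K (MvPolynomial (Fin m × Fin q) (MvPolynomial (VF m n) K))
      (coeff d F)) := by
    have h2 := IDg_C (τ := Fin m × Fin q) (VF.th i) (C (coeff d F) : MvPolynomial (VF m n) K)
    rw [degreeOf_C] at h2
    exact h2
  have h3 : ∀ v, IDg (VF.th i) (d v * if v = VQ.th i then 1 else 0) (isep K m n q v ^ d v) := by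
    intro v
    refine IDg.pow ?_ _
    rcases v with a | i' | p | p
    · have h4 := IDg_C (τ := Fin m × Fin q) (VF.th i) (X (VF.x a) : MvPolynomial (VF m n) K)
      rw [degreeOf_X_of_ne (by intro h; cases h)] at h4
      rw [if_neg (by intro h; cases h)]
      exact h4
    · have h4 := IDg_C (τ := Fin m × Fin q) (VF.th i) (X (VF.th i') : MvPolynomial (VF m n) K)
      by_cases hi : i' = i
      · subst hi
        rw [degreeOf_X_self] at h4
        rw [if_pos rfl]
        exact h4
      · rw [degreeOf_X_of_ne (fun h => hi (VF.th.inj h).symm)] at h4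
        rw [if_neg (fun h => hi (VQ.th.inj h))]
        exact h4
    · have h4 := IDg_C (τ := Fin m × Fin q) (VF.th i) (X (VF.z p) : MvPolynomial (VF m n) K)
      rw [degreeOf_X_of_ne (by intro h; cases h)] at h4
      rw [if_neg (by intro h; cases h)]
      exact h4
    · rw [if_neg (by intro h; cases h)]
      exact IDg_X _ _
  have h5 := h1.mul (IDg_prod Finset.univ (VF.th i) _ _ fun v _ => h3 v)
  refine h5.mono ?_
  rw [zero_add]
  simp only [mul_ite, mul_one, mul_zero, Finset.sum_ite_eq', Finset.mem_univ, if_true]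
  exact monomial_le_degreeOf (VQ.th i) hd

theorem isep_inj {F : MvPolynomial (VQ m n q) K} (h : aeval (isep K m n q) F = 0) : F = 0 := by
  let ρ : MvPolynomial (Fin m × Fin q) (MvPolynomial (VF m n) K) →ₐ[K] MvPolynomial (VQ m n q) K :=
    aevalTower (aeval (vf (fun a => X (VQ.x a)) (fun i => X (VQ.th i)) (fun p => X (VQ.z p))
      (fun _ => 0)) : MvPolynomial (VF m n) K →ₐ[K] MvPolynomial (VQ m n q) K)
      (fun p => X (VQ.u p))
  have h1 : ρ (aeval (isep K m n q) F) = F := by
    rw [comp_aeval_apply]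
    have h2 : (fun v => ρ (isep K m n q v)) = X := by
      funext v
      rcases v with a | i | p | p
      · show ρ (C (X (VF.x a))) = _
        rw [aevalTower_C, aeval_X]
        rfl
      · show ρ (C (X (VF.th i))) = _
        rw [aevalTower_C, aeval_X]
        rfl
      · show ρ (C (X (VF.z p))) = _
        rw [aevalTower_C, aeval_X]
        rfl
      · show ρ (X p) = _
        rw [aevalTower_X]
    rw [h2, aeval_X_left_apply]
  rw [← h1, h, map_zero]

/-- IA8: the auxiliary polynomial does not vanish at a generic configuration. -/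
theorem aux_ne {K : Type u} [Field K] {N : ℕ} {B : AV K N} {n e : ℕ} (nd : Noe B n e)
    {m q : ℕ} {Ω : Type u} [Field Ω] [IsAlgClosed Ω] [Algebra K Ω] (Y : Fin (N + 1) → Ω)
    (η : Fin m → Fin (N + 1) → Ω) (he : ∀ i, B.IsPt (η i)) (he1 : ∀ i, lf (nd.l 0) (η i) = 1)
    (hind : AlgebraicIndependent K (Sum.elim (fun k : Fin n => lf (nd.l k.succ) Y)
        fun p : Fin m × Fin n => lf (nd.l p.2.succ) (η p.1)))
    (F : MvPolynomial (VQ m n (q + 1)) K) (hF : F ≠ 0)
    (hth : ∀ i, F.degreeOf (VQ.th i) < nd.Φ.natDegree) :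
    (aeval (vM nd (fun a => (C (Y a) : MvPolynomial (Fin m × Fin (q + 1)) Ω))
      (fun i a => C (η i a)) fun p => X p) F) ≠ 0 := by
  classical
  intro h0
  obtain ⟨Ω', i1, i2, i3, u, hu⟩ := Z_closed_ext Ω (ULift.{u} (Fin m))
  let _ : Algebra K Ω' := ((algebraMap Ω Ω').comp (algebraMap K Ω)).toAlgebra
  have i4 : IsScalarTower K Ω Ω' := IsScalarTower.of_algebraMap_eq fun _ => rfl
  -- the extended family is independent
  have h1 := AlgebraicIndependent.sumElim_comp hind hu
  have h2 : AlgebraicIndependent K (Sum.elim (fun k : Fin n => algebraMap Ω Ω' (lf (nd.l k.succ) Y))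
      (Sum.elim (fun p : Fin m × Fin n => algebraMap Ω Ω' (lf (nd.l p.2.succ) (η p.1)))
        fun i => u ⟨i⟩)) := by
    have h3 := h1.comp (fun x : Fin n ⊕ ((Fin m × Fin n) ⊕ Fin m) => match x with
      | Sum.inl a => (Sum.inr (Sum.inl a) : ULift.{u} (Fin m) ⊕ (Fin n ⊕ (Fin m × Fin n)))
      | Sum.inr (Sum.inl p) => Sum.inr (Sum.inr p)
      | Sum.inr (Sum.inr i) => Sum.inl ⟨i⟩) (by
        rintro (a | p | i) (a' | p' | i') h
        all_goals first
          | (simp only [Sum.inr.injEq, Sum.inl.injEq, ULift.up.injEq] at h; rw [h])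
          | (simp only [Sum.inr.injEq, reduceCtorEq] at h))
    have h4 : (Sum.elim u (algebraMap Ω Ω' ∘ Sum.elim (fun k : Fin n => lf (nd.l k.succ) Y)
        fun p : Fin m × Fin n => lf (nd.l p.2.succ) (η p.1))) ∘
        (fun x : Fin n ⊕ ((Fin m × Fin n) ⊕ Fin m) => match x with
      | Sum.inl a => (Sum.inr (Sum.inl a) : ULift.{u} (Fin m) ⊕ (Fin n ⊕ (Fin m × Fin n)))
      | Sum.inr (Sum.inl p) => Sum.inr (Sum.inr p)
      | Sum.inr (Sum.inr i) => Sum.inl ⟨i⟩) =
        Sum.elim (fun k : Fin n => algebraMap Ω Ω' (lf (nd.l k.succ) Y))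
      (Sum.elim (fun p : Fin m × Fin n => algebraMap Ω Ω' (lf (nd.l p.2.succ) (η p.1)))
        fun i => u ⟨i⟩) := by
      funext x
      rcases x with a | p | i <;> rfl
    rw [h4] at h3
    exact h3
  -- the primitive elements
  have ht : ∀ i, nd.Φ.eval₂ (aeval (R := K) fun a : Fin n =>
      algebraMap Ω Ω' (lf (nd.l a.succ) (η i))).toRingHom
      (algebraMap Ω Ω' (aeval (η i) nd.θ)) = 0 := by
    intro i
    have h3 := nd.Φ_zero Ω (η i) (he i) (he1 i)
    have h4 := congrArg (algebraMap Ω Ω') h3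
    rw [map_zero, Polynomial.hom_eval₂] at h4
    have h5 : (algebraMap Ω Ω').comp
        (aeval (R := K) fun k : Fin n => lf (nd.l k.succ) (η i)).toRingHom =
        (aeval (R := K) fun a : Fin n => algebraMap Ω Ω' (lf (nd.l a.succ) (η i))).toRingHom := by
      have h6 : (IsScalarTower.toAlgHom K Ω Ω').comp
          (aeval (R := K) fun k : Fin n => lf (nd.l k.succ) (η i)) =
          aeval (R := K) fun a : Fin n => algebraMap Ω Ω' (lf (nd.l a.succ) (η i)) := by
        apply MvPolynomial.algHom_ext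
        intro a
        rw [AlgHom.comp_apply, aeval_X, aeval_X]
        rfl
      exact congrArg AlgHom.toRingHom h6
    rw [h5] at h4
    exact h4
  obtain ⟨φ, hφ⟩ : ∃ φ : MvPolynomial (VF m n) K →ₐ[K] Ω', φ =
    aeval (vf (fun k : Fin n => algebraMap Ω Ω' (lf (nd.l k.succ) Y))
      (fun i => algebraMap Ω Ω' (aeval (η i) nd.θ))
      (fun p : Fin m × Fin n => algebraMap Ω Ω' (lf (nd.l p.2.succ) (η p.1)))
      fun i => u ⟨i⟩) := ⟨_, rfl⟩
  -- the values of the separated polynomial
  have h3 : MvPolynomial.map φ.toRingHom (aeval (isep K m n (q + 1)) F) = 0 := by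
    have h4 : MvPolynomial.map φ.toRingHom (aeval (isep K m n (q + 1)) F) =
        MvPolynomial.map (algebraMap Ω Ω') (aeval (vM nd
          (fun a => (C (Y a) : MvPolynomial (Fin m × Fin (q + 1)) Ω))
          (fun i a => C (η i a)) fun p => X p) F) := by
      have h5 : MvPolynomial.map φ.toRingHom (aeval (isep K m n (q + 1)) F) =
          (mapAlgHom φ : MvPolynomial (Fin m × Fin (q + 1)) (MvPolynomial (VF m n) K) →ₐ[K]
            MvPolynomial (Fin m × Fin (q + 1)) Ω') (aeval (isep K m n (q + 1)) F) := rfl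
      have h6 : ∀ G : MvPolynomial (Fin m × Fin (q + 1)) Ω, MvPolynomial.map (algebraMap Ω Ω') G =
          (mapAlgHom (IsScalarTower.toAlgHom K Ω Ω') :
            MvPolynomial (Fin m × Fin (q + 1)) Ω →ₐ[K]
            MvPolynomial (Fin m × Fin (q + 1)) Ω') G := fun _ => rfl
      rw [h5, h6, comp_aeval_apply, comp_aeval_apply]
      congr 2
      funext v
      have h7 : ∀ l : Fin (N + 1) → K, ∀ y : Fin (N + 1) → Ω,
          lf l (fun a => (C (y a) : MvPolynomial (Fin m × Fin (q + 1)) Ω)) = C (lf l y) := by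
        intro l y
        unfold lf
        rw [map_sum]
        refine Finset.sum_congr rfl fun a _ => ?_
        rw [map_mul]
        rfl
      rcases v with a | i | p | p
      · show MvPolynomial.map φ.toRingHom (C (X (VF.x a))) =
          MvPolynomial.map (algebraMap Ω Ω') (lf (nd.l a.succ) fun a => C (Y a))
        rw [h7, map_C, map_C]
        congr 1
        show φ (X (VF.x a)) = _
        rw [hφ, aeval_X]
        rfl
      · show MvPolynomial.map φ.toRingHom (C (X (VF.th i))) =
          MvPolynomial.map (algebraMap Ω Ω') (aeval (fun a => C (η i a)) nd.θ)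
        have h8 : (aeval (fun a => (C (η i a) : MvPolynomial (Fin m × Fin (q + 1)) Ω)) nd.θ) =
            C (aeval (η i) nd.θ) := by
          have h9 := comp_aeval_apply (η i) (IsScalarTower.toAlgHom K Ω
            (MvPolynomial (Fin m × Fin (q + 1)) Ω)) nd.θ
          exact h9.symm
        rw [h8, map_C, map_C]
        congr 1
        show φ (X (VF.th i)) = _
        rw [hφ, aeval_X]
        rfl
      · show MvPolynomial.map φ.toRingHom (C (X (VF.z p))) =
          MvPolynomial.map (algebraMap Ω Ω') (lf (nd.l p.2.succ) fun a => C (η p.1 a))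
        rw [h7, map_C, map_C]
        congr 1
        show φ (X (VF.z p)) = _
        rw [hφ, aeval_X]
        rfl
      · show MvPolynomial.map φ.toRingHom (X p) = MvPolynomial.map (algebraMap Ω Ω') (X p)
        rw [map_X, map_X]
    rw [h4, h0, map_zero]
  have h4 : aeval (isep K m n (q + 1)) F = 0 := by
    refine MvPolynomial.ext _ _ fun w => ?_
    rw [coeff_zero]
    refine EN_zero nd h2 ht (fun i => lt_of_le_of_lt (isep_deg F i w) (hth i)) ?_
    have h5 := congrArg (coeff w) h3
    rw [coeff_map, coeff_zero] at h5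
    rw [← hφ]
    exact h5
  exact hF (isep_inj h4)

end

end Pool.Agent.Lib.MP_17a322_nt.SL
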