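import Pool.Agent.Lib.MP_17a322_nt.SL.Defs
import Pool.Agent.Lib.MP_17a322_nt.VA.E21
import Pool.Agent.Lib.MP_17a322_nt.VN.F3

/-!
IRR part: the hyperplane is rational over `k0(p)`. Definitions.
-/

universe u

namespace Pool.Agent.Lib.MP_17a322_nt.SL

open MvPolynomial Height Filter
open Pool.Agent.Lib.MP_17a322_nt.RO
open Pool.Agent.Lib.MP_17a322_nt.VJ
open Pool.Agent.Lib.MP_17a322_nt.VN hiding lf
open Pool.Agent.Lib.MP_17a322_nt.VA
open Pool.Agent.Lib.MP_17a322_nt.VP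

/-- The value `t` of the primitive element and the values `s` of the coordinates. -/
def ot {n : ℕ} {R : Type*} (t : R) (s : Fin n → R) : Option (Fin n) → R := fun o => o.elim t s

/-- A nontrivial cover of `B`: `Ψ` is its equation over the Noether coordinates, `Θ / M l₀` the primitive
element of `B`, `M l / M l₀` the coordinates of the hyperplane. -/
structure Cov {K : Type u} [Field K] {N : ℕ} {B : AV K N} {n e : ℕ} (nd : Noe B n e) {q : ℕ}
    (l₀ : Fin (q + 1)) (Dc : ℕ) (Ψ Θ : MvPolynomial (Option (Fin n)) K)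
    (M : Fin (q + 1) → MvPolynomial (Option (Fin n)) K) : Prop where
  prime : ∀ (L : Type u) [Field L] [Algebra K L], Prime (MvPolynomial.map (algebraMap K L) Ψ)
  deg : nd.Φ.natDegree < Ψ.degreeOf none
  den : (M l₀).degreeOf none = 0
  den_ne : M l₀ ≠ 0
  rel : ∀ (R : Type u) [CommRing R] [Algebra K R] (s : Fin n → R) (t : R),
    aeval (ot t s) Ψ = 0 → ∑ k ∈ Finset.range (nd.Φ.natDegree + 1),
      aeval s (nd.Φ.coeff k) * aeval (ot t s) Θ ^ k *
        aeval (ot t s) (M l₀) ^ (nd.Φ.natDegree - k) = 0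
  inj : ∀ (Ω : Type u) [Field Ω] [Algebra K Ω] (s : Fin n → Ω) (t t' : Ω),
    AlgebraicIndependent K s → aeval (ot t s) Ψ = 0 → aeval (ot t' s) Ψ = 0 →
    aeval (ot t s) Θ = aeval (ot t' s) Θ →
    (∀ l, aeval (ot t s) (M l) = aeval (ot t' s) (M l)) → t = t'
  dPsi : ∀ y, Ψ.degreeOf y ≤ Dc
  dTh : ∀ y, Θ.degreeOf y ≤ Dc
  dM : ∀ l y, (M l).degreeOf y ≤ Dc

/-- The cover over the point `P`: the point `t` of the cover, simple; bounds for the heights. -/
structure CovAt {K : Type u} [Field K] [NumberField K] {N : ℕ} {B : AV K N} {n e : ℕ}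
    (nd : Noe B n e) {q : ℕ} (l₀ : Fin (q + 1)) (Ψ Θ : MvPolynomial (Option (Fin n)) K)
    (M : Fin (q + 1) → MvPolynomial (Option (Fin n)) K) (P : B.Pts K) (μ : Fin (q + 1) → K)
    (t : K) (h : ℝ) : Prop where
  root : aeval (ot t (nd.s P)) Ψ = 0
  simple : aeval (ot t (nd.s P)) (pderiv none Ψ) ≠ 0
  den : aeval (ot t (nd.s P)) (M l₀) ≠ 0
  th : aeval (ot t (nd.s P)) Θ = aeval (ot t (nd.s P)) (M l₀) * aeval (nd.y P) nd.θ
  mu : ∀ l, aeval (ot t (nd.s P)) (M l) = aeval (ot t (nd.s P)) (M l₀) * μ l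
  hPsi : nh1 Ψ ≤ h
  hTh : nh1 Θ ≤ h
  hM : ∀ l, nh1 (M l) ≤ h

/-- A configuration: the points `Y`, `y i`, `η i = y i - 2 ^ j i Y` and points `T i` of the covers over
`y i`. -/
structure Cfg {K : Type u} [Field K] {N : ℕ} {B : AV K N} {n e : ℕ} (nd : Noe B n e) {q m : ℕ}
    (l₀ : Fin (q + 1)) (Ψ Θ : Fin m → MvPolynomial (Option (Fin n)) K)
    (M : Fin m → Fin (q + 1) → MvPolynomial (Option (Fin n)) K) (j : Fin m → ℕ)
    {R : Type u} [CommRing R] [Algebra K R] (Y : Fin (N + 1) → R)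
    (y η : Fin m → Fin (N + 1) → R) (T : Fin m → R) : Prop where
  Y_pt : B.IsPt Y
  Y_lf : lf (nd.l 0) Y = 1
  y_pt : ∀ i, B.IsPt (y i)
  y_lf : ∀ i, lf (nd.l 0) (y i) = 1
  e_pt : ∀ i, B.IsPt (η i)
  e_lf : ∀ i, lf (nd.l 0) (η i) = 1
  col : ∀ i a b, B.col a (y i) (B.mu (j i) Y) b =
    η i b * lf (nd.l 0) (B.col a (y i) (B.mu (j i) Y))
  psi : ∀ i, aeval (ot (T i) fun k : Fin n => lf (nd.l k.succ) (y i)) (Ψ i) = 0
  th : ∀ i, aeval (ot (T i) fun k : Fin n => lf (nd.l k.succ) (y i)) (Θ i) =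
    aeval (ot (T i) fun k : Fin n => lf (nd.l k.succ) (y i)) (M i l₀) * aeval (y i) nd.θ

/-- The values of the variables at a configuration (`w i` is the point of the cover, `z (i, last)` the
primitive element of `η i`). -/
noncomputable def cvl {K : Type u} [Field K] {N : ℕ} {B : AV K N} {n e : ℕ} (nd : Noe B n e)
    {m : ℕ} {R : Type u} [CommRing R] [Algebra K R] (Y : Fin (N + 1) → R)
    (y η : Fin m → Fin (N + 1) → R) (T : Fin m → R) : VE m (n + 1) → R
  | VE.x t => Fin.lastCases (motive := fun _ => R) 0 (fun t : Fin n => lf (nd.l t.succ) Y) t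
  | VE.q => aeval Y nd.θ
  | VE.S p => Fin.lastCases (motive := fun _ => R) 0
      (fun t : Fin n => lf (nd.l t.succ) (y p.1)) p.2
  | VE.w i => T i
  | VE.z p => Fin.lastCases (motive := fun _ => R) (aeval (η p.1) nd.θ)
      (fun t : Fin n => lf (nd.l t.succ) (η p.1)) p.2
  | VE.v _ => 0

/-- The variables of the point `y i` and of the cover. -/
def pC {m n : ℕ} (i : Fin m) : Option (Fin n) → VE m (n + 1)
  | none => VE.w i
  | some t => VE.S (i, t.castSucc)

/-- Coordinates adapted to hyperplanes: `u l₀ = d X l₀ - ∑ ν l X l`, `u l = d X l` (`l ≠ l₀`), so that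
`∑ ν l u l = d ^ 2 X l₀` if `ν l₀ = d`. -/
noncomputable def hsb {R : Type*} [CommRing R] {m q : ℕ} (l₀ : Fin (q + 1)) (d : Fin m → R)
    (ν : Fin m → Fin (q + 1) → R) (p : Fin m × Fin (q + 1)) :
    MvPolynomial (Fin m × Fin (q + 1)) R :=
  if p.2 = l₀ then C (d p.1) * X p - ∑ l ∈ Finset.univ.erase l₀, C (ν p.1 l) * X (p.1, l)
  else C (d p.1) * X p

/-- The auxiliary polynomial in the coordinates adapted to the moving hyperplanes; its coefficients are
polynomials in the coordinates of a configuration. -/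
noncomputable def covF {K : Type u} [Field K] {m n q : ℕ} (l₀ : Fin (q + 1))
    (M : Fin m → Fin (q + 1) → MvPolynomial (Option (Fin n)) K)
    (F : MvPolynomial (VQ m n (q + 1)) K) :
    MvPolynomial (Fin m × Fin (q + 1)) (MvPolynomial (VE m (n + 1)) K) :=
  aeval (vq (fun a => C (X (VE.x a.castSucc))) (fun i => C (X (VE.z (i, Fin.last n))))
    (fun p => C (X (VE.z (p.1, p.2.castSucc))))
    (hsb l₀ (fun i => rename (pC i) (M i l₀)) fun i l => rename (pC i) (M i l))) F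

end Pool.Agent.Lib.MP_17a322_nt.SL
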