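import Pool.Agent.Lib.MP_17a322_nt.SL.IDefs

/-!
Values of the coefficients of `covF`.
-/

universe u

namespace Pool.Agent.Lib.MP_17a322_nt.SL

open MvPolynomial Height
open Pool.Agent.Lib.MP_17a322_nt.RO
open Pool.Agent.Lib.MP_17a322_nt.VJ
open Pool.Agent.Lib.MP_17a322_nt.VN hiding lf
open Pool.Agent.Lib.MP_17a322_nt.VA
open Pool.Agent.Lib.MP_17a322_nt.VP

theorem ig1_lf {K : Type u} [Field K] {N : ℕ} {R τ : Type*} [CommRing R] [Algebra K R]
    (l : Fin (N + 1) → K) (y : Fin (N + 1) → R) :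
    lf l (fun a => (C (y a) : MvPolynomial τ R)) = C (lf l y) := by
  unfold lf
  rw [map_sum]
  refine Finset.sum_congr rfl fun a _ => ?_
  rw [map_mul]
  rfl

theorem ig1_aeval {K : Type u} [Field K] {N : ℕ} {R τ : Type*} [CommRing R] [Algebra K R]
    (f : MvPolynomial (Fin (N + 1)) K) (y : Fin (N + 1) → R) :
    aeval (fun a => (C (y a) : MvPolynomial τ R)) f = C (aeval y f) := by
  have h := comp_aeval_apply y (IsScalarTower.toAlgHom K R (MvPolynomial τ R)) f
  exact h.symm

theorem ig1_hsb {R R' : Type*} [CommRing R] [CommRing R'] (φ : R →+* R') {m q : ℕ}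
    (l₀ : Fin (q + 1)) (d : Fin m → R) (ν : Fin m → Fin (q + 1) → R) (p : Fin m × Fin (q + 1)) :
    MvPolynomial.map φ (hsb l₀ d ν p) = hsb l₀ (fun i => φ (d i)) (fun i l => φ (ν i l)) p := by
  unfold hsb
  split_ifs
  · rw [map_sub, map_mul, map_C, map_X, map_sum]
    congr 1
    refine Finset.sum_congr rfl fun l _ => ?_
    rw [map_mul, map_C, map_X]
  · rw [map_mul, map_C, map_X]

/-- IG1: values of the coefficients. -/
theorem covF_val {K : Type u} [Field K] {N : ℕ} {B : AV K N} {n e : ℕ} (nd : Noe B n e)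
    {m q : ℕ} (l₀ : Fin (q + 1)) (M : Fin m → Fin (q + 1) → MvPolynomial (Option (Fin n)) K)
    (F : MvPolynomial (VQ m n (q + 1)) K) {R : Type u} [CommRing R] [Algebra K R]
    (Y : Fin (N + 1) → R) (y η : Fin m → Fin (N + 1) → R) (T : Fin m → R)
    (w : Fin m × Fin (q + 1) →₀ ℕ) :
    aeval (cvl nd Y y η T) (coeff w (covF l₀ M F)) =
      coeff w (aeval (hsb l₀
        (fun i => aeval (ot (T i) fun k : Fin n => lf (nd.l k.succ) (y i)) (M i l₀))
        fun i l => aeval (ot (T i) fun k : Fin n => lf (nd.l k.succ) (y i)) (M i l))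
        (aeval (vM nd (fun a => (C (Y a) : MvPolynomial (Fin m × Fin (q + 1)) R))
          (fun i a => C (η i a)) fun p => X p) F)) := by
  obtain ⟨φ, hφ⟩ : ∃ φ : MvPolynomial (VE m (n + 1)) K →ₐ[K] R, φ = aeval (cvl nd Y y η T) :=
    ⟨_, rfl⟩
  have h1 : φ (coeff w (covF l₀ M F)) = coeff w (MvPolynomial.map φ.toRingHom (covF l₀ M F)) := by
    rw [coeff_map]
    rfl
  rw [← hφ, h1]
  congr 1
  have hM : ∀ (i : Fin m) (g : MvPolynomial (Option (Fin n)) K),
      φ (rename (pC i) g) = aeval (ot (T i) fun k : Fin n => lf (nd.l k.succ) (y i)) g := by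
    intro i g
    rw [hφ, aeval_rename]
    congr 2
    funext o
    cases o with
    | none => rfl
    | some t =>
      show Fin.lastCases (motive := fun _ => R) 0
        (fun t : Fin n => lf (nd.l t.succ) (y i)) t.castSucc = _
      rw [Fin.lastCases_castSucc]
      rfl
  have h2 : MvPolynomial.map φ.toRingHom (covF l₀ M F) =
      (mapAlgHom φ : MvPolynomial (Fin m × Fin (q + 1)) (MvPolynomial (VE m (n + 1)) K) →ₐ[K]
        MvPolynomial (Fin m × Fin (q + 1)) R) (covF l₀ M F) := rfl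
  have h3 : ∀ (d : Fin m → R) (ν : Fin m → Fin (q + 1) → R)
      (G : MvPolynomial (Fin m × Fin (q + 1)) R), aeval (hsb l₀ d ν) G =
      ((aeval (hsb l₀ d ν) : MvPolynomial (Fin m × Fin (q + 1)) R →ₐ[R]
        MvPolynomial (Fin m × Fin (q + 1)) R).restrictScalars K) G := fun _ _ _ => rfl
  rw [h2, h3, covF, comp_aeval_apply, comp_aeval_apply]
  congr 2
  funext v
  rcases v with a | i | p | p
  · show MvPolynomial.map φ.toRingHom (C (X (VE.x a.castSucc))) =
      aeval (hsb l₀ _ _) (lf (nd.l a.succ) fun a => C (Y a))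
    rw [ig1_lf, map_C, aeval_C]
    congr 1
    show φ (X (VE.x a.castSucc)) = _
    rw [hφ, aeval_X]
    show Fin.lastCases (motive := fun _ => R) 0 (fun t : Fin n => lf (nd.l t.succ) Y) a.castSucc = _
    rw [Fin.lastCases_castSucc]
  · show MvPolynomial.map φ.toRingHom (C (X (VE.z (i, Fin.last n)))) =
      aeval (hsb l₀ _ _) (aeval (fun a => C (η i a)) nd.θ)
    rw [ig1_aeval, map_C, aeval_C]
    congr 1
    show φ (X (VE.z (i, Fin.last n))) = _
    rw [hφ, aeval_X]
    show Fin.lastCases (motive := fun _ => R) (aeval (η i) nd.θ)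
      (fun t : Fin n => lf (nd.l t.succ) (η i)) (Fin.last n) = _
    rw [Fin.lastCases_last]
  · show MvPolynomial.map φ.toRingHom (C (X (VE.z (p.1, p.2.castSucc)))) =
      aeval (hsb l₀ _ _) (lf (nd.l p.2.succ) fun a => C (η p.1 a))
    rw [ig1_lf, map_C, aeval_C]
    congr 1
    show φ (X (VE.z (p.1, p.2.castSucc))) = _
    rw [hφ, aeval_X]
    show Fin.lastCases (motive := fun _ => R) (aeval (η p.1) nd.θ)
      (fun t : Fin n => lf (nd.l t.succ) (η p.1)) p.2.castSucc = _
    rw [Fin.lastCases_castSucc]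
  · show MvPolynomial.map φ.toRingHom (hsb l₀ (fun i => rename (pC i) (M i l₀))
      (fun i l => rename (pC i) (M i l)) p) = aeval (hsb l₀ _ _) (X p)
    rw [ig1_hsb, aeval_X]
    congr 1
    · funext i
      exact hM i _
    · funext i l
      exact hM i _

end Pool.Agent.Lib.MP_17a322_nt.SL
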