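import Pool.Agent.Lib.MP_17a322_nt.SL.IDefs
import Pool.Agent.Lib.MP_17a322_nt.VN.L2B1
import Pool.Agent.Lib.MP_17a322_nt.VA.E23

/-!
IRR part, IG2: bounds for the coefficients of `covF`.
-/

universe u

namespace Pool.Agent.Lib.MP_17a322_nt.SL

open MvPolynomial Height Filter
open Pool.Agent.Lib.MP_17a322_nt.RO
open Pool.Agent.Lib.MP_17a322_nt.VJ
open Pool.Agent.Lib.MP_17a322_nt.VN hiding lf
open Pool.Agent.Lib.MP_17a322_nt.VA
open Pool.Agent.Lib.MP_17a322_nt.VP

theorem IG2_gs_zero {K : Type*} [Field K] [AdmissibleAbsValues K] :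
    gs (fun _ : AbsoluteValue K ℝ => (0 : ℝ)) = 0 := by
  unfold gs
  simp

theorem IG2_nh1_X {K : Type*} [Field K] [AdmissibleAbsValues K] {σ : Type*} (s : σ) :
    nh1 (X s : MvPolynomial σ K) = 0 := by
  unfold nh1
  have h : (fun v : AbsoluteValue K ℝ => Real.log (max 1 (NV v (X s : MvPolynomial σ K)))) =
      fun _ => 0 := by
    funext v
    rw [NV_X, max_self, Real.log_one]
  rw [h]
  exact IG2_gs_zero

theorem IG2_nh_zero {K : Type*} [Field K] [AdmissibleAbsValues K] {σ : Type*} :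
    nh (0 : MvPolynomial σ K) = 0 := by
  unfold nh
  have h : (fun v : AbsoluteValue K ℝ => Real.log (NV v (0 : MvPolynomial σ K))) =
      fun _ => 0 := by
    funext v
    rw [(SN_NV v).zero, Real.log_zero]
  rw [h]
  exact IG2_gs_zero

/-- The height after a substitution. -/
theorem IG2_nh_aeval {K : Type*} [Field K] [AdmissibleAbsValues K] {σ τ : Type*} [Fintype σ]
    (F : MvPolynomial σ K) (hF : F ≠ 0) (d : σ → ℕ) (hd : ∀ s, F.degreeOf s ≤ d s)
    (g : σ → MvPolynomial τ K) :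
    nh (aeval g F) ≤ nh F + ∑ s, (d s : ℝ) * nh1 (g s) := by
  have hs : 0 ≤ ∑ s, (d s : ℝ) * nh1 (g s) :=
    Finset.sum_nonneg fun s _ => mul_nonneg (Nat.cast_nonneg _) (nh1_nonneg _)
  rcases eq_or_ne (aeval g F) 0 with h0 | h0
  · rw [h0, IG2_nh_zero]
    exact add_nonneg (nh_nonneg hF) hs
  · have hsum : FS (fun v : AbsoluteValue K ℝ =>
        ∑ s, (d s : ℝ) * Real.log (max 1 (NV v (g s)))) :=
      FS_sum _ fun s _ => FS_const_mul _ (FS_nh1 _)
    have h2 : nh (aeval g F) ≤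
        gs (fun v => Real.log (NV v F) + ∑ s, (d s : ℝ) * Real.log (max 1 (NV v (g s)))) := by
      refine gs_le (FS_log_NV h0) (FS_add (FS_log_NV hF) hsum) fun v _ => ?_
      have h3 := (SN_NV v (σ := τ)).aeval_le F d hd g
      have h4 : ∀ s, (0 : ℝ) < (max 1 (NV v (g s))) ^ (d s) := fun s =>
        pow_pos (zero_lt_one.trans_le (le_max_left _ _)) _
      refine (Real.log_le_log (NV_pos v h0) h3).trans (le_of_eq ?_)
      rw [Real.log_mul (NV_pos v hF).ne' (Finset.prod_pos fun s _ => h4 s).ne',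
        Real.log_prod fun s _ => (h4 s).ne']
      simp only [Real.log_pow]
    rw [gs_add (FS_log_NV hF) hsum, gs_sum _ fun s _ => FS_const_mul _ (FS_nh1 _)] at h2
    simp only [gs_const_mul] at h2
    exact h2

theorem IG2_map {K A B σ : Type*} [Field K] [CommRing A] [CommRing B] [Algebra K A]
    [Algebra K B] (φ : A →ₐ[K] B) (f : σ → A) (h : MvPolynomial σ K) :
    φ (aeval f h) = aeval (fun t => φ (f t)) h := by
  induction h using MvPolynomial.induction_on with
  | C a => rw [aeval_C, aeval_C, AlgHom.commutes]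
  | add p q hp hq => rw [map_add, map_add, map_add, hp, hq]
  | mul_X p i hp => rw [map_mul, map_mul, map_mul, hp, aeval_X, aeval_X]

section

variable {K : Type u} [Field K] {m n q : ℕ} (l₀ : Fin (q + 1))
  (M : Fin m → Fin (q + 1) → MvPolynomial (Option (Fin n)) K)

/-- The coordinates adapted to the hyperplanes, in one polynomial ring. -/
noncomputable def IG2_hs (p : Fin m × Fin (q + 1)) :
    MvPolynomial ((Fin m × Fin (q + 1)) ⊕ VE m (n + 1)) K :=
  if p.2 = l₀ then rename Sum.inr (rename (pC p.1) (M p.1 l₀)) * X (Sum.inl p) -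
    ∑ l ∈ Finset.univ.erase l₀, rename Sum.inr (rename (pC p.1) (M p.1 l)) *
      X (Sum.inl (p.1, l))
  else rename Sum.inr (rename (pC p.1) (M p.1 l₀)) * X (Sum.inl p)

/-- The values of the variables. -/
noncomputable def IG2_vl : VQ m n (q + 1) →
    MvPolynomial ((Fin m × Fin (q + 1)) ⊕ VE m (n + 1)) K :=
  vq (fun a => X (Sum.inr (VE.x a.castSucc))) (fun i => X (Sum.inr (VE.z (i, Fin.last n))))
    (fun p => X (Sum.inr (VE.z (p.1, p.2.castSucc)))) (IG2_hs l₀ M)

theorem IG2_eq (F : MvPolynomial (VQ m n (q + 1)) K) :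
    sumAlgEquiv K (Fin m × Fin (q + 1)) (VE m (n + 1)) (aeval (IG2_vl l₀ M) F) =
      covF l₀ M F := by
  have hr : ∀ G : MvPolynomial (VE m (n + 1)) K,
      sumAlgEquiv K (Fin m × Fin (q + 1)) (VE m (n + 1)) (rename Sum.inr G) = C G := fun G =>
    DFunLike.congr_fun (sumAlgEquiv_comp_rename_inr (R := K) (S₁ := Fin m × Fin (q + 1))
      (S₂ := VE m (n + 1))) G
  obtain ⟨φ, hφ⟩ : ∃ φ : MvPolynomial ((Fin m × Fin (q + 1)) ⊕ VE m (n + 1)) K →ₐ[K]
      MvPolynomial (Fin m × Fin (q + 1)) (MvPolynomial (VE m (n + 1)) K),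
      ∀ G, φ G = sumAlgEquiv K (Fin m × Fin (q + 1)) (VE m (n + 1)) G :=
    ⟨(sumAlgEquiv K (Fin m × Fin (q + 1)) (VE m (n + 1))).toAlgHom, fun _ => rfl⟩
  have e1 : ∀ G, φ (rename Sum.inr G) = C G := fun G => by rw [hφ, hr]
  have e2 : ∀ p, φ (X (Sum.inl p)) = X p := fun p => by rw [hφ, sumAlgEquiv_X_inl]
  have e3 : ∀ y, φ (X (Sum.inr y)) = C (X y) := fun p => by rw [hφ, sumAlgEquiv_X_inr]
  rw [← hφ, IG2_map φ (IG2_vl l₀ M) F]
  have h2 : (fun t => φ (IG2_vl l₀ M t)) = vq (fun a => C (X (VE.x a.castSucc)))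
        (fun i => C (X (VE.z (i, Fin.last n)))) (fun p => C (X (VE.z (p.1, p.2.castSucc))))
        (hsb l₀ (fun i => rename (pC i) (M i l₀)) fun i l => rename (pC i) (M i l)) := by
    funext t
    cases t with
    | x a => exact e3 _
    | th i => exact e3 _
    | z p => exact e3 _
    | u p =>
      have h3 : φ (IG2_hs l₀ M p) =
          hsb l₀ (fun i => rename (pC i) (M i l₀)) (fun i l => rename (pC i) (M i l)) p := by
        unfold IG2_hs hsb
        by_cases hp : p.2 = l₀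
        · rw [if_pos hp, if_pos hp, map_sub, map_mul, e1, e2, map_sum]
          refine congrArg (fun z => C (rename (pC p.1) (M p.1 l₀)) * X p - z) ?_
          refine Finset.sum_congr rfl fun l _ => ?_
          rw [map_mul, e1, e2]
        · rw [if_neg hp, if_neg hp, map_mul, e1, e2]
      exact h3
  rw [h2]
  rfl

theorem IG2_coeff (F : MvPolynomial (VQ m n (q + 1)) K) (w : Fin m × Fin (q + 1) →₀ ℕ) :
    coeff w (covF l₀ M F) = cbp w (aeval (IG2_vl l₀ M) F) := by
  rw [← IG2_eq]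
  rfl

/-! ## Degrees -/

theorem IG2_deg_rename {σ τ : Type*} (f : σ → τ) (p : MvPolynomial σ K) (y : τ)
    (hy : ∀ x, f x ≠ y) : (rename f p).degreeOf y = 0 := by
  classical
  by_contra h
  have h1 : y ∈ (rename f p).vars := mem_vars_iff_degreeOf_ne_zero.2 h
  have h5 := vars_rename f p h1
  rw [Finset.mem_image] at h5
  obtain ⟨x, _, hx⟩ := h5
  exact hy x hx

theorem IG2_deg_M (i : Fin m) {Dc : ℕ} (G : MvPolynomial (Option (Fin n)) K)
    (hG : ∀ y, G.degreeOf y ≤ Dc) (y : VE m (n + 1)) :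
    (rename (Sum.inr : VE m (n + 1) → (Fin m × Fin (q + 1)) ⊕ VE m (n + 1))
      (rename (pC i) G)).degreeOf (Sum.inr y) ≤ Dc := by
  classical
  rw [degreeOf_rename_of_injective Sum.inr_injective]
  have hinj : Function.Injective (pC i : Option (Fin n) → VE m (n + 1)) := by
    intro a b hab
    cases a with
    | none =>
      cases b with
      | none => rfl
      | some b => unfold pC at hab; cases hab
    | some a =>
      cases b with
      | none => unfold pC at hab; cases hab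
      | some b =>
        unfold pC at hab
        simp only [VE.S.injEq, Prod.mk.injEq, Fin.castSucc_inj, true_and] at hab
        rw [hab]
  by_cases h : ∃ x, pC i x = y
  · obtain ⟨x, rfl⟩ := h
    rw [degreeOf_rename_of_injective hinj]
    exact hG x
  · rw [IG2_deg_rename _ _ _ fun x hx => h ⟨x, hx⟩]
    exact Nat.zero_le _

theorem IG2_deg_M0 (i : Fin m) (G : MvPolynomial (Option (Fin n)) K) (y : VE m (n + 1))
    (hy : ∀ x, pC i x ≠ y) :
    (rename (Sum.inr : VE m (n + 1) → (Fin m × Fin (q + 1)) ⊕ VE m (n + 1))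
      (rename (pC i) G)).degreeOf (Sum.inr y) = 0 := by
  rw [degreeOf_rename_of_injective Sum.inr_injective]
  exact IG2_deg_rename _ _ _ hy

theorem IG2_deg_hs (p : Fin m × Fin (q + 1)) (y : VE m (n + 1)) (D : ℕ)
    (h : ∀ l, (rename (Sum.inr : VE m (n + 1) → (Fin m × Fin (q + 1)) ⊕ VE m (n + 1))
      (rename (pC p.1) (M p.1 l))).degreeOf (Sum.inr y) ≤ D) :
    (IG2_hs l₀ M p).degreeOf (Sum.inr y) ≤ D := by
  classical
  have h1 : ∀ l l', (rename (Sum.inr : VE m (n + 1) → (Fin m × Fin (q + 1)) ⊕ VE m (n + 1))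
      (rename (pC p.1) (M p.1 l)) * X (Sum.inl (p.1, l'))).degreeOf (Sum.inr y) ≤ D := by
    intro l l'
    refine (degreeOf_mul_le _ _ _).trans ?_
    have h2 : (X (Sum.inl (p.1, l')) :
        MvPolynomial ((Fin m × Fin (q + 1)) ⊕ VE m (n + 1)) K).degreeOf (Sum.inr y) = 0 := by
      rw [degreeOf_X, if_neg (by simp)]
    rw [h2, add_zero]
    exact h l
  unfold IG2_hs
  split_ifs with hp
  · refine (degreeOf_sub_le _ _ _).trans (max_le (h1 _ _) ?_)
    exact (degreeOf_sum_le _ _ _).trans (Finset.sup_le fun l _ => h1 _ _)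
  · exact h1 _ _

/-- The degrees of the values of the variables in the variables `y`. -/
theorem IG2_deg_vl {Dc : ℕ} (hM : ∀ i l y, (M i l).degreeOf y ≤ Dc) (s : VQ m n (q + 1))
    (y : VE m (n + 1)) : (IG2_vl l₀ M s).degreeOf (Sum.inr y) ≤
      vq (fun a => if y = VE.x a.castSucc then 1 else 0)
        (fun i => if y = VE.z (i, Fin.last n) then 1 else 0)
        (fun p => if y = VE.z (p.1, p.2.castSucc) then 1 else 0)
        (fun p => if ∃ x, pC p.1 x = y then Dc else 0) s := by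
  classical
  cases s with
  | x a =>
    show (X (Sum.inr (VE.x a.castSucc)) :
      MvPolynomial ((Fin m × Fin (q + 1)) ⊕ VE m (n + 1)) K).degreeOf (Sum.inr y) ≤
        if y = VE.x a.castSucc then 1 else 0
    rw [degreeOf_X]
    simp only [Sum.inr.injEq]
    rfl
  | th i =>
    show (X (Sum.inr (VE.z (i, Fin.last n))) :
      MvPolynomial ((Fin m × Fin (q + 1)) ⊕ VE m (n + 1)) K).degreeOf (Sum.inr y) ≤
        if y = VE.z (i, Fin.last n) then 1 else 0
    rw [degreeOf_X]
    simp only [Sum.inr.injEq]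
    rfl
  | z p =>
    show (X (Sum.inr (VE.z (p.1, p.2.castSucc))) :
      MvPolynomial ((Fin m × Fin (q + 1)) ⊕ VE m (n + 1)) K).degreeOf (Sum.inr y) ≤
        if y = VE.z (p.1, p.2.castSucc) then 1 else 0
    rw [degreeOf_X]
    simp only [Sum.inr.injEq]
    rfl
  | u p =>
    show (IG2_hs l₀ M p).degreeOf (Sum.inr y) ≤ if ∃ x, pC p.1 x = y then Dc else 0
    split_ifs with h
    · exact IG2_deg_hs l₀ M p y Dc fun l => IG2_deg_M _ _ (hM _ _) y
    · refine IG2_deg_hs l₀ M p y 0 fun l => le_of_eq (IG2_deg_M0 _ _ _ fun x hx => h ⟨x, hx⟩)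

end

/-- Sums over the variables. -/
theorem IG2_sum {m n q : ℕ} {A : Type*} [AddCommMonoid A] (f : VQ m n q → A) :
    ∑ s, f s = ∑ a, f (VQ.x a) + (∑ i, f (VQ.th i) + (∑ p, f (VQ.z p) + ∑ p, f (VQ.u p))) := by
  let e : Fin n ⊕ (Fin m ⊕ ((Fin m × Fin n) ⊕ (Fin m × Fin q))) ≃ VQ m n q :=
    { toFun := Sum.elim VQ.x (Sum.elim VQ.th (Sum.elim VQ.z VQ.u))
      invFun := fun s => match s with
        | VQ.x a => Sum.inl a
        | VQ.th i => Sum.inr (Sum.inl i)
        | VQ.z p => Sum.inr (Sum.inr (Sum.inl p))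
        | VQ.u p => Sum.inr (Sum.inr (Sum.inr p))
      left_inv := by rintro (a | a | a | a) <;> rfl
      right_inv := by intro s; cases s <;> rfl }
  rw [← Equiv.sum_comp e f, Fintype.sum_sum_type, Fintype.sum_sum_type, Fintype.sum_sum_type]
  rfl

section

variable {K : Type u} [Field K] {m n q : ℕ} (l₀ : Fin (q + 1))
  (M : Fin m → Fin (q + 1) → MvPolynomial (Option (Fin n)) K)

theorem IG2_deg {Dc : ℕ} (hM : ∀ i l y, (M i l).degreeOf y ≤ Dc)
    (F : MvPolynomial (VQ m n (q + 1)) K) (w : Fin m × Fin (q + 1) →₀ ℕ) (y : VE m (n + 1)) (D : ℕ)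
    (h : ∀ μ ∈ F.support, ∑ a, μ (VQ.x a) * (if y = VE.x a.castSucc then 1 else 0) +
      (∑ i, μ (VQ.th i) * (if y = VE.z (i, Fin.last n) then 1 else 0) +
        (∑ p, μ (VQ.z p) * (if y = VE.z (p.1, p.2.castSucc) then 1 else 0) +
          ∑ p, μ (VQ.u p) * (if ∃ x, pC p.1 x = y then Dc else 0))) ≤ D) :
    (coeff w (covF l₀ M F)).degreeOf y ≤ D := by
  classical
  rw [IG2_coeff]
  refine (degreeOf_cb_le _ _ _).trans (degreeOf_aeval_le _ _ _ _ fun μ hμ => ?_)
  rw [Finsupp.sum_fintype μ (fun s k => k * (IG2_vl l₀ M s).degreeOf (Sum.inr y))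
    (fun s => Nat.zero_mul _)]
  refine le_trans (Finset.sum_le_sum fun s _ => Nat.mul_le_mul_left (μ s)
    (IG2_deg_vl l₀ M hM s y)) ?_
  rw [IG2_sum]
  exact h μ hμ

theorem IG2_pC_w (i i' : Fin m) :
    (∃ o : Option (Fin n), (pC i o : VE m (n + 1)) = VE.w i') ↔ i = i' := by
  constructor
  · rintro ⟨o, ho⟩
    cases o with
    | none => exact VE.w.inj ho
    | some a => cases ho
  · rintro rfl
    exact ⟨none, rfl⟩

theorem IG2_pC_S (i i' : Fin m) (a : Fin n) :
    (∃ o : Option (Fin n), (pC i o : VE m (n + 1)) = VE.S (i', a.castSucc)) ↔ i = i' := by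
  constructor
  · rintro ⟨o, ho⟩
    cases o with
    | none => cases ho
    | some b => exact congrArg Prod.fst (VE.S.inj ho)
  · rintro rfl
    exact ⟨some a, rfl⟩

theorem IG2_pC_last (i i' : Fin m) :
    ¬ ∃ o : Option (Fin n), (pC i o : VE m (n + 1)) = VE.S (i', Fin.last n) := by
  rintro ⟨o, ho⟩
  cases o with
  | none => cases ho
  | some b =>
    have h := congrArg Prod.snd (VE.S.inj ho)
    exact (Fin.castSucc_lt_last b).ne h

theorem IG2_pC_x (i : Fin m) (t : Fin (n + 1)) :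
    ¬ ∃ o : Option (Fin n), (pC i o : VE m (n + 1)) = VE.x t := by
  rintro ⟨o, ho⟩
  cases o <;> cases ho

theorem IG2_pC_q (i : Fin m) :
    ¬ ∃ o : Option (Fin n), (pC i o : VE m (n + 1)) = VE.q := by
  rintro ⟨o, ho⟩
  cases o <;> cases ho

theorem IG2_pC_z (i : Fin m) (p : Fin m × Fin (n + 1)) :
    ¬ ∃ o : Option (Fin n), (pC i o : VE m (n + 1)) = VE.z p := by
  rintro ⟨o, ho⟩
  cases o <;> cases ho

theorem IG2_pC_v (i : Fin m) (p : Fin m × Fin (n + 1)) :
    ¬ ∃ o : Option (Fin n), (pC i o : VE m (n + 1)) = VE.v p := by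
  rintro ⟨o, ho⟩
  cases o <;> cases ho

/-- Degrees, with bounds `dx` for `x`, `dz` for `z`, `k` for the blocks of `u`, `g` for `th`. -/
theorem IG2_degs {Dc g : ℕ} (hM : ∀ i l y, (M i l).degreeOf y ≤ Dc)
    (F : MvPolynomial (VQ m n (q + 1)) K) (k : Fin m → ℕ)
    (hu : ∀ w ∈ F.support, ∀ i, ∑ l, w (VQ.u (i, l)) = k i)
    (hth : ∀ i, F.degreeOf (VQ.th i) ≤ g) (w : Fin m × Fin (q + 1) →₀ ℕ) :
    (∀ a : Fin n, (coeff w (covF l₀ M F)).degreeOf (VE.x a.castSucc) ≤ F.degreeOf (VQ.x a)) ∧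
    (∀ i, (coeff w (covF l₀ M F)).degreeOf (VE.z (i, Fin.last n)) ≤ g) ∧
    (∀ i (a : Fin n), (coeff w (covF l₀ M F)).degreeOf (VE.z (i, a.castSucc)) ≤
      F.degreeOf (VQ.z (i, a))) ∧
    (∀ i, (coeff w (covF l₀ M F)).degreeOf (VE.w i) ≤ k i * Dc) ∧
    (∀ i (a : Fin n), (coeff w (covF l₀ M F)).degreeOf (VE.S (i, a.castSucc)) ≤ k i * Dc) ∧
    (∀ p, (coeff w (covF l₀ M F)).degreeOf (VE.v p) = 0) ∧
    (coeff w (covF l₀ M F)).degreeOf (VE.x (Fin.last n)) = 0 ∧
    (∀ i, (coeff w (covF l₀ M F)).degreeOf (VE.S (i, Fin.last n)) = 0) ∧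
    (coeff w (covF l₀ M F)).degreeOf VE.q = 0 := by
  classical
  refine ⟨fun a => ?_, fun i => ?_, fun i a => ?_, fun i => ?_, fun i a => ?_, fun p => ?_, ?_,
    fun i => ?_, ?_⟩
  · refine IG2_deg l₀ M hM F w _ _ fun μ hμ => ?_
    have h1 : ∑ b, μ (VQ.x b) * (if (VE.x a.castSucc : VE m (n + 1)) = VE.x b.castSucc then 1
        else 0) = μ (VQ.x a) := by
      rw [Finset.sum_eq_single a]
      · rw [if_pos rfl, mul_one]
      · intro b _ hb
        rw [if_neg, mul_zero]
        intro h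
        exact hb (Fin.castSucc_injective n (VE.x.inj h)).symm
      · intro h
        exact absurd (Finset.mem_univ a) h
    rw [h1]
    have h2 := monomial_le_degreeOf (VQ.x a) hμ
    simp only [IG2_pC_x, reduceCtorEq, if_false, mul_zero, Finset.sum_const_zero, add_zero]
    exact h2
  · refine IG2_deg l₀ M hM F w _ _ fun μ hμ => ?_
    have h1 : ∑ i', μ (VQ.th i') * (if (VE.z (i, Fin.last n) : VE m (n + 1)) =
        VE.z (i', Fin.last n) then 1 else 0) = μ (VQ.th i) := by
      rw [Finset.sum_eq_single i]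
      · rw [if_pos rfl, mul_one]
      · intro b _ hb
        rw [if_neg, mul_zero]
        intro h
        exact hb (congrArg Prod.fst (VE.z.inj h)).symm
      · intro h
        exact absurd (Finset.mem_univ i) h
    have h3 : ∀ p : Fin m × Fin n, ¬ ((VE.z (i, Fin.last n) : VE m (n + 1)) =
        VE.z (p.1, p.2.castSucc)) := by
      intro p h
      exact (Fin.castSucc_lt_last p.2).ne (congrArg Prod.snd (VE.z.inj h)).symm
    rw [h1]
    have h2 := monomial_le_degreeOf (VQ.th i) hμ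
    simp only [IG2_pC_z, h3, reduceCtorEq, if_false, mul_zero, Finset.sum_const_zero, add_zero,
      zero_add]
    exact h2.trans (hth i)
  · refine IG2_deg l₀ M hM F w _ _ fun μ hμ => ?_
    have h1 : ∑ p : Fin m × Fin n, μ (VQ.z p) * (if (VE.z (i, a.castSucc) : VE m (n + 1)) =
        VE.z (p.1, p.2.castSucc) then 1 else 0) = μ (VQ.z (i, a)) := by
      rw [Finset.sum_eq_single (i, a)]
      · rw [if_pos rfl, mul_one]
      · intro b _ hb
        rw [if_neg, mul_zero]
        intro h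
        apply hb
        have h4 := VE.z.inj h
        refine Prod.ext (congrArg Prod.fst h4).symm ?_
        exact (Fin.castSucc_injective n (congrArg Prod.snd h4)).symm
      · intro h
        exact absurd (Finset.mem_univ (i, a)) h
    have h3 : ∀ i' : Fin m, ¬ ((VE.z (i, a.castSucc) : VE m (n + 1)) =
        VE.z (i', Fin.last n)) := by
      intro p h
      exact (Fin.castSucc_lt_last a).ne (congrArg Prod.snd (VE.z.inj h))
    rw [h1]
    have h2 := monomial_le_degreeOf (VQ.z (i, a)) hμ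
    simp only [IG2_pC_z, h3, reduceCtorEq, if_false, mul_zero, Finset.sum_const_zero, add_zero,
      zero_add]
    exact h2
  · refine IG2_deg l₀ M hM F w _ _ fun μ hμ => ?_
    simp only [IG2_pC_w, reduceCtorEq, if_false, mul_zero, Finset.sum_const_zero, zero_add]
    rw [Fintype.sum_prod_type, Finset.sum_eq_single i]
    · simp only [if_true]
      rw [← Finset.sum_mul, hu μ hμ i]
    · intro b _ hb
      refine Finset.sum_eq_zero fun l _ => ?_
      rw [if_neg hb, mul_zero]
    · intro h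
      exact absurd (Finset.mem_univ i) h
  · refine IG2_deg l₀ M hM F w _ _ fun μ hμ => ?_
    simp only [IG2_pC_S, reduceCtorEq, if_false, mul_zero, Finset.sum_const_zero, zero_add]
    rw [Fintype.sum_prod_type, Finset.sum_eq_single i]
    · simp only [if_true]
      rw [← Finset.sum_mul, hu μ hμ i]
    · intro b _ hb
      refine Finset.sum_eq_zero fun l _ => ?_
      rw [if_neg hb, mul_zero]
    · intro h
      exact absurd (Finset.mem_univ i) h
  · refine Nat.le_zero.1 (IG2_deg l₀ M hM F w _ _ fun μ hμ => ?_)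
    simp only [IG2_pC_v, reduceCtorEq, if_false, mul_zero, Finset.sum_const_zero, zero_add,
      le_refl]
  · refine Nat.le_zero.1 (IG2_deg l₀ M hM F w _ _ fun μ hμ => ?_)
    have h3 : ∀ a : Fin n, ¬ ((VE.x (Fin.last n) : VE m (n + 1)) = VE.x a.castSucc) := by
      intro a h
      exact (Fin.castSucc_lt_last a).ne (VE.x.inj h).symm
    simp only [IG2_pC_x, h3, reduceCtorEq, if_false, mul_zero, Finset.sum_const_zero, zero_add,
      le_refl]
  · refine Nat.le_zero.1 (IG2_deg l₀ M hM F w _ _ fun μ hμ => ?_)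
    simp only [IG2_pC_last, reduceCtorEq, if_false, mul_zero, Finset.sum_const_zero, zero_add,
      le_refl]
  · refine Nat.le_zero.1 (IG2_deg l₀ M hM F w _ _ fun μ hμ => ?_)
    simp only [IG2_pC_q, reduceCtorEq, if_false, mul_zero, Finset.sum_const_zero, zero_add,
      le_refl]

/-! ## Heights -/

theorem IG2_NV_hs (v : AbsoluteValue K ℝ) (p : Fin m × Fin (q + 1)) :
    NV v (IG2_hs l₀ M p) ≤ cst v (q + 1) * ∏ l, max 1 (NV v (M p.1 l)) := by
  classical
  have g1 : ∀ l, (1 : ℝ) ≤ max 1 (NV v (M p.1 l)) := fun l => le_max_left _ _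
  have g2 : (1 : ℝ) ≤ ∏ l, max 1 (NV v (M p.1 l)) := by
    refine le_of_eq_of_le (Finset.prod_const_one (s := (Finset.univ : Finset (Fin (q + 1))))).symm ?_
    exact Finset.prod_le_prod (fun _ _ => zero_le_one) fun l _ => g1 l
  have g0 : (0 : ℝ) ≤ ∏ l, max 1 (NV v (M p.1 l)) := zero_le_one.trans g2
  have g3 : ∀ l, NV v (M p.1 l) ≤ ∏ l, max 1 (NV v (M p.1 l)) := by
    intro l
    rw [← Finset.mul_prod_erase Finset.univ _ (Finset.mem_univ l)]
    have g4 : (1 : ℝ) ≤ ∏ l ∈ Finset.univ.erase l, max 1 (NV v (M p.1 l)) := by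
      refine le_of_eq_of_le (Finset.prod_const_one (s := Finset.univ.erase l)).symm ?_
      exact Finset.prod_le_prod (fun _ _ => zero_le_one) fun m _ => g1 m
    calc NV v (M p.1 l) ≤ max 1 (NV v (M p.1 l)) := le_max_right _ _
      _ = max 1 (NV v (M p.1 l)) * 1 := (mul_one _).symm
      _ ≤ _ := mul_le_mul_of_nonneg_left g4 (zero_le_one.trans (g1 l))
  have hinj : Function.Injective (pC p.1 : Option (Fin n) → VE m (n + 1)) := by
    intro a b hab
    cases a with
    | none =>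
      cases b with
      | none => rfl
      | some b => unfold pC at hab; cases hab
    | some a =>
      cases b with
      | none => unfold pC at hab; cases hab
      | some b =>
        unfold pC at hab
        simp only [VE.S.injEq, Prod.mk.injEq, Fin.castSucc_inj, true_and] at hab
        rw [hab]
  have h1 : ∀ l l', NV v (rename (Sum.inr : VE m (n + 1) → (Fin m × Fin (q + 1)) ⊕ VE m (n + 1))
      (rename (pC p.1) (M p.1 l)) * X (Sum.inl (p.1, l'))) ≤
        ∏ l, max 1 (NV v (M p.1 l)) := by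
    intro l l'
    refine ((SN_NV v).mul _ _).trans ?_
    rw [NV_X, mul_one, NV_rename v _ _ Sum.inr_injective, NV_rename v _ _ hinj]
    exact g3 l
  have hc : (1 : ℝ) ≤ cst v (q + 1) := one_le_cst v (Nat.le_add_left _ _)
  unfold IG2_hs
  split_ifs with hp
  · have e : rename (Sum.inr : VE m (n + 1) → (Fin m × Fin (q + 1)) ⊕ VE m (n + 1))
        (rename (pC p.1) (M p.1 l₀)) * X (Sum.inl p) -
      ∑ l ∈ Finset.univ.erase l₀, rename Sum.inr (rename (pC p.1) (M p.1 l)) *
        X (Sum.inl (p.1, l)) = ∑ l, if l = l₀ then rename Sum.inr (rename (pC p.1) (M p.1 l)) *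
          X (Sum.inl (p.1, l)) else - (rename Sum.inr (rename (pC p.1) (M p.1 l)) *
        X (Sum.inl (p.1, l))) := by
      rw [← Finset.add_sum_erase Finset.univ _ (Finset.mem_univ l₀), if_pos rfl, sub_eq_add_neg,
        ← Finset.sum_neg_distrib]
      have e1 : (p.1, l₀) = p := by rw [← hp]
      rw [e1]
      refine congrArg (fun z => rename Sum.inr (rename (pC p.1) (M p.1 l₀)) *
        X (Sum.inl p) + z) ?_
      refine Finset.sum_congr rfl fun l hl => ?_
      rw [if_neg (Finset.ne_of_mem_erase hl)]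
    rw [e]
    have h2 := (SN_NV v (σ := (Fin m × Fin (q + 1)) ⊕ VE m (n + 1))).sum_le Finset.univ
      (fun l => if l = l₀ then rename Sum.inr (rename (pC p.1) (M p.1 l)) *
          X (Sum.inl (p.1, l)) else - (rename Sum.inr (rename (pC p.1) (M p.1 l)) *
        X (Sum.inl (p.1, l)))) g0 (fun l _ => by
        show NV v (if l = l₀ then _ else _) ≤ _
        split_ifs
        · exact h1 l l
        · exact le_of_eq_of_le ((SN_NV v).neg _) (h1 l l))
    rw [Finset.card_univ, Fintype.card_fin] at h2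
    exact h2
  · exact (h1 l₀ p.2).trans (le_mul_of_one_le_left g0 hc)

theorem IG2_nh1_hs [AdmissibleAbsValues K] (p : Fin m × Fin (q + 1)) :
    nh1 (IG2_hs l₀ M p) ≤ totalWeight K * Real.log ((q + 1 : ℕ) : ℝ) + ∑ l, nh1 (M p.1 l) := by
  have f1 : FS fun v : AbsoluteValue K ℝ => Real.log (cst v (q + 1)) := FS_log_cst _
  have f2 : FS fun v : AbsoluteValue K ℝ => ∑ l, Real.log (max 1 (NV v (M p.1 l))) :=
    FS_sum _ fun l _ => FS_nh1 _
  have h1 : nh1 (IG2_hs l₀ M p) ≤ gs fun v : AbsoluteValue K ℝ =>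
      Real.log (cst v (q + 1)) + ∑ l, Real.log (max 1 (NV v (M p.1 l))) := by
    refine gs_le (FS_nh1 _) (FS_add f1 f2) fun v _ => ?_
    have g1 : ∀ l, (1 : ℝ) ≤ max 1 (NV v (M p.1 l)) := fun l => le_max_left _ _
    have g2 : (1 : ℝ) ≤ ∏ l, max 1 (NV v (M p.1 l)) := by
      refine le_of_eq_of_le (Finset.prod_const_one (s := (Finset.univ : Finset (Fin (q + 1))))).symm ?_
      exact Finset.prod_le_prod (fun _ _ => zero_le_one) fun l _ => g1 l
    have g6 : (1 : ℝ) ≤ cst v (q + 1) := one_le_cst v (Nat.le_add_left _ _)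
    rw [← Real.log_prod fun l _ => (one_pos.trans_le (g1 l)).ne',
      ← Real.log_mul (one_pos.trans_le g6).ne' (one_pos.trans_le g2).ne']
    refine Real.log_le_log (lt_max_of_lt_left one_pos) (max_le ?_ ?_)
    · exact one_le_mul_of_one_le_of_one_le g6 g2
    · exact IG2_NV_hs l₀ M v p
  rw [gs_add f1 f2, gs_sum _ fun l _ => FS_nh1 _] at h1
  have h2 := gs_log_cst (L := K) (n := q + 1) (Nat.le_add_left _ _)
  have h3 : ∑ l, gs (fun v : AbsoluteValue K ℝ => Real.log (max 1 (NV v (M p.1 l)))) =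
    ∑ l, nh1 (M p.1 l) := rfl
  rw [h3] at h1
  linarith

/-- The height of the coefficients. -/
theorem IG2_nh [AdmissibleAbsValues K] (F : MvPolynomial (VQ m n (q + 1)) K) (hF : F ≠ 0)
    (k : Fin m → ℕ) (hu : ∀ w ∈ F.support, ∀ i, ∑ l, w (VQ.u (i, l)) = k i)
    (w : Fin m × Fin (q + 1) →₀ ℕ) :
    nh (coeff w (covF l₀ M F)) ≤ nh F + ∑ p : Fin m × Fin (q + 1), (k p.1 : ℝ) *
      (totalWeight K * Real.log ((q + 1 : ℕ) : ℝ) + ∑ l, nh1 (M p.1 l)) := by
  classical
  have hW : (0 : ℝ) ≤ totalWeight K * Real.log ((q + 1 : ℕ) : ℝ) :=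
    mul_nonneg (Nat.cast_nonneg _) (Real.log_nonneg (by
      exact_mod_cast Nat.le_add_left 1 q))
  have hS : ∀ p : Fin m × Fin (q + 1), (0 : ℝ) ≤ (k p.1 : ℝ) *
      (totalWeight K * Real.log ((q + 1 : ℕ) : ℝ) + ∑ l, nh1 (M p.1 l)) := fun p =>
    mul_nonneg (Nat.cast_nonneg _) (add_nonneg hW (Finset.sum_nonneg fun l _ => nh1_nonneg _))
  rw [IG2_coeff]
  rcases eq_or_ne (cbp w (aeval (IG2_vl l₀ M) F)) 0 with h0 | h0
  · rw [h0, IG2_nh_zero]
    exact add_nonneg (nh_nonneg hF) (Finset.sum_nonneg fun p _ => hS p)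
  · refine (nh_cb_le _ _ h0).trans ?_
    have h1 := IG2_nh_aeval F hF (fun s => F.degreeOf s) (fun s => le_refl _) (IG2_vl l₀ M)
    refine h1.trans (add_le_add (le_refl _) ?_)
    rw [IG2_sum]
    have e1 : ∀ a : Fin n, nh1 (IG2_vl l₀ M (VQ.x a)) = 0 := fun a => IG2_nh1_X _
    have e2 : ∀ i, nh1 (IG2_vl l₀ M (VQ.th i)) = 0 := fun a => IG2_nh1_X _
    have e3 : ∀ p, nh1 (IG2_vl l₀ M (VQ.z p)) = 0 := fun a => IG2_nh1_X _
    simp only [e1, e2, e3, mul_zero, Finset.sum_const_zero, zero_add]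
    refine Finset.sum_le_sum fun p _ => ?_
    have h2 : F.degreeOf (VQ.u p) ≤ k p.1 := by
      rw [degreeOf_le_iff]
      intro μ hμ
      rw [← hu μ hμ p.1]
      exact Finset.single_le_sum (f := fun l => μ (VQ.u (p.1, l))) (fun _ _ => Nat.zero_le _)
        (Finset.mem_univ p.2)
    have h3 : (F.degreeOf (VQ.u p) : ℝ) ≤ (k p.1 : ℝ) := by exact_mod_cast h2
    exact mul_le_mul h3 (IG2_nh1_hs l₀ M p) (nh1_nonneg _) (Nat.cast_nonneg _)

end

/-- IG2: bounds for the coefficients. -/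
theorem covF_bd' {K : Type u} [Field K] [NumberField K] {N : ℕ} {B : AV K N} {n e : ℕ}
    (nd : Noe B n e) (m q Dc : ℕ) (Bd : ℝ) (hBd : 0 ≤ Bd) :
    ∃ C : ℝ, 0 ≤ C ∧ ∀ (j k : Fin m → ℕ) (l₀ : Fin (q + 1))
      (M : Fin m → Fin (q + 1) → MvPolynomial (Option (Fin n)) K) (b : ℝ)
      (I : Finset (Fin m → Fin (q + 1) → ℕ)) (F : MvPolynomial (VQ m n (q + 1)) K),
      BdF nd j k Bd b I F → (∀ i, (4 : ℝ) ^ j i * k i ≤ b) → (∀ i, (4 : ℝ) ^ j i ≤ b) →
      (∀ i l y, (M i l).degreeOf y ≤ Dc) → (∀ i l, nh1 (M i l) ≤ 4 ^ j i) →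
      ∀ w, QE j (C * b) (C * b) (coeff w (covF l₀ M F)) ∧
        (∀ p, (coeff w (covF l₀ M F)).degreeOf (VE.v p) = 0) ∧
        (coeff w (covF l₀ M F)).degreeOf (VE.x (Fin.last n)) = 0 ∧
        (∀ i, (coeff w (covF l₀ M F)).degreeOf (VE.S (i, Fin.last n)) = 0) ∧
        (coeff w (covF l₀ M F)).degreeOf VE.q = 0 := by
  classical
  obtain ⟨W, hW⟩ : ∃ W : ℝ, W = totalWeight K * Real.log ((q + 1 : ℕ) : ℝ) := ⟨_, rfl⟩
  have hW0 : 0 ≤ W := by
    rw [hW]
    exact mul_nonneg (Nat.cast_nonneg _) (Real.log_nonneg (by exact_mod_cast Nat.le_add_left 1 q))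
  obtain ⟨C₁, hC₁⟩ : ∃ C₁ : ℝ, C₁ = Bd + m * (q + 1) * (W + (q + 1)) + (1 + Dc + nd.Φ.natDegree) :=
    ⟨_, rfl⟩
  have hm0 : (0 : ℝ) ≤ (m : ℝ) * (q + 1) * (W + (q + 1)) := by positivity
  have hd0 : (0 : ℝ) ≤ (1 + Dc + nd.Φ.natDegree : ℝ) := by positivity
  have hC₁0 : 0 ≤ C₁ := by rw [hC₁]; linarith
  refine ⟨if m = 0 ∧ n = 0 then 0 else C₁, by split_ifs <;> [exact le_refl _; exact hC₁0], ?_⟩
  intro j k l₀ M b I F hF hk hj hM hh w
  obtain ⟨d1, d2, d3, d4, d5, d6, d7, d8, d9⟩ := IG2_degs l₀ M hM F k hF.u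
    (fun i => (hF.th i).le) w
  refine ⟨⟨?_, ?_⟩, d6, d7, d8, d9⟩
  · intro y
    split_ifs with h00
    · obtain ⟨rfl, rfl⟩ := h00
      have h1 : (coeff w (covF l₀ M F)).degreeOf y = 0 := by
        cases y with
        | x t =>
          have ht : t = Fin.last 0 := Fin.ext (by have := t.2; simp only [Fin.val_last]; omega)
          rw [ht]
          exact d7
        | q => exact d9
        | S p => exact p.1.elim0
        | w i => exact i.elim0
        | z p => exact p.1.elim0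
        | v p => exact p.1.elim0
      rw [h1, Nat.cast_zero, mul_zero, zero_mul]
    · have hb : 0 ≤ b := by
        by_cases hm : m = 0
        · have hn : 0 < n := Nat.pos_of_ne_zero fun h => h00 ⟨hm, h⟩
          exact (Nat.cast_nonneg _).trans (hF.x ⟨0, hn⟩)
        · have hm' : 0 < m := Nat.pos_of_ne_zero hm
          exact (pow_nonneg (by norm_num) _).trans (hj ⟨0, hm'⟩)
      have hC1b : b ≤ C₁ * b := by
        rw [hC₁]
        have h2 : (0 : ℝ) ≤ (Bd + m * (q + 1) * (W + (q + 1)) + (Dc + nd.Φ.natDegree)) * b := by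
          positivity
        nlinarith
      have hDcb : (Dc : ℝ) * b ≤ C₁ * b := by
        rw [hC₁]
        have h2 : (0 : ℝ) ≤ (Bd + m * (q + 1) * (W + (q + 1)) + (1 + nd.Φ.natDegree)) * b := by
          positivity
        nlinarith
      have hgb : (nd.Φ.natDegree : ℝ) * b ≤ C₁ * b := by
        rw [hC₁]
        have h2 : (0 : ℝ) ≤ (Bd + m * (q + 1) * (W + (q + 1)) + (1 + Dc)) * b := by
          positivity
        nlinarith
      have hCb : 0 ≤ C₁ * b := mul_nonneg hC₁0 hb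
      have hSk : ∀ i (d : ℕ), d ≤ k i * Dc → (4 : ℝ) ^ j i * (d : ℝ) ≤ C₁ * b := by
        intro i d hd
        have h1 : (d : ℝ) ≤ (k i : ℝ) * Dc := by exact_mod_cast hd
        calc (4 : ℝ) ^ j i * (d : ℝ) ≤ (4 : ℝ) ^ j i * ((k i : ℝ) * Dc) :=
              mul_le_mul_of_nonneg_left h1 (by positivity)
          _ = ((4 : ℝ) ^ j i * k i) * Dc := by ring
          _ ≤ b * Dc := mul_le_mul_of_nonneg_right (hk i) (Nat.cast_nonneg _)
          _ = Dc * b := mul_comm _ _
          _ ≤ _ := hDcb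
      cases y with
      | x t =>
        change (1 : ℝ) * _ ≤ _
        rw [one_mul]
        refine Fin.lastCases ?_ (fun a => ?_) t
        · rw [d7, Nat.cast_zero]
          exact hCb
        · have h1 : ((coeff w (covF l₀ M F)).degreeOf (VE.x a.castSucc) : ℝ) ≤
            F.degreeOf (VQ.x a) := by exact_mod_cast d1 a
          exact (h1.trans (hF.x a)).trans hC1b
      | q =>
        rw [d9, Nat.cast_zero, mul_zero]
        exact hCb
      | S p =>
        obtain ⟨i, t⟩ := p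
        change (4 : ℝ) ^ j i * _ ≤ _
        refine Fin.lastCases ?_ (fun a => ?_) t
        · rw [d8, Nat.cast_zero, mul_zero]
          exact hCb
        · exact hSk i _ (d5 i a)
      | w i =>
        change (4 : ℝ) ^ j i * _ ≤ _
        exact hSk i _ (d4 i)
      | z p =>
        obtain ⟨i, t⟩ := p
        change (4 : ℝ) ^ j i * _ ≤ _
        refine Fin.lastCases ?_ (fun a => ?_) t
        · have h1 : ((coeff w (covF l₀ M F)).degreeOf (VE.z (i, Fin.last n)) : ℝ) ≤
            nd.Φ.natDegree := by exact_mod_cast d2 i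
          calc (4 : ℝ) ^ j i * ((coeff w (covF l₀ M F)).degreeOf (VE.z (i, Fin.last n)) : ℝ) ≤
              b * nd.Φ.natDegree := mul_le_mul (hj i) h1 (Nat.cast_nonneg _) hb
            _ = nd.Φ.natDegree * b := mul_comm _ _
            _ ≤ _ := hgb
        · have h1 : ((coeff w (covF l₀ M F)).degreeOf (VE.z (i, a.castSucc)) : ℝ) ≤
            F.degreeOf (VQ.z (i, a)) := by exact_mod_cast d3 i a
          have h2 := hF.z (i, a)
          exact ((mul_le_mul_of_nonneg_left h1 (by positivity)).trans h2).trans hC1b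
      | v p =>
        rw [d6, Nat.cast_zero, mul_zero]
        exact hCb
  · have h1 := IG2_nh l₀ M F hF.ne k hF.u w
    rw [← hW] at h1
    split_ifs with h00
    · obtain ⟨rfl, rfl⟩ := h00
      have hempty : IsEmpty (VQ 0 0 (q + 1)) := by
        refine ⟨fun s => ?_⟩
        cases s with
        | x a => exact a.elim0
        | th i => exact i.elim0
        | z p => exact p.1.elim0
        | u p => exact p.1.elim0
      have h2 : nh F = 0 := by
        have h3 := eq_C_of_isEmpty F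
        have h4 : coeff 0 F ≠ 0 := by
          intro h
          rw [h, map_zero] at h3
          exact hF.ne h3
        rw [h3]
        unfold nh
        simp only [NV_C]
        exact gs_log_abv h4
      rw [h2] at h1
      have h3 : ∑ p : Fin 0 × Fin (q + 1), (k p.1 : ℝ) * (W + ∑ l, nh1 (M p.1 l)) = 0 :=
        Finset.sum_eq_zero fun p _ => p.1.elim0
      rw [h3, add_zero] at h1
      rw [zero_mul]
      exact h1
    · refine h1.trans ?_
      have hb : 0 ≤ b := by
        by_cases hm : m = 0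
        · have hn : 0 < n := Nat.pos_of_ne_zero fun h => h00 ⟨hm, h⟩
          exact (Nat.cast_nonneg _).trans (hF.x ⟨0, hn⟩)
        · have hm' : 0 < m := Nat.pos_of_ne_zero hm
          exact (pow_nonneg (by norm_num) _).trans (hj ⟨0, hm'⟩)
      have h2 : ∑ p : Fin m × Fin (q + 1), (k p.1 : ℝ) * (W + ∑ l, nh1 (M p.1 l)) ≤
          ∑ p : Fin m × Fin (q + 1), (W + (q + 1)) * b := by
        refine Finset.sum_le_sum fun p _ => ?_
        have h3 : ∑ l, nh1 (M p.1 l) ≤ (q + 1) * (4 : ℝ) ^ j p.1 := by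
          refine (Finset.sum_le_sum fun l _ => hh p.1 l).trans ?_
          rw [Finset.sum_const, Finset.card_univ, Fintype.card_fin, nsmul_eq_mul]
          push_cast
          exact le_refl _
        have h4 : (1 : ℝ) ≤ (4 : ℝ) ^ j p.1 := one_le_pow₀ (by norm_num)
        have h5 : (k p.1 : ℝ) ≤ b := by
          refine le_trans ?_ (hk p.1)
          exact le_mul_of_one_le_left (Nat.cast_nonneg _) h4
        have hk0 : (0 : ℝ) ≤ k p.1 := Nat.cast_nonneg _
        have h6 : (k p.1 : ℝ) * (W + ∑ l, nh1 (M p.1 l)) ≤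
            (k p.1 : ℝ) * W + (k p.1 : ℝ) * ((q + 1) * (4 : ℝ) ^ j p.1) := by
          rw [mul_add]
          exact add_le_add (le_refl _) (mul_le_mul_of_nonneg_left h3 hk0)
        have h7 : (k p.1 : ℝ) * W ≤ b * W := mul_le_mul_of_nonneg_right h5 hW0
        have h8 : (k p.1 : ℝ) * ((q + 1) * (4 : ℝ) ^ j p.1) ≤ (q + 1) * b := by
          calc (k p.1 : ℝ) * ((q + 1) * (4 : ℝ) ^ j p.1) = (q + 1) * ((4 : ℝ) ^ j p.1 * k p.1) := by
                ring
            _ ≤ (q + 1) * b := mul_le_mul_of_nonneg_left (hk p.1) (by positivity)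
        linarith
      rw [Finset.sum_const, Finset.card_univ, Fintype.card_prod, Fintype.card_fin,
        Fintype.card_fin, nsmul_eq_mul] at h2
      push_cast at h2
      have h9 := hF.nh
      rw [hC₁]
      have h10 : (0 : ℝ) ≤ (1 + Dc + nd.Φ.natDegree) * b := mul_nonneg hd0 hb
      nlinarith

end Pool.Agent.Lib.MP_17a322_nt.SL
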