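import Pool.Agent.Lib.MP_17a322_nt.SL.IDefs
import Pool.Agent.Lib.MP_17a322_nt.VA.E11
import Pool.Agent.Lib.MP_17a322_nt.VA.T1
import Pool.Agent.Lib.MP_17a322_nt.VA.LA3

/-!
IRR part, IP: the lift of a path to the covers.
-/

universe u

namespace Pool.Agent.Lib.MP_17a322_nt.SL

open MvPolynomial Height Filter
open Pool.Agent.Lib.MP_17a322_nt.RO
open Pool.Agent.Lib.MP_17a322_nt.VJ
open Pool.Agent.Lib.MP_17a322_nt.VN hiding lf
open Pool.Agent.Lib.MP_17a322_nt.VA
open Pool.Agent.Lib.MP_17a322_nt.VP

theorem IP_congr {K : Type*} [Field K] {σ : Type*} {R : Type*} [CommRing R] [Algebra K R] (d : R)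
    (x y : σ → R) (h : ∀ o, d ∣ x o - y o) (F : MvPolynomial σ K) :
    d ∣ aeval x F - aeval y F := by
  induction F using MvPolynomial.induction_on with
  | C a => rw [aeval_C, aeval_C, sub_self]; exact dvd_zero d
  | add p q hp hq =>
    rw [map_add, map_add]
    have e : aeval x p + aeval x q - (aeval y p + aeval y q) =
        (aeval x p - aeval y p) + (aeval x q - aeval y q) := by ring
    rw [e]
    exact dvd_add hp hq
  | mul_X p o hp =>
    rw [map_mul, map_mul, aeval_X, aeval_X]
    have e : aeval x p * x o - aeval y p * y o =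
        (aeval x p - aeval y p) * x o + aeval y p * (x o - y o) := by ring
    rw [e]
    exact dvd_add (Dvd.dvd.mul_right hp _) (Dvd.dvd.mul_left (h o) _)

theorem IP_map {K A B σ : Type*} [Field K] [CommRing A] [CommRing B] [Algebra K A]
    [Algebra K B] (φ : A →ₐ[K] B) (f : σ → A) (h : MvPolynomial σ K) :
    φ (aeval f h) = aeval (fun t => φ (f t)) h := by
  induction h using MvPolynomial.induction_on with
  | C a => rw [aeval_C, aeval_C, AlgHom.commutes]
  | add p q hp hq => rw [map_add, map_add, map_add, hp, hq]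
  | mul_X p i hp => rw [map_mul, map_mul, map_mul, hp, aeval_X, aeval_X]

theorem IP_taylor {K : Type*} [Field K] {n : ℕ} {R : Type*} [CommRing R] [Algebra K R] (c U : R)
    (S : Fin n → R) (F : MvPolynomial (Option (Fin n)) K) :
    ∃ r : R, aeval (ot (c + U) S) F =
      aeval (ot c S) F + U * aeval (ot c S) (pderiv none F) + U ^ 2 * r := by
  induction F using MvPolynomial.induction_on with
  | C a =>
    refine ⟨0, ?_⟩
    rw [aeval_C, aeval_C, pderiv_C, map_zero]
    ring
  | add p q hp hq =>
    obtain ⟨r, hr⟩ := hp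
    obtain ⟨r', hr'⟩ := hq
    refine ⟨r + r', ?_⟩
    rw [map_add, map_add, map_add, map_add, hr, hr']
    ring
  | mul_X p o hp =>
    obtain ⟨r, hr⟩ := hp
    cases o with
    | none =>
      refine ⟨aeval (ot c S) (pderiv none p) + r * (c + U), ?_⟩
      rw [map_mul, map_mul, Derivation.leibniz, pderiv_X_self, aeval_X, aeval_X, hr, map_add]
      simp only [smul_eq_mul, mul_one, map_mul, aeval_X]
      show _ * (c + U) = _ * c + U * (_ + c * _) + _
      ring
    | some k =>
      refine ⟨r * S k, ?_⟩
      rw [map_mul, map_mul, Derivation.leibniz, pderiv_X_of_ne (by simp), aeval_X, aeval_X, hr,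
        map_add]
      simp only [smul_eq_mul, mul_zero, map_zero, map_mul, aeval_X, zero_add]
      show _ * S k = _ * S k + U * (S k * _) + _
      ring

/-- The power series with constant coefficients. -/
noncomputable def IPc (K L : Type*) [Field K] [Field L] [Algebra K L] : L →ₐ[K] PowerSeries L :=
  IsScalarTower.toAlgHom K L (PowerSeries L)

theorem IPc_apply {K L : Type*} [Field K] [Field L] [Algebra K L] (r : L) :
    IPc K L r = PowerSeries.C r := rfl

/-- The constant coefficient. -/
noncomputable def IPk (K L : Type*) [Field K] [Field L] [Algebra K L] : PowerSeries L →ₐ[K] L :=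
  { PowerSeries.constantCoeff (R := L) with
    commutes' := fun r => by
      show PowerSeries.constantCoeff (algebraMap K (PowerSeries L) r) = _
      rw [PowerSeries.algebraMap_apply, PowerSeries.constantCoeff_C] }

theorem IPk_apply {K L : Type*} [Field K] [Field L] [Algebra K L] (f : PowerSeries L) :
    IPk K L f = PowerSeries.constantCoeff f := rfl

/-- The point of the cover over the path. -/
theorem IP_root {K L : Type*} [Field K] [Field L] [Algebra K L] {n : ℕ}
    (Ψ : MvPolynomial (Option (Fin n)) K) (s : Fin n → K) (t : K) (h0 : aeval (ot t s) Ψ = 0)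
    (h1 : aeval (ot t s) (pderiv none Ψ) ≠ 0) (w : ℕ) (hw : 0 < w) (S : Fin n → PowerSeries L)
    (hS : ∀ k, (PowerSeries.X : PowerSeries L) ^ w ∣
      S k - PowerSeries.C (algebraMap K L (s k))) :
    ∃ T : PowerSeries L, aeval (ot T S) Ψ = 0 ∧
      (PowerSeries.X : PowerSeries L) ^ w ∣ T - PowerSeries.C (algebraMap K L t) := by
  obtain ⟨c, hc⟩ : ∃ c : PowerSeries L, c = PowerSeries.C (algebraMap K L t) := ⟨_, rfl⟩
  -- values at the constant point
  have hval : ∀ G : MvPolynomial (Option (Fin n)) K,
      aeval (ot c fun k => PowerSeries.C (algebraMap K L (s k))) G =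
        PowerSeries.C (algebraMap K L (aeval (ot t s) G)) := by
    intro G
    have e := IP_map ((IPc K L).comp (Algebra.ofId K L)) (ot t s) G
    have e2 : (fun o => ((IPc K L).comp (Algebra.ofId K L)) (ot t s o)) =
        ot c fun k => PowerSeries.C (algebraMap K L (s k)) := by
      funext o
      cases o with
      | none => rw [hc]; rfl
      | some k => rfl
    rw [e2] at e
    exact e.symm
  have hval' : ∀ G : MvPolynomial (Option (Fin n)) K, (PowerSeries.X : PowerSeries L) ^ w ∣
      aeval (ot c S) G - PowerSeries.C (algebraMap K L (aeval (ot t s) G)) := by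
    intro G
    rw [← hval]
    refine IP_congr _ _ _ (fun o => ?_) G
    cases o with
    | none =>
      show _ ∣ c - c
      rw [sub_self]
      exact dvd_zero _
    | some k => exact hS k
  have hcc : ∀ G : MvPolynomial (Option (Fin n)) K,
      PowerSeries.constantCoeff (aeval (ot c S) G) = algebraMap K L (aeval (ot t s) G) := by
    intro G
    have h2 := PowerSeries.X_pow_dvd_iff.1 (hval' G) 0 hw
    rw [map_sub, sub_eq_zero, PowerSeries.coeff_zero_eq_constantCoeff_apply,
      PowerSeries.coeff_zero_eq_constantCoeff_apply, PowerSeries.constantCoeff_C] at h2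
    exact h2
  -- the polynomial
  obtain ⟨r, hr⟩ := IP_taylor (K := K) (Polynomial.C c) (Polynomial.X : Polynomial (PowerSeries L))
    (fun k => Polynomial.C (S k)) Ψ
  have hC : ∀ G : MvPolynomial (Option (Fin n)) K,
      aeval (ot (Polynomial.C c) fun k => Polynomial.C (S k)) G =
        (Polynomial.C (aeval (ot c S) G) : Polynomial (PowerSeries L)) := by
    intro G
    have e := IP_map (IsScalarTower.toAlgHom K (PowerSeries L) (Polynomial (PowerSeries L)))
      (ot c S) G
    have e2 : (fun o => (IsScalarTower.toAlgHom K (PowerSeries L) (Polynomial (PowerSeries L)))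
        (ot c S o)) = ot (Polynomial.C c) fun k => Polynomial.C (S k) := by
      funext o
      cases o with
      | none => rfl
      | some k => rfl
    rw [e2] at e
    exact e.symm
  rw [hC, hC] at hr
  obtain ⟨f, hf⟩ : ∃ f : Polynomial (PowerSeries L), f =
    aeval (ot (Polynomial.C c + Polynomial.X) fun k => Polynomial.C (S k)) Ψ := ⟨_, rfl⟩
  rw [← hf] at hr
  have hf0 : f.coeff 0 = aeval (ot c S) Ψ := by
    rw [hr, pow_two, mul_assoc, Polynomial.coeff_add, Polynomial.coeff_add,
      Polynomial.coeff_C_zero, Polynomial.mul_coeff_zero, Polynomial.mul_coeff_zero,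
      Polynomial.coeff_X_zero, zero_mul, zero_mul, add_zero, add_zero]
  have hf1 : f.coeff 1 = aeval (ot c S) (pderiv none Ψ) := by
    rw [hr, pow_two, mul_assoc, Polynomial.coeff_add, Polynomial.coeff_add, Polynomial.coeff_C,
      if_neg one_ne_zero, Polynomial.coeff_X_mul, Polynomial.coeff_X_mul, Polynomial.coeff_C_zero,
      Polynomial.mul_coeff_zero, Polynomial.coeff_X_zero]
    ring
  have hfe : ∀ U, f.eval U = aeval (ot (c + U) S) Ψ := by
    intro U
    have e := IP_map ((Polynomial.aeval U :
      Polynomial (PowerSeries L) →ₐ[PowerSeries L] PowerSeries L).restrictScalars K)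
      (ot (Polynomial.C c + Polynomial.X) fun k => Polynomial.C (S k)) Ψ
    have e2 : (fun o => ((Polynomial.aeval U :
      Polynomial (PowerSeries L) →ₐ[PowerSeries L] PowerSeries L).restrictScalars K)
        (ot (Polynomial.C c + Polynomial.X) (fun k => Polynomial.C (S k)) o)) =
        ot (c + U) S := by
      funext o
      cases o with
      | none =>
        show Polynomial.aeval U (Polynomial.C c + Polynomial.X) = c + U
        rw [Polynomial.coe_aeval_eq_eval, Polynomial.eval_add, Polynomial.eval_C,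
          Polynomial.eval_X]
      | some k =>
        show Polynomial.aeval U (Polynomial.C (S k)) = S k
        rw [Polynomial.coe_aeval_eq_eval, Polynomial.eval_C]
    rw [e2, ← hf] at e
    rw [← e, AlgHom.restrictScalars_apply, Polynomial.coe_aeval_eq_eval]
  obtain ⟨U, hU0, hU⟩ := hensel_unit f (by rw [hf0, hcc, h0, map_zero]) (by
    rw [hf1, hcc]
    exact isUnit_iff_ne_zero.2 ((map_ne_zero _).2 h1))
  rw [hfe] at hU
  refine ⟨c + U, hU, ?_⟩
  rw [← hc]
  have e : c + U - c = U := by ring
  rw [e]
  obtain ⟨r', hr'⟩ := IP_taylor (K := K) c U S Ψ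
  rw [hU] at hr'
  have h2 : (PowerSeries.X : PowerSeries L) ^ w ∣ aeval (ot c S) Ψ := by
    have h3 := hval' Ψ
    rw [h0, map_zero, map_zero, sub_zero] at h3
    exact h3
  have h3 : IsUnit (aeval (ot c S) (pderiv none Ψ) + U * r') := by
    rw [PowerSeries.isUnit_iff_constantCoeff, map_add, map_mul, hU0, zero_mul, add_zero, hcc]
    exact isUnit_iff_ne_zero.2 ((map_ne_zero _).2 h1)
  have h4 : (PowerSeries.X : PowerSeries L) ^ w ∣
      U * (aeval (ot c S) (pderiv none Ψ) + U * r') := by
    have h5 : U * (aeval (ot c S) (pderiv none Ψ) + U * r') = - aeval (ot c S) Ψ := by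
      linear_combination -hr'
    rw [h5]
    exact (dvd_neg).2 h2
  exact (IsUnit.dvd_mul_right h3).1 h4

/-- The values at a homomorphism. -/
theorem IP_hom {K : Type*} [Field K] {n : ℕ} {R R' : Type*} [CommRing R] [Algebra K R]
    [CommRing R'] [Algebra K R'] (φ : R →ₐ[K] R') (S : Fin n → R)
    (Φ : Polynomial (MvPolynomial (Fin n) K)) (x : R) :
    φ (Φ.eval₂ (aeval (R := K) S).toRingHom x) =
      Φ.eval₂ (aeval (R := K) fun k => φ (S k)).toRingHom (φ x) := by
  have h2 := Polynomial.hom_eval₂ Φ (aeval (R := K) S).toRingHom φ.toRingHom x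
  have h3 : φ.toRingHom.comp (aeval (R := K) S).toRingHom =
      (aeval (R := K) fun k => φ (S k)).toRingHom := by
    have h4 : φ.comp (aeval S : MvPolynomial (Fin n) K →ₐ[K] _) =
        aeval (R := K) fun k => φ (S k) := by
      apply MvPolynomial.algHom_ext
      intro i
      rw [AlgHom.comp_apply, aeval_X, aeval_X]
    exact congrArg AlgHom.toRingHom h4
  rw [h3] at h2
  exact h2

/-- Two roots with the same constant coefficient. -/
theorem IP_uniq {L : Type*} [Field L] (f : Polynomial (PowerSeries L)) (a b : PowerSeries L)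
    (ha : f.eval a = 0) (hb : f.eval b = 0)
    (hab : PowerSeries.constantCoeff a = PowerSeries.constantCoeff b)
    (hd : PowerSeries.constantCoeff (f.derivative.eval b) ≠ 0) : a = b := by
  obtain ⟨k, hk⟩ := Polynomial.binomExpansion f b (a - b)
  rw [add_sub_cancel, ha, hb] at hk
  have h2 : (a - b) * (f.derivative.eval b + k * (a - b)) = 0 := by
    linear_combination -hk
  rcases mul_eq_zero.1 h2 with h3 | h3
  · exact sub_eq_zero.1 h3
  · exfalso
    apply hd
    have h4 := congrArg PowerSeries.constantCoeff h3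
    rw [map_add, map_mul, map_sub, hab, sub_self, mul_zero, add_zero, map_zero] at h4
    exact h4

/-- The equation for the quotient. -/
theorem IP_quot {K : Type*} [Field K] {n : ℕ} {R : Type*} [CommRing R] [Algebra K R]
    (S : Fin n → R) (Φ : Polynomial (MvPolynomial (Fin n) K)) (x d e : R) (hde : d * e = 1)
    (h : ∑ k ∈ Finset.range (Φ.natDegree + 1),
      aeval S (Φ.coeff k) * x ^ k * d ^ (Φ.natDegree - k) = 0) :
    Φ.eval₂ (aeval (R := K) S).toRingHom (x * e) = 0 := by
  rw [Polynomial.eval₂_eq_sum_range]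
  have h2 : ∑ k ∈ Finset.range (Φ.natDegree + 1),
      (aeval (R := K) S).toRingHom (Φ.coeff k) * (x * e) ^ k =
      e ^ Φ.natDegree * ∑ k ∈ Finset.range (Φ.natDegree + 1),
        aeval S (Φ.coeff k) * x ^ k * d ^ (Φ.natDegree - k) := by
    rw [Finset.mul_sum]
    refine Finset.sum_congr rfl fun k hk => ?_
    have hk' : k ≤ Φ.natDegree := Nat.lt_succ_iff.1 (Finset.mem_range.1 hk)
    have h3 : e ^ Φ.natDegree * d ^ (Φ.natDegree - k) = e ^ k := by
      have h4 : Φ.natDegree = k + (Φ.natDegree - k) := by omega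
      have h5 : e ^ Φ.natDegree = e ^ k * e ^ (Φ.natDegree - k) := by
        rw [← pow_add, ← h4]
      rw [h5, mul_assoc, ← mul_pow, mul_comm e d, hde, one_pow, mul_one]
    have h6 : (aeval (R := K) S).toRingHom (Φ.coeff k) = aeval S (Φ.coeff k) := rfl
    rw [h6, mul_pow, ← h3]
    ring
  rw [h2, h, mul_zero]

/-- IP: the lift of a path to the covers. -/
theorem path_cov' {K : Type u} [Field K] [NumberField K] {N : ℕ} {B : AV K N} {n e : ℕ}
    (nd : Noe B n e) {m q Dc : ℕ} (l₀ : Fin (q + 1)) {P : Fin m → B.Pts K} {j : Fin m → ℕ}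
    {Ψ Θ : Fin m → MvPolynomial (Option (Fin n)) K}
    {M : Fin m → Fin (q + 1) → MvPolynomial (Option (Fin n)) K} {μ : Fin m → Fin (q + 1) → K}
    {t : Fin m → K} {h : Fin m → ℝ} (hgood : ∀ i, nd.Good (P i))
    (hC : ∀ i, Cov nd l₀ Dc (Ψ i) (Θ i) (M i))
    (hA : ∀ i, CovAt nd l₀ (Ψ i) (Θ i) (M i) (P i) (μ i) (t i) (h i))
    {L : Type u} [Field L] [NumberField L] [Algebra K L] {Y : Fin (N + 1) → L}
    {ζ : Fin m × Option (Fin n) → L} {x η : Fin m → Fin (N + 1) → PowerSeries L}
    (hpath : PthM nd P j Y ζ x η) :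
    ∃ T : Fin m → PowerSeries L,
      Cfg nd l₀ Ψ Θ M j (fun a => PowerSeries.C (Y a)) x η T ∧
      ∀ i l, (PowerSeries.X : PowerSeries L) ^ 4 ^ j i ∣
        aeval (ot (T i) fun k : Fin n => lf (nd.l k.succ) (x i)) (M i l) -
          PowerSeries.C (algebraMap K L (aeval (ot (t i) (nd.s (P i))) (M i l))) := by
  have hw : ∀ i, 0 < 4 ^ j i := fun i => pow_pos (by norm_num) _
  have hS : ∀ i, ∀ k : Fin n, (PowerSeries.X : PowerSeries L) ^ 4 ^ j i ∣
      lf (nd.l k.succ) (x i) - PowerSeries.C (algebraMap K L (nd.s (P i) k)) := by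
    intro i k
    rw [(hpath.blk i).lfs k, add_sub_cancel_left]
    exact dvd_mul_left _ _
  have hT := fun i => IP_root (L := L) (Ψ i) (nd.s (P i)) (t i) (hA i).root (hA i).simple (4 ^ j i)
    (hw i) (fun k : Fin n => lf (nd.l k.succ) (x i)) (hS i)
  choose T hT0 hT1 using hT
  have hG : ∀ i, ∀ G : MvPolynomial (Option (Fin n)) K, (PowerSeries.X : PowerSeries L) ^ 4 ^ j i ∣
      aeval (ot (T i) fun k : Fin n => lf (nd.l k.succ) (x i)) G -
        PowerSeries.C (algebraMap K L (aeval (ot (t i) (nd.s (P i))) G)) := by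
    intro i G
    have e := IP_map ((IPc K L).comp (Algebra.ofId K L)) (ot (t i) (nd.s (P i))) G
    have e3 : ((IPc K L).comp (Algebra.ofId K L)) (aeval (ot (t i) (nd.s (P i))) G) =
      PowerSeries.C (algebraMap K L (aeval (ot (t i) (nd.s (P i))) G)) := rfl
    rw [← e3, e]
    refine IP_congr _ _ _ (fun o => ?_) G
    cases o with
    | none => exact hT1 i
    | some k => exact hS i k
  have hcc : ∀ i, ∀ G : MvPolynomial (Option (Fin n)) K, PowerSeries.constantCoeff
      (aeval (ot (T i) fun k : Fin n => lf (nd.l k.succ) (x i)) G) =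
        algebraMap K L (aeval (ot (t i) (nd.s (P i))) G) := by
    intro i G
    have h2 := PowerSeries.X_pow_dvd_iff.1 (hG i G) 0 (hw i)
    rw [map_sub, sub_eq_zero, PowerSeries.coeff_zero_eq_constantCoeff_apply,
      PowerSeries.coeff_zero_eq_constantCoeff_apply, PowerSeries.constantCoeff_C] at h2
    exact h2
  refine ⟨T, ?_, fun i l => hG i (M i l)⟩
  refine
    { Y_pt := hpath.isPt.map (IPc K L)
      Y_lf := ?_
      y_pt := fun i => (hpath.blk i).isPt
      y_lf := fun i => (hpath.blk i).lf0
      e_pt := fun i => (hpath.blk i).eta_isPt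
      e_lf := fun i => (hpath.blk i).eta_lf0
      col := ?_
      psi := hT0
      th := ?_ }
  · have h1 := map_lf (nd.l 0) (IPc K L) Y
    rw [hpath.lf0, map_one] at h1
    exact h1.symm
  · intro i a b
    have h1 : B.mu (j i) (fun a => (PowerSeries.C (Y a) : PowerSeries L)) =
        fun b => PowerSeries.C (B.mu (j i) Y b) := by
      funext b
      exact (B.map_mu (IPc K L) (j i) Y b).symm
    rw [h1]
    exact (hpath.blk i).col a b
  · intro i
    obtain ⟨y0, hy0⟩ : ∃ y0 : Fin (N + 1) → L, y0 = fun b => algebraMap K L (nd.y (P i) b) :=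
      ⟨_, rfl⟩
    obtain ⟨f1, f2, f3⟩ := nd.y_facts (P i) (hgood i).1 L
    rw [← hy0] at f1 f2 f3
    have hS0 : (fun k : Fin n => IPk K L (lf (nd.l k.succ) (x i))) =
        fun k : Fin n => lf (nd.l k.succ) y0 := by
      funext k
      rw [f3, IPk_apply]
      have h2 := PowerSeries.X_pow_dvd_iff.1 (hS i k) 0 (hw i)
      rw [map_sub, sub_eq_zero, PowerSeries.coeff_zero_eq_constantCoeff_apply,
        PowerSeries.coeff_zero_eq_constantCoeff_apply, PowerSeries.constantCoeff_C] at h2
      exact h2
    have hθ : IPk K L (aeval (x i) nd.θ) = aeval y0 nd.θ := by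
      rw [IP_map]
      have h2 : (fun t => IPk K L (x i t)) = y0 := by
        funext b
        rw [hy0, IPk_apply]
        exact (hpath.blk i).const b
      rw [h2]
    have hθ' : aeval y0 nd.θ = algebraMap K L (aeval (nd.y (P i)) nd.θ) := by
      rw [hy0]
      exact (IP_map (Algebra.ofId K L) (nd.y (P i)) nd.θ).symm
    obtain ⟨d, hd⟩ : ∃ d : PowerSeries L, d =
      aeval (ot (T i) fun k : Fin n => lf (nd.l k.succ) (x i)) (M i l₀) := ⟨_, rfl⟩
    obtain ⟨g, hg⟩ : ∃ g : PowerSeries L, g =
      aeval (ot (T i) fun k : Fin n => lf (nd.l k.succ) (x i)) (Θ i) := ⟨_, rfl⟩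
    have hd0 : PowerSeries.constantCoeff d =
        algebraMap K L (aeval (ot (t i) (nd.s (P i))) (M i l₀)) := by rw [hd]; exact hcc i _
    have hg0 : PowerSeries.constantCoeff g =
        algebraMap K L (aeval (ot (t i) (nd.s (P i))) (Θ i)) := by rw [hg]; exact hcc i _
    have hdu : IsUnit d := by
      rw [PowerSeries.isUnit_iff_constantCoeff, hd0]
      exact isUnit_iff_ne_zero.2 ((map_ne_zero _).2 (hA i).den)
    obtain ⟨d', hd'⟩ := hdu.exists_right_inv
    have hrel := (hC i).rel (PowerSeries L) (fun k : Fin n => lf (nd.l k.succ) (x i)) (T i) (hT0 i)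
    rw [← hd, ← hg] at hrel
    have h1 := IP_quot _ nd.Φ g d d' hd' hrel
    have h2 := nd.Φ_zero (PowerSeries L) (x i) (hpath.blk i).isPt (hpath.blk i).lf0
    have h3 : g * d' = aeval (x i) nd.θ := by
      refine IP_uniq (nd.Φ.map (aeval (R := K) fun k : Fin n => lf (nd.l k.succ) (x i)).toRingHom)
        _ _ ?_ ?_ ?_ ?_
      · rw [Polynomial.eval_map]
        exact h1
      · rw [Polynomial.eval_map]
        exact h2
      · have h4 : PowerSeries.constantCoeff (aeval (x i) nd.θ) =
            algebraMap K L (aeval (nd.y (P i)) nd.θ) := by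
          rw [← hθ', ← hθ, IPk_apply]
        rw [map_mul, h4, hg0, (hA i).th, map_mul]
        have h5 := congrArg PowerSeries.constantCoeff hd'
        rw [map_mul, hd0, map_one] at h5
        linear_combination (algebraMap K L (aeval (nd.y (P i)) nd.θ)) * h5
      · rw [Polynomial.derivative_map, Polynomial.eval_map, ← IPk_apply (K := K), IP_hom, hS0, hθ]
        refine nd.deriv_ne f1 f2 ?_
        have h6 : (fun k : Fin n => lf (nd.l k.succ) y0) =
            fun k => algebraMap K L (nd.s (P i) k) := funext f3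
        rw [h6]
        have h7 := IP_map (Algebra.ofId K L) (nd.s (P i)) nd.δ
        have h8 : (fun t => (Algebra.ofId K L) (nd.s (P i) t)) =
          fun k => algebraMap K L (nd.s (P i) k) := rfl
        rw [h8] at h7
        rw [← h7]
        exact (map_ne_zero (algebraMap K L)).2 (hgood i).2
    rw [← hg, ← hd, ← h3]
    linear_combination (-g) * hd'

end Pool.Agent.Lib.MP_17a322_nt.SL
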