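import Pool.Agent.Lib.MP_17a322_nt.SL.IW2

/-!
The forbidden monomials: `exists_forb`.
-/

universe u

namespace Pool.Agent.Lib.MP_17a322_nt.SL

open MvPolynomial
open Pool.Agent.Lib.MP_17a322_nt.VN hiding lf

/-- The number of the monomials with large minima. -/
theorem IW_count (q : ℕ) (δ : ℝ) (hδ : 0 < δ) :
    ∃ m₀ : ℕ, ∀ m : ℕ, m₀ ≤ m → 0 < m → ∀ (J : ℕ) (j : Fin m → ℕ), (∀ i, j i ≤ J) →
      ∀ (l₀ : Fin (q + 1)) (l₁ : Fin m → Fin (q + 1)), (∀ i, l₁ i ≠ l₀) →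
      ∀ τ : ℝ, (1 / (2 * (q + 1)) + δ) * m * 4 ^ J ≤ τ →
      2 * ((mons (q := q) fun i => 4 ^ (J - j i)).filter fun e =>
        τ ≤ ∑ i, (4 : ℝ) ^ j i * (min (e i l₀) (e i (l₁ i)) : ℝ)).card ≤
      (mons (q := q) fun i => 4 ^ (J - j i)).card := by
  classical
  obtain ⟨m₀, hm₀⟩ := exists_nat_ge (8 / δ ^ 2)
  refine ⟨m₀, fun m hm hm1 J j hj l₀ l₁ hl τ hτ => ?_⟩
  obtain ⟨T, hT⟩ : ∃ T : Fin m → Finset (Fin (q + 1) → ℕ),
      ∀ i, T i = Finset.piAntidiag Finset.univ (4 ^ (J - j i)) := ⟨_, fun _ => rfl⟩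
  have hT' : T = fun i => Finset.piAntidiag Finset.univ (4 ^ (J - j i)) := funext hT
  have hTne : ∀ i, (T i).Nonempty := by
    intro i
    refine ⟨Pi.single 0 (4 ^ (J - j i)), ?_⟩
    rw [hT, Finset.mem_piAntidiag]
    refine ⟨?_, fun _ _ => Finset.mem_univ _⟩
    exact Finset.sum_pi_single' 0 _ _ |>.trans (if_pos (Finset.mem_univ _))
  have hTc : ∀ i, (0 : ℝ) < (T i).card := fun i => Nat.cast_pos.2 (Finset.card_pos.2 (hTne i))
  obtain ⟨a, ha⟩ : ∃ a : Fin m → (Fin (q + 1) → ℕ) → ℝ, ∀ i u, a i u =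
      (min (u l₀) (u (l₁ i)) : ℝ) / 4 ^ (J - j i) := ⟨_, fun _ _ => rfl⟩
  obtain ⟨μ, hμ⟩ : ∃ μ : Fin m → ℝ, ∀ i, μ i = (∑ u ∈ T i, a i u) / (T i).card :=
    ⟨_, fun _ => rfl⟩
  have ha0 : ∀ i u, 0 ≤ a i u := by
    intro i u
    rw [ha]
    positivity
  have ha1 : ∀ i, ∀ u ∈ T i, a i u ≤ 1 := by
    intro i u hu
    rw [ha, div_le_one (by positivity)]
    rw [hT, Finset.mem_piAntidiag] at hu
    have h1 : u l₀ ≤ 4 ^ (J - j i) := by
      rw [← hu.1]
      exact Finset.single_le_sum (f := u) (fun _ _ => Nat.zero_le _) (Finset.mem_univ l₀)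
    refine (min_le_left _ _).trans ?_
    exact_mod_cast h1
  have hμ0 : ∀ i, 0 ≤ μ i := by
    intro i
    rw [hμ]
    exact div_nonneg (Finset.sum_nonneg fun u _ => ha0 i u) (hTc i).le
  have hμ1 : ∀ i, μ i ≤ 1 / (2 * (q + 1)) := by
    intro i
    have h1 := IW_mean (4 ^ (J - j i)) (hl i).symm
    rw [← hT, Fintype.card_fin] at h1
    have h2 : ∑ u ∈ T i, a i u =
        (∑ u ∈ T i, (min (u l₀) (u (l₁ i)) : ℝ)) / 4 ^ (J - j i) := by
      rw [Finset.sum_div]
      exact Finset.sum_congr rfl fun u _ => ha i u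
    have h3 : (0 : ℝ) < 4 ^ (J - j i) := by positivity
    rw [hμ, h2, div_div, div_le_div_iff₀ (mul_pos h3 (hTc i)) (by positivity)]
    push_cast at h1
    linarith
  have hμ2 : ∀ i, μ i ≤ 1 := by
    intro i
    refine (hμ1 i).trans ?_
    rw [div_le_one (by positivity)]
    have : (0 : ℝ) ≤ q := Nat.cast_nonneg q
    linarith
  have hg0 : ∀ i, ∑ u ∈ T i, (a i u - μ i) = 0 := by
    intro i
    rw [Finset.sum_sub_distrib, Finset.sum_const, nsmul_eq_mul, hμ, mul_div_cancel₀ _ (hTc i).ne',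
      sub_self]
  have hg1 : ∀ i, ∀ u ∈ T i, |a i u - μ i| ≤ 1 := by
    intro i u hu
    rw [abs_le]
    have h1 := ha0 i u
    have h2 := ha1 i u hu
    have h3 := hμ0 i
    have h4 := hμ2 i
    constructor <;> linarith
  have h1 := M_cheb T (fun i u => a i u - μ i) hg0 hg1 (δ / 2) (by positivity)
  rw [Fintype.card_fin] at h1
  have hmons : (mons (q := q) fun i => 4 ^ (J - j i)) = Fintype.piFinset T := by
    rw [hT']
    rfl
  have hcard : ((mons (q := q) fun i => 4 ^ (J - j i)).card : ℝ) = ∏ i, ((T i).card : ℝ) := by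
    rw [hmons, Fintype.card_piFinset]
    push_cast
    rfl
  have hsub : (mons (q := q) fun i => 4 ^ (J - j i)).filter (fun e =>
        τ ≤ ∑ i, (4 : ℝ) ^ j i * (min (e i l₀) (e i (l₁ i)) : ℝ)) ⊆
      (Fintype.piFinset T).filter fun w => (m : ℝ) * (δ / 2) < ∑ i, (a i (w i) - μ i) := by
    rw [hmons]
    intro e he
    rw [Finset.mem_filter] at he ⊢
    refine ⟨he.1, ?_⟩
    have h4 : (0 : ℝ) < 4 ^ J := by positivity
    have h5 : ∀ i, a i (e i) * 4 ^ J = (4 : ℝ) ^ j i * (min (e i l₀) (e i (l₁ i)) : ℝ) := by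
      intro i
      have h6 : (4 : ℝ) ^ J = 4 ^ j i * 4 ^ (J - j i) := by
        rw [← pow_add, Nat.add_sub_cancel' (hj i)]
      have h7 : (0 : ℝ) < 4 ^ (J - j i) := by positivity
      rw [ha, h6]
      field_simp
    have h6 : (∑ i, a i (e i)) * 4 ^ J = ∑ i, (4 : ℝ) ^ j i * (min (e i l₀) (e i (l₁ i)) : ℝ) := by
      rw [Finset.sum_mul]
      exact Finset.sum_congr rfl fun i _ => h5 i
    have h7 : (1 / (2 * (q + 1)) + δ) * m ≤ ∑ i, a i (e i) := by
      refine le_of_mul_le_mul_right ?_ h4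
      rw [h6]
      exact hτ.trans he.2
    have h8 : ∑ i, μ i ≤ m * (1 / (2 * (q + 1))) := by
      refine (Finset.sum_le_sum fun i _ => hμ1 i).trans (le_of_eq ?_)
      rw [Finset.sum_const, Finset.card_univ, Fintype.card_fin, nsmul_eq_mul]
    rw [Finset.sum_sub_distrib]
    have h9 : (0 : ℝ) < m := Nat.cast_pos.2 hm1
    have h10 : (0 : ℝ) < m * (δ / 2) := by positivity
    linarith
  have h2 : (m : ℝ) * (δ / 2) ^ 2 * ((mons (q := q) fun i => 4 ^ (J - j i)).filter fun e =>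
        τ ≤ ∑ i, (4 : ℝ) ^ j i * (min (e i l₀) (e i (l₁ i)) : ℝ)).card ≤
      (mons (q := q) fun i => 4 ^ (J - j i)).card := by
    rw [hcard]
    refine le_trans ?_ h1
    refine mul_le_mul_of_nonneg_left ?_ (by positivity)
    exact_mod_cast Finset.card_le_card hsub
  have h3 : (2 : ℝ) ≤ m * (δ / 2) ^ 2 := by
    have h4 : (8 : ℝ) / δ ^ 2 ≤ m := hm₀.trans (by exact_mod_cast hm)
    rw [div_le_iff₀ (by positivity)] at h4
    linarith
  generalize ((mons (q := q) fun i => 4 ^ (J - j i)).filter fun e =>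
        τ ≤ ∑ i, (4 : ℝ) ^ j i * (min (e i l₀) (e i (l₁ i)) : ℝ)).card = a' at h2 ⊢
  generalize (mons (q := q) fun i => 4 ^ (J - j i)).card = b' at h2 ⊢
  have h4 := mul_le_mul_of_nonneg_right h3 (Nat.cast_nonneg a' : (0 : ℝ) ≤ a')
  exact_mod_cast h4.trans h2

/-- The exponent attached to a family of multi-indices. -/
noncomputable def IW_ex {m q : ℕ} (u : Fin m → Fin (q + 1) → ℕ) : Fin m × Fin (q + 1) →₀ ℕ :=
  Finsupp.equivFunOnFinite.symm fun p => u p.1 p.2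

theorem IW_ex_apply {m q : ℕ} (u : Fin m → Fin (q + 1) → ℕ) (i : Fin m) (l : Fin (q + 1)) :
    IW_ex u (i, l) = u i l := rfl

theorem IW_ex_self {m q : ℕ} (w : Fin m × Fin (q + 1) →₀ ℕ) : IW_ex (fun i l => w (i, l)) = w :=
  Finsupp.ext fun _ => rfl

/-- IW: the set of the forbidden monomials. -/
theorem exists_forb (q : ℕ) (hq : 0 < q) (δ : ℝ) (hδ : 0 < δ) :
    ∃ m₀ : ℕ, ∀ m : ℕ, m₀ ≤ m → 0 < m → ∀ (J : ℕ) (j : Fin m → ℕ), (∀ i, j i ≤ J) →
      ∀ (Ω : Type u) [Field Ω] (l₀ : Fin (q + 1)) (d : Fin m → Ω)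
        (ν : Fin 2 → Fin m → Fin (q + 1) → Ω), (∀ i, d i ≠ 0) → (∀ c i, ν c i l₀ = d i) →
      (∀ i, ∃ l, ν 0 i l ≠ ν 1 i l) → ∀ τ : ℝ, (1 / (2 * (q + 1)) + δ) * m * 4 ^ J ≤ τ →
      ∃ I : Finset (Fin m → Fin (q + 1) → ℕ),
        2 * I.card ≤ (mons (q := q) fun i => 4 ^ (J - j i)).card ∧
        ∀ F : MvPolynomial (Fin m × Fin (q + 1)) Ω,
          (∀ w ∈ F.support, ∀ i, ∑ l, w (i, l) = 4 ^ (J - j i)) →
          (∀ w ∈ F.support, (fun i l => w (i, l)) ∉ I) →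
          (∀ (σ : Fin m → Fin 2) (w : Fin m × Fin (q + 1) →₀ ℕ),
            ∑ i, (4 : ℝ) ^ j i * w (i, l₀) < τ →
            coeff w (aeval (hsb l₀ d fun i => ν (σ i) i) F) = 0) → F = 0 := by
  classical
  have _ := hq
  obtain ⟨m₀, hm₀⟩ := IW_count q δ hδ
  refine ⟨m₀, fun m hm hm1 J j hj Ω _ l₀ d ν hd hν hne τ hτ => ?_⟩
  choose l₁ hl₁ using hne
  have hl : ∀ i, l₁ i ≠ l₀ := by
    intro i h
    refine hl₁ i ?_
    rw [h, hν, hν]
  obtain ⟨S, hS⟩ : ∃ S, S = (mons (q := q) fun i => 4 ^ (J - j i)).filter fun e =>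
      τ ≤ ∑ i, (4 : ℝ) ^ j i * (min (e i l₀) (e i (l₁ i)) : ℝ) := ⟨_, rfl⟩
  have hcard := hm₀ m hm hm1 J j hj l₀ l₁ hl τ hτ
  rw [← hS] at hcard
  obtain ⟨E, hE⟩ : ∃ E : Fin m → Matrix (Fin (q + 1)) (Fin (q + 1)) Ω,
      ∀ i, E i = (IW_T l₀ (l₁ i) (ν 0 i) (ν 1 i))⁻¹ := ⟨_, fun _ => rfl⟩
  have hE' : E = fun i => (IW_T l₀ (l₁ i) (ν 0 i) (ν 1 i))⁻¹ := funext hE
  -- the space of the polynomials which satisfy the conditions
  let W : Submodule Ω (MvPolynomial (Fin m × Fin (q + 1)) Ω) :=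
    { carrier := {F | (∀ w, coeff w F ≠ 0 → ∀ i, ∑ l, w (i, l) = 4 ^ (J - j i)) ∧
        ∀ (σ : Fin m → Fin 2) (w : Fin m × Fin (q + 1) →₀ ℕ),
            ∑ i, (4 : ℝ) ^ j i * w (i, l₀) < τ →
            coeff w (aeval (hsb l₀ d fun i => ν (σ i) i) F) = 0}
      add_mem' := by
        rintro F G ⟨h1, h2⟩ ⟨h3, h4⟩
        refine ⟨fun w hw i => ?_, fun σ w hw => ?_⟩
        · rw [coeff_add] at hw
          by_cases h5 : coeff w F = 0
          · rw [h5, zero_add] at hw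
            exact h3 w hw i
          · exact h1 w h5 i
        · rw [map_add, coeff_add, h2 σ w hw, h4 σ w hw, add_zero]
      zero_mem' := by
        refine ⟨fun w hw => absurd (coeff_zero w) hw, fun σ w hw => ?_⟩
        rw [map_zero, coeff_zero]
      smul_mem' := by
        rintro c F ⟨h1, h2⟩
        refine ⟨fun w hw i => ?_, fun σ w hw => ?_⟩
        · rw [coeff_smul] at hw
          exact h1 w (fun h => hw (by rw [h, smul_zero])) i
        · rw [map_smul, coeff_smul, h2 σ w hw, smul_zero] }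
  have hWmem : ∀ F, F ∈ W ↔ (∀ w, coeff w F ≠ 0 → ∀ i, ∑ l, w (i, l) = 4 ^ (J - j i)) ∧
        ∀ (σ : Fin m → Fin 2) (w : Fin m × Fin (q + 1) →₀ ℕ),
            ∑ i, (4 : ℝ) ^ j i * w (i, l₀) < τ →
            coeff w (aeval (hsb l₀ d fun i => ν (σ i) i) F) = 0 := fun F => Iff.rfl
  let Φ : W →ₗ[Ω] (S → Ω) :=
    { toFun := fun F e => coeff (IW_ex e.1) (sbm E F.1)
      map_add' := by
        intro F G
        funext e
        show coeff (IW_ex e.1) (sbm E (F.1 + G.1)) = _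
        rw [sbm_add, coeff_add]
        rfl
      map_smul' := by
        intro c F
        funext e
        show coeff (IW_ex e.1) (sbm E (c • F.1)) = c • coeff (IW_ex e.1) (sbm E F.1)
        rw [smul_eq_C_mul, sbm_C_mul, coeff_C_mul, smul_eq_mul] }
  have hinj : Function.Injective Φ := by
    rw [← LinearMap.ker_eq_bot, LinearMap.ker_eq_bot']
    rintro ⟨F, hF⟩ hΦ
    obtain ⟨h1, h2⟩ := (hWmem F).1 hF
    have h3 : sbm E F = 0 := by
      ext e
      rw [coeff_zero]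
      by_contra he
      have h4 : (fun i l => e (i, l)) ∈ S := by
        rw [hS, Finset.mem_filter]
        constructor
        · obtain ⟨w, hw, hwe⟩ := IW_deg E F e he
          unfold mons
          rw [Fintype.mem_piFinset]
          intro i
          rw [Finset.mem_piAntidiag]
          refine ⟨?_, fun _ _ => Finset.mem_univ _⟩
          exact (hwe i).symm.trans (h1 w (mem_support_iff.1 hw) i)
        · have h5 := IW_key l₀ l₁ d ν hd hν hl₁ F e (by rw [← hE']; exact he)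
            fun i => if e (i, l₀) ≤ e (i, l₁ i) then 0 else 1
          obtain ⟨w, hw, hwe⟩ := h5
          by_contra hcon
          push Not at hcon
          refine hw (h2 _ w (lt_of_le_of_lt (Finset.sum_le_sum fun i _ =>
            mul_le_mul_of_nonneg_left ?_ (by positivity)) hcon))
          have h6 := hwe i
          by_cases h7 : e (i, l₀) ≤ e (i, l₁ i)
          · simp only [if_pos h7, if_true] at h6
            have h8 : (e (i, l₀) : ℝ) ≤ e (i, l₁ i) := by exact_mod_cast h7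
            rw [min_eq_left h8]
            exact_mod_cast h6
          · simp only [if_neg h7] at h6
            rw [if_neg (by decide)] at h6
            have h8 : (e (i, l₁ i) : ℝ) ≤ e (i, l₀) := by exact_mod_cast (not_le.1 h7).le
            rw [min_eq_right h8]
            exact_mod_cast h6
      have h5 := congrFun hΦ ⟨_, h4⟩
      apply he
      have h6 : coeff (IW_ex fun i l => e (i, l)) (sbm E F) = 0 := h5
      rwa [IW_ex_self] at h6
    have h4 : sbm (fun i => IW_T l₀ (l₁ i) (ν 0 i) (ν 1 i)) (sbm E F) = F := by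
      rw [sbm_sbm]
      have h5 : (fun i => E i * IW_T l₀ (l₁ i) (ν 0 i) (ν 1 i)) =
          fun _ => (1 : Matrix (Fin (q + 1)) (Fin (q + 1)) Ω) := by
        funext i
        rw [hE]
        exact Matrix.nonsing_inv_mul _ (isUnit_iff_ne_zero.2
          (IW_T_det (hd i) (hν 0 i) (hν 1 i) (hl₁ i)))
      rw [h5, sbm_one]
    refine Subtype.ext ?_
    show F = 0
    rw [← h4, h3]
    exact map_zero _
  have hfd : FiniteDimensional Ω W := FiniteDimensional.of_injective Φ hinj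
  have hrank : Module.finrank Ω W ≤ S.card := by
    have h1 := LinearMap.finrank_le_finrank_of_injective hinj
    rw [Module.finrank_fintype_fun_eq_card, Fintype.card_coe] at h1
    exact h1
  obtain ⟨I, hI, hI'⟩ := IW_points (Ω := Ω) (V := W)
    fun b : Fin m → Fin (q + 1) → ℕ => (lcoeff Ω (IW_ex b)).comp W.subtype
  refine ⟨I, by omega, fun F h1 h2 h3 => ?_⟩
  have hFW : F ∈ W := (hWmem F).2 ⟨fun w hw => h1 w (mem_support_iff.2 hw), h3⟩
  have h4 := hI' ⟨F, hFW⟩ fun b hb => by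
    show coeff (IW_ex b) F = 0
    by_contra h5
    exact h2 (IW_ex b) (mem_support_iff.2 h5) hb
  ext w
  rw [coeff_zero]
  have h5 := h4 fun i l => w (i, l)
  have h6 : coeff (IW_ex fun i l => w (i, l)) F = 0 := h5
  rwa [IW_ex_self] at h6

end Pool.Agent.Lib.MP_17a322_nt.SL
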