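import Pool.Agent.Lib.MP_17a322_nt.VP.R1
import Pool.Agent.Lib.MP_17a322_nt.VN.C06

/-!
Linear substitutions in blocks of variables.
-/

universe u

namespace Pool.Agent.Lib.MP_17a322_nt.SL

open MvPolynomial Height
open Pool.Agent.Lib.MP_17a322_nt.RO
open Pool.Agent.Lib.MP_17a322_nt.VJ
open Pool.Agent.Lib.MP_17a322_nt.VN
open Pool.Agent.Lib.MP_17a322_nt.VP

section

variable {R : Type*} [CommRing R] {ι κ : Type*} [Fintype κ]

/-- The linear form with the coefficients `a` in the block `i`. -/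
noncomputable def lfb (i : ι) (a : κ → R) : MvPolynomial (ι × κ) R :=
  ∑ k, C (a k) * X (i, k)

/-- The linear substitution `u (i, l) = ∑ k, A i l k X (i, k)`. -/
noncomputable def sbm (A : ι → Matrix κ κ R) (F : MvPolynomial (ι × κ) R) :
    MvPolynomial (ι × κ) R :=
  aeval (fun p => lfb p.1 (A p.1 p.2)) F

theorem sbm_add (A : ι → Matrix κ κ R) (F G : MvPolynomial (ι × κ) R) :
    sbm A (F + G) = sbm A F + sbm A G := map_add _ _ _

theorem sbm_C (A : ι → Matrix κ κ R) (c : R) : sbm A (C c : MvPolynomial (ι × κ) R) = C c := by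
  unfold sbm
  rw [← algebraMap_eq, AlgHom.commutes]

theorem sbm_C_mul (A : ι → Matrix κ κ R) (c : R) (F : MvPolynomial (ι × κ) R) :
    sbm A (C c * F) = C c * sbm A F := by
  unfold sbm
  rw [map_mul, ← algebraMap_eq, AlgHom.commutes]

theorem sbm_lfb (A : ι → Matrix κ κ R) (i : ι) (a : κ → R) :
    sbm A (lfb i a) = lfb i fun k => ∑ l, a l * A i l k := by
  unfold sbm
  rw [lfb, map_sum]
  have h1 : ∀ l, aeval (fun p : ι × κ => lfb p.1 (A p.1 p.2)) (C (a l) * X (i, l) :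
      MvPolynomial (ι × κ) R) = ∑ k, C (a l * A i l k) * X (i, k) := by
    intro l
    rw [map_mul, aeval_X, ← algebraMap_eq, AlgHom.commutes, algebraMap_eq, lfb, Finset.mul_sum]
    refine Finset.sum_congr rfl fun k _ => ?_
    rw [C_mul, mul_assoc]
  rw [Finset.sum_congr rfl fun l _ => h1 l, Finset.sum_comm, lfb]
  refine Finset.sum_congr rfl fun k _ => ?_
  rw [map_sum, Finset.sum_mul]

theorem sbm_sbm (A B : ι → Matrix κ κ R) (F : MvPolynomial (ι × κ) R) :
    sbm B (sbm A F) = sbm (fun i => A i * B i) F := by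
  have h1 : (aeval (fun p : ι × κ => lfb p.1 (B p.1 p.2)) :
      MvPolynomial (ι × κ) R →ₐ[R] MvPolynomial (ι × κ) R).comp
      (aeval fun p : ι × κ => lfb p.1 (A p.1 p.2)) =
      aeval fun p : ι × κ => lfb p.1 ((A p.1 * B p.1) p.2) := by
    refine algHom_ext fun p => ?_
    rw [AlgHom.comp_apply, aeval_X, aeval_X]
    exact (sbm_lfb B p.1 (A p.1 p.2)).trans rfl
  exact congrArg (fun f => f F) h1

theorem sbm_one [DecidableEq κ] (F : MvPolynomial (ι × κ) R) :
    sbm (fun _ => (1 : Matrix κ κ R)) F = F := by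
  have h1 : (aeval (fun p : ι × κ => lfb p.1 ((1 : Matrix κ κ R) p.2)) :
      MvPolynomial (ι × κ) R →ₐ[R] MvPolynomial (ι × κ) R) = AlgHom.id R _ := by
    refine algHom_ext fun p => ?_
    rw [aeval_X, AlgHom.id_apply, lfb, Finset.sum_eq_single p.2]
    · rw [Matrix.one_apply_eq, C_1, one_mul]
    · intro k _ hk
      rw [Matrix.one_apply_ne hk.symm, C_0, zero_mul]
    · intro h
      exact absurd (Finset.mem_univ _) h
  exact congrArg (fun f => f F) h1

/-- A linear substitution preserving a weight. -/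
theorem sbm_weight {M : Type*} [AddCommMonoid M] (wt : ι × κ → M) (B : ι → Matrix κ κ R)
    (hB : ∀ i l k, B i l k ≠ 0 → wt (i, k) = wt (i, l)) (G : MvPolynomial (ι × κ) R)
    (e : ι × κ →₀ ℕ) (he : coeff e (sbm B G) ≠ 0) :
    ∃ w ∈ G.support, Finsupp.weight wt w = Finsupp.weight wt e := by
  classical
  have h1 : sbm B G = ∑ w ∈ G.support, C (coeff w G) * w.prod fun p n =>
      (lfb p.1 (B p.1 p.2)) ^ n := by
    unfold sbm
    rw [aeval_def, eval₂_eq]
    rfl
  rw [h1, coeff_sum] at he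
  obtain ⟨w, hw, hne⟩ := Finset.exists_ne_zero_of_sum_ne_zero he
  refine ⟨w, hw, ?_⟩
  have h2 : ∀ p : ι × κ, IsWeightedHomogeneous wt (lfb p.1 (B p.1 p.2)) (wt p) := by
    intro p
    unfold lfb
    refine IsWeightedHomogeneous.sum _ _ _ fun k _ => ?_
    by_cases h0 : B p.1 p.2 k = 0
    · rw [h0, C_0, zero_mul]
      exact isWeightedHomogeneous_zero _ _ _
    · have h3 := (isWeightedHomogeneous_C wt (B p.1 p.2 k)).mul
        (isWeightedHomogeneous_X R wt (p.1, k))
      rw [zero_add, hB p.1 p.2 k h0] at h3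
      exact h3
  have h3 : IsWeightedHomogeneous wt (C (coeff w G) * w.prod fun p n =>
      (lfb p.1 (B p.1 p.2)) ^ n) (Finsupp.weight wt w) := by
    have h4 : IsWeightedHomogeneous wt (w.prod fun p n => (lfb p.1 (B p.1 p.2)) ^ n)
        (∑ p ∈ w.support, w p • wt p) := by
      rw [Finsupp.prod]
      exact IsWeightedHomogeneous.prod _ _ _ fun p _ => (h2 p).pow (w p)
    have h5 := (isWeightedHomogeneous_C wt (coeff w G)).mul h4
    rw [zero_add] at h5
    rw [Finsupp.weight_apply, Finsupp.sum]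
    exact h5
  exact (h3 hne).symm

end

section

variable {L : Type*} [Field L] (v : AbsoluteValue L ℝ) {τ : Type*} [Fintype τ]

/-- The coefficient of the monomial with exponent `e` is at most `B ∏ α t ^ e t`. -/
def Bd (α : τ → ℝ) (P : MvPolynomial τ L) (B : ℝ) : Prop :=
  ∀ e : τ →₀ ℕ, v (coeff e P) ≤ B * ∏ t, α t ^ e t

theorem Bd_one {α : τ → ℝ} (hα : ∀ t, 0 < α t) : Bd v α (1 : MvPolynomial τ L) 1 := by
  classical
  intro e
  rw [coeff_one]
  split_ifs with h
  · rw [← h, map_one]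
    simp
  · rw [map_zero]
    exact mul_nonneg zero_le_one (Finset.prod_nonneg fun t _ => pow_nonneg (hα t).le _)

theorem Bd_mul {α : τ → ℝ} (hα : ∀ t, 0 < α t) {P : MvPolynomial τ L} {B β : ℝ} (hB : 0 ≤ B)
    (hβ : 0 ≤ β) (hP : Bd v α P B) (a : τ → L) (ha : ∀ t, v (a t) ≤ α t * β) :
    Bd v α (P * ∑ t, C (a t) * X t) (cst v (Fintype.card τ) * β * B) := by
  classical
  intro e
  have h1 : coeff e (P * ∑ t, C (a t) * X t) = ∑ t, a t * coeff e (P * X t) := by
    rw [Finset.mul_sum, coeff_sum]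
    refine Finset.sum_congr rfl fun t _ => ?_
    rw [mul_left_comm, coeff_C_mul]
  have h0 : 0 ≤ ∏ t, α t ^ e t := Finset.prod_nonneg fun t _ => pow_nonneg (hα t).le _
  have h2 := (SN_self v).sum_le Finset.univ (fun t => a t * coeff e (P * X t))
    (B := β * B * ∏ t, α t ^ e t) (by positivity) fun t _ => by
      rw [map_mul, coeff_mul_X']
      split_ifs with ht
      · have h3 := hP (e - Finsupp.single t 1)
        have h4 : α t * ∏ t', α t' ^ (e - Finsupp.single t 1 : τ →₀ ℕ) t' = ∏ t', α t' ^ e t' := by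
          rw [← Finset.mul_prod_erase Finset.univ _ (Finset.mem_univ t),
            ← Finset.mul_prod_erase Finset.univ (fun t' => α t' ^ e t') (Finset.mem_univ t),
            ← mul_assoc]
          have h5 : α t * α t ^ (e - Finsupp.single t 1 : τ →₀ ℕ) t = α t ^ e t := by
            rw [Finsupp.tsub_apply, Finsupp.single_eq_same, mul_comm, ← pow_succ]
            have h6 := Finsupp.mem_support_iff.1 ht
            congr 1
            omega
          rw [h5]
          congr 1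
          refine Finset.prod_congr rfl fun t' ht' => ?_
          rw [Finsupp.tsub_apply, Finsupp.single_eq_of_ne (Finset.ne_of_mem_erase ht'),
            Nat.sub_zero]
        calc v (a t) * v (coeff (e - Finsupp.single t 1) P)
            ≤ (α t * β) * (B * ∏ t', α t' ^ (e - Finsupp.single t 1 : τ →₀ ℕ) t') :=
              mul_le_mul (ha t) h3 (v.nonneg _) (mul_nonneg (hα t).le hβ)
          _ = β * B * (α t * ∏ t', α t' ^ (e - Finsupp.single t 1 : τ →₀ ℕ) t') := by ring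
          _ = β * B * ∏ t', α t' ^ e t' := by rw [h4]
      · rw [map_zero, mul_zero]
        positivity
  rw [h1]
  refine h2.trans (le_of_eq ?_)
  rw [Finset.card_univ]
  ring

theorem Bd_mul_pow {α : τ → ℝ} (hα : ∀ t, 0 < α t) {P : MvPolynomial τ L} {B β : ℝ} (hB : 0 ≤ B)
    (hβ : 0 ≤ β) (hP : Bd v α P B) (a : τ → L) (ha : ∀ t, v (a t) ≤ α t * β) (n : ℕ) :
    Bd v α (P * (∑ t, C (a t) * X t) ^ n) ((cst v (Fintype.card τ) * β) ^ n * B) := by
  induction n with
  | zero =>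
    rw [pow_zero, mul_one, pow_zero, one_mul]
    exact hP
  | succ n ih =>
    have h1 := Bd_mul v hα (mul_nonneg (pow_nonneg (mul_nonneg (cst_nonneg v _) hβ) n) hB) hβ ih a ha
    rw [pow_succ, ← mul_assoc, pow_succ]
    intro e
    refine (h1 e).trans (le_of_eq ?_)
    ring

theorem Bd_prod {α : τ → ℝ} (hα : ∀ t, 0 < α t) {σ : Type*} (s : Finset σ) (a : σ → τ → L)
    (β : σ → ℝ) (hβ : ∀ p, 0 ≤ β p) (ha : ∀ p t, v (a p t) ≤ α t * β p) (n : σ → ℕ) :
    Bd v α (∏ p ∈ s, (∑ t, C (a p t) * X t) ^ n p)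
      (∏ p ∈ s, (cst v (Fintype.card τ) * β p) ^ n p) := by
  classical
  induction s using Finset.induction_on with
  | empty =>
    rw [Finset.prod_empty, Finset.prod_empty]
    exact Bd_one v hα
  | insert p s hp ih =>
    rw [Finset.prod_insert hp, Finset.prod_insert hp, mul_comm]
    exact Bd_mul_pow v hα (Finset.prod_nonneg fun p _ =>
      pow_nonneg (mul_nonneg (cst_nonneg v _) (hβ p)) _) (hβ p) ih (a p) (ha p) (n p)

end

section

variable {L : Type*} [Field L] (v : AbsoluteValue L ℝ) {ι κ : Type*} [Fintype ι] [Fintype κ]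

theorem lfb_eq [DecidableEq ι] (i : ι) (a : κ → L) : (lfb i a : MvPolynomial (ι × κ) L) =
    ∑ t : ι × κ, C (if t.1 = i then a t.2 else 0) * X t := by
  rw [Fintype.sum_prod_type, Finset.sum_eq_single i]
  · simp only [if_true]
    rfl
  · intro i' _ hi
    refine Finset.sum_eq_zero fun k _ => ?_
    rw [if_neg hi, C_0, zero_mul]
  · intro h
    exact absurd (Finset.mem_univ _) h

/-- The coefficients after a linear substitution. -/
theorem sbm_coeff_le (B : ι → Matrix κ κ L) (G : MvPolynomial (ι × κ) L) (α β : ι × κ → ℝ)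
    (hα : ∀ p, 0 < α p) (hβ : ∀ p, 0 ≤ β p) (hB : ∀ i l k, v (B i l k) ≤ α (i, k) * β (i, l))
    {M : ℝ} (hM : 0 ≤ M)
    (hw : ∀ w ∈ G.support, ∏ p, (cst v (Fintype.card (ι × κ)) * β p) ^ w p ≤ M)
    (e : ι × κ →₀ ℕ) : v (coeff e (sbm B G)) ≤ NV v G * (M * ∏ p, α p ^ e p) := by
  classical
  have h1 : sbm B G = ∑ w ∈ G.support, C (coeff w G) * ∏ p, lfb p.1 (B p.1 p.2) ^ w p := by
    unfold sbm
    rw [aeval_def, eval₂_eq']
    rfl
  have h0 : 0 ≤ ∏ p, α p ^ e p := Finset.prod_nonneg fun p _ => pow_nonneg (hα p).le _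
  rw [h1, coeff_sum]
  have h2 : ∀ w, coeff e (C (coeff w G) * ∏ p, lfb p.1 (B p.1 p.2) ^ w p) =
      coeff w G * coeff e (∏ p, lfb p.1 (B p.1 p.2) ^ w p) := fun w => coeff_C_mul _ _ _
  rw [Finset.sum_congr rfl fun w _ => h2 w]
  have hc : ∀ (p t : ι × κ), v (if t.1 = p.1 then B p.1 p.2 t.2 else 0) ≤ α t * β p := by
    rintro ⟨i1, l1⟩ ⟨i2, k2⟩
    by_cases ht : i2 = i1
    · subst ht
      rw [if_pos rfl]
      exact hB i2 l1 k2
    · rw [if_neg ht, map_zero]
      exact mul_nonneg (hα _).le (hβ _)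
  refine R_lin v G (fun w => coeff e (∏ p : ι × κ, lfb p.1 (B p.1 p.2) ^ w p))
    (mul_nonneg hM h0) fun w hw' => ?_
  have h3 : (∏ p : ι × κ, lfb p.1 (B p.1 p.2) ^ w p : MvPolynomial (ι × κ) L) =
      ∏ p : ι × κ, (∑ t : ι × κ, C (if t.1 = p.1 then B p.1 p.2 t.2 else 0) * X t) ^ w p :=
    Finset.prod_congr rfl fun p _ => by rw [lfb_eq]
  have h4 := Bd_prod v hα Finset.univ
    (fun p t : ι × κ => if t.1 = p.1 then B p.1 p.2 t.2 else 0) β hβ hc w e
  have h5 := hw w hw'
  show v (coeff e (∏ p : ι × κ, lfb p.1 (B p.1 p.2) ^ w p)) ≤ _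
  rw [h3]
  exact h4.trans (mul_le_mul_of_nonneg_right h5 h0)

/-- The size after a linear substitution. -/
theorem sbm_NV_le (B : ι → Matrix κ κ L) (G : MvPolynomial (ι × κ) L) (b : ι → ℝ)
    (hb : ∀ i, 0 ≤ b i) (hB : ∀ i l k, v (B i l k) ≤ b i) {M : ℝ} (hM : 0 ≤ M)
    (hw : ∀ w ∈ G.support, ∏ p : ι × κ, (cst v (Fintype.card κ) * b p.1) ^ w p ≤ M) :
    NV v (sbm B G) ≤ NV v G * M := by
  have hkey : ∀ w ∈ G.support, NV v (∏ p : ι × κ, lfb p.1 (B p.1 p.2) ^ w p) ≤ M := by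
    intro w hw'
    refine ((SN_NV v).prod_le Finset.univ fun p : ι × κ => lfb p.1 (B p.1 p.2) ^ w p).trans
      (le_trans ?_ (hw w hw'))
    refine Finset.prod_le_prod (fun p _ => A2_nonneg v _) fun p _ => ?_
    refine ((SN_NV v).pow_le (lfb p.1 (B p.1 p.2)) (w p)).trans
      (pow_le_pow_left₀ (A2_nonneg v _) ?_ _)
    unfold lfb
    refine ((SN_NV v).sum_le Finset.univ (fun k => C (B p.1 p.2 k) * X (p.1, k)) (hb p.1)
      fun k _ => ?_).trans (le_of_eq ?_)
    · show NV v (C (B p.1 p.2 k) * X (p.1, k)) ≤ b p.1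
      rw [NV_C_mul, NV_X, mul_one]
      exact hB _ _ _
    · rw [Finset.card_univ]
  exact SN_aeval_mon (SN_NV v) G (fun p : ι × κ => lfb p.1 (B p.1 p.2)) hM hkey

end

end Pool.Agent.Lib.MP_17a322_nt.SL
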