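import Pool.Agent.Lib.MP_17a322_nt.SL.IDefs
import Pool.Agent.Lib.MP_17a322_nt.SL.R2

/-!
The index with respect to the moving hyperplanes.
-/

universe u

namespace Pool.Agent.Lib.MP_17a322_nt.SL

open MvPolynomial
open Pool.Agent.Lib.MP_17a322_nt.VN hiding lf

section

variable {L : Type*} [Field L] {m q : ℕ}

/-- The valuation with `ν z = 1`, `ν (X (i, l₀)) = 4 ^ j i` of `Q` is at least `n`. -/
def IXV (j : Fin m → ℕ) (l₀ : Fin (q + 1)) (Q : MvPolynomial (Fin m × Fin (q + 1)) (PowerSeries L))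
    (n : ℕ) : Prop :=
  ∀ (a : ℕ) (w : Fin m × Fin (q + 1) →₀ ℕ), PowerSeries.coeff a (coeff w Q) ≠ 0 →
    n ≤ a + ∑ i, 4 ^ j i * w (i, l₀)

theorem IX_split {Q Q' : MvPolynomial (Fin m × Fin (q + 1)) (PowerSeries L)} {a : ℕ}
    {w : Fin m × Fin (q + 1) →₀ ℕ} (h : PowerSeries.coeff a (coeff w (Q * Q')) ≠ 0) :
    ∃ (a1 a2 : ℕ) (w1 w2 : Fin m × Fin (q + 1) →₀ ℕ), a1 + a2 = a ∧ w1 + w2 = w ∧
      PowerSeries.coeff a1 (coeff w1 Q) ≠ 0 ∧ PowerSeries.coeff a2 (coeff w2 Q') ≠ 0 := by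
  classical
  rw [coeff_mul, map_sum] at h
  obtain ⟨⟨w1, w2⟩, hw, hne⟩ := Finset.exists_ne_zero_of_sum_ne_zero h
  dsimp only at hne
  rw [PowerSeries.coeff_mul] at hne
  obtain ⟨⟨a1, a2⟩, ha, hne'⟩ := Finset.exists_ne_zero_of_sum_ne_zero hne
  exact ⟨a1, a2, w1, w2, Finset.HasAntidiagonal.mem_antidiagonal.1 ha, Finset.HasAntidiagonal.mem_antidiagonal.1 hw,
    left_ne_zero_of_mul hne', right_ne_zero_of_mul hne'⟩

theorem IXV_zero (j : Fin m → ℕ) (l₀ : Fin (q + 1))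
    (Q : MvPolynomial (Fin m × Fin (q + 1)) (PowerSeries L)) : IXV j l₀ Q 0 :=
  fun _ _ _ => Nat.zero_le _

theorem IXV_mul {j : Fin m → ℕ} {l₀ : Fin (q + 1)}
    {Q Q' : MvPolynomial (Fin m × Fin (q + 1)) (PowerSeries L)} {n n' : ℕ}
    (h : IXV j l₀ Q n) (h' : IXV j l₀ Q' n') : IXV j l₀ (Q * Q') (n + n') := by
  intro a w hne
  obtain ⟨a1, a2, w1, w2, rfl, rfl, h1, h2⟩ := IX_split hne
  have h3 := h a1 w1 h1
  have h4 := h' a2 w2 h2
  have h5 : ∑ i, 4 ^ j i * (w1 + w2) (i, l₀) =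
      ∑ i, 4 ^ j i * w1 (i, l₀) + ∑ i, 4 ^ j i * w2 (i, l₀) := by
    rw [← Finset.sum_add_distrib]
    refine Finset.sum_congr rfl fun i _ => ?_
    rw [Finsupp.add_apply, mul_add]
  rw [h5]
  omega

theorem IXV_pow {j : Fin m → ℕ} {l₀ : Fin (q + 1)}
    {Q : MvPolynomial (Fin m × Fin (q + 1)) (PowerSeries L)} {n : ℕ}
    (h : IXV j l₀ Q n) (k : ℕ) : IXV j l₀ (Q ^ k) (k * n) := by
  induction k with
  | zero =>
    rw [zero_mul]
    exact IXV_zero j l₀ _
  | succ k ih =>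
    rw [pow_succ, Nat.succ_mul]
    exact IXV_mul ih h

theorem IXV_prod {j : Fin m → ℕ} {l₀ : Fin (q + 1)} {σ : Type*} (s : Finset σ)
    (Q : σ → MvPolynomial (Fin m × Fin (q + 1)) (PowerSeries L)) (n : σ → ℕ)
    (h : ∀ p ∈ s, IXV j l₀ (Q p) (n p)) : IXV j l₀ (∏ p ∈ s, Q p) (∑ p ∈ s, n p) := by
  classical
  induction s using Finset.induction_on with
  | empty =>
    rw [Finset.sum_empty]
    exact IXV_zero j l₀ _
  | insert p s hp ih =>
    rw [Finset.prod_insert hp, Finset.sum_insert hp]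
    exact IXV_mul (h p (Finset.mem_insert_self p s))
      (ih fun p hp => h p (Finset.mem_insert_of_mem hp))

/-- The matrix of `hsb`. -/
def hsm {R : Type*} [CommRing R] (l₀ : Fin (q + 1)) (d : R) (ν : Fin (q + 1) → R) :
    Matrix (Fin (q + 1)) (Fin (q + 1)) R :=
  fun l k => if l = l₀ then (if k = l₀ then d else - ν k) else if k = l then d else 0

theorem hsb_eq {R : Type*} [CommRing R] (l₀ : Fin (q + 1)) (d : Fin m → R)
    (ν : Fin m → Fin (q + 1) → R) (F : MvPolynomial (Fin m × Fin (q + 1)) R) :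
    aeval (hsb l₀ d ν) F = sbm (fun i => hsm l₀ (d i) (ν i)) F := by
  have h : hsb l₀ d ν = fun p : Fin m × Fin (q + 1) => lfb p.1 (hsm l₀ (d p.1) (ν p.1) p.2) := by
    funext p
    obtain ⟨i, l⟩ := p
    unfold hsb lfb hsm
    dsimp only
    by_cases hl : l = l₀
    · simp only [if_pos hl]
      rw [← Finset.add_sum_erase _ _ (Finset.mem_univ l₀), if_pos rfl, hl, sub_eq_add_neg,
        ← Finset.sum_neg_distrib]
      congr 1
      refine Finset.sum_congr rfl fun k hk => ?_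
      rw [if_neg (Finset.ne_of_mem_erase hk), C_neg, neg_mul]
    · simp only [if_neg hl]
      rw [Finset.sum_eq_single l]
      · rw [if_pos rfl]
      · intro k _ hk
        rw [if_neg hk, C_0, zero_mul]
      · intro h
        exact absurd (Finset.mem_univ _) h
  rw [h]
  rfl

end

/-- IX: the index with respect to the moving hyperplanes. -/
theorem index_move' {L : Type u} [Field L] {m q : ℕ} (j : Fin m → ℕ)
    (F : MvPolynomial (Fin m × Fin (q + 1)) (PowerSeries L))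
    (y : Fin m → Fin (q + 1) → Fin (q + 1) → L) (hy : ∀ i, LinearIndependent L (y i))
    (μ : Fin m → Fin (q + 1) → L) (l₀ : Fin (q + 1)) (hμ0 : ∀ i, μ i l₀ = 1)
    (hμ : ∀ i s, s ≠ Fin.last q → ∑ l, μ i l * y i s l = 0) (d : Fin m → PowerSeries L)
    (ν : Fin m → Fin (q + 1) → PowerSeries L)
    (hν : ∀ i l, (PowerSeries.X : PowerSeries L) ^ 4 ^ j i ∣
      ν i l - d i * PowerSeries.C (μ i l)) (S T : ℝ)
    (hF : ∀ (a : ℕ) (w : Fin m × Fin (q + 1) →₀ ℕ), (a : ℝ) < S →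
      ∑ i, (4 : ℝ) ^ j i * w (i, Fin.last q) < T →
      PowerSeries.coeff a (coeff w (aeval (fun p : Fin m × Fin (q + 1) =>
        ∑ s, C (PowerSeries.C (y p.1 s p.2)) * X (p.1, s)) F)) = 0)
    (a : ℕ) (w : Fin m × Fin (q + 1) →₀ ℕ) (ha : (a : ℝ) < S)
    (hw : (a : ℝ) + ∑ i, (4 : ℝ) ^ j i * w (i, l₀) < T) :
    PowerSeries.coeff a (coeff w (aeval (hsb l₀ d ν) F)) = 0 := by
  classical
  -- the matrices over `L`
  obtain ⟨Ym, hYm⟩ : ∃ Ym : Fin m → Matrix (Fin (q + 1)) (Fin (q + 1)) L,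
    ∀ i, Ym i = (Matrix.of (y i)).transpose := ⟨_, fun _ => rfl⟩
  have hYapp : ∀ i l s, Ym i l s = y i s l := fun i l s => by
    rw [hYm]
    rfl
  have hunit : ∀ i, IsUnit (Ym i).det := by
    intro i
    rw [hYm, Matrix.det_transpose]
    have h1 : LinearIndependent L (Matrix.of (y i)).row := hy i
    rw [Matrix.linearIndependent_rows_iff_isUnit, Matrix.isUnit_iff_isUnit_det] at h1
    exact h1
  obtain ⟨Z, hZ⟩ : ∃ Z : Fin m → Matrix (Fin (q + 1)) (Fin (q + 1)) L,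
    ∀ i, Z i = (Ym i)⁻¹ := ⟨_, fun _ => rfl⟩
  have hYZ : ∀ i, Ym i * Z i = 1 := fun i => by
    rw [hZ, Matrix.mul_nonsing_inv _ (hunit i)]
  have hZY : ∀ i, Z i * Ym i = 1 := fun i => by
    rw [hZ, Matrix.nonsing_inv_mul _ (hunit i)]
  -- the last row of `Z i`
  obtain ⟨c, hc⟩ : ∃ c : Fin m → L, ∀ i, c i = ∑ l, μ i l * y i (Fin.last q) l :=
    ⟨_, fun _ => rfl⟩
  have hμY : ∀ i, Matrix.vecMul (μ i) (Ym i) = c i • Pi.single (Fin.last q) (1 : L) := by
    intro i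
    funext s
    rw [Pi.smul_apply, Pi.single_apply, smul_eq_mul]
    have h1 : Matrix.vecMul (μ i) (Ym i) s = ∑ l, μ i l * y i s l := by
      rw [Matrix.vecMul, dotProduct]
      exact Finset.sum_congr rfl fun l _ => by rw [hYapp]
    rw [h1]
    by_cases hs : s = Fin.last q
    · rw [if_pos hs, hs, hc, mul_one]
    · rw [if_neg hs, hμ i s hs, mul_zero]
  have hμZ : ∀ i l, μ i l = c i * Z i (Fin.last q) l := by
    intro i l
    have h1 : Matrix.vecMul (Matrix.vecMul (μ i) (Ym i)) (Z i) = μ i := by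
      rw [Matrix.vecMul_vecMul, hYZ, Matrix.vecMul_one]
    rw [hμY, Matrix.smul_vecMul, Matrix.single_one_vecMul] at h1
    have h2 := congrFun h1 l
    rw [Pi.smul_apply, smul_eq_mul] at h2
    exact h2.symm
  have hc0 : ∀ i, c i ≠ 0 := by
    intro i h0
    have h1 := hμZ i l₀
    rw [h0, zero_mul, hμ0] at h1
    exact one_ne_zero h1
  have hZμ : ∀ i l, Z i (Fin.last q) l = (c i)⁻¹ * μ i l := by
    intro i l
    rw [hμZ, inv_mul_cancel_left₀ (hc0 i)]
  -- the matrices over the power series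
  obtain ⟨YC, hYC⟩ : ∃ YC : Fin m → Matrix (Fin (q + 1)) (Fin (q + 1)) (PowerSeries L),
    ∀ i, YC i = (Ym i).map PowerSeries.C := ⟨_, fun _ => rfl⟩
  obtain ⟨ZC, hZC⟩ : ∃ ZC : Fin m → Matrix (Fin (q + 1)) (Fin (q + 1)) (PowerSeries L),
    ∀ i, ZC i = (Z i).map PowerSeries.C := ⟨_, fun _ => rfl⟩
  have hYZC : ∀ i, YC i * ZC i = 1 := by
    intro i
    have h1 := congrArg (fun A : Matrix (Fin (q + 1)) (Fin (q + 1)) L =>
      A.map (PowerSeries.C (R := L))) (hYZ i)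
    rw [Matrix.map_mul, Matrix.map_one _ (map_zero _) (map_one _)] at h1
    rw [hYC, hZC]
    exact h1
  obtain ⟨G, hG⟩ : ∃ G : MvPolynomial (Fin m × Fin (q + 1)) (PowerSeries L),
    G = sbm YC F := ⟨_, rfl⟩
  have hG' : aeval (fun p : Fin m × Fin (q + 1) =>
      ∑ s, C (PowerSeries.C (y p.1 s p.2)) * X (p.1, s)) F = G := by
    rw [hG]
    have h1 : (fun p : Fin m × Fin (q + 1) =>
        ∑ s, (C (PowerSeries.C (y p.1 s p.2)) : MvPolynomial (Fin m × Fin (q + 1))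
          (PowerSeries L)) * X (p.1, s)) = fun p => lfb p.1 (YC p.1 p.2) := by
      funext p
      unfold lfb
      refine Finset.sum_congr rfl fun s _ => ?_
      rw [hYC, Matrix.map_apply, hYapp]
    rw [h1]
    rfl
  rw [hG'] at hF
  obtain ⟨B, hB⟩ : ∃ B : Fin m → Matrix (Fin (q + 1)) (Fin (q + 1)) (PowerSeries L),
    ∀ i, B i = ZC i * hsm l₀ (d i) (ν i) := ⟨_, fun _ => rfl⟩
  have hmain : aeval (hsb l₀ d ν) F = sbm B G := by
    rw [hsb_eq, hG, sbm_sbm]
    have h1 : (fun i => YC i * B i) = fun i => hsm l₀ (d i) (ν i) := by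
      funext i
      rw [hB, ← Matrix.mul_assoc, hYZC, Matrix.one_mul]
    rw [h1]
  -- the last row of `B`
  have hBl : ∀ i k, k ≠ l₀ → (PowerSeries.X : PowerSeries L) ^ 4 ^ j i ∣ B i (Fin.last q) k := by
    intro i k hk
    have h1 : B i (Fin.last q) k = - (PowerSeries.C (c i)⁻¹ *
        (ν i k - d i * PowerSeries.C (μ i k))) := by
      rw [hB, Matrix.mul_apply, ← Finset.add_sum_erase _ _ (Finset.mem_univ l₀),
        Finset.sum_eq_single k]
      · unfold hsm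
        rw [if_pos rfl, if_neg hk, if_neg hk, if_pos rfl, hZC, Matrix.map_apply,
          Matrix.map_apply, hZμ, hZμ, hμ0, mul_one, map_mul]
        ring
      · intro l hl hlk
        unfold hsm
        rw [if_neg (Finset.ne_of_mem_erase hl), if_neg (Ne.symm hlk), mul_zero]
      · intro h
        exact absurd (Finset.mem_erase.2 ⟨hk, Finset.mem_univ _⟩) h
    rw [h1]
    exact (dvd_neg.2 ((hν i k).mul_left _))
  have hlf : ∀ p : Fin m × Fin (q + 1), IXV j l₀ (lfb p.1 (B p.1 p.2))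
      (if p.2 = Fin.last q then 4 ^ j p.1 else 0) := by
    intro p
    by_cases hp : p.2 = Fin.last q
    · rw [if_pos hp, hp]
      intro a w hne
      unfold lfb at hne
      rw [coeff_sum, map_sum] at hne
      obtain ⟨k, -, hk⟩ := Finset.exists_ne_zero_of_sum_ne_zero hne
      rw [coeff_C_mul, coeff_X] at hk
      by_cases hw' : Finsupp.single (p.1, k) 1 = w
      · rw [if_pos hw', mul_one] at hk
        by_cases hk0 : k = l₀
        · have h1 : 4 ^ j p.1 * w (p.1, l₀) ≤ ∑ i, 4 ^ j i * w (i, l₀) :=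
            Finset.single_le_sum (f := fun i => 4 ^ j i * w (i, l₀))
              (fun _ _ => Nat.zero_le _) (Finset.mem_univ p.1)
          have h2 : w (p.1, l₀) = 1 := by
            rw [← hw', hk0, Finsupp.single_eq_same]
          rw [h2, mul_one] at h1
          omega
        · have h1 : 4 ^ j p.1 ≤ a := by
            by_contra hcon
            rw [not_le] at hcon
            exact hk ((PowerSeries.X_pow_dvd_iff.1 (hBl p.1 k hk0)) a hcon)
          omega
      · rw [if_neg hw', mul_zero, map_zero] at hk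
        exact absurd rfl hk
    · rw [if_neg hp]
      exact IXV_zero j l₀ _
  -- the coefficients of `sbm B G`
  rw [hmain]
  by_contra hne
  have h1 : sbm B G = ∑ v ∈ G.support, C (coeff v G) * ∏ p, lfb p.1 (B p.1 p.2) ^ v p := by
    unfold sbm
    rw [aeval_def, eval₂_eq']
    rfl
  rw [h1, coeff_sum, map_sum] at hne
  obtain ⟨v, -, hv⟩ := Finset.exists_ne_zero_of_sum_ne_zero hne
  rw [coeff_C_mul, PowerSeries.coeff_mul] at hv
  obtain ⟨⟨a1, a2⟩, ha12, hv2⟩ := Finset.exists_ne_zero_of_sum_ne_zero hv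
  have ha3 : a1 + a2 = a := Finset.HasAntidiagonal.mem_antidiagonal.1 ha12
  have hv3 := left_ne_zero_of_mul hv2
  have hv4 := right_ne_zero_of_mul hv2
  dsimp only at hv3 hv4
  have h2 : IXV j l₀ (∏ p, lfb p.1 (B p.1 p.2) ^ v p)
      (∑ p : Fin m × Fin (q + 1), v p * if p.2 = Fin.last q then 4 ^ j p.1 else 0) :=
    IXV_prod Finset.univ _ _ fun p _ => IXV_pow (hlf p) (v p)
  have h3 := h2 a2 w hv4
  have h4 : ∑ p : Fin m × Fin (q + 1), v p * (if p.2 = Fin.last q then 4 ^ j p.1 else 0) =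
      ∑ i, 4 ^ j i * v (i, Fin.last q) := by
    rw [Fintype.sum_prod_type]
    refine Finset.sum_congr rfl fun i _ => ?_
    rw [Finset.sum_eq_single (Fin.last q)]
    · rw [if_pos rfl, mul_comm]
    · intro k _ hk
      rw [if_neg hk, mul_zero]
    · intro h
      exact absurd (Finset.mem_univ _) h
  rw [h4] at h3
  have h5 : (∑ i, (4 : ℝ) ^ j i * v (i, Fin.last q)) ≤ a2 + ∑ i, (4 : ℝ) ^ j i * w (i, l₀) := by
    exact_mod_cast h3
  have h6 : (a1 : ℝ) + a2 = a := by exact_mod_cast ha3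
  have h7 : (0 : ℝ) ≤ a1 := Nat.cast_nonneg _
  have h8 : (0 : ℝ) ≤ a2 := Nat.cast_nonneg _
  exact hv3 (hF a1 v (by linarith) (by linarith))

end Pool.Agent.Lib.MP_17a322_nt.SL
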