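import Pool.Agent.Lib.MP_17a322_nt.SL.IZ9

/-!
The zero estimate for the covers.
-/

universe u

namespace Pool.Agent.Lib.MP_17a322_nt.SL

open MvPolynomial Height
open Pool.Agent.Lib.MP_17a322_nt.RO
open Pool.Agent.Lib.MP_17a322_nt.VJ
open Pool.Agent.Lib.MP_17a322_nt.VN hiding lf
open Pool.Agent.Lib.MP_17a322_nt.VA
open Pool.Agent.Lib.MP_17a322_nt.VP

/-- The set of the coordinates. -/
def izJ (n : ℕ) : Finset (Fin (n + 1)) := Finset.univ.erase (Fin.last n)

theorem mem_izJ {n : ℕ} (t : Fin (n + 1)) : t ∈ izJ n ↔ t ≠ Fin.last n := by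
  unfold izJ
  rw [Finset.mem_erase]
  exact ⟨fun h => h.1, fun h => ⟨h, Finset.mem_univ t⟩⟩

/-- The values on the path, with constants for the unused variables. -/
noncomputable def izy {K L : Type*} [Field K] [Field L] [Algebra K L] {m n : ℕ}
    (v : VE m (n + 1) → K) (s : VE m (n + 1) → PowerSeries L) : VE m (n + 1) → PowerSeries L
  | VE.x t => Fin.lastCases (motive := fun _ => PowerSeries L)
      (PowerSeries.C (algebraMap K L (v (VE.x (Fin.last n)))))
      (fun a : Fin n => s (VE.x a.castSucc)) t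
  | VE.v p => PowerSeries.C (algebraMap K L (v (VE.v p)))
  | VE.q => s VE.q
  | VE.S p => s (VE.S p)
  | VE.w i => s (VE.w i)
  | VE.z p => s (VE.z p)

/-- The values of the coefficient. -/
noncomputable def izy0 {K L : Type*} [Field K] [Field L] [Algebra K L] {m n : ℕ}
    (v : VE m (n + 1) → K) (x : Fin n → L) (ζ : Fin m × Option (Fin n) → L) :
    VE m (n + 1) → L
  | VE.x t => Fin.lastCases (motive := fun _ => L)
      (algebraMap K L (v (VE.x (Fin.last n)))) x t
  | VE.v p => algebraMap K L (v (VE.v p))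
  | VE.q => 0
  | VE.S p => Fin.lastCases (motive := fun _ => L) 0 (fun a : Fin n => ζ (p.1, some a)) p.2
  | VE.w _ => 0
  | VE.z _ => 0

section

variable {K L : Type*} [Field K] [Field L] [Algebra K L] {m n : ℕ}

theorem izy_x (v : VE m (n + 1) → K) (s : VE m (n + 1) → PowerSeries L) (a : Fin n) :
    izy v s (VE.x a.castSucc) = s (VE.x a.castSucc) := by
  show Fin.lastCases (motive := fun _ => PowerSeries L) _ _ a.castSucc = _
  rw [Fin.lastCases_castSucc]

theorem izy_xl (v : VE m (n + 1) → K) (s : VE m (n + 1) → PowerSeries L) :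
    izy v s (VE.x (Fin.last n)) = PowerSeries.C (algebraMap K L (v (VE.x (Fin.last n)))) := by
  show Fin.lastCases (motive := fun _ => PowerSeries L) _ _ (Fin.last n) = _
  rw [Fin.lastCases_last]

theorem izy0_x (v : VE m (n + 1) → K) (x : Fin n → L) (ζ : Fin m × Option (Fin n) → L)
    (a : Fin n) : izy0 v x ζ (VE.x a.castSucc) = x a := by
  show Fin.lastCases (motive := fun _ => L) _ _ a.castSucc = _
  rw [Fin.lastCases_castSucc]

theorem izy0_xl (v : VE m (n + 1) → K) (x : Fin n → L) (ζ : Fin m × Option (Fin n) → L) :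
    izy0 v x ζ (VE.x (Fin.last n)) = algebraMap K L (v (VE.x (Fin.last n))) := by
  show Fin.lastCases (motive := fun _ => L) _ _ (Fin.last n) = _
  rw [Fin.lastCases_last]

theorem izy0_S (v : VE m (n + 1) → K) (x : Fin n → L) (ζ : Fin m × Option (Fin n) → L)
    (i : Fin m) (a : Fin n) : izy0 v x ζ (VE.S (i, a.castSucc)) = ζ (i, some a) := by
  show Fin.lastCases (motive := fun _ => L) _ _ a.castSucc = _
  rw [Fin.lastCases_castSucc]

end

/-- IZ: a polynomial of bounded height which does not vanish at one generic configuration has small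
order on the paths. -/
theorem cov_zero' {K : Type u} [Field K] [NumberField K] {N : ℕ} (B : AV K N) {n e : ℕ}
    (nd : Noe B n e) (m q Dc : ℕ) (s Bd : ℝ) (hs : 0 < s) (hBd : 0 ≤ Bd) (hm : 0 < m) :
    ∃ (D' R₀ : ℕ) (B' : ℝ), 0 ≤ B' ∧ ∀ (P : Fin m → B.Pts K) (j : Fin m → ℕ)
      (l₀ : Fin (q + 1)) (Ψ Θ : Fin m → MvPolynomial (Option (Fin n)) K)
      (M : Fin m → Fin (q + 1) → MvPolynomial (Option (Fin n)) K)
      (G : MvPolynomial (VE m (n + 1)) K) (b : ℝ),
      (∀ i i', i < i' → R₀ * 4 ^ j i ≤ 4 ^ j i') → (∀ i, nd.Good (P i)) →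
      (∀ i, Cov nd l₀ Dc (Ψ i) (Θ i) (M i)) →
      (∀ i, nh1 (Ψ i) ≤ 4 ^ j i ∧ nh1 (Θ i) ≤ 4 ^ j i ∧ nh1 (M i l₀) ≤ 4 ^ j i) →
      (∀ i, (4 : ℝ) ^ j i ≤ b) → QE j b (Bd * b) G → (∀ p, G.degreeOf (VE.v p) = 0) →
      G.degreeOf (VE.x (Fin.last n)) = 0 → (∀ i, G.degreeOf (VE.S (i, Fin.last n)) = 0) →
      (∃ (Ω : Type u) (_ : Field Ω) (_ : IsAlgClosed Ω) (_ : Algebra K Ω)
        (Y : Fin (N + 1) → Ω) (y η : Fin m → Fin (N + 1) → Ω) (T : Fin m → Ω),
        Cfg nd l₀ Ψ Θ M j Y y η T ∧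
        AlgebraicIndependent K (Sum.elim (fun k : Fin n => lf (nd.l k.succ) Y)
          fun p : Fin m × Fin n => lf (nd.l p.2.succ) (y p.1)) ∧
        aeval (cvl nd Y y η T) G ≠ 0) →
      (∃ (i : Fin m) (G' : MvPolynomial (Fin n) K), G' ≠ 0 ∧ (∀ y, G'.degreeOf y ≤ D') ∧
        nh G' ≤ B' * 4 ^ j i ∧ eval (nd.s (P i)) G' = 0) ∨
      ∃ g : MvPolynomial (Fin n ⊕ Fin m × Option (Fin n)) K, g ≠ 0 ∧
        ∀ (L : Type u) [Field L] [NumberField L] [Algebra K L] (Y : Fin (N + 1) → L)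
          (ζ : Fin m × Option (Fin n) → L) (x η : Fin m → Fin (N + 1) → PowerSeries L)
          (T : Fin m → PowerSeries L),
          PthM nd P j Y ζ x η →
          Cfg nd l₀ Ψ Θ M j (fun a => PowerSeries.C (Y a)) x η T →
          aeval (Sum.elim (fun k : Fin n => lf (nd.l k.succ) Y) ζ) g ≠ 0 →
          ∃ a : ℕ, (a : ℝ) < s * b ∧
            PowerSeries.coeff a (aeval (cvl nd (fun a => PowerSeries.C (Y a)) x η T) G) ≠ 0 := by
  obtain ⟨A, hA1, hGRE⟩ := iz_GRE nd Dc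
  obtain ⟨ℓ, hℓ⟩ : ∃ ℓ : ℕ, ℓ = (izL m n).length := ⟨_, rfl⟩
  have hA0 : 0 < A := lt_of_lt_of_le one_pos hA1
  have h2A : (1 : ℝ) ≤ (2 * A) ^ ℓ := one_le_pow₀ (by linarith)
  have h2A0 : (0 : ℝ) < (2 * A) ^ ℓ := lt_of_lt_of_le one_pos h2A
  have h3A0 : (0 : ℝ) < (3 * A) ^ ℓ := by positivity
  obtain ⟨R₀, D', B', hB', hord⟩ := order_T (K := K) m (n + 1) (izJ n) (s / (2 * A) ^ ℓ)
    ((3 * A) ^ ℓ * (Bd + 1)) (div_pos hs h2A0) (by positivity)
  refine ⟨D', R₀, B', hB', ?_⟩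
  intro P j l₀ Ψ Θ M G b hj hP hC hh hjb hQ hGv hGx hGS hcfg
  obtain ⟨Ω, _, _, _, Y₀, y₀, η₀, T₀, hcf, hind, hGne⟩ := hcfg
  have hb : 0 < b := lt_of_lt_of_le (by positivity) (hjb ⟨0, hm⟩)
  have hΨ : ∀ i o, (Ψ i).degreeOf o ≤ Dc := fun i o => (hC i).dPsi o
  have hΘ : ∀ i o, (Θ i).degreeOf o ≤ Dc := fun i o => (hC i).dTh o
  have hM : ∀ i o, (M i l₀).degreeOf o ≤ Dc := fun i o => (hC i).dM l₀ o
  have hP₀ := iz_cfgP nd hcf
  have hdz := fun p => (iz_deg_z nd hC j hind hP₀ p).1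
  have hd : ∀ i, (Ψ i).degreeOf none ≠ 0 := fun i =>
    ne_of_gt (lt_of_le_of_lt (Nat.zero_le _) (hC i).deg)
  have hne := iz_ne nd hC j hind hP₀ (fun p => izα_cfg nd hcf p) hGv hGx hGS hGne
  have hα := hGRE m j Ψ Θ (fun i => M i l₀) hΨ hΘ hM hh hdz
  have hpair := (iz_pair nd j (Ψ := Ψ) hΘ hM).imp fun {a b} (h : izO _ a b) => h.1
  have hdeg0 : ∀ y ∈ izL m n, (izα nd j Θ (fun i => M i l₀) Ψ y).degreeOf y ≠ 0 := by
    intro y hy
    rcases (mem_izL y).1 hy with ⟨p, rfl⟩ | ⟨i, rfl⟩ | rfl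
    · rw [hdz]
      exact one_ne_zero
    · exact iz_deg_w nd j hd i
    · exact iz_deg_q nd j
  obtain ⟨α, hαdef⟩ : ∃ α, α = izα nd j Θ (fun i => M i l₀) Ψ := ⟨_, rfl⟩
  obtain ⟨NN, hNN⟩ : ∃ NN, NN = ELL α (izL m n) G := ⟨_, rfl⟩
  have hNe : NN ≠ 0 := by
    intro h0
    apply hne
    rw [← hαdef, ← hNN, h0, map_zero]
  -- the variables of `NN`
  have hNz : ∀ y ∈ izL m n, NN.degreeOf y = 0 := by
    intro y hy
    rw [hNN]
    rw [← hαdef] at hpair
    exact ELL_degreeOf_eq_zero _ _ hpair G y (Or.inl hy)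
  have hNo : ∀ t, G.degreeOf t = 0 → (∀ p, t ≠ VE.z p) → (∀ i o, t ≠ pC i o) →
      (∀ o, t ≠ pD o) → (∀ i, izd (n := n) i (izA nd Dc) (4 ^ j i * izA nd Dc) t = 0) →
      NN.degreeOf t = 0 := by
    intro t h1 h2 h3 h4 h5
    rw [hNN, hαdef]
    refine ELL_degreeOf_eq_zero _ _ hpair G t (Or.inr ⟨h1, fun y hy => ?_⟩)
    rcases (mem_izL y).1 hy with ⟨p, rfl⟩ | ⟨i, rfl⟩ | rfl
    · exact Nat.le_zero.1 ((izα_deg nd j Ψ hΘ hM p t (h2 p)).trans (h5 p.1).le)
    · exact iz_w0 nd j i t (h3 i)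
    · exact iz_q0 nd j t h4
  have hNv : ∀ p, NN.degreeOf (VE.v p) = 0 := fun p =>
    hNo _ (hGv p) (fun p' h => by cases h) (fun i o h => by cases o <;> cases h)
      (fun o h => by cases o <;> cases h) fun i => rfl
  have hNx : NN.degreeOf (VE.x (Fin.last n)) = 0 :=
    hNo _ hGx (fun p' h => by cases h) (fun i o h => by cases o <;> cases h)
      (fun o h => by
        cases o with
        | none => cases h
        | some a => exact (Fin.castSucc_lt_last a).ne (VE.x.inj h).symm) fun i => if_pos rfl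
  have hNS : ∀ i, NN.degreeOf (VE.S (i, Fin.last n)) = 0 := fun i =>
    hNo _ (hGS i) (fun p' h => by cases h)
      (fun i' o h => by
        cases o with
        | none => cases h
        | some a => exact (Fin.castSucc_lt_last a).ne (Prod.mk.inj (VE.S.inj h)).2.symm)
      (fun o h => by cases o <;> cases h) fun i' => if_neg fun h => h.2 rfl
  have hNw : ∀ i, NN.degreeOf (VE.w i) = 0 := fun i =>
    hNz _ ((mem_izL _).2 (Or.inr (Or.inl ⟨i, rfl⟩)))
  have hNq : NN.degreeOf VE.q = 0 := hNz _ ((mem_izL _).2 (Or.inr (Or.inr rfl)))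
  have hNzz : ∀ p, NN.degreeOf (VE.z p) = 0 := fun p => hNz _ ((mem_izL _).2 (Or.inl ⟨p, rfl⟩))
  have hOc : ∀ y, ¬ Oc (izJ n) m y → NN.degreeOf y = 0 := by
    intro y hy
    cases y with
    | x t => exact absurd trivial hy
    | q => exact hNq
    | S p =>
      obtain ⟨i, t⟩ := p
      by_cases ht : t = Fin.last n
      · rw [ht]
        exact hNS i
      · exact absurd ⟨i.2, (mem_izJ t).2 ht⟩ hy
    | w i => exact hNw i
    | z p => exact hNzz p
    | v p => exact hNv p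
  -- the bounds
  have hQN := QE_ELL j A hA1 α (izL m n) (by rw [hαdef]; exact hα)
    (by rw [hαdef]; exact hdeg0) b (Bd * b) (by positivity) G hQ (by rw [← hNN]; exact hNe)
  rw [← hNN, ← hℓ] at hQN
  have hμ : 0 < (2 * A) ^ ℓ * b := mul_pos h2A0 hb
  have hnh : nh NN ≤ (3 * A) ^ ℓ * (Bd + 1) * ((2 * A) ^ ℓ * b) := by
    refine hQN.2.trans ?_
    have h1 : (3 * A) ^ ℓ * (Bd * b + b) = (3 * A) ^ ℓ * (Bd + 1) * (1 * b) := by ring
    rw [h1]
    refine mul_le_mul_of_nonneg_left ?_ (by positivity)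
    exact mul_le_mul_of_nonneg_right h2A hb.le
  obtain ⟨σ, hσ⟩ : ∃ σ : Fin m × Fin (n + 1) → K, ∀ i (a : Fin n),
      σ (i, a.castSucc) = nd.s (P i) a :=
    ⟨fun p => Fin.lastCases (motive := fun _ => K) 0 (nd.s (P p.1)) p.2, fun i a => by
      show Fin.lastCases (motive := fun _ => K) 0 (nd.s (P i)) a.castSucc = _
      rw [Fin.lastCases_castSucc]⟩
  rcases hord j σ NN ((2 * A) ^ ℓ * b) hj hNe hμ hOc
    (fun p => hQN.1 (VE.S p)) hnh with ⟨i, G', hG', hG1, hG2, hG3, hG4⟩ | ⟨a, c, ha, hc, hc1, hc2⟩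
  · left
    obtain ⟨G'', h1, h2, h3, h4⟩ := iz_last G' hG' (hG1 _ fun h => (mem_izJ _).1 h rfl)
    refine ⟨i, G'', h1, fun y => ?_, ?_, ?_⟩
    · rw [h2]
      exact hG2 _
    · rw [h3]
      exact hG3
    · have h5 : nd.s (P i) = fun y : Fin n => σ (i, y.castSucc) :=
        funext fun y => (hσ i y).symm
      rw [h5]
      exact (h4 fun t => σ (i, t)).trans hG4
  · right
    obtain ⟨v, g, hg, hg1⟩ := iz_cond c hc (fun i => hc1 _ id) (hc1 _ id)
      (fun p => hc1 _ (not_le.2 p.1.2)) (fun i => hc1 _ fun h => (mem_izJ _).1 h.2 rfl)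
    refine ⟨g, hg, ?_⟩
    intro L _ _ _ Y ζ x η T hpth hcfgL hgL
    obtain ⟨τ, hτ⟩ : ∃ τ, τ = cvl nd (fun a => PowerSeries.C (Y a)) x η T := ⟨_, rfl⟩
    have hlfC : ∀ l : Fin (N + 1) → K, lf l (fun a => PowerSeries.C (Y a)) =
        PowerSeries.C (lf l Y) := by
      intro l
      exact lf_mapE l ((Algebra.ofId L (PowerSeries L)).restrictScalars K) Y
    -- the value of the coefficient
    have h0 : aeval (Sum.elim (fun k : Fin n => lf (nd.l k.succ) Y) ζ) g =
        aeval (izy0 v (fun k : Fin n => lf (nd.l k.succ) Y) ζ) c := by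
      exact hg1 L _ ζ _ (fun a => izy0_x v _ ζ a) (izy0_xl v _ ζ) (fun i a => izy0_S v _ ζ i a)
        fun p => rfl
    have h1 := (hc2 L (izy v τ) (izy0 v (fun k : Fin n => lf (nd.l k.succ) Y) ζ) (by
      rintro ⟨i, t⟩ ht
      obtain ⟨k, rfl⟩ : ∃ k : Fin n, t = k.castSucc := by
        induction t using Fin.lastCases with
        | last => exact absurd rfl ((mem_izJ _).1 ht)
        | cast k => exact ⟨k, rfl⟩
      have h3 : izy v τ (VE.S (i, k.castSucc)) = lf (nd.l k.succ) (x i) := by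
        show τ (VE.S (i, k.castSucc)) = _
        rw [hτ, cvl_S]
      rw [izy0_S, h3, hσ, (hpth.blk i).lfs k]) (by
      intro o ho ho'
      cases o with
      | x t =>
        induction t using Fin.lastCases with
        | last =>
          rw [izy0_xl, izy_xl, PowerSeries.constantCoeff_C]
        | cast k =>
          rw [izy0_x, izy_x, hτ, cvl_x, hlfC, PowerSeries.constantCoeff_C]
      | q => exact absurd ho id
      | S p => exact absurd rfl (ho' p)
      | w i => exact absurd ho id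
      | z p => exact absurd p.1.2 (not_lt.2 ho)
      | v p =>
        show algebraMap K L (v (VE.v p)) =
          PowerSeries.constantCoeff (PowerSeries.C (algebraMap K L (v (VE.v p))))
        rw [PowerSeries.constantCoeff_C])).2
    have h4 : aeval (izy v τ) NN = aeval τ NN := by
      refine aeval_congr_of_degreeOf NN _ _ fun o ho => ?_
      cases o with
      | x t =>
        induction t using Fin.lastCases with
        | last => exact absurd hNx ho
        | cast k => exact izy_x v τ k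
      | q => rfl
      | S p => rfl
      | w i => rfl
      | z p => rfl
      | v p => exact absurd (hNv p) ho
    have h5 : PowerSeries.coeff a (aeval τ NN) ≠ 0 := by
      rw [← h4, h1, ← h0]
      exact hgL
    -- divisibility
    have h6 : aeval τ G ∣ aeval τ NN := by
      rw [hNN]
      refine aeval_dvd_ELL α (izL m n) G (by rw [hαdef]; exact hdeg0) τ fun y hy => ?_
      rw [hαdef, hτ]
      rcases (mem_izL y).1 hy with ⟨p, rfl⟩ | ⟨i, rfl⟩ | rfl
      · exact izα_cfg nd hcfgL p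
      · show aeval (cvl nd (fun a => PowerSeries.C (Y a)) x η T) (rename (pC i) (Ψ i)) = 0
        rw [aeval_rename]
        have h7 := hcfgL.psi i
        rw [← cvl_pC nd (fun a => PowerSeries.C (Y a)) x η T i] at h7
        exact h7
      · show aeval (cvl nd (fun a => PowerSeries.C (Y a)) x η T) (rename pD nd.ed.f) = 0
        rw [aeval_rename]
        have h7 := nd.aeval_f hcfgL.Y_pt hcfgL.Y_lf
        rw [← cvl_pD nd (fun a => PowerSeries.C (Y a)) x η T] at h7
        exact h7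
    obtain ⟨a', ha', hne'⟩ := iz_div _ _ a h6 h5
    rw [hτ] at hne'
    refine ⟨a', ?_, hne'⟩
    have h8 : (a' : ℝ) ≤ a := by exact_mod_cast ha'
    refine h8.trans_lt (ha.trans_le (le_of_eq ?_))
    field_simp

end Pool.Agent.Lib.MP_17a322_nt.SL
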