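import Pool.Agent.Lib.MP_17a322_nt.SL.N15
import Pool.Agent.Lib.MP_17a322_nt.SL.IW3
import Pool.Agent.Lib.MP_17a322_nt.SL.IG2
import Pool.Agent.Lib.MP_17a322_nt.SL.IZ10
import Pool.Agent.Lib.MP_17a322_nt.SL.IA8
import Pool.Agent.Lib.MP_17a322_nt.SL.IP1
import Pool.Agent.Lib.MP_17a322_nt.SL.IX1
import Pool.Agent.Lib.MP_17a322_nt.SL.H1
import Pool.Agent.Lib.MP_17a322_nt.SL.IA7
import Pool.Agent.Lib.MP_17a322_nt.SL.IG1
import Pool.Agent.Lib.MP_17a322_nt.VA.E02

/-!
The numerical theorem of the part IRR.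
-/

universe u

namespace Pool.Agent.Lib.MP_17a322_nt.SL

open MvPolynomial Height Filter
open Pool.Agent.Lib.MP_17a322_nt.RO
open Pool.Agent.Lib.MP_17a322_nt.VJ
open Pool.Agent.Lib.MP_17a322_nt.VN hiding lf
open Pool.Agent.Lib.MP_17a322_nt.VA
open Pool.Agent.Lib.MP_17a322_nt.VP

/-- The four groups of variables. -/
def im_eqv (m n q : ℕ) : VQ m n q ≃ Fin n ⊕ Fin m ⊕ (Fin m × Fin n) ⊕ (Fin m × Fin q) where
  toFun
    | VQ.x a => Sum.inl a
    | VQ.th i => Sum.inr (Sum.inl i)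
    | VQ.z p => Sum.inr (Sum.inr (Sum.inl p))
    | VQ.u p => Sum.inr (Sum.inr (Sum.inr p))
  invFun
    | Sum.inl a => VQ.x a
    | Sum.inr (Sum.inl i) => VQ.th i
    | Sum.inr (Sum.inr (Sum.inl p)) => VQ.z p
    | Sum.inr (Sum.inr (Sum.inr p)) => VQ.u p
  left_inv := by rintro (a | i | p | p) <;> rfl
  right_inv := by rintro (a | i | p | p) <;> rfl

theorem im_prod {m n q : ℕ} {M : Type*} [CommMonoid M] (g : VQ m n q → M) :
    ∏ t, g t = (∏ a, g (VQ.x a)) *
      ((∏ i, g (VQ.th i)) * ((∏ p, g (VQ.z p)) * ∏ p, g (VQ.u p))) := by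
  rw [← (im_eqv m n q).symm.prod_comp g, Fintype.prod_sum_type, Fintype.prod_sum_type,
    Fintype.prod_sum_type]
  rfl

section

variable {K : Type u} [Field K] {N : ℕ} {A : AV K N} {n e : ℕ} (nd : Noe A n e)

/-- The monomials of the value come from monomials of the polynomial. -/
theorem im_supp {m q : ℕ} {R : Type*} [CommRing R] [Algebra K R] (Y : Fin (N + 1) → R)
    (η : Fin m → Fin (N + 1) → R) {F : MvPolynomial (VQ m n q) K} (w : Fin m × Fin q →₀ ℕ)
    (hw : coeff w (aeval (vM nd (fun a => (C (Y a) : MvPolynomial (Fin m × Fin q) R))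
      (fun i a => C (η i a)) fun p => X p) F) ≠ 0) :
    ∃ d ∈ F.support, ∀ p, d (VQ.u p) = w p := by
  classical
  obtain ⟨g, hg⟩ : ∃ g : VQ m n q → MvPolynomial (Fin m × Fin q) R, g =
    vM nd (fun a => (C (Y a) : MvPolynomial (Fin m × Fin q) R))
      (fun i a => C (η i a)) fun p => X p := ⟨_, rfl⟩
  rw [← hg, aeval_def, eval₂_eq', coeff_sum] at hw
  obtain ⟨d, hd, h1⟩ := Finset.exists_ne_zero_of_sum_ne_zero hw
  refine ⟨d, hd, ?_⟩
  have hC : ∀ v, (∀ p, v ≠ VQ.u p) → ∃ r : R, g v = C r := by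
    intro v hv
    rw [hg]
    rcases v with a | i | p | p
    · exact ⟨_, ig1_lf _ _⟩
    · exact ⟨_, ig1_aeval _ _⟩
    · exact ⟨_, ig1_lf _ _⟩
    · exact absurd rfl (hv p)
  have hCp : ∀ {ι : Type} (s : Finset ι) (f : ι → VQ m n q), (∀ x p, f x ≠ VQ.u p) →
      ∃ r : R, ∏ x ∈ s, g (f x) ^ d (f x) = C r := by
    intro ι s f hf
    choose r hr using fun x => hC (f x) (hf x)
    refine ⟨∏ x ∈ s, r x ^ d (f x), ?_⟩
    rw [map_prod]
    refine Finset.prod_congr rfl fun x _ => ?_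
    rw [hr, map_pow]
  obtain ⟨r₁, hr₁⟩ := hCp Finset.univ VQ.x fun _ _ h => by cases h
  obtain ⟨r₂, hr₂⟩ := hCp Finset.univ VQ.th fun _ _ h => by cases h
  obtain ⟨r₃, hr₃⟩ := hCp Finset.univ VQ.z fun _ _ h => by cases h
  obtain ⟨e', he'⟩ : ∃ e' : Fin m × Fin q →₀ ℕ, ∀ p, e' p = d (VQ.u p) :=
    ⟨Finsupp.equivFunOnFinite.symm fun p => d (VQ.u p), fun _ => rfl⟩
  have h2 : ∏ p, g (VQ.u p) ^ d (VQ.u p) = monomial e' 1 := by
    rw [monomial_eq, C_1, one_mul, Finsupp.prod_fintype _ _ fun _ => pow_zero _]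
    refine Finset.prod_congr rfl fun p _ => ?_
    rw [he', hg]
    rfl
  rw [im_prod, hr₁, hr₂, hr₃, h2] at h1
  have h3 : (algebraMap K (MvPolynomial (Fin m × Fin q) R)) (coeff d F) *
      (C r₁ * (C r₂ * (C r₃ * monomial e' 1))) =
      monomial e' (algebraMap K R (coeff d F) * (r₁ * (r₂ * r₃))) := by
    have h4 : (algebraMap K (MvPolynomial (Fin m × Fin q) R)) (coeff d F) =
        C (algebraMap K R (coeff d F)) := rfl
    rw [h4, C_mul_monomial, C_mul_monomial, C_mul_monomial, C_mul_monomial, mul_one]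
  rw [h3, coeff_monomial] at h1
  split_ifs at h1 with h4
  · intro p
    rw [← he', h4]
  · exact absurd rfl h1

/-- The value on a path in two steps. -/
theorem im_vlN {m q q' : ℕ} {L : Type u} [Field L] [Algebra K L]
    (y : Fin m → Fin q' → Fin (q + 1) → K) (Y : Fin (N + 1) → L)
    (η : Fin m → Fin (N + 1) → PowerSeries L) (F : MvPolynomial (VQ m n (q + 1)) K) :
    aeval (fun p : Fin m × Fin (q + 1) => (∑ s, C (PowerSeries.C (algebraMap K L (y p.1 s p.2))) *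
      X (p.1, s) : MvPolynomial (Fin m × Fin q') (PowerSeries L)))
      (aeval (vM nd (fun a => (C (PowerSeries.C (Y a)) :
        MvPolynomial (Fin m × Fin (q + 1)) (PowerSeries L))) (fun i a => C (η i a)) fun p => X p) F) =
      vlN nd y Y η F := by
  obtain ⟨ψ, hψ⟩ : ∃ ψ : MvPolynomial (Fin m × Fin (q + 1)) (PowerSeries L) →ₐ[PowerSeries L]
      MvPolynomial (Fin m × Fin q') (PowerSeries L), ψ = aeval (fun p : Fin m × Fin (q + 1) =>
        (∑ s, C (PowerSeries.C (algebraMap K L (y p.1 s p.2))) * X (p.1, s))) := ⟨_, rfl⟩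
  rw [← hψ]
  have h1 : ∀ G, ψ G = (ψ.restrictScalars K) G := fun _ => rfl
  rw [h1, comp_aeval_apply, vlN]
  congr 2
  funext v
  have h2 : ∀ c : PowerSeries L, ψ (C c) = C c := fun c => ψ.commutes c
  rcases v with a | i | p | p
  · show ψ (lf (nd.l a.succ) fun a => C (PowerSeries.C (Y a))) =
      lf (nd.l a.succ) fun a => C (PowerSeries.C (Y a))
    rw [ig1_lf, ig1_lf, h2]
  · show ψ (aeval (fun a => C (η i a)) nd.θ) = aeval (fun a => C (η i a)) nd.θ
    rw [ig1_aeval, ig1_aeval, h2]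
  · show ψ (lf (nd.l p.2.succ) fun a => C (η p.1 a)) = lf (nd.l p.2.succ) fun a => C (η p.1 a)
    rw [ig1_lf, ig1_lf, h2]
  · show ψ (X p) = ∑ s, C (PowerSeries.C (algebraMap K L (y p.1 s p.2))) * X (p.1, s)
    rw [hψ, aeval_X]

end

theorem im_li {K L : Type*} [Field K] [Field L] [Algebra K L] {q : ℕ}
    {y : Fin (q + 1) → Fin (q + 1) → K} (hy : LinearIndependent K y) :
    LinearIndependent L fun s l => algebraMap K L (y s l) := by
  classical
  have h1 : IsUnit (Matrix.of y) := Matrix.linearIndependent_rows_iff_isUnit.1 hy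
  have h2 : IsUnit ((Matrix.of y).map (algebraMap K L)) := by
    rw [Matrix.isUnit_iff_isUnit_det] at h1 ⊢
    have h3 := h1.map (algebraMap K L)
    rwa [RingHom.map_det] at h3
  exact Matrix.linearIndependent_rows_iff_isUnit.2 h2

/-- IRM: the points with the covers satisfy an equation of bounded degree and height. -/
theorem IRM' {K : Type u} [Field K] [NumberField K] {N : ℕ} (A : AV K N) {n e : ℕ} (nd : Noe A n e)
    (Sg : Finset (AbsoluteValue K ℝ)) (hSg : ∀ v ∈ Sg, Pl v) (q D Dc : ℕ) (hq : 0 < q)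
    (c : AbsoluteValue K ℝ → Fin (q + 1) → ℝ) (hc : 0 ≤ tw Sg c) (κ : ℝ) (hκ : 0 < κ) :
    ∃ (E : SC K) (m D' R₀ : ℕ) (C₀ η : ℝ), 0 < m ∧ 0 ≤ C₀ ∧ 0 < η ∧
      ∀ (P₀ : A.Pts K) (P : Fin m → A.Pts K) (j : Fin m → ℕ)
        (Λ : Fin m → AbsoluteValue K ℝ →
          Matrix (Fin (q + 1)) (Fin (q + 1)) (MvPolynomial (Fin (N + 1)) K))
        (y : Fin m → Fin (q + 1) → Fin (q + 1) → K) (μ : Fin m → Fin (q + 1) → K)
        (l₀ : Fin (q + 1)),
      (∀ i i', i < i' → R₀ * 4 ^ j i ≤ 4 ^ j i') →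
      DatM nd Sg D c (fun s => if s = Fin.last q then q * κ else - κ) E C₀ η P₀ P j Λ y →
      (∀ i, LinearIndependent K (y i)) → (∀ i, μ i l₀ = 1) →
      (∀ i s, s ≠ Fin.last q → ∑ l, μ i l * y i s l = 0) →
      (∀ i, ∃ (Ψ Θ : MvPolynomial (Option (Fin n)) K)
        (M : Fin (q + 1) → MvPolynomial (Option (Fin n)) K) (t : K),
        Cov nd l₀ Dc Ψ Θ M ∧ CovAt nd l₀ Ψ Θ M (P i) (μ i) t (4 ^ j i)) →
      ∃ (i : Fin m) (G : MvPolynomial (Fin n) K), G ≠ 0 ∧ (∀ y, G.degreeOf y ≤ D') ∧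
        nh G ≤ C₀ * 4 ^ j i ∧ eval (nd.s (P i)) G = 0 := by
  classical
  obtain ⟨E, m₀, hV⟩ := VNM A nd Sg hSg q (q + 1) D c hc
    (fun s => if s = Fin.last q then q * κ else - κ) (κ / 8) (by positivity)
  obtain ⟨m₁, hW⟩ := exists_forb q hq (1 / (8 * (q + 1))) (by positivity)
  obtain ⟨m, hmdef⟩ : ∃ m : ℕ, m = max m₀ m₁ + 1 := ⟨_, rfl⟩
  have hm : 0 < m := by omega
  have hm0 : (0 : ℝ) < m := by exact_mod_cast hm
  obtain ⟨C₁, η, B, s, hC₁, hη, hB, hs, hVm⟩ := hV m (by omega) hm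
  have hB0 : 0 < B := one_pos.trans_le hB
  obtain ⟨C₂, hC₂, hbd⟩ := covF_bd' nd m q Dc B hB0.le
  obtain ⟨C', hC'⟩ : ∃ C' : ℝ, C' = max C₂ 1 := ⟨_, rfl⟩
  have hC'1 : 1 ≤ C' := by
    rw [hC']
    exact le_max_right _ _
  have hC'0 : 0 < C' := one_pos.trans_le hC'1
  have hC'2 : C₂ ≤ C' := by
    rw [hC']
    exact le_max_left _ _
  obtain ⟨s', hs'⟩ : ∃ s' : ℝ, s' = min s (m / (8 * (q + 1))) := ⟨_, rfl⟩
  have hs'0 : 0 < s' := by
    rw [hs']
    positivity
  obtain ⟨D', R₀, B', hB', hZ⟩ := cov_zero' A nd m q Dc (s' / (C' * B)) 1 (by positivity)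
    zero_le_one hm
  refine ⟨E, m, D', R₀, max C₁ B', η, hm, hC₁.trans (le_max_left _ _), hη, ?_⟩
  intro P₀ P j Λ y μ l₀ hgap hdat hy hμ hμy hcov
  by_contra hcon
  choose Ψ Θ M t hC hA using hcov
  obtain ⟨J, hJdef⟩ : ∃ J : ℕ, J = Finset.univ.sup j := ⟨_, rfl⟩
  have hJ : ∀ i, j i ≤ J := fun i => by
    rw [hJdef]
    exact Finset.le_sup (Finset.mem_univ i)
  have h4J : ∀ i, (4 : ℝ) ^ j i * ((4 ^ (J - j i) : ℕ) : ℝ) = 4 ^ J := by
    intro i
    push_cast
    rw [← pow_add, Nat.add_sub_cancel' (hJ i)]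
  have h40 : (0 : ℝ) < 4 ^ J := by positivity
  have h4j : ∀ i, (4 : ℝ) ^ j i ≤ 4 ^ J := fun i => pow_le_pow_right₀ (by norm_num) (hJ i)
  have hBJ : (4 : ℝ) ^ J ≤ B * 4 ^ J := le_mul_of_one_le_left h40.le hB
  have hdat' : DatM nd Sg D c (fun s => if s = Fin.last q then q * κ else - κ) E C₁ η P₀ P j Λ y :=
    { hdat with h₀ := (le_max_left _ _).trans hdat.h₀ }
  -- the configuration
  obtain ⟨Ω, _, _, _, Y, y', η', T, hcfg, hind1, hind2, hne⟩ := exists_cfg' nd hC j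
  have hs1 : ∀ i, AlgebraicIndependent K fun k : Fin n => lf (nd.l k.succ) (y' i) := fun i =>
    hind1.comp (fun k : Fin n => Sum.inr (i, k)) (fun a b h => by
      have h1 := Sum.inr_injective h
      exact congrArg Prod.snd h1)
  have hden : ∀ i (t₁ t₂ : Ω), aeval (ot t₁ fun k : Fin n => lf (nd.l k.succ) (y' i)) (M i l₀) =
      aeval (ot t₂ fun k : Fin n => lf (nd.l k.succ) (y' i)) (M i l₀) := by
    intro i t₁ t₂
    obtain ⟨g, hg⟩ := ot_den (hC i).den
    rw [← hg, aeval_ot_rename, aeval_ot_rename]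
  have hden0 : ∀ i (t₁ : Ω), aeval (ot t₁ fun k : Fin n => lf (nd.l k.succ) (y' i)) (M i l₀) ≠ 0 := by
    intro i t₁ h0
    obtain ⟨g, hg⟩ := ot_den (hC i).den
    rw [← hg, aeval_ot_rename] at h0
    have h1 := (injective_iff_map_eq_zero _).1 (hs1 i) _ h0
    rw [h1, map_zero] at hg
    exact (hC i).den_ne hg.symm
  obtain ⟨I, hI, hforb⟩ := hW m (by omega) hm J j hJ Ω l₀
    (fun i => aeval (ot (T 0 i) fun k : Fin n => lf (nd.l k.succ) (y' i)) (M i l₀))
    (fun c i l => aeval (ot (T c i) fun k : Fin n => lf (nd.l k.succ) (y' i)) (M i l))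
    (fun i => hden0 i _) (fun c i => hden i _ _) hne
    ((1 / (2 * (q + 1)) + 1 / (8 * (q + 1))) * m * 4 ^ J) le_rfl
  obtain ⟨F, hF, hpath⟩ := hVm P₀ P j Λ y J I hdat' hJ hI
  have hbd' := hbd j (fun i => 4 ^ (J - j i)) l₀ M (B * 4 ^ J) I F hF
    (fun i => by
      rw [h4J i]
      exact hBJ)
    (fun i => (h4j i).trans hBJ) (fun i l y => (hC i).dM l y) (fun i l => (hA i).hM l)
  refine aux_ne nd Y η' (hcfg fun _ => 0).e_pt (hcfg fun _ => 0).e_lf hind2 F hF.ne hF.th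
    (hforb _ (fun w hw i => ?_) (fun w hw hwI => ?_) fun σ w hw => ?_)
  · obtain ⟨d, hd, h1⟩ := im_supp nd Y η' w (mem_support_iff.1 hw)
    rw [← hF.u d hd i]
    exact Finset.sum_congr rfl fun l _ => (h1 (i, l)).symm
  · obtain ⟨d, hd, h1⟩ := im_supp nd Y η' w (mem_support_iff.1 hw)
    refine hF.nI d hd ?_
    have h2 : (fun i l => d (VQ.u (i, l))) = fun i l => w (i, l) := by
      funext i l
      exact h1 (i, l)
    rw [h2]
    exact hwI
  · by_contra hne0
    have hval := covF_val nd l₀ M F Y y' η' (fun i => T (σ i) i) w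
    have hval0 : aeval (cvl nd Y y' η' fun i => T (σ i) i) (coeff w (covF l₀ M F)) ≠ 0 := by
      rw [hval]
      have h1 : (fun i => aeval (ot (T (σ i) i) fun k : Fin n => lf (nd.l k.succ) (y' i)) (M i l₀)) =
          fun i => aeval (ot (T 0 i) fun k : Fin n => lf (nd.l k.succ) (y' i)) (M i l₀) :=
        funext fun i => hden i _ _
      rw [h1]
      exact hne0
    obtain ⟨hQE, hv, hx, hS, -⟩ := hbd' w
    have hb' : ∀ i, (4 : ℝ) ^ j i ≤ C' * (B * 4 ^ J) := fun i =>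
      ((h4j i).trans hBJ).trans (le_mul_of_one_le_left (h40.le.trans hBJ) hC'1)
    rcases hZ P j l₀ Ψ Θ M (coeff w (covF l₀ M F)) (C' * (B * 4 ^ J)) hgap hdat.good hC
      (fun i => ⟨(hA i).hPsi, (hA i).hTh, (hA i).hM l₀⟩) hb'
      (QE_mono (mul_le_mul_of_nonneg_right hC'2 (h40.le.trans hBJ))
        (by
          rw [one_mul]
          exact mul_le_mul_of_nonneg_right hC'2 (h40.le.trans hBJ)) hQE) hv hx hS
      ⟨Ω, _, inferInstance, _, Y, y', η', _, hcfg σ, hind1, hval0⟩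
      with ⟨i, G, hG0, hGd, hGh, hGe⟩ | ⟨g, hg, hmain⟩
    · exact hcon ⟨i, G, hG0, hGd, hGh.trans (mul_le_mul_of_nonneg_right (le_max_right _ _)
        (by positivity)), hGe⟩
    · obtain ⟨L, _, _, _, Y₁, ζ, x₁, η₁, hP, hg0, hvan⟩ := hpath g hg
      obtain ⟨T₁, hcfg₁, hdiv⟩ := path_cov' nd l₀ hdat.good hC hA hP
      obtain ⟨a, ha, hane⟩ := hmain L Y₁ ζ x₁ η₁ T₁ hP hcfg₁ hg0
      have h1 : s' / (C' * B) * (C' * (B * 4 ^ J)) = s' * 4 ^ J := by
        rw [← mul_assoc C', ← mul_assoc, div_mul_cancel₀ _ (mul_pos hC'0 hB0).ne']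
      rw [h1] at ha
      have h4 : s' * 4 ^ J ≤ s * 4 ^ J := by
        refine mul_le_mul_of_nonneg_right ?_ h40.le
        rw [hs']
        exact min_le_left _ _
      have h5 : s' * 4 ^ J ≤ m / (8 * (q + 1)) * 4 ^ J := by
        refine mul_le_mul_of_nonneg_right ?_ h40.le
        rw [hs']
        exact min_le_right _ _
      have hq0 : (0 : ℝ) < q + 1 := by positivity
      apply hane
      rw [covF_val]
      refine index_move' j _ (fun i s l => algebraMap K L (y i s l)) (fun i => im_li (hy i))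
        (fun i l => algebraMap K L (μ i l)) l₀ (fun i => by rw [hμ, map_one])
        (fun i s hs => ?_) _ _ (fun i l => ?_) (s * 4 ^ J) (7 / 8 * (m / (q + 1)) * 4 ^ J)
        (fun a' w' ha' hw' => ?_) a w (by linarith) ?_
      · have h6 := congrArg (algebraMap K L) (hμy i s hs)
        rw [map_sum, map_zero] at h6
        rw [← h6]
        exact Finset.sum_congr rfl fun l _ => (map_mul _ _ _).symm
      · have h6 := hdiv i l
        have h7 := hdiv i l₀
        have h8 := (hA i).mu l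
        have h9 : aeval (ot (T₁ i) fun k : Fin n => lf (nd.l k.succ) (x₁ i)) (M i l) -
            aeval (ot (T₁ i) fun k : Fin n => lf (nd.l k.succ) (x₁ i)) (M i l₀) *
              PowerSeries.C (algebraMap K L (μ i l)) =
            (aeval (ot (T₁ i) fun k : Fin n => lf (nd.l k.succ) (x₁ i)) (M i l) -
              PowerSeries.C (algebraMap K L (aeval (ot (t i) (nd.s (P i))) (M i l)))) -
            (aeval (ot (T₁ i) fun k : Fin n => lf (nd.l k.succ) (x₁ i)) (M i l₀) -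
              PowerSeries.C (algebraMap K L (aeval (ot (t i) (nd.s (P i))) (M i l₀)))) *
              PowerSeries.C (algebraMap K L (μ i l)) := by
          rw [h8, map_mul, map_mul]
          ring
        rw [h9]
        exact dvd_sub h6 (Dvd.dvd.mul_right h7 _)
      · rw [im_vlN]
        by_contra hne1
        apply hne1
        refine hvan a' w' ha' ?_
        have hw1 : ∀ i, ∑ s, w' (i, s) = 4 ^ (J - j i) := by
          refine vlN_hom nd y Y₁ η₁ hF.u w' fun h0 => ?_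
          rw [h0] at hne1
          exact hne1 (map_zero _)
        rw [H_sig κ j (fun i => 4 ^ (J - j i)) (4 ^ J) w' h4J hw1]
        have h7 : (q + 1 : ℝ) * κ * ∑ i, (4 : ℝ) ^ j i * (w' (i, Fin.last q) : ℝ) ≤
            (q + 1) * κ * (7 / 8 * (m / (q + 1)) * 4 ^ J) :=
          mul_le_mul_of_nonneg_left hw'.le (by positivity)
        have h8 : (q + 1 : ℝ) * κ * (7 / 8 * (m / (q + 1)) * 4 ^ J) =
            7 / 8 * κ * m * 4 ^ J := by
          field_simp
        rw [h8] at h7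
        linarith
      · have h6 : (1 / (2 * (q + 1)) + 1 / (8 * (q + 1))) * m * 4 ^ J =
            5 / 8 * (m / (q + 1 : ℝ)) * 4 ^ J := by
          field_simp
          ring
        have h7 : m / (8 * (q + 1)) * 4 ^ J = 1 / 8 * (m / (q + 1 : ℝ)) * 4 ^ J := by
          field_simp
        rw [h6] at hw
        rw [h7] at h5
        have h8 : 0 < m / (q + 1 : ℝ) * 4 ^ J := by positivity
        linarith

end Pool.Agent.Lib.MP_17a322_nt.SL
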