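import Pool.Agent.Lib.MP_17a322_nt.SL.R1
import Pool.Agent.Lib.MP_17a322_nt.SL.R2

/-!
The forbidden monomials: combinatorics and linear algebra.
-/

universe u

namespace Pool.Agent.Lib.MP_17a322_nt.SL

open MvPolynomial Finset

/-- The mean of the minimum of two coordinates on the simplex is at most half the mean of a
coordinate. -/
theorem IW_min {κ : Type*} [Fintype κ] [DecidableEq κ] (d : ℕ) {a b : κ} (hab : a ≠ b) :
    2 * ∑ u ∈ piAntidiag (univ : Finset κ) d, min (u a) (u b) ≤
      ∑ u ∈ piAntidiag (univ : Finset κ) d, u a := by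
  have h1 : 2 * ∑ u ∈ piAntidiag (univ : Finset κ) d, min (u a) (u b) =
      (((piAntidiag (univ : Finset κ) d).sigma fun u => range (min (u a) (u b))) ×ˢ range 2).card := by
    rw [card_product, card_sigma, card_range, mul_comm]
    simp only [card_range]
  have h2 : ∑ u ∈ piAntidiag (univ : Finset κ) d, u a =
      ((piAntidiag (univ : Finset κ) d).sigma fun u => range (u a)).card := by
    rw [card_sigma]
    simp only [card_range]
  rw [h1, h2]
  refine card_le_card_of_injOn (fun x => ⟨Function.update (Function.update x.1.1 a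
    (x.1.1 a + (x.1.2 + 1))) b (x.1.1 b - (x.1.2 + 1)), 2 * x.1.2 + x.2⟩) ?_ ?_
  · rintro ⟨⟨u, s⟩, c⟩ hx
    rw [mem_coe, mem_product, mem_sigma, mem_range, mem_range] at hx
    obtain ⟨⟨hu, hs⟩, hc⟩ := hx
    simp only at hu hs hc ⊢
    rw [lt_min_iff] at hs
    rw [mem_coe, mem_sigma, mem_range]
    simp only
    constructor
    · rw [mem_piAntidiag] at hu ⊢
      refine ⟨?_, fun _ _ => mem_univ _⟩
      rw [← hu.1]
      have h3 : ∀ f : κ → ℕ, ∑ i, f i = f b + (f a + ∑ i ∈ (univ.erase b).erase a, f i) := by
        intro f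
        rw [add_sum_erase _ _ (mem_erase.2 ⟨hab, mem_univ _⟩), add_sum_erase _ _ (mem_univ b)]
      have h4 : ∑ i ∈ (univ.erase b).erase a, Function.update (Function.update u a
          (u a + (s + 1))) b (u b - (s + 1)) i = ∑ i ∈ (univ.erase b).erase a, u i :=
        sum_congr rfl fun i hi => by
          rw [Function.update_of_ne (mem_erase.1 (mem_erase.1 hi).2).1,
            Function.update_of_ne (mem_erase.1 hi).1]
      have h5 := h3 (Function.update (Function.update u a (u a + (s + 1))) b (u b - (s + 1)))
      have h6 := h3 u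
      rw [h4, Function.update_self, Function.update_of_ne hab, Function.update_self] at h5
      refine Eq.trans h5 (Eq.trans ?_ h6.symm)
      omega
    · rw [Function.update_of_ne hab, Function.update_self]
      omega
  · rintro ⟨⟨u, s⟩, c⟩ hx ⟨⟨u', s'⟩, c'⟩ hx' h
    rw [mem_coe, mem_product, mem_sigma, mem_range, mem_range] at hx hx'
    obtain ⟨⟨hu, hs⟩, hc⟩ := hx
    obtain ⟨⟨hu', hs'⟩, hc'⟩ := hx'
    simp only at hu hs hc hu' hs' hc'
    rw [lt_min_iff] at hs hs'
    simp only [Sigma.mk.injEq, heq_eq_eq] at h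
    obtain ⟨h3, h4⟩ := h
    have hss : s = s' := by omega
    have hcc : c = c' := by omega
    subst hss
    subst hcc
    have h5 : u = u' := by
      funext i
      have h6 := congrFun h3 i
      by_cases hb : i = b
      · rw [hb] at h6 ⊢
        rw [Function.update_self, Function.update_self] at h6
        omega
      · rw [Function.update_of_ne hb, Function.update_of_ne hb] at h6
        by_cases ha : i = a
        · rw [ha] at h6 ⊢
          rw [Function.update_self, Function.update_self] at h6
          omega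
        · rwa [Function.update_of_ne ha, Function.update_of_ne ha] at h6
    subst h5
    rfl

/-- The mean of the minimum. -/
theorem IW_mean {κ : Type*} [Fintype κ] [DecidableEq κ] (d : ℕ) {a b : κ} (hab : a ≠ b) :
    2 * (Fintype.card κ : ℝ) * ∑ u ∈ piAntidiag (univ : Finset κ) d, (min (u a) (u b) : ℝ) ≤
      d * #(piAntidiag (univ : Finset κ) d) := by
  rw [← M_mean d a]
  have h1 : (2 : ℝ) * ∑ u ∈ piAntidiag (univ : Finset κ) d, (min (u a) (u b) : ℝ) ≤
      ∑ u ∈ piAntidiag (univ : Finset κ) d, (u a : ℝ) := by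
    exact_mod_cast IW_min d hab
  have h2 := mul_le_mul_of_nonneg_left h1 (Nat.cast_nonneg (Fintype.card κ) : (0 : ℝ) ≤ _)
  linarith

/-- Interpolation: a space of functions of dimension `r` is determined by the values at `r` points. -/
theorem IW_points {Ω V β : Type*} [Field Ω] [AddCommGroup V] [Module Ω V] [FiniteDimensional Ω V]
    (f : β → Module.Dual Ω V) : ∃ I : Finset β, I.card ≤ Module.finrank Ω V ∧
      ∀ x : V, (∀ b ∈ I, f b x = 0) → ∀ b, f b x = 0 := by
  classical
  obtain ⟨κ, a, ha, hspan, hli⟩ := exists_linearIndependent' Ω f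
  have hfin : Finite κ := hli.finite
  have := Fintype.ofFinite κ
  refine ⟨univ.image a, ?_, fun x hx b => ?_⟩
  · refine card_image_le.trans ?_
    rw [card_univ]
    have h1 := hli.fintype_card_le_finrank
    rwa [Subspace.dual_finrank_eq] at h1
  · have h1 : f b ∈ Submodule.span Ω (Set.range (f ∘ a)) := by
      rw [hspan]
      exact Submodule.subset_span ⟨b, rfl⟩
    have h2 : Submodule.span Ω (Set.range (f ∘ a)) ≤
        LinearMap.ker (LinearMap.applyₗ x : Module.Dual Ω V →ₗ[Ω] Ω) := by
      rw [Submodule.span_le]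
      rintro _ ⟨k, rfl⟩
      exact hx (a k) (mem_image_of_mem a (mem_univ k))
    exact h2 h1

end Pool.Agent.Lib.MP_17a322_nt.SL
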