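import Pool.Agent.Lib.MP_17a322_nt.SL.IW1
import Pool.Agent.Lib.MP_17a322_nt.SL.IDefs

/-!
The forbidden monomials: `exists_forb`.
-/

universe u

namespace Pool.Agent.Lib.MP_17a322_nt.SL

open MvPolynomial
open Pool.Agent.Lib.MP_17a322_nt.VN hiding lf

section

variable {R : Type*} [CommRing R] {ι κ : Type*} [Fintype ι] [DecidableEq ι] [Fintype κ]
  [DecidableEq κ]

/-- The order along one linear form does not drop under linear substitutions. -/
theorem IW_low (l₀ : κ) (lσ : ι → κ) (B : ι → Matrix κ κ R) (hB : ∀ i k, B i l₀ k ≠ 0 → k = lσ i)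
    (G : MvPolynomial (ι × κ) R) (e : ι × κ →₀ ℕ) (he : coeff e (sbm B G) ≠ 0) :
    ∃ w ∈ G.support, ∀ i, w (i, l₀) ≤ e (i, lσ i) := by
  have h1 : sbm B G = ∑ w ∈ G.support, C (coeff w G) * ∏ p, (lfb p.1 (B p.1 p.2)) ^ w p := by
    unfold sbm
    rw [aeval_def, eval₂_eq']
    rfl
  rw [h1, coeff_sum] at he
  obtain ⟨w, hw, hne⟩ := Finset.exists_ne_zero_of_sum_ne_zero he
  refine ⟨w, hw, fun i => ?_⟩
  have h2 : lfb i (B i l₀) = C (B i l₀ (lσ i)) * X (i, lσ i) := by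
    unfold lfb
    refine Finset.sum_eq_single _ (fun k _ hk => ?_) fun h => absurd (Finset.mem_univ _) h
    by_contra h3
    refine hk (hB i k fun h4 => h3 ?_)
    rw [h4, C_0, zero_mul]
  rw [← Finset.mul_prod_erase _ _ (Finset.mem_univ (i, l₀))] at hne
  have h3 : (lfb (i, l₀).1 (B (i, l₀).1 (i, l₀).2)) ^ w (i, l₀) =
      C (B i l₀ (lσ i) ^ w (i, l₀)) * monomial (Finsupp.single (i, lσ i) (w (i, l₀))) 1 := by
    show (lfb i (B i l₀)) ^ w (i, l₀) = _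
    rw [h2, mul_pow, C_pow, X_pow_eq_monomial]
  rw [h3] at hne
  have h4 : C (coeff w G) * (C (B i l₀ (lσ i) ^ w (i, l₀)) *
      monomial (Finsupp.single (i, lσ i) (w (i, l₀))) 1 *
      ∏ p ∈ Finset.univ.erase (i, l₀), (lfb p.1 (B p.1 p.2)) ^ w p) =
      monomial (Finsupp.single (i, lσ i) (w (i, l₀))) 1 *
      (C (coeff w G) * C (B i l₀ (lσ i) ^ w (i, l₀)) *
        ∏ p ∈ Finset.univ.erase (i, l₀), (lfb p.1 (B p.1 p.2)) ^ w p) := by
    ring
  rw [h4, coeff_monomial_mul'] at hne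
  have h5 : Finsupp.single (i, lσ i) (w (i, l₀)) ≤ e := by
    by_contra h6
    rw [if_neg h6] at hne
    exact hne rfl
  have h6 := h5 (i, lσ i)
  rwa [Finsupp.single_eq_same] at h6

omit [DecidableEq κ] in
/-- The degree in a block does not change. -/
theorem IW_deg (B : ι → Matrix κ κ R) (G : MvPolynomial (ι × κ) R) (e : ι × κ →₀ ℕ)
    (he : coeff e (sbm B G) ≠ 0) : ∃ w ∈ G.support, ∀ i, ∑ l, w (i, l) = ∑ l, e (i, l) := by
  obtain ⟨w, hw, h⟩ := sbm_weight (fun p : ι × κ => (Pi.single p.1 1 : ι → ℕ)) B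
    (fun i l k _ => rfl) G e he
  have h1 : ∀ (w : ι × κ →₀ ℕ) (i : ι),
      Finsupp.weight (fun p : ι × κ => (Pi.single p.1 1 : ι → ℕ)) w i = ∑ l, w (i, l) := by
    intro w i
    rw [Finsupp.weight_apply, Finsupp.sum_fintype _ _ (fun p => by rw [zero_smul]),
      Finset.sum_apply, Fintype.sum_prod_type, Finset.sum_eq_single i]
    · refine Finset.sum_congr rfl fun l _ => ?_
      rw [Pi.smul_apply, Pi.single_eq_same, smul_eq_mul, mul_one]
    · intro i' _ hi'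
      refine Finset.sum_eq_zero fun l _ => ?_
      rw [Pi.smul_apply, Pi.single_eq_of_ne (Ne.symm hi'), smul_zero]
    · intro h
      exact absurd (Finset.mem_univ _) h
  exact ⟨w, hw, fun i => by rw [← h1, ← h1, h]⟩

end

section

variable {Ω : Type*} [Field Ω] {q : ℕ}

/-- The matrix of `hsb`. -/
def IW_H (l₀ : Fin (q + 1)) (d : Ω) (ν : Fin (q + 1) → Ω) : Matrix (Fin (q + 1)) (Fin (q + 1)) Ω :=
  fun l k => if l = l₀ then (if k = l₀ then d else - ν k) else if k = l then d else 0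

/-- Its inverse. -/
def IW_U (l₀ : Fin (q + 1)) (d : Ω) (ν : Fin (q + 1) → Ω) : Matrix (Fin (q + 1)) (Fin (q + 1)) Ω :=
  fun l k => if l = l₀ then d⁻¹ * d⁻¹ * ν k else if k = l then d⁻¹ else 0

theorem IW_HU (l₀ : Fin (q + 1)) {d : Ω} {ν : Fin (q + 1) → Ω} (hd : d ≠ 0) (hν : ν l₀ = d) :
    IW_H l₀ d ν * IW_U l₀ d ν = 1 := by
  ext l k
  rw [Matrix.mul_apply, Matrix.one_apply]
  by_cases hl : l = l₀
  · subst hl
    rw [← Finset.add_sum_erase _ _ (Finset.mem_univ l)]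
    have h1 : ∀ l' ∈ Finset.univ.erase l, IW_H l d ν l l' * IW_U l d ν l' k =
        if l' = k then - (ν k * d⁻¹) else 0 := by
      intro l' hl'
      unfold IW_H IW_U
      have h2 := (Finset.mem_erase.1 hl').1
      rw [if_pos rfl, if_neg h2, if_neg h2]
      by_cases h3 : k = l'
      · rw [if_pos h3, if_pos h3.symm, h3]
        ring
      · rw [if_neg h3, if_neg (Ne.symm h3), mul_zero]
    rw [Finset.sum_congr rfl h1, Finset.sum_ite_eq']
    unfold IW_H IW_U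
    rw [if_pos rfl, if_pos rfl, if_pos rfl]
    by_cases hk : l = k
    · subst hk
      rw [if_neg (by simp), if_pos rfl, hν]
      field_simp
      ring
    · rw [if_pos (Finset.mem_erase.2 ⟨Ne.symm hk, Finset.mem_univ k⟩), if_neg hk]
      field_simp
      ring
  · rw [Finset.sum_eq_single l]
    · unfold IW_H IW_U
      rw [if_neg hl, if_neg hl, if_pos rfl]
      by_cases hk : k = l
      · rw [if_pos hk, if_pos hk.symm, mul_inv_cancel₀ hd]
      · rw [if_neg hk, if_neg (Ne.symm hk), mul_zero]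
    · intro l' _ hl'
      unfold IW_H
      rw [if_neg hl, if_neg hl', zero_mul]
    · intro h
      exact absurd (Finset.mem_univ _) h

theorem IW_hsb {m : ℕ} (l₀ : Fin (q + 1)) (d : Fin m → Ω) (ν : Fin m → Fin (q + 1) → Ω)
    (F : MvPolynomial (Fin m × Fin (q + 1)) Ω) :
    aeval (hsb l₀ d ν) F = sbm (fun i => IW_H l₀ (d i) (ν i)) F := by
  unfold sbm
  refine congrArg (fun f => aeval f F) (funext fun p => ?_)
  show hsb l₀ d ν p = ∑ k, C (IW_H l₀ (d p.1) (ν p.1) p.2 k) * X (p.1, k)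
  unfold hsb
  by_cases h : p.2 = l₀
  · have e1 : ∀ k, IW_H l₀ (d p.1) (ν p.1) p.2 k = if k = l₀ then d p.1 else - ν p.1 k := by
      intro k
      unfold IW_H
      rw [if_pos h]
    rw [if_pos h, ← Finset.add_sum_erase _ _ (Finset.mem_univ l₀), e1, if_pos rfl,
      sub_eq_add_neg, ← Finset.sum_neg_distrib]
    congr 1
    · rw [← h]
    · refine Finset.sum_congr rfl fun l hl => ?_
      rw [e1, if_neg (Finset.mem_erase.1 hl).1, C_neg, neg_mul]
  · have e1 : ∀ k, IW_H l₀ (d p.1) (ν p.1) p.2 k = if k = p.2 then d p.1 else 0 := by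
      intro k
      unfold IW_H
      rw [if_neg h]
    rw [if_neg h, Finset.sum_eq_single p.2]
    · rw [e1, if_pos rfl]
    · intro k _ hk
      rw [e1, if_neg hk, C_0, zero_mul]
    · intro h
      exact absurd (Finset.mem_univ _) h

/-- The coordinates `ν 0`, `ν 1` and the other `u l`. -/
def IW_T (l₀ l₁ : Fin (q + 1)) (ν ν' : Fin (q + 1) → Ω) :
    Matrix (Fin (q + 1)) (Fin (q + 1)) Ω :=
  fun l => if l = l₀ then ν else if l = l₁ then ν' else Pi.single l 1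

theorem IW_T_det {l₀ l₁ : Fin (q + 1)} {d : Ω} {ν ν' : Fin (q + 1) → Ω} (hd : d ≠ 0)
    (hν : ν l₀ = d) (hν' : ν' l₀ = d) (h1 : ν l₁ ≠ ν' l₁) : (IW_T l₀ l₁ ν ν').det ≠ 0 := by
  have hl : l₁ ≠ l₀ := by
    rintro rfl
    exact h1 (hν.trans hν'.symm)
  intro h0
  obtain ⟨u, hu0, hu⟩ := Matrix.exists_mulVec_eq_zero_iff.2 h0
  have h2 : ∀ l, l ≠ l₀ → l ≠ l₁ → u l = 0 := by
    intro l hl0 hl1
    have h3 := congrFun hu l
    have h4 : (IW_T l₀ l₁ ν ν').mulVec u l = ∑ k, (Pi.single l 1 : Fin (q + 1) → Ω) k * u k := by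
      show ∑ k, IW_T l₀ l₁ ν ν' l k * u k = _
      unfold IW_T
      rw [if_neg hl0, if_neg hl1]
    rw [h4, Finset.sum_eq_single l, Pi.single_eq_same, one_mul] at h3
    · exact h3
    · intro k _ hk
      rw [Pi.single_eq_of_ne hk, zero_mul]
    · intro h
      exact absurd (Finset.mem_univ _) h
  have h3 : ∀ μ : Fin (q + 1) → Ω, ∑ k, μ k * u k = μ l₀ * u l₀ + μ l₁ * u l₁ := by
    intro μ
    rw [← Finset.add_sum_erase _ _ (Finset.mem_univ l₀),
      ← Finset.add_sum_erase _ _ (Finset.mem_erase.2 ⟨hl, Finset.mem_univ l₁⟩),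
      Finset.sum_eq_zero, add_zero]
    intro k hk
    rw [Finset.mem_erase, Finset.mem_erase] at hk
    rw [h2 k hk.2.1 hk.1, mul_zero]
  have h4 : ν l₀ * u l₀ + ν l₁ * u l₁ = 0 := by
    rw [← h3]
    have h5 := congrFun hu l₀
    have h6 : (IW_T l₀ l₁ ν ν').mulVec u l₀ = ∑ k, ν k * u k := by
      show ∑ k, IW_T l₀ l₁ ν ν' l₀ k * u k = _
      unfold IW_T
      rw [if_pos rfl]
    rw [h6] at h5
    exact h5
  have h5 : ν' l₀ * u l₀ + ν' l₁ * u l₁ = 0 := by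
    rw [← h3]
    have h5 := congrFun hu l₁
    have h6 : (IW_T l₀ l₁ ν ν').mulVec u l₁ = ∑ k, ν' k * u k := by
      show ∑ k, IW_T l₀ l₁ ν ν' l₁ k * u k = _
      unfold IW_T
      rw [if_neg hl, if_pos rfl]
    rw [h6] at h5
    exact h5
  have h6 : (ν l₁ - ν' l₁) * u l₁ = 0 := by
    rw [hν] at h4
    rw [hν'] at h5
    linear_combination h4 - h5
  have h7 : u l₁ = 0 := (mul_eq_zero.1 h6).resolve_left (sub_ne_zero.2 h1)
  rw [h7, mul_zero, add_zero, hν] at h4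
  have h8 : u l₀ = 0 := (mul_eq_zero.1 h4).resolve_left hd
  refine hu0 (funext fun l => ?_)
  by_cases g1 : l = l₀
  · rw [g1]
    exact h8
  · by_cases g2 : l = l₁
    · rw [g2]
      exact h7
    · exact h2 l g1 g2

/-- The monomials of a polynomial in the coordinates `ν 0`, `ν 1`, ... -/
theorem IW_key {m : ℕ} (l₀ : Fin (q + 1)) (l₁ : Fin m → Fin (q + 1)) (d : Fin m → Ω)
    (ν : Fin 2 → Fin m → Fin (q + 1) → Ω) (hd : ∀ i, d i ≠ 0) (hν : ∀ c i, ν c i l₀ = d i)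
    (h1 : ∀ i, ν 0 i (l₁ i) ≠ ν 1 i (l₁ i)) (F : MvPolynomial (Fin m × Fin (q + 1)) Ω)
    (e : Fin m × Fin (q + 1) →₀ ℕ)
    (he : coeff e (sbm (fun i => (IW_T l₀ (l₁ i) (ν 0 i) (ν 1 i))⁻¹) F) ≠ 0)
    (σ : Fin m → Fin 2) : ∃ w, coeff w (aeval (hsb l₀ d fun i => ν (σ i) i) F) ≠ 0 ∧
      ∀ i, w (i, l₀) ≤ e (i, if σ i = 0 then l₀ else l₁ i) := by
  have hl : ∀ i, l₁ i ≠ l₀ := by
    intro i h
    refine h1 i ?_
    rw [h, hν, hν]
  have hT : ∀ i, IsUnit (IW_T l₀ (l₁ i) (ν 0 i) (ν 1 i)).det := fun i =>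
    isUnit_iff_ne_zero.2 (IW_T_det (hd i) (hν 0 i) (hν 1 i) (h1 i))
  have h2 : sbm (fun i => (IW_T l₀ (l₁ i) (ν 0 i) (ν 1 i))⁻¹) F =
      sbm (fun i => IW_U l₀ (d i) (ν (σ i) i) * (IW_T l₀ (l₁ i) (ν 0 i) (ν 1 i))⁻¹)
        (sbm (fun i => IW_H l₀ (d i) (ν (σ i) i)) F) := by
    rw [sbm_sbm]
    congr 1
    funext i
    rw [← Matrix.mul_assoc, IW_HU l₀ (hd i) (hν _ i), Matrix.one_mul]
  rw [h2] at he
  obtain ⟨w, hw, hwe⟩ := IW_low l₀ (fun i => if σ i = 0 then l₀ else l₁ i) _ (fun i k hk => by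
    by_contra hne
    apply hk
    rw [Matrix.mul_apply]
    have h3 : ∀ l, IW_U l₀ (d i) (ν (σ i) i) l₀ l * (IW_T l₀ (l₁ i) (ν 0 i) (ν 1 i))⁻¹ l k =
        (d i)⁻¹ * (d i)⁻¹ * (IW_T l₀ (l₁ i) (ν 0 i) (ν 1 i) (if σ i = 0 then l₀ else l₁ i) l *
          (IW_T l₀ (l₁ i) (ν 0 i) (ν 1 i))⁻¹ l k) := by
      intro l
      have h4 : IW_T l₀ (l₁ i) (ν 0 i) (ν 1 i) (if σ i = 0 then l₀ else l₁ i) = ν (σ i) i := by
        unfold IW_T
        by_cases h5 : σ i = 0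
        · rw [if_pos h5, if_pos rfl, h5]
        · have h6 : σ i = 1 := by omega
          rw [if_neg h5, if_neg (hl i), if_pos rfl, h6]
      rw [h4]
      unfold IW_U
      rw [if_pos rfl]
      ring
    rw [Finset.sum_congr rfl fun l _ => h3 l, ← Finset.mul_sum, ← Matrix.mul_apply,
      Matrix.mul_nonsing_inv _ (hT i), Matrix.one_apply_ne (Ne.symm hne), mul_zero]) _ e he
  refine ⟨w, ?_, hwe⟩
  rw [IW_hsb]
  exact mem_support_iff.1 hw

end

end Pool.Agent.Lib.MP_17a322_nt.SL
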