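import Pool.Agent.Lib.MP_17a322_nt.SL.IDefs
import Pool.Agent.Lib.MP_17a322_nt.VA.E24
import Pool.Agent.Lib.MP_17a322_nt.VA.N1

/-!
The zero estimate for the covers: the relations.
-/

universe u

namespace Pool.Agent.Lib.MP_17a322_nt.SL

open MvPolynomial
open Pool.Agent.Lib.MP_17a322_nt.RO
open Pool.Agent.Lib.MP_17a322_nt.VJ
open Pool.Agent.Lib.MP_17a322_nt.VN hiding lf
open Pool.Agent.Lib.MP_17a322_nt.VA

/-- The variables of the point `Q`. -/
def pD {m n : ℕ} : Option (Fin n) → VE m (n + 1)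
  | none => VE.q
  | some t => VE.x t.castSucc

section

variable {K : Type u} [Field K] {N : ℕ} {B : AV K N} {n e : ℕ} (nd : Noe B n e)

/-- A bound for the degrees of the polynomials `nd.p c`. -/
noncomputable def izg : ℕ := ∑ c, (nd.p c).natDegree

theorem le_izg (c : Fin (N + 1)) : (nd.p c).natDegree ≤ izg nd :=
  Finset.single_le_sum (f := fun c => (nd.p c).natDegree) (fun _ _ => Nat.zero_le _)
    (Finset.mem_univ c)

/-- The coordinates as polynomials in `Θ`, `D` (primitive element `Θ / D`). -/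
noncomputable def izX (Θ D : MvPolynomial (Option (Fin n)) K) (c : Fin (N + 1)) :
    MvPolynomial (Option (Fin n)) K :=
  ∑ k ∈ Finset.range (izg nd + 1), rename some ((nd.p c).coeff k) * Θ ^ k * D ^ (izg nd - k)

theorem izX_val (Θ D : MvPolynomial (Option (Fin n)) K) (c : Fin (N + 1)) {R : Type u}
    [CommRing R] [Algebra K R] (σ : Option (Fin n) → R) (θv : R)
    (h : aeval σ Θ = aeval σ D * θv) :
    aeval σ (izX nd Θ D c) =
      aeval σ D ^ izg nd * aeval (ot θv fun t => σ (some t)) (nd.pv c) := by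
  have h1 : aeval (ot θv fun t => σ (some t)) (nd.pv c) =
      ∑ k ∈ Finset.range (izg nd + 1), aeval (fun t => σ (some t)) ((nd.p c).coeff k) * θv ^ k := by
    show aeval (ot θv fun t => σ (some t)) (unp (nd.p c)) = _
    rw [aeval_unp, Polynomial.eval₂_eq_sum_range' _ (Nat.lt_succ_of_le (le_izg nd c))]
    rfl
  rw [h1, izX, map_sum, Finset.mul_sum]
  refine Finset.sum_congr rfl fun k hk => ?_
  have hk' : k ≤ izg nd := Nat.lt_succ_iff.1 (Finset.mem_range.1 hk)
  rw [map_mul, map_mul, map_pow, map_pow, h, aeval_rename]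
  have h2 : aeval (σ ∘ some) ((nd.p c).coeff k) = aeval (fun t => σ (some t)) ((nd.p c).coeff k) :=
    rfl
  rw [h2, mul_pow]
  have h3 : aeval σ D ^ izg nd = aeval σ D ^ k * aeval σ D ^ (izg nd - k) := by
    rw [← pow_add, Nat.add_sub_cancel' hk']
  rw [h3]
  ring

variable {m : ℕ} (j : Fin m → ℕ) (Θ D : Fin m → MvPolynomial (Option (Fin n)) K)

/-- Vectors proportional to `η i`. -/
noncomputable def izU (i : Fin m) (c : Fin (N + 1)) : MvPolynomial (VE m (n + 1)) K :=
  ∑ a, C (nd.l 0 a) * B.col a (fun c => rename (pC i) (izX nd (Θ i) (D i) c))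
    (B.mu (j i) fun c => rename pD (nd.pv c)) c

/-- The linear forms at these vectors. -/
noncomputable def izb (i : Fin m) (o : Option (Fin n)) : MvPolynomial (VE m (n + 1)) K :=
  lf (nd.lo o) (izU nd j Θ D i)

theorem izU_val {R : Type u} [CommRing R] [Algebra K R] (τ : VE m (n + 1) → R) (i : Fin m)
    (c : Fin (N + 1)) : aeval τ (izU nd j Θ D i c) = ∑ a, algebraMap K R (nd.l 0 a) *
      B.col a (fun c => aeval (fun o => τ (pC i o)) (izX nd (Θ i) (D i) c))
        (B.mu (j i) fun c => aeval (fun o => τ (pD o)) (nd.pv c)) c := by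
  rw [izU, map_sum]
  refine Finset.sum_congr rfl fun a _ => ?_
  rw [map_mul, aeval_C, AV.map_colE]
  have h1 : (fun c => aeval τ (rename (pC i) (izX nd (Θ i) (D i) c))) =
      fun c => aeval (fun o => τ (pC i o)) (izX nd (Θ i) (D i) c) := by
    funext c
    rw [aeval_rename]
    rfl
  have h2 : (fun c => aeval τ (B.mu (j i) (fun c => rename pD (nd.pv c)) c)) =
      B.mu (j i) fun c => aeval (fun o => τ (pD o)) (nd.pv c) := by
    funext c
    rw [AV.map_mu]
    congr 1
    funext c'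
    rw [aeval_rename]
    rfl
  rw [h1, h2]

theorem izU_val' {R : Type u} [CommRing R] [Algebra K R] (τ : VE m (n + 1) → R) (i : Fin m)
    (θv : R) (h : aeval (fun o => τ (pC i o)) (Θ i) = aeval (fun o => τ (pC i o)) (D i) * θv)
    (c : Fin (N + 1)) : aeval τ (izU nd j Θ D i c) =
      (aeval (fun o => τ (pC i o)) (D i) ^ izg nd) ^ 2 * ∑ a, algebraMap K R (nd.l 0 a) *
      B.col a (fun c => aeval (ot θv fun t => τ (pC i (some t))) (nd.pv c))
        (B.mu (j i) fun c => aeval (fun o => τ (pD o)) (nd.pv c)) c := by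
  have h0 := fun c => izX_val nd (Θ i) (D i) c (fun o => τ (pC i o)) θv h
  rw [izU_val, Finset.mul_sum]
  refine Finset.sum_congr rfl fun a _ => ?_
  have h1 := funext h0
  obtain ⟨W, hW⟩ : ∃ W, W = fun c => aeval (ot θv fun t => τ (pC i (some t))) (nd.pv c) := ⟨_, rfl⟩
  obtain ⟨M, hM⟩ : ∃ M, M = B.mu (j i) fun c => aeval (fun o => τ (pD o)) (nd.pv c) := ⟨_, rfl⟩
  obtain ⟨δ, hδ⟩ : ∃ δ, δ = aeval (fun o => τ (pC i o)) (D i) ^ izg nd := ⟨_, rfl⟩
  have h2 := AV.col_smulE (A := B) a c δ 1 W M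
  simp only [one_mul, one_pow, mul_one] at h2
  rw [h1, ← hW, ← hM, ← hδ, ← mul_left_comm, ← h2, hW]

/-- The values in terms of the elimination data of `nd`. -/
theorem izb_val {R : Type u} [CommRing R] [Algebra K R] (τ : VE m (n + 1) → R) (i : Fin m)
    (θv : R) (h : aeval (fun o => τ (pC i o)) (Θ i) = aeval (fun o => τ (pC i o)) (D i) * θv)
    (o : Option (Fin n)) : aeval τ (izb nd j Θ D i o) =
      (aeval (fun o => τ (pC i o)) (D i) ^ izg nd) ^ 2 *
        aeval (Sum.elim (fun o => τ (pD o)) (ot θv fun t => τ (pC i (some t))))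
          (nd.ed.b (j i) o) := by
  rw [izb, ← lf_mapE]
  have h1 : (fun c => aeval τ (izU nd j Θ D i c)) = fun c =>
      (aeval (fun o => τ (pC i o)) (D i) ^ izg nd) ^ 2 * ∑ a, algebraMap K R (nd.l 0 a) *
      B.col a (fun c => aeval (ot θv fun t => τ (pC i (some t))) (nd.pv c))
        (B.mu (j i) fun c => aeval (fun o => τ (pD o)) (nd.pv c)) c :=
    funext fun c => izU_val' nd j Θ D τ i θv h c
  rw [h1, lf_smulE, nd.aeval_b]
  congr 1
  unfold lf
  simp only [Finset.mul_sum]
  rw [Finset.sum_comm]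
  refine Finset.sum_congr rfl fun a _ => Finset.sum_congr rfl fun c _ => ?_
  ring

/-- The relation of the last coordinate of `η i`. -/
noncomputable def izl (i : Fin m) : MvPolynomial (VE m (n + 1)) K :=
  izb nd j Θ D i none ^ nd.θ.totalDegree * X (VE.z (i, Fin.last n)) -
    aeval (izU nd j Θ D i) (hz (nd.l 0) nd.θ)

/-- The relations. -/
noncomputable def izα (Ψ : Fin m → MvPolynomial (Option (Fin n)) K) :
    VE m (n + 1) → MvPolynomial (VE m (n + 1)) K
  | VE.q => rename pD nd.ed.f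
  | VE.w i => rename (pC i) (Ψ i)
  | VE.z p => Fin.lastCases (motive := fun _ => MvPolynomial (VE m (n + 1)) K)
      (izl nd j Θ D p.1)
      (fun t : Fin n => izb nd j Θ D p.1 none * X (VE.z (p.1, t.castSucc)) -
        izb nd j Θ D p.1 (some t)) p.2
  | _ => 0

theorem izα_z (Ψ : Fin m → MvPolynomial (Option (Fin n)) K) (i : Fin m) (t : Fin n) :
    izα nd j Θ D Ψ (VE.z (i, t.castSucc)) =
      izb nd j Θ D i none * X (VE.z (i, t.castSucc)) - izb nd j Θ D i (some t) := by
  show Fin.lastCases (motive := fun _ => MvPolynomial (VE m (n + 1)) K) _ _ t.castSucc = _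
  rw [Fin.lastCases_castSucc]

theorem izα_l (Ψ : Fin m → MvPolynomial (Option (Fin n)) K) (i : Fin m) :
    izα nd j Θ D Ψ (VE.z (i, Fin.last n)) = izl nd j Θ D i := by
  show Fin.lastCases (motive := fun _ => MvPolynomial (VE m (n + 1)) K) _ _ (Fin.last n) = _
  rw [Fin.lastCases_last]

end

end Pool.Agent.Lib.MP_17a322_nt.SL
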