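import Pool.Agent.Lib.MP_17a322_nt.SL.IZ1
import Pool.Agent.Lib.MP_17a322_nt.VA.E23
import Pool.Agent.Lib.MP_17a322_nt.VA.E03

/-!
The zero estimate for the covers: degrees of the relations.
-/

universe u

namespace Pool.Agent.Lib.MP_17a322_nt.SL

open MvPolynomial
open Pool.Agent.Lib.MP_17a322_nt.RO
open Pool.Agent.Lib.MP_17a322_nt.VJ
open Pool.Agent.Lib.MP_17a322_nt.VN hiding lf
open Pool.Agent.Lib.MP_17a322_nt.VA

/-- The bound `a` for the variables of `y i` and of the cover, `b` for the variables of `Y`. -/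
def izd {m n : ℕ} (i : Fin m) (a b : ℕ) : VE m (n + 1) → ℕ
  | VE.x t => if t = Fin.last n then 0 else b
  | VE.q => b
  | VE.S p => if p.1 = i ∧ p.2 ≠ Fin.last n then a else 0
  | VE.w i' => if i' = i then a else 0
  | _ => 0

theorem izd_pC {m n : ℕ} (i : Fin m) (a b : ℕ) (o : Option (Fin n)) :
    izd i a b (pC i o) = a := by
  cases o with
  | none => exact if_pos rfl
  | some t => exact if_pos ⟨rfl, (Fin.castSucc_lt_last t).ne⟩

theorem izd_pD {m n : ℕ} (i : Fin m) (a b : ℕ) (o : Option (Fin n)) :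
    izd i a b (pD o) = b := by
  cases o with
  | none => rfl
  | some t => exact if_neg (Fin.castSucc_lt_last t).ne

theorem izd_add {m n : ℕ} (i : Fin m) (a b a' b' : ℕ) (y : VE m (n + 1)) :
    izd i a b y + izd i a' b' y = izd i (a + a') (b + b') y := by
  cases y with
  | x t =>
    show (if _ then _ else _) + (if _ then _ else _) = if _ then _ else _
    split_ifs <;> rfl
  | q => rfl
  | S p =>
    show (if _ then _ else _) + (if _ then _ else _) = if _ then _ else _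
    split_ifs <;> rfl
  | w i' =>
    show (if _ then _ else _) + (if _ then _ else _) = if _ then _ else _
    split_ifs <;> rfl
  | z p => rfl
  | v p => rfl

theorem izd_mul {m n : ℕ} (i : Fin m) (c a b : ℕ) (y : VE m (n + 1)) :
    c * izd i a b y = izd i (c * a) (c * b) y := by
  cases y with
  | x t =>
    show c * (if _ then _ else _) = if _ then _ else _
    split_ifs <;> rfl
  | q => rfl
  | S p =>
    show c * (if _ then _ else _) = if _ then _ else _
    split_ifs <;> rfl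
  | w i' =>
    show c * (if _ then _ else _) = if _ then _ else _
    split_ifs <;> rfl
  | z p => rfl
  | v p => rfl

theorem izd_mono {m n : ℕ} (i : Fin m) {a b a' b' : ℕ} (ha : a ≤ a') (hb : b ≤ b')
    (y : VE m (n + 1)) : izd i a b y ≤ izd i a' b' y := by
  cases y with
  | x t =>
    show (if _ then _ else _) ≤ if _ then _ else _
    split_ifs
    · exact le_rfl
    · exact hb
  | q => exact hb
  | S p =>
    show (if _ then _ else _) ≤ if _ then _ else _
    split_ifs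
    · exact ha
    · exact le_rfl
  | w i' =>
    show (if _ then _ else _) ≤ if _ then _ else _
    split_ifs
    · exact ha
    · exact le_rfl
  | z p => exact le_rfl
  | v p => exact le_rfl

theorem izd_wt {m n : ℕ} (j : Fin m → ℕ) (i : Fin m) (a : ℕ) (y : VE m (n + 1)) :
    wt j y * (izd i a (4 ^ j i * a) y : ℝ) ≤ a * 4 ^ j i := by
  have h0 : (0 : ℝ) ≤ a * 4 ^ j i := by positivity
  cases y with
  | x t =>
    show (1 : ℝ) * ((if t = Fin.last n then 0 else 4 ^ j i * a : ℕ) : ℝ) ≤ _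
    split_ifs
    · rw [Nat.cast_zero, mul_zero]
      exact h0
    · push_cast
      exact le_of_eq (by ring)
  | q =>
    show (1 : ℝ) * ((4 ^ j i * a : ℕ) : ℝ) ≤ _
    push_cast
    exact le_of_eq (by ring)
  | S p =>
    show (4 : ℝ) ^ j p.1 * ((if p.1 = i ∧ p.2 ≠ Fin.last n then a else 0 : ℕ) : ℝ) ≤ _
    split_ifs with h
    · rw [h.1]
      exact le_of_eq (by ring)
    · rw [Nat.cast_zero, mul_zero]
      exact h0
  | w i' =>
    show (4 : ℝ) ^ j i' * ((if i' = i then a else 0 : ℕ) : ℝ) ≤ _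
    split_ifs with h
    · rw [h]
      exact le_of_eq (by ring)
    · rw [Nat.cast_zero, mul_zero]
      exact h0
  | z p =>
    show _ * ((0 : ℕ) : ℝ) ≤ _
    rw [Nat.cast_zero, mul_zero]
    exact h0
  | v p =>
    show _ * ((0 : ℕ) : ℝ) ≤ _
    rw [Nat.cast_zero, mul_zero]
    exact h0

theorem pC_injective {m n : ℕ} (i : Fin m) :
    Function.Injective (pC i : Option (Fin n) → VE m (n + 1)) := by
  intro a b h
  rcases a with _ | a <;> rcases b with _ | b
  · rfl
  · cases h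
  · cases h
  · have h1 : (VE.S (i, a.castSucc) : VE m (n + 1)) = VE.S (i, b.castSucc) := h
    rw [Fin.castSucc_injective n (Prod.mk.inj (VE.S.inj h1)).2]

theorem pD_injective {m n : ℕ} :
    Function.Injective (pD : Option (Fin n) → VE m (n + 1)) := by
  intro a b h
  rcases a with _ | a <;> rcases b with _ | b
  · rfl
  · cases h
  · cases h
  · have h1 : (VE.x a.castSucc : VE m (n + 1)) = VE.x b.castSucc := h
    rw [Fin.castSucc_injective n (VE.x.inj h1)]

theorem iz_deg0 {R σ τ : Type*} [CommRing R] (f : σ → τ) (p : MvPolynomial σ R) (y : τ)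
    (h : ∀ o, y ≠ f o) : (rename f p).degreeOf y = 0 := by
  classical
  rw [← Nat.le_zero, degreeOf_le_iff]
  intro u hu
  by_contra h0'
  have h0 : u y ≠ 0 := fun h => h0' h.le
  have h1 : y ∈ (rename f p).vars :=
    (mem_vars_iff_mem_support y).2 ⟨u, hu, Finsupp.mem_support_iff.2 h0⟩
  obtain ⟨o, -, ho⟩ := Finset.mem_image.1 (vars_rename f p h1)
  exact h o ho.symm

theorem iz_degC {R : Type*} [CommRing R] {m n : ℕ} (i : Fin m) (p : MvPolynomial (Option (Fin n)) R)
    {a : ℕ} (h : ∀ o, p.degreeOf o ≤ a) (y : VE m (n + 1)) :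
    (rename (pC i) p).degreeOf y ≤ izd i a 0 y := by
  by_cases hy : ∃ o, y = pC i o
  · obtain ⟨o, rfl⟩ := hy
    rw [izd_pC, degreeOf_rename_of_injective (pC_injective i)]
    exact h o
  · rw [iz_deg0 _ _ _ fun o ho => hy ⟨o, ho⟩]
    exact Nat.zero_le _

theorem iz_degD {R : Type*} [CommRing R] {m n : ℕ} (i : Fin m) (p : MvPolynomial (Option (Fin n)) R)
    {b : ℕ} (h : ∀ o, p.degreeOf o ≤ b) (y : VE m (n + 1)) :
    (rename (pD : Option (Fin n) → VE m (n + 1)) p).degreeOf y ≤ izd i 0 b y := by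
  by_cases hy : ∃ o, y = pD o
  · obtain ⟨o, rfl⟩ := hy
    rw [izd_pD, degreeOf_rename_of_injective pD_injective]
    exact h o
  · rw [iz_deg0 _ _ _ fun o ho => hy ⟨o, ho⟩]
    exact Nat.zero_le _

/-! ## Degrees of forms -/

theorem iz_S {K : Type u} [Field K] {N : ℕ} (A : AV K N) (a b : Fin (N + 1)) {τ : Type*}
    (u w : Fin (N + 1) → MvPolynomial τ K) (y : τ) {Du Dw : ℕ}
    (hu : ∀ i, (u i).degreeOf y ≤ Du) (hw : ∀ i, (w i).degreeOf y ≤ Dw) :
    (aeval (Sum.elim u w) (A.S a b)).degreeOf y ≤ 2 * Du + 2 * Dw := by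
  refine degreeOf_aeval_le _ _ y _ fun m hm => ?_
  obtain ⟨h1, h2⟩ := A.bihomog a b m hm
  rw [Finsupp.sum_fintype m (fun s k => k * (Sum.elim u w s).degreeOf y)
    (fun s => Nat.zero_mul _), Fintype.sum_sum_type]
  simp only [Sum.elim_inl, Sum.elim_inr]
  refine Nat.add_le_add ?_ ?_
  · refine (Finset.sum_le_sum fun i _ => Nat.mul_le_mul_left (m (Sum.inl i)) (hu i)).trans ?_
    rw [← Finset.sum_mul, h1]
  · refine (Finset.sum_le_sum fun i _ => Nat.mul_le_mul_left (m (Sum.inr i)) (hw i)).trans ?_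
    rw [← Finset.sum_mul, h2]

theorem iz_mu {K : Type u} [Field K] {N : ℕ} (A : AV K N) {τ : Type*}
    (w : Fin (N + 1) → MvPolynomial τ K) (y : τ) {D : ℕ} (hw : ∀ i, (w i).degreeOf y ≤ D) (j : ℕ)
    (a : Fin (N + 1)) : (A.mu j w a).degreeOf y ≤ 4 ^ j * D := by
  induction j generalizing a with
  | zero =>
    rw [pow_zero, one_mul]
    exact hw a
  | succ j ih =>
    rw [A.mu_succ]
    refine (iz_S A a A.b₀ _ _ y ih ih).trans ?_
    rw [pow_succ]
    exact le_of_eq (by ring)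

theorem iz_lf {K : Type u} [Field K] {N : ℕ} {τ : Type*} (l : Fin (N + 1) → K)
    (w : Fin (N + 1) → MvPolynomial τ K) (y : τ) {D : ℕ} (hw : ∀ i, (w i).degreeOf y ≤ D) :
    (lf l w).degreeOf y ≤ D := by
  unfold lf
  refine (degreeOf_sum_le y _ _).trans (Finset.sup_le fun a _ => ?_)
  rw [MvPolynomial.algebraMap_eq]
  exact (degreeOf_C_mul_le _ _ _).trans (hw a)

theorem iz_lin {R σ : Type*} [CommRing R] [Nontrivial R] [DecidableEq σ] (y : σ)
    (b c : MvPolynomial σ R) (hb : b.degreeOf y = 0) (hc : c.degreeOf y = 0) (hb0 : b ≠ 0) :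
    (b * X y - c).degreeOf y = 1 ∧ lcv y (b * X y - c) = b := by
  have h1 : vw y (b * X y - c) = Polynomial.C b * Polynomial.X - Polynomial.C c := by
    rw [vw_eq_hom, map_sub, map_mul, ← vw_eq_hom, ← vw_eq_hom, ← vw_eq_hom, vw_X_self,
      vw_of_degreeOf_eq_zero _ hb, vw_of_degreeOf_eq_zero _ hc]
  have h2 : (vw y (b * X y - c)).natDegree = 1 := by
    rw [h1, sub_eq_add_neg, ← Polynomial.C_neg]
    exact Polynomial.natDegree_linear hb0
  have h3 : (b * X y - c).degreeOf y = 1 := by rw [← natDegree_vw, h2]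
  refine ⟨h3, ?_⟩
  rw [lcv, h3, h1, Polynomial.coeff_sub, Polynomial.coeff_C_mul,
    Polynomial.coeff_X_one, mul_one, Polynomial.coeff_C_succ, sub_zero]

section

variable {K : Type u} [Field K] {N : ℕ} {B : AV K N} {n e : ℕ} (nd : Noe B n e)

/-- A bound for the degrees of the polynomials `izX`. -/
noncomputable def izcX (Dc : ℕ) : ℕ :=
  (∑ c, ∑ k ∈ Finset.range (izg nd + 1), ∑ o, (rename some ((nd.p c).coeff k)).degreeOf o) +
    izg nd * Dc + izg nd * Dc

theorem izX_deg {Θ D : MvPolynomial (Option (Fin n)) K} {Dc : ℕ} (hΘ : ∀ o, Θ.degreeOf o ≤ Dc)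
    (hD : ∀ o, D.degreeOf o ≤ Dc) (c : Fin (N + 1)) (o : Option (Fin n)) :
    (izX nd Θ D c).degreeOf o ≤ izcX nd Dc := by
  unfold izX
  refine (degreeOf_sum_le o _ _).trans (Finset.sup_le fun k hk => ?_)
  have hk' : k ≤ izg nd := Nat.lt_succ_iff.1 (Finset.mem_range.1 hk)
  refine (degreeOf_mul_le o _ _).trans (Nat.add_le_add ((degreeOf_mul_le o _ _).trans
    (Nat.add_le_add ?_ ?_)) ?_)
  · refine le_trans ?_ (Finset.single_le_sum (f := fun c => ∑ k ∈ Finset.range (izg nd + 1),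
      ∑ o, (rename some ((nd.p c).coeff k)).degreeOf o) (fun _ _ => Nat.zero_le _)
      (Finset.mem_univ c))
    refine le_trans ?_ (Finset.single_le_sum (f := fun k => ∑ o,
      (rename some ((nd.p c).coeff k)).degreeOf o) (fun _ _ => Nat.zero_le _) hk)
    exact Finset.single_le_sum (f := fun o => (rename some ((nd.p c).coeff k)).degreeOf o)
      (fun _ _ => Nat.zero_le _) (Finset.mem_univ o)
  · exact (degreeOf_pow_le o _ _).trans (Nat.mul_le_mul hk' (hΘ o))
  · exact (degreeOf_pow_le o _ _).trans (Nat.mul_le_mul (Nat.sub_le _ _) (hD o))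

/-- A bound for the degrees of the polynomials `nd.pv c` and of the equation. -/
noncomputable def izcP : ℕ := (∑ c, ∑ o, (nd.pv c).degreeOf o) + ∑ o, nd.ed.f.degreeOf o

theorem pv_deg (c : Fin (N + 1)) (o : Option (Fin n)) : (nd.pv c).degreeOf o ≤ izcP nd := by
  refine le_trans ?_ (Nat.le_add_right _ _)
  refine le_trans ?_ (Finset.single_le_sum (f := fun c => ∑ o, (nd.pv c).degreeOf o)
    (fun _ _ => Nat.zero_le _) (Finset.mem_univ c))
  exact Finset.single_le_sum (f := fun o => (nd.pv c).degreeOf o)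
    (fun _ _ => Nat.zero_le _) (Finset.mem_univ o)

theorem f_deg (o : Option (Fin n)) : nd.ed.f.degreeOf o ≤ izcP nd := by
  refine le_trans ?_ (Nat.le_add_left _ _)
  exact Finset.single_le_sum (f := fun o => nd.ed.f.degreeOf o)
    (fun _ _ => Nat.zero_le _) (Finset.mem_univ o)

variable {m : ℕ} (j : Fin m → ℕ) (Θ D : Fin m → MvPolynomial (Option (Fin n)) K)

/-- A bound for the degrees of the relations. -/
noncomputable def izA (Dc : ℕ) : ℕ :=
  (nd.θ.totalDegree + 1) * (2 * izcX nd Dc + 2 * izcP nd)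

variable {Θ D} {Dc : ℕ}

theorem izU_deg (i : Fin m) (hΘ : ∀ o, (Θ i).degreeOf o ≤ Dc) (hD : ∀ o, (D i).degreeOf o ≤ Dc)
    (c : Fin (N + 1)) (y : VE m (n + 1)) : (izU nd j Θ D i c).degreeOf y ≤
      izd i (2 * izcX nd Dc + 2 * izcP nd) (4 ^ j i * (2 * izcX nd Dc + 2 * izcP nd)) y := by
  unfold izU
  refine (degreeOf_sum_le y _ _).trans (Finset.sup_le fun a _ => ?_)
  refine (degreeOf_C_mul_le _ _ _).trans ?_
  refine (iz_S B a c _ _ y (Du := izd i (izcX nd Dc) 0 y)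
    (Dw := 4 ^ j i * izd i 0 (izcP nd) y) (fun c' => ?_) fun c' => ?_).trans ?_
  · exact iz_degC i _ (izX_deg nd hΘ hD c') y
  · exact iz_mu B _ y (fun c'' => iz_degD i _ (pv_deg nd c'') y) (j i) c'
  · rw [izd_mul, izd_mul, izd_mul, izd_add]
    refine izd_mono i ?_ ?_ y
    · rw [mul_zero, mul_zero, add_zero]
      exact Nat.le_add_right _ _
    · rw [mul_zero, zero_add]
      have h1 : 4 ^ j i * (2 * izcX nd Dc + 2 * izcP nd) =
        2 * (4 ^ j i * izcP nd) + 4 ^ j i * (2 * izcX nd Dc) := by ring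
      rw [h1]
      exact Nat.le_add_right _ _

theorem izb_deg (i : Fin m) (hΘ : ∀ o, (Θ i).degreeOf o ≤ Dc) (hD : ∀ o, (D i).degreeOf o ≤ Dc)
    (o : Option (Fin n)) (y : VE m (n + 1)) : (izb nd j Θ D i o).degreeOf y ≤
      izd i (2 * izcX nd Dc + 2 * izcP nd) (4 ^ j i * (2 * izcX nd Dc + 2 * izcP nd)) y :=
  iz_lf _ _ y fun c => izU_deg nd j i hΘ hD c y

theorem izb_deg' (i : Fin m) (hΘ : ∀ o, (Θ i).degreeOf o ≤ Dc) (hD : ∀ o, (D i).degreeOf o ≤ Dc)
    (o : Option (Fin n)) (y : VE m (n + 1)) : (izb nd j Θ D i o).degreeOf y ≤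
      izd i (izA nd Dc) (4 ^ j i * izA nd Dc) y := by
  have h0 : 2 * izcX nd Dc + 2 * izcP nd ≤ izA nd Dc :=
    Nat.le_mul_of_pos_left _ (Nat.succ_pos _)
  exact (izb_deg nd j i hΘ hD o y).trans (izd_mono i h0 (Nat.mul_le_mul_left _ h0) y)

/-- The two terms of the last relation. -/
theorem izl_deg1 (i : Fin m) (hΘ : ∀ o, (Θ i).degreeOf o ≤ Dc) (hD : ∀ o, (D i).degreeOf o ≤ Dc)
    (y : VE m (n + 1)) : (izb nd j Θ D i none ^ nd.θ.totalDegree).degreeOf y ≤
      izd i (izA nd Dc) (4 ^ j i * izA nd Dc) y := by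
  refine (degreeOf_pow_le y _ _).trans ((Nat.mul_le_mul_left _ (izb_deg nd j i hΘ hD none y)).trans
    ?_)
  rw [izd_mul]
  have h0 : nd.θ.totalDegree * (2 * izcX nd Dc + 2 * izcP nd) ≤ izA nd Dc :=
    Nat.mul_le_mul_right _ (Nat.le_succ _)
  refine izd_mono i h0 ?_ y
  rw [mul_left_comm]
  exact Nat.mul_le_mul_left _ h0

theorem izl_deg2 (i : Fin m) (hΘ : ∀ o, (Θ i).degreeOf o ≤ Dc) (hD : ∀ o, (D i).degreeOf o ≤ Dc)
    (y : VE m (n + 1)) : (aeval (izU nd j Θ D i) (hz (nd.l 0) nd.θ)).degreeOf y ≤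
      izd i (izA nd Dc) (4 ^ j i * izA nd Dc) y := by
  unfold hz
  rw [map_sum]
  refine (degreeOf_sum_le y _ _).trans (Finset.sup_le fun d hd => ?_)
  have hd' : d ≤ nd.θ.totalDegree := Nat.lt_succ_iff.1 (Finset.mem_range.1 hd)
  have hU := fun c => izU_deg nd j i hΘ hD c y
  have h0 : nd.θ.totalDegree * (2 * izcX nd Dc + 2 * izcP nd) ≤ izA nd Dc :=
    Nat.mul_le_mul_right _ (Nat.le_succ _)
  refine le_trans (b := (nd.θ.totalDegree - d) * izd i (2 * izcX nd Dc + 2 * izcP nd)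
    (4 ^ j i * (2 * izcX nd Dc + 2 * izcP nd)) y + d * izd i (2 * izcX nd Dc + 2 * izcP nd)
    (4 ^ j i * (2 * izcX nd Dc + 2 * izcP nd)) y) ?_ ?_
  · rw [map_mul, map_pow, aeval_lp]
    refine (degreeOf_mul_le y _ _).trans (Nat.add_le_add ?_ ?_)
    · exact (degreeOf_pow_le y _ _).trans (Nat.mul_le_mul_left _ (iz_lf _ _ y hU))
    · refine degreeOf_aeval_le _ _ y _ fun u hu => ?_
      have h1 : ∑ c, u c = d := by
        have h2 := (homogeneousComponent_isHomogeneous (R := K) d nd.θ) (mem_support_iff.1 hu)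
        rw [Finsupp.weight_apply, Finsupp.sum_fintype u
          (fun i c => c • (1 : Fin (N + 1) → ℕ) i) (fun _ => zero_smul _ _)] at h2
        refine Eq.trans (Finset.sum_congr rfl fun c _ => ?_) h2
        rw [Pi.one_apply, smul_eq_mul, mul_one]
      rw [Finsupp.sum_fintype u (fun s k => k * (izU nd j Θ D i s).degreeOf y)
        (fun s => Nat.zero_mul _), ← h1, Finset.sum_mul]
      exact Finset.sum_le_sum fun c _ => Nat.mul_le_mul_left _ (hU c)
  · rw [← add_mul, Nat.sub_add_cancel hd', izd_mul]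
    refine izd_mono i h0 ?_ y
    rw [mul_left_comm]
    exact Nat.mul_le_mul_left _ h0

/-- The two terms of the relation of the coordinate `k` of `η i`. -/
noncomputable def izR (j : Fin m → ℕ) (Θ D : Fin m → MvPolynomial (Option (Fin n)) K)
    (p : Fin m × Fin (n + 1)) : MvPolynomial (VE m (n + 1)) K × MvPolynomial (VE m (n + 1)) K :=
  Fin.lastCases (motive := fun _ => MvPolynomial (VE m (n + 1)) K × MvPolynomial (VE m (n + 1)) K)
    (izb nd j Θ D p.1 none ^ nd.θ.totalDegree, aeval (izU nd j Θ D p.1) (hz (nd.l 0) nd.θ))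
    (fun t : Fin n => (izb nd j Θ D p.1 none, izb nd j Θ D p.1 (some t))) p.2

theorem izα_eq (Ψ : Fin m → MvPolynomial (Option (Fin n)) K) (p : Fin m × Fin (n + 1)) :
    izα nd j Θ D Ψ (VE.z p) = (izR nd j Θ D p).1 * X (VE.z p) - (izR nd j Θ D p).2 := by
  obtain ⟨i, k⟩ := p
  induction k using Fin.lastCases with
  | last =>
    rw [izα_l]
    unfold izR
    rw [Fin.lastCases_last]
    rfl
  | cast t =>
    rw [izα_z]
    unfold izR
    rw [Fin.lastCases_castSucc]

theorem izR_deg (hΘ : ∀ i o, (Θ i).degreeOf o ≤ Dc) (hD : ∀ i o, (D i).degreeOf o ≤ Dc)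
    (p : Fin m × Fin (n + 1)) (y : VE m (n + 1)) :
    (izR nd j Θ D p).1.degreeOf y ≤ izd p.1 (izA nd Dc) (4 ^ j p.1 * izA nd Dc) y ∧
      (izR nd j Θ D p).2.degreeOf y ≤ izd p.1 (izA nd Dc) (4 ^ j p.1 * izA nd Dc) y := by
  obtain ⟨i, k⟩ := p
  unfold izR
  induction k using Fin.lastCases with
  | last =>
    rw [Fin.lastCases_last]
    exact ⟨izl_deg1 nd j i (hΘ i) (hD i) y, izl_deg2 nd j i (hΘ i) (hD i) y⟩
  | cast t =>
    rw [Fin.lastCases_castSucc]
    exact ⟨izb_deg' nd j i (hΘ i) (hD i) _ y, izb_deg' nd j i (hΘ i) (hD i) _ y⟩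

/-- The relation of `z p` does not contain the other variables `z`. -/
theorem izα_lin (Ψ : Fin m → MvPolynomial (Option (Fin n)) K) (hΘ : ∀ i o, (Θ i).degreeOf o ≤ Dc)
    (hD : ∀ i o, (D i).degreeOf o ≤ Dc) (p : Fin m × Fin (n + 1)) (hb : (izR nd j Θ D p).1 ≠ 0) :
    (izα nd j Θ D Ψ (VE.z p)).degreeOf (VE.z p) = 1 ∧
      lcv (VE.z p) (izα nd j Θ D Ψ (VE.z p)) = (izR nd j Θ D p).1 := by
  rw [izα_eq]
  obtain ⟨h1, h2⟩ := izR_deg nd j hΘ hD p (VE.z p)
  exact iz_lin _ _ _ (Nat.le_zero.1 h1) (Nat.le_zero.1 h2) hb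

theorem izα_deg (Ψ : Fin m → MvPolynomial (Option (Fin n)) K) (hΘ : ∀ i o, (Θ i).degreeOf o ≤ Dc)
    (hD : ∀ i o, (D i).degreeOf o ≤ Dc) (p : Fin m × Fin (n + 1)) (y : VE m (n + 1))
    (hy : y ≠ VE.z p) : (izα nd j Θ D Ψ (VE.z p)).degreeOf y ≤
      izd p.1 (izA nd Dc) (4 ^ j p.1 * izA nd Dc) y := by
  rw [izα_eq]
  obtain ⟨h1, h2⟩ := izR_deg nd j hΘ hD p y
  refine (degreeOf_sub_le y _ _).trans (max_le ?_ h2)
  refine (degreeOf_mul_le y _ _).trans ?_
  rw [degreeOf_X_of_ne hy, add_zero]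
  exact h1

end

end Pool.Agent.Lib.MP_17a322_nt.SL
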