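import Pool.Agent.Lib.MP_17a322_nt.SL.IZ2

/-!
The zero estimate for the covers: heights of the relations.
-/

universe u

namespace Pool.Agent.Lib.MP_17a322_nt.SL

open MvPolynomial Height
open Pool.Agent.Lib.MP_17a322_nt.RO
open Pool.Agent.Lib.MP_17a322_nt.VJ
open Pool.Agent.Lib.MP_17a322_nt.VN hiding lf
open Pool.Agent.Lib.MP_17a322_nt.VA

theorem iz_NS {K : Type u} [Field K] {N : ℕ} (A : AV K N) (a b : Fin (N + 1)) {τ : Type*}
    (v : AbsoluteValue K ℝ) (y w : Fin (N + 1) → MvPolynomial τ K) {U W : ℝ} (hU : 0 ≤ U)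
    (hW : 0 ≤ W) (hy : ∀ i, NV v (y i) ≤ U) (hw : ∀ i, NV v (w i) ≤ W) :
    NV v (aeval (Sum.elim y w) (A.S a b)) ≤ NV v (A.S a b) * (U ^ 2 * W ^ 2) := by
  have h : SN v (fun F : MvPolynomial τ K => NV v F) := SN_NV v
  have hP : 0 ≤ U ^ 2 * W ^ 2 := by positivity
  have hterm : ∀ m ∈ (A.S a b).support,
      NV v (algebraMap K (MvPolynomial τ K) (coeff m (A.S a b)) *
        ∏ t, Sum.elim y w t ^ m t) ≤ v (coeff m (A.S a b)) * (U ^ 2 * W ^ 2) := by
    intro m hm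
    obtain ⟨h1, h2⟩ := A.bihomog a b m hm
    refine (h.mul _ _).trans ?_
    refine mul_le_mul (h.map _) ?_ (h.nonneg _) (v.nonneg _)
    refine (h.prod_le _ _).trans ?_
    rw [Fintype.prod_sum_type]
    simp only [Sum.elim_inl, Sum.elim_inr]
    refine mul_le_mul ?_ ?_ (Finset.prod_nonneg fun t _ => h.nonneg _) (by positivity)
    · rw [← h1, ← Finset.prod_pow_eq_pow_sum]
      exact Finset.prod_le_prod (fun t _ => h.nonneg _) fun t _ =>
        (h.pow_le _ _).trans (pow_le_pow_left₀ (h.nonneg _) (hy t) _)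
    · rw [← h2, ← Finset.prod_pow_eq_pow_sum]
      exact Finset.prod_le_prod (fun t _ => h.nonneg _) fun t _ =>
        (h.pow_le _ _).trans (pow_le_pow_left₀ (h.nonneg _) (hw t) _)
  rw [aeval_def, eval₂_eq']
  by_cases hv : IsNonarchimedean v
  · refine SN.sum_le_max hv h _ _ (mul_nonneg ((v.nonneg _).trans (coeff_le_NV v _ 0)) hP)
      fun m hm => ?_
    exact (hterm m hm).trans (mul_le_mul_of_nonneg_right (coeff_le_NV v _ m) hP)
  · refine (h.sum_le_sum _ _).trans ?_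
    refine (Finset.sum_le_sum hterm).trans (le_of_eq ?_)
    rw [← Finset.sum_mul, A2_ar hv (A.S a b)]

theorem iz_SC_poly {K : Type u} [Field K] {ι σ : Type*} [Finite ι]
    (F : ι → MvPolynomial σ K) : ∃ E : SC K, ∀ (v : AbsoluteValue K ℝ) i, NV v (F i) ≤ E.k v := by
  obtain ⟨n, S, k, hn, h⟩ := Adm.family (K := K) (fun (i : ι) (L : Type u) [Field L] [Algebra K L]
    (v : AbsoluteValue L ℝ) => Max.max 1 (NV v (MvPolynomial.map (algebraMap K L) (F i))))
    (fun i => Adm_NV (F i))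
  refine ⟨scOf n S k, fun v i => ?_⟩
  have h1 := (le_max_right 1 _).trans ((h i K v).trans (le_scOf hn S k v))
  rw [Algebra.algebraMap_self, MvPolynomial.map_id] at h1
  exact h1

theorem iz_SC_abv {K : Type u} [Field K] {ι : Type*} [Finite ι]
    (c : ι → K) : ∃ E : SC K, ∀ (v : AbsoluteValue K ℝ) i, v (c i) ≤ E.k v := by
  obtain ⟨n, S, k, hn, h⟩ := Adm.family (K := K) (fun (i : ι) (L : Type u) [Field L] [Algebra K L]
    (v : AbsoluteValue L ℝ) => Max.max 1 (v (algebraMap K L (c i)))) (fun i => Adm_abv (c i))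
  refine ⟨scOf n S k, fun v i => ?_⟩
  have h1 := (le_max_right 1 _).trans ((h i K v).trans (le_scOf hn S k v))
  rw [Algebra.algebraMap_self_apply] at h1
  exact h1

theorem iz_SC_cst {K : Type u} [Field K] (n : ℕ) :
    ∃ E : SC K, ∀ (v : AbsoluteValue K ℝ), cst v n ≤ E.k v := by
  obtain ⟨E, hE⟩ := Adm.exists_SC (Adm_cst.{u, u} (K := K) n)
  exact ⟨E, fun v => hE K v⟩

/-- The fixed sizes. -/
structure IzB {K : Type u} [Field K] {N : ℕ} {B : AV K N} {n e : ℕ} (nd : Noe B n e)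
    (v : AbsoluteValue K ℝ) (b : ℝ) : Prop where
  S : ∀ a c, NV v (B.S a c) ≤ b
  pv : ∀ c, NV v (nd.pv c) ≤ b
  l : ∀ k a, v (nd.l k a) ≤ b
  cN : cst v (N + 1) ≤ b
  c2 : cst v 2 ≤ b
  cg : cst v (izg nd + 1) ≤ b
  cf : ∀ c, ∀ k ≤ izg nd, NV v (rename (some : Fin n → Option (Fin n)) ((nd.p c).coeff k)) ≤ b
  hz : NV v (hz (nd.l 0) nd.θ) ≤ b

theorem exists_IzB {K : Type u} [Field K] {N : ℕ} {B : AV K N} {n e : ℕ} (nd : Noe B n e) :
    ∃ E : SC K, ∀ v : AbsoluteValue K ℝ, IzB nd v (E.k v) := by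
  obtain ⟨E1, h1⟩ := iz_SC_poly (K := K) fun p : Fin (N + 1) × Fin (N + 1) => B.S p.1 p.2
  obtain ⟨E2, h2⟩ := iz_SC_poly (K := K) fun i : Fin (N + 1) => nd.pv i
  obtain ⟨E3, h3⟩ := iz_SC_abv (K := K) fun p : Fin (n + 1) × Fin (N + 1) => nd.l p.1 p.2
  obtain ⟨E4, h4⟩ := iz_SC_cst (K := K) (N + 1)
  obtain ⟨E5, h5⟩ := iz_SC_cst (K := K) 2
  obtain ⟨E6, h6⟩ := iz_SC_cst (K := K) (izg nd + 1)
  obtain ⟨E7, h7⟩ := iz_SC_poly (K := K) fun p : Fin (N + 1) × Fin (izg nd + 1) =>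
    rename (some : Fin n → Option (Fin n)) ((nd.p p.1).coeff (p.2 : ℕ))
  obtain ⟨E8, h8⟩ := iz_SC_poly (K := K) fun _ : Unit => hz (nd.l 0) nd.θ
  refine ⟨(E1.mul E2).mul ((E3.mul E4).mul ((E5.mul E6).mul (E7.mul E8))), fun v => ?_⟩
  have g12 := SC.le_mul_left (E1.mul E2) ((E3.mul E4).mul ((E5.mul E6).mul (E7.mul E8))) v
  have g38 := SC.le_mul_right (E1.mul E2) ((E3.mul E4).mul ((E5.mul E6).mul (E7.mul E8))) v
  have g34 := SC.le_mul_left (E3.mul E4) ((E5.mul E6).mul (E7.mul E8)) v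
  have g58 := SC.le_mul_right (E3.mul E4) ((E5.mul E6).mul (E7.mul E8)) v
  have g56 := SC.le_mul_left (E5.mul E6) (E7.mul E8) v
  have g78 := SC.le_mul_right (E5.mul E6) (E7.mul E8) v
  refine ⟨fun a c => ?_, fun c => ?_, fun k a => ?_, ?_, ?_, ?_, fun c k hk => ?_, ?_⟩
  · exact (h1 v (a, c)).trans ((E1.le_mul_left E2 v).trans g12)
  · exact (h2 v c).trans ((E1.le_mul_right E2 v).trans g12)
  · exact (h3 v (k, a)).trans ((E3.le_mul_left E4 v).trans (g34.trans g38))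
  · exact (h4 v).trans ((E3.le_mul_right E4 v).trans (g34.trans g38))
  · exact (h5 v).trans ((E5.le_mul_left E6 v).trans (g56.trans (g58.trans g38)))
  · exact (h6 v).trans ((E5.le_mul_right E6 v).trans (g56.trans (g58.trans g38)))
  · exact (h7 v (c, ⟨k, Nat.lt_succ_of_le hk⟩)).trans
      ((E7.le_mul_left E8 v).trans (g78.trans (g58.trans g38)))
  · exact (h8 v ()).trans ((E7.le_mul_right E8 v).trans (g78.trans (g58.trans g38)))

theorem iz_Nmu {K : Type u} [Field K] {N : ℕ} (A : AV K N) {τ : Type*}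
    (v : AbsoluteValue K ℝ) {B : ℝ} (hB : 1 ≤ B) (hS : ∀ a b, NV v (A.S a b) ≤ B)
    (w : Fin (N + 1) → MvPolynomial τ K) (hw : ∀ i, NV v (w i) ≤ B) (j : ℕ) (a : Fin (N + 1)) :
    NV v (A.mu j w a) ≤ B ^ (2 * 4 ^ j - 1) := by
  induction j generalizing a with
  | zero =>
    rw [pow_zero, mul_one, pow_one]
    exact hw a
  | succ j ih =>
    have hB0 : 0 ≤ B := zero_le_one.trans hB
    rw [A.mu_succ]
    refine (iz_NS A a A.b₀ v _ _ (pow_nonneg hB0 _) (pow_nonneg hB0 _) ih ih).trans ?_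
    refine (mul_le_mul_of_nonneg_right (hS _ _) (by positivity)).trans ?_
    rw [← pow_mul, ← pow_add, ← pow_succ']
    refine pow_le_pow_right₀ hB ?_
    have h1 : 1 ≤ 4 ^ j := Nat.one_le_pow _ _ (by norm_num)
    rw [pow_succ]
    omega

theorem iz_Nlf {K : Type u} [Field K] {N : ℕ} {τ : Type*} (v : AbsoluteValue K ℝ)
    {B X : ℝ} (hB : 1 ≤ B) (hX : 0 ≤ X) (hc : cst v (N + 1) ≤ B) (l : Fin (N + 1) → K)
    (hl : ∀ a, v (l a) ≤ B) (w : Fin (N + 1) → MvPolynomial τ K) (hw : ∀ i, NV v (w i) ≤ X) :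
    NV v (∑ a, C (l a) * w a) ≤ B ^ 2 * X := by
  have h : SN v (fun F : MvPolynomial τ K => NV v F) := SN_NV v
  have hB0 : 0 ≤ B := zero_le_one.trans hB
  have h1 := h.sum_le Finset.univ (fun a => C (l a) * w a) (B := B * X) (mul_nonneg hB0 hX)
    (fun a _ => by
      show NV v (C (l a) * w a) ≤ B * X
      rw [NV_C_mul]
      exact mul_le_mul (hl a) (hw a) (h.nonneg _) hB0)
  rw [Finset.card_univ, Fintype.card_fin] at h1
  refine h1.trans ?_
  rw [pow_two, mul_assoc]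
  exact mul_le_mul_of_nonneg_right hc (mul_nonneg hB0 hX)

theorem iz_Nsub {K : Type*} [Field K] {τ : Type*} (v : AbsoluteValue K ℝ)
    (F G : MvPolynomial τ K) {X : ℝ} (hF : NV v F ≤ X) (hG : NV v G ≤ X) :
    NV v (F - G) ≤ cst v 2 * X := by
  have h : SN v (fun F : MvPolynomial τ K => NV v F) := SN_NV v
  have h1 : NV v (-G) = NV v G := h.neg G
  rw [sub_eq_add_neg]
  unfold cst
  by_cases hv : IsNonarchimedean v
  · rw [if_pos hv, one_mul]
    refine (h.add_max hv F (-G)).trans (max_le hF ?_)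
    exact h1.le.trans hG
  · rw [if_neg hv]
    refine (h.add F (-G)).trans ?_
    show NV v F + NV v (-G) ≤ _
    rw [h1]
    push_cast
    linarith

section

variable {K : Type u} [Field K] {N : ℕ} {B : AV K N} {n e : ℕ} (nd : Noe B n e)
  {m : ℕ} (j : Fin m → ℕ) (Θ D : Fin m → MvPolynomial (Option (Fin n)) K)

theorem izX_NV (v : AbsoluteValue K ℝ) {b : ℝ} (hb1 : 1 ≤ b) (hb : IzB nd v b)
    (T D : MvPolynomial (Option (Fin n)) K) (c : Fin (N + 1)) :
    NV v (izX nd T D c) ≤ b ^ 2 * (max 1 (NV v T) * max 1 (NV v D)) ^ izg nd := by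
  have h : SN v (fun F : MvPolynomial (Option (Fin n)) K => NV v F) := SN_NV v
  have hb0 : 0 ≤ b := zero_le_one.trans hb1
  have hT : (1 : ℝ) ≤ max 1 (NV v T) := le_max_left _ _
  have hD : (1 : ℝ) ≤ max 1 (NV v D) := le_max_left _ _
  have hT0 : (0 : ℝ) ≤ max 1 (NV v T) := zero_le_one.trans hT
  have hD0 : (0 : ℝ) ≤ max 1 (NV v D) := zero_le_one.trans hD
  have h1 := h.sum_le (Finset.range (izg nd + 1))
    (fun k => rename some ((nd.p c).coeff k) * T ^ k * D ^ (izg nd - k))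
    (B := b * (max 1 (NV v T) * max 1 (NV v D)) ^ izg nd) (by positivity) (fun k hk => by
      have hk' : k ≤ izg nd := Nat.lt_succ_iff.1 (Finset.mem_range.1 hk)
      show NV v (rename some ((nd.p c).coeff k) * T ^ k * D ^ (izg nd - k)) ≤ _
      refine (h.mul _ _).trans ?_
      rw [mul_pow, ← mul_assoc]
      refine mul_le_mul ((h.mul _ _).trans (mul_le_mul (hb.cf c k hk') ?_ (h.nonneg _) hb0)) ?_
        (h.nonneg _) (by positivity)
      · refine (h.pow_le _ _).trans ((pow_le_pow_left₀ (h.nonneg _) (le_max_right 1 _) _).trans ?_)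
        exact pow_le_pow_right₀ hT hk'
      · refine (h.pow_le _ _).trans ((pow_le_pow_left₀ (h.nonneg _) (le_max_right 1 _) _).trans ?_)
        exact pow_le_pow_right₀ hD (Nat.sub_le _ _))
  rw [Finset.card_range] at h1
  refine le_trans h1 ((mul_le_mul_of_nonneg_right hb.cg (by positivity)).trans (le_of_eq ?_))
  ring

theorem izU_NV (v : AbsoluteValue K ℝ) {b G : ℝ} (hb1 : 1 ≤ b) (hb : IzB nd v b) (hG : 1 ≤ G)
    (i : Fin m) (hX : ∀ c, NV v (izX nd (Θ i) (D i) c) ≤ b ^ 2 * G) (c : Fin (N + 1)) :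
    NV v (izU nd j Θ D i c) ≤ b ^ (9 * 4 ^ j i) * G ^ 2 := by
  have hb0 : 0 ≤ b := zero_le_one.trans hb1
  have hG0 : 0 ≤ G := zero_le_one.trans hG
  have hcol : ∀ a, NV v (B.col a (fun c => rename (pC i) (izX nd (Θ i) (D i) c))
      (B.mu (j i) fun c => rename pD (nd.pv c)) c : MvPolynomial (VE m (n + 1)) K) ≤
        b ^ (4 * 4 ^ j i + 3) * G ^ 2 := by
    intro a
    refine (iz_NS B a c v _ _ (U := b ^ 2 * G) (W := b ^ (2 * 4 ^ j i - 1)) (by positivity)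
      (pow_nonneg hb0 _) (fun c' => ?_) fun c' => ?_).trans ?_
    · rw [NV_rename v _ _ (pC_injective i)]
      exact hX c'
    · refine iz_Nmu B v hb1 hb.S _ (fun c'' => ?_) (j i) c'
      rw [NV_rename v _ _ pD_injective]
      exact hb.pv c''
    · refine (mul_le_mul_of_nonneg_right (hb.S _ _) (by positivity)).trans (le_of_eq ?_)
      have h1 : 1 ≤ 4 ^ j i := Nat.one_le_pow _ _ (by norm_num)
      obtain ⟨r, hr⟩ : ∃ r, 2 * 4 ^ j i - 1 = r := ⟨_, rfl⟩
      have h2 : 4 * 4 ^ j i + 3 = 2 * r + 5 := by omega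
      rw [hr, h2]
      ring
  unfold izU
  refine (iz_Nlf v hb1 (by positivity) hb.cN (nd.l 0) (hb.l 0) _ hcol).trans ?_
  rw [← mul_assoc, ← pow_add]
  refine mul_le_mul_of_nonneg_right (pow_le_pow_right₀ hb1 ?_) (by positivity)
  have h1 : 1 ≤ 4 ^ j i := Nat.one_le_pow _ _ (by norm_num)
  omega

theorem izb_NV (v : AbsoluteValue K ℝ) {b G : ℝ} (hb1 : 1 ≤ b) (hb : IzB nd v b) (hG : 1 ≤ G)
    (i : Fin m) (hX : ∀ c, NV v (izX nd (Θ i) (D i) c) ≤ b ^ 2 * G) (o : Option (Fin n)) :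
    NV v (izb nd j Θ D i o) ≤ b ^ (11 * 4 ^ j i) * G ^ 2 := by
  have hb0 : 0 ≤ b := zero_le_one.trans hb1
  have hG0 : 0 ≤ G := zero_le_one.trans hG
  have hlo : ∀ a, v (nd.lo o a) ≤ b := by
    intro a
    cases o with
    | none => exact hb.l 0 a
    | some t => exact hb.l t.succ a
  refine (iz_Nlf v hb1 (X := b ^ (9 * 4 ^ j i) * G ^ 2) (by positivity) hb.cN (nd.lo o) hlo _
    fun c => izU_NV nd j Θ D v hb1 hb hG i hX c).trans ?_
  rw [← mul_assoc, ← pow_add]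
  refine mul_le_mul_of_nonneg_right (pow_le_pow_right₀ hb1 ?_) (by positivity)
  have h1 : 1 ≤ 4 ^ j i := Nat.one_le_pow _ _ (by norm_num)
  omega

/-- The exponent in the bounds. -/
noncomputable def izw : ℕ := 11 * (nd.θ.totalDegree + 1) + 9 * (∑ c, (hz (nd.l 0) nd.θ).degreeOf c) + 2

theorem izR_NV (v : AbsoluteValue K ℝ) {b G : ℝ} (hb1 : 1 ≤ b) (hb : IzB nd v b) (hG : 1 ≤ G)
    (p : Fin m × Fin (n + 1)) (hX : ∀ c, NV v (izX nd (Θ p.1) (D p.1) c) ≤ b ^ 2 * G) :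
    NV v (izR nd j Θ D p).1 ≤ b ^ (izw nd * 4 ^ j p.1) * G ^ (2 * izw nd) ∧
      NV v (izR nd j Θ D p).2 ≤ b ^ (izw nd * 4 ^ j p.1) * G ^ (2 * izw nd) := by
  have h : SN v (fun F : MvPolynomial (VE m (n + 1)) K => NV v F) := SN_NV v
  have hb0 : 0 ≤ b := zero_le_one.trans hb1
  have hG0 : 0 ≤ G := zero_le_one.trans hG
  have key : ∀ (F : MvPolynomial (VE m (n + 1)) K) (r s : ℕ), NV v F ≤ b ^ r * G ^ s →
      r ≤ izw nd * 4 ^ j p.1 → s ≤ 2 * izw nd →
      NV v F ≤ b ^ (izw nd * 4 ^ j p.1) * G ^ (2 * izw nd) := by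
    intro F r s h1 h2 h3
    refine h1.trans ?_
    exact mul_le_mul (pow_le_pow_right₀ hb1 h2) (pow_le_pow_right₀ hG h3) (by positivity)
      (by positivity)
  have h4 : 1 ≤ 4 ^ j p.1 := Nat.one_le_pow _ _ (by norm_num)
  have hw : izw nd = 11 * (nd.θ.totalDegree + 1) +
    9 * (∑ c, (hz (nd.l 0) nd.θ).degreeOf c) + 2 := rfl
  obtain ⟨i, k⟩ := p
  unfold izR
  induction k using Fin.lastCases with
  | last =>
    rw [Fin.lastCases_last]
    refine ⟨?_, ?_⟩
    · refine key _ (nd.θ.totalDegree * (11 * 4 ^ j i)) (nd.θ.totalDegree * 2) ?_ ?_ ?_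
      · refine (h.pow_le _ _).trans ((pow_le_pow_left₀ (h.nonneg _)
          (izb_NV nd j Θ D v hb1 hb hG i hX none) _).trans (le_of_eq ?_))
        rw [mul_pow, ← pow_mul, ← pow_mul, mul_comm nd.θ.totalDegree, mul_comm nd.θ.totalDegree]
      · rw [← mul_assoc]
        refine Nat.mul_le_mul_right _ ?_
        rw [hw]
        omega
      · rw [hw]
        omega
    · refine key _ ((∑ c, (hz (nd.l 0) nd.θ).degreeOf c) * (9 * 4 ^ j i) + 1)
        ((∑ c, (hz (nd.l 0) nd.θ).degreeOf c) * 2) ?_ ?_ ?_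
      · refine (h.aeval_le (hz (nd.l 0) nd.θ) (fun c => (hz (nd.l 0) nd.θ).degreeOf c)
          (fun _ => le_rfl) (izU nd j Θ D i)).trans ?_
        have h5 : ∀ c, max 1 (NV v (izU nd j Θ D i c)) ≤ b ^ (9 * 4 ^ j i) * G ^ 2 := by
          intro c
          refine max_le (one_le_mul_of_one_le_of_one_le (one_le_pow₀ hb1) (one_le_pow₀ hG)) ?_
          exact izU_NV nd j Θ D v hb1 hb hG i hX c
        have h6 : ∏ c, (max 1 (NV v (izU nd j Θ D i c))) ^ (hz (nd.l 0) nd.θ).degreeOf c ≤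
            (b ^ (9 * 4 ^ j i) * G ^ 2) ^ (∑ c, (hz (nd.l 0) nd.θ).degreeOf c) := by
          rw [← Finset.prod_pow_eq_pow_sum]
          exact Finset.prod_le_prod (fun c _ => by positivity) fun c _ =>
            pow_le_pow_left₀ (by positivity) (h5 c) _
        refine (mul_le_mul hb.hz h6 (Finset.prod_nonneg fun c _ => by positivity) hb0).trans
          (le_of_eq ?_)
        rw [mul_pow, ← pow_mul, ← pow_mul, ← mul_assoc, ← pow_succ',
          mul_comm (∑ c, (hz (nd.l 0) nd.θ).degreeOf c),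
          mul_comm (∑ c, (hz (nd.l 0) nd.θ).degreeOf c)]
      · have h7 : (∑ c, (hz (nd.l 0) nd.θ).degreeOf c) * (9 * 4 ^ j i) + 1 ≤
            (9 * (∑ c, (hz (nd.l 0) nd.θ).degreeOf c) + 1) * 4 ^ j i := by
          have h8 : (9 * (∑ c, (hz (nd.l 0) nd.θ).degreeOf c) + 1) * 4 ^ j i =
            (∑ c, (hz (nd.l 0) nd.θ).degreeOf c) * (9 * 4 ^ j i) + 4 ^ j i := by ring
          rw [h8]
          exact Nat.add_le_add_left h4 _
        refine h7.trans (Nat.mul_le_mul_right _ ?_)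
        rw [hw]
        omega
      · rw [hw]
        omega
  | cast t =>
    rw [Fin.lastCases_castSucc]
    have h9 : ∀ o, NV v (izb nd j Θ D i o) ≤ b ^ (izw nd * 4 ^ j i) * G ^ (2 * izw nd) := by
      intro o
      refine key _ (11 * 4 ^ j i) 2 (izb_NV nd j Θ D v hb1 hb hG i hX o) ?_ ?_
      · refine Nat.mul_le_mul_right _ ?_
        rw [hw]
        omega
      · rw [hw]
        omega
    exact ⟨h9 _, h9 _⟩

/-- The heights of the relations. -/
theorem izα_nh [NumberField K] : ∃ C : ℝ, 0 ≤ C ∧ ∀ (m : ℕ) (j : Fin m → ℕ)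
    (Ψ Θ D : Fin m → MvPolynomial (Option (Fin n)) K) (p : Fin m × Fin (n + 1)),
      nh1 (Θ p.1) ≤ 4 ^ j p.1 → nh1 (D p.1) ≤ 4 ^ j p.1 →
      nh (izα nd j Θ D Ψ (VE.z p)) ≤ C * 4 ^ j p.1 := by
  obtain ⟨E, hE⟩ := exists_IzB nd
  obtain ⟨C', hC', hgs⟩ := E.gs_log_le
  refine ⟨(izw nd + 1) * (C' * Module.finrank ℚ K) + 2 * (izg nd * (2 * izw nd)), by positivity,
    fun m j Ψ Θ D p h1 h2 => ?_⟩
  have h4 : (1 : ℝ) ≤ 4 ^ j p.1 := one_le_pow₀ (by norm_num)
  have h4' : 1 ≤ 4 ^ j p.1 := Nat.one_le_pow _ _ (by norm_num)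
  have hbd : ∀ v : AbsoluteValue K ℝ, NV v (izα nd j Θ D Ψ (VE.z p)) ≤
      E.k v ^ ((izw nd + 1) * 4 ^ j p.1) *
        (max 1 (NV v (Θ p.1)) * max 1 (NV v (D p.1))) ^ (izg nd * (2 * izw nd)) := by
    intro v
    have hB := E.one_le v
    have hB0 : 0 ≤ E.k v := zero_le_one.trans hB
    have hT : (1 : ℝ) ≤ max 1 (NV v (Θ p.1)) := le_max_left _ _
    have hD : (1 : ℝ) ≤ max 1 (NV v (D p.1)) := le_max_left _ _
    have hH : 1 ≤ max 1 (NV v (Θ p.1)) * max 1 (NV v (D p.1)) :=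
      one_le_mul_of_one_le_of_one_le hT hD
    have hs : SN v (fun F : MvPolynomial (VE m (n + 1)) K => NV v F) := SN_NV v
    obtain ⟨g1, g2⟩ := izR_NV nd j Θ D v hB (hE v) (one_le_pow₀ hH) p
      (fun c => izX_NV nd v hB (hE v) (Θ p.1) (D p.1) c)
    rw [izα_eq]
    have g3 : NV v ((izR nd j Θ D p).1 * X (VE.z p)) ≤ E.k v ^ (izw nd * 4 ^ j p.1) *
        ((max 1 (NV v (Θ p.1)) * max 1 (NV v (D p.1))) ^ izg nd) ^ (2 * izw nd) := by
      refine (hs.mul _ _).trans ?_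
      show NV v (izR nd j Θ D p).1 * NV v (X (VE.z p)) ≤ _
      rw [NV_X, mul_one]
      exact g1
    refine (iz_Nsub v _ _ g3 g2).trans ?_
    refine (mul_le_mul_of_nonneg_right (hE v).c2 (by positivity)).trans ?_
    rw [← mul_assoc, ← pow_succ', ← pow_mul]
    refine mul_le_mul_of_nonneg_right (pow_le_pow_right₀ hB ?_) (by positivity)
    rw [add_mul, one_mul]
    exact Nat.add_le_add_left h4' _
  by_cases hG0 : izα nd j Θ D Ψ (VE.z p) = 0
  · have h1 : nh (izα nd j Θ D Ψ (VE.z p)) = 0 := by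
      rw [hG0]
      unfold nh
      have h2 : (fun v : AbsoluteValue K ℝ => Real.log (NV v
          (0 : MvPolynomial (VE m (n + 1)) K))) = fun _ => 0 * 0 := by
        funext v
        rw [A2_zero, Real.log_zero, mul_zero]
      rw [h2, gs_const_mul, zero_mul]
    rw [h1]
    positivity
  · have h5 : nh (izα nd j Θ D Ψ (VE.z p)) ≤ gs fun v : AbsoluteValue K ℝ =>
        (((izw nd + 1) * 4 ^ j p.1 : ℕ) : ℝ) * Real.log (E.k v) +
        ((izg nd * (2 * izw nd) : ℕ) : ℝ) * (Real.log (max 1 (NV v (Θ p.1))) +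
          Real.log (max 1 (NV v (D p.1)))) := by
      unfold nh
      refine gs_le (FS_log_NV hG0) (FS_add (FS_const_mul _ (E.FS_log K))
        (FS_const_mul _ (FS_add (FS_nh1 _) (FS_nh1 _)))) fun v _ => ?_
      have hT : (0 : ℝ) < max 1 (NV v (Θ p.1)) := zero_lt_one.trans_le (le_max_left _ _)
      have hD : (0 : ℝ) < max 1 (NV v (D p.1)) := zero_lt_one.trans_le (le_max_left _ _)
      rw [← Real.log_pow, ← Real.log_mul hT.ne' hD.ne', ← Real.log_pow,
        ← Real.log_mul (pow_ne_zero _ (E.pos v).ne') (pow_ne_zero _ (mul_pos hT hD).ne')]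
      exact Real.log_le_log (NV_pos v hG0) (hbd v)
    rw [gs_add (FS_const_mul _ (E.FS_log K)) (FS_const_mul _ (FS_add (FS_nh1 _) (FS_nh1 _))),
      gs_const_mul, gs_const_mul, gs_add (FS_nh1 _) (FS_nh1 _)] at h5
    refine h5.trans ?_
    have h6 : gs (fun v : AbsoluteValue K ℝ => Real.log (max 1 (NV v (Θ p.1)))) +
        gs (fun v : AbsoluteValue K ℝ => Real.log (max 1 (NV v (D p.1)))) ≤
        2 * 4 ^ j p.1 := by
      have h7 := add_le_add h1 h2
      unfold nh1 at h7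
      linarith
    refine (add_le_add (mul_le_mul_of_nonneg_left (hgs K) (Nat.cast_nonneg _))
      (mul_le_mul_of_nonneg_left h6 (Nat.cast_nonneg _))).trans (le_of_eq ?_)
    push_cast
    ring

end

end Pool.Agent.Lib.MP_17a322_nt.SL
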