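import Pool.Agent.Lib.MP_17a322_nt.SL.IZ2
import Pool.Agent.Lib.MP_17a322_nt.VP.EN2
import Pool.Agent.Lib.MP_17a322_nt.VN.L2D0

/-!
The zero estimate for the covers: exchange of the points over the generic coordinates.
-/

universe u

namespace Pool.Agent.Lib.MP_17a322_nt.SL

open MvPolynomial
open Pool.Agent.Lib.MP_17a322_nt.RO
open Pool.Agent.Lib.MP_17a322_nt.VJ
open Pool.Agent.Lib.MP_17a322_nt.VN hiding lf
open Pool.Agent.Lib.MP_17a322_nt.VA
open Pool.Agent.Lib.MP_17a322_nt.VP

/-- A root over independent elements of a field is algebraic over this field. -/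
theorem iz_alg {K : Type u} [Field K] {Ω : Type u} [Field Ω] [Algebra K Ω] {n : ℕ}
    (k₀ : IntermediateField K Ω) {s : Fin n → Ω} (hs : ∀ a, s a ∈ k₀)
    (hind : AlgebraicIndependent K s) {F : MvPolynomial (Option (Fin n)) K} (hF : F ≠ 0) {t : Ω}
    (h : aeval (ot t s) F = 0) : IsAlgebraic k₀ t := by
  let φ : MvPolynomial (Fin n) K →ₐ[K] k₀ := aeval fun a => (⟨s a, hs a⟩ : k₀)
  have h1 : ((IsScalarTower.toAlgHom K k₀ Ω).comp φ) = aeval s := by
    apply MvPolynomial.algHom_ext
    intro a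
    rw [AlgHom.comp_apply, aeval_X, aeval_X]
    rfl
  have hφ : Function.Injective φ := by
    intro p q hpq
    have h2 : ((IsScalarTower.toAlgHom K k₀ Ω).comp φ) p =
        ((IsScalarTower.toAlgHom K k₀ Ω).comp φ) q := by
      rw [AlgHom.comp_apply, AlgHom.comp_apply, hpq]
    rw [h1] at h2
    exact hind h2
  obtain ⟨P, hP⟩ : ∃ P, unp P = F := ⟨optionEquivLeft K (Fin n) F, by
    unfold unp
    rw [AlgEquiv.symm_apply_apply]⟩
  have hP0 : P ≠ 0 := by
    rintro rfl
    apply hF
    rw [← hP]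
    unfold unp
    rw [map_zero]
  refine ⟨P.map φ.toRingHom, ?_, ?_⟩
  · rwa [Ne, Polynomial.map_eq_zero_iff hφ]
  · rw [Polynomial.aeval_def, Polynomial.eval₂_map]
    rw [← hP, aeval_unp] at h
    have h3 : (algebraMap k₀ Ω).comp φ.toRingHom =
        (aeval (R := K) fun a : Fin n => ot t s (some a)).toRingHom := by
      have h4 := congrArg AlgHom.toRingHom h1
      exact h4
    rw [h3]
    exact h

section

variable {K : Type u} [Field K] {N : ℕ} {B : AV K N} {n e : ℕ} (nd : Noe B n e)

/-- Exchange of the primitive element. -/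
theorem iz_gen {k Ω : Type u} [Field k] [Field Ω] [Algebra K k] [Algebra K Ω] [Algebra k Ω]
    [IsScalarTower K k Ω] (s : Fin n → Ω) (hs : AlgebraicIndependent k s) (t t' : Ω)
    (ht : aeval (ot t s) nd.ed.f = 0) (ht' : aeval (ot t' s) nd.ed.f = 0)
    (F : MvPolynomial (Option (Fin n)) k) (hF : aeval (ot t s) F = 0) :
    aeval (ot t' s) F = 0 := by
  have hsK : AlgebraicIndependent K s := by
    refine hs.restrictScalars ?_
    exact (algebraMap K k).injective
  have hδ : aeval s nd.δ ≠ 0 := fun h => nd.δ_ne ((injective_iff_map_eq_zero _).1 hsK _ h)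
  obtain ⟨y, hy, hy0, hyp⟩ := nd.exists_pO (ot t s) ht hδ
  obtain ⟨y', hy', hy'0, hyp'⟩ := nd.exists_pO (ot t' s) ht' hδ
  have key : ∀ (y : Fin (N + 1) → Ω) (t : Ω), nd.pO y = ot t s →
      aeval y (aeval (ot (MvPolynomial.map (algebraMap K k) nd.θ) fun a : Fin n =>
        lp fun b => algebraMap K k (nd.l a.succ b)) F : MvPolynomial (Fin (N + 1)) k) =
        aeval (ot t s) F := by
    intro y t h
    rw [← AlgHom.comp_apply, MvPolynomial.comp_aeval]
    congr 2
    funext o
    rw [← h]
    cases o with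
    | none => exact aeval_map_algebraMap k y nd.θ
    | some a =>
      show aeval y (lp fun b => algebraMap K k (nd.l a.succ b)) = lf (nd.l a.succ) y
      rw [aeval_lp, EN_lf]
  have hind : AlgebraicIndependent k fun a : Fin n => lf (nd.l a.succ) y := by
    have h1 : (fun a : Fin n => lf (nd.l a.succ) y) = s := by
      funext a
      exact congrFun hyp (some a)
    rw [h1]
    exact hs
  have h1 := EN_gen nd hy hy0 hind (P := (aeval (ot (MvPolynomial.map (algebraMap K k) nd.θ)
    fun a : Fin n => lp fun b => algebraMap K k (nd.l a.succ b)) F :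
      MvPolynomial (Fin (N + 1)) k)) (by rw [key y t hyp, hF]) hy' hy'0
  rw [key y' t' hyp'] at h1
  exact h1

end

/-- Exchange in one block. -/
theorem iz_block {K : Type u} [Field K] {Ω : Type u} [Field Ω] [Algebra K Ω] {n : ℕ} {τ : Type*}
    {k : Type u} [Field k] [Algebra K k] [Algebra k Ω] [IsScalarTower K k Ω]
    (g : Option (Fin n) → τ)
    (G : MvPolynomial τ K) (u u' : τ → Ω) (hs : ∀ a, u (g (some a)) = u' (g (some a)))
    (hu : ∀ y, y ∉ Set.range g → G.degreeOf y ≠ 0 → u y = u' y ∧ ∃ c : k, algebraMap k Ω c = u y)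
    (hsw : ∀ F : MvPolynomial (Option (Fin n)) k,
      aeval (ot (u (g none)) fun a => u (g (some a))) F = 0 →
        aeval (ot (u' (g none)) fun a => u (g (some a))) F = 0)
    (h : aeval u G = 0) : aeval u' G = 0 := by
  classical
  have hc : ∀ y : τ, ∃ c : k, y ∉ Set.range g → G.degreeOf y ≠ 0 → algebraMap k Ω c = u y := by
    intro y
    by_cases h1 : y ∉ Set.range g ∧ G.degreeOf y ≠ 0
    · obtain ⟨c, hc⟩ := (hu y h1.1 h1.2).2
      exact ⟨c, fun _ _ => hc⟩
    · exact ⟨0, fun h2 h3 => absurd ⟨h2, h3⟩ h1⟩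
  choose c hc using hc
  have hr : ∀ y : τ, ∃ o : Option (Fin n), y ∈ Set.range g → g o = y := by
    intro y
    by_cases h1 : y ∈ Set.range g
    · obtain ⟨o, ho⟩ := h1
      exact ⟨o, fun _ => ho⟩
    · exact ⟨none, fun h2 => absurd h2 h1⟩
  choose r hr using hr
  let σ : τ → MvPolynomial (Option (Fin n)) k := fun y =>
    if y ∈ Set.range g then X (r y) else C (c y)
  have key : ∀ v : τ → Ω, (∀ y, y ∉ Set.range g → G.degreeOf y ≠ 0 → u y = v y) →
      aeval (fun o => v (g o)) (aeval σ G : MvPolynomial (Option (Fin n)) k) = aeval v G := by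
    intro v hv
    have h1 := MvPolynomial.comp_aeval_apply σ
      ((aeval (fun o => v (g o)) : MvPolynomial (Option (Fin n)) k →ₐ[k] Ω).restrictScalars K) G
    refine h1.trans ?_
    refine aeval_congr_of_degreeOf G _ _ fun y hy => ?_
    rw [AlgHom.restrictScalars_apply]
    by_cases h2 : y ∈ Set.range g
    · have h3 : σ y = X (r y) := if_pos h2
      rw [h3, aeval_X, hr y h2]
    · have h3 : σ y = C (c y) := if_neg h2
      rw [h3, aeval_C, ← hv y h2 hy, ← hc y h2 hy]
  have e1 : (fun o => u (g o)) = ot (u (g none)) fun a => u (g (some a)) := by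
    funext o
    cases o <;> rfl
  have e2 : (fun o => u' (g o)) = ot (u' (g none)) fun a => u (g (some a)) := by
    funext o
    cases o with
    | none => rfl
    | some a => exact (hs a).symm
  have k1 := key u fun y _ _ => rfl
  have k2 := key u' fun y h1 h2 => (hu y h1 h2).1
  rw [e1] at k1
  rw [e2] at k2
  rw [← k2]
  refine hsw _ ?_
  rw [k1, h]

end Pool.Agent.Lib.MP_17a322_nt.SL
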