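import Pool.Agent.Lib.MP_17a322_nt.SL.IZ4
import Pool.Agent.Lib.MP_17a322_nt.SL.IA2

/-!
The zero estimate for the covers: exchange of all points over the generic coordinates.
-/

universe u

namespace Pool.Agent.Lib.MP_17a322_nt.SL

open MvPolynomial
open Pool.Agent.Lib.MP_17a322_nt.RO
open Pool.Agent.Lib.MP_17a322_nt.VJ
open Pool.Agent.Lib.MP_17a322_nt.VN hiding lf
open Pool.Agent.Lib.MP_17a322_nt.VA
open Pool.Agent.Lib.MP_17a322_nt.VP

section

variable {K : Type u} [Field K] {N : ℕ} {B : AV K N} {n e : ℕ} (nd : Noe B n e) {m : ℕ}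
  {Ω : Type u} [Field Ω] [Algebra K Ω]

/-- The point `u` lies over the generic coordinates `x`, `S`; the values of `q` and `w` satisfy the
relations. -/
structure IzP (Ψ : Fin m → MvPolynomial (Option (Fin n)) K) (x : Fin n → Ω)
    (S : Fin m × Fin n → Ω) (u : VE m (n + 1) → Ω) : Prop where
  hx : ∀ a : Fin n, u (VE.x a.castSucc) = x a
  hS : ∀ i (a : Fin n), u (VE.S (i, a.castSucc)) = S (i, a)
  q : aeval (ot (u VE.q) x) nd.ed.f = 0
  w : ∀ i, aeval (ot (u (VE.w i)) fun a => S (i, a)) (Ψ i) = 0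

variable {nd} {Ψ : Fin m → MvPolynomial (Option (Fin n)) K} {x : Fin n → Ω}
  {S : Fin m × Fin n → Ω}

/-- The polynomial contains only the variables of the point `Y` and of the covers. -/
def IzV (G : MvPolynomial (VE m (n + 1)) K) : Prop :=
  (∀ p, G.degreeOf (VE.z p) = 0) ∧ (∀ p, G.degreeOf (VE.v p) = 0) ∧
    G.degreeOf (VE.x (Fin.last n)) = 0 ∧ ∀ i, G.degreeOf (VE.S (i, Fin.last n)) = 0

/-- The relevant variables. -/
theorem IzV.cases {G : MvPolynomial (VE m (n + 1)) K} (hG : IzV G) {y : VE m (n + 1)}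
    (hy : G.degreeOf y ≠ 0) : (∃ a : Fin n, y = VE.x a.castSucc) ∨ y = VE.q ∨
      (∃ (i : Fin m) (a : Fin n), y = VE.S (i, a.castSucc)) ∨ ∃ i, y = VE.w i := by
  cases y with
  | x t =>
    induction t using Fin.lastCases with
    | last => exact absurd hG.2.2.1 hy
    | cast a => exact Or.inl ⟨a, rfl⟩
  | q => exact Or.inr (Or.inl rfl)
  | S p =>
    obtain ⟨i, t⟩ := p
    induction t using Fin.lastCases with
    | last => exact absurd (hG.2.2.2 i) hy
    | cast a => exact Or.inr (Or.inr (Or.inl ⟨i, a, rfl⟩))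
  | w i => exact Or.inr (Or.inr (Or.inr ⟨i, rfl⟩))
  | z p => exact absurd (hG.1 p) hy
  | v p => exact absurd (hG.2.1 p) hy

/-- Exchange of `q`. -/
theorem iz_swap_q (hΨ : ∀ i, Ψ i ≠ 0)
    (hind : AlgebraicIndependent K (Sum.elim x S)) {G : MvPolynomial (VE m (n + 1)) K}
    (hG : IzV G) {u : VE m (n + 1) → Ω} (hu : IzP nd Ψ x S u) {r : Ω}
    (hr : aeval (ot r x) nd.ed.f = 0) (h : aeval u G = 0) :
    aeval (Function.update u VE.q r) G = 0 := by
  obtain ⟨v, hv⟩ : ∃ v : Fin n ⊕ (Fin m × Fin n) → Ω, v = Sum.elim x S := ⟨_, rfl⟩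
  rw [← hv] at hind
  let f : Fin n → Fin n ⊕ (Fin m × Fin n) := Sum.inl
  have hf : Function.Injective f := Sum.inl_injective
  have hz := EN_indep hind f hf
  have hvf : v ∘ f = x := by
    rw [hv]
    rfl
  rw [hvf] at hz
  let k₀ := IntermediateField.adjoin K (v '' (Set.range f)ᶜ)
  have htow : IsScalarTower K (algebraicClosure k₀ Ω) Ω := IsScalarTower.of_algebraMap_eq fun _ => rfl
  have hS : ∀ p, S p ∈ k₀ := by
    intro p
    have h1 : v (Sum.inr p) ∈ k₀ := IntermediateField.subset_adjoin K _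
      ⟨Sum.inr p, by rintro ⟨b, hb⟩; exact Sum.inl_ne_inr hb, rfl⟩
    rw [hv] at h1
    exact h1
  have hmem : ∀ y : Ω, IsAlgebraic k₀ y → ∃ c : algebraicClosure k₀ Ω,
      algebraMap (algebraicClosure k₀ Ω) Ω c = y :=
    fun y hy => ⟨⟨y, mem_algebraicClosure_iff.2 hy⟩, rfl⟩
  refine iz_block (k := algebraicClosure k₀ Ω) pD G u _ ?_ ?_ ?_ h
  · intro a
    exact (Function.update_of_ne (fun h => by cases h) _ _).symm
  · intro y hy hdeg
    rcases hG.cases hdeg with ⟨a, rfl⟩ | rfl | ⟨i, a, rfl⟩ | ⟨i, rfl⟩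
    · exact absurd ⟨some a, rfl⟩ hy
    · exact absurd ⟨none, rfl⟩ hy
    · refine ⟨(Function.update_of_ne (fun h => by cases h) _ _).symm, hmem _ ?_⟩
      rw [hu.hS]
      exact isAlgebraic_algebraMap (⟨S (i, a), hS (i, a)⟩ : k₀)
    · refine ⟨(Function.update_of_ne (fun h => by cases h) _ _).symm, hmem _ ?_⟩
      refine iz_alg k₀ (fun a => hS (i, a)) ?_ (hΨ i) (hu.w i)
      have h1 := hind.comp (fun a : Fin n => (Sum.inr (i, a) : Fin n ⊕ (Fin m × Fin n))) (by
        intro a b hab
        exact congrArg Prod.snd (Sum.inr_injective hab))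
      rw [hv] at h1
      exact h1
  · intro F hF
    have e1 : (fun a => u (pD (some a))) = x := funext fun a => hu.hx a
    rw [e1] at hF ⊢
    have e2 : Function.update u VE.q r (pD none) = r := Function.update_self _ _ _
    rw [e2]
    exact iz_gen (k := algebraicClosure k₀ Ω) nd x hz _ _ hu.q hr F hF

/-- Exchange of `w i`. -/
theorem iz_swap_w
    (hΨ : ∀ i, ∀ (L : Type u) [Field L] [Algebra K L],
      Prime (MvPolynomial.map (algebraMap K L) (Ψ i)))
    (hd : ∀ i, (Ψ i).degreeOf none ≠ 0)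
    (hind : AlgebraicIndependent K (Sum.elim x S)) {G : MvPolynomial (VE m (n + 1)) K}
    (hG : IzV G) {u : VE m (n + 1) → Ω} (hu : IzP nd Ψ x S u) (i : Fin m) {r : Ω}
    (hr : aeval (ot r fun a => S (i, a)) (Ψ i) = 0) (h : aeval u G = 0) :
    aeval (Function.update u (VE.w i) r) G = 0 := by
  have hΨ0 : ∀ i, Ψ i ≠ 0 := by
    intro i h0
    apply hd i
    rw [h0, degreeOf_zero]
  obtain ⟨v, hv⟩ : ∃ v : Fin n ⊕ (Fin m × Fin n) → Ω, v = Sum.elim x S := ⟨_, rfl⟩
  rw [← hv] at hind
  let f : Fin n → Fin n ⊕ (Fin m × Fin n) := fun a => Sum.inr (i, a)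
  have hf : Function.Injective f := fun a b hab => congrArg Prod.snd (Sum.inr_injective hab)
  have hz := EN_indep hind f hf
  have hvf : v ∘ f = fun a => S (i, a) := by
    rw [hv]
    rfl
  rw [hvf] at hz
  let k₀ := IntermediateField.adjoin K (v '' (Set.range f)ᶜ)
  have htow : IsScalarTower K (algebraicClosure k₀ Ω) Ω := IsScalarTower.of_algebraMap_eq fun _ => rfl
  have hx : ∀ a, x a ∈ k₀ := by
    intro a
    have h1 : v (Sum.inl a) ∈ k₀ := IntermediateField.subset_adjoin K _
      ⟨Sum.inl a, by rintro ⟨b, hb⟩; exact Sum.inr_ne_inl hb, rfl⟩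
    rw [hv] at h1
    exact h1
  have hS : ∀ i', i' ≠ i → ∀ a, S (i', a) ∈ k₀ := by
    intro i' hi a
    have h1 : v (Sum.inr (i', a)) ∈ k₀ := IntermediateField.subset_adjoin K _
      ⟨Sum.inr (i', a), by
        rintro ⟨b, hb⟩
        exact hi (congrArg Prod.fst (Sum.inr_injective hb)).symm, rfl⟩
    rw [hv] at h1
    exact h1
  have hmem : ∀ y : Ω, IsAlgebraic k₀ y → ∃ c : algebraicClosure k₀ Ω,
      algebraMap (algebraicClosure k₀ Ω) Ω c = y :=
    fun y hy => ⟨⟨y, mem_algebraicClosure_iff.2 hy⟩, rfl⟩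
  refine iz_block (k := algebraicClosure k₀ Ω) (pC i) G u _ ?_ ?_ ?_ h
  · intro a
    exact (Function.update_of_ne (fun h => by cases h) _ _).symm
  · intro y hy hdeg
    rcases hG.cases hdeg with ⟨a, rfl⟩ | rfl | ⟨i', a, rfl⟩ | ⟨i', rfl⟩
    · refine ⟨(Function.update_of_ne (fun h => by cases h) _ _).symm, hmem _ ?_⟩
      rw [hu.hx]
      exact isAlgebraic_algebraMap (⟨x a, hx a⟩ : k₀)
    · refine ⟨(Function.update_of_ne (fun h => by cases h) _ _).symm, hmem _ ?_⟩
      refine iz_alg k₀ hx ?_ (F := nd.ed.f) ?_ hu.q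
      · have h1 := hind.comp (fun a : Fin n => (Sum.inl a : Fin n ⊕ (Fin m × Fin n)))
          Sum.inl_injective
        rw [hv] at h1
        exact h1
      · intro h0
        apply nd.ed_f0
        rw [h0, degreeOf_zero]
    · by_cases hi : i' = i
      · rw [hi] at hy
        exact absurd ⟨some a, rfl⟩ hy
      · refine ⟨(Function.update_of_ne (fun h => by cases h) _ _).symm, hmem _ ?_⟩
        rw [hu.hS]
        exact isAlgebraic_algebraMap (⟨S (i', a), hS i' hi a⟩ : k₀)
    · by_cases hi : i' = i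
      · rw [hi] at hy
        exact absurd ⟨none, rfl⟩ hy
      · refine ⟨(Function.update_of_ne (fun h => hi (VE.w.inj h)) _ _).symm, hmem _ ?_⟩
        refine iz_alg k₀ (fun a => hS i' hi a) ?_ (hΨ0 i') (hu.w i')
        have h1 := hind.comp (fun a : Fin n => (Sum.inr (i', a) : Fin n ⊕ (Fin m × Fin n))) (by
          intro a b hab
          exact congrArg Prod.snd (Sum.inr_injective hab))
        rw [hv] at h1
        exact h1
  · intro F hF
    have e1 : (fun a => u (pC i (some a))) = fun a => S (i, a) := funext fun a => hu.hS i a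
    rw [e1] at hF ⊢
    have e2 : Function.update u (VE.w i) r (pC i none) = r := Function.update_self _ _ _
    rw [e2]
    exact cov_swap (L := algebraicClosure k₀ Ω) (hΨ i) (hd i) _ hz _ _ (hu.w i)
      hr F hF

/-- The values of `q` from `u'`, of `w i` from `u'` for `i ∈ s`, the other values from `u`. -/
def izMix {m n : ℕ} {Ω : Type*} (u u' : VE m (n + 1) → Ω) (s : Finset (Fin m)) :
    VE m (n + 1) → Ω
  | VE.x t => u (VE.x t)
  | VE.q => u' VE.q
  | VE.S p => u (VE.S p)
  | VE.w i => if i ∈ s then u' (VE.w i) else u (VE.w i)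
  | VE.z p => u (VE.z p)
  | VE.v p => u (VE.v p)

/-- Exchange of all points. -/
theorem iz_swap
    (hΨ : ∀ i, ∀ (L : Type u) [Field L] [Algebra K L],
      Prime (MvPolynomial.map (algebraMap K L) (Ψ i)))
    (hd : ∀ i, (Ψ i).degreeOf none ≠ 0)
    (hind : AlgebraicIndependent K (Sum.elim x S)) {G : MvPolynomial (VE m (n + 1)) K}
    (hG : IzV G) {u u' : VE m (n + 1) → Ω} (hu : IzP nd Ψ x S u) (hu' : IzP nd Ψ x S u')
    (h : aeval u G = 0) : aeval u' G = 0 := by
  classical
  have hΨ0 : ∀ i, Ψ i ≠ 0 := by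
    intro i h0
    apply hd i
    rw [h0, degreeOf_zero]
  have h1 := iz_swap_q hΨ0 hind hG hu hu'.q h
  have hUP : ∀ s, IzP nd Ψ x S (izMix u u' s) := by
    intro s
    refine ⟨fun a => hu.hx a, fun i a => hu.hS i a, hu'.q, fun i => ?_⟩
    show aeval (ot (if i ∈ s then u' (VE.w i) else u (VE.w i)) _) (Ψ i) = 0
    split_ifs
    · exact hu'.w i
    · exact hu.w i
  have key : ∀ s : Finset (Fin m), aeval (izMix u u' s) G = 0 := by
    intro s
    induction s using Finset.induction_on with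
    | empty =>
      rw [← h1]
      congr 2
      funext y
      by_cases hy : y = VE.q
      · rw [hy, Function.update_self]
        rfl
      · rw [Function.update_of_ne hy]
        cases y with
        | q => exact absurd rfl hy
        | w i =>
          show (if i ∈ (∅ : Finset (Fin m)) then u' (VE.w i) else u (VE.w i)) = u (VE.w i)
          exact if_neg (Finset.notMem_empty i)
        | _ => rfl
    | insert i s his ih =>
      have h2 := iz_swap_w hΨ hd hind hG (hUP s) i (hu'.w i) ih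
      rw [← h2]
      congr 2
      funext y
      by_cases hy : y = VE.w i
      · rw [hy, Function.update_self]
        exact if_pos (Finset.mem_insert_self i s)
      · rw [Function.update_of_ne hy]
        cases y with
        | w i' =>
          have hi : i' ≠ i := fun h => hy (by rw [h])
          exact if_congr (by rw [Finset.mem_insert, or_iff_right hi]) rfl rfl
        | _ => rfl
  rw [← key Finset.univ]
  refine aeval_congr_of_degreeOf G _ _ fun y hy => ?_
  rcases hG.cases hy with ⟨a, rfl⟩ | rfl | ⟨i, a, rfl⟩ | ⟨i, rfl⟩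
  · rw [hu'.hx, (hUP _).hx]
  · rfl
  · rw [hu'.hS, (hUP _).hS]
  · exact (if_pos (Finset.mem_univ i)).symm

end

end Pool.Agent.Lib.MP_17a322_nt.SL
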