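import Pool.Agent.Lib.MP_17a322_nt.SL.IZ5

/-!
The zero estimate for the covers: values of the relations.
-/

universe u

namespace Pool.Agent.Lib.MP_17a322_nt.SL

open MvPolynomial
open Pool.Agent.Lib.MP_17a322_nt.RO
open Pool.Agent.Lib.MP_17a322_nt.VJ
open Pool.Agent.Lib.MP_17a322_nt.VN hiding lf
open Pool.Agent.Lib.MP_17a322_nt.VA
open Pool.Agent.Lib.MP_17a322_nt.VP

section

variable {K : Type u} [Field K] {N : ℕ} {B : AV K N} {n e : ℕ} (nd : Noe B n e)

theorem cvl_x {m : ℕ} {R : Type u} [CommRing R] [Algebra K R] (Y : Fin (N + 1) → R)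
    (y η : Fin m → Fin (N + 1) → R) (T : Fin m → R) (a : Fin n) :
    cvl nd Y y η T (VE.x a.castSucc) = lf (nd.l a.succ) Y := by
  show Fin.lastCases (motive := fun _ => R) 0 (fun t : Fin n => lf (nd.l t.succ) Y)
    a.castSucc = _
  rw [Fin.lastCases_castSucc]

theorem cvl_S {m : ℕ} {R : Type u} [CommRing R] [Algebra K R] (Y : Fin (N + 1) → R)
    (y η : Fin m → Fin (N + 1) → R) (T : Fin m → R) (i : Fin m) (a : Fin n) :
    cvl nd Y y η T (VE.S (i, a.castSucc)) = lf (nd.l a.succ) (y i) := by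
  show Fin.lastCases (motive := fun _ => R) 0 (fun t : Fin n => lf (nd.l t.succ) (y i))
    a.castSucc = _
  rw [Fin.lastCases_castSucc]

theorem cvl_z {m : ℕ} {R : Type u} [CommRing R] [Algebra K R] (Y : Fin (N + 1) → R)
    (y η : Fin m → Fin (N + 1) → R) (T : Fin m → R) (i : Fin m) (a : Fin n) :
    cvl nd Y y η T (VE.z (i, a.castSucc)) = lf (nd.l a.succ) (η i) := by
  show Fin.lastCases (motive := fun _ => R) (aeval (η i) nd.θ)
    (fun t : Fin n => lf (nd.l t.succ) (η i)) a.castSucc = _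
  rw [Fin.lastCases_castSucc]

theorem cvl_zl {m : ℕ} {R : Type u} [CommRing R] [Algebra K R] (Y : Fin (N + 1) → R)
    (y η : Fin m → Fin (N + 1) → R) (T : Fin m → R) (i : Fin m) :
    cvl nd Y y η T (VE.z (i, Fin.last n)) = aeval (η i) nd.θ := by
  show Fin.lastCases (motive := fun _ => R) (aeval (η i) nd.θ)
    (fun t : Fin n => lf (nd.l t.succ) (η i)) (Fin.last n) = _
  rw [Fin.lastCases_last]

theorem cvl_pD {m : ℕ} {R : Type u} [CommRing R] [Algebra K R] (Y : Fin (N + 1) → R)
    (y η : Fin m → Fin (N + 1) → R) (T : Fin m → R) :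
    (fun o => cvl nd Y y η T (pD o)) = nd.pO Y := by
  funext o
  cases o with
  | none => rfl
  | some a => exact cvl_x nd Y y η T a

theorem cvl_pC {m : ℕ} {R : Type u} [CommRing R] [Algebra K R] (Y : Fin (N + 1) → R)
    (y η : Fin m → Fin (N + 1) → R) (T : Fin m → R) (i : Fin m) :
    (fun o => cvl nd Y y η T (pC i o)) = ot (T i) fun k : Fin n => lf (nd.l k.succ) (y i) := by
  funext o
  cases o with
  | none => rfl
  | some a => exact cvl_S nd Y y η T i a

theorem pO_eq_ot {R : Type u} [CommRing R] [Algebra K R] (y : Fin (N + 1) → R) :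
    nd.pO y = ot (aeval y nd.θ) fun k : Fin n => lf (nd.l k.succ) y := by
  funext o
  cases o <;> rfl

/-- The relations hold at a configuration. -/
theorem izα_cfg {m q : ℕ} {l₀ : Fin (q + 1)} {Ψ Θ : Fin m → MvPolynomial (Option (Fin n)) K}
    {M : Fin m → Fin (q + 1) → MvPolynomial (Option (Fin n)) K} {j : Fin m → ℕ}
    {R : Type u} [CommRing R] [Algebra K R] {Y : Fin (N + 1) → R}
    {y η : Fin m → Fin (N + 1) → R} {T : Fin m → R} (h : Cfg nd l₀ Ψ Θ M j Y y η T)
    (p : Fin m × Fin (n + 1)) :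
    aeval (cvl nd Y y η T) (izα nd j Θ (fun i => M i l₀) Ψ (VE.z p)) = 0 := by
  obtain ⟨i, k⟩ := p
  obtain ⟨γ, hγ⟩ : ∃ γ : R, ∀ c, aeval (cvl nd Y y η T) (izU nd j Θ (fun i => M i l₀) i c) =
      γ * η i c := by
    have h1 := izU_val' nd j Θ (fun i => M i l₀) (cvl nd Y y η T) i (aeval (y i) nd.θ) (by
      rw [cvl_pC]
      exact h.th i)
    rw [cvl_pC, cvl_pD] at h1
    have h2 : (ot (aeval (y i) nd.θ) fun t : Fin n => cvl nd Y y η T (pC i (some t))) =
        nd.pO (y i) := by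
      rw [pO_eq_ot]
      congr 1
      funext t
      exact cvl_S nd Y y η T i t
    have h3 : (fun c => aeval (nd.pO (y i)) (nd.pv c)) =
        fun c => aeval (fun k : Fin n => lf (nd.l k.succ) (y i)) nd.δ * y i c :=
      funext fun c => nd.aeval_pv (h.y_pt i) (h.y_lf i) c
    have h4 : (B.mu (j i) fun c => aeval (nd.pO Y) (nd.pv c)) =
        fun c => (aeval (fun k : Fin n => lf (nd.l k.succ) Y) nd.δ) ^ 4 ^ j i *
          B.mu (j i) Y c := by
      have h5 : (fun c => aeval (nd.pO Y) (nd.pv c)) =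
          fun c => aeval (fun k : Fin n => lf (nd.l k.succ) Y) nd.δ * Y c :=
        funext fun c => nd.aeval_pv h.Y_pt h.Y_lf c
      rw [h5]
      funext c
      exact B.mu_smul (j i) _ Y c
    rw [h2, h3, h4] at h1
    refine ⟨(aeval (ot (T i) fun k : Fin n => lf (nd.l k.succ) (y i)) (M i l₀) ^ izg nd) ^ 2 *
      ((aeval (fun k : Fin n => lf (nd.l k.succ) (y i)) nd.δ) ^ 2 *
        ((aeval (fun k : Fin n => lf (nd.l k.succ) Y) nd.δ) ^ 4 ^ j i) ^ 2 *
        ∑ a, algebraMap K R (nd.l 0 a) * lf (nd.l 0) (B.col a (y i) (B.mu (j i) Y))),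
      fun c => ?_⟩
    rw [h1 c, mul_assoc ((aeval (ot (T i) fun k : Fin n => lf (nd.l k.succ) (y i)) (M i l₀) ^
      izg nd) ^ 2)]
    congr 1
    rw [Finset.mul_sum, Finset.sum_mul]
    refine Finset.sum_congr rfl fun a _ => ?_
    rw [AV.col_smulE, h.col]
    ring
  have hU : (fun c => aeval (cvl nd Y y η T) (izU nd j Θ (fun i => M i l₀) i c)) =
      fun c => γ * η i c := funext hγ
  have hb : ∀ o, aeval (cvl nd Y y η T) (izb nd j Θ (fun i => M i l₀) i o) =
      γ * lf (nd.lo o) (η i) := by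
    intro o
    rw [izb, ← lf_mapE, hU, lf_smulE]
  have hb0 : aeval (cvl nd Y y η T) (izb nd j Θ (fun i => M i l₀) i none) = γ := by
    rw [hb]
    show γ * lf (nd.l 0) (η i) = γ
    rw [h.e_lf, mul_one]
  induction k using Fin.lastCases with
  | last =>
    rw [izα_l, izl, map_sub, map_mul, map_pow, hb0, aeval_X, cvl_zl]
    have h6 : aeval (cvl nd Y y η T) (aeval (izU nd j Θ (fun i => M i l₀) i)
        (hz (nd.l 0) nd.θ)) = aeval (fun c => γ * η i c) (hz (nd.l 0) nd.θ) := by
      rw [← AlgHom.comp_apply, MvPolynomial.comp_aeval]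
      congr 2
    rw [h6, hz_smul (h.e_lf i), sub_self]
  | cast t =>
    rw [izα_z, map_sub, map_mul, hb0, hb, aeval_X, cvl_z]
    exact sub_self _

section

variable {m q : ℕ} {l₀ : Fin (q + 1)} {Dc : ℕ} {Ψ Θ : Fin m → MvPolynomial (Option (Fin n)) K}
  {M : Fin m → Fin (q + 1) → MvPolynomial (Option (Fin n)) K}
  {Ω : Type u} [Field Ω] [Algebra K Ω]

/-- A polynomial without the variable `none` does not vanish. -/
theorem iz_den {F : MvPolynomial (Option (Fin n)) K} (hF : F ≠ 0) (hd : F.degreeOf none = 0)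
    {s : Fin n → Ω} (hs : AlgebraicIndependent K s) (t : Ω) : aeval (ot t s) F ≠ 0 := by
  refine aeval_ne_zero_of_indep (Set.range some) (ot t s) ?_ F hF ?_
  · have h1 : Function.Injective fun y : Set.range (some : Fin n → Option (Fin n)) =>
        Classical.choose y.2 := by
      intro a b hab
      have ha := Classical.choose_spec a.2
      have hb := Classical.choose_spec b.2
      apply Subtype.ext
      rw [← ha, ← hb]
      exact congrArg some hab
    have h2 := hs.comp _ h1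
    have h3 : (fun y : Set.range (some : Fin n → Option (Fin n)) => ot t s y) =
        s ∘ fun y : Set.range (some : Fin n → Option (Fin n)) => Classical.choose y.2 := by
      funext y
      have ha := Classical.choose_spec y.2
      show ot t s y.1 = s (Classical.choose y.2)
      conv_lhs => rw [← ha]
      rfl
    rw [h3]
    exact h2
  · intro y hy
    cases y with
    | none => exact hd
    | some a => exact absurd ⟨a, rfl⟩ hy

/-- The point of `B` below a point of the cover. -/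
theorem iz_root {Ψ' Θ' : MvPolynomial (Option (Fin n)) K}
    {M' : Fin (q + 1) → MvPolynomial (Option (Fin n)) K} (hC : Cov nd l₀ Dc Ψ' Θ' M')
    {s : Fin n → Ω} (hs : AlgebraicIndependent K s) {t : Ω} (ht : aeval (ot t s) Ψ' = 0) :
    aeval (ot (aeval (ot t s) Θ' / aeval (ot t s) (M' l₀)) s) nd.ed.f = 0 := by
  have hD := iz_den hC.den_ne hC.den hs t
  have h1 := hC.rel Ω s t ht
  show aeval (ot (aeval (ot t s) Θ' / aeval (ot t s) (M' l₀)) s) (unp nd.Φ) = 0
  rw [aeval_unp, Polynomial.eval₂_eq_sum_range]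
  refine (mul_eq_zero.1 ?_).resolve_left (pow_ne_zero nd.Φ.natDegree hD)
  rw [← h1, Finset.mul_sum]
  refine Finset.sum_congr rfl fun k hk => ?_
  have hk' : k ≤ nd.Φ.natDegree := Nat.lt_succ_iff.1 (Finset.mem_range.1 hk)
  show aeval (ot t s) (M' l₀) ^ nd.Φ.natDegree * (aeval s (nd.Φ.coeff k) *
    (aeval (ot t s) Θ' / aeval (ot t s) (M' l₀)) ^ k) = _
  have h2 : aeval (ot t s) (M' l₀) ^ nd.Φ.natDegree =
      aeval (ot t s) (M' l₀) ^ (nd.Φ.natDegree - k) * aeval (ot t s) (M' l₀) ^ k := by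
    rw [← pow_add, Nat.sub_add_cancel hk']
  rw [h2, div_pow]
  field_simp

/-- The denominators of the relations do not vanish. -/
theorem izb_ne (hC : ∀ i, Cov nd l₀ Dc (Ψ i) (Θ i) (M i)) (j : Fin m → ℕ) {x : Fin n → Ω}
    {S : Fin m × Fin n → Ω} (hind : AlgebraicIndependent K (Sum.elim x S))
    {u : VE m (n + 1) → Ω} (hu : IzP nd Ψ x S u) (i : Fin m) :
    aeval u (izb nd j Θ (fun i => M i l₀) i none) ≠ 0 := by
  have hS : AlgebraicIndependent K fun a : Fin n => S (i, a) := by
    have h1 := hind.comp (fun a : Fin n => (Sum.inr (i, a) : Fin n ⊕ (Fin m × Fin n))) (by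
      intro a b hab
      exact congrArg Prod.snd (Sum.inr_injective hab))
    exact h1
  have hxS : AlgebraicIndependent K (Sum.elim x (fun a : Fin n => S (i, a)) :
      Fin n ⊕ Fin n → Ω) := by
    have h1 := hind.comp (Sum.map id fun a : Fin n => (i, a)) (by
      refine Sum.map_injective.2 ⟨Function.injective_id, ?_⟩
      intro a b hab
      exact congrArg Prod.snd hab)
    have h2 : (Sum.elim x S ∘ Sum.map id fun a : Fin n => (i, a)) =
        (Sum.elim x (fun a : Fin n => S (i, a)) : Fin n ⊕ Fin n → Ω) := by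
      rw [Sum.elim_comp_map]
      rfl
    rw [h2] at h1
    exact h1
  have hC1 : (fun o => u (pC i o)) = ot (u (VE.w i)) fun a => S (i, a) := by
    funext o
    cases o with
    | none => rfl
    | some a => exact hu.hS i a
  have hD1 : (fun o => u (pD o)) = ot (u VE.q) x := by
    funext o
    cases o with
    | none => rfl
    | some a => exact hu.hx a
  have hD := iz_den (hC i).den_ne (hC i).den hS (u (VE.w i))
  have h3 := iz_root nd (hC i) hS (hu.w i)
  obtain ⟨θv, hθ⟩ : ∃ θv : Ω, θv = aeval (ot (u (VE.w i)) fun a => S (i, a)) (Θ i) /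
    aeval (ot (u (VE.w i)) fun a => S (i, a)) (M i l₀) := ⟨_, rfl⟩
  rw [← hθ] at h3
  have h4 := izb_val nd j Θ (fun i => M i l₀) u i θv (by
    rw [hC1, hθ, mul_div_cancel₀ _ hD]) none
  have h5 := (nd.ed_gen (j i) (ot (u VE.q) x) (ot θv fun a => S (i, a)) hxS hu.q h3).1
  have h6 : (fun t : Fin n => u (pC i (some t))) = fun a => S (i, a) :=
    funext fun a => hu.hS i a
  rw [h4, hC1, hD1, h6]
  exact mul_ne_zero (pow_ne_zero _ (pow_ne_zero _ hD)) h5

theorem izR_ne (hC : ∀ i, Cov nd l₀ Dc (Ψ i) (Θ i) (M i)) (j : Fin m → ℕ) {x : Fin n → Ω}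
    {S : Fin m × Fin n → Ω} (hind : AlgebraicIndependent K (Sum.elim x S))
    {u : VE m (n + 1) → Ω} (hu : IzP nd Ψ x S u) (p : Fin m × Fin (n + 1)) :
    aeval u (izR nd j Θ (fun i => M i l₀) p).1 ≠ 0 := by
  obtain ⟨i, k⟩ := p
  have h1 := izb_ne nd hC j hind hu i
  unfold izR
  induction k using Fin.lastCases with
  | last =>
    rw [Fin.lastCases_last]
    show aeval u (izb nd j Θ (fun i => M i l₀) i none ^ nd.θ.totalDegree) ≠ 0
    rw [map_pow]
    exact pow_ne_zero _ h1
  | cast t =>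
    rw [Fin.lastCases_castSucc]
    exact h1

/-- A configuration lies over its coordinates. -/
theorem iz_cfgP {j : Fin m → ℕ} {Y : Fin (N + 1) → Ω} {y η : Fin m → Fin (N + 1) → Ω}
    {T : Fin m → Ω} (h : Cfg nd l₀ Ψ Θ M j Y y η T) :
    IzP nd Ψ (fun k : Fin n => lf (nd.l k.succ) Y)
      (fun p : Fin m × Fin n => lf (nd.l p.2.succ) (y p.1)) (cvl nd Y y η T) := by
  refine ⟨fun a => cvl_x nd Y y η T a, fun i a => cvl_S nd Y y η T i a, ?_, fun i => h.psi i⟩
  have h1 := nd.aeval_f h.Y_pt h.Y_lf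
  rw [pO_eq_ot] at h1
  exact h1

end

end

end Pool.Agent.Lib.MP_17a322_nt.SL
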