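import Pool.Agent.Lib.MP_17a322_nt.SL.IZ6
import Pool.Agent.Lib.MP_17a322_nt.VJ.J1c

/-!
The zero estimate for the covers: the elimination does not vanish.
-/

universe u

namespace Pool.Agent.Lib.MP_17a322_nt.SL

open MvPolynomial
open Pool.Agent.Lib.MP_17a322_nt.RO
open Pool.Agent.Lib.MP_17a322_nt.VJ
open Pool.Agent.Lib.MP_17a322_nt.VN hiding lf
open Pool.Agent.Lib.MP_17a322_nt.VA
open Pool.Agent.Lib.MP_17a322_nt.VP

/-- The variables `z`. -/
noncomputable def izZ (m n : ℕ) : List (VE m (n + 1)) :=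
  (Finset.univ : Finset (Fin m × Fin (n + 1))).toList.map VE.z

/-- The variables to be eliminated. -/
noncomputable def izL (m n : ℕ) : List (VE m (n + 1)) :=
  izZ m n ++ ((List.finRange m).map VE.w ++ [VE.q])

theorem mem_izZ {m n : ℕ} (y : VE m (n + 1)) : y ∈ izZ m n ↔ ∃ p, y = VE.z p := by
  unfold izZ
  rw [List.mem_map]
  constructor
  · rintro ⟨p, -, rfl⟩
    exact ⟨p, rfl⟩
  · rintro ⟨p, rfl⟩
    exact ⟨p, Finset.mem_toList.2 (Finset.mem_univ p), rfl⟩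

theorem mem_izL {m n : ℕ} (y : VE m (n + 1)) :
    y ∈ izL m n ↔ (∃ p, y = VE.z p) ∨ (∃ i, y = VE.w i) ∨ y = VE.q := by
  unfold izL
  rw [List.mem_append, List.mem_append, mem_izZ, List.mem_map, List.mem_singleton]
  constructor
  · rintro (h | ⟨i, -, rfl⟩ | h)
    · exact Or.inl h
    · exact Or.inr (Or.inl ⟨i, rfl⟩)
    · exact Or.inr (Or.inr h)
  · rintro (h | ⟨i, rfl⟩ | h)
    · exact Or.inl h
    · exact Or.inr (Or.inl ⟨i, List.mem_finRange i, rfl⟩)
    · exact Or.inr (Or.inr h)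

section

variable {K : Type u} [Field K] {N : ℕ} {B : AV K N} {n e : ℕ} (nd : Noe B n e) {m : ℕ}
  (j : Fin m → ℕ) {Θ D Ψ : Fin m → MvPolynomial (Option (Fin n)) K} {Dc : ℕ}

/-- Order of the elimination. -/
def izO (α : VE m (n + 1) → MvPolynomial (VE m (n + 1)) K) (y y' : VE m (n + 1)) : Prop :=
  (α y').degreeOf y = 0 ∧ ((∃ p, y' = VE.z p) → ∃ p, y = VE.z p)

theorem iz_zz (hΘ : ∀ i o, (Θ i).degreeOf o ≤ Dc) (hD : ∀ i o, (D i).degreeOf o ≤ Dc)
    (p p' : Fin m × Fin (n + 1)) (h : p ≠ p') :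
    (izα nd j Θ D Ψ (VE.z p')).degreeOf (VE.z p) = 0 :=
  Nat.le_zero.1 (izα_deg nd j Ψ hΘ hD p' (VE.z p) fun h1 => h (VE.z.inj h1))

theorem iz_w0 (i : Fin m) (y : VE m (n + 1)) (h : ∀ o, y ≠ pC i o) :
    (izα nd j Θ D Ψ (VE.w i)).degreeOf y = 0 := iz_deg0 _ _ _ h

theorem iz_q0 (y : VE m (n + 1)) (h : ∀ o, y ≠ pD o) :
    (izα nd j Θ D Ψ VE.q).degreeOf y = 0 := iz_deg0 _ _ _ h

theorem iz_pair (hΘ : ∀ i o, (Θ i).degreeOf o ≤ Dc) (hD : ∀ i o, (D i).degreeOf o ≤ Dc) :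
    (izL m n).Pairwise (izO (izα nd j Θ D Ψ)) := by
  unfold izL izZ
  rw [List.pairwise_append, List.pairwise_append, List.pairwise_map, List.pairwise_map]
  refine ⟨?_, ⟨?_, List.pairwise_singleton _ _, ?_⟩, ?_⟩
  · refine (Finset.nodup_toList _).imp fun {p p'} h => ?_
    exact ⟨iz_zz nd j hΘ hD p p' h, fun _ => ⟨p, rfl⟩⟩
  · refine (List.nodup_finRange m).imp fun {i i'} h => ?_
    refine ⟨iz_w0 nd j i' _ ?_, ?_⟩
    · rintro (_ | a) h1
      · exact h (VE.w.inj h1)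
      · cases h1
    · rintro ⟨p, hp⟩
      cases hp
  · intro a ha b hb
    rw [List.mem_map] at ha
    obtain ⟨i, -, rfl⟩ := ha
    rw [List.mem_singleton] at hb
    subst hb
    refine ⟨iz_q0 nd j _ ?_, ?_⟩
    · rintro (_ | a) h1 <;> cases h1
    · rintro ⟨p, hp⟩
      cases hp
  · intro a ha b hb
    rw [List.mem_map] at ha
    obtain ⟨p, -, rfl⟩ := ha
    rw [List.mem_append, List.mem_map, List.mem_singleton] at hb
    rcases hb with ⟨i, -, rfl⟩ | rfl
    · refine ⟨iz_w0 nd j i _ ?_, fun _ => ⟨p, rfl⟩⟩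
      rintro (_ | a) h1 <;> cases h1
    · refine ⟨iz_q0 nd j _ ?_, fun _ => ⟨p, rfl⟩⟩
      rintro (_ | a) h1 <;> cases h1

theorem iz_pairZ (hΘ : ∀ i o, (Θ i).degreeOf o ≤ Dc) (hD : ∀ i o, (D i).degreeOf o ≤ Dc) :
    (izZ m n).Pairwise (izO (izα nd j Θ D Ψ)) :=
  (List.pairwise_append.1 (iz_pair nd j hΘ hD)).1

/-- The degrees of the relations in their variables. -/
theorem iz_deg_w (hd : ∀ i, (Ψ i).degreeOf none ≠ 0) (i : Fin m) :
    (izα nd j Θ D Ψ (VE.w i)).degreeOf (VE.w i) ≠ 0 := by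
  have h1 : (rename (pC i) (Ψ i)).degreeOf (pC i none : VE m (n + 1)) =
      (Ψ i).degreeOf none := degreeOf_rename_of_injective (pC_injective i) none
  show (rename (pC i) (Ψ i)).degreeOf (pC i none) ≠ 0
  rw [h1]
  exact hd i

theorem iz_deg_q : (izα nd j Θ D Ψ VE.q).degreeOf VE.q ≠ 0 := by
  have h1 : (rename pD nd.ed.f).degreeOf (pD none : VE m (n + 1)) =
      nd.ed.f.degreeOf none := degreeOf_rename_of_injective pD_injective none
  show (rename pD nd.ed.f).degreeOf (pD none) ≠ 0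
  rw [h1]
  exact nd.ed_f0

end

section

variable {K : Type u} [Field K] {N : ℕ} {B : AV K N} {n e : ℕ} (nd : Noe B n e) {m q : ℕ}
  {l₀ : Fin (q + 1)} {Dc : ℕ} {Ψ Θ : Fin m → MvPolynomial (Option (Fin n)) K}
  {M : Fin m → Fin (q + 1) → MvPolynomial (Option (Fin n)) K}
  {Ω : Type u} [Field Ω] [Algebra K Ω]

theorem iz_deg_z (hC : ∀ i, Cov nd l₀ Dc (Ψ i) (Θ i) (M i)) (j : Fin m → ℕ) {x : Fin n → Ω}
    {S : Fin m × Fin n → Ω} (hind : AlgebraicIndependent K (Sum.elim x S))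
    {u : VE m (n + 1) → Ω} (hu : IzP nd Ψ x S u) (p : Fin m × Fin (n + 1)) :
    (izα nd j Θ (fun i => M i l₀) Ψ (VE.z p)).degreeOf (VE.z p) = 1 ∧
      lcv (VE.z p) (izα nd j Θ (fun i => M i l₀) Ψ (VE.z p)) =
        (izR nd j Θ (fun i => M i l₀) p).1 := by
  refine izα_lin nd j Ψ (fun i o => (hC i).dTh o) (fun i o => (hC i).dM l₀ o) p ?_
  intro h0
  apply izR_ne nd hC j hind hu p
  rw [h0, map_zero]

/-- Points which agree with `s₀` outside of `l` and satisfy the relations of `l`. -/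
def izQ (α : VE m (n + 1) → MvPolynomial (VE m (n + 1)) K) (s₀ : VE m (n + 1) → Ω)
    (l : List (VE m (n + 1))) (s : VE m (n + 1) → Ω) : Prop :=
  (∀ y, y ∉ l → s y = s₀ y) ∧ ∀ y ∈ l, aeval s (α y) = 0

theorem izQ_update {α : VE m (n + 1) → MvPolynomial (VE m (n + 1)) K} {s₀ : VE m (n + 1) → Ω}
    {y : VE m (n + 1)} {l : List (VE m (n + 1))} {s : VE m (n + 1) → Ω} (h : izQ α s₀ l s)
    (hd : ∀ y' ∈ l, (α y').degreeOf y = 0) {r : Ω}
    (hr : aeval (Function.update s y r) (α y) = 0) :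
    izQ α s₀ (y :: l) (Function.update s y r) := by
  refine ⟨fun y' hy' => ?_, fun y' hy' => ?_⟩
  · rw [List.mem_cons, not_or] at hy'
    rw [Function.update_of_ne hy'.1]
    exact h.1 y' hy'.2
  · by_cases hyy : y' = y
    · rw [hyy]
      exact hr
    · have hy2 : y' ∈ l := (List.mem_cons.1 hy').resolve_left hyy
      rw [aeval_update_of_degreeOf_eq_zero y s r (hd y' hy2)]
      exact h.2 y' hy2

/-- The relations of `w` and `q` as conditions on the point. -/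
theorem izQ_P {j : Fin m → ℕ} {x : Fin n → Ω} {S : Fin m × Fin n → Ω}
    {s₀ : VE m (n + 1) → Ω} (hs : IzP nd Ψ x S s₀)
    {D : Fin m → MvPolynomial (Option (Fin n)) K} {l : List (VE m (n + 1))}
    {s : VE m (n + 1) → Ω} (h : izQ (izα nd j Θ D Ψ) s₀ l s)
    (hx : ∀ a : Fin n, VE.x a.castSucc ∉ l) (hS : ∀ i (a : Fin n), VE.S (i, a.castSucc) ∉ l)
    (hq : VE.q ∈ l ∨ VE.q ∉ l ∧ s VE.q = s₀ VE.q)
    (hw : ∀ i, VE.w i ∈ l ∨ VE.w i ∉ l ∧ s (VE.w i) = s₀ (VE.w i)) : IzP nd Ψ x S s := by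
  have h1 : ∀ a : Fin n, s (VE.x a.castSucc) = x a := fun a => by
    rw [h.1 _ (hx a), hs.hx]
  have h2 : ∀ i (a : Fin n), s (VE.S (i, a.castSucc)) = S (i, a) := fun i a => by
    rw [h.1 _ (hS i a), hs.hS]
  refine ⟨h1, h2, ?_, fun i => ?_⟩
  · rcases hq with hq | ⟨-, hq⟩
    · have h3 : aeval s (rename pD nd.ed.f) = 0 := h.2 _ hq
      rw [aeval_rename] at h3
      rw [← h3]
      congr 2
      funext o
      cases o with
      | none => rfl
      | some a => exact (h1 a).symm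
    · rw [hq]
      exact hs.q
  · rcases hw i with hw | ⟨-, hw⟩
    · have h3 : aeval s (rename (pC i) (Ψ i)) = 0 := h.2 _ hw
      rw [aeval_rename] at h3
      rw [← h3]
      congr 2
      funext o
      cases o with
      | none => rfl
      | some a => exact (h2 i a).symm
    · rw [hw]
      exact hs.w i

/-- Only the variables `z` are eliminated. -/
theorem iz_neZ [IsAlgClosed Ω] (hC : ∀ i, Cov nd l₀ Dc (Ψ i) (Θ i) (M i)) (j : Fin m → ℕ)
    {x : Fin n → Ω} {S : Fin m × Fin n → Ω} (hind : AlgebraicIndependent K (Sum.elim x S))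
    {s₀ : VE m (n + 1) → Ω} (hs : IzP nd Ψ x S s₀)
    (hz : ∀ p, aeval s₀ (izα nd j Θ (fun i => M i l₀) Ψ (VE.z p)) = 0)
    {G : MvPolynomial (VE m (n + 1)) K} (hG : aeval s₀ G ≠ 0) :
    aeval s₀ (ELL (izα nd j Θ (fun i => M i l₀) Ψ) (izZ m n) G) ≠ 0 := by
  obtain ⟨α, hα⟩ : ∃ α, α = izα nd j Θ (fun i => M i l₀) Ψ := ⟨_, rfl⟩
  have hpair : (izZ m n).Pairwise (izO α) := by
    rw [hα]
    exact iz_pairZ nd j (fun i o => (hC i).dTh o) fun i o => (hC i).dM l₀ o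
  have hP : ∀ l s', l <:+ izZ m n → izQ α s₀ l s' → IzP nd Ψ x S s' := by
    intro l s' hl h
    have h0 : ∀ y ∈ l, ∃ p, y = VE.z p := fun y hy => (mem_izZ y).1 (hl.subset hy)
    have hq : VE.q ∉ l := by
      intro h1
      obtain ⟨p, hp⟩ := h0 _ h1
      cases hp
    have hw : ∀ i, VE.w i ∉ l := by
      intro i h1
      obtain ⟨p, hp⟩ := h0 _ h1
      cases hp
    rw [hα] at h
    refine izQ_P nd hs h (fun a h1 => ?_) (fun i a h1 => ?_) (Or.inr ⟨hq, h.1 _ hq⟩)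
      fun i => Or.inr ⟨hw i, h.1 _ (hw i)⟩
    · obtain ⟨p, hp⟩ := h0 _ h1
      cases hp
    · obtain ⟨p, hp⟩ := h0 _ h1
      cases hp
  rw [← hα]
  refine ELL_ne_zero_at α (izZ m n) G s₀ (izQ α s₀)
    ⟨fun _ _ => rfl, fun y hy => absurd hy List.not_mem_nil⟩ ?_ ?_
  · intro y l' s' hl hQ
    have hy : y ∈ izZ m n := hl.subset List.mem_cons_self
    obtain ⟨p, rfl⟩ := (mem_izZ y).1 hy
    have hp2 := List.pairwise_cons.1 (hpair.sublist hl.sublist)
    refine ⟨?_, fun r hr => izQ_update hQ (fun y' hy' => (hp2.1 y' hy').1) hr⟩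
    have hP' := hP l' s' ((List.suffix_cons _ _).trans hl) hQ
    rw [hα, (iz_deg_z nd hC j hind hs p).2]
    exact izR_ne nd hC j hind hP' p
  · intro s' hQ
    have hP' := hP (izZ m n) s' List.suffix_rfl hQ
    have h1 : s' = s₀ := by
      funext y
      by_cases hy : y ∈ izZ m n
      · obtain ⟨p, rfl⟩ := (mem_izZ y).1 hy
        have h2 := hQ.2 _ hy
        have h3 := hz p
        rw [hα, izα_eq, map_sub, map_mul, aeval_X] at h2
        rw [izα_eq, map_sub, map_mul, aeval_X] at h3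
        have h4 : ∀ F : MvPolynomial (VE m (n + 1)) K, (∀ p', F.degreeOf (VE.z p') = 0) →
            aeval s' F = aeval s₀ F := by
          intro F hF
          refine aeval_congr_of_degreeOf F _ _ fun y' hy' => hQ.1 y' ?_
          rw [mem_izZ]
          rintro ⟨p', rfl⟩
          exact hy' (hF p')
        have h5 := fun p' => izR_deg nd j (D := fun i => M i l₀) (fun i o => (hC i).dTh o)
          (fun i o => (hC i).dM l₀ o) p (VE.z p')
        rw [h4 _ fun p' => Nat.le_zero.1 (h5 p').1, h4 _ fun p' => Nat.le_zero.1 (h5 p').2,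
          ← h3] at h2
        exact mul_left_cancel₀ (izR_ne nd hC j hind hs p) (sub_left_injective h2)
      · exact hQ.1 y hy
    rw [h1]
    exact hG

end

end Pool.Agent.Lib.MP_17a322_nt.SL
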