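import Pool.Agent.Lib.MP_17a322_nt.SL.IZ7

/-!
The zero estimate for the covers: the elimination does not vanish.
-/

universe u

namespace Pool.Agent.Lib.MP_17a322_nt.SL

open MvPolynomial
open Pool.Agent.Lib.MP_17a322_nt.RO
open Pool.Agent.Lib.MP_17a322_nt.VJ
open Pool.Agent.Lib.MP_17a322_nt.VN hiding lf
open Pool.Agent.Lib.MP_17a322_nt.VA
open Pool.Agent.Lib.MP_17a322_nt.VP

/-- The leading coefficient of an equation over independent coordinates does not vanish. -/
theorem iz_lead {K : Type u} [Field K] {Ω : Type u} [Field Ω] [Algebra K Ω] {n : ℕ} {τ : Type}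
    [DecidableEq τ] (g : Option (Fin n) → τ) (hg : Function.Injective g)
    {F : MvPolynomial (Option (Fin n)) K} (hF : F ≠ 0) {s : τ → Ω}
    (hs : AlgebraicIndependent K fun a : Fin n => s (g (some a))) :
    aeval s (lcv (g none) (rename g F)) ≠ 0 := by
  have h0 : rename g F ≠ 0 := fun h => hF (rename_injective g hg (by rw [h, map_zero]))
  refine aeval_ne_zero_of_indep (Set.range fun a : Fin n => g (some a)) s ?_ _
    (J1c_lcv_ne_zero _ h0) ?_
  · have h1 : Function.Injective fun y : Set.range (fun a : Fin n => g (some a)) =>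
        Classical.choose y.2 := by
      intro a b hab
      have ha := Classical.choose_spec a.2
      have hb := Classical.choose_spec b.2
      apply Subtype.ext
      rw [← ha, ← hb]
      exact congrArg (fun a => g (some a)) hab
    have h2 := hs.comp _ h1
    have h3 : (fun y : Set.range (fun a : Fin n => g (some a)) => s y) =
        (fun a : Fin n => s (g (some a))) ∘
          fun y : Set.range (fun a : Fin n => g (some a)) => Classical.choose y.2 := by
      funext y
      have ha := Classical.choose_spec y.2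
      exact congrArg s ha.symm
    rw [h3]
    exact h2
  · intro y hy
    by_cases h1 : y = g none
    · rw [h1]
      exact degreeOf_coeff_vw_self _ _ _
    · have h2 : (rename g F).degreeOf y = 0 := by
        refine iz_deg0 _ _ _ fun o ho => ?_
        cases o with
        | none => exact h1 ho
        | some a => exact hy ⟨a, ho.symm⟩
      exact Nat.le_zero.1 ((degreeOf_coeff_vw _ _ _ _).trans h2.le)

section

variable {K : Type u} [Field K] {N : ℕ} {B : AV K N} {n e : ℕ} (nd : Noe B n e) {m q : ℕ}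
  {l₀ : Fin (q + 1)} {Dc : ℕ} {Ψ Θ : Fin m → MvPolynomial (Option (Fin n)) K}
  {M : Fin m → Fin (q + 1) → MvPolynomial (Option (Fin n)) K}
  {Ω : Type u} [Field Ω] [Algebra K Ω]

/-- The elimination does not vanish at the given configuration. -/
theorem iz_ne [IsAlgClosed Ω] (hC : ∀ i, Cov nd l₀ Dc (Ψ i) (Θ i) (M i)) (j : Fin m → ℕ)
    {x : Fin n → Ω} {S : Fin m × Fin n → Ω} (hind : AlgebraicIndependent K (Sum.elim x S))
    {s₀ : VE m (n + 1) → Ω} (hs : IzP nd Ψ x S s₀)
    (hz : ∀ p, aeval s₀ (izα nd j Θ (fun i => M i l₀) Ψ (VE.z p)) = 0)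
    {G : MvPolynomial (VE m (n + 1)) K} (hGv : ∀ p, G.degreeOf (VE.v p) = 0)
    (hGx : G.degreeOf (VE.x (Fin.last n)) = 0) (hGS : ∀ i, G.degreeOf (VE.S (i, Fin.last n)) = 0)
    (hG : aeval s₀ G ≠ 0) :
    aeval s₀ (ELL (izα nd j Θ (fun i => M i l₀) Ψ) (izL m n) G) ≠ 0 := by
  have hd : ∀ i, (Ψ i).degreeOf none ≠ 0 := fun i =>
    ne_of_gt (lt_of_le_of_lt (Nat.zero_le _) (hC i).deg)
  have hneZ := iz_neZ nd hC j hind hs hz hG
  have hΘ : ∀ i o, (Θ i).degreeOf o ≤ Dc := fun i o => (hC i).dTh o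
  have hM : ∀ i o, (M i l₀).degreeOf o ≤ Dc := fun i o => (hC i).dM l₀ o
  have hzz := fun p => (iz_deg_z nd hC j hind hs p).1
  have hzl := fun p => (iz_deg_z nd hC j hind hs p).2
  -- the polynomial after the elimination of `z`
  have hVE : IzV (ELL (izα nd j Θ (fun i => M i l₀) Ψ) (izZ m n) G) := by
    have hp : (izZ m n).Pairwise fun y y' =>
        (izα nd j Θ (fun i => M i l₀) Ψ y').degreeOf y = 0 :=
      (iz_pairZ nd j (Ψ := Ψ) hΘ hM).imp fun {_ _} h => h.1
    have h1 : ∀ t, G.degreeOf t = 0 → (∀ p, t ≠ VE.z p) →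
        (∀ i, izd (n := n) i (izA nd Dc) (4 ^ j i * izA nd Dc) t = 0) →
        (ELL (izα nd j Θ (fun i => M i l₀) Ψ) (izZ m n) G).degreeOf t = 0 := by
      intro t h2 h3 h4
      refine ELL_degreeOf_eq_zero _ _ hp G t (Or.inr ⟨h2, fun y hy => ?_⟩)
      obtain ⟨p, rfl⟩ := (mem_izZ y).1 hy
      exact Nat.le_zero.1 ((izα_deg nd j Ψ hΘ hM p t (h3 p)).trans (h4 p.1).le)
    refine ⟨fun p => ELL_degreeOf_eq_zero _ _ hp G _ (Or.inl ((mem_izZ _).2 ⟨p, rfl⟩)),
      fun p => h1 _ (hGv p) (fun p' h => by cases h) fun i => rfl,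
      h1 _ hGx (fun p' h => by cases h) fun i => if_pos rfl,
      fun i => h1 _ (hGS i) (fun p' h => by cases h) fun i' => if_neg fun h => h.2 rfl⟩
  obtain ⟨α, hα⟩ : ∃ α, α = izα nd j Θ (fun i => M i l₀) Ψ := ⟨_, rfl⟩
  have hpair : (izL m n).Pairwise (izO α) := by
    rw [hα]
    exact iz_pair nd j hΘ hM
  have hxl : ∀ l, l <:+ izL m n → ∀ t, VE.x t ∉ l := by
    intro l hl t h
    rcases (mem_izL _).1 (hl.subset h) with ⟨p, hp⟩ | ⟨i, hi⟩ | hq
    · cases hp
    · cases hi
    · cases hq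
  have hSl : ∀ l, l <:+ izL m n → ∀ p, VE.S p ∉ l := by
    intro l hl t h
    rcases (mem_izL _).1 (hl.subset h) with ⟨p, hp⟩ | ⟨i, hi⟩ | hq
    · cases hp
    · cases hi
    · cases hq
  have hP : ∀ l s', l <:+ izL m n → (∀ i, VE.w i ∈ l) → VE.q ∈ l → izQ α s₀ l s' →
      IzP nd Ψ x S s' := by
    intro l s' hl hw hq h
    rw [hα] at h
    exact izQ_P nd hs h (fun a => hxl l hl _) (fun i a => hSl l hl _) (Or.inl hq)
      fun i => Or.inl (hw i)
  rw [← hα] at hneZ hVE hzz hzl ⊢
  refine ELL_ne_zero_at α (izL m n) G s₀ (izQ α s₀)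
    ⟨fun _ _ => rfl, fun y hy => absurd hy List.not_mem_nil⟩ ?_ ?_
  · intro y l' s' hl hQ
    have hl' : l' <:+ izL m n := (List.suffix_cons _ _).trans hl
    have hy : y ∈ izL m n := hl.subset List.mem_cons_self
    have hp2 := List.pairwise_cons.1 (hpair.sublist hl.sublist)
    refine ⟨?_, fun r hr => izQ_update hQ (fun y' hy' => (hp2.1 y' hy').1) hr⟩
    have hval : ∀ a : Fin n, s' (VE.x a.castSucc) = x a := fun a => by
      rw [hQ.1 _ (hxl l' hl' _), hs.hx]
    have hvalS : ∀ i (a : Fin n), s' (VE.S (i, a.castSucc)) = S (i, a) := fun i a => by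
      rw [hQ.1 _ (hSl l' hl' _), hs.hS]
    rcases (mem_izL y).1 hy with ⟨p, rfl⟩ | ⟨i, rfl⟩ | rfl
    · have hin : ∀ t, t ∈ izL m n → (∀ p', t ≠ VE.z p') → t ∈ l' := by
        intro t ht ht'
        obtain ⟨pre, hpre⟩ := hl
        have h1 := hpair
        rw [← hpre, List.pairwise_append] at h1
        rw [← hpre, List.mem_append] at ht
        rcases ht with ht | ht
        · obtain ⟨p', hp'⟩ := (h1.2.2 t ht (VE.z p) List.mem_cons_self).2 ⟨p, rfl⟩
          exact absurd hp' (ht' p')
        · exact (List.mem_cons.1 ht).resolve_left (ht' p)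
      have hP' := hP l' s' hl'
        (fun i => hin _ ((mem_izL _).2 (Or.inr (Or.inl ⟨i, rfl⟩))) fun p' h => by cases h)
        (hin _ ((mem_izL _).2 (Or.inr (Or.inr rfl))) fun p' h => by cases h) hQ
      rw [hzl]
      exact izR_ne nd hC j hind hP' p
    · rw [hα]
      have h1 : aeval s' (lcv (pC i none) (rename (pC i) (Ψ i))) ≠ 0 := by
        refine iz_lead (pC i) (pC_injective i) (fun h => hd i (by rw [h, degreeOf_zero])) ?_
        have h2 : (fun a : Fin n => s' (pC i (some a))) = fun a => S (i, a) :=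
          funext fun a => hvalS i a
        rw [h2]
        have h3 := hind.comp (fun a : Fin n => (Sum.inr (i, a) : Fin n ⊕ (Fin m × Fin n))) (by
          intro a b hab
          exact congrArg Prod.snd (Sum.inr_injective hab))
        exact h3
      exact h1
    · rw [hα]
      have h1 : aeval s' (lcv (pD none) (rename pD nd.ed.f)) ≠ 0 := by
        refine iz_lead pD pD_injective (fun h => nd.ed_f0 (by rw [h, degreeOf_zero])) ?_
        have h2 : (fun a : Fin n => s' (pD (some a))) = x := funext fun a => hval a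
        rw [h2]
        have h3 := hind.comp (fun a : Fin n => (Sum.inl a : Fin n ⊕ (Fin m × Fin n)))
          Sum.inl_injective
        exact h3
      exact h1
  · intro s' hQ h0
    have hP' := hP (izL m n) s' List.suffix_rfl
      (fun i => (mem_izL _).2 (Or.inr (Or.inl ⟨i, rfl⟩)))
      ((mem_izL _).2 (Or.inr (Or.inr rfl))) hQ
    have h1 := aeval_dvd_ELL α (izZ m n) G (fun y hy => by
      obtain ⟨p, rfl⟩ := (mem_izZ y).1 hy
      rw [hzz]
      exact one_ne_zero) s' (fun y hy => by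
      obtain ⟨p, rfl⟩ := (mem_izZ y).1 hy
      exact hQ.2 _ ((mem_izL _).2 (Or.inl ⟨p, rfl⟩)))
    rw [h0, zero_dvd_iff] at h1
    exact hneZ (iz_swap (fun i => (hC i).prime) hd hind hVE hP' hs h1)

end

end Pool.Agent.Lib.MP_17a322_nt.SL
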