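import Pool.Agent.Lib.MP_17a322_nt.SL.IZ3
import Pool.Agent.Lib.MP_17a322_nt.SL.IZ8
import Pool.Agent.Lib.MP_17a322_nt.VA.E10

/-!
The zero estimate for the covers: bounds for the elimination.
-/

universe u

namespace Pool.Agent.Lib.MP_17a322_nt.SL

open MvPolynomial Height
open Pool.Agent.Lib.MP_17a322_nt.RO
open Pool.Agent.Lib.MP_17a322_nt.VJ
open Pool.Agent.Lib.MP_17a322_nt.VN hiding lf
open Pool.Agent.Lib.MP_17a322_nt.VA
open Pool.Agent.Lib.MP_17a322_nt.VP

theorem iz_nh_rename {K : Type u} [Field K] [NumberField K] {σ τ : Type*} (F : MvPolynomial σ K)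
    (f : σ → τ) (hf : Function.Injective f) : nh (rename f F) = nh F := by
  unfold nh
  congr 1
  funext v
  rw [NV_rename v F f hf]

section

variable {K : Type u} [Field K] [NumberField K] {N : ℕ} {B : AV K N} {n e : ℕ} (nd : Noe B n e)

/-- The relations are good. -/
theorem iz_GRE (Dc : ℕ) : ∃ A : ℝ, 1 ≤ A ∧ ∀ (m : ℕ) (j : Fin m → ℕ)
    (Ψ Θ D : Fin m → MvPolynomial (Option (Fin n)) K),
      (∀ i o, (Ψ i).degreeOf o ≤ Dc) → (∀ i o, (Θ i).degreeOf o ≤ Dc) →
      (∀ i o, (D i).degreeOf o ≤ Dc) →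
      (∀ i, nh1 (Ψ i) ≤ 4 ^ j i ∧ nh1 (Θ i) ≤ 4 ^ j i ∧ nh1 (D i) ≤ 4 ^ j i) →
      (∀ p, (izα nd j Θ D Ψ (VE.z p)).degreeOf (VE.z p) = 1) →
      ∀ y ∈ izL m n, GRE j A y (izα nd j Θ D Ψ y) := by
  obtain ⟨C, hC, hnh⟩ := izα_nh nd
  refine ⟨1 + izA nd Dc + C + Dc + izcP nd + |nh nd.ed.f|, ?_, ?_⟩
  · have h1 : (0 : ℝ) ≤ izA nd Dc := Nat.cast_nonneg _
    have h2 : (0 : ℝ) ≤ Dc := Nat.cast_nonneg _
    have h3 : (0 : ℝ) ≤ izcP nd := Nat.cast_nonneg _
    have h4 := abs_nonneg (nh nd.ed.f)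
    linarith
  intro m j Ψ Θ D hΨ hΘ hD hh hz y hy
  obtain ⟨A, hA⟩ : ∃ A : ℝ, A = 1 + izA nd Dc + C + Dc + izcP nd + |nh nd.ed.f| := ⟨_, rfl⟩
  have h1 : (0 : ℝ) ≤ izA nd Dc := Nat.cast_nonneg _
  have h2 : (0 : ℝ) ≤ Dc := Nat.cast_nonneg _
  have h3 : (0 : ℝ) ≤ izcP nd := Nat.cast_nonneg _
  have h4 := abs_nonneg (nh nd.ed.f)
  have h5 := le_abs_self (nh nd.ed.f)
  have hA1 : 1 ≤ A := by linarith
  have hA0 : 0 ≤ A := by linarith
  rw [← hA]
  rcases (mem_izL y).1 hy with ⟨p, rfl⟩ | ⟨i, rfl⟩ | rfl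
  · refine ⟨?_, fun t => ?_, ?_⟩
    · rw [hz, Nat.cast_one]
      exact hA1
    · show wt j t * _ ≤ A * 4 ^ j p.1
      by_cases ht : t = VE.z p
      · rw [ht, hz, Nat.cast_one, mul_one]
        show (4 : ℝ) ^ j p.1 ≤ A * 4 ^ j p.1
        exact le_mul_of_one_le_left (by positivity) hA1
      · have h6 : ((izα nd j Θ D Ψ (VE.z p)).degreeOf t : ℝ) ≤
            (izd p.1 (izA nd Dc) (4 ^ j p.1 * izA nd Dc) t : ℝ) :=
          Nat.cast_le.2 (izα_deg nd j Ψ hΘ hD p t ht)
        refine (mul_le_mul_of_nonneg_left h6 (zero_le_one.trans (one_le_wt j t))).trans ?_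
        refine (izd_wt j p.1 (izA nd Dc) t).trans ?_
        exact mul_le_mul_of_nonneg_right (by linarith) (by positivity)
    · show _ ≤ A * 4 ^ j p.1
      refine (hnh m j Ψ Θ D p (hh p.1).2.1 (hh p.1).2.2).trans ?_
      exact mul_le_mul_of_nonneg_right (by linarith) (by positivity)
  · have h6 : ∀ t, ((izα nd j Θ D Ψ (VE.w i)).degreeOf t : ℝ) ≤
        (izd i Dc (4 ^ j i * Dc) t : ℝ) := fun t =>
      Nat.cast_le.2 ((iz_degC i (Ψ i) (hΨ i) t).trans (izd_mono i le_rfl (Nat.zero_le _) t))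
    refine ⟨?_, fun t => ?_, ?_⟩
    · refine (h6 _).trans ?_
      have h7 : (izd i Dc (4 ^ j i * Dc) (VE.w i : VE m (n + 1)) : ℝ) = Dc := by
        have h8 := izd_pC (n := n) i Dc (4 ^ j i * Dc) none
        exact_mod_cast h8
      rw [h7]
      linarith
    · show wt j t * _ ≤ A * 4 ^ j i
      refine (mul_le_mul_of_nonneg_left (h6 t) (zero_le_one.trans (one_le_wt j t))).trans ?_
      refine (izd_wt j i Dc t).trans ?_
      exact mul_le_mul_of_nonneg_right (by linarith) (by positivity)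
    · show nh (rename (pC i) (Ψ i)) ≤ A * 4 ^ j i
      rw [iz_nh_rename _ _ (pC_injective i)]
      refine (nh_le_nh1 _).trans ((hh i).1.trans ?_)
      exact le_mul_of_one_le_left (by positivity) hA1
  · have h6 : ∀ t, wt j t * ((rename pD nd.ed.f : MvPolynomial (VE m (n + 1)) K).degreeOf t : ℝ) ≤
        izcP nd := by
      intro t
      by_cases ht : ∃ o, t = pD o
      · obtain ⟨o, rfl⟩ := ht
        have hw : wt j (pD o : VE m (n + 1)) = 1 := by
          cases o <;> rfl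
        rw [degreeOf_rename_of_injective pD_injective, hw, one_mul]
        exact Nat.cast_le.2 (f_deg nd o)
      · rw [iz_deg0 _ _ _ fun o ho => ht ⟨o, ho⟩, Nat.cast_zero, mul_zero]
        exact h3
    refine ⟨?_, fun t => ?_, ?_⟩
    · have h7 := h6 VE.q
      have h8 : wt j (VE.q : VE m (n + 1)) = 1 := rfl
      rw [h8, one_mul] at h7
      refine h7.trans ?_
      linarith
    · show wt j t * _ ≤ A * 1
      refine (h6 t).trans ?_
      linarith
    · show nh (rename pD nd.ed.f) ≤ A * 1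
      rw [iz_nh_rename _ _ pD_injective]
      linarith

end

/-- A polynomial without the last variable. -/
theorem iz_last {K : Type u} [Field K] [NumberField K] {n : ℕ} (G : MvPolynomial (Fin (n + 1)) K)
    (hG : G ≠ 0) (h : G.degreeOf (Fin.last n) = 0) :
    ∃ G' : MvPolynomial (Fin n) K, G' ≠ 0 ∧ (∀ y, G'.degreeOf y = G.degreeOf y.castSucc) ∧
      nh G' = nh G ∧ ∀ s : Fin (n + 1) → K, eval (fun y => s y.castSucc) G' = eval s G := by
  have hr : (G.vars : Set (Fin (n + 1))) ⊆ Set.range (Fin.castSucc : Fin n → Fin (n + 1)) := by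
    intro y hy
    induction y using Fin.lastCases with
    | last => exact absurd h ((D7_mem_vars G _).1 hy)
    | cast a => exact ⟨a, rfl⟩
  obtain ⟨G', hG'⟩ := exists_rename_eq_of_vars_subset_range G _ (Fin.castSucc_injective n) hr
  refine ⟨G', ?_, fun y => ?_, ?_, fun s => ?_⟩
  · rintro rfl
    exact hG (by rw [← hG', map_zero])
  · rw [← hG', degreeOf_rename_of_injective (Fin.castSucc_injective n)]
  · rw [← hG', iz_nh_rename _ _ (Fin.castSucc_injective n)]
  · rw [← hG', eval_rename]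
    rfl

/-- The condition on the path. -/
theorem iz_cond {K : Type u} [Field K] [Infinite K] {m n : ℕ} (c : MvPolynomial (VE m (n + 1)) K)
    (hc : c ≠ 0) (hw : ∀ i, c.degreeOf (VE.w i) = 0) (hq : c.degreeOf VE.q = 0)
    (hz : ∀ p, c.degreeOf (VE.z p) = 0) (hS : ∀ i, c.degreeOf (VE.S (i, Fin.last n)) = 0) :
    ∃ (v : VE m (n + 1) → K) (g : MvPolynomial (Fin n ⊕ Fin m × Option (Fin n)) K), g ≠ 0 ∧
      ∀ (L : Type u) [Field L] [Algebra K L] (x : Fin n → L) (ζ : Fin m × Option (Fin n) → L)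
        (y₀ : VE m (n + 1) → L), (∀ a : Fin n, y₀ (VE.x a.castSucc) = x a) →
        y₀ (VE.x (Fin.last n)) = algebraMap K L (v (VE.x (Fin.last n))) →
        (∀ i (a : Fin n), y₀ (VE.S (i, a.castSucc)) = ζ (i, some a)) →
        (∀ p, y₀ (VE.v p) = algebraMap K L (v (VE.v p))) →
        aeval (Sum.elim x ζ) g = aeval y₀ c := by
  obtain ⟨v, hv⟩ : ∃ v : VE m (n + 1) → K, eval v c ≠ 0 := by
    by_contra hcon
    push Not at hcon
    exact hc (MvPolynomial.funext fun v => by rw [hcon v, map_zero])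
  obtain ⟨ψ, hψ⟩ : ∃ ψ : VE m (n + 1) → MvPolynomial (Fin n ⊕ Fin m × Option (Fin n)) K,
      ψ = fun y => match y with
        | VE.x t => Fin.lastCases
            (motive := fun _ => MvPolynomial (Fin n ⊕ Fin m × Option (Fin n)) K)
            (C (v (VE.x (Fin.last n)))) (fun a : Fin n => X (Sum.inl a)) t
        | VE.S p => Fin.lastCases
            (motive := fun _ => MvPolynomial (Fin n ⊕ Fin m × Option (Fin n)) K)
            0 (fun a : Fin n => X (Sum.inr (p.1, some a))) p.2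
        | VE.v p => C (v (VE.v p))
        | VE.q => 0
        | VE.w _ => 0
        | VE.z _ => 0 := ⟨_, rfl⟩
  have hx : ∀ a : Fin n, ψ (VE.x a.castSucc) = X (Sum.inl a) := by
    intro a
    rw [hψ]
    show Fin.lastCases (motive := fun _ => MvPolynomial (Fin n ⊕ Fin m × Option (Fin n)) K) _ _
      a.castSucc = _
    rw [Fin.lastCases_castSucc]
  have hxl : ψ (VE.x (Fin.last n)) = C (v (VE.x (Fin.last n))) := by
    rw [hψ]
    show Fin.lastCases (motive := fun _ => MvPolynomial (Fin n ⊕ Fin m × Option (Fin n)) K) _ _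
      (Fin.last n) = _
    rw [Fin.lastCases_last]
  have hSc : ∀ i (a : Fin n), ψ (VE.S (i, a.castSucc)) = X (Sum.inr (i, some a)) := by
    intro i a
    rw [hψ]
    show Fin.lastCases (motive := fun _ => MvPolynomial (Fin n ⊕ Fin m × Option (Fin n)) K) _ _
      a.castSucc = _
    rw [Fin.lastCases_castSucc]
  have hvv : ∀ p, ψ (VE.v p) = C (v (VE.v p)) := fun p => by rw [hψ]
  have key : ∀ (L : Type u) [Field L] [Algebra K L] (x : Fin n → L)
      (ζ : Fin m × Option (Fin n) → L) (y₀ : VE m (n + 1) → L),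
      (∀ a : Fin n, y₀ (VE.x a.castSucc) = x a) →
      y₀ (VE.x (Fin.last n)) = algebraMap K L (v (VE.x (Fin.last n))) →
      (∀ i (a : Fin n), y₀ (VE.S (i, a.castSucc)) = ζ (i, some a)) →
      (∀ p, y₀ (VE.v p) = algebraMap K L (v (VE.v p))) →
      aeval (Sum.elim x ζ) (aeval ψ c) = aeval y₀ c := by
    intro L _ _ x ζ y₀ h1 h2 h3 h4
    rw [← AlgHom.comp_apply, MvPolynomial.comp_aeval]
    refine aeval_congr_of_degreeOf c _ _ fun y hy => ?_
    cases y with
    | x t =>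
      induction t using Fin.lastCases with
      | last => rw [hxl, aeval_C, h2]
      | cast a => rw [hx, aeval_X, h1, Sum.elim_inl]
    | q => exact absurd hq hy
    | S p =>
      obtain ⟨i, t⟩ := p
      induction t using Fin.lastCases with
      | last => exact absurd (hS i) hy
      | cast a => rw [hSc, aeval_X, h3, Sum.elim_inr]
    | w i => exact absurd (hw i) hy
    | z p => exact absurd (hz p) hy
    | v p => rw [hvv, aeval_C, h4]
  refine ⟨v, aeval ψ c, ?_, key⟩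
  intro h0
  have h1 := key K (fun a => v (VE.x a.castSucc))
    (fun p => p.2.elim 0 fun a => v (VE.S (p.1, a.castSucc))) v (fun _ => rfl) rfl
    (fun _ _ => rfl) (fun _ => rfl)
  rw [h0, map_zero] at h1
  exact hv h1.symm

theorem iz_div {L : Type*} [Field L] (f h : PowerSeries L) (a : ℕ)
    (hd : f ∣ h) (ha : PowerSeries.coeff a h ≠ 0) :
    ∃ a' ≤ a, PowerSeries.coeff a' f ≠ 0 := by
  by_contra hcon
  push Not at hcon
  obtain ⟨g, rfl⟩ := hd
  apply ha
  rw [PowerSeries.coeff_mul]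
  refine Finset.sum_eq_zero fun p hp => ?_
  rw [Finset.HasAntidiagonal.mem_antidiagonal] at hp
  rw [hcon p.1 (by omega), zero_mul]

end Pool.Agent.Lib.MP_17a322_nt.SL
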