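import Pool.Agent.Lib.MP_17a322_nt.SL.Defs
import Pool.Agent.Lib.MP_17a322_nt.VP.N1

/-!
SL, numerical theorem: the weighted norm of a polynomial over a ring with a seminorm.
-/

universe u

namespace Pool.Agent.Lib.MP_17a322_nt.SL

open MvPolynomial Height
open Pool.Agent.Lib.MP_17a322_nt.RO
open Pool.Agent.Lib.MP_17a322_nt.VJ
open Pool.Agent.Lib.MP_17a322_nt.VN
open Pool.Agent.Lib.MP_17a322_nt.VA
open Pool.Agent.Lib.MP_17a322_nt.VP

section

variable {L : Type*} [Field L] (v : AbsoluteValue L ℝ) {R : Type*} [CommRing R] [Algebra L R]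
  (ν : R → ℝ) {σ : Type*} [Fintype σ]

/-- The weighted norm. -/
noncomputable def GN (ρ : σ → ℝ) (f : MvPolynomial σ R) : ℝ :=
  open Classical in
  if IsNonarchimedean v then ⨆ m : σ →₀ ℕ, ν (coeff m f) * ∏ t, ρ t ^ m t
  else ∑ m ∈ f.support, ν (coeff m f) * ∏ t, ρ t ^ m t

variable {v} {ν}

omit [Algebra L R] in
theorem GN_na (hv : IsNonarchimedean v) (ρ : σ → ℝ) (f : MvPolynomial σ R) :
    GN v ν ρ f = ⨆ m : σ →₀ ℕ, ν (coeff m f) * ∏ t, ρ t ^ m t := by
  unfold GN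
  rw [if_pos hv]

omit [Algebra L R] in
theorem GN_ar (hv : ¬ IsNonarchimedean v) (ρ : σ → ℝ) (f : MvPolynomial σ R) :
    GN v ν ρ f = ∑ m ∈ f.support, ν (coeff m f) * ∏ t, ρ t ^ m t := by
  unfold GN
  rw [if_neg hv]

theorem GN_ars (h : SN v ν) (hv : ¬ IsNonarchimedean v) (ρ : σ → ℝ) (f : MvPolynomial σ R)
    (s : Finset (σ →₀ ℕ)) (hs : f.support ⊆ s) :
    GN v ν ρ f = ∑ m ∈ s, ν (coeff m f) * ∏ t, ρ t ^ m t := by
  rw [GN_ar hv]
  refine Finset.sum_subset hs (fun m _ hm => ?_)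
  rw [notMem_support_iff.1 hm, h.zero, zero_mul]

theorem GN_term_nonneg (h : SN v ν) {ρ : σ → ℝ} (hρ : ∀ t, 0 ≤ ρ t) (f : MvPolynomial σ R)
    (m : σ →₀ ℕ) : 0 ≤ ν (coeff m f) * ∏ t, ρ t ^ m t :=
  mul_nonneg (h.nonneg _) (Finset.prod_nonneg fun t _ => pow_nonneg (hρ t) _)

theorem GN_bdd (h : SN v ν) {ρ : σ → ℝ} (hρ : ∀ t, 0 ≤ ρ t) (f : MvPolynomial σ R) :
    BddAbove (Set.range fun m : σ →₀ ℕ => ν (coeff m f) * ∏ t, ρ t ^ m t) := by
  refine ⟨∑ m ∈ f.support, ν (coeff m f) * ∏ t, ρ t ^ m t, ?_⟩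
  rintro _ ⟨m, rfl⟩
  by_cases hm : m ∈ f.support
  · exact Finset.single_le_sum (f := fun m => ν (coeff m f) * ∏ t, ρ t ^ m t)
      (fun i _ => GN_term_nonneg h hρ f i) hm
  · show ν (coeff m f) * ∏ t, ρ t ^ m t ≤ _
    rw [notMem_support_iff.1 hm, h.zero, zero_mul]
    exact Finset.sum_nonneg (fun i _ => GN_term_nonneg h hρ f i)

theorem GN_coeff_le (h : SN v ν) {ρ : σ → ℝ} (hρ : ∀ t, 0 ≤ ρ t) (f : MvPolynomial σ R)
    (m : σ →₀ ℕ) : ν (coeff m f) * ∏ t, ρ t ^ m t ≤ GN v ν ρ f := by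
  by_cases hv : IsNonarchimedean v
  · rw [GN_na hv]
    exact le_ciSup (GN_bdd h hρ f) m
  · rw [GN_ar hv]
    by_cases hm : m ∈ f.support
    · exact Finset.single_le_sum (f := fun m => ν (coeff m f) * ∏ t, ρ t ^ m t)
        (fun i _ => GN_term_nonneg h hρ f i) hm
    · rw [notMem_support_iff.1 hm, h.zero, zero_mul]
      exact Finset.sum_nonneg (fun i _ => GN_term_nonneg h hρ f i)

theorem GN_nonneg (h : SN v ν) {ρ : σ → ℝ} (hρ : ∀ t, 0 ≤ ρ t) (f : MvPolynomial σ R) :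
    0 ≤ GN v ν ρ f :=
  (GN_term_nonneg h hρ f 0).trans (GN_coeff_le h hρ f 0)

theorem GN_monomial (h : SN v ν) {ρ : σ → ℝ} (hρ : ∀ t, 0 ≤ ρ t) (m : σ →₀ ℕ) (c : R) :
    GN v ν ρ (monomial m c) = ν c * ∏ t, ρ t ^ m t := by
  classical
  by_cases hv : IsNonarchimedean v
  · rw [GN_na hv]
    refine le_antisymm (ciSup_le fun n => ?_) ?_
    · rw [coeff_monomial]
      split_ifs with h1
      · rw [h1]
      · rw [h.zero, zero_mul]
        exact mul_nonneg (h.nonneg _) (Finset.prod_nonneg fun t _ => pow_nonneg (hρ t) _)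
    · have h1 := le_ciSup (GN_bdd h hρ (monomial m c)) m
      have h2 : coeff m (monomial m c) = c := by rw [coeff_monomial, if_pos rfl]
      simp only [h2] at h1
      exact h1
  · rw [GN_ars h hv ρ (monomial m c) {m} support_monomial_subset, Finset.sum_singleton,
      coeff_monomial, if_pos rfl]

theorem GN_add_max (h : SN v ν) (hv : IsNonarchimedean v) {ρ : σ → ℝ} (hρ : ∀ t, 0 ≤ ρ t)
    (f g : MvPolynomial σ R) : GN v ν ρ (f + g) ≤ max (GN v ν ρ f) (GN v ν ρ g) := by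
  rw [GN_na hv ρ (f + g)]
  refine ciSup_le fun m => ?_
  have hp : 0 ≤ ∏ t, ρ t ^ m t := Finset.prod_nonneg fun t _ => pow_nonneg (hρ t) _
  rw [coeff_add]
  refine (mul_le_mul_of_nonneg_right (h.add_max hv _ _) hp).trans ?_
  rw [max_mul_of_nonneg _ _ hp]
  exact max_le_max (GN_coeff_le h hρ f m) (GN_coeff_le h hρ g m)

theorem GN_add (h : SN v ν) {ρ : σ → ℝ} (hρ : ∀ t, 0 ≤ ρ t) (f g : MvPolynomial σ R) :
    GN v ν ρ (f + g) ≤ GN v ν ρ f + GN v ν ρ g := by
  classical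
  by_cases hv : IsNonarchimedean v
  · exact (GN_add_max h hv hρ f g).trans
      (max_le_add_of_nonneg (GN_nonneg h hρ f) (GN_nonneg h hρ g))
  · rw [GN_ars h hv ρ (f + g) (f.support ∪ g.support) support_add,
      GN_ars h hv ρ f (f.support ∪ g.support) Finset.subset_union_left,
      GN_ars h hv ρ g (f.support ∪ g.support) Finset.subset_union_right,
      ← Finset.sum_add_distrib]
    refine Finset.sum_le_sum (fun m _ => ?_)
    rw [coeff_add, ← add_mul]
    exact mul_le_mul_of_nonneg_right (h.add _ _)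
      (Finset.prod_nonneg fun t _ => pow_nonneg (hρ t) _)

theorem GN_zero (h : SN v ν) {ρ : σ → ℝ} (hρ : ∀ t, 0 ≤ ρ t) :
    GN v ν ρ (0 : MvPolynomial σ R) = 0 := by
  have h1 := GN_monomial h hρ (0 : σ →₀ ℕ) (0 : R)
  rw [map_zero, h.zero, zero_mul] at h1
  exact h1

theorem GN_sum (h : SN v ν) {ρ : σ → ℝ} (hρ : ∀ t, 0 ≤ ρ t) {ι : Type*} (s : Finset ι)
    (f : ι → MvPolynomial σ R) : GN v ν ρ (∑ i ∈ s, f i) ≤ ∑ i ∈ s, GN v ν ρ (f i) := by
  classical
  induction s using Finset.induction_on with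
  | empty => rw [Finset.sum_empty, Finset.sum_empty, GN_zero h hρ]
  | insert a s ha ih =>
    rw [Finset.sum_insert ha, Finset.sum_insert ha]
    exact (GN_add h hρ _ _).trans (by linarith)

theorem GN_C (h : SN v ν) {ρ : σ → ℝ} (hρ : ∀ t, 0 ≤ ρ t) (c : R) :
    GN v ν ρ (C c : MvPolynomial σ R) = ν c := by
  rw [C_apply, GN_monomial h hρ]
  simp

/-- The weighted norm is a seminorm. -/
theorem SN_GN (h : SN v ν) {ρ : σ → ℝ} (hρ : ∀ t, 0 ≤ ρ t) :
    SN v (fun f : MvPolynomial σ R => GN v ν ρ f) := by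
  classical
  refine ⟨fun f => GN_nonneg h hρ f, GN_zero h hρ, fun f => ?_, fun f g => GN_add h hρ f g,
    fun hv f g => GN_add_max h hv hρ f g, fun f g => ?_, fun c => ?_⟩
  · by_cases hv : IsNonarchimedean v
    · show GN v ν ρ (-f) = GN v ν ρ f
      rw [GN_na hv, GN_na hv]
      refine iSup_congr (fun m => ?_)
      rw [coeff_neg, h.neg]
    · show GN v ν ρ (-f) = GN v ν ρ f
      rw [GN_ar hv, GN_ar hv, support_neg]
      refine Finset.sum_congr rfl (fun m _ => ?_)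
      rw [coeff_neg, h.neg]
  · by_cases hv : IsNonarchimedean v
    · show GN v ν ρ (f * g) ≤ GN v ν ρ f * GN v ν ρ g
      rw [GN_na hv ρ (f * g)]
      refine ciSup_le fun m => ?_
      have hp : ∀ m : σ →₀ ℕ, 0 ≤ ∏ t, ρ t ^ m t := fun m =>
        Finset.prod_nonneg fun t _ => pow_nonneg (hρ t) _
      rw [coeff_mul]
      rcases (hp m).lt_or_eq with hpos | hz
      · rw [← le_div_iff₀ hpos]
        refine SN.sum_le_max hv h _ _ (div_nonneg (mul_nonneg (GN_nonneg h hρ f)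
          (GN_nonneg h hρ g)) hpos.le) (fun x hx => ?_)
        rw [le_div_iff₀ hpos]
        have hxm : x.1 + x.2 = m := Finset.HasAntidiagonal.mem_antidiagonal.1 hx
        have h1 : ∏ t, ρ t ^ m t = (∏ t, ρ t ^ x.1 t) * ∏ t, ρ t ^ x.2 t := by
          rw [← Finset.prod_mul_distrib]
          refine Finset.prod_congr rfl fun t _ => ?_
          rw [← hxm, Finsupp.add_apply, pow_add]
        calc ν (coeff x.1 f * coeff x.2 g) * ∏ t, ρ t ^ m t ≤
            (ν (coeff x.1 f) * ν (coeff x.2 g)) * ∏ t, ρ t ^ m t :=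
              mul_le_mul_of_nonneg_right (h.mul _ _) hpos.le
          _ = (ν (coeff x.1 f) * ∏ t, ρ t ^ x.1 t) * (ν (coeff x.2 g) * ∏ t, ρ t ^ x.2 t) := by
              rw [h1]
              ring
          _ ≤ _ := mul_le_mul (GN_coeff_le h hρ f _) (GN_coeff_le h hρ g _)
              (GN_term_nonneg h hρ g _) (GN_nonneg h hρ f)
      · rw [← hz, mul_zero]
        exact mul_nonneg (GN_nonneg h hρ f) (GN_nonneg h hρ g)
    · show GN v ν ρ (f * g) ≤ GN v ν ρ f * GN v ν ρ g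
      have h1 : f * g = ∑ m ∈ f.support, ∑ n ∈ g.support,
          monomial (m + n) (coeff m f * coeff n g) := by
        conv_lhs => rw [← support_sum_monomial_coeff f, ← support_sum_monomial_coeff g,
          Finset.sum_mul_sum]
        refine Finset.sum_congr rfl (fun m _ => Finset.sum_congr rfl (fun n _ => ?_))
        rw [monomial_mul]
      rw [h1]
      refine (GN_sum h hρ _ _).trans ?_
      rw [GN_ar hv ρ f, GN_ar hv ρ g, Finset.sum_mul_sum]
      refine Finset.sum_le_sum (fun m _ => (GN_sum h hρ _ _).trans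
        (Finset.sum_le_sum (fun n _ => ?_)))
      rw [GN_monomial h hρ]
      have h2 : ∏ t, ρ t ^ (m + n) t = (∏ t, ρ t ^ m t) * ∏ t, ρ t ^ n t := by
        rw [← Finset.prod_mul_distrib]
        refine Finset.prod_congr rfl fun t _ => ?_
        rw [Finsupp.add_apply, pow_add]
      rw [h2]
      calc ν (coeff m f * coeff n g) * ((∏ t, ρ t ^ m t) * ∏ t, ρ t ^ n t) ≤
          (ν (coeff m f) * ν (coeff n g)) * ((∏ t, ρ t ^ m t) * ∏ t, ρ t ^ n t) :=
            mul_le_mul_of_nonneg_right (h.mul _ _) (mul_nonneg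
              (Finset.prod_nonneg fun t _ => pow_nonneg (hρ t) _)
              (Finset.prod_nonneg fun t _ => pow_nonneg (hρ t) _))
        _ = _ := by ring
  · show GN v ν ρ (algebraMap L (MvPolynomial σ R) c) ≤ v c
    have h1 : algebraMap L (MvPolynomial σ R) c = C (algebraMap L R c) := by
      rw [MvPolynomial.algebraMap_apply]
    rw [h1, GN_C h hρ]
    exact h.map c

theorem GN_C_mul_X_le (h : SN v ν) {ρ : σ → ℝ} (hρ : ∀ t, 0 ≤ ρ t) (c : R) (t : σ) :
    GN v ν ρ (C c * X t : MvPolynomial σ R) = ν c * ρ t := by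
  classical
  have h1 : (C c * X t : MvPolynomial σ R) = monomial (Finsupp.single t 1) c := by
    rw [C_mul_X_eq_monomial]
  rw [h1, GN_monomial h hρ]
  congr 1
  rw [Finset.prod_eq_single t]
  · rw [Finsupp.single_eq_same, pow_one]
  · intro b _ hb
    rw [Finsupp.single_eq_of_ne hb, pow_zero]
  · intro h2
    exact absurd (Finset.mem_univ t) h2

/-- The norm of a coefficient. -/
theorem GN_coeff_le' (h : SN v ν) {ρ : σ → ℝ} (hρ : ∀ t, 0 < ρ t) (f : MvPolynomial σ R)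
    (m : σ →₀ ℕ) : ν (coeff m f) ≤ GN v ν ρ f * ∏ t, (ρ t)⁻¹ ^ m t := by
  have hp : 0 < ∏ t, ρ t ^ m t := Finset.prod_pos fun t _ => pow_pos (hρ t) _
  have h1 := GN_coeff_le h (fun t => (hρ t).le) f m
  rw [← le_div_iff₀ hp] at h1
  refine h1.trans (le_of_eq ?_)
  rw [div_eq_mul_inv, ← Finset.prod_inv_distrib]
  congr 1
  refine Finset.prod_congr rfl fun t _ => ?_
  rw [inv_pow]

end

section

variable {L : Type*} [Field L] {v : AbsoluteValue L ℝ} {R : Type*} [CommRing R] [Algebra L R]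
  {ν : R → ℝ} {σ : Type*} [Fintype σ] {S : Type*} [CommRing S] [Algebra L S] [Algebra R S]
  {ν' : S → ℝ}

/-- The value of a polynomial: the sizes of the monomials of the support matter. -/
theorem N_sup (h : SN v ν) (h' : SN v ν') (hm : ∀ r : R, ν' (algebraMap R S r) ≤ ν r)
    (H : MvPolynomial σ R) (f : σ → S) {B : ℝ} (hB : 0 ≤ B)
    (hw : ∀ w ∈ H.support, ∏ t, ν' (f t) ^ w t ≤ B) :
    ν' (aeval f H) ≤ GN v ν (fun _ => 1) H * B := by
  classical
  have h01 : ∀ t : σ, (0 : ℝ) ≤ (fun _ : σ => (1 : ℝ)) t := fun _ => zero_le_one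
  have e1 : aeval f H = ∑ w ∈ H.support, algebraMap R S (coeff w H) * ∏ t, f t ^ w t := by
    rw [aeval_def, eval₂_eq']
  have hterm : ∀ w ∈ H.support, ν' (algebraMap R S (coeff w H) * ∏ t, f t ^ w t) ≤
      ν (coeff w H) * B := by
    intro w hw'
    refine (h'.mul _ _).trans ?_
    refine mul_le_mul (hm _) ?_ (h'.nonneg _) (h.nonneg _)
    refine (h'.prod_le _ _).trans (le_trans ?_ (hw w hw'))
    exact Finset.prod_le_prod (fun t _ => h'.nonneg _) fun t _ => h'.pow_le _ _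
  have hone : ∀ w : σ →₀ ℕ, ∏ t, ((fun _ : σ => (1 : ℝ)) t) ^ w t = 1 := by
    intro w
    simp
  rw [e1]
  by_cases hv : IsNonarchimedean v
  · refine SN.sum_le_max hv h' _ _ (mul_nonneg (GN_nonneg h h01 H) hB) fun w hw' => ?_
    refine (hterm w hw').trans (mul_le_mul_of_nonneg_right ?_ hB)
    have h1 := GN_coeff_le h h01 H w
    rwa [hone, mul_one] at h1
  · refine (h'.sum_le_sum _ _).trans ((Finset.sum_le_sum hterm).trans (le_of_eq ?_))
    rw [← Finset.sum_mul, GN_ar hv]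
    congr 1
    refine Finset.sum_congr rfl fun w _ => ?_
    rw [hone, mul_one]

end

section

variable {K L : Type*} [Field K] [Field L] [Algebra K L] {v : AbsoluteValue L ℝ} {σ : Type*}
  [Fintype σ] {S : Type*} [CommRing S] [Algebra L S] [Algebra K S] [IsScalarTower K L S]
  {ν' : S → ℝ}

theorem GN_eq_NV (F : MvPolynomial σ L) : GN v (fun x : L => v x) (fun _ => 1) F = NV v F := by
  have hone : ∀ w : σ →₀ ℕ, ∏ t, ((fun _ : σ => (1 : ℝ)) t) ^ w t = 1 := by
    intro w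
    simp
  unfold GN NV
  simp only [hone, mul_one]

/-- The same for a polynomial over `K`. -/
theorem N_supK (h' : SN v ν') (F : MvPolynomial σ K) (f : σ → S) {B : ℝ} (hB : 0 ≤ B)
    (hw : ∀ w ∈ F.support, ∏ t, ν' (f t) ^ w t ≤ B) :
    ν' (aeval f F) ≤ NV v (MvPolynomial.map (algebraMap K L) F) * B := by
  have h1 := N_sup (SN_self v) h' (fun r => h'.map r) (MvPolynomial.map (algebraMap K L) F) f hB
    (fun w hw' => hw w (by
      rw [MvPolynomial.support_map_of_injective _ (algebraMap K L).injective] at hw'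
      exact hw'))
  rw [GN_eq_NV, aeval_map_algebraMap] at h1
  exact h1

end

end Pool.Agent.Lib.MP_17a322_nt.SL
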