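import Pool.Agent.Lib.MP_17a322_nt.SL.N9
import Pool.Agent.Lib.MP_17a322_nt.VP.N10

/-!
SL, numerical theorem: the data; the estimate at the places outside of `Sg` in terms of functions on the
places.
-/

universe u

namespace Pool.Agent.Lib.MP_17a322_nt.SL

open MvPolynomial Height NumberField
open Pool.Agent.Lib.MP_17a322_nt.RO
open Pool.Agent.Lib.MP_17a322_nt.VJ
open Pool.Agent.Lib.MP_17a322_nt.VN
open Pool.Agent.Lib.MP_17a322_nt.VA
open Pool.Agent.Lib.MP_17a322_nt.VP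

/-- The exponents of the linear forms. -/
theorem N_theta {q : ℕ} (c t : Fin (q + 1) → ℝ) {X δ : ℝ} (hs : ∑ l, t l = X)
    (hT : ∀ l, (1 / ((q : ℝ) + 1) - δ) * X ≤ t l) (hδ : 0 ≤ δ * X) :
    - ∑ l, c l * t l ≤ q * (δ * X) * ∑ l, |c l| - X / ((q : ℝ) + 1) * ∑ l, c l := by
  classical
  have hq : (0 : ℝ) < (q : ℝ) + 1 := by positivity
  obtain ⟨u, hu⟩ : ∃ u : Fin (q + 1) → ℝ, ∀ l, u l = t l - X / ((q : ℝ) + 1) :=
    ⟨_, fun _ => rfl⟩
  have hu1 : ∀ l, - (δ * X) ≤ u l := by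
    intro l
    have h1 := hT l
    have h2 : (1 / ((q : ℝ) + 1) - δ) * X = X / ((q : ℝ) + 1) - δ * X := by ring
    rw [hu]
    linarith
  have hus : ∑ l, u l = 0 := by
    have h1 : ∑ l, u l = ∑ l, t l - ∑ _l : Fin (q + 1), X / ((q : ℝ) + 1) := by
      rw [← Finset.sum_sub_distrib]
      exact Finset.sum_congr rfl fun l _ => hu l
    rw [h1, hs, Finset.sum_const, Finset.card_univ, Fintype.card_fin, nsmul_eq_mul]
    push_cast
    rw [mul_div_cancel₀ _ hq.ne', sub_self]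
  have hqn : (0 : ℝ) ≤ q := Nat.cast_nonneg q
  have hu2 : ∀ l, u l ≤ q * (δ * X) := by
    intro l
    have h1 : ∑ l' ∈ Finset.univ.erase l, u l' + u l = 0 := by
      rw [Finset.sum_erase_add _ _ (Finset.mem_univ l), hus]
    have h2 : ∑ _l' ∈ Finset.univ.erase l, (- (δ * X)) ≤ ∑ l' ∈ Finset.univ.erase l, u l' :=
      Finset.sum_le_sum fun l' _ => hu1 l'
    rw [Finset.sum_const, Finset.card_erase_of_mem (Finset.mem_univ _), Finset.card_univ,
      Fintype.card_fin, nsmul_eq_mul, Nat.add_sub_cancel] at h2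
    linarith
  have hu3 : ∀ l, |u l| ≤ q * (δ * X) := by
    intro l
    rw [abs_le]
    refine ⟨?_, hu2 l⟩
    rcases Nat.eq_zero_or_pos q with h0 | h0
    · subst h0
      have h1 : ∑ l' : Fin (0 + 1), u l' = u l := by
        rw [Finset.sum_eq_single l]
        · intro b _ hb
          exact absurd (Fin.ext (by omega)) hb
        · intro h
          exact absurd (Finset.mem_univ l) h
      rw [hus] at h1
      rw [← h1]
      simp
    · have h1 : (1 : ℝ) ≤ q := by exact_mod_cast h0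
      have h2 : δ * X ≤ q * (δ * X) := le_mul_of_one_le_left hδ h1
      linarith [hu1 l]
  have h1 : - ∑ l, c l * t l = - (∑ l, c l * u l) - X / ((q : ℝ) + 1) * ∑ l, c l := by
    have h2 : ∑ l, c l * t l = ∑ l, c l * u l + X / ((q : ℝ) + 1) * ∑ l, c l := by
      rw [Finset.mul_sum, ← Finset.sum_add_distrib]
      refine Finset.sum_congr rfl fun l _ => ?_
      rw [hu]
      ring
    rw [h2]
    ring
  have h2 : - (∑ l, c l * u l) ≤ q * (δ * X) * ∑ l, |c l| := by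
    rw [← Finset.sum_neg_distrib, Finset.mul_sum]
    refine Finset.sum_le_sum fun l _ => ?_
    calc - (c l * u l) ≤ |c l * u l| := neg_le_abs _
      _ = |c l| * |u l| := abs_mul _ _
      _ ≤ |c l| * (q * (δ * X)) := mul_le_mul_of_nonneg_left (hu3 l) (abs_nonneg _)
      _ = _ := by ring
  rw [h1]
  linarith

section

variable {K : Type u} [Field K] [NumberField K]

/-- A function at the places in `Sg`. -/
noncomputable def N_sg (Sg : Finset (AbsoluteValue K ℝ)) (f : AbsoluteValue K ℝ → ℝ)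
    (v : AbsoluteValue K ℝ) : ℝ :=
  open Classical in
  if v ∈ Sg then f v else 0

omit [NumberField K] in
theorem N_sg_pos {Sg : Finset (AbsoluteValue K ℝ)} (f : AbsoluteValue K ℝ → ℝ)
    {v : AbsoluteValue K ℝ} (hv : v ∈ Sg) : N_sg Sg f v = f v := by
  unfold N_sg
  rw [if_pos hv]

omit [NumberField K] in
theorem N_sg_neg {Sg : Finset (AbsoluteValue K ℝ)} (f : AbsoluteValue K ℝ → ℝ)
    {v : AbsoluteValue K ℝ} (hv : v ∉ Sg) : N_sg Sg f v = 0 := by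
  unfold N_sg
  rw [if_neg hv]

theorem N_FS_sub (Sg : Finset (AbsoluteValue K ℝ)) {f g : AbsoluteValue K ℝ → ℝ} (hg : FS g)
    (h : ∀ v, v ∉ Sg → f v = g v) : FS f := by
  have h1 : {v : AdmissibleAbsValues.nonarchAbsVal (K := K) | v.val ∈ Sg}.Finite := by
    refine Set.Finite.of_finite_image (f := Subtype.val) ((Sg.finite_toSet).subset ?_)
      Subtype.val_injective.injOn
    rintro _ ⟨v, hv, rfl⟩
    exact hv
  refine (h1.union hg).subset fun v hv => ?_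
  by_cases hvS : v.val ∈ Sg
  · exact Or.inl hvS
  · right
    show g v.val ≠ 0
    rw [← h _ hvS]
    exact hv

theorem N_FS_sg (Sg : Finset (AbsoluteValue K ℝ)) (f : AbsoluteValue K ℝ → ℝ) :
    FS (N_sg Sg f) := by
  refine N_FS_sub Sg (g := fun _ => 0) ?_ fun v hv => N_sg_neg f hv
  unfold FS
  simp

theorem N_FS_sz (Sg : Finset (AbsoluteValue K ℝ)) {q : ℕ}
    (c : AbsoluteValue K ℝ → Fin (q + 1) → ℝ) (h : ℝ)
    (M : AbsoluteValue K ℝ → Matrix (Fin (q + 1)) (Fin (q + 1)) K)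
    {y : Fin (q + 1) → K} (hy : y ≠ 0) : FS (sz Sg c h M y) := by
  refine N_FS_sub Sg (g := fun v => Real.log (⨆ l, v (y l))) (FS_log_iSup hy) fun v hv => ?_
  unfold sz
  rw [if_neg hv]

end

section

variable {K : Type u} [Field K] [NumberField K] {N : ℕ} {A : AV K N} {n e : ℕ} (nd : Noe A n e)

/-- The constant of a block. -/
def N_nq (q q' : ℕ) : ℕ := 4 * (q' + 1) * (q + 1) ^ 2 * (q + 1).factorial

theorem N_nq_pos (q q' : ℕ) : 0 < N_nq q q' := by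
  unfold N_nq
  have := Nat.factorial_pos (q + 1)
  positivity

/-- The data. -/
structure N_cx (Sg : Finset (AbsoluteValue K ℝ)) (E₀ E : SC K) (c₀ a₁ D : ℕ) (C₁ : ℝ)
    {m q q' : ℕ} (P : Fin m → A.Pts K) (j : Fin m → ℕ)
    (Λ : Fin m → AbsoluteValue K ℝ →
      Matrix (Fin (q + 1)) (Fin (q + 1)) (MvPolynomial (Fin (N + 1)) K))
    (y : Fin m → Fin q' → Fin (q + 1) → K) (F : MvPolynomial (VQ m n (q + 1)) K) (k : Fin m → ℕ)
    (T : ℝ) {L : Type u} [Field L] [Algebra K L] (Q : A.Pts L)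
    (ζ : Fin m × Option (Fin n) → L) (x η : Fin m → Fin (N + 1) → PowerSeries L) : Prop where
  ok : N_OK nd E₀ E a₁
  cst : ∀ w : AbsoluteValue L ℝ, cst w (N_nq q q') ≤ E.k w
  c1 : N_C1 N D c₀ ≤ C₁
  good : ∀ i, nd.Good (P i)
  hom : ∀ i, ∀ v ∈ Sg, ∀ k l, (Λ i v k l).IsHomogeneous D
  det : ∀ i, ∀ v ∈ Sg, eval (nd.y (P i)) (Λ i v).det ≠ 0
  van : ∀ v ∈ Sg, VanM nd j (fun i => Λ i v) T F
  ne : F ≠ 0
  u : ∀ w ∈ F.support, ∀ i, ∑ l, w (VQ.u (i, l)) = k i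
  y0 : ∀ i s, y i s ≠ 0
  gQ : nd.Good Q
  blk : ∀ i, N_B nd E₀ c₀ (P i) (4 ^ j i) (fun k => ζ (i, some k)) (A.mu (j i) (nd.y Q))
      (nd.s (A.img (Algebra.ofId K L) (P i) - 2 ^ j i • Q)) (x i) (η i)
  gd : ∀ i, nd.Good (A.img (Algebra.ofId K L) (P i) - 2 ^ j i • Q)
  row : ∀ i, A.x (A.img (Algebra.ofId K L) (P i) - 2 ^ (j i + 1) • Q) A.b₀ ≠ 0

/-- The logarithm of the contribution of the variables `x`, `th`, `z`. -/
noncomputable def N_G3 {m q : ℕ} (E : SC K) (a₁ : ℕ) (F : MvPolynomial (VQ m n q) K)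
    {L : Type u} [Field L] [Algebra K L] (sQ : Fin n → L) (qd : Fin m → Fin n → L)
    (w : AbsoluteValue L ℝ) : ℝ :=
  ∑ a, (F.degreeOf (VQ.x a) : ℝ) * Real.log (max 1 (w (sQ a))) +
    ∑ i, (F.degreeOf (VQ.th i) : ℝ) * (Real.log (E.k w) +
      a₁ * (Real.log (E.k w) + Real.log (mq w (qd i)))) +
    ∑ p : Fin m × Fin n, (F.degreeOf (VQ.z p) : ℝ) * (Real.log (E.k w) +
      a₁ * (Real.log (E.k w) + Real.log (mq w (qd p.1))))

omit [NumberField K] in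
theorem N_WF_exp {m q : ℕ} (E : SC K) (a₁ : ℕ) (F : MvPolynomial (VQ m n q) K)
    {L : Type u} [Field L] [Algebra K L] (sQ : Fin n → L) (qd : Fin m → Fin n → L)
    (w : AbsoluteValue L ℝ) :
    N_WF F (fun a => max 1 (w (sQ a))) (fun i => E.k w * (E.k w * mq w (qd i)) ^ a₁) =
      Real.exp (N_G3 E a₁ F sQ qd w) := by
  have h1 : ∀ a, 0 < max 1 (w (sQ a)) := fun a => lt_max_of_lt_left one_pos
  have h2 : ∀ i, 0 < E.k w * mq w (qd i) := fun i => mul_pos (E.pos w) (mq_posB w _)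
  have h3 : ∀ i, Real.exp (Real.log (E.k w) + a₁ * (Real.log (E.k w) + Real.log (mq w (qd i)))) =
      E.k w * (E.k w * mq w (qd i)) ^ a₁ := by
    intro i
    rw [Real.exp_add, Real.exp_log (E.pos w), Real.exp_nat_mul, Real.exp_add,
      Real.exp_log (E.pos w), Real.exp_log (mq_posB w _)]
  unfold N_WF N_G3
  rw [Real.exp_add, Real.exp_add, Real.exp_sum, Real.exp_sum, Real.exp_sum]
  congr 1
  · congr 1
    · refine Finset.prod_congr rfl fun a _ => ?_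
      rw [Real.exp_nat_mul, Real.exp_log (h1 a)]
    · refine Finset.prod_congr rfl fun i _ => ?_
      rw [Real.exp_nat_mul, h3]
  · refine Finset.prod_congr rfl fun p _ => ?_
    rw [Real.exp_nat_mul, h3]

/-- The logarithm of the inverse of the radius. -/
noncomputable def N_lr (Sg : Finset (AbsoluteValue K ℝ)) (E : SC K) (C₁ C₂ h₀ : ℝ)
    {m q : ℕ} (c : AbsoluteValue K ℝ → Fin (q + 1) → ℝ) (P : Fin m → A.Pts K) (j : Fin m → ℕ)
    (Λ : Fin m → AbsoluteValue K ℝ →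
      Matrix (Fin (q + 1)) (Fin (q + 1)) (MvPolynomial (Fin (N + 1)) K))
    {L : Type u} [Field L] [NumberField L] [Algebra K L] (qd : Fin m → Fin n → L)
    (w : AbsoluteValue L ℝ) : ℝ :=
  2 * h₀ * dn L (N_sg Sg fun v => ∑ k, |c v k|) w +
    ∑ i, ((4 : ℝ) ^ j i)⁻¹ * (C₁ * N_l0 nd E w (P i) 0 +
      (Real.log (E.k w) + Real.log (mq w (qd i))) +
      C₂ * dn L (N_sg Sg fun v => lossM nd E v (P i) (Λ i v)) w)

theorem N_dn_nonneg {L : Type u} [Field L] [NumberField L] [Algebra K L]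
    {φ : AbsoluteValue K ℝ → ℝ} (h : ∀ v, 0 ≤ φ v) (w : AbsoluteValue L ℝ) : 0 ≤ dn L φ w := by
  unfold dn
  split_ifs
  · exact mul_nonneg (Nat.cast_nonneg _) (h _)
  · exact le_rfl

omit [NumberField K] in
theorem N_sg_nonneg (Sg : Finset (AbsoluteValue K ℝ)) {f : AbsoluteValue K ℝ → ℝ}
    (hf : ∀ v, 0 ≤ f v) (v : AbsoluteValue K ℝ) : 0 ≤ N_sg Sg f v := by
  unfold N_sg
  split_ifs
  · exact hf v
  · exact le_rfl

/-- The properties of the radius. -/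
theorem N_lr_prop (Sg : Finset (AbsoluteValue K ℝ)) (E : SC K) {C₁ C₂ h₀ : ℝ} (hC₁ : 0 ≤ C₁)
    (hC₂ : 0 ≤ C₂) (hh₀ : 0 ≤ h₀)
    {m q : ℕ} (c : AbsoluteValue K ℝ → Fin (q + 1) → ℝ) (P : Fin m → A.Pts K) (j : Fin m → ℕ)
    (Λ : Fin m → AbsoluteValue K ℝ →
      Matrix (Fin (q + 1)) (Fin (q + 1)) (MvPolynomial (Fin (N + 1)) K))
    {L : Type u} [Field L] [NumberField L] [Algebra K L] (qd : Fin m → Fin n → L)
    (w : AbsoluteValue L ℝ) : 0 ≤ N_lr nd Sg E C₁ C₂ h₀ c P j Λ qd w ∧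
    ∀ i, C₁ * N_l0 nd E w (P i) 0 + (Real.log (E.k w) + Real.log (mq w (qd i))) +
      C₂ * dn L (N_sg Sg fun v => lossM nd E v (P i) (Λ i v)) w +
      4 ^ j i * (2 * h₀ * dn L (N_sg Sg fun v => ∑ k, |c v k|) w) ≤
        4 ^ j i * N_lr nd Sg E C₁ C₂ h₀ c P j Λ qd w := by
  have h1 : 0 ≤ dn L (N_sg Sg fun v => ∑ k, |c v k|) w :=
    N_dn_nonneg (N_sg_nonneg Sg fun v => Finset.sum_nonneg fun k _ => abs_nonneg _) w
  have h2 : ∀ i, 0 ≤ C₁ * N_l0 nd E w (P i) 0 + (Real.log (E.k w) + Real.log (mq w (qd i))) +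
      C₂ * dn L (N_sg Sg fun v => lossM nd E v (P i) (Λ i v)) w := fun i =>
    add_nonneg (add_nonneg (mul_nonneg hC₁ (N_l0_nonneg nd E w _ _))
      (add_nonneg (Real.log_nonneg (E.one_le w)) (Real.log_nonneg (N_one_le_mq w _))))
      (mul_nonneg hC₂ (N_dn_nonneg (N_sg_nonneg Sg fun v => N_lossM_nonneg nd E v _ _) w))
  have hinv : ∀ i, 0 ≤ ((4 : ℝ) ^ j i)⁻¹ := fun i => inv_nonneg.2 (pow_nonneg (by norm_num) _)
  refine ⟨add_nonneg (mul_nonneg (mul_nonneg zero_le_two hh₀) h1)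
    (Finset.sum_nonneg fun i _ => mul_nonneg (hinv i) (h2 i)), fun i => ?_⟩
  have h3 := Finset.single_le_sum (f := fun i => ((4 : ℝ) ^ j i)⁻¹ *
    (C₁ * N_l0 nd E w (P i) 0 + (Real.log (E.k w) + Real.log (mq w (qd i))) +
      C₂ * dn L (N_sg Sg fun v => lossM nd E v (P i) (Λ i v)) w))
    (fun i _ => mul_nonneg (hinv i) (h2 i)) (Finset.mem_univ i)
  have h4 : (0 : ℝ) < 4 ^ j i := by positivity
  have h5 := mul_le_mul_of_nonneg_left h3 h4.le
  rw [← mul_assoc, mul_inv_cancel₀ h4.ne', one_mul] at h5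
  unfold N_lr
  rw [mul_add]
  linarith

/-- The bound at a place. -/
noncomputable def N_GG (Sg : Finset (AbsoluteValue K ℝ)) (E : SC K) (a₁ : ℕ) (C₂ h₀ δ X : ℝ)
    {m q q' : ℕ} (c : AbsoluteValue K ℝ → Fin (q + 1) → ℝ) (P : Fin m → A.Pts K) (j : Fin m → ℕ)
    (Λ : Fin m → AbsoluteValue K ℝ →
      Matrix (Fin (q + 1)) (Fin (q + 1)) (MvPolynomial (Fin (N + 1)) K))
    (y : Fin m → Fin q' → Fin (q + 1) → K) (F : MvPolynomial (VQ m n (q + 1)) K) (k : Fin m → ℕ)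
    {L : Type u} [Field L] [NumberField L] [Algebra K L] (sQ : Fin n → L)
    (qd : Fin m → Fin n → L) (e' : Fin m × Fin q' →₀ ℕ) (w : AbsoluteValue L ℝ) : ℝ :=
  Real.log (NV w (MvPolynomial.map (algebraMap K L) F)) + N_G3 E a₁ F sQ qd w +
    ∑ i, (k i : ℝ) * (Real.log (E.k w) +
      C₂ * dn L (N_sg Sg fun v => lossM nd E v (P i) (Λ i v)) w) +
    ∑ p, (e' p : ℝ) * dn L (sz Sg c (4 ^ j p.1 * h₀)
      (fun v => (Λ p.1 v).map (aeval (A.x (P p.1)))) (y p.1 p.2)) w +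
    (q * (δ * X) * (h₀ * dn L (N_sg Sg fun v => ∑ k, |c v k|) w) -
      X / ((q : ℝ) + 1) * (h₀ * dn L (N_sg Sg fun v => ∑ k, c v k) w))

/-- The estimate at the places outside of `Sg`. -/
theorem N_placeA {Sg : Finset (AbsoluteValue K ℝ)} {E₀ E : SC K} {c₀ a₁ D : ℕ} {C₁ C₂ h₀ δ X : ℝ}
    (hC₂ : 0 ≤ C₂) (hh₀ : 0 ≤ h₀) {m q q' : ℕ} (c : AbsoluteValue K ℝ → Fin (q + 1) → ℝ)
    {P : Fin m → A.Pts K} {j : Fin m → ℕ} {Λ : Fin m → AbsoluteValue K ℝ →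
      Matrix (Fin (q + 1)) (Fin (q + 1)) (MvPolynomial (Fin (N + 1)) K)}
    {y : Fin m → Fin q' → Fin (q + 1) → K} {F : MvPolynomial (VQ m n (q + 1)) K} {k : Fin m → ℕ}
    {T : ℝ} {L : Type u} [Field L] [NumberField L] [Algebra K L] {Q : A.Pts L}
    {ζ : Fin m × Option (Fin n) → L} {x η : Fin m → Fin (N + 1) → PowerSeries L}
    (hcx : N_cx nd Sg E₀ E c₀ a₁ D C₁ P j Λ y F k T Q ζ x η) (e' : Fin m × Fin q' →₀ ℕ)
    {v : AbsoluteValue K ℝ} (hv : v ∉ Sg) {w : AbsoluteValue L ℝ} {d : ℕ} (hB : Bel v w d)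
    (N₁ : ℕ) :
    PN w (Real.exp (- N_lr nd Sg E C₁ C₂ h₀ c P j Λ
      (fun i => nd.s (A.img (Algebra.ofId K L) (P i) - 2 ^ j i • Q)) w)) N₁
      (coeff e' (vlN nd y (nd.y Q) η F)) ≤
      Real.exp (N_GG nd Sg E a₁ C₂ h₀ δ X c P j Λ y F k (nd.s Q)
        (fun i => nd.s (A.img (Algebra.ofId K L) (P i) - 2 ^ j i • Q)) e' w) := by
  obtain ⟨qd, hqd⟩ : ∃ qd : Fin m → Fin n → L,
    qd = fun i => nd.s (A.img (Algebra.ofId K L) (P i) - 2 ^ j i • Q) := ⟨_, rfl⟩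
  rw [← hqd]
  have hC₁0 : 0 ≤ C₁ := (N_C1_nonneg N D c₀).trans hcx.c1
  obtain ⟨hlr0, hlr⟩ := N_lr_prop nd Sg E hC₁0 hC₂ hh₀ c P j Λ qd w
  obtain ⟨lr, hlrd⟩ : ∃ lr, lr = N_lr nd Sg E C₁ C₂ h₀ c P j Λ qd w := ⟨_, rfl⟩
  rw [← hlrd] at hlr0 hlr ⊢
  have hqi : ∀ i, nd.s (A.img (Algebra.ofId K L) (P i) - 2 ^ j i • Q) = qd i := fun i => by
    rw [hqd]
  have hdnc : 0 ≤ dn L (N_sg Sg fun v => ∑ k, |c v k|) w :=
    N_dn_nonneg (N_sg_nonneg Sg fun v => Finset.sum_nonneg fun k _ => abs_nonneg _) w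
  have hdnl : ∀ i, 0 ≤ dn L (N_sg Sg fun v => lossM nd E v (P i) (Λ i v)) w := fun i =>
    N_dn_nonneg (N_sg_nonneg Sg fun v => N_lossM_nonneg nd E v _ _) w
  have hρ : ∀ i, Real.exp (- lr) ^ 4 ^ j i * (E.k w * mq w (nd.s (A.img (Algebra.ofId K L) (P i) -
      2 ^ j i • Q))) ≤ Real.exp (- (C₁ * N_l0 nd E w (P i) 0)) := by
    intro i
    rw [hqi]
    have h1 : E.k w * mq w (qd i) = Real.exp (Real.log (E.k w) + Real.log (mq w (qd i))) := by
      rw [Real.exp_add, Real.exp_log (E.pos w), Real.exp_log (mq_posB w _)]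
    rw [h1, ← Real.exp_nat_mul, ← Real.exp_add, Real.exp_le_exp]
    have h2 := hlr i
    have h3 := mul_nonneg hC₂ (hdnl i)
    have h4 : 0 ≤ (4 : ℝ) ^ j i * (2 * h₀ * dn L (N_sg Sg fun v => ∑ k, |c v k|) w) := by
      positivity
    push_cast
    linarith
  have h0 := N_locA nd E₀ E c₀ a₁ hcx.ok D C₁ hcx.c1 P j hcx.good F k hcx.u y hcx.y0 Q ζ w x η
    hcx.blk (Real.exp (- lr)) (Real.exp_pos _).le hρ N₁ e'
  refine h0.trans ?_
  simp only [hqi]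
  rw [N_WF_exp E a₁ F (nd.s Q) qd w]
  -- the functions vanish at this place
  have hz : ∀ f : AbsoluteValue K ℝ → ℝ, dn L (N_sg Sg f) w = 0 := fun f => by
    rw [dn_eq _ hB, N_sg_neg f hv, mul_zero]
  have hsz : ∀ p : Fin m × Fin q', dn L (sz Sg c (4 ^ j p.1 * h₀)
      (fun v => (Λ p.1 v).map (aeval (A.x (P p.1)))) (y p.1 p.2)) w =
      Real.log (⨆ l, w (algebraMap K L (y p.1 p.2 l))) := by
    intro p
    rw [dn_eq _ hB]
    unfold sz
    rw [if_neg hv, ← Real.log_pow, ← N_iSup_pow _ (fun l => v.nonneg _)]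
    simp only [hB.eq]
  unfold N_GG
  simp only [hz, hsz, mul_zero, add_zero, sub_zero]
  have hFm : MvPolynomial.map (algebraMap K L) F ≠ 0 := fun h0 =>
    hcx.ne (MvPolynomial.map_injective _ (algebraMap K L).injective (h0.trans (map_zero _).symm))
  have hNV := NV_pos w hFm
  rw [Real.exp_add, Real.exp_add, Real.exp_add, Real.exp_log hNV, Real.exp_sum, Real.exp_sum]
  have e1 : ∏ i, cst w (q' + 1) ^ k i ≤ ∏ i, Real.exp ((k i : ℝ) * Real.log (E.k w)) := by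
    refine Finset.prod_le_prod (fun i _ => pow_nonneg (cst_nonneg w _) _) fun i _ => ?_
    rw [Real.exp_nat_mul, Real.exp_log (E.pos w)]
    refine pow_le_pow_left₀ (cst_nonneg w _) (le_trans (cst_mono w ?_) (hcx.cst w)) _
    unfold N_nq
    have h1 := Nat.factorial_pos (q + 1)
    have h2 : 0 < (q + 1) ^ 2 := by positivity
    calc q' + 1 ≤ 4 * (q' + 1) := by omega
      _ ≤ 4 * (q' + 1) * (q + 1) ^ 2 := Nat.le_mul_of_pos_right _ h2
      _ ≤ _ := Nat.le_mul_of_pos_right _ h1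
  have e2 : ∏ p, (⨆ l, w (algebraMap K L (y p.1 p.2 l))) ^ e' p =
      ∏ p, Real.exp ((e' p : ℝ) * Real.log (⨆ l, w (algebraMap K L (y p.1 p.2 l)))) := by
    refine Finset.prod_congr rfl fun p _ => ?_
    rw [Real.exp_nat_mul, Real.exp_log (N_vmax_pos w (hcx.y0 p.1 p.2))]
  rw [e2]
  have hp2 : 0 ≤ ∏ p, Real.exp ((e' p : ℝ) *
      Real.log (⨆ l, w (algebraMap K L (y p.1 p.2 l)))) :=
    Finset.prod_nonneg fun p _ => (Real.exp_pos _).le
  refine mul_le_mul_of_nonneg_right ?_ hp2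
  rw [mul_assoc]
  exact mul_le_mul_of_nonneg_left (mul_le_mul_of_nonneg_left e1 (Real.exp_pos _).le) hNV.le

end

end Pool.Agent.Lib.MP_17a322_nt.SL
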