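import Pool.Agent.Lib.MP_17a322_nt.SL.N10

/-!
SL, numerical theorem: the estimate at the places in `Sg` in terms of functions on the places.
-/

universe u

namespace Pool.Agent.Lib.MP_17a322_nt.SL

open MvPolynomial Height NumberField
open Pool.Agent.Lib.MP_17a322_nt.RO
open Pool.Agent.Lib.MP_17a322_nt.VJ
open Pool.Agent.Lib.MP_17a322_nt.VN
open Pool.Agent.Lib.MP_17a322_nt.VA
open Pool.Agent.Lib.MP_17a322_nt.VP

section

variable {K : Type u} [Field K] [NumberField K] {N : ℕ} {A : AV K N} {n e : ℕ} (nd : Noe A n e)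

omit [NumberField K] in
/-- The value of a form at the affine coordinates. -/
theorem N_eval_hom (P : A.Pts K) {F : MvPolynomial (Fin (N + 1)) K} {D : ℕ}
    (h : F.IsHomogeneous D) :
    eval (nd.y P) F = (lf (nd.l 0) (A.x P))⁻¹ ^ D * aeval (A.x P) F := by
  show eval (nd.y P) F = (lf (nd.l 0) (A.x P))⁻¹ ^ D * eval (A.x P) F
  rw [eval_eq', eval_eq', Finset.mul_sum]
  refine Finset.sum_congr rfl fun μ hμ => ?_
  have h3 : ∑ i, μ i = D := by
    rw [← Finsupp.degree_eq_sum, Finsupp.degree_apply]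
    exact (h.degree_eq_sum_deg_support hμ).symm
  have h4 : ∏ i, nd.y P i ^ μ i = (lf (nd.l 0) (A.x P))⁻¹ ^ D * ∏ i, A.x P i ^ μ i := by
    rw [← h3, ← Finset.prod_pow_eq_pow_sum, ← Finset.prod_mul_distrib]
    refine Finset.prod_congr rfl fun i _ => ?_
    unfold Noe.y
    rw [div_eq_inv_mul, mul_pow]
  rw [h4]
  ring

/-- The size of a vector at a place over a place in `Sg`. -/
theorem N_szB {Sg : Finset (AbsoluteValue K ℝ)} {q D : ℕ}
    (c : AbsoluteValue K ℝ → Fin (q + 1) → ℝ) (X : ℝ) (P : A.Pts K)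
    (hP : lf (nd.l 0) (A.x P) ≠ 0) (Λ : AbsoluteValue K ℝ →
      Matrix (Fin (q + 1)) (Fin (q + 1)) (MvPolynomial (Fin (N + 1)) K))
    {v : AbsoluteValue K ℝ} (hv : v ∈ Sg) (hom : ∀ k l, (Λ v k l).IsHomogeneous D)
    (hdet : eval (nd.y P) (Λ v).det ≠ 0) {y : Fin (q + 1) → K} (hy : y ≠ 0)
    {L : Type u} [Field L] [NumberField L] [Algebra K L] {w : AbsoluteValue L ℝ} {d : ℕ}
    (hB : Bel v w d) {Z : ℝ}
    (hZ : ∀ a b, w ((Λ v).map (aeval fun b => algebraMap K L (nd.y P b)) a b) ≤ Z) :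
    ∃ S : ℝ, 0 < S ∧ (∀ k, w (((Λ v).map (aeval fun b => algebraMap K L (nd.y P b))).mulVec
      (fun l => algebraMap K L (y l)) k) * Real.exp (d * (c v k * X)) ≤ S) ∧
      S ≤ Real.exp (dn L (sz Sg c X (fun v => (Λ v).map (aeval (A.x P))) y) w) * Z := by
  obtain ⟨M, hM⟩ : ∃ M, M = (Λ v).map (aeval (A.x P)) := ⟨_, rfl⟩
  obtain ⟨M₀, hM₀⟩ : ∃ M₀, M₀ = (Λ v).map (aeval fun b => algebraMap K L (nd.y P b)) := ⟨_, rfl⟩
  obtain ⟨t, ht⟩ : ∃ t : K, t = (lf (nd.l 0) (A.x P))⁻¹ ^ D := ⟨_, rfl⟩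
  have ht0 : t ≠ 0 := by rw [ht]; exact pow_ne_zero _ (inv_ne_zero hP)
  rw [← hM₀] at hZ ⊢
  have hent : ∀ a b, M₀ a b = algebraMap K L (t * M a b) := by
    intro a b
    rw [hM₀, hM, Matrix.map_apply, Matrix.map_apply, N_aeval_map, N_eval_hom nd P (hom a b), ht]
  have hmv : ∀ k, M₀.mulVec (fun l => algebraMap K L (y l)) k =
      algebraMap K L (t * M.mulVec y k) := by
    intro k
    show ∑ l, M₀ k l * algebraMap K L (y l) = algebraMap K L (t * ∑ l, M k l * y l)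
    rw [Finset.mul_sum, map_sum]
    refine Finset.sum_congr rfl fun l _ => ?_
    rw [hent, ← map_mul, mul_assoc]
  have hdet0 : M₀.det ≠ 0 := by
    rw [hM₀, N_det_map, N_aeval_map]
    exact (map_ne_zero_iff _ (algebraMap K L).injective).2 hdet
  have hy' : (fun l => algebraMap K L (y l)) ≠ 0 := by
    intro h0
    apply hy
    funext l
    exact (map_eq_zero _).1 (congrFun h0 l)
  have hne := N_mulVec_ne M₀ hdet0 hy'
  obtain ⟨k₀, hk₀⟩ := Function.ne_iff.1 hne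
  have hk₀' : M.mulVec y k₀ ≠ 0 := by
    intro h0
    apply hk₀
    rw [hmv, h0, mul_zero, map_zero]
    rfl
  -- the numbers
  obtain ⟨a, ha⟩ : ∃ a : Fin (q + 1) → ℝ, a = fun k => v (M.mulVec y k) * Real.exp (c v k * X) :=
    ⟨_, rfl⟩
  have ha0 : ∀ k, 0 ≤ a k := fun k => by
    rw [ha]
    exact mul_nonneg (v.nonneg _) (Real.exp_pos _).le
  obtain ⟨AA, hAA⟩ : ∃ AA, AA = ⨆ k, a k := ⟨_, rfl⟩
  have hAp : 0 < AA := by
    have h1 : 0 < a k₀ := by
      rw [ha]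
      exact mul_pos (v.pos hk₀') (Real.exp_pos _)
    rw [hAA]
    exact h1.trans_le (le_ciSup (f := a) (Set.finite_range _).bddAbove k₀)
  obtain ⟨BB, hBB⟩ : ∃ BB, BB = ⨆ p : Fin (q + 1) × Fin (q + 1), v (M p.1 p.2) := ⟨_, rfl⟩
  have hBp : 0 < BB := by
    have h1 : ∃ l, M k₀ l ≠ 0 := by
      by_contra hc
      push Not at hc
      apply hk₀'
      show ∑ l, M k₀ l * y l = 0
      exact Finset.sum_eq_zero fun l _ => by rw [hc, zero_mul]
    obtain ⟨l, hl⟩ := h1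
    rw [hBB]
    exact (v.pos hl).trans_le (le_ciSup (f := fun p : Fin (q + 1) × Fin (q + 1) =>
      v (M p.1 p.2)) (Set.finite_range _).bddAbove (k₀, l))
  have htv : 0 < v t := v.pos ht0
  refine ⟨(v t * AA) ^ d, pow_pos (mul_pos htv hAp) _, fun k => ?_, ?_⟩
  · rw [hmv, hB.eq, map_mul, Real.exp_nat_mul, ← mul_pow, mul_assoc]
    refine pow_le_pow_left₀ (mul_nonneg htv.le (mul_nonneg (v.nonneg _) (Real.exp_pos _).le)) ?_ _
    refine mul_le_mul_of_nonneg_left ?_ htv.le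
    have h1 : a k ≤ AA := by
      rw [hAA]
      exact le_ciSup (f := a) (Set.finite_range _).bddAbove k
    rw [ha] at h1
    exact h1
  · have hsz : sz Sg c X (fun v => (Λ v).map (aeval (A.x P))) y v =
        Real.log AA - Real.log BB := by
      unfold sz
      rw [if_pos hv, hAA, hBB, ha, hM]
    rw [dn_eq _ hB, hsz]
    have h1 : Real.exp ((d : ℝ) * (Real.log AA - Real.log BB)) = (AA / BB) ^ d := by
      rw [Real.exp_nat_mul, Real.exp_sub, Real.exp_log hAp, Real.exp_log hBp]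
    have h2 : (v t * BB) ^ d ≤ Z := by
      obtain ⟨p, hp⟩ := exists_eq_ciSup_of_finite
        (f := fun p : Fin (q + 1) × Fin (q + 1) => v (M p.1 p.2))
      have h3 := hZ p.1 p.2
      rw [hent, hB.eq, map_mul] at h3
      rw [hBB, ← hp]
      exact h3
    have h3 : (v t * AA) ^ d = (AA / BB) ^ d * (v t * BB) ^ d := by
      rw [← mul_pow]
      congr 1
      field_simp
    rw [h1, h3]
    exact mul_le_mul_of_nonneg_left h2 (pow_nonneg (div_nonneg hAp.le hBp.le) _)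

/-- The estimate at the places in `Sg`. -/
theorem N_placeB {Sg : Finset (AbsoluteValue K ℝ)} {E₀ E : SC K} {c₀ a₁ D : ℕ} {C₁ C₂ h₀ δ X : ℝ}
    (hh₀ : 0 ≤ h₀) {m q q' : ℕ}
    (hC₂ : C₂ = 1 + ((q + 1) * ((N + 1) * D) : ℕ)) (c : AbsoluteValue K ℝ → Fin (q + 1) → ℝ)
    {P : Fin m → A.Pts K} {j : Fin m → ℕ} {Λ : Fin m → AbsoluteValue K ℝ →
      Matrix (Fin (q + 1)) (Fin (q + 1)) (MvPolynomial (Fin (N + 1)) K)}
    {y : Fin m → Fin q' → Fin (q + 1) → K} {F : MvPolynomial (VQ m n (q + 1)) K} {k : Fin m → ℕ}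
    (hX : ∑ i, (4 : ℝ) ^ j i * k i = X) (hδX : 0 ≤ δ * X)
    {L : Type u} [Field L] [NumberField L] [Algebra K L] {Q : A.Pts L}
    {ζ : Fin m × Option (Fin n) → L} {x η : Fin m → Fin (N + 1) → PowerSeries L}
    (hcx : N_cx nd Sg E₀ E c₀ a₁ D C₁ P j Λ y F k ((1 / ((q : ℝ) + 1) - δ) * X) Q ζ x η)
    (e' : Fin m × Fin q' →₀ ℕ) (he' : ∀ i, ∑ s, e' (i, s) = k i)
    {v : AbsoluteValue K ℝ} (hv : v ∈ Sg) {w : AbsoluteValue L ℝ} {d : ℕ} (hB : Bel v w d)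
    (N₁ : ℕ) :
    PN w (Real.exp (- N_lr nd Sg E C₁ C₂ h₀ c P j Λ
      (fun i => nd.s (A.img (Algebra.ofId K L) (P i) - 2 ^ j i • Q)) w)) N₁
      (coeff e' (vlN nd y (nd.y Q) η F)) ≤
      Real.exp (N_GG nd Sg E a₁ C₂ h₀ δ X c P j Λ y F k (nd.s Q)
        (fun i => nd.s (A.img (Algebra.ofId K L) (P i) - 2 ^ j i • Q)) e' w) := by
  classical
  obtain ⟨qd, hqd⟩ : ∃ qd : Fin m → Fin n → L,
    qd = fun i => nd.s (A.img (Algebra.ofId K L) (P i) - 2 ^ j i • Q) := ⟨_, rfl⟩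
  rw [← hqd]
  have hC₁0 : 0 ≤ C₁ := (N_C1_nonneg N D c₀).trans hcx.c1
  have hC₂0 : 0 ≤ C₂ := by
    rw [hC₂]
    positivity
  obtain ⟨hlr0, hlr⟩ := N_lr_prop nd Sg E hC₁0 hC₂0 hh₀ c P j Λ qd w
  obtain ⟨lr, hlrd⟩ : ∃ lr, lr = N_lr nd Sg E C₁ C₂ h₀ c P j Λ qd w := ⟨_, rfl⟩
  rw [← hlrd] at hlr0 hlr ⊢
  have hqi : ∀ i, nd.s (A.img (Algebra.ofId K L) (P i) - 2 ^ j i • Q) = qd i := fun i => by
    rw [hqd]
  obtain ⟨hE, -, -⟩ := hcx.ok L w
  -- the functions at this place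
  have hdc : dn L (N_sg Sg fun v => ∑ k, |c v k|) w = d * ∑ k, |c v k| := by
    rw [dn_eq _ hB, N_sg_pos _ hv]
  have hdt : dn L (N_sg Sg fun v => ∑ k, c v k) w = d * ∑ k, c v k := by
    rw [dn_eq _ hB, N_sg_pos _ hv]
  have hdl : ∀ i, dn L (N_sg Sg fun v => lossM nd E v (P i) (Λ i v)) w =
      lossM nd E w (P i) (Λ i v) := fun i => by
    rw [dn_eq _ hB, N_sg_pos _ hv, N_lossM_Bel nd hB]
  have hd0 : (0 : ℝ) ≤ d := Nat.cast_nonneg _
  have hcab : 0 ≤ ∑ k, |c v k| := Finset.sum_nonneg fun k _ => abs_nonneg _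
  -- the constants of the blocks
  obtain ⟨Z, hZ⟩ : ∃ Z : Fin m → ℝ, ∀ i, Z i =
    NVM w ((Λ i v).map (MvPolynomial.map (algebraMap K L))) *
      (E₀.k w * mq w fun b => algebraMap K L (nd.y (P i) b)) ^ ((N + 1) * D) :=
    ⟨_, fun _ => rfl⟩
  obtain ⟨dt, hdtt⟩ : ∃ dt : Fin m → ℝ, ∀ i, dt i =
    w (algebraMap K L (eval (nd.y (P i)) (Λ i v).det)) := ⟨_, fun _ => rfl⟩
  have hdt0 : ∀ i, 0 < dt i := fun i => by
    rw [hdtt]
    exact w.pos ((map_ne_zero_iff _ (algebraMap K L).injective).2 (hcx.det i v hv))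
  have hY1 : ∀ i, 1 ≤ E₀.k w * mq w fun b => algebraMap K L (nd.y (P i) b) := fun i =>
    one_le_mul_of_one_le_of_one_le (E₀.one_le w) (N_one_le_mq w _)
  have hZ0 : ∀ i, 0 ≤ Z i := fun i => by
    rw [hZ]
    exact mul_nonneg (N_NVM_nonneg w _) (pow_nonneg (zero_le_one.trans (hY1 i)) _)
  obtain ⟨Bm, hBmd⟩ : ∃ Bm : Fin m → ℝ, ∀ i, Bm i =
    max 1 (cst w (N_nq q q') * Z i ^ (q + 1) / dt i) := ⟨_, fun _ => rfl⟩
  have hBm1 : ∀ i, 1 ≤ Bm i := fun i => by rw [hBmd]; exact le_max_left _ _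
  have hBmZ : ∀ i, cst w (N_nq q q') * Z i ^ (q + 1) ≤ Bm i * dt i := fun i => by
    rw [← div_le_iff₀ (hdt0 i), hBmd]
    exact le_max_right _ _
  have hBml : ∀ i, Real.log (Bm i) ≤ C₂ * lossM nd E w (P i) (Λ i v) := by
    intro i
    rw [hBmd, hZ, hdtt, hC₂]
    exact N_Bm nd E₀ E hE (N_nq_pos q q') (hcx.cst w) (P i) (Λ i v) (hcx.det i v hv)
  have hBmz : ∀ i, cst w (2 * (q + 1) ^ 2 * (q + 1).factorial) * Z i ^ (q + 1) ≤
      Bm i * dt i := by
    intro i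
    refine le_trans (mul_le_mul_of_nonneg_right (cst_mono w ?_) (pow_nonneg (hZ0 i) _)) (hBmZ i)
    unfold N_nq
    refine Nat.mul_le_mul_right _ (Nat.mul_le_mul_right _ ?_)
    omega
  have hdeg : ∀ i k l t, (Λ i v k l).degreeOf t ≤ D := fun i k l t =>
    (degreeOf_le_totalDegree _ t).trans (hcx.hom i v hv k l).totalDegree_le
  have hentZ : ∀ i a b, w ((Λ i v).map (aeval fun b => algebraMap K L (nd.y (P i) b)) a b) ≤
      Z i := by
    intro i a b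
    rw [hZ]
    refine N_entry_le (K := K) w (SN_self w) (Λ i v) D (hdeg i) _ (hY1 i) (fun b => ?_) a b
    show w (algebraMap K L (nd.y (P i) b)) ≤ _
    refine (le_mqB w (fun b => algebraMap K L (nd.y (P i) b)) b).trans ?_
    exact le_mul_of_one_le_left (zero_le_one.trans (N_one_le_mq w _)) (E₀.one_le w)
  -- the sizes
  have hS := fun i s => N_szB nd (Sg := Sg) c (4 ^ j i * h₀) (P i) (hcx.good i).1 (Λ i) hv
    (hcx.hom i v hv) (hcx.det i v hv) (hcx.y0 i s) hB (hentZ i)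
  choose S hS0 hSk hSz using hS
  -- the exponents
  obtain ⟨Cw, hCw⟩ : ∃ Cw : Fin m → Fin (q + 1) → ℝ, ∀ i k, Cw i k =
    d * (c v k * (4 ^ j i * h₀)) := ⟨_, fun _ _ => rfl⟩
  obtain ⟨cm, hcm⟩ : ∃ cm : Fin m → ℝ, ∀ i, cm i = d * ((∑ k, |c v k|) * (4 ^ j i * h₀)) :=
    ⟨_, fun _ => rfl⟩
  have h4h : ∀ i, 0 ≤ (4 : ℝ) ^ j i * h₀ := fun i => mul_nonneg (by positivity) hh₀
  have hcm0 : ∀ i, 0 ≤ cm i := fun i => by
    rw [hcm]
    exact mul_nonneg hd0 (mul_nonneg hcab (h4h i))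
  have hCwm : ∀ i k, |Cw i k| ≤ cm i := by
    intro i k
    rw [hCw, hcm, abs_mul, abs_mul, abs_of_nonneg hd0, abs_of_nonneg (h4h i)]
    refine mul_le_mul_of_nonneg_left (mul_le_mul_of_nonneg_right ?_ (h4h i)) hd0
    exact Finset.single_le_sum (f := fun k => |c v k|) (fun k _ => abs_nonneg _)
      (Finset.mem_univ k)
  obtain ⟨Θ, hΘd⟩ : ∃ Θ : ℝ, Θ = Real.exp (q * (δ * X) * (h₀ * dn L (N_sg Sg
      fun v => ∑ k, |c v k|) w) - X / ((q : ℝ) + 1) * (h₀ * dn L (N_sg Sg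
      fun v => ∑ k, c v k) w)) := ⟨_, rfl⟩
  have hΘ : ∀ w' : Fin m × Fin (q + 1) →₀ ℕ, (∀ i, ∑ l, w' (i, l) = k i) →
      (∀ l, (1 / ((q : ℝ) + 1) - δ) * X ≤ ∑ i, (4 : ℝ) ^ j i * w' (i, l)) →
      ∏ p, Real.exp (- Cw p.1 p.2) ^ w' p ≤ Θ := by
    intro w' hw1 hw2
    have h1 : ∏ p, Real.exp (- Cw p.1 p.2) ^ w' p =
        Real.exp (∑ p, (w' p : ℝ) * (- Cw p.1 p.2)) := by
      rw [Real.exp_sum]
      refine Finset.prod_congr rfl fun p _ => ?_
      rw [Real.exp_nat_mul]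
    rw [h1, hΘd, Real.exp_le_exp]
    have h2 : ∑ p, (w' p : ℝ) * (- Cw p.1 p.2) =
        (d * h₀) * (- ∑ l, c v l * ∑ i, (4 : ℝ) ^ j i * w' (i, l)) := by
      rw [Fintype.sum_prod_type_right, ← Finset.sum_neg_distrib, Finset.mul_sum]
      refine Finset.sum_congr rfl fun l _ => ?_
      rw [Finset.mul_sum, ← Finset.sum_neg_distrib, Finset.mul_sum]
      refine Finset.sum_congr rfl fun i _ => ?_
      rw [hCw]
      ring
    have h3 : ∑ l, ∑ i, (4 : ℝ) ^ j i * w' (i, l) = X := by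
      rw [Finset.sum_comm, ← hX]
      refine Finset.sum_congr rfl fun i _ => ?_
      rw [← Finset.mul_sum, ← hw1 i]
      push_cast
      rfl
    have h4 := N_theta (c v) (fun l => ∑ i, (4 : ℝ) ^ j i * w' (i, l)) h3 hw2 hδX
    have h5 := mul_le_mul_of_nonneg_left h4 (mul_nonneg hd0 hh₀)
    rw [h2, hdc, hdt]
    refine h5.trans (le_of_eq ?_)
    ring
  -- the radius
  have hρ : ∀ i, Real.exp (- lr) ^ 4 ^ j i * (E.k w * mq w (nd.s (A.img (Algebra.ofId K L) (P i) -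
      2 ^ j i • Q))) ≤ Real.exp (- (C₁ * N_l0 nd E w (P i) 0)) := by
    intro i
    rw [hqi]
    have h1 : E.k w * mq w (qd i) = Real.exp (Real.log (E.k w) + Real.log (mq w (qd i))) := by
      rw [Real.exp_add, Real.exp_log (E.pos w), Real.exp_log (mq_posB w _)]
    rw [h1, ← Real.exp_nat_mul, ← Real.exp_add, Real.exp_le_exp]
    have h2 := hlr i
    rw [hdl, hdc] at h2
    have h3 := mul_nonneg hC₂0 (N_lossM_nonneg nd E w (P i) (Λ i v))
    have h4 : 0 ≤ (4 : ℝ) ^ j i * (2 * h₀ * (d * ∑ k, |c v k|)) := by positivity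
    push_cast
    linarith
  have hρ2 : ∀ i, Real.exp (- lr) ^ 4 ^ j i * Bm i ≤
      Real.exp (- (2 * cm i)) * rdP nd E₀ c₀ w (P i) := by
    intro i
    have h1 : Bm i = Real.exp (Real.log (Bm i)) :=
      (Real.exp_log (zero_lt_one.trans_le (hBm1 i))).symm
    have h2 := N_rd nd E₀ E c₀ w hE D C₁ hcx.c1 (P i) 0 (hcx.good i).2
    refine le_trans ?_ (mul_le_mul_of_nonneg_left h2 (Real.exp_pos _).le)
    rw [h1, ← Real.exp_nat_mul, ← Real.exp_add, ← Real.exp_add, Real.exp_le_exp]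
    have h3 := hlr i
    rw [hdl, hdc] at h3
    have h4 := hBml i
    have h5 : 0 ≤ Real.log (E.k w) + Real.log (mq w (qd i)) :=
      add_nonneg (Real.log_nonneg (E.one_le w)) (Real.log_nonneg (N_one_le_mq w _))
    have h6 : 2 * cm i = (4 : ℝ) ^ j i * (2 * h₀ * (d * ∑ k, |c v k|)) := by
      rw [hcm]
      ring
    push_cast
    linarith
  have h0 := N_locB nd E₀ E c₀ a₁ hcx.ok D C₁ hcx.c1 P j hcx.good F k hcx.u y (fun i => Λ i v)
    hdeg (fun i => hcx.det i v hv) _ (hcx.van v hv) Q hcx.gQ ζ w x η hcx.blk hcx.gd hcx.row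
    Z Bm cm hZ hBm1 (fun i => by
      have := hBmz i
      rw [hdtt] at this
      exact this) hcm0 Cw hCwm (fun p => S p.1 p.2) (fun p => hS0 p.1 p.2) (fun i s k' => by
      rw [hCw]
      exact hSk i s k') Θ (by rw [hΘd]; exact (Real.exp_pos _).le) hΘ (Real.exp (- lr))
    (Real.exp_pos _).le hρ hρ2 N₁ e'
  refine h0.trans ?_
  simp only [hqi]
  rw [N_WF_exp E a₁ F (nd.s Q) qd w]
  have hFm : MvPolynomial.map (algebraMap K L) F ≠ 0 := fun h0 =>
    hcx.ne (MvPolynomial.map_injective _ (algebraMap K L).injective (h0.trans (map_zero _).symm))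
  have hNV := NV_pos w hFm
  -- the product of the sizes
  have hprodS : ∏ p : Fin m × Fin q', S p.1 p.2 ^ e' p ≤
      (∏ p : Fin m × Fin q', Real.exp (dn L (sz Sg c (4 ^ j p.1 * h₀)
      (fun v => (Λ p.1 v).map (aeval (A.x (P p.1)))) (y p.1 p.2)) w) ^ e' p) *
      ∏ i, Z i ^ k i := by
    rw [← N_prod_blk Z e' k he', ← Finset.prod_mul_distrib]
    refine Finset.prod_le_prod (fun p _ => pow_nonneg (hS0 _ _).le _) fun p _ => ?_
    rw [← mul_pow]
    exact pow_le_pow_left₀ (hS0 _ _).le (hSz _ _) _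
  -- the factors of the blocks
  have hfac : ∀ i, (cst w (q + 1) * (cst w (q + 1).factorial * Z i ^ q)) *
      (cst w (q' + 1) * cst w 2) * (cst w 2 / dt i) * Z i ≤
      Real.exp (Real.log (E.k w) + C₂ * dn L (N_sg Sg fun v => lossM nd E v (P i) (Λ i v)) w) := by
    intro i
    have h1 : (cst w (q + 1) * (cst w (q + 1).factorial * Z i ^ q)) *
        (cst w (q' + 1) * cst w 2) * (cst w 2 / dt i) * Z i =
        (cst w 2 * cst w 2 * cst w (q' + 1) * cst w (q + 1) * cst w (q + 1).factorial) *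
          Z i ^ (q + 1) / dt i := by
      rw [pow_succ]
      ring
    have hc4 : cst w 4 = cst w 2 * cst w 2 := by
      rw [← cst_mul]
    have h2 : cst w 2 * cst w 2 * cst w (q' + 1) * cst w (q + 1) * cst w (q + 1).factorial ≤
        cst w (N_nq q q') := by
      unfold N_nq
      rw [cst_mul, cst_mul, cst_mul, cst_pow, hc4]
      refine mul_le_mul_of_nonneg_right (mul_le_mul_of_nonneg_left ?_
        (mul_nonneg (mul_nonneg (cst_nonneg w _) (cst_nonneg w _)) (cst_nonneg w _)))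
        (cst_nonneg w _)
      exact le_self_pow₀ (one_le_cst w (by omega)) two_ne_zero
    have h3 : (cst w 2 * cst w 2 * cst w (q' + 1) * cst w (q + 1) * cst w (q + 1).factorial) *
          Z i ^ (q + 1) / dt i ≤ Bm i := by
      rw [div_le_iff₀ (hdt0 i)]
      exact (mul_le_mul_of_nonneg_right h2 (pow_nonneg (hZ0 i) _)).trans (hBmZ i)
    rw [h1]
    refine h3.trans ?_
    rw [← Real.log_le_iff_le_exp (zero_lt_one.trans_le (hBm1 i)), hdl]
    have h4 := Real.log_nonneg (E.one_le w)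
    linarith [hBml i]
  have hA0 : ∀ i, 0 ≤ (cst w (q + 1) * (cst w (q + 1).factorial * Z i ^ q)) *
      (cst w (q' + 1) * cst w 2) * (cst w 2 / dt i) * Z i := fun i =>
    mul_nonneg (mul_nonneg (mul_nonneg (mul_nonneg (cst_nonneg w _)
      (mul_nonneg (cst_nonneg w _) (pow_nonneg (hZ0 i) _)))
      (mul_nonneg (cst_nonneg w _) (cst_nonneg w _))) (div_nonneg (cst_nonneg w _) (hdt0 i).le))
      (hZ0 i)
  have hfacs : (∏ i, (cst w (q + 1) * (cst w (q + 1).factorial * Z i ^ q)) ^ k i) *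
      (∏ i, (cst w (q' + 1) * cst w 2) ^ k i) * (∏ i, (cst w 2 / dt i) ^ k i) *
      (∏ i, Z i ^ k i) ≤
      ∏ i, Real.exp ((k i : ℝ) * (Real.log (E.k w) +
        C₂ * dn L (N_sg Sg fun v => lossM nd E v (P i) (Λ i v)) w)) := by
    rw [← Finset.prod_mul_distrib, ← Finset.prod_mul_distrib, ← Finset.prod_mul_distrib]
    refine Finset.prod_le_prod (fun i _ => ?_) fun i _ => ?_
    · rw [← mul_pow, ← mul_pow, ← mul_pow]
      exact pow_nonneg (hA0 i) _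
    · rw [← mul_pow, ← mul_pow, ← mul_pow, Real.exp_nat_mul]
      exact pow_le_pow_left₀ (hA0 i) (hfac i) _
  -- assembly
  unfold N_GG
  have hsum : ∀ f : Fin m × Fin q' → ℝ, Real.exp (∑ p, (e' p : ℝ) * f p) =
      ∏ p, Real.exp (f p) ^ e' p := by
    intro f
    rw [Real.exp_sum]
    refine Finset.prod_congr rfl fun p _ => ?_
    rw [Real.exp_nat_mul]
  rw [Real.exp_add, Real.exp_add, Real.exp_add, Real.exp_add, Real.exp_log hNV, ← hΘd,
    Real.exp_sum, hsum]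
  simp only [← hdtt]
  have hG3 := (Real.exp_pos (N_G3 E a₁ F (nd.s Q) qd w)).le
  have hΘ0 : 0 ≤ Θ := by rw [hΘd]; exact (Real.exp_pos _).le
  have hpsz : 0 ≤ ∏ p : Fin m × Fin q', Real.exp (dn L (sz Sg c (4 ^ j p.1 * h₀)
      (fun v => (Λ p.1 v).map (aeval (A.x (P p.1)))) (y p.1 p.2)) w) ^ e' p :=
    Finset.prod_nonneg fun p _ => pow_nonneg (Real.exp_pos _).le _
  have hα : 0 ≤ ∏ i, (cst w (q + 1) * (cst w (q + 1).factorial * Z i ^ q)) ^ k i :=
    Finset.prod_nonneg fun i _ => pow_nonneg (mul_nonneg (cst_nonneg w _)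
      (mul_nonneg (cst_nonneg w _) (pow_nonneg (hZ0 i) _))) _
  have hβ : 0 ≤ ∏ i, (cst w (q' + 1) * cst w 2) ^ k i :=
    Finset.prod_nonneg fun i _ => pow_nonneg (mul_nonneg (cst_nonneg w _) (cst_nonneg w _)) _
  have hγ : 0 ≤ ∏ i, (cst w 2 / dt i) ^ k i :=
    Finset.prod_nonneg fun i _ => pow_nonneg (div_nonneg (cst_nonneg w _) (hdt0 i).le) _
  calc NV w (MvPolynomial.map (algebraMap K L) F) * (Real.exp (N_G3 E a₁ F (nd.s Q) qd w) *
        ∏ i, (cst w (q + 1) * (cst w (q + 1).factorial * Z i ^ q)) ^ k i) *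
        ((∏ i, (cst w (q' + 1) * cst w 2) ^ k i) * Θ) *
        (∏ i, (cst w 2 / dt i) ^ k i) * ∏ p : Fin m × Fin q', S p.1 p.2 ^ e' p ≤
      NV w (MvPolynomial.map (algebraMap K L) F) * (Real.exp (N_G3 E a₁ F (nd.s Q) qd w) *
        ∏ i, (cst w (q + 1) * (cst w (q + 1).factorial * Z i ^ q)) ^ k i) *
        ((∏ i, (cst w (q' + 1) * cst w 2) ^ k i) * Θ) *
        (∏ i, (cst w 2 / dt i) ^ k i) *
        ((∏ p : Fin m × Fin q', Real.exp (dn L (sz Sg c (4 ^ j p.1 * h₀)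
      (fun v => (Λ p.1 v).map (aeval (A.x (P p.1)))) (y p.1 p.2)) w) ^ e' p) *
      ∏ i, Z i ^ k i) := mul_le_mul_of_nonneg_left hprodS (mul_nonneg (mul_nonneg (mul_nonneg
        hNV.le (mul_nonneg hG3 hα)) (mul_nonneg hβ hΘ0)) hγ)
    _ = NV w (MvPolynomial.map (algebraMap K L) F) * Real.exp (N_G3 E a₁ F (nd.s Q) qd w) *
        ((∏ i, (cst w (q + 1) * (cst w (q + 1).factorial * Z i ^ q)) ^ k i) *
        (∏ i, (cst w (q' + 1) * cst w 2) ^ k i) * (∏ i, (cst w 2 / dt i) ^ k i) *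
        (∏ i, Z i ^ k i)) *
        (∏ p : Fin m × Fin q', Real.exp (dn L (sz Sg c (4 ^ j p.1 * h₀)
      (fun v => (Λ p.1 v).map (aeval (A.x (P p.1)))) (y p.1 p.2)) w) ^ e' p) * Θ := by ring
    _ ≤ _ := by
        refine mul_le_mul_of_nonneg_right (mul_le_mul_of_nonneg_right
          (mul_le_mul_of_nonneg_left hfacs (mul_nonneg hNV.le hG3)) hpsz) hΘ0

end

end Pool.Agent.Lib.MP_17a322_nt.SL
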