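import Pool.Agent.Lib.MP_17a322_nt.SL.N11

/-!
SL, numerical theorem: the product formula.
-/

universe u

namespace Pool.Agent.Lib.MP_17a322_nt.SL

open MvPolynomial Height NumberField
open Pool.Agent.Lib.MP_17a322_nt.RO
open Pool.Agent.Lib.MP_17a322_nt.VJ
open Pool.Agent.Lib.MP_17a322_nt.VN
open Pool.Agent.Lib.MP_17a322_nt.VA
open Pool.Agent.Lib.MP_17a322_nt.VP

section

variable {L : Type*} [Field L] [AdmissibleAbsValues L]

/-- A function with finite support and sum `c`. -/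
def N_GE (f : AbsoluteValue L ℝ → ℝ) (c : ℝ) : Prop := FS f ∧ gs f = c

theorem N_GE_add {f g : AbsoluteValue L ℝ → ℝ} {a b : ℝ} (hf : N_GE f a) (hg : N_GE g b) :
    N_GE (fun v => f v + g v) (a + b) :=
  ⟨FS_add hf.1 hg.1, by rw [gs_add hf.1 hg.1, hf.2, hg.2]⟩

theorem N_GE_sub {f g : AbsoluteValue L ℝ → ℝ} {a b : ℝ} (hf : N_GE f a) (hg : N_GE g b) :
    N_GE (fun v => f v - g v) (a - b) :=
  ⟨FS_sub hf.1 hg.1, by rw [gs_sub hf.1 hg.1, hf.2, hg.2]⟩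

theorem N_GE_mul {f : AbsoluteValue L ℝ → ℝ} {a : ℝ} (c : ℝ) (hf : N_GE f a) :
    N_GE (fun v => c * f v) (c * a) :=
  ⟨FS_const_mul c hf.1, by rw [gs_const_mul, hf.2]⟩

theorem N_GE_sum {ι : Type*} (s : Finset ι) {f : ι → AbsoluteValue L ℝ → ℝ} {a : ι → ℝ}
    (hf : ∀ i, N_GE (f i) (a i)) : N_GE (fun v => ∑ i ∈ s, f i v) (∑ i ∈ s, a i) :=
  ⟨FS_sum s fun i _ => (hf i).1, by
    rw [gs_sum s fun i _ => (hf i).1]
    exact Finset.sum_congr rfl fun i _ => (hf i).2⟩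

end

section

variable {K : Type u} [Field K] [NumberField K] {N : ℕ} {A : AV K N} {n e : ℕ} (nd : Noe A n e)

theorem N_l0_bc (E : SC K) (P : A.Pts K) (hP : nd.Good P)
    (L : Type u) [Field L] [NumberField L] [Algebra K L] :
    N_GE (fun w : AbsoluteValue L ℝ => N_l0 nd E w P 0)
      (Module.finrank K L * gs (fun v : AbsoluteValue K ℝ => N_l0 nd E v P 0)) := by
  have h1 := N_L_bc nd E (r := 0) P hP 0 (fun l => l.elim0) (fun l => l.elim0)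
    (fun l => l.elim0) L
  unfold N_L at h1
  simp only [Finset.univ_eq_empty, Finset.sum_empty, add_zero] at h1
  exact h1

/-- The product formula for the coefficient. -/
theorem N_prodM {Sg : Finset (AbsoluteValue K ℝ)} {E₀ E : SC K} {c₀ a₁ D : ℕ}
    {C₁ C₂ h₀ δ X : ℝ} (hh₀ : 0 ≤ h₀) {m q q' : ℕ}
    (hC₂ : C₂ = 1 + ((q + 1) * ((N + 1) * D) : ℕ)) (c : AbsoluteValue K ℝ → Fin (q + 1) → ℝ)
    {P : Fin m → A.Pts K} {j : Fin m → ℕ} {Λ : Fin m → AbsoluteValue K ℝ →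
      Matrix (Fin (q + 1)) (Fin (q + 1)) (MvPolynomial (Fin (N + 1)) K)}
    {y : Fin m → Fin q' → Fin (q + 1) → K} {F : MvPolynomial (VQ m n (q + 1)) K} {k : Fin m → ℕ}
    (hX : ∑ i, (4 : ℝ) ^ j i * k i = X) (hδX : 0 ≤ δ * X)
    {L : Type u} [Field L] [NumberField L] [Algebra K L] {Q : A.Pts L}
    {ζ : Fin m × Option (Fin n) → L} {x η : Fin m → Fin (N + 1) → PowerSeries L}
    (hcx : N_cx nd Sg E₀ E c₀ a₁ D C₁ P j Λ y F k ((1 / ((q : ℝ) + 1) - δ) * X) Q ζ x η)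
    (e' : Fin m × Fin q' →₀ ℕ) (a : ℕ)
    (ha : PowerSeries.coeff a (coeff e' (vlN nd y (nd.y Q) η F)) ≠ 0) (dd kk : ℝ)
    (hdd : dd = Module.finrank K L)
    (hkk : kk = gs (fun w : AbsoluteValue L ℝ => Real.log (E.k w))) (mm : Fin m → ℝ)
    (hmm : ∀ i, mm i = gs (fun w : AbsoluteValue L ℝ => Real.log (mq w
      (nd.s (A.img (Algebra.ofId K L) (P i) - 2 ^ j i • Q))))) :
    (∀ i, ∑ s, e' (i, s) = k i) ∧
    0 ≤ (dd * nh F + (∑ b, (F.degreeOf (VQ.x b) : ℝ) * logHeight₁ (nd.s Q b) +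
        ∑ i, (F.degreeOf (VQ.th i) : ℝ) * (kk + a₁ * (kk + mm i)) +
        ∑ p : Fin m × Fin n, (F.degreeOf (VQ.z p) : ℝ) * (kk + a₁ * (kk + mm p.1))) +
      ∑ i, (k i : ℝ) * (kk + C₂ * (dd * gs (N_sg Sg fun v => lossM nd E v (P i) (Λ i v)))) +
      ∑ p, (e' p : ℝ) * (dd * gs (sz Sg c (4 ^ j p.1 * h₀)
        (fun v => (Λ p.1 v).map (aeval (A.x (P p.1)))) (y p.1 p.2))) +
      (q * (δ * X) * (h₀ * (dd * gs (N_sg Sg fun v => ∑ k, |c v k|))) -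
        X / ((q : ℝ) + 1) * (h₀ * (dd * tw Sg c)))) +
      a * (2 * h₀ * (dd * gs (N_sg Sg fun v => ∑ k, |c v k|)) +
        ∑ i, ((4 : ℝ) ^ j i)⁻¹ * (C₁ * (dd * gs (fun v : AbsoluteValue K ℝ =>
          N_l0 nd E v (P i) 0)) + (kk + mm i) +
          C₂ * (dd * gs (N_sg Sg fun v => lossM nd E v (P i) (Λ i v))))) := by
  classical
  have hne : coeff e' (vlN nd y (nd.y Q) η F) ≠ 0 := by
    intro h0
    rw [h0, map_zero] at ha
    exact ha rfl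
  have he' : ∀ i, ∑ s, e' (i, s) = k i := fun i =>
    N_hom nd _ η (fun i l s => PowerSeries.C (algebraMap K L (y i s l))) k F hcx.u e' hne i
  refine ⟨he', ?_⟩
  obtain ⟨qd, hqd⟩ : ∃ qd : Fin m → Fin n → L,
    qd = fun i => nd.s (A.img (Algebra.ofId K L) (P i) - 2 ^ j i • Q) := ⟨_, rfl⟩
  have hqi : ∀ i, nd.s (A.img (Algebra.ofId K L) (P i) - 2 ^ j i • Q) = qd i := fun i => by
    rw [hqd]
  simp only [hqi] at hmm
  have hC₁0 : 0 ≤ C₁ := (N_C1_nonneg N D c₀).trans hcx.c1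
  have hC₂0 : 0 ≤ C₂ := by
    rw [hC₂]
    positivity
  -- the local estimates
  have hloc : ∀ w : AbsoluteValue L ℝ, Pl w → PN w (Real.exp (- N_lr nd Sg E C₁ C₂ h₀ c P j Λ
      qd w)) a (coeff e' (vlN nd y (nd.y Q) η F)) ≤
      Real.exp (N_GG nd Sg E a₁ C₂ h₀ δ X c P j Λ y F k (nd.s Q) qd e' w) := by
    intro w hw
    obtain ⟨v, d, hB⟩ := N_exists_Bel (K := K) hw
    rw [hqd]
    by_cases hv : v ∈ Sg
    · exact N_placeB nd hh₀ hC₂ c hX hδX hcx e' he' hv hB a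
    · exact N_placeA nd hC₂0 hh₀ c hcx e' hv hB a
  -- the sums over the places
  have hFm : MvPolynomial.map (algebraMap K L) F ≠ 0 := fun h0 =>
    hcx.ne (MvPolynomial.map_injective _ (algebraMap K L).injective (h0.trans (map_zero _).symm))
  have gN : N_GE (fun w : AbsoluteValue L ℝ =>
      Real.log (NV w (MvPolynomial.map (algebraMap K L) F))) (dd * nh F) :=
    ⟨FS_log_NV hFm, by rw [hdd]; exact nh_map (L := L) F⟩
  have gK : N_GE (fun w : AbsoluteValue L ℝ => Real.log (E.k w)) kk := ⟨E.FS_log L, hkk.symm⟩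
  have gM : ∀ i, N_GE (fun w : AbsoluteValue L ℝ => Real.log (mq w (qd i))) (mm i) := fun i =>
    ⟨N_FS_mq _, (hmm i).symm⟩
  have gX : ∀ b, N_GE (fun w : AbsoluteValue L ℝ => Real.log (max 1 (w (nd.s Q b))))
      (logHeight₁ (nd.s Q b)) := fun b => ⟨FS_log_max _, gs_log_max _⟩
  have gD : ∀ φ : AbsoluteValue K ℝ → ℝ, FS φ → N_GE (dn L φ) (dd * gs φ) := fun φ hφ => by
    rw [hdd]
    exact gs_dn hφ
  have gLo : ∀ i, N_GE (dn L (N_sg Sg fun v => lossM nd E v (P i) (Λ i v)))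
      (dd * gs (N_sg Sg fun v => lossM nd E v (P i) (Λ i v))) := fun i => gD _ (N_FS_sg Sg _)
  have gCa := gD (N_sg Sg fun v => ∑ k, |c v k|) (N_FS_sg Sg _)
  have gTw : N_GE (dn L (N_sg Sg fun v => ∑ k, c v k)) (dd * tw Sg c) :=
    gD (N_sg Sg fun v => ∑ k, c v k) (N_FS_sg Sg _)
  have gSz : ∀ p : Fin m × Fin q', N_GE (dn L (sz Sg c (4 ^ j p.1 * h₀)
      (fun v => (Λ p.1 v).map (aeval (A.x (P p.1)))) (y p.1 p.2)))
      (dd * gs (sz Sg c (4 ^ j p.1 * h₀)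
      (fun v => (Λ p.1 v).map (aeval (A.x (P p.1)))) (y p.1 p.2))) := fun p =>
    gD _ (N_FS_sz Sg c _ _ (hcx.y0 p.1 p.2))
  have gl0 : ∀ i, N_GE (fun w : AbsoluteValue L ℝ => N_l0 nd E w (P i) 0)
      (dd * gs (fun v : AbsoluteValue K ℝ => N_l0 nd E v (P i) 0)) := fun i => by
    rw [hdd]
    exact N_l0_bc nd E (P i) (hcx.good i) L
  have gG3 : N_GE (fun w : AbsoluteValue L ℝ => N_G3 E a₁ F (nd.s Q) qd w)
      (∑ b, (F.degreeOf (VQ.x b) : ℝ) * logHeight₁ (nd.s Q b) +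
        ∑ i, (F.degreeOf (VQ.th i) : ℝ) * (kk + a₁ * (kk + mm i)) +
        ∑ p : Fin m × Fin n, (F.degreeOf (VQ.z p) : ℝ) * (kk + a₁ * (kk + mm p.1))) := by
    unfold N_G3
    exact N_GE_add (N_GE_add (N_GE_sum _ fun b => N_GE_mul _ (gX b))
      (N_GE_sum _ fun i => N_GE_mul _ (N_GE_add gK (N_GE_mul _ (N_GE_add gK (gM i))))))
      (N_GE_sum _ fun p => N_GE_mul _ (N_GE_add gK (N_GE_mul _ (N_GE_add gK (gM p.1)))))
  have gG : N_GE (fun w : AbsoluteValue L ℝ => N_GG nd Sg E a₁ C₂ h₀ δ X c P j Λ y F k (nd.s Q)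
      qd e' w) (dd * nh F + (∑ b, (F.degreeOf (VQ.x b) : ℝ) * logHeight₁ (nd.s Q b) +
        ∑ i, (F.degreeOf (VQ.th i) : ℝ) * (kk + a₁ * (kk + mm i)) +
        ∑ p : Fin m × Fin n, (F.degreeOf (VQ.z p) : ℝ) * (kk + a₁ * (kk + mm p.1))) +
      ∑ i, (k i : ℝ) * (kk + C₂ * (dd * gs (N_sg Sg fun v => lossM nd E v (P i) (Λ i v)))) +
      ∑ p, (e' p : ℝ) * (dd * gs (sz Sg c (4 ^ j p.1 * h₀)
        (fun v => (Λ p.1 v).map (aeval (A.x (P p.1)))) (y p.1 p.2))) +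
      (q * (δ * X) * (h₀ * (dd * gs (N_sg Sg fun v => ∑ k, |c v k|))) -
        X / ((q : ℝ) + 1) * (h₀ * (dd * tw Sg c)))) := by
    unfold N_GG
    exact N_GE_add (N_GE_add (N_GE_add (N_GE_add gN gG3)
      (N_GE_sum _ fun i => N_GE_mul _ (N_GE_add gK (N_GE_mul _ (gLo i)))))
      (N_GE_sum _ fun p => N_GE_mul _ (gSz p)))
      (N_GE_sub (N_GE_mul _ (N_GE_mul _ gCa)) (N_GE_mul _ (N_GE_mul _ gTw)))
  have gR : N_GE (fun w : AbsoluteValue L ℝ => N_lr nd Sg E C₁ C₂ h₀ c P j Λ qd w)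
      (2 * h₀ * (dd * gs (N_sg Sg fun v => ∑ k, |c v k|)) +
        ∑ i, ((4 : ℝ) ^ j i)⁻¹ * (C₁ * (dd * gs (fun v : AbsoluteValue K ℝ =>
          N_l0 nd E v (P i) 0)) + (kk + mm i) +
          C₂ * (dd * gs (N_sg Sg fun v => lossM nd E v (P i) (Λ i v))))) := by
    unfold N_lr
    exact N_GE_add (N_GE_mul _ gCa) (N_GE_sum _ fun i => N_GE_mul _
      (N_GE_add (N_GE_add (N_GE_mul _ (gl0 i)) (N_GE_add gK (gM i))) (N_GE_mul _ (gLo i))))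
  -- the product formula
  have hlr0 : ∀ w, 0 ≤ N_lr nd Sg E C₁ C₂ h₀ c P j Λ qd w := fun w =>
    (N_lr_prop nd Sg E hC₁0 hC₂0 hh₀ c P j Λ qd w).1
  have hlogr : (fun w => Real.log (Real.exp (- N_lr nd Sg E C₁ C₂ h₀ c P j Λ qd w))) =
      fun w : AbsoluteValue L ℝ => (-1 : ℝ) * N_lr nd Sg E C₁ C₂ h₀ c P j Λ qd w := by
    funext w
    rw [Real.log_exp, neg_one_mul]
  have hGlog : (fun w => Real.log (Real.exp (N_GG nd Sg E a₁ C₂ h₀ δ X c P j Λ y F k (nd.s Q)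
      qd e' w))) = fun w : AbsoluteValue L ℝ => N_GG nd Sg E a₁ C₂ h₀ δ X c P j Λ y F k (nd.s Q)
      qd e' w := by
    funext w
    rw [Real.log_exp]
  have hfin := final_product a (coeff e' (vlN nd y (nd.y Q) η F))
    (coeff e' (vlN nd y (nd.y Q) η F)) dvd_rfl ha
    (fun w => Real.exp (- N_lr nd Sg E C₁ C₂ h₀ c P j Λ qd w))
    (fun w => Real.exp (N_GG nd Sg E a₁ C₂ h₀ δ X c P j Λ y F k (nd.s Q) qd e' w))
    (fun w _ => ⟨Real.exp_pos _, Real.exp_le_one_iff.2 (neg_nonpos.2 (hlr0 w))⟩)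
    (by
      rw [hlogr]
      exact FS_const_mul _ gR.1)
    (by
      rw [hGlog]
      exact gG.1) hloc
  rw [hGlog, hlogr, gs_const_mul, gG.2, gR.2] at hfin
  linarith

end

end Pool.Agent.Lib.MP_17a322_nt.SL
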