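import Pool.Agent.Lib.MP_17a322_nt.SL.N1
import Pool.Agent.Lib.MP_17a322_nt.VP.N4

/-!
SL, numerical theorem: the sizes of determinants and adjugates.
-/

universe u

namespace Pool.Agent.Lib.MP_17a322_nt.SL

open MvPolynomial Height
open Pool.Agent.Lib.MP_17a322_nt.RO
open Pool.Agent.Lib.MP_17a322_nt.VJ
open Pool.Agent.Lib.MP_17a322_nt.VN
open Pool.Agent.Lib.MP_17a322_nt.VA
open Pool.Agent.Lib.MP_17a322_nt.VP

section

variable {L : Type*} [Field L] {v : AbsoluteValue L ℝ} {R : Type*} [CommRing R] [Algebra L R]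
  {ν : R → ℝ}

/-- The determinant of a matrix with bounded rows. -/
theorem N_det_le (h : SN v ν) {k : ℕ} (M : Matrix (Fin k) (Fin k) R) (b : Fin k → ℝ)
    (hb : ∀ i j, ν (M i j) ≤ b i) (hb0 : ∀ i, 0 ≤ b i) :
    ν M.det ≤ cst v k.factorial * ∏ i, b i := by
  rw [Matrix.det_apply]
  have hP : 0 ≤ ∏ i, b i := Finset.prod_nonneg fun i _ => hb0 i
  have h1 := h.sum_le Finset.univ
    (fun s : Equiv.Perm (Fin k) => Equiv.Perm.sign s • ∏ i, M (s i) i) hP (fun s _ => ?_)
  · rw [Finset.card_univ, Fintype.card_perm, Fintype.card_fin] at h1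
    exact h1
  · have h2 : ν (Equiv.Perm.sign s • ∏ i, M (s i) i) = ν (∏ i, M (s i) i) := by
      rcases Int.units_eq_one_or (Equiv.Perm.sign s) with h3 | h3
      · rw [h3, one_smul]
      · rw [h3, Units.neg_smul, one_smul, h.neg]
    rw [h2]
    refine (h.prod_le _ _).trans ?_
    rw [← Equiv.prod_comp s b]
    exact Finset.prod_le_prod (fun i _ => h.nonneg _) fun i _ => hb _ _

/-- The adjugate. -/
theorem N_adj_le (h : SN v ν) {q : ℕ} (M : Matrix (Fin (q + 1)) (Fin (q + 1)) R) {B : ℝ}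
    (hB0 : 0 ≤ B) (hB : ∀ i j, ν (M i j) ≤ B) (i j : Fin (q + 1)) :
    ν (M.adjugate i j) ≤ cst v (q + 1).factorial * B ^ q := by
  classical
  rw [Matrix.adjugate_apply]
  have h1 := N_det_le h (M.updateRow j (Pi.single i 1)) (fun k => if k = j then 1 else B)
    (fun a b => ?_) (fun a => ?_)
  · refine h1.trans (le_of_eq ?_)
    congr 1
    rw [Finset.prod_ite, Finset.prod_const_one, one_mul, Finset.prod_const]
    congr 1
    have h2 : Finset.univ.filter (fun x : Fin (q + 1) => ¬ x = j) = Finset.univ.erase j := by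
      ext x
      simp
    rw [h2, Finset.card_erase_of_mem (Finset.mem_univ _), Finset.card_univ, Fintype.card_fin]
    rfl
  · by_cases ha : a = j
    · subst ha
      rw [if_pos rfl, Matrix.updateRow_self]
      by_cases hbi : b = i
      · subst hbi
        rw [Pi.single_eq_same]
        exact h.one_le
      · rw [Pi.single_eq_of_ne hbi, h.zero]
        exact zero_le_one
    · rw [if_neg ha, Matrix.updateRow_ne ha]
      exact hB _ _
  · split_ifs
    · exact zero_le_one
    · exact hB0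

end

section

variable {L : Type*} [Field L] (v : AbsoluteValue L ℝ)

/-- A vector is bounded by its image under a matrix. -/
theorem N_cramer {q : ℕ} (M : Matrix (Fin (q + 1)) (Fin (q + 1)) L) (hM : M.det ≠ 0) {B : ℝ}
    (hB0 : 0 ≤ B) (hB : ∀ i j, v (M i j) ≤ B) (y : Fin (q + 1) → L) {S : ℝ} (hS : 0 ≤ S)
    (hy : ∀ k, v (M.mulVec y k) ≤ S) (l : Fin (q + 1)) :
    v (y l) ≤ cst v (q + 1) * (cst v (q + 1).factorial * B ^ q) * S / v M.det := by
  have hd : 0 < v M.det := v.pos hM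
  rw [le_div_iff₀ hd]
  have h1 : M.det • y = M.adjugate.mulVec (M.mulVec y) := by
    rw [Matrix.mulVec_mulVec, Matrix.adjugate_mul, Matrix.smul_mulVec, Matrix.one_mulVec]
  have h2 : M.det * y l = ∑ k, M.adjugate l k * M.mulVec y k := by
    have h3 := congrFun h1 l
    rw [Pi.smul_apply, smul_eq_mul] at h3
    rw [h3]
    rfl
  have h3 : v (y l) * v M.det = v (∑ k, M.adjugate l k * M.mulVec y k) := by
    rw [← h2, map_mul, mul_comm]
  rw [h3]
  have hA : 0 ≤ cst v (q + 1).factorial * B ^ q := mul_nonneg (cst_nonneg v _) (pow_nonneg hB0 _)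
  have h4 := (SN_self v).sum_le Finset.univ (fun k => M.adjugate l k * M.mulVec y k)
    (B := cst v (q + 1).factorial * B ^ q * S) (mul_nonneg hA hS) (fun k _ => by
      show v (M.adjugate l k * M.mulVec y k) ≤ _
      rw [map_mul]
      exact mul_le_mul (N_adj_le (SN_self v) M hB0 hB l k) (hy k) (v.nonneg _) hA)
  rw [Finset.card_univ, Fintype.card_fin] at h4
  refine h4.trans (le_of_eq ?_)
  ring

theorem N_mulVec_ne {q : ℕ} (M : Matrix (Fin (q + 1)) (Fin (q + 1)) L) (hM : M.det ≠ 0)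
    {y : Fin (q + 1) → L} (hy : y ≠ 0) : M.mulVec y ≠ 0 := by
  intro h0
  apply hy
  have h1 : M.det • y = M.adjugate.mulVec (M.mulVec y) := by
    rw [Matrix.mulVec_mulVec, Matrix.adjugate_mul, Matrix.smul_mulVec, Matrix.one_mulVec]
  rw [h0, Matrix.mulVec_zero] at h1
  exact (smul_eq_zero.1 h1).resolve_left hM

end

section

variable {K L : Type*} [Field K] [Field L] [Algebra K L] (v : AbsoluteValue L ℝ)

theorem N_le_NVM {σ : Type*} {q : ℕ} (Λ : Matrix (Fin q) (Fin q) (MvPolynomial σ L))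
    (k l : Fin q) : NV v (Λ k l) ≤ NVM v Λ :=
  le_ciSup (f := fun p : Fin q × Fin q => NV v (Λ p.1 p.2)) (Set.finite_range _).bddAbove (k, l)

theorem N_NVM_nonneg {σ : Type*} {q : ℕ} (Λ : Matrix (Fin q) (Fin q) (MvPolynomial σ L)) :
    0 ≤ NVM v Λ := Real.iSup_nonneg fun _ => A2_nonneg v _

/-- The entries of the matrix along a path. -/
theorem N_entry_le {R : Type*} [CommRing R] [Algebra L R] [Algebra K R] [IsScalarTower K L R]
    {ν : R → ℝ} (h : SN v ν) {N q : ℕ}
    (Λ : Matrix (Fin q) (Fin q) (MvPolynomial (Fin (N + 1)) K)) (D : ℕ)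
    (hD : ∀ k l t, (Λ k l).degreeOf t ≤ D) (g : Fin (N + 1) → R) {Y : ℝ} (hY : 1 ≤ Y)
    (hg : ∀ b, ν (g b) ≤ Y) (k l : Fin q) :
    ν (Λ.map (aeval g) k l) ≤
      NVM v (Λ.map (MvPolynomial.map (algebraMap K L))) * Y ^ ((N + 1) * D) := by
  rw [Matrix.map_apply]
  refine (N_aeval_le v h (Λ k l) D (hD k l) g hY hg).trans ?_
  refine mul_le_mul_of_nonneg_right ?_ (pow_nonneg (zero_le_one.trans hY) _)
  exact N_le_NVM v (Λ.map (MvPolynomial.map (algebraMap K L))) k l

theorem N_det_map {R : Type*} [CommRing R] [Algebra K R] {N q : ℕ}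
    (Λ : Matrix (Fin q) (Fin q) (MvPolynomial (Fin (N + 1)) K)) (g : Fin (N + 1) → R) :
    (Λ.map (aeval g)).det = aeval g Λ.det := by
  have h1 := (AlgHom.map_det (aeval g : MvPolynomial (Fin (N + 1)) K →ₐ[K] R) Λ)
  rw [h1]
  rfl

end

end Pool.Agent.Lib.MP_17a322_nt.SL
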