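import Pool.Agent.Lib.MP_17a322_nt.SL.N2

/-!
SL, numerical theorem: one block at one place.
-/

universe u

namespace Pool.Agent.Lib.MP_17a322_nt.SL

open MvPolynomial Height
open Pool.Agent.Lib.MP_17a322_nt.RO
open Pool.Agent.Lib.MP_17a322_nt.VJ
open Pool.Agent.Lib.MP_17a322_nt.VN
open Pool.Agent.Lib.MP_17a322_nt.VA
open Pool.Agent.Lib.MP_17a322_nt.VP

section

variable {K L : Type*} [Field K] [Field L] [Algebra K L]

theorem N_cc_aeval' {σ : Type*} (y : σ → PowerSeries L) (y₀ : σ → L)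
    (hy0 : ∀ b, PowerSeries.constantCoeff (y b) = y₀ b) (G : MvPolynomial σ K) :
    PowerSeries.constantCoeff (aeval y G) = aeval y₀ G := by
  let φ : PowerSeries L →ₐ[K] L :=
    { (PowerSeries.constantCoeff (R := L)) with
      commutes' := by
        intro a
        show PowerSeries.constantCoeff (algebraMap K (PowerSeries L) a) = algebraMap K L a
        rw [PowerSeries.algebraMap_apply, PowerSeries.constantCoeff_C] }
  have h1 : PowerSeries.constantCoeff (aeval y G) = φ (aeval y G) := rfl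
  rw [h1, ← AlgHom.comp_apply, MvPolynomial.comp_aeval]
  congr 2
  funext b
  exact hy0 b

theorem N_expand_aeval {σ : Type*} {w : ℕ} (hw : w ≠ 0) (y F : σ → PowerSeries L)
    (hF : ∀ b, y b = PowerSeries.expand w hw (F b)) (G : MvPolynomial σ K) :
    aeval y G = PowerSeries.expand w hw (aeval F G) := by
  let φ : PowerSeries L →ₐ[K] PowerSeries L :=
    (PowerSeries.expand w hw : PowerSeries L →ₐ[L] PowerSeries L).restrictScalars K
  have h1 : PowerSeries.expand w hw (aeval F G) = φ (aeval F G) := rfl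
  rw [h1, ← AlgHom.comp_apply, MvPolynomial.comp_aeval]
  congr 2
  funext b
  exact hF b

/-- The size of an expanded series. -/
theorem N_expand_le (v : AbsoluteValue L ℝ) {r ρ : ℝ} (hr : 0 ≤ r) {w : ℕ} (hw : w ≠ 0)
    (h : r ^ w ≤ ρ) (n : ℕ) (f : PowerSeries L) :
    PN v r n (PowerSeries.expand w hw f) ≤ PN v ρ n f := by
  refine (PN_expand v hr hw n f).trans ?_
  rw [PN_eq_PA, PN_eq_PA]
  exact PA_mono (SN_self v) (pow_nonneg hr w) h n f

/-- The inner series of the path. -/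
theorem N_inner (v : AbsoluteValue L ℝ) {N w : ℕ} (hw : w ≠ 0)
    (y : Fin (N + 1) → PowerSeries L) (y₀ : Fin (N + 1) → L)
    (hy0 : ∀ b, PowerSeries.constantCoeff (y b) = y₀ b)
    (hyf : ∀ b, ∃ f : PowerSeries L, ∀ k, PowerSeries.coeff k (y b) =
      if w ∣ k then PowerSeries.coeff (k / w) f else 0)
    {R Y : ℝ} (hR0 : 0 < R)
    (hsz : ∀ r : ℝ, 0 ≤ r → r ^ w ≤ R → ∀ b N₁, PN v r N₁ (y b) ≤ Y) :
    ∃ F : Fin (N + 1) → PowerSeries L, (∀ b, y b = PowerSeries.expand w hw (F b)) ∧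
      (∀ b, PowerSeries.constantCoeff (F b) = y₀ b) ∧ ∀ b n, PN v R n (F b) ≤ Y := by
  choose F hF using hyf
  have hF' : ∀ b, y b = PowerSeries.expand w hw (F b) := fun b => N_expand_eq hw _ _ (hF b)
  refine ⟨F, hF', fun b => ?_, fun b n => ?_⟩
  · rw [← hy0, ← PowerSeries.coeff_zero_eq_constantCoeff_apply,
      ← PowerSeries.coeff_zero_eq_constantCoeff_apply, hF b 0, if_pos (dvd_zero w), Nat.zero_div]
  · obtain ⟨ρ, hρ⟩ : ∃ ρ : ℝ, ρ = R ^ ((w : ℝ)⁻¹) := ⟨_, rfl⟩
    have hρ0 : 0 ≤ ρ := by rw [hρ]; exact Real.rpow_nonneg hR0.le _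
    have hρw : ρ ^ w = R := by
      rw [hρ]
      exact Real.rpow_inv_natCast_pow hR0.le hw
    have h1 := N_expand_ge v hρ0 hw n (F b)
    rw [hρw, ← hF'] at h1
    exact h1.trans (hsz ρ hρ0 hρw.le b _)

/-- One block at one place. -/
theorem N_blkM (v : AbsoluteValue L ℝ) {N q : ℕ} (D : ℕ)
    (Λ : Matrix (Fin (q + 1)) (Fin (q + 1)) (MvPolynomial (Fin (N + 1)) K))
    (hD : ∀ k l t, (Λ k l).degreeOf t ≤ D) (w : ℕ) (hw : w ≠ 0)
    (y : Fin (N + 1) → PowerSeries L) (y₀ : Fin (N + 1) → L)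
    (hy0 : ∀ b, PowerSeries.constantCoeff (y b) = y₀ b)
    (hyf : ∀ b, ∃ f : PowerSeries L, ∀ k, PowerSeries.coeff k (y b) =
      if w ∣ k then PowerSeries.coeff (k / w) f else 0)
    {R Y Z : ℝ} (hR0 : 0 < R) (hR1 : R ≤ 1) (hY : 1 ≤ Y)
    (hsz : ∀ r : ℝ, 0 ≤ r → r ^ w ≤ R → ∀ b N₁, PN v r N₁ (y b) ≤ Y)
    (hZ : Z = NVM v (Λ.map (MvPolynomial.map (algebraMap K L))) * Y ^ ((N + 1) * D))
    (hd : aeval y₀ Λ.det ≠ 0) {B : ℝ} (hB1 : 1 ≤ B)
    (hB : cst v (2 * (q + 1) ^ 2 * (q + 1).factorial) * Z ^ (q + 1) ≤ B * v (aeval y₀ Λ.det))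
    {cm : ℝ} (hcm : 0 ≤ cm) (r : ℝ) (hr0 : 0 ≤ r)
    (hr : r ^ w * B ≤ Real.exp (- (2 * cm)) * R) (N₁ : ℕ) :
    (∃ g : PowerSeries L, (Λ.map (aeval y)).det * g = 1 ∧
      PN v r N₁ g ≤ cst v 2 / v (aeval y₀ Λ.det)) ∧
    (∀ k l, PN v r N₁ (Λ.map (aeval y) k l) ≤ Z) ∧ (∀ k l, v (Λ.map (aeval y₀) k l) ≤ Z) ∧
    ∀ (a a' : Fin (q + 1) → L) (ζ : L) (S : ℝ) (C : Fin (q + 1) → ℝ), v ζ ≤ 1 → 0 ≤ S →
      (∀ l, v (a' l) ≤ ⨆ l, v (a l)) → (∀ k, |C k| ≤ cm) →
      (∀ k, v ((Λ.map (aeval y₀)).mulVec a k) * Real.exp (C k) ≤ S) →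
      ∀ k, PN v r N₁ (∑ l, Λ.map (aeval y) k l * (PowerSeries.C (a l) +
        PowerSeries.C (ζ * a' l) * PowerSeries.X ^ w)) ≤ cst v 2 * (S * Real.exp (- C k)) := by
  obtain ⟨F, hF, hF0, hFs⟩ := N_inner v hw y y₀ hy0 hyf hR0 hsz
  have hB0 : 0 < B := zero_lt_one.trans_le hB1
  obtain ⟨d, hdd⟩ : ∃ d, d = aeval y₀ Λ.det := ⟨_, rfl⟩
  rw [← hdd] at hd hB ⊢
  have hvd : 0 < v d := v.pos hd
  have hZ0 : 0 ≤ Z := by
    rw [hZ]
    exact mul_nonneg (N_NVM_nonneg v _) (pow_nonneg (zero_le_one.trans hY) _)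
  have hc2 : 1 ≤ cst v 2 := one_le_cst v (by norm_num)
  have hcq : 1 ≤ cst v (q + 1) := one_le_cst v (by omega)
  have hcf : 1 ≤ cst v (q + 1).factorial := one_le_cst v (Nat.factorial_pos _)
  have hcst : cst v (2 * (q + 1) ^ 2 * (q + 1).factorial) =
      cst v 2 * cst v (q + 1) ^ 2 * cst v (q + 1).factorial := by
    rw [cst_mul, cst_mul, cst_pow]
  rw [hcst] at hB
  have hSR := fun n => SN_PN v hR0.le n
  -- the factor
  obtain ⟨lam, hlam⟩ : ∃ lam, lam = Real.exp (- (2 * cm)) / B := ⟨_, rfl⟩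
  have hlam0 : 0 ≤ lam := by rw [hlam]; exact div_nonneg (Real.exp_pos _).le hB0.le
  have hexp1 : Real.exp (- (2 * cm)) ≤ 1 := Real.exp_le_one_iff.2 (by linarith)
  have hlamB : lam * B = Real.exp (- (2 * cm)) := by
    rw [hlam, div_mul_cancel₀ _ hB0.ne']
  have hlam1 : lam ≤ 1 := by
    have h1 : lam ≤ lam * B := le_mul_of_one_le_right hlam0 hB1
    linarith
  have hrw : r ^ w ≤ lam * R := by
    rw [hlam, div_mul_eq_mul_div, le_div_iff₀ hB0]
    exact hr
  have hlR : lam * R ≤ R := mul_le_of_le_one_left hR0.le hlam1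
  -- the entries
  have hent : ∀ n k l, PN v R n (Λ.map (aeval F) k l) ≤ Z := fun n k l => by
    rw [hZ]
    exact N_entry_le v (hSR n) Λ D hD F hY (fun b => hFs b n) k l
  have hmapF : ∀ k l, Λ.map (aeval y) k l =
      PowerSeries.expand w hw (Λ.map (aeval F) k l) := fun k l => by
    rw [Matrix.map_apply, Matrix.map_apply]
    exact N_expand_aeval hw y F hF _
  have hccF : ∀ k l, PowerSeries.constantCoeff (Λ.map (aeval F) k l) = Λ.map (aeval y₀) k l :=
    fun k l => by
    rw [Matrix.map_apply, Matrix.map_apply]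
    exact N_cc_aeval' F y₀ hF0 _
  have hent0 : ∀ k l, v (Λ.map (aeval y₀) k l) ≤ Z := by
    intro k l
    rw [← hccF, ← PowerSeries.coeff_zero_eq_constantCoeff_apply]
    have h1 := PN_coeff_le v hR0.le (Nat.zero_le 0) (Λ.map (aeval F) k l)
    rw [pow_zero, mul_one] at h1
    exact h1.trans (hent 0 k l)
  refine ⟨?_, ?_, hent0, ?_⟩
  · -- the determinant
    obtain ⟨G, hG⟩ : ∃ G, G = (Λ.map (aeval F)).det := ⟨_, rfl⟩
    have hG0 : PowerSeries.constantCoeff G = d := by
      rw [hG, N_det_map, N_cc_aeval' F y₀ hF0, hdd]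
    have hGs : ∀ n, PN v R n G ≤ cst v (q + 1).factorial * Z ^ (q + 1) := by
      intro n
      rw [hG]
      refine (N_det_le (hSR n) _ (fun _ => Z) (fun i j => hent n i j) fun _ => hZ0).trans
        (le_of_eq ?_)
      rw [Finset.prod_const, Finset.card_univ, Fintype.card_fin]
    have hG1 : G * G⁻¹ = 1 := PowerSeries.mul_inv_cancel _ (by rw [hG0]; exact hd)
    have hle : lam * (cst v 2 * (cst v (q + 1).factorial * Z ^ (q + 1))) ≤
        v (PowerSeries.constantCoeff G) := by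
      rw [hG0]
      have h1 : cst v 2 * (cst v (q + 1).factorial * Z ^ (q + 1)) ≤ B * v d := by
        refine le_trans ?_ hB
        have h2 : 0 ≤ cst v 2 * (cst v (q + 1).factorial * Z ^ (q + 1)) := by positivity
        have h3 : 1 ≤ cst v (q + 1) ^ 2 := one_le_pow₀ hcq
        calc _ ≤ cst v (q + 1) ^ 2 * (cst v 2 * (cst v (q + 1).factorial * Z ^ (q + 1))) :=
              le_mul_of_one_le_left h2 h3
          _ = _ := by ring
      calc _ ≤ lam * (B * v d) := mul_le_mul_of_nonneg_left h1 hlam0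
        _ = (lam * B) * v d := by ring
        _ ≤ 1 * v d := mul_le_mul_of_nonneg_right (by rw [hlamB]; exact hexp1) hvd.le
        _ = v d := one_mul _
    have hinv := N_inv v hR0.le hlam0 hlam1 G G⁻¹ hG1 hGs hle N₁
    rw [hG0] at hinv
    refine ⟨PowerSeries.expand w hw G⁻¹, ?_, (N_expand_le v hr0 hw hrw N₁ _).trans hinv⟩
    have h1 : (Λ.map (aeval y)).det = PowerSeries.expand w hw G := by
      rw [hG, N_det_map, N_det_map]
      exact N_expand_aeval hw y F hF _
    rw [h1, ← map_mul, hG1, map_one]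
  · intro k l
    rw [hmapF]
    refine (N_expand_le v hr0 hw (hrw.trans hlR) N₁ _).trans (hent N₁ k l)
  · intro a a' ζ S C hζ hS ha' hC hSk k
    -- the bound of the vector
    obtain ⟨m, hm⟩ : ∃ m : ℝ, m = ⨆ l, v (a l) := ⟨_, rfl⟩
    rw [← hm] at ha'
    have ham : ∀ l, v (a l) ≤ m := fun l => by
      rw [hm]
      exact le_ciSup (f := fun l => v (a l)) (Set.finite_range _).bddAbove l
    have hm0 : 0 ≤ m := (v.nonneg _).trans (ham 0)
    have hdet0 : (Λ.map (aeval y₀)).det = d := by rw [N_det_map, hdd]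
    have hexpC : ∀ k, Real.exp (- C k) ≤ Real.exp cm := fun k =>
      Real.exp_le_exp.2 ((neg_le_abs _).trans (hC k))
    have hexpC' : ∀ k, Real.exp (- cm) ≤ Real.exp (- C k) := fun k =>
      Real.exp_le_exp.2 (neg_le_neg ((le_abs_self _).trans (hC k)))
    have hMa : ∀ k, v ((Λ.map (aeval y₀)).mulVec a k) ≤ S * Real.exp (- C k) := by
      intro k
      have h1 := mul_le_mul_of_nonneg_right (hSk k) (Real.exp_pos (- C k)).le
      rw [mul_assoc, ← Real.exp_add, add_neg_cancel, Real.exp_zero, mul_one] at h1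
      exact h1
    have hmle : m ≤ cst v (q + 1) * (cst v (q + 1).factorial * Z ^ q) *
        (S * Real.exp cm) / v d := by
      rw [hm]
      refine ciSup_le fun l => ?_
      have h1 := N_cramer v (Λ.map (aeval y₀)) (by rw [hdet0]; exact hd) hZ0 hent0 a
        (mul_nonneg hS (Real.exp_pos cm).le)
        (fun k => (hMa k).trans (mul_le_mul_of_nonneg_left (hexpC k) hS)) l
      rw [hdet0] at h1
      exact h1
    -- the inner series
    obtain ⟨ξ, hξ⟩ : ∃ ξ : PowerSeries L, ξ = ∑ l, Λ.map (aeval F) k l * (PowerSeries.C (a l) +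
        PowerSeries.C (ζ * a' l) * PowerSeries.X) := ⟨_, rfl⟩
    have hξe : ∑ l, Λ.map (aeval y) k l * (PowerSeries.C (a l) +
        PowerSeries.C (ζ * a' l) * PowerSeries.X ^ w) = PowerSeries.expand w hw ξ := by
      rw [hξ, map_sum]
      refine Finset.sum_congr rfl fun l _ => ?_
      rw [map_mul (PowerSeries.expand w hw), map_add (PowerSeries.expand w hw),
        map_mul (PowerSeries.expand w hw), N_expand_C, N_expand_C, hmapF, PowerSeries.expand_X]
    have hξ0 : PowerSeries.constantCoeff ξ = (Λ.map (aeval y₀)).mulVec a k := by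
      rw [hξ, map_sum]
      show _ = ∑ l, Λ.map (aeval y₀) k l * a l
      refine Finset.sum_congr rfl fun l _ => ?_
      rw [map_mul, map_add, map_mul, PowerSeries.constantCoeff_C, PowerSeries.constantCoeff_C,
        PowerSeries.constantCoeff_X, mul_zero, add_zero, hccF]
    have hξs : PN v R N₁ ξ ≤ cst v (q + 1) * (Z * (cst v 2 * m)) := by
      rw [hξ]
      have h1 := (hSR N₁).sum_le Finset.univ (fun l => Λ.map (aeval F) k l *
        (PowerSeries.C (a l) + PowerSeries.C (ζ * a' l) * PowerSeries.X))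
        (B := Z * (cst v 2 * m)) (by positivity) (fun l _ => ?_)
      · rw [Finset.card_univ, Fintype.card_fin] at h1
        exact h1
      · refine ((hSR N₁).mul _ _).trans ?_
        refine mul_le_mul (hent N₁ k l) ?_ ((hSR N₁).nonneg _) hZ0
        refine (hSR N₁).add_le_cst ?_ ?_
        · show PN v R N₁ (PowerSeries.C (a l)) ≤ m
          rw [PN_C]
          exact ham l
        · refine ((hSR N₁).mul _ _).trans ?_
          have h2 : PN v R N₁ (PowerSeries.C (ζ * a' l)) ≤ m := by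
            rw [PN_C, map_mul]
            calc v ζ * v (a' l) ≤ 1 * m := mul_le_mul hζ (ha' l) (v.nonneg _) zero_le_one
              _ = m := one_mul m
          have h3 : PN v R N₁ (PowerSeries.X : PowerSeries L) ≤ 1 :=
            (PA_X_le (SN_self v) hR0.le N₁).trans hR1
          calc _ ≤ m * 1 := mul_le_mul h2 h3 ((hSR N₁).nonneg _) hm0
            _ = m := mul_one m
    have hvar : PN v (lam * R) N₁ (ξ - PowerSeries.C (PowerSeries.constantCoeff ξ)) ≤
        lam * (cst v (q + 1) * (Z * (cst v 2 * m))) := by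
      have h2 := PA_scale (SN_self v) hR0.le hlam0 hlam1 N₁
        (ξ - PowerSeries.C (PowerSeries.constantCoeff ξ))
        (by rw [map_sub, PowerSeries.constantCoeff_C, sub_self])
      have h3 := PA_sub_const (SN_self v) hR0.le N₁ ξ
      rw [← PN_eq_PA, ← PN_eq_PA] at h2 h3
      exact h2.trans (mul_le_mul_of_nonneg_left (h3.trans hξs) hlam0)
    have hkey : lam * (cst v (q + 1) * (Z * (cst v 2 * m))) ≤ S * Real.exp (- C k) := by
      have h1 : lam * (cst v (q + 1) * (Z * (cst v 2 * m))) ≤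
          lam * (cst v (q + 1) * (Z * (cst v 2 * (cst v (q + 1) *
            (cst v (q + 1).factorial * Z ^ q) * (S * Real.exp cm) / v d)))) := by
        refine mul_le_mul_of_nonneg_left (mul_le_mul_of_nonneg_left (mul_le_mul_of_nonneg_left
          (mul_le_mul_of_nonneg_left hmle (cst_nonneg v _)) hZ0) (cst_nonneg v _)) hlam0
      have h2 : lam * (cst v (q + 1) * (Z * (cst v 2 * (cst v (q + 1) *
            (cst v (q + 1).factorial * Z ^ q) * (S * Real.exp cm) / v d)))) =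
          lam * (S * Real.exp cm) * (cst v 2 * cst v (q + 1) ^ 2 * cst v (q + 1).factorial *
            Z ^ (q + 1) / v d) := by
        field_simp
        ring
      have h3 : cst v 2 * cst v (q + 1) ^ 2 * cst v (q + 1).factorial * Z ^ (q + 1) / v d ≤ B := by
        rw [div_le_iff₀ hvd]
        exact hB
      have h4 : lam * (S * Real.exp cm) * B = S * Real.exp (- cm) := by
        calc lam * (S * Real.exp cm) * B = (lam * B) * (S * Real.exp cm) := by ring
          _ = S * (Real.exp (- (2 * cm)) * Real.exp cm) := by rw [hlamB]; ring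
          _ = _ := by rw [← Real.exp_add]; congr 2; ring
      refine h1.trans ?_
      rw [h2]
      refine (mul_le_mul_of_nonneg_left h3 (mul_nonneg hlam0
        (mul_nonneg hS (Real.exp_pos _).le))).trans ?_
      rw [h4]
      exact mul_le_mul_of_nonneg_left (hexpC' k) hS
    rw [hξe]
    refine (N_expand_le v hr0 hw hrw N₁ _).trans ?_
    have hSl := SN_PN v (mul_nonneg hlam0 hR0.le) N₁
    have hdec : ξ = PowerSeries.C (PowerSeries.constantCoeff ξ) +
        (ξ - PowerSeries.C (PowerSeries.constantCoeff ξ)) := by ring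
    rw [hdec]
    refine hSl.add_le_cst ?_ (hvar.trans hkey)
    show PN v (lam * R) N₁ (PowerSeries.C (PowerSeries.constantCoeff ξ)) ≤ _
    rw [PN_C, hξ0]
    exact hMa k

end

end Pool.Agent.Lib.MP_17a322_nt.SL
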