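import Pool.Agent.Lib.MP_17a322_nt.SL.Defs
import Pool.Agent.Lib.MP_17a322_nt.VP.N7
import Mathlib.RingTheory.MvPolynomial.WeightedHomogeneous

/-!
SL, numerical theorem: the value of the auxiliary polynomial on families of vectors; homogeneity in the
blocks.
-/

universe u

namespace Pool.Agent.Lib.MP_17a322_nt.SL

open MvPolynomial Height
open Pool.Agent.Lib.MP_17a322_nt.RO
open Pool.Agent.Lib.MP_17a322_nt.VJ
open Pool.Agent.Lib.MP_17a322_nt.VN
open Pool.Agent.Lib.MP_17a322_nt.VA
open Pool.Agent.Lib.MP_17a322_nt.VP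

section

/-- The variables as a sum type. -/
def N_eqv (m n q : ℕ) : ((Fin n ⊕ Fin m) ⊕ (Fin m × Fin n)) ⊕ (Fin m × Fin q) ≃ VQ m n q where
  toFun := Sum.elim (Sum.elim (Sum.elim VQ.x VQ.th) VQ.z) VQ.u
  invFun := fun s => match s with
    | VQ.x a => Sum.inl (Sum.inl (Sum.inl a))
    | VQ.th i => Sum.inl (Sum.inl (Sum.inr i))
    | VQ.z p => Sum.inl (Sum.inr p)
    | VQ.u p => Sum.inr p
  left_inv := by
    rintro (((a | i) | p) | i) <;> rfl
  right_inv := by
    intro s
    cases s <;> rfl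

/-- Sums over the variables. -/
theorem N_sum_VQ {M : Type*} [AddCommMonoid M] {m n q : ℕ} (f : VQ m n q → M) :
    ∑ s, f s = ∑ a, f (VQ.x a) + ∑ i, f (VQ.th i) + ∑ p, f (VQ.z p) + ∑ p, f (VQ.u p) := by
  rw [← Equiv.sum_comp (N_eqv m n q) f, Fintype.sum_sum_type, Fintype.sum_sum_type,
    Fintype.sum_sum_type]
  rfl

/-- Products over the variables. -/
theorem N_prod_VQ {M : Type*} [CommMonoid M] {m n q : ℕ} (f : VQ m n q → M) :
    ∏ s, f s = (∏ a, f (VQ.x a)) * (∏ i, f (VQ.th i)) * (∏ p, f (VQ.z p)) *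
      ∏ p, f (VQ.u p) := by
  rw [← Equiv.prod_comp (N_eqv m n q) f, Fintype.prod_sum_type, Fintype.prod_sum_type,
    Fintype.prod_sum_type]
  rfl

/-- The product over a block. -/
theorem N_prod_blk {M : Type*} [CommMonoid M] {m q : ℕ} (D : Fin m → M) (w : Fin m × Fin q → ℕ)
    (k : Fin m → ℕ) (h : ∀ i, ∑ l, w (i, l) = k i) : ∏ p, D p.1 ^ w p = ∏ i, D i ^ k i := by
  rw [Fintype.prod_prod_type]
  refine Finset.prod_congr rfl fun i _ => ?_
  rw [← h i, ← Finset.prod_pow_eq_pow_sum]

end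

section

variable {K : Type u} [Field K] {N : ℕ} {A : AV K N} {n e : ℕ} (nd : Noe A n e)

theorem N_map_vM {m q : ℕ} {R R' : Type*} [CommRing R] [Algebra K R] [CommRing R']
    [Algebra K R'] (φ : R →ₐ[K] R') (Y : Fin (N + 1) → R) (η : Fin m → Fin (N + 1) → R)
    (U : Fin m × Fin q → R) (s : VQ m n q) :
    φ (vM nd Y η U s) = vM nd (fun a => φ (Y a)) (fun i a => φ (η i a)) (fun p => φ (U p)) s := by
  cases s with
  | x a => exact VA.lf_map φ _ _
  | th i =>
    show φ (aeval (η i) nd.θ) = aeval (fun a => φ (η i a)) nd.θ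
    rw [← AlgHom.comp_apply, MvPolynomial.comp_aeval]
  | z p => exact VA.lf_map φ _ _
  | u p => rfl

theorem N_map_aeval_vM {m q : ℕ} {R R' : Type*} [CommRing R] [Algebra K R] [CommRing R']
    [Algebra K R'] (φ : R →ₐ[K] R') (Y : Fin (N + 1) → R) (η : Fin m → Fin (N + 1) → R)
    (U : Fin m × Fin q → R) (F : MvPolynomial (VQ m n q) K) :
    φ (aeval (vM nd Y η U) F) =
      aeval (vM nd (fun a => φ (Y a)) (fun i a => φ (η i a)) fun p => φ (U p)) F := by
  rw [← AlgHom.comp_apply, MvPolynomial.comp_aeval]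
  congr 2
  funext s
  exact N_map_vM nd φ Y η U s

/-- Scaling of the blocks. -/
theorem N_scale {m q : ℕ} {R : Type*} [CommRing R] [Algebra K R] (Y : Fin (N + 1) → R)
    (η : Fin m → Fin (N + 1) → R) (U : Fin m × Fin q → R) (D : Fin m → R) (k : Fin m → ℕ)
    (F : MvPolynomial (VQ m n q) K)
    (hF : ∀ w ∈ F.support, ∀ i, ∑ l, w (VQ.u (i, l)) = k i) :
    aeval (vM nd Y η fun p => D p.1 * U p) F = (∏ i, D i ^ k i) * aeval (vM nd Y η U) F := by
  rw [aeval_def, aeval_def, eval₂_eq', eval₂_eq', Finset.mul_sum]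
  refine Finset.sum_congr rfl fun w hw => ?_
  have h1 : ∏ s, vM nd Y η (fun p => D p.1 * U p) s ^ w s =
      (∏ i, D i ^ k i) * ∏ s, vM nd Y η U s ^ w s := by
    rw [N_prod_VQ, N_prod_VQ]
    have h2 : ∏ p, vM nd Y η (fun p => D p.1 * U p) (VQ.u p) ^ w (VQ.u p) =
        (∏ i, D i ^ k i) * ∏ p, vM nd Y η U (VQ.u p) ^ w (VQ.u p) := by
      rw [← N_prod_blk D (fun p => w (VQ.u p)) k (hF w hw), ← Finset.prod_mul_distrib]
      refine Finset.prod_congr rfl fun p _ => ?_
      show (D p.1 * U p) ^ w (VQ.u p) = D p.1 ^ w (VQ.u p) * U p ^ w (VQ.u p)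
      rw [mul_pow]
    rw [h2]
    show ((∏ a, vM nd Y η U (VQ.x a) ^ w (VQ.x a)) * (∏ i, vM nd Y η U (VQ.th i) ^ w (VQ.th i)) *
      (∏ p, vM nd Y η U (VQ.z p) ^ w (VQ.z p))) * _ = _
    ring
  rw [h1]
  ring

/-- The weights of the blocks. -/
def N_wt (m q : ℕ) : Fin m × Fin q → (Fin m → ℕ) := fun p => Pi.single p.1 1

theorem N_weight {m q : ℕ} (d : Fin m × Fin q →₀ ℕ) (i : Fin m) :
    Finsupp.weight (N_wt m q) d i = ∑ l, d (i, l) := by
  classical
  rw [Finsupp.weight_apply, Finsupp.sum_fintype d (fun i c => c • N_wt m q i)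
    (fun p => zero_smul ℕ (N_wt m q p)), Finset.sum_apply,
    Fintype.sum_prod_type, Finset.sum_eq_single i]
  · refine Finset.sum_congr rfl fun l _ => ?_
    unfold N_wt
    rw [Pi.smul_apply, Pi.single_eq_same, smul_eq_mul, mul_one]
  · intro b _ hb
    refine Finset.sum_eq_zero fun l _ => ?_
    unfold N_wt
    rw [Pi.smul_apply, Pi.single_eq_of_ne (Ne.symm hb), smul_zero]
  · intro h
    exact absurd (Finset.mem_univ i) h

/-- Homogeneity of a value. -/
theorem N_whom {σ τ M : Type*} [Fintype σ] [AddCommMonoid M] {R : Type*} [CommRing R]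
    [Algebra K R] (wt : τ → M) (F : MvPolynomial σ K) (f : σ → MvPolynomial τ R) (d : σ → M)
    (k : M) (hf : ∀ s, IsWeightedHomogeneous wt (f s) (d s))
    (hF : ∀ w ∈ F.support, ∑ s, w s • d s = k) : IsWeightedHomogeneous wt (aeval f F) k := by
  rw [aeval_def, eval₂_eq']
  refine IsWeightedHomogeneous.sum _ _ _ fun w hw => ?_
  have h1 : IsWeightedHomogeneous wt (algebraMap K (MvPolynomial τ R) (coeff w F)) 0 := by
    rw [IsScalarTower.algebraMap_apply K R (MvPolynomial τ R)]
    exact isWeightedHomogeneous_C wt _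
  have h2 : IsWeightedHomogeneous wt (∏ s, f s ^ w s) (∑ s, w s • d s) :=
    IsWeightedHomogeneous.prod _ _ _ fun s _ => (hf s).pow (w s)
  have h3 := h1.mul h2
  rw [zero_add, hF w hw] at h3
  exact h3

/-- The coefficients of a value on linear forms in the blocks. -/
theorem N_hom {m q q' : ℕ} {R : Type*} [CommRing R] [Algebra K R] (Y : Fin (N + 1) → R)
    (η : Fin m → Fin (N + 1) → R) (a : Fin m → Fin q → Fin q' → R) (k : Fin m → ℕ)
    (F : MvPolynomial (VQ m n q) K)
    (hF : ∀ w ∈ F.support, ∀ i, ∑ l, w (VQ.u (i, l)) = k i) (e' : Fin m × Fin q' →₀ ℕ)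
    (he : coeff e' (aeval (vM nd (fun b => (C (Y b) : MvPolynomial (Fin m × Fin q') R))
      (fun i b => C (η i b)) fun p => ∑ s, C (a p.1 p.2 s) * X (p.1, s)) F) ≠ 0) (i : Fin m) :
    ∑ s, e' (i, s) = k i := by
  classical
  by_contra hne
  apply he
  refine IsWeightedHomogeneous.coeff_eq_zero (w := N_wt m q') (n := k) ?_ e' ?_
  · have hC : ∀ r : R, IsWeightedHomogeneous (N_wt m q') (C r : MvPolynomial (Fin m × Fin q') R) 0 :=
      fun r => isWeightedHomogeneous_C _ r
    refine N_whom (N_wt m q') F _ (fun s => match s with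
      | VQ.x _ => 0
      | VQ.th _ => 0
      | VQ.z _ => 0
      | VQ.u p => Pi.single p.1 1) k (fun s => ?_) fun w hw => ?_
    · have hlf : ∀ (l : Fin (N + 1) → K) (b : Fin (N + 1) → R),
          lf l (fun b' => (C (b b') : MvPolynomial (Fin m × Fin q') R)) = C (lf l b) := by
        intro l b
        unfold VA.lf
        rw [map_sum]
        refine Finset.sum_congr rfl fun b' _ => ?_
        rw [map_mul]
        congr 1
      cases s with
      | x b =>
        show IsWeightedHomogeneous (N_wt m q')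
          (lf (nd.l b.succ) fun b => (C (Y b) : MvPolynomial (Fin m × Fin q') R)) 0
        rw [hlf]
        exact hC _
      | th i' =>
        show IsWeightedHomogeneous (N_wt m q')
          (aeval (fun b => (C (η i' b) : MvPolynomial (Fin m × Fin q') R)) nd.θ) 0
        refine N_whom (N_wt m q') nd.θ _ (fun _ => 0) 0 (fun s => hC _) fun w _ => ?_
        simp
      | z p =>
        show IsWeightedHomogeneous (N_wt m q')
          (lf (nd.l p.2.succ) fun b => (C (η p.1 b) : MvPolynomial (Fin m × Fin q') R)) 0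
        rw [hlf]
        exact hC _
      | u p =>
        show IsWeightedHomogeneous (N_wt m q') (∑ s, C (a p.1 p.2 s) * X (p.1, s))
          (Pi.single p.1 1)
        refine IsWeightedHomogeneous.sum _ _ _ fun s _ => ?_
        have h1 := (hC (a p.1 p.2 s)).mul (isWeightedHomogeneous_X R (N_wt m q') (p.1, s))
        rw [zero_add] at h1
        exact h1
    · rw [N_sum_VQ]
      simp only [smul_zero, Finset.sum_const_zero, zero_add]
      funext i'
      rw [Finset.sum_apply, Fintype.sum_prod_type, Finset.sum_eq_single i']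
      · rw [← hF w hw i']
        refine Finset.sum_congr rfl fun l _ => ?_
        rw [Pi.smul_apply, Pi.single_eq_same, smul_eq_mul, mul_one]
      · intro b _ hb
        refine Finset.sum_eq_zero fun l _ => ?_
        rw [Pi.smul_apply, Pi.single_eq_of_ne (Ne.symm hb), smul_zero]
      · intro h
        exact absurd (Finset.mem_univ i') h
  · intro h1
    apply hne
    rw [← N_weight, h1]

/-- The polynomial in the values of the linear forms. -/
noncomputable def N_H {q m : ℕ} {R : Type*} [CommRing R] [Algebra K R]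
    (Y : Fin (N + 1) → R) (η : Fin m → Fin (N + 1) → R)
    (M : Fin m → Matrix (Fin (q + 1)) (Fin (q + 1)) R) (F : MvPolynomial (VQ m n (q + 1)) K) :
    MvPolynomial (Fin m × Fin (q + 1)) R :=
  aeval (vM nd (fun a => (C (Y a) : MvPolynomial (Fin m × Fin (q + 1)) R))
    (fun i a => C (η i a)) fun p => ∑ k', C ((M p.1).adjugate p.2 k') * X (p.1, k')) F

/-- The value on the linear forms. -/
theorem N_H_value {q m : ℕ} {R S : Type*} [CommRing R] [Algebra K R] [CommRing S] [Algebra R S]
    [Algebra K S] [IsScalarTower K R S]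
    (Y : Fin (N + 1) → R) (η : Fin m → Fin (N + 1) → R)
    (M : Fin m → Matrix (Fin (q + 1)) (Fin (q + 1)) R) (k : Fin m → ℕ)
    (F : MvPolynomial (VQ m n (q + 1)) K)
    (hF : ∀ w ∈ F.support, ∀ i, ∑ l, w (VQ.u (i, l)) = k i) (U : Fin m × Fin (q + 1) → S) :
    aeval (fun p : Fin m × Fin (q + 1) => ∑ l, algebraMap R S (M p.1 p.2 l) * U (p.1, l))
      (N_H nd Y η M F) = (∏ i, algebraMap R S (M i).det ^ k i) *
        aeval (vM nd (fun a => algebraMap R S (Y a)) (fun i a => algebraMap R S (η i a)) U) F := by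
  rw [← N_scale nd (fun a => algebraMap R S (Y a)) (fun i a => algebraMap R S (η i a)) U
    (fun i => algebraMap R S (M i).det) k F hF]
  let φ : MvPolynomial (Fin m × Fin (q + 1)) R →ₐ[K] S :=
    (aeval (fun p : Fin m × Fin (q + 1) => ∑ l, algebraMap R S (M p.1 p.2 l) * U (p.1, l)) :
      MvPolynomial (Fin m × Fin (q + 1)) R →ₐ[R] S).restrictScalars K
  have h1 : ∀ G, aeval (fun p : Fin m × Fin (q + 1) =>
      ∑ l, algebraMap R S (M p.1 p.2 l) * U (p.1, l)) G = φ G := fun _ => rfl
  have hC : ∀ r, φ (C r) = algebraMap R S r := fun r => by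
    rw [← h1, ← MvPolynomial.algebraMap_eq, AlgHom.commutes]
  rw [h1]
  unfold N_H
  rw [N_map_aeval_vM]
  have h2 : (fun p : Fin m × Fin (q + 1) =>
      φ (∑ k', C ((M p.1).adjugate p.2 k') * X (p.1, k'))) =
      fun p => algebraMap R S (M p.1).det * U p := by
    funext p
    rw [map_sum]
    have h3 : ∀ k', φ (C ((M p.1).adjugate p.2 k') * X (p.1, k')) =
        ∑ l, algebraMap R S ((M p.1).adjugate p.2 k' * M p.1 k' l) * U (p.1, l) := by
      intro k'
      rw [map_mul, hC, ← h1 (X (p.1, k')), aeval_X, Finset.mul_sum]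
      refine Finset.sum_congr rfl fun l _ => ?_
      rw [map_mul]
      ring
    rw [Finset.sum_congr rfl fun k' _ => h3 k', Finset.sum_comm]
    have h4 : ∀ l, ∑ k', algebraMap R S ((M p.1).adjugate p.2 k' * M p.1 k' l) * U (p.1, l) =
        algebraMap R S (((M p.1).adjugate * M p.1) p.2 l) * U (p.1, l) := by
      intro l
      rw [← Finset.sum_mul, ← map_sum]
      rfl
    rw [Finset.sum_congr rfl fun l _ => h4 l, Matrix.adjugate_mul, Finset.sum_eq_single p.2]
    · rw [Matrix.smul_apply, Matrix.one_apply_eq, smul_eq_mul, mul_one]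
    · intro b _ hb
      rw [Matrix.smul_apply, Matrix.one_apply_ne (Ne.symm hb), smul_zero, map_zero, zero_mul]
    · intro h
      exact absurd (Finset.mem_univ _) h
  rw [h2]
  have h5 : (fun a => φ (C (Y a))) = fun a => algebraMap R S (Y a) := funext fun a => hC _
  have h6 : (fun (i : Fin m) a => φ (C (η i a))) = fun i a => algebraMap R S (η i a) :=
    funext fun i => funext fun a => hC _
  rw [h5, h6]

end

end Pool.Agent.Lib.MP_17a322_nt.SL
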