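import Pool.Agent.Lib.MP_17a322_nt.SL.N4

/-!
SL, numerical theorem: the vanishing along the paths through the points.
-/

universe u

namespace Pool.Agent.Lib.MP_17a322_nt.SL

open MvPolynomial Height
open Pool.Agent.Lib.MP_17a322_nt.RO
open Pool.Agent.Lib.MP_17a322_nt.VJ
open Pool.Agent.Lib.MP_17a322_nt.VN
open Pool.Agent.Lib.MP_17a322_nt.VA
open Pool.Agent.Lib.MP_17a322_nt.VP

section

variable {K : Type u} [Field K] {N : ℕ} {A : AV K N} {n e : ℕ} (nd : Noe A n e)

theorem N_det_map' {R : Type*} [CommRing R] [Algebra K R] {q : ℕ}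
    (Λ : Matrix (Fin q) (Fin q) (MvPolynomial (Fin (N + 1)) K)) (g : Fin (N + 1) → R) :
    (Λ.map (aeval g)).det = aeval g Λ.det := by
  have h1 := (AlgHom.map_det (aeval g : MvPolynomial (Fin (N + 1)) K →ₐ[K] R) Λ)
  rw [h1]
  rfl

/-- The vanishing along the paths. -/
theorem N_vanM {m q : ℕ} (E₀ : SC K) (c₀ : ℕ) (P : Fin m → A.Pts K) (j : Fin m → ℕ)
    (hP : ∀ i, nd.Good (P i))
    (Λ : Fin m → Matrix (Fin (q + 1)) (Fin (q + 1)) (MvPolynomial (Fin (N + 1)) K))
    (hdet : ∀ i, eval (nd.y (P i)) (Λ i).det ≠ 0) (F : MvPolynomial (VQ m n (q + 1)) K) (T : ℝ)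
    (hvan : VanM nd j Λ T F) {L : Type u} [Field L] [Algebra K L] (Q : A.Pts L)
    (hQ : nd.Good Q) (ζ : Fin m × Option (Fin n) → L)
    (y η : Fin m → Fin (N + 1) → PowerSeries L)
    (hB : ∀ i, N_B nd E₀ c₀ (P i) (4 ^ j i) (fun k => ζ (i, some k)) (A.mu (j i) (nd.y Q))
      (nd.s (A.img (Algebra.ofId K L) (P i) - 2 ^ j i • Q)) (y i) (η i))
    (hgood : ∀ i, nd.Good (A.img (Algebra.ofId K L) (P i) - 2 ^ j i • Q))
    (hrow : ∀ i, A.x (A.img (Algebra.ofId K L) (P i) - 2 ^ (j i + 1) • Q) A.b₀ ≠ 0)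
    (w : Fin m × Fin (q + 1) →₀ ℕ) (k : Fin (q + 1)) (hw : ∑ i, (4 : ℝ) ^ j i * w (i, k) < T) :
    coeff w (N_H nd (fun a => (PowerSeries.C (nd.y Q a) : PowerSeries L)) η
      (fun i => (Λ i).map (aeval (y i))) F) = 0 := by
  have hrep : A.Rep Q (nd.y Q) := nd.rep_y Q hQ.1
  have hrow' : ∀ i, ∃ c : PowerSeries L, PowerSeries.constantCoeff c ≠ 0 ∧
      ∀ a, A.row A.b₀ (η i) (fun b => PowerSeries.C (A.mu (j i) (nd.y Q) b)) a = c * y i a := by
    intro i
    refine (N_row nd (P i) (hP i).1 (4 ^ j i) (fun k => ζ (i, some k)) (2 ^ j i • Q)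
      (A.mu (j i) (nd.y Q)) (hrep.mu (j i)) (y i) (η i) (hB i).blk ?_).2
    have h1 := hrow i
    rw [pow_succ', mul_nsmul'] at h1
    exact h1
  choose c hc hcy using hrow'
  refine hvan (PowerSeries L) (fun a => PowerSeries.C (nd.y Q a)) η y c (N_Ch_C nd Q hQ)
    (fun i => ?_) (fun i => ?_) (fun i a => ?_) (fun i => ?_) w k hw
  · refine ⟨(hB i).blk.eta_isPt, (hB i).blk.eta_lf0, ?_⟩
    intro h1
    have h2 := congrArg PowerSeries.constantCoeff h1
    rw [N_cc_aeval, map_zero] at h2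
    have h3 : (fun k : Fin n => PowerSeries.constantCoeff (lf (nd.l k.succ) (η i))) =
        nd.s (A.img (Algebra.ofId K L) (P i) - 2 ^ j i • Q) := funext fun k => (hB i).hq k
    rw [h3] at h2
    exact (hgood i).2 h2
  · intro h1
    apply hc i
    rw [h1, map_zero]
  · have h1 : A.mu (j i) (fun a => (PowerSeries.C (nd.y Q a) : PowerSeries L)) =
        fun b => PowerSeries.C (A.mu (j i) (nd.y Q) b) := by
      funext b
      have h2 := A.map_mu (N_C K L) (j i) (nd.y Q) b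
      exact h2.symm
    rw [h1]
    exact hcy i a
  · rw [N_det_map']
    intro h1
    have h2 := congrArg PowerSeries.constantCoeff h1
    rw [N_cc_aeval, map_zero] at h2
    have h3 : (fun b => PowerSeries.constantCoeff (y i b)) =
        fun b => algebraMap K L (nd.y (P i) b) := funext fun b => (hB i).blk.const b
    rw [h3, N_aeval_map] at h2
    exact (map_ne_zero_iff _ (algebraMap K L).injective).2 (hdet i) h2

end

end Pool.Agent.Lib.MP_17a322_nt.SL
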