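import Pool.Agent.Lib.MP_17a322_nt.SL.N3
import Pool.Agent.Lib.MP_17a322_nt.SL.N5
import Pool.Agent.Lib.MP_17a322_nt.VP.N8

/-!
SL, numerical theorem: the local estimates.
-/

universe u

namespace Pool.Agent.Lib.MP_17a322_nt.SL

open MvPolynomial Height
open Pool.Agent.Lib.MP_17a322_nt.RO
open Pool.Agent.Lib.MP_17a322_nt.VJ
open Pool.Agent.Lib.MP_17a322_nt.VN
open Pool.Agent.Lib.MP_17a322_nt.VA
open Pool.Agent.Lib.MP_17a322_nt.VP

section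

variable {K : Type u} [Field K] {N : ℕ} {A : AV K N} {n e : ℕ} (nd : Noe A n e)

/-- The contribution of the variables `x`, `th`, `z`. -/
noncomputable def N_WF {m q : ℕ} (F : MvPolynomial (VQ m n q) K) (Bx : Fin n → ℝ)
    (Be : Fin m → ℝ) : ℝ :=
  (∏ a, Bx a ^ F.degreeOf (VQ.x a)) * (∏ i, Be i ^ F.degreeOf (VQ.th i)) *
    ∏ p : Fin m × Fin n, Be p.1 ^ F.degreeOf (VQ.z p)

theorem N_WF_pos {m q : ℕ} (F : MvPolynomial (VQ m n q) K) {Bx : Fin n → ℝ}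
    {Be : Fin m → ℝ} (h1 : ∀ a, 1 ≤ Bx a) (h2 : ∀ i, 1 ≤ Be i) : 0 < N_WF F Bx Be := by
  unfold N_WF
  exact mul_pos (mul_pos
    (Finset.prod_pos fun a _ => pow_pos (zero_lt_one.trans_le (h1 a)) _)
    (Finset.prod_pos fun i _ => pow_pos (zero_lt_one.trans_le (h2 i)) _))
    (Finset.prod_pos fun p _ => pow_pos (zero_lt_one.trans_le (h2 p.1)) _)

/-- The size of a value. -/
theorem N_val {L : Type u} [Field L] [Algebra K L] {v : AbsoluteValue L ℝ} {S : Type*}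
    [CommRing S] [Algebra L S] [Algebra K S] [IsScalarTower K L S] {ν : S → ℝ} (h : SN v ν)
    {m q : ℕ} (F : MvPolynomial (VQ m n q) K) (k : Fin m → ℕ)
    (hF : ∀ w ∈ F.support, ∀ i, ∑ l, w (VQ.u (i, l)) = k i) (f : VQ m n q → S)
    (Bx : Fin n → ℝ) (Be Bu : Fin m → ℝ) (hx1 : ∀ a, 1 ≤ Bx a) (he1 : ∀ i, 1 ≤ Be i)
    (hu0 : ∀ i, 0 ≤ Bu i) (hx : ∀ a, ν (f (VQ.x a)) ≤ Bx a) (hth : ∀ i, ν (f (VQ.th i)) ≤ Be i)
    (hz : ∀ p, ν (f (VQ.z p)) ≤ Be p.1) (hu : ∀ p, ν (f (VQ.u p)) ≤ Bu p.1) :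
    ν (aeval f F) ≤ NV v (MvPolynomial.map (algebraMap K L) F) *
      (N_WF F Bx Be * ∏ i, Bu i ^ k i) := by
  refine N_supK h F f (mul_nonneg (N_WF_pos F hx1 he1).le
    (Finset.prod_nonneg fun i _ => pow_nonneg (hu0 i) _)) fun w hw => ?_
  rw [N_prod_VQ]
  unfold N_WF
  have hdeg : ∀ s, w s ≤ F.degreeOf s := fun s => monomial_le_degreeOf s hw
  have hpw : ∀ (s : VQ m n q) (B : ℝ), 1 ≤ B → ν (f s) ≤ B → ν (f s) ^ w s ≤
      B ^ F.degreeOf s := fun s B hB hs =>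
    (pow_le_pow_left₀ (h.nonneg _) hs _).trans (pow_le_pow_right₀ hB (hdeg s))
  have e1 : ∏ a, ν (f (VQ.x a)) ^ w (VQ.x a) ≤ ∏ a, Bx a ^ F.degreeOf (VQ.x a) :=
    Finset.prod_le_prod (fun a _ => pow_nonneg (h.nonneg _) _) fun a _ =>
      hpw _ _ (hx1 a) (hx a)
  have e2 : ∏ i, ν (f (VQ.th i)) ^ w (VQ.th i) ≤ ∏ i, Be i ^ F.degreeOf (VQ.th i) :=
    Finset.prod_le_prod (fun a _ => pow_nonneg (h.nonneg _) _) fun a _ =>
      hpw _ _ (he1 a) (hth a)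
  have e3 : ∏ p, ν (f (VQ.z p)) ^ w (VQ.z p) ≤
      ∏ p : Fin m × Fin n, Be p.1 ^ F.degreeOf (VQ.z p) :=
    Finset.prod_le_prod (fun a _ => pow_nonneg (h.nonneg _) _) fun a _ =>
      hpw _ _ (he1 a.1) (hz a)
  have e4 : ∏ p, ν (f (VQ.u p)) ^ w (VQ.u p) ≤ ∏ i, Bu i ^ k i := by
    rw [← N_prod_blk Bu (fun p => w (VQ.u p)) k (hF w hw)]
    exact Finset.prod_le_prod (fun a _ => pow_nonneg (h.nonneg _) _) fun a _ =>
      pow_le_pow_left₀ (h.nonneg _) (hu a) _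
  have p1 : 0 ≤ ∏ a, ν (f (VQ.x a)) ^ w (VQ.x a) :=
    Finset.prod_nonneg fun a _ => pow_nonneg (h.nonneg _) _
  have p2 : 0 ≤ ∏ i, ν (f (VQ.th i)) ^ w (VQ.th i) :=
    Finset.prod_nonneg fun a _ => pow_nonneg (h.nonneg _) _
  have p3 : 0 ≤ ∏ p, ν (f (VQ.z p)) ^ w (VQ.z p) :=
    Finset.prod_nonneg fun a _ => pow_nonneg (h.nonneg _) _
  have p4 : 0 ≤ ∏ p, ν (f (VQ.u p)) ^ w (VQ.u p) :=
    Finset.prod_nonneg fun a _ => pow_nonneg (h.nonneg _) _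
  exact mul_le_mul (mul_le_mul (mul_le_mul e1 e2 p2 (p1.trans e1)) e3 p3
    ((mul_nonneg p1 p2).trans (mul_le_mul e1 e2 p2 (p1.trans e1)))) e4 p4
    ((mul_nonneg (mul_nonneg p1 p2) p3).trans (mul_le_mul (mul_le_mul e1 e2 p2 (p1.trans e1)) e3 p3
    ((mul_nonneg p1 p2).trans (mul_le_mul e1 e2 p2 (p1.trans e1)))))

theorem N_lf_MC {τ R : Type*} [CommRing R] [Algebra K R] (l : Fin (N + 1) → K)
    (b : Fin (N + 1) → R) : lf l (fun b' => (C (b b') : MvPolynomial τ R)) = C (lf l b) := by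
  unfold VA.lf
  rw [map_sum]
  refine Finset.sum_congr rfl fun b' _ => ?_
  rw [map_mul]
  congr 1

theorem N_aeval_MC {τ σ R : Type*} [CommRing R] [Algebra K R] (G : MvPolynomial σ K)
    (b : σ → R) : aeval (fun b' => (C (b b') : MvPolynomial τ R)) G = C (aeval b G) := by
  exact aeval_algebraMap_apply (MvPolynomial τ R) b G

/-- The sizes of the variables `x`, `th`, `z` in a ring of polynomials over power series. -/
theorem N_var {m q : ℕ} (E₀ E : SC K) (c₀ a₁ : ℕ) (hOK : N_OK nd E₀ E a₁) (D : ℕ) (C₁ : ℝ)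
    (hC₁ : N_C1 N D c₀ ≤ C₁) (P : Fin m → A.Pts K) (j : Fin m → ℕ)
    (hP : ∀ i, nd.Good (P i)) {L : Type u} [Field L] [Algebra K L] (Q : A.Pts L)
    (ζ : Fin m × Option (Fin n) → L) (v : AbsoluteValue L ℝ)
    (y η : Fin m → Fin (N + 1) → PowerSeries L)
    (hB : ∀ i, N_B nd E₀ c₀ (P i) (4 ^ j i) (fun k => ζ (i, some k)) (A.mu (j i) (nd.y Q))
      (nd.s (A.img (Algebra.ofId K L) (P i) - 2 ^ j i • Q)) (y i) (η i))
    (ρ : ℝ) (hρ0 : 0 ≤ ρ)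
    (hρ : ∀ i, ρ ^ 4 ^ j i * (E.k v * mq v (nd.s (A.img (Algebra.ofId K L) (P i) -
      2 ^ j i • Q))) ≤ Real.exp (- (C₁ * N_l0 nd E v (P i) 0))) (N₁ : ℕ)
    {τ : Type*} [Fintype τ] (rs : τ → ℝ) (hrs : ∀ t, 0 ≤ rs t)
    (U : Fin m × Fin q → MvPolynomial τ (PowerSeries L)) :
    (∀ a, GN v (fun f => PN v ρ N₁ f) rs (vM nd
      (fun b => (C (PowerSeries.C (nd.y Q b)) : MvPolynomial τ (PowerSeries L)))
      (fun i b => C (η i b)) U (VQ.x a)) ≤ max 1 (v (nd.s Q a))) ∧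
    (∀ i, GN v (fun f => PN v ρ N₁ f) rs (vM nd
      (fun b => (C (PowerSeries.C (nd.y Q b)) : MvPolynomial τ (PowerSeries L)))
      (fun i b => C (η i b)) U (VQ.th i)) ≤ E.k v * (E.k v * mq v
        (nd.s (A.img (Algebra.ofId K L) (P i) - 2 ^ j i • Q))) ^ a₁) ∧
    ∀ p, GN v (fun f => PN v ρ N₁ f) rs (vM nd
      (fun b => (C (PowerSeries.C (nd.y Q b)) : MvPolynomial τ (PowerSeries L)))
      (fun i b => C (η i b)) U (VQ.z p)) ≤ E.k v * (E.k v * mq v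
        (nd.s (A.img (Algebra.ofId K L) (P p.1) - 2 ^ j p.1 • Q))) ^ a₁ := by
  obtain ⟨hE, hE3, hsz⟩ := hOK L v
  have hSN := SN_PN v hρ0 N₁
  have hEq1 : ∀ i, 1 ≤ E.k v * mq v (nd.s (A.img (Algebra.ofId K L) (P i) - 2 ^ j i • Q)) :=
    fun i => one_le_mul_of_one_le_of_one_le (E.one_le v) (N_one_le_mq v _)
  have hη : ∀ i b, PN v ρ N₁ (η i b) ≤
      E.k v * mq v (nd.s (A.img (Algebra.ofId K L) (P i) - 2 ^ j i • Q)) := by
    intro i b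
    have h1 : ρ ^ 4 ^ j i * (E₀.k v * mq v (nd.s (A.img (Algebra.ofId K L) (P i) -
        2 ^ j i • Q))) ≤ rdP nd E₀ c₀ v (P i) := by
      refine le_trans ?_ ((hρ i).trans
        (N_rd nd E₀ E c₀ v hE D C₁ hC₁ (P i) 0 (hP i).2))
      exact mul_le_mul_of_nonneg_left (mul_le_mul_of_nonneg_right hE
        (zero_le_one.trans (N_one_le_mq v _))) (pow_nonneg hρ0 _)
    exact ((hB i).seta v ρ hρ0 h1 b N₁).trans (mul_le_mul_of_nonneg_right hE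
      (zero_le_one.trans (N_one_le_mq v _)))
  have hηs := fun i => hsz (PowerSeries L) (fun f => PN v ρ N₁ f) hSN (η i) _ (hEq1 i) (hη i)
  refine ⟨fun a => ?_, fun i => ?_, fun p => ?_⟩
  · show GN v (fun f => PN v ρ N₁ f) rs (lf (nd.l a.succ)
      (fun b => (C (PowerSeries.C (nd.y Q b)) : MvPolynomial τ (PowerSeries L)))) ≤ _
    rw [N_lf_MC, N_lf_C, GN_C hSN hrs]
    show PN v ρ N₁ (PowerSeries.C (nd.s Q a)) ≤ _
    rw [PN_C]
    exact le_max_right _ _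
  · show GN v (fun f => PN v ρ N₁ f) rs (aeval (fun b => (C (η i b) :
      MvPolynomial τ (PowerSeries L))) nd.θ) ≤ _
    rw [N_aeval_MC, GN_C hSN hrs]
    exact (hηs i).1
  · show GN v (fun f => PN v ρ N₁ f) rs (lf (nd.l p.2.succ)
      (fun b => (C (η p.1 b) : MvPolynomial τ (PowerSeries L)))) ≤ _
    rw [N_lf_MC, GN_C hSN hrs]
    exact (hηs p.1).2 p.2

end

end Pool.Agent.Lib.MP_17a322_nt.SL
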