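import Pool.Agent.Lib.MP_17a322_nt.SL.N6

/-!
SL, numerical theorem: the local estimates at the places outside of `Sg` and in `Sg`.
-/

universe u

namespace Pool.Agent.Lib.MP_17a322_nt.SL

open MvPolynomial Height
open Pool.Agent.Lib.MP_17a322_nt.RO
open Pool.Agent.Lib.MP_17a322_nt.VJ
open Pool.Agent.Lib.MP_17a322_nt.VN
open Pool.Agent.Lib.MP_17a322_nt.VA
open Pool.Agent.Lib.MP_17a322_nt.VP

section

/-- A linear form in the variables of a block. -/
theorem N_lin {L : Type u} [Field L] {v : AbsoluteValue L ℝ} {R : Type*} [CommRing R]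
    [Algebra L R] {ν : R → ℝ} (h : SN v ν) {m q' : ℕ} {rs : Fin m × Fin q' → ℝ}
    (hrs : ∀ p, 0 ≤ rs p) (a : Fin q' → R) (i : Fin m) {B : ℝ} (hB : 0 ≤ B)
    (ha : ∀ s, ν (a s) * rs (i, s) ≤ B) :
    GN v ν rs (∑ s, C (a s) * X (i, s)) ≤ cst v (q' + 1) * B := by
  have h1 := (SN_GN h hrs).sum_le Finset.univ
    (fun s : Fin q' => (C (a s) * X (i, s) : MvPolynomial (Fin m × Fin q') R)) hB (fun s _ => by
      show GN v ν rs (C (a s) * X (i, s)) ≤ B
      rw [GN_C_mul_X_le h hrs]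
      exact ha s)
  rw [Finset.card_univ, Fintype.card_fin] at h1
  exact h1.trans (mul_le_mul_of_nonneg_right (cst_mono v (Nat.le_succ _)) hB)

variable {K : Type u} [Field K] {N : ℕ} {A : AV K N} {n e : ℕ} (nd : Noe A n e)

theorem N_vmax_pos {L : Type u} [Field L] [Algebra K L] (v : AbsoluteValue L ℝ) {q : ℕ}
    {y : Fin (q + 1) → K} (hy : y ≠ 0) : 0 < ⨆ l, v (algebraMap K L (y l)) := by
  obtain ⟨l, hl⟩ := Function.ne_iff.1 hy
  have h1 : 0 < v (algebraMap K L (y l)) :=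
    v.pos ((map_ne_zero_iff _ (algebraMap K L).injective).2 hl)
  exact h1.trans_le (le_ciSup (f := fun l => v (algebraMap K L (y l)))
    (Set.finite_range _).bddAbove l)

/-- The local estimate at the places outside of `Sg`. -/
theorem N_locA {m q q' : ℕ} (E₀ E : SC K) (c₀ a₁ : ℕ) (hOK : N_OK nd E₀ E a₁) (D : ℕ) (C₁ : ℝ)
    (hC₁ : N_C1 N D c₀ ≤ C₁) (P : Fin m → A.Pts K) (j : Fin m → ℕ)
    (hP : ∀ i, nd.Good (P i)) (F : MvPolynomial (VQ m n (q + 1)) K) (k : Fin m → ℕ)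
    (hF : ∀ w ∈ F.support, ∀ i, ∑ l, w (VQ.u (i, l)) = k i)
    (y : Fin m → Fin q' → Fin (q + 1) → K) (hy : ∀ i s, y i s ≠ 0)
    {L : Type u} [Field L] [Algebra K L] (Q : A.Pts L)
    (ζ : Fin m × Option (Fin n) → L) (v : AbsoluteValue L ℝ)
    (x η : Fin m → Fin (N + 1) → PowerSeries L)
    (hB : ∀ i, N_B nd E₀ c₀ (P i) (4 ^ j i) (fun k => ζ (i, some k)) (A.mu (j i) (nd.y Q))
      (nd.s (A.img (Algebra.ofId K L) (P i) - 2 ^ j i • Q)) (x i) (η i))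
    (ρ : ℝ) (hρ0 : 0 ≤ ρ)
    (hρ : ∀ i, ρ ^ 4 ^ j i * (E.k v * mq v (nd.s (A.img (Algebra.ofId K L) (P i) -
      2 ^ j i • Q))) ≤ Real.exp (- (C₁ * N_l0 nd E v (P i) 0))) (N₁ : ℕ)
    (e' : Fin m × Fin q' →₀ ℕ) :
    PN v ρ N₁ (coeff e' (vlN nd y (nd.y Q) η F)) ≤
      NV v (MvPolynomial.map (algebraMap K L) F) *
      (N_WF F (fun a => max 1 (v (nd.s Q a))) (fun i => E.k v * (E.k v * mq v
        (nd.s (A.img (Algebra.ofId K L) (P i) - 2 ^ j i • Q))) ^ a₁) *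
        ∏ i, cst v (q' + 1) ^ k i) * ∏ p, (⨆ l, v (algebraMap K L (y p.1 p.2 l))) ^ e' p := by
  have hSN := SN_PN v hρ0 N₁
  obtain ⟨rs, hrs⟩ : ∃ rs : Fin m × Fin q' → ℝ,
    rs = fun p => (⨆ l, v (algebraMap K L (y p.1 p.2 l)))⁻¹ := ⟨_, rfl⟩
  have hrs0 : ∀ p, 0 < rs p := fun p => by
    rw [hrs]
    exact inv_pos.2 (N_vmax_pos v (hy p.1 p.2))
  have hvar := N_var nd E₀ E c₀ a₁ hOK D C₁ hC₁ P j hP Q ζ v x η hB ρ hρ0 hρ N₁ rs
    (fun p => (hrs0 p).le) (fun p : Fin m × Fin (q + 1) =>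
      (∑ s, C (PowerSeries.C (algebraMap K L (y p.1 s p.2))) * X (p.1, s) :
        MvPolynomial (Fin m × Fin q') (PowerSeries L)))
  have h1 := GN_coeff_le' hSN hrs0 (vlN nd y (nd.y Q) η F) e'
  refine h1.trans ?_
  have h2 : ∏ p, (rs p)⁻¹ ^ e' p = ∏ p, (⨆ l, v (algebraMap K L (y p.1 p.2 l))) ^ e' p := by
    refine Finset.prod_congr rfl fun p _ => ?_
    rw [hrs, inv_inv]
  rw [h2]
  refine mul_le_mul_of_nonneg_right ?_ (Finset.prod_nonneg fun p _ =>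
    pow_nonneg (N_vmax_pos v (hy p.1 p.2)).le _)
  unfold vlN
  refine N_val (K := K) (SN_GN hSN fun p => (hrs0 p).le) F k hF _ _ _ (fun _ => cst v (q' + 1))
    (fun a => le_max_left _ _) (fun i => one_le_mul_of_one_le_of_one_le (E.one_le v)
      (one_le_pow₀ (one_le_mul_of_one_le_of_one_le (E.one_le v) (N_one_le_mq v _))))
    (fun i => cst_nonneg v _) hvar.1 hvar.2.1 hvar.2.2 fun p => ?_
  show GN v (fun f => PN v ρ N₁ f) rs (∑ s, C (PowerSeries.C (algebraMap K L (y p.1 s p.2))) *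
    X (p.1, s)) ≤ cst v (q' + 1)
  refine (N_lin hSN (fun p => (hrs0 p).le) _ p.1 zero_le_one fun s => ?_).trans
    (mul_one _).le
  show PN v ρ N₁ (PowerSeries.C (algebraMap K L (y p.1 s p.2))) * rs (p.1, s) ≤ 1
  rw [PN_C, hrs]
  beta_reduce
  have h3 := N_vmax_pos (L := L) v (hy p.1 s)
  rw [← div_eq_mul_inv, div_le_one h3]
  exact le_ciSup (f := fun l => v (algebraMap K L (y p.1 s l))) (Set.finite_range _).bddAbove p.2

/-- The local estimate at the places in `Sg`. -/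
theorem N_locB {m q q' : ℕ} (E₀ E : SC K) (c₀ a₁ : ℕ) (hOK : N_OK nd E₀ E a₁) (D : ℕ) (C₁ : ℝ)
    (hC₁ : N_C1 N D c₀ ≤ C₁) (P : Fin m → A.Pts K) (j : Fin m → ℕ)
    (hP : ∀ i, nd.Good (P i)) (F : MvPolynomial (VQ m n (q + 1)) K) (k : Fin m → ℕ)
    (hF : ∀ w ∈ F.support, ∀ i, ∑ l, w (VQ.u (i, l)) = k i)
    (y : Fin m → Fin q' → Fin (q + 1) → K)
    (Λ : Fin m → Matrix (Fin (q + 1)) (Fin (q + 1)) (MvPolynomial (Fin (N + 1)) K))
    (hΛ : ∀ i k l t, (Λ i k l).degreeOf t ≤ D)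
    (hdet : ∀ i, eval (nd.y (P i)) (Λ i).det ≠ 0) (T : ℝ) (hvan : VanM nd j Λ T F)
    {L : Type u} [Field L] [Algebra K L] (Q : A.Pts L) (hQ : nd.Good Q)
    (ζ : Fin m × Option (Fin n) → L) (v : AbsoluteValue L ℝ)
    (x η : Fin m → Fin (N + 1) → PowerSeries L)
    (hB : ∀ i, N_B nd E₀ c₀ (P i) (4 ^ j i) (fun k => ζ (i, some k)) (A.mu (j i) (nd.y Q))
      (nd.s (A.img (Algebra.ofId K L) (P i) - 2 ^ j i • Q)) (x i) (η i))
    (hgood : ∀ i, nd.Good (A.img (Algebra.ofId K L) (P i) - 2 ^ j i • Q))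
    (hrow : ∀ i, A.x (A.img (Algebra.ofId K L) (P i) - 2 ^ (j i + 1) • Q) A.b₀ ≠ 0)
    (Z Bm cm : Fin m → ℝ)
    (hZ : ∀ i, Z i = NVM v ((Λ i).map (MvPolynomial.map (algebraMap K L))) *
      (E₀.k v * mq v fun b => algebraMap K L (nd.y (P i) b)) ^ ((N + 1) * D))
    (hBm1 : ∀ i, 1 ≤ Bm i)
    (hBm : ∀ i, cst v (2 * (q + 1) ^ 2 * (q + 1).factorial) * Z i ^ (q + 1) ≤
      Bm i * v (algebraMap K L (eval (nd.y (P i)) (Λ i).det)))
    (hcm : ∀ i, 0 ≤ cm i) (Cw : Fin m → Fin (q + 1) → ℝ) (hCw : ∀ i k, |Cw i k| ≤ cm i)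
    (S : Fin m × Fin q' → ℝ) (hS : ∀ p, 0 < S p)
    (hSk : ∀ i s k, v (((Λ i).map (aeval fun b => algebraMap K L (nd.y (P i) b))).mulVec
      (fun l => algebraMap K L (y i s l)) k) * Real.exp (Cw i k) ≤ S (i, s))
    (Θ : ℝ) (hΘ0 : 0 ≤ Θ)
    (hΘ : ∀ w : Fin m × Fin (q + 1) →₀ ℕ, (∀ i, ∑ l, w (i, l) = k i) →
      (∀ l, T ≤ ∑ i, (4 : ℝ) ^ j i * w (i, l)) → ∏ p, Real.exp (- Cw p.1 p.2) ^ w p ≤ Θ)
    (ρ : ℝ) (hρ0 : 0 ≤ ρ)
    (hρ : ∀ i, ρ ^ 4 ^ j i * (E.k v * mq v (nd.s (A.img (Algebra.ofId K L) (P i) -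
      2 ^ j i • Q))) ≤ Real.exp (- (C₁ * N_l0 nd E v (P i) 0)))
    (hρ2 : ∀ i, ρ ^ 4 ^ j i * Bm i ≤ Real.exp (- (2 * cm i)) * rdP nd E₀ c₀ v (P i)) (N₁ : ℕ)
    (e' : Fin m × Fin q' →₀ ℕ) :
    PN v ρ N₁ (coeff e' (vlN nd y (nd.y Q) η F)) ≤
      NV v (MvPolynomial.map (algebraMap K L) F) *
      (N_WF F (fun a => max 1 (v (nd.s Q a))) (fun i => E.k v * (E.k v * mq v
        (nd.s (A.img (Algebra.ofId K L) (P i) - 2 ^ j i • Q))) ^ a₁) *
        ∏ i, (cst v (q + 1) * (cst v (q + 1).factorial * Z i ^ q)) ^ k i) *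
      ((∏ i, (cst v (q' + 1) * cst v 2) ^ k i) * Θ) *
      (∏ i, (cst v 2 / v (algebraMap K L (eval (nd.y (P i)) (Λ i).det))) ^ k i) *
      ∏ p, S p ^ e' p := by
  have hSN := SN_PN v hρ0 N₁
  obtain ⟨M, hM⟩ : ∃ M : Fin m → Matrix (Fin (q + 1)) (Fin (q + 1)) (PowerSeries L),
    M = fun i => (Λ i).map (aeval (x i)) := ⟨_, rfl⟩
  obtain ⟨d, hd⟩ : ∃ d : Fin m → L,
    d = fun i => algebraMap K L (eval (nd.y (P i)) (Λ i).det) := ⟨_, rfl⟩
  have hd0 : ∀ i, d i ≠ 0 := fun i => by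
    rw [hd]
    exact (map_ne_zero_iff _ (algebraMap K L).injective).2 (hdet i)
  have hY1 : ∀ i, 1 ≤ E₀.k v * mq v fun b => algebraMap K L (nd.y (P i) b) := fun i =>
    one_le_mul_of_one_le_of_one_le (E₀.one_le v) (N_one_le_mq v _)
  have hZ0 : ∀ i, 0 ≤ Z i := fun i => by
    rw [hZ]
    exact mul_nonneg (N_NVM_nonneg v _) (pow_nonneg (zero_le_one.trans (hY1 i)) _)
  have hc2 : 1 ≤ cst v 2 := one_le_cst v (by norm_num)
  have hcq' : 1 ≤ cst v (q' + 1) := one_le_cst v (by omega)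
  -- the blocks
  have hblk := fun i => N_blkM (K := K) v D (Λ i) (hΛ i) (4 ^ j i) (by positivity) (x i)
    (fun b => algebraMap K L (nd.y (P i) b)) (hB i).blk.const (hB i).form ((hB i).rad v).1
    ((hB i).rad v).2 (hY1 i) ((hB i).sy v) (hZ i)
    (by rw [N_aeval_map]; exact (map_ne_zero_iff _ (algebraMap K L).injective).2 (hdet i))
    (hBm1 i) (by rw [N_aeval_map]; exact hBm i) (hcm i) ρ hρ0 (hρ2 i) N₁
  have hg : ∀ i, ∃ g : PowerSeries L, (M i).det * g = 1 ∧ PN v ρ N₁ g ≤ cst v 2 / v (d i) := by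
    intro i
    obtain ⟨g, hg1, hg2⟩ := (hblk i).1
    rw [N_aeval_map] at hg2
    exact ⟨g, by rw [hM]; exact hg1, by rw [hd]; exact hg2⟩
  choose g hg1 hg2 using hg
  have hent : ∀ i k l, PN v ρ N₁ (M i k l) ≤ Z i := fun i k l => by
    rw [hM]
    exact (hblk i).2.1 k l
  have hxi : ∀ i s k, PN v ρ N₁ (∑ l, M i k l * PowerSeries.C (algebraMap K L (y i s l))) ≤
      cst v 2 * (S (i, s) * Real.exp (- Cw i k)) := by
    intro i s k
    have h1 := (hblk i).2.2.2 (fun l => algebraMap K L (y i s l)) 0 0 (S (i, s)) (Cw i)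
      (by rw [map_zero]; exact zero_le_one) (hS _).le (fun l => by
        rw [Pi.zero_apply, map_zero]
        exact Real.iSup_nonneg fun l => v.nonneg _) (hCw i) (hSk i s) k
    have h2 : ∑ l, M i k l * PowerSeries.C (algebraMap K L (y i s l)) =
        ∑ l, (Λ i).map (aeval (x i)) k l * (PowerSeries.C (algebraMap K L (y i s l)) +
        PowerSeries.C (0 * (0 : Fin (q + 1) → L) l) * PowerSeries.X ^ 4 ^ j i) := by
      rw [hM]
      refine Finset.sum_congr rfl fun l _ => ?_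
      rw [zero_mul, map_zero, zero_mul, add_zero]
    rw [h2]
    exact h1
  -- the polynomial in the values of the forms
  obtain ⟨H, hH⟩ : ∃ H, H = N_H nd (fun a => (PowerSeries.C (nd.y Q a) : PowerSeries L)) η M F :=
    ⟨_, rfl⟩
  have hone : ∀ p : Fin m × Fin (q + 1), (0 : ℝ) ≤ (fun _ => (1 : ℝ)) p := fun _ => zero_le_one
  have hHn : GN v (fun f => PN v ρ N₁ f) (fun _ => 1) H ≤
      NV v (MvPolynomial.map (algebraMap K L) F) *
      (N_WF F (fun a => max 1 (v (nd.s Q a))) (fun i => E.k v * (E.k v * mq v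
        (nd.s (A.img (Algebra.ofId K L) (P i) - 2 ^ j i • Q))) ^ a₁) *
        ∏ i, (cst v (q + 1) * (cst v (q + 1).factorial * Z i ^ q)) ^ k i) := by
    have hvar := N_var nd E₀ E c₀ a₁ hOK D C₁ hC₁ P j hP Q ζ v x η hB ρ hρ0 hρ N₁
      (fun _ : Fin m × Fin (q + 1) => (1 : ℝ)) hone (fun p : Fin m × Fin (q + 1) =>
        (∑ k', C ((M p.1).adjugate p.2 k') * X (p.1, k') :
          MvPolynomial (Fin m × Fin (q + 1)) (PowerSeries L)))
    rw [hH]
    unfold N_H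
    refine N_val (K := K) (SN_GN hSN hone) F k hF _ _ _
      (fun i => cst v (q + 1) * (cst v (q + 1).factorial * Z i ^ q))
      (fun a => le_max_left _ _) (fun i => one_le_mul_of_one_le_of_one_le (E.one_le v)
        (one_le_pow₀ (one_le_mul_of_one_le_of_one_le (E.one_le v) (N_one_le_mq v _))))
      (fun i => mul_nonneg (cst_nonneg v _) (mul_nonneg (cst_nonneg v _)
        (pow_nonneg (hZ0 i) _))) hvar.1 hvar.2.1 hvar.2.2 fun p => ?_
    show GN v (fun f => PN v ρ N₁ f) (fun _ => 1) (∑ k', C ((M p.1).adjugate p.2 k') *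
      X (p.1, k')) ≤ cst v (q + 1) * (cst v (q + 1).factorial * Z p.1 ^ q)
    have h0 : 0 ≤ cst v (q + 1).factorial * Z p.1 ^ q :=
      mul_nonneg (cst_nonneg v _) (pow_nonneg (hZ0 _) _)
    have h1 := (SN_GN hSN hone).sum_le Finset.univ (fun k' : Fin (q + 1) =>
      (C ((M p.1).adjugate p.2 k') * X (p.1, k') :
        MvPolynomial (Fin m × Fin (q + 1)) (PowerSeries L))) h0 (fun k' _ => by
      show GN v (fun f => PN v ρ N₁ f) (fun _ => 1) (C ((M p.1).adjugate p.2 k') *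
        X (p.1, k')) ≤ _
      rw [GN_C_mul_X_le hSN hone, mul_one]
      exact N_adj_le hSN (M p.1) (hZ0 _) (hent p.1) p.2 k')
    rw [Finset.card_univ, Fintype.card_fin] at h1
    exact h1
  -- the value
  obtain ⟨rs, hrs⟩ : ∃ rs : Fin m × Fin q' → ℝ, rs = fun p => (S p)⁻¹ := ⟨_, rfl⟩
  have hrs0 : ∀ p, 0 < rs p := fun p => by
    rw [hrs]
    exact inv_pos.2 (hS p)
  obtain ⟨Ξ, hΞ⟩ : ∃ Ξ : Fin m × Fin (q + 1) → MvPolynomial (Fin m × Fin q') (PowerSeries L),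
    Ξ = fun p => ∑ l, algebraMap (PowerSeries L)
      (MvPolynomial (Fin m × Fin q') (PowerSeries L)) (M p.1 p.2 l) *
      ∑ s, C (PowerSeries.C (algebraMap K L (y p.1 s l))) * X (p.1, s) := ⟨_, rfl⟩
  have hval : aeval Ξ H = (∏ i, algebraMap (PowerSeries L)
      (MvPolynomial (Fin m × Fin q') (PowerSeries L)) (M i).det ^ k i) *
      vlN nd y (nd.y Q) η F := by
    rw [hΞ, hH]
    exact N_H_value nd (fun a => (PowerSeries.C (nd.y Q a) : PowerSeries L)) η M k F hF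
      (fun p : Fin m × Fin (q + 1) =>
        (∑ s, C (PowerSeries.C (algebraMap K L (y p.1 s p.2))) * X (p.1, s) :
          MvPolynomial (Fin m × Fin q') (PowerSeries L)))
  have hinv : vlN nd y (nd.y Q) η F = C (∏ i, g i ^ k i) * aeval Ξ H := by
    rw [hval, ← mul_assoc]
    have h1 : (C (∏ i, g i ^ k i) : MvPolynomial (Fin m × Fin q') (PowerSeries L)) *
        ∏ i, algebraMap (PowerSeries L)
          (MvPolynomial (Fin m × Fin q') (PowerSeries L)) (M i).det ^ k i = 1 := by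
      rw [MvPolynomial.algebraMap_eq, map_prod, ← Finset.prod_mul_distrib]
      refine Finset.prod_eq_one fun i _ => ?_
      rw [map_pow, ← mul_pow, ← map_mul, mul_comm (g i), hg1, map_one, one_pow]
    rw [h1, one_mul]
  have hΞe : ∀ p, Ξ p = ∑ s, C (∑ l, M p.1 p.2 l * PowerSeries.C (algebraMap K L (y p.1 s l))) *
      X (p.1, s) := by
    intro p
    rw [hΞ]
    beta_reduce
    rw [MvPolynomial.algebraMap_eq]
    have h1 : ∀ l, (C (M p.1 p.2 l) : MvPolynomial (Fin m × Fin q') (PowerSeries L)) *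
        ∑ s, C (PowerSeries.C (algebraMap K L (y p.1 s l))) * X (p.1, s) =
        ∑ s, C (M p.1 p.2 l * PowerSeries.C (algebraMap K L (y p.1 s l))) * X (p.1, s) := by
      intro l
      rw [Finset.mul_sum]
      refine Finset.sum_congr rfl fun s _ => ?_
      rw [map_mul, mul_assoc]
    rw [Finset.sum_congr rfl fun l _ => h1 l, Finset.sum_comm]
    refine Finset.sum_congr rfl fun s _ => ?_
    rw [map_sum, Finset.sum_mul]
  have hΞn : ∀ p, GN v (fun f => PN v ρ N₁ f) rs (Ξ p) ≤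
      (cst v (q' + 1) * cst v 2) * Real.exp (- Cw p.1 p.2) := by
    intro p
    rw [hΞe]
    have h0 : 0 ≤ cst v 2 * Real.exp (- Cw p.1 p.2) :=
      mul_nonneg (cst_nonneg v _) (Real.exp_pos _).le
    refine (N_lin hSN (fun p => (hrs0 p).le) _ p.1 h0 fun s => ?_).trans (le_of_eq ?_)
    · rw [hrs]
      beta_reduce
      rw [← div_eq_mul_inv, div_le_iff₀ (hS _)]
      refine (hxi p.1 s p.2).trans (le_of_eq ?_)
      ring
    · ring
  have hHv : GN v (fun f => PN v ρ N₁ f) rs (aeval Ξ H) ≤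
      GN v (fun f => PN v ρ N₁ f) (fun _ => 1) H *
        ((∏ i, (cst v (q' + 1) * cst v 2) ^ k i) * Θ) := by
    have hcc : 0 ≤ cst v (q' + 1) * cst v 2 := mul_nonneg (cst_nonneg v _) (cst_nonneg v _)
    refine N_sup hSN (SN_GN hSN fun p => (hrs0 p).le) (fun r => ?_) H Ξ
      (mul_nonneg (Finset.prod_nonneg fun i _ => pow_nonneg hcc _) hΘ0) fun w hw => ?_
    · show GN v (fun f => PN v ρ N₁ f) rs (algebraMap (PowerSeries L) _ r) ≤ PN v ρ N₁ r
      rw [MvPolynomial.algebraMap_eq, GN_C hSN fun p => (hrs0 p).le]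
    · have hw0 : coeff w H ≠ 0 := mem_support_iff.1 hw
      have hwk : ∀ i, ∑ l, w (i, l) = k i := by
        intro i
        rw [hH] at hw0
        exact N_hom nd _ η (fun i l k' => (M i).adjugate l k') k F hF w hw0 i
      have hwT : ∀ l, T ≤ ∑ i, (4 : ℝ) ^ j i * w (i, l) := by
        intro l
        by_contra hlt
        push Not at hlt
        apply hw0
        rw [hH, hM]
        exact N_vanM nd E₀ c₀ P j hP Λ hdet F T hvan Q hQ ζ x η hB hgood hrow w l hlt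
      have h1 : ∏ p, GN v (fun f => PN v ρ N₁ f) rs (Ξ p) ^ w p ≤
          ∏ p, ((cst v (q' + 1) * cst v 2) * Real.exp (- Cw p.1 p.2)) ^ w p :=
        Finset.prod_le_prod (fun p _ => pow_nonneg (GN_nonneg hSN (fun p => (hrs0 p).le) _) _)
          fun p _ => pow_le_pow_left₀ (GN_nonneg hSN (fun p => (hrs0 p).le) _) (hΞn p) _
      refine h1.trans ?_
      have h2 : ∏ p, ((cst v (q' + 1) * cst v 2) * Real.exp (- Cw p.1 p.2)) ^ w p =
          (∏ i, (cst v (q' + 1) * cst v 2) ^ k i) * ∏ p, Real.exp (- Cw p.1 p.2) ^ w p := by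
        rw [← N_prod_blk (fun _ => cst v (q' + 1) * cst v 2) w k hwk,
          ← Finset.prod_mul_distrib]
        refine Finset.prod_congr rfl fun p _ => ?_
        rw [mul_pow]
      rw [h2]
      exact mul_le_mul_of_nonneg_left (hΘ w hwk hwT)
        (Finset.prod_nonneg fun i _ => pow_nonneg hcc _)
  -- conclusion
  have hcoef : coeff e' (vlN nd y (nd.y Q) η F) =
      (∏ i, g i ^ k i) * coeff e' (aeval Ξ H) := by
    rw [hinv, coeff_C_mul]
  rw [hcoef]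
  refine (hSN.mul _ _).trans ?_
  have e1 : PN v ρ N₁ (∏ i, g i ^ k i) ≤ ∏ i, (cst v 2 / v (d i)) ^ k i := by
    refine (hSN.prod_le _ _).trans ?_
    exact Finset.prod_le_prod (fun i _ => hSN.nonneg _) fun i _ =>
      (hSN.pow_le _ _).trans (pow_le_pow_left₀ (hSN.nonneg _) (hg2 i) _)
  have e2 : PN v ρ N₁ (coeff e' (aeval Ξ H)) ≤
      (GN v (fun f => PN v ρ N₁ f) (fun _ => 1) H *
        ((∏ i, (cst v (q' + 1) * cst v 2) ^ k i) * Θ)) * ∏ p, S p ^ e' p := by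
    refine (GN_coeff_le' hSN hrs0 (aeval Ξ H) e').trans ?_
    have h2 : ∏ p, (rs p)⁻¹ ^ e' p = ∏ p, S p ^ e' p := by
      refine Finset.prod_congr rfl fun p _ => ?_
      rw [hrs, inv_inv]
    rw [h2]
    exact mul_le_mul_of_nonneg_right hHv (Finset.prod_nonneg fun p _ => pow_nonneg (hS p).le _)
  have hpS : 0 ≤ ∏ p, S p ^ e' p := Finset.prod_nonneg fun p _ => pow_nonneg (hS p).le _
  have hpd : 0 ≤ ∏ i, (cst v 2 / v (d i)) ^ k i :=
    Finset.prod_nonneg fun i _ => pow_nonneg (div_nonneg (cst_nonneg v _) (v.nonneg _)) _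
  have hpc : 0 ≤ (∏ i, (cst v (q' + 1) * cst v 2) ^ k i) * Θ :=
    mul_nonneg (Finset.prod_nonneg fun i _ => pow_nonneg
      (mul_nonneg (cst_nonneg v _) (cst_nonneg v _)) _) hΘ0
  have e3 := mul_le_mul e1 e2 (hSN.nonneg _) hpd
  refine e3.trans ?_
  have e4 := mul_le_mul_of_nonneg_right (mul_le_mul_of_nonneg_right hHn hpc) hpS
  have e5 := mul_le_mul_of_nonneg_left e4 hpd
  refine e5.trans (le_of_eq ?_)
  have e6 : ∏ i, (cst v 2 / v (d i)) ^ k i =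
      ∏ i, (cst v 2 / v (algebraMap K L (eval (nd.y (P i)) (Λ i).det))) ^ k i := by
    rw [hd]
  rw [e6]
  ring

end

end Pool.Agent.Lib.MP_17a322_nt.SL
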