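import Pool.Agent.Lib.MP_17a322_nt.VA.LAgn
import Pool.Agent.Lib.MP_17a322_nt.VJ.A7

/-!
SL, numerical theorem: the places of an extension; functions on the places of `K` as functions on the
places of the extension.
-/

universe u

namespace Pool.Agent.Lib.MP_17a322_nt.SL

open Height NumberField IsDedekindDomain
open Pool.Agent.Lib.MP_17a322_nt.RO
open Pool.Agent.Lib.MP_17a322_nt.VJ
open Pool.Agent.Lib.MP_17a322_nt.VN
open Pool.Agent.Lib.MP_17a322_nt.VA

section

variable {K L : Type*} [Field K] [NumberField K] [Field L] [NumberField L] [Algebra K L]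

/-- The place `w` of `L` lies over the place `v` of `K`; the normalised absolute value is the `n`-th
power. -/
structure Bel (v : AbsoluteValue K ℝ) (w : AbsoluteValue L ℝ) (n : ℕ) : Prop where
  pl : Pl v
  pos : 0 < n
  na : IsNonarchimedean w → IsNonarchimedean v
  na' : IsNonarchimedean v → IsNonarchimedean w
  one : ¬ IsNonarchimedean w → n = 1
  eq : ∀ x, w (algebraMap K L x) = v x ^ n

theorem N_pl_fin (v : HeightOneSpectrum (𝓞 K)) : Pl (FinitePlace.mk v).val :=
  Or.inr (FinitePlace.mk v).isFinitePlace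

theorem N_pl_inf (ψ : K →+* ℂ) : Pl (InfinitePlace.mk ψ).val :=
  Or.inl (mem_multisetInfinitePlace.2 (InfinitePlace.mk ψ).isInfinitePlace)

theorem N_na_fin (v : HeightOneSpectrum (𝓞 K)) : IsNonarchimedean (FinitePlace.mk v).val :=
  AdmissibleAbsValues.isNonarchimedean _ (FinitePlace.mk v).isFinitePlace

theorem N_Bel_fin (w : HeightOneSpectrum (𝓞 L)) :
    Bel (K := K) (FinitePlace.mk (w.under (𝓞 K))).val (FinitePlace.mk w).val
      (ldg (w.under (𝓞 K)) w) := by
  have hl : w.asIdeal.LiesOver (w.under (𝓞 K)).asIdeal := ⟨rfl⟩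
  refine ⟨N_pl_fin _, ldg_pos (w.under (𝓞 K)) w, fun _ => N_na_fin _, fun _ => N_na_fin _,
    fun h => absurd (N_na_fin w) h, fun x => ?_⟩
  rw [BC_mk, BC_mk, BC_adic (w.under (𝓞 K)) w]

omit [NumberField L] in
theorem N_Bel_inf (ψ : L →+* ℂ) :
    Bel (K := K) (InfinitePlace.mk (ψ.comp (algebraMap K L))).val (InfinitePlace.mk ψ).val 1 := by
  refine ⟨N_pl_inf _, one_pos, fun h => absurd h (A7_not_nonarch _),
    fun h => absurd h (A7_not_nonarch _), fun _ => rfl, fun x => ?_⟩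
  rw [A7_apply, pow_one]

/-- The two kinds of places. -/
theorem N_pl_cases {w : AbsoluteValue L ℝ} (hw : Pl w) :
    (∃ ψ : L →+* ℂ, w = (InfinitePlace.mk ψ).val) ∨
      ∃ u : HeightOneSpectrum (𝓞 L), w = (FinitePlace.mk u).val := by
  rcases hw with h | h
  · left
    obtain ⟨ψ, hψ⟩ := mem_multisetInfinitePlace.1 h
    exact ⟨ψ, hψ.symm⟩
  · right
    obtain ⟨u, hu⟩ := h
    exact ⟨u, hu.symm⟩

theorem N_exists_Bel {w : AbsoluteValue L ℝ} (hw : Pl w) :
    ∃ (v : AbsoluteValue K ℝ) (n : ℕ), Bel v w n := by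
  rcases N_pl_cases hw with ⟨ψ, rfl⟩ | ⟨u, rfl⟩
  · exact ⟨_, _, N_Bel_inf ψ⟩
  · exact ⟨_, _, N_Bel_fin u⟩

omit [NumberField L] in
/-- The place below is unique. -/
theorem N_Bel_unique {v v' : AbsoluteValue K ℝ} {w : AbsoluteValue L ℝ} {n n' : ℕ}
    (h : Bel v w n) (h' : Bel v' w n') : v = v' ∧ n = n' := by
  by_cases hw : IsNonarchimedean w
  · have hv := h.na hw
    have hv' := h'.na hw
    rcases N_pl_cases h.pl with ⟨ψ, rfl⟩ | ⟨u, rfl⟩
    · exact absurd hv (A7_not_nonarch _)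
    · rcases N_pl_cases h'.pl with ⟨ψ, rfl⟩ | ⟨u', rfl⟩
      · exact absurd hv' (A7_not_nonarch _)
      · have hpow : ∀ x, (FinitePlace.mk u).val x ^ n = (FinitePlace.mk u').val x ^ n' := fun x =>
          (h.eq x).symm.trans (h'.eq x)
        have hlt : ∀ x : 𝓞 K, x ∈ u.asIdeal ↔ x ∈ u'.asIdeal := by
          intro x
          have e1 : x ∈ u.asIdeal ↔ (FinitePlace.mk u).val (x : K) < 1 :=
            (FinitePlace.norm_lt_one_iff_mem K u x).symm
          have e2 : x ∈ u'.asIdeal ↔ (FinitePlace.mk u').val (x : K) < 1 :=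
            (FinitePlace.norm_lt_one_iff_mem K u' x).symm
          rw [e1, e2, ← pow_lt_one_iff_of_nonneg ((FinitePlace.mk u).val.nonneg _) h.pos.ne',
            ← pow_lt_one_iff_of_nonneg ((FinitePlace.mk u').val.nonneg _) h'.pos.ne', hpow]
        have huu : u = u' := HeightOneSpectrum.ext_iff.mpr (Ideal.ext hlt)
        subst huu
        refine ⟨rfl, ?_⟩
        obtain ⟨x, hx, hx0⟩ := Submodule.exists_mem_ne_zero_of_ne_bot u.ne_bot
        have h1 : (FinitePlace.mk u).val (x : K) < 1 :=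
          (FinitePlace.norm_lt_one_iff_mem K u x).2 hx
        have h2 : 0 < (FinitePlace.mk u).val (x : K) := (FinitePlace.mk u).val.pos (by
          intro h3
          exact hx0 (RingOfIntegers.ext (by rw [h3]; rfl)))
        exact pow_right_injective₀ h2 h1.ne (hpow x)
  · have hn := h.one hw
    have hn' := h'.one hw
    refine ⟨?_, hn.trans hn'.symm⟩
    ext x
    have h1 := (h.eq x).symm.trans (h'.eq x)
    rwa [hn, hn', pow_one, pow_one] at h1

variable (L) in
/-- A function on the places of `K` as a function on the places of `L`. -/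
noncomputable def dn (φ : AbsoluteValue K ℝ → ℝ) (w : AbsoluteValue L ℝ) : ℝ :=
  open Classical in
  if h : ∃ p : AbsoluteValue K ℝ × ℕ, Bel p.1 w p.2 then (h.choose.2 : ℝ) * φ h.choose.1 else 0

theorem dn_eq (φ : AbsoluteValue K ℝ → ℝ) {v : AbsoluteValue K ℝ} {w : AbsoluteValue L ℝ}
    {n : ℕ} (h : Bel v w n) : dn L φ w = n * φ v := by
  unfold dn
  have hex : ∃ p : AbsoluteValue K ℝ × ℕ, Bel p.1 w p.2 := ⟨(v, n), h⟩
  rw [dif_pos hex]
  obtain ⟨h1, h2⟩ := N_Bel_unique hex.choose_spec h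
  rw [h1, h2]

theorem gs_dn {φ : AbsoluteValue K ℝ → ℝ} (hφ : FS φ) :
    FS (dn L φ) ∧ gs (dn L φ) = Module.finrank K L * gs φ := by
  have h1 := BC_finsum (K := K) (L := L) (fun v => φ (FinitePlace.mk v).val)
    (fun w => dn L φ (FinitePlace.mk w).val) ((BC_FS φ).1 hφ) (fun w => by
      exact dn_eq φ (N_Bel_fin w))
  refine ⟨(BC_FS (dn L φ)).2 h1.1, ?_⟩
  rw [BC_gs, BC_gs, A7_arch φ (dn L φ) (fun ψ => by
    rw [dn_eq φ (N_Bel_inf ψ), Nat.cast_one, one_mul]), h1.2]
  ring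

end

end Pool.Agent.Lib.MP_17a322_nt.SL
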