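import Pool.Agent.Lib.MP_17a322_nt.SL.N7
import Pool.Agent.Lib.MP_17a322_nt.SL.N8
import Pool.Agent.Lib.MP_17a322_nt.VP.N9

/-!
SL, numerical theorem: the local data at a place of `L` and at the place of `K` below.
-/

universe u

namespace Pool.Agent.Lib.MP_17a322_nt.SL

open MvPolynomial Height NumberField
open Pool.Agent.Lib.MP_17a322_nt.RO
open Pool.Agent.Lib.MP_17a322_nt.VJ
open Pool.Agent.Lib.MP_17a322_nt.VN
open Pool.Agent.Lib.MP_17a322_nt.VA
open Pool.Agent.Lib.MP_17a322_nt.VP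

theorem N_iSup_pow {ι : Type*} [Finite ι] [Nonempty ι] (f : ι → ℝ) (hf : ∀ i, 0 ≤ f i) (n : ℕ) :
    (⨆ i, f i ^ n) = (⨆ i, f i) ^ n := by
  obtain ⟨a, ha⟩ := exists_eq_ciSup_of_finite (f := f)
  have h0 : ∀ b, f b ≤ f a := fun b => by
    rw [ha]
    exact le_ciSup (Set.finite_range f).bddAbove b
  rw [← ha]
  refine le_antisymm (ciSup_le fun b => pow_le_pow_left₀ (hf b) (h0 b) n) ?_
  exact le_ciSup (f := fun b => f b ^ n) (Set.finite_range _).bddAbove a

section

variable {K L : Type*} [Field K] [NumberField K] [Field L] [NumberField L] [Algebra K L]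
  {v : AbsoluteValue K ℝ} {w : AbsoluteValue L ℝ} {n : ℕ}

omit [NumberField L] in
theorem N_k_Bel (h : Bel v w n) (κ : SC K) : κ.k w = κ.k v ^ n := by
  by_cases hw : IsNonarchimedean w
  · exact N9_k_fin κ v w n (h.na hw) hw h.eq
  · have hn := h.one hw
    have hv : ¬ IsNonarchimedean v := fun hv => hw (h.na' hv)
    have he : ∀ x, w (algebraMap K L x) = v x := fun x => by rw [h.eq, hn, pow_one]
    unfold SC.k cst
    rw [if_neg hw, if_neg hv, hn, pow_one]
    simp only [he, Algebra.algebraMap_self_apply]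

omit [NumberField L] in
theorem N_NV_Bel (h : Bel v w n) {σ : Type*} (F : MvPolynomial σ K) :
    NV w (MvPolynomial.map (algebraMap K L) F) = NV v F ^ n := by
  by_cases hw : IsNonarchimedean w
  · exact N9_NV_fin v w n h.pos (h.na hw) hw h.eq F
  · have hn := h.one hw
    have hv : ¬ IsNonarchimedean v := fun hv => hw (h.na' hv)
    rw [A2_ar hw, A2_ar hv, hn, pow_one,
      MvPolynomial.support_map_of_injective _ (algebraMap K L).injective]
    refine Finset.sum_congr rfl fun m _ => ?_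
    rw [coeff_map, h.eq, hn, pow_one]

omit [NumberField L] in
theorem N_NVM_Bel (h : Bel v w n) {σ : Type*} {q : ℕ}
    (Λ : Matrix (Fin (q + 1)) (Fin (q + 1)) (MvPolynomial σ K)) :
    NVM w (Λ.map (MvPolynomial.map (algebraMap K L))) = NVM v Λ ^ n := by
  unfold NVM
  rw [← N_iSup_pow _ (fun p => A2_nonneg v _)]
  refine iSup_congr fun p => ?_
  rw [Matrix.map_apply]
  exact N_NV_Bel h _

end

section

variable {K : Type u} [Field K] [NumberField K] {N : ℕ} {A : AV K N} {n e : ℕ} (nd : Noe A n e)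

omit [NumberField K] in
theorem N_l0_zero (E : SC K) {L : Type u} [Field L] [Algebra K L] (v : AbsoluteValue L ℝ)
    (P : A.Pts K) : N_l0 nd E v P 0 = Real.log (E.k v) +
      Real.log (mq v fun b => algebraMap K L (nd.y P b)) -
      Real.log (min 1 (v (algebraMap K L (eval (nd.s P) nd.δ)))) := by
  unfold N_l0
  rw [map_zero, map_zero, max_eq_left zero_le_one, Real.log_one, add_zero]

/-- The contribution of the matrix to the loss. -/
noncomputable def N_lm {q : ℕ} {L : Type u} [Field L] [Algebra K L]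
    (v : AbsoluteValue L ℝ) (P : A.Pts K)
    (Λ : Matrix (Fin q) (Fin q) (MvPolynomial (Fin (N + 1)) K)) : ℝ :=
  max 0 (Real.log (NVM v (Λ.map (MvPolynomial.map (algebraMap K L))) ^ q /
      v (algebraMap K L (eval (nd.y P) Λ.det))))

omit [NumberField K] in
theorem N_lossM_eq {q : ℕ} (E : SC K) {L : Type u} [Field L] [Algebra K L]
    (v : AbsoluteValue L ℝ) (P : A.Pts K)
    (Λ : Matrix (Fin q) (Fin q) (MvPolynomial (Fin (N + 1)) K)) :
    lossM nd E v P Λ = N_l0 nd E v P 0 + N_lm nd v P Λ := by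
  rw [N_l0_zero]
  rfl

omit [NumberField K] in
theorem N_lm_nonneg {q : ℕ} {L : Type u} [Field L] [Algebra K L]
    (v : AbsoluteValue L ℝ) (P : A.Pts K)
    (Λ : Matrix (Fin q) (Fin q) (MvPolynomial (Fin (N + 1)) K)) : 0 ≤ N_lm nd v P Λ :=
  le_max_left _ _

omit [NumberField K] in
theorem N_lossM_nonneg {q : ℕ} (E : SC K) {L : Type u} [Field L] [Algebra K L]
    (v : AbsoluteValue L ℝ) (P : A.Pts K)
    (Λ : Matrix (Fin q) (Fin q) (MvPolynomial (Fin (N + 1)) K)) : 0 ≤ lossM nd E v P Λ := by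
  rw [N_lossM_eq]
  exact add_nonneg (N_l0_nonneg nd E v P 0) (N_lm_nonneg nd v P Λ)

variable {L : Type u} [Field L] [NumberField L] [Algebra K L]
  {v : AbsoluteValue K ℝ} {w : AbsoluteValue L ℝ} {d : ℕ}

omit [NumberField L] in
theorem N_l0_Bel (h : Bel v w d) (E : SC K) (P : A.Pts K) :
    N_l0 nd E w P 0 = d * N_l0 nd E v P 0 := by
  rw [N_l0_zero, N_l0_zero, N_k_Bel h E, N9_mq_fin v w d h.eq, h.eq, N9_min_pow (v.nonneg _),
    Real.log_pow, Real.log_pow, Real.log_pow]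
  simp only [Algebra.algebraMap_self_apply]
  ring

omit [NumberField L] in
theorem N_lossM_Bel (h : Bel v w d) {q : ℕ} (E : SC K) (P : A.Pts K)
    (Λ : Matrix (Fin (q + 1)) (Fin (q + 1)) (MvPolynomial (Fin (N + 1)) K)) :
    lossM nd E w P Λ = d * lossM nd E v P Λ := by
  rw [N_lossM_eq, N_lossM_eq, N_l0_Bel nd h, mul_add]
  congr 1
  unfold N_lm
  have h1 : NVM v (Λ.map (MvPolynomial.map (algebraMap K K))) = NVM v Λ := by
    congr 1
    ext1 a b
    rw [Matrix.map_apply, N9_NV_self]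
  rw [N_NVM_Bel h, h.eq, h1, Algebra.algebraMap_self_apply, mul_max_of_nonneg _ _ (Nat.cast_nonneg d),
    mul_zero, ← Real.log_pow, div_pow, ← pow_mul, ← pow_mul, mul_comm d (q + 1)]

omit [NumberField K] [NumberField L] in
/-- The bound of the factor of a block. -/
theorem N_Bm (E₀ E : SC K) (hE : E₀.k w ≤ E.k w) {nq q D : ℕ} (hnq0 : 0 < nq)
    (hnq : cst w nq ≤ E.k w) (P : A.Pts K)
    (Λ : Matrix (Fin (q + 1)) (Fin (q + 1)) (MvPolynomial (Fin (N + 1)) K))
    (hdet : eval (nd.y P) Λ.det ≠ 0) :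
    Real.log (max 1 (cst w nq * (NVM w (Λ.map (MvPolynomial.map (algebraMap K L))) *
      (E₀.k w * mq w fun b => algebraMap K L (nd.y P b)) ^ ((N + 1) * D)) ^ (q + 1) /
        w (algebraMap K L (eval (nd.y P) Λ.det)))) ≤
      (1 + ((q + 1) * ((N + 1) * D) : ℕ)) * lossM nd E w P Λ := by
  obtain ⟨X, hX⟩ : ∃ X, X = NVM w (Λ.map (MvPolynomial.map (algebraMap K L))) := ⟨_, rfl⟩
  obtain ⟨dd, hdd⟩ : ∃ dd, dd = w (algebraMap K L (eval (nd.y P) Λ.det)) := ⟨_, rfl⟩
  obtain ⟨mm, hmm⟩ : ∃ mm, mm = mq w fun b => algebraMap K L (nd.y P b) := ⟨_, rfl⟩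
  have hd0 : 0 < dd := by
    rw [hdd]
    exact w.pos ((map_ne_zero_iff _ (algebraMap K L).injective).2 hdet)
  have hm1 : 1 ≤ mm := by rw [hmm]; exact N_one_le_mq w _
  have hX0 : 0 ≤ X := by rw [hX]; exact N_NVM_nonneg w _
  rw [← hX, ← hdd, ← hmm]
  have hl0 := N_l0_nonneg nd E w P 0
  have hlm := N_lm_nonneg nd w P Λ
  have hloss : lossM nd E w P Λ = N_l0 nd E w P 0 + N_lm nd w P Λ := N_lossM_eq nd E w P Λ
  have hloss0 := N_lossM_nonneg nd E w P Λ
  obtain ⟨a1, ha1⟩ : ∃ a1, a1 = Real.log (E.k w) := ⟨_, rfl⟩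
  obtain ⟨a2, ha2⟩ : ∃ a2, a2 = Real.log mm := ⟨_, rfl⟩
  have h1 : 0 ≤ a1 := by rw [ha1]; exact Real.log_nonneg (E.one_le w)
  have h2 : 0 ≤ a2 := by rw [ha2]; exact Real.log_nonneg hm1
  have h12 : a1 + a2 ≤ N_l0 nd E w P 0 := by
    rw [N_l0_zero, ← ha1, ← hmm, ← ha2]
    have h3 : Real.log (min 1 (w (algebraMap K L (eval (nd.s P) nd.δ)))) ≤ 0 :=
      Real.log_nonpos (le_min zero_le_one (w.nonneg _)) (min_le_left _ _)
    linarith
  have hCn : (0 : ℝ) ≤ ((q + 1) * ((N + 1) * D) : ℕ) := Nat.cast_nonneg _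
  have hpos : 0 ≤ (1 + (((q + 1) * ((N + 1) * D) : ℕ) : ℝ)) * lossM nd E w P Λ :=
    mul_nonneg (by linarith) hloss0
  rcases le_or_gt (cst w nq * (X * (E₀.k w * mm) ^ ((N + 1) * D)) ^ (q + 1) / dd) 1 with hle | hgt
  · rw [max_eq_left hle, Real.log_one]
    exact hpos
  · rw [max_eq_right hgt.le]
    have hXp : 0 < X := by
      rcases hX0.lt_or_eq with h | h
      · exact h
      · exfalso
        rw [← h, zero_mul, zero_pow (Nat.succ_ne_zero q), mul_zero, zero_div] at hgt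
        exact absurd hgt (by norm_num)
    have hcq : 0 < cst w nq := zero_lt_one.trans_le (one_le_cst w hnq0)
    have hE0 : 0 < E₀.k w := E₀.pos w
    have hmp : 0 < mm := zero_lt_one.trans_le hm1
    have hlog : Real.log (cst w nq * (X * (E₀.k w * mm) ^ ((N + 1) * D)) ^ (q + 1) / dd) =
        Real.log (cst w nq) + Real.log (X ^ (q + 1) / dd) +
          ((q + 1) * ((N + 1) * D) : ℕ) * (Real.log (E₀.k w) + a2) := by
      rw [Real.log_div (mul_pos hcq (pow_pos (mul_pos hXp (pow_pos (mul_pos hE0 hmp) _)) _)).ne'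
        hd0.ne', Real.log_mul hcq.ne' (pow_pos (mul_pos hXp (pow_pos (mul_pos hE0 hmp) _)) _).ne',
        Real.log_pow, Real.log_mul hXp.ne' (pow_pos (mul_pos hE0 hmp) _).ne', Real.log_pow,
        Real.log_mul hE0.ne' hmp.ne', Real.log_div (pow_pos hXp _).ne' hd0.ne', Real.log_pow, ← ha2]
      push_cast
      ring
    rw [hlog, hloss]
    have e1 : Real.log (cst w nq) ≤ a1 := by
      rw [ha1]
      exact Real.log_le_log hcq hnq
    have e2 : Real.log (E₀.k w) ≤ a1 := by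
      rw [ha1]
      exact Real.log_le_log hE0 hE
    have e3 : Real.log (X ^ (q + 1) / dd) ≤ N_lm nd w P Λ := by
      unfold N_lm
      rw [← hX, ← hdd]
      exact le_max_right _ _
    have e4 : (((q + 1) * ((N + 1) * D) : ℕ) : ℝ) * (Real.log (E₀.k w) + a2) ≤
        ((q + 1) * ((N + 1) * D) : ℕ) * (N_l0 nd E w P 0 + N_lm nd w P Λ) :=
      mul_le_mul_of_nonneg_left (by linarith) hCn
    have e5 : (1 + (((q + 1) * ((N + 1) * D) : ℕ) : ℝ)) * (N_l0 nd E w P 0 + N_lm nd w P Λ) =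
        (N_l0 nd E w P 0 + N_lm nd w P Λ) +
          ((q + 1) * ((N + 1) * D) : ℕ) * (N_l0 nd E w P 0 + N_lm nd w P Λ) := by ring
    rw [e5]
    linarith

end

end Pool.Agent.Lib.MP_17a322_nt.SL
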