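import Pool.Agent.Lib.MP_17a322_nt.Mb

/-!
Vectors over a finite extension of the field of fractions of a unique factorization domain: finitely
many multiples with integral coordinates without a common divisor.
-/

universe u v

namespace Pool.Agent.Lib.MP_17a322_nt.SL

open Polynomial

/-- The fractional ideal generated by the coordinates of a vector is invertible. -/
theorem P1_ded {S : Type*} {L : Type*} [CommRing S] [IsDedekindDomain S] [Field L] [Algebra S L]
    [IsFractionRing S L] {M : ℕ} (x : Fin M → L) (hx : ∃ l, x l ≠ 0) :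
    ∃ f : Fin M → L, (∀ t l, ∃ c : S, algebraMap S L c = f t * x l) ∧ ∑ l, f l * x l = 1 := by
  classical
  obtain ⟨l₀, hl₀⟩ := hx
  let I : FractionalIdeal (nonZeroDivisors S) L := FractionalIdeal.spanFinset S Finset.univ x
  have hI : I ≠ 0 := FractionalIdeal.spanFinset_ne_zero.2 ⟨l₀, Finset.mem_univ _, hl₀⟩
  have h1 : I * I⁻¹ = 1 := mul_inv_cancel₀ hI
  have hxI : ∀ l, x l ∈ I := by
    intro l
    show x l ∈ (I : Submodule S L)
    rw [FractionalIdeal.spanFinset_coe]
    exact Submodule.subset_span ⟨l, Finset.mem_coe.2 (Finset.mem_univ _), rfl⟩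
  have h2 : ∀ z ∈ ((I * I⁻¹ : FractionalIdeal (nonZeroDivisors S) L) : Submodule S L),
      ∃ f : Fin M → L, (∀ l, f l ∈ (I⁻¹ : FractionalIdeal (nonZeroDivisors S) L)) ∧
        ∑ l, f l * x l = z := by
    intro z hz
    rw [FractionalIdeal.coe_mul] at hz
    refine Submodule.mul_induction_on hz ?_ ?_
    · intro m hm n hn
      rw [FractionalIdeal.spanFinset_coe, Finset.coe_univ, Set.image_univ,
        Submodule.mem_span_range_iff_exists_fun] at hm
      obtain ⟨c, rfl⟩ := hm
      refine ⟨fun l => c l • n, fun l => ?_, ?_⟩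
      · exact Submodule.smul_mem _ _ hn
      · rw [Finset.sum_mul]
        refine Finset.sum_congr rfl fun l _ => ?_
        rw [smul_mul_assoc, smul_mul_assoc, mul_comm n]
    · rintro a b ⟨f, hf, rfl⟩ ⟨g, hg, rfl⟩
      refine ⟨fun l => f l + g l, fun l => ?_, ?_⟩
      · exact Submodule.add_mem _ (hf l) (hg l)
      · rw [← Finset.sum_add_distrib]
        exact Finset.sum_congr rfl fun l _ => add_mul _ _ _
  obtain ⟨f, hf, hs⟩ := h2 1 (by rw [h1]; exact FractionalIdeal.one_mem_one _)
  refine ⟨f, fun t l => ?_, hs⟩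
  have h3 := (FractionalIdeal.mem_inv_iff hI).1 (hf t) (x l) (hxI l)
  exact (FractionalIdeal.mem_one_iff _).1 h3

section

variable {R : Type u} [CommRing R] [IsDomain R] [UniqueFactorizationMonoid R]

/-- The elements which are not divisible by the prime factors of `h`. -/
def P1_M (h : R) : Submonoid R where
  carrier := {r | r ≠ 0 ∧ ∀ p : R, Prime p → p ∣ h → ¬ p ∣ r}
  mul_mem' := by
    rintro a b ⟨ha, ha'⟩ ⟨hb, hb'⟩
    refine ⟨mul_ne_zero ha hb, fun p hp hd hab => ?_⟩
    rcases hp.dvd_or_dvd hab with h1 | h1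
    · exact ha' p hp hd h1
    · exact hb' p hp hd h1
  one_mem' := ⟨one_ne_zero, fun p hp _ h1 => hp.not_isUnit (isUnit_of_dvd_one h1)⟩

omit [UniqueFactorizationMonoid R] in
theorem P1_M_le (h : R) : P1_M h ≤ nonZeroDivisors R := fun _ hr =>
  mem_nonZeroDivisors_of_ne_zero hr.1

theorem P1_rel {h r : R} (hh : h ≠ 0) (hr : r ∈ P1_M h) : IsRelPrime h r := by
  intro d hd hdr
  by_contra hu
  have hd0 : d ≠ 0 := fun h0 => hh (by rw [h0] at hd; exact zero_dvd_iff.1 hd)
  obtain ⟨p, hp, hpd⟩ := WfDvdMonoid.exists_irreducible_factor hu hd0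
  exact hr.2 p hp.prime (hpd.trans hd) (hpd.trans hdr)

/-- A prime ideal without elements of `P1_M h` is principal. -/
theorem P1_prime {h : R} (hh : h ≠ 0) (p : Ideal R) [hp : p.IsPrime]
    (hd : ∀ r ∈ p, r ∉ P1_M h) : ∃ a, p = Ideal.span {a} := by
  classical
  rcases eq_or_ne p ⊥ with rfl | hne
  · exact ⟨0, Ideal.span_zero.symm⟩
  obtain ⟨ϖ, hϖp, hϖ⟩ := Ideal.IsPrime.exists_mem_prime_of_ne_bot hp hne
  have hsub : (p : Set R) ⊆ ⋃ i ∈ (((UniqueFactorizationMonoid.factors h).toFinset : Finset R) :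
      Set R), ((Ideal.span {i} : Ideal R) : Set R) := by
    intro r hr
    by_cases hr0 : r = 0
    · have h1 : ¬ ϖ ∈ P1_M h := hd ϖ hϖp
      have h2 : ∃ p : R, Prime p ∧ p ∣ h ∧ p ∣ ϖ := by
        by_contra hcon
        push Not at hcon
        exact h1 ⟨hϖ.ne_zero, hcon⟩
      obtain ⟨q, hq, hqh, -⟩ := h2
      obtain ⟨q', hq', hqq'⟩ :=
        UniqueFactorizationMonoid.exists_mem_factors_of_dvd hh hq.irreducible hqh
      simp only [Set.mem_iUnion]
      refine ⟨q', Finset.mem_coe.2 (Multiset.mem_toFinset.2 hq'), ?_⟩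
      rw [hr0]
      exact Ideal.zero_mem _
    · have h1 : ¬ r ∈ P1_M h := hd r hr
      have h2 : ∃ p : R, Prime p ∧ p ∣ h ∧ p ∣ r := by
        by_contra hcon
        push Not at hcon
        exact h1 ⟨hr0, hcon⟩
      obtain ⟨q, hq, hqh, hqr⟩ := h2
      obtain ⟨q', hq', hqq'⟩ :=
        UniqueFactorizationMonoid.exists_mem_factors_of_dvd hh hq.irreducible hqh
      simp only [Set.mem_iUnion]
      refine ⟨q', Finset.mem_coe.2 (Multiset.mem_toFinset.2 hq'), ?_⟩
      exact Ideal.mem_span_singleton.2 (hqq'.symm.dvd.trans hqr)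
  have hpr : ∀ i ∈ (UniqueFactorizationMonoid.factors h).toFinset,
      (Ideal.span {i} : Ideal R).IsPrime := by
    intro i hi
    have h1 := UniqueFactorizationMonoid.prime_of_factor i (Multiset.mem_toFinset.1 hi)
    exact (Ideal.span_singleton_prime h1.ne_zero).2 h1
  obtain ⟨i, hi, hpi⟩ := (Ideal.subset_union_prime (R := R)
    (s := (UniqueFactorizationMonoid.factors h).toFinset) (f := fun i => Ideal.span {i}) 0 0
    (fun i hi _ _ => hpr i hi)).1 hsub
  have hi' := UniqueFactorizationMonoid.prime_of_factor i (Multiset.mem_toFinset.1 hi)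
  have h3 : i ∣ ϖ := Ideal.mem_span_singleton.1 (hpi hϖp)
  have h4 : Associated i ϖ := hi'.associated_of_dvd hϖ h3
  refine ⟨i, le_antisymm hpi ?_⟩
  rw [Ideal.span_singleton_le_iff_mem]
  exact p.mem_of_dvd h4.symm.dvd hϖp

theorem P1_pid {h : R} (hh : h ≠ 0) (R₁ : Type*) [CommRing R₁] [Algebra R R₁]
    [IsLocalization (P1_M h) R₁] : IsPrincipalIdealRing R₁ := by
  refine IsPrincipalIdealRing.of_prime fun P hP => ?_
  have h1 : (P.comap (algebraMap R R₁)).IsPrime := Ideal.comap_isPrime _ _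
  obtain ⟨a, ha⟩ := P1_prime hh (P.comap (algebraMap R R₁)) (fun r hr hM => by
    have h2 : IsUnit (algebraMap R R₁ r) := IsLocalization.map_units R₁ (⟨r, hM⟩ : P1_M h)
    exact hP.ne_top (Ideal.eq_top_of_isUnit_mem _ hr h2))
  have h3 : Ideal.map (algebraMap R R₁) (P.comap (algebraMap R R₁)) = P :=
    IsLocalization.map_under (P1_M h) R₁ P
  rw [ha, Ideal.map_span, Set.image_singleton] at h3
  exact ⟨algebraMap R R₁ a, by rw [← h3]⟩

/-- Multiples with integral coordinates whose values generate an element prime to `h`. -/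
theorem P1_mul {K₀ L : Type*} [Field K₀] [Algebra R K₀] [IsFractionRing R K₀] [Field L]
    [Algebra K₀ L] [FiniteDimensional K₀ L] [Algebra.IsSeparable K₀ L] [Algebra R L]
    [IsScalarTower R K₀ L] {h : R} (hh : h ≠ 0) {M : ℕ} (x : Fin M → L) (hx : ∃ l, x l ≠ 0) :
    ∃ (z : R) (f : Fin M → L), IsRelPrime h z ∧ (∀ t l, IsIntegral R (f t * x l)) ∧
      ∑ l, f l * x l = algebraMap R L z := by
  classical
  let R₁ := Localization.subalgebra.ofField K₀ (P1_M h) (P1_M_le h)
  have hloc : IsLocalization (P1_M h) R₁ :=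
    Localization.subalgebra.isLocalization_ofField K₀ (P1_M h) (P1_M_le h)
  have hfr : IsFractionRing R₁ K₀ := inferInstance
  have hpid : IsPrincipalIdealRing R₁ := P1_pid hh R₁
  have hded : IsDedekindDomain R₁ := IsPrincipalIdealRing.isDedekindDomain R₁
  have htow : IsScalarTower R₁ K₀ L := inferInstance
  have htow2 : IsScalarTower R R₁ L := IsScalarTower.of_algebraMap_eq fun r => by
    rw [IsScalarTower.algebraMap_apply R K₀ L]
    rfl
  have hS : IsDedekindDomain (integralClosure R₁ L) := integralClosure.isDedekindDomain R₁ K₀ L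
  have hfS : IsFractionRing (integralClosure R₁ L) L :=
    integralClosure.isFractionRing_of_finite_extension K₀ L
  obtain ⟨f, hf, hs⟩ := P1_ded (S := integralClosure R₁ L) x hx
  have h1 : ∀ p : Fin M × Fin M, ∃ m : P1_M h, IsIntegral R (m • (f p.1 * x p.2)) := by
    intro p
    obtain ⟨c, hc⟩ := hf p.1 p.2
    refine IsIntegral.exists_multiple_integral_of_isLocalization (P1_M h) (Rₘ := R₁) _ ?_
    rw [← hc]
    exact c.2
  choose m hm using h1
  let z : P1_M h := ∏ p, m p
  have hz : ∀ t l, IsIntegral R ((z : R) • (f t * x l)) := by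
    intro t l
    have h2 : (z : R) = (∏ p ∈ Finset.univ.erase (t, l), (m p : R)) * (m (t, l) : R) := by
      rw [Finset.prod_erase_mul _ _ (Finset.mem_univ _)]
      exact Submonoid.coe_finsetProd _ _ _
    rw [h2, mul_smul]
    have h3 : IsIntegral R ((m (t, l) : R) • (f t * x l)) := hm (t, l)
    exact h3.smul _
  refine ⟨z, fun t => (z : R) • f t, P1_rel hh z.2, fun t l => ?_, ?_⟩
  · rw [smul_mul_assoc]
    exact hz t l
  · have h4 : ∑ l, (z : R) • f l * x l = (z : R) • ∑ l, f l * x l := by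
      rw [Finset.smul_sum]
      exact Finset.sum_congr rfl fun l _ => smul_mul_assoc _ _ _
    rw [h4, hs, Algebra.smul_def, mul_one]

/-- Integral elements are polynomials in `θ` with coefficients in `R` up to a power of `δ`. -/
theorem P1_conductor {K₀ L : Type*} [Field K₀] [Algebra R K₀] [IsFractionRing R K₀] [Field L]
    [Algebra K₀ L] [FiniteDimensional K₀ L] [Algebra.IsSeparable K₀ L] [Algebra R L]
    [IsScalarTower R K₀ L] (B : PowerBasis K₀ L) {Φ a b : R[X]} (hΦ : Φ.Monic)
    (hθ : aeval B.gen Φ = 0) {δ : R} (hab : a * Φ + b * derivative Φ = C δ) :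
    ∃ d : ℕ, ∀ z : L, IsIntegral R z → δ ^ d • z ∈ Algebra.adjoin R ({B.gen} : Set L) := by
  have hint : IsIntegral R B.gen := ⟨Φ, hΦ, by rw [← aeval_def]; exact hθ⟩
  have hfs : FaithfulSMul R L := by
    rw [faithfulSMul_iff_algebraMap_injective, IsScalarTower.algebraMap_eq R K₀ L]
    exact (algebraMap K₀ L).injective.comp (IsFractionRing.injective R K₀)
  have htf : Module.IsTorsionFree R L := inferInstance
  have hw : aeval B.gen (minpoly K₀ B.gen).derivative *
      aeval B.gen (b * (Φ /ₘ minpoly R B.gen)) = algebraMap R L δ := by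
    have h1 : minpoly R B.gen ∣ Φ := minpoly.isIntegrallyClosed_dvd hint hθ
    have h2 : minpoly R B.gen * (Φ /ₘ minpoly R B.gen) = Φ := by
      obtain ⟨q, hq⟩ := h1
      rw [hq, mul_divByMonic_cancel_left _ (minpoly.monic hint)]
    have h3 : (minpoly K₀ B.gen) = (minpoly R B.gen).map (algebraMap R K₀) :=
      minpoly.isIntegrallyClosed_eq_field_fractions' K₀ hint
    have h4 : aeval B.gen (minpoly K₀ B.gen).derivative =
        aeval B.gen (derivative (minpoly R B.gen)) := by
      rw [h3, derivative_map, aeval_map_algebraMap]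
    have h5 := congrArg (aeval B.gen) hab
    rw [map_add, map_mul, hθ, mul_zero, zero_add, aeval_C] at h5
    rw [h4, ← h5, ← h2, derivative_mul, map_mul, map_mul, map_add, map_mul, map_mul,
      minpoly.aeval, zero_mul, add_zero, h2]
    ring
  have hu : IsIntegral R (aeval B.gen (b * (Φ /ₘ minpoly R B.gen))) := by
    have h1 : aeval B.gen (b * (Φ /ₘ minpoly R B.gen)) ∈ Algebra.adjoin R ({B.gen} : Set L) :=
      aeval_mem_adjoin_singleton R _
    exact adjoin_le_integralClosure hint h1
  obtain ⟨c, hc⟩ := IsIntegrallyClosed.isIntegral_iff.1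
    (Algebra.isIntegral_norm (R := R) K₀ hu)
  refine ⟨Module.finrank K₀ L, fun z hz => ?_⟩
  have h1 := Algebra.discr_mul_isIntegral_mem_adjoin (K := K₀) (B := B) hint hz
  rw [Algebra.discr_powerBasis_eq_norm] at h1
  have h2 : algebraMap R K₀ (δ ^ Module.finrank K₀ L) =
      Algebra.norm K₀ (aeval B.gen (minpoly K₀ B.gen).derivative) * algebraMap R K₀ c := by
    rw [hc, ← map_mul, hw, IsScalarTower.algebraMap_apply R K₀ L, Algebra.norm_algebraMap, map_pow]
  have h3 : δ ^ Module.finrank K₀ L • z = c • ((-1 : R) ^ (Module.finrank K₀ L * (Module.finrank K₀ L - 1) / 2) •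
      (((-1) ^ (Module.finrank K₀ L * (Module.finrank K₀ L - 1) / 2) *
      Algebra.norm K₀ (aeval B.gen (minpoly K₀ B.gen).derivative)) • z)) := by
    rw [← algebraMap_smul K₀ (δ ^ Module.finrank K₀ L) z, h2, ← algebraMap_smul K₀ c,
      ← algebraMap_smul K₀ ((-1 : R) ^ (Module.finrank K₀ L * (Module.finrank K₀ L - 1) / 2)), smul_smul, smul_smul]
    congr 1
    rw [map_pow, map_neg, map_one]
    have h4 : ((-1 : K₀) ^ (Module.finrank K₀ L * (Module.finrank K₀ L - 1) / 2)) * ((-1 : K₀) ^ (Module.finrank K₀ L * (Module.finrank K₀ L - 1) / 2)) =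
        1 := by
      rw [← mul_pow, neg_mul_neg, one_mul, one_pow]
    linear_combination (- Algebra.norm K₀ (aeval B.gen (minpoly K₀ B.gen).derivative) *
      algebraMap R K₀ c) * h4
  rw [h3]
  exact Subalgebra.smul_mem _ (Subalgebra.smul_mem _ h1 _) _

end

end Pool.Agent.Lib.MP_17a322_nt.SL
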