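import Pool.Agent.Lib.MP_17a322_nt.SL.P1

/-!
Multiples of a vector over a finite extension of the field of fractions of a unique factorization
domain `R`, with coordinates in `R[θ]`, whose values have no common divisor (outside `δ`).
-/

universe u v

namespace Pool.Agent.Lib.MP_17a322_nt.SL

open Polynomial

variable {R : Type u} [CommRing R] [IsDomain R] [UniqueFactorizationMonoid R] [CharZero R]

/-- Finitely many multiples of the vector `x` with coordinates in `R[θ]`; one coordinate of the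
first of them is `z₀`, and the sum of one coordinate of each of the others is `δ ^ d * z₁`. -/
theorem P2_main {L : Type v} [Field L] [Algebra R L] [FaithfulSMul R L] (θ : L) {Φ a b : R[X]}
    (hΦ : Φ.Monic) (hθ : aeval θ Φ = 0) {δ : R} (hab : a * Φ + b * derivative Φ = C δ) {M : ℕ}
    (x : Fin M → L) (hx : ∃ l, x l ≠ 0)
    (hP : ∀ l, ∃ (P : R[X]) (h : R), h ≠ 0 ∧ algebraMap R L h * x l = aeval θ P) :
    ∃ (z₀ z₁ : R) (d : ℕ) (f : Option (Fin M) → L) (G : Option (Fin M) → Fin M → R[X]),
      z₀ ≠ 0 ∧ IsRelPrime z₀ z₁ ∧ f none ≠ 0 ∧ (∀ t l, f t * x l = aeval θ (G t l)) ∧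
      (∃ l, f none * x l = algebraMap R L z₀) ∧
      ∑ l, f (some l) * x l = algebraMap R L (δ ^ d * z₁) := by
  classical
  choose P h hh hPx using hP
  have hinj : Function.Injective (algebraMap R L) := FaithfulSMul.algebraMap_injective R L
  have hh' : ∀ l, algebraMap R L (h l) ≠ 0 := fun l => (map_ne_zero_iff _ hinj).2 (hh l)
  obtain ⟨l₀, hl₀⟩ := hx
  -- the first multiple
  have hint : IsIntegral R θ := ⟨Φ, hΦ, by rw [← aeval_def]; exact hθ⟩
  have hmem : ∀ Q : R[X], aeval θ Q ∈ Algebra.adjoin R ({θ} : Set L) :=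
    fun Q => aeval_mem_adjoin_singleton R _
  obtain ⟨u, r, hu, hr, hur⟩ : ∃ (u : R[X]) (r : R), aeval θ u ≠ 0 ∧ r ≠ 0 ∧
      aeval θ u * aeval θ (P l₀) = algebraMap R L r := by
    let S := Algebra.adjoin R ({θ} : Set L)
    let y : S := ⟨aeval θ (P l₀), hmem _⟩
    have hy : y ≠ 0 := by
      intro h0
      have h1 : aeval θ (P l₀) = 0 := congrArg Subtype.val h0
      rw [← hPx l₀] at h1
      exact mul_ne_zero (hh' l₀) hl₀ h1
    have hyi : IsIntegral R y := by
      have h1 : IsIntegral R ((algebraMap S L) y) := adjoin_le_integralClosure hint (hmem (P l₀))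
      exact (isIntegral_algebraMap_iff (FaithfulSMul.algebraMap_injective S L)).1 h1
    obtain ⟨r, hr, ⟨w, hw⟩⟩ := hyi.isAlgebraic.exists_nonzero_dvd
      (mem_nonZeroDivisors_of_ne_zero hy)
    obtain ⟨u, hu⟩ : ∃ u : R[X], aeval θ u = (w : L) := by
      have h1 : (w : L) ∈ Algebra.adjoin R ({θ} : Set L) := w.2
      rw [Algebra.adjoin_singleton_eq_range_aeval] at h1
      exact h1
    have h2 : algebraMap R L r = aeval θ (P l₀) * (w : L) := congrArg Subtype.val hw
    have h3 : aeval θ u * aeval θ (P l₀) = algebraMap R L r := by rw [h2, hu, mul_comm]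
    refine ⟨u, r, ?_, hr, h3⟩
    intro h4
    rw [h4, zero_mul] at h3
    exact hr (hinj (by rw [← h3, map_zero]))
  have hprod : ∀ l, algebraMap R L (∏ i, h i) * x l =
      aeval θ (C (∏ i ∈ Finset.univ.erase l, h i) * P l) := by
    intro l
    rw [← Finset.prod_erase_mul _ _ (Finset.mem_univ l), map_mul, mul_assoc, hPx, map_mul, aeval_C]
  have hz₀ : (∏ i ∈ Finset.univ.erase l₀, h i) * r ≠ 0 :=
    mul_ne_zero (Finset.prod_ne_zero_iff.2 fun i _ => hh i) hr
  have hnone : aeval θ u * algebraMap R L (∏ i, h i) * x l₀ =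
      algebraMap R L ((∏ i ∈ Finset.univ.erase l₀, h i) * r) := by
    rw [mul_assoc, hprod, map_mul, map_mul, aeval_C, ← hur]
    ring
  -- the other multiples
  let K₀ := FractionRing R
  let _ : Algebra K₀ L := FractionRing.liftAlgebra R L
  have htow : IsScalarTower R K₀ L := inferInstance
  have hθK : IsIntegral K₀ θ := hint.tower_top
  let L₁ := IntermediateField.adjoin K₀ ({θ} : Set L)
  have hfd : FiniteDimensional K₀ L₁ := IntermediateField.adjoin.finiteDimensional hθK
  have hc : CharZero K₀ := inferInstance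
  have hsep : Algebra.IsSeparable K₀ L₁ := inferInstance
  let B : PowerBasis K₀ L₁ := IntermediateField.adjoin.powerBasis hθK
  have hBg : (algebraMap L₁ L) B.gen = θ := by
    show (algebraMap L₁ L) (IntermediateField.AdjoinSimple.gen K₀ θ) = θ
    exact IntermediateField.AdjoinSimple.algebraMap_gen K₀ θ
  have htow1 : IsScalarTower R K₀ L₁ := inferInstance
  have htow2 : IsScalarTower R L₁ L := IsScalarTower.of_algebraMap_eq fun r => by
    rw [IsScalarTower.algebraMap_apply R K₀ L, IsScalarTower.algebraMap_apply R K₀ L₁]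
    rfl
  have hι : Function.Injective (algebraMap L₁ L) := (algebraMap L₁ L).injective
  have hev : ∀ Q : R[X], algebraMap L₁ L (aeval B.gen Q) = aeval θ Q := by
    intro Q
    rw [← aeval_algebraMap_apply, hBg]
  have hθB : aeval B.gen Φ = 0 := hι (by rw [hev, hθ, map_zero])
  have hx₁ : ∀ l, ∃ y : L₁, algebraMap L₁ L y = x l := by
    intro l
    refine ⟨(algebraMap R L₁ (h l))⁻¹ * aeval B.gen (P l), ?_⟩
    rw [map_mul, map_inv₀, hev, ← hPx, ← IsScalarTower.algebraMap_apply R L₁ L,
      inv_mul_cancel_left₀ (hh' l)]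
  choose y hy using hx₁
  obtain ⟨z, g, hz, hg, hs⟩ := P1_mul (K₀ := K₀) hz₀ y ⟨l₀, fun h0 => hl₀ (by
    rw [← hy, h0, map_zero])⟩
  obtain ⟨d, hd⟩ := P1_conductor (K₀ := K₀) B hΦ hθB hab
  have hG : ∀ t l, ∃ Q : R[X], algebraMap R L (δ ^ d) * algebraMap L₁ L (g t) * x l =
      aeval θ Q := by
    intro t l
    have h1 := hd _ (hg t l)
    rw [Algebra.adjoin_singleton_eq_range_aeval] at h1
    obtain ⟨Q, hQ⟩ := h1
    refine ⟨Q, ?_⟩
    have h2 : aeval B.gen Q = δ ^ d • (g t * y l) := hQ
    rw [← hev, h2, Algebra.smul_def, map_mul, map_mul, hy,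
      ← IsScalarTower.algebraMap_apply R L₁ L, mul_assoc]
  choose G hG using hG
  refine ⟨(∏ i ∈ Finset.univ.erase l₀, h i) * r, z, d,
    fun t => t.elim (aeval θ u * algebraMap R L (∏ i, h i)) fun t =>
      algebraMap R L (δ ^ d) * algebraMap L₁ L (g t),
    fun t l => t.elim (u * (C (∏ i ∈ Finset.univ.erase l, h i) * P l)) fun t => G t l,
    hz₀, hz, ?_, ?_, ⟨l₀, hnone⟩, ?_⟩
  · exact mul_ne_zero hu ((map_ne_zero_iff _ hinj).2 (Finset.prod_ne_zero_iff.2 fun i _ => hh i))
  · intro t l
    cases t with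
    | none =>
      show aeval θ u * algebraMap R L (∏ i, h i) * x l = _
      rw [mul_assoc, hprod]
      exact (map_mul _ _ _).symm
    | some t => exact hG t l
  · show ∑ l, algebraMap R L (δ ^ d) * algebraMap L₁ L (g l) * x l = _
    have h1 := congrArg (algebraMap L₁ L) hs
    rw [map_sum, ← IsScalarTower.algebraMap_apply R L₁ L] at h1
    rw [map_mul, ← h1, Finset.mul_sum]
    refine Finset.sum_congr rfl fun l _ => ?_
    rw [map_mul, hy, mul_assoc]

end Pool.Agent.Lib.MP_17a322_nt.SL
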