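import Pool.Agent.Lib.MP_17a322_nt.VA.FA8
import Pool.Agent.Lib.MP_17a322_nt.VA.Z13
import Pool.Agent.Lib.MP_17a322_nt.VP.Defs

/-!
The field generated by an integral element over the field of fractions; the functions of a point in terms
of the Noether coordinates and the primitive element.
-/

universe u

namespace Pool.Agent.Lib.MP_17a322_nt.SL

open Polynomial in
/-- The elements of the field generated by `θ` are polynomials in `θ` up to a denominator. -/
theorem P4_field {R : Type*} [CommRing R] [IsDomain R] {L : Type*} [Field L] [Algebra R L]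
    [FaithfulSMul R L] (θ : L) (hθ : IsIntegral R θ) :
    ∃ E : Subfield L, (∀ r, algebraMap R L r ∈ E) ∧ (∀ Q : R[X], aeval θ Q ∈ E) ∧
      ∀ z ∈ E, ∃ (P : R[X]) (h : R), h ≠ 0 ∧ algebraMap R L h * z = aeval θ P := by
  let K₀ := FractionRing R
  let _ : Algebra K₀ L := FractionRing.liftAlgebra R L
  have htow : IsScalarTower R K₀ L := inferInstance
  have hθK : IsIntegral K₀ θ := hθ.tower_top
  let E := IntermediateField.adjoin K₀ ({θ} : Set L)
  refine ⟨E.toSubfield, fun r => ?_, fun Q => ?_, fun z hz => ?_⟩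
  · rw [IsScalarTower.algebraMap_apply R K₀ L]
    exact E.algebraMap_mem _
  · rw [← aeval_map_algebraMap K₀ θ Q]
    exact IntermediateField.algebra_adjoin_le_adjoin K₀ {θ} (aeval_mem_adjoin_singleton K₀ θ)
  · have h1 : z ∈ Algebra.adjoin K₀ {θ} := by
      have h2 := IntermediateField.adjoin_simple_toSubalgebra_of_isAlgebraic hθK.isAlgebraic
      rw [← h2]
      exact hz
    rw [Algebra.adjoin_singleton_eq_range_aeval] at h1
    obtain ⟨Q, hQ⟩ := h1
    obtain ⟨b, hb, hbQ⟩ := IsLocalization.integerNormalization_spec (nonZeroDivisors R) Q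
    refine ⟨IsLocalization.integerNormalization (nonZeroDivisors R) Q, b,
      nonZeroDivisors.ne_zero hb, ?_⟩
    have h2 : aeval θ ((IsLocalization.integerNormalization (nonZeroDivisors R) Q).map
        (algebraMap R K₀)) = aeval θ (IsLocalization.integerNormalization (nonZeroDivisors R) Q) :=
      aeval_map_algebraMap K₀ θ _
    rw [← h2, hbQ, ← IsScalarTower.algebraMap_smul K₀ b Q, map_smul, Algebra.smul_def,
      ← IsScalarTower.algebraMap_apply R K₀ L]
    congr 1
    exact hQ.symm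

open MvPolynomial Height Filter
open Pool.Agent.Lib.MP_17a322_nt.RO
open Pool.Agent.Lib.MP_17a322_nt.VJ
open Pool.Agent.Lib.MP_17a322_nt.VN hiding lf
open Pool.Agent.Lib.MP_17a322_nt.VA
open Pool.Agent.Lib.MP_17a322_nt.VP

/-- No gain in every dimension. -/
theorem P4_gain {K : Type u} [Field K] [NumberField K] {N : ℕ} (B : AV K N) {H : ℕ → ℝ}
    (hH : Tendsto H (hyperfilter ℕ : Filter ℕ) atTop) (Q : ℕ → B.Pts K) (hQ : FRM B.h H Q)
    (hc : ∃ c : ℝ, 0 < c ∧ ∀ᶠ i in (hyperfilter ℕ : Filter ℕ), c * H i ≤ B.h (Q i))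
    (hC : ∃ C : ℝ, 0 < C ∧ ∀ᶠ i in (hyperfilter ℕ : Filter ℕ), B.h (Q i) ≤ C * H i)
    (b : B.Pts (GK K)) (hb : IsGerm B Q b) {n e : ℕ} (hdim : B.dimIs n)
    (nd : Noe B n e) (κ : SC K) (hgood : nd.Good b) (hnr : NoRat B hH b)
    (z₀ z₁ : MvPolynomial (Fin n) (k0 K H hH)) (hz : IsRelPrime z₀ z₁)
    (hz0 : aeval (nd.s b) z₀ ≠ 0 ∨ aeval (nd.s b) z₁ ≠ 0) (a a' : ℕ → K)
    (ha : gm a = aeval (nd.s b) z₀) (ha' : gm a' = aeval (nd.s b) z₁) (ε : ℝ) (hε : 0 < ε) :
    ∀ᶠ i in (hyperfilter ℕ : Filter ℕ), nd.gn κ (Q i) (a i) (a' i) ≤ ε * H i := by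
  classical
  rcases Nat.lt_or_ge n 2 with h2 | h2
  · obtain ⟨α, β, hαβ⟩ := Z_isCoprime (by omega : n ≤ 1) hz
    have hsb : nd.s b = fun t => gm fun i => nd.s (Q i) t := funext fun t => s_germ nd hb t
    have key : ∀ᶠ i in (hyperfilter ℕ : Filter ℕ), (1 : K) =
        eval (nd.s (Q i)) (pr α i) * a i + eval (nd.s (Q i)) (pr β i) * a' i := by
      rw [← gm_eq_iff, gm_add, gm_mul, gm_mul, gm_eval_pr α fun i => nd.s (Q i),
        gm_eval_pr β fun i => nd.s (Q i), ← hsb, ha, ha', ← map_mul, ← map_mul, ← map_add, hαβ,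
        map_one]
      rfl
    obtain ⟨C₀, -, hC⟩ := gnA_poly nd κ (α.totalDegree + β.totalDegree)
    have hdeg : ∀ (p : MvPolynomial (Fin n) (k0 K H hH)) (i : ℕ) (t : Fin n),
        (pr p i).degreeOf t ≤ p.totalDegree := fun p i t =>
      (degreeOf_pr p i t).trans (degreeOf_le_totalDegree p t)
    have hl0 : ∀ᶠ i in (hyperfilter ℕ : Filter ℕ), lf (nd.l 0) (B.x (Q i)) ≠ 0 :=
      ((good_germ nd hb).mp hgood).mono fun i hi => hi.1
    have hsm : oH H fun i => nh1 (pr α i) + nh1 (pr β i) + nh1 (0 : MvPolynomial (Fin n) K) +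
        nh1 (0 : MvPolynomial (Fin n) K) + C₀ :=
      ((((oH_nh1_pr α).add (oH_nh1_pr β)).add (oH_const hH _)).add (oH_const hH _)).add
        (oH_const hH _)
    filter_upwards [key, hsm ε hε, hl0] with i h1 h3 h4
    have h5 := hC (Q i) h4 (pr α i) (pr β i) 0 0
      (fun t => (hdeg α i t).trans (by omega)) (fun t => (hdeg β i t).trans (by omega))
      (fun t => by rw [degreeOf_zero]; omega) (fun t => by rw [degreeOf_zero]; omega)
      (a i) (a' i) 1 0 h1 (by rw [map_zero]; ring) (Or.inl one_ne_zero)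
    rw [Z_gn_one, zero_add] at h5
    exact h5.trans h3
  · obtain ⟨k, rfl⟩ := Nat.exists_eq_add_of_le' h2
    exact no_gain B hH Q hQ hc hC b hb hdim nd κ hgood hnr z₀ z₁ hz hz0 a a' ha ha' ε hε

end Pool.Agent.Lib.MP_17a322_nt.SL
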