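import Pool.Agent.Lib.MP_17a322_nt.SL.P2
import Pool.Agent.Lib.MP_17a322_nt.SL.P4

/-!
Multiples of a vector of functions of a point without common divisors.
-/

universe u

namespace Pool.Agent.Lib.MP_17a322_nt.SL

open MvPolynomial Height Filter
open Pool.Agent.Lib.MP_17a322_nt.RO
open Pool.Agent.Lib.MP_17a322_nt.VJ
open Pool.Agent.Lib.MP_17a322_nt.VN hiding lf
open Pool.Agent.Lib.MP_17a322_nt.VA
open Pool.Agent.Lib.MP_17a322_nt.VP

section

variable {K : Type u} [Field K] {k L : Type u} [Field k] [Algebra K k] [Field L]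
  [Algebra k L] [Algebra K L] [IsScalarTower K k L] {N n e : ℕ} {B : AV K N} (nd : Noe B n e)
  (b : B.Pts L)

/-- A polynomial in the primitive element with polynomial coefficients in the Noether coordinates, as a
polynomial in the affine coordinates. -/
noncomputable def P5_T (k : Type u) [Field k] [Algebra K k]
    (Q : Polynomial (MvPolynomial (Fin n) k)) : MvPolynomial (Fin (N + 1)) k :=
  Q.eval₂ (aeval (R := k) fun j : Fin n => MvPolynomial.map (algebraMap K k)
    (lp (nd.l j.succ))).toRingHom (MvPolynomial.map (algebraMap K k) nd.θ)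

theorem P5_aeval_T (Q : Polynomial (MvPolynomial (Fin n) k)) :
    aeval (nd.y b) (P5_T nd k Q) =
      Q.eval₂ (aeval (R := k) (nd.s b)).toRingHom (aeval (nd.y b) nd.θ) := by
  unfold P5_T
  have h1 := Polynomial.hom_eval₂ Q (aeval (R := k) fun j : Fin n => MvPolynomial.map
    (algebraMap K k) (lp (nd.l j.succ))).toRingHom (aeval (R := k) (nd.y b)).toRingHom
    (MvPolynomial.map (algebraMap K k) nd.θ)
  have h2 : (aeval (R := k) (nd.y b)).toRingHom.comp (aeval (R := k) fun j : Fin n =>
      MvPolynomial.map (algebraMap K k) (lp (nd.l j.succ))).toRingHom =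
      (aeval (R := k) (nd.s b)).toRingHom := by
    refine MvPolynomial.ringHom_ext (fun c => ?_) fun j => ?_
    · show aeval (nd.y b) (aeval _ (C c)) = aeval (nd.s b) (C c)
      rw [algHom_C, algHom_C, MvPolynomial.algebraMap_eq, algHom_C]
    · show aeval (nd.y b) (aeval _ (X j)) = aeval (nd.s b) (X j)
      rw [aeval_X, aeval_X, aeval_map_algebraMap, aeval_lp]
      exact Z_lf_s nd b j
  rw [h2] at h1
  have h3 : (aeval (R := k) (nd.y b)).toRingHom (MvPolynomial.map (algebraMap K k) nd.θ) =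
      aeval (nd.y b) nd.θ := aeval_map_algebraMap k (nd.y b) nd.θ
  rw [h3] at h1
  exact h1

/-- Multiples of `x` whose coordinates are polynomials without common divisors. -/
theorem P5_data [CharZero K] (hgood : nd.Good b)
    (hind : AlgebraicIndependent k (nd.s b)) {M : ℕ} (x : Fin M → L) (hx : ∃ l, x l ≠ 0)
    (hxm : ∀ l, x l ∈ IntermediateField.adjoin k (Set.range (rt (B.x b)))) :
    ∃ (z₀ z₁ : MvPolynomial (Fin n) k) (d : ℕ) (f : Option (Fin M) → L)
      (G : Option (Fin M) → Fin M → MvPolynomial (Fin (N + 1)) k) (S : Finset (Fin M)),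
      IsRelPrime z₀ z₁ ∧ aeval (nd.s b) z₀ ≠ 0 ∧ (∀ t, f t ≠ 0) ∧
      (∀ t l, f t * x l = aeval (nd.y b) (G t l)) ∧
      (∃ l, aeval (nd.y b) (G none l) = aeval (nd.s b) z₀) ∧
      ∑ l ∈ S, aeval (nd.y b) (G (some l) l) =
        aeval (nd.s b) nd.δ ^ d * aeval (nd.s b) z₁ := by
  classical
  have hy1 := Z_lf_y nd hgood.1
  have hyp := nd.y_isPt b
  let _ : Algebra (MvPolynomial (Fin n) k) L := (aeval (R := k) (nd.s b)).toRingHom.toAlgebra
  have hψ : ∀ r : MvPolynomial (Fin n) k, algebraMap (MvPolynomial (Fin n) k) L r =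
      aeval (nd.s b) r := fun _ => rfl
  have hfs : FaithfulSMul (MvPolynomial (Fin n) k) L :=
    (faithfulSMul_iff_algebraMap_injective _ L).2 hind
  have hk : CharZero k := charZero_of_injective_algebraMap (algebraMap K k).injective
  obtain ⟨g, hg⟩ : ∃ g : MvPolynomial (Fin n) K →+* MvPolynomial (Fin n) k,
      g = MvPolynomial.map (algebraMap K k) := ⟨_, rfl⟩
  obtain ⟨θ, hθd⟩ : ∃ θ : L, θ = aeval (nd.y b) nd.θ := ⟨_, rfl⟩
  have hgs : ∀ q : MvPolynomial (Fin n) K, aeval (nd.s b) (g q) = aeval (nd.s b) q := fun q => by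
    rw [hg]
    exact aeval_map_algebraMap k (nd.s b) q
  have hls : (fun j : Fin n => lf (nd.l j.succ) (nd.y b)) = nd.s b :=
    funext fun j => Z_lf_s nd b j
  have key : ∀ Q : Polynomial (MvPolynomial (Fin n) K), Polynomial.aeval θ (Q.map g) =
      Q.eval₂ (aeval (R := K) fun j : Fin n => lf (nd.l j.succ) (nd.y b)).toRingHom
        (aeval (nd.y b) nd.θ) := by
    intro Q
    rw [Polynomial.aeval_def, Polynomial.eval₂_map, ← hθd, hls]
    congr 1
    refine RingHom.ext fun q => ?_
    exact hgs q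
  have hΦ : (nd.Φ.map g).Monic := nd.Φ_monic.map g
  have hθ : Polynomial.aeval θ (nd.Φ.map g) = 0 := by
    rw [key]
    exact nd.Φ_zero L _ hyp hy1
  obtain ⟨a, a', hab⟩ := nd.sep
  have hab' : a.map g * nd.Φ.map g + a'.map g * Polynomial.derivative (nd.Φ.map g) =
      Polynomial.C (g nd.δ) := by
    rw [Polynomial.derivative_map, ← Polynomial.map_mul, ← Polynomial.map_mul,
      ← Polynomial.map_add, hab, Polynomial.map_C]
  have hθi : IsIntegral (MvPolynomial (Fin n) k) θ := ⟨_, hΦ, by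
    rw [← Polynomial.aeval_def]
    exact hθ⟩
  obtain ⟨E, hE1, hE2, hE3⟩ := P4_field θ hθi
  have hyE : ∀ j, nd.y b j ∈ E := by
    intro j
    have h1 := nd.p_eq L _ hyp hy1 j
    rw [← key, hls] at h1
    have h2 : nd.y b j = (aeval (nd.s b) nd.δ)⁻¹ * Polynomial.aeval θ ((nd.p j).map g) := by
      rw [← h1, inv_mul_cancel_left₀ hgood.2]
    rw [h2]
    refine E.mul_mem (E.inv_mem ?_) (hE2 _)
    rw [← hgs, ← hψ]
    exact hE1 _
  have hkE : ∀ c : k, algebraMap k L c ∈ E := by
    intro c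
    have h1 := hE1 (C c)
    rw [hψ, algHom_C] at h1
    exact h1
  have hxE : ∀ l, x l ∈ E := by
    intro l
    have h1 : IntermediateField.adjoin k (Set.range (rt (B.x b))) ≤
        E.toIntermediateField hkE := by
      rw [IntermediateField.adjoin_le_iff]
      rintro _ ⟨i, rfl⟩
      have h2 : rt (B.x b) i = nd.y b i.1 / nd.y b i.2 := by
        unfold rt Noe.y
        rw [div_div_div_cancel_right₀ hgood.1]
      rw [h2]
      exact E.div_mem (hyE _) (hyE _)
    exact h1 (hxm l)
  obtain ⟨z₀, z₁, d, f, G, hz₀, hrel, hf, hG, ⟨l₀, hl₀⟩, hs⟩ :=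
    P2_main θ hΦ hθ hab' x hx fun l => hE3 _ (hxE l)
  have hT : ∀ Q : Polynomial (MvPolynomial (Fin n) k), aeval (nd.y b) (P5_T nd k Q) =
      Polynomial.aeval θ Q := by
    intro Q
    rw [P5_aeval_T, ← hθd]
    rfl
  refine ⟨z₀, z₁, d, fun t => if f t = 0 then f none else f t,
    fun t l => if f t = 0 then P5_T nd k (G none l) else P5_T nd k (G t l),
    Finset.univ.filter fun l => f (some l) ≠ 0, hrel, ?_, ?_, ?_, ⟨l₀, ?_⟩, ?_⟩
  · exact (map_ne_zero_iff _ hind).2 hz₀
  · intro t
    show (if f t = 0 then f none else f t) ≠ 0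
    split_ifs with h
    · exact hf
    · exact h
  · intro t l
    show (if f t = 0 then f none else f t) * x l =
      aeval (nd.y b) (if f t = 0 then P5_T nd k (G none l) else P5_T nd k (G t l))
    split_ifs with h
    · rw [hT, hG]
    · rw [hT, hG]
  · show aeval (nd.y b) (if f none = 0 then P5_T nd k (G none l₀) else P5_T nd k (G none l₀)) = _
    rw [ite_self, hT, ← hG, hl₀]
    rfl
  · have h1 : ∑ l ∈ Finset.univ.filter (fun l => f (some l) ≠ 0), aeval (nd.y b)
        (if f (some l) = 0 then P5_T nd k (G none l) else P5_T nd k (G (some l) l)) =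
        ∑ l ∈ Finset.univ.filter (fun l => f (some l) ≠ 0), f (some l) * x l := by
      refine Finset.sum_congr rfl fun l hl => ?_
      rw [if_neg (Finset.mem_filter.1 hl).2, hT, hG]
    rw [h1, Finset.sum_filter, ← hgs, ← map_pow, ← map_mul, ← hψ, ← hs]
    refine Finset.sum_congr rfl fun l _ => ?_
    split_ifs with h
    · rfl
    · rw [not_not.1 h, zero_mul]

end

end Pool.Agent.Lib.MP_17a322_nt.SL
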