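import Pool.Agent.Lib.MP_17a322_nt.Mb

/-!
The law of large numbers (Chebyshev) for products of simplices.
-/

namespace Pool.Agent.Lib.MP_17a322_nt.SL

open Finset

/-- Chebyshev's inequality for a sum of independent variables of mean zero. -/
theorem M_cheb {ι β : Type*} [Fintype ι] [DecidableEq ι] (T : ι → Finset β)
    (g : ι → β → ℝ) (h0 : ∀ i, ∑ u ∈ T i, g i u = 0) (h1 : ∀ i, ∀ u ∈ T i, |g i u| ≤ 1) (δ : ℝ)
    (hδ : 0 < δ) :
    (Fintype.card ι : ℝ) * δ ^ 2 *
      #{w ∈ Fintype.piFinset T | Fintype.card ι * δ < ∑ i, g i (w i)} ≤ ∏ i, (#(T i) : ℝ) := by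
  classical
  obtain ⟨m, hm⟩ : ∃ m : ℝ, m = Fintype.card ι := ⟨_, rfl⟩
  have hm0 : 0 ≤ m := by
    rw [hm]
    positivity
  rw [← hm]
  have hcard : ∑ u ∈ Fintype.piFinset T, (1 : ℝ) = ∏ i, (#(T i) : ℝ) := by
    rw [Finset.sum_const, Fintype.card_piFinset, nsmul_eq_mul, mul_one]
    push_cast
    rfl
  have hcross : ∀ i k, i ≠ k → ∑ u ∈ Fintype.piFinset T, g i (u i) * g k (u k) = 0 := by
    intro i k hik
    have h2 : ∑ u ∈ Fintype.piFinset T,
        ∏ l, (if l = i then g i (u l) else if l = k then g k (u l) else 1) = 0 := by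
      rw [← Finset.prod_univ_sum T
        fun l u => if l = i then g i u else if l = k then g k u else (1 : ℝ)]
      refine Finset.prod_eq_zero (Finset.mem_univ i) ?_
      simp only [if_true]
      exact h0 i
    rw [← h2]
    refine Finset.sum_congr rfl fun u _ => ?_
    rw [← Finset.mul_prod_erase univ _ (Finset.mem_univ i),
      ← Finset.mul_prod_erase (univ.erase i) _ (Finset.mem_erase.2 ⟨hik.symm, Finset.mem_univ k⟩),
      Finset.prod_eq_one]
    · simp only [if_true, mul_one, hik.symm, if_false]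
    · intro l hl
      rw [Finset.mem_erase, Finset.mem_erase] at hl
      simp only [hl.1, hl.2.1, if_false]
  have hsq : ∀ i, ∑ u ∈ Fintype.piFinset T, g i (u i) * g i (u i) ≤ ∏ i, (#(T i) : ℝ) := by
    intro i
    rw [← hcard]
    refine Finset.sum_le_sum fun u hu => ?_
    rw [Fintype.mem_piFinset] at hu
    have h2 := h1 i (u i) (hu i)
    rw [← abs_mul_abs_self]
    have h3 := abs_nonneg (g i (u i))
    nlinarith
  have h2 : ∑ u ∈ Fintype.piFinset T, (∑ i, g i (u i)) ^ 2 ≤ m * ∏ i, (#(T i) : ℝ) := by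
    have h3 : ∀ u : ι → β, (∑ i, g i (u i)) ^ 2 = ∑ i, ∑ k, g i (u i) * g k (u k) := fun u => by
      rw [sq, Finset.sum_mul_sum]
    simp only [h3]
    rw [Finset.sum_comm]
    have h4 : ∀ i, ∑ u ∈ Fintype.piFinset T, ∑ k, g i (u i) * g k (u k) ≤ ∏ i, (#(T i) : ℝ) := by
      intro i
      rw [Finset.sum_comm, Finset.sum_eq_single i]
      · exact hsq i
      · intro k _ hk
        exact hcross i k hk.symm
      · intro h
        exact absurd (Finset.mem_univ i) h
    refine (Finset.sum_le_sum fun i _ => h4 i).trans (le_of_eq ?_)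
    rw [Finset.sum_const, Finset.card_univ, nsmul_eq_mul, ← hm]
  have h3 : (#{w ∈ Fintype.piFinset T | m * δ < ∑ i, g i (w i)} : ℝ) * (m * δ) ^ 2 ≤
      m * ∏ i, (#(T i) : ℝ) := by
    refine le_trans ?_ h2
    rw [← nsmul_eq_mul, ← Finset.sum_const]
    refine (Finset.sum_le_sum fun u hu => ?_).trans (Finset.sum_le_sum_of_subset_of_nonneg
      (Finset.filter_subset _ _) fun u _ _ => sq_nonneg (∑ i, g i (u i)))
    rw [Finset.mem_filter] at hu
    exact pow_le_pow_left₀ (by positivity) hu.2.le 2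
  rcases hm0.eq_or_lt with h4 | h4
  · rw [← h4]
    simp only [zero_mul]
    exact Finset.prod_nonneg fun i _ => Nat.cast_nonneg _
  · refine le_of_mul_le_mul_left ?_ h4
    refine le_trans (le_of_eq ?_) h3
    ring

/-- The mean of a coordinate on the simplex. -/
theorem M_mean {κ : Type*} [Fintype κ] [DecidableEq κ] (d : ℕ) (k : κ) :
    (Fintype.card κ : ℝ) * ∑ u ∈ piAntidiag (univ : Finset κ) d, (u k : ℝ) =
      d * #(piAntidiag (univ : Finset κ) d) := by
  classical
  have h1 : ∀ k' : κ, ∑ u ∈ piAntidiag (univ : Finset κ) d, (u k' : ℝ) =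
      ∑ u ∈ piAntidiag (univ : Finset κ) d, (u k : ℝ) := by
    intro k'
    refine Finset.sum_bij' (fun u _ => u ∘ Equiv.swap k k') (fun u _ => u ∘ Equiv.swap k k')
      (fun u hu => ?_) (fun u hu => ?_) (fun u _ => ?_) (fun u _ => ?_) fun u _ => ?_
    · rw [mem_piAntidiag] at hu ⊢
      refine ⟨?_, fun _ _ => mem_univ _⟩
      rw [← hu.1]
      exact Equiv.sum_comp (Equiv.swap k k') u
    · rw [mem_piAntidiag] at hu ⊢
      refine ⟨?_, fun _ _ => mem_univ _⟩
      rw [← hu.1]
      exact Equiv.sum_comp (Equiv.swap k k') u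
    · funext x
      simp only [Function.comp_apply, Equiv.swap_apply_self]
    · funext x
      simp only [Function.comp_apply, Equiv.swap_apply_self]
    · simp only [Function.comp_apply, Equiv.swap_apply_left]
  have h2 : ∑ k' : κ, ∑ u ∈ piAntidiag (univ : Finset κ) d, (u k' : ℝ) =
      d * #(piAntidiag (univ : Finset κ) d) := by
    rw [Finset.sum_comm]
    have h3 : ∀ u ∈ piAntidiag (univ : Finset κ) d, ∑ k' : κ, (u k' : ℝ) = d := by
      intro u hu
      rw [mem_piAntidiag] at hu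
      rw [← hu.1]
      push_cast
      rfl
    rw [Finset.sum_congr rfl h3, Finset.sum_const, nsmul_eq_mul, mul_comm]
  rw [← h2, Finset.sum_congr rfl fun k' _ => h1 k', Finset.sum_const, Finset.card_univ,
    nsmul_eq_mul]

/-- The number of the multi-indices `w` of degrees `d i` in the blocks for which
`∑ w i k / d i < (1 / #κ - δ) m` is at most `1 / (m δ ^ 2)` times the number of all. -/
theorem M_count {ι κ : Type*} [Fintype ι] [DecidableEq ι] [Fintype κ] [DecidableEq κ] (d : ι → ℕ)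
    (hd : ∀ i, 0 < d i) (δ : ℝ) (hδ : 0 < δ) (k : κ) :
    (Fintype.card ι : ℝ) * δ ^ 2 *
      #{w ∈ Fintype.piFinset fun i => piAntidiag (univ : Finset κ) (d i) |
        ∑ i, (w i k : ℝ) / d i < (1 / Fintype.card κ - δ) * Fintype.card ι} ≤
      ∏ i, (#(piAntidiag (univ : Finset κ) (d i)) : ℝ) := by
  classical
  have hκ : (1 : ℝ) ≤ Fintype.card κ := by
    exact_mod_cast Fintype.card_pos_iff.2 ⟨k⟩
  have h := M_cheb (fun i => piAntidiag (univ : Finset κ) (d i))
    (fun i u => 1 / Fintype.card κ - (u k : ℝ) / d i) (fun i => ?_) (fun i u hu => ?_) δ hδ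
  · refine le_trans (mul_le_mul_of_nonneg_left ?_ (by positivity)) h
    rw [Nat.cast_le]
    refine Finset.card_le_card fun w hw => ?_
    rw [Finset.mem_filter] at hw ⊢
    refine ⟨hw.1, ?_⟩
    rw [Finset.sum_sub_distrib, Finset.sum_const, Finset.card_univ, nsmul_eq_mul]
    have := hw.2
    linarith
  · have h1 := M_mean (κ := κ) (d i) k
    have h2 : (0 : ℝ) < d i := by exact_mod_cast hd i
    have h3 : (0 : ℝ) < Fintype.card κ := by linarith
    have h4 : ∑ u ∈ piAntidiag (univ : Finset κ) (d i), ((u k : ℝ) / d i) =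
        (∑ u ∈ piAntidiag (univ : Finset κ) (d i), (u k : ℝ)) / d i := by
      rw [Finset.sum_div]
    rw [Finset.sum_sub_distrib, h4, Finset.sum_const, nsmul_eq_mul]
    field_simp
    linarith
  · rw [mem_piAntidiag] at hu
    have h2 : (0 : ℝ) < d i := by exact_mod_cast hd i
    have h3 : (0 : ℝ) < Fintype.card κ := by linarith
    have h4 : (u k : ℝ) / d i ≤ 1 := by
      rw [div_le_one h2]
      have h5 : u k ≤ d i := by
        rw [← hu.1]
        exact Finset.single_le_sum (f := u) (fun _ _ => Nat.zero_le _) (Finset.mem_univ k)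
      exact_mod_cast h5
    have h5 : 0 ≤ (u k : ℝ) / d i := by positivity
    have h6 : (1 : ℝ) / Fintype.card κ ≤ 1 := by
      rw [div_le_one h3]
      exact hκ
    have h7 : (0 : ℝ) ≤ 1 / Fintype.card κ := by positivity
    rw [abs_le]
    constructor <;> linarith

/-- The form for `Fin m` and `Fin (q + 1)`. -/
theorem M_count' {m q : ℕ} (d : Fin m → ℕ) (hd : ∀ i, 0 < d i) (δ : ℝ) (hδ : 0 < δ)
    (k : Fin (q + 1)) :
    (m : ℝ) * δ ^ 2 *
      #{w ∈ Fintype.piFinset fun i => piAntidiag (univ : Finset (Fin (q + 1))) (d i) |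
        ∑ i, (w i k : ℝ) / d i < (1 / (q + 1) - δ) * m} ≤
      ∏ i, (#(piAntidiag (univ : Finset (Fin (q + 1))) (d i)) : ℝ) := by
  have h := M_count d hd δ hδ k
  rw [Fintype.card_fin, Fintype.card_fin] at h
  push_cast at h
  exact h

/-- The form with the weights `4 ^ j i` and degrees `4 ^ (J - j i)`. -/
theorem M_count4 {m q : ℕ} (J : ℕ) (j : Fin m → ℕ) (hj : ∀ i, j i ≤ J) (δ : ℝ) (hδ : 0 < δ)
    (k : Fin (q + 1)) :
    (m : ℝ) * δ ^ 2 *
      #{w ∈ (Fintype.piFinset fun i => piAntidiag (univ : Finset (Fin (q + 1))) (4 ^ (J - j i)) :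
          Finset (Fin m → Fin (q + 1) → ℕ)) |
        ∑ i, (4 : ℝ) ^ j i * w i k < (1 / (q + 1) - δ) * m * 4 ^ J} ≤
      ∏ i, (#(piAntidiag (univ : Finset (Fin (q + 1))) (4 ^ (J - j i) : ℕ)) : ℝ) := by
  have h := M_count' (fun i => 4 ^ (J - j i)) (fun i => by positivity) δ hδ k
  refine le_trans (le_of_eq ?_) h
  have h0 : ∀ w w' : ℕ, w = w' → (m : ℝ) * δ ^ 2 * w = m * δ ^ 2 * w' := fun w w' h => by rw [h]
  refine h0 _ _ (congrArg Finset.card (Finset.filter_congr fun w _ => ?_))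
  have h4 : (0 : ℝ) < 4 ^ J := by positivity
  have h5 : ∑ i, (w i k : ℝ) / ((4 ^ (J - j i) : ℕ) : ℝ) =
      (∑ i, (4 : ℝ) ^ j i * w i k) / 4 ^ J := by
    push_cast
    rw [Finset.sum_div]
    refine Finset.sum_congr rfl fun i _ => ?_
    rw [div_eq_div_iff (by positivity) (by positivity)]
    have h6 : (4 : ℝ) ^ J = 4 ^ j i * 4 ^ (J - j i) := by
      rw [← pow_add, Nat.add_sub_cancel' (hj i)]
    rw [h6]
    ring
  rw [h5, div_lt_iff₀ h4]

end Pool.Agent.Lib.MP_17a322_nt.SL
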