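import Pool.Agent.Lib.MP_17a322_nt.SL.R2
import Pool.Agent.Lib.MP_17a322_nt.VP.R3

/-!
The zero estimate for forms near hyperplanes.
-/

universe u

namespace Pool.Agent.Lib.MP_17a322_nt.SL

open MvPolynomial Height
open Pool.Agent.Lib.MP_17a322_nt.RO
open Pool.Agent.Lib.MP_17a322_nt.VJ
open Pool.Agent.Lib.MP_17a322_nt.VN
open Pool.Agent.Lib.MP_17a322_nt.VP

section

variable {ι κ : Type*} [Fintype ι] [DecidableEq ι] [Fintype κ] [DecidableEq κ]

/-- The weight which measures the exponents of the `X (i, l₀)`. -/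
def wl (l₀ : κ) (p : ι × κ) : ι → ℕ := if p.2 = l₀ then Pi.single p.1 1 else 0

theorem wl_weight (l₀ : κ) (w : ι × κ →₀ ℕ) (i : ι) :
    Finsupp.weight (wl l₀) w i = w (i, l₀) := by
  rw [Finsupp.weight_apply, Finsupp.sum_fintype _ _ (fun p => by rw [zero_smul]),
    Finset.sum_apply, Finset.sum_eq_single (i, l₀)]
  · unfold wl
    rw [if_pos rfl, Pi.smul_apply, Pi.single_eq_same, smul_eq_mul, mul_one]
  · intro p _ hp
    unfold wl
    rw [Pi.smul_apply]
    split_ifs with h
    · have hi : p.1 ≠ i := fun h' => hp (Prod.ext h' h)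
      rw [Pi.single_eq_of_ne (Ne.symm hi), smul_zero]
    · rw [Pi.zero_apply, smul_zero]
  · intro h
    exact absurd (Finset.mem_univ _) h

/-- The matrix of the substitution `u l₀ = X l₀ - ∑ μ l X l`, `u l = X l`. -/
def um {R : Type*} [CommRing R] (l₀ : κ) (μ : κ → R) : Matrix κ κ R :=
  fun l k => if l = l₀ then (if k = l₀ then 1 else - μ k) else if k = l then 1 else 0

end

section

variable {K : Type*} [Field K] {ι κ : Type*} [Fintype ι] [DecidableEq ι] [Fintype κ]
  [DecidableEq κ]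

theorem um_weight (l₀ : κ) (μ : ι → κ → K) (E : ι → Matrix κ κ K) (hdet : ∀ i, (E i).det ≠ 0)
    (hE : ∀ i l, E i l l₀ = if l = l₀ then 1 else 0)
    (hμ : ∀ i k, ∑ l, μ i l * E i l k = if k = l₀ then 1 else 0)
    (F : MvPolynomial (ι × κ) K) (e : ι × κ →₀ ℕ)
    (he : coeff e (sbm (fun i => um l₀ (μ i)) F) ≠ 0) :
    ∃ w : ι × κ →₀ ℕ, (∀ i, w (i, l₀) = e (i, l₀)) ∧ coeff w (sbm E F) ≠ 0 := by
  have hunit : ∀ i, IsUnit (E i).det := fun i => (hdet i).isUnit
  have h1 : sbm (fun i => um l₀ (μ i)) F = sbm (fun i => (E i)⁻¹ * um l₀ (μ i)) (sbm E F) := by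
    rw [sbm_sbm]
    congr 1
    funext i
    rw [← Matrix.mul_assoc, Matrix.mul_nonsing_inv _ (hunit i), Matrix.one_mul]
  have hμ1 : ∀ i, μ i l₀ = 1 := by
    intro i
    have h2 := hμ i l₀
    rw [if_pos rfl, Finset.sum_eq_single l₀] at h2
    · rw [hE, if_pos rfl, mul_one] at h2
      exact h2
    · intro l _ hl
      rw [hE, if_neg hl, mul_zero]
    · intro h
      exact absurd (Finset.mem_univ _) h
  have hrow : ∀ i l, (E i)⁻¹ l₀ l = μ i l := by
    intro i l
    have h2 : Matrix.vecMul (μ i) (E i) = Pi.single l₀ 1 := by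
      funext k
      have h3 := hμ i k
      rw [Pi.single_apply, ← h3]
      rfl
    have h3 : Matrix.vecMul (Matrix.vecMul (μ i) (E i)) (E i)⁻¹ = μ i := by
      rw [Matrix.vecMul_vecMul, Matrix.mul_nonsing_inv _ (hunit i), Matrix.vecMul_one]
    rw [h2, Matrix.single_one_vecMul] at h3
    exact congrFun h3 l
  have hcol : ∀ i l, (E i)⁻¹ l l₀ = if l = l₀ then 1 else 0 := by
    intro i l
    have h2 : Matrix.mulVec (E i) (Pi.single l₀ 1) = Pi.single l₀ 1 := by
      funext k
      rw [Matrix.mulVec_single_one, Matrix.col_apply, hE, Pi.single_apply]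
    have h3 : Matrix.mulVec (E i)⁻¹ (Matrix.mulVec (E i) (Pi.single l₀ 1)) =
        Pi.single l₀ 1 := by
      rw [Matrix.mulVec_mulVec, Matrix.nonsing_inv_mul _ (hunit i), Matrix.one_mulVec]
    rw [h2] at h3
    have h4 := congrFun h3 l
    rw [Matrix.mulVec_single_one, Matrix.col_apply, Pi.single_apply] at h4
    exact h4
  have hB : ∀ i l k, ((E i)⁻¹ * um l₀ (μ i)) l k ≠ 0 → wl l₀ (i, k) = wl l₀ (i, l) := by
    intro i l k hne
    by_cases hk : k = l₀
    · by_cases hl : l = l₀
      · rw [hk, hl]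
      · exfalso
        apply hne
        rw [Matrix.mul_apply, Finset.sum_eq_single l₀]
        · rw [hcol, if_neg hl, zero_mul]
        · intro l' _ hl'
          unfold um
          rw [if_neg hl', hk, if_neg (Ne.symm hl'), mul_zero]
        · intro h
          exact absurd (Finset.mem_univ _) h
    · by_cases hl : l = l₀
      · exfalso
        apply hne
        rw [hl, Matrix.mul_apply, ← Finset.add_sum_erase _ _ (Finset.mem_univ l₀),
          Finset.sum_eq_single k]
        · simp only [hrow]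
          unfold um
          rw [if_pos rfl, if_neg hk, if_neg hk, if_pos rfl, hμ1]
          ring
        · intro l' hl' hl''
          unfold um
          rw [if_neg (Finset.ne_of_mem_erase hl'), if_neg (Ne.symm hl''), mul_zero]
        · intro h
          exact absurd (Finset.mem_erase.2 ⟨hk, Finset.mem_univ _⟩) h
      · unfold wl
        rw [if_neg hk, if_neg hl]
  rw [h1] at he
  obtain ⟨w, hw, hwt⟩ := sbm_weight (wl l₀) (fun i => (E i)⁻¹ * um l₀ (μ i)) hB (sbm E F) e he
  refine ⟨w, fun i => ?_, mem_support_iff.1 hw⟩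
  rw [← wl_weight l₀ w i, ← wl_weight l₀ e i, hwt]

end

end Pool.Agent.Lib.MP_17a322_nt.SL
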