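import Pool.Agent.Lib.MP_17a322_nt.SL.R3

/-!
Reduction of the zero estimate for forms near hyperplanes to polynomials with one variable for each
block.
-/

universe u

namespace Pool.Agent.Lib.MP_17a322_nt.SL

open MvPolynomial Height
open Pool.Agent.Lib.MP_17a322_nt.RO
open Pool.Agent.Lib.MP_17a322_nt.VJ
open Pool.Agent.Lib.MP_17a322_nt.VN
open Pool.Agent.Lib.MP_17a322_nt.VP

section

variable {K : Type*} [Field K] {ι κ : Type*} [Fintype ι] [DecidableEq ι] [Fintype κ]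
  [DecidableEq κ]

/-- `X (i, l₀) ↦ T i`, `X (i, l₁) ↦ 1`, the other variables are constants. -/
noncomputable def psi (l₀ l₁ : κ) :
    MvPolynomial (ι × κ) K →ₐ[K] MvPolynomial ι (MvPolynomial (ι × κ) K) :=
  aeval fun p => if p.2 = l₀ then X p.1 else if p.2 = l₁ then 1 else C (X p)

theorem psi_coeff (l₀ l₁ : κ) (G : MvPolynomial (ι × κ) K) (a : ι →₀ ℕ)
    (h : coeff a (psi l₀ l₁ G) ≠ 0) : ∃ e ∈ G.support, ∀ i, e (i, l₀) = a i := by
  classical
  obtain ⟨φ, hφ⟩ : ∃ φ : ι × κ → MvPolynomial ι (MvPolynomial (ι × κ) K), ∀ p, φ p =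
    if p.2 = l₀ then X p.1 else if p.2 = l₁ then 1 else C (X p) := ⟨_, fun _ => rfl⟩
  have h1 : psi l₀ l₁ G = ∑ e ∈ G.support, C (C (coeff e G)) * ∏ p, φ p ^ e p := by
    unfold psi
    rw [aeval_def, eval₂_eq']
    simp only [hφ]
    rfl
  rw [h1, coeff_sum] at h
  obtain ⟨e, he, hne⟩ := Finset.exists_ne_zero_of_sum_ne_zero h
  refine ⟨e, he, fun i => ?_⟩
  obtain ⟨wt, hwt⟩ : ∃ wt : ι → (ι → ℕ), ∀ i, wt i = Pi.single i 1 := ⟨_, fun _ => rfl⟩
  have h2 : ∀ p : ι × κ, IsWeightedHomogeneous wt (φ p) (wl l₀ p) := by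
    intro p
    rw [hφ]
    unfold wl
    split_ifs with h3 h4
    · rw [← hwt]
      exact isWeightedHomogeneous_X _ wt p.1
    · exact isWeightedHomogeneous_one _ wt
    · exact isWeightedHomogeneous_C wt _
  have h3 : IsWeightedHomogeneous wt (C (C (coeff e G)) * ∏ p, φ p ^ e p)
      (Finsupp.weight (wl l₀) e) := by
    have h4 : IsWeightedHomogeneous wt (∏ p, φ p ^ e p) (∑ p, e p • wl l₀ p) :=
      IsWeightedHomogeneous.prod _ _ _ fun p _ => (h2 p).pow (e p)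
    have h5 := (isWeightedHomogeneous_C wt (C (coeff e G) : MvPolynomial (ι × κ) K)).mul h4
    rw [zero_add] at h5
    rw [Finsupp.weight_apply, Finsupp.sum_fintype _ _ (fun p => by rw [zero_smul])]
    exact h5
  have h4 := congrFun (h3 hne) i
  rw [wl_weight] at h4
  rw [← h4, Finsupp.weight_apply, Finsupp.sum_fintype _ _ (fun p => by rw [zero_smul]),
    Finset.sum_apply, Finset.sum_eq_single i]
  · rw [hwt, Pi.smul_apply, Pi.single_eq_same, smul_eq_mul, mul_one]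
  · intro i' _ hi
    rw [hwt, Pi.smul_apply, Pi.single_eq_of_ne (Ne.symm hi), smul_zero]
  · intro h
    exact absurd (Finset.mem_univ _) h

omit [Fintype ι] [DecidableEq ι] in
/-- The value of `F` at `T i - μ i l₁ - ∑ μ i l λ (i, l)`, `1`, `λ (i, l)`. -/
theorem psi_sbm (l₀ l₁ : κ) (hl : l₁ ≠ l₀) (μ : ι → κ → K) (F : MvPolynomial (ι × κ) K) :
    psi l₀ l₁ (sbm (fun i => um l₀ (μ i)) F) =
      aeval (fun p : ι × κ => if p.2 = l₀ then X p.1 + C (C (- μ p.1 l₁) -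
        ∑ k ∈ (Finset.univ.erase l₀).erase l₁, C (μ p.1 k) * X (p.1, k))
        else if p.2 = l₁ then 1 else C (X p)) F := by
  refine (AlgHom.comp_apply (psi l₀ l₁) (aeval fun p : ι × κ =>
    lfb p.1 (um l₀ (μ p.1) p.2)) F).symm.trans (DFunLike.congr_fun (algHom_ext fun p => ?_) F)
  rw [AlgHom.comp_apply, aeval_X, aeval_X]
  obtain ⟨i, l⟩ := p
  dsimp only
  have hC : ∀ c : K, psi l₀ l₁ (C c : MvPolynomial (ι × κ) K) = C (C c) := by
    intro c
    rw [← algebraMap_eq, AlgHom.commutes]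
    rfl
  have hX : ∀ k, psi l₀ l₁ (X (i, k) : MvPolynomial (ι × κ) K) =
      if k = l₀ then X i else if k = l₁ then 1 else C (X (i, k)) := by
    intro k
    unfold psi
    rw [aeval_X]
  unfold lfb
  rw [map_sum]
  simp only [map_mul, hC, hX]
  by_cases h : l = l₀
  · rw [if_pos h, ← Finset.add_sum_erase _ _ (Finset.mem_univ l₀),
      ← Finset.add_sum_erase _ _ (Finset.mem_erase.2 ⟨hl, Finset.mem_univ l₁⟩)]
    unfold um
    rw [if_pos h, if_pos rfl, if_pos rfl, C_1, C_1, one_mul, if_pos h, if_neg hl, if_neg hl,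
      if_pos rfl, mul_one]
    congr 1
    rw [C_sub, sub_eq_add_neg]
    congr 1
    rw [map_sum, ← Finset.sum_neg_distrib]
    refine Finset.sum_congr rfl fun k hk => ?_
    have hk1 : k ≠ l₁ := Finset.ne_of_mem_erase hk
    have hk0 : k ≠ l₀ := Finset.ne_of_mem_erase (Finset.mem_of_mem_erase hk)
    rw [if_pos h, if_neg hk0, if_neg hk0, if_neg hk1]
    have h2 : (C (- μ i k) * X (i, k) : MvPolynomial (ι × κ) K) = - (C (μ i k) * X (i, k)) := by
      rw [C_neg]
      ring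
    rw [← C_mul, h2, C_neg]
  · rw [if_neg h, Finset.sum_eq_single l]
    · unfold um
      rw [if_neg h, if_pos rfl, C_1, C_1, one_mul, if_neg h]
    · intro k _ hk
      unfold um
      rw [if_neg h, if_neg hk, C_0, C_0, zero_mul]
    · intro h'
      exact absurd (Finset.mem_univ _) h'

/-- The part of the exponent outside of `l₀`, `l₁`. -/
noncomputable def rst (l₀ l₁ : κ) (w : ι × κ →₀ ℕ) : ι × κ →₀ ℕ :=
  w.filter fun p => p.2 ≠ l₀ ∧ p.2 ≠ l₁

/-- The exponents at `l₀`. -/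
noncomputable def rho (l₀ : κ) (w : ι × κ →₀ ℕ) : ι →₀ ℕ :=
  Finsupp.equivFunOnFinite.symm fun i => w (i, l₀)

omit [DecidableEq ι] [Fintype κ] [DecidableEq κ] in
theorem rho_apply (l₀ : κ) (w : ι × κ →₀ ℕ) (i : ι) : rho l₀ w i = w (i, l₀) := rfl

omit [DecidableEq ι] in
theorem rst_rho_inj {l₀ l₁ : κ} {d : ι → ℕ} {w w' : ι × κ →₀ ℕ}
    (hw : ∀ i, ∑ l, w (i, l) = d i) (hw' : ∀ i, ∑ l, w' (i, l) = d i)
    (h1 : rst l₀ l₁ w = rst l₀ l₁ w') (h2 : rho l₀ w = rho l₀ w') : w = w' := by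
  have h3 : ∀ i l, l ≠ l₁ → w (i, l) = w' (i, l) := by
    intro i l hl1
    by_cases hl0 : l = l₀
    · rw [hl0, ← rho_apply, ← rho_apply, h2]
    · have h4 := DFunLike.congr_fun h1 (i, l)
      unfold rst at h4
      rw [Finsupp.filter_apply_pos _ _ ⟨hl0, hl1⟩, Finsupp.filter_apply_pos _ _ ⟨hl0, hl1⟩] at h4
      exact h4
  refine Finsupp.ext fun p => ?_
  obtain ⟨i, l⟩ := p
  by_cases hl1 : l = l₁
  · have h4 := hw i
    rw [← hw' i, ← Finset.add_sum_erase _ _ (Finset.mem_univ l₁),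
      ← Finset.add_sum_erase Finset.univ (fun l => w' (i, l)) (Finset.mem_univ l₁),
      Finset.sum_congr rfl fun l hl' => h3 i l (Finset.ne_of_mem_erase hl')] at h4
    rw [hl1]
    exact Nat.add_right_cancel h4
  · exact h3 i l hl1

/-- The polynomial in one variable for each block. -/
theorem strip_poly (l₀ l₁ : κ) (hl : l₁ ≠ l₀) (μ : ι → κ → K) (F : MvPolynomial (ι × κ) K)
    (hF : F ≠ 0) (d : ι → ℕ) (hd : ∀ w ∈ F.support, ∀ i, ∑ l, w (i, l) = d i) :
    ∃ f : MvPolynomial ι K, f ≠ 0 ∧ (∀ i, f.degreeOf i ≤ d i) ∧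
      (∀ v : AbsoluteValue K ℝ, NV v f ≤ NV v F) ∧
      ∀ a : ι →₀ ℕ, coeff a (tr (fun i => - μ i l₁) f) ≠ 0 →
        ∃ e : ι × κ →₀ ℕ, (∀ i, e (i, l₀) = a i) ∧
          coeff e (sbm (fun i => um l₀ (μ i)) F) ≠ 0 := by
  classical
  obtain ⟨w₀, hw₀, hmin⟩ := Finset.exists_min_image F.support
    (fun w => ∑ p, rst l₀ l₁ w p) (support_nonempty.2 hF)
  obtain ⟨p₀, hp₀⟩ : ∃ p₀, p₀ = rst l₀ l₁ w₀ := ⟨_, rfl⟩
  obtain ⟨T, hT⟩ : ∃ T : Finset (ι × κ →₀ ℕ), T = F.support.filter fun w => rst l₀ l₁ w = p₀ :=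
    ⟨_, rfl⟩
  have hTm : ∀ w, w ∈ T ↔ w ∈ F.support ∧ rst l₀ l₁ w = p₀ := fun w => by
    rw [hT, Finset.mem_filter]
  have hinj : ∀ w ∈ T, ∀ w' ∈ T, rho l₀ w = rho l₀ w' → w = w' := by
    intro w hw w' hw' h
    rw [hTm] at hw hw'
    exact rst_rho_inj (hd w hw.1) (hd w' hw'.1) (hw.2.trans hw'.2.symm) h
  obtain ⟨f, hf⟩ : ∃ f : MvPolynomial ι K, f = ∑ w ∈ T, monomial (rho l₀ w) (coeff w F) :=
    ⟨_, rfl⟩
  have hfc : ∀ w ∈ T, coeff (rho l₀ w) f = coeff w F := by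
    intro w hw
    rw [hf, coeff_sum, Finset.sum_eq_single w]
    · rw [coeff_monomial, if_pos rfl]
    · intro w' hw' hne
      rw [coeff_monomial, if_neg]
      intro h
      exact hne (hinj w' hw' w hw h)
    · intro h
      exact absurd hw h
  have hfs : ∀ a ∈ f.support, ∃ w ∈ T, rho l₀ w = a := by
    intro a ha
    rw [mem_support_iff, hf, coeff_sum] at ha
    obtain ⟨w, hw, hne⟩ := Finset.exists_ne_zero_of_sum_ne_zero ha
    refine ⟨w, hw, ?_⟩
    by_contra h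
    rw [coeff_monomial, if_neg h] at hne
    exact hne rfl
  have hw₀T : w₀ ∈ T := (hTm _).2 ⟨hw₀, hp₀.symm⟩
  refine ⟨f, ?_, ?_, ?_, ?_⟩
  · intro h0
    have h1 := hfc w₀ hw₀T
    rw [h0, coeff_zero] at h1
    exact (mem_support_iff.1 hw₀) h1.symm
  · intro i
    rw [degreeOf_le_iff]
    intro a ha
    obtain ⟨w, hw, rfl⟩ := hfs a ha
    rw [rho_apply, ← hd w ((hTm w).1 hw).1 i]
    exact Finset.single_le_sum (f := fun l => w (i, l)) (fun _ _ => Nat.zero_le _)
      (Finset.mem_univ l₀)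
  · intro v
    choose! g hg1 hg2 using hfs
    refine NV_le_of_injOn v F f g ?_ ?_
    · intro a ha a' ha' h
      rw [← hg2 a ha, ← hg2 a' ha', h]
    · intro a ha
      rw [← hfc (g a) (hg1 a ha), hg2 a ha]
  · intro a ha
    obtain ⟨c, hc⟩ : ∃ c : ι → MvPolynomial (ι × κ) K, ∀ i, c i = C (- μ i l₁) -
        ∑ k ∈ (Finset.univ.erase l₀).erase l₁, C (μ i k) * X (i, k) := ⟨_, fun _ => rfl⟩
    obtain ⟨φ, hφ⟩ : ∃ φ : ι × κ → MvPolynomial ι (MvPolynomial (ι × κ) K), ∀ p, φ p =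
      if p.2 = l₀ then X p.1 + C (c p.1) else if p.2 = l₁ then 1 else C (X p) := ⟨_, fun _ => rfl⟩
    have hψ : psi l₀ l₁ (sbm (fun i => um l₀ (μ i)) F) = aeval φ F := by
      rw [psi_sbm l₀ l₁ hl]
      have h1 : φ = fun p : ι × κ => if p.2 = l₀ then X p.1 + C (C (- μ p.1 l₁) -
          ∑ k ∈ (Finset.univ.erase l₀).erase l₁, C (μ p.1 k) * X (p.1, k))
          else if p.2 = l₁ then 1 else C (X p) := by
        funext p
        rw [hφ, hc]
      rw [h1]
    -- the products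
    have hprod : ∀ w : ι × κ →₀ ℕ, ∏ p, φ p ^ w p =
        C (monomial (rst l₀ l₁ w) 1) * ∏ i, (X i + C (c i)) ^ rho l₀ w i := by
      intro w
      have h1 : (monomial (rst l₀ l₁ w) 1 : MvPolynomial (ι × κ) K) =
          ∏ p : ι × κ, (if p.2 = l₀ then 1 else if p.2 = l₁ then 1 else X p) ^ w p := by
        rw [monomial_eq, C_1, one_mul, Finsupp.prod_fintype _ _ (fun p => pow_zero _)]
        refine Finset.prod_congr rfl fun p _ => ?_
        unfold rst
        by_cases h2 : p.2 = l₀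
        · rw [if_pos h2, Finsupp.filter_apply_neg _ _ (fun h => h.1 h2), pow_zero, one_pow]
        · by_cases h3 : p.2 = l₁
          · rw [if_neg h2, if_pos h3, Finsupp.filter_apply_neg _ _ (fun h => h.2 h3), pow_zero,
              one_pow]
          · rw [if_neg h2, if_neg h3, Finsupp.filter_apply_pos _ _ ⟨h2, h3⟩]
      have h2 : ∏ i, (X i + C (c i)) ^ rho l₀ w i =
          ∏ p : ι × κ, (if p.2 = l₀ then X p.1 + C (c p.1) else 1) ^ w p := by
        rw [Fintype.prod_prod_type]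
        refine Finset.prod_congr rfl fun i _ => ?_
        rw [Finset.prod_eq_single l₀]
        · rw [if_pos rfl, rho_apply]
        · intro l _ h3
          rw [if_neg h3, one_pow]
        · intro h3
          exact absurd (Finset.mem_univ _) h3
      rw [h1, h2, map_prod, ← Finset.prod_mul_distrib]
      refine Finset.prod_congr rfl fun p _ => ?_
      rw [map_pow, ← mul_pow, hφ]
      by_cases h3 : p.2 = l₀
      · rw [if_pos h3, if_pos h3, if_pos h3, C_1, one_mul]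
      · by_cases h4 : p.2 = l₁
        · rw [if_neg h3, if_neg h3, if_neg h3, if_pos h4, if_pos h4, C_1, one_mul]
        · rw [if_neg h3, if_neg h3, if_neg h3, if_neg h4, if_neg h4, mul_one]
    have hkey : coeff p₀ (coeff a (aeval φ F)) = coeff a (tr (fun i => - μ i l₁) f) := by
      have h1 : aeval φ F = ∑ w ∈ F.support, C (C (coeff w F)) * ∏ p, φ p ^ w p := by
        rw [aeval_def, eval₂_eq']
        rfl
      have h2 : tr (fun i => - μ i l₁) f = ∑ w ∈ T, C (coeff w F) *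
          ∏ i, (X i + C (- μ i l₁)) ^ rho l₀ w i := by
        unfold tr
        rw [hf, map_sum]
        refine Finset.sum_congr rfl fun w _ => ?_
        rw [aeval_monomial, Finsupp.prod_fintype _ _ (fun p => pow_zero _)]
        rfl
      rw [h1, h2, coeff_sum, coeff_sum, coeff_sum, hT, Finset.sum_filter]
      refine Finset.sum_congr rfl fun w hw => ?_
      rw [hprod, coeff_C_mul, coeff_C_mul, coeff_C_mul, coeff_monomial_mul']
      by_cases hle : rst l₀ l₁ w ≤ p₀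
      · have heq : rst l₀ l₁ w = p₀ := by
          refine le_antisymm hle ?_
          have h3 := hmin w hw
          rw [← hp₀] at h3
          intro p
          by_contra hcon
          have h4 : ∑ p, rst l₀ l₁ w p < ∑ p, p₀ p :=
            Finset.sum_lt_sum (fun p _ => hle p) ⟨p, Finset.mem_univ p, not_le.1 hcon⟩
          omega
        rw [if_pos hle, if_pos heq, heq, tsub_self, one_mul, coeff_C_mul]
        congr 1
        have h5 : ∀ P : MvPolynomial ι (MvPolynomial (ι × κ) K), coeff 0 (coeff a P) =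
            coeff a (map constantCoeff P) := by
          intro P
          rw [coeff_map]
          rfl
        rw [h5, map_prod]
        congr 1
        refine Finset.prod_congr rfl fun i _ => ?_
        rw [map_pow, map_add, map_X, map_C, hc, map_sub, constantCoeff_C, map_sum,
          Finset.sum_eq_zero, sub_zero]
        intro k _
        rw [map_mul, constantCoeff_X, mul_zero]
      · rw [if_neg hle, mul_zero, if_neg]
        intro h
        exact hle h.le
    rw [← hkey] at ha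
    have h1 : coeff a (psi l₀ l₁ (sbm (fun i => um l₀ (μ i)) F)) ≠ 0 := by
      rw [hψ]
      intro h0
      rw [h0, coeff_zero] at ha
      exact ha rfl
    obtain ⟨e, he1, he2⟩ := psi_coeff l₀ l₁ _ a h1
    exact ⟨e, he2, mem_support_iff.1 he1⟩

end

/-- The zero estimate. -/
theorem RM_zero {K : Type u} [Field K] [NumberField K] (m q : ℕ) (s B : ℝ) (hs : 0 < s)
    (hB : 0 ≤ B) :
    ∃ (R₀ : ℕ) (B' : ℝ), 0 ≤ B' ∧ ∀ (j : Fin m → ℕ) (l₀ l₁ : Fin (q + 1)), l₁ ≠ l₀ →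
      ∀ (μ : Fin m → Fin (q + 1) → K) (E : Fin m → Matrix (Fin (q + 1)) (Fin (q + 1)) K)
      (F : MvPolynomial (Fin m × Fin (q + 1)) K) (d : Fin m → ℕ) (M : ℝ),
      (∀ i, (E i).det ≠ 0) → (∀ i l, E i l l₀ = if l = l₀ then 1 else 0) →
      (∀ i k, ∑ l, μ i l * E i l k = if k = l₀ then 1 else 0) →
      (∀ i i', i < i' → R₀ * 4 ^ j i ≤ 4 ^ j i') → F ≠ 0 → 0 < M →
      (∀ w ∈ F.support, ∀ i, ∑ l, w (i, l) = d i) →
      (∀ i, (4 : ℝ) ^ j i * d i ≤ M) → nh F ≤ B * M →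
      (∃ i, logHeight₁ (μ i l₁) ≤ B' * 4 ^ j i) ∨
      ∃ w : Fin m × Fin (q + 1) →₀ ℕ, ∑ i, (4 : ℝ) ^ j i * w (i, l₀) < s * M ∧
        coeff w (sbm E F) ≠ 0 := by
  classical
  obtain ⟨R₀, B', hB', H⟩ := R_zero (K := K) m s B hs hB
  refine ⟨R₀, B', hB', fun j l₀ l₁ hl μ E F d M hdet hE hμ hj hF hM hd hdM hnh => ?_⟩
  obtain ⟨f, hf0, hfd, hfN, hfc⟩ := strip_poly l₀ l₁ hl μ F hF d hd
  have hfnh : nh f ≤ B * M := by
    refine le_trans ?_ hnh
    unfold nh
    exact gs_le (FS_log_NV hf0) (FS_log_NV hF) fun v _ =>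
      Real.log_le_log (NV_pos v hf0) (hfN v)
  have hfd' : ∀ i, (4 : ℝ) ^ j i * f.degreeOf i ≤ M := fun i => by
    refine le_trans (mul_le_mul_of_nonneg_left ?_ (by positivity)) (hdM i)
    exact_mod_cast hfd i
  rcases H j (fun i => - μ i l₁) f M hj hf0 hM hfd' hfnh with ⟨i, hi⟩ | ⟨a, ha1, ha2⟩
  · left
    refine ⟨i, ?_⟩
    rw [← logHeight₁_neg]
    exact hi
  · right
    obtain ⟨e, he1, he2⟩ := hfc a ha2
    obtain ⟨w, hw1, hw2⟩ := um_weight l₀ μ E hdet hE hμ F e he2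
    refine ⟨w, ?_, hw2⟩
    have h1 : ∑ i, (4 : ℝ) ^ j i * w (i, l₀) = ∑ i, (4 : ℝ) ^ j i * a i :=
      Finset.sum_congr rfl fun i _ => by rw [hw1, he1]
    rw [h1]
    exact ha1

end Pool.Agent.Lib.MP_17a322_nt.SL
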