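import Pool.Agent.Lib.MP_17a322_nt.SL.R1
import Pool.Agent.Lib.MP_17a322_nt.SL.R2
import Pool.Agent.Lib.MP_17a322_nt.VP.R2

/-!
Forms of small height: the auxiliary polynomial.
-/

universe u

namespace Pool.Agent.Lib.MP_17a322_nt.SL

open MvPolynomial Height
open Pool.Agent.Lib.MP_17a322_nt.RO
open Pool.Agent.Lib.MP_17a322_nt.VJ
open Pool.Agent.Lib.MP_17a322_nt.VN
open Pool.Agent.Lib.MP_17a322_nt.VP

/-- The exponent attached to a family of multi-indices. -/
noncomputable def ex {m q : ℕ} (u : Fin m → Fin (q + 1) → ℕ) : Fin m × Fin (q + 1) →₀ ℕ :=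
  Finsupp.equivFunOnFinite.symm fun p => u p.1 p.2

theorem ex_apply {m q : ℕ} (u : Fin m → Fin (q + 1) → ℕ) (p : Fin m × Fin (q + 1)) :
    ex u p = u p.1 p.2 := rfl

theorem ex_inj {m q : ℕ} {u u' : Fin m → Fin (q + 1) → ℕ} (h : ex u = ex u') : u = u' := by
  funext i l
  exact DFunLike.congr_fun h (i, l)

theorem ex_self {m q : ℕ} (w : Fin m × Fin (q + 1) →₀ ℕ) : ex (fun i l => w (i, l)) = w :=
  Finsupp.ext fun _ => rfl

/-- The number of monomials. -/
theorem card_mon_le {m q : ℕ} (d : Fin m → ℕ) :
    Real.log (Fintype.piFinset fun i =>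
      Finset.piAntidiag (Finset.univ : Finset (Fin (q + 1))) (d i)).card ≤
      (q + 1) * ∑ i, (d i : ℝ) := by
  classical
  have h1 : ∀ i, (Finset.piAntidiag (Finset.univ : Finset (Fin (q + 1))) (d i)).card ≤
      (d i + 1) ^ (q + 1) := by
    intro i
    have h2 : Finset.piAntidiag (Finset.univ : Finset (Fin (q + 1))) (d i) ⊆
        Fintype.piFinset fun _ => Finset.range (d i + 1) := by
      intro u hu
      rw [Finset.mem_piAntidiag] at hu
      rw [Fintype.mem_piFinset]
      intro k
      rw [Finset.mem_range, Nat.lt_succ_iff, ← hu.1]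
      exact Finset.single_le_sum (f := u) (fun _ _ => Nat.zero_le _) (Finset.mem_univ k)
    refine (Finset.card_le_card h2).trans (le_of_eq ?_)
    rw [Fintype.card_piFinset, Finset.prod_const, Finset.card_univ, Fintype.card_fin,
      Finset.card_range]
  have hpos : ∀ i, 0 < (Finset.piAntidiag (Finset.univ : Finset (Fin (q + 1))) (d i)).card := by
    intro i
    refine Finset.card_pos.2 ⟨Pi.single 0 (d i), ?_⟩
    rw [Finset.mem_piAntidiag]
    refine ⟨?_, fun _ _ => Finset.mem_univ _⟩
    exact Fintype.sum_pi_single' 0 (d i)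
  rw [Fintype.card_piFinset, Nat.cast_prod, Real.log_prod (fun i _ => by
    have := hpos i
    positivity), Finset.mul_sum]
  refine Finset.sum_le_sum fun i _ => ?_
  have h3 : Real.log ((Finset.piAntidiag (Finset.univ : Finset (Fin (q + 1))) (d i)).card : ℝ) ≤
      Real.log (((d i : ℝ) + 1) ^ (q + 1)) := by
    refine Real.log_le_log (by exact_mod_cast hpos i) ?_
    exact_mod_cast h1 i
  refine h3.trans ?_
  rw [Real.log_pow]
  have h := Real.log_le_sub_one_of_pos (show (0 : ℝ) < (d i : ℝ) + 1 by positivity)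
  push_cast
  refine mul_le_mul_of_nonneg_left ?_ (by positivity)
  linarith

/-- The auxiliary polynomial. -/
theorem RM_aux (K : Type u) [Field K] [NumberField K] (m q : ℕ) :
    ∃ C : ℝ, 0 ≤ C ∧ ∀ (Λ : Type) [Fintype Λ] (δ : ℝ), 0 < δ →
      2 * ((Fintype.card Λ : ℝ) * (q + 1)) ≤ m * δ ^ 2 →
      ∀ (d : Fin m → ℕ), (∀ i, 0 < d i) →
      ∀ A : Λ → Fin m → Matrix (Fin (q + 1)) (Fin (q + 1)) K,
      (∀ l i, ∃ p : Fin (q + 1) × Fin (q + 1), A l i p.1 p.2 = 1) →
      ∃ F : MvPolynomial (Fin m × Fin (q + 1)) K, F ≠ 0 ∧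
        (∀ w ∈ F.support, ∀ i, ∑ l, w (i, l) = d i) ∧
        nh F ≤ C * (1 + ∑ i, (d i : ℝ)) + ∑ l, ∑ i, (d i : ℝ) *
          logHeight (fun p : Fin (q + 1) × Fin (q + 1) => A l i p.1 p.2) ∧
        ∀ (l : Λ) (w : Fin m × Fin (q + 1) →₀ ℕ) (k : Fin (q + 1)),
          (∀ i, ∑ k', w (i, k') = d i) →
          (∑ i, (w (i, k) : ℝ) / d i) < (1 / (q + 1) - δ) * m →
          coeff w (sbm (A l) F) = 0 := by
  classical
  obtain ⟨c, hC0, hC⟩ := siegel K
  refine ⟨2 * c + totalWeight K * Real.log (q + 1) + (totalWeight K + c) * (q + 1), by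
    have : 0 ≤ Real.log ((q : ℝ) + 1) := Real.log_nonneg (by
      have : (0 : ℝ) ≤ q := Nat.cast_nonneg q
      linarith)
    positivity, ?_⟩
  intro Λ _ δ hδ hr d hd A hA1
  obtain ⟨T, hT⟩ : ∃ T : Finset (Fin m → Fin (q + 1) → ℕ),
      T = Fintype.piFinset fun i => Finset.piAntidiag (Finset.univ : Finset (Fin (q + 1))) (d i) :=
    ⟨_, rfl⟩
  obtain ⟨T', hT'⟩ : ∃ T' : Finset (Fin m → Fin (q + 1) → ℕ), T' =
      T.filter fun u => ∃ k, ∑ i, (u i k : ℝ) / d i < (1 / (q + 1) - δ) * m := ⟨_, rfl⟩
  have hTmem : ∀ u : Fin m → Fin (q + 1) → ℕ, u ∈ T ↔ ∀ i, ∑ l, u i l = d i := fun u => by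
    rw [hT, Fintype.mem_piFinset]
    refine forall_congr' fun i => ?_
    rw [Finset.mem_piAntidiag]
    exact ⟨fun h => h.1, fun h => ⟨h, fun _ _ => Finset.mem_univ _⟩⟩
  have hTc : (T.card : ℝ) = ∏ i,
      ((Finset.piAntidiag (Finset.univ : Finset (Fin (q + 1))) (d i)).card : ℝ) := by
    rw [hT, Fintype.card_piFinset]
    push_cast
    rfl
  have hTpos : (0 : ℝ) < T.card := by
    have h1 : 0 < T.card := by
      refine Finset.card_pos.2 ⟨fun i => Pi.single 0 (d i), ?_⟩
      rw [hTmem]
      intro i
      exact Fintype.sum_pi_single' 0 (d i)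
    exact_mod_cast h1
  -- count
  have hcount : 2 * ((Fintype.card Λ : ℝ) * T'.card) ≤ T.card := by
    have h1 : ∀ k : Fin (q + 1), (m : ℝ) * δ ^ 2 *
        (T.filter fun u => ∑ i, (u i k : ℝ) / d i < (1 / (q + 1) - δ) * m).card ≤ T.card := by
      intro k
      rw [hTc, hT]
      exact M_count' d hd δ hδ k
    have h2 : (T'.card : ℝ) ≤ ∑ k : Fin (q + 1),
        ((T.filter fun u => ∑ i, (u i k : ℝ) / d i < (1 / (q + 1) - δ) * m).card : ℝ) := by
      have h3 : T' = Finset.univ.biUnion fun k : Fin (q + 1) =>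
          T.filter fun u => ∑ i, (u i k : ℝ) / d i < (1 / (q + 1) - δ) * m := by
        refine Finset.ext fun u => ?_
        rw [hT', Finset.mem_filter, Finset.mem_biUnion]
        simp only [Finset.mem_filter, Finset.mem_univ, true_and]
        constructor
        · rintro ⟨h4, k, h5⟩
          exact ⟨k, h4, h5⟩
        · rintro ⟨k, h4, h5⟩
          exact ⟨h4, k, h5⟩
      rw [h3]
      exact_mod_cast Finset.card_biUnion_le
    have h3 : (m : ℝ) * δ ^ 2 * T'.card ≤ (q + 1) * T.card := by
      calc (m : ℝ) * δ ^ 2 * T'.card ≤ (m : ℝ) * δ ^ 2 * ∑ k : Fin (q + 1),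
          ((T.filter fun u => ∑ i, (u i k : ℝ) / d i < (1 / (q + 1) - δ) * m).card : ℝ) :=
            mul_le_mul_of_nonneg_left h2 (by positivity)
        _ ≤ ∑ _k : Fin (q + 1), (T.card : ℝ) := by
            rw [Finset.mul_sum]
            exact Finset.sum_le_sum fun k _ => h1 k
        _ = (q + 1) * T.card := by
            rw [Finset.sum_const, Finset.card_univ, Fintype.card_fin, nsmul_eq_mul]
            push_cast
            ring
    have h4 : 2 * ((Fintype.card Λ : ℝ) * (q + 1)) * T'.card ≤ m * δ ^ 2 * T'.card :=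
      mul_le_mul_of_nonneg_right hr (by positivity)
    have h5 : (0 : ℝ) < (q : ℝ) + 1 := by positivity
    refine le_of_mul_le_mul_left ?_ h5
    linarith
  let α := Λ × {u // u ∈ T'}
  let β := {u // u ∈ T}
  have hα : Fintype.card α = Fintype.card Λ * T'.card := by
    rw [Fintype.card_prod, Fintype.card_coe]
  have hβ : Fintype.card β = T.card := Fintype.card_coe _
  have hcount' : 2 * Fintype.card α ≤ Fintype.card β := by
    rw [hα, hβ]
    exact_mod_cast hcount
  have hβpos : 0 < Fintype.card β := by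
    rw [hβ]
    exact_mod_cast hTpos
  obtain ⟨S, hS⟩ : ∃ S : Matrix α β K, ∀ (a : α) (b : β), S a b =
      coeff (ex (a.2 : Fin m → Fin (q + 1) → ℕ)) (sbm (A a.1)
        (monomial (ex (b : Fin m → Fin (q + 1) → ℕ)) (1 : K))) :=
    ⟨fun a b => _, fun a b => rfl⟩
  obtain ⟨x, hx0, hAx, hx⟩ := hC α β S (by omega)
  obtain ⟨F, hF⟩ : ∃ F : MvPolynomial (Fin m × Fin (q + 1)) K, F =
      ∑ b : β, monomial (ex (b : Fin m → Fin (q + 1) → ℕ)) (x b) := ⟨_, rfl⟩
  have hcoef : ∀ b : β, coeff (ex (b : Fin m → Fin (q + 1) → ℕ)) F = x b := by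
    intro b
    rw [hF, coeff_sum, Finset.sum_eq_single b]
    · rw [coeff_monomial, if_pos rfl]
    · intro b' _ hb'
      rw [coeff_monomial, if_neg]
      intro h
      exact hb' (Subtype.ext (ex_inj h))
    · intro h
      exact absurd (Finset.mem_univ b) h
  have hcoef' : ∀ w : Fin m × Fin (q + 1) →₀ ℕ, coeff w F = 0 ∨ ∃ b : β, coeff w F = x b ∧
      w = ex (b : Fin m → Fin (q + 1) → ℕ) := by
    intro w
    by_cases hw : (fun i l => w (i, l)) ∈ T
    · right
      refine ⟨⟨_, hw⟩, ?_, (ex_self w).symm⟩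
      rw [← hcoef]
      exact congrArg (fun z => coeff z F) (ex_self w).symm
    · left
      rw [hF, coeff_sum]
      refine Finset.sum_eq_zero fun b _ => ?_
      rw [coeff_monomial, if_neg]
      intro h
      apply hw
      rw [← h]
      exact b.2
  have hF0 : F ≠ 0 := by
    intro h0
    apply hx0
    funext b
    rw [← hcoef b, h0, coeff_zero]
    rfl
  have hhom : ∀ w ∈ F.support, ∀ i, ∑ l, w (i, l) = d i := by
    intro w hw i
    rw [mem_support_iff] at hw
    rcases hcoef' w with h | ⟨b, -, h⟩
    · exact absurd h hw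
    · rw [h]
      exact (hTmem _).1 b.2 i
  refine ⟨F, hF0, hhom, ?_, ?_⟩
  · -- the height
    have hlogT : Real.log (T.card : ℝ) ≤ (q + 1) * ∑ i, (d i : ℝ) := by
      rw [hT]
      exact card_mon_le d
    have hd0 : (0 : ℝ) ≤ ∑ i, (d i : ℝ) := Finset.sum_nonneg fun i _ => Nat.cast_nonneg _
    have hT1 : 1 ≤ T.card := by exact_mod_cast hTpos
    -- the height of `F` is bounded by that of `x`
    have hxi : ∀ (v : AbsoluteValue K ℝ) (b : β), v (x b) ≤ ⨆ b, v (x b) := fun v b =>
      le_ciSup (f := fun b => v (x b)) (Set.finite_range _).bddAbove b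
    have hxpos : ∀ v : AbsoluteValue K ℝ, 0 < ⨆ b, v (x b) := by
      intro v
      obtain ⟨b, hb⟩ : ∃ b, x b ≠ 0 := by
        by_contra hcon
        push Not at hcon
        exact hx0 (funext hcon)
      exact (v.pos hb).trans_le (hxi v b)
    have hFx : nh F ≤ totalWeight K * Real.log T.card + logHeight x := by
      have h1 : ∀ v : AbsoluteValue K ℝ, Real.log (NV v F) ≤
          Real.log (cst v T.card) + Real.log (⨆ b, v (x b)) := by
        intro v
        have h2 : F.support.card ≤ T.card := by
          have h3 : F.support ⊆ T.image ex := by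
            intro w hw
            rw [Finset.mem_image]
            rcases hcoef' w with h | ⟨b, -, h⟩
            · exact absurd h (mem_support_iff.1 hw)
            · exact ⟨b, b.2, h.symm⟩
          exact (Finset.card_le_card h3).trans Finset.card_image_le
        have h3 : NV v F ≤ cst v F.support.card * ⨆ b, v (x b) := by
          refine NV_le_of_coeff v F (hxpos v).le fun w => ?_
          rcases hcoef' w with h | ⟨b, h, -⟩
          · rw [h, map_zero]
            exact (hxpos v).le
          · rw [h]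
            exact hxi v b
        have h4 : NV v F ≤ cst v T.card * ⨆ b, v (x b) :=
          h3.trans (mul_le_mul_of_nonneg_right (cst_mono v h2) (hxpos v).le)
        rw [← Real.log_mul (one_pos.trans_le (one_le_cst v hT1)).ne' (hxpos v).ne']
        exact Real.log_le_log (NV_pos v hF0) h4
      unfold nh
      refine (gs_le (FS_log_NV hF0) (FS_add (FS_log_cst _) (FS_log_iSup hx0)) fun v _ => h1 v).trans ?_
      rw [gs_add (FS_log_cst _) (FS_log_iSup hx0), gs_log_iSup hx0]
      exact add_le_add_left (gs_log_cst hT1) _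
    -- the matrices
    have hAne : ∀ l i, (fun p : Fin (q + 1) × Fin (q + 1) => A l i p.1 p.2) ≠ 0 := by
      intro l i h0
      obtain ⟨p, hp⟩ := hA1 l i
      have h1 : A l i p.1 p.2 = 0 := congrFun h0 p
      rw [hp] at h1
      exact one_ne_zero h1
    obtain ⟨b, hb⟩ : ∃ b : AbsoluteValue K ℝ → Λ → Fin m → ℝ, ∀ v l i, b v l i =
        ⨆ p : Fin (q + 1) × Fin (q + 1), v (A l i p.1 p.2) := ⟨_, fun _ _ _ => rfl⟩
    have hbA : ∀ v l i k k', v (A l i k k') ≤ b v l i := fun v l i k k' => by
      rw [hb]
      exact le_ciSup (f := fun p : Fin (q + 1) × Fin (q + 1) => v (A l i p.1 p.2))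
        (Set.finite_range _).bddAbove (k, k')
    have hb1 : ∀ v l i, 1 ≤ b v l i := fun v l i => by
      obtain ⟨p, hp⟩ := hA1 l i
      have h1 := hbA v l i p.1 p.2
      rw [hp, map_one] at h1
      exact h1
    -- the height of the matrix
    have hAb : logHeight (fun p : α × β => S p.1 p.2) ≤
        totalWeight K * (Real.log (q + 1) * ∑ i, (d i : ℝ)) + ∑ l, ∑ i, (d i : ℝ) *
          logHeight (fun p : Fin (q + 1) × Fin (q + 1) => A l i p.1 p.2) := by
      have hq1 : (1 : ℝ) ≤ (q : ℝ) + 1 := by
        have : (0 : ℝ) ≤ q := Nat.cast_nonneg q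
        linarith
      have hlq : 0 ≤ Real.log ((q : ℝ) + 1) := Real.log_nonneg hq1
      have hR0 : 0 ≤ ∑ l, ∑ i, (d i : ℝ) *
          logHeight (fun p : Fin (q + 1) × Fin (q + 1) => A l i p.1 p.2) :=
        Finset.sum_nonneg fun l _ => Finset.sum_nonneg fun i _ =>
          mul_nonneg (Nat.cast_nonneg _) (logHeight_nonneg _)
      by_cases hA0 : (fun p : α × β => S p.1 p.2) = 0
      · rw [hA0, logHeight_zero]
        positivity
      · have hFSb : ∀ l i, FS (fun v : AbsoluteValue K ℝ => Real.log (b v l i)) := by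
          intro l i
          simp only [hb]
          exact FS_log_iSup (hAne l i)
        have hFS1 : FS (fun v : AbsoluteValue K ℝ =>
            (∑ i, (d i : ℝ)) * Real.log (cst v (q + 1))) := FS_const_mul _ (FS_log_cst (q + 1))
        have hFS2 : FS (fun v : AbsoluteValue K ℝ =>
            ∑ l, ∑ i, (d i : ℝ) * Real.log (b v l i)) :=
          FS_sum _ fun l _ => FS_sum _ fun i _ => FS_const_mul _ (hFSb l i)
        rw [← gs_log_iSup hA0]
        refine (gs_le (FS_log_iSup hA0) (FS_add hFS1 hFS2) fun v _ => ?_).trans ?_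
        · have hent : ∀ p : α × β, v (S p.1 p.2) ≤
              Real.exp ((∑ i, (d i : ℝ)) * Real.log (cst v (q + 1)) +
                ∑ l, ∑ i, (d i : ℝ) * Real.log (b v l i)) := by
            intro p
            have hc2 : 1 ≤ cst v (q + 1) := one_le_cst v (by omega)
            have h2 : ∏ i, (cst v (q + 1) * b v p.1.1 i) ^ d i =
                Real.exp ((∑ i, (d i : ℝ)) * Real.log (cst v (q + 1)) +
                  ∑ i, (d i : ℝ) * Real.log (b v p.1.1 i)) := by
              have h4 : ∀ i, (cst v (q + 1) * b v p.1.1 i) ^ d i =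
                  Real.exp ((d i : ℝ) * Real.log (cst v (q + 1)) +
                    (d i : ℝ) * Real.log (b v p.1.1 i)) := by
                intro i
                have h5 : 0 < b v p.1.1 i := one_pos.trans_le (hb1 v p.1.1 i)
                rw [← mul_add, ← Real.log_mul (one_pos.trans_le hc2).ne' h5.ne',
                  Real.exp_nat_mul, Real.exp_log (mul_pos (one_pos.trans_le hc2) h5)]
              rw [Finset.prod_congr rfl fun i _ => h4 i, ← Real.exp_sum, Finset.sum_add_distrib,
                ← Finset.sum_mul]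
            have h1 : v (S p.1 p.2) ≤ 1 * ∏ i, (cst v (q + 1) * b v p.1.1 i) ^ d i := by
              rw [hS]
              refine (A2_coeff_le v _ _).trans ?_
              have h3 := sbm_NV_le v (A p.1.1)
                (monomial (ex (p.2 : Fin m → Fin (q + 1) → ℕ)) (1 : K)) (b v p.1.1)
                (fun i => zero_le_one.trans (hb1 v _ i)) (fun i l k => hbA v p.1.1 i l k)
                (M := ∏ i, (cst v (q + 1) * b v p.1.1 i) ^ d i)
                (Finset.prod_nonneg fun i _ => pow_nonneg (mul_nonneg (cst_nonneg v _)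
                  (zero_le_one.trans (hb1 v _ i))) _) fun w hw => by
                  rw [mem_support_iff, coeff_monomial] at hw
                  have h3 : ex (p.2 : Fin m → Fin (q + 1) → ℕ) = w := by
                    by_contra hcon
                    exact hw (if_neg hcon)
                  rw [← h3, Fintype.card_fin, Fintype.prod_prod_type]
                  refine Finset.prod_le_prod (fun i _ => Finset.prod_nonneg fun l _ =>
                    pow_nonneg (mul_nonneg (cst_nonneg v _) (zero_le_one.trans (hb1 v _ i))) _)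
                    fun i _ => le_of_eq ?_
                  have h4 := Finset.prod_pow_eq_pow_sum Finset.univ
                    (fun l => (p.2 : Fin m → Fin (q + 1) → ℕ) i l)
                    (cst v (q + 1) * b v p.1.1 i)
                  rw [(hTmem _).1 p.2.2 i] at h4
                  exact h4
              rw [NV_monomial, v.map_one] at h3
              exact h3
            rw [one_mul, h2] at h1
            refine h1.trans (Real.exp_le_exp.2 (add_le_add_right ?_ _))
            exact Finset.single_le_sum (f := fun l => ∑ i, (d i : ℝ) * Real.log (b v l i))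
              (fun l _ => Finset.sum_nonneg fun i _ => mul_nonneg (Nat.cast_nonneg _)
                (Real.log_nonneg (hb1 v l i))) (Finset.mem_univ p.1.1)
          have hpos : 0 < ⨆ p : α × β, v (S p.1 p.2) := by
            obtain ⟨p, hp⟩ : ∃ p : α × β, S p.1 p.2 ≠ 0 := by
              by_contra hcon
              push Not at hcon
              exact hA0 (funext hcon)
            exact (v.pos hp).trans_le (le_ciSup (f := fun p : α × β => v (S p.1 p.2))
              (Set.finite_range _).bddAbove p)
          rw [← Real.log_exp ((∑ i, (d i : ℝ)) * Real.log (cst v (q + 1)) +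
                ∑ l, ∑ i, (d i : ℝ) * Real.log (b v l i))]
          refine Real.log_le_log hpos (Real.iSup_le hent (Real.exp_pos _).le)
        · rw [gs_add hFS1 hFS2, gs_const_mul, gs_sum _ fun l _ =>
            FS_sum _ fun i _ => FS_const_mul _ (hFSb l i)]
          refine add_le_add ?_ (Finset.sum_le_sum fun l _ => ?_)
          · have h1 := gs_log_cst (L := K) (n := q + 1) (by omega)
            push_cast at h1
            calc (∑ i, (d i : ℝ)) * gs (fun v : AbsoluteValue K ℝ => Real.log (cst v (q + 1)))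
                ≤ (∑ i, (d i : ℝ)) * (totalWeight K * Real.log (q + 1)) :=
                  mul_le_mul_of_nonneg_left h1 hd0
              _ = _ := by ring
          · rw [gs_sum _ fun i _ => FS_const_mul _ (hFSb l i)]
            refine Finset.sum_le_sum fun i _ => ?_
            rw [gs_const_mul, ← gs_log_iSup (hAne l i)]
            simp only [hb]
            exact le_refl _
    have hfrac : (Fintype.card α : ℝ) / (Fintype.card β - Fintype.card α : ℝ) ≤ 1 := by
      have h1 : (2 : ℝ) * Fintype.card α ≤ Fintype.card β := by exact_mod_cast hcount'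
      have h2 : (0 : ℝ) < Fintype.card β := by exact_mod_cast hβpos
      rw [div_le_one (by linarith)]
      linarith
    have hnn : 0 ≤ logHeight (fun p : α × β => S p.1 p.2) + c + c * Real.log (Fintype.card β) := by
      have := logHeight_nonneg (fun p : α × β => S p.1 p.2)
      have := Real.log_natCast_nonneg (Fintype.card β)
      positivity
    have hx2 : logHeight x ≤ c + (logHeight (fun p : α × β => S p.1 p.2) + c +
        c * Real.log (Fintype.card β)) := by
      refine hx.trans (add_le_add_right ?_ _)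
      exact mul_le_of_le_one_left hnn hfrac
    rw [hβ] at hx2
    have h5 : c * Real.log (T.card : ℝ) ≤ c * ((q + 1) * ∑ i, (d i : ℝ)) :=
      mul_le_mul_of_nonneg_left hlogT hC0
    have h6 : (totalWeight K : ℝ) * Real.log (T.card : ℝ) ≤
        totalWeight K * ((q + 1) * ∑ i, (d i : ℝ)) :=
      mul_le_mul_of_nonneg_left hlogT (Nat.cast_nonneg _)
    have hlq : 0 ≤ Real.log ((q : ℝ) + 1) := Real.log_nonneg (by
      have : (0 : ℝ) ≤ q := Nat.cast_nonneg q
      linarith)
    have h7 : 0 ≤ (totalWeight K + c) * ((q : ℝ) + 1) := by positivity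
    have h8 : 0 ≤ c * ∑ i, (d i : ℝ) := by positivity
    have h9 : 0 ≤ (totalWeight K : ℝ) * Real.log ((q : ℝ) + 1) := by positivity
    have h10 : (2 * c + totalWeight K * Real.log (q + 1) + (totalWeight K + c) * (q + 1)) *
        (1 + ∑ i, (d i : ℝ)) = 2 * c + totalWeight K * Real.log (q + 1) +
        (totalWeight K + c) * (q + 1) + 2 * (c * ∑ i, (d i : ℝ)) +
        totalWeight K * (Real.log (q + 1) * ∑ i, (d i : ℝ)) +
        (totalWeight K * ((q + 1) * ∑ i, (d i : ℝ)) + c * ((q + 1) * ∑ i, (d i : ℝ))) := by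
      ring
    rw [h10]
    linarith
  · intro l w k hwd hw
    have hwT : (fun i l => w (i, l)) ∈ T := by
      rw [hTmem]
      exact hwd
    have hwT' : (fun i l => w (i, l)) ∈ T' := by
      rw [hT', Finset.mem_filter]
      exact ⟨hwT, k, hw⟩
    have h1 := congrFun hAx (l, ⟨_, hwT'⟩)
    have h2 : sbm (A l) F = ∑ b : β, C (x b) * sbm (A l)
        (monomial (ex (b : Fin m → Fin (q + 1) → ℕ)) (1 : K)) := by
      have h3 : sbm (A l) F = ∑ b : β, sbm (A l)
          (monomial (ex (b : Fin m → Fin (q + 1) → ℕ)) (x b)) := by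
        rw [hF]
        unfold sbm
        rw [map_sum]
      rw [h3]
      refine Finset.sum_congr rfl fun b _ => ?_
      rw [← sbm_C_mul, C_mul_monomial, mul_one]
    rw [h2, coeff_sum]
    have h3 : ∑ b : β, S (l, ⟨_, hwT'⟩) b * x b = 0 := h1
    rw [← h3]
    refine Finset.sum_congr rfl fun b _ => ?_
    rw [coeff_C_mul, hS, mul_comm]
    exact congrArg (fun z => coeff z (sbm (A l)
      (monomial (ex (b : Fin m → Fin (q + 1) → ℕ)) (1 : K))) * x b) (ex_self w).symm

end Pool.Agent.Lib.MP_17a322_nt.SL
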