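import Pool.Agent.Lib.MP_17a322_nt.SL.R5
import Pool.Agent.Lib.MP_17a322_nt.VP.R4

/-!
Forms of small height: local estimates and the product formula.
-/

universe u

namespace Pool.Agent.Lib.MP_17a322_nt.SL

open MvPolynomial Height
open Pool.Agent.Lib.MP_17a322_nt.RO
open Pool.Agent.Lib.MP_17a322_nt.VJ
open Pool.Agent.Lib.MP_17a322_nt.VN
open Pool.Agent.Lib.MP_17a322_nt.VP

/-- The exponents are nearly equidistributed. -/
theorem RM_typ {m q : ℕ} (d : Fin m → ℕ) (hd0 : ∀ i, 0 < d i) (W H : Fin m → ℝ)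
    (h₀ M η δ : ℝ) (hh₀ : 0 ≤ h₀) (hM : 0 ≤ M) (hη : 0 ≤ η) (hη1 : η ≤ 1) (hδ : 0 ≤ δ)
    (hWH : ∀ i, H i = W i * h₀) (hdM : ∀ i, (d i : ℝ) * W i ≤ M)
    (hdM' : ∀ i, (1 - η) * M ≤ d i * W i) (c : Fin (q + 1) → ℝ)
    (w : Fin m × Fin (q + 1) →₀ ℕ) (hw : ∀ i, ∑ l, w (i, l) = d i)
    (hw2 : ∀ k, (1 / (q + 1) - δ) * m ≤ ∑ i, (w (i, k) : ℝ) / d i) :
    - ∑ p : Fin m × Fin (q + 1), c p.2 * H p.1 * w p ≤
      h₀ * M * m * (- (∑ l, c l) / (q + 1) + (q + 1) * (η + δ) * ∑ l, |c l|) := by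
  obtain ⟨X, hX⟩ : ∃ X : Fin (q + 1) → ℝ, ∀ l, X l = ∑ i, H i * w (i, l) := ⟨_, fun _ => rfl⟩
  obtain ⟨Z, hZ⟩ : ∃ Z : ℝ, Z = h₀ * M * m := ⟨_, rfl⟩
  have hZ0 : 0 ≤ Z := by
    rw [hZ]
    positivity
  have hq0 : (0 : ℝ) < (q : ℝ) + 1 := by positivity
  have hq1 : (1 : ℝ) / (q + 1) ≤ 1 := by
    rw [div_le_one hq0]
    have : (0 : ℝ) ≤ q := Nat.cast_nonneg q
    linarith
  have hlow : ∀ l, Z * (1 / (q + 1) - (η + δ)) ≤ X l := by
    intro l
    have h1 : ∀ i, (1 - η) * M * ((w (i, l) : ℝ) / d i) ≤ W i * w (i, l) := by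
      intro i
      have h2 := hdM' i
      have hdi : (0 : ℝ) < d i := by exact_mod_cast hd0 i
      have h3 : (0 : ℝ) ≤ (w (i, l) : ℝ) / d i := by positivity
      calc (1 - η) * M * ((w (i, l) : ℝ) / d i) ≤ (d i * W i) * ((w (i, l) : ℝ) / d i) :=
            mul_le_mul_of_nonneg_right h2 h3
        _ = W i * w (i, l) := by
            field_simp
    have h2 : (1 - η) * M * ((1 / (q + 1) - δ) * m) ≤ ∑ i, W i * w (i, l) := by
      have h3 : (1 - η) * M * ((1 / (q + 1) - δ) * m) ≤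
          (1 - η) * M * ∑ i, (w (i, l) : ℝ) / d i :=
        mul_le_mul_of_nonneg_left (hw2 l) (mul_nonneg (by linarith) hM)
      rw [Finset.mul_sum] at h3
      exact h3.trans (Finset.sum_le_sum fun i _ => h1 i)
    have h3 : X l = h₀ * ∑ i, W i * w (i, l) := by
      rw [hX, Finset.mul_sum]
      refine Finset.sum_congr rfl fun i _ => ?_
      rw [hWH]
      ring
    rw [h3]
    refine le_trans ?_ (mul_le_mul_of_nonneg_left h2 hh₀)
    have h4 : 1 / (q + 1) - (η + δ) ≤ (1 - η) * (1 / (q + 1) - δ) := by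
      have h5 : 0 ≤ η * δ := mul_nonneg hη hδ
      have h6 : η * (1 / (q + 1)) ≤ η * 1 := mul_le_mul_of_nonneg_left hq1 hη
      nlinarith
    have h5 := mul_le_mul_of_nonneg_left h4 hZ0
    rw [hZ] at h5 ⊢
    refine h5.trans (le_of_eq ?_)
    ring
  have hsum : ∑ l, X l ≤ Z := by
    have h1 : ∑ l, X l = ∑ i, H i * d i := by
      simp only [hX]
      rw [Finset.sum_comm]
      refine Finset.sum_congr rfl fun i _ => ?_
      rw [← Finset.mul_sum, ← hw i]
      push_cast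
      rfl
    have h2 : ∀ i, H i * d i ≤ h₀ * M := by
      intro i
      rw [hWH]
      calc W i * h₀ * d i = h₀ * (d i * W i) := by ring
        _ ≤ h₀ * M := mul_le_mul_of_nonneg_left (hdM i) hh₀
    rw [h1, hZ]
    refine (Finset.sum_le_sum fun i _ => h2 i).trans (le_of_eq ?_)
    rw [Finset.sum_const, Finset.card_univ, Fintype.card_fin, nsmul_eq_mul]
    ring
  have hup : ∀ l, X l ≤ Z * (1 / (q + 1) + q * (η + δ)) := by
    intro l
    rw [← Finset.add_sum_erase _ _ (Finset.mem_univ l)] at hsum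
    have h1 : ∑ l' ∈ Finset.univ.erase l, Z * (1 / (q + 1) - (η + δ)) ≤
        ∑ l' ∈ Finset.univ.erase l, X l' := Finset.sum_le_sum fun l' _ => hlow l'
    rw [Finset.sum_const, Finset.card_erase_of_mem (Finset.mem_univ l), Finset.card_univ,
      Fintype.card_fin, nsmul_eq_mul, Nat.add_sub_cancel] at h1
    have h2 : Z * (1 / (q + 1) + q * (η + δ)) = Z - q * (Z * (1 / (q + 1) - (η + δ))) := by
      field_simp
      ring
    rw [h2]
    linarith
  have habs : ∀ l, |X l - Z / (q + 1)| ≤ Z * ((q + 1) * (η + δ)) := by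
    intro l
    have h1 := hlow l
    have h2 := hup l
    have h3 : Z * (1 / (q + 1) - (η + δ)) = Z / (q + 1) - Z * (η + δ) := by ring
    have h4 : Z * (1 / (q + 1) + q * (η + δ)) = Z / (q + 1) + Z * (q * (η + δ)) := by ring
    have h5 : 0 ≤ Z * (η + δ) := mul_nonneg hZ0 (by linarith)
    have h6 : 0 ≤ Z * (q * (η + δ)) :=
      mul_nonneg hZ0 (mul_nonneg (Nat.cast_nonneg q) (by linarith))
    have h7 : Z * ((q + 1) * (η + δ)) = Z * (q * (η + δ)) + Z * (η + δ) := by ring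
    rw [abs_le]
    constructor <;> linarith
  have h1 : - ∑ p : Fin m × Fin (q + 1), c p.2 * H p.1 * w p = ∑ l, - (c l * X l) := by
    rw [Fintype.sum_prod_type, Finset.sum_comm, ← Finset.sum_neg_distrib]
    refine Finset.sum_congr rfl fun l _ => ?_
    rw [hX, Finset.mul_sum]
    congr 1
    refine Finset.sum_congr rfl fun i _ => ?_
    ring
  have h2 : ∀ l, - (c l * X l) ≤ - (c l * (Z / (q + 1))) + |c l| * (Z * ((q + 1) * (η + δ))) := by
    intro l
    have h3 : - (c l * X l) = - (c l * (Z / (q + 1))) + - (c l * (X l - Z / (q + 1))) := by ring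
    rw [h3]
    refine add_le_add_right ?_ _
    refine (neg_le_abs _).trans ?_
    rw [abs_mul]
    exact mul_le_mul_of_nonneg_left (habs l) (abs_nonneg _)
  rw [h1]
  refine (Finset.sum_le_sum fun l _ => h2 l).trans (le_of_eq ?_)
  rw [Finset.sum_add_distrib, Finset.sum_neg_distrib, ← Finset.sum_mul, ← Finset.sum_mul, ← hZ]
  ring

section

variable {K : Type*} [Field K] {m q : ℕ}

theorem RM_hom (B : Fin m → Matrix (Fin (q + 1)) (Fin (q + 1)) K)
    (F : MvPolynomial (Fin m × Fin (q + 1)) K) (d : Fin m → ℕ)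
    (hd : ∀ w ∈ F.support, ∀ i, ∑ l, w (i, l) = d i) (e : Fin m × Fin (q + 1) →₀ ℕ)
    (he : coeff e (sbm B F) ≠ 0) (i : Fin m) : ∑ l, e (i, l) = d i := by
  classical
  obtain ⟨wt, hwt⟩ : ∃ wt : Fin m × Fin (q + 1) → (Fin m → ℕ), ∀ p, wt p = Pi.single p.1 1 :=
    ⟨_, fun _ => rfl⟩
  have hw : ∀ w : Fin m × Fin (q + 1) →₀ ℕ, Finsupp.weight wt w i = ∑ l, w (i, l) := by
    intro w
    rw [Finsupp.weight_apply, Finsupp.sum_fintype _ _ (fun p => by rw [zero_smul]),
      Finset.sum_apply, Fintype.sum_prod_type, Finset.sum_eq_single i]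
    · refine Finset.sum_congr rfl fun l _ => ?_
      rw [hwt, Pi.smul_apply, Pi.single_eq_same, smul_eq_mul, mul_one]
    · intro i' _ hi
      refine Finset.sum_eq_zero fun l _ => ?_
      rw [hwt, Pi.smul_apply, Pi.single_eq_of_ne (Ne.symm hi), smul_zero]
    · intro h
      exact absurd (Finset.mem_univ _) h
  obtain ⟨w, hw1, hw2⟩ := sbm_weight wt B (fun i l k _ => by rw [hwt, hwt]) F e he
  rw [← hw e, ← hw2, hw w]
  exact hd w hw1 i

/-- The local estimate for the forms. -/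
theorem RM_loc (v : AbsoluteValue K ℝ) (F : MvPolynomial (Fin m × Fin (q + 1)) K)
    (d : Fin m → ℕ) (hm : 0 < m) (hd : ∀ w ∈ F.support, ∀ i, ∑ l, w (i, l) = d i)
    (A N E : Fin m → Matrix (Fin (q + 1)) (Fin (q + 1)) K) (hAN : ∀ i, A i * N i = 1)
    (b : Fin m → ℝ) (hb : ∀ i, 0 < b i) (hA : ∀ i l k, v (A i l k) ≤ b i)
    (c : Fin (q + 1) → ℝ) (H : Fin m → ℝ) (σ : Fin m → Fin (q + 1) → ℝ)
    (hNE : ∀ i l k, v ((N i * E i) l k) ≤ Real.exp (σ i k - c l * H i)) (X : ℝ)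
    (hX : ∀ w : Fin m × Fin (q + 1) →₀ ℕ, (∀ i, ∑ l, w (i, l) = d i) →
      coeff w (sbm A F) ≠ 0 → - ∑ p : Fin m × Fin (q + 1), c p.2 * H p.1 * w p ≤ X)
    (e : Fin m × Fin (q + 1) →₀ ℕ) :
    v (coeff e (sbm E F)) ≤ NV v F * Real.exp ((∑ i, (d i : ℝ)) * Real.log (cst v (q + 1)) +
      ∑ i, (d i : ℝ) * Real.log (b i) + (∑ i, (d i : ℝ)) * Real.log (cst v (m * (q + 1))) + X +
      ∑ p : Fin m × Fin (q + 1), σ p.1 p.2 * e p) := by
  classical
  have hcard : Fintype.card (Fin m × Fin (q + 1)) = m * (q + 1) := by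
    rw [Fintype.card_prod, Fintype.card_fin, Fintype.card_fin]
  have hn1 : 1 ≤ m * (q + 1) := Nat.succ_le_of_lt (by positivity)
  have hc1 : 0 < cst v (q + 1) := one_pos.trans_le (one_le_cst v (by omega))
  have hc2 : 0 < cst v (m * (q + 1)) := one_pos.trans_le (one_le_cst v hn1)
  have hEA : sbm E F = sbm (fun i => N i * E i) (sbm A F) := by
    rw [sbm_sbm]
    congr 1
    funext i
    rw [← Matrix.mul_assoc, hAN, Matrix.one_mul]
  rw [hEA]
  have h1 := sbm_coeff_le v (fun i => N i * E i) (sbm A F)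
    (fun p => Real.exp (σ p.1 p.2)) (fun p => Real.exp (- (c p.2 * H p.1)))
    (fun p => Real.exp_pos _) (fun p => (Real.exp_pos _).le) (fun i l k => by
      rw [← Real.exp_add]
      exact (hNE i l k).trans (le_of_eq (by ring_nf)))
    (M := Real.exp ((∑ i, (d i : ℝ)) * Real.log (cst v (m * (q + 1))) + X))
    (Real.exp_pos _).le (fun w hw => by
      have hw0 := mem_support_iff.1 hw
      have hwd := RM_hom A F d hd w hw0
      have h2 := hX w hwd hw0
      have h3 : ∀ p : Fin m × Fin (q + 1),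
          (cst v (Fintype.card (Fin m × Fin (q + 1))) * Real.exp (- (c p.2 * H p.1))) ^ w p =
          Real.exp ((w p : ℝ) * Real.log (cst v (m * (q + 1))) - c p.2 * H p.1 * w p) := by
        intro p
        have h4 : cst v (m * (q + 1)) * Real.exp (- (c p.2 * H p.1)) =
            Real.exp (Real.log (cst v (m * (q + 1))) + - (c p.2 * H p.1)) := by
          rw [Real.exp_add, Real.exp_log hc2]
        rw [hcard, h4, ← Real.exp_nat_mul]
        congr 1
        ring
      rw [Finset.prod_congr rfl fun p _ => h3 p, ← Real.exp_sum]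
      refine Real.exp_le_exp.2 ?_
      rw [Finset.sum_sub_distrib, ← Finset.sum_mul, sub_eq_add_neg]
      have h4 : ∑ p : Fin m × Fin (q + 1), (w p : ℝ) = ∑ i, (d i : ℝ) := by
        rw [Fintype.sum_prod_type]
        refine Finset.sum_congr rfl fun i _ => ?_
        rw [← hwd i]
        push_cast
        rfl
      rw [h4]
      exact add_le_add_right h2 _) e
  have h2 := sbm_NV_le v A F b (fun i => (hb i).le) hA
    (M := Real.exp ((∑ i, (d i : ℝ)) * Real.log (cst v (q + 1)) +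
      ∑ i, (d i : ℝ) * Real.log (b i))) (Real.exp_pos _).le (fun w hw => by
      refine le_of_eq ?_
      have h3 : ∀ p : Fin m × Fin (q + 1), (cst v (Fintype.card (Fin (q + 1))) * b p.1) ^ w p =
          Real.exp ((w p : ℝ) * (Real.log (cst v (q + 1)) + Real.log (b p.1))) := by
        intro p
        rw [Fintype.card_fin, Real.exp_nat_mul, Real.exp_add, Real.exp_log hc1,
          Real.exp_log (hb p.1)]
      rw [Finset.prod_congr rfl fun p _ => h3 p, ← Real.exp_sum]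
      congr 1
      rw [Fintype.sum_prod_type, Finset.sum_mul, ← Finset.sum_add_distrib]
      refine Finset.sum_congr rfl fun i _ => ?_
      have h4 : ∑ l, (w (i, l) : ℝ) * (Real.log (cst v (q + 1)) + Real.log (b i)) =
          (∑ l, (w (i, l) : ℝ)) * (Real.log (cst v (q + 1)) + Real.log (b i)) := by
        rw [Finset.sum_mul]
      rw [← mul_add, ← hd w hw i, Nat.cast_sum]
      exact h4)
  have h3 : ∏ p : Fin m × Fin (q + 1), Real.exp (σ p.1 p.2) ^ e p =
      Real.exp (∑ p : Fin m × Fin (q + 1), σ p.1 p.2 * e p) := by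
    rw [Real.exp_sum]
    refine Finset.prod_congr rfl fun p _ => ?_
    rw [← Real.exp_nat_mul]
    congr 1
    ring
  rw [h3] at h1
  refine h1.trans ((mul_le_mul_of_nonneg_right h2 (by positivity)).trans (le_of_eq ?_))
  rw [mul_assoc, ← Real.exp_add, ← Real.exp_add]
  congr 2
  ring

end

end Pool.Agent.Lib.MP_17a322_nt.SL
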