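import Pool.Agent.Lib.MP_17a322_nt.SL.R4
import Pool.Agent.Lib.MP_17a322_nt.SL.R6
import Pool.Agent.Lib.MP_17a322_nt.VP.R6
import Pool.Agent.Lib.MP_17a322_nt.SL.Defs

/-!
Forms of small height: the numerical theorem.
-/

universe u

namespace Pool.Agent.Lib.MP_17a322_nt.SL

open MvPolynomial Height
open Pool.Agent.Lib.MP_17a322_nt.RO
open Pool.Agent.Lib.MP_17a322_nt.VJ
open Pool.Agent.Lib.MP_17a322_nt.VN
open Pool.Agent.Lib.MP_17a322_nt.VP

/-- The product formula. -/
theorem RM_prod {K : Type u} [Field K] [NumberField K] {σ : Type*} (F : MvPolynomial σ K)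
    (hF : F ≠ 0) (x : K) (hx : x ≠ 0) (g : AbsoluteValue K ℝ → ℝ) (hg : FS g)
    (h : ∀ v : AbsoluteValue K ℝ, v x ≤ NV v F * Real.exp (g v)) : 0 ≤ nh F + gs g := by
  unfold nh
  rw [← gs_add (FS_log_NV hF) hg, ← gs_log_abv hx]
  refine gs_le (FS_log_abv hx) (FS_add (FS_log_NV hF) hg) fun v _ => ?_
  have h1 := Real.log_le_log (v.pos hx) (h v)
  rw [Real.log_mul (NV_pos v hF).ne' (Real.exp_pos _).ne', Real.log_exp] at h1
  exact h1

theorem RM_loc0 {K : Type*} [Field K] {m q : ℕ} (v : AbsoluteValue K ℝ)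
    (F : MvPolynomial (Fin m × Fin (q + 1)) K)
    (d : Fin m → ℕ) (hm : 0 < m) (hd : ∀ w ∈ F.support, ∀ i, ∑ l, w (i, l) = d i)
    (E : Fin m → Matrix (Fin (q + 1)) (Fin (q + 1)) K) (col : Fin m → Fin (q + 1) → ℝ)
    (hcol : ∀ i k, 0 < col i k) (hE : ∀ i l k, v (E i l k) ≤ col i k)
    (e : Fin m × Fin (q + 1) →₀ ℕ) :
    v (coeff e (sbm E F)) ≤ NV v F * Real.exp (
      (∑ i, (d i : ℝ)) * Real.log (cst v (m * (q + 1))) +
      ∑ p : Fin m × Fin (q + 1), Real.log (col p.1 p.2) * e p) := by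
  classical
  have hcard : Fintype.card (Fin m × Fin (q + 1)) = m * (q + 1) := by
    rw [Fintype.card_prod, Fintype.card_fin, Fintype.card_fin]
  have hn1 : 1 ≤ m * (q + 1) := Nat.succ_le_of_lt (by positivity)
  have hc2 : 0 < cst v (m * (q + 1)) := one_pos.trans_le (one_le_cst v hn1)
  have h1 := sbm_coeff_le v E F (fun p => col p.1 p.2) (fun _ => 1) (fun p => hcol _ _)
    (fun _ => zero_le_one) (fun i l k => by
      rw [mul_one]
      exact hE i l k)
    (M := Real.exp ((∑ i, (d i : ℝ)) * Real.log (cst v (m * (q + 1)))))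
    (Real.exp_pos _).le (fun w hw => by
      refine le_of_eq ?_
      rw [mul_one, hcard, Finset.prod_pow_eq_pow_sum, Fintype.sum_prod_type,
        Finset.sum_congr rfl fun i _ => hd w hw i, ← Nat.cast_sum, Real.exp_nat_mul,
        Real.exp_log hc2]) e
  refine h1.trans (le_of_eq ?_)
  rw [Real.exp_add, Real.exp_sum]
  congr 2
  refine Finset.prod_congr rfl fun p _ => ?_
  rw [mul_comm (Real.log _), Real.exp_nat_mul, Real.exp_log (hcol _ _)]

/-- The numerical theorem. -/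
theorem RM_num {K : Type u} [Field K] [NumberField K] (Sg : Finset (AbsoluteValue K ℝ)) (q : ℕ)
    (c : AbsoluteValue K ℝ → Fin (q + 1) → ℝ) (hc : 0 ≤ tw Sg c) (κ ε₀ : ℝ) (hκ : 0 < κ)
    (hε₀ : 0 < ε₀) :
    open Classical in
    ∃ (m : ℕ) (h₀ R₀ : ℝ), 0 < m ∧ 1 ≤ h₀ ∧ 1 ≤ R₀ ∧
      ∀ (H : Fin m → ℝ) (A N : AbsoluteValue K ℝ → Fin m →
          Matrix (Fin (q + 1)) (Fin (q + 1)) K)
        (E : Fin m → Matrix (Fin (q + 1)) (Fin (q + 1)) K) (μ : Fin m → Fin (q + 1) → K)
        (σ : AbsoluteValue K ℝ → Fin m → Fin (q + 1) → ℝ) (l₀ l₁ : Fin (q + 1)), l₁ ≠ l₀ →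
      (∀ i, h₀ * R₀ ≤ H i) → (∀ i i', i < i' → R₀ * H i ≤ H i') →
      (∀ v ∈ Sg, ∀ i, A v i * N v i = 1 ∧
        (∃ p : Fin (q + 1) × Fin (q + 1), A v i p.1 p.2 = 1) ∧
        h₀ * logHeight (fun p : Fin (q + 1) × Fin (q + 1) => A v i p.1 p.2) ≤ H i) →
      (∀ i, (E i).det ≠ 0) → (∀ i l, E i l l₀ = if l = l₀ then 1 else 0) →
      (∀ i k, ∑ l, μ i l * E i l k = if k = l₀ then 1 else 0) →
      (∀ v ∈ Sg, ∀ i l k, v ((N v i * E i) l k) ≤ Real.exp (σ v i k - c v l * H i)) →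
      (∀ v ∈ Sg, ∀ i, σ v i l₀ ≤ (∑ l, |c v l| + 1) * H i) →
      (∀ i k, k ≠ l₀ → gs (fun v : AbsoluteValue K ℝ => if v ∈ Sg then σ v i k else
        Real.log (⨆ l, v (E i l k))) ≤ - κ * H i) →
      ∃ i, logHeight₁ (μ i l₁) ≤ ε₀ * H i := by
  classical
  obtain ⟨Cabs, hCabs⟩ : ∃ Cabs : ℝ, Cabs = gs (fun v : AbsoluteValue K ℝ =>
    if v ∈ Sg then ∑ l, |c v l| else 0) := ⟨_, rfl⟩
  have hCabs0 : 0 ≤ Cabs := by
    rw [hCabs]
    refine gs_nonneg fun v _ => ?_
    split_ifs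
    · exact Finset.sum_nonneg fun l _ => abs_nonneg _
    · exact le_refl _
  obtain ⟨C₁, hC₁⟩ : ∃ C₁ : ℝ, C₁ = gs (fun v : AbsoluteValue K ℝ =>
    if v ∈ Sg then ∑ l, |c v l| + 1 else 0) := ⟨_, rfl⟩
  have hC₁0 : 0 ≤ C₁ := by
    rw [hC₁]
    refine gs_nonneg fun v _ => ?_
    split_ifs
    · have := Finset.sum_nonneg (s := Finset.univ) fun l (_ : l ∈ Finset.univ) =>
        abs_nonneg (c v l)
      linarith
    · exact le_refl _
  have hq0 : (0 : ℝ) < (q : ℝ) + 1 := by positivity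
  obtain ⟨δ, hδ⟩ : ∃ δ : ℝ, δ = min (1 / 4) (κ / (8 * ((q + 1) * (Cabs + 1)))) := ⟨_, rfl⟩
  have hδ0 : 0 < δ := by
    rw [hδ]
    exact lt_min (by norm_num) (by positivity)
  have hδ4 : δ ≤ 1 / 4 := by
    rw [hδ]
    exact min_le_left _ _
  have hδκ : (q + 1) * (δ + δ) * Cabs ≤ κ / 4 := by
    have h1 : δ ≤ κ / (8 * ((q + 1) * (Cabs + 1))) := by
      rw [hδ]
      exact min_le_right _ _
    rw [le_div_iff₀ (by positivity)] at h1
    have h2 : 0 ≤ δ * (8 * (q + 1)) := by positivity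
    nlinarith
  obtain ⟨r, hr⟩ : ∃ r : ℕ, r = Sg.card := ⟨_, rfl⟩
  obtain ⟨m, hm⟩ := exists_nat_gt (2 * ((r : ℝ) * (q + 1)) / δ ^ 2)
  have hm0 : (0 : ℝ) < m := lt_of_le_of_lt (by positivity) hm
  have hm1 : 0 < m := by exact_mod_cast hm0
  have hrm : 2 * ((r : ℝ) * (q + 1)) ≤ m * δ ^ 2 := by
    rw [div_lt_iff₀ (by positivity)] at hm
    linarith
  obtain ⟨C, hC0, hC⟩ := RM_aux K m q
  obtain ⟨s, hs⟩ : ∃ s : ℝ, s = m * κ / (16 * (κ + C₁)) := ⟨_, rfl⟩
  have hs0 : 0 < s := by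
    rw [hs]
    positivity
  have hsκ : 4 * s * (κ + C₁) = m * κ / 4 := by
    rw [hs]
    field_simp
    ring
  obtain ⟨B, hB⟩ : ∃ B : ℝ, B = C * (1 + m) + r * m := ⟨_, rfl⟩
  have hB0 : 0 ≤ B := by
    rw [hB]
    positivity
  obtain ⟨R₁, B', hB', hZ⟩ := RM_zero (K := K) m q s B hs0 hB0
  have hn1 : 1 ≤ m * (q + 1) := Nat.succ_le_of_lt (by positivity)
  obtain ⟨B₂, hB₂⟩ : ∃ B₂ : ℝ, B₂ = B + m * (totalWeight K * Real.log (m * (q + 1) : ℕ)) +
    m * (totalWeight K * Real.log (q + 1 : ℕ)) + r * m := ⟨_, rfl⟩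
  have hB₂0 : 0 ≤ B₂ := by
    rw [hB₂]
    have h1 : 0 ≤ Real.log (m * (q + 1) : ℕ) := Real.log_natCast_nonneg _
    have h2 : 0 ≤ Real.log (q + 1 : ℕ) := Real.log_natCast_nonneg _
    positivity
  obtain ⟨h₀, hh₀⟩ : ∃ h₀ : ℝ, h₀ = B' / ε₀ + B₂ / (m * κ / 4) + 1 := ⟨_, rfl⟩
  have hh1 : 1 ≤ h₀ := by
    rw [hh₀]
    have h1 : 0 ≤ B₂ / (m * κ / 4) := by positivity
    have h2 : 0 ≤ B' / ε₀ := by positivity
    linarith
  have hh0 : 0 < h₀ := by linarith
  have hhB : B' ≤ ε₀ * h₀ := by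
    have h1 : 0 ≤ B₂ / (m * κ / 4) := by positivity
    have h2 : B' = ε₀ * (B' / ε₀) := by field_simp
    rw [h2, hh₀]
    refine mul_le_mul_of_nonneg_left ?_ hε₀.le
    linarith
  have hhB₂ : B₂ < h₀ * (m * κ / 4) := by
    rw [← div_lt_iff₀ (by positivity), hh₀]
    have h2 : 0 ≤ B' / ε₀ := by positivity
    linarith
  refine ⟨m, h₀, 4 * R₁ + 1, hm1, hh1, by
    have : (0 : ℝ) ≤ R₁ := Nat.cast_nonneg _
    linarith, fun H A N E μ σ l₀ l₁ hl hH1 hH2 hAN hdet hE hμ hNE hσ0 hσ => ?_⟩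
  -- the scaled heights
  obtain ⟨W, hW⟩ : ∃ W : Fin m → ℝ, ∀ i, W i = H i / h₀ := ⟨_, fun i => rfl⟩
  have hWh : ∀ i, H i = W i * h₀ := fun i => by
    rw [hW]
    field_simp
  have hW1 : ∀ i, 1 ≤ W i := fun i => by
    rw [hW, le_div_iff₀ hh0]
    have h1 := hH1 i
    have h2 : (0 : ℝ) ≤ R₁ := Nat.cast_nonneg _
    have h3 : 0 ≤ h₀ * (4 * R₁) := by positivity
    linarith
  have hW0 : ∀ i, 0 < W i := fun i => one_pos.trans_le (hW1 i)
  have hWW : ∀ i i', i < i' → (4 * R₁ + 1) * W i ≤ W i' := fun i i' h => by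
    have h1 := hH2 i i' h
    rw [hWh, hWh i'] at h1
    refine le_of_mul_le_mul_right ?_ hh0
    linarith
  -- the degrees
  obtain ⟨M, hM⟩ := exists_nat_ge (∑ i, W i / δ + 1)
  have hM' : ∀ i, W i ≤ δ * M := fun i => by
    have h1 : W i / δ ≤ ∑ i, W i / δ :=
      Finset.single_le_sum (f := fun i => W i / δ)
        (fun i _ => div_nonneg (hW0 i).le hδ0.le) (Finset.mem_univ i)
    have h2 : W i / δ ≤ M := by linarith
    rw [div_le_iff₀ hδ0] at h2
    linarith
  have hM1 : (1 : ℝ) ≤ M := by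
    have h1 : 0 ≤ ∑ i, W i / δ :=
      Finset.sum_nonneg fun i _ => div_nonneg (hW0 i).le hδ0.le
    linarith
  have hM0 : (0 : ℝ) < M := by linarith
  obtain ⟨d, hd⟩ : ∃ d : Fin m → ℕ, ∀ i, d i = ⌊(M : ℝ) / W i⌋₊ := ⟨_, fun i => rfl⟩
  have hdM : ∀ i, (d i : ℝ) * W i ≤ M := fun i => by
    have h1 : (d i : ℝ) ≤ M / W i := by
      rw [hd]
      exact Nat.floor_le (by have := hW0 i; positivity)
    rwa [le_div_iff₀ (hW0 i)] at h1
  have hdM' : ∀ i, (1 - δ) * M ≤ d i * W i := fun i => by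
    have h1 : (M : ℝ) / W i < d i + 1 := by
      rw [hd]
      exact Nat.lt_floor_add_one _
    rw [div_lt_iff₀ (hW0 i)] at h1
    have h2 := hM' i
    linarith
  have hd0 : ∀ i, 0 < d i := fun i => by
    have h1 := hdM' i
    have h2 : 0 < (1 - δ) * M := by
      have : 0 < 1 - δ := by linarith
      positivity
    by_contra hcon
    have h3 : d i = 0 := by omega
    rw [h3, Nat.cast_zero, zero_mul] at h1
    linarith
  have hd0' : ∀ i, (0 : ℝ) < d i := fun i => by exact_mod_cast hd0 i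
  have hdle : ∀ i, (d i : ℝ) ≤ M := fun i =>
    (le_mul_of_one_le_right (hd0' i).le (hW1 i)).trans (hdM i)
  have hD0 : 0 ≤ ∑ i, (d i : ℝ) := Finset.sum_nonneg fun i _ => Nat.cast_nonneg _
  have hdsum : ∑ i, (d i : ℝ) ≤ m * M := by
    refine (Finset.sum_le_sum fun i _ => hdle i).trans (le_of_eq ?_)
    rw [Finset.sum_const, Finset.card_univ, Fintype.card_fin, nsmul_eq_mul]
  have hdA : ∀ v ∈ Sg, ∑ i, (d i : ℝ) * logHeight (fun p : Fin (q + 1) × Fin (q + 1) =>
      A v i p.1 p.2) ≤ m * M := by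
    intro v hv
    have h1 : ∀ i, (d i : ℝ) * logHeight (fun p : Fin (q + 1) × Fin (q + 1) =>
        A v i p.1 p.2) ≤ M := fun i => by
      have h2 := (hAN v hv i).2.2
      rw [hWh] at h2
      have h3 : logHeight (fun p : Fin (q + 1) × Fin (q + 1) => A v i p.1 p.2) ≤ W i := by
        refine le_of_mul_le_mul_left ?_ hh0
        linarith
      exact (mul_le_mul_of_nonneg_left h3 (hd0' i).le).trans (hdM i)
    refine (Finset.sum_le_sum fun i _ => h1 i).trans (le_of_eq ?_)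
    rw [Finset.sum_const, Finset.card_univ, Fintype.card_fin, nsmul_eq_mul]
  -- the weights
  have hj : ∀ i, ∃ j : ℕ, (4 : ℝ) ^ j ≤ W i ∧ W i < 4 ^ (j + 1) := fun i =>
    exists_nat_pow_near (hW1 i) (by norm_num)
  choose j hj1 hj2 using hj
  have hjj : ∀ i i', i < i' → R₁ * 4 ^ j i ≤ 4 ^ j i' := by
    intro i i' h
    have h1 := hWW i i' h
    have h2 := hj1 i
    have h3 := (hj2 i').le
    rw [pow_succ] at h3
    have h4 : (0 : ℝ) ≤ R₁ := Nat.cast_nonneg _
    have h5 : (R₁ : ℝ) * 4 ^ j i ≤ 4 ^ j i' := by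
      have h6 := mul_le_mul_of_nonneg_left h2 (show (0 : ℝ) ≤ 4 * R₁ by positivity)
      have h7 := (hW0 i).le
      linarith
    exact_mod_cast h5
  -- the auxiliary polynomial
  obtain ⟨φ, hφ⟩ : ∃ φ : Fin r → {v // v ∈ Sg}, Function.Bijective φ := by
    subst hr
    exact ⟨Sg.equivFin.symm, Sg.equivFin.symm.bijective⟩
  obtain ⟨F, hF0, hFd, hFn, hFv⟩ := hC (Fin r) δ hδ0 (by rw [Fintype.card_fin]; exact hrm) d hd0
    (fun l i => A (φ l).1 i) (fun l i => (hAN _ (φ l).2 i).2.1)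
  have hFnh : nh F ≤ B * M := by
    refine hFn.trans ?_
    have h1 : ∑ l : Fin r, ∑ i, (d i : ℝ) * logHeight (fun p : Fin (q + 1) × Fin (q + 1) =>
        A (φ l).1 i p.1 p.2) ≤ r * (m * M) := by
      refine (Finset.sum_le_sum fun l _ => hdA _ (φ l).2).trans (le_of_eq ?_)
      rw [Finset.sum_const, Finset.card_univ, Fintype.card_fin, nsmul_eq_mul]
    have h2 : C * (1 + ∑ i, (d i : ℝ)) ≤ C * (M + m * M) :=
      mul_le_mul_of_nonneg_left (by linarith) hC0
    rw [hB]
    have h3 : (C * (1 + m) + r * m) * M = C * (M + m * M) + r * (m * M) := by ring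
    rw [h3]
    linarith
  have hFv' : ∀ v ∈ Sg, ∀ (w : Fin m × Fin (q + 1) →₀ ℕ) (k : Fin (q + 1)),
      (∀ i, ∑ k', w (i, k') = d i) → (∑ i, (w (i, k) : ℝ) / d i) < (1 / (q + 1) - δ) * m →
      coeff w (sbm (A v) F) = 0 := by
    intro v hv w k hw hk
    obtain ⟨l, hl'⟩ := hφ.2 ⟨v, hv⟩
    have h1 := hFv l w k hw hk
    rw [hl'] at h1
    exact h1
  -- the zero estimate
  rcases hZ j l₀ l₁ hl μ E F d M hdet hE hμ hjj hF0 hM0 hFd (fun i => by
    refine le_trans ?_ (hdM i)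
    rw [mul_comm]
    exact mul_le_mul_of_nonneg_left (hj1 i) (hd0' i).le) hFnh with ⟨i, hi⟩ | ⟨e, he1, he2⟩
  · refine ⟨i, hi.trans ?_⟩
    rw [hWh]
    calc B' * 4 ^ j i ≤ B' * W i := mul_le_mul_of_nonneg_left (hj1 i) hB'
      _ ≤ ε₀ * h₀ * W i := mul_le_mul_of_nonneg_right hhB (hW0 i).le
      _ = ε₀ * (W i * h₀) := by ring
  · exfalso
    have hed : ∀ i, ∑ l, e (i, l) = d i := RM_hom E F d hFd e he2
    -- the columns
    obtain ⟨col, hcol⟩ : ∃ col : AbsoluteValue K ℝ → Fin m → Fin (q + 1) → ℝ, ∀ v i k,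
      col v i k = ⨆ l, v (E i l k) := ⟨_, fun _ _ _ => rfl⟩
    have hcolE : ∀ v i l k, v (E i l k) ≤ col v i k := fun v i l k => by
      rw [hcol]
      exact le_ciSup (f := fun l => v (E i l k)) (Set.finite_range _).bddAbove l
    have hcolne : ∀ i k, (fun l => E i l k) ≠ 0 := by
      intro i k h0
      apply hdet i
      refine Matrix.det_eq_zero_of_column_eq_zero k fun l => ?_
      exact congrFun h0 l
    have hcolpos : ∀ v i k, 0 < col v i k := by
      intro v i k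
      obtain ⟨l, hl⟩ : ∃ l, E i l k ≠ 0 := by
        by_contra hcon
        push Not at hcon
        exact hcolne i k (funext hcon)
      exact (v.pos hl).trans_le (hcolE v i l k)
    have hcolFS : ∀ i k, FS fun v : AbsoluteValue K ℝ => Real.log (col v i k) := by
      intro i k
      simp only [hcol]
      exact FS_log_iSup (hcolne i k)
    -- the sizes of the matrices `A`
    obtain ⟨b, hb⟩ : ∃ b : AbsoluteValue K ℝ → AbsoluteValue K ℝ → Fin m → ℝ, ∀ v v' i,
      b v v' i = ⨆ p : Fin (q + 1) × Fin (q + 1), v (A v' i p.1 p.2) := ⟨_, fun _ _ _ => rfl⟩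
    have hbA : ∀ v v' i k k', v (A v' i k k') ≤ b v v' i := fun v v' i k k' => by
      rw [hb]
      exact le_ciSup (f := fun p : Fin (q + 1) × Fin (q + 1) => v (A v' i p.1 p.2))
        (Set.finite_range _).bddAbove (k, k')
    have hb1 : ∀ v, ∀ v' ∈ Sg, ∀ i, 1 ≤ b v v' i := fun v v' hv' i => by
      obtain ⟨p, hp⟩ := (hAN v' hv' i).2.1
      have h1 := hbA v v' i p.1 p.2
      rw [hp, map_one] at h1
      exact h1
    have hAne : ∀ v' ∈ Sg, ∀ i, (fun p : Fin (q + 1) × Fin (q + 1) => A v' i p.1 p.2) ≠ 0 := by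
      intro v' hv' i h0
      obtain ⟨p, hp⟩ := (hAN v' hv' i).2.1
      have h1 : A v' i p.1 p.2 = 0 := congrFun h0 p
      rw [hp] at h1
      exact one_ne_zero h1
    have hbFS : ∀ v' ∈ Sg, ∀ i, FS fun v : AbsoluteValue K ℝ => Real.log (b v v' i) := by
      intro v' hv' i
      simp only [hb]
      exact FS_log_iSup (hAne v' hv' i)
    obtain ⟨Xv, hXv⟩ : ∃ Xv : AbsoluteValue K ℝ → ℝ, ∀ v, Xv v =
      h₀ * M * m * (- (∑ l, c v l) / (q + 1) + (q + 1) * (δ + δ) * ∑ l, |c v l|) :=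
      ⟨_, fun _ => rfl⟩
    obtain ⟨τ, hτ⟩ : ∃ τ : Fin m × Fin (q + 1) → AbsoluteValue K ℝ → ℝ, ∀ p v,
      τ p v = if v ∈ Sg then σ v p.1 p.2 else Real.log (col v p.1 p.2) := ⟨_, fun _ _ => rfl⟩
    obtain ⟨g, hg⟩ : ∃ g : AbsoluteValue K ℝ → ℝ, ∀ v, g v =
      ((∑ i, (d i : ℝ)) * Real.log (cst v (m * (q + 1))) +
        (∑ i, (d i : ℝ)) * Real.log (cst v (q + 1))) +
      (∑ v' ∈ Sg, ∑ i, (d i : ℝ) * Real.log (b v v' i) +
        ((if v ∈ Sg then Xv v else 0) + ∑ p, (e p : ℝ) * τ p v)) := ⟨_, fun _ => rfl⟩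
    have hτFS : ∀ p, FS (τ p) := by
      intro p
      have h1 : FS (fun v : AbsoluteValue K ℝ => (if v ∈ Sg then σ v p.1 p.2 -
          Real.log (col v p.1 p.2) else 0) + Real.log (col v p.1 p.2)) :=
        FS_add (R_FS_ind Sg _) (hcolFS p.1 p.2)
      have h2 : τ p = fun v : AbsoluteValue K ℝ => (if v ∈ Sg then σ v p.1 p.2 -
          Real.log (col v p.1 p.2) else 0) + Real.log (col v p.1 p.2) := by
        funext v
        rw [hτ]
        split_ifs
        · ring
        · ring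
      rw [h2]
      exact h1
    have hFS1 : FS (fun v : AbsoluteValue K ℝ =>
        (∑ i, (d i : ℝ)) * Real.log (cst v (m * (q + 1)))) := FS_const_mul _ (FS_log_cst _)
    have hFS2 : FS (fun v : AbsoluteValue K ℝ =>
        (∑ i, (d i : ℝ)) * Real.log (cst v (q + 1))) := FS_const_mul _ (FS_log_cst _)
    have hFS3 : FS (fun v : AbsoluteValue K ℝ =>
        ∑ v' ∈ Sg, ∑ i, (d i : ℝ) * Real.log (b v v' i)) :=
      FS_sum _ fun v' hv' => FS_sum _ fun i _ => FS_const_mul _ (hbFS v' hv' i)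
    have hFS4 : FS (fun v : AbsoluteValue K ℝ => if v ∈ Sg then Xv v else 0) := R_FS_ind Sg _
    have hFS5 : FS (fun v : AbsoluteValue K ℝ => ∑ p, (e p : ℝ) * τ p v) :=
      FS_sum _ fun p _ => FS_const_mul _ (hτFS p)
    have hgFS : FS g := by
      have h1 : g = fun v => ((∑ i, (d i : ℝ)) * Real.log (cst v (m * (q + 1))) +
        (∑ i, (d i : ℝ)) * Real.log (cst v (q + 1))) +
      (∑ v' ∈ Sg, ∑ i, (d i : ℝ) * Real.log (b v v' i) +
        ((if v ∈ Sg then Xv v else 0) + ∑ p, (e p : ℝ) * τ p v)) := funext hg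
      rw [h1]
      exact FS_add (FS_add hFS1 hFS2) (FS_add hFS3 (FS_add hFS4 hFS5))
    have hmain := RM_prod F hF0 _ he2 g hgFS fun v => ?_
    · -- the global sums
      have hgs : gs g = (∑ i, (d i : ℝ)) * gs (fun v : AbsoluteValue K ℝ =>
          Real.log (cst v (m * (q + 1)))) + (∑ i, (d i : ℝ)) * gs (fun v : AbsoluteValue K ℝ =>
          Real.log (cst v (q + 1))) + (∑ v' ∈ Sg, ∑ i, (d i : ℝ) *
          logHeight (fun p : Fin (q + 1) × Fin (q + 1) => A v' i p.1 p.2) +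
          (gs (fun v : AbsoluteValue K ℝ => if v ∈ Sg then Xv v else 0) +
            ∑ p, (e p : ℝ) * gs (τ p))) := by
        have h1 : g = fun v => ((∑ i, (d i : ℝ)) * Real.log (cst v (m * (q + 1))) +
          (∑ i, (d i : ℝ)) * Real.log (cst v (q + 1))) +
        (∑ v' ∈ Sg, ∑ i, (d i : ℝ) * Real.log (b v v' i) +
          ((if v ∈ Sg then Xv v else 0) + ∑ p, (e p : ℝ) * τ p v)) := funext hg
        rw [h1, gs_add (FS_add hFS1 hFS2) (FS_add hFS3 (FS_add hFS4 hFS5)), gs_add hFS1 hFS2,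
          gs_add hFS3 (FS_add hFS4 hFS5), gs_add hFS4 hFS5, gs_const_mul, gs_const_mul,
          gs_sum _ fun v' hv' => FS_sum _ fun i _ => FS_const_mul _ (hbFS v' hv' i),
          gs_sum _ fun p _ => FS_const_mul _ (hτFS p)]
        congr 2
        · refine Finset.sum_congr rfl fun v' hv' => ?_
          rw [gs_sum _ fun i _ => FS_const_mul _ (hbFS v' hv' i)]
          refine Finset.sum_congr rfl fun i _ => ?_
          rw [gs_const_mul, ← gs_log_iSup (hAne v' hv' i)]
          simp only [hb]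
        · congr 1
          refine Finset.sum_congr rfl fun p _ => ?_
          rw [gs_const_mul]
      have hX : gs (fun v : AbsoluteValue K ℝ => if v ∈ Sg then Xv v else 0) ≤
          h₀ * M * m * (κ / 4) := by
        have h1 : (fun v : AbsoluteValue K ℝ => if v ∈ Sg then Xv v else 0) =
            fun v => (h₀ * M * m) * ((- (1 / (q + 1))) * (if v ∈ Sg then ∑ k, c v k else 0) +
              ((q + 1) * (δ + δ)) * (if v ∈ Sg then ∑ l, |c v l| else 0)) := by
          funext v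
          split_ifs
          · rw [hXv]
            ring
          · ring
        have h2 : FS (fun v : AbsoluteValue K ℝ =>
            (- (1 / ((q : ℝ) + 1))) * (if v ∈ Sg then ∑ k, c v k else 0)) :=
          FS_const_mul _ (R_FS_ind Sg _)
        have h3 : FS (fun v : AbsoluteValue K ℝ =>
            (((q : ℝ) + 1) * (δ + δ)) * (if v ∈ Sg then ∑ l, |c v l| else 0)) :=
          FS_const_mul _ (R_FS_ind Sg _)
        rw [h1, gs_const_mul, gs_add h2 h3, gs_const_mul, gs_const_mul, ← hCabs]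
        refine mul_le_mul_of_nonneg_left ?_ (by positivity)
        have h4 : 0 ≤ 1 / ((q : ℝ) + 1) * tw Sg c := mul_nonneg (by positivity) hc
        have h5 : tw Sg c = gs (fun v : AbsoluteValue K ℝ =>
          if v ∈ Sg then ∑ k, c v k else 0) := rfl
        rw [h5] at h4
        linarith
      have hτ1 : ∀ i k, k ≠ l₀ → gs (τ (i, k)) ≤ - κ * H i := by
        intro i k hk
        have h1 := hσ i k hk
        have h2 : τ (i, k) = fun v : AbsoluteValue K ℝ => if v ∈ Sg then σ v i k else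
            Real.log (⨆ l, v (E i l k)) := by
          funext v
          rw [hτ]
          dsimp only
          rw [hcol]
        rw [h2]
        exact h1
      have hτ0 : ∀ i, gs (τ (i, l₀)) ≤ C₁ * H i := by
        intro i
        have h1 : C₁ * H i = gs (fun v : AbsoluteValue K ℝ =>
            H i * (if v ∈ Sg then ∑ l, |c v l| + 1 else 0)) := by
          rw [gs_const_mul, hC₁, mul_comm]
        rw [h1]
        refine gs_le (hτFS _) (FS_const_mul _ (R_FS_ind Sg _)) fun v _ => ?_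
        rw [hτ]
        dsimp only
        by_cases hv : v ∈ Sg
        · rw [if_pos hv, if_pos hv]
          refine (hσ0 v hv i).trans (le_of_eq (mul_comm _ _))
        · rw [if_neg hv, if_neg hv, mul_zero]
          refine Real.log_nonpos (hcolpos v i l₀).le ?_
          rw [hcol]
          refine Real.iSup_le (fun l => ?_) zero_le_one
          rw [hE]
          split_ifs
          · rw [map_one]
          · rw [map_zero]
            exact zero_le_one
      have hHd : ∀ i, h₀ * ((1 - δ) * M) ≤ H i * d i := by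
        intro i
        rw [hWh]
        calc h₀ * ((1 - δ) * M) ≤ h₀ * (d i * W i) := mul_le_mul_of_nonneg_left (hdM' i) hh0.le
          _ = W i * h₀ * d i := by ring
      have hHe : ∑ i, H i * e (i, l₀) ≤ h₀ * (4 * (s * M)) := by
        have h1 : ∑ i, H i * e (i, l₀) = h₀ * ∑ i, W i * e (i, l₀) := by
          rw [Finset.mul_sum]
          refine Finset.sum_congr rfl fun i _ => ?_
          rw [hWh]
          ring
        rw [h1]
        refine mul_le_mul_of_nonneg_left ?_ hh0.le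
        have h6 : ∑ i, W i * e (i, l₀) ≤ ∑ i, 4 * ((4 : ℝ) ^ j i * e (i, l₀)) := by
          refine Finset.sum_le_sum fun i _ => ?_
          have h7 := hj2 i
          rw [pow_succ] at h7
          have h8 := mul_le_mul_of_nonneg_right h7.le (Nat.cast_nonneg (α := ℝ) (e (i, l₀)))
          linarith
        rw [← Finset.mul_sum] at h6
        linarith
      have hτs : ∑ p, (e p : ℝ) * gs (τ p) ≤
          - κ * (m * (h₀ * ((1 - δ) * M))) + (κ + C₁) * (h₀ * (4 * (s * M))) := by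
        have h1 : ∀ i, ∑ k, (e (i, k) : ℝ) * gs (τ (i, k)) ≤
            - κ * (H i * d i) + (κ + C₁) * (H i * e (i, l₀)) := by
          intro i
          rw [← Finset.add_sum_erase _ _ (Finset.mem_univ l₀)]
          have h2 : ∑ k ∈ Finset.univ.erase l₀, (e (i, k) : ℝ) * gs (τ (i, k)) ≤
              ∑ k ∈ Finset.univ.erase l₀, (e (i, k) : ℝ) * (- κ * H i) :=
            Finset.sum_le_sum fun k hk => mul_le_mul_of_nonneg_left
              (hτ1 i k (Finset.ne_of_mem_erase hk)) (Nat.cast_nonneg _)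
          have h3 : (e (i, l₀) : ℝ) + ∑ k ∈ Finset.univ.erase l₀, (e (i, k) : ℝ) = d i := by
            rw [Finset.add_sum_erase _ (fun k => (e (i, k) : ℝ)) (Finset.mem_univ l₀),
              ← hed i]
            push_cast
            rfl
          have h4 := mul_le_mul_of_nonneg_left (hτ0 i) (Nat.cast_nonneg (α := ℝ) (e (i, l₀)))
          rw [← Finset.sum_mul] at h2
          have h5 : ∑ k ∈ Finset.univ.erase l₀, (e (i, k) : ℝ) = d i - e (i, l₀) := by
            linarith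
          rw [h5] at h2
          refine (add_le_add h4 h2).trans (le_of_eq ?_)
          ring
        rw [Fintype.sum_prod_type]
        refine (Finset.sum_le_sum fun i _ => h1 i).trans ?_
        rw [Finset.sum_add_distrib, ← Finset.mul_sum, ← Finset.mul_sum]
        refine add_le_add ?_ (mul_le_mul_of_nonneg_left hHe (by positivity))
        have h2 : (m : ℝ) * (h₀ * ((1 - δ) * M)) ≤ ∑ i, H i * d i := by
          have h3 : (m : ℝ) * (h₀ * ((1 - δ) * M)) = ∑ _i : Fin m, h₀ * ((1 - δ) * M) := by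
            rw [Finset.sum_const, Finset.card_univ, Fintype.card_fin, nsmul_eq_mul]
          rw [h3]
          exact Finset.sum_le_sum fun i _ => hHd i
        have h3 := mul_le_mul_of_nonneg_left h2 hκ.le
        linarith
      rw [hgs] at hmain
      have h1 : (∑ i, (d i : ℝ)) * gs (fun v : AbsoluteValue K ℝ =>
          Real.log (cst v (m * (q + 1)))) ≤
          m * M * (totalWeight K * Real.log (m * (q + 1) : ℕ)) :=
        (mul_le_mul_of_nonneg_left (gs_log_cst hn1) hD0).trans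
          (mul_le_mul_of_nonneg_right hdsum (mul_nonneg (Nat.cast_nonneg _)
            (Real.log_natCast_nonneg _)))
      have h2 : (∑ i, (d i : ℝ)) * gs (fun v : AbsoluteValue K ℝ =>
          Real.log (cst v (q + 1))) ≤ m * M * (totalWeight K * Real.log (q + 1 : ℕ)) :=
        (mul_le_mul_of_nonneg_left (gs_log_cst (by omega)) hD0).trans
          (mul_le_mul_of_nonneg_right hdsum (mul_nonneg (Nat.cast_nonneg _)
            (Real.log_natCast_nonneg _)))
      have h3 : ∑ v' ∈ Sg, ∑ i, (d i : ℝ) *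
          logHeight (fun p : Fin (q + 1) × Fin (q + 1) => A v' i p.1 p.2) ≤ r * (m * M) := by
        refine (Finset.sum_le_sum fun v hv => hdA v hv).trans (le_of_eq ?_)
        rw [Finset.sum_const, nsmul_eq_mul, hr]
      have h4 : - κ * (m * (h₀ * ((1 - δ) * M))) ≤ - κ * (m * (h₀ * (3 / 4 * M))) := by
        have h5 : (m : ℝ) * (h₀ * (3 / 4 * M)) ≤ m * (h₀ * ((1 - δ) * M)) := by
          refine mul_le_mul_of_nonneg_left (mul_le_mul_of_nonneg_left
            (mul_le_mul_of_nonneg_right ?_ hM0.le) hh0.le) hm0.le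
          linarith
        have h6 := mul_le_mul_of_nonneg_left h5 hκ.le
        linarith
      have h5 : (κ + C₁) * (h₀ * (4 * (s * M))) = h₀ * M * (m * κ / 4) := by
        calc (κ + C₁) * (h₀ * (4 * (s * M))) = h₀ * M * (4 * s * (κ + C₁)) := by ring
          _ = h₀ * M * (m * κ / 4) := by rw [hsκ]
      have h6 : B₂ * M < h₀ * (m * κ / 4) * M := mul_lt_mul_of_pos_right hhB₂ hM0
      have h7 : B₂ * M = B * M + m * M * (totalWeight K * Real.log (m * (q + 1) : ℕ)) +
          m * M * (totalWeight K * Real.log (q + 1 : ℕ)) + r * (m * M) := by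
        rw [hB₂]
        ring
      have h8 : - κ * (m * (h₀ * (3 / 4 * M))) = - 3 * (h₀ * (m * κ / 4) * M) := by ring
      have h9 : h₀ * M * m * (κ / 4) = h₀ * (m * κ / 4) * M := by ring
      have h10 : h₀ * M * (m * κ / 4) = h₀ * (m * κ / 4) * M := by ring
      rw [h5, h10] at hτs
      rw [h9] at hX
      linarith
    · -- the local estimates
      have hlc1 : 0 ≤ Real.log (cst v (q + 1)) := Real.log_nonneg (one_le_cst v (by omega))
      have hb0 : ∀ v' ∈ Sg, 0 ≤ ∑ i, (d i : ℝ) * Real.log (b v v' i) := fun v' hv' =>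
        Finset.sum_nonneg fun i _ => mul_nonneg (Nat.cast_nonneg _)
          (Real.log_nonneg (hb1 v v' hv' i))
      by_cases hv : v ∈ Sg
      · have h1 := RM_loc v F d hm1 hFd (A v) (N v) E (fun i => (hAN v hv i).1) (b v v)
          (fun i => one_pos.trans_le (hb1 v v hv i)) (fun i l k => hbA v v i l k) (c v) H
          (σ v) (hNE v hv) (Xv v) (fun w hw hw0 => by
            rw [hXv]
            refine RM_typ d hd0 W H h₀ M δ δ hh0.le hM0.le hδ0.le (by linarith) hδ0.le hWh hdM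
              hdM' (c v) w hw fun k => ?_
            by_contra hcon
            exact hw0 (hFv' v hv w k hw (not_le.1 hcon))) e
        refine h1.trans (mul_le_mul_of_nonneg_left (Real.exp_le_exp.2 ?_) (A2_nonneg v F))
        have h2 : ∑ p : Fin m × Fin (q + 1), σ v p.1 p.2 * (e p : ℝ) =
            ∑ p, (e p : ℝ) * τ p v := by
          refine Finset.sum_congr rfl fun p _ => ?_
          rw [hτ, if_pos hv, mul_comm]
        have h3 := Finset.single_le_sum (f := fun v' => ∑ i, (d i : ℝ) *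
          Real.log (b v v' i)) (fun v' hv' => hb0 v' hv') hv
        rw [hg, if_pos hv, h2]
        linarith
      · have h1 := RM_loc0 v F d hm1 hFd E (col v) (hcolpos v) (fun i l k => hcolE v i l k) e
        refine h1.trans (mul_le_mul_of_nonneg_left (Real.exp_le_exp.2 ?_) (A2_nonneg v F))
        have h2 : ∑ p : Fin m × Fin (q + 1), Real.log (col v p.1 p.2) * (e p : ℝ) =
            ∑ p, (e p : ℝ) * τ p v := by
          refine Finset.sum_congr rfl fun p _ => ?_
          rw [hτ, if_neg hv, mul_comm]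
        have h3 : 0 ≤ ∑ v' ∈ Sg, ∑ i, (d i : ℝ) * Real.log (b v v' i) :=
          Finset.sum_nonneg hb0
        have h4 := mul_nonneg hD0 hlc1
        rw [hg, if_neg hv, h2]
        linarith

end Pool.Agent.Lib.MP_17a322_nt.SL
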