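import Pool.Agent.Lib.MP_17a322_nt.SL.R7

/-!
Forms of small height: matrices.
-/

universe u

namespace Pool.Agent.Lib.MP_17a322_nt.SL

open MvPolynomial Height Filter
open Pool.Agent.Lib.MP_17a322_nt.RO
open Pool.Agent.Lib.MP_17a322_nt.VJ
open Pool.Agent.Lib.MP_17a322_nt.VN
open Pool.Agent.Lib.MP_17a322_nt.VP

section

variable {L : Type*} [Field L] (v : AbsoluteValue L ℝ) {κ : Type*} [Fintype κ] [DecidableEq κ]

theorem RM_det_le (B : Matrix κ κ L) (b : κ → ℝ) (hb : ∀ i, 0 ≤ b i)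
    (hB : ∀ i j, v (B i j) ≤ b i) :
    v B.det ≤ cst v (Fintype.card (Equiv.Perm κ)) * ∏ i, b i := by
  rw [Matrix.det_apply]
  have h1 := (SN_self v).sum_le Finset.univ (fun σ : Equiv.Perm κ =>
    Equiv.Perm.sign σ • ∏ i, B (σ i) i) (B := ∏ i, b i) (Finset.prod_nonneg fun i _ => hb i)
    fun σ _ => by
      have h2 : v (Equiv.Perm.sign σ • ∏ i, B (σ i) i) = ∏ i, v (B (σ i) i) := by
        rcases Int.units_eq_one_or (Equiv.Perm.sign σ) with h | h
        · rw [h, one_smul, map_prod]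
        · rw [h, Units.neg_smul, one_smul, v.map_neg, map_prod]
      rw [h2, ← Equiv.prod_comp σ b]
      exact Finset.prod_le_prod (fun i _ => v.nonneg _) fun i _ => hB _ _
  rw [Finset.card_univ] at h1
  exact h1

theorem RM_adj_le (B : Matrix κ κ L) {b : ℝ} (hb : 0 ≤ b) (hB : ∀ i j, v (B i j) ≤ b)
    (i j : κ) : v (B.adjugate i j) ≤
      cst v (Fintype.card (Equiv.Perm κ)) * b ^ (Fintype.card κ - 1) := by
  rw [Matrix.adjugate_apply]
  refine (RM_det_le v _ (fun i' => if i' = j then 1 else b) (fun i' => by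
    split_ifs
    · exact zero_le_one
    · exact hb) fun i' j' => ?_).trans (le_of_eq ?_)
  · rw [Matrix.updateRow_apply]
    split_ifs with h
    · rw [Pi.single_apply]
      split_ifs
      · rw [map_one]
      · rw [map_zero]
        exact zero_le_one
    · exact hB _ _
  · rw [← Finset.mul_prod_erase _ _ (Finset.mem_univ j), if_pos rfl, one_mul,
      Finset.prod_congr rfl (g := fun _ => b) fun i' hi' => if_neg (Finset.ne_of_mem_erase hi'),
      Finset.prod_const, Finset.card_erase_of_mem (Finset.mem_univ j), Finset.card_univ]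

end

section

variable {K : Type u} [Field K] [NumberField K] {q : ℕ}

/-- The normalised adjugate. -/
theorem RM_adj (M : Matrix (Fin (q + 1)) (Fin (q + 1)) K) (hM : M.det ≠ 0) :
    ∃ A N : Matrix (Fin (q + 1)) (Fin (q + 1)) K, A * N = 1 ∧
      (∃ p : Fin (q + 1) × Fin (q + 1), A p.1 p.2 = 1) ∧
      logHeight (fun p : Fin (q + 1) × Fin (q + 1) => A p.1 p.2) ≤
        totalWeight K * Real.log (Fintype.card (Equiv.Perm (Fin (q + 1))) : ℕ) +
          (q + 1) * logHeight (fun p : Fin (q + 1) × Fin (q + 1) => M p.1 p.2) ∧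
      ∃ a : K, N = a • M ∧ ∀ v : AbsoluteValue K ℝ, Pl v →
        v a * (⨆ p : Fin (q + 1) × Fin (q + 1), v (M p.1 p.2)) ≤
          Real.exp (2 * (totalWeight K * Real.log (Fintype.card (Equiv.Perm (Fin (q + 1))) : ℕ)) +
            (q + 1) * logHeight (fun p : Fin (q + 1) × Fin (q + 1) => M p.1 p.2)) := by
  obtain ⟨n, hn⟩ : ∃ n : ℕ, n = Fintype.card (Equiv.Perm (Fin (q + 1))) := ⟨_, rfl⟩
  have hn1 : 1 ≤ n := by
    rw [hn]
    exact Fintype.card_pos
  rw [← hn]
  have hadj : M.adjugate ≠ 0 := by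
    intro h0
    have h1 := Matrix.mul_adjugate M
    rw [h0, Matrix.mul_zero] at h1
    have h2 := congrFun (congrFun h1 0) 0
    rw [Matrix.smul_apply, Matrix.one_apply_eq, Matrix.zero_apply, smul_eq_mul, mul_one] at h2
    exact hM h2.symm
  obtain ⟨p₀, hp₀⟩ : ∃ p : Fin (q + 1) × Fin (q + 1), M.adjugate p.1 p.2 ≠ 0 := by
    by_contra hcon
    push Not at hcon
    exact hadj (Matrix.ext fun i j => hcon (i, j))
  have hMne : (fun p : Fin (q + 1) × Fin (q + 1) => M p.1 p.2) ≠ 0 := by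
    intro h0
    apply hM
    have h1 : M = 0 := Matrix.ext fun i j => congrFun h0 (i, j)
    rw [h1]
    exact Matrix.det_zero
  have hadjne : (fun p : Fin (q + 1) × Fin (q + 1) => M.adjugate p.1 p.2) ≠ 0 := by
    intro h0
    exact hp₀ (congrFun h0 p₀)
  obtain ⟨b, hb⟩ : ∃ b : AbsoluteValue K ℝ → ℝ, ∀ v, b v =
    ⨆ p : Fin (q + 1) × Fin (q + 1), v (M p.1 p.2) := ⟨_, fun _ => rfl⟩
  have hbM : ∀ v i j, v (M i j) ≤ b v := fun v i j => by
    rw [hb]
    exact le_ciSup (f := fun p : Fin (q + 1) × Fin (q + 1) => v (M p.1 p.2))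
      (Set.finite_range _).bddAbove (i, j)
  have hbpos : ∀ v, 0 < b v := by
    intro v
    obtain ⟨p, hp⟩ : ∃ p : Fin (q + 1) × Fin (q + 1), M p.1 p.2 ≠ 0 := by
      by_contra hcon
      push Not at hcon
      exact hMne (funext hcon)
    exact (v.pos hp).trans_le (hbM v p.1 p.2)
  have hbFS : FS (fun v : AbsoluteValue K ℝ => Real.log (b v)) := by
    simp only [hb]
    exact FS_log_iSup hMne
  have hbgs : gs (fun v : AbsoluteValue K ℝ => Real.log (b v)) =
      logHeight (fun p : Fin (q + 1) × Fin (q + 1) => M p.1 p.2) := by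
    simp only [hb]
    exact gs_log_iSup hMne
  have hadjle : ∀ v i j, v (M.adjugate i j) ≤ cst v n * b v ^ q := by
    intro v i j
    have h1 := RM_adj_le v M (hbpos v).le (hbM v) i j
    rw [Fintype.card_fin, Nat.add_sub_cancel, ← hn] at h1
    exact h1
  have hdetle : ∀ v, v M.det ≤ cst v n * b v ^ (q + 1) := by
    intro v
    have h1 := RM_det_le v M (fun _ => b v) (fun _ => (hbpos v).le) (hbM v)
    rw [Finset.prod_const, Finset.card_univ, Fintype.card_fin, ← hn] at h1
    exact h1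
  refine ⟨(M.adjugate p₀.1 p₀.2)⁻¹ • M.adjugate, (M.adjugate p₀.1 p₀.2 / M.det) • M, ?_,
    ⟨p₀, ?_⟩, ?_, M.adjugate p₀.1 p₀.2 / M.det, rfl, ?_⟩
  · rw [Matrix.smul_mul, Matrix.mul_smul, Matrix.adjugate_mul, smul_smul, smul_smul]
    have h1 : (M.adjugate p₀.1 p₀.2)⁻¹ * (M.adjugate p₀.1 p₀.2 / M.det * M.det) = 1 := by
      rw [div_mul_cancel₀ _ hM, inv_mul_cancel₀ hp₀]
    rw [mul_assoc, h1, one_smul]
  · rw [Matrix.smul_apply, smul_eq_mul, inv_mul_cancel₀ hp₀]
  · have h1 : (fun p : Fin (q + 1) × Fin (q + 1) =>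
        ((M.adjugate p₀.1 p₀.2)⁻¹ • M.adjugate) p.1 p.2) =
        (M.adjugate p₀.1 p₀.2)⁻¹ • fun p : Fin (q + 1) × Fin (q + 1) =>
          M.adjugate p.1 p.2 := rfl
    rw [h1, logHeight_smul_eq_logHeight _ (inv_ne_zero hp₀), ← gs_log_iSup hadjne]
    have h2 : FS (fun v : AbsoluteValue K ℝ => Real.log (cst v n) + q * Real.log (b v)) :=
      FS_add (FS_log_cst n) (FS_const_mul _ hbFS)
    refine (gs_le (FS_log_iSup hadjne) h2 fun v _ => ?_).trans ?_
    · have h3 : ⨆ p : Fin (q + 1) × Fin (q + 1), v (M.adjugate p.1 p.2) ≤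
          cst v n * b v ^ q := Real.iSup_le (fun p => hadjle v _ _)
            (mul_nonneg (cst_nonneg v _) (pow_nonneg (hbpos v).le _))
      have h4 : 0 < ⨆ p : Fin (q + 1) × Fin (q + 1), v (M.adjugate p.1 p.2) :=
        (v.pos hp₀).trans_le (le_ciSup (f := fun p : Fin (q + 1) × Fin (q + 1) =>
          v (M.adjugate p.1 p.2)) (Set.finite_range _).bddAbove p₀)
      have h5 := Real.log_le_log h4 h3
      rw [Real.log_mul (one_pos.trans_le (one_le_cst v hn1)).ne' (pow_pos (hbpos v) _).ne',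
        Real.log_pow] at h5
      exact h5
    · rw [gs_add (FS_log_cst n) (FS_const_mul _ hbFS), gs_const_mul, hbgs]
      refine add_le_add (gs_log_cst hn1) ?_
      have := logHeight_nonneg (fun p : Fin (q + 1) × Fin (q + 1) => M p.1 p.2)
      linarith
  · intro v hv
    rw [← hb]
    -- the defect
    obtain ⟨Lo, hLo⟩ : ∃ Lo : AbsoluteValue K ℝ → ℝ, ∀ w, Lo w =
      (Real.log (cst w n) + (q + 1) * Real.log (b w)) - Real.log (w M.det) := ⟨_, fun _ => rfl⟩
    have hFS1 : FS (fun w : AbsoluteValue K ℝ =>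
        Real.log (cst w n) + (q + 1) * Real.log (b w)) :=
      FS_add (FS_log_cst n) (FS_const_mul _ hbFS)
    have hLoFS : FS Lo := by
      have h1 : Lo = fun w => (Real.log (cst w n) + (q + 1) * Real.log (b w)) -
          Real.log (w M.det) := funext hLo
      rw [h1]
      exact FS_sub hFS1 (FS_log_abv hM)
    have hLo0 : ∀ w, 0 ≤ Lo w := by
      intro w
      have h1 := Real.log_le_log (w.pos hM) (hdetle w)
      rw [Real.log_mul (one_pos.trans_le (one_le_cst w hn1)).ne' (pow_pos (hbpos w) _).ne',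
        Real.log_pow] at h1
      push_cast at h1
      rw [hLo]
      linarith
    have hLogs : gs Lo ≤ totalWeight K * Real.log n +
        (q + 1) * logHeight (fun p : Fin (q + 1) × Fin (q + 1) => M p.1 p.2) := by
      have h1 : Lo = fun w => (Real.log (cst w n) + (q + 1) * Real.log (b w)) -
          Real.log (w M.det) := funext hLo
      rw [h1, gs_sub hFS1 (FS_log_abv hM), gs_log_abv hM, sub_zero,
        gs_add (FS_log_cst n) (FS_const_mul _ hbFS), gs_const_mul, hbgs]
      exact add_le_add_left (gs_log_cst hn1) _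
    have h1 : Lo v ≤ gs Lo := R_gs_single hLoFS (fun w _ => hLo0 w) hv
    have h2 : Real.log (cst v n) ≤ totalWeight K * Real.log n :=
      (R_gs_single (FS_log_cst n) (fun w _ => Real.log_nonneg (one_le_cst w hn1)) hv).trans
        (gs_log_cst hn1)
    have hc0 : 0 < cst v n := one_pos.trans_le (one_le_cst v hn1)
    rw [map_div₀]
    have h3 : v (M.adjugate p₀.1 p₀.2) / v M.det * b v ≤
        cst v n * b v ^ q / v M.det * b v :=
      mul_le_mul_of_nonneg_right (div_le_div_of_nonneg_right (hadjle v _ _) (v.nonneg _))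
        (hbpos v).le
    refine h3.trans ?_
    have h4 : cst v n * b v ^ q / v M.det * b v = Real.exp (Lo v) := by
      rw [hLo, Real.exp_sub, Real.exp_add, Real.exp_log hc0, Real.exp_log (v.pos hM)]
      have h5 : Real.exp ((q + 1) * Real.log (b v)) = b v ^ (q + 1) := by
        have h6 := Real.exp_nat_mul (Real.log (b v)) (q + 1)
        rw [Real.exp_log (hbpos v)] at h6
        push_cast at h6
        exact h6
      rw [h5, pow_succ]
      ring
    rw [h4]
    refine Real.exp_le_exp.2 ?_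
    have h5 : 0 ≤ (totalWeight K : ℝ) * Real.log n :=
      mul_nonneg (Nat.cast_nonneg _) (Real.log_natCast_nonneg _)
    linarith

end

section

variable {K : Type*} [Field K] {q : ℕ}

/-- The matrix with the columns `y s` and `e_(l₀)`. -/
def cm (l₀ : Fin (q + 1)) (y : Fin q → Fin (q + 1) → K) :
    Matrix (Fin (q + 1)) (Fin (q + 1)) K :=
  fun l k => l₀.insertNth (α := fun _ => K) (if l = l₀ then 1 else 0) (fun s => y s l) k

theorem cm_same (l₀ : Fin (q + 1)) (y : Fin q → Fin (q + 1) → K) (l : Fin (q + 1)) :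
    cm l₀ y l l₀ = if l = l₀ then 1 else 0 := by
  unfold cm
  rw [Fin.insertNth_apply_same]

theorem cm_succAbove (l₀ : Fin (q + 1)) (y : Fin q → Fin (q + 1) → K) (l : Fin (q + 1))
    (s : Fin q) : cm l₀ y l (l₀.succAbove s) = y s l := by
  unfold cm
  rw [Fin.insertNth_apply_succAbove]

theorem cm_mu (l₀ : Fin (q + 1)) (y : Fin q → Fin (q + 1) → K) (μ : Fin (q + 1) → K)
    (hμ : ∀ s, ∑ l, μ l * y s l = 0) (hμ0 : μ l₀ = 1) (k : Fin (q + 1)) :
    ∑ l, μ l * cm l₀ y l k = if k = l₀ then 1 else 0 := by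
  rcases Fin.eq_self_or_eq_succAbove l₀ k with h | ⟨s, h⟩
  · rw [h, if_pos rfl, Finset.sum_eq_single l₀]
    · rw [cm_same, if_pos rfl, hμ0, mul_one]
    · intro l _ hl
      rw [cm_same, if_neg hl, mul_zero]
    · intro h'
      exact absurd (Finset.mem_univ _) h'
  · rw [h, if_neg (Fin.succAbove_ne l₀ s), ← hμ s]
    exact Finset.sum_congr rfl fun l _ => by rw [cm_succAbove]

theorem cm_det (l₀ : Fin (q + 1)) (y : Fin q → Fin (q + 1) → K) (hy : LinearIndependent K y)
    (μ : Fin (q + 1) → K) (hμ : ∀ s, ∑ l, μ l * y s l = 0) (hμ0 : μ l₀ = 1) :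
    (cm l₀ y).det ≠ 0 := by
  intro h0
  rw [← Matrix.exists_mulVec_eq_zero_iff] at h0
  obtain ⟨x, hx0, hx⟩ := h0
  have h1 : x l₀ = 0 := by
    have h2 : ∑ l, μ l * (cm l₀ y).mulVec x l = x l₀ := by
      have h3 : ∀ l, μ l * (cm l₀ y).mulVec x l = ∑ k, μ l * cm l₀ y l k * x k := by
        intro l
        rw [Matrix.mulVec, dotProduct, Finset.mul_sum]
        exact Finset.sum_congr rfl fun k _ => (mul_assoc _ _ _).symm
      simp only [h3]
      rw [Finset.sum_comm]
      simp only [← Finset.sum_mul, cm_mu l₀ y μ hμ hμ0]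
      simp
    rw [← h2, hx]
    simp
  have h2 : ∑ s, x (l₀.succAbove s) • y s = 0 := by
    funext l
    have h3 := congrFun hx l
    rw [Matrix.mulVec, dotProduct, Fin.sum_univ_succAbove _ l₀, h1, mul_zero, zero_add] at h3
    simp only [cm_succAbove] at h3
    rw [Finset.sum_apply, ← h3]
    exact Finset.sum_congr rfl fun s _ => by rw [Pi.smul_apply, smul_eq_mul, mul_comm]
  have h3 := Fintype.linearIndependent_iff.1 hy _ h2
  apply hx0
  funext k
  rcases Fin.eq_self_or_eq_succAbove l₀ k with h | ⟨s, h⟩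
  · rw [h, h1]
    rfl
  · rw [h, h3]
    rfl

end

end Pool.Agent.Lib.MP_17a322_nt.SL
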