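import Pool.Agent.Lib.MP_17a322_nt.SL.R8

/-!
Forms of small height: a hyperplane spanned by small vectors has small height.
-/

universe u

namespace Pool.Agent.Lib.MP_17a322_nt.SL

open MvPolynomial Height Filter
open Pool.Agent.Lib.MP_17a322_nt.RO
open Pool.Agent.Lib.MP_17a322_nt.VJ
open Pool.Agent.Lib.MP_17a322_nt.VN
open Pool.Agent.Lib.MP_17a322_nt.VP

/-- Forms of small height: a hyperplane spanned by small vectors has small height. -/
theorem R0M {K : Type u} [Field K] [NumberField K] {H : ℕ → ℝ}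
    (hH : Tendsto H (hyperfilter ℕ : Filter ℕ) atTop) (Sg : Finset (AbsoluteValue K ℝ))
    (hSg : ∀ v ∈ Sg, Pl v) {q : ℕ} (M : AbsoluteValue K ℝ → ℕ → Matrix (Fin (q + 1)) (Fin (q + 1)) K)
    (hM : ∀ v ∈ Sg, oH H fun i => logHeight fun p : Fin (q + 1) × Fin (q + 1) => M v i p.1 p.2)
    (hdet : ∀ v ∈ Sg, ∀ᶠ i in (hyperfilter ℕ : Filter ℕ), (M v i).det ≠ 0)
    (c : AbsoluteValue K ℝ → Fin (q + 1) → ℝ) (hc : 0 ≤ tw Sg c)
    (y : ℕ → Fin q → Fin (q + 1) → K) (hy : ∀ᶠ i in (hyperfilter ℕ : Filter ℕ),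
      LinearIndependent K (y i)) (μ : ℕ → Fin (q + 1) → K)
    (hμ : ∀ᶠ i in (hyperfilter ℕ : Filter ℕ), ∀ s, ∑ l, μ i l * y i s l = 0)
    (l₀ : Fin (q + 1)) (hμ0 : ∀ᶠ i in (hyperfilter ℕ : Filter ℕ), μ i l₀ = 1)
    (κ : ℝ) (hκ : 0 < κ)
    (hsz : ∀ᶠ i in (hyperfilter ℕ : Filter ℕ), ∀ s,
      gs (sz Sg c (H i) (fun v => M v i) (y i s)) ≤ - κ * H i) (l : Fin (q + 1)) :
    oH H fun i => logHeight₁ (μ i l) := by
  classical
  intro ε hε
  by_cases hl : l = l₀
  · filter_upwards [hμ0, hH.eventually_ge_atTop 0] with i h1 h2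
    rw [hl, h1, logHeight₁_one]
    positivity
  by_contra hcon
  rw [not_eventually_iff] at hcon
  obtain ⟨m, h₀, R₀, hm, hh₀, hR₀, Hnum⟩ := RM_num Sg q c hc (κ / 2) ε (by positivity) hε
  have hh0 : 0 < h₀ := by linarith
  -- the total loss
  obtain ⟨n, hn⟩ : ∃ n : ℕ, n = Fintype.card (Equiv.Perm (Fin (q + 1))) := ⟨_, rfl⟩
  obtain ⟨lam, hlam⟩ : ∃ lam : ℕ → ℝ, ∀ i, lam i = 2 * (totalWeight K * Real.log (n : ℕ)) +
    ∑ v ∈ Sg, (q + 1) * logHeight (fun p : Fin (q + 1) × Fin (q + 1) => M v i p.1 p.2) :=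
    ⟨_, fun _ => rfl⟩
  have hlamoH : oH H lam := by
    have h1 : lam = fun i => 2 * (totalWeight K * Real.log (n : ℕ)) +
        ∑ v ∈ Sg, (q + 1) * logHeight (fun p : Fin (q + 1) × Fin (q + 1) => M v i p.1 p.2) :=
      funext hlam
    rw [h1]
    exact (oH_const hH _).add (oH.sum hH Sg _ fun v hv => (hM v hv).const_mul hH (by positivity))
  have hn0 : 0 ≤ (totalWeight K : ℝ) * Real.log (n : ℕ) :=
    mul_nonneg (Nat.cast_nonneg _) (Real.log_natCast_nonneg _)
  have hlamv : ∀ v ∈ Sg, ∀ i, 2 * (totalWeight K * Real.log (n : ℕ)) +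
      (q + 1) * logHeight (fun p : Fin (q + 1) × Fin (q + 1) => M v i p.1 p.2) ≤ lam i := by
    intro v hv i
    rw [hlam]
    refine add_le_add_right ?_ _
    exact Finset.single_le_sum (f := fun v => ((q : ℝ) + 1) *
      logHeight (fun p : Fin (q + 1) × Fin (q + 1) => M v i p.1 p.2))
      (fun v _ => mul_nonneg (by positivity) (logHeight_nonneg _)) hv
  have hlam0 : ∀ i, 0 ≤ lam i := by
    intro i
    rw [hlam]
    have h1 : 0 ≤ ∑ v ∈ Sg, ((q : ℝ) + 1) *
        logHeight (fun p : Fin (q + 1) × Fin (q + 1) => M v i p.1 p.2) :=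
      Finset.sum_nonneg fun v _ => mul_nonneg (by positivity) (logHeight_nonneg _)
    linarith
  obtain ⟨wS, hwS⟩ : ∃ wS : ℝ, wS = gs (fun v : AbsoluteValue K ℝ =>
    if v ∈ Sg then (1 : ℝ) else 0) := ⟨_, rfl⟩
  have hwS0 : 0 ≤ wS := by
    rw [hwS]
    refine gs_nonneg fun v _ => ?_
    split_ifs
    · exact zero_le_one
    · exact le_refl _
  -- the good indices
  have hgood : ∀ᶠ i in (hyperfilter ℕ : Filter ℕ), (∀ v ∈ Sg, (M v i).det ≠ 0) ∧
      (LinearIndependent K (y i) ∧ (∀ s, ∑ l, μ i l * y i s l = 0) ∧ μ i l₀ = 1 ∧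
        (∀ s, gs (sz Sg c (H i) (fun v => M v i) (y i s)) ≤ - κ * H i)) ∧
      (h₀ * R₀ ≤ H i ∧ h₀ * lam i ≤ H i ∧ lam i ≤ H i ∧ lam i * wS ≤ κ / 2 * H i ∧ 0 < H i) ∧
      ε * H i < logHeight₁ (μ i l) := by
    refine ((Finset.eventually_all Sg).2 hdet).and
      ((hy.and (hμ.and (hμ0.and hsz))).and (Filter.Eventually.and ?_ ?_))
    · filter_upwards [hH.eventually_ge_atTop (h₀ * R₀), hlamoH (1 / h₀) (by positivity),
        hlamoH 1 one_pos, hlamoH (κ / 2 / (wS + 1)) (by positivity), hH.eventually_gt_atTop 0]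
        with i h1 h2 h3 h4 h5
      refine ⟨h1, ?_, by linarith, ?_, h5⟩
      · have h6 := mul_le_mul_of_nonneg_left h2 hh0.le
        have h7 : h₀ * (1 / h₀ * H i) = H i := by field_simp
        linarith
      · have h6 : lam i * (wS + 1) ≤ κ / 2 / (wS + 1) * H i * (wS + 1) :=
          mul_le_mul_of_nonneg_right h4 (by linarith)
        have h7 : κ / 2 / (wS + 1) * H i * (wS + 1) = κ / 2 * H i := by field_simp
        have h8 := hlam0 i
        linarith
    · filter_upwards [hcon] with i h1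
      exact not_le.1 h1
  obtain ⟨g, hg1, hg2⟩ := R_chain H hH _ hgood R₀ hR₀ m
  -- the matrices
  have hmat : ∀ v ∈ Sg, ∀ k : Fin m, ∃ A N : Matrix (Fin (q + 1)) (Fin (q + 1)) K, A * N = 1 ∧
      (∃ p : Fin (q + 1) × Fin (q + 1), A p.1 p.2 = 1) ∧
      logHeight (fun p : Fin (q + 1) × Fin (q + 1) => A p.1 p.2) ≤ lam (g k) ∧
      ∃ a : K, N = a • M v (g k) ∧
        v a * (⨆ p : Fin (q + 1) × Fin (q + 1), v (M v (g k) p.1 p.2)) ≤
          Real.exp (lam (g k)) := by
    intro v hv k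
    obtain ⟨A, N, h1, h2, h3, a, h4, h5⟩ := RM_adj (M v (g k)) ((hg1 k).1 v hv)
    rw [← hn] at h3 h5
    have h6 := hlamv v hv (g k)
    refine ⟨A, N, h1, h2, by linarith, a, h4, (h5 v (hSg v hv)).trans (Real.exp_le_exp.2 h6)⟩
  choose! A N hAN1 hAN2 hAN3 hN using hmat
  have hμk : ∀ k, ∀ s, ∑ l, μ (g k) l * y (g k) s l = 0 := fun k => (hg1 k).2.1.2.1
  have hμ0k : ∀ k, μ (g k) l₀ = 1 := fun k => (hg1 k).2.1.2.2.1
  have hyk : ∀ k, LinearIndependent K (y (g k)) := fun k => (hg1 k).2.1.1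
  have hyne : ∀ k s, y (g k) s ≠ 0 := fun k s => (hyk k).ne_zero s
  have hHk : ∀ k, 0 < H (g k) := fun k => (hg1 k).2.2.1.2.2.2.2
  -- the sizes
  obtain ⟨σ, hσ⟩ : ∃ σ : AbsoluteValue K ℝ → Fin m → Fin (q + 1) → ℝ, ∀ v k x, σ v k x =
    l₀.insertNth (α := fun _ => ℝ) ((∑ l, |c v l| + 1) * H (g k))
      (fun s => lam (g k) + sz Sg c (H (g k)) (fun v => M v (g k)) (y (g k) s) v) x :=
    ⟨_, fun _ _ _ => rfl⟩
  have hσ0 : ∀ v k, σ v k l₀ = (∑ l, |c v l| + 1) * H (g k) := fun v k => by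
    rw [hσ, Fin.insertNth_apply_same]
  have hσ1 : ∀ v k s, σ v k (l₀.succAbove s) =
      lam (g k) + sz Sg c (H (g k)) (fun v => M v (g k)) (y (g k) s) v := fun v k s => by
    rw [hσ, Fin.insertNth_apply_succAbove]
  have hNE : ∀ v ∈ Sg, ∀ (k : Fin m) (x z : Fin (q + 1)),
      v ((N v k * cm l₀ (y (g k))) x z) ≤ Real.exp (σ v k z - c v x * H (g k)) := by
    intro v hv k x z
    obtain ⟨a, ha1, ha2⟩ := hN v hv k
    obtain ⟨bM, hbM⟩ : ∃ bM : ℝ, bM = ⨆ p : Fin (q + 1) × Fin (q + 1),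
      v (M v (g k) p.1 p.2) := ⟨_, rfl⟩
    rw [← hbM] at ha2
    have hbMle : ∀ i j, v (M v (g k) i j) ≤ bM := fun i j => by
      rw [hbM]
      exact le_ciSup (f := fun p : Fin (q + 1) × Fin (q + 1) => v (M v (g k) p.1 p.2))
        (Set.finite_range _).bddAbove (i, j)
    rcases Fin.eq_self_or_eq_succAbove l₀ z with h | ⟨s, h⟩
    · have h1 : (N v k * cm l₀ (y (g k))) x z = a * M v (g k) x l₀ := by
        rw [h, Matrix.mul_apply, Finset.sum_eq_single l₀]
        · rw [cm_same, if_pos rfl, mul_one, ha1, Matrix.smul_apply, smul_eq_mul]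
        · intro l' _ hl'
          rw [cm_same, if_neg hl', mul_zero]
        · intro h'
          exact absurd (Finset.mem_univ _) h'
      rw [h1, h, hσ0, map_mul]
      refine (mul_le_mul_of_nonneg_left (hbMle x l₀) (v.nonneg _)).trans (ha2.trans
        (Real.exp_le_exp.2 ?_))
      have h2 := (hg1 k).2.2.1.2.2.1
      have h3 : c v x ≤ ∑ l, |c v l| := (le_abs_self _).trans
        (Finset.single_le_sum (f := fun l => |c v l|) (fun l _ => abs_nonneg _)
          (Finset.mem_univ x))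
      have h4 := mul_le_mul_of_nonneg_right h3 (hHk k).le
      linarith
    · have h1 : (N v k * cm l₀ (y (g k))) x z = a * (M v (g k)).mulVec (y (g k) s) x := by
        rw [h, Matrix.mul_apply, Matrix.mulVec, dotProduct, Finset.mul_sum]
        refine Finset.sum_congr rfl fun l' _ => ?_
        rw [cm_succAbove, ha1, Matrix.smul_apply, smul_eq_mul, mul_assoc]
      have hdetk := (hg1 k).1 v hv
      obtain ⟨S, hS⟩ : ∃ S : ℝ, S = ⨆ j, v ((M v (g k)).mulVec (y (g k) s) j) *
        Real.exp (c v j * H (g k)) := ⟨_, rfl⟩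
      have hSle : ∀ j, v ((M v (g k)).mulVec (y (g k) s) j) *
          Real.exp (c v j * H (g k)) ≤ S := fun j => by
        rw [hS]
        exact le_ciSup (f := fun j => v ((M v (g k)).mulVec (y (g k) s) j) *
          Real.exp (c v j * H (g k))) (Set.finite_range _).bddAbove j
      have hMy : (M v (g k)).mulVec (y (g k) s) ≠ 0 := by
        intro h0
        apply hdetk
        rw [← Matrix.exists_mulVec_eq_zero_iff]
        exact ⟨y (g k) s, hyne k s, h0⟩
      have hSpos : 0 < S := by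
        obtain ⟨j, hj⟩ : ∃ j, (M v (g k)).mulVec (y (g k) s) j ≠ 0 := by
          by_contra hcon
          push Not at hcon
          exact hMy (funext hcon)
        exact (mul_pos (v.pos hj) (Real.exp_pos _)).trans_le (hSle j)
      have hbMpos : 0 < bM := by
        obtain ⟨p, hp⟩ : ∃ p : Fin (q + 1) × Fin (q + 1), M v (g k) p.1 p.2 ≠ 0 := by
          by_contra hcon
          push Not at hcon
          apply hdetk
          have h2 : M v (g k) = 0 := Matrix.ext fun i j => hcon (i, j)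
          rw [h2]
          exact Matrix.det_zero
        exact (v.pos hp).trans_le (hbMle p.1 p.2)
      have hszv : sz Sg c (H (g k)) (fun v => M v (g k)) (y (g k) s) v =
          Real.log S - Real.log bM := by
        unfold sz
        rw [if_pos hv, hS, hbM]
      have h2 : v ((M v (g k)).mulVec (y (g k) s) x) ≤
          S * Real.exp (- (c v x * H (g k))) := by
        have h3 := hSle x
        rw [Real.exp_neg, ← div_eq_mul_inv, le_div_iff₀ (Real.exp_pos _)]
        exact h3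
      rw [h1, h, hσ1, hszv, map_mul]
      have h3 : v a ≤ Real.exp (lam (g k)) / bM := by
        rw [le_div_iff₀ hbMpos]
        exact ha2
      have h4 : v a * v ((M v (g k)).mulVec (y (g k) s) x) ≤
          Real.exp (lam (g k)) / bM * (S * Real.exp (- (c v x * H (g k)))) :=
        mul_le_mul h3 h2 (v.nonneg _) (div_nonneg (Real.exp_pos _).le hbMpos.le)
      refine h4.trans (le_of_eq ?_)
      have h5 : Real.exp (lam (g k) + (Real.log S - Real.log bM) - c v x * H (g k)) =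
          Real.exp (lam (g k)) * (S / bM) * Real.exp (- (c v x * H (g k))) := by
        rw [sub_eq_add_neg _ (c v x * H (g k)), Real.exp_add, Real.exp_add, Real.exp_sub,
          Real.exp_log hSpos, Real.exp_log hbMpos]
      rw [h5]
      ring
  have hσgs : ∀ (k : Fin m) (z : Fin (q + 1)), z ≠ l₀ → gs (fun v : AbsoluteValue K ℝ =>
      if v ∈ Sg then σ v k z else Real.log (⨆ x, v (cm l₀ (y (g k)) x z))) ≤
      - (κ / 2) * H (g k) := by
    intro k z hz
    rcases Fin.eq_self_or_eq_succAbove l₀ z with h | ⟨s, h⟩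
    · exact absurd h hz
    · have h1 : (fun v : AbsoluteValue K ℝ => if v ∈ Sg then σ v k z else
          Real.log (⨆ x, v (cm l₀ (y (g k)) x z))) =
          fun v : AbsoluteValue K ℝ => (lam (g k)) * (if v ∈ Sg then (1 : ℝ) else 0) +
            sz Sg c (H (g k)) (fun v => M v (g k)) (y (g k) s) v := by
        funext v
        by_cases hv : v ∈ Sg
        · rw [if_pos hv, if_pos hv, mul_one, h, hσ1]
        · rw [if_neg hv, if_neg hv, mul_zero, zero_add, h]
          unfold sz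
          rw [if_neg hv]
          simp only [cm_succAbove]
      have h2 : FS (fun v : AbsoluteValue K ℝ =>
          sz Sg c (H (g k)) (fun v => M v (g k)) (y (g k) s) v) := by
        have h3 : (fun v : AbsoluteValue K ℝ =>
            sz Sg c (H (g k)) (fun v => M v (g k)) (y (g k) s) v) =
            fun v : AbsoluteValue K ℝ => (if v ∈ Sg then
              sz Sg c (H (g k)) (fun v => M v (g k)) (y (g k) s) v -
                Real.log (⨆ l, v (y (g k) s l)) else 0) + Real.log (⨆ l, v (y (g k) s l)) := by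
          funext v
          by_cases hv : v ∈ Sg
          · rw [if_pos hv]
            ring
          · rw [if_neg hv, zero_add]
            unfold sz
            rw [if_neg hv]
        rw [h3]
        exact FS_add (R_FS_ind Sg _) (FS_log_iSup (hyne k s))
      rw [h1, gs_add (FS_const_mul _ (R_FS_ind Sg _)) h2, gs_const_mul, ← hwS]
      have h3 := (hg1 k).2.1.2.2.2 s
      have h4 := (hg1 k).2.2.1.2.2.2.1
      linarith
  obtain ⟨k, hk⟩ := Hnum (fun k => H (g k)) A N (fun k => cm l₀ (y (g k))) (fun k => μ (g k)) σ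
    l₀ l hl (fun k => (hg1 k).2.2.1.1) hg2
    (fun v hv k => ⟨hAN1 v hv k, hAN2 v hv k, by
      have h1 := mul_le_mul_of_nonneg_left (hAN3 v hv k) hh0.le
      exact h1.trans (hg1 k).2.2.1.2.1⟩)
    (fun k => cm_det l₀ (y (g k)) (hyk k) (μ (g k)) (hμk k) (hμ0k k))
    (fun k x => cm_same l₀ (y (g k)) x)
    (fun k x => cm_mu l₀ (y (g k)) (μ (g k)) (hμk k) (hμ0k k) x)
    hNE (fun v _ k => (hσ0 v k).le) hσgs
  have h1 := (hg1 k).2.2.2
  linarith

end Pool.Agent.Lib.MP_17a322_nt.SL
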