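import Pool.Agent.Lib.MP_17a322_nt.SL.Z7

/-!
The choice of the linear forms at one place: linear algebra.
-/

universe u

namespace Pool.Agent.Lib.MP_17a322_nt.SL

/-- Independent vectors are completed by vectors `U`. -/
theorem ZC_ext {K : Type*} [Field K] {r g s : ℕ} (G : Fin g → Fin (r + g) → K)
    (L : Fin s → Fin (r + g) → K) (U : Fin (r + g) → Fin (r + g) → K)
    (hU : ∀ x, x ∈ Submodule.span K (Set.range U)) (J : Finset (Fin s))
    (hJ : LinearIndependent K (Sum.elim G fun j : J => L j)) :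
    ∃ θ : Fin r → Fin s ⊕ Fin (r + g), Function.Injective θ ∧
      (∀ j ∈ J, ∃ k, θ k = Sum.inl j) ∧ (∀ k j, θ k = Sum.inl j → j ∈ J) ∧
      (stk (fun k => Sum.elim L U (θ k)) G).det ≠ 0 := by
  classical
  obtain ⟨vv, hvv⟩ : ∃ vv : Fin g ⊕ (Fin s ⊕ Fin (r + g)) → Fin (r + g) → K,
    vv = Sum.elim G (Sum.elim L U) := ⟨_, rfl⟩
  obtain ⟨f, hf⟩ : ∃ f : Fin g ⊕ J → Fin g ⊕ (Fin s ⊕ Fin (r + g)),
    f = Sum.elim Sum.inl fun j => Sum.inr (Sum.inl j.1) := ⟨_, rfl⟩
  have hfinj : Function.Injective f := by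
    rw [hf]
    rintro (x | x) (y | y) h
    · rw [Sum.inl_injective h]
    · exact absurd h (by simp)
    · exact absurd h (by simp)
    · have h1 := Sum.inl_injective (Sum.inr_injective h)
      rw [Subtype.ext h1]
  have hs : LinearIndepOn K vv (Set.range f) := by
    rw [linearIndepOn_range_iff hfinj]
    have h1 : vv ∘ f = Sum.elim G fun j : J => L j := by
      funext x
      rw [hvv, hf]
      rcases x with x | x <;> rfl
    rw [h1]
    exact hJ
  obtain ⟨t, ht⟩ : ∃ t : Set (Fin g ⊕ (Fin s ⊕ Fin (r + g))),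
    t = Set.range f ∪ Set.range fun l => Sum.inr (Sum.inr l) := ⟨_, rfl⟩
  have hst : Set.range f ⊆ t := ht ▸ Set.subset_union_left
  obtain ⟨b, hb⟩ : ∃ b, b = hs.extend hst := ⟨_, rfl⟩
  have hb1 : Set.range f ⊆ b := hb ▸ hs.subset_extend hst
  have hb2 : b ⊆ t := hb ▸ hs.extend_subset hst
  have hb3 : LinearIndependent K fun x : b => vv x := hb ▸ hs.linearIndepOn_extend hst
  have hb4 : Submodule.span K (vv '' b) = Submodule.span K (vv '' t) :=
    hb ▸ hs.span_image_extend_eq_span_image hst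
  have hb5 : Submodule.span K (vv '' b) = ⊤ := by
    rw [hb4, eq_top_iff]
    intro x _
    refine Submodule.span_mono ?_ (hU x)
    rintro _ ⟨l, rfl⟩
    refine ⟨Sum.inr (Sum.inr l), ?_, ?_⟩
    · rw [ht]
      exact Or.inr ⟨l, rfl⟩
    · rw [hvv]
      rfl
  have hcard : Fintype.card b = r + g := by
    have h1 := finrank_span_eq_card hb3
    rw [← h1]
    have h2 : (Set.range fun x : b => vv x) = vv '' b := by
      ext z
      simp
    rw [h2, hb5, finrank_top, Module.finrank_fintype_fun_eq_card, Fintype.card_fin]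
  obtain ⟨b', hb'⟩ : ∃ b' : Finset (Fin s ⊕ Fin (r + g)),
    b' = Finset.univ.filter fun y => Sum.inr y ∈ b := ⟨_, rfl⟩
  have hmem : ∀ y, y ∈ b' ↔ Sum.inr y ∈ b := fun y => by
    rw [hb', Finset.mem_filter]
    exact ⟨fun h => h.2, fun h => ⟨Finset.mem_univ _, h⟩⟩
  have hbinl : ∀ a, (Sum.inl a : Fin g ⊕ (Fin s ⊕ Fin (r + g))) ∈ b := fun a =>
    hb1 ⟨Sum.inl a, by rw [hf]; rfl⟩
  have hcard' : b'.card = r := by
    have h1 : Fintype.card b = Fintype.card (Fin g ⊕ b') := by
      refine Fintype.card_congr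
        { toFun := fun x => match x with
            | ⟨Sum.inl a, _⟩ => Sum.inl a
            | ⟨Sum.inr y, h⟩ => Sum.inr ⟨y, (hmem y).2 h⟩
          invFun := fun x => match x with
            | Sum.inl a => ⟨Sum.inl a, hbinl a⟩
            | Sum.inr y => ⟨Sum.inr y.1, (hmem y.1).1 y.2⟩
          left_inv := fun x => ?_
          right_inv := fun x => ?_ }
      · rcases x with ⟨x | x, hx⟩ <;> rfl
      · rcases x with x | x <;> rfl
    rw [hcard, Fintype.card_sum, Fintype.card_fin, Fintype.card_coe] at h1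
    omega
  obtain ⟨e, -⟩ : ∃ e : Fin r ≃ b', True :=
    ⟨(Fintype.equivFinOfCardEq ((Fintype.card_coe b').trans hcard')).symm, trivial⟩
  refine ⟨fun k => (e k : Fin s ⊕ Fin (r + g)), fun k k' h => e.injective (Subtype.ext h),
    fun j hj => ?_, fun k j hk => ?_, ?_⟩
  · have h1 : (Sum.inl j : Fin s ⊕ Fin (r + g)) ∈ b' :=
      (hmem _).2 (hb1 ⟨Sum.inr ⟨j, hj⟩, by rw [hf]; rfl⟩)
    refine ⟨e.symm ⟨_, h1⟩, ?_⟩
    show ((e (e.symm ⟨_, h1⟩) : b') : Fin s ⊕ Fin (r + g)) = _
    rw [Equiv.apply_symm_apply]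
  · have h1 : Sum.inr (Sum.inl j) ∈ b := (hmem _).1 (hk ▸ (e k).2)
    have h2 := hb2 h1
    rw [ht] at h2
    rcases h2 with ⟨x, hx⟩ | ⟨l, hl⟩
    · rw [hf] at hx
      rcases x with x | x
      · exact absurd hx (by simp)
      · have h3 := Sum.inl_injective (Sum.inr_injective hx)
        rw [← h3]
        exact x.2
    · exact absurd hl (by simp)
  · obtain ⟨η, hη⟩ : ∃ η : Fin r ⊕ Fin g → b, η = Sum.elim
      (fun k => ⟨Sum.inr (e k : Fin s ⊕ Fin (r + g)), (hmem _).1 (e k).2⟩)
      fun a => ⟨Sum.inl a, hbinl a⟩ := ⟨_, rfl⟩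
    have hηinj : Function.Injective η := by
      rw [hη]
      rintro (x | x) (y | y) h
      · have h1 := congrArg Subtype.val h
        have h2 := Sum.inr_injective h1
        rw [e.injective (Subtype.ext h2)]
      · exact absurd (congrArg Subtype.val h) (by simp)
      · exact absurd (congrArg Subtype.val h) (by simp)
      · have h1 := congrArg Subtype.val h
        rw [Sum.inl_injective h1]
    have h1 := hb3.comp η hηinj
    have h2 := h1.comp (finSumFinEquiv (m := r) (n := g)).symm (Equiv.injective _)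
    have h3 : ((fun x : b => vv x) ∘ η) ∘ (finSumFinEquiv (m := r) (n := g)).symm =
        (stk (fun k => Sum.elim L U (e k : Fin s ⊕ Fin (r + g))) G).row := by
      funext i
      obtain ⟨x, rfl⟩ := (finSumFinEquiv (m := r) (n := g)).surjective i
      rw [Function.comp_apply, Equiv.symm_apply_apply, Function.comp_apply]
      funext l
      rcases x with x | x
      · show _ = stk _ G (finSumFinEquiv (Sum.inl x)) l
        rw [stk_inl, hvv, hη]
        rfl
      · show _ = stk _ G (finSumFinEquiv (Sum.inr x)) l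
        rw [stk_inr, hvv, hη]
        rfl
    rw [h3, Matrix.linearIndependent_rows_iff_isUnit, Matrix.isUnit_iff_isUnit_det] at h2
    exact h2.ne_zero

/-- The elements with the largest values. -/
theorem ZC_top {ι : Type*} [DecidableEq ι] (J : Finset ι) (l : ι → ℝ) (r : ℕ)
    (hr : r ≤ J.card) :
    ∃ J' ⊆ J, J'.card = r ∧ ∀ j ∈ J, j ∉ J' → ∀ j' ∈ J', l j ≤ l j' := by
  classical
  have hne : (Finset.powersetCard r J).Nonempty := Finset.powersetCard_nonempty.2 hr
  obtain ⟨J', hJ', hmax⟩ := Finset.exists_max_image (Finset.powersetCard r J)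
    (fun T => ∑ j ∈ T, l j) hne
  rw [Finset.mem_powersetCard] at hJ'
  refine ⟨J', hJ'.1, hJ'.2, fun j hj hjn j' hj' => ?_⟩
  by_contra hlt
  rw [not_le] at hlt
  have hnot : j ∉ J'.erase j' := fun h => hjn (Finset.mem_of_mem_erase h)
  have h1 := hmax (insert j (J'.erase j')) (by
    rw [Finset.mem_powersetCard]
    refine ⟨?_, ?_⟩
    · rw [Finset.insert_subset_iff]
      exact ⟨hj, (Finset.erase_subset _ _).trans hJ'.1⟩
    · rw [Finset.card_insert_of_notMem hnot, Finset.card_erase_of_mem hj', ← hJ'.2]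
      have h2 : 0 < J'.card := Finset.card_pos.2 ⟨j', hj'⟩
      omega)
  rw [Finset.sum_insert hnot] at h1
  have h2 := Finset.add_sum_erase J' l hj'
  linarith

end Pool.Agent.Lib.MP_17a322_nt.SL
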