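import Pool.Agent.Lib.MP_17a322_nt.SL.Z3a

/-!
The limits of the local heights at one place.
-/

universe u

namespace Pool.Agent.Lib.MP_17a322_nt.SL

open MvPolynomial Height Filter
open Pool.Agent.Lib.MP_17a322_nt.RO
open Pool.Agent.Lib.MP_17a322_nt.VJ
open Pool.Agent.Lib.MP_17a322_nt.VN hiding lf
open Pool.Agent.Lib.MP_17a322_nt.VA
open Pool.Agent.Lib.MP_17a322_nt.VP

section

variable {K : Type u} [Field K] [NumberField K] {N : ℕ}

/-- The value of a moving linear form. -/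
theorem ZC_val {D n : ℕ} (f : Fin n → MvPolynomial (Fin (N + 1)) K)
    (hf : ∀ l, (f l).IsHomogeneous D) :
    ∃ b : AbsoluteValue K ℝ → ℝ, FS b ∧ (∀ v, 0 ≤ b v) ∧ ∀ x : Fin (N + 1) → K, x ≠ 0 →
      ∀ X : Fin n → K, X ≠ 0 → ∀ v, ∑ l, aeval x (f l) * X l ≠ 0 →
        - b v ≤ lamL D f x X v := by
  obtain ⟨b, hb, hb0, hbb⟩ := Z_bd f hf
  refine ⟨fun v => b v + Real.log (cst v (n + 1)), FS_add hb (FS_log_cst _), fun v =>
    add_nonneg (hb0 v) (Z_cst_log v (n + 1) n.succ_pos).1, fun x hx X hX v hne => ?_⟩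
  have hs0 : 0 < ⨆ a, v (x a) := P_sup_pos hx v
  have hX0 : 0 < ⨆ l, v (X l) := vm_pos v hX
  have h1 : v (∑ l, aeval x (f l) * X l) ≤ cst v (n + 1) *
      (Real.exp (b v) * (⨆ a, v (x a)) ^ D * ⨆ l, v (X l)) := by
    have h2 := (SN_self v).sum_le (Finset.univ : Finset (Fin n)) (fun l => aeval x (f l) * X l)
      (B := Real.exp (b v) * (⨆ a, v (x a)) ^ D * ⨆ l, v (X l)) (by positivity) fun l _ => by
        show v (aeval x (f l) * X l) ≤ _
        rw [map_mul]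
        exact mul_le_mul (hbb x hx v l)
          (le_ciSup (Set.finite_range fun l => v (X l)).bddAbove l) (v.nonneg _) (by positivity)
    refine h2.trans (mul_le_mul_of_nonneg_right ?_ (by positivity))
    rw [Finset.card_univ, Fintype.card_fin]
    unfold cst
    split_ifs
    · exact le_rfl
    · push_cast
      linarith
  have hc := Z_cst_pos v (n + 1) n.succ_pos
  have h2 := Real.log_le_log (v.pos hne) h1
  have h3 : 0 < Real.exp (b v) * (⨆ a, v (x a)) ^ D := by positivity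
  rw [Real.log_mul hc.ne' (mul_pos h3 hX0).ne', Real.log_mul h3.ne' hX0.ne',
    Real.log_mul (Real.exp_pos _).ne' (pow_pos hs0 D).ne', Real.log_exp, Real.log_pow] at h2
  unfold lamL
  linarith

variable (A : AV K N)
  {H : ℕ → ℝ} (hH : Tendsto H (hyperfilter ℕ : Filter ℕ) atTop) (P : ℕ → A.Pts K)
  (hupp : ∃ C : ℝ, 0 < C ∧ ∀ᶠ i in (hyperfilter ℕ : Filter ℕ), A.h (P i) ≤ C * H i)
  {v : AbsoluteValue K ℝ} (hv : Pl v) {n : ℕ} (D : ℕ)
  (f : Fin n → MvPolynomial (Fin (N + 1)) K) (hf : ∀ l, (f l).IsHomogeneous D)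
  (X : ℕ → Fin n → K) (hX0 : ∀ᶠ i in (hyperfilter ℕ : Filter ℕ), X i ≠ 0)
  (hXh : ∃ C : ℝ, ∀ᶠ i in (hyperfilter ℕ : Filter ℕ), logHeight (X i) ≤ C * H i)
  (hne : ∀ᶠ i in (hyperfilter ℕ : Filter ℕ), ∑ l, aeval (A.x (P i)) (f l) * X i l ≠ 0)

include hH hupp hv hf hX0 hXh hne in
/-- The limit of the local height. -/
theorem ZC_lim : ∃ l : ℝ, 0 ≤ l ∧ ∀ κ : ℝ, 0 < κ → ∀ᶠ i in (hyperfilter ℕ : Filter ℕ),
    (l - κ) * H i ≤ lamL D f (A.x (P i)) (X i) v ∧
      lamL D f (A.x (P i)) (X i) v ≤ (l + κ) * H i := by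
  obtain ⟨b, hb, hb0, hbb⟩ := ZC_val f hf
  obtain ⟨C, hC0, hC⟩ := hupp
  obtain ⟨C', hC'⟩ := hXh
  have hlow : ∀ κ : ℝ, 0 < κ → ∀ᶠ i in (hyperfilter ℕ : Filter ℕ),
      - κ * H i ≤ lamL D f (A.x (P i)) (X i) v := by
    intro κ hκ
    filter_upwards [hX0, hne, hH.eventually (eventually_ge_atTop (b v / κ))] with i h1 h2 h3
    rw [div_le_iff₀ hκ] at h3
    have h4 := hbb (A.x (P i)) (Z_x_ne A _) (X i) h1 v h2
    linarith
  have hup : ∀ᶠ i in (hyperfilter ℕ : Filter ℕ),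
      lamL D f (A.x (P i)) (X i) v ≤ (C' + D * C + 1) * H i := by
    filter_upwards [hX0, hne, hC, hC', hH.eventually (eventually_ge_atTop (gs b))]
      with i h1 h2 h3 h4 h5
    have hx0 : A.x (P i) ≠ 0 := Z_x_ne A _
    have f1 : FS fun w : AbsoluteValue K ℝ => Real.log (⨆ l, w (X i l)) := FS_log_iSup h1
    have f2 : FS fun w : AbsoluteValue K ℝ => D * Real.log (⨆ a, w (A.x (P i) a)) :=
      FS_const_mul _ (FS_log_iSup hx0)
    have f3 : FS fun w : AbsoluteValue K ℝ =>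
      Real.log (w (∑ l, aeval (A.x (P i)) (f l) * X i l)) := FS_log_abv h2
    have h6 : gs (fun w : AbsoluteValue K ℝ => Real.log (⨆ l, w (X i l)) +
        D * Real.log (⨆ a, w (A.x (P i) a)) -
        Real.log (w (∑ l, aeval (A.x (P i)) (f l) * X i l)) + b w) =
        logHeight (X i) + D * logHeight (A.x (P i)) + gs b := by
      rw [gs_add (FS_sub (FS_add f1 f2) f3) hb, gs_sub (FS_add f1 f2) f3, gs_add f1 f2,
        gs_log_iSup h1, gs_const_mul, gs_log_iSup hx0, gs_log_abv h2, sub_zero]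
    have h7 := VD.gs_single (FS_add (FS_sub (FS_add f1 f2) f3) hb) (fun w _ => by
      have h8 := hbb (A.x (P i)) hx0 (X i) h1 w h2
      unfold lamL at h8
      linarith) hv
    have h8 : lamL D f (A.x (P i)) (X i) v ≤
        logHeight (X i) + D * logHeight (A.x (P i)) + gs b := by
      rw [← h6]
      refine le_trans ?_ h7
      have h9 := hb0 v
      unfold lamL
      linarith
    refine h8.trans ?_
    have h9 : (D : ℝ) * logHeight (A.x (P i)) ≤ D * (C * H i) :=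
      mul_le_mul_of_nonneg_left h3 (Nat.cast_nonneg _)
    have h10 : (C' + D * C + 1) * H i = C' * H i + D * (C * H i) + H i := by ring
    rw [h10]
    linarith
  obtain ⟨l, -, -, hl⟩ := S_lim (fun i => lamL D f (A.x (P i)) (X i) v / H i) (A := -1)
    (B := C' + D * C + 1) (by
      filter_upwards [hlow 1 one_pos, hup, hH.eventually (eventually_gt_atTop 0)]
        with i h1 h2 h3
      exact ⟨(le_div_iff₀ h3).2 h1, (div_le_iff₀ h3).2 h2⟩)
  refine ⟨l, ?_, fun κ hκ => ?_⟩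
  · by_contra hneg
    rw [not_le] at hneg
    have h1 : 0 < - l / 4 := by linarith
    obtain ⟨i, h2, h3, h4⟩ := ((hl _ h1).and ((hlow _ h1).and
      (hH.eventually (eventually_gt_atTop 0)))).exists
    rw [abs_le] at h2
    have h5 : - (- l / 4) ≤ lamL D f (A.x (P i)) (X i) v / H i := (le_div_iff₀ h4).2 h3
    linarith [h2.2]
  · filter_upwards [hl κ hκ, hH.eventually (eventually_gt_atTop 0)] with i h1 h2
    rw [abs_le] at h1
    constructor
    · rw [← le_div_iff₀ h2]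
      linarith [h1.1]
    · rw [← div_le_iff₀ h2]
      linarith [h1.2]

end

/-- Not all of `r` independent linear forms can be small. -/
theorem ZC_min {K : Type u} [Field K] [NumberField K] {N : ℕ} (A : AV K N)
    (Γ : AddSubgroup (A.Pts K)) (hΓ : Γ.FG) {H : ℕ → ℝ}
    (hH : Tendsto H (hyperfilter ℕ : Filter ℕ) atTop) (P : ℕ → A.Pts K) (hPΓ : ∀ i, P i ∈ Γ)
    (hupp : ∃ C : ℝ, 0 < C ∧ ∀ᶠ i in (hyperfilter ℕ : Filter ℕ), A.h (P i) ≤ C * H i)
    {p : A.Pts (GK K)} (hPp : IsGerm A P p) {v : AbsoluteValue K ℝ} (hv : Pl v)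
    {r g : ℕ} (D : ℕ)
    (G : Fin g → Fin (r + g) → MvPolynomial (Fin (N + 1)) K)
    (hG : ∀ a l, (G a l).IsHomogeneous D)
    (M : Fin r → Fin (r + g) → MvPolynomial (Fin (N + 1)) K)
    (hM : ∀ j l, (M j l).IsHomogeneous D)
    (hdet : ∀ᶠ i in (hyperfilter ℕ : Filter ℕ), aeval (A.x (P i)) (stk M G).det ≠ 0)
    (X : ℕ → Fin (r + g) → K) (hX0 : ∀ᶠ i in (hyperfilter ℕ : Filter ℕ), X i ≠ 0)
    (hGX : ∀ᶠ i in (hyperfilter ℕ : Filter ℕ), ∀ a, ∑ l, aeval (A.x (P i)) (G a l) * X i l = 0)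
    (c : Fin r → ℝ)
    (hval : ∀ δ : ℝ, 0 < δ → ∀ᶠ i in (hyperfilter ℕ : Filter ℕ), ∀ k,
        v (∑ l, aeval (A.x (P i)) (M k l) * X i l) * Real.exp (c k * H i) ≤
          (⨆ l, v (X i l)) * (⨆ a, v (A.x (P i) a)) ^ D * Real.exp (δ * H i)) :
    ∃ k, c k ≤ 0 := by
  classical
  by_contra hcon
  push Not at hcon
  -- a common lower bound of the weights
  obtain ⟨κ, hκ, hκc⟩ : ∃ κ : ℝ, 0 < κ ∧ ∀ k, 4 * κ ≤ c k := by
    rcases isEmpty_or_nonempty (Fin r) with he | he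
    · exact ⟨1, one_pos, fun k => he.elim k⟩
    · obtain ⟨k₀, hk₀⟩ := Finite.exists_min c
      exact ⟨c k₀ / 4, by linarith [hcon k₀], fun k => by linarith [hk₀ k]⟩
  obtain ⟨b, hb, hb0, hbb⟩ := Z_bd (fun p : Fin (r + g) × Fin (r + g) =>
    (stk M G).adjugate p.1 p.2) fun p => Z_adj_homog (Z_stk_hom hM hG) _ _
  have hlow := H_det_low A Γ hΓ P hPΓ hH hupp hPp hv (Z_stk_hom hM hG) hdet κ hκ
  obtain ⟨i, h1, h2, h3, h4, h5, h6, h7⟩ := (hlow.and (hdet.and (hX0.and (hGX.and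
    ((hval κ hκ).and ((hH.eventually (eventually_gt_atTop 0)).and
      (hH.eventually (eventually_gt_atTop ((b v + Real.log (r + g + 1 : ℕ)) / κ))))))))).exists
  rw [div_lt_iff₀ hκ] at h7
  obtain ⟨x, hx⟩ : ∃ x, x = A.x (P i) := ⟨_, rfl⟩
  have hx0 : x ≠ 0 := hx ▸ Z_x_ne A _
  rw [← hx] at h1 h2 h4 h5
  have hs0 : 0 < ⨆ a, v (x a) := P_sup_pos hx0 v
  have hXs : 0 < ⨆ l, v (X i l) := vm_pos v h3
  obtain ⟨l₀, hl₀⟩ := Function.ne_iff.1 h3
  have hn : 0 < r + g := lt_of_le_of_lt (Nat.zero_le _) l₀.2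
  have : Nonempty (Fin (r + g)) := ⟨l₀⟩
  obtain ⟨W, hW⟩ : ∃ W : Matrix (Fin (r + g)) (Fin (r + g)) K, W =
    stk (fun k l => aeval x (M k l)) fun a l => aeval x (G a l) := ⟨_, rfl⟩
  -- the values of the forms
  have hWX : ∀ k, v (W.mulVec (X i) k) ≤
      (⨆ l, v (X i l)) * (⨆ a, v (x a)) ^ D * Real.exp (- (3 * κ) * H i) := by
    intro k
    refine Fin.addCases (fun k => ?_) (fun a => ?_) k
    · rw [hW, Z_mulVec_L]
      have h8 := h5 k
      have h9 : Real.exp (4 * κ * H i) ≤ Real.exp (c k * H i) :=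
        Real.exp_le_exp.2 (mul_le_mul_of_nonneg_right (hκc k) h6.le)
      have h10 : v (∑ l, aeval x (M k l) * X i l) * Real.exp (4 * κ * H i) ≤
          (⨆ l, v (X i l)) * (⨆ a, v (x a)) ^ D * Real.exp (κ * H i) :=
        (mul_le_mul_of_nonneg_left h9 (v.nonneg _)).trans h8
      rw [← le_div_iff₀ (Real.exp_pos _), mul_div_assoc, ← Real.exp_sub] at h10
      have h11 : κ * H i - 4 * κ * H i = - (3 * κ) * H i := by ring
      rwa [h11] at h10
    · rw [hW, Z_mulVec_G, h4 a, map_zero]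
      positivity
  -- Cramer
  have hcr : ∀ l, W.det * X i l = ∑ k, W.adjugate l k * W.mulVec (X i) k := by
    intro l
    have h8 := congrFun (congrArg (fun Z : Matrix (Fin (r + g)) (Fin (r + g)) K => Z.mulVec (X i))
      (Matrix.adjugate_mul W)) l
    rw [← Matrix.mulVec_mulVec, Matrix.smul_mulVec, Matrix.one_mulVec, Pi.smul_apply,
      smul_eq_mul] at h8
    rw [← h8]
    rfl
  have hbig : v W.det * ⨆ l, v (X i l) ≤ (r + g + 1 : ℕ) * (Real.exp (b v) *
      (⨆ a, v (x a)) ^ ((r + g - 1) * D) * ((⨆ l, v (X i l)) * (⨆ a, v (x a)) ^ D *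
        Real.exp (- (3 * κ) * H i))) := by
    rw [Real.mul_iSup_of_nonneg (v.nonneg _)]
    refine ciSup_le fun l => ?_
    rw [← map_mul, hcr]
    have h8 := (SN_self v).sum_le (Finset.univ : Finset (Fin (r + g)))
      (fun k => W.adjugate l k * W.mulVec (X i) k)
      (B := Real.exp (b v) * (⨆ a, v (x a)) ^ ((r + g - 1) * D) * ((⨆ l, v (X i l)) *
        (⨆ a, v (x a)) ^ D * Real.exp (- (3 * κ) * H i))) (by positivity) fun k _ => by
        show v (W.adjugate l k * W.mulVec (X i) k) ≤ _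
        rw [map_mul]
        refine mul_le_mul ?_ (hWX k) (v.nonneg _) (by positivity)
        rw [hW, Z_adj_map]
        exact hbb x hx0 v (l, k)
    refine h8.trans (mul_le_mul_of_nonneg_right ?_ (by positivity))
    rw [Finset.card_univ, Fintype.card_fin]
    unfold cst
    split_ifs
    · push_cast
      have : (0 : ℝ) ≤ r + g := by positivity
      linarith
    · push_cast
      linarith
  have hWd : v W.det = v (aeval x (stk M G).det) := by rw [hW, Z_det_map]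
  rw [hWd] at hbig
  have h8 := (mul_le_mul_of_nonneg_right h1 hXs.le).trans hbig
  have h9 : (⨆ a, v (x a)) ^ ((r + g) * D) =
      (⨆ a, v (x a)) ^ ((r + g - 1) * D) * (⨆ a, v (x a)) ^ D := by
    rw [← pow_add]
    congr 1
    have h10 : r + g = (r + g - 1) + 1 := by omega
    conv_lhs => rw [h10]
    ring
  rw [h9] at h8
  have h10 : Real.exp (- κ * H i) ≤ (r + g + 1 : ℕ) * (Real.exp (b v) *
      Real.exp (- (3 * κ) * H i)) := by
    have h11 : 0 < (⨆ a, v (x a)) ^ ((r + g - 1) * D) * (⨆ a, v (x a)) ^ D *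
        ⨆ l, v (X i l) := by positivity
    refine le_of_mul_le_mul_left ?_ h11
    calc (⨆ a, v (x a)) ^ ((r + g - 1) * D) * (⨆ a, v (x a)) ^ D * (⨆ l, v (X i l)) *
          Real.exp (- κ * H i) = (⨆ a, v (x a)) ^ ((r + g - 1) * D) * (⨆ a, v (x a)) ^ D *
            Real.exp (- κ * H i) * ⨆ l, v (X i l) := by ring
      _ ≤ _ := h8
      _ = _ := by ring
  have hpos : (0 : ℝ) < (r + g + 1 : ℕ) := by positivity
  have h11 := Real.log_le_log (Real.exp_pos _) h10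
  rw [Real.log_exp, Real.log_mul hpos.ne' (by positivity), Real.log_mul (Real.exp_pos _).ne'
    (Real.exp_pos _).ne', Real.log_exp, Real.log_exp] at h11
  have h12 : 0 < κ * H i := mul_pos hκ h6
  linarith

end Pool.Agent.Lib.MP_17a322_nt.SL
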