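import Pool.Agent.Lib.MP_17a322_nt.SL.Z1
import Pool.Agent.Lib.MP_17a322_nt.SL.H2
import Pool.Agent.Lib.MP_17a322_nt.VP.P2

/-!
Sizes of the vectors in the kernel of `G` and outside the kernel, at one index.
-/

universe u

namespace Pool.Agent.Lib.MP_17a322_nt.SL

open MvPolynomial Height
open Pool.Agent.Lib.MP_17a322_nt.RO
open Pool.Agent.Lib.MP_17a322_nt.VJ
open Pool.Agent.Lib.MP_17a322_nt.VN hiding lf
open Pool.Agent.Lib.MP_17a322_nt.VA
open Pool.Agent.Lib.MP_17a322_nt.VP

/-- The places outside `Sg` are nonarchimedean. -/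
theorem Z_nonarch {K : Type*} [Field K] [NumberField K] {Sg : Finset (AbsoluteValue K ℝ)}
    (hinf : ∀ v : NumberField.InfinitePlace K, v.val ∈ Sg) {v : AbsoluteValue K ℝ} (hv : Pl v)
    (hvS : v ∉ Sg) : IsNonarchimedean v := by
  rcases hv with hv | hv
  · have h1 : v ∈ NumberField.multisetInfinitePlace K := hv
    rw [NumberField.mem_multisetInfinitePlace] at h1
    exact absurd (hinf ⟨v, h1⟩) hvS
  · exact AdmissibleAbsValues.isNonarchimedean v hv

section

variable {K : Type*} [Field K] {r g : ℕ}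

theorem Z_cst_log (v : AbsoluteValue K ℝ) (n : ℕ) (hn : 0 < n) :
    0 ≤ Real.log (cst v n) ∧ Real.log (cst v n) ≤ Real.log n := by
  have h1 : (1 : ℝ) ≤ n := by exact_mod_cast hn
  unfold cst
  split_ifs
  · rw [Real.log_one]
    exact ⟨le_rfl, Real.log_nonneg h1⟩
  · exact ⟨Real.log_nonneg h1, le_rfl⟩

theorem Z_cst_pos (v : AbsoluteValue K ℝ) (n : ℕ) (hn : 0 < n) : 0 < cst v n := by
  unfold cst
  split_ifs
  · exact one_pos
  · exact_mod_cast hn

theorem Z_mulVec_L (L : Fin r → Fin (r + g) → K) (G : Fin g → Fin (r + g) → K)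
    (y : Fin (r + g) → K) (k : Fin r) :
    (stk L G).mulVec y (Fin.castAdd g k) = ∑ l, L k l * y l := by
  show ∑ l, stk L G (Fin.castAdd g k) l * y l = _
  refine Finset.sum_congr rfl fun l _ => ?_
  rw [← finSumFinEquiv_apply_left, stk_inl]

theorem Z_mulVec_G (L : Fin r → Fin (r + g) → K) (G : Fin g → Fin (r + g) → K)
    (y : Fin (r + g) → K) (a : Fin g) :
    (stk L G).mulVec y (Fin.natAdd r a) = ∑ l, G a l * y l := by
  show ∑ l, stk L G (Fin.natAdd r a) l * y l = _
  refine Finset.sum_congr rfl fun l _ => ?_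
  rw [← finSumFinEquiv_apply_right, stk_inr]

/-- Lower bound at a place in `Sg`. -/
theorem Z_low_in (v : AbsoluteValue K ℝ) (M : Fin r → Fin (r + g) → K)
    (G : Fin g → Fin (r + g) → K) (hM : (stk M G).det ≠ 0)
    (Y : Fin r → Fin (r + g) → K) (hY : ∀ j, Y j ≠ 0) {t : K} (ht0 : t ≠ 0)
    (ht : ∀ M : Fin r → Fin (r + g) → K,
      (Matrix.of fun k j : Fin r => ∑ l, M k l * Y j l).det = t * (stk M G).det)
    (c : Fin (r + g) → ℝ) :
    Real.log (v t) + Real.log (v (stk M G).det) + ∑ k : Fin r, c (Fin.castAdd g k) -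
      Real.log r.factorial ≤
      ∑ j, Real.log (⨆ k, v ((stk M G).mulVec (Y j) k) * Real.exp (c k)) := by
  obtain ⟨m, hm⟩ : ∃ m : Fin r → ℝ, ∀ j, m j =
      ⨆ k, v ((stk M G).mulVec (Y j) k) * Real.exp (c k) := ⟨_, fun _ => rfl⟩
  simp only [← hm]
  have hm0 : ∀ j, 0 < m j := by
    intro j
    have h1 := H_sup_pos v hM (hY j) c 1
    simp only [mul_one] at h1
    rw [hm]
    exact h1
  have h1 := det_bd v (Matrix.of fun k j : Fin r => ∑ l, M k l * Y j l)
    (fun k => Real.exp (- c (Fin.castAdd g k))) m (fun k => (Real.exp_pos _).le)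
    (fun j => (hm0 j).le) (fun k j => by
      have h2 : v ((stk M G).mulVec (Y j) (Fin.castAdd g k)) *
          Real.exp (c (Fin.castAdd g k)) ≤ m j := by
        rw [hm]
        exact le_ciSup (Set.finite_range fun k =>
          v ((stk M G).mulVec (Y j) k) * Real.exp (c k)).bddAbove (Fin.castAdd g k)
      rw [Z_mulVec_L] at h2
      rw [Matrix.of_apply, Real.exp_neg, inv_mul_eq_div, le_div_iff₀ (Real.exp_pos _)]
      exact h2)
  rw [ht, map_mul] at h1
  have hc := Z_cst_pos v r.factorial r.factorial_pos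
  have hp1 : 0 < ∏ k : Fin r, Real.exp (- c (Fin.castAdd g k)) :=
    Finset.prod_pos fun k _ => Real.exp_pos _
  have hp2 : 0 < ∏ j, m j := Finset.prod_pos fun j _ => hm0 j
  have h2 := Real.log_le_log (mul_pos (v.pos ht0) (v.pos hM)) h1
  rw [Real.log_mul (v.pos ht0).ne' (v.pos hM).ne', Real.log_mul hc.ne' (mul_pos hp1 hp2).ne',
    Real.log_mul hp1.ne' hp2.ne', Real.log_prod fun j _ => (hm0 j).ne',
    Real.log_prod fun k _ => (Real.exp_pos _).ne'] at h2
  simp only [Real.log_exp, Finset.sum_neg_distrib] at h2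
  have h3 := (Z_cst_log v r.factorial r.factorial_pos).2
  linarith

/-- Lower bound at a nonarchimedean place. -/
theorem Z_low_out {v : AbsoluteValue K ℝ} (hv : IsNonarchimedean v) (G : Fin g → Fin (r + g) → K)
    (hG0 : (fun c : Fin g → Fin (r + g) => (Matrix.of fun a b : Fin g => G a (c b)).det) ≠ 0)
    (Y : Fin r → Fin (r + g) → K) (hY : ∀ j, Y j ≠ 0) {t : K} (ht0 : t ≠ 0)
    (ht : ∀ M : Fin r → Fin (r + g) → K,
      (Matrix.of fun k j : Fin r => ∑ l, M k l * Y j l).det = t * (stk M G).det) :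
    Real.log (v t) + Real.log (⨆ c : Fin g → Fin (r + g),
      v (Matrix.of fun a b : Fin g => G a (c b)).det) ≤ ∑ j, Real.log (⨆ l, v (Y j l)) := by
  have hm0 : ∀ j, 0 < ⨆ l, v (Y j l) := fun j => vm_pos v (hY j)
  have hc0 : 0 < ⨆ c : Fin g → Fin (r + g), v (Matrix.of fun a b : Fin g => G a (c b)).det :=
    vm_pos v hG0
  rw [← Real.log_mul (v.pos ht0).ne' hc0.ne', ← Real.log_prod fun j _ => (hm0 j).ne']
  refine Real.log_le_log (mul_pos (v.pos ht0) hc0) ?_
  have : Nonempty (Fin g → Fin (r + g)) := by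
    obtain ⟨c, -⟩ := Function.ne_iff.1 hG0
    exact ⟨c⟩
  obtain ⟨c, hc⟩ := exists_vm v (fun c : Fin g → Fin (r + g) =>
    (Matrix.of fun a b : Fin g => G a (c b)).det)
  have h1 : (⨆ c : Fin g → Fin (r + g), v (Matrix.of fun a b : Fin g => G a (c b)).det) =
      v (Matrix.of fun a b : Fin g => G a (c b)).det := hc
  rw [h1]
  have h2 := Z_minor_ker v G Y ht c
  have h3 : cst v r.factorial = 1 := by
    unfold cst
    exact if_pos hv
  rwa [h3, one_mul] at h2

end

end Pool.Agent.Lib.MP_17a322_nt.SL
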