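import Pool.Agent.Lib.MP_17a322_nt.SL.Z4
import Pool.Agent.Lib.MP_17a322_nt.SL.CM3
import Pool.Agent.Lib.MP_17a322_nt.SL.G3

/-!
The total sizes at one index: vectors in the kernel of `G` and outside the kernel.
-/

universe u

namespace Pool.Agent.Lib.MP_17a322_nt.SL

open MvPolynomial Height
open Pool.Agent.Lib.MP_17a322_nt.RO
open Pool.Agent.Lib.MP_17a322_nt.VJ
open Pool.Agent.Lib.MP_17a322_nt.VN hiding lf
open Pool.Agent.Lib.MP_17a322_nt.VA
open Pool.Agent.Lib.MP_17a322_nt.VP

section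

variable {K : Type u} [Field K] [NumberField K] {r g : ℕ} (Sg : Finset (AbsoluteValue K ℝ))

open Classical in
/-- Upper bound for the size of the vectors in the kernel of `G`. -/
theorem Z_up_ker (L : AbsoluteValue K ℝ → Fin r → Fin (r + g) → K)
    (G : Fin g → Fin (r + g) → K) (hdet : ∀ v ∈ Sg, (stk (L v) G).det ≠ 0)
    {u : Fin (r + g) → K} (hu : u ≠ 0) (hGu : ∀ a, ∑ l, G a l * u l = 0)
    (w : AbsoluteValue K ℝ → Fin (r + g) → ℝ) (m : AbsoluteValue K ℝ → ℝ)
    (hm : ∀ v ∈ Sg, ∀ k : Fin r, w v (Fin.castAdd g k) ≤ m v) :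
    gs (sw Sg w (fun v => stk (L v) G) u) ≤
      logHeight u + totalWeight K * Real.log (r + g : ℕ) +
        gs fun v => if v ∈ Sg then m v else 0 := by
  obtain ⟨l₀, hl₀⟩ := Function.ne_iff.1 hu
  have hn : 0 < r + g := lt_of_le_of_lt (Nat.zero_le _) l₀.2
  have f1 : FS fun v : AbsoluteValue K ℝ => Real.log (⨆ l, v (u l)) := FS_log_iSup hu
  have f2 : FS fun v : AbsoluteValue K ℝ => Real.log (cst v (r + g)) := FS_log_cst _
  have f3 := S_FS_ite Sg m
  have h0 : gs (fun v : AbsoluteValue K ℝ => Real.log (⨆ l, v (u l)) +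
      Real.log (cst v (r + g)) + if v ∈ Sg then m v else 0) ≤ logHeight u +
        totalWeight K * Real.log (r + g : ℕ) + gs fun v => if v ∈ Sg then m v else 0 := by
    rw [gs_add (FS_add f1 f2) f3, gs_add f1 f2, gs_log_iSup hu]
    have h1 := gs_log_cst (L := K) (n := r + g) hn
    linarith
  refine le_trans (gs_le (cm_FS_sw Sg _ _ hu) (FS_add (FS_add f1 f2) f3) fun v _ => ?_) h0
  have hc0 := Z_cst_pos v (r + g) hn
  have hcl := (Z_cst_log v (r + g) hn).1
  by_cases hv : v ∈ Sg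
  · rw [if_pos hv]
    unfold sw
    rw [if_pos hv]
    have hs0 : 0 < ⨆ l, v (u l) := vm_pos v hu
    have hm0 := cm_mx_pos v hn _ (hdet v hv)
    have h1 := H_sup_pos v (hdet v hv) hu (w v) 1
    simp only [mul_one] at h1
    have : Nonempty (Fin (r + g)) := ⟨l₀⟩
    have h2 : (⨆ k, v ((stk (L v) G).mulVec u k) * Real.exp (w v k)) ≤
        cst v (r + g) * (mx v (stk (L v) G) * ⨆ l, v (u l)) * Real.exp (m v) := by
      refine ciSup_le fun k => ?_
      refine Fin.addCases (fun k => ?_) (fun a => ?_) k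
      · refine mul_le_mul ?_ (Real.exp_le_exp.2 (hm v hv k)) (Real.exp_pos _).le
          (mul_nonneg hc0.le (mul_pos hm0 hs0).le)
        have h3 := (SN_self v).sum_le (Finset.univ : Finset (Fin (r + g)))
          (fun l => stk (L v) G (Fin.castAdd g k) l * u l)
          (B := mx v (stk (L v) G) * ⨆ l, v (u l)) (mul_pos hm0 hs0).le fun l _ => by
            show v (stk (L v) G (Fin.castAdd g k) l * u l) ≤ _
            rw [map_mul]
            exact mul_le_mul (cm_le_mx v _ _ _)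
              (le_ciSup (Set.finite_range fun l => v (u l)).bddAbove l) (v.nonneg _) hm0.le
        rw [Finset.card_univ, Fintype.card_fin] at h3
        exact h3
      · rw [Z_mulVec_G, hGu, map_zero, zero_mul]
        exact mul_nonneg (mul_nonneg hc0.le (mul_pos hm0 hs0).le) (Real.exp_pos _).le
    have h3 := Real.log_le_log h1 h2
    rw [Real.log_mul (mul_pos hc0 (mul_pos hm0 hs0)).ne' (Real.exp_pos _).ne', Real.log_exp,
      Real.log_mul hc0.ne' (mul_pos hm0 hs0).ne', Real.log_mul hm0.ne' hs0.ne'] at h3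
    linarith
  · rw [if_neg hv]
    unfold sw
    rw [if_neg hv]
    linarith

open Classical in
/-- Lower bound for the size of the vectors outside the kernel of `G`. -/
theorem Z_low_notker (hinf : ∀ v : NumberField.InfinitePlace K, v.val ∈ Sg)
    (L : AbsoluteValue K ℝ → Fin r → Fin (r + g) → K)
    (G : Fin g → Fin (r + g) → K) (hdet : ∀ v ∈ Sg, (stk (L v) G).det ≠ 0)
    {z : Fin (r + g) → K} (a : Fin g) (hGz : ∑ l, G a l * z l ≠ 0)
    (w : AbsoluteValue K ℝ → Fin (r + g) → ℝ) (bd : AbsoluteValue K ℝ → ℝ) (hbd : FS bd)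
    (hb1 : ∀ v ∈ Sg, Real.log (mx v (stk (L v) G)) ≤ bd v)
    (hb2 : ∀ v, Real.log (⨆ l, v (G a l)) ≤ bd v) :
    (gs fun v => if v ∈ Sg then w v (Fin.natAdd r a) else 0) - gs bd ≤
      gs (sw Sg w (fun v => stk (L v) G) z) := by
  have hz : z ≠ 0 := by
    intro h
    apply hGz
    rw [h]
    exact Finset.sum_eq_zero fun l _ => by rw [Pi.zero_apply, mul_zero]
  have hGa : G a ≠ 0 := by
    intro h
    apply hGz
    rw [h]
    exact Finset.sum_eq_zero fun l _ => by rw [Pi.zero_apply, zero_mul]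
  have f1 : FS fun v : AbsoluteValue K ℝ => Real.log (v (∑ l, G a l * z l)) :=
    FS_log_abv hGz
  have f3 := S_FS_ite Sg fun v => w v (Fin.natAdd r a)
  have h0 : gs (fun v : AbsoluteValue K ℝ => Real.log (v (∑ l, G a l * z l)) +
      (if v ∈ Sg then w v (Fin.natAdd r a) else 0) - bd v) =
      (gs fun v => if v ∈ Sg then w v (Fin.natAdd r a) else 0) - gs bd := by
    rw [gs_sub (FS_add f1 f3) hbd, gs_add f1 f3, gs_log_abv hGz, zero_add]
  rw [← h0]
  refine gs_le (FS_sub (FS_add f1 f3) hbd) (cm_FS_sw Sg _ _ hz) fun v hvP => ?_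
  have hs0 : 0 < ⨆ l, v (z l) := vm_pos v hz
  have hp := v.pos hGz
  by_cases hv : v ∈ Sg
  · rw [if_pos hv]
    unfold sw
    rw [if_pos hv]
    have h1 : v (∑ l, G a l * z l) * Real.exp (w v (Fin.natAdd r a)) ≤
        ⨆ k, v ((stk (L v) G).mulVec z k) * Real.exp (w v k) := by
      have h2 := le_ciSup (Set.finite_range fun k =>
        v ((stk (L v) G).mulVec z k) * Real.exp (w v k)).bddAbove (Fin.natAdd r a)
      rw [Z_mulVec_G] at h2
      exact h2
    have h3 := Real.log_le_log (mul_pos hp (Real.exp_pos _)) h1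
    rw [Real.log_mul hp.ne' (Real.exp_pos _).ne', Real.log_exp] at h3
    have h4 := hb1 v hv
    linarith
  · rw [if_neg hv]
    unfold sw
    rw [if_neg hv]
    have hna := Z_nonarch hinf hvP hv
    have hg0 : 0 < ⨆ l, v (G a l) := vm_pos v hGa
    have h3 := (SN_self v).sum_le (Finset.univ : Finset (Fin (r + g)))
      (fun l => G a l * z l)
      (B := (⨆ l, v (G a l)) * ⨆ l, v (z l)) (mul_pos hg0 hs0).le fun l _ => by
        show v (G a l * z l) ≤ _
        rw [map_mul]
        exact mul_le_mul (le_ciSup (Set.finite_range fun l => v (G a l)).bddAbove l)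
          (le_ciSup (Set.finite_range fun l => v (z l)).bddAbove l) (v.nonneg _) hg0.le
    have h4 : cst v (Finset.univ : Finset (Fin (r + g))).card = 1 := by
      unfold cst
      exact if_pos hna
    rw [h4, one_mul] at h3
    have h5 := Real.log_le_log hp h3
    rw [Real.log_mul hg0.ne' hs0.ne'] at h5
    have h6 := hb2 v
    linarith

open Classical in
/-- Lower bound for the sum of the sizes of `r` vectors in the kernel. -/
theorem Z_sum_low (hinf : ∀ v : NumberField.InfinitePlace K, v.val ∈ Sg)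
    (L : AbsoluteValue K ℝ → Fin r → Fin (r + g) → K)
    (G : Fin g → Fin (r + g) → K) (hdet : ∀ v ∈ Sg, (stk (L v) G).det ≠ 0)
    (hG : LinearIndependent K G)
    (hG0 : (fun c : Fin g → Fin (r + g) => (Matrix.of fun a b : Fin g => G a (c b)).det) ≠ 0)
    (Y : Fin r → Fin (r + g) → K) (hY : LinearIndependent K Y)
    (hGY : ∀ a b, ∑ l, G a l * Y b l = 0)
    (w : AbsoluteValue K ℝ → Fin (r + g) → ℝ) (e : AbsoluteValue K ℝ → ℝ)
    (he : ∀ v ∈ Sg, Real.log (⨆ c : Fin g → Fin (r + g),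
      v (Matrix.of fun a b : Fin g => G a (c b)).det) ≤ Real.log (v (stk (L v) G).det) -
        r * Real.log (mx v (stk (L v) G)) - Real.log r.factorial + e v) :
    logHeight (fun c : Fin g → Fin (r + g) => (Matrix.of fun a b : Fin g => G a (c b)).det) +
      (gs fun v => if v ∈ Sg then ∑ k : Fin r, w v (Fin.castAdd g k) else 0) -
        (gs fun v => if v ∈ Sg then e v else 0) ≤
      ∑ j, gs (sw Sg w (fun v => stk (L v) G) (Y j)) := by
  obtain ⟨t, ht0, ht⟩ := Z_lam G hG Y hY hGY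
  have hY0 : ∀ j, Y j ≠ 0 := fun j => hY.ne_zero j
  have f1 : FS fun v : AbsoluteValue K ℝ => Real.log (v t) := FS_log_abv ht0
  have f2 : FS fun v : AbsoluteValue K ℝ => Real.log (⨆ c : Fin g → Fin (r + g),
      v (Matrix.of fun a b : Fin g => G a (c b)).det) := FS_log_iSup hG0
  have f3 := S_FS_ite Sg fun v => ∑ k : Fin r, w v (Fin.castAdd g k)
  have f4 := S_FS_ite Sg e
  have h0 : gs (fun v : AbsoluteValue K ℝ => Real.log (v t) +
      Real.log (⨆ c : Fin g → Fin (r + g), v (Matrix.of fun a b : Fin g => G a (c b)).det) +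
      (if v ∈ Sg then ∑ k : Fin r, w v (Fin.castAdd g k) else 0) -
      if v ∈ Sg then e v else 0) =
      logHeight (fun c : Fin g → Fin (r + g) => (Matrix.of fun a b : Fin g => G a (c b)).det) +
      (gs fun v => if v ∈ Sg then ∑ k : Fin r, w v (Fin.castAdd g k) else 0) -
        (gs fun v => if v ∈ Sg then e v else 0) := by
    rw [gs_sub (FS_add (FS_add f1 f2) f3) f4, gs_add (FS_add f1 f2) f3, gs_add f1 f2,
      gs_log_abv ht0, zero_add, gs_log_iSup hG0]
  rw [← h0, ← gs_sum _ fun j _ => cm_FS_sw Sg _ _ (hY0 j)]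
  refine gs_le (FS_sub (FS_add (FS_add f1 f2) f3) f4)
    (FS_sum _ fun j _ => cm_FS_sw Sg _ _ (hY0 j)) fun v hvP => ?_
  by_cases hv : v ∈ Sg
  · rw [if_pos hv, if_pos hv]
    have h1 := Z_low_in v (L v) G (hdet v hv) Y hY0 ht0 ht (w v)
    have h2 : ∑ j, sw Sg w (fun v => stk (L v) G) (Y j) v =
        ∑ j, Real.log (⨆ k, v ((stk (L v) G).mulVec (Y j) k) * Real.exp (w v k)) -
          r * Real.log (mx v (stk (L v) G)) := by
      have h3 : ∀ j, sw Sg w (fun v => stk (L v) G) (Y j) v =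
          Real.log (⨆ k, v ((stk (L v) G).mulVec (Y j) k) * Real.exp (w v k)) -
            Real.log (mx v (stk (L v) G)) := fun j => by
        unfold sw
        rw [if_pos hv]
      rw [Finset.sum_congr rfl fun j _ => h3 j, Finset.sum_sub_distrib, Finset.sum_const,
        Finset.card_univ, Fintype.card_fin, nsmul_eq_mul]
    have h3 := he v hv
    rw [h2]
    linarith
  · rw [if_neg hv, if_neg hv]
    have h1 := Z_low_out (Z_nonarch hinf hvP hv) G hG0 Y hY0 ht0 ht
    have h2 : ∑ j, sw Sg w (fun v => stk (L v) G) (Y j) v = ∑ j, Real.log (⨆ l, v (Y j l)) := by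
      refine Finset.sum_congr rfl fun j _ => ?_
      unfold sw
      rw [if_neg hv]
    rw [h2]
    linarith

open Classical in
/-- Upper bound for the size of `X`. -/
theorem Z_up_X (L : AbsoluteValue K ℝ → Fin r → Fin (r + g) → K)
    (G : Fin g → Fin (r + g) → K) (hdet : ∀ v ∈ Sg, (stk (L v) G).det ≠ 0)
    {X : Fin (r + g) → K} (hX : X ≠ 0) (hGX : ∀ a, ∑ l, G a l * X l = 0)
    (w : AbsoluteValue K ℝ → Fin (r + g) → ℝ) (e : AbsoluteValue K ℝ → ℝ)
    (he : ∀ v ∈ Sg, ∀ k : Fin r, v (∑ l, L v k l * X l) * Real.exp (w v (Fin.castAdd g k)) ≤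
      (⨆ l, v (X l)) * mx v (stk (L v) G) * Real.exp (e v)) :
    gs (sw Sg w (fun v => stk (L v) G) X) ≤
      logHeight X + gs fun v => if v ∈ Sg then e v else 0 := by
  obtain ⟨l₀, hl₀⟩ := Function.ne_iff.1 hX
  have hn : 0 < r + g := lt_of_le_of_lt (Nat.zero_le _) l₀.2
  have f1 : FS fun v : AbsoluteValue K ℝ => Real.log (⨆ l, v (X l)) := FS_log_iSup hX
  have f3 := S_FS_ite Sg e
  rw [← gs_log_iSup hX, ← gs_add f1 f3]
  refine gs_le (cm_FS_sw Sg _ _ hX) (FS_add f1 f3) fun v _ => ?_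
  by_cases hv : v ∈ Sg
  · rw [if_pos hv]
    unfold sw
    rw [if_pos hv]
    have hs0 : 0 < ⨆ l, v (X l) := vm_pos v hX
    have hm0 := cm_mx_pos v hn _ (hdet v hv)
    have h1 := H_sup_pos v (hdet v hv) hX (w v) 1
    simp only [mul_one] at h1
    have : Nonempty (Fin (r + g)) := ⟨l₀⟩
    have h2 : (⨆ k, v ((stk (L v) G).mulVec X k) * Real.exp (w v k)) ≤
        (⨆ l, v (X l)) * mx v (stk (L v) G) * Real.exp (e v) := by
      refine ciSup_le fun k => ?_
      refine Fin.addCases (fun k => ?_) (fun a => ?_) k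
      · rw [Z_mulVec_L]
        exact he v hv k
      · rw [Z_mulVec_G, hGX, map_zero, zero_mul]
        exact mul_nonneg (mul_pos hs0 hm0).le (Real.exp_pos _).le
    have h3 := Real.log_le_log h1 h2
    rw [Real.log_mul (mul_pos hs0 hm0).ne' (Real.exp_pos _).ne', Real.log_exp,
      Real.log_mul hs0.ne' hm0.ne'] at h3
    linarith
  · rw [if_neg hv]
    unfold sw
    rw [if_neg hv]
    linarith

end

end Pool.Agent.Lib.MP_17a322_nt.SL
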