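import Pool.Agent.Lib.MP_17a322_nt.SL.Z5
import Pool.Agent.Lib.MP_17a322_nt.SL.H8
import Pool.Agent.Lib.MP_17a322_nt.VD.D11a

/-!
The sizes along the sequence.
-/

universe u

namespace Pool.Agent.Lib.MP_17a322_nt.SL

open MvPolynomial Height Filter
open Pool.Agent.Lib.MP_17a322_nt.RO
open Pool.Agent.Lib.MP_17a322_nt.VJ
open Pool.Agent.Lib.MP_17a322_nt.VN hiding lf
open Pool.Agent.Lib.MP_17a322_nt.VA
open Pool.Agent.Lib.MP_17a322_nt.VP

section

theorem Z_stk_map {R S : Type*} {r g : ℕ} (L : Fin r → Fin (r + g) → R)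
    (G : Fin g → Fin (r + g) → R) (f : R → S) :
    (stk L G).map f = stk (fun k l => f (L k l)) fun a l => f (G a l) := by
  ext k l
  rw [Matrix.map_apply]
  refine Fin.addCases (fun k => ?_) (fun a => ?_) k
  · unfold stk
    rw [Matrix.of_apply, Matrix.of_apply, Fin.append_left, Fin.append_left]
  · unfold stk
    rw [Matrix.of_apply, Matrix.of_apply, Fin.append_right, Fin.append_right]

theorem Z_stk_hom {K σ : Type*} [CommRing K] {r g D : ℕ}
    {L : Fin r → Fin (r + g) → MvPolynomial σ K} {G : Fin g → Fin (r + g) → MvPolynomial σ K}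
    (hL : ∀ k l, (L k l).IsHomogeneous D) (hG : ∀ a l, (G a l).IsHomogeneous D)
    (k l : Fin (r + g)) : (stk L G k l).IsHomogeneous D := by
  refine Fin.addCases (fun k => ?_) (fun a => ?_) k
  · unfold stk
    rw [Matrix.of_apply, Fin.append_left]
    exact hL k l
  · unfold stk
    rw [Matrix.of_apply, Fin.append_right]
    exact hG a l

theorem Z_adj_homog {K σ : Type*} [CommRing K] {D n : ℕ}
    {B : Matrix (Fin n) (Fin n) (MvPolynomial σ K)}
    (hB : ∀ l k, (B l k).IsHomogeneous D) (l k : Fin n) :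
    (B.adjugate l k).IsHomogeneous ((n - 1) * D) := by
  cases n with
  | zero => exact l.elim0
  | succ n =>
    rw [Nat.add_sub_cancel]
    exact CQ_adj_homog hB l k

/-- Bounds for the values of finitely many forms. -/
theorem Z_bd {K : Type*} [Field K] [NumberField K] {N D : ℕ} {ι : Type*} [Fintype ι]
    (f : ι → MvPolynomial (Fin (N + 1)) K) (hf : ∀ j, (f j).IsHomogeneous D) :
    ∃ bd : AbsoluteValue K ℝ → ℝ, FS bd ∧ (∀ v, 0 ≤ bd v) ∧
      ∀ x : Fin (N + 1) → K, x ≠ 0 → ∀ v j,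
        v (aeval x (f j)) ≤ Real.exp (bd v) * (⨆ a, v (x a)) ^ D := by
  refine ⟨fun v => ∑ j, Real.log (max 1 (NV v (f j))), FS_sum _ fun j _ => FS_nh1 _,
    fun v => Finset.sum_nonneg fun j _ => Real.log_nonneg (le_max_left _ _), fun x hx v j => ?_⟩
  refine (P_form_le (hf j) hx v).trans (mul_le_mul_of_nonneg_right ?_
    (pow_nonneg (P_sup_pos hx v).le D))
  have h1 : Real.log (max 1 (NV v (f j))) ≤ ∑ j, Real.log (max 1 (NV v (f j))) :=
    Finset.single_le_sum (f := fun j => Real.log (max 1 (NV v (f j))))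
      (fun j _ => Real.log_nonneg (le_max_left _ _)) (Finset.mem_univ j)
  have h2 := Real.exp_le_exp.2 h1
  rwa [Real.exp_log (one_pos.trans_le (le_max_left _ _))] at h2

/-- The same for suprema. -/
theorem Z_bd_sup {K : Type*} [Field K] {N D : ℕ} {ι : Type*} [Finite ι] {b : ℝ}
    {v : AbsoluteValue K ℝ} {x : Fin (N + 1) → K} (hx : x ≠ 0) {y : ι → K} (hy : y ≠ 0)
    (h : ∀ j, v (y j) ≤ Real.exp b * (⨆ a, v (x a)) ^ D) :
    Real.log (⨆ j, v (y j)) ≤ b + D * Real.log (⨆ a, v (x a)) := by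
  have hs0 : 0 < ⨆ a, v (x a) := P_sup_pos hx v
  obtain ⟨j₀, -⟩ := Function.ne_iff.1 hy
  have : Nonempty ι := ⟨j₀⟩
  have h1 := Real.log_le_log (vm_pos v hy) (ciSup_le h)
  rwa [Real.log_mul (Real.exp_pos _).ne' (pow_pos hs0 D).ne', Real.log_exp, Real.log_pow] at h1

end

section

variable {K : Type u} [Field K] [NumberField K] {N : ℕ} (A : AV K N)
  {H : ℕ → ℝ} (hH : Tendsto H (hyperfilter ℕ : Filter ℕ) atTop) (P : ℕ → A.Pts K)
  (hupp : ∃ C : ℝ, 0 < C ∧ ∀ᶠ i in (hyperfilter ℕ : Filter ℕ), A.h (P i) ≤ C * H i)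
  (Sg : Finset (AbsoluteValue K ℝ)) (hSg : ∀ v ∈ Sg, Pl v)
  {r g : ℕ} (D : ℕ)
  (L : AbsoluteValue K ℝ → Fin r → Fin (r + g) → MvPolynomial (Fin (N + 1)) K)
  (G : Fin g → Fin (r + g) → MvPolynomial (Fin (N + 1)) K)
  (hL : ∀ v ∈ Sg, ∀ k l, (L v k l).IsHomogeneous D) (hG : ∀ k l, (G k l).IsHomogeneous D)
  (hdet : ∀ v ∈ Sg, ∀ᶠ i in (hyperfilter ℕ : Filter ℕ),
    aeval (A.x (P i)) (stk (L v) G).det ≠ 0)

/-- The determinant of the values. -/
theorem Z_det_map (x : Fin (N + 1) → K) (L : Fin r → Fin (r + g) → MvPolynomial (Fin (N + 1)) K)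
    (G : Fin g → Fin (r + g) → MvPolynomial (Fin (N + 1)) K) :
    (stk (fun k l => aeval x (L k l)) fun a l => aeval x (G a l)).det =
      aeval x (stk L G).det := by
  rw [← Z_stk_map, ← AlgHom.mapMatrix_apply, ← AlgHom.map_det]

theorem Z_adj_map (x : Fin (N + 1) → K) (L : Fin r → Fin (r + g) → MvPolynomial (Fin (N + 1)) K)
    (G : Fin g → Fin (r + g) → MvPolynomial (Fin (N + 1)) K) (k l : Fin (r + g)) :
    (stk (fun k l => aeval x (L k l)) fun a l => aeval x (G a l)).adjugate k l =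
      aeval x ((stk L G).adjugate k l) := by
  rw [← Z_stk_map, ← AlgHom.mapMatrix_apply, ← AlgHom.map_adjugate]
  rfl

include hH hupp hG hL hdet hSg in
/-- Vectors in the kernel of `G`. -/
theorem Z_ker_up {v₀ : AbsoluteValue K ℝ} (hv₀ : v₀ ∈ Sg)
    (c : AbsoluteValue K ℝ → Fin r → ℝ) (hc : ∀ v ∈ Sg, ∀ k, 0 ≤ c v k) :
    ∃ C₁ : ℝ, ∀ᶠ i in (hyperfilter ℕ : Filter ℕ), ∃ u : Fin r → Fin (r + g) → K,
      LinearIndependent K u ∧ (∀ k a, ∑ l, aeval (A.x (P i)) (G a l) * u k l = 0) ∧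
      ∀ k, ∀ w : AbsoluteValue K ℝ → Fin (r + g) → ℝ,
        (∀ v ∈ Sg, ∀ k : Fin r, w v (Fin.castAdd g k) = c v k * H i) →
        gs (sw Sg w (fun v => stk (fun k l => aeval (A.x (P i)) (L v k l))
          fun a l => aeval (A.x (P i)) (G a l)) (u k)) ≤ C₁ * H i := by
  classical
  obtain ⟨C, hC0, hC⟩ := hupp
  obtain ⟨cc, hcc⟩ : ∃ cc : Fin r → ℝ, ∀ k, cc k =
      ∑ l, nh1 ((stk (L v₀) G).adjugate l (Fin.castAdd g k)) := ⟨_, fun _ => rfl⟩
  obtain ⟨γ, hγ⟩ : ∃ γ : ℝ, γ = gs fun v => if v ∈ Sg then ∑ k, c v k else 0 := ⟨_, rfl⟩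
  refine ⟨((r + g - 1) * D : ℕ) * C + γ + 1, ?_⟩
  have hlarge : ∀ᶠ i in (hyperfilter ℕ : Filter ℕ),
      (∑ k, |cc k|) + |totalWeight K * Real.log (r + g : ℕ)| ≤ H i :=
    hH.eventually (eventually_ge_atTop _)
  filter_upwards [hC, hlarge, (eventually_all_finset Sg).2 hdet,
    hH.eventually (eventually_ge_atTop 0)] with i hCi hbig hdi hHi
  have hd0 := hdi v₀ hv₀
  obtain ⟨x, hx⟩ : ∃ x, x = A.x (P i) := ⟨_, rfl⟩
  have hx0 : x ≠ 0 := hx ▸ Z_x_ne A _
  simp only [← hx] at hdi hd0 ⊢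
  obtain ⟨M, hM⟩ : ∃ M : Matrix (Fin (r + g)) (Fin (r + g)) K, M =
    stk (fun k l => aeval x (L v₀ k l)) fun a l => aeval x (G a l) := ⟨_, rfl⟩
  have hMdet : M.det ≠ 0 := by
    rw [hM, Z_det_map]
    exact hd0
  have hadj : M.adjugate.transpose.det ≠ 0 := by
    rw [Matrix.det_transpose, Matrix.det_adjugate]
    exact pow_ne_zero _ hMdet
  have hli := Matrix.linearIndependent_rows_of_det_ne_zero hadj
  have hu : LinearIndependent K fun (k : Fin r) (l : Fin (r + g)) =>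
      aeval x ((stk (L v₀) G).adjugate l (Fin.castAdd g k)) := by
    have h1 := hli.comp (Fin.castAdd g : Fin r → Fin (r + g)) (Fin.castAdd_injective r g)
    have h2 : ((fun i => M.adjugate.transpose i) ∘ (Fin.castAdd g : Fin r → Fin (r + g))) =
        fun (k : Fin r) (l : Fin (r + g)) =>
          aeval x ((stk (L v₀) G).adjugate l (Fin.castAdd g k)) := by
      funext k l
      show M.adjugate l (Fin.castAdd g k) = _
      rw [hM, Z_adj_map]
    rwa [h2] at h1
  have hker : ∀ (k : Fin r) (a : Fin g), ∑ l, aeval x (G a l) *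
      aeval x ((stk (L v₀) G).adjugate l (Fin.castAdd g k)) = 0 := by
    intro k a
    have h1 := congrFun (congrFun (Matrix.mul_adjugate M) (Fin.natAdd r a)) (Fin.castAdd g k)
    rw [Matrix.mul_apply, Matrix.smul_apply, Matrix.one_apply_ne (fun h => by
      have h3 := congrArg Fin.val h
      rw [Fin.val_natAdd, Fin.val_castAdd] at h3
      have h4 := k.2
      omega), smul_zero] at h1
    rw [← h1]
    refine Finset.sum_congr rfl fun l _ => ?_
    rw [← Z_adj_map, ← hM]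
    congr 1
    rw [hM, ← finSumFinEquiv_apply_right, stk_inr]
  refine ⟨_, hu, hker, fun k w hw => ?_⟩
  have hne := hu.ne_zero k
  have h1 := Z_up_ker Sg (fun v k l => aeval x (L v k l)) (fun a l => aeval x (G a l))
    (fun v hv => by
      rw [Z_det_map]
      exact hdi v hv) hne (hker k) w (fun v => H i * ∑ k, c v k) (fun v hv k => by
        rw [hw v hv k, mul_comm]
        exact mul_le_mul_of_nonneg_left (Finset.single_le_sum (f := fun k => c v k)
          (fun k _ => hc v hv k) (Finset.mem_univ k)) hHi)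
  have h2 : (gs fun v => if v ∈ Sg then H i * ∑ k, c v k else 0) = H i * γ := by
    rw [hγ, ← gs_const_mul]
    congr 1
    funext v
    by_cases hv : v ∈ Sg
    · rw [if_pos hv, if_pos hv]
    · rw [if_neg hv, if_neg hv, mul_zero]
  rw [h2] at h1
  refine h1.trans ?_
  have h3 := H7_height (fun l => (stk (L v₀) G).adjugate l (Fin.castAdd g k))
    (fun l => Z_adj_homog (Z_stk_hom (hL v₀ hv₀) hG) l _) x hx0 hne
  rw [← hcc] at h3
  have h4 : cc k ≤ ∑ k, |cc k| := (le_abs_self _).trans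
    (Finset.single_le_sum (f := fun k => |cc k|) (fun k _ => abs_nonneg _) (Finset.mem_univ k))
  have h5 := le_abs_self (totalWeight K * Real.log (r + g : ℕ))
  have h6 : (((r + g - 1) * D : ℕ) : ℝ) * logHeight x ≤ ((r + g - 1) * D : ℕ) * (C * H i) := by
    refine mul_le_mul_of_nonneg_left ?_ (Nat.cast_nonneg _)
    rw [hx]
    exact hCi
  have h7 : (((r + g - 1) * D : ℕ) * C + γ + 1) * H i =
      ((r + g - 1) * D : ℕ) * (C * H i) + H i * γ + H i := by ring
  rw [h7]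
  linarith

include hH hupp hL hG hdet in
/-- Vectors outside the kernel of `G`. -/
theorem Z_notker_low (hinf : ∀ v : NumberField.InfinitePlace K, v.val ∈ Sg)
    (hSg : ∀ v ∈ Sg, Pl v) {v₀ : AbsoluteValue K ℝ} (hv₀ : v₀ ∈ Sg) :
    ∃ C₂ : ℝ, ∀ᶠ i in (hyperfilter ℕ : Filter ℕ), ∀ (T : ℝ), 0 ≤ T →
      ∀ (w : AbsoluteValue K ℝ → Fin (r + g) → ℝ),
        (∀ a : Fin g, w v₀ (Fin.natAdd r a) = T * H i) →
        (∀ v ∈ Sg, v ≠ v₀ → ∀ a : Fin g, w v (Fin.natAdd r a) = 0) →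
        ∀ (z : Fin (r + g) → K) (a : Fin g), ∑ l, aeval (A.x (P i)) (G a l) * z l ≠ 0 →
        (T - C₂) * H i ≤ gs (sw Sg w (fun v => stk (fun k l => aeval (A.x (P i)) (L v k l))
          fun a l => aeval (A.x (P i)) (G a l)) z) := by
  classical
  obtain ⟨C, hC0, hC⟩ := hupp
  obtain ⟨b, hb, hb0, hbb⟩ := Z_bd (D := D) (fun p : Sg × Fin (r + g) × Fin (r + g) =>
    stk (L p.1) G p.2.1 p.2.2) fun p => Z_stk_hom (hL p.1 p.1.2) hG _ _
  refine ⟨D * C + 1, ?_⟩
  filter_upwards [hC, hH.eventually (eventually_ge_atTop (gs b)),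
    (eventually_all_finset Sg).2 hdet, hH.eventually (eventually_ge_atTop 0)]
    with i hCi hbig hdi hHi T hT w hw1 hw2 z a hz
  obtain ⟨x, hx⟩ : ∃ x, x = A.x (P i) := ⟨_, rfl⟩
  have hx0 : x ≠ 0 := hx ▸ Z_x_ne A _
  have hCi' : logHeight x ≤ C * H i := by
    rw [hx]
    exact hCi
  simp only [← hx] at hdi hz ⊢
  have hz0 : z ≠ 0 := by
    intro h
    apply hz
    rw [h]
    exact Finset.sum_eq_zero fun l _ => by rw [Pi.zero_apply, mul_zero]
  obtain ⟨l₀, hl₀⟩ := Function.ne_iff.1 hz0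
  have hn : 0 < r + g := lt_of_le_of_lt (Nat.zero_le _) l₀.2
  have fb : FS fun v : AbsoluteValue K ℝ => b v + D * Real.log (⨆ a, v (x a)) :=
    FS_add hb (FS_const_mul _ (FS_log_iSup hx0))
  have hMd : ∀ v ∈ Sg, (stk (fun k l => aeval x (L v k l)) fun a l => aeval x (G a l)).det ≠ 0 :=
    fun v hv => by
      rw [Z_det_map]
      exact hdi v hv
  have h1 := Z_low_notker Sg hinf (fun v k l => aeval x (L v k l)) (fun a l => aeval x (G a l))
    hMd a hz w _ fb (fun v hv => by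
      refine Z_bd_sup (ι := Fin (r + g) × Fin (r + g)) (y := fun p =>
        stk (fun k l => aeval x (L v k l)) (fun a l => aeval x (G a l)) p.1 p.2) hx0
        (fun h => ?_) fun p => ?_
      · have h2 : (stk (fun k l => aeval x (L v k l)) fun a l => aeval x (G a l)) = 0 := by
          ext k l
          exact congrFun h (k, l)
        have : Nonempty (Fin (r + g)) := ⟨l₀⟩
        exact hMd v hv (by rw [h2, Matrix.det_zero])
      · rw [← Z_stk_map]
        exact hbb x hx0 v (⟨v, hv⟩, p)) (fun v => by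
      refine Z_bd_sup (y := fun l => aeval x (G a l)) hx0 (fun h => ?_) fun l => ?_
      · apply hz
        refine Finset.sum_eq_zero fun l _ => ?_
        rw [show aeval x (G a l) = 0 from congrFun h l, zero_mul]
      · have h2 := hbb x hx0 v (⟨v₀, hv₀⟩, Fin.natAdd r a, l)
        rw [← finSumFinEquiv_apply_right, stk_inr] at h2
        exact h2)
  refine le_trans ?_ h1
  have h2 : T * H i ≤ gs fun v => if v ∈ Sg then w v (Fin.natAdd r a) else 0 := by
    have h3 := VD.gs_single (S_FS_ite Sg fun v => w v (Fin.natAdd r a)) (fun v hv => by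
      by_cases hvS : v ∈ Sg
      · show 0 ≤ if v ∈ Sg then w v (Fin.natAdd r a) else 0
        rw [if_pos hvS]
        by_cases h4 : v = v₀
        · rw [h4, hw1]
          exact mul_nonneg hT hHi
        · rw [hw2 v hvS h4]
      · show 0 ≤ if v ∈ Sg then w v (Fin.natAdd r a) else 0
        rw [if_neg hvS]) (hSg v₀ hv₀)
    rwa [if_pos hv₀, hw1] at h3
  have h3 : gs (fun v : AbsoluteValue K ℝ => b v + D * Real.log (⨆ a, v (x a))) =
      gs b + D * logHeight x := by
    rw [gs_add hb (FS_const_mul _ (FS_log_iSup hx0)), gs_const_mul, gs_log_iSup hx0]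
  rw [h3]
  have h4 : (D : ℝ) * logHeight x ≤ D * (C * H i) :=
    mul_le_mul_of_nonneg_left hCi' (Nat.cast_nonneg _)
  have h5 : (T - (D * C + 1)) * H i = T * H i - D * (C * H i) - H i := by ring
  rw [h5]
  linarith

end

end Pool.Agent.Lib.MP_17a322_nt.SL
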