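import Pool.Agent.Lib.MP_17a322_nt.SL.Z6
import Pool.Agent.Lib.MP_17a322_nt.SL.Z2

/-!
The sizes along the sequence: `X` and vectors in the kernel of `G`.
-/

universe u

namespace Pool.Agent.Lib.MP_17a322_nt.SL

open MvPolynomial Height Filter
open Pool.Agent.Lib.MP_17a322_nt.RO
open Pool.Agent.Lib.MP_17a322_nt.VJ
open Pool.Agent.Lib.MP_17a322_nt.VN hiding lf
open Pool.Agent.Lib.MP_17a322_nt.VA
open Pool.Agent.Lib.MP_17a322_nt.VP

section

variable {K : Type u} [Field K] [NumberField K] {N : ℕ} (A : AV K N)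
  (Γ : AddSubgroup (A.Pts K)) (hΓ : Γ.FG)
  {H : ℕ → ℝ} (hH : Tendsto H (hyperfilter ℕ : Filter ℕ) atTop) (P : ℕ → A.Pts K)
  (hPΓ : ∀ i, P i ∈ Γ)
  (hupp : ∃ C : ℝ, 0 < C ∧ ∀ᶠ i in (hyperfilter ℕ : Filter ℕ), A.h (P i) ≤ C * H i)
  {p : A.Pts (GK K)} (hPp : IsGerm A P p)
  (Sg : Finset (AbsoluteValue K ℝ)) (hSg : ∀ v ∈ Sg, Pl v)
  {r g : ℕ} (D : ℕ)
  (L : AbsoluteValue K ℝ → Fin r → Fin (r + g) → MvPolynomial (Fin (N + 1)) K)
  (G : Fin g → Fin (r + g) → MvPolynomial (Fin (N + 1)) K)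
  (hL : ∀ v ∈ Sg, ∀ k l, (L v k l).IsHomogeneous D) (hG : ∀ k l, (G k l).IsHomogeneous D)
  (hdet : ∀ v ∈ Sg, ∀ᶠ i in (hyperfilter ℕ : Filter ℕ),
    aeval (A.x (P i)) (stk (L v) G).det ≠ 0)

include hΓ hH hPΓ hupp hPp hSg hL hG hdet in
theorem Z_ev_det {v : AbsoluteValue K ℝ} (hv : v ∈ Sg) (δ : ℝ) (hδ : 0 < δ) :
    ∀ᶠ i in (hyperfilter ℕ : Filter ℕ),
      ((r + g : ℕ) : ℝ) * (D * Real.log (⨆ a, v (A.x (P i) a))) - δ * H i ≤
        Real.log (v (aeval (A.x (P i)) (stk (L v) G).det)) := by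
  filter_upwards [H_det_low A Γ hΓ P hPΓ hH hupp hPp (hSg v hv)
    (Z_stk_hom (hL v hv) hG) (hdet v hv) δ hδ] with i h1
  have hs0 : 0 < ⨆ a, v (A.x (P i) a) := P_sup_pos (Z_x_ne A _) v
  have h2 := Real.log_le_log (mul_pos (pow_pos hs0 _) (Real.exp_pos _)) h1
  rw [Real.log_mul (pow_pos hs0 _).ne' (Real.exp_pos _).ne', Real.log_exp, Real.log_pow] at h2
  have h3 : (((r + g) * D : ℕ) : ℝ) * Real.log (⨆ a, v (A.x (P i) a)) =
      ((r + g : ℕ) : ℝ) * (D * Real.log (⨆ a, v (A.x (P i) a))) := by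
    rw [Nat.cast_mul, mul_assoc]
  rw [h3] at h2
  linarith

include hΓ hH hPΓ hupp hPp hSg hL hG hdet in
theorem Z_ev_mx (hn : 0 < r + g) {v : AbsoluteValue K ℝ} (hv : v ∈ Sg) (δ : ℝ) (hδ : 0 < δ) :
    ∀ᶠ i in (hyperfilter ℕ : Filter ℕ),
      (⨆ a, v (A.x (P i) a)) ^ D * Real.exp (- δ * H i) ≤
        mx v (stk (fun k l => aeval (A.x (P i)) (L v k l))
          fun a l => aeval (A.x (P i)) (G a l)) := by
  filter_upwards [Z_ev_det A Γ hΓ hH P hPΓ hupp hPp Sg hSg D L G hL hG hdet hv (δ / 2)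
    (half_pos hδ), hdet v hv, hH.eventually (eventually_ge_atTop (Real.log (r + g).factorial /
      (δ / 2))), hH.eventually (eventually_ge_atTop 0)] with i h1 h2 h3 h4
  rw [div_le_iff₀ (half_pos hδ)] at h3
  have hs0 : 0 < ⨆ a, v (A.x (P i) a) := P_sup_pos (Z_x_ne A _) v
  rw [← Z_det_map] at h1 h2
  obtain ⟨M, hM⟩ : ∃ M : Matrix (Fin (r + g)) (Fin (r + g)) K, M =
    stk (fun k l => aeval (A.x (P i)) (L v k l)) fun a l => aeval (A.x (P i)) (G a l) := ⟨_, rfl⟩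
  rw [← hM] at h1 h2 ⊢
  have hm0 : 0 < mx v M := cm_mx_pos v hn M h2
  have h5 := det_le_mx v M
  have hc0 := Z_cst_pos v (r + g).factorial (r + g).factorial_pos
  have h6 := Real.log_le_log (v.pos h2) h5
  rw [Real.log_mul hc0.ne' (pow_pos hm0 _).ne', Real.log_pow] at h6
  have h7 := (Z_cst_log v (r + g).factorial (r + g).factorial_pos).2
  have hn1 : (1 : ℝ) ≤ ((r + g : ℕ) : ℝ) := by exact_mod_cast hn
  obtain ⟨n, hn'⟩ : ∃ n : ℝ, n = ((r + g : ℕ) : ℝ) := ⟨_, rfl⟩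
  rw [← hn'] at h1 h6 hn1
  have h8 : 0 ≤ δ * H i := mul_nonneg hδ.le h4
  have h9 : D * Real.log (⨆ a, v (A.x (P i) a)) - δ * H i ≤ Real.log (mx v M) := by
    have h10 : n * (D * Real.log (⨆ a, v (A.x (P i) a)) - δ * H i) ≤ n * Real.log (mx v M) := by
      have h11 : δ * H i ≤ n * (δ * H i) := le_mul_of_one_le_left h8 hn1
      rw [mul_sub]
      linarith
    exact le_of_mul_le_mul_left h10 (one_pos.trans_le hn1)
  rw [← Real.exp_log hm0]
  refine le_trans (le_of_eq ?_) (Real.exp_le_exp.2 h9)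
  rw [Real.exp_sub, Real.exp_nat_mul, Real.exp_log hs0, neg_mul, Real.exp_neg, div_eq_mul_inv]

open Classical in
theorem Z_kap : ∃ κ : ℝ, 0 < κ ∧ ∀ t : ℝ, 0 ≤ t →
    (gs fun v : AbsoluteValue K ℝ => if v ∈ Sg then t else 0) ≤ κ * t := by
  refine ⟨(gs fun v : AbsoluteValue K ℝ => if v ∈ Sg then 1 else 0) + 1, ?_, fun t ht => ?_⟩
  · have h1 : 0 ≤ gs fun v : AbsoluteValue K ℝ => if v ∈ Sg then (1 : ℝ) else 0 :=
      gs_nonneg fun v _ => by
        by_cases hv : v ∈ Sg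
        · rw [if_pos hv]
          exact zero_le_one
        · rw [if_neg hv]
    linarith
  · have h1 : (gs fun v : AbsoluteValue K ℝ => if v ∈ Sg then t else 0) =
        t * gs fun v : AbsoluteValue K ℝ => if v ∈ Sg then 1 else 0 := by
      rw [← gs_const_mul]
      congr 1
      funext v
      by_cases hv : v ∈ Sg
      · rw [if_pos hv, if_pos hv, mul_one]
      · rw [if_neg hv, if_neg hv, mul_zero]
    rw [h1]
    linarith

include hΓ hH hPΓ hupp hPp hSg hL hG hdet in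
/-- The size of `X`. -/
theorem Z_ev_X (X : ℕ → Fin (r + g) → K)
    (hX0 : ∀ᶠ i in (hyperfilter ℕ : Filter ℕ), X i ≠ 0)
    (hGX : ∀ᶠ i in (hyperfilter ℕ : Filter ℕ), ∀ a, ∑ l, aeval (A.x (P i)) (G a l) * X i l = 0)
    (c : AbsoluteValue K ℝ → Fin r → ℝ)
    (hval : ∀ v ∈ Sg, ∀ δ : ℝ, 0 < δ → ∀ᶠ i in (hyperfilter ℕ : Filter ℕ), ∀ k,
      v (∑ l, aeval (A.x (P i)) (L v k l) * X i l) * Real.exp (c v k * H i) ≤
        (⨆ l, v (X i l)) * (⨆ a, v (A.x (P i) a)) ^ D * Real.exp (δ * H i))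
    (δ : ℝ) (hδ : 0 < δ) :
    ∀ᶠ i in (hyperfilter ℕ : Filter ℕ), ∀ w : AbsoluteValue K ℝ → Fin (r + g) → ℝ,
      (∀ v ∈ Sg, ∀ k : Fin r, w v (Fin.castAdd g k) = c v k * H i) →
      gs (sw Sg w (fun v => stk (fun k l => aeval (A.x (P i)) (L v k l))
        fun a l => aeval (A.x (P i)) (G a l)) (X i)) ≤ logHeight (X i) + δ * H i := by
  classical
  have hn : 0 < r + g := by
    by_contra h
    obtain ⟨i, hi⟩ := hX0.exists
    apply hi
    funext l
    have h1 := l.2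
    omega
  obtain ⟨κ, hκ, hκt⟩ := Z_kap (K := K) Sg
  have hδ' : 0 < δ / (2 * κ) := by positivity
  obtain ⟨δ', hδ'e⟩ : ∃ δ', δ' = δ / (2 * κ) := ⟨_, rfl⟩
  rw [← hδ'e] at hδ'
  have e1 : ∀ᶠ i in (hyperfilter ℕ : Filter ℕ), ∀ v ∈ Sg,
      (⨆ a, v (A.x (P i) a)) ^ D * Real.exp (- δ' * H i) ≤
        mx v (stk (fun k l => aeval (A.x (P i)) (L v k l))
          fun a l => aeval (A.x (P i)) (G a l)) :=
    (eventually_all_finset Sg).2 fun v hv =>
      Z_ev_mx A Γ hΓ hH P hPΓ hupp hPp Sg hSg D L G hL hG hdet hn hv δ' hδ'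
  have e2 : ∀ᶠ i in (hyperfilter ℕ : Filter ℕ), ∀ v ∈ Sg, ∀ k,
      v (∑ l, aeval (A.x (P i)) (L v k l) * X i l) * Real.exp (c v k * H i) ≤
        (⨆ l, v (X i l)) * (⨆ a, v (A.x (P i) a)) ^ D * Real.exp (δ' * H i) :=
    (eventually_all_finset Sg).2 fun v hv => hval v hv δ' hδ'
  filter_upwards [hX0, hGX, e1, e2, (eventually_all_finset Sg).2 hdet,
    hH.eventually (eventually_ge_atTop 0)] with i h1 h2 h3 h4 h5 h6 w hw
  have h7 := Z_up_X Sg (fun v k l => aeval (A.x (P i)) (L v k l))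
    (fun a l => aeval (A.x (P i)) (G a l)) (fun v hv => by
      rw [Z_det_map]
      exact h5 v hv) h1 h2 w (fun _ => 2 * δ' * H i) (fun v hv k => by
      rw [hw v hv k]
      refine (h4 v hv k).trans ?_
      have hs : 0 ≤ ⨆ l, v (X i l) := Real.iSup_nonneg fun l => v.nonneg _
      have h8 : Real.exp (2 * δ' * H i) = Real.exp (δ' * H i) * Real.exp (δ' * H i) := by
        rw [← Real.exp_add]
        congr 1
        ring
      have h9 : (⨆ a, v (A.x (P i) a)) ^ D ≤ mx v (stk (fun k l => aeval (A.x (P i)) (L v k l))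
          fun a l => aeval (A.x (P i)) (G a l)) * Real.exp (δ' * H i) := by
        have h10 := mul_le_mul_of_nonneg_right (h3 v hv) (Real.exp_pos (δ' * H i)).le
        rw [mul_assoc, ← Real.exp_add, neg_mul, neg_add_cancel, Real.exp_zero, mul_one] at h10
        exact h10
      rw [h8]
      calc (⨆ l, v (X i l)) * (⨆ a, v (A.x (P i) a)) ^ D * Real.exp (δ' * H i) ≤
          (⨆ l, v (X i l)) * (mx v (stk (fun k l => aeval (A.x (P i)) (L v k l))
            fun a l => aeval (A.x (P i)) (G a l)) * Real.exp (δ' * H i)) *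
              Real.exp (δ' * H i) :=
            mul_le_mul_of_nonneg_right (mul_le_mul_of_nonneg_left h9 hs) (Real.exp_pos _).le
        _ = _ := by ring)
  refine h7.trans ?_
  have h8 := hκt (2 * δ' * H i) (by positivity)
  have h9 : κ * (2 * δ' * H i) = δ * H i := by
    rw [hδ'e]
    field_simp
  rw [h9] at h8
  linarith

include hΓ hH hPΓ hupp hPp hSg hL hG hdet in
/-- The sum of the sizes of `r` vectors in the kernel. -/
theorem Z_ev_sum (hinf : ∀ v : NumberField.InfinitePlace K, v.val ∈ Sg) (hn : 0 < r + g)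
    (c : AbsoluteValue K ℝ → Fin r → ℝ) (δ : ℝ) (hδ : 0 < δ) :
    ∀ᶠ i in (hyperfilter ℕ : Filter ℕ), ∀ w : AbsoluteValue K ℝ → Fin (r + g) → ℝ,
      (∀ v ∈ Sg, ∀ k : Fin r, w v (Fin.castAdd g k) = c v k * H i) →
      ∀ Y : Fin r → Fin (r + g) → K, LinearIndependent K Y →
      (∀ a b, ∑ l, aeval (A.x (P i)) (G a l) * Y b l = 0) →
      logHeight (fun f : Fin g → Fin (r + g) =>
        (Matrix.of fun a b => aeval (A.x (P i)) (G a (f b))).det) +
        gs (open Classical in fun v => if v ∈ Sg then ∑ k, c v k else 0) * H i - δ * H i ≤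
      ∑ j, gs (sw Sg w (fun v => stk (fun k l => aeval (A.x (P i)) (L v k l))
        fun a l => aeval (A.x (P i)) (G a l)) (Y j)) := by
  classical
  obtain ⟨v₀, hv₀⟩ : ∃ v₀, v₀ ∈ Sg := by
    obtain ⟨v⟩ := (inferInstance : Nonempty (NumberField.InfinitePlace K))
    exact ⟨_, hinf v⟩
  obtain ⟨κ, hκ, hκt⟩ := Z_kap (K := K) Sg
  have hδ' : 0 < δ / (2 * κ) := by positivity
  obtain ⟨δ', hδ'e⟩ : ∃ δ', δ' = δ / (2 * κ) := ⟨_, rfl⟩
  rw [← hδ'e] at hδ'
  obtain ⟨b, hb, hb0, hbb⟩ := Z_bd (D := D) (fun p : Sg × Fin (r + g) × Fin (r + g) =>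
    stk (L p.1) G p.2.1 p.2.2) fun p => Z_stk_hom (hL p.1 p.1.2) hG _ _
  obtain ⟨b', hb', hb0', hbb'⟩ := Z_bd (D := g * D) (fun f : Fin g → Fin (r + g) =>
    (Matrix.of fun a b => G a (f b)).det) fun f => CQ_det_homog fun a b => hG a (f b)
  have e1 : ∀ᶠ i in (hyperfilter ℕ : Filter ℕ), ∀ v ∈ Sg,
      ((r + g : ℕ) : ℝ) * (D * Real.log (⨆ a, v (A.x (P i) a))) - δ' * H i ≤
        Real.log (v (aeval (A.x (P i)) (stk (L v) G).det)) :=
    (eventually_all_finset Sg).2 fun v hv =>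
      Z_ev_det A Γ hΓ hH P hPΓ hupp hPp Sg hSg D L G hL hG hdet hv δ' hδ'
  filter_upwards [e1, (eventually_all_finset Sg).2 hdet,
    hH.eventually (eventually_ge_atTop 0),
    hH.eventually (eventually_ge_atTop ((∑ v ∈ Sg, (r * b v + b' v) + Real.log r.factorial) /
      δ'))] with i h1 h5 h6 h7 w hw Y hY hGY
  rw [div_le_iff₀ hδ'] at h7
  have hx0 : A.x (P i) ≠ 0 := Z_x_ne A _
  have hMd : ∀ v ∈ Sg, (stk (fun k l => aeval (A.x (P i)) (L v k l))
      fun a l => aeval (A.x (P i)) (G a l)).det ≠ 0 := fun v hv => by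
    rw [Z_det_map]
    exact h5 v hv
  have hGli : LinearIndependent K fun a l => aeval (A.x (P i)) (G a l) := by
    have h8 := (Matrix.linearIndependent_rows_of_det_ne_zero (hMd v₀ hv₀)).comp
      (Fin.natAdd r : Fin g → Fin (r + g)) (Fin.natAdd_injective g r)
    have h9 : ((fun i_1 => (stk (fun k l => aeval (A.x (P i)) (L v₀ k l))
        fun a l => aeval (A.x (P i)) (G a l)) i_1) ∘ (Fin.natAdd r : Fin g → Fin (r + g))) =
        fun a l => aeval (A.x (P i)) (G a l) := by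
      funext a l
      rw [Function.comp_apply, ← finSumFinEquiv_apply_right, stk_inr]
    rwa [h9] at h8
  have hG0 : (fun c : Fin g → Fin (r + g) =>
      (Matrix.of fun a b : Fin g => aeval (A.x (P i)) (G a (c b))).det) ≠ 0 := by
    obtain ⟨J, hJ⟩ := Z_minor _ hGli
    exact fun h => hJ (congrFun h J)
  have h8 := Z_sum_low Sg hinf (fun v k l => aeval (A.x (P i)) (L v k l))
    (fun a l => aeval (A.x (P i)) (G a l)) hMd hGli hG0 Y hY hGY w (fun _ => 2 * δ' * H i)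
    (fun v hv => by
      have hs1 : Real.log (⨆ c : Fin g → Fin (r + g),
          v (Matrix.of fun a b : Fin g => aeval (A.x (P i)) (G a (c b))).det) ≤
          b' v + (g * D : ℕ) * Real.log (⨆ a, v (A.x (P i) a)) := by
        refine Z_bd_sup hx0 hG0 fun f => ?_
        have h9 := hbb' (A.x (P i)) hx0 v f
        rw [AlgHom.map_det] at h9
        exact h9
      have hs2 : Real.log (mx v (stk (fun k l => aeval (A.x (P i)) (L v k l))
          fun a l => aeval (A.x (P i)) (G a l))) ≤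
          b v + D * Real.log (⨆ a, v (A.x (P i) a)) := by
        refine Z_bd_sup (ι := Fin (r + g) × Fin (r + g)) (y := fun p =>
          stk (fun k l => aeval (A.x (P i)) (L v k l)) (fun a l => aeval (A.x (P i)) (G a l))
            p.1 p.2) hx0 (fun h => ?_) fun p => ?_
        · have h2 : (stk (fun k l => aeval (A.x (P i)) (L v k l))
              fun a l => aeval (A.x (P i)) (G a l)) = 0 := by
            ext k l
            exact congrFun h (k, l)
          have : Nonempty (Fin (r + g)) := ⟨⟨0, hn⟩⟩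
          exact hMd v hv (by rw [h2, Matrix.det_zero])
        · rw [← Z_stk_map]
          exact hbb _ hx0 v (⟨v, hv⟩, p)
      have hs3 := h1 v hv
      rw [← Z_det_map] at hs3
      have hs4 : r * b v + b' v ≤ ∑ v ∈ Sg, (r * b v + b' v) :=
        Finset.single_le_sum (f := fun v => r * b v + b' v)
          (fun v _ => add_nonneg (mul_nonneg (Nat.cast_nonneg _) (hb0 v)) (hb0' v)) hv
      have hs5 : (r : ℝ) * Real.log (mx v (stk (fun k l => aeval (A.x (P i)) (L v k l))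
          fun a l => aeval (A.x (P i)) (G a l))) ≤
          r * (b v + D * Real.log (⨆ a, v (A.x (P i) a))) :=
        mul_le_mul_of_nonneg_left hs2 (Nat.cast_nonneg _)
      push_cast at hs1 hs3
      linarith)
  refine le_trans ?_ h8
  have h9 := hκt (2 * δ' * H i) (by positivity)
  have h10 : κ * (2 * δ' * H i) = δ * H i := by
    rw [hδ'e]
    field_simp
  rw [h10] at h9
  have h11 : (gs fun v => if v ∈ Sg then ∑ k : Fin r, w v (Fin.castAdd g k) else 0) =
      gs (fun v => if v ∈ Sg then ∑ k, c v k else 0) * H i := by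
    rw [mul_comm, ← gs_const_mul]
    congr 1
    funext v
    by_cases hv : v ∈ Sg
    · rw [if_pos hv, if_pos hv, Finset.mul_sum]
      exact Finset.sum_congr rfl fun k _ => by rw [hw v hv k, mul_comm]
    · rw [if_neg hv, if_neg hv, mul_zero]
  rw [h11]
  linarith

end

end Pool.Agent.Lib.MP_17a322_nt.SL
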