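import Pool.Agent.Lib.MP_17a322_nt.SL.Z7

/-!
A gap of the successive minima.
-/

universe u

namespace Pool.Agent.Lib.MP_17a322_nt.SL

open MvPolynomial Height Filter
open Pool.Agent.Lib.MP_17a322_nt.RO
open Pool.Agent.Lib.MP_17a322_nt.VJ
open Pool.Agent.Lib.MP_17a322_nt.VN hiding lf
open Pool.Agent.Lib.MP_17a322_nt.VA
open Pool.Agent.Lib.MP_17a322_nt.VP

/-- The first large value. -/
theorem Z_gap {n r : ℕ} (s : Fin n → ℝ) (hs : Monotone s) (τ : ℕ → ℝ)
    (h0 : ∀ j : Fin n, (j : ℕ) = 0 → s j < τ 0)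
    (h1 : ∃ j : Fin n, (j : ℕ) < r ∧ τ j ≤ s j) :
    ∃ k : ℕ, 0 < k ∧ k < r ∧ k < n ∧ (∀ j : Fin n, (j : ℕ) < k → s j ≤ τ (k - 1)) ∧
      ∀ j : Fin n, k ≤ (j : ℕ) → τ k ≤ s j := by
  classical
  have hex : ∃ k : ℕ, ∃ hk : k < n, k < r ∧ τ k ≤ s ⟨k, hk⟩ := by
    obtain ⟨j, hj, h2⟩ := h1
    exact ⟨j, j.2, hj, h2⟩
  obtain ⟨hkn, hkr, hk⟩ := Nat.find_spec hex
  have hmin := fun m => @Nat.find_min _ _ hex m
  obtain ⟨k, hk'⟩ : ∃ k, k = Nat.find hex := ⟨_, rfl⟩
  simp only [← hk'] at hkn hkr hk hmin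
  have hk0 : k ≠ 0 := by
    intro h
    subst h
    exact absurd hk (not_le.2 (h0 _ rfl))
  refine ⟨k, Nat.pos_of_ne_zero hk0, hkr, hkn, fun j hj => ?_, fun j hj => ?_⟩
  · have h2 : ¬ τ (k - 1) ≤ s ⟨k - 1, by omega⟩ := fun h =>
      hmin (k - 1) (by omega) ⟨by omega, by omega, h⟩
    refine (hs ?_).trans (not_le.1 h2).le
    exact Fin.mk_le_mk.2 (by omega)
  · exact hk.trans (hs (Fin.mk_le_mk.2 hj))

section

variable {K : Type u} [Field K] [NumberField K] {N : ℕ} (A : AV K N)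
  (Γ : AddSubgroup (A.Pts K)) (hΓ : Γ.FG)
  {H : ℕ → ℝ} (hH : Tendsto H (hyperfilter ℕ : Filter ℕ) atTop) (P : ℕ → A.Pts K)
  (hPΓ : ∀ i, P i ∈ Γ)
  (hupp : ∃ C : ℝ, 0 < C ∧ ∀ᶠ i in (hyperfilter ℕ : Filter ℕ), A.h (P i) ≤ C * H i)
  {p : A.Pts (GK K)} (hPp : IsGerm A P p)
  (Sg : Finset (AbsoluteValue K ℝ)) (hSg : ∀ v ∈ Sg, Pl v)
  (hinf : ∀ v : NumberField.InfinitePlace K, v.val ∈ Sg)
  {r g : ℕ} (D : ℕ)
  (L : AbsoluteValue K ℝ → Fin r → Fin (r + g) → MvPolynomial (Fin (N + 1)) K)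
  (G : Fin g → Fin (r + g) → MvPolynomial (Fin (N + 1)) K)
  (hL : ∀ v ∈ Sg, ∀ k l, (L v k l).IsHomogeneous D) (hG : ∀ k l, (G k l).IsHomogeneous D)
  (hdet : ∀ v ∈ Sg, ∀ᶠ i in (hyperfilter ℕ : Filter ℕ),
    aeval (A.x (P i)) (stk (L v) G).det ≠ 0)

include hΓ hH hPΓ hupp hPp hSg hinf hL hG hdet in
/-- The gap: `X` lies in the span of the first `k < r` vectors. -/
theorem Z_span (X : ℕ → Fin (r + g) → K)
    (hX0 : ∀ᶠ i in (hyperfilter ℕ : Filter ℕ), X i ≠ 0)
    (hXupp : ∃ C : ℝ, 0 < C ∧ ∀ᶠ i in (hyperfilter ℕ : Filter ℕ), logHeight (X i) ≤ C * H i)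
    (hGX : ∀ᶠ i in (hyperfilter ℕ : Filter ℕ), ∀ a, ∑ l, aeval (A.x (P i)) (G a l) * X i l = 0)
    (c : AbsoluteValue K ℝ → Fin r → ℝ) (hc : ∀ v ∈ Sg, ∀ k, 0 ≤ c v k)
    (hval : ∀ v ∈ Sg, ∀ δ : ℝ, 0 < δ → ∀ᶠ i in (hyperfilter ℕ : Filter ℕ), ∀ k,
      v (∑ l, aeval (A.x (P i)) (L v k l) * X i l) * Real.exp (c v k * H i) ≤
        (⨆ l, v (X i l)) * (⨆ a, v (A.x (P i) a)) ^ D * Real.exp (δ * H i))
    (ε : ℝ) (hε : 0 < ε)
    (hbad : ∀ᶠ i in (hyperfilter ℕ : Filter ℕ),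
      r * logHeight (X i) - logHeight (fun f : Fin g → Fin (r + g) =>
        (Matrix.of fun a b => aeval (A.x (P i)) (G a (f b))).det) + ε * H i ≤
      gs (open Classical in fun v => if v ∈ Sg then ∑ k, c v k else 0) * H i) :
    ∃ (c' : AbsoluteValue K ℝ → Fin (r + g) → ℝ) (y : ℕ → Fin (r + g) → Fin (r + g) → K)
      (s : ℕ → Fin (r + g) → ℝ) (k : ℕ) (α β : ℝ), 0 < k ∧ k < r ∧ α < β ∧
      (∀ᶠ i in (hyperfilter ℕ : Filter ℕ), Mn Sg (fun v k => c' v k * H i)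
        (fun v => (stk (L v) G).map (aeval (A.x (P i)))) 1 (y i) (s i)) ∧
      (∀ᶠ i in (hyperfilter ℕ : Filter ℕ), ∀ j : Fin (r + g), (j : ℕ) < k → s i j ≤ α * H i) ∧
      (∀ᶠ i in (hyperfilter ℕ : Filter ℕ), ∀ j : Fin (r + g), k ≤ (j : ℕ) → β * H i ≤ s i j) ∧
      ∀ᶠ i in (hyperfilter ℕ : Filter ℕ),
        X i ∈ Submodule.span K (y i '' {j | (j : ℕ) < k}) := by
  classical
  obtain ⟨v₀, hv₀⟩ : ∃ v₀, v₀ ∈ Sg := by
    obtain ⟨v⟩ := (inferInstance : Nonempty (NumberField.InfinitePlace K))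
    exact ⟨_, hinf v⟩
  have hn : 0 < r + g := by
    by_contra h
    obtain ⟨i, hi⟩ := hX0.exists
    apply hi
    funext l
    have h1 := l.2
    omega
  obtain ⟨C₁, hC₁⟩ := Z_ker_up A hH P hupp Sg hSg D L G hL hG hdet hv₀ c hc
  obtain ⟨C₂, hC₂⟩ := Z_notker_low A hH P hupp Sg D L G hL hG hdet hinf hSg hv₀
  obtain ⟨T, hT⟩ : ∃ T : ℝ, T = |C₁| + |C₂| + 3 := ⟨_, rfl⟩
  have hT0 : 0 ≤ T := by
    rw [hT]
    positivity
  obtain ⟨c', hc'⟩ : ∃ c' : AbsoluteValue K ℝ → Fin (r + g) → ℝ,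
      c' = fun v => Fin.append (c v) (fun _ => if v = v₀ then T else 0) := ⟨_, rfl⟩
  have hc'L : ∀ v k, c' v (Fin.castAdd g k) = c v k := fun v k => by
    rw [hc']
    exact Fin.append_left _ _ _
  have hc'G : ∀ v a, c' v (Fin.natAdd r a) = if v = v₀ then T else 0 := fun v a => by
    rw [hc']
    exact Fin.append_right _ _ _
  have hMe : ∀ i, (fun v => (stk (L v) G).map (aeval (A.x (P i)))) =
      fun v => stk (fun k l => aeval (A.x (P i)) (L v k l)) fun a l => aeval (A.x (P i)) (G a l) :=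
    fun i => funext fun v => Z_stk_map _ _ _
  -- the minima
  have hys : ∀ i, ∃ (y : Fin (r + g) → Fin (r + g) → K) (s : Fin (r + g) → ℝ),
      (∀ v ∈ Sg, aeval (A.x (P i)) (stk (L v) G).det ≠ 0) →
      Mn Sg (fun v k => c' v k * H i) (fun v => stk (fun k l => aeval (A.x (P i)) (L v k l))
        fun a l => aeval (A.x (P i)) (G a l)) 1 y s := by
    intro i
    by_cases h : ∀ v ∈ Sg, aeval (A.x (P i)) (stk (L v) G).det ≠ 0
    · obtain ⟨y, s, hy⟩ := exists_Mn hn Sg (fun v k => c' v k * H i)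
        (fun v => stk (fun k l => aeval (A.x (P i)) (L v k l))
          fun a l => aeval (A.x (P i)) (G a l)) fun v hv => by
            rw [Z_det_map]
            exact h v hv
      exact ⟨y, s, fun _ => hy⟩
    · exact ⟨0, 0, fun h' => absurd h' h⟩
  choose y s hMn using hys
  have hMn' : ∀ᶠ i in (hyperfilter ℕ : Filter ℕ), Mn Sg (fun v k => c' v k * H i)
      (fun v => stk (fun k l => aeval (A.x (P i)) (L v k l))
        fun a l => aeval (A.x (P i)) (G a l)) 1 (y i) (s i) := by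
    filter_upwards [(eventually_all_finset Sg).2 hdet] with i hi
    exact hMn i hi
  -- the first `r` vectors lie in the kernel
  have hker : ∀ᶠ i in (hyperfilter ℕ : Filter ℕ), ∀ (b : Fin r) (a : Fin g),
      ∑ l, aeval (A.x (P i)) (G a l) * y i (Fin.castAdd g b) l = 0 := by
    filter_upwards [hMn', hC₁, hC₂, hH.eventually (eventually_ge_atTop 1)] with i h1 h2 h3 h4 b a
    obtain ⟨u, hu, hu0, hus⟩ := h2
    by_contra hne
    have h5 := h3 T hT0 (fun v k => c' v k * H i) (fun a => by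
      rw [hc'G, if_pos rfl]) (fun v _ hv a => by
      rw [hc'G, if_neg hv, zero_mul]) _ a hne
    obtain ⟨k, hk⟩ : ∃ k, u k ∉ Submodule.span K (y i '' {j | j < Fin.castAdd g b}) := by
      by_contra hcon
      push Not at hcon
      have h6 : Submodule.span K (Set.range u) ≤
          Submodule.span K (y i '' {j | j < Fin.castAdd g b}) := by
        rw [Submodule.span_le]
        rintro _ ⟨k, rfl⟩
        exact hcon k
      have h7 := Submodule.finrank_mono h6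
      rw [finrank_span_eq_card hu, Fintype.card_fin] at h7
      have h8 := finrank_flag (y i) (Fin.castAdd g b).val
      have h9 : Module.finrank K (Submodule.span K (y i '' {j | j < Fin.castAdd g b})) =
        Module.finrank K (Submodule.span K (y i '' {j | j.val < (Fin.castAdd g b).val})) := rfl
      have h10 := b.2
      rw [Fin.val_castAdd] at h8 h9
      omega
    have h6 := h1.low _ _ hk
    have h7 := h1.up (Fin.castAdd g b)
    have h8 := hus k (fun v k => c' v k * H i) (fun v _ k => by rw [hc'L])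
    have h9 : C₁ * H i ≤ |C₁| * H i := mul_le_mul_of_nonneg_right (le_abs_self _) (by linarith)
    have h10 : (T - C₂) * H i ≥ (|C₁| + 3) * H i := by
      refine mul_le_mul_of_nonneg_right ?_ (by linarith)
      rw [hT]
      have := le_abs_self C₂
      linarith
    have h11 : (|C₁| + 3) * H i = |C₁| * H i + 3 * H i := by ring
    linarith
  -- the limit of the height of `X`
  obtain ⟨C, hC0, hC⟩ := hXupp
  obtain ⟨ξ, -, -, hξ⟩ := S_lim (fun i => logHeight (X i) / H i) (A := 0) (B := C) (by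
    filter_upwards [hC, hX0, hH.eventually (eventually_gt_atTop 0)] with i h1 h2 h3
    exact ⟨div_nonneg (logHeight_nonneg _) h3.le, (div_le_iff₀ h3).2 h1⟩)
  obtain ⟨δ₀, hδ₀⟩ : ∃ δ₀ : ℝ, δ₀ = ε / (8 * (r + 1)) := ⟨_, rfl⟩
  obtain ⟨γ, hγ⟩ : ∃ γ : ℝ, γ = ε / (8 * (r + 1) ^ 2) := ⟨_, rfl⟩
  have hr1 : (0 : ℝ) < r + 1 := by positivity
  have hδ₀0 : 0 < δ₀ := by
    rw [hδ₀]
    positivity
  have hγ0 : 0 < γ := by
    rw [hγ]
    positivity
  have hδr : (r + 1) * δ₀ = ε / 8 := by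
    rw [hδ₀]
    field_simp
  have hγr : (r + 1) * ((r + 1) * γ) = ε / 8 := by
    rw [hγ]
    field_simp
  obtain ⟨τ, hτ⟩ : ∃ τ : ℕ → ℝ, ∀ j, τ j = ξ + δ₀ + j * γ := ⟨_, fun _ => rfl⟩
  have hXsz := Z_ev_X A Γ hΓ hH P hPΓ hupp hPp Sg hSg D L G hL hG hdet X hX0 hGX c hval
    (δ₀ / 4) (by linarith)
  have hsum := Z_ev_sum A Γ hΓ hH P hPΓ hupp hPp Sg hSg D L G hL hG hdet hinf hn c (ε / 4)
    (by linarith)
  have hall : ∀ᶠ i in (hyperfilter ℕ : Filter ℕ), ∃ k : Fin (r + g), 0 < (k : ℕ) ∧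
      (k : ℕ) < r ∧ (∀ j : Fin (r + g), (j : ℕ) < k → s i j ≤ τ (k - 1) * H i) ∧
      (∀ j : Fin (r + g), (k : ℕ) ≤ (j : ℕ) → τ k * H i ≤ s i j) ∧
      X i ∈ Submodule.span K (y i '' {j | (j : ℕ) < k}) := by
    filter_upwards [hMn', hker, hξ (δ₀ / 4) (by linarith), hXsz, hsum, hbad, hX0,
      hH.eventually (eventually_gt_atTop 0),
      hH.eventually (eventually_ge_atTop (4 / δ₀))]
      with i h1 h2 h3 h4 h5 h6 h7 h8 h9
    rw [div_le_iff₀ hδ₀0] at h9
    have hxi : logHeight (X i) ≤ (ξ + δ₀ / 4) * H i ∧ (ξ - δ₀ / 4) * H i ≤ logHeight (X i) := by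
      rw [abs_le] at h3
      constructor
      · rw [← div_le_iff₀ h8]
        linarith [h3.2]
      · rw [← le_div_iff₀ h8]
        linarith [h3.1]
    have h10 := h4 (fun v k => c' v k * H i) (fun v _ k => by rw [hc'L])
    have hXτ : gs (sw Sg (fun v k => c' v k * H i)
        (fun v => stk (fun k l => aeval (A.x (P i)) (L v k l))
          fun a l => aeval (A.x (P i)) (G a l)) (X i)) + 1 < τ 0 * H i := by
      rw [hτ, Nat.cast_zero, zero_mul, add_zero]
      have h11 : (ξ + δ₀ / 4) * H i + δ₀ / 4 * H i + δ₀ / 4 * H i < (ξ + δ₀) * H i := by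
        have h12 : (ξ + δ₀) * H i =
          (ξ + δ₀ / 4) * H i + δ₀ / 4 * H i + δ₀ / 4 * H i + δ₀ / 4 * H i := by ring
        rw [h12]
        have h13 : 0 < δ₀ / 4 * H i := by positivity
        linarith
      have h12 : 1 ≤ δ₀ / 4 * H i := by linarith
      linarith [hxi.1]
    have hli : LinearIndependent K fun b : Fin r => y i (Fin.castAdd g b) :=
      h1.li.comp _ (Fin.castAdd_injective r g)
    have h11 := h5 (fun v k => c' v k * H i) (fun v _ k => by rw [hc'L]) _ hli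
      (fun a b => h2 b a)
    have h12 : ∑ b : Fin r, gs (sw Sg (fun v k => c' v k * H i)
        (fun v => stk (fun k l => aeval (A.x (P i)) (L v k l))
          fun a l => aeval (A.x (P i)) (G a l)) (y i (Fin.castAdd g b))) ≤
        ∑ b : Fin r, (s i (Fin.castAdd g b) + 1) :=
      Finset.sum_le_sum fun b _ => h1.up _
    rw [Finset.sum_add_distrib, Finset.sum_const, Finset.card_univ, Fintype.card_fin,
      nsmul_eq_mul, mul_one] at h12
    -- some value is large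
    have h13 : ∃ j : Fin (r + g), (j : ℕ) < r ∧ τ j * H i ≤ s i j := by
      by_contra hcon
      push Not at hcon
      have h14 : ∑ b : Fin r, s i (Fin.castAdd g b) ≤
          ∑ b : Fin r, (ξ + δ₀ + (r + 1) * γ) * H i := by
        refine Finset.sum_le_sum fun b _ => ?_
        have h15 := hcon (Fin.castAdd g b) (by rw [Fin.val_castAdd]; exact b.2)
        rw [hτ, Fin.val_castAdd] at h15
        refine h15.le.trans (mul_le_mul_of_nonneg_right ?_ h8.le)
        have h16 : ((b : ℕ) : ℝ) ≤ r + 1 := by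
          have h17 : ((b : ℕ) : ℝ) ≤ r := by exact_mod_cast b.2.le
          linarith
        have h18 := mul_le_mul_of_nonneg_right h16 hγ0.le
        linarith
      rw [Finset.sum_const, Finset.card_univ, Fintype.card_fin, nsmul_eq_mul] at h14
      have h15 : (r : ℝ) * ((ξ + δ₀ + (r + 1) * γ) * H i) ≤
          r * ((ξ - δ₀ / 4) * H i) + ((r + 1) * δ₀ * 2 + (r + 1) * ((r + 1) * γ)) * H i := by
        have h16 : (r : ℝ) * ((ξ + δ₀ + (r + 1) * γ) * H i) =
          r * ((ξ - δ₀ / 4) * H i) + (r * (δ₀ + δ₀ / 4) + r * ((r + 1) * γ)) * H i := by ring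
        rw [h16]
        have h17 : r * (δ₀ + δ₀ / 4) + r * ((r + 1) * γ) ≤
            (r + 1) * δ₀ * 2 + (r + 1) * ((r + 1) * γ) := by
          have h18 : (0 : ℝ) ≤ r := Nat.cast_nonneg r
          have h19 : 0 ≤ (r : ℝ) * δ₀ := by positivity
          have h20 : 0 ≤ (r + 1) * γ := by positivity
          nlinarith
        have h18 := mul_le_mul_of_nonneg_right h17 h8.le
        linarith
      rw [hδr, hγr] at h15
      have h16 : (r : ℝ) * ((ξ - δ₀ / 4) * H i) ≤ r * logHeight (X i) :=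
        mul_le_mul_of_nonneg_left hxi.2 (Nat.cast_nonneg _)
      have h17 : (r : ℝ) ≤ ε / 8 * H i := by
        have h18 : (4 : ℝ) * (r + 1) ≤ (r + 1) * δ₀ * H i := by
          have h19 := mul_le_mul_of_nonneg_left h9 hr1.le
          calc (4 : ℝ) * (r + 1) = (r + 1) * 4 := by ring
            _ ≤ (r + 1) * (H i * δ₀) := h19
            _ = _ := by ring
        rw [hδr] at h18
        have h19 : (0 : ℝ) ≤ r := Nat.cast_nonneg r
        linarith
      have h18 : (ε / 8 * 2 + ε / 8) * H i = 3 * (ε / 8 * H i) := by ring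
      rw [h18] at h15
      have h19 : ε * H i = 8 * (ε / 8 * H i) := by ring
      have h20 : ε / 4 * H i = 2 * (ε / 8 * H i) := by ring
      rw [h19] at h6
      rw [h20] at h11
      have h21 : 0 < ε / 8 * H i := by positivity
      linarith
    have h14 : ∀ j : Fin (r + g), (j : ℕ) = 0 → s i j < τ 0 * H i := by
      intro j hj
      refine lt_of_le_of_lt (h1.low j (X i) ?_) hXτ
      have h15 : {i : Fin (r + g) | i < j} = ∅ := by
        ext l
        simp only [Set.mem_ofPred_eq, Set.mem_empty_iff_false, iff_false, not_lt]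
        exact Fin.le_def.2 (by omega)
      rw [h15, Set.image_empty, Submodule.span_empty, Submodule.mem_bot]
      exact h7
    obtain ⟨k, hk0, hkr, hkn, hk1, hk2⟩ := Z_gap (s i) h1.mono (fun j => τ j * H i) h14 h13
    refine ⟨⟨k, hkn⟩, hk0, hkr, hk1, hk2, ?_⟩
    by_contra hcon
    have h15 := h1.low ⟨k, hkn⟩ (X i) hcon
    have h16 := hk2 ⟨k, hkn⟩ le_rfl
    have h17 : τ 0 * H i ≤ τ k * H i := by
      refine mul_le_mul_of_nonneg_right ?_ h8.le
      rw [hτ, hτ]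
      have h18 : 0 ≤ (k : ℝ) * γ := by positivity
      push_cast
      linarith
    linarith
  rw [Ultrafilter.eventually_exists_iff] at hall
  obtain ⟨k, hk⟩ := hall
  obtain ⟨i, hi⟩ := hk.exists
  refine ⟨c', y, s, k, τ (k - 1), τ k, hi.1, hi.2.1, ?_, ?_, ?_, ?_, ?_⟩
  · rw [hτ, hτ]
    have h1 : (((k : ℕ) - 1 : ℕ) : ℝ) = (k : ℕ) - 1 := by
      have h2 : 1 ≤ (k : ℕ) := hi.1
      push_cast [h2]
      ring
    rw [h1]
    linarith
  · filter_upwards [hMn'] with i h1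
    rw [hMe]
    exact h1
  · filter_upwards [hk] with i h1
    exact h1.2.2.1
  · filter_upwards [hk] with i h1
    exact h1.2.2.2.1
  · filter_upwards [hk] with i h1
    exact h1.2.2.2.2

end

end Pool.Agent.Lib.MP_17a322_nt.SL
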