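import Pool.Agent.Lib.MP_17a322_nt.SL.Z8
import Pool.Agent.Lib.MP_17a322_nt.SL.G9

/-!
The sequence which violates the inequality satisfies a linear equation over the algebraic closure of
`K(p)`.
-/

universe u

namespace Pool.Agent.Lib.MP_17a322_nt.SL

open MvPolynomial Height Filter
open Pool.Agent.Lib.MP_17a322_nt.RO
open Pool.Agent.Lib.MP_17a322_nt.VJ
open Pool.Agent.Lib.MP_17a322_nt.VN hiding lf
open Pool.Agent.Lib.MP_17a322_nt.VA
open Pool.Agent.Lib.MP_17a322_nt.VP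

/-- Germs of determinants. -/
theorem Z_gm_det {K : Type u} [Field K] {k : ℕ} (M : ℕ → Matrix (Fin k) (Fin k) K) :
    gm (fun i => (M i).det) = (Matrix.of fun a b => gm fun i => M i a b).det := by
  simp only [Matrix.det_apply']
  rw [gm_sum]
  refine Finset.sum_congr rfl fun σ _ => ?_
  rw [gm_mul, gm_prod, gm_const, map_intCast]
  rfl

/-- Germs of independent vectors are independent. -/
theorem Z_gm_li {K : Type u} [Field K] {q : ℕ} (y : ℕ → Fin q → Fin q → K)
    (hy : ∀ᶠ i in (hyperfilter ℕ : Filter ℕ), LinearIndependent K (y i)) :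
    LinearIndependent (GK K) fun (a : Fin q) (l : Fin q) => gm fun i => y i a l := by
  have h1 : (Matrix.of fun a b => gm fun i => (Matrix.of (y i)) a b).det ≠ 0 := by
    rw [← Z_gm_det, gm_ne_zero_iff]
    filter_upwards [hy] with i hi
    have h2 : LinearIndependent K (Matrix.of (y i)).row := hi
    rw [Matrix.linearIndependent_rows_iff_isUnit, Matrix.isUnit_iff_isUnit_det] at h2
    exact h2.ne_zero
  exact Matrix.linearIndependent_rows_of_det_ne_zero h1

/-- Germs of vectors in the span. -/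
theorem Z_gm_span {K : Type u} [Field K] {q k : ℕ} (hk : k ≤ q) (y : ℕ → Fin q → Fin q → K)
    (X : ℕ → Fin q → K)
    (hX : ∀ᶠ i in (hyperfilter ℕ : Filter ℕ),
      X i ∈ Submodule.span K (y i '' {j | (j : ℕ) < k})) :
    (fun l => gm fun i => X i l) ∈ Submodule.span (GK K)
      (Set.range fun (a : Fin k) (l : Fin q) => gm fun i => y i (Fin.castLE hk a) l) := by
  have h1 : ∀ i, ∃ c : Fin k → K, X i ∈ Submodule.span K (y i '' {j | (j : ℕ) < k}) →
      ∑ a, c a • y i (Fin.castLE hk a) = X i := by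
    intro i
    by_cases h : X i ∈ Submodule.span K (y i '' {j | (j : ℕ) < k})
    · have h2 : y i '' {j | (j : ℕ) < k} = Set.range fun a : Fin k => y i (Fin.castLE hk a) := by
        ext z
        constructor
        · rintro ⟨j, hj, rfl⟩
          exact ⟨⟨j, hj⟩, rfl⟩
        · rintro ⟨a, rfl⟩
          exact ⟨Fin.castLE hk a, a.2, rfl⟩
      have h3 := h
      rw [h2, Submodule.mem_span_range_iff_exists_fun] at h3
      obtain ⟨c, hc⟩ := h3
      exact ⟨c, fun _ => hc⟩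
    · exact ⟨0, fun h' => absurd h' h⟩
  choose c hc using h1
  rw [Submodule.mem_span_range_iff_exists_fun]
  refine ⟨fun a => gm fun i => c i a, ?_⟩
  funext l
  rw [Finset.sum_apply]
  have h2 : ∀ a : Fin k, ((gm fun i => c i a) • fun l => gm fun i => y i (Fin.castLE hk a) l) l =
      gm fun i => c i a * y i (Fin.castLE hk a) l := by
    intro a
    rw [Pi.smul_apply, smul_eq_mul, gm_mul]
  rw [Finset.sum_congr rfl fun a _ => h2 a, ← gm_sum, gm_eq_iff]
  filter_upwards [hX] with i hi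
  have h3 := congrFun (hc i hi) l
  rw [← h3, Finset.sum_apply]
  rfl

/-- CORE: the sequence `(P i, X i)` violates the inequality;
then `X` satisfies a linear equation over the algebraic closure of `K(p)` which does not hold on the
kernel of `G`. The weights `c v k` are the limits of the local heights. -/
theorem CORE {K : Type u} [Field K] [NumberField K] {N : ℕ} (A : AV K N)
    (Γ : AddSubgroup (A.Pts K)) (hΓ : Γ.FG) {H : ℕ → ℝ}
    (hH : Tendsto H (hyperfilter ℕ : Filter ℕ) atTop) (P : ℕ → A.Pts K) (hPΓ : ∀ i, P i ∈ Γ)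
    (hupp : ∃ C : ℝ, 0 < C ∧ ∀ᶠ i in (hyperfilter ℕ : Filter ℕ), A.h (P i) ≤ C * H i)
    {p : A.Pts (GK K)} (hPp : IsGerm A P p)
    (Sg : Finset (AbsoluteValue K ℝ)) (hSg : ∀ v ∈ Sg, Pl v)
    (hinf : ∀ v : NumberField.InfinitePlace K, v.val ∈ Sg) {r g : ℕ} (D : ℕ)
    (L : AbsoluteValue K ℝ → Fin r → Fin (r + g) → MvPolynomial (Fin (N + 1)) K)
    (G : Fin g → Fin (r + g) → MvPolynomial (Fin (N + 1)) K)
    (hL : ∀ v ∈ Sg, ∀ k l, (L v k l).IsHomogeneous D) (hG : ∀ k l, (G k l).IsHomogeneous D)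
    (hdet : ∀ v ∈ Sg, ∀ᶠ i in (hyperfilter ℕ : Filter ℕ),
      aeval (A.x (P i)) (stk (L v) G).det ≠ 0)
    (X : ℕ → Fin (r + g) → K) (hX0 : ∀ᶠ i in (hyperfilter ℕ : Filter ℕ), X i ≠ 0)
    (hXupp : ∃ C : ℝ, 0 < C ∧ ∀ᶠ i in (hyperfilter ℕ : Filter ℕ), logHeight (X i) ≤ C * H i)
    (hGX : ∀ᶠ i in (hyperfilter ℕ : Filter ℕ), ∀ a, ∑ l, aeval (A.x (P i)) (G a l) * X i l = 0)
    (c : AbsoluteValue K ℝ → Fin r → ℝ) (hc : ∀ v ∈ Sg, ∀ k, 0 ≤ c v k)
    (hval : ∀ v ∈ Sg, ∀ δ : ℝ, 0 < δ → ∀ᶠ i in (hyperfilter ℕ : Filter ℕ), ∀ k,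
      v (∑ l, aeval (A.x (P i)) (L v k l) * X i l) * Real.exp (c v k * H i) ≤
        (⨆ l, v (X i l)) * (⨆ a, v (A.x (P i) a)) ^ D * Real.exp (δ * H i))
    (ε : ℝ) (hε : 0 < ε)
    (hbad : ∀ᶠ i in (hyperfilter ℕ : Filter ℕ),
      r * logHeight (X i) - logHeight (fun f : Fin g → Fin (r + g) =>
        (Matrix.of fun a b => aeval (A.x (P i)) (G a (f b))).det) + ε * H i ≤
      gs (open Classical in fun v => if v ∈ Sg then ∑ k, c v k else 0) * H i) :
    ∃ (y : Fin (r + g) → GK K) (u : ℕ → Fin (r + g) → K),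
      (∀ l, IsAlgebraic (IntermediateField.adjoin K (Set.range (rt (A.x p)))) (y l)) ∧
      (∑ l, y l * gm (fun i => X i l) = 0) ∧
      (∀ᶠ i in (hyperfilter ℕ : Filter ℕ), ∀ a,
        ∑ l, aeval (A.x (P i)) (G a l) * u i l = 0) ∧
      ∑ l, y l * gm (fun i => u i l) ≠ 0 := by
  classical
  obtain ⟨c', y, s, k, α, β, hk0, hkr, hαβ, hMn, hα, hβ, hXs⟩ := Z_span A Γ hΓ hH P hPΓ hupp hPp
    Sg hSg hinf D L G hL hG hdet X hX0 hXupp hGX c hc hval ε hε hbad
  have hkq : k < r + g := by omega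
  obtain ⟨K1, hK1⟩ : ∃ K1 : Subfield (GK K), ∀ t, t ∈ K1 ↔
      IsAlgebraic (IntermediateField.adjoin K (Set.range (rt (A.x p)))) t :=
    ⟨(algebraicClosure (IntermediateField.adjoin K (Set.range (rt (A.x p)))) (GK K)).toSubfield,
      fun t => mem_algebraicClosure_iff⟩
  have hli : LinearIndependent (GK K) fun (a : Fin k) (l : Fin (r + g)) =>
      gm fun i => y i (Fin.castLE hkq.le a) l := by
    have h1 := Z_gm_li y (by
      filter_upwards [hMn] with i hi
      exact hi.li)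
    exact h1.comp (Fin.castLE hkq.le) (Fin.castLE_injective hkq.le)
  obtain ⟨φ, u, hφ, hφX, hGu, hφu⟩ := Z_phi K1 hkr
    (fun a l => gm fun i => aeval (A.x (P i)) (G a l)) _ hli (fun I J => by
      rw [hK1]
      have h1 := GT A Γ hΓ hH P hPΓ hupp hPp Sg hSg hinf D (fun v => stk (L v) G)
        (fun v hv => Z_stk_hom (hL v hv) hG) hdet c' y s hMn hk0 hkq α β hαβ hα hβ I J
      rw [gm_div, Z_gm_det, Z_gm_det] at h1
      exact h1) _ (Z_gm_span hkq.le y X hXs)
  have hsur : ∀ l, ∃ α : ℕ → K, gm α = u l := fun l => ⟨rp (u l), gm_rp (u l)⟩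
  choose u' hu' using hsur
  refine ⟨φ, fun i l => u' l i, fun l => (hK1 _).1 (hφ l), hφX, ?_, ?_⟩
  · refine eventually_all.2 fun a => ?_
    have h1 := hGu a
    have h2 : gm (fun i => ∑ l, aeval (A.x (P i)) (G a l) * u' l i) = 0 := by
      rw [gm_sum, ← h1]
      refine Finset.sum_congr rfl fun l _ => ?_
      rw [gm_mul, ← hu' l]
    exact gm_eq_zero_iff.1 h2
  · have h1 : ∀ l, gm (fun i => u' l i) = u l := hu'
    simp only [h1]
    exact hφu

end Pool.Agent.Lib.MP_17a322_nt.SL
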